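import Pool.Agent.Lib.MP_5d4057_al.HM.Aut

/-!
# Part F2: a complex number which is not an algebraic integer is large at some embedding in an
algebraic closure of a field of `p`-adic numbers
-/

namespace Pool.Agent.Lib.MP_5d4057_al.IN

open Polynomial

private theorem mk_padic_le (p : ℕ) [Fact p.Prime] : Cardinal.mk ℚ_[p] ≤ Cardinal.continuum := by
  have h1 : Cardinal.mk ℚ_[p] ≤ Cardinal.mk (CauSeq ℚ (padicNorm p)) := Cardinal.mk_quotient_le
  have h2 : Cardinal.mk (CauSeq ℚ (padicNorm p)) ≤ Cardinal.mk (ℕ → ℚ) :=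
    Cardinal.mk_subtype_le _
  have h3 : Cardinal.mk (ℕ → ℚ) = Cardinal.continuum := by
    rw [← Cardinal.aleph0_power_aleph0]
    simp
  exact h1.trans (h2.trans h3.le)

/-- The cardinality of the algebraic closure of the `p`-adic numbers. -/
theorem mk_padicAlgCl (p : ℕ) [Fact p.Prime] : Cardinal.mk (PadicAlgCl p) = Cardinal.mk ℂ := by
  rw [Cardinal.mk_complex]
  refine le_antisymm ?_ ?_
  · exact (Algebra.IsAlgebraic.cardinalMk_le_max ℚ_[p] (PadicAlgCl p)).trans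
      (max_le (mk_padic_le p) Cardinal.aleph0_le_continuum)
  · exact (continuum_le_cardinal_of_nontriviallyNormedField ℚ_[p]).trans
      (Cardinal.mk_le_of_injective (algebraMap ℚ_[p] (PadicAlgCl p)).injective)

/-- the coefficients of a product of linear factors with roots in the unit ball -/
private theorem coeff_le {K : Type} [NormedField K] [IsUltrametricDist K] (s : Multiset K)
    (hs : ∀ y ∈ s, ‖y‖ ≤ 1) (n : ℕ) : ‖((s.map fun y => Polynomial.X - Polynomial.C y).prod).coeff n‖ ≤ 1 := by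
  induction s using Multiset.induction_on generalizing n with
  | empty =>
    rw [Multiset.map_zero, Multiset.prod_zero, coeff_one]
    split_ifs
    · rw [norm_one]
    · rw [norm_zero]
      exact zero_le_one
  | cons y s ih =>
    have h1 := ih fun z hz => hs z (Multiset.mem_cons_of_mem hz)
    have h2 := hs y (Multiset.mem_cons_self y s)
    rw [Multiset.map_cons, Multiset.prod_cons, sub_mul, coeff_sub, coeff_C_mul, sub_eq_add_neg]
    refine (IsUltrametricDist.norm_add_le_max _ _).trans (max_le ?_ ?_)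
    · rcases n with _ | n
      · rw [coeff_X_mul_zero, norm_zero]
        exact zero_le_one
      · rw [coeff_X_mul]
        exact h1 n
    · rw [norm_neg, norm_mul]
      exact mul_le_one₀ h2 (norm_nonneg _) (h1 n)

/-- a rational number which is not an integer is large at some prime -/
private theorem exists_prime {a : ℚ} (ha : a ∉ Set.range (algebraMap ℤ ℚ)) :
    ∃ (p : ℕ) (_ : Fact p.Prime), 1 < ‖(a : ℚ_[p])‖ := by
  have hd : a.den ≠ 1 := by
    intro h
    exact ha ⟨a.num, (Rat.den_eq_one_iff a).1 h⟩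
  obtain ⟨p, hp, hpd⟩ := Nat.exists_prime_and_dvd hd
  have : Fact p.Prime := ⟨hp⟩
  refine ⟨p, this, ?_⟩
  have h1 : ‖((a.den : ℕ) : ℚ_[p])‖ < 1 := Padic.norm_natCast_lt_one_iff.2 hpd
  have h2 : ‖((a.num : ℤ) : ℚ_[p])‖ = 1 := by
    rw [Padic.norm_intCast_eq_one_iff, Int.isCoprime_iff_gcd_eq_one]
    have h3 := a.reduced
    have h4 : Nat.Coprime a.num.natAbs p := h3.coprime_dvd_right hpd
    rw [Int.gcd, Int.natAbs_natCast]
    exact h4
  have h0 : ((a.den : ℕ) : ℚ_[p]) ≠ 0 := by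
    exact_mod_cast a.den_ne_zero
  have h3 : (a : ℚ_[p]) = ((a.num : ℤ) : ℚ_[p]) / ((a.den : ℕ) : ℚ_[p]) := by
    conv_lhs => rw [← Rat.num_div_den a]
    push_cast
    rfl
  rw [h3, norm_div, h2, one_div]
  exact (one_lt_inv₀ (norm_pos_iff.2 h0)).2 h1

/-- Algebraic case. PROOF: some coefficient `a` of the minimal polynomial `P` of `x` over `ℚ` is not an
integer, so `1 < ‖a‖` in `ℚ_[p]` for some `p`; `P` splits over `PadicAlgCl p`; if all its roots have
norm at most one then all coefficients have norm at most one (they are elementary symmetric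
functions, `Polynomial.coeff_eq_esymm_roots_of_card` or `Multiset.prod_X_sub_C_coeff`); so there is
a root `y` with `1 < ‖y‖`; extend `ℚ(x) → PadicAlgCl p`, `x ↦ y`, by `HM.aut_general`. -/
theorem exists_embed_alg {x : ℂ} (hx : IsAlgebraic ℚ x) (h : ¬ IsIntegral ℤ x) :
    ∃ (p : ℕ) (_ : Fact p.Prime) (σ : ℂ ≃+* PadicAlgCl p), 1 < ‖σ x‖ := by
  have hint : IsIntegral ℚ x := hx.isIntegral
  obtain ⟨n, hn⟩ : ∃ n, (minpoly ℚ x).coeff n ∉ Set.range (algebraMap ℤ ℚ) := by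
    by_contra hcon
    push Not at hcon
    have hl : minpoly ℚ x ∈ lifts (algebraMap ℤ ℚ) := by
      rw [lifts_iff_coeff_lifts]
      exact hcon
    obtain ⟨q, hq1, -, hq3⟩ := lifts_and_natDegree_eq_and_monic hl (minpoly.monic hint)
    refine h ⟨q, hq3, ?_⟩
    have h1 : aeval x (minpoly ℚ x) = 0 := minpoly.aeval ℚ x
    rw [← hq1, aeval_map_algebraMap] at h1
    exact h1
  obtain ⟨p, hp, hpa⟩ := exists_prime hn
  refine ⟨p, hp, ?_⟩
  have hspl : ((minpoly ℚ x).map (algebraMap ℚ (PadicAlgCl p))).Splits := IsAlgClosed.splits _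
  have hm : ((minpoly ℚ x).map (algebraMap ℚ (PadicAlgCl p))).Monic := (minpoly.monic hint).map _
  obtain ⟨y, hy, hy1⟩ : ∃ y ∈ (minpoly ℚ x).aroots (PadicAlgCl p), 1 < ‖y‖ := by
    by_contra hcon
    push Not at hcon
    have h1 := coeff_le _ hcon n
    have h2 : (((minpoly ℚ x).aroots (PadicAlgCl p)).map fun y => Polynomial.X - Polynomial.C y).prod =
        (minpoly ℚ x).map (algebraMap ℚ (PadicAlgCl p)) := by
      rw [aroots]
      exact (hspl.eq_prod_roots_of_monic hm).symm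
    rw [h2, coeff_map] at h1
    have h3 : algebraMap ℚ (PadicAlgCl p) ((minpoly ℚ x).coeff n) =
        algebraMap ℚ_[p] (PadicAlgCl p) (((minpoly ℚ x).coeff n : ℚ) : ℚ_[p]) := by
      rw [map_ratCast]
      rfl
    rw [h3] at h1
    have h4 : ‖algebraMap ℚ_[p] (PadicAlgCl p) (((minpoly ℚ x).coeff n : ℚ) : ℚ_[p])‖ =
        ‖(((minpoly ℚ x).coeff n : ℚ) : ℚ_[p])‖ := PadicAlgCl.norm_extends p _
    rw [h4] at h1
    exact absurd hpa (not_lt.2 h1)
  let φ : IntermediateField.adjoin ℚ {x} →ₐ[ℚ] PadicAlgCl p :=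
    (IntermediateField.algHomAdjoinIntegralEquiv ℚ hint).symm ⟨y, hy⟩
  have hφ : φ (IntermediateField.AdjoinSimple.gen ℚ x) = y :=
    IntermediateField.algHomAdjoinIntegralEquiv_symm_apply_gen ℚ hint ⟨y, hy⟩
  have : Countable (IntermediateField.adjoin ℚ {x}) := by
    have hfin : FiniteDimensional ℚ (IntermediateField.adjoin ℚ {x}) :=
      IntermediateField.adjoin.finiteDimensional hint
    have h6 : Cardinal.mk (IntermediateField.adjoin ℚ {x}) ≤ max (Cardinal.mk ℚ) Cardinal.aleph0 :=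
      Algebra.IsAlgebraic.cardinalMk_le_max ℚ _
    rw [Cardinal.mkRat, max_self] at h6
    exact Cardinal.mk_le_aleph0_iff.1 h6
  obtain ⟨t, ht⟩ := @HM.aut_general (IntermediateField.adjoin ℚ {x}) ℂ (PadicAlgCl p) _ _ _ _ _
    φ.toRingHom.toAlgebra _ _ HM.aleph0_lt_complex (mk_padicAlgCl p).symm
  refine ⟨t, ?_⟩
  have h5 : t x = y := by
    have h7 := ht (IntermediateField.AdjoinSimple.gen ℚ x)
    have h8 : algebraMap (IntermediateField.adjoin ℚ {x}) ℂ
        (IntermediateField.AdjoinSimple.gen ℚ x) = x :=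
      IntermediateField.AdjoinSimple.algebraMap_gen ℚ x
    rw [h8] at h7
    rw [h7]
    exact hφ
  rw [h5]
  exact hy1

/-- an embedding of `ℚ(X)` -/
private theorem lift_trans {K : Type} [Field K] [CharZero K] {y : K} (hy : Transcendental ℚ y) :
    ∃ f : FractionRing ℚ[X] →+* K, f (algebraMap ℚ[X] (FractionRing ℚ[X]) Polynomial.X) = y := by
  have hinj : Function.Injective ((aeval y : ℚ[X] →ₐ[ℚ] K) : ℚ[X] →+* K) :=
    transcendental_iff_injective.1 hy
  refine ⟨IsFractionRing.lift hinj, ?_⟩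
  rw [IsFractionRing.lift_algebraMap]
  exact aeval_X y

/-- Transcendental case: `p = 2`; `τ : ℂ ≃+* PadicAlgCl 2` any isomorphism (`aut_general` over `ℚ`);
`y = τ x / 2 ^ N` is transcendental with `1 < ‖y‖` for large `N`; `R = RatFunc ℚ` with the two algebra
structures `X ↦ x` and `X ↦ y`, `aut_general` again. -/
theorem exists_embed_trans {x : ℂ} (hx : Transcendental ℚ x) :
    ∃ (p : ℕ) (_ : Fact p.Prime) (σ : ℂ ≃+* PadicAlgCl p), 1 < ‖σ x‖ := by
  have hp : Fact (Nat.Prime 2) := ⟨Nat.prime_two⟩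
  refine ⟨2, hp, ?_⟩
  obtain ⟨τ, -⟩ := HM.aut_general (R := ℚ) (A := ℂ) (B := PadicAlgCl 2) HM.aleph0_lt_complex
    (mk_padicAlgCl 2).symm
  have hx0 : x ≠ 0 := fun h => hx (h ▸ isAlgebraic_zero)
  have hτ0 : τ x ≠ 0 := (map_ne_zero_iff τ τ.injective).2 hx0
  have hn2 : ‖(2 : PadicAlgCl 2)‖ = 1 / 2 := by
    have h1 : (2 : PadicAlgCl 2) = algebraMap ℚ_[2] (PadicAlgCl 2) (2 : ℚ_[2]) := by
      rw [map_ofNat]
    have h2 : ‖algebraMap ℚ_[2] (PadicAlgCl 2) (2 : ℚ_[2])‖ = ‖(2 : ℚ_[2])‖ :=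
      PadicAlgCl.norm_extends 2 _
    have h3 : ‖((2 : ℕ) : ℚ_[2])‖ = ((2 : ℕ) : ℝ)⁻¹ := Padic.norm_p
    rw [h1, h2]
    push_cast at h3
    rw [h3]
    norm_num
  obtain ⟨N, hN⟩ : ∃ N : ℕ, ‖τ x‖⁻¹ < 2 ^ N := pow_unbounded_of_one_lt _ one_lt_two
  obtain ⟨y, hyd⟩ : ∃ y, y = τ x / 2 ^ N := ⟨_, rfl⟩
  have hy1 : 1 < ‖y‖ := by
    have h1 : 0 < ‖τ x‖ := norm_pos_iff.2 hτ0
    rw [hyd, norm_div, norm_pow, hn2, one_div, inv_pow, div_inv_eq_mul]
    calc (1 : ℝ) = ‖τ x‖ * ‖τ x‖⁻¹ := (mul_inv_cancel₀ h1.ne').symm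
      _ < ‖τ x‖ * 2 ^ N := mul_lt_mul_of_pos_left hN h1
  have hyt : Transcendental ℚ y := by
    intro ha
    apply hx
    have h20 : (2 : PadicAlgCl 2) ^ N ≠ 0 := pow_ne_zero _ two_ne_zero
    have h1 : IsAlgebraic ℚ (τ x) := by
      have h2 : τ x = y * 2 ^ N := by
        rw [hyd, div_mul_cancel₀ _ h20]
      rw [h2]
      have h3 : IsAlgebraic ℚ ((2 : PadicAlgCl 2) ^ N) := by
        have h4 := isAlgebraic_algebraMap (A := PadicAlgCl 2) ((2 : ℚ) ^ N)
        rwa [map_pow, map_ofNat] at h4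
      exact ha.mul h3
    have h2 := h1.algHom (RingHom.toRatAlgHom (τ.symm : PadicAlgCl 2 →+* ℂ))
    have h3 : (RingHom.toRatAlgHom (τ.symm : PadicAlgCl 2 →+* ℂ)) (τ x) = x :=
      τ.symm_apply_apply x
    rwa [h3] at h2
  obtain ⟨f, hf⟩ := lift_trans hx
  obtain ⟨g, hg⟩ := lift_trans hyt
  have hc : Countable (FractionRing ℚ[X]) := by
    have h1 : Countable ℚ[X] := by
      rw [← Cardinal.mk_le_aleph0_iff]
      refine Polynomial.cardinalMk_le_max.trans (max_le ?_ le_rfl)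
      rw [Cardinal.mkRat]
    have h2 : Function.Surjective fun z : ℚ[X] × nonZeroDivisors ℚ[X] =>
        (IsLocalization.mk' (FractionRing ℚ[X]) z.1 z.2 : FractionRing ℚ[X]) := by
      intro w
      obtain ⟨a, s, h3⟩ := IsLocalization.exists_mk'_eq (nonZeroDivisors ℚ[X]) w
      exact ⟨(a, s), h3⟩
    exact h2.countable
  obtain ⟨t, ht⟩ := @HM.aut_general (FractionRing ℚ[X]) ℂ (PadicAlgCl 2) _ hc _ _ f.toAlgebra
    g.toAlgebra _ _ HM.aleph0_lt_complex (mk_padicAlgCl 2).symm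
  refine ⟨t, ?_⟩
  have h5 : t x = y := by
    have h7 := ht (algebraMap ℚ[X] (FractionRing ℚ[X]) Polynomial.X)
    have h8 : f (algebraMap ℚ[X] (FractionRing ℚ[X]) Polynomial.X) = x := hf
    have h9 : t (f (algebraMap ℚ[X] (FractionRing ℚ[X]) Polynomial.X)) =
      g (algebraMap ℚ[X] (FractionRing ℚ[X]) Polynomial.X) := h7
    rw [h8, hg] at h9
    exact h9
  rw [h5]
  exact hy1

theorem exists_embed {x : ℂ} (h : ¬ IsIntegral ℤ x) :
    ∃ (p : ℕ) (_ : Fact p.Prime) (σ : ℂ ≃+* PadicAlgCl p), 1 < ‖σ x‖ := by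
  by_cases hx : IsAlgebraic ℚ x
  · exact exists_embed_alg hx h
  · exact exists_embed_trans hx

end Pool.Agent.Lib.MP_5d4057_al.IN
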