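import Pool.Agent.Lib.MP_5d4057_al.IN.FDef
import Pool.Agent.Lib.MP_5d4057_al.RC.Fgg

/-!
# Part F3: the representation over a local field attached to `σ : ℂ ≃+* PadicAlgCl p`
-/

namespace Pool.Agent.Lib.MP_5d4057_al.IN

open Matrix MeasureTheory Filter Topology Module Pool.Agent.Lib.MP_5d4057_al
  Pool.Agent.Lib.MP_5d4057_al.Hyb Pool.Agent.Lib.MP_5d4057_al.HM Pool.Agent.Lib.MP_5d4057_al.NU

/-- A local field inside `PadicAlgCl p` containing a given finite set: the field
`k = ℚ_[p](S)` with the restricted norm. The statement packs all instances. PROOF: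
`IntermediateField.adjoin ℚ_[p] S` is finite dimensional (all elements are algebraic),
`FiniteDimensional.proper ℚ_[p]`, the norm is the restriction. -/
theorem exists_local (p : ℕ) [Fact p.Prime] (S : Finset (PadicAlgCl p)) :
    ∃ (k : Type) (_ : NontriviallyNormedField k) (_ : IsUltrametricDist k) (_ : ProperSpace k)
      (i : k →+* PadicAlgCl p), (∀ x, ‖i x‖ = ‖x‖) ∧ ∀ y ∈ S, ∃ x, i x = y := by
  classical
  let L : IntermediateField ℚ_[p] (PadicAlgCl p) :=
    IntermediateField.adjoin ℚ_[p] (S : Set (PadicAlgCl p))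
  have hfd : FiniteDimensional ℚ_[p] L :=
    IntermediateField.finiteDimensional_adjoin fun x _ =>
      (Algebra.IsAlgebraic.isAlgebraic (R := ℚ_[p]) x).isIntegral
  let I1 : NontriviallyNormedField L :=
    { (inferInstance : NormedField L) with
      non_trivial := by
        obtain ⟨x, hx⟩ := NontriviallyNormedField.non_trivial (α := ℚ_[p])
        refine ⟨algebraMap ℚ_[p] L x, ?_⟩
        have h : ‖algebraMap ℚ_[p] (PadicAlgCl p) x‖ = ‖x‖ := PadicAlgCl.norm_extends p x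
        have h2 : ‖algebraMap ℚ_[p] L x‖ = ‖algebraMap ℚ_[p] (PadicAlgCl p) x‖ := rfl
        rw [h2, h]
        exact hx }
  let I2 : NormedSpace ℚ_[p] L :=
    { (inferInstance : Module ℚ_[p] L) with
      norm_smul_le := fun a b => by
        have h : ‖((a • b : L) : PadicAlgCl p)‖ ≤ ‖a‖ * ‖(b : PadicAlgCl p)‖ := by
          have h3 : ((a • b : L) : PadicAlgCl p) = a • (b : PadicAlgCl p) := rfl
          rw [h3]
          exact norm_smul_le a (b : PadicAlgCl p)
        exact h }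
  have I3 : IsUltrametricDist L :=
    IsUltrametricDist.isUltrametricDist_of_forall_norm_add_le_max_norm fun x y =>
      PadicAlgCl.isNonarchimedean p (x : PadicAlgCl p) (y : PadicAlgCl p)
  have I4 : ProperSpace L := FiniteDimensional.proper ℚ_[p] L
  refine ⟨L, I1, I3, I4, L.val.toRingHom, fun x => rfl, fun y hy => ?_⟩
  exact ⟨⟨y, IntermediateField.subset_adjoin _ _ hy⟩, rfl⟩

section bounds

variable {p : ℕ} [Fact p.Prime]

/-- bounded entries -/
private def BE (σ : ℂ ≃+* PadicAlgCl p) {n : ℕ} (S : Set (Matrix (Fin n) (Fin n) ℂ)) : Prop :=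
  ∃ C : ℝ, 0 ≤ C ∧ ∀ A ∈ S, ∀ a b, ‖σ (A a b)‖ ≤ C

private theorem bd_finite {α : Type} {n : ℕ} {S : Set α} (hS : S.Finite)
    (f : α → Fin n → Fin n → ℝ) (hf : ∀ A a b, 0 ≤ f A a b) :
    ∃ C : ℝ, 0 ≤ C ∧ ∀ A ∈ S, ∀ a b, f A a b ≤ C := by
  refine ⟨∑ A ∈ hS.toFinset, ∑ a, ∑ b, f A a b,
    Finset.sum_nonneg fun _ _ => Finset.sum_nonneg fun _ _ => Finset.sum_nonneg fun _ _ =>
      hf _ _ _, fun A hA a b => ?_⟩
  have h1 : f A a b ≤ ∑ b, f A a b :=
    Finset.single_le_sum (f := fun b => f A a b) (fun _ _ => hf _ _ _) (Finset.mem_univ b)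
  have h2 : ∑ b, f A a b ≤ ∑ a, ∑ b, f A a b :=
    Finset.single_le_sum (f := fun a => ∑ b, f A a b)
      (fun _ _ => Finset.sum_nonneg fun _ _ => hf _ _ _) (Finset.mem_univ a)
  have h3 : ∑ a, ∑ b, f A a b ≤ ∑ A ∈ hS.toFinset, ∑ a, ∑ b, f A a b :=
    Finset.single_le_sum (f := fun A => ∑ a, ∑ b, f A a b)
      (fun _ _ => Finset.sum_nonneg fun _ _ => Finset.sum_nonneg fun _ _ => hf _ _ _)
      (hS.mem_toFinset.2 hA)
  exact h1.trans (h2.trans h3)

private theorem BE.of_finite (σ : ℂ ≃+* PadicAlgCl p) {n : ℕ}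
    {S : Set (Matrix (Fin n) (Fin n) ℂ)} (hS : S.Finite) : BE σ S :=
  bd_finite hS (fun A a b => ‖σ (A a b)‖) fun _ _ _ => norm_nonneg _

private theorem norm_mul_entry {n : ℕ} (σ : ℂ ≃+* PadicAlgCl p)
    (A B : Matrix (Fin n) (Fin n) ℂ) {C C' : ℝ} (hC : 0 ≤ C) (hC' : 0 ≤ C')
    (hA : ∀ a b, ‖σ (A a b)‖ ≤ C) (hB : ∀ a b, ‖σ (B a b)‖ ≤ C') (a b : Fin n) :
    ‖σ ((A * B) a b)‖ ≤ C * C' := by
  rw [Matrix.mul_apply, map_sum]
  refine IsUltrametricDist.norm_sum_le_of_forall_le_of_nonneg (mul_nonneg hC hC') fun c _ => ?_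
  rw [map_mul, norm_mul]
  exact mul_le_mul (hA _ _) (hB _ _) (norm_nonneg _) hC

private theorem BE.unitPoints {m : ℕ} (σ : ℂ ≃+* PadicAlgCl p)
    {O : Subring (Matrix (Fin (m + 1)) (Fin (m + 1)) ℂ)} (h : O.toAddSubgroup.FG) :
    ∃ C : ℝ, 0 ≤ C ∧ ∀ γ ∈ Hyb.unitPoints m O, ∀ a b, ‖σ (γ.toMatrix a b)‖ ≤ C := by
  obtain ⟨S, hS⟩ := h
  obtain ⟨C, hC0, hC⟩ := BE.of_finite σ
    (S := (S : Set (Matrix (Fin (m + 1)) (Fin (m + 1)) ℂ))) S.finite_toSet
  refine ⟨C, hC0, ?_⟩
  have h1 : ∀ A ∈ O.toAddSubgroup, ∀ i j, ‖σ (A i j)‖ ≤ C := by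
    rw [← hS]
    intro A hA
    induction hA using AddSubgroup.closure_induction with
    | mem x hx => exact hC x hx
    | zero =>
      intro i j
      rw [Matrix.zero_apply, map_zero, norm_zero]
      exact hC0
    | add x y _ _ hx hy =>
      intro i j
      rw [Matrix.add_apply, map_add]
      exact (PadicAlgCl.isNonarchimedean p _ _).trans (max_le (hx i j) (hy i j))
    | neg x _ hx =>
      intro i j
      rw [Matrix.neg_apply, map_neg, norm_neg]
      exact hx i j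
  exact fun γ hγ => h1 _ hγ.1

end bounds

variable {n : ℕ} {Γ : Subgroup (SUGroup n)}

/-- The representation. `mat` : its matrix entries are the images of the entries. PROOF: the entries of
`Γ` lie in `Algebra.adjoin ℤ E`, `E` finite (`FGG`); take `S = σ '' E` in `exists_local`; entrywise
`x ↦ i⁻¹ (σ x)` is a ring homomorphism on `Algebra.adjoin ℤ E`. Span: there are `(n+1)²` elements of
`Γ` which span over `ℂ` (`hspan`); linear independence over `ℂ` of matrices with entries in a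
subring passes to `k` (a nonzero determinant of coordinates is mapped to a nonzero one).
Determinant one. -/
theorem exists_rep (p : ℕ) [Fact p.Prime] (σ : ℂ ≃+* PadicAlgCl p) (hΓ : FGG Γ)
    (hspan : Submodule.span ℂ (SUGroup.toMatrix '' (Γ : Set (SUGroup n))) = ⊤) :
    ∃ (k : Type) (_ : NontriviallyNormedField k) (_ : IsUltrametricDist k) (_ : ProperSpace k)
      (i : k →+* PadicAlgCl p) (ρ : Γ →* ((Fin (n + 1) → k) ≃ₗ[k] (Fin (n + 1) → k))),
      (∀ x, ‖i x‖ = ‖x‖) ∧ Rep ρ ∧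
      ∀ γ : Γ, (LinearMap.toMatrix' (ρ γ : (Fin (n + 1) → k) →ₗ[k] (Fin (n + 1) → k))).map i =
        (γ : SUGroup n).toMatrix.map σ := by
  classical
  obtain ⟨E, hE⟩ := hΓ
  obtain ⟨k, I1, I2, I3, i, hi, hiS⟩ := exists_local p (E.image σ)
  -- all entries come from `k`
  have hent : ∀ γ : Γ, ∀ a b, ∃ x : k, i x = σ ((γ : SUGroup n).toMatrix a b) := by
    intro γ a b
    have h1 : (γ : SUGroup n).toMatrix a b ∈ Algebra.adjoin ℤ (E : Set ℂ) := hE _ ⟨_, γ.2, rfl⟩ a b
    have h2 : ∀ z ∈ Algebra.adjoin ℤ (E : Set ℂ), ∃ x : k, i x = σ z := by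
      intro z hz
      induction hz using Algebra.adjoin_induction with
      | mem x hx => exact hiS _ (Finset.mem_image_of_mem σ hx)
      | algebraMap r => exact ⟨(r : k), by simp⟩
      | add x y _ _ hx hy =>
        obtain ⟨u, hu⟩ := hx
        obtain ⟨w, hw⟩ := hy
        exact ⟨u + w, by rw [map_add, map_add, hu, hw]⟩
      | mul x y _ _ hx hy =>
        obtain ⟨u, hu⟩ := hx
        obtain ⟨w, hw⟩ := hy
        exact ⟨u * w, by rw [map_mul, map_mul, hu, hw]⟩
    exact h2 _ h1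
  choose M hM using hent
  have hinj : Function.Injective i := i.injective
  have hMi : ∀ γ : Γ, (Matrix.of (M γ)).map i = (γ : SUGroup n).toMatrix.map σ := by
    intro γ
    ext a b
    exact hM γ a b
  have hmapinj : ∀ A B : Matrix (Fin (n + 1)) (Fin (n + 1)) k, A.map i = B.map i → A = B :=
    fun A B h => Matrix.map_injective hinj h
  let φ : Γ →* Matrix (Fin (n + 1)) (Fin (n + 1)) k :=
    { toFun := fun γ => Matrix.of (M γ)
      map_one' := by
        apply hmapinj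
        rw [hMi, OneMemClass.coe_one, toMatrix_one, Matrix.map_one _ (map_zero _) (map_one _),
          Matrix.map_one _ (map_zero _) (map_one _)]
      map_mul' := fun γ δ => by
        apply hmapinj
        rw [hMi, Subgroup.coe_mul, toMatrix_mul, Matrix.map_mul, Matrix.map_mul, hMi, hMi] }
  have hφ : ∀ γ, (φ γ).map i = (γ : SUGroup n).toMatrix.map σ := hMi
  let ψ : Γ →* Module.End k (Fin (n + 1) → k) :=
    (Matrix.toLinAlgEquiv' (R := k) (n := Fin (n + 1))).toMulEquiv.toMonoidHom.comp φ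
  let ρ : Γ →* ((Fin (n + 1) → k) ≃ₗ[k] (Fin (n + 1) → k)) :=
    (LinearMap.GeneralLinearGroup.generalLinearEquiv k (Fin (n + 1) → k)).toMonoidHom.comp
      ψ.toHomUnits
  have hρ : ∀ γ, ((ρ γ : (Fin (n + 1) → k) ≃ₗ[k] (Fin (n + 1) → k)) :
      (Fin (n + 1) → k) →ₗ[k] (Fin (n + 1) → k)) = Matrix.toLin' (φ γ) := by
    intro γ
    ext v
    rfl
  have hdet : ∀ γ, (φ γ).det = 1 := by
    intro γ
    apply hinj
    rw [RingHom.map_det, map_one]
    have h1 : i.mapMatrix (φ γ) = (σ : ℂ →+* PadicAlgCl p).mapMatrix (γ : SUGroup n).toMatrix :=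
      hφ γ
    rw [h1, ← RingHom.map_det]
    have h2 : (γ : SUGroup n).toMatrix.det = 1 := (γ : SUGroup n).1.2
    rw [h2, map_one]
  refine ⟨k, I1, I2, I3, i, ρ, hi, ⟨?_, ?_⟩, fun γ => ?_⟩
  · by_contra hne
    obtain ⟨f, hf0, hf⟩ := Submodule.exists_le_ker_of_lt_top _ (lt_top_iff_ne_top.2 hne)
    -- the functional on the matrices
    obtain ⟨β, hβ⟩ : ∃ β : Fin (n + 1) → Fin (n + 1) → k, β = fun a b =>
      f (Matrix.toLin' (Matrix.single a b (1 : k))) := ⟨_, rfl⟩
    have hfM : ∀ A : Matrix (Fin (n + 1)) (Fin (n + 1)) k,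
        f (Matrix.toLin' A) = ∑ a, ∑ b, A a b * β a b := by
      intro A
      conv_lhs => rw [Matrix.matrix_eq_sum_single A]
      rw [map_sum, map_sum]
      refine Finset.sum_congr rfl fun a _ => ?_
      rw [map_sum, map_sum]
      refine Finset.sum_congr rfl fun b _ => ?_
      have h1 : Matrix.single a b (A a b) = A a b • Matrix.single a b (1 : k) := by
        rw [Matrix.smul_single, smul_eq_mul, mul_one]
      rw [h1, map_smul, map_smul, smul_eq_mul, hβ]
    let F : Matrix (Fin (n + 1)) (Fin (n + 1)) ℂ →ₗ[ℂ] ℂ :=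
      { toFun := fun A => ∑ a, ∑ b, A a b * σ.symm (i (β a b))
        map_add' := fun A B => by
          simp only [Matrix.add_apply, add_mul, Finset.sum_add_distrib]
        map_smul' := fun c A => by
          simp only [Matrix.smul_apply, smul_eq_mul, Finset.mul_sum, mul_assoc, RingHom.id_apply] }
    have hF0 : F = 0 := by
      have h1 : Submodule.span ℂ (SUGroup.toMatrix '' (Γ : Set (SUGroup n))) ≤ LinearMap.ker F := by
        rw [Submodule.span_le]
        rintro _ ⟨γ, hγ, rfl⟩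
        rw [SetLike.mem_coe, LinearMap.mem_ker]
        apply σ.injective
        have h2 : f (Matrix.toLin' (φ ⟨γ, hγ⟩)) = 0 := by
          rw [← hρ]
          exact hf (Submodule.subset_span ⟨⟨γ, hγ⟩, rfl⟩)
        rw [hfM] at h2
        have h3 := congrArg i h2
        rw [map_zero, map_sum] at h3
        have h4 : σ (F γ.toMatrix) = ∑ a, ∑ b, σ (γ.toMatrix a b) * i (β a b) := by
          show σ (∑ a, ∑ b, γ.toMatrix a b * σ.symm (i (β a b))) = _
          rw [map_sum]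
          refine Finset.sum_congr rfl fun a _ => ?_
          rw [map_sum]
          refine Finset.sum_congr rfl fun b _ => ?_
          rw [map_mul, RingEquiv.apply_symm_apply]
        rw [h4, map_zero]
        refine Eq.trans ?_ h3
        refine Finset.sum_congr rfl fun a _ => ?_
        rw [map_sum]
        refine Finset.sum_congr rfl fun b _ => ?_
        rw [map_mul]
        congr 1
        exact (congrFun (congrFun (hφ ⟨γ, hγ⟩) a) b).symm
      rw [hspan, top_le_iff, LinearMap.ker_eq_top] at h1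
      exact h1
    have hβ0 : ∀ a b, β a b = 0 := by
      intro a b
      have h1 : F (Matrix.single a b 1) = σ.symm (i (β a b)) := by
        show ∑ a', ∑ b', (Matrix.single a b (1 : ℂ)) a' b' * σ.symm (i (β a' b')) = _
        rw [Finset.sum_eq_single a, Finset.sum_eq_single b]
        · rw [Matrix.single_apply_same, one_mul]
        · intro c _ hc
          rw [Matrix.single_apply_of_ne _ _ _ _ _ (fun h => hc h.2.symm), zero_mul]
        · exact fun h => absurd (Finset.mem_univ _) h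
        · intro c _ hc
          refine Finset.sum_eq_zero fun b' _ => ?_
          rw [Matrix.single_apply_of_ne _ _ _ _ _ (fun h => hc h.1.symm), zero_mul]
        · exact fun h => absurd (Finset.mem_univ _) h
      rw [hF0, LinearMap.zero_apply] at h1
      have h2 := (RingEquiv.map_eq_zero_iff σ.symm).1 h1.symm
      exact (map_eq_zero_iff i hinj).1 h2
    apply hf0
    ext1 T
    have h1 : f T = f (Matrix.toLin' (LinearMap.toMatrix' T)) := by rw [Matrix.toLin'_toMatrix']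
    rw [h1, hfM]
    simp only [hβ0, mul_zero, Finset.sum_const_zero, LinearMap.zero_apply]
  · intro γ
    rw [hρ, LinearMap.det_toLin', hdet, norm_one]
  · rw [hρ, LinearMap.toMatrix'_toLin']
    exact hφ γ

/-- Arithmetic groups are bounded at all places. PROOF: `Γ` is commensurable with the unit group of an
order `O`, `O` is generated by finitely many matrices as an additive group, so the entries of
`σ(A)`, `A ∈ O`, are at most the maximum `C₁` of the norms of the entries of the generators (integers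
have norm at most one); finitely many cosets. -/
theorem bdd_of_isArith (p : ℕ) [Fact p.Prime] (σ : ℂ ≃+* PadicAlgCl p) {m : ℕ}
    {Δ : Subgroup (SUGroup m)} (h : IsArith m Δ) :
    ∃ C : ℝ, ∀ γ ∈ Δ, ∀ a b, ‖σ (γ.toMatrix a b)‖ ≤ C := by
  obtain ⟨K, A, O, -, hO, hc⟩ := h
  obtain ⟨C, hC0, hC⟩ := BE.unitPoints σ hO.fg
  have hfi : ((unitPoints m O).subgroupOf Δ).FiniteIndex := ⟨hc.2⟩
  have hq : Finite (Δ ⧸ (unitPoints m O).subgroupOf Δ) := Subgroup.finite_quotient_of_finiteIndex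
  obtain ⟨C₂, hC₂0, hC₂⟩ := BE.of_finite σ (S := Set.range fun c :
    Δ ⧸ (unitPoints m O).subgroupOf Δ => (c.out : SUGroup m).toMatrix) (Set.finite_range _)
  refine ⟨C₂ * C, fun γ hγ a b => ?_⟩
  let c : Δ ⧸ (unitPoints m O).subgroupOf Δ := QuotientGroup.mk ⟨γ, hγ⟩
  have h1 : (QuotientGroup.mk c.out : Δ ⧸ (unitPoints m O).subgroupOf Δ) =
      QuotientGroup.mk ⟨γ, hγ⟩ := QuotientGroup.out_eq' c
  have h2 : (c.out)⁻¹ * ⟨γ, hγ⟩ ∈ (unitPoints m O).subgroupOf Δ := QuotientGroup.eq.1 h1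
  have h3 : (c.out : SUGroup m)⁻¹ * γ ∈ unitPoints m O := h2
  have h4 : γ.toMatrix = (c.out : SUGroup m).toMatrix * ((c.out : SUGroup m)⁻¹ * γ).toMatrix := by
    rw [← toMatrix_mul, mul_inv_cancel_left]
  rw [h4]
  exact norm_mul_entry σ _ _ hC₂0 hC0 (hC₂ _ ⟨c, rfl⟩) (hC _ h3) a b

/-- The pieces are bounded: entries bounded implies `Bdd`. -/
theorem bdd_of_entries (p : ℕ) [Fact p.Prime] {σ : ℂ ≃+* PadicAlgCl p} {j : ℕ}
    {Γ : Fin 2 → Subgroup (SUGroup j)} {g : Fin 2 → SUGroup (j + 1)}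
    {k : Type} [NontriviallyNormedField k] [IsUltrametricDist k] [ProperSpace k]
    {i : k →+* PadicAlgCl p} (hi : ∀ x, ‖i x‖ = ‖x‖)
    {ρ : hybrid Γ g →* ((Fin (j + 1 + 1) → k) ≃ₗ[k] (Fin (j + 1 + 1) → k))}
    (hρ : ∀ γ : hybrid Γ g, (LinearMap.toMatrix'
      (ρ γ : (Fin (j + 1 + 1) → k) →ₗ[k] (Fin (j + 1 + 1) → k))).map i =
        (γ : SUGroup (j + 1)).toMatrix.map σ) (b : Fin 2) {C : ℝ}
    (hC : ∀ γ ∈ Γ b, ∀ a c, ‖σ (γ.toMatrix a c)‖ ≤ C) : Bdd (ρ.comp (embHyb Γ g b)) := by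
  obtain ⟨C₁, hC₁0, hC₁⟩ := BE.of_finite σ (Set.finite_singleton (g b).toMatrix)
  obtain ⟨C₂, hC₂0, hC₂⟩ := BE.of_finite σ (Set.finite_singleton ((g b)⁻¹).toMatrix)
  have hD0 : (0 : ℝ) ≤ max C 1 := zero_le_one.trans (le_max_right _ _)
  have hext : ∀ γ ∈ Γ b, ∀ a c, ‖σ ((extend j γ).toMatrix a c)‖ ≤ max C 1 := by
    intro γ hγ a c
    rw [extend_toMatrix]
    refine Fin.cases ?_ (fun a => ?_) a <;> refine Fin.cases ?_ (fun c => ?_) c
    · rw [dsum_zero_zero, map_one, norm_one]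
      exact le_max_right _ _
    · rw [dsum_zero_succ, map_zero, norm_zero]
      exact hD0
    · rw [dsum_succ_zero, map_zero, norm_zero]
      exact hD0
    · rw [dsum_succ_succ]
      exact (hC γ hγ a c).trans (le_max_left _ _)
  have hall : ∀ γ : Γ b, ∀ a c,
      ‖σ (((embHyb Γ g b γ : hybrid Γ g) : SUGroup (j + 1)).toMatrix a c)‖ ≤
        C₁ * max C 1 * C₂ := by
    intro γ a c
    rw [embHyb_coe, toMatrix_mul, toMatrix_mul]
    exact norm_mul_entry σ _ _ (mul_nonneg hC₁0 hD0) hC₂0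
      (norm_mul_entry σ _ _ hC₁0 hD0 (hC₁ _ rfl) (hext γ γ.2)) (hC₂ _ rfl) a c
  obtain ⟨D, hD⟩ : ∃ D : ℝ, D = C₁ * max C 1 * C₂ := ⟨_, rfl⟩
  have hDn : 0 ≤ D := by rw [hD]; exact mul_nonneg (mul_nonneg hC₁0 hD0) hC₂0
  rw [← hD] at hall
  refine ⟨Nm.ofBasis (Pi.basisFun k (Fin (j + 1 + 1))) (fun _ => 1) (fun _ => one_pos), D,
    fun γ v => ?_⟩
  have hN : ∀ v : Fin (j + 1 + 1) → k, (Nm.ofBasis (Pi.basisFun k (Fin (j + 1 + 1)))
      (fun _ => 1) (fun _ => one_pos)) v = ⨆ a, ‖v a‖ := by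
    intro v
    rw [Nm.ofBasis_apply]
    simp only [Pi.basisFun_repr, mul_one]
  have hbd : ∀ v : Fin (j + 1 + 1) → k, BddAbove (Set.range fun a => ‖v a‖) :=
    fun v => Finite.bddAbove_range _
  rw [hN, hN]
  refine ciSup_le fun a => ?_
  have h1 : (ρ.comp (embHyb Γ g b)) γ v a = ∑ c, LinearMap.toMatrix'
      (ρ (embHyb Γ g b γ) : (Fin (j + 1 + 1) → k) →ₗ[k] (Fin (j + 1 + 1) → k)) a c * v c := by
    have h2 : (ρ.comp (embHyb Γ g b)) γ v = (LinearMap.toMatrix'
        (ρ (embHyb Γ g b γ) : (Fin (j + 1 + 1) → k) →ₗ[k] (Fin (j + 1 + 1) → k))) *ᵥ v := by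
      rw [LinearMap.toMatrix'_mulVec]
      rfl
    rw [h2, Matrix.mulVec, dotProduct]
  rw [h1]
  refine IsUltrametricDist.norm_sum_le_of_forall_le_of_nonneg
    (mul_nonneg hDn (Real.iSup_nonneg fun _ => norm_nonneg _)) fun c _ => ?_
  rw [norm_mul]
  refine mul_le_mul ?_ (le_ciSup (hbd v) c) (norm_nonneg _) hDn
  have h3 := congrFun (congrFun (hρ (embHyb Γ g b γ)) a) c
  rw [Matrix.map_apply, Matrix.map_apply] at h3
  rw [← hi, h3]
  exact hall γ a c

end Pool.Agent.Lib.MP_5d4057_al.IN
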