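import Pool.Agent.Lib.MP_5d4057_al.IN.Tgt
import Pool.Agent.Lib.MP_5d4057_al.HM.Cut

/-! Part B of INT: growth of the action (B1). -/

namespace Pool.Agent.Lib.MP_5d4057_al.IN

open MeasureTheory Filter Topology Pool.Agent.Lib.MP_5d4057_al
open Pool.Agent.Lib.MP_5d4057_al.Hyb Pool.Agent.Lib.MP_5d4057_al.HM

open scoped ENNReal

variable {n : ℕ} {Γ : Subgroup (SUGroup n)} {Y : Type} [MetricSpace Y]
variable {Φ : Y → Y → ℝ} {κ : ℝ} {lv : Y → ℝ} {y₀ : Y} {ρ : Γ →* Equiv.Perm Y}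

/-- an enlarged fundamental set containing the identity -/
private theorem ga_fund (hΓ : Coc Γ) : ∃ F : Set (SUGroup n), IsCompact F ∧
    (1 : SUGroup n) ∈ F ∧ ∀ g, ∃ γ ∈ Γ, γ * g ∈ F := by
  obtain ⟨F, hF, hcov⟩ := hΓ.cpt
  refine ⟨insert 1 F, hF.insert 1, Set.mem_insert _ _, fun g => ?_⟩
  obtain ⟨γ, hγ, h⟩ := hcov g
  exact ⟨γ, hγ, Set.mem_insert_of_mem _ h⟩

private theorem ga_bound (hΓ : Coc Γ) (ρ : Γ →* Equiv.Perm Y) (y₀ : Y) {K : Set (SUGroup n)}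
    (hK : IsCompact K) :
    ∃ M : ℝ, 1 ≤ M ∧ ∀ γ : Γ, (γ : SUGroup n) ∈ K → dist y₀ (ρ γ y₀) ≤ M := by
  have h1 := (finite_inter hΓ hK).image fun γ => dist y₀ (ρ γ y₀)
  obtain ⟨M, hM⟩ := h1.bddAbove
  refine ⟨max 1 M, le_max_left _ _, fun γ hγ => le_trans ?_ (le_max_right _ _)⟩
  exact hM ⟨γ, hγ, rfl⟩

private theorem ga_sub (hA : Acts ρ Φ lv) (y₀ : Y) (γ σ : Γ) :
    dist y₀ (ρ (γ * σ) y₀) ≤ dist y₀ (ρ γ y₀) + dist y₀ (ρ σ y₀) := by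
  rw [map_mul, Equiv.Perm.mul_apply]
  refine (dist_triangle y₀ (ρ γ y₀) _).trans ?_
  rw [hA.iso]

private theorem ga_word (hA : Acts ρ Φ lv) (y₀ : Y) {F : Set (SUGroup n)} {K : Set (SUGroup n)}
    (hcov : ∀ g, ∃ γ ∈ Γ, γ * g ∈ F) {M : ℝ}
    (hM1 : ∀ γ : Γ, (∃ f ∈ F, ∃ f' ∈ F, ∃ y ∈ K, (γ : SUGroup n) * f' = f * y) →
      dist y₀ (ρ γ y₀) ≤ M)
    (h1K : (1 : SUGroup n) ∈ K) (l : List (SUGroup n)) (hl : ∀ y ∈ l, y ∈ K) :
    ∀ f ∈ F, ∀ f' ∈ F, ∀ γ : Γ, f * l.prod = γ * f' →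
      dist y₀ (ρ γ y₀) ≤ M * (l.length + 1) := by
  induction l with
  | nil =>
    intro f hf f' hf' γ h
    rw [List.length_nil, Nat.cast_zero, zero_add, mul_one]
    refine hM1 γ ⟨f, hf, f', hf', 1, h1K, ?_⟩
    rw [← h, List.prod_nil]
  | cons y l ih =>
    intro f hf f' hf' γ h
    have hy := hl y List.mem_cons_self
    have hl' := fun z hz => hl z (List.mem_cons_of_mem y hz)
    obtain ⟨σ, hσF⟩ : ∃ σ : Γ, (σ : SUGroup n) * (f * y) ∈ F := by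
      obtain ⟨σ, hσ, h⟩ := hcov (f * y)
      exact ⟨⟨σ, hσ⟩, h⟩
    have e0 : (σ : SUGroup n) * (f * y) * l.prod = (σ : SUGroup n) * (f * (y * l.prod)) := by
      simp only [mul_assoc]
    have e1 : (σ : SUGroup n) * (f * y) * l.prod = ((σ * γ : Γ) : SUGroup n) * f' := by
      rw [e0, ← List.prod_cons, h, Subgroup.coe_mul, mul_assoc]
    have h1 := ih hl' _ hσF f' hf' (σ * γ) e1
    have h2 : dist y₀ (ρ σ⁻¹ y₀) ≤ M := by
      refine hM1 _ ⟨f, hf, _, hσF, y, hy, ?_⟩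
      rw [Subgroup.coe_inv]
      exact inv_mul_cancel_left _ _
    have h3 := ga_sub hA y₀ σ⁻¹ (σ * γ)
    rw [inv_mul_cancel_left] at h3
    rw [List.length_cons]
    push_cast
    linarith

/-- **Growth of the action** (B1). PROOF: word length, exactly as `HM.rho_growth` (HM/Cut.lean, private lemmas `cut_fund`,
`cut_bound`, `cut_word`) with `log ‖ρ γ‖` replaced by `dist y₀ (ρ γ y₀)`, which is subadditive. -/
theorem act_growth (hn : 1 ≤ n) (hΓ : Coc Γ) (hA : Acts ρ Φ lv) (y₀ : Y) :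
    ∃ C : ℝ, 0 < C ∧ ∀ γ : Γ, dist y₀ (ρ γ y₀) ≤ C * (1 + Real.log (wt (γ : SUGroup n))) := by
  obtain ⟨F, hF, h1F, hcov⟩ := ga_fund hΓ
  obtain ⟨K, hK⟩ : ∃ K : Set (SUGroup n), K = {x | ch x ≤ 3} := ⟨_, rfl⟩
  have hKc : IsCompact K := by
    rw [hK]
    exact isCompact_ball 3
  have h1K : (1 : SUGroup n) ∈ K := by
    rw [hK]
    show ch (1 : SUGroup n) ≤ 3
    rw [ch_one]
    norm_num
  have hKK : IsCompact ((fun p : (SUGroup n × SUGroup n) × SUGroup n => p.1.1 * p.2 * p.1.2⁻¹) ''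
      ((F ×ˢ F) ×ˢ K)) := ((hF.prod hF).prod hKc).image (by fun_prop)
  obtain ⟨M, hM, hMb⟩ := ga_bound hΓ ρ y₀ hKK
  have hM1 : ∀ γ : Γ, (∃ f ∈ F, ∃ f' ∈ F, ∃ y ∈ K, (γ : SUGroup n) * f' = f * y) →
      dist y₀ (ρ γ y₀) ≤ M := by
    rintro γ ⟨f, hf, f', hf', y, hy, h⟩
    refine hMb γ ⟨((f, f'), y), ⟨⟨hf, hf'⟩, hy⟩, ?_⟩
    show f * y * f'⁻¹ = γ
    rw [← h, mul_assoc, mul_inv_cancel, mul_one]
  refine ⟨2 * M, by linarith, fun γ => ?_⟩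
  obtain ⟨w, hw⟩ : ∃ w : ℝ, w = wt (γ : SUGroup n) := ⟨_, rfl⟩
  have hw1 : 1 ≤ w := hw ▸ one_le_wt _
  obtain ⟨N, hN⟩ : ∃ N : ℕ, N = ⌊Real.log w⌋₊ + 1 := ⟨_, rfl⟩
  obtain ⟨l, hlen, hprod, hwt⟩ := exists_factor hn (γ : SUGroup n) N (by omega)
  have hlK : ∀ y ∈ l, y ∈ K := by
    intro y hy
    have h2 := hwt y hy
    have h3 : 1 ≤ wt y := one_le_wt y
    have h4 : (N : ℝ) * Real.log (wt y) ≤ N := by
      rw [← Real.log_pow, h2, ← hw]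
      have := (Nat.lt_floor_add_one (Real.log w)).le
      rw [hN]
      push_cast
      exact this
    have h5 : Real.log (wt y) ≤ 1 := by
      have hN0 : (0 : ℝ) < N := by
        rw [hN]
        exact_mod_cast Nat.succ_pos _
      by_contra h6
      push Not at h6
      nlinarith
    have h6 : wt y ≤ 3 := by
      have h7 : wt y ≤ Real.exp 1 := by
        rw [← Real.exp_log (lt_of_lt_of_le one_pos h3)]
        exact Real.exp_le_exp.2 h5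
      have h8 := Real.exp_one_lt_d9
      linarith
    rw [hK]
    exact (ch_le_wt y).trans h6
  have h2 := ga_word hA y₀ hcov hM1 h1K l hlK 1 h1F 1 h1F γ (by rw [hprod, one_mul, mul_one])
  rw [hlen] at h2
  refine h2.trans ?_
  rw [← hw]
  have h3 : (N : ℝ) ≤ Real.log w + 1 := by
    rw [hN]
    push_cast
    have := Nat.floor_le (Real.log_nonneg hw1)
    linarith
  have h4 := Real.log_nonneg hw1
  nlinarith

/-- Continuous equivariant maps grow logarithmically. PROOF: `γ * g ∈ F` compact, `dist y₀ (f ·)` is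
bounded on `F`, `dist y₀ (f g) ≤ dist y₀ (ρ γ⁻¹ y₀) + dist y₀ (f (γ g))`. -/
theorem Eqv.growth (hn : 1 ≤ n) (hΓ : Coc Γ) (hA : Acts ρ Φ lv) (y₀ : Y) {f : SUGroup n → Y}
    (hf : Eqv ρ f) : ∃ C : ℝ, Lg C y₀ f := by
  obtain ⟨F, hF, h1F, hcov⟩ := ga_fund hΓ
  obtain ⟨C, hC, hgr⟩ := act_growth hn hΓ hA y₀
  obtain ⟨B, hB⟩ := hF.exists_bound_of_continuousOn
    (f := fun g => dist y₀ (f g)) (continuous_const.dist hf.cont).continuousOn
  obtain ⟨W, hW⟩ := hF.exists_bound_of_continuousOn (f := fun g => Real.log (wt g))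
    (continuous_wt.log fun g => (lt_of_lt_of_le one_pos (one_le_wt g)).ne').continuousOn
  have hB' : ∀ g ∈ F, dist y₀ (f g) ≤ B := fun g hg => (le_abs_self _).trans (hB g hg)
  have hW' : ∀ g ∈ F, Real.log (wt g) ≤ W := fun g hg => (le_abs_self _).trans (hW g hg)
  have hB0 : 0 ≤ B := dist_nonneg.trans (hB' 1 h1F)
  have hW0 : 0 ≤ W := (Real.log_nonneg (one_le_wt 1)).trans (hW' 1 h1F)
  refine ⟨C * (1 + W) + B, fun g => ?_⟩
  obtain ⟨γ, hγF⟩ : ∃ γ : Γ, (γ : SUGroup n) * g ∈ F := by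
    obtain ⟨γ, hγ, h⟩ := hcov g
    exact ⟨⟨γ, hγ⟩, h⟩
  have e1 : f g = ρ γ⁻¹ (f ((γ : SUGroup n) * g)) := by
    rw [hf.equi γ g, ← Equiv.Perm.mul_apply, ← map_mul, inv_mul_cancel, map_one,
      Equiv.Perm.one_apply]
  have h1 : dist y₀ (f g) ≤ dist y₀ (ρ γ⁻¹ y₀) + dist y₀ (f ((γ : SUGroup n) * g)) := by
    rw [e1]
    refine (dist_triangle y₀ (ρ γ⁻¹ y₀) _).trans ?_
    rw [hA.iso]
  have h2 := hgr γ⁻¹
  rw [Subgroup.coe_inv, wt_inv] at h2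
  have h3 : Real.log (wt (γ : SUGroup n)) ≤ W + Real.log (wt g) := by
    have e2 : (γ : SUGroup n) = ((γ : SUGroup n) * g) * g⁻¹ := by
      rw [mul_assoc, mul_inv_cancel, mul_one]
    have h4 := wt_mul_le ((γ : SUGroup n) * g) g⁻¹
    rw [← e2, wt_inv] at h4
    have h5 := Real.log_le_log (lt_of_lt_of_le one_pos (one_le_wt _)) h4
    rw [Real.log_mul (lt_of_lt_of_le one_pos (one_le_wt _)).ne'
      (lt_of_lt_of_le one_pos (one_le_wt _)).ne'] at h5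
    have h6 := hW' _ hγF
    linarith
  have h4 := hB' _ hγF
  have h5 := Real.log_nonneg (one_le_wt g)
  have h6 : C * (1 + Real.log (wt (γ : SUGroup n))) ≤ C * (1 + (W + Real.log (wt g))) :=
    mul_le_mul_of_nonneg_left (by linarith) hC.le
  have h7 : 0 ≤ C * W * Real.log (wt g) := by positivity
  have h8 : 0 ≤ B * Real.log (wt g) := by positivity
  nlinarith

end Pool.Agent.Lib.MP_5d4057_al.IN
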