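import Pool.Agent.Lib.MP_5d4057_al.IN.NmDat
import Pool.Agent.Lib.MP_5d4057_al.IN.GroA

/-!
# Part B of INT: the base map (B3)

`f₀(g)(w) = sup_γ wt(γ⁻¹ g)^(-N) N₀(ρ(γ)⁻¹ w)`, then normalised to volume one. Only the growth of `ρ` is
used (no spread estimate, no cocompactness, no discreteness).
-/

namespace Pool.Agent.Lib.MP_5d4057_al.IN

open Module MeasureTheory Filter Topology Pool.Agent.Lib.MP_5d4057_al
open Pool.Agent.Lib.MP_5d4057_al.Hyb Pool.Agent.Lib.MP_5d4057_al.HM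

variable {k : Type} [NontriviallyNormedField k] [IsUltrametricDist k] [ProperSpace k]
  {V : Type} [AddCommGroup V] [Module k V] [FiniteDimensional k V]
  {n : ℕ} {Γ : Subgroup (SUGroup n)} {ρ : Γ →* (V ≃ₗ[k] V)}

private theorem bi_wt_pos (x : SUGroup n) : 0 < wt x := lt_of_lt_of_le one_pos (one_le_wt x)

theorem wt_of_ch {x : SUGroup n} (h : ch x = 1) : wt x = 1 := by
  rw [wt, h]
  norm_num

theorem wt_mul_K {x y : SUGroup n} (h : ch y = 1) : wt (x * y) = wt x := by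
  apply le_antisymm
  · have h1 := wt_mul_le x y
    rwa [wt_of_ch h, mul_one] at h1
  · have h1 := wt_mul_le (x * y) y⁻¹
    rwa [wt_inv, wt_of_ch h, mul_one, mul_inv_cancel_right] at h1

/-- Lipschitz maps are continuous. -/
theorem LipD.continuous' {Y : Type} [MetricSpace Y] {L : ℝ} {f : SUGroup n → Y} (h : LipD L f) :
    Continuous f := by
  rw [continuous_iff_continuousAt]
  intro g
  rw [ContinuousAt, tendsto_iff_dist_tendsto_zero]
  have hc : Continuous fun y : SUGroup n => L * Real.log (wt (g⁻¹ * y)) := by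
    refine continuous_const.mul (Continuous.log (continuous_wt.comp
      (continuous_const.mul continuous_id)) fun y => (bi_wt_pos _).ne')
  have h0 := hc.tendsto g
  rw [inv_mul_cancel, wt_one, Real.log_one, mul_zero] at h0
  refine squeeze_zero (fun _ => dist_nonneg) (fun y => ?_) h0
  have h1 := h g (g⁻¹ * y)
  rw [mul_inv_cancel_left] at h1
  rwa [dist_comm]

/-- The growth of the representation. -/
def Gr (ρ : Γ →* (V ≃ₗ[k] V)) (N₀ : Nm k V) (N : ℕ) (C : ℝ) : Prop :=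
  ∀ (γ : Γ) (w : V), N₀ (ρ γ w) ≤ C * wt (γ : SUGroup n) ^ N * N₀ w

section sup

variable {N₀ : Nm k V} {N : ℕ} {C : ℝ}

/-- One term. -/
noncomputable def bt (ρ : Γ →* (V ≃ₗ[k] V)) (N₀ : Nm k V) (N : ℕ) (g : SUGroup n) (w : V) (γ : Γ) :
    ℝ := (wt ((γ : SUGroup n)⁻¹ * g) ^ N)⁻¹ * N₀ (ρ γ⁻¹ w)

omit [ProperSpace k] [FiniteDimensional k V] [IsUltrametricDist k] in
theorem bt_nonneg (g : SUGroup n) (w : V) (γ : Γ) : 0 ≤ bt ρ N₀ N g w γ :=
  mul_nonneg (inv_nonneg.2 (pow_nonneg (bi_wt_pos _).le _)) (N₀.nonneg _)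

omit [ProperSpace k] [FiniteDimensional k V] [IsUltrametricDist k] in
theorem bt_le (h : Gr ρ N₀ N C) (g : SUGroup n) (w : V) (γ : Γ) :
    bt ρ N₀ N g w γ ≤ C * wt g ^ N * N₀ w := by
  have h1 := h γ⁻¹ w
  rw [Subgroup.coe_inv, wt_inv] at h1
  have h2 : wt (γ : SUGroup n) ≤ wt g * wt ((γ : SUGroup n)⁻¹ * g) := by
    have h3 := wt_mul_le g (g⁻¹ * (γ : SUGroup n))
    rwa [mul_inv_cancel_left, ← wt_inv (g⁻¹ * (γ : SUGroup n)), mul_inv_rev, inv_inv] at h3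
  have hC : 0 ≤ C * N₀ w := by
    have h3 := h 1 w
    rw [Subgroup.coe_one, wt_one, one_pow, mul_one] at h3
    exact (N₀.nonneg _).trans h3
  have h4 : wt (γ : SUGroup n) ^ N ≤ wt g ^ N * wt ((γ : SUGroup n)⁻¹ * g) ^ N := by
    rw [← mul_pow]
    exact pow_le_pow_left₀ (bi_wt_pos _).le h2 N
  rw [bt, inv_mul_le_iff₀ (pow_pos (bi_wt_pos _) N)]
  calc N₀ (ρ γ⁻¹ w) ≤ (C * N₀ w) * wt (γ : SUGroup n) ^ N := by linarith
    _ ≤ (C * N₀ w) * (wt g ^ N * wt ((γ : SUGroup n)⁻¹ * g) ^ N) :=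
        mul_le_mul_of_nonneg_left h4 hC
    _ = _ := by ring

omit [ProperSpace k] [FiniteDimensional k V] [IsUltrametricDist k] in
theorem bt_bdd (h : Gr ρ N₀ N C) (g : SUGroup n) (w : V) :
    BddAbove (Set.range (bt ρ N₀ N g w)) := by
  refine ⟨C * wt g ^ N * N₀ w, ?_⟩
  rintro _ ⟨γ, rfl⟩
  exact bt_le h g w γ

/-- The base map before the normalisation. -/
noncomputable def bsup (h : Gr ρ N₀ N C) (g : SUGroup n) : Nm k V where
  toFun w := ⨆ γ, bt ρ N₀ N g w γ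
  smul' c w := by
    rw [Real.mul_iSup_of_nonneg (norm_nonneg c)]
    refine iSup_congr fun γ => ?_
    rw [bt, bt, map_smul, N₀.smul]
    ring
  add_le' v w := by
    refine ciSup_le fun γ => ?_
    have h1 : bt ρ N₀ N g (v + w) γ ≤ max (bt ρ N₀ N g v γ) (bt ρ N₀ N g w γ) := by
      rw [bt, bt, bt, map_add, ← mul_max_of_nonneg _ _ (inv_nonneg.2 (pow_nonneg (bi_wt_pos _).le _))]
      exact mul_le_mul_of_nonneg_left (N₀.add_le _ _) (inv_nonneg.2 (pow_nonneg (bi_wt_pos _).le _))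
    exact h1.trans (max_le_max (le_ciSup (bt_bdd h g v) γ) (le_ciSup (bt_bdd h g w) γ))
  pos' w hw := by
    refine lt_of_lt_of_le ?_ (le_ciSup (bt_bdd h g w) 1)
    refine mul_pos (inv_pos.2 (pow_pos (bi_wt_pos _) _)) (N₀.pos ?_)
    rw [inv_one, map_one]
    exact hw

omit [ProperSpace k] [FiniteDimensional k V] [IsUltrametricDist k] in
theorem bsup_apply (h : Gr ρ N₀ N C) (g : SUGroup n) (w : V) :
    bsup h g w = ⨆ γ, bt ρ N₀ N g w γ := rfl

omit [ProperSpace k] [FiniteDimensional k V] [IsUltrametricDist k] in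
theorem bsup_kinv (h : Gr ρ N₀ N C) {g x : SUGroup n} (hx : ch x = 1) :
    bsup h (g * x) = bsup h g := by
  refine Nm.ext' fun w => ?_
  rw [bsup_apply, bsup_apply]
  refine iSup_congr fun γ => ?_
  rw [bt, bt, ← mul_assoc, wt_mul_K hx]

omit [ProperSpace k] [FiniteDimensional k V] [IsUltrametricDist k] in
theorem bsup_equi (h : Gr ρ N₀ N C) (δ : Γ) (g : SUGroup n) :
    bsup h ((δ : SUGroup n) * g) = (bsup h g).act (ρ δ) := by
  refine Nm.ext' fun w => ?_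
  rw [Nm.act_apply, bsup_apply, bsup_apply]
  refine (Equiv.iSup_congr (Equiv.mulLeft δ) fun γ => ?_).symm
  rw [Equiv.coe_mulLeft, bt, bt, Subgroup.coe_mul, mul_inv_rev, mul_inv_rev, map_mul, map_inv ρ δ]
  have e : ((γ : SUGroup n)⁻¹ * (δ : SUGroup n)⁻¹) * ((δ : SUGroup n) * g) =
      (γ : SUGroup n)⁻¹ * g := by group
  rw [e]
  rfl

omit [ProperSpace k] [FiniteDimensional k V] [IsUltrametricDist k] in
theorem bsup_le (h : Gr ρ N₀ N C) (g x : SUGroup n) (w : V) :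
    bsup h g w ≤ wt x ^ N * bsup h (g * x) w := by
  rw [bsup_apply, bsup_apply, Real.mul_iSup_of_nonneg (pow_nonneg (bi_wt_pos _).le _)]
  have hb : BddAbove (Set.range fun γ => wt x ^ N * bt ρ N₀ N (g * x) w γ) := by
    refine ⟨wt x ^ N * (C * wt (g * x) ^ N * N₀ w), ?_⟩
    rintro _ ⟨γ, rfl⟩
    exact mul_le_mul_of_nonneg_left (bt_le h _ w γ) (pow_nonneg (bi_wt_pos _).le _)
  refine ciSup_le fun γ => le_trans ?_ (le_ciSup hb γ)
  show bt ρ N₀ N g w γ ≤ wt x ^ N * bt ρ N₀ N (g * x) w γ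
  rw [bt, bt, ← mul_assoc]
  refine mul_le_mul_of_nonneg_right ?_ (N₀.nonneg _)
  rw [← div_eq_mul_inv, le_div_iff₀ (pow_pos (bi_wt_pos _) _), inv_mul_le_iff₀ (pow_pos (bi_wt_pos _) _),
    ← mul_pow, ← mul_assoc]
  exact pow_le_pow_left₀ (bi_wt_pos _).le (wt_mul_le _ _) N

theorem bsup_dist (h : Gr ρ N₀ N C) (g x : SUGroup n) :
    dist (bsup h g) (bsup h (g * x)) ≤ N * Real.log (wt x) := by
  have hx : 0 ≤ Real.log (wt x) := Real.log_nonneg (one_le_wt x)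
  refine Nm.dist_le (fun w hw => ?_) (by positivity)
  have h1 := bsup_le h g x w
  have h2 := bsup_le h (g * x) x⁻¹ w
  rw [mul_inv_cancel_right, wt_inv] at h2
  have p1 := (bsup h g).pos hw
  have p2 := (bsup h (g * x)).pos hw
  have px := pow_pos (bi_wt_pos x) N
  have e1 := Real.log_le_log p1 h1
  have e2 := Real.log_le_log p2 h2
  rw [Real.log_mul px.ne' p2.ne', Real.log_pow] at e1
  rw [Real.log_mul px.ne' p1.ne', Real.log_pow] at e2
  rw [abs_le]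
  constructor <;> linarith

end sup

/-- **The base map** (B3). -/
theorem exists_base (hV : 0 < finrank k V) (hd : ∀ γ : Γ, ‖LinearMap.det (ρ γ : V →ₗ[k] V)‖ = 1)
    {N₀ : Nm k V} {N : ℕ} {C : ℝ} (h : Gr ρ N₀ N C) :
    ∃ f₀ : SUGroup n → Nm k V, Eqv (nmAct ρ) f₀ ∧ (∀ g, (f₀ g).lv = 0) ∧ LipD (2 * N) f₀ := by
  have hL : LipD (2 * N) fun g => (bsup h g).nrm := by
    intro g x
    refine (Nm.dist_nrm _ _).trans ?_
    have := bsup_dist h g x
    linarith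
  refine ⟨fun g => (bsup h g).nrm, ⟨hL.continuous', fun g x hx => ?_, fun γ g => ?_⟩,
    fun g => Nm.lv_nrm hV _, hL⟩
  · show (bsup h (g * x)).nrm = (bsup h g).nrm
    rw [bsup_kinv h hx]
  · show (bsup h ((γ : SUGroup n) * g)).nrm = ((bsup h g).nrm).act (ρ γ)
    rw [bsup_equi h, Nm.nrm_act _ _ (hd γ)]

/-- The growth from the growth of the action on the space of norms. -/
theorem Gr.of_dist {N₀ : Nm k V} {C : ℝ}
    (h : ∀ γ : Γ, dist N₀ (nmAct ρ γ N₀) ≤ C * (1 + Real.log (wt (γ : SUGroup n)))) :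
    ∃ (N : ℕ) (C' : ℝ), Gr ρ N₀ N C' := by
  have hC : 0 ≤ C := by
    have h1 := dist_nonneg.trans (h 1)
    rwa [Subgroup.coe_one, wt_one, Real.log_one, add_zero, mul_one] at h1
  refine ⟨⌈C⌉₊, Real.exp C, fun γ w => ?_⟩
  have h1 := Nm.le_exp_dist N₀ (nmAct ρ γ N₀) (ρ γ w)
  have e : (nmAct ρ γ N₀) (ρ γ w) = N₀ w := by
    rw [nmAct_apply, Nm.act_apply, LinearEquiv.symm_apply_apply]
  rw [e] at h1
  refine h1.trans (mul_le_mul_of_nonneg_right ?_ (N₀.nonneg _))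
  have h2 : Real.exp (dist N₀ (nmAct ρ γ N₀)) ≤
      Real.exp (C + (⌈C⌉₊ : ℕ) * Real.log (wt (γ : SUGroup n))) := by
    refine Real.exp_le_exp.2 ((h γ).trans ?_)
    have h3 : C ≤ (⌈C⌉₊ : ℕ) := Nat.le_ceil C
    have h4 : 0 ≤ Real.log (wt (γ : SUGroup n)) := Real.log_nonneg (one_le_wt _)
    nlinarith
  refine h2.trans (le_of_eq ?_)
  rw [Real.exp_add, mul_comm ((⌈C⌉₊ : ℕ) : ℝ), Real.exp_mul, Real.exp_log (bi_wt_pos _),
    Real.rpow_natCast]

/-- The base map for a cocompact group. -/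
theorem exists_base_coc (hn : 1 ≤ n) (hΓ : Coc Γ) (hV : 0 < finrank k V) (h : Rep ρ) :
    ∃ (f₀ : SUGroup n → Nm k V) (L : ℝ), Eqv (nmAct ρ) f₀ ∧ (∀ g, (f₀ g).lv = 0) ∧ LipD L f₀ := by
  obtain ⟨N₀⟩ : Nonempty (Nm k V) := inferInstance
  obtain ⟨C, -, hC⟩ := act_growth hn hΓ (nm_acts h.det) N₀
  obtain ⟨N, C', hG⟩ := Gr.of_dist hC
  obtain ⟨f₀, h1, h2, h3⟩ := exists_base hV h.det hG
  exact ⟨f₀, _, h1, h2, h3⟩

end Pool.Agent.Lib.MP_5d4057_al.IN
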