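import Pool.Agent.Lib.MP_5d4057_al.IN.FixN
import Pool.Agent.Lib.MP_5d4057_al.IN.BaseI

/-!
# All lattices at a finite place: the inputs (growth and fixed points of the cusp groups)
-/

namespace Pool.Agent.Lib.MP_5d4057_al.IN

open Matrix MeasureTheory Filter Topology Module Pool.Agent.Lib.MP_5d4057_al
  Pool.Agent.Lib.MP_5d4057_al.Hyb Pool.Agent.Lib.MP_5d4057_al.HM
  Pool.Agent.Lib.MP_5d4057_al.NU

variable {n : ℕ} {Γ : Subgroup (SUGroup n)}

/-- The inputs of the theorem for lattices at one place: polynomial growth, and the cusp groups fix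
norms of volume one. -/
structure InN {k : Type} [NontriviallyNormedField k] [IsUltrametricDist k] [ProperSpace k]
    {V : Type} [AddCommGroup V] [Module k V] [FiniteDimensional k V] (ρ : Γ →* (V ≃ₗ[k] V))
    (y : Vec n → ℝ) : Prop where
  gr : ∃ (N₀ : Nm k V) (N : ℕ) (C : ℝ), Gr ρ N₀ N C
  fix : Fix (nmAct ρ) Nm.lv 64 y

/-- The inputs hold for all representations attached to places, with one partition of unity and
one height function. -/
theorem exists_inN (hn : 2 ≤ n) (hL : IsLattice Γ) (hF : FGG Γ) :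
    ∃ (χ : SUGroup n → ℝ) (y : Vec n → ℝ), Lat Γ χ ∧ Ht Γ 64 y ∧
      ∀ (k : Type) [NontriviallyNormedField k] [IsUltrametricDist k] [ProperSpace k]
        (E : Type) [NormedField E] [IsUltrametricDist E] (σ : ℂ →+* E) (i : k →+* E),
        (∀ x, ‖i x‖ = ‖x‖) → ∀ ρ : Γ →* ((Fin (n + 1) → k) ≃ₗ[k] (Fin (n + 1) → k)),
        (∀ γ : Γ, (LinearMap.toMatrix'
          (ρ γ : (Fin (n + 1) → k) →ₗ[k] (Fin (n + 1) → k))).map i =
            (γ : SUGroup n).toMatrix.map σ) →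
        InN ρ y := by
  obtain ⟨χ, y, h1, h2, h3⟩ := exists_fix_data hn hL hF
  refine ⟨χ, y, h1, h2, ?_⟩
  intro k _ _ _ E _ _ σ i hi ρ hρ
  obtain ⟨N₀⟩ : Nonempty (Nm k (Fin (n + 1) → k)) :=
    ⟨Nm.ofBasis (Pi.basisFun k (Fin (n + 1))) (fun _ => 1) (fun _ => one_pos)⟩
  obtain ⟨N, C, -, h4⟩ := grow_rho hn hL hF N₀ σ hi hρ
  refine ⟨⟨N₀, N, C, h4⟩, fun p hp => ?_⟩
  obtain ⟨M, hM, h5⟩ := h3 p hp k E σ i hi ρ hρ
  exact ⟨M, hM, fun γ hγ => h5 γ hγ⟩

end Pool.Agent.Lib.MP_5d4057_al.IN
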