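import Pool.Agent.Lib.MP_5d4057_al.IN.DGlo

/-! INT, part D, file DGloB: the form of Siu vanishes (cocompact groups). -/

set_option autoImplicit false

namespace Pool.Agent.Lib.MP_5d4057_al.IN.D

open Matrix MeasureTheory Filter Topology Pool.Agent.Lib.MP_5d4057_al
  Pool.Agent.Lib.MP_5d4057_al.Hyb Pool.Agent.Lib.MP_5d4057_al.HM

open scoped ComplexOrder MatrixOrder Matrix.Norms.L2Operator ENNReal

variable {n : ℕ} {Γ : Subgroup (SUGroup n)} {q : Ix n → Ix n → SUGroup n → ℝ}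
  {G : Ix n → Ix n → Ix n → SUGroup n → ℝ}

section aux

/-- integrable with integral zero -/
private def ZI (F : SUGroup n → ℝ) : Prop := Integrable F (mu n) ∧ ∫ g, F g ∂(mu n) = 0

private theorem zi_add {F F' : SUGroup n → ℝ} (h : ZI F) (h' : ZI F') :
    ZI fun g => F g + F' g :=
  ⟨h.1.add h'.1, by rw [integral_add h.1 h'.1, h.2, h'.2, add_zero]⟩

private theorem zi_sub {F F' : SUGroup n → ℝ} (h : ZI F) (h' : ZI F') :
    ZI fun g => F g - F' g :=
  ⟨h.1.sub h'.1, by rw [integral_sub h.1 h'.1, h.2, h'.2, sub_zero]⟩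

private theorem zi_sum {ι : Type} [Fintype ι] {F : ι → SUGroup n → ℝ} (h : ∀ i, ZI (F i)) :
    ZI fun g => ∑ i, F i g :=
  ⟨integrable_finsetSum _ fun i _ => (h i).1, by
    rw [integral_finsetSum _ fun i _ => (h i).1]
    exact Finset.sum_eq_zero fun i _ => (h i).2⟩

private theorem glob_basic (hΓ : Coc Γ) {χ : SUGroup n → ℝ} (hχ : Cut Γ χ) {f : SUGroup n → ℝ}
    (hf : Continuous f) (hi : ∀ γ ∈ Γ, ∀ g, f (γ * g) = f g) {Ψ : Mat (n + 1) → ℝ}
    (hΨ : Cs Set.univ Ψ) (h0 : ∫ g : SUGroup n, Ψ g.toMatrix ∂(mu n) = 0) :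
    ∫ g : SUGroup n, f g * cuT χ Ψ g.toMatrix ∂(mu n) = 0 := by
  have hΨc : Continuous Ψ := hΨ.smooth.continuous
  have hK := hΨ.compact
  have hKs : ∀ x : SUGroup n, x ∉ {g : SUGroup n | g.toMatrix ∈ tsupport Ψ} →
      Ψ x.toMatrix = 0 := fun x hx => image_eq_zero_of_notMem_tsupport hx
  have hm : Continuous (SUGroup.toMatrix (m := n)) := continuous_toMatrix n
  calc ∫ g : SUGroup n, f g * cuT χ Ψ g.toMatrix ∂(mu n)
      = ∫ g : SUGroup n, ∫ y : SUGroup n, f g * (χ y * Ψ (y⁻¹ * g).toMatrix) ∂(mu n) ∂(mu n) := by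
        refine integral_congr_ae (Filter.Eventually.of_forall fun g => ?_)
        simp only [cuT]
        rw [← integral_const_mul]
        rfl
    _ = ∫ y : SUGroup n, ∫ g : SUGroup n, f g * (χ y * Ψ (y⁻¹ * g).toMatrix) ∂(mu n) ∂(mu n) := by
        refine integral_integral_swap_of_hasCompactSupport
          (f := fun g y : SUGroup n => f g * (χ y * Ψ (y⁻¹ * g).toMatrix)) ?_ ?_
        · refine (hf.comp continuous_fst).mul ((hχ.cont.comp continuous_snd).mul
            (hΨc.comp (hm.comp ?_)))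
          exact (continuous_snd.inv).mul continuous_fst
        · refine HasCompactSupport.intro ((hK.prod hχ.supp.isCompact).image
            (f := fun p : SUGroup n × SUGroup n => (p.2 * p.1, p.2))
            ((continuous_snd.mul continuous_fst).prodMk continuous_snd)) ?_
          rintro ⟨g, y⟩ hp
          change f g * (χ y * Ψ (y⁻¹ * g).toMatrix) = 0
          by_cases hy : y ∈ tsupport χ
          · rw [hKs (y⁻¹ * g) fun hx => hp ⟨(y⁻¹ * g, y), ⟨hx, hy⟩, ?_⟩, mul_zero, mul_zero]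
            simp only [mul_inv_cancel_left]
          · rw [image_eq_zero_of_notMem_tsupport hy, zero_mul, mul_zero]
    _ = ∫ y : SUGroup n, ∫ x : SUGroup n, f (y * x) * (χ y * Ψ x.toMatrix) ∂(mu n) ∂(mu n) := by
        refine integral_congr_ae (Filter.Eventually.of_forall fun y => ?_)
        change ∫ g : SUGroup n, f g * (χ y * Ψ (y⁻¹ * g).toMatrix) ∂(mu n) = _
        rw [← integral_mul_left_eq_self (fun g => f g * (χ y * Ψ (y⁻¹ * g).toMatrix)) y]
        simp only [inv_mul_cancel_left]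
    _ = ∫ x : SUGroup n, ∫ y : SUGroup n, f (y * x) * (χ y * Ψ x.toMatrix) ∂(mu n) ∂(mu n) := by
        refine integral_integral_swap_of_hasCompactSupport
          (f := fun y x : SUGroup n => f (y * x) * (χ y * Ψ x.toMatrix)) ?_ ?_
        · refine (hf.comp (continuous_fst.mul continuous_snd)).mul
            ((hχ.cont.comp continuous_fst).mul (hΨc.comp (hm.comp continuous_snd)))
        · refine HasCompactSupport.intro (hχ.supp.isCompact.prod hK) ?_
          rintro ⟨y, x⟩ hp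
          change f (y * x) * (χ y * Ψ x.toMatrix) = 0
          by_cases hy : y ∈ tsupport χ
          · rw [hKs x fun hx => hp ⟨hy, hx⟩, mul_zero, mul_zero]
          · rw [image_eq_zero_of_notMem_tsupport hy, zero_mul, mul_zero]
    _ = ∫ x : SUGroup n, II χ f * Ψ x.toMatrix ∂(mu n) := by
        refine integral_congr_ae (Filter.Eventually.of_forall fun x => ?_)
        have h1 := II_mul_right hΓ hχ hi hf.aestronglyMeasurable (bounded_of_invariant hΓ hf hi) x
        change ∫ y : SUGroup n, f (y * x) * (χ y * Ψ x.toMatrix) ∂(mu n) = II χ f * Ψ x.toMatrix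
        rw [← h1, II, ← integral_mul_const]
        refine integral_congr_ae (Filter.Eventually.of_forall fun y => ?_)
        simp only [smul_eq_mul]
        ring
    _ = 0 := by rw [integral_const_mul, h0, mul_zero]

variable {χ : SUGroup n → ℝ} {ψ : Mat (n + 1) → ℝ} {f : SUGroup n → ℝ}

private theorem zi_basic (hΓ : Coc Γ) (hχ : Cut Γ χ) (hψ : Tst Set.univ ψ) (hf : Continuous f)
    (hi : ∀ γ ∈ Γ, ∀ g, f (γ * g) = f g) (c d : Ix n) :
    ZI fun g : SUGroup n => f g * dX (Xa c) (dX (Xa d) (cuT χ ψ)) g.toMatrix := by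
  refine ⟨(((tst_cuT hχ hψ).toCs.dX (Xa d)).dX (Xa c)).integrable_cont hf.continuousOn
    isOpen_univ, ?_⟩
  rw [dX_cuT hχ hψ.toCs, dX_cuT hχ (hψ.toCs.dX (Xa d))]
  exact glob_basic hΓ hχ hf hi ((hψ.toCs.dX (Xa d)).dX (Xa c)) (integral_dX (hψ.toCs.dX (Xa d)) c)

private theorem zi_two (hΓ : Coc Γ) (hχ : Cut Γ χ) (hψ : Tst Set.univ ψ) (hf : Continuous f)
    (hi : ∀ γ ∈ Γ, ∀ g, f (γ * g) = f g) (c d c' d' : Ix n) :
    ZI fun g : SUGroup n => f g * (dX (Xa c) (dX (Xa d) (cuT χ ψ)) g.toMatrix +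
      dX (Xa c') (dX (Xa d') (cuT χ ψ)) g.toMatrix) := by
  simp only [mul_add]
  exact zi_add (zi_basic hΓ hχ hψ hf hi c d) (zi_basic hΓ hχ hψ hf hi c' d')

private theorem zi_two' (hΓ : Coc Γ) (hχ : Cut Γ χ) (hψ : Tst Set.univ ψ) (hf : Continuous f)
    (hi : ∀ γ ∈ Γ, ∀ g, f (γ * g) = f g) (c d c' d' : Ix n) :
    ZI fun g : SUGroup n => f g * (dX (Xa c) (dX (Xa d) (cuT χ ψ)) g.toMatrix -
      dX (Xa c') (dX (Xa d') (cuT χ ψ)) g.toMatrix) := by
  simp only [mul_sub]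
  exact zi_sub (zi_basic hΓ hχ hψ hf hi c d) (zi_basic hΓ hχ hψ hf hi c' d')

end aux

/-- `Σ_γ (cuT χ ψ)(γ g) = ∫ ψ > 0`, so some translate is positive. PROOF: for `y` with `χ(γ y) > 0`,
`y` near `g`: `∫ χ(y) ψ(y⁻¹ γ g) dy = ∫ χ(γ y) ψ(y⁻¹ g) dy`; if all were `0` then
`ψ(y⁻¹ g) = ψ(y⁻¹ g) Σ_γ χ(γ y)` would vanish for almost all `y`. -/
theorem cuT_pos (hΓ : Coc Γ) {χ : SUGroup n → ℝ} (hχ : Cut Γ χ) {ψ : Mat (n + 1) → ℝ}
    (hψ : Tst Set.univ ψ) (h1 : 0 < ψ 1) (g : SUGroup n) :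
    ∃ γ : Γ, 0 < cuT χ ψ ((γ : SUGroup n) * g).toMatrix := by
  obtain ⟨γ, hγ⟩ : ∃ γ : Γ, 0 < χ ((γ : SUGroup n) * g) := by
    by_contra h
    push Not at h
    have h2 : ∀ γ : Γ, χ ((γ : SUGroup n) * g) = 0 := fun γ => le_antisymm (h γ) (hχ.nonneg _)
    have h3 := hχ.sum g
    simp only [h2, tsum_zero] at h3
    exact zero_ne_one h3
  refine ⟨γ, ?_⟩
  have hc : Continuous fun y : SUGroup n =>
      χ y * ψ ((y⁻¹).toMatrix * ((γ : SUGroup n) * g).toMatrix) := by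
    have e : ∀ y : SUGroup n, (y⁻¹).toMatrix * ((γ : SUGroup n) * g).toMatrix =
        (y⁻¹ * ((γ : SUGroup n) * g)).toMatrix := fun y => rfl
    simp only [e]
    exact hχ.cont.mul (hψ.smooth.continuous.comp ((continuous_toMatrix n).comp
      (continuous_inv.mul continuous_const)))
  refine hc.integral_pos_of_hasCompactSupport_nonneg_nonzero hχ.supp.mul_right
    (fun y => mul_nonneg (hχ.nonneg y) (hψ.nonneg (y⁻¹ * ((γ : SUGroup n) * g))))
    (x := (γ : SUGroup n) * g) ?_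
  have e : ((((γ : SUGroup n) * g)⁻¹).toMatrix * ((γ : SUGroup n) * g).toMatrix) = 1 :=
    toMatrix_inv_mul _
  change χ ((γ : SUGroup n) * g) *
    ψ ((((γ : SUGroup n) * g)⁻¹).toMatrix * ((γ : SUGroup n) * g).toMatrix) ≠ 0
  rw [e]
  exact (mul_pos hγ h1).ne'

/-- **Unfolding.** For a continuous `Γ`-invariant `q_ab` and `Ψ = dX dX ψ`:
`∫ q(g) (cuT χ Ψ)(g) dg = ∫∫ χ(y) q(g) Ψ(y⁻¹ g) dy dg = ∫ Ψ(x) (∫ χ(y) q(y x) dy) dx`, and the inner
integral does not depend on `x` (`II_mul_right`; `q` is bounded, `bounded_of_invariant`); `∫ Ψ = 0`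
(`integral_dX`). So `Siu q (cuT χ ψ) = 0`. -/
theorem siu_cuT (hΓ : Coc Γ) (hc : ∀ a b, Continuous (q a b))
    (hq : ∀ γ ∈ Γ, ∀ a b g, q a b (γ * g) = q a b g) {χ : SUGroup n → ℝ} (hχ : Cut Γ χ)
    {ψ : Mat (n + 1) → ℝ} (hψ : Tst Set.univ ψ) : Siu q (cuT χ ψ) = 0 := by
  unfold Siu
  refine (zi_sum (F := fun (i : Fin n) (g : SUGroup n) => ∑ j : Fin n, _)
    fun i => zi_sum (F := fun (j : Fin n) (g : SUGroup n) => _) fun j => ?_).2
  refine zi_add (zi_sub ?_ ?_) ?_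
  · exact zi_two hΓ hχ hψ ((hc _ _).add (hc _ _))
      (fun γ hγ g => by simp only [Pi.add_apply, Pi.sub_apply, hq γ hγ]) _ _ _ _
  · exact zi_two hΓ hχ hψ ((hc _ _).add (hc _ _))
      (fun γ hγ g => by simp only [Pi.add_apply, Pi.sub_apply, hq γ hγ]) _ _ _ _
  · exact zi_two' hΓ hχ hψ ((hc _ _).sub (hc _ _))
      (fun γ hγ g => by simp only [Pi.add_apply, Pi.sub_apply, hq γ hγ]) _ _ _ _

/-- **The form vanishes.** PROOF: `χ' = cuT χ ψ`; on the support of `Φ` (compact) a finite sum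
`C Σ_{γ ∈ F} χ'(γ ·)` is at least `Φ` (`cuT_pos`, compactness), so `C Σ χ'(γ ·) - Φ` is in `Tst univ`;
`0 ≤ Siu(C Σ χ'(γ ·) - Φ) = 0 - Siu(Φ)` (`Siu_left`, `siu_cuT`) and `0 ≤ Siu(Φ)`. -/
theorem siu_zero (hΓ : Coc Γ) (D : Dat Set.univ q G)
    (hq : ∀ γ ∈ Γ, ∀ a b g, q a b (γ * g) = q a b g) :
    ∀ Φ, Tst Set.univ Φ → Siu q Φ = 0 := by
  classical
  intro Φ hΦ
  have hqc : ∀ a b, ContinuousOn (q a b) Set.univ := fun a b => (D.grad a b).cont
  have hqc' : ∀ a b, Continuous (q a b) := fun a b => continuousOn_univ.1 (hqc a b)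
  obtain ⟨χ, hχ⟩ := exists_cut hΓ
  obtain ⟨ψ, hψ, -, -, W, -, hW, hW1⟩ := exists_bump (n := n) isOpen_univ
    (isCompact_singleton (x := (1 : SUGroup n))) (Set.subset_univ _)
  have h1 : 0 < ψ 1 := by
    have h2 := hW1 _ (hW 1 rfl)
    rw [toMatrix_one] at h2
    rw [h2]
    exact one_pos
  set T : Mat (n + 1) → ℝ := cuT χ ψ with hTd
  have hT : Tst Set.univ T := tst_cuT hχ hψ
  have hTc : Continuous fun g : SUGroup n => T g.toMatrix :=
    hT.smooth.continuous.comp (continuous_toMatrix n)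
  -- the sums of translates
  set Sf : Finset Γ → Mat (n + 1) → ℝ := fun F M => ∑ γ ∈ F, T ((γ : SUGroup n).toMatrix * M)
    with hSd
  have hsum : ∀ F : Finset Γ, Tst Set.univ (Sf F) ∧ Siu q (Sf F) = 0 := by
    intro F
    induction F using Finset.induction_on with
    | empty =>
      have e : Sf ∅ = fun _ => 0 := by
        funext M
        simp [hSd]
      rw [e]
      refine ⟨?_, Siu_zero⟩
      have h2 := hT.smul (c := 0) le_rfl
      simpa using h2
    | insert γ F hγ ih =>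
      have e : Sf (insert γ F) = fun M => T ((γ : SUGroup n).toMatrix * M) + Sf F M := by
        funext M
        simp only [hSd]
        rw [Finset.sum_insert hγ]
      rw [e]
      have h2 := hT.left (γ : SUGroup n)
      refine ⟨h2.add ih.1, ?_⟩
      rw [Siu_add isOpen_univ hqc h2.toCs ih.1.toCs, ih.2, add_zero,
        Siu_left (γ := (γ : SUGroup n)) (fun a b g => hq γ γ.2 a b g) hT]
      exact siu_cuT hΓ hqc' hq hχ hψ
  -- the compact support
  have hK := hΦ.toCs.compact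
  obtain ⟨F, hF⟩ : ∃ F : Finset Γ, ∀ g : SUGroup n, g.toMatrix ∈ tsupport Φ →
      0 < Sf F g.toMatrix := by
    choose γ hγ using cuT_pos hΓ hχ hψ h1
    have hU : ∀ g : SUGroup n, IsOpen {x : SUGroup n | 0 < T ((γ g : SUGroup n) * x).toMatrix} :=
      fun g => isOpen_lt continuous_const (hTc.comp (continuous_const_mul _))
    obtain ⟨t, ht⟩ := hK.elim_finite_subcover
      (fun g : SUGroup n => {x : SUGroup n | 0 < T ((γ g : SUGroup n) * x).toMatrix}) hU
      (fun g _ => Set.mem_iUnion.2 ⟨g, hγ g⟩)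
    refine ⟨t.image γ, fun g hg => ?_⟩
    obtain ⟨x, hx, hgx⟩ := Set.mem_iUnion₂.1 (ht hg)
    have h2 : 0 < T ((γ x : SUGroup n) * g).toMatrix := hgx
    refine h2.trans_le ?_
    exact Finset.single_le_sum (f := fun δ : Γ => T ((δ : SUGroup n).toMatrix * g.toMatrix))
      (fun δ _ => hT.nonneg ((δ : SUGroup n) * g)) (Finset.mem_image_of_mem γ hx)
  obtain ⟨hFT, hF0⟩ := hsum F
  obtain ⟨C, hC0, hC⟩ : ∃ C : ℝ, 0 ≤ C ∧ ∀ g : SUGroup n, Φ g.toMatrix ≤ C * Sf F g.toMatrix := by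
    have hΦc : Continuous fun g : SUGroup n => Φ g.toMatrix :=
      hΦ.smooth.continuous.comp (continuous_toMatrix n)
    have hFc : Continuous fun g : SUGroup n => Sf F g.toMatrix :=
      hFT.smooth.continuous.comp (continuous_toMatrix n)
    have hdc : ContinuousOn (fun g : SUGroup n => Φ g.toMatrix / Sf F g.toMatrix)
        {g : SUGroup n | g.toMatrix ∈ tsupport Φ} :=
      hΦc.continuousOn.div hFc.continuousOn fun g hg => (hF g hg).ne'
    obtain ⟨C, hC⟩ := hK.exists_bound_of_continuousOn hdc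
    refine ⟨max C 0, le_max_right _ _, fun g => ?_⟩
    by_cases hg : g.toMatrix ∈ tsupport Φ
    · have h2 := (le_abs_self _).trans (hC g hg)
      rw [div_le_iff₀ (hF g hg)] at h2
      exact h2.trans (mul_le_mul_of_nonneg_right (le_max_left _ _) (hF g hg).le)
    · rw [image_eq_zero_of_notMem_tsupport hg]
      exact mul_nonneg (le_max_right _ _) (hFT.nonneg g)
  have hCT := hFT.smul hC0
  have hsub : Tst Set.univ fun M => C * Sf F M - Φ M :=
    { toCs := hCT.toCs.sub' hΦ.toCs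
      nonneg := fun g => sub_nonneg.2 (hC g) }
  have h2 := D.p3 _ hsub
  rw [Siu_sub isOpen_univ hqc hCT.toCs hΦ.toCs, Siu_smul hFT.toCs, hF0, mul_zero, zero_sub] at h2
  exact le_antisymm (neg_nonneg.1 h2) (D.p3 _ hΦ)

end Pool.Agent.Lib.MP_5d4057_al.IN.D
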