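import Pool.Agent.Lib.MP_5d4057_al.IN.DPsh

/-! INT, part D, file DPshB: PW implies VSub. -/

set_option autoImplicit false

namespace Pool.Agent.Lib.MP_5d4057_al.IN.D

open Matrix MeasureTheory Filter Topology Pool.Agent.Lib.MP_5d4057_al
  Pool.Agent.Lib.MP_5d4057_al.Hyb Pool.Agent.Lib.MP_5d4057_al.HM

open scoped ComplexOrder MatrixOrder Matrix.Norms.L2Operator ENNReal

variable {n : ℕ} {y : Vec n → ℝ}

private theorem pshb_path {E : Type} [NormedAddCommGroup E] [NormedSpace ℝ E] (z u : E) (t : ℝ) :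
    HasDerivAt (fun t : ℝ => z + t • u) u t := by
  have := ((hasDerivAt_id t).smul_const u).const_add z
  simpa using this

private theorem pshb_at {E : Type} [NormedAddCommGroup E] [NormedSpace ℝ E] {f : E → ℝ} {z u : E}
    (hf : ContDiffAt ℝ 2 f z) : ContDiffAt ℝ 2 (fun t : ℝ => f (z + t • u)) 0 := by
  have h1 : ContDiffAt ℝ 2 f (z + (0 : ℝ) • u) := by rwa [zero_smul, add_zero]
  have h2 : ContDiffAt ℝ 2 (fun t : ℝ => z + t • u) 0 := by fun_prop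
  exact ContDiffAt.comp (f := fun t : ℝ => z + t • u) (0 : ℝ) h1 h2

/-- second derivatives on real lines -/
private theorem pshb_line {E : Type} [NormedAddCommGroup E] [NormedSpace ℝ E] {f : E → ℝ} {z u : E}
    (hf : ContDiffAt ℝ 2 f z) :
    iteratedDeriv 2 (fun t : ℝ => f (z + t • u)) 0 = fderiv ℝ (fderiv ℝ f) z u u := by
  rw [iteratedDeriv_succ, iteratedDeriv_one]
  have hc : Tendsto (fun t : ℝ => z + t • u) (𝓝 0) (𝓝 z) := by
    have := (pshb_path z u 0).continuousAt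
    unfold ContinuousAt at this
    simpa using this
  have h1 : ∀ᶠ w in 𝓝 z, DifferentiableAt ℝ f w := by
    have h2 := hf.eventually (by norm_num)
    filter_upwards [h2] with w hw
    exact hw.differentiableAt (by norm_num)
  have h2 : deriv (fun t : ℝ => f (z + t • u)) =ᶠ[𝓝 0] fun t => fderiv ℝ f (z + t • u) u := by
    filter_upwards [hc.eventually h1] with t ht
    exact (ht.hasFDerivAt.comp_hasDerivAt t (pshb_path z u t)).deriv
  rw [h2.deriv_eq]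
  have h3 : DifferentiableAt ℝ (fderiv ℝ f) z := by
    have h4 : ContDiffAt ℝ 1 (fderiv ℝ f) z := hf.fderiv_right (by norm_num)
    exact h4.differentiableAt (by norm_num)
  have h5 : HasFDerivAt (fderiv ℝ f) (fderiv ℝ (fderiv ℝ f) z) (z + (0 : ℝ) • u) := by
    rw [zero_smul, add_zero]
    exact h3.hasFDerivAt
  have h6 := (h5.comp_hasDerivAt (0 : ℝ) (pshb_path z u 0))
  have h7 : HasDerivAt (fun t : ℝ => fderiv ℝ f (z + t • u) u)
      (fderiv ℝ (fderiv ℝ f) z u u) 0 := by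
    have := h6.clm_apply (hasDerivAt_const (0 : ℝ) u)
    simpa using this
  exact h7.deriv

private theorem pshb_sq (δ a b : ℝ) :
    iteratedDeriv 2 (fun t : ℝ => δ * ((a + t) ^ 2 + b ^ 2)) 0 = 2 * δ := by
  have h1 : deriv (fun t : ℝ => δ * ((a + t) ^ 2 + b ^ 2)) = fun t => 2 * δ * (a + t) := by
    funext t
    have h2 : HasDerivAt (fun t : ℝ => a + t) 1 t := (hasDerivAt_id t).const_add a
    have h3 := ((h2.fun_pow 2).add_const (b ^ 2)).const_mul δ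
    rw [h3.deriv]
    push_cast
    ring
  rw [iteratedDeriv_succ, iteratedDeriv_one, h1]
  have h2 : HasDerivAt (fun t : ℝ => a + t) 1 (0 : ℝ) := (hasDerivAt_id (0 : ℝ)).const_add a
  have h3 := h2.const_mul (2 * δ)
  rw [h3.deriv, mul_one]

/-- one direction -/
private theorem pshb_dir {A ψ : ℂ → ℝ} {z₁ u : ℂ} {δ : ℝ} (hA : ContDiffAt ℝ 2 A z₁)
    (hψ : ContDiffAt ℝ 2 ψ z₁) {a b : ℝ}
    (hu : ∀ t : ℝ, ‖z₁ + t • u‖ ^ 2 = (a + t) ^ 2 + b ^ 2)
    (hm : IsLocalMax (fun z => A z + ψ z - δ * ‖z‖ ^ 2) z₁) :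
    fderiv ℝ (fderiv ℝ A) z₁ u u + fderiv ℝ (fderiv ℝ ψ) z₁ u u ≤ 2 * δ := by
  have hc : Tendsto (fun t : ℝ => z₁ + t • u) (𝓝 0) (𝓝 z₁) := by
    have := (pshb_path z₁ u 0).continuousAt
    unfold ContinuousAt at this
    simpa using this
  have hA1 := pshb_at (u := u) hA
  have hψ1 := pshb_at (u := u) hψ
  have hq : ContDiffAt ℝ 2 (fun t : ℝ => δ * ((a + t) ^ 2 + b ^ 2)) 0 := by fun_prop
  have e1 : (fun t : ℝ => A (z₁ + t • u) + ψ (z₁ + t • u) - δ * ‖z₁ + t • u‖ ^ 2) =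
      fun t : ℝ => (A (z₁ + t • u) + ψ (z₁ + t • u)) - δ * ((a + t) ^ 2 + b ^ 2) := by
    funext t
    rw [hu]
  have h1 : IsLocalMax (fun t : ℝ => A (z₁ + t • u) + ψ (z₁ + t • u) - δ * ‖z₁ + t • u‖ ^ 2) 0 := by
    filter_upwards [hc.eventually hm] with t ht
    simpa using ht
  rw [e1] at h1
  have h2 := RC.deriv_two_nonpos h1 ((hA1.add hψ1).sub hq).continuousAt
  have h3 : deriv (deriv fun t : ℝ => (A (z₁ + t • u) + ψ (z₁ + t • u)) -
      δ * ((a + t) ^ 2 + b ^ 2)) 0 = iteratedDeriv 2 (fun t : ℝ => (A (z₁ + t • u) +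
      ψ (z₁ + t • u)) - δ * ((a + t) ^ 2 + b ^ 2)) 0 := by
    rw [iteratedDeriv_succ, iteratedDeriv_one]
  rw [h3, iteratedDeriv_fun_sub (hA1.add hψ1) hq, iteratedDeriv_fun_add hA1 hψ1, pshb_line hA,
    pshb_line hψ, pshb_sq] at h2
  linarith

private theorem pshb_core {A ψ : ℂ → ℝ} {z₁ : ℂ} {δ : ℝ} (hA : ContDiffAt ℝ 2 A z₁)
    (hψ : ContDiffAt ℝ 2 ψ z₁)
    (hAl : 0 ≤ fderiv ℝ (fderiv ℝ A) z₁ 1 1 + fderiv ℝ (fderiv ℝ A) z₁ Complex.I Complex.I)
    (hψl : 4 * δ < fderiv ℝ (fderiv ℝ ψ) z₁ 1 1 + fderiv ℝ (fderiv ℝ ψ) z₁ Complex.I Complex.I) :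
    ¬ IsLocalMax (fun z => A z + ψ z - δ * ‖z‖ ^ 2) z₁ := by
  intro hm
  have h1 := pshb_dir (u := 1) (a := z₁.re) (b := z₁.im) hA hψ (fun t => by
    rw [← Complex.normSq_eq_norm_sq, Complex.normSq_apply]
    simp
    ring) hm
  have h2 := pshb_dir (u := Complex.I) (a := z₁.im) (b := z₁.re) hA hψ (fun t => by
    rw [← Complex.normSq_eq_norm_sq, Complex.normSq_apply]
    simp
    ring) hm
  linarith

/-- the second derivative of a function on a complex line -/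
private theorem pshb_two {f : Vec n → ℝ} (hs : ContDiffOn ℝ (⊤ : ℕ∞) f (Cone n)) {v : Vec n}
    (hv : v ∈ Cone n) : ContDiffAt ℝ 2 f v :=
  (hs.of_le (WithTop.coe_le_coe.2 (le_top : (2 : ℕ∞) ≤ ⊤))).contDiffAt ((isOpen_cone n).mem_nhds hv)

private theorem pshb_lev {f : Vec n → ℝ} (hs : ContDiffOn ℝ (⊤ : ℕ∞) f (Cone n)) {v ξ : Vec n}
    {z : ℂ} (hz : v + z • ξ ∈ Cone n) : ContDiffAt ℝ 2 (fun z : ℂ => f (v + z • ξ)) z ∧
      fderiv ℝ (fderiv ℝ fun z : ℂ => f (v + z • ξ)) z 1 1 +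
        fderiv ℝ (fderiv ℝ fun z : ℂ => f (v + z • ξ)) z Complex.I Complex.I =
          lev f (v + z • ξ) ξ := by
  have h0 : ContDiffAt ℝ 2 (fun z : ℂ => v + z • ξ) z := by fun_prop
  have h1 : ContDiffAt ℝ 2 (fun z : ℂ => f (v + z • ξ)) z :=
    ContDiffAt.comp (f := fun z : ℂ => v + z • ξ) z (pshb_two hs hz) h0
  refine ⟨h1, ?_⟩
  have key : ∀ u : ℂ, fderiv ℝ (fderiv ℝ fun z : ℂ => f (v + z • ξ)) z u u =
      fderiv ℝ (fderiv ℝ f) (v + z • ξ) (u • ξ) (u • ξ) := by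
    intro u
    rw [← pshb_line h1, ← pshb_line (pshb_two hs hz)]
    congr 1
    funext t
    congr 1
    rw [add_smul, smul_assoc, add_assoc]
  rw [key, key, one_smul, lev]

private theorem pshb_W (g : SUGroup n) {c : ℂ} (hc : c ≠ 0) :
    W (c • act g (base n)) = ch g ^ 2 := by
  have h1 : 0 < ‖c‖ ^ 2 := by positivity
  rw [← W_orbit, W, W, q_smul, Pi.smul_apply, norm_smul, mul_pow, ← mul_neg,
    mul_div_mul_left _ _ h1.ne']

/-- **PW implies VSub.** PROOF: `f = lav θ y`, `lev f ≥ 0` everywhere (`pw_lav` with `O = univ`,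
`lev_nonneg`). Let `y(v + zξ) + ψ(z)` have a local maximum at `0`. Replace `ψ` by `ψ - δ |z|²` (the
Laplacian stays positive at `0` for small `δ > 0`): strict maximum, in the closed disc `|z| ≤ r`:
`y(v + zξ) + ψ(z) - δ |z|² ≤ y(v) + ψ(0) - δ |z|²`. For `θ` near the delta function `f` is uniformly close
to `y` on the disc (`lav_approx`), so `f(v + zξ) + ψ(z) - δ|z|²` has an interior maximum in the disc at a
point `z₁` near `0`, where the Laplacian of `z ↦ f(v + zξ)` is `lev f (v + z₁ξ) ξ ≥ 0` and that of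
`ψ - δ |z|²` is positive (continuity of the second derivatives near `0`): contradiction
(`RC.deriv_two_nonpos`). -/
theorem vsub_of_pw (hn : 1 ≤ n) (hy : Fn y) (h : PW Set.univ (onG y)) : VSub y := by
  intro v hv ξ ψ hψ hlap hmax
  obtain ⟨L, hL⟩ : ∃ L : ℝ, L = fderiv ℝ (fderiv ℝ ψ) 0 1 1 +
    fderiv ℝ (fderiv ℝ ψ) 0 Complex.I Complex.I := ⟨_, rfl⟩
  obtain ⟨δ, hδ⟩ : ∃ δ : ℝ, δ = L / 8 := ⟨_, rfl⟩
  have hL0 : 0 < L := by rw [hL]; exact hlap
  have hδ0 : 0 < δ := by rw [hδ]; positivity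
  -- the disc
  have c1 : ContinuousAt (fun z : ℂ => v + z • ξ) 0 := by fun_prop
  have a1 : ∀ᶠ z : ℂ in 𝓝 0, v + z • ξ ∈ Cone n := by
    refine c1.eventually ((isOpen_cone n).mem_nhds ?_)
    simpa using hv
  have a2 : ∀ᶠ z : ℂ in 𝓝 0, ContDiffAt ℝ 2 ψ z := hψ.eventually (by norm_num)
  have c3 : ContinuousAt (fderiv ℝ (fderiv ℝ ψ)) 0 :=
    ((hψ.fderiv_right (m := 1) (by norm_num)).fderiv_right (m := 0) (by norm_num)).continuousAt
  have c4 : ContinuousAt (fun z : ℂ => fderiv ℝ (fderiv ℝ ψ) z 1 1 +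
      fderiv ℝ (fderiv ℝ ψ) z Complex.I Complex.I) 0 :=
    ((c3.clm_apply continuousAt_const).clm_apply continuousAt_const).add
      ((c3.clm_apply continuousAt_const).clm_apply continuousAt_const)
  have a3 : ∀ᶠ z : ℂ in 𝓝 0, 4 * δ < fderiv ℝ (fderiv ℝ ψ) z 1 1 +
      fderiv ℝ (fderiv ℝ ψ) z Complex.I Complex.I := by
    refine c4.eventually (lt_mem_nhds ?_)
    show 4 * δ < fderiv ℝ (fderiv ℝ ψ) 0 1 1 + fderiv ℝ (fderiv ℝ ψ) 0 Complex.I Complex.I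
    rw [← hL, hδ]
    linarith
  obtain ⟨r, hr0, hr⟩ : ∃ r > 0, ∀ z : ℂ, ‖z‖ ≤ r → v + z • ξ ∈ Cone n ∧ ContDiffAt ℝ 2 ψ z ∧
      4 * δ < fderiv ℝ (fderiv ℝ ψ) z 1 1 + fderiv ℝ (fderiv ℝ ψ) z Complex.I Complex.I ∧
      y (v + z • ξ) + ψ z ≤ y v + ψ 0 := by
    have a5 := (((a1.and a2).and a3).and hmax)
    rw [Metric.eventually_nhds_iff] at a5
    obtain ⟨ρ, hρ, h5⟩ := a5
    refine ⟨ρ / 2, by positivity, fun z hz => ?_⟩
    have h6 := h5 (y := z) (by rw [dist_zero_right]; linarith)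
    refine ⟨h6.1.1.1, h6.1.1.2, h6.1.2, ?_⟩
    have h7 := h6.2
    simpa using h7
  have hK : IsCompact (Metric.closedBall (0 : ℂ) r) := isCompact_closedBall 0 r
  -- the bound for `W`
  have hWc : ContinuousOn (fun z : ℂ => W (v + z • ξ)) (Metric.closedBall (0 : ℂ) r) := by
    have e : (fun z : ℂ => W (v + z • ξ)) = fun z : ℂ => ‖(v + z • ξ) (Fin.last n)‖ ^ 2 /
        (- q (v + z • ξ)) := rfl
    rw [e]
    refine ContinuousOn.div ?_ ?_ ?_
    · have : Continuous fun z : ℂ => ‖(v + z • ξ) (Fin.last n)‖ ^ 2 := by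
        simp only [Pi.add_apply, Pi.smul_apply]
        fun_prop
      exact this.continuousOn
    · have : Continuous fun z : ℂ => - q (v + z • ξ) :=
        (lk_contDiff_q.continuous.comp (by fun_prop : Continuous fun z : ℂ => v + z • ξ)).neg
      exact this.continuousOn
    · intro z hz
      have h1 : q (v + z • ξ) < 0 := (hr z (by simpa using hz)).1
      exact (neg_pos.2 h1).ne'
  obtain ⟨T, hT⟩ := (hK.image_of_continuousOn hWc).bddAbove
  have hch : ∀ z : ℂ, ‖z‖ ≤ r → ∃ (g : SUGroup n) (c : ℂ), c ≠ 0 ∧ v + z • ξ = c • act g (base n) ∧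
      ch g ≤ T + 1 := by
    intro z hz
    obtain ⟨g, c, hc0, hg⟩ := exists_act_eq (hr z hz).1
    refine ⟨g, c, hc0, hg, ?_⟩
    have h1 : W (v + z • ξ) ≤ T := hT ⟨z, by simpa using hz, rfl⟩
    rw [hg, pshb_W g hc0] at h1
    have h2 := one_le_ch g
    nlinarith
  -- the approximation
  obtain ⟨ε, hε⟩ : ∃ ε : ℝ, ε = δ * r ^ 2 / 4 := ⟨_, rfl⟩
  have hε0 : 0 < ε := by rw [hε]; positivity
  obtain ⟨δ', hδ', happ⟩ := lav_approx hy.hom hy.cont (T + 1) hε0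
  obtain ⟨θ, hθ, hθ1, hθ2⟩ := exists_moll n hδ'
  have happ' := happ θ hθ hθ1 hθ2
  obtain ⟨f, hf⟩ : ∃ f : Vec n → ℝ, f = lav θ y := ⟨_, rfl⟩
  obtain ⟨N, C, hadm⟩ := hy.adm
  have hfh : Homog f := by rw [hf]; exact lav_homog θ y
  have hfs : ContDiffOn ℝ (⊤ : ℕ∞) f (Cone n) := by rw [hf]; exact lav_contDiffOn hθ hadm
  have hfl : ∀ j g, 0 ≤ lvi f j g := by
    intro j g
    rw [hf]
    exact pw_lav hy hθ (fun b _ => Set.mem_univ b) h j
  have hfy : ∀ z : ℂ, ‖z‖ ≤ r → |f (v + z • ξ) - y (v + z • ξ)| ≤ ε := by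
    intro z hz
    obtain ⟨g, c, hc0, hg, hgT⟩ := hch z hz
    rw [hg, hfh c hc0 _ (orbit_mem g), hy.hom c hc0 _ (orbit_mem g), hf]
    exact happ' g hgT
  -- the maximum
  obtain ⟨m, hm⟩ : ∃ m : ℂ → ℝ, m = fun z => f (v + z • ξ) + ψ z - δ * ‖z‖ ^ 2 := ⟨_, rfl⟩
  have hmc : ContinuousOn m (Metric.closedBall (0 : ℂ) r) := by
    intro z hz
    have hz' : ‖z‖ ≤ r := by simpa using hz
    have h1 := (pshb_lev hfs (hr z hz').1).1.continuousAt
    have h2 := (hr z hz').2.1.continuousAt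
    have h3 : ContinuousAt (fun z : ℂ => δ * ‖z‖ ^ 2) z := by fun_prop
    rw [hm]
    exact ((h1.add h2).sub h3).continuousWithinAt
  obtain ⟨z₁, hz₁, hz₁m⟩ := hK.exists_isMaxOn ⟨0, by simpa using hr0.le⟩ hmc
  have hz₁' : ‖z₁‖ ≤ r := by simpa using hz₁
  have hz₁r : ‖z₁‖ < r := by
    refine lt_of_le_of_ne hz₁' fun heq => ?_
    have h1 : m 0 ≤ m z₁ := hz₁m (by simpa using hr0.le)
    rw [hm] at h1
    simp only [zero_smul, add_zero, norm_zero, ne_eq, OfNat.ofNat_ne_zero, not_false_eq_true,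
      zero_pow, mul_zero, sub_zero] at h1
    have h2 := (hr z₁ hz₁').2.2.2
    have h3 := abs_le.1 (hfy z₁ hz₁')
    have h4 := abs_le.1 (hfy 0 (by simpa using hr0.le))
    rw [zero_smul, add_zero] at h4
    rw [heq] at h1
    have h5 : 0 < δ * r ^ 2 := by positivity
    linarith [h3.2, h4.1]
  have hloc : IsLocalMax m z₁ := by
    refine hz₁m.isLocalMax ?_
    refine Metric.closedBall_mem_nhds_of_mem ?_
    simpa using hz₁r
  have hl := pshb_lev hfs (hr z₁ hz₁').1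
  rw [hm] at hloc
  refine pshb_core hl.1 (hr z₁ hz₁').2.1 ?_ (hr z₁ hz₁').2.2.1 hloc
  rw [hl.2]
  exact lev_nonneg hn hfh hfs hfl (hr z₁ hz₁').1 ξ

end Pool.Agent.Lib.MP_5d4057_al.IN.D
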