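import Pool.Agent.Lib.MP_5d4057_al.IN.DInd
import Pool.Agent.Lib.MP_5d4057_al.IN.DGloB
import Pool.Agent.Lib.MP_5d4057_al.IN.DPshB

/-! INT, part D, file DFin: the final theorem of part D. -/

set_option autoImplicit false

namespace Pool.Agent.Lib.MP_5d4057_al.IN.D

open Matrix MeasureTheory Filter Topology Pool.Agent.Lib.MP_5d4057_al
  Pool.Agent.Lib.MP_5d4057_al.Hyb Pool.Agent.Lib.MP_5d4057_al.HM

open scoped ComplexOrder MatrixOrder Matrix.Norms.L2Operator ENNReal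

variable {n : ℕ}

/-- The form of the final theorem which does not depend on the group: if Siu's form vanishes then all
functions of the system are plurisubharmonic. -/
theorem psh_of_siu (hn : 1 ≤ n) {r : ℕ} {φ : Vec n → Vec n → ℝ} {S : Set (Vec n → ℝ)}
    (h : Good r (Cone n) φ S) (h0 : ∀ Φ, Tst Set.univ Φ → Siu (qf φ) Φ = 0) :
    ∀ y ∈ S, VSub y := by
  intro y hy
  refine vsub_of_pw hn (h.basic.fn y hy) ?_
  have h1 := (main r (Cone n) φ S h).2
  rw [orb_cone] at h1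
  exact h1 h0 y hy

/-- **The theorem of part D** (cocompact case). -/
theorem psh_of_good (hn : 1 ≤ n) {Γ : Subgroup (SUGroup n)} (hΓ : Coc Γ) {r : ℕ}
    {φ : Vec n → Vec n → ℝ} {S : Set (Vec n → ℝ)} (h : Good r (Cone n) φ S)
    (hinv : ∀ γ ∈ Γ, ∀ v ∈ Cone n, ∀ w ∈ Cone n, φ (act γ v) (act γ w) = φ v w) :
    ∀ y ∈ S, VSub y := by
  obtain ⟨G, hG⟩ := (main r (Cone n) φ S h).1
  rw [orb_cone] at hG
  exact psh_of_siu hn h (siu_zero hΓ hG fun γ hγ a b g => qf_inv (hinv γ hγ) a b g)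

end Pool.Agent.Lib.MP_5d4057_al.IN.D
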