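import Pool.Agent.Lib.MP_5d4057_al.IN.DGloE
import Pool.Agent.Lib.MP_5d4057_al.IN.DFin

/-! INT, part D, file DFinN: the final theorem of part D for every lattice which has a density and a
height function. -/

set_option autoImplicit false

namespace Pool.Agent.Lib.MP_5d4057_al.IN.D

open Matrix MeasureTheory Filter Topology Pool.Agent.Lib.MP_5d4057_al
  Pool.Agent.Lib.MP_5d4057_al.Hyb Pool.Agent.Lib.MP_5d4057_al.HM
  Pool.Agent.Lib.MP_5d4057_al.NU

open scoped ComplexOrder MatrixOrder Matrix.Norms.L2Operator ENNReal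

variable {n : ℕ}

/-- **The theorem of part D** (lattices). -/
theorem psh_of_good_lat (hn : 1 ≤ n) {Γ : Subgroup (SUGroup n)} {χ : SUGroup n → ℝ}
    (hΓ : Lat Γ χ) {T : ℝ} {y : Vec n → ℝ} (hy : Ht Γ T y) {r : ℕ} {φ : Vec n → Vec n → ℝ}
    {S : Set (Vec n → ℝ)} (h : Good r (Cone n) φ S)
    (hinv : ∀ γ ∈ Γ, ∀ v ∈ Cone n, ∀ w ∈ Cone n, φ (act γ v) (act γ w) = φ v w)
    (hmeas : ∀ x : SUGroup n, Measurable fun g : SUGroup n =>
      φ (act g (base n)) (act (g * x) (base n))) {C : ℝ}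
    (hE : ∀ x : SUGroup n, LI χ (fun g => ENNReal.ofReal
      (φ (act g (base n)) (act (g * x) (base n)))) ≤ ENNReal.ofReal (C * Real.log (wt x) ^ 2)) :
    ∀ u ∈ S, VSub u := by
  obtain ⟨G, hG⟩ := (main r (Cone n) φ S h).1
  rw [orb_cone] at hG
  exact psh_of_siu hn h (siu_zero_lat hΓ hy hG (fun γ hγ a b g => qf_inv (hinv γ hγ) a b g)
    fun a => LI_qf_lt hΓ h hmeas hE a)

end Pool.Agent.Lib.MP_5d4057_al.IN.D
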