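import Pool.Agent.Lib.MP_5d4057_al.IN.FDef

/-!
# Part F1: the maximum principle for bounded pieces
-/

namespace Pool.Agent.Lib.MP_5d4057_al.IN

open Matrix MeasureTheory Filter Topology Module Pool.Agent.Lib.MP_5d4057_al
  Pool.Agent.Lib.MP_5d4057_al.Hyb Pool.Agent.Lib.MP_5d4057_al.HM Pool.Agent.Lib.MP_5d4057_al.HM.Kak

section Nm

variable {k : Type} [NontriviallyNormedField k] [IsUltrametricDist k] [ProperSpace k]
  {V : Type} [AddCommGroup V] [Module k V] [FiniteDimensional k V]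

/-- Finitely many powers in a compact interval of positive numbers. -/
private theorem fm_fin {x : ℝ} (h0 : 0 < x) (h1 : x < 1) {a b : ℝ} (ha : 0 < a) :
    {m : ℤ | a ≤ x ^ m ∧ x ^ m ≤ b}.Finite := by
  obtain ⟨p, hp⟩ := exists_pow_lt_of_lt_one ha h1
  obtain ⟨s, hs⟩ := exists_pow_lt_of_lt_one (show (0 : ℝ) < (max b 1)⁻¹ by positivity) h1
  refine (Set.finite_Icc (-(s : ℤ)) (p : ℤ)).subset ?_
  rintro m ⟨hm1, hm2⟩
  constructor
  · by_contra hlt
    push Not at hlt
    have h2 : x ^ (-(s : ℤ)) ≤ x ^ m :=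
      zpow_le_zpow_right_of_le_one₀ h0 h1.le (by omega)
    rw [_root_.zpow_neg, zpow_natCast] at h2
    have h3 : max b 1 < (x ^ s)⁻¹ := by
      rw [lt_inv_comm₀ (by positivity) (by positivity)]
      exact hs
    have h4 := le_max_left b 1
    linarith
  · by_contra hlt
    push Not at hlt
    have h2 : x ^ m ≤ x ^ (p : ℤ) :=
      zpow_le_zpow_right_of_le_one₀ h0 h1.le (by omega)
    rw [zpow_natCast] at h2
    linarith

/-- The values of a norm are discrete: a bounded non empty set of values which are `≠ 0` contains its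
supremum. PROOF: orthogonal basis `b`; every value is `‖c‖ * N (b i)`, `‖c‖` in `‖ϖ‖ ^ ℤ`
(`exists_unif`); for each `i` the values `≥ M / 2`, `≤ M` (`M` = the supremum) are finitely many, so
the supremum is a maximum. -/
theorem Nm.exists_max_value (N : Nm k V) {ι : Type} [Nonempty ι] (w : ι → V) (hw : ∀ i, w i ≠ 0)
    {C : ℝ} (hC : ∀ i, N (w i) ≤ C) : ∃ i, ∀ j, N (w j) ≤ N (w i) := by
  obtain ⟨b, hb⟩ := exists_orth N
  obtain ⟨ϖ, hϖ0, hϖ1, hϖ⟩ := exists_unif k
  have hp : 0 < ‖ϖ‖ := norm_pos_iff.2 hϖ0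
  obtain ⟨i₀⟩ := ‹Nonempty ι›
  have hm0 : 0 < N (w i₀) := N.pos (hw i₀)
  have hfin : {r : ℝ | ∃ i, r = N (w i) ∧ N (w i₀) ≤ r}.Finite := by
    refine (Set.finite_iUnion fun l : Fin (finrank k V) =>
      (fm_fin (b := C / N (b l)) hp hϖ1 (div_pos hm0 (N.pos (b.ne_zero l)))).image
        fun m : ℤ => ‖ϖ‖ ^ m * N (b l)).subset ?_
    rintro r ⟨i, rfl, hi⟩
    obtain ⟨l, hl, hl0⟩ := hb.exists_eq (hw i)
    obtain ⟨m, hm⟩ := hϖ _ hl0
    rw [hm] at hl
    have hbl := N.pos (b.ne_zero l)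
    refine Set.mem_iUnion.2 ⟨l, m, ⟨?_, ?_⟩, hl⟩
    · rw [div_le_iff₀ hbl, hl]
      exact hi
    · rw [le_div_iff₀ hbl, hl]
      exact hC i
  obtain ⟨r, ⟨i, hri, hi⟩, hmax⟩ := Set.exists_max_image _ id hfin ⟨N (w i₀), i₀, rfl, le_rfl⟩
  refine ⟨i, fun j => ?_⟩
  rcases le_total (N (w i₀)) (N (w j)) with h | h
  · rw [← hri]
    exact hmax _ ⟨j, rfl, h⟩
  · rw [← hri]
    exact h.trans hi

/-- If `N.act e = N` then the trace of `e` has norm at most one. PROOF: in an orthogonal basis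
(`exists_orth`) the diagonal entries satisfy `‖e_ii‖ N (b i) ≤ N (e (b i)) = N (b i)`
(`N (e v) = N v`); the trace is the sum of the diagonal entries (`LinearMap.trace_eq_matrix_trace`),
ultrametric inequality. -/
theorem Nm.trace_le (N : Nm k V) (e : V ≃ₗ[k] V) (h : N.act e = N) :
    ‖LinearMap.trace k V (e : V →ₗ[k] V)‖ ≤ 1 := by
  obtain ⟨b, hb⟩ := exists_orth N
  have he : ∀ v, N (e v) = N v := fun v => by
    have h1 : N.act e (e v) = N (e v) := by rw [h]
    rw [Nm.act_apply, LinearEquiv.symm_apply_apply] at h1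
    exact h1.symm
  rw [LinearMap.trace_eq_matrix_trace k b, Matrix.trace]
  refine IsUltrametricDist.norm_sum_le_of_forall_le_of_nonneg zero_le_one fun i _ => ?_
  rw [Matrix.diag_apply, LinearMap.toMatrix_apply]
  have h1 := hb (e (b i)) i
  rw [he] at h1
  exact le_of_mul_le_mul_right (by rw [one_mul]; exact h1) (N.pos (b.ne_zero i))

end Nm

variable {n : ℕ} {Γ : Subgroup (SUGroup n)}
  {k : Type} [NontriviallyNormedField k] [IsUltrametricDist k] [ProperSpace k]
  {V : Type} [AddCommGroup V] [Module k V] [FiniteDimensional k V] {ρ : Γ →* (V ≃ₗ[k] V)}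
  {f : Vec n → Nm k V}

/-- Every point of the cone is, up to a scalar, of the form `g (ζ + e_n)`, `ζ = r ξ`, `|ξ| = 1`,
`0 ≤ r < 1`, for any given `g`. -/
theorem exists_disc (hn : 1 ≤ n) (g : SUGroup n) {v : Vec n} (hv : v ∈ Cone n) :
    ∃ (c : ℂ) (ξ : Fin n → ℂ) (r : ℝ), c ≠ 0 ∧ nq ξ = 1 ∧ 0 ≤ r ∧ r < 1 ∧
      v = c • act g (vec (((r : ℝ) : ℂ) • ξ) + base n) := by
  obtain ⟨u, hu⟩ : ∃ u, u = act g⁻¹ v := ⟨_, rfl⟩
  have huc : u ∈ Cone n := by
    rw [hu]
    exact act_mem _ hv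
  have hvu : v = act g u := by rw [hu, ← act_mul, mul_inv_cancel, act_one]
  have hl := norm_last_pos huc
  have hl0 : u (Fin.last n) ≠ 0 := norm_pos_iff.1 hl
  obtain ⟨ζ, hζ⟩ : ∃ ζ : Fin n → ℂ, ζ = fun i => u i.castSucc / u (Fin.last n) := ⟨_, rfl⟩
  have hq : nq ζ < 1 := by
    have h1 : q u < 0 := huc
    rw [q_eq] at h1
    rw [nq, hζ]
    simp only [norm_div, div_pow, ← Finset.sum_div]
    rw [div_lt_one (by positivity)]
    linarith
  have hu2 : u = u (Fin.last n) • (vec ζ + base n) := by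
    ext i
    refine Fin.lastCases ?_ (fun i => ?_) i
    · rw [Pi.smul_apply, Pi.add_apply, vec_last, base_last, smul_eq_mul, zero_add, mul_one]
    · rw [Pi.smul_apply, Pi.add_apply, vec_castSucc, base_castSucc, hζ, smul_eq_mul, add_zero,
        mul_div_cancel₀ _ hl0]
  obtain ⟨r, hr⟩ : ∃ r, r = Real.sqrt (nq ζ) := ⟨_, rfl⟩
  have hr0 : 0 ≤ r := by
    rw [hr]
    exact Real.sqrt_nonneg _
  have hr2 : r ^ 2 = nq ζ := by rw [hr, Real.sq_sqrt (nq_nonneg ζ)]
  have hr1 : r < 1 := by nlinarith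
  by_cases h0 : r = 0
  · have hζ0 : ζ = 0 := by
      rw [h0, zero_pow two_ne_zero, nq] at hr2
      funext i
      have := (Finset.sum_eq_zero_iff_of_nonneg fun i _ => sq_nonneg ‖ζ i‖).1 hr2.symm i
        (Finset.mem_univ i)
      exact norm_eq_zero.1 (pow_eq_zero_iff two_ne_zero |>.1 this)
    refine ⟨u (Fin.last n), Pi.single ⟨0, hn⟩ 1, 0, hl0, ?_, le_rfl, one_pos, ?_⟩
    · rw [nq, Finset.sum_eq_single ⟨0, hn⟩]
      · simp
      · intro i _ hi
        simp [Pi.single_eq_of_ne hi]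
      · simp
    · rw [Complex.ofReal_zero, zero_smul, vec_zero, ← act_smul, hvu]
      conv_lhs => rw [hu2, hζ0, vec_zero]
  · have h0' : ((r : ℝ) : ℂ) ≠ 0 := by exact_mod_cast h0
    refine ⟨u (Fin.last n), fun i => ζ i / ((r : ℝ) : ℂ), r, hl0, ?_, hr0, hr1, ?_⟩
    · rw [nq]
      simp only [norm_div, div_pow, ← Finset.sum_div, Complex.norm_real, Real.norm_eq_abs, sq_abs]
      rw [hr2, ← nq, div_self]
      rw [← hr2]
      exact pow_ne_zero 2 h0
    · have h1 : ((r : ℝ) : ℂ) • (fun i => ζ i / ((r : ℝ) : ℂ)) = ζ := by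
        funext i
        rw [Pi.smul_apply, smul_eq_mul, mul_div_cancel₀ _ h0']
      rw [h1, ← act_smul, ← hu2, hvu]

/-- Continuity from the Lipschitz estimate. -/
private theorem fm_lipcont {u : SUGroup n → ℝ} {L : ℝ}
    (h : ∀ g x : SUGroup n, |u g - u (g * x)| ≤ L * Real.log (wt x)) : Continuous u := by
  rw [continuous_iff_continuousAt]
  intro g
  rw [ContinuousAt, tendsto_iff_dist_tendsto_zero]
  have h1 : Tendsto (fun y : SUGroup n => L * Real.log (wt (g⁻¹ * y))) (𝓝 g) (𝓝 0) := by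
    have hc : Continuous fun y : SUGroup n => L * Real.log (wt (g⁻¹ * y)) :=
      continuous_const.mul ((continuous_wt.comp (continuous_const.mul continuous_id)).log
        fun y => (lt_of_lt_of_le one_pos (one_le_wt _)).ne')
    have h2 := hc.tendsto g
    rw [inv_mul_cancel, wt_one, Real.log_one, mul_zero] at h2
    exact h2
  refine squeeze_zero (fun y => dist_nonneg) (fun y => ?_) h1
  have h3 := h g (g⁻¹ * y)
  rw [mul_inv_cancel_left] at h3
  rw [Real.dist_eq, abs_sub_comm]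
  exact h3

open scoped Matrix.Norms.L2Operator in
/-- The functions `log f(v)(w)` are continuous on the cone. -/
private theorem PshMap.fm_cont_v (hf : PshMap ρ f) (w : V) :
    ContinuousOn (fun v => Real.log (f v w)) (Cone n) := by
  obtain ⟨L, hL, hlip⟩ := hf.lip
  have h1 : Continuous fun g : SUGroup n => Real.log (f (act g (base n)) w) :=
    fm_lipcont fun g x => (Nm.log_le_dist _ _ _).trans (hlip g x)
  obtain ⟨sec, hsec, -, hsm, -⟩ := exists_sec n
  have h2 : ContinuousOn sec (Cone n) := by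
    rw [(isClosedEmbedding_toMatrix n).isInducing.continuousOn_iff]
    exact hsm.continuousOn
  have h3 := h1.comp_continuousOn h2
  refine h3.congr fun v hv => ?_
  obtain ⟨c, hc, h4⟩ := hsec v hv
  show Real.log (f v w) = Real.log (f (act (sec v) (base n)) w)
  rw [← hf.hom c hc _ (orbit_mem (sec v)), ← h4]

private theorem fm_disc_mem {ξ : Fin n → ℂ} (hξ : nq ξ = 1) {z : ℂ} (hz : ‖z‖ < 1) :
    vec (z • ξ) + base n ∈ Cone n := by
  show q _ < 0
  rw [q_eq]
  simp only [Pi.add_apply, vec_castSucc, base_castSucc, vec_last, base_last, add_zero, zero_add,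
    norm_one, Pi.smul_apply, smul_eq_mul, norm_mul, mul_pow, ← Finset.mul_sum]
  rw [← nq, hξ]
  have := norm_nonneg z
  nlinarith

private theorem fm_cont_act (g : SUGroup n) {p : ℝ → Vec n} (hp : Continuous p) :
    Continuous fun θ => act g (p θ) := by
  unfold act
  exact continuous_const.matrix_mulVec hp

private theorem fm_cont_vec {z : ℝ → ℂ} (hz : Continuous z) (ξ : Fin n → ℂ) :
    Continuous fun θ => vec (z θ • ξ) + base n := by
  refine Continuous.add (continuous_pi fun i => ?_) continuous_const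
  refine Fin.lastCases ?_ (fun i => ?_) i
  · simp only [vec_last]
    exact continuous_const
  · simp only [vec_castSucc, Pi.smul_apply, smul_eq_mul]
    exact hz.mul continuous_const

/-- The strong maximum principle for the functions `log f(v)(w)`: if the function is at most `c`
everywhere and equal to `c` at one point then it is constant. PROOF: circle inequality at the point
`g`; the integrand is continuous (`lip`, `contDiffOn_sec` or directly), at most `c`, with mean `≥ c`,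
so equal to `c` on every circle; `exists_disc`. -/
theorem PshMap.strong_max (hn : 1 ≤ n) (hf : PshMap ρ f) {w : V} (hw : w ≠ 0) {c : ℝ}
    (hc : ∀ v ∈ Cone n, Real.log (f v w) ≤ c) {v₀ : Vec n} (hv₀ : v₀ ∈ Cone n)
    (h : Real.log (f v₀ w) = c) : ∀ v ∈ Cone n, Real.log (f v w) = c := by
  have hcont := hf.fm_cont_v w
  intro v hv
  obtain ⟨g₀, c₀, hc₀, hv₀'⟩ := exists_act_eq hv₀
  obtain ⟨c₁, ξ, r, hc₁, hξ, hr0, hr1, hv'⟩ := exists_disc hn g₀ hv
  have h1 : Real.log (f (act g₀ (base n)) w) = c := by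
    rw [← h, hv₀', hf.hom c₀ hc₀ _ (orbit_mem g₀)]
  have hmem : ∀ θ : ℝ, act g₀ (vec ((((r : ℝ) : ℂ) * Complex.exp (θ * Complex.I)) • ξ) + base n) ∈
      Cone n := fun θ => act_mem g₀ (fm_disc_mem hξ (by
        rw [norm_mul, Complex.norm_exp_ofReal_mul_I, mul_one, Complex.norm_real, Real.norm_eq_abs,
          abs_of_nonneg hr0]
        exact hr1))
  have hF : Continuous fun θ : ℝ =>
      Real.log (f (act g₀ (vec ((((r : ℝ) : ℂ) * Complex.exp (θ * Complex.I)) • ξ) + base n)) w) := by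
    refine hcont.comp_continuous ?_ hmem
    refine fm_cont_act g₀ (fm_cont_vec ?_ ξ)
    fun_prop
  have hv2 : act g₀ (vec (((r : ℝ) : ℂ) • ξ) + base n) ∈ Cone n := by
    have := hmem 0
    rwa [Complex.ofReal_zero, zero_mul, Complex.exp_zero, mul_one] at this
  have h2 : f v = f (act g₀ (vec (((r : ℝ) : ℂ) • ξ) + base n)) := by
    rw [hv', hf.hom c₁ hc₁ _ hv2]
  refine le_antisymm (hc v hv) ?_
  by_contra hlt
  push Not at hlt
  rw [h2] at hlt
  have h3 := hf.psh w hw g₀ ξ hξ r hr0 hr1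
  rw [h1] at h3
  have hpi : (0 : ℝ) < 2 * Real.pi := by positivity
  have h4 := intervalIntegral.integral_lt_integral_of_continuousOn_of_le_of_exists_lt (a := 0)
    (b := 2 * Real.pi) (f := fun θ : ℝ =>
      Real.log (f (act g₀ (vec ((((r : ℝ) : ℂ) * Complex.exp (θ * Complex.I)) • ξ) + base n)) w))
    (g := fun _ => c) hpi hF.continuousOn continuousOn_const (fun θ _ => hc _ (hmem θ))
    ⟨0, ⟨le_rfl, hpi.le⟩, by
      rw [Complex.ofReal_zero, zero_mul, Complex.exp_zero, mul_one]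
      exact hlt⟩
  rw [intervalIntegral.integral_const, smul_eq_mul, sub_zero] at h4
  have h5 := mul_lt_mul_of_pos_left h4 (inv_pos.2 hpi)
  rw [inv_mul_cancel_left₀ hpi.ne'] at h5
  exact absurd h3 (not_le.2 h5)

/-- MAIN LEMMA: if the representation is bounded then `f` is constant. PROOF: `w ≠ 0`;
`s g = ⨆ γ, log f(g e)(ρ γ w)` is finite, Lipschitz, `Γ`-invariant, so it has a maximum `c = s g₀`; by
`Nm.exists_max_value` there is `γ₀` with `log f(g₀ e)(ρ γ₀ w) = c`; by `strong_max`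
`log f(v)(ρ γ₀ w) = c` for all `v`; and `f(v)(w) = f(γ₀ v)(ρ γ₀ w)` by `equi`. -/
theorem PshMap.const_of_bdd (hn : 1 ≤ n) (hΓ : Coc Γ) (hf : PshMap ρ f) (hb : Bdd ρ) :
    ∀ v ∈ Cone n, f v = f (base n) := by
  obtain ⟨L, hL, hlip⟩ := hf.lip
  obtain ⟨N₀, C, hC⟩ := hb
  -- it suffices to find one good group element for every vector
  have key : ∀ w : V, w ≠ 0 → ∃ (γ₀ : Γ) (c : ℝ), ∀ v ∈ Cone n, Real.log (f v (ρ γ₀ w)) = c := by
    intro w hw
    have hne : ∀ γ : Γ, ρ γ w ≠ 0 := fun γ h0 => hw ((LinearEquiv.map_eq_zero_iff _).1 h0)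
    have hmax : ∀ g : SUGroup n, ∃ γ : Γ, ∀ γ' : Γ,
        f (act g (base n)) (ρ γ' w) ≤ f (act g (base n)) (ρ γ w) := by
      intro g
      obtain ⟨A, hA, hA'⟩ := Nm.exists_le N₀ (f (act g (base n)))
      exact Nm.exists_max_value (f (act g (base n))) (fun γ : Γ => ρ γ w) hne
        (C := A * (C * N₀ w)) fun γ =>
          (hA' _).trans (mul_le_mul_of_nonneg_left (hC γ w) hA.le)
    choose m hm using hmax
    have hlog : ∀ (g : SUGroup n) (γ : Γ), Real.log (f (act g (base n)) (ρ γ w)) ≤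
        Real.log (f (act g (base n)) (ρ (m g) w)) := fun g γ =>
      Real.log_le_log (Nm.pos _ (hne γ)) (hm g γ)
    have hd : ∀ (g x : SUGroup n) (γ : Γ), |Real.log (f (act g (base n)) (ρ γ w)) -
        Real.log (f (act (g * x) (base n)) (ρ γ w))| ≤ L * Real.log (wt x) := fun g x γ =>
      (Nm.log_le_dist _ _ _).trans (hlip g x)
    have hcont : Continuous fun g : SUGroup n =>
        Real.log (f (act g (base n)) (ρ (m g) w)) := by
      refine fm_lipcont (L := L) fun g x => ?_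
      rw [abs_sub_le_iff]
      constructor
      · have h1 := (abs_sub_le_iff.1 (hd g x (m g))).1
        have h2 := hlog (g * x) (m g)
        linarith
      · have h1 := (abs_sub_le_iff.1 (hd g x (m (g * x)))).2
        have h2 := hlog g (m (g * x))
        linarith
    have hinv : ∀ (γ : Γ) (g : SUGroup n),
        Real.log (f (act ((γ : SUGroup n) * g) (base n)) (ρ (m ((γ : SUGroup n) * g)) w)) ≤
          Real.log (f (act g (base n)) (ρ (m g) w)) := by
      intro γ g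
      rw [act_mul, hf.equi γ _ (orbit_mem g), Nm.act_apply]
      have h1 : (ρ γ).symm (ρ (m ((γ : SUGroup n) * g)) w) =
          ρ (γ⁻¹ * m ((γ : SUGroup n) * g)) w := by
        rw [map_mul, map_inv]
        rfl
      rw [h1]
      exact hlog g _
    obtain ⟨F, hF, hcov⟩ := hΓ.cpt
    have hFne : F.Nonempty := by
      obtain ⟨γ, -, hγ⟩ := hcov 1
      exact ⟨_, hγ⟩
    obtain ⟨g₀, -, hg₀⟩ := hF.exists_isMaxOn hFne hcont.continuousOn
    have hall : ∀ g : SUGroup n, Real.log (f (act g (base n)) (ρ (m g) w)) ≤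
        Real.log (f (act g₀ (base n)) (ρ (m g₀) w)) := by
      intro g
      obtain ⟨γ, hγ, hγg⟩ := hcov g
      have h1 := hinv (⟨γ, hγ⟩ : Γ)⁻¹ (γ * g)
      have h2 : (((⟨γ, hγ⟩ : Γ)⁻¹ : Γ) : SUGroup n) * (γ * g) = g := by
        rw [Subgroup.coe_inv, inv_mul_cancel_left]
      rw [h2] at h1
      exact h1.trans (hg₀ hγg)
    refine ⟨m g₀, Real.log (f (act g₀ (base n)) (ρ (m g₀) w)), ?_⟩
    refine hf.strong_max hn (hne _) (fun v hv => ?_) (orbit_mem g₀) rfl
    obtain ⟨g, c, hc, rfl⟩ := exists_act_eq hv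
    rw [hf.hom c hc _ (orbit_mem g)]
    exact (hlog g _).trans (hall g)
  intro v hv
  ext w
  by_cases hw : w = 0
  · rw [hw, Nm.zero, Nm.zero]
  obtain ⟨γ₀, c, hc⟩ := key w hw
  have h1 : ∀ v ∈ Cone n, Real.log (f v w) = c := by
    intro v hv
    have h2 := hc _ (act_mem (γ₀ : SUGroup n) hv)
    rw [hf.equi γ₀ v hv, Nm.act_apply, LinearEquiv.symm_apply_apply] at h2
    exact h2
  exact Real.log_injOn_pos (Nm.pos _ hw) (Nm.pos _ hw) ((h1 v hv).trans (h1 _ (base_mem n)).symm)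

private theorem fm_wt_extend {j : ℕ} (x : SUGroup j) : wt (extend j x) = wt x := by
  have h : ch (extend j x) = ch x := by
    rw [ch, ch, extend_toMatrix, ← Fin.succ_last, dsum_succ_succ]
  rw [wt, wt, h]

private theorem fm_nq_cons {j : ℕ} (ξ : Fin j → ℂ) : nq (Fin.cons 0 ξ : Fin (j + 1) → ℂ) = nq ξ := by
  rw [nq, nq, Fin.sum_univ_succ, Fin.cons_zero, norm_zero, zero_pow two_ne_zero, zero_add]
  rfl

private theorem fm_inc_vec {j : ℕ} (z : ℂ) (ξ : Fin j → ℂ) :
    inc j (vec (z • ξ) + base j) =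
      vec (z • (Fin.cons 0 ξ : Fin (j + 1) → ℂ)) + base (j + 1) := by
  rw [map_add, inc_base]
  congr 1
  ext i
  refine Fin.cases ?_ (fun i => ?_) i
  · rw [inc_zero, ← Fin.castSucc_zero, vec_castSucc, Pi.smul_apply, Fin.cons_zero, smul_zero]
  · rw [inc_succ]
    refine Fin.lastCases ?_ (fun i => ?_) i
    · rw [Fin.succ_last, vec_last, vec_last]
    · rw [Fin.succ_castSucc, vec_castSucc, vec_castSucc, Pi.smul_apply, Pi.smul_apply,
        Fin.cons_succ]

/-- Restriction to a hyperplane. -/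
theorem PshMap.hyp {j : ℕ} {Γ : Fin 2 → Subgroup (SUGroup j)} {g : Fin 2 → SUGroup (j + 1)}
    {ρ : hybrid Γ g →* (V ≃ₗ[k] V)} {f : Vec (j + 1) → Nm k V} (hf : PshMap ρ f) (b : Fin 2) :
    PshMap (ρ.comp (embHyb Γ g b)) (fun w => f (HM.hyp (g b) w)) := by
  have hb : ∀ (x : SUGroup j) (v : Vec j),
      HM.hyp (g b) (act x v) = act (g b * extend j x) (inc j v) := by
    intro x v
    rw [hyp_apply, act_mul, act_extend]
  refine ⟨?_, ?_, ?_, ?_⟩
  · intro c hc v hv
    show f (HM.hyp (g b) (c • v)) = f (HM.hyp (g b) v)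
    rw [map_smul]
    exact hf.hom c hc _ (hyp_mem (g b) hv)
  · obtain ⟨L, hL, hlip⟩ := hf.lip
    refine ⟨L, hL, fun y x => ?_⟩
    have h1 := hlip (g b * extend j y) (extend j x)
    rw [fm_wt_extend] at h1
    show dist (f (HM.hyp (g b) (act y (base j)))) (f (HM.hyp (g b) (act (y * x) (base j)))) ≤ _
    rw [hb, hb, inc_base, map_mul, ← mul_assoc]
    exact h1
  · intro γ v hv
    show f (HM.hyp (g b) (act (γ : SUGroup j) v)) =
      (f (HM.hyp (g b) v)).act (ρ (embHyb Γ g b γ))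
    rw [← hf.equi _ _ (hyp_mem (g b) hv), embHyb_coe]
    congr 1
    rw [hyp_apply, hyp_apply, ← act_mul, ← act_extend, ← act_mul, inv_mul_cancel_right]
  · intro w hw y ξ hξ r hr0 hr1
    have h1 := hf.psh w hw (g b * extend j y) (Fin.cons 0 ξ) (by rw [fm_nq_cons, hξ]) r hr0 hr1
    show Real.log (f (HM.hyp (g b) (act y (base j))) w) ≤ (2 * Real.pi)⁻¹ *
      ∫ θ in (0 : ℝ)..(2 * Real.pi), Real.log (f (HM.hyp (g b) (act y
        (vec ((((r : ℝ) : ℂ) * Complex.exp (θ * Complex.I)) • ξ) + base j))) w)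
    simp only [hb, fm_inc_vec, inc_base]
    exact h1

/-- THEOREM (hybrids): if both pieces are bounded and the two hyperplanes have a common point in the
form of `frame`, then all traces of the hybrid have norm at most one. -/
theorem trace_le_of_pieces {j : ℕ} (hj : 1 ≤ j) {Γ : Fin 2 → Subgroup (SUGroup j)}
    {g : Fin 2 → SUGroup (j + 1)} {ρ : hybrid Γ g →* (V ≃ₗ[k] V)} {f : Vec (j + 1) → Nm k V}
    (hf : PshMap ρ f) (hΓ : ∀ b, Coc (Γ b)) (hb : ∀ b, Bdd (ρ.comp (embHyb Γ g b)))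
    {ζ : ℂ} (hζ : ζ ≠ 0)
    (hg : act (g 1) (base (j + 1)) = ζ • act (g 0) (base (j + 1))) (γ : hybrid Γ g) :
    ‖LinearMap.trace k V (ρ γ : V →ₗ[k] V)‖ ≤ 1 := by
  have hpb : ∀ b : Fin 2, ∀ v ∈ Cone j, f (HM.hyp (g b) v) = f (act (g b) (base (j + 1))) := by
    intro b v hv
    have h1 := (hf.hyp b).const_of_bdd hj (hΓ b) (hb b) v hv
    rw [← hyp_base]
    exact h1
  have h01 : f (act (g 1) (base (j + 1))) = f (act (g 0) (base (j + 1))) := by
    rw [hg]
    exact hf.hom ζ hζ _ (orbit_mem (g 0))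
  have hN : ∀ b : Fin 2, f (act (g b) (base (j + 1))) = f (act (g 0) (base (j + 1))) := by
    rw [Fin.forall_fin_two]
    exact ⟨rfl, h01⟩
  have hgen : ∀ (b : Fin 2) (γ : Γ b),
      (f (act (g 0) (base (j + 1)))).act (ρ (embHyb Γ g b γ)) =
        f (act (g 0) (base (j + 1))) := by
    intro b γ
    have h1 := (hf.hyp b).equi γ (base j) (base_mem j)
    have h2 : (f (HM.hyp (g b) (base j))).act (ρ (embHyb Γ g b γ)) =
        f (HM.hyp (g b) (act (γ : SUGroup j) (base j))) := h1.symm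
    rw [hpb b _ (base_mem j), hpb b _ (orbit_mem _), hN b] at h2
    exact h2
  have hall : ∀ (x : SUGroup (j + 1)) (hx : x ∈ hybrid Γ g),
      (f (act (g 0) (base (j + 1)))).act (ρ ⟨x, hx⟩) = f (act (g 0) (base (j + 1))) := by
    intro x hx
    induction hx using Subgroup.closure_induction with
    | mem x hx =>
      obtain ⟨b, γ, hγ, rfl⟩ := hx
      exact hgen b ⟨γ, hγ⟩
    | one =>
      have h1 : ρ ⟨1, (hybrid Γ g).one_mem⟩ = 1 := map_one ρ
      exact (congrArg (fun e => Nm.act e (f (act (g 0) (base (j + 1))))) h1).trans (Nm.act_one _)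
    | mul x y hx hy ihx ihy =>
      have h1 : ρ ⟨x * y, (hybrid Γ g).mul_mem hx hy⟩ = ρ ⟨x, hx⟩ * ρ ⟨y, hy⟩ :=
        map_mul ρ ⟨x, hx⟩ ⟨y, hy⟩
      refine (congrArg (fun e => Nm.act e (f (act (g 0) (base (j + 1))))) h1).trans ?_
      show Nm.act (ρ ⟨x, hx⟩ * ρ ⟨y, hy⟩) (f (act (g 0) (base (j + 1)))) = _
      rw [Nm.act_mul, ihy, ihx]
    | inv x hx ih =>
      have h1 : ρ ⟨x⁻¹, (hybrid Γ g).inv_mem hx⟩ * ρ ⟨x, hx⟩ = 1 := by
        rw [← map_mul, ← map_one ρ]
        congr 1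
        exact Subtype.ext (inv_mul_cancel x)
      calc Nm.act (ρ ⟨x⁻¹, (hybrid Γ g).inv_mem hx⟩) (f (act (g 0) (base (j + 1))))
          = Nm.act (ρ ⟨x⁻¹, (hybrid Γ g).inv_mem hx⟩)
              (Nm.act (ρ ⟨x, hx⟩) (f (act (g 0) (base (j + 1))))) := by rw [ih]
        _ = f (act (g 0) (base (j + 1))) := by rw [← Nm.act_mul, h1, Nm.act_one]
  exact Nm.trace_le _ _ (hall γ γ.2)

end Pool.Agent.Lib.MP_5d4057_al.IN
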