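import Pool.Agent.Lib.MP_5d4057_al.IN.VCirc
import Pool.Agent.Lib.MP_5d4057_al.IN.FMax
import Pool.Agent.Lib.MP_5d4057_al.RC.Defs

/-!
# Part F1 for all lattices: the maximum principle for bounded pieces, with `RC.Rec` instead of `Coc`

`PshG`: equivariant continuous maps of logarithmic growth such that the functions `log f(v)(w)` are
plurisubharmonic in the viscosity sense (`D.VSub`, the output of part D).
-/

set_option linter.unusedSectionVars false

namespace Pool.Agent.Lib.MP_5d4057_al.IN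

open Matrix MeasureTheory Filter Topology Module Pool.Agent.Lib.MP_5d4057_al
  Pool.Agent.Lib.MP_5d4057_al.Hyb Pool.Agent.Lib.MP_5d4057_al.HM Pool.Agent.Lib.MP_5d4057_al.HM.Kak

variable {n : ℕ} {Γ : Subgroup (SUGroup n)}
  {k : Type} [NontriviallyNormedField k] [IsUltrametricDist k] [ProperSpace k]
  {V : Type} [AddCommGroup V] [Module k V] [FiniteDimensional k V] {ρ : Γ →* (V ≃ₗ[k] V)}
  {f : Vec n → Nm k V}

/-- Equivariant continuous maps of logarithmic growth such that all `log f(v)(w)` are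
plurisubharmonic (in the viscosity sense). -/
structure PshG (ρ : Γ →* (V ≃ₗ[k] V)) (f : Vec n → Nm k V) : Prop where
  hom : Homog f
  cont : ContinuousOn f (Cone n)
  gr : ∃ C : ℝ, ∀ g : SUGroup n,
    dist (f (base n)) (f (act g (base n))) ≤ C * (1 + Real.log (wt g))
  equi : ∀ (γ : Γ), ∀ v ∈ Cone n, f (act (γ : SUGroup n) v) = (f v).act (ρ γ)
  vsub : ∀ w : V, w ≠ 0 → D.VSub fun v => Real.log (f v w)

/-- A viscosity subharmonic function is subharmonic in the sense of `RC`. -/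
theorem lsub_of_vsub {y : Vec n → ℝ} (h : D.VSub y) : RC.LSub y := by
  intro v hv ξ a c hc hmax
  obtain ⟨h1, h2⟩ := vc_lap (Polynomial.C (-a) * Polynomial.X) c 0
  refine h v hv ξ _ h1 (by rw [h2]; positivity) ?_
  have e1 : (fun z : ℂ => y (v + z • ξ) +
      (c * ‖z‖ ^ 2 - ((Polynomial.C (-a) * Polynomial.X : Polynomial ℂ).eval z).re)) =
      fun z : ℂ => y (v + z • ξ) + (a * z).re + c * ‖z‖ ^ 2 := by
    funext z
    simp only [Polynomial.eval_mul, Polynomial.eval_C, Polynomial.eval_X, neg_mul, Complex.neg_re]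
    ring
  rw [e1]
  exact hmax

theorem PshG.cont_log (hf : PshG ρ f) (w : V) :
    ContinuousOn (fun v => Real.log (f v w)) (Cone n) := by
  have h1 : Continuous fun N : Nm k V => Real.log (N w) := by
    refine (LipschitzWith.of_dist_le_mul (K := 1) fun N N' => ?_).continuous
    rw [Real.dist_eq, NNReal.coe_one, one_mul]
    exact Nm.log_le_dist N N' w
  exact h1.comp_continuousOn hf.cont

/-- The circle inequality. -/
theorem PshG.circle (hf : PshG ρ f) {w : V} (hw : w ≠ 0) (g : SUGroup n) {ξ : Fin n → ℂ}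
    (hξ : nq ξ = 1) {r : ℝ} (h0 : 0 ≤ r) (h1 : r < 1) :
    Real.log (f (act g (base n)) w) ≤ (2 * Real.pi)⁻¹ * ∫ θ in (0 : ℝ)..(2 * Real.pi),
      Real.log (f (act g (vec ((((r : ℝ) : ℂ) * Complex.exp (θ * Complex.I)) • ξ) + base n)) w) :=
  vsub_circle (hf.cont_log w) (hf.vsub w hw) g hξ h0 h1

/-- Together with a global Lipschitz estimate one gets `PshMap`. -/
theorem PshG.toMap (hf : PshG ρ f) {L : ℝ} (hL : 0 ≤ L) (hlip : ∀ g x : SUGroup n,
    dist (f (act g (base n))) (f (act (g * x) (base n))) ≤ L * Real.log (wt x)) : PshMap ρ f where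
  hom := hf.hom
  lip := ⟨L, hL, hlip⟩
  equi := hf.equi
  psh := fun _ hw g _ hξ _ h0 h1 => hf.circle hw g hξ h0 h1

private theorem fn_disc_mem {ξ : Fin n → ℂ} (hξ : nq ξ = 1) {z : ℂ} (hz : ‖z‖ < 1) :
    vec (z • ξ) + base n ∈ Cone n := by
  show q _ < 0
  rw [q_eq]
  simp only [Pi.add_apply, vec_castSucc, base_castSucc, vec_last, base_last, add_zero, zero_add,
    norm_one, Pi.smul_apply, smul_eq_mul, norm_mul, mul_pow, ← Finset.mul_sum]
  rw [← nq, hξ]
  have := norm_nonneg z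
  nlinarith

private theorem fn_cont_act (g : SUGroup n) {p : ℝ → Vec n} (hp : Continuous p) :
    Continuous fun θ => act g (p θ) := by
  unfold act
  exact continuous_const.matrix_mulVec hp

private theorem fn_cont_vec {z : ℝ → ℂ} (hz : Continuous z) (ξ : Fin n → ℂ) :
    Continuous fun θ => vec (z θ • ξ) + base n := by
  refine Continuous.add (continuous_pi fun i => ?_) continuous_const
  refine Fin.lastCases ?_ (fun i => ?_) i
  · simp only [vec_last]
    exact continuous_const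
  · simp only [vec_castSucc, Pi.smul_apply, smul_eq_mul]
    exact hz.mul continuous_const

/-- The strong maximum principle. -/
theorem PshG.strong_max (hn : 1 ≤ n) (hf : PshG ρ f) {w : V} (hw : w ≠ 0) {c : ℝ}
    (hc : ∀ v ∈ Cone n, Real.log (f v w) ≤ c) {v₀ : Vec n} (hv₀ : v₀ ∈ Cone n)
    (h : Real.log (f v₀ w) = c) : ∀ v ∈ Cone n, Real.log (f v w) = c := by
  have hcont := hf.cont_log w
  intro v hv
  obtain ⟨g₀, c₀, hc₀, hv₀'⟩ := exists_act_eq hv₀
  obtain ⟨c₁, ξ, r, hc₁, hξ, hr0, hr1, hv'⟩ := exists_disc hn g₀ hv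
  have h1 : Real.log (f (act g₀ (base n)) w) = c := by
    rw [← h, hv₀', hf.hom c₀ hc₀ _ (orbit_mem g₀)]
  have hmem : ∀ θ : ℝ, act g₀ (vec ((((r : ℝ) : ℂ) * Complex.exp (θ * Complex.I)) • ξ) + base n) ∈
      Cone n := fun θ => act_mem g₀ (fn_disc_mem hξ (by
        rw [norm_mul, Complex.norm_exp_ofReal_mul_I, mul_one, Complex.norm_real, Real.norm_eq_abs,
          abs_of_nonneg hr0]
        exact hr1))
  have hF : Continuous fun θ : ℝ =>
      Real.log (f (act g₀ (vec ((((r : ℝ) : ℂ) * Complex.exp (θ * Complex.I)) • ξ) + base n)) w) := by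
    refine hcont.comp_continuous ?_ hmem
    refine fn_cont_act g₀ (fn_cont_vec ?_ ξ)
    fun_prop
  have hv2 : act g₀ (vec (((r : ℝ) : ℂ) • ξ) + base n) ∈ Cone n := by
    have := hmem 0
    rwa [Complex.ofReal_zero, zero_mul, Complex.exp_zero, mul_one] at this
  have h2 : f v = f (act g₀ (vec (((r : ℝ) : ℂ) • ξ) + base n)) := by
    rw [hv', hf.hom c₁ hc₁ _ hv2]
  refine le_antisymm (hc v hv) ?_
  by_contra hlt
  push Not at hlt
  rw [h2] at hlt
  have h3 := hf.circle hw g₀ hξ hr0 hr1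
  rw [h1] at h3
  have hpi : (0 : ℝ) < 2 * Real.pi := by positivity
  have h4 := intervalIntegral.integral_lt_integral_of_continuousOn_of_le_of_exists_lt (a := 0)
    (b := 2 * Real.pi) (f := fun θ : ℝ =>
      Real.log (f (act g₀ (vec ((((r : ℝ) : ℂ) * Complex.exp (θ * Complex.I)) • ξ) + base n)) w))
    (g := fun _ => c) hpi hF.continuousOn continuousOn_const (fun θ _ => hc _ (hmem θ))
    ⟨0, ⟨le_rfl, hpi.le⟩, by
      rw [Complex.ofReal_zero, zero_mul, Complex.exp_zero, mul_one]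
      exact hlt⟩
  rw [intervalIntegral.integral_const, smul_eq_mul, sub_zero] at h4
  have h5 := mul_lt_mul_of_pos_left h4 (inv_pos.2 hpi)
  rw [inv_mul_cancel_left₀ hpi.ne'] at h5
  exact absurd h3 (not_le.2 h5)

/-- MAIN LEMMA: if the representation is bounded then `f` is constant, provided that `Γ` has the
Liouville property. -/
theorem PshG.const_of_bdd (hn : 1 ≤ n) (hR : RC.Rec Γ) (hf : PshG ρ f) (hb : Bdd ρ) :
    ∀ v ∈ Cone n, f v = f (base n) := by
  obtain ⟨N₀, C, hC⟩ := hb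
  have key : ∀ w : V, w ≠ 0 → ∃ (γ₀ : Γ) (c : ℝ), ∀ v ∈ Cone n, Real.log (f v (ρ γ₀ w)) = c := by
    intro w hw
    have hne : ∀ γ : Γ, ρ γ w ≠ 0 := fun γ h0 => hw ((LinearEquiv.map_eq_zero_iff _).1 h0)
    have hmax : ∀ v : Vec n, ∃ γ : Γ, ∀ γ' : Γ, f v (ρ γ' w) ≤ f v (ρ γ w) := by
      intro v
      obtain ⟨A, hA, hA'⟩ := Nm.exists_le N₀ (f v)
      exact Nm.exists_max_value (f v) (fun γ : Γ => ρ γ w) hne
        (C := A * (C * N₀ w)) fun γ =>
          (hA' _).trans (mul_le_mul_of_nonneg_left (hC γ w) hA.le)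
    choose m hm using hmax
    obtain ⟨s, hs⟩ : ∃ s : Vec n → ℝ, s = fun v => Real.log (f v (ρ (m v) w)) := ⟨_, rfl⟩
    have hse : ∀ v, s v = Real.log (f v (ρ (m v) w)) := fun v => by rw [hs]
    have hlog : ∀ (v : Vec n) (γ : Γ), Real.log (f v (ρ γ w)) ≤ s v := fun v γ => by
      rw [hse]
      exact Real.log_le_log (Nm.pos _ (hne γ)) (hm v γ)
    have hcongr : ∀ v v' : Vec n, f v = f v' → s v = s v' := by
      intro v v' h
      refine le_antisymm ?_ ?_
      · rw [hse v, h]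
        exact hlog _ _
      · rw [hse v', ← h]
        exact hlog _ _
    have hdist : ∀ v v' : Vec n, |s v - s v'| ≤ dist (f v) (f v') := by
      intro v v'
      rw [abs_sub_le_iff]
      constructor
      · have h1 := (abs_sub_le_iff.1 (Nm.log_le_dist (f v) (f v') (ρ (m v) w))).1
        have h2 := hlog v' (m v)
        rw [hse v]
        linarith
      · have h1 := (abs_sub_le_iff.1 (Nm.log_le_dist (f v) (f v') (ρ (m v') w))).2
        have h2 := hlog v (m v')
        rw [hse v']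
        linarith
    have hhom : Homog s := fun c hc v hv => hcongr _ _ (hf.hom c hc v hv)
    have hcont : ContinuousOn s (Cone n) := by
      intro v hv
      have h1 := hf.cont v hv
      rw [ContinuousWithinAt, tendsto_iff_dist_tendsto_zero] at h1 ⊢
      refine squeeze_zero (fun _ => dist_nonneg) (fun v' => ?_) h1
      rw [Real.dist_eq]
      exact hdist v' v
    have hinv1 : ∀ (γ : Γ) (v : Vec n), v ∈ Cone n → s (act (γ : SUGroup n) v) ≤ s v := by
      intro γ v hv
      rw [hse, hf.equi γ _ hv, Nm.act_apply]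
      have h1 : (ρ γ).symm (ρ (m (act (γ : SUGroup n) v)) w) =
          ρ (γ⁻¹ * m (act (γ : SUGroup n) v)) w := by
        rw [map_mul, map_inv]
        rfl
      rw [h1]
      exact hlog v _
    have hinv : Inv Γ s := by
      intro γ hγ v hv
      refine le_antisymm (hinv1 ⟨γ, hγ⟩ v hv) ?_
      have h1 := hinv1 (⟨γ, hγ⟩ : Γ)⁻¹ (act γ v) (act_mem γ hv)
      have h2 : act (((⟨γ, hγ⟩ : Γ)⁻¹ : Γ) : SUGroup n) (act γ v) = v := by
        rw [← act_mul, Subgroup.coe_inv, inv_mul_cancel, act_one]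
      rwa [h2] at h1
    have hgr : RC.LogGr s := by
      obtain ⟨C₁, hC₁⟩ := hf.gr
      refine ⟨|C₁|, s (base n) + |C₁| * (1 + Real.log 2), abs_nonneg _, fun g => ?_⟩
      have h1 := (abs_sub_le_iff.1 (hdist (base n) (act g (base n)))).2
      have h2 := hC₁ g
      have hw1 : 0 ≤ Real.log (wt g) := Real.log_nonneg (one_le_wt g)
      have h3 : Real.log (wt g) ≤ Real.log 2 + Real.log (ch g) := by
        rw [← Real.log_mul two_ne_zero (ch_pos g).ne']
        exact Real.log_le_log (lt_of_lt_of_le one_pos (one_le_wt g)) (wt_le g)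
      have h4 : C₁ * (1 + Real.log (wt g)) ≤ |C₁| * (1 + Real.log (wt g)) :=
        mul_le_mul_of_nonneg_right (le_abs_self C₁) (by linarith)
      have h5 : |C₁| * (1 + Real.log (wt g)) ≤ |C₁| * (1 + (Real.log 2 + Real.log (ch g))) :=
        mul_le_mul_of_nonneg_left (by linarith) (abs_nonneg C₁)
      have h6 : |C₁| * (1 + (Real.log 2 + Real.log (ch g))) =
          |C₁| * (1 + Real.log 2) + |C₁| * Real.log (ch g) := by ring
      linarith
    have hsub : RC.LSub s := by
      intro v hv ξ a c hc hmax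
      refine lsub_of_vsub (hf.vsub (ρ (m v) w) (hne _)) v hv ξ a c hc ?_
      filter_upwards [hmax] with z hz
      simp only [zero_smul, add_zero] at hz ⊢
      have h1 := hlog (v + z • ξ) (m v)
      rw [hse v] at hz
      linarith
    obtain ⟨v₀, hv₀, hmx⟩ := hR.mx s hhom hcont hinv hgr hsub
    refine ⟨m v₀, s v₀, ?_⟩
    exact hf.strong_max hn (hne _) (fun v hv => (hlog v _).trans (hmx v hv)) hv₀ (hse v₀).symm
  intro v hv
  ext w
  by_cases hw : w = 0
  · rw [hw, Nm.zero, Nm.zero]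
  obtain ⟨γ₀, c, hc⟩ := key w hw
  have h1 : ∀ v ∈ Cone n, Real.log (f v w) = c := by
    intro v hv
    have h2 := hc _ (act_mem (γ₀ : SUGroup n) hv)
    rw [hf.equi γ₀ v hv, Nm.act_apply, LinearEquiv.symm_apply_apply] at h2
    exact h2
  exact Real.log_injOn_pos (Nm.pos _ hw) (Nm.pos _ hw) ((h1 v hv).trans (h1 _ (base_mem n)).symm)

private theorem fn_wt_extend {j : ℕ} (x : SUGroup j) : wt (extend j x) = wt x := by
  have h : ch (extend j x) = ch x := by
    rw [ch, ch, extend_toMatrix, ← Fin.succ_last, dsum_succ_succ]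
  rw [wt, wt, h]

/-- Growth from any point of the orbit. -/
theorem PshG.gr_from (hf : PshG ρ f) (a : SUGroup n) : ∃ C : ℝ, ∀ g : SUGroup n,
    dist (f (act a (base n))) (f (act (a * g) (base n))) ≤ C * (1 + Real.log (wt g)) := by
  obtain ⟨C, hC⟩ := hf.gr
  refine ⟨|C| * (2 + 2 * Real.log (wt a)), fun g => ?_⟩
  have h1 := hC a
  have h2 := hC (a * g)
  have h3 := dist_triangle_left (f (act a (base n))) (f (act (a * g) (base n))) (f (base n))
  have ha : 0 ≤ Real.log (wt a) := Real.log_nonneg (one_le_wt a)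
  have hg : 0 ≤ Real.log (wt g) := Real.log_nonneg (one_le_wt g)
  have hag : Real.log (wt (a * g)) ≤ Real.log (wt a) + Real.log (wt g) := by
    rw [← Real.log_mul (lt_of_lt_of_le one_pos (one_le_wt a)).ne'
      (lt_of_lt_of_le one_pos (one_le_wt g)).ne']
    exact Real.log_le_log (lt_of_lt_of_le one_pos (one_le_wt _)) (wt_mul_le a g)
  have hag0 : 0 ≤ Real.log (wt (a * g)) := Real.log_nonneg (one_le_wt _)
  have h4 : C * (1 + Real.log (wt a)) ≤ |C| * (1 + Real.log (wt a)) :=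
    mul_le_mul_of_nonneg_right (le_abs_self C) (by linarith)
  have h5 : C * (1 + Real.log (wt (a * g))) ≤ |C| * (1 + (Real.log (wt a) + Real.log (wt g))) :=
    (mul_le_mul_of_nonneg_right (le_abs_self C) (by linarith)).trans
      (mul_le_mul_of_nonneg_left (by linarith) (abs_nonneg C))
  have hC0 := abs_nonneg C
  have h6 : 0 ≤ |C| * (Real.log (wt a) * Real.log (wt g)) := by positivity
  have h7 : 0 ≤ |C| * Real.log (wt g) := by positivity
  have e : |C| * (2 + 2 * Real.log (wt a)) * (1 + Real.log (wt g)) =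
      |C| * (1 + Real.log (wt a)) + |C| * (1 + (Real.log (wt a) + Real.log (wt g))) +
        |C| * Real.log (wt g) + 2 * (|C| * (Real.log (wt a) * Real.log (wt g))) := by ring
  rw [e]
  linarith

/-- Restriction to a hyperplane. -/
theorem PshG.hyp {j : ℕ} {Γ : Fin 2 → Subgroup (SUGroup j)} {g : Fin 2 → SUGroup (j + 1)}
    {ρ : hybrid Γ g →* (V ≃ₗ[k] V)} {f : Vec (j + 1) → Nm k V} (hf : PshG ρ f) (b : Fin 2) :
    PshG (ρ.comp (embHyb Γ g b)) (fun w => f (HM.hyp (g b) w)) := by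
  have hb : ∀ (x : SUGroup j) (v : Vec j),
      HM.hyp (g b) (act x v) = act (g b * extend j x) (inc j v) := by
    intro x v
    rw [hyp_apply, act_mul, act_extend]
  refine ⟨?_, ?_, ?_, ?_, ?_⟩
  · intro c hc v hv
    show f (HM.hyp (g b) (c • v)) = f (HM.hyp (g b) v)
    rw [map_smul]
    exact hf.hom c hc _ (hyp_mem (g b) hv)
  · exact hf.cont.comp (HM.hyp (g b)).continuous.continuousOn fun v hv => hyp_mem (g b) hv
  · obtain ⟨C, hC⟩ := hf.gr_from (g b)
    refine ⟨C, fun x => ?_⟩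
    have h1 := hC (extend j x)
    rw [fn_wt_extend] at h1
    show dist (f (HM.hyp (g b) (base j))) (f (HM.hyp (g b) (act x (base j)))) ≤ _
    rw [hb, inc_base, hyp_apply, inc_base]
    exact h1
  · intro γ v hv
    show f (HM.hyp (g b) (act (γ : SUGroup j) v)) =
      (f (HM.hyp (g b) v)).act (ρ (embHyb Γ g b γ))
    rw [← hf.equi _ _ (hyp_mem (g b) hv), embHyb_coe]
    congr 1
    rw [hyp_apply, hyp_apply, ← act_mul, ← act_extend, ← act_mul, inv_mul_cancel_right]
  · intro w hw v hv ξ ψ h1 h2 hmax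
    refine hf.vsub w hw (HM.hyp (g b) v) (hyp_mem (g b) hv) (HM.hyp (g b) ξ) ψ h1 h2 ?_
    simp only [map_add, map_smul] at hmax
    exact hmax

/-- THEOREM (hybrids): if both pieces are bounded and the two hyperplanes have a common point in the
form of `frame`, then all traces of the hybrid have norm at most one. -/
theorem PshG.trace_le_of_pieces {j : ℕ} (hj : 1 ≤ j) {Γ : Fin 2 → Subgroup (SUGroup j)}
    {g : Fin 2 → SUGroup (j + 1)} {ρ : hybrid Γ g →* (V ≃ₗ[k] V)} {f : Vec (j + 1) → Nm k V}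
    (hf : PshG ρ f) (hΓ : ∀ b, RC.Rec (Γ b)) (hb : ∀ b, Bdd (ρ.comp (embHyb Γ g b)))
    {ζ : ℂ} (hζ : ζ ≠ 0)
    (hg : act (g 1) (base (j + 1)) = ζ • act (g 0) (base (j + 1))) (γ : hybrid Γ g) :
    ‖LinearMap.trace k V (ρ γ : V →ₗ[k] V)‖ ≤ 1 := by
  have hpb : ∀ b : Fin 2, ∀ v ∈ Cone j, f (HM.hyp (g b) v) = f (act (g b) (base (j + 1))) := by
    intro b v hv
    have h1 := (hf.hyp b).const_of_bdd hj (hΓ b) (hb b) v hv
    rw [← hyp_base]
    exact h1
  have h01 : f (act (g 1) (base (j + 1))) = f (act (g 0) (base (j + 1))) := by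
    rw [hg]
    exact hf.hom ζ hζ _ (orbit_mem (g 0))
  have hN : ∀ b : Fin 2, f (act (g b) (base (j + 1))) = f (act (g 0) (base (j + 1))) := by
    rw [Fin.forall_fin_two]
    exact ⟨rfl, h01⟩
  have hgen : ∀ (b : Fin 2) (γ : Γ b),
      (f (act (g 0) (base (j + 1)))).act (ρ (embHyb Γ g b γ)) =
        f (act (g 0) (base (j + 1))) := by
    intro b γ
    have h1 := (hf.hyp b).equi γ (base j) (base_mem j)
    have h2 : (f (HM.hyp (g b) (base j))).act (ρ (embHyb Γ g b γ)) =
        f (HM.hyp (g b) (act (γ : SUGroup j) (base j))) := h1.symm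
    rw [hpb b _ (base_mem j), hpb b _ (orbit_mem _), hN b] at h2
    exact h2
  have hall : ∀ (x : SUGroup (j + 1)) (hx : x ∈ hybrid Γ g),
      (f (act (g 0) (base (j + 1)))).act (ρ ⟨x, hx⟩) = f (act (g 0) (base (j + 1))) := by
    intro x hx
    induction hx using Subgroup.closure_induction with
    | mem x hx =>
      obtain ⟨b, γ, hγ, rfl⟩ := hx
      exact hgen b ⟨γ, hγ⟩
    | one =>
      have h1 : ρ ⟨1, (hybrid Γ g).one_mem⟩ = 1 := map_one ρ
      exact (congrArg (fun e => Nm.act e (f (act (g 0) (base (j + 1))))) h1).trans (Nm.act_one _)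
    | mul x y hx hy ihx ihy =>
      have h1 : ρ ⟨x * y, (hybrid Γ g).mul_mem hx hy⟩ = ρ ⟨x, hx⟩ * ρ ⟨y, hy⟩ :=
        map_mul ρ ⟨x, hx⟩ ⟨y, hy⟩
      refine (congrArg (fun e => Nm.act e (f (act (g 0) (base (j + 1))))) h1).trans ?_
      show Nm.act (ρ ⟨x, hx⟩ * ρ ⟨y, hy⟩) (f (act (g 0) (base (j + 1)))) = _
      rw [Nm.act_mul, ihy, ihx]
    | inv x hx ih =>
      have h1 : ρ ⟨x⁻¹, (hybrid Γ g).inv_mem hx⟩ * ρ ⟨x, hx⟩ = 1 := by
        rw [← map_mul, ← map_one ρ]
        congr 1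
        exact Subtype.ext (inv_mul_cancel x)
      calc Nm.act (ρ ⟨x⁻¹, (hybrid Γ g).inv_mem hx⟩) (f (act (g 0) (base (j + 1))))
          = Nm.act (ρ ⟨x⁻¹, (hybrid Γ g).inv_mem hx⟩)
              (Nm.act (ρ ⟨x, hx⟩) (f (act (g 0) (base (j + 1))))) := by rw [ih]
        _ = f (act (g 0) (base (j + 1))) := by rw [← Nm.act_mul, h1, Nm.act_one]
  exact Nm.trace_le _ _ (hall γ γ.2)

end Pool.Agent.Lib.MP_5d4057_al.IN
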