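import Pool.Agent.Lib.MP_5d4057_al.IN.Fun

/-! Part B of INT: the averages `bar_s f` (B1, B2). -/

namespace Pool.Agent.Lib.MP_5d4057_al.IN

open MeasureTheory Filter Topology Pool.Agent.Lib.MP_5d4057_al
open Pool.Agent.Lib.MP_5d4057_al.Hyb Pool.Agent.Lib.MP_5d4057_al.HM

open scoped ENNReal

variable {n : ℕ} {Γ : Subgroup (SUGroup n)} {Y : Type} [MetricSpace Y]
variable {Φ : Y → Y → ℝ} {κ : ℝ} {lv : Y → ℝ} {y₀ : Y} {ρ : Γ →* Equiv.Perm Y}

/-- Uniqueness of `bar_s f`. -/
theorem Bs.unique (T : Tgt Φ κ) {s : ℕ} {f f' f'' : SUGroup n → Y} (h : Bs Φ s f f')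
    (h' : Bs Φ s f f'') : f' = f'' := funext fun g => (h g).unique T (h' g)

/-- The spread. -/
noncomputable def Sp (Φ : Y → Y → ℝ) (s : ℕ) (f f' : SUGroup n → Y) (g : SUGroup n) : ℝ :=
  ∫ x, Φ (f' g) (f (g * x)) ∂(kapM n s)

private theorem bs_wt_pos (x : SUGroup n) : 0 < wt x := lt_of_lt_of_le one_pos (one_le_wt x)

private theorem bs_kap_le (s : ℕ) (x w : SUGroup n) :
    kap s (x⁻¹ * w) ≤ wt x ^ (2 * s) * kap s w := by
  have h1 := ch_mul_le_wt x (x⁻¹ * w)
  rw [mul_inv_cancel_left] at h1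
  have hc1 : 0 < ch (x⁻¹ * w) ^ (2 * s) := pow_pos (ch_pos _) _
  have hc2 : 0 < ch w ^ (2 * s) := pow_pos (ch_pos _) _
  have h2 : ch w ^ (2 * s) ≤ wt x ^ (2 * s) * ch (x⁻¹ * w) ^ (2 * s) := by
    rw [← mul_pow]
    exact pow_le_pow_left₀ (ch_pos _).le h1 _
  unfold kap
  rw [← mul_div_assoc]
  refine div_le_div_of_nonneg_right ?_ (cs_nonneg n s)
  rw [← div_eq_mul_inv, le_div_iff₀ hc2, inv_mul_le_iff₀ hc1]
  linarith

private theorem bs_shift (s : ℕ) (x : SUGroup n) (u : SUGroup n → ℝ) :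
    ∫ z, kap s z * u (x * z) ∂(mu n) = ∫ w, kap s (x⁻¹ * w) * u w ∂(mu n) := by
  have h1 := integral_mul_left_eq_self (μ := mu n) (fun w => kap s (x⁻¹ * w) * u w) x
  simp only [inv_mul_cancel_left] at h1
  exact h1

private theorem bs_integrable {s : ℕ} {u : SUGroup n → ℝ} (h : Integrable u (kapM n s)) :
    Integrable (fun x => kap s x * u x) (mu n) := by
  have hm : Measurable fun x : SUGroup n => ENNReal.ofReal (kap s x) :=
    (continuous_kap s).measurable.ennreal_ofReal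
  have h1 := (integrable_withDensity_iff hm (Eventually.of_forall fun x => ENNReal.ofReal_lt_top)).1 h
  refine h1.congr (Eventually.of_forall fun x => ?_)
  show u x * (ENNReal.ofReal (kap s x)).toReal = kap s x * u x
  rw [ENNReal.toReal_ofReal (kap_nonneg s x), mul_comm]

private theorem bs_log_nonneg (x : SUGroup n) : 0 ≤ Real.log (wt x) := Real.log_nonneg (one_le_wt x)

private theorem bs_log_mul (x y : SUGroup n) :
    Real.log (wt (x * y)) ≤ Real.log (wt x) + Real.log (wt y) := by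
  rw [← Real.log_mul (bs_wt_pos x).ne' (bs_wt_pos y).ne']
  exact Real.log_le_log (bs_wt_pos _) (wt_mul_le x y)

private theorem bs_C_nonneg {C : ℝ} {f : SUGroup n → Y} (hg : Lg C y₀ f) : 0 ≤ C := by
  have h1 := (dist_nonneg).trans (hg 1)
  rw [wt_one, Real.log_one] at h1
  linarith

/-- Growth of `bar_s f`, with a constant independent of `s`. PROOF: `Bs.jen` for `dist y₀`
(`Jen2.left`), `log wt (g x) ≤ log wt g + log wt x`, `kap_log`. -/
theorem Bs.growth (n : ℕ) : ∃ (s₀ : ℕ) (K : ℝ), 0 < K ∧ ∀ {Y : Type} [MetricSpace Y]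
    {Φ : Y → Y → ℝ} {κ : ℝ} (y₀ : Y), Tgt Φ κ → Jen2 Φ dist → ∀ s, s₀ ≤ s → ∀ (C : ℝ)
      (f f' : SUGroup n → Y), Continuous f → Lg C y₀ f → Bs Φ s f f' → Lg (K * C) y₀ f' := by
  obtain ⟨s₀, K, hK, h⟩ := kap_log n
  refine ⟨max s₀ (n + 3), 1 + K, by linarith, ?_⟩
  intro Y _ Φ κ y₀ T hJ s hs C f f' hf hg hb g
  have hs1 : s₀ ≤ s := (le_max_left _ _).trans hs
  have hs2 : n + 2 < s := lt_of_lt_of_le (by omega) ((le_max_right _ _).trans hs)
  obtain ⟨i1, -, h1, -⟩ := h s hs1
  have hC := bs_C_nonneg hg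
  have hgl := bs_log_nonneg g
  have i0 : Integrable (fun x : SUGroup n => kap s x) (mu n) := integrable_kap (by omega)
  have hj := Bs.jen hf hg hs2 hb (hJ.left T y₀) g
  refine hj.trans ?_
  have e1 : ∫ x : SUGroup n, C * ((1 + Real.log (wt g)) * kap s x + kap s x * Real.log (wt x)) ∂(mu n) =
      C * ((1 + Real.log (wt g)) + ∫ x : SUGroup n, kap s x * Real.log (wt x) ∂(mu n)) := by
    rw [integral_const_mul, integral_add (i0.const_mul _) i1, integral_const_mul,
      integral_kap (by omega), mul_one]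
  have h2 : Boot.Q s (fun x => dist y₀ (f x)) g ≤
      ∫ x : SUGroup n, C * ((1 + Real.log (wt g)) * kap s x + kap s x * Real.log (wt x)) ∂(mu n) := by
    unfold Boot.Q
    refine integral_mono_of_nonneg (Eventually.of_forall fun x =>
      mul_nonneg (kap_nonneg s x) dist_nonneg) (((i0.const_mul _).add i1).const_mul C)
      (Eventually.of_forall fun x => ?_)
    show kap s x * dist y₀ (f (g * x)) ≤ C * ((1 + Real.log (wt g)) * kap s x + kap s x * Real.log (wt x))
    have h3 := hg (g * x)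
    have h4 := bs_log_mul g x
    have h5 : dist y₀ (f (g * x)) ≤ C * (1 + (Real.log (wt g) + Real.log (wt x))) :=
      h3.trans (mul_le_mul_of_nonneg_left (by linarith) hC)
    calc kap s x * dist y₀ (f (g * x)) ≤ kap s x * (C * (1 + (Real.log (wt g) + Real.log (wt x)))) :=
          mul_le_mul_of_nonneg_left h5 (kap_nonneg s x)
      _ = _ := by ring
  refine h2.trans ?_
  rw [e1]
  have h6 : K / Real.sqrt s ≤ K := by
    refine div_le_self hK.le ?_
    rw [Real.one_le_sqrt]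
    exact_mod_cast (by omega : 1 ≤ s)
  have h7 : 1 + Real.log (wt g) + ∫ x : SUGroup n, kap s x * Real.log (wt x) ∂(mu n) ≤
      (1 + K) * (1 + Real.log (wt g)) := by
    have h8 : 0 ≤ K * Real.log (wt g) := mul_nonneg hK.le hgl
    linarith
  calc C * (1 + Real.log (wt g) + ∫ x : SUGroup n, kap s x * Real.log (wt x) ∂(mu n)) ≤
        C * ((1 + K) * (1 + Real.log (wt g))) := mul_le_mul_of_nonneg_left h7 hC
    _ = (1 + K) * C * (1 + Real.log (wt g)) := by ring

/-- Harnack inequality for the spread. PROOF: `IsBar` at `g x` tested with `f' g`, then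
`z = x⁻¹ w` (left invariance of `mu`) and `kap s (x⁻¹ w) ≤ wt x ^ (2 s) kap s w` (`ch_mul_le_wt`). -/
theorem Sp_harn (T : Tgt Φ κ) {s : ℕ} (hs : n + 2 < s) {C : ℝ} {f f' : SUGroup n → Y}
    (hf : Continuous f) (hg : Lg C y₀ f) (h : Bs Φ s f f') (g x : SUGroup n) :
    Sp Φ s f f' (g * x) ≤ wt x ^ (2 * s) * Sp Φ s f f' g := by
  have hsq := Lg.sqI hf hg hs g
  have h1 := h (g * x) (f' g)
  have h2 := T.nonneg (f' g) (f' (g * x))
  have i1 := bs_integrable (T.integrable hsq (f' g))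
  unfold Sp
  have h3 : ∫ z, Φ (f' g) (f (g * x * z)) ∂(kapM n s) ≤
      wt x ^ (2 * s) * ∫ z, Φ (f' g) (f (g * z)) ∂(kapM n s) := by
    rw [integral_kapM, integral_kapM]
    have e1 := bs_shift s x (fun w => Φ (f' g) (f (g * w)))
    simp only [← mul_assoc] at e1
    rw [e1, ← integral_const_mul]
    refine integral_mono_of_nonneg (Eventually.of_forall fun w =>
      mul_nonneg (kap_nonneg s _) (T.nonneg _ _)) (i1.const_mul _) (Eventually.of_forall fun w => ?_)
    show kap s (x⁻¹ * w) * Φ (f' g) (f (g * w)) ≤ wt x ^ (2 * s) * (kap s w * Φ (f' g) (f (g * w)))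
    rw [← mul_assoc]
    exact mul_le_mul_of_nonneg_right (bs_kap_le s x w) (T.nonneg _ _)
  linarith

/-- `bar_s f` is locally Lipschitz. PROOF: `bar_var` with `P = kapM n s`, `F w = f (g w)`,
`ρ w = kap s (x⁻¹ w) / kap s w`, `ε = wt x ^ (2 s) - 1`, `b = f' g`, `b' = f' (g x)`. -/
theorem Bs.near (T : Tgt Φ κ) {s : ℕ} (hs : n + 2 < s) {C : ℝ} {f f' : SUGroup n → Y}
    (hf : Continuous f) (hg : Lg C y₀ f) (h : Bs Φ s f f') (g x : SUGroup n)
    (hx : κ * (wt x ^ (2 * s) - 1) ≤ 1) :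
    dist (f' g) (f' (g * x)) ≤ 2 * κ * (wt x ^ (2 * s) - 1) * Real.sqrt (Sp Φ s f f' g) := by
  have := isProb_kapM (n := n) (s := s) (by omega)
  have hsq := Lg.sqI hf hg hs g
  have hns : n < s := by omega
  have hm : Measurable fun w : SUGroup n => kap s (x⁻¹ * w) / kap s w :=
    (((continuous_kap s).comp (continuous_const.mul continuous_id)).measurable).div
      (continuous_kap s).measurable
  have hW : 1 ≤ wt x ^ (2 * s) := one_le_pow₀ (one_le_wt x)
  have h1 : ∀ w : SUGroup n, |kap s (x⁻¹ * w) / kap s w - 1| ≤ wt x ^ (2 * s) - 1 := by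
    intro w
    have hk := kap_pos hns w
    have hk' := kap_pos hns (x⁻¹ * w)
    have a1 := bs_kap_le s x w
    have a2 := bs_kap_le s x⁻¹ (x⁻¹ * w)
    rw [inv_inv, mul_inv_cancel_left, wt_inv] at a2
    have hW0 : 0 < wt x ^ (2 * s) := lt_of_lt_of_le one_pos hW
    have b1 : kap s (x⁻¹ * w) / kap s w ≤ wt x ^ (2 * s) := by
      rw [div_le_iff₀ hk]
      exact a1
    have b2 : (wt x ^ (2 * s))⁻¹ ≤ kap s (x⁻¹ * w) / kap s w := by
      rw [le_div_iff₀ hk, inv_mul_le_iff₀ hW0]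
      exact a2
    have b3 : 2 - wt x ^ (2 * s) ≤ (wt x ^ (2 * s))⁻¹ := by
      rw [← one_div, le_div_iff₀ hW0]
      nlinarith [sq_nonneg (wt x ^ (2 * s) - 1)]
    rw [abs_le]
    constructor <;> linarith
  have key : ∀ y : Y, ∫ w, kap s (x⁻¹ * w) / kap s w * Φ y (f (g * w)) ∂(kapM n s) =
      ∫ z, Φ y (f (g * x * z)) ∂(kapM n s) := by
    intro y
    rw [integral_kapM, integral_kapM]
    have e1 := bs_shift s x (fun w => Φ y (f (g * w)))
    simp only [← mul_assoc] at e1
    rw [e1]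
    refine integral_congr_ae (Eventually.of_forall fun w => ?_)
    show kap s w * (kap s (x⁻¹ * w) / kap s w * Φ y (f (g * w))) = kap s (x⁻¹ * w) * Φ y (f (g * w))
    rw [← mul_assoc, mul_div_cancel₀ _ (kap_pos hns w).ne']
  refine bar_var T hsq hm hx h1 (h g) (b' := f' (g * x)) fun y => ?_
  rw [key, key]
  exact h (g * x) y

/-- If the spread is bounded, `bar_s f` is Lipschitz. PROOF: `exists_factor`: `x` is a product of `N`
elements `y` with `wt y ^ N = wt x`; for `N` large `2 s log wt y ≤ 1` and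
`κ (wt y ^ (2 s) - 1) ≤ 4 κ s log wt y ≤ 1`; `Bs.near` and the triangle inequality. -/
theorem Bs.lip (hn : 1 ≤ n) (T : Tgt Φ κ) {s : ℕ} (hs : n + 2 < s) {C : ℝ}
    {f f' : SUGroup n → Y} (hf : Continuous f) (hg : Lg C y₀ f) (h : Bs Φ s f f') {S : ℝ}
    (hS : 0 ≤ S) (hSp : ∀ g, Sp Φ s f f' g ≤ S ^ 2) : LipD (8 * κ * s * S) f' := by
  have hκ := T.one_le
  have hs1 : (1 : ℝ) ≤ s := by exact_mod_cast (by omega : 1 ≤ s)
  -- small elements
  have small : ∀ y : SUGroup n, κ * (4 * s * Real.log (wt y)) ≤ 1 → ∀ g : SUGroup n,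
      dist (f' g) (f' (g * y)) ≤ 8 * κ * s * S * Real.log (wt y) := by
    intro y hy g
    have hl := bs_log_nonneg y
    have hsl : 0 ≤ 4 * s * Real.log (wt y) := by positivity
    have h1 : 4 * s * Real.log (wt y) ≤ 1 := by nlinarith
    have e1 : wt y ^ (2 * s) = Real.exp (2 * s * Real.log (wt y)) := by
      rw [← Real.exp_log (bs_wt_pos y), ← Real.exp_nat_mul, Real.log_exp]
      push_cast
      rfl
    have h2 : wt y ^ (2 * s) - 1 ≤ 4 * s * Real.log (wt y) := by
      rw [e1]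
      have hu0 : 0 ≤ 2 * s * Real.log (wt y) := by positivity
      have hu1 : 2 * s * Real.log (wt y) ≤ 1 := by linarith
      have h3 := Real.abs_exp_sub_one_sub_id_le (x := 2 * s * Real.log (wt y))
        (by rw [abs_of_nonneg hu0]; exact hu1)
      have h4 := (abs_le.1 h3).2
      nlinarith
    have hW : 1 ≤ wt y ^ (2 * s) := one_le_pow₀ (one_le_wt y)
    have h5 : κ * (wt y ^ (2 * s) - 1) ≤ 1 :=
      (mul_le_mul_of_nonneg_left h2 (by linarith)).trans hy
    have h6 := Bs.near T hs hf hg h g y h5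
    have h7 : Real.sqrt (Sp Φ s f f' g) ≤ S := by
      rw [Real.sqrt_le_left hS]
      exact hSp g
    calc dist (f' g) (f' (g * y)) ≤ 2 * κ * (wt y ^ (2 * s) - 1) * Real.sqrt (Sp Φ s f f' g) := h6
      _ ≤ 2 * κ * (4 * s * Real.log (wt y)) * S := by
          refine mul_le_mul (mul_le_mul_of_nonneg_left h2 (by linarith)) h7 (Real.sqrt_nonneg _) ?_
          positivity
      _ = _ := by ring
  -- chains
  have chain : ∀ (δ : ℝ) (l : List (SUGroup n)),
      (∀ y ∈ l, ∀ g : SUGroup n, dist (f' g) (f' (g * y)) ≤ δ) → ∀ g : SUGroup n,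
        dist (f' g) (f' (g * l.prod)) ≤ l.length * δ := by
    intro δ l
    induction l with
    | nil =>
      intro _ g
      simp
    | cons a l ih =>
      intro hl g
      have h1 := hl a (List.mem_cons_self ..) g
      have h2 := ih (fun y hy => hl y (List.mem_cons_of_mem _ hy)) (g * a)
      rw [List.prod_cons, ← mul_assoc, List.length_cons]
      have h3 := dist_triangle (f' g) (f' (g * a)) (f' (g * a * l.prod))
      push_cast
      linarith
  intro g x
  have hlx := bs_log_nonneg x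
  obtain ⟨N, hN⟩ := exists_nat_ge (κ * (4 * s * Real.log (wt x)))
  obtain ⟨l, hlen, hprod, hw⟩ := exists_factor hn x (N + 1) (by omega)
  have hN0 : (0 : ℝ) < (N : ℝ) + 1 := by positivity
  have hlog : ∀ y ∈ l, Real.log (wt y) = Real.log (wt x) / (N + 1) := by
    intro y hy
    rw [← hw y hy, Real.log_pow]
    push_cast
    field_simp
  have hy : ∀ y ∈ l, ∀ g : SUGroup n,
      dist (f' g) (f' (g * y)) ≤ 8 * κ * s * S * (Real.log (wt x) / (N + 1)) := by
    intro y hy g
    rw [← hlog y hy]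
    refine small y ?_ g
    rw [hlog y hy]
    have e : κ * (4 * s * (Real.log (wt x) / (N + 1))) = κ * (4 * s * Real.log (wt x)) / (N + 1) := by
      ring
    rw [e, div_le_one hN0]
    linarith
  have h1 := chain _ l hy g
  rw [hprod, hlen] at h1
  refine h1.trans (le_of_eq ?_)
  push_cast
  field_simp

/-- **Existence of `bar_s f`.** PROOF: pointwise by `Tgt.bar` (`Lg.sqI`); continuity by `Bs.near`
(`h = g x`, `x = g⁻¹ h → 1`); `K`-invariance and equivariance by uniqueness (`IsBar.unique`): for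
`ch k = 1` the maps `x ↦ f (g k x)` and `x ↦ f (g x)` have the same integrals (left invariance,
`ch (k⁻¹ x) = ch x`); for `γ` test with `y = ρ γ z`; `lv` by `D.up`, `D.dn`. -/
theorem exists_bs (D : Dat ρ Φ κ lv y₀) {s : ℕ} (hs : n + 2 < s) {C : ℝ} {f : SUGroup n → Y}
    (hf : Eqv ρ f) (hg : Lg C y₀ f) (hl : ∀ g, lv (f g) = 0) :
    ∃ f', Eqv ρ f' ∧ Bs Φ s f f' ∧ ∀ g, lv (f' g) = 0 := by
  have T := D.tgt
  have := isProb_kapM (n := n) (s := s) (by omega)
  have hsq := fun g => Lg.sqI hf.cont hg hs g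
  choose f' hf' using fun g => T.bar (kapM n s) (fun x => f (g * x)) (hsq g)
  have hB : Bs Φ s f f' := hf'
  have near := fun g x => Bs.near T hs hf.cont hg hB g x
  refine ⟨f', ⟨?_, ?_, ?_⟩, hB, ?_⟩
  · -- continuity
    rw [continuous_iff_continuousAt]
    intro g
    have t0 : Tendsto (fun h : SUGroup n => wt (g⁻¹ * h)) (𝓝 g) (𝓝 1) := by
      have h1 : Continuous fun h : SUGroup n => wt (g⁻¹ * h) :=
        continuous_wt.comp (continuous_const.mul continuous_id)
      have h2 := h1.tendsto g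
      rwa [inv_mul_cancel, wt_one] at h2
    have t1 : Tendsto (fun h : SUGroup n => wt (g⁻¹ * h) ^ (2 * s) - 1) (𝓝 g) (𝓝 0) := by
      have h1 := (t0.pow (2 * s)).sub_const 1
      rwa [one_pow, sub_self] at h1
    have t2 : Tendsto (fun h : SUGroup n => κ * (wt (g⁻¹ * h) ^ (2 * s) - 1)) (𝓝 g) (𝓝 0) := by
      have h1 := t1.const_mul κ
      rwa [mul_zero] at h1
    have t3 : Tendsto (fun h : SUGroup n => 2 * κ * (wt (g⁻¹ * h) ^ (2 * s) - 1) *
        Real.sqrt (Sp Φ s f f' g)) (𝓝 g) (𝓝 0) := by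
      have h1 := (t1.const_mul (2 * κ)).mul_const (Real.sqrt (Sp Φ s f f' g))
      rwa [mul_zero, zero_mul] at h1
    rw [ContinuousAt, tendsto_iff_dist_tendsto_zero]
    refine squeeze_zero' (Eventually.of_forall fun _ => dist_nonneg) ?_ t3
    filter_upwards [t2.eventually (ge_mem_nhds one_pos)] with h hh
    have h1 := near g (g⁻¹ * h) hh
    rw [mul_inv_cancel_left] at h1
    rw [dist_comm]
    exact h1
  · intro g k hk
    have hw : wt k = 1 := by
      rw [wt, hk]
      norm_num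
    have h1 := near g k (by rw [hw]; norm_num)
    rw [hw, one_pow, sub_self, mul_zero, zero_mul] at h1
    exact (dist_le_zero.1 h1).symm
  · intro γ g
    refine IsBar.unique T (hB _) ?_
    intro y
    have h1 := hB g ((ρ γ).symm y)
    have e1 : ∀ x : SUGroup n, Φ y (f ((γ : SUGroup n) * g * x)) = Φ ((ρ γ).symm y) (f (g * x)) := by
      intro x
      rw [mul_assoc, hf.equi γ (g * x)]
      conv_lhs => rw [← Equiv.apply_symm_apply (ρ γ) y]
      rw [D.act.phi]
    have e2 : ∀ x : SUGroup n, Φ (ρ γ (f' g)) (f ((γ : SUGroup n) * g * x)) = Φ (f' g) (f (g * x)) := by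
      intro x
      rw [mul_assoc, hf.equi γ (g * x), D.act.phi]
    have e3 : Φ y (ρ γ (f' g)) = Φ ((ρ γ).symm y) (f' g) := by
      conv_lhs => rw [← Equiv.apply_symm_apply (ρ γ) y]
      rw [D.act.phi]
    simp only [e1, e2, e3]
    exact h1
  · intro g
    have h1 := D.up.le (kapM n s) (fun x => f (g * x)) (f' g) (hsq g) (hB g)
    have h2 := D.dn.le (kapM n s) (fun x => f (g * x)) (f' g) (hsq g) (hB g)
    simp only [hl, neg_zero, integral_zero] at h1 h2
    linarith

end Pool.Agent.Lib.MP_5d4057_al.IN
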