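import Pool.Agent.Lib.MP_5d4057_al.IN.SubL
import Pool.Agent.Lib.MP_5d4057_al.IN.BarS

/-! Part B of INT: the limit map: structure and subharmonicity (B12). -/

namespace Pool.Agent.Lib.MP_5d4057_al.IN

open MeasureTheory Filter Topology Pool.Agent.Lib.MP_5d4057_al
open Pool.Agent.Lib.MP_5d4057_al.Hyb Pool.Agent.Lib.MP_5d4057_al.HM

open scoped ENNReal

variable {n : ℕ} {Γ : Subgroup (SUGroup n)} {χ : SUGroup n → ℝ} {Y : Type} [MetricSpace Y]
variable {Φ : Y → Y → ℝ} {κ : ℝ} {lv : Y → ℝ} {y₀ : Y} {ρ : Γ →* Equiv.Perm Y}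

/-- A sequence of pairs converging locally uniformly to `f`: this is all that parts C and D need
besides the equivariance. -/
structure App (Φ : Y → Y → ℝ) (y₀ : Y) (f : SUGroup n → Y) (C : ℝ) (s : ℕ → ℕ)
    (a b : ℕ → SUGroup n → Y) : Prop where
  tends : Tendsto s atTop atTop
  ca : ∀ j, Continuous (a j)
  cb : ∀ j, Continuous (b j)
  ka : ∀ (j : ℕ) (g k : SUGroup n), ch k = 1 → a j (g * k) = a j g
  kb : ∀ (j : ℕ) (g k : SUGroup n), ch k = 1 → b j (g * k) = b j g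
  ga : ∀ j, Lg C y₀ (a j)
  gb : ∀ j, Lg C y₀ (b j)
  ab : ∀ j, Bs Φ (s j) (a j) (b j)
  ba : ∀ j, Bs Φ (s j) (b j) (a j)
  la : TendstoLocallyUniformly a f atTop
  lb : TendstoLocallyUniformly b f atTop

/-- The limit map. -/
structure LimY (ρ : Γ →* Equiv.Perm Y) (Φ : Y → Y → ℝ) (lv : Y → ℝ) (y₀ : Y)
    (f : SUGroup n → Y) : Prop where
  eqv : Eqv ρ f
  lv : ∀ g, lv (f g) = 0
  lip : ∃ L : ℝ, LipD L f
  app : ∃ (C : ℝ) (s : ℕ → ℕ) (a b : ℕ → SUGroup n → Y), App Φ y₀ f C s a b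

private theorem ap_log_nonneg (x : SUGroup n) : 0 ≤ Real.log (wt x) := Real.log_nonneg (one_le_wt x)

private theorem ap_wt_pos (x : SUGroup n) : 0 < wt x := lt_of_lt_of_le one_pos (one_le_wt x)

private theorem ap_log_mul (x y : SUGroup n) :
    Real.log (wt (x * y)) ≤ Real.log (wt x) + Real.log (wt y) := by
  rw [← Real.log_mul (ap_wt_pos x).ne' (ap_wt_pos y).ne']
  exact Real.log_le_log (ap_wt_pos _) (wt_mul_le x y)

private theorem ap_C_nonneg {C : ℝ} {f : SUGroup n → Y} (hg : Lg C y₀ f) : 0 ≤ C := by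
  have h1 := (dist_nonneg).trans (hg 1)
  rw [wt_one, Real.log_one] at h1
  linarith

/-- Logarithmic growth against `ch ^ 2`. -/
private theorem ap_log_le (x : SUGroup n) : 1 + Real.log (wt x) ≤ 3 * ch x ^ (2 * 1) := by
  have h1 := Real.log_le_sub_one_of_pos (ap_wt_pos x)
  have h2 := wt_le x
  have h3 := one_le_ch x
  have h4 : ch x ^ (2 * 1) = ch x * ch x := by ring
  rw [h4]
  nlinarith

private theorem ap_shift {Z : Type} [UniformSpace Z] {a : ℕ → SUGroup n → Z} {f : SUGroup n → Z}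
    (h : TendstoLocallyUniformly a f atTop) (j₀ : ℕ) :
    TendstoLocallyUniformly (fun j => a (j + j₀)) f atTop := by
  intro u hu x
  obtain ⟨t, ht, h1⟩ := h u hu x
  exact ⟨t, ht, (tendsto_add_atTop_nat j₀).eventually h1⟩

/-- The common part of the two proofs. -/
private theorem sub_pair (n : ℕ) : ∃ t₀ : ℕ, ∀ t, t₀ ≤ t → ∀ (C : ℝ) (s : ℕ → ℕ)
    (A B : ℕ → SUGroup n → ℝ) (v : SUGroup n → ℝ), Tendsto s atTop atTop →
      (∀ j, Ag 1 C (A j)) → (∀ j, Ag 1 C (B j)) →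
      (∀ j, n + 2 < s j → ∀ g, Integrable (fun x => A j (g * x)) (kapM n (s j)) ∧
        Integrable (fun x => B j (g * x)) (kapM n (s j)) ∧
        B j g ≤ Boot.Q (s j) (A j) g ∧ A j g ≤ Boot.Q (s j) (B j) g) →
      TendstoLocallyUniformly A v atTop → TendstoLocallyUniformly B v atTop →
        ∀ g, v g ≤ Boot.Q t v g := by
  obtain ⟨t₀, ht₀⟩ := sub_lim n 1
  refine ⟨t₀, fun t ht C s A B v hs hA hB hAB hlA hlB g => ?_⟩
  obtain ⟨j₀, hj₀⟩ := (hs.eventually (eventually_gt_atTop (n + 2))).exists_forall_of_atTop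
  have hs' : Tendsto (fun j => s (j + j₀)) atTop atTop := hs.comp (tendsto_add_atTop_nat j₀)
  have h1 := ht₀ t ht (C + C) (fun j => s (j + j₀)) (fun j x => A (j + j₀) x + B (j + j₀) x)
    (fun x => v x + v x) hs' ?_ ?_ ?_ g
  · have h2 : Boot.Q t (fun x => v x + v x) g = 2 * Boot.Q t v g := by
      rw [Boot.Q, Boot.Q, ← integral_const_mul]
      refine integral_congr_ae (Eventually.of_forall fun x => ?_)
      show kap t x * (v (g * x) + v (g * x)) = 2 * (kap t x * v (g * x))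
      ring
    rw [h2] at h1
    linarith
  · intro j
    refine ⟨(hA _).cont.add (hB _).cont, fun x k hk => ?_, fun x => ?_⟩
    · rw [(hA _).kinv x k hk, (hB _).kinv x k hk]
    · refine (abs_add_le _ _).trans ?_
      rw [add_mul]
      exact add_le_add ((hA _).bound x) ((hB _).bound x)
  · intro j x
    obtain ⟨hi1, hi2, h2, h3⟩ := hAB (j + j₀) (hj₀ _ (Nat.le_add_left _ _)) x
    have h4 : Boot.Q (s (j + j₀)) (fun x => A (j + j₀) x + B (j + j₀) x) x =
        Boot.Q (s (j + j₀)) (A (j + j₀)) x + Boot.Q (s (j + j₀)) (B (j + j₀)) x := by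
      have e1 := integral_kapM (n := n) (s (j + j₀)) fun y => A (j + j₀) (x * y) + B (j + j₀) (x * y)
      have e2 := integral_kapM (n := n) (s (j + j₀)) fun y => A (j + j₀) (x * y)
      have e3 := integral_kapM (n := n) (s (j + j₀)) fun y => B (j + j₀) (x * y)
      rw [Boot.Q, Boot.Q, Boot.Q, ← e1, ← e2, ← e3]
      exact integral_add hi1 hi2
    show A (j + j₀) x + B (j + j₀) x ≤ _
    rw [h4]
    linarith
  · have h2 := (ap_shift hlA j₀).prodMk (ap_shift hlB j₀)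
    exact uniformContinuous_add.comp_tendstoLocallyUniformly h2

/-- **Subharmonicity** (B12, (H1)): Jensen functions of the limit map. PROOF: `sub_lim` with
`N = 1`, `u j = φ ∘ a j + φ ∘ b j` (`Bs.jen` for `ab`, `ba`), limit `2 φ ∘ f`. -/
theorem App.sub (n : ℕ) : ∃ t₀ : ℕ, ∀ t, t₀ ≤ t → ∀ {Y : Type} [MetricSpace Y] {Φ : Y → Y → ℝ}
    {κ : ℝ} {y₀ : Y}, Tgt Φ κ → ∀ (f : SUGroup n → Y) (C : ℝ) (s : ℕ → ℕ)
      (a b : ℕ → SUGroup n → Y), App Φ y₀ f C s a b → ∀ φ : Y → ℝ, Jen Φ φ →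
        ∀ g, φ (f g) ≤ Boot.Q t (fun x => φ (f x)) g := by
  obtain ⟨t₀, ht₀⟩ := sub_pair n
  refine ⟨t₀, fun t ht {Y} _ {Φ} {κ} {y₀} T f C s a b h φ hφ g => ?_⟩
  obtain ⟨K, hK, hlip⟩ := hφ.lip
  have hC := ap_C_nonneg (h.ga 0)
  have hL : LipschitzWith K.toNNReal φ := by
    refine LipschitzWith.of_dist_le_mul fun x y => ?_
    rw [Real.coe_toNNReal K hK, Real.dist_eq]
    exact hlip x y
  have hAg : ∀ (u : SUGroup n → Y), Continuous u → (∀ g k : SUGroup n, ch k = 1 → u (g * k) = u g) →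
      Lg C y₀ u → Ag 1 (|φ y₀| + K * (C * 3)) fun x => φ (u x) := by
    intro u hu hk hg'
    refine ⟨hL.continuous.comp hu, fun x k hx => by rw [hk x k hx], fun x => ?_⟩
    have h1 : |φ (u x)| ≤ |φ y₀| + K * dist y₀ (u x) := by
      have h2 := hlip (u x) y₀
      rw [dist_comm] at h2
      calc |φ (u x)| = |φ y₀ + (φ (u x) - φ y₀)| := by rw [add_sub_cancel]
        _ ≤ |φ y₀| + |φ (u x) - φ y₀| := abs_add_le _ _
        _ ≤ _ := by linarith
    have h2 := hg' x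
    have h3 := ap_log_le x
    have h4 : (1 : ℝ) ≤ ch x ^ (2 * 1) := one_le_pow₀ (one_le_ch x)
    have h5 : K * dist y₀ (u x) ≤ K * (C * (3 * ch x ^ (2 * 1))) :=
      mul_le_mul_of_nonneg_left (h2.trans (mul_le_mul_of_nonneg_left h3 hC)) hK
    have h6 : |φ y₀| ≤ |φ y₀| * ch x ^ (2 * 1) := le_mul_of_one_le_right (abs_nonneg _) h4
    calc |φ (u x)| ≤ |φ y₀| * ch x ^ (2 * 1) + K * (C * (3 * ch x ^ (2 * 1))) := by linarith
      _ = _ := by ring
  refine ht₀ t ht (|φ y₀| + K * (C * 3)) s (fun j x => φ (a j x)) (fun j x => φ (b j x))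
    (fun x => φ (f x)) h.tends (fun j => hAg _ (h.ca j) (h.ka j) (h.ga j))
    (fun j => hAg _ (h.cb j) (h.kb j) (h.gb j)) ?_
    (hL.uniformContinuous.comp_tendstoLocallyUniformly h.la)
    (hL.uniformContinuous.comp_tendstoLocallyUniformly h.lb) g
  intro j hj x
  have := isProb_kapM (n := n) (s := s j) (by omega)
  exact ⟨hφ.integrable (Lg.sqI (h.ca j) (h.ga j) hj x), hφ.integrable (Lg.sqI (h.cb j) (h.gb j) hj x),
    (h.ab j).jen (h.ca j) (h.ga j) hj hφ x, (h.ba j).jen (h.cb j) (h.gb j) hj hφ x⟩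

/-- Left translates. -/
theorem App.left {f : SUGroup n → Y} {C : ℝ} {s : ℕ → ℕ} {a b : ℕ → SUGroup n → Y}
    (h : App Φ y₀ f C s a b) (c : SUGroup n) : ∃ C' : ℝ,
      App Φ y₀ (fun g => f (c * g)) C' s (fun j g => a j (c * g)) fun j g => b j (c * g) := by
  have hC := ap_C_nonneg (h.ga 0)
  have hcc : Continuous fun g : SUGroup n => c * g := continuous_const_mul c
  have hlg : ∀ u : SUGroup n → Y, Lg C y₀ u →
      Lg (C * (1 + Real.log (wt c))) y₀ fun g => u (c * g) := by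
    intro u hu g
    refine (hu (c * g)).trans ?_
    have h1 := ap_log_mul c g
    have h2 := ap_log_nonneg c
    have h3 := ap_log_nonneg g
    rw [mul_assoc]
    refine mul_le_mul_of_nonneg_left ?_ hC
    nlinarith [mul_nonneg h2 h3]
  refine ⟨C * (1 + Real.log (wt c)), ?_⟩
  exact
    { tends := h.tends
      ca := fun j => (h.ca j).comp hcc
      cb := fun j => (h.cb j).comp hcc
      ka := fun j g k hk => by
        show a j (c * (g * k)) = a j (c * g)
        rw [← _root_.mul_assoc, h.ka j _ k hk]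
      kb := fun j g k hk => by
        show b j (c * (g * k)) = b j (c * g)
        rw [← _root_.mul_assoc, h.kb j _ k hk]
      ga := fun j => hlg _ (h.ga j)
      gb := fun j => hlg _ (h.gb j)
      ab := fun j g => by
        have h1 := h.ab j (c * g)
        simp only [_root_.mul_assoc] at h1
        exact h1
      ba := fun j g => by
        have h1 := h.ba j (c * g)
        simp only [_root_.mul_assoc] at h1
        exact h1
      la := h.la.comp _ hcc
      lb := h.lb.comp _ hcc }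

/-- The same for Jensen functions of two variables and a left translation (`Bs.jen2`). -/
theorem App.sub2 (n : ℕ) : ∃ t₀ : ℕ, ∀ t, t₀ ≤ t → ∀ {Y : Type} [MetricSpace Y] {Φ : Y → Y → ℝ}
    {κ : ℝ} {y₀ : Y}, Tgt Φ κ → ∀ (f : SUGroup n → Y) (C : ℝ) (s : ℕ → ℕ)
      (a b : ℕ → SUGroup n → Y), App Φ y₀ f C s a b → ∀ D : Y → Y → ℝ, Jen2 Φ D →
        ∀ c g, D (f g) (f (c * g)) ≤ Boot.Q t (fun x => D (f x) (f (c * x))) g := by
  obtain ⟨t₀, ht₀⟩ := sub_pair n
  refine ⟨t₀, fun t ht {Y} _ {Φ} {κ} {y₀} T f C s a b h D hD c g => ?_⟩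
  obtain ⟨K, hK, hlip⟩ := hD.lip
  have hC := ap_C_nonneg (h.ga 0)
  obtain ⟨C', h'⟩ := h.left c
  have hC' := ap_C_nonneg (h'.ga 0)
  have hL : LipschitzWith (K * 2).toNNReal fun p : Y × Y => D p.1 p.2 := by
    refine LipschitzWith.of_dist_le_mul fun x y => ?_
    rw [Real.coe_toNNReal (K * 2) (by positivity), Real.dist_eq]
    refine (hlip x.1 y.1 x.2 y.2).trans ?_
    rw [mul_assoc]
    refine mul_le_mul_of_nonneg_left ?_ hK
    have h1 : dist x.1 y.1 ≤ dist x y := le_max_left _ _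
    have h2 : dist x.2 y.2 ≤ dist x y := le_max_right _ _
    linarith
  have hAg : ∀ (u w : SUGroup n → Y), Continuous u → Continuous w →
      (∀ g k : SUGroup n, ch k = 1 → u (g * k) = u g) →
      (∀ g k : SUGroup n, ch k = 1 → w (g * k) = w g) → Lg C y₀ u → Lg C' y₀ w →
      Ag 1 (|D y₀ y₀| + K * ((C + C') * 3)) fun x => D (u x) (w x) := by
    intro u w hu hw hk hk' hg1 hg2
    refine ⟨hL.continuous.comp (hu.prodMk hw), fun x k hx => by rw [hk x k hx, hk' x k hx],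
      fun x => ?_⟩
    have h1 : |D (u x) (w x)| ≤ |D y₀ y₀| + K * (dist y₀ (u x) + dist y₀ (w x)) := by
      have h2 := hlip (u x) y₀ (w x) y₀
      rw [dist_comm, dist_comm (w x)] at h2
      calc |D (u x) (w x)| = |D y₀ y₀ + (D (u x) (w x) - D y₀ y₀)| := by rw [add_sub_cancel]
        _ ≤ |D y₀ y₀| + |D (u x) (w x) - D y₀ y₀| := abs_add_le _ _
        _ ≤ _ := by linarith
    have h2 := hg1 x
    have h2' := hg2 x
    have h3 := ap_log_le x
    have h4 : (1 : ℝ) ≤ ch x ^ (2 * 1) := one_le_pow₀ (one_le_ch x)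
    have h5 : K * (dist y₀ (u x) + dist y₀ (w x)) ≤ K * ((C + C') * (3 * ch x ^ (2 * 1))) := by
      refine mul_le_mul_of_nonneg_left ?_ hK
      rw [add_mul]
      exact add_le_add (h2.trans (mul_le_mul_of_nonneg_left h3 hC))
        (h2'.trans (mul_le_mul_of_nonneg_left h3 hC'))
    have h6 : |D y₀ y₀| ≤ |D y₀ y₀| * ch x ^ (2 * 1) := le_mul_of_one_le_right (abs_nonneg _) h4
    calc |D (u x) (w x)| ≤ |D y₀ y₀| * ch x ^ (2 * 1) + K * ((C + C') * (3 * ch x ^ (2 * 1))) := by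
          linarith
      _ = _ := by ring
  refine ht₀ t ht (|D y₀ y₀| + K * ((C + C') * 3)) s (fun j x => D (a j x) (a j (c * x)))
    (fun j x => D (b j x) (b j (c * x))) (fun x => D (f x) (f (c * x))) h.tends
    (fun j => hAg _ _ (h.ca j) (h'.ca j) (h.ka j) (h'.ka j) (h.ga j) (h'.ga j))
    (fun j => hAg _ _ (h.cb j) (h'.cb j) (h.kb j) (h'.kb j) (h.gb j) (h'.gb j)) ?_
    (hL.uniformContinuous.comp_tendstoLocallyUniformly (h.la.prodMk h'.la))
    (hL.uniformContinuous.comp_tendstoLocallyUniformly (h.lb.prodMk h'.lb)) g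
  intro j hj x
  have := isProb_kapM (n := n) (s := s j) (by omega)
  refine ⟨hD.integrable (Lg.sqI (h.ca j) (h.ga j) hj x) (Lg.sqI (h'.ca j) (h'.ga j) hj x),
    hD.integrable (Lg.sqI (h.cb j) (h.gb j) hj x) (Lg.sqI (h'.cb j) (h'.gb j) hj x), ?_, ?_⟩
  · exact Bs.jen2 (h.ca j) ((h.ga j).mono (le_max_left C C')) (h'.ca j)
      ((h'.ga j).mono (le_max_right C C')) hj (h.ab j) (h'.ab j) hD x x
  · exact Bs.jen2 (h.cb j) ((h.gb j).mono (le_max_left C C')) (h'.cb j)
      ((h'.gb j).mono (le_max_right C C')) hj (h.ba j) (h'.ba j) hD x x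

end Pool.Agent.Lib.MP_5d4057_al.IN
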