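import Pool.Agent.Lib.MP_5d4057_al.IN.NmP
import Pool.Agent.Lib.MP_5d4057_al.HM.AppOne
import Pool.Agent.Lib.MP_5d4057_al.HM.Kak

/-!
# Part F: the interface (THEOREM G) between the analysis and the application
-/

namespace Pool.Agent.Lib.MP_5d4057_al.IN

open Matrix MeasureTheory Filter Topology Module Pool.Agent.Lib.MP_5d4057_al
  Pool.Agent.Lib.MP_5d4057_al.Hyb Pool.Agent.Lib.MP_5d4057_al.HM Pool.Agent.Lib.MP_5d4057_al.HM.Kak

variable {n : ℕ} {Γ : Subgroup (SUGroup n)}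
  {k : Type} [NontriviallyNormedField k] [IsUltrametricDist k] [ProperSpace k]
  {V : Type} [AddCommGroup V] [Module k V] [FiniteDimensional k V]

/-- The standing assumptions on the representation. -/
structure Rep (ρ : Γ →* (V ≃ₗ[k] V)) : Prop where
  span : Submodule.span k (Set.range fun γ : Γ => (ρ γ : V →ₗ[k] V)) = ⊤
  det : ∀ γ : Γ, ‖LinearMap.det (ρ γ : V →ₗ[k] V)‖ = 1

/-- Equivariant Lipschitz maps to the space of norms such that all `log f(v)(w)` are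
plurisubharmonic (in the form of the circle inequality on all complex geodesics). -/
structure PshMap (ρ : Γ →* (V ≃ₗ[k] V)) (f : Vec n → Nm k V) : Prop where
  hom : Homog f
  lip : ∃ L : ℝ, 0 ≤ L ∧ ∀ g x : SUGroup n,
    dist (f (act g (base n))) (f (act (g * x) (base n))) ≤ L * Real.log (wt x)
  equi : ∀ (γ : Γ), ∀ v ∈ Cone n, f (act (γ : SUGroup n) v) = (f v).act (ρ γ)
  psh : ∀ w : V, w ≠ 0 → ∀ (g : SUGroup n) (ξ : Fin n → ℂ), nq ξ = 1 → ∀ r : ℝ, 0 ≤ r → r < 1 →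
    Real.log (f (act g (base n)) w) ≤ (2 * Real.pi)⁻¹ * ∫ θ in (0 : ℝ)..(2 * Real.pi),
      Real.log (f (act g (vec ((((r : ℝ) : ℂ) * Complex.exp (θ * Complex.I)) • ξ) + base n)) w)

/-- THEOREM G as a proposition (proved in parts B, C, D). -/
def ThmG : Prop :=
  ∀ (n : ℕ) (Γ : Subgroup (SUGroup n)) (k : Type) [NontriviallyNormedField k]
    [IsUltrametricDist k] [ProperSpace k] (m : ℕ) (ρ : Γ →* ((Fin m → k) ≃ₗ[k] (Fin m → k))),
    1 ≤ n → 0 < m → Coc Γ → Rep ρ → ∃ f : Vec n → Nm k (Fin m → k), PshMap ρ f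

/-- Bounded representations. -/
def Bdd (ρ : Γ →* (V ≃ₗ[k] V)) : Prop :=
  ∃ (N₀ : Nm k V) (C : ℝ), ∀ (γ : Γ) (v : V), N₀ (ρ γ v) ≤ C * N₀ v

end Pool.Agent.Lib.MP_5d4057_al.IN
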