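import Pool.Agent.Lib.MP_5d4057_al.NU.LGA
import Pool.Agent.Lib.MP_5d4057_al.NU.LatA2
import Pool.Agent.Lib.MP_5d4057_al.NU.BootA
import Pool.Agent.Lib.MP_5d4057_al.HM.Mom

/-!
# Part B of the project INT: the abstract target and maps on the group

`Y` is a proper metric space with a second function `Φ`, comparable with `dist ^ 2`, for which
barycentres exist (`Tgt`). In the application `Y = Nm k V`, `Φ = Phi`. All maps of part B are
functions `f : SUGroup n → Y`, continuous, right invariant under `{ch = 1}` and equivariant (`Eqv`).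
-/

namespace Pool.Agent.Lib.MP_5d4057_al.IN

open MeasureTheory Filter Topology Pool.Agent.Lib.MP_5d4057_al
open Pool.Agent.Lib.MP_5d4057_al.Hyb Pool.Agent.Lib.MP_5d4057_al.HM

open scoped ENNReal

section target

variable {Y : Type} [MetricSpace Y]

/-- Square integrable maps. -/
structure SqI {Ω : Type} [MeasurableSpace Ω] (P : Measure Ω) (F : Ω → Y) : Prop where
  meas : AEStronglyMeasurable F P
  int : ∀ y : Y, Integrable (fun ω => dist y (F ω) ^ 2) P

/-- `b` is the barycentre of `F` for `P` (with the variance inequality). -/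
def IsBar (Φ : Y → Y → ℝ) {Ω : Type} [MeasurableSpace Ω] (P : Measure Ω) (F : Ω → Y) (b : Y) :
    Prop :=
  ∀ y : Y, ∫ ω, Φ b (F ω) ∂P + Φ y b ≤ ∫ ω, Φ y (F ω) ∂P

/-- The target: a metric space with a function `Φ` comparable with `dist ^ 2` and barycentres. -/
structure Tgt (Φ : Y → Y → ℝ) (κ : ℝ) : Prop where
  one_le : 1 ≤ κ
  symm : ∀ a b, Φ a b = Φ b a
  ge : ∀ a b, dist a b ^ 2 ≤ Φ a b
  le : ∀ a b, Φ a b ≤ κ * dist a b ^ 2
  lip : ∀ a b c, |Φ a c - Φ b c| ≤ κ * dist a b * (dist a c + dist b c)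
  bar : ∀ {Ω : Type} [MeasurableSpace Ω] (P : Measure Ω) [IsProbabilityMeasure P] (F : Ω → Y),
    SqI P F → ∃ b, IsBar Φ P F b

/-- Jensen functions: Lipschitz functions with Jensen's inequality for barycentres. -/
structure Jen (Φ : Y → Y → ℝ) (φ : Y → ℝ) : Prop where
  lip : ∃ K : ℝ, 0 ≤ K ∧ ∀ a b, |φ a - φ b| ≤ K * dist a b
  le : ∀ {Ω : Type} [MeasurableSpace Ω] (P : Measure Ω) [IsProbabilityMeasure P] (F : Ω → Y)
    (b : Y), SqI P F → IsBar Φ P F b → φ b ≤ ∫ ω, φ (F ω) ∂P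

/-- Jensen functions of two variables. -/
structure Jen2 (Φ : Y → Y → ℝ) (D : Y → Y → ℝ) : Prop where
  lip : ∃ K : ℝ, 0 ≤ K ∧ ∀ a a' b b', |D a b - D a' b'| ≤ K * (dist a a' + dist b b')
  le : ∀ {Ω : Type} [MeasurableSpace Ω] (P : Measure Ω) [IsProbabilityMeasure P] (F F' : Ω → Y)
    (b b' : Y), SqI P F → SqI P F' → IsBar Φ P F b → IsBar Φ P F' b' →
      D b b' ≤ ∫ ω, D (F ω) (F' ω) ∂P

variable {Φ : Y → Y → ℝ} {κ : ℝ}

theorem Tgt.nonneg (T : Tgt Φ κ) (a b : Y) : 0 ≤ Φ a b := (sq_nonneg _).trans (T.ge a b)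

theorem Tgt.self (T : Tgt Φ κ) (a : Y) : Φ a a = 0 := by
  have h1 := T.le a a
  have h2 := T.nonneg a a
  rw [dist_self] at h1
  nlinarith

theorem Tgt.eq (T : Tgt Φ κ) {a b : Y} (h : Φ a b ≤ 0) : a = b := by
  have h1 := (T.ge a b).trans h
  have h2 : dist a b = 0 := by nlinarith [sq_nonneg (dist a b), dist_nonneg (x := a) (y := b)]
  exact dist_eq_zero.1 h2

/-- `Φ` is continuous. -/
theorem Tgt.continuous (T : Tgt Φ κ) : Continuous fun p : Y × Y => Φ p.1 p.2 := by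
  rw [continuous_iff_continuousAt]
  rintro ⟨a₀, b₀⟩
  rw [ContinuousAt, tendsto_iff_dist_tendsto_zero]
  have hb : ∀ p : Y × Y, dist (Φ p.1 p.2) (Φ a₀ b₀) ≤
      κ * dist p.1 a₀ * (dist p.1 p.2 + dist a₀ p.2) +
        κ * dist p.2 b₀ * (dist p.2 a₀ + dist b₀ a₀) := by
    rintro ⟨a, b⟩
    have h1 := T.lip a a₀ b
    have h2 := T.lip b b₀ a₀
    rw [T.symm b a₀, T.symm b₀ a₀] at h2
    rw [Real.dist_eq]
    simp only
    calc |Φ a b - Φ a₀ b₀| = |(Φ a b - Φ a₀ b) + (Φ a₀ b - Φ a₀ b₀)| := by ring_nf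
      _ ≤ |Φ a b - Φ a₀ b| + |Φ a₀ b - Φ a₀ b₀| := abs_add_le _ _
      _ ≤ _ := add_le_add h1 h2
  refine squeeze_zero (fun _ => dist_nonneg) hb ?_
  have hc : Continuous fun p : Y × Y => κ * dist p.1 a₀ * (dist p.1 p.2 + dist a₀ p.2) +
      κ * dist p.2 b₀ * (dist p.2 a₀ + dist b₀ a₀) := by
    fun_prop
  have h := hc.tendsto (a₀, b₀)
  simpa using h

theorem Tgt.integrable (T : Tgt Φ κ) {Ω : Type} [MeasurableSpace Ω] {P : Measure Ω} {F : Ω → Y}
    (hF : SqI P F) (y : Y) : Integrable (fun ω => Φ y (F ω)) P := by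
  have hc : Continuous fun z : Y => Φ y z :=
    T.continuous.comp (continuous_const.prodMk continuous_id)
  refine ((hF.int y).const_mul κ).mono' (hc.comp_aestronglyMeasurable hF.meas)
    (Filter.Eventually.of_forall fun ω => ?_)
  rw [Real.norm_eq_abs, abs_of_nonneg (T.nonneg _ _)]
  exact T.le _ _

theorem SqI.dist {Ω : Type} [MeasurableSpace Ω] {P : Measure Ω} [IsProbabilityMeasure P]
    {F : Ω → Y} (hF : SqI P F) (y : Y) : Integrable (fun ω => dist y (F ω)) P := by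
  have hc : Continuous fun z : Y => Dist.dist y z := continuous_const.dist continuous_id
  refine ((integrable_const (1 : ℝ)).add (hF.int y)).mono' (hc.comp_aestronglyMeasurable hF.meas)
    (Filter.Eventually.of_forall fun ω => ?_)
  rw [Real.norm_eq_abs, abs_of_nonneg dist_nonneg]
  simp only [Pi.add_apply]
  nlinarith [sq_nonneg (Dist.dist y (F ω) - 1), dist_nonneg (x := y) (y := F ω)]

theorem IsBar.unique (T : Tgt Φ κ) {Ω : Type} [MeasurableSpace Ω] {P : Measure Ω} {F : Ω → Y}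
    {b b' : Y} (h : IsBar Φ P F b) (h' : IsBar Φ P F b') : b = b' := by
  have h1 := h b'
  have h2 := h' b
  have h3 := T.nonneg b b'
  exact T.eq (by linarith [T.symm b b'])

theorem Jen.integrable {φ : Y → ℝ} (hφ : Jen Φ φ) {Ω : Type} [MeasurableSpace Ω] {P : Measure Ω}
    [IsProbabilityMeasure P] {F : Ω → Y} (hF : SqI P F) : Integrable (fun ω => φ (F ω)) P := by
  obtain ⟨K, hK, hlip⟩ := hφ.lip
  obtain ⟨ω₀⟩ : Nonempty Ω := nonempty_of_isProbabilityMeasure P
  have hc : Continuous φ := by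
    refine (LipschitzWith.of_dist_le_mul (K := ⟨K, hK⟩) fun a b => ?_).continuous
    rw [Real.dist_eq]
    exact hlip a b
  refine (((hF.dist (F ω₀)).const_mul K).add (integrable_const |φ (F ω₀)|)).mono'
    (hc.comp_aestronglyMeasurable hF.meas) (Filter.Eventually.of_forall fun ω => ?_)
  rw [Real.norm_eq_abs]
  simp only [Pi.add_apply]
  have h1 := hlip (F ω) (F ω₀)
  rw [dist_comm] at h1
  calc |φ (F ω)| = |(φ (F ω) - φ (F ω₀)) + φ (F ω₀)| := by ring_nf
    _ ≤ |φ (F ω) - φ (F ω₀)| + |φ (F ω₀)| := abs_add_le _ _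
    _ ≤ _ := add_le_add h1 le_rfl

theorem Jen2.integrable {D : Y → Y → ℝ} (hD : Jen2 Φ D) {Ω : Type} [MeasurableSpace Ω]
    {P : Measure Ω} [IsProbabilityMeasure P] {F F' : Ω → Y} (hF : SqI P F) (hF' : SqI P F') :
    Integrable (fun ω => D (F ω) (F' ω)) P := by
  obtain ⟨K, hK, hlip⟩ := hD.lip
  obtain ⟨ω₀⟩ : Nonempty Ω := nonempty_of_isProbabilityMeasure P
  have hc : Continuous fun p : Y × Y => D p.1 p.2 := by
    rw [continuous_iff_continuousAt]
    rintro ⟨a₀, b₀⟩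
    rw [ContinuousAt, tendsto_iff_dist_tendsto_zero]
    refine squeeze_zero (g := fun p : Y × Y => K * (Dist.dist p.1 a₀ + Dist.dist p.2 b₀))
      (fun _ => dist_nonneg) (fun p => ?_) ?_
    · rw [Real.dist_eq]
      exact hlip _ _ _ _
    · have hc : Continuous fun p : Y × Y => K * (Dist.dist p.1 a₀ + Dist.dist p.2 b₀) := by
        fun_prop
      have h := hc.tendsto (a₀, b₀)
      simpa using h
  refine ((((hF.dist (F ω₀)).add (hF'.dist (F' ω₀))).const_mul K).add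
    (integrable_const |D (F ω₀) (F' ω₀)|)).mono'
    (hc.comp_aestronglyMeasurable (hF.meas.prodMk hF'.meas))
    (Filter.Eventually.of_forall fun ω => ?_)
  rw [Real.norm_eq_abs]
  simp only [Pi.add_apply]
  have h1 := hlip (F ω) (F ω₀) (F' ω) (F' ω₀)
  rw [dist_comm (F ω), dist_comm (F' ω)] at h1
  calc |D (F ω) (F' ω)| = |(D (F ω) (F' ω) - D (F ω₀) (F' ω₀)) + D (F ω₀) (F' ω₀)| := by ring_nf
    _ ≤ |D (F ω) (F' ω) - D (F ω₀) (F' ω₀)| + |D (F ω₀) (F' ω₀)| := abs_add_le _ _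
    _ ≤ _ := add_le_add h1 le_rfl

/-- **Variation of the measure** (A12, one sided form). -/
theorem bar_var (T : Tgt Φ κ) {Ω : Type} [MeasurableSpace Ω] {P : Measure Ω}
    [IsProbabilityMeasure P] {F : Ω → Y} (hF : SqI P F) {ρ : Ω → ℝ} (hρ : Measurable ρ) {ε : ℝ}
    (hε : κ * ε ≤ 1) (h1 : ∀ ω, |ρ ω - 1| ≤ ε) {b b' : Y} (hb : IsBar Φ P F b)
    (hb' : ∀ y : Y, ∫ ω, ρ ω * Φ b' (F ω) ∂P + Φ y b' ≤ ∫ ω, ρ ω * Φ y (F ω) ∂P) :
    dist b b' ≤ 2 * κ * ε * Real.sqrt (∫ ω, Φ b (F ω) ∂P) := by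
  obtain ⟨ω₀⟩ : Nonempty Ω := nonempty_of_isProbabilityMeasure P
  have hε0 : 0 ≤ ε := (abs_nonneg _).trans (h1 ω₀)
  have hκ0 : 0 ≤ κ := zero_le_one.trans T.one_le
  have hi := T.integrable hF b
  have hi' := T.integrable hF b'
  have hρi : ∀ y, Integrable (fun ω => ρ ω * Φ y (F ω)) P := by
    intro y
    refine (T.integrable hF y).bdd_mul (c := 1 + ε) hρ.aestronglyMeasurable
      (Filter.Eventually.of_forall fun ω => ?_)
    rw [Real.norm_eq_abs]
    calc |ρ ω| = |(ρ ω - 1) + 1| := by ring_nf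
      _ ≤ |ρ ω - 1| + |(1 : ℝ)| := abs_add_le _ _
      _ ≤ _ := by rw [abs_one]; linarith [h1 ω]
  have e1 := hb b'
  have e2 := hb' b
  have hd := hF.dist b
  have hd0 : 0 ≤ dist b b' := dist_nonneg
  -- the difference of the two inequalities
  have e3 : 2 * Φ b b' ≤ ∫ ω, (1 - ρ ω) * (Φ b' (F ω) - Φ b (F ω)) ∂P := by
    have h3 : ∫ ω, (1 - ρ ω) * (Φ b' (F ω) - Φ b (F ω)) ∂P =
        (∫ ω, Φ b' (F ω) ∂P - ∫ ω, Φ b (F ω) ∂P) -
          (∫ ω, ρ ω * Φ b' (F ω) ∂P - ∫ ω, ρ ω * Φ b (F ω) ∂P) := by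
      have g1 : Integrable (fun ω => Φ b' (F ω) - Φ b (F ω)) P := hi'.sub hi
      have g2 : Integrable (fun ω => ρ ω * Φ b' (F ω) - ρ ω * Φ b (F ω)) P :=
        (hρi b').sub (hρi b)
      rw [← integral_sub hi' hi, ← integral_sub (hρi b') (hρi b), ← integral_sub g1 g2]
      refine integral_congr_ae (Filter.Eventually.of_forall fun ω => ?_)
      simp only
      ring
    rw [h3]
    have h4 := T.symm b' b
    linarith
  have e4 : ∫ ω, (1 - ρ ω) * (Φ b' (F ω) - Φ b (F ω)) ∂P ≤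
      ε * (κ * dist b b' * (dist b b' + 2 * ∫ ω, dist b (F ω) ∂P)) := by
    have h3 : ∀ ω, (1 - ρ ω) * (Φ b' (F ω) - Φ b (F ω)) ≤
        ε * (κ * dist b b' * (dist b b' + 2 * dist b (F ω))) := by
      intro ω
      have h4 := T.lip b' b (F ω)
      rw [dist_comm b' b] at h4
      have h5 : dist b' (F ω) ≤ dist b b' + dist b (F ω) := by
        rw [dist_comm b b']
        exact dist_triangle _ _ _
      have h6 : |Φ b' (F ω) - Φ b (F ω)| ≤ κ * dist b b' * (dist b b' + 2 * dist b (F ω)) := by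
        refine h4.trans (mul_le_mul_of_nonneg_left ?_ (mul_nonneg hκ0 hd0))
        linarith
      calc (1 - ρ ω) * (Φ b' (F ω) - Φ b (F ω)) ≤ |(1 - ρ ω) * (Φ b' (F ω) - Φ b (F ω))| :=
            le_abs_self _
        _ = |ρ ω - 1| * |Φ b' (F ω) - Φ b (F ω)| := by rw [abs_mul, abs_sub_comm]
        _ ≤ _ := mul_le_mul (h1 ω) h6 (abs_nonneg _) hε0
    have hint : Integrable (fun ω => ε * (κ * dist b b' * (dist b b' + 2 * dist b (F ω)))) P :=
      (((integrable_const (dist b b')).add (hd.const_mul 2)).const_mul _).const_mul _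
    have hint' : Integrable (fun ω => (1 - ρ ω) * (Φ b' (F ω) - Φ b (F ω))) P := by
      refine (((hi'.sub hi)).sub ((hρi b').sub (hρi b))).congr
        (Filter.Eventually.of_forall fun ω => ?_)
      simp only [Pi.sub_apply]
      ring
    refine (integral_mono hint' hint h3).trans (le_of_eq ?_)
    rw [integral_const_mul, integral_const_mul, integral_add (integrable_const _) (hd.const_mul 2),
      integral_const_mul, integral_const]
    simp
  -- the mean distance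
  have e5 : ∫ ω, dist b (F ω) ∂P ≤ Real.sqrt (∫ ω, Φ b (F ω) ∂P) := by
    refine Real.le_sqrt_of_sq_le ?_
    have h3 : (∫ ω, dist b (F ω) ∂P) ^ 2 ≤ ∫ ω, dist b (F ω) ^ 2 ∂P := by
      obtain ⟨m, hm⟩ : ∃ m, m = ∫ ω, dist b (F ω) ∂P := ⟨_, rfl⟩
      have h4 : 0 ≤ ∫ ω, (dist b (F ω) - m) ^ 2 ∂P := integral_nonneg fun ω => sq_nonneg _
      have h5 : ∫ ω, (dist b (F ω) - m) ^ 2 ∂P =
          ∫ ω, dist b (F ω) ^ 2 ∂P - 2 * m * ∫ ω, dist b (F ω) ∂P + m ^ 2 := by
        have h6 : ∀ ω, (dist b (F ω) - m) ^ 2 =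
            (dist b (F ω) ^ 2 - 2 * m * dist b (F ω)) + m ^ 2 := fun ω => by ring
        have g1 : Integrable (fun ω => dist b (F ω) ^ 2 - 2 * m * dist b (F ω)) P :=
          (hF.int b).sub (hd.const_mul _)
        rw [integral_congr_ae (Filter.Eventually.of_forall h6),
          integral_add g1 (integrable_const _),
          integral_sub (hF.int b) (hd.const_mul _), integral_const_mul, integral_const]
        simp
      rw [h5, ← hm] at h4
      rw [← hm]
      linarith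
    exact h3.trans (integral_mono (hF.int b) hi fun ω => T.ge _ _)
  have e6 : dist b b' ^ 2 ≤ Φ b b' := T.ge _ _
  have e7 : 2 * dist b b' ^ 2 ≤ κ * ε * dist b b' ^ 2 +
      2 * κ * ε * dist b b' * ∫ ω, dist b (F ω) ∂P := by
    have := e3.trans e4
    linarith
  have e8 : κ * ε * dist b b' ^ 2 ≤ 1 * dist b b' ^ 2 :=
    mul_le_mul_of_nonneg_right hε (sq_nonneg _)
  have e9 : dist b b' * dist b b' ≤ dist b b' * (2 * κ * ε * ∫ ω, dist b (F ω) ∂P) := by
    linarith
  have h0 : 0 ≤ 2 * κ * ε := by positivity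
  rcases hd0.eq_or_lt with h | h
  · rw [← h]
    positivity
  · exact (le_of_mul_le_mul_left e9 h).trans (mul_le_mul_of_nonneg_left e5 h0)

end target

variable {n : ℕ} {Γ : Subgroup (SUGroup n)} {Y : Type} [MetricSpace Y]

/-- The probability measure with density `kap s`. -/
noncomputable def kapM (n s : ℕ) : Measure (SUGroup n) :=
  (mu n).withDensity fun x => ENNReal.ofReal (kap s x)

theorem isProb_kapM {s : ℕ} (hs : n < s) : IsProbabilityMeasure (kapM n s) := by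
  refine ⟨?_⟩
  rw [kapM, withDensity_apply _ MeasurableSet.univ, Measure.restrict_univ,
    ← ofReal_integral_eq_lintegral_ofReal (integrable_kap hs)
      (Filter.Eventually.of_forall fun x => kap_nonneg s x), integral_kap hs, ENNReal.ofReal_one]

theorem integral_kapM (s : ℕ) (u : SUGroup n → ℝ) :
    ∫ x, u x ∂(kapM n s) = ∫ x, kap s x * u x ∂(mu n) := by
  have h := integral_withDensity_eq_integral_smul (μ := mu n)
    (f := fun x : SUGroup n => (kap s x).toNNReal) (continuous_kap s).measurable.real_toNNReal u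
  have e : (mu n).withDensity (fun x => (((kap s x).toNNReal : NNReal) : ℝ≥0∞)) = kapM n s := rfl
  rw [e] at h
  rw [h]
  refine integral_congr_ae (Filter.Eventually.of_forall fun x => ?_)
  simp only [NNReal.smul_def, smul_eq_mul, Real.coe_toNNReal _ (kap_nonneg s x)]

theorem lintegral_kapM (s : ℕ) (u : SUGroup n → ℝ≥0∞) :
    ∫⁻ x, u x ∂(kapM n s) = ∫⁻ x, ENNReal.ofReal (kap s x) * u x ∂(mu n) :=
  lintegral_withDensity_eq_lintegral_mul_non_measurable _
    (ENNReal.measurable_ofReal.comp (continuous_kap s).measurable)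
    (Filter.Eventually.of_forall fun _ => ENNReal.ofReal_lt_top) _

/-- The action of `Γ` on the target. -/
structure Acts (ρ : Γ →* Equiv.Perm Y) (Φ : Y → Y → ℝ) (lv : Y → ℝ) : Prop where
  iso : ∀ γ a b, dist (ρ γ a) (ρ γ b) = dist a b
  phi : ∀ γ a b, Φ (ρ γ a) (ρ γ b) = Φ a b
  lv : ∀ γ a, lv (ρ γ a) = lv a

/-- Continuous equivariant maps. -/
structure Eqv (ρ : Γ →* Equiv.Perm Y) (f : SUGroup n → Y) : Prop where
  cont : Continuous f
  kinv : ∀ g k : SUGroup n, ch k = 1 → f (g * k) = f g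
  equi : ∀ (γ : Γ) (g : SUGroup n), f ((γ : SUGroup n) * g) = ρ γ (f g)

/-- Logarithmic growth. -/
def Lg (C : ℝ) (y₀ : Y) (f : SUGroup n → Y) : Prop :=
  ∀ g : SUGroup n, dist y₀ (f g) ≤ C * (1 + Real.log (wt g))

/-- Lipschitz maps. -/
def LipD (L : ℝ) (f : SUGroup n → Y) : Prop :=
  ∀ g x : SUGroup n, dist (f g) (f (g * x)) ≤ L * Real.log (wt x)

/-- `f' = bar_s f`. -/
def Bs (Φ : Y → Y → ℝ) (s : ℕ) (f f' : SUGroup n → Y) : Prop :=
  ∀ g : SUGroup n, IsBar Φ (kapM n s) (fun x => f (g * x)) (f' g)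

/-- The data of part B: the target with the action of `Γ`, the invariant function `lv`, and the
properness `irr` (A9). -/
structure Dat (ρ : Γ →* Equiv.Perm Y) (Φ : Y → Y → ℝ) (κ : ℝ) (lv : Y → ℝ) (y₀ : Y) : Prop where
  tgt : Tgt Φ κ
  act : Acts ρ Φ lv
  up : Jen Φ lv
  dn : Jen Φ fun y => - lv y
  dj : Jen2 Φ dist
  irr : ∃ S : Finset Γ, ∀ C : ℝ, ∃ C' : ℝ, ∀ y : Y, lv y = 0 →
    (∀ γ ∈ S, dist y (ρ γ y) ≤ C) → dist y₀ y ≤ C'

variable {Φ : Y → Y → ℝ} {κ : ℝ} {lv : Y → ℝ} {y₀ : Y} {ρ : Γ →* Equiv.Perm Y}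

theorem Lg.mono {C C' : ℝ} {f : SUGroup n → Y} (h : Lg C y₀ f) (hC : C ≤ C') : Lg C' y₀ f :=
  fun g => (h g).trans (mul_le_mul_of_nonneg_right hC
    (by have := Real.log_nonneg (one_le_wt g); linarith))

/-- Maps of logarithmic growth are square integrable. -/
theorem Lg.sqI {C : ℝ} {f : SUGroup n → Y} (hf : Continuous f) (hg : Lg C y₀ f) {s : ℕ}
    (hs : n + 2 < s) (g : SUGroup n) : SqI (kapM n s) fun x => f (g * x) := by
  have := isProb_kapM (n := n) (s := s) (by omega)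
  have hfc : Continuous fun x : SUGroup n => f (g * x) := hf.comp (continuous_const.mul continuous_id)
  refine ⟨hfc.aestronglyMeasurable, fun y => ?_⟩
  have hint : Integrable (fun x : SUGroup n => ch x ^ 2) (kapM n s) := by
    have h1 : Integrable (fun x : SUGroup n => kap s x * ch x ^ (2 * 1)) (mu n) :=
      integrable_kap_pow (by omega)
    have h2 := integrable_withDensity_iff_integrable_smul' (μ := mu n)
      (f := fun x : SUGroup n => ENNReal.ofReal (kap s x)) (g := fun x : SUGroup n => ch x ^ 2)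
      (ENNReal.measurable_ofReal.comp (continuous_kap s).measurable)
      (Filter.Eventually.of_forall fun _ => ENNReal.ofReal_lt_top)
    refine h2.2 (h1.congr (Filter.Eventually.of_forall fun x => ?_))
    simp only [smul_eq_mul, ENNReal.toReal_ofReal (kap_nonneg s x), mul_one]
  obtain ⟨A, hA⟩ : ∃ A : ℝ, A = 2 * dist y y₀ ^ 2 + 4 * C ^ 2 * (1 + Real.log (wt g)) ^ 2 :=
    ⟨_, rfl⟩
  refine ((integrable_const A).add (hint.const_mul (4 * C ^ 2))).mono'
    ((continuous_const.dist hfc).pow 2).aestronglyMeasurable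
    (Filter.Eventually.of_forall fun x => ?_)
  rw [Real.norm_eq_abs, abs_of_nonneg (sq_nonneg _)]
  simp only [Pi.add_apply]
  have hx0 : 0 ≤ Real.log (wt x) := Real.log_nonneg (one_le_wt x)
  have hg0 : 0 ≤ Real.log (wt g) := Real.log_nonneg (one_le_wt g)
  have h1 : dist y (f (g * x)) ≤ dist y y₀ + C * (1 + Real.log (wt (g * x))) :=
    (dist_triangle _ y₀ _).trans (add_le_add le_rfl (hg _))
  have h2 : Real.log (wt (g * x)) ≤ Real.log (wt g) + Real.log (wt x) := by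
    have hg1 := one_le_wt g
    have hx1 := one_le_wt x
    rw [← Real.log_mul (by linarith) (by linarith)]
    exact Real.log_le_log (by linarith [one_le_wt (g * x)]) (wt_mul_le g x)
  have h3 : Real.log (wt x) ^ 2 ≤ ch x ^ 2 := by
    have h4 := log_wt_le x
    have h5 : 0 ≤ ch x ^ 2 - 1 := by nlinarith [one_le_ch x]
    have h6 := pow_le_pow_left₀ hx0 h4 2
    rw [Real.sq_sqrt h5] at h6
    linarith
  have hC : 0 ≤ C * (1 + Real.log (wt (g * x))) := dist_nonneg.trans (hg (g * x))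
  have hgx0 : 0 ≤ Real.log (wt (g * x)) := Real.log_nonneg (one_le_wt (g * x))
  have h4 : (1 + Real.log (wt (g * x))) ^ 2 ≤ 2 * (1 + Real.log (wt g)) ^ 2 + 2 * ch x ^ 2 := by
    have h5 : 1 + Real.log (wt (g * x)) ≤ (1 + Real.log (wt g)) + Real.log (wt x) := by linarith
    have h6 := pow_le_pow_left₀ (by linarith) h5 2
    nlinarith [sq_nonneg ((1 + Real.log (wt g)) - Real.log (wt x))]
  have h5 : dist y (f (g * x)) ^ 2 ≤ (dist y y₀ + C * (1 + Real.log (wt (g * x)))) ^ 2 :=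
    pow_le_pow_left₀ dist_nonneg h1 2
  have h6 : (C * (1 + Real.log (wt (g * x)))) ^ 2 ≤
      C ^ 2 * (2 * (1 + Real.log (wt g)) ^ 2 + 2 * ch x ^ 2) := by
    rw [mul_pow]
    exact mul_le_mul_of_nonneg_left h4 (sq_nonneg C)
  rw [hA]
  nlinarith [sq_nonneg (dist y y₀ - C * (1 + Real.log (wt (g * x))))]

theorem Bs.jen {C : ℝ} {f f' : SUGroup n → Y} (hf : Continuous f) (hg : Lg C y₀ f) {s : ℕ}
    (hs : n + 2 < s) (h : Bs Φ s f f') {φ : Y → ℝ} (hφ : Jen Φ φ) (g : SUGroup n) :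
    φ (f' g) ≤ Boot.Q s (fun x => φ (f x)) g := by
  have := isProb_kapM (n := n) (s := s) (by omega)
  have h1 := hφ.le (kapM n s) (fun x => f (g * x)) (f' g) (Lg.sqI hf hg hs g) (h g)
  rw [integral_kapM] at h1
  exact h1

theorem Bs.jen2 {C : ℝ} {f f' h h' : SUGroup n → Y} (hf : Continuous f) (hg : Lg C y₀ f)
    (hh : Continuous h) (hg' : Lg C y₀ h) {s : ℕ} (hs : n + 2 < s) (h1 : Bs Φ s f f')
    (h2 : Bs Φ s h h') {D : Y → Y → ℝ} (hD : Jen2 Φ D) (g a : SUGroup n) :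
    D (f' g) (h' a) ≤ ∫ x, kap s x * D (f (g * x)) (h (a * x)) ∂(mu n) := by
  have := isProb_kapM (n := n) (s := s) (by omega)
  have h3 := hD.le (kapM n s) (fun x => f (g * x)) (fun x => h (a * x)) (f' g) (h' a)
    (Lg.sqI hf hg hs g) (Lg.sqI hh hg' hs a) (h1 g) (h2 a)
  rw [integral_kapM] at h3
  exact h3

/-- Jensen functions of one variable from `Jen2`: the distance from a point. -/
theorem Jen2.left {D : Y → Y → ℝ} (T : Tgt Φ κ) (hD : Jen2 Φ D) (y : Y) :
    Jen Φ fun z => D y z := by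
  refine ⟨?_, ?_⟩
  · obtain ⟨K, hK, hlip⟩ := hD.lip
    refine ⟨K, hK, fun a b => ?_⟩
    have h := hlip y y a b
    rw [dist_self, zero_add] at h
    exact h
  · intro Ω _ P _ F b hF hb
    refine hD.le P (fun _ => y) F y b ⟨aestronglyMeasurable_const, fun z => integrable_const _⟩ hF
      (fun z => ?_) hb
    simp only [T.self, integral_const, smul_eq_mul]
    simp

end Pool.Agent.Lib.MP_5d4057_al.IN
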