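import Pool.Agent.Lib.MP_5d4057_al.IN.HadB
import Pool.Agent.Lib.MP_5d4057_al.IN.Tgt

/-! Part B of INT: the abstract target from a `CN` structure (`w = 1`, `μ = P` in `HadB`). -/

namespace Pool.Agent.Lib.MP_5d4057_al.IN

open MeasureTheory Filter Topology

variable {Y : Type} [MetricSpace Y]

theorem SqI.wt {Ω : Type} [MeasurableSpace Ω] {P : Measure Ω} [IsProbabilityMeasure P] {F : Ω → Y}
    (h : SqI P F) : Wt P (fun _ => 1) F where
  nonneg _ := zero_le_one
  int := integrable_const 1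
  one := by simp
  meas := h.meas
  sq y := by simpa using h.int y

theorem IsBar.eq_bar [ProperSpace Y] [Nonempty Y] (H : CN Y) {Ω : Type} [MeasurableSpace Ω]
    {P : Measure Ω} [IsProbabilityMeasure P] {F : Ω → Y} {b : Y} (h : SqI P F)
    (hb : IsBar H.ph P F b) : b = H.bar P (fun _ => 1) F := by
  refine H.eq_bar h.wt fun y => ?_
  have h1 := hb y
  have h2 := H.nonneg y b
  simp only [CN.psi, one_mul]
  linarith

theorem CN.isBar [ProperSpace Y] [Nonempty Y] (H : CN Y) {Ω : Type} [MeasurableSpace Ω]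
    {P : Measure Ω} [IsProbabilityMeasure P] {F : Ω → Y} (h : SqI P F) :
    IsBar H.ph P F (H.bar P (fun _ => 1) F) := by
  intro y
  have h1 := H.bar_spec h.wt y
  simp only [CN.psi, one_mul] at h1
  rw [H.symm y]
  exact h1

theorem CN.tgt [ProperSpace Y] [Nonempty Y] (H : CN Y) : Tgt H.ph H.C where
  one_le := H.one_le
  symm := H.symm
  ge := H.lower
  le := H.upper
  lip := H.lip
  bar _ _ _ h := ⟨_, H.isBar h⟩

theorem CN.jen [ProperSpace Y] [Nonempty Y] (H : CN Y) {φ : Y → ℝ} {K : ℝ} (hK : 0 ≤ K)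
    (hφ : ∀ x y, |φ x - φ y| ≤ K * dist x y) (hc : H.Cvx φ) : Jen H.ph φ where
  lip := ⟨K, hK, hφ⟩
  le P _ F b h hb := by
    rw [IsBar.eq_bar H h hb]
    simpa using H.jensen h.wt hφ hc

theorem CN.jen2 [ProperSpace Y] [Nonempty Y] (H : CN Y) {D : Y → Y → ℝ} {K : ℝ} (hK : 0 ≤ K)
    (hD : ∀ x y x' y', |D x x' - D y y'| ≤ K * (dist x y + dist x' y'))
    (hc : ∀ x y x' y', D (H.mid x y) (H.mid x' y') ≤ (D x x' + D y y') / 2) : Jen2 H.ph D where
  lip := ⟨K, hK, fun a a' b b' => hD a a' b b'⟩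
  le P _ F F' b b' h h' hb hb' := by
    rw [IsBar.eq_bar H h hb, IsBar.eq_bar H h' hb']
    simpa using H.jensen_pair H h.wt h'.wt hD hc

end Pool.Agent.Lib.MP_5d4057_al.IN
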