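import Pool.Agent.Lib.MP_5d4057_al.IN.NmH
import Pool.Agent.Lib.MP_5d4057_al.IN.TgtCN
import Pool.Agent.Lib.MP_5d4057_al.IN.FDef

/-!
# Part B of INT: the data `Dat` for the space of norms

`Y = Nm k V`, `Φ = (nmCN k V).ph = Phi`, `lv = Nm.lv`; the group acts by `nmAct ρ`. Jensen functions:
`log N v`, `log N^j x`, the dual norms, `Dj p j`, `dist`.
-/

namespace Pool.Agent.Lib.MP_5d4057_al.IN

open Module MeasureTheory Filter Topology Pool.Agent.Lib.MP_5d4057_al
open Pool.Agent.Lib.MP_5d4057_al.Hyb Pool.Agent.Lib.MP_5d4057_al.HM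

variable {k : Type} [NontriviallyNormedField k] [IsUltrametricDist k] [ProperSpace k]
  {V : Type} [AddCommGroup V] [Module k V] [FiniteDimensional k V]
  {V' : Type} [AddCommGroup V'] [Module k V'] [FiniteDimensional k V']

section act

variable {n : ℕ} {Γ : Subgroup (SUGroup n)}

/-- The action on the space of norms. -/
noncomputable def nmAct (ρ : Γ →* (V ≃ₗ[k] V)) : Γ →* Equiv.Perm (Nm k V) where
  toFun γ :=
    { toFun := fun N => N.act (ρ γ)
      invFun := fun N => N.act (ρ γ)⁻¹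
      left_inv := fun N => by
        show (N.act (ρ γ)).act (ρ γ)⁻¹ = N
        rw [← Nm.act_mul, inv_mul_cancel, Nm.act_one]
      right_inv := fun N => by
        show (N.act (ρ γ)⁻¹).act (ρ γ) = N
        rw [← Nm.act_mul, mul_inv_cancel, Nm.act_one] }
  map_one' := Equiv.ext fun N => by
    show N.act (ρ 1) = N
    rw [map_one, Nm.act_one]
  map_mul' γ δ := Equiv.ext fun N => by
    show N.act (ρ (γ * δ)) = (N.act (ρ δ)).act (ρ γ)
    rw [map_mul, Nm.act_mul]

omit [IsUltrametricDist k] [ProperSpace k] [FiniteDimensional k V] in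
@[simp] theorem nmAct_apply (ρ : Γ →* (V ≃ₗ[k] V)) (γ : Γ) (N : Nm k V) :
    nmAct ρ γ N = N.act (ρ γ) := rfl

end act

/-! ### Jensen functions -/

theorem abs_lop_id_le (N N' : Nm k V) : lop LinearMap.id N N' ≤ dist N N' := by
  rcases subsingleton_or_nontrivial V with h | h
  · rw [lop_of_subsingleton]
    exact dist_nonneg
  · have h0 : (LinearMap.id : V →ₗ[k] V) ≠ 0 := by
      intro h1
      obtain ⟨v, hv⟩ := exists_ne (0 : V)
      exact hv (by simpa using LinearMap.congr_fun h1 v)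
    refine lop_le h0 fun v _ => ?_
    have h1 := Nm.log_le_dist N N' v
    rw [LinearMap.id_apply]
    linarith [(abs_le.1 h1).1]

theorem dist_le_of_lop {N N' : Nm k V} {r : ℝ} (hr : 0 ≤ r) (h : lop LinearMap.id N N' ≤ r)
    (h' : lop LinearMap.id N' N ≤ r) : dist N N' ≤ r := by
  refine Nm.dist_le (fun v hv => ?_) hr
  have hv' : LinearMap.id (R := k) v ≠ 0 := hv
  have h1 := log_le_lop hv' N N'
  have h2 := log_le_lop hv' N' N
  rw [LinearMap.id_apply] at h1 h2
  rw [abs_le]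
  constructor <;> linarith

/-- Convexity of the distance. -/
theorem dist_mid_le (N₀ N₁ N₀' N₁' : Nm k V) :
    dist ((nmCN k V).mid N₀ N₁) ((nmCN k V).mid N₀' N₁') ≤ (dist N₀ N₀' + dist N₁ N₁') / 2 := by
  rcases subsingleton_or_nontrivial V with h | h
  · have h1 : dist ((nmCN k V).mid N₀ N₁) ((nmCN k V).mid N₀' N₁') ≤ 0 := by
      refine dist_le_of_lop le_rfl ?_ ?_ <;> rw [lop_of_subsingleton]
    have h2 : 0 ≤ (dist N₀ N₀' + dist N₁ N₁') / 2 := by positivity
    exact h1.trans h2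
  · have h0 : (LinearMap.id : V →ₗ[k] V) ≠ 0 := by
      intro h1
      obtain ⟨v, hv⟩ := exists_ne (0 : V)
      exact hv (by simpa using LinearMap.congr_fun h1 v)
    have hm := nmCN_mid (k := k) (V := V) N₀ N₁
    have hm' := nmCN_mid (k := k) (V := V) N₀' N₁'
    refine dist_le_of_lop (by positivity) ?_ ?_
    · refine (hm.lop_le hm' h0).trans ?_
      have := abs_lop_id_le N₀ N₀'
      have := abs_lop_id_le N₁ N₁'
      linarith
    · refine (hm'.lop_le hm h0).trans ?_
      have := abs_lop_id_le N₀' N₀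
      have := abs_lop_id_le N₁' N₁
      rw [dist_comm N₀', dist_comm N₁'] at *
      linarith

theorem isMid_self (N : Nm k V) : IsMid N N N := by
  obtain ⟨b, hb⟩ := exists_orth N
  exact ⟨b, hb, hb, hb, fun i => sq _⟩

theorem jen_lv : Jen (nmCN k V).ph (Nm.lv : Nm k V → ℝ) := by
  refine CN.jen (nmCN k V) (K := finrank k V) (Nat.cast_nonneg _) Nm.lv_lip fun N N' => ?_
  rw [(nmCN_mid N N').lv]

theorem jen_neg_lv : Jen (nmCN k V).ph (fun N : Nm k V => - N.lv) := by
  refine CN.jen (nmCN k V) (K := finrank k V) (Nat.cast_nonneg _) (fun N N' => ?_) fun N N' => ?_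
  · have h := Nm.lv_lip N N'
    rwa [← abs_neg, show -(-N.lv - -N'.lv) = N.lv - N'.lv by ring]
  · rw [(nmCN_mid N N').lv]
    linarith

theorem jen2_dist : Jen2 (nmCN k V).ph (fun N N' : Nm k V => dist N N') := by
  refine CN.jen2 (nmCN k V) zero_le_one (fun x y x' y' => ?_) fun x y x' y' => dist_mid_le x y x' y'
  rw [one_mul, abs_le]
  constructor
  · have h1 := dist_triangle y x y'
    have h2 := dist_triangle x x' y'
    rw [dist_comm y x] at h1
    linarith
  · have h1 := dist_triangle x y x'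
    have h2 := dist_triangle y y' x'
    rw [dist_comm y' x'] at h2
    linarith

/-- The logarithm of the norm of a vector. -/
theorem jen_log {v : V} (hv : v ≠ 0) : Jen (nmCN k V).ph fun N : Nm k V => Real.log (N v) :=
  CN.jen (nmCN k V) zero_le_one (fun N N' => by rw [one_mul]; exact Nm.log_le_dist N N' v)
    (cvx_log hv)

theorem jen_log_ext {j : ℕ} {x : ⋀[k]^j V} (hx : x ≠ 0) :
    Jen (nmCN k V).ph fun N : Nm k V => Real.log (N.ext j x) :=
  CN.jen (nmCN k V) (K := j) (Nat.cast_nonneg _)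
    (fun N N' => (Nm.log_le_dist _ _ x).trans (Nm.dist_ext N N' j)) (cvx_log_ext hx)

/-- The logarithm of the dual norm of a linear form (more generally of the operator norm of a map
to a fixed normed space) on the exterior power. -/
theorem jen_lop_ext {j : ℕ} {T : ⋀[k]^j V →ₗ[k] V'} (hT : T ≠ 0) (N₁ : Nm k V') :
    Jen (nmCN k V).ph fun N : Nm k V => lop T (N.ext j) N₁ := by
  refine CN.jen (nmCN k V) (K := j) (Nat.cast_nonneg _) (fun N N' => ?_) fun N N' => ?_
  · have h := lop_lip hT (N.ext j) (N'.ext j) N₁ N₁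
    rw [dist_self, add_zero] at h
    exact h.trans (Nm.dist_ext N N' j)
  · have h1 := isMid_self N₁
    exact ((nmCN_mid N N').ext j).lop_le h1 hT

/-- The logarithm of the dual norm of a linear form. -/
theorem jen_lop {T : V →ₗ[k] V'} (hT : T ≠ 0) (N₁ : Nm k V') :
    Jen (nmCN k V).ph fun N : Nm k V => lop T N N₁ := by
  refine CN.jen (nmCN k V) (K := 1) zero_le_one (fun N N' => ?_) fun N N' => ?_
  · have h := lop_lip hT N N' N₁ N₁
    rwa [dist_self, add_zero, ← one_mul (dist N N')] at h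
  · exact (nmCN_mid N N').lop_le (isMid_self N₁) hT

theorem jen2_Dj {p : V →ₗ[k] V} {j : ℕ} (hp : exteriorPower.map j p ≠ 0) :
    Jen2 (nmCN k V).ph fun N N' : Nm k V => Dj p j N N' :=
  CN.jen2 (nmCN k V) (K := j) (Nat.cast_nonneg _)
    (fun x y x' y' => (Dj_lip hp x y x' y'))
    fun x y x' y' => (nmCN_mid x y).Dj_le (nmCN_mid x' y') hp

/-! ### Volume one -/

theorem Nm.dist_scale (N N' : Nm k V) (c c' : ℝ) (hc : 0 < c) (hc' : 0 < c') :
    dist (N.scale c hc) (N'.scale c' hc') ≤ dist N N' + |Real.log c - Real.log c'| := by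
  refine Nm.dist_le (fun v hv => ?_) (add_nonneg dist_nonneg (abs_nonneg _))
  have h1 : Real.log (N.scale c hc v) = Real.log c + Real.log (N v) :=
    Real.log_mul hc.ne' (N.pos hv).ne'
  have h2 : Real.log (N'.scale c' hc' v) = Real.log c' + Real.log (N' v) :=
    Real.log_mul hc'.ne' (N'.pos hv).ne'
  rw [h1, h2]
  have h3 := Nm.log_le_dist N N' v
  calc |Real.log c + Real.log (N v) - (Real.log c' + Real.log (N' v))| =
        |(Real.log (N v) - Real.log (N' v)) + (Real.log c - Real.log c')| := by ring_nf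
    _ ≤ |Real.log (N v) - Real.log (N' v)| + |Real.log c - Real.log c'| := abs_add_le _ _
    _ ≤ _ := by linarith

theorem Nm.lv_scale (N : Nm k V) (c : ℝ) (hc : 0 < c) :
    (N.scale c hc).lv = N.lv + finrank k V * Real.log c := by
  obtain ⟨b, hb⟩ := exists_orth N
  have hb' : IsOrth (N.scale c hc) b := by
    intro v i
    have h1 := hb v i
    show ‖b.repr v i‖ * (c * N (b i)) ≤ c * N v
    nlinarith
  have h := lv_sub hb hb'
  have h1 : ∀ i, Real.log ((N.scale c hc) (b i) / N (b i)) = Real.log c := by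
    intro i
    congr 1
    show c * N (b i) / N (b i) = c
    rw [mul_div_assoc, div_self (N.pos (b.ne_zero i)).ne', mul_one]
  rw [Finset.sum_congr rfl fun i _ => h1 i, Finset.sum_const, Finset.card_univ, Fintype.card_fin,
    nsmul_eq_mul] at h
  linarith

/-- Normalisation of the volume. -/
noncomputable def Nm.nrm (N : Nm k V) : Nm k V :=
  N.scale (Real.exp (-N.lv / finrank k V)) (Real.exp_pos _)

theorem Nm.lv_nrm (hV : 0 < finrank k V) (N : Nm k V) : N.nrm.lv = 0 := by
  have h : (finrank k V : ℝ) ≠ 0 := by exact_mod_cast hV.ne'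
  rw [Nm.nrm, Nm.lv_scale, Real.log_exp]
  field_simp
  ring

theorem Nm.dist_nrm (N N' : Nm k V) : dist N.nrm N'.nrm ≤ 2 * dist N N' := by
  refine (Nm.dist_scale _ _ _ _ _ _).trans ?_
  rw [Real.log_exp, Real.log_exp]
  have h1 := Nm.lv_lip N N'
  have h2 : |-N.lv / finrank k V - -N'.lv / finrank k V| ≤ dist N N' := by
    rcases (Nat.cast_nonneg (finrank k V) : (0 : ℝ) ≤ _).eq_or_lt with h | h
    · rw [← h]
      simp
    · rw [← sub_div, abs_div, abs_of_pos h, div_le_iff₀ h,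
        show -N.lv - -N'.lv = -(N.lv - N'.lv) by ring, abs_neg, mul_comm]
      exact h1
  linarith

theorem Nm.nrm_act (N : Nm k V) (e : V ≃ₗ[k] V) (he : ‖LinearMap.det (e : V →ₗ[k] V)‖ = 1) :
    (N.act e).nrm = N.nrm.act e := by
  refine Nm.ext' fun v => ?_
  show Real.exp (-(N.act e).lv / finrank k V) * N (e.symm v) =
    Real.exp (-N.lv / finrank k V) * N (e.symm v)
  rw [Nm.lv_act N e he]

/-- There are norms of volume one. -/
theorem exists_lv_zero (hV : 0 < finrank k V) : ∃ N : Nm k V, N.lv = 0 := by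
  obtain ⟨N⟩ : Nonempty (Nm k V) := inferInstance
  exact ⟨N.nrm, N.lv_nrm hV⟩

/-! ### The data -/

variable {n : ℕ} {Γ : Subgroup (SUGroup n)} {ρ : Γ →* (V ≃ₗ[k] V)}

theorem nm_acts (hd : ∀ γ : Γ, ‖LinearMap.det (ρ γ : V →ₗ[k] V)‖ = 1) :
    Acts (nmAct ρ) (nmCN k V).ph Nm.lv where
  iso _ a b := Nm.dist_act _ a b
  phi _ a b := Phi_act _ a b
  lv γ a := Nm.lv_act a _ (hd γ)

theorem nm_irr (h : Rep ρ) (N₀ : Nm k V) (h0 : N₀.lv = 0) :
    ∃ S : Finset Γ, ∀ C : ℝ, ∃ C' : ℝ, ∀ N : Nm k V, N.lv = 0 →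
      (∀ γ ∈ S, dist N (nmAct ρ γ N) ≤ C) → dist N₀ N ≤ C' := by
  classical
  have hfg : (Submodule.span k (Set.range fun γ : Γ => (ρ γ : V →ₗ[k] V))).FG := by
    rw [h.span]
    exact Module.finite_def.1 inferInstance
  obtain ⟨t, ht, hs⟩ := (Submodule.fg_span_iff_fg_span_finset_subset _).1 hfg
  have hT : Submodule.span k (Set.range fun i : Fin t.card => ((t.equivFin.symm i : t) :
      V →ₗ[k] V)) = ⊤ := by
    rw [← h.span, hs]
    congr 1
    ext x
    constructor
    · rintro ⟨i, rfl⟩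
      exact (t.equivFin.symm i).2
    · intro hx
      exact ⟨t.equivFin ⟨x, hx⟩, by simp⟩
  have hγ : ∀ i : Fin t.card, ∃ γ : Γ, (ρ γ : V →ₗ[k] V) = ((t.equivFin.symm i : t) : V →ₗ[k] V) :=
    fun i => ht (t.equivFin.symm i).2
  choose γ hγ using hγ
  refine ⟨Finset.univ.image γ, fun C => ?_⟩
  obtain ⟨C', hC'⟩ := irr_bound _ hT N₀ C
  refine ⟨C', fun N hN hd => ?_⟩
  rw [dist_comm]
  refine hC' N (hN.trans h0.symm) fun i => ?_
  rw [← hγ i]
  refine (opn_le_exp_dist (ρ (γ i)) N).trans (Real.exp_le_exp.2 ?_)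
  rw [dist_comm]
  exact hd (γ i) (Finset.mem_image_of_mem _ (Finset.mem_univ i))

/-- **The data of part B for the space of norms.** -/
theorem nmDat (h : Rep ρ) (N₀ : Nm k V) (h0 : N₀.lv = 0) :
    Dat (nmAct ρ) (nmCN k V).ph (nmCN k V).C Nm.lv N₀ where
  tgt := (nmCN k V).tgt
  act := nm_acts h.det
  up := jen_lv
  dn := jen_neg_lv
  dj := jen2_dist
  irr := nm_irr h N₀ h0

end Pool.Agent.Lib.MP_5d4057_al.IN
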