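import Pool.Agent.Lib.MP_5d4057_al.IN.LimC
import Pool.Agent.Lib.MP_5d4057_al.IN.AppY
import Pool.Agent.Lib.MP_5d4057_al.IN.NmDat
import Pool.Agent.Lib.MP_5d4057_al.HM.Kak

/-! The limit map of part B satisfies `LimC`. -/

set_option autoImplicit false

namespace Pool.Agent.Lib.MP_5d4057_al.IN

open Matrix MeasureTheory Filter Topology Module Pool.Agent.Lib.MP_5d4057_al
  Pool.Agent.Lib.MP_5d4057_al.Hyb Pool.Agent.Lib.MP_5d4057_al.HM

variable {n : ℕ}

section growth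

variable {Y : Type} [MetricSpace Y] {Φ : Y → Y → ℝ} {κ : ℝ} {y₀ : Y} {f : SUGroup n → Y} {C : ℝ}
  {s : ℕ → ℕ} {a b : ℕ → SUGroup n → Y}

theorem App.cont (h : App Φ y₀ f C s a b) : Continuous f :=
  h.la.continuous (Frequently.of_forall h.ca)

theorem App.tends_at (h : App Φ y₀ f C s a b) (g : SUGroup n) :
    Tendsto (fun j => a j g) atTop (𝓝 (f g)) :=
  (tendstoLocallyUniformlyOn_univ.2 h.la).tendsto_at (Set.mem_univ g)

theorem App.kinv (h : App Φ y₀ f C s a b) (g x : SUGroup n) (hx : ch x = 1) : f (g * x) = f g := by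
  have h1 := h.tends_at (g * x)
  have h2 := h.tends_at g
  have h3 : (fun j => a j (g * x)) = fun j => a j g := funext fun j => h.ka j g x hx
  rw [h3] at h1
  exact tendsto_nhds_unique h1 h2

theorem App.Lg (h : App Φ y₀ f C s a b) : IN.Lg C y₀ f := by
  intro g
  have h1 : Tendsto (fun j => dist y₀ (a j g)) atTop (𝓝 (dist y₀ (f g))) :=
    tendsto_const_nhds.dist (h.tends_at g)
  exact le_of_tendsto' h1 fun j => h.ga j g

private theorem lc_log_wt_nonneg (x : SUGroup n) : 0 ≤ Real.log (wt x) := Real.log_nonneg (one_le_wt x)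

/-- Logarithmic growth against `ch ^ 2`. -/
theorem log_wt_le_ch (x : SUGroup n) : 1 + Real.log (wt x) ≤ 3 * ch x ^ 2 := by
  have h0 : 0 < wt x := lt_of_lt_of_le one_pos (one_le_wt x)
  have h1 := Real.log_le_sub_one_of_pos h0
  have h2 := wt_le x
  have h3 := one_le_ch x
  nlinarith

theorem Lg.nonneg (h : Lg C y₀ f) : 0 ≤ C := by
  have h1 := (dist_nonneg).trans (h 1)
  rw [wt_one, Real.log_one] at h1
  linarith

theorem Lg.le_ch (h : Lg C y₀ f) (g : SUGroup n) : dist y₀ (f g) ≤ 3 * C * ch g ^ 2 := by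
  refine (h g).trans ?_
  have h1 := mul_le_mul_of_nonneg_left (log_wt_le_ch g) h.nonneg
  linarith

/-- Sub mean value property of Jensen functions of the limit map for the local averages. -/
theorem App.le_AA (hn : 1 ≤ n) (T : Tgt Φ κ) (h : App Φ y₀ f C s a b) {φ : Y → ℝ} (hφ : Jen Φ φ)
    {r : ℝ} (hr : 0 < r) (hr1 : r < 1) (g : SUGroup n) :
    φ (f g) ≤ AA r (fun x => φ (f x)) g := by
  obtain ⟨t₀, ht₀⟩ := App.sub n
  obtain ⟨K, hK, hlip⟩ := hφ.lip
  have hφc : Continuous φ := by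
    refine (LipschitzWith.of_dist_le_mul (K := ⟨K, hK⟩) fun x y => ?_).continuous
    rw [Real.dist_eq]
    exact hlip x y
  have hC := h.Lg.nonneg
  refine IN.le_AA hn (N := 1) (C := |φ y₀| + K * (3 * C)) (t₀ := t₀) (hφc.comp h.cont)
    (fun g x hx => ?_) (fun g => ?_) (fun t ht g => ?_) hr hr1 g
  · show φ (f (g * x)) = φ (f g)
    rw [h.kinv g x hx]
  · show |φ (f g)| ≤ _
    have h1 : |φ (f g)| ≤ |φ y₀| + K * dist y₀ (f g) := by
      have h2 := hlip (f g) y₀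
      rw [dist_comm] at h2
      calc |φ (f g)| = |φ y₀ + (φ (f g) - φ y₀)| := by rw [add_sub_cancel]
        _ ≤ |φ y₀| + |φ (f g) - φ y₀| := abs_add_le _ _
        _ ≤ _ := by linarith
    have h2 := h.Lg.le_ch g
    have h3 : 1 ≤ ch g ^ 2 := one_le_pow₀ (one_le_ch g)
    have h4 := mul_le_mul_of_nonneg_left h2 hK
    have h5 : |φ y₀| ≤ |φ y₀| * ch g ^ 2 := le_mul_of_one_le_right (abs_nonneg _) h3
    rw [mul_one]
    nlinarith
  · exact ht₀ t ht T f C s a b h φ hφ g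

theorem App.le_AA2 (hn : 1 ≤ n) (T : Tgt Φ κ) (h : App Φ y₀ f C s a b) {D : Y → Y → ℝ}
    (hD : Jen2 Φ D) (c : SUGroup n) {r : ℝ} (hr : 0 < r) (hr1 : r < 1) (g : SUGroup n) :
    D (f g) (f (c * g)) ≤ AA r (fun x => D (f x) (f (c * x))) g := by
  obtain ⟨t₀, ht₀⟩ := App.sub2 n
  obtain ⟨K, hK, hlip⟩ := hD.lip
  obtain ⟨C', h'⟩ := h.left c
  have hDc : Continuous fun q : Y × Y => D q.1 q.2 := by
    refine (LipschitzWith.of_dist_le_mul (K := ⟨K * 2, by positivity⟩) fun x y => ?_).continuous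
    rw [Real.dist_eq]
    refine (hlip x.1 y.1 x.2 y.2).trans ?_
    show _ ≤ K * 2 * dist x y
    rw [mul_assoc]
    refine mul_le_mul_of_nonneg_left ?_ hK
    have h1 : dist x.1 y.1 ≤ dist x y := le_max_left _ _
    have h2 : dist x.2 y.2 ≤ dist x y := le_max_right _ _
    linarith
  have hC := h.Lg.nonneg
  have hC' := h'.Lg.nonneg
  refine IN.le_AA hn (N := 1) (C := |D y₀ y₀| + K * (3 * (C + C'))) (t₀ := t₀)
    (hDc.comp (h.cont.prodMk h'.cont)) (fun g x hx => ?_) (fun g => ?_) (fun t ht g => ?_) hr hr1 g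
  · show D (f (g * x)) (f (c * (g * x))) = D (f g) (f (c * g))
    rw [h.kinv g x hx, ← _root_.mul_assoc, h.kinv (c * g) x hx]
  · show |D (f g) (f (c * g))| ≤ _
    have h1 : |D (f g) (f (c * g))| ≤
        |D y₀ y₀| + K * (dist y₀ (f g) + dist y₀ (f (c * g))) := by
      have h2 := hlip (f g) y₀ (f (c * g)) y₀
      rw [dist_comm, dist_comm (f (c * g))] at h2
      calc |D (f g) (f (c * g))| = |D y₀ y₀ + (D (f g) (f (c * g)) - D y₀ y₀)| := by
            rw [add_sub_cancel]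
        _ ≤ |D y₀ y₀| + |D (f g) (f (c * g)) - D y₀ y₀| := abs_add_le _ _
        _ ≤ _ := by linarith
    have h2 := h.Lg.le_ch g
    have h2' := h'.Lg.le_ch g
    have h3 : 1 ≤ ch g ^ 2 := one_le_pow₀ (one_le_ch g)
    have h4 := mul_le_mul_of_nonneg_left (add_le_add h2 h2') hK
    have h5 : |D y₀ y₀| ≤ |D y₀ y₀| * ch g ^ 2 := le_mul_of_one_le_right (abs_nonneg _) h3
    rw [mul_one]
    nlinarith
  · exact ht₀ t ht T f C s a b h D hD c g

/-- Local Lipschitz bounds from a global one. -/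
theorem loc_of_lipD {L : ℝ} (h : LipD L f) (g : SUGroup n) : ∃ Λ r : ℝ, 0 ≤ Λ ∧ 0 < r ∧
    ∀ x y : SUGroup n, hq x ≤ r ^ 2 → hq y ≤ r ^ 2 → dist (f (g * x)) (f (g * y)) ≤ Λ * dd x y := by
  refine ⟨2 * |L|, 1 / 4, by positivity, by norm_num, fun x y hx hy => ?_⟩
  have hq0 : ∀ z : SUGroup n, 0 ≤ hq z := fun z => by rw [← nr_zc_sq]; exact sq_nonneg _
  have e1 : ∀ z : SUGroup n, dd z 1 = Real.sqrt (hq z) := fun z => by
    rw [dd_comm, dd, inv_one, _root_.one_mul]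
  have h1 : dd x y ≤ 1 / 2 := by
    have h2 := dd_triangle x 1 y
    rw [dd_comm 1 y, e1, e1] at h2
    have h3 : Real.sqrt (hq x) ≤ 1 / 4 := Real.sqrt_le_iff.2 ⟨by norm_num, hx⟩
    have h4 : Real.sqrt (hq y) ≤ 1 / 4 := Real.sqrt_le_iff.2 ⟨by norm_num, hy⟩
    linarith
  have h2 : hq (x⁻¹ * y) ≤ 1 / 4 := by
    have h3 : Real.sqrt (hq (x⁻¹ * y)) ≤ 1 / 2 := h1
    have h4 := (Real.sqrt_le_left (by norm_num)).1 h3
    linarith
  have h3 := log_wt_le_sqrt h2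
  have h4 := h (g * x) (x⁻¹ * y)
  have e2 : g * x * (x⁻¹ * y) = g * y := by group
  rw [e2] at h4
  calc dist (f (g * x)) (f (g * y)) ≤ L * Real.log (wt (x⁻¹ * y)) := h4
    _ ≤ |L| * Real.log (wt (x⁻¹ * y)) :=
        mul_le_mul_of_nonneg_right (le_abs_self L) (lc_log_wt_nonneg _)
    _ ≤ |L| * (2 * Real.sqrt (hq (x⁻¹ * y))) := mul_le_mul_of_nonneg_left h3 (abs_nonneg L)
    _ = 2 * |L| * dd x y := by rw [dd]; ring

end growth

section main

variable {k : Type} [NontriviallyNormedField k] [IsUltrametricDist k] [ProperSpace k]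
  {V : Type} [AddCommGroup V] [Module k V] [FiniteDimensional k V]

/-- **`LimC` from the approximations.** -/
theorem App.limC (hn : 1 ≤ n) {y₀ : Nm k V} {f : SUGroup n → Nm k V} {C : ℝ} {s : ℕ → ℕ}
    {a b : ℕ → SUGroup n → Nm k V} (h : App (nmCN k V).ph y₀ f C s a b)
    (hlv : ∀ g, (f g).lv = 0)
    (hlip : ∀ g : SUGroup n, ∃ Λ r : ℝ, 0 ≤ Λ ∧ 0 < r ∧ ∀ x y : SUGroup n, hq x ≤ r ^ 2 →
      hq y ≤ r ^ 2 → dist (f (g * x)) (f (g * y)) ≤ Λ * dd x y) : LimC f where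
  cont := h.cont
  kinv := h.kinv
  lv := hlv
  lip := hlip
  sub_ext j ω hω r g hr hr1 := h.le_AA hn (nmCN k V).tgt (jen_log_ext hω) hr hr1 g
  sub_dual j ξ hξ r g hr hr1 := h.le_AA hn (nmCN k V).tgt (jen_lop_ext hξ (Nm.abs k)) hr hr1 g
  sub_pair p j hp c r g hr hr1 := h.le_AA2 hn (nmCN k V).tgt (jen2_Dj hp) c hr hr1 g
  mir p j hp := by
    have h1 : ∀ u : SUGroup n → Nm k V, IN.Lg C y₀ u →
        ∀ g, dist y₀ (u g) ≤ 3 * C * ch g ^ (2 * 1) := fun u hu g => by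
      rw [mul_one]
      exact hu.le_ch g
    exact mir_of_pairs hn (nmCN k V).tgt h.tends h.ca h.cb h.ka h.kb (fun j => h1 _ (h.ga j))
      (fun j => h1 _ (h.gb j)) h.ab h.ba h.la h.lb (jen2_Dj hp)

end main

end Pool.Agent.Lib.MP_5d4057_al.IN
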