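import Pool.Agent.Lib.MP_5d4057_al.IN.Tgt

/-! Part B of INT for all lattices: barycentres of two points, and equivariant choices. -/

namespace Pool.Agent.Lib.MP_5d4057_al.IN

open MeasureTheory Filter Topology Pool.Agent.Lib.MP_5d4057_al
open Pool.Agent.Lib.MP_5d4057_al.Hyb Pool.Agent.Lib.MP_5d4057_al.HM

open scoped ENNReal

section two

variable {Y : Type} [MetricSpace Y] {Φ : Y → Y → ℝ} {κ : ℝ}

/-- `b` is the barycentre of `A` with weight `1 - θ` and `N` with weight `θ`. -/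
def IsTwo (Φ : Y → Y → ℝ) (θ : ℝ) (A N b : Y) : Prop :=
  ∀ y, (1 - θ) * Φ b A + θ * Φ b N + Φ y b ≤ (1 - θ) * Φ y A + θ * Φ y N

/-- the two point measure -/
private noncomputable def twoM (θ : ℝ) : Measure Bool :=
  ENNReal.ofReal (1 - θ) • Measure.dirac false + ENNReal.ofReal θ • Measure.dirac true

private theorem twoM_prob {θ : ℝ} (h0 : 0 ≤ θ) (h1 : θ ≤ 1) : IsProbabilityMeasure (twoM θ) := by
  refine ⟨?_⟩
  rw [twoM, Measure.add_apply, Measure.smul_apply, Measure.smul_apply, Measure.dirac_apply_of_mem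
    (Set.mem_univ _), Measure.dirac_apply_of_mem (Set.mem_univ _), smul_eq_mul, smul_eq_mul, mul_one,
    mul_one, ← ENNReal.ofReal_add (by linarith) h0, sub_add_cancel, ENNReal.ofReal_one]

private theorem twoM_int {θ : ℝ} (h0 : 0 ≤ θ) (h1 : θ ≤ 1) (f : Bool → ℝ) :
    ∫ ω, f ω ∂(twoM θ) = (1 - θ) * f false + θ * f true := by
  have i1 : Integrable f (ENNReal.ofReal (1 - θ) • Measure.dirac false) :=
    (Integrable.of_finite (f := f) (μ := Measure.dirac false)).smul_measure ENNReal.ofReal_ne_top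
  have i2 : Integrable f (ENNReal.ofReal θ • Measure.dirac true) :=
    (Integrable.of_finite (f := f) (μ := Measure.dirac true)).smul_measure ENNReal.ofReal_ne_top
  rw [twoM, integral_add_measure i1 i2, integral_smul_measure, integral_smul_measure,
    integral_dirac, integral_dirac, ENNReal.toReal_ofReal (by linarith), ENNReal.toReal_ofReal h0]
  rfl

private theorem twoM_sqI {θ : ℝ} (h0 : 0 ≤ θ) (h1 : θ ≤ 1) (A N : Y) :
    SqI (twoM θ) (fun ω : Bool => cond ω N A) := by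
  have := twoM_prob h0 h1
  exact ⟨StronglyMeasurable.of_discrete.aestronglyMeasurable, fun y => Integrable.of_finite⟩

private theorem isTwo_iff {θ : ℝ} (h0 : 0 ≤ θ) (h1 : θ ≤ 1) (A N b : Y) :
    IsTwo Φ θ A N b ↔ IsBar Φ (twoM θ) (fun ω : Bool => cond ω N A) b := by
  unfold IsTwo IsBar
  refine forall_congr' fun y => ?_
  rw [twoM_int h0 h1, twoM_int h0 h1]
  rfl

/-- PROOF: `Tgt.bar` for the measure `(1 - θ) δ_false + θ δ_true` on `Bool` and `cond · N A`. -/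
theorem exists_two (T : Tgt Φ κ) {θ : ℝ} (h0 : 0 ≤ θ) (h1 : θ ≤ 1) (A N : Y) :
    ∃ b, IsTwo Φ θ A N b := by
  have := twoM_prob h0 h1
  obtain ⟨b, hb⟩ := T.bar (twoM θ) (fun ω : Bool => cond ω N A) (twoM_sqI h0 h1 A N)
  exact ⟨b, (isTwo_iff h0 h1 A N b).2 hb⟩

theorem IsTwo.unique (T : Tgt Φ κ) {θ : ℝ} {A N b b' : Y} (h : IsTwo Φ θ A N b)
    (h' : IsTwo Φ θ A N b') : b = b' := by
  have h1 := h b'
  have h2 := h' b
  have h3 := T.nonneg b b'
  exact T.eq (by linarith [T.symm b b'])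

theorem isTwo_zero (T : Tgt Φ κ) (A N : Y) : IsTwo Φ 0 A N A := by
  intro y
  rw [T.self]
  linarith

theorem isTwo_one (T : Tgt Φ κ) (A N : Y) : IsTwo Φ 1 A N N := by
  intro y
  rw [T.self]
  linarith

/-- PROOF: `Jen2 Φ dist` for the measure of `exists_two`, `F = cond · N A`, `F' = cond · N A'`. -/
theorem IsTwo.dist_left (T : Tgt Φ κ) (hd : Jen2 Φ dist) {θ : ℝ} (h0 : 0 ≤ θ) (h1 : θ ≤ 1)
    {A A' N b b' : Y} (h : IsTwo Φ θ A N b) (h' : IsTwo Φ θ A' N b') :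
    dist b b' ≤ dist A A' := by
  have := twoM_prob h0 h1
  have e := hd.le (twoM θ) (fun ω : Bool => cond ω N A) (fun ω : Bool => cond ω N A') b b'
    (twoM_sqI h0 h1 A N) (twoM_sqI h0 h1 A' N) ((isTwo_iff h0 h1 A N b).1 h)
    ((isTwo_iff h0 h1 A' N b').1 h')
  rw [twoM_int h0 h1] at e
  simp only [cond_false, cond_true, dist_self, mul_zero, add_zero] at e
  have := dist_nonneg (x := A) (y := A')
  nlinarith

private theorem isTwo_dist (T : Tgt Φ κ) (hd : Jen2 Φ dist) {θ : ℝ} (h0 : 0 ≤ θ) (h1 : θ ≤ 1)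
    {A N b : Y} (h : IsTwo Φ θ A N b) (y : Y) :
    dist b y ≤ (1 - θ) * dist A y + θ * dist N y := by
  have := twoM_prob h0 h1
  have hy : IsTwo Φ θ y y y := by
    intro z
    rw [T.self]
    linarith
  have e := hd.le (twoM θ) (fun ω : Bool => cond ω N A) (fun ω : Bool => cond ω y y) b y
    (twoM_sqI h0 h1 A N) (twoM_sqI h0 h1 y y) ((isTwo_iff h0 h1 A N b).1 h)
    ((isTwo_iff h0 h1 y y y).1 hy)
  rw [twoM_int h0 h1] at e
  exact e

/-- PROOF: add `h b'` and `h' b`: `2 Φ b b' ≤ (θ' - θ) ((Φ b' A - Φ b A) - (Φ b' N - Φ b N))`, by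
`Tgt.lip` at most `|θ' - θ| κ dist b b' (dist b' A + dist b A + dist b' N + dist b N)`, and all these
distances are at most `dist A N` (`Jen2` against the constants `A`, `N`). -/
theorem IsTwo.dist_wt (T : Tgt Φ κ) (hd : Jen2 Φ dist) {θ θ' : ℝ} (h0 : 0 ≤ θ) (h1 : θ ≤ 1)
    (h0' : 0 ≤ θ') (h1' : θ' ≤ 1) {A N b b' : Y} (h : IsTwo Φ θ A N b) (h' : IsTwo Φ θ' A N b') :
    dist b b' ≤ 2 * κ * |θ - θ'| * dist A N := by
  have hκ0 : 0 ≤ κ := zero_le_one.trans T.one_le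
  have e1 := h b'
  have e2 := h' b
  have e3 := T.symm b' b
  have d1 := isTwo_dist T hd h0 h1 h A
  have d2 := isTwo_dist T hd h0 h1 h N
  have d3 := isTwo_dist T hd h0' h1' h' A
  have d4 := isTwo_dist T hd h0' h1' h' N
  rw [dist_self, dist_comm N A] at d1 d3
  rw [dist_self] at d2 d4
  have l1 := T.lip b' b A
  have l2 := T.lip b' b N
  rw [dist_comm b' b] at l1 l2
  have hbb : 0 ≤ dist b b' := dist_nonneg
  have hAN : 0 ≤ dist A N := dist_nonneg
  have e4 : 2 * Φ b b' ≤ (θ' - θ) * ((Φ b' A - Φ b A) - (Φ b' N - Φ b N)) := by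
    linarith
  have e5 : (θ' - θ) * ((Φ b' A - Φ b A) - (Φ b' N - Φ b N)) ≤
      |θ - θ'| * (κ * dist b b' * (2 * dist A N)) := by
    calc (θ' - θ) * ((Φ b' A - Φ b A) - (Φ b' N - Φ b N))
        ≤ |(θ' - θ) * ((Φ b' A - Φ b A) - (Φ b' N - Φ b N))| := le_abs_self _
      _ = |θ - θ'| * |(Φ b' A - Φ b A) - (Φ b' N - Φ b N)| := by rw [abs_mul, abs_sub_comm θ' θ]
      _ ≤ |θ - θ'| * (κ * dist b b' * (2 * dist A N)) := by
          refine mul_le_mul_of_nonneg_left ?_ (abs_nonneg _)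
          calc |(Φ b' A - Φ b A) - (Φ b' N - Φ b N)| ≤ |Φ b' A - Φ b A| + |Φ b' N - Φ b N| :=
                abs_sub _ _
            _ ≤ κ * dist b b' * (dist b' A + dist b A) + κ * dist b b' * (dist b' N + dist b N) :=
                add_le_add l1 l2
            _ = κ * dist b b' * ((dist b' A + dist b A) + (dist b' N + dist b N)) := by ring
            _ ≤ _ := by
                refine mul_le_mul_of_nonneg_left ?_ (mul_nonneg hκ0 hbb)
                linarith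
  have e6 : dist b b' ^ 2 ≤ Φ b b' := T.ge _ _
  have e7 : dist b b' * dist b b' ≤ dist b b' * (κ * |θ - θ'| * dist A N) := by
    nlinarith
  have h8 : 0 ≤ κ * |θ - θ'| * dist A N := mul_nonneg (mul_nonneg hκ0 (abs_nonneg _)) hAN
  rcases hbb.eq_or_lt with h9 | h9
  · rw [← h9]
    linarith
  · have := le_of_mul_le_mul_left e7 h9
    linarith

/-- PROOF: `Jen` for `lv` and `-lv`. -/
theorem IsTwo.lv_eq (T : Tgt Φ κ) {lv : Y → ℝ} (hu : Jen Φ lv) (hv : Jen Φ fun y => - lv y) {θ : ℝ}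
    (h0 : 0 ≤ θ) (h1 : θ ≤ 1) {A N b : Y} (h : IsTwo Φ θ A N b) (hA : lv A = 0) (hN : lv N = 0) :
    lv b = 0 := by
  have := twoM_prob h0 h1
  have hb := (isTwo_iff h0 h1 A N b).1 h
  have e1 := hu.le (twoM θ) (fun ω : Bool => cond ω N A) b (twoM_sqI h0 h1 A N) hb
  have e2 := hv.le (twoM θ) (fun ω : Bool => cond ω N A) b (twoM_sqI h0 h1 A N) hb
  rw [twoM_int h0 h1] at e1 e2
  simp only [cond_false, cond_true, hA, hN] at e1 e2
  linarith

theorem IsTwo.map {θ : ℝ} {A N b : Y} (h : IsTwo Φ θ A N b) (e : Equiv.Perm Y)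
    (he : ∀ a b, Φ (e a) (e b) = Φ a b) : IsTwo Φ θ (e A) (e N) (e b) := by
  intro y
  have h1 := h (e.symm y)
  have h2 : ∀ z, Φ (e.symm y) z = Φ y (e z) := by
    intro z
    rw [← he (e.symm y) z, Equiv.apply_symm_apply]
  rw [h2, h2, h2] at h1
  rw [he, he]
  exact h1

end two

/-- **Equivariant choices**: if every point of the invariant set `X₀` admits a point of `Y` with
property `P` fixed by its stabiliser, there is an equivariant map on `X₀`. PROOF: `a` is an action;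
choose a representative of every orbit (`Quotient.out` for the setoid `∃ γ, a γ x = x'`), a fixed point
`y₀ x` for every representative `x`, and for every `x'` an element `c` with `a c x = x'`;
`N x' = ρ c (y₀ x)`. -/
theorem exists_equi {G X Y : Type} [Group G] (a : G → X → X) (a1 : ∀ x, a 1 x = x)
    (am : ∀ γ γ' x, a (γ * γ') x = a γ (a γ' x)) (ρ : G →* Equiv.Perm Y)
    (X₀ : Set X) (hX : ∀ (γ : G), ∀ x ∈ X₀, a γ x ∈ X₀) (P : Y → Prop)
    (hP : ∀ (γ : G) (y : Y), P y → P (ρ γ y)) [Nonempty Y]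
    (hfix : ∀ x ∈ X₀, ∃ y : Y, P y ∧ ∀ γ : G, a γ x = x → ρ γ y = y) :
    ∃ N : X → Y, ∀ x ∈ X₀, P (N x) ∧ ∀ γ : G, N (a γ x) = ρ γ (N x) := by
  classical
  have ainv : ∀ γ x x', a γ x = x' → a γ⁻¹ x' = x := by
    intro γ x x' h
    rw [← h, ← am, inv_mul_cancel, a1]
  let r : Setoid X := ⟨fun x x' => ∃ γ, a γ x = x', ⟨fun x => ⟨1, a1 x⟩,
    fun {x x'} ⟨γ, h⟩ => ⟨γ⁻¹, ainv γ x x' h⟩,
    fun {x x' x''} ⟨γ, h⟩ ⟨γ', h'⟩ => ⟨γ' * γ, by rw [am, h, h']⟩⟩⟩
  obtain ⟨rep, hrep1, hrep2⟩ : ∃ rep : X → X, (∀ x, ∃ c, a c (rep x) = x) ∧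
      ∀ x γ, rep (a γ x) = rep x := by
    refine ⟨fun x => Quotient.out (Quotient.mk r x), fun x => ?_, fun x γ => ?_⟩
    · exact Quotient.exact (Quotient.out_eq (Quotient.mk r x))
    · have h1 : Quotient.mk r (a γ x) = Quotient.mk r x :=
        Quotient.sound ⟨γ⁻¹, ainv γ x _ rfl⟩
      show Quotient.out (Quotient.mk r (a γ x)) = Quotient.out (Quotient.mk r x)
      rw [h1]
  choose c hc using hrep1
  obtain ⟨y₀, hy₀⟩ : ∃ y₀ : X → Y, ∀ x ∈ X₀, P (y₀ x) ∧ ∀ γ : G, a γ x = x → ρ γ (y₀ x) = y₀ x := by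
    refine ⟨fun x => if h : x ∈ X₀ then (hfix x h).choose else Classical.arbitrary Y, ?_⟩
    intro x hx
    simp only [hx, dif_pos]
    exact (hfix x hx).choose_spec
  refine ⟨fun x => ρ (c x) (y₀ (rep x)), fun x hx => ?_⟩
  have hr : rep x ∈ X₀ := by
    rw [← ainv (c x) (rep x) x (hc x)]
    exact hX _ x hx
  obtain ⟨hP1, hP2⟩ := hy₀ _ hr
  refine ⟨hP _ _ hP1, fun γ => ?_⟩
  show ρ (c (a γ x)) (y₀ (rep (a γ x))) = ρ γ (ρ (c x) (y₀ (rep x)))
  rw [hrep2]
  have h1 : a (c (a γ x)) (rep x) = a γ x := by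
    have := hc (a γ x)
    rwa [hrep2] at this
  have h2 : a (γ * c x) (rep x) = a γ x := by rw [am, hc]
  have h3 : a ((c (a γ x))⁻¹ * (γ * c x)) (rep x) = rep x := by
    rw [am, h2]
    exact ainv _ _ _ h1
  have h4 := hP2 _ h3
  rw [map_mul, map_inv, Equiv.Perm.mul_apply, Equiv.Perm.inv_eq_iff_eq] at h4
  rw [← h4, map_mul, Equiv.Perm.mul_apply]

end Pool.Agent.Lib.MP_5d4057_al.IN
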