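import Pool.Agent.Lib.MP_5d4057_al.IN.WkN
import Pool.Agent.Lib.MP_5d4057_al.IN.Two

/-! Part B of INT for all lattices: the flat base map. -/

namespace Pool.Agent.Lib.MP_5d4057_al.IN

open MeasureTheory Filter Topology Pool.Agent.Lib.MP_5d4057_al
open Pool.Agent.Lib.MP_5d4057_al.Hyb Pool.Agent.Lib.MP_5d4057_al.HM
open Pool.Agent.Lib.MP_5d4057_al.NU

open scoped ENNReal

variable {n : ℕ} {Γ : Subgroup (SUGroup n)} {χ : SUGroup n → ℝ} {Y : Type} [MetricSpace Y]
variable {Φ : Y → Y → ℝ} {κ : ℝ} {lv : Y → ℝ} {y₀ : Y} {ρ : Γ →* Equiv.Perm Y}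

/-- The horofunction of an isotropic vector. -/
noncomputable def hf (p : Vec n) (g : SUGroup n) : ℝ := yp p (act g (base n))

/-- Fixed points of the cusp groups. -/
def Fix (ρ : Γ →* Equiv.Perm Y) (lv : Y → ℝ) (T : ℝ) (y : Vec n → ℝ) : Prop :=
  ∀ p : Vec n, CuspV T y p → ∃ N : Y, lv N = 0 ∧
    ∀ γ : Γ, (∀ g : SUGroup n, hf p ((γ : SUGroup n)⁻¹ * g) = hf p g) → ρ γ N = N

/-- `hf p` is left translated by the action: `hf (act γ p) g = hf p (γ⁻¹ g)`. PROOF: `yp_act`. -/
theorem hf_act (γ : SUGroup n) (p : Vec n) (g : SUGroup n) :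
    hf (act γ p) g = hf p (γ⁻¹ * g) := by
  have h1 : act g (base n) = act γ (act (γ⁻¹ * g) (base n)) := by
    rw [← act_mul, mul_inv_cancel_left]
  rw [hf, hf, h1, yp_act]

/-- PROOF: `hf_act`, `Ht.inv`. -/
theorem CuspV.translate {T : ℝ} {y : Vec n → ℝ} (hy : Ht Γ T y) {p : Vec n} (hp : CuspV T y p)
    {γ : SUGroup n} (hγ : γ ∈ Γ) : CuspV T y (act γ p) := by
  have h1 : ∀ h : SUGroup n, yp (act γ p) (act h (base n)) = yp p (act (γ⁻¹ * h) (base n)) :=
    fun h => hf_act γ p h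
  have h2 : ∀ h : SUGroup n, y (act (γ⁻¹ * h) (base n)) = y (act h (base n)) := by
    intro h
    rw [act_mul]
    exact hy.inv _ (Γ.inv_mem hγ) _ (orbit_mem h)
  refine ⟨?_, ?_, ?_, ?_⟩
  · intro h
    apply hp.ne
    have h3 : act γ⁻¹ (act γ p) = act γ⁻¹ 0 := by rw [h]
    rw [← act_mul, inv_mul_cancel, act_one] at h3
    rw [h3, act, Matrix.mulVec_zero]
  · rw [q_act, hp.isot]
  · intro h
    rw [h1, ← h2]
    exact hp.le _
  · intro h
    rw [h1, ← h2]
    exact hp.eq _

/-- The isotropic vector of a deep point is unique up to a unit scalar. PROOF: near `g` (where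
`T ≤ 4 * hf p`, `T ≤ 4 * hf p'`, continuity) both horofunctions are equal to `y`. Two horofunctions
which agree near one point are equal: with `v = act g (base n)`, for all `w` and all small complex `z`
`v + z w` is in the cone, so a multiple of `act h (base n)` with `h` near `g`
(`continuousOn_sec_n`, or `exists_act_eq` and a direct argument), and
`‖herm (v + z w) p‖ = ‖herm (v + z w) p'‖`; the terms linear in `z` (real and imaginary directions)
give `star (herm v p) * herm w p = star (herm v p') * herm w p'` for all `w`, so `yp p = yp p'` on the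
cone. -/
theorem hf_unique {T : ℝ} {y : Vec n → ℝ} (hT : 0 < T) {g : SUGroup n} {p p' : Vec n}
    (hp : CuspV T y p) (hp' : CuspV T y p') (hg : T < 4 * hf p g) (hg' : T < 4 * hf p' g) :
    hf p = hf p' := by
  have _ := hT
  -- on the cone, where both heights are large, they agree
  have h1 : ∀ v ∈ Cone n, T < 4 * yp p v → T < 4 * yp p' v → ‖herm v p‖ ^ 2 = ‖herm v p'‖ ^ 2 := by
    intro v hv h2 h3
    obtain ⟨h, c, hc, hvc⟩ := exists_act_eq hv
    have e1 : yp p v = yp p (act h (base n)) := by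
      rw [hvc]
      exact yp_homog p c hc _ (orbit_mem h)
    have e2 : yp p' v = yp p' (act h (base n)) := by
      rw [hvc]
      exact yp_homog p' c hc _ (orbit_mem h)
    rw [e1] at h2
    rw [e2] at h3
    have e3 : yp p v = yp p' v := by
      rw [e1, e2, ← hp.eq h h2.le, ← hp'.eq h h3.le]
    have hq : 0 < - q v := by
      have : q v < 0 := hv
      linarith
    rw [yp, yp] at e3
    have hn : ∀ r : Vec n, r ≠ 0 → HM.q r = 0 → ‖herm v r‖ ^ 2 ≠ 0 := by
      intro r hr hqr h4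
      have h5 : 0 < yp r v := yp_pos hr hqr hv
      rw [yp, h4, div_zero] at h5
      exact lt_irrefl _ h5
    have h4 := hn p hp.ne hp.isot
    have h5 := hn p' hp'.ne hp'.isot
    rw [div_eq_div_iff h4 h5] at e3
    exact (mul_left_cancel₀ hq.ne' e3).symm
  -- this holds near the given point
  obtain ⟨v₀, hv₀⟩ : ∃ v₀, v₀ = act g (base n) := ⟨_, rfl⟩
  have hv₀c : v₀ ∈ Cone n := by
    rw [hv₀]
    exact orbit_mem g
  have h2 : ∀ᶠ v in 𝓝 v₀, ‖herm v p‖ ^ 2 = ‖herm v p'‖ ^ 2 := by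
    have c1 : ContinuousAt (yp p) v₀ :=
      (continuousOn_yp hp.ne hp.isot).continuousAt ((isOpen_cone n).mem_nhds hv₀c)
    have c2 : ContinuousAt (yp p') v₀ :=
      (continuousOn_yp hp'.ne hp'.isot).continuousAt ((isOpen_cone n).mem_nhds hv₀c)
    have d1 : T / 4 < yp p v₀ := by
      rw [hf, ← hv₀] at hg
      linarith
    have d2 : T / 4 < yp p' v₀ := by
      rw [hf, ← hv₀] at hg'
      linarith
    filter_upwards [(isOpen_cone n).mem_nhds hv₀c, c1.eventually (lt_mem_nhds d1),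
      c2.eventually (lt_mem_nhds d2)] with v e1 e2 e3
    exact h1 v e1 (by linarith) (by linarith)
  -- the parallelogram law
  have h3 : ∀ w : Vec n, ‖herm w p‖ ^ 2 = ‖herm w p'‖ ^ 2 := by
    intro w
    have t1 : Tendsto (fun t : ℝ => v₀ + (t : ℂ) • w) (𝓝 0) (𝓝 v₀) := by
      have : Continuous fun t : ℝ => v₀ + (t : ℂ) • w := by fun_prop
      have h4 := this.tendsto 0
      simpa using h4
    have t2 : Tendsto (fun t : ℝ => v₀ + (-(t : ℂ)) • w) (𝓝 0) (𝓝 v₀) := by
      have : Continuous fun t : ℝ => v₀ + (-(t : ℂ)) • w := by fun_prop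
      have h4 := this.tendsto 0
      simpa using h4
    have h4 := (t1.eventually h2).and (t2.eventually h2)
    have h5 : ∀ᶠ t : ℝ in 𝓝[>] 0, 0 < t := self_mem_nhdsWithin
    obtain ⟨t, ⟨e1, e2⟩, ht⟩ := ((h4.filter_mono nhdsWithin_le_nhds).and h5).exists
    have e0 := h2.self_of_nhds
    have par : ∀ r : Vec n, ‖herm (v₀ + (t : ℂ) • w) r‖ ^ 2 + ‖herm (v₀ + (-(t : ℂ)) • w) r‖ ^ 2 =
        2 * ‖herm v₀ r‖ ^ 2 + 2 * t ^ 2 * ‖herm w r‖ ^ 2 := by
      intro r
      rw [herm_add_left, herm_add_left, herm_smul_left, herm_smul_left, star_neg, neg_mul,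
        ← sub_eq_add_neg]
      have h6 := parallelogram_law_with_norm ℝ (herm v₀ r) (star (t : ℂ) * herm w r)
      have h7 : ‖star (t : ℂ) * herm w r‖ = |t| * ‖herm w r‖ := by
        rw [norm_mul, norm_star, Complex.norm_real, Real.norm_eq_abs]
      rw [h7] at h6
      rw [h6, mul_pow, sq_abs]
      ring
    have p1 := par p
    have p2 := par p'
    rw [e1, e2, e0] at p1
    have p3 : 2 * t ^ 2 * ‖herm w p‖ ^ 2 = 2 * t ^ 2 * ‖herm w p'‖ ^ 2 := by linarith
    exact mul_left_cancel₀ (by positivity) p3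
  funext h
  rw [hf, hf, yp, yp, h3]

/-- **The flat base map.** PROOF: `exists_equi` with `X = SUGroup n → ℝ`, `a γ φ = fun g => φ (γ⁻¹ * g)`,
`X₀ = {hf p | CuspV T y p}`, `P = (lv · = 0)`: `N : X → Y`. `T₁ = 2 * T` (`1 ≤ T`), `θ Z = max 0 (min 1
(log (Z / T₁)))`. For `g` with `T ≤ Z g = y (act g (base n))` let `p g` be the vector of `exists_cuspV`
(`Classical.choose`), `F g` = the point of `exists_two` for `θ (Z g)`, `F₀ g`, `N (hf (p g))`; for
`Z g < T` let `F g = F₀ g`. (For `Z g ≤ T₁` this is `F₀ g` by `isTwo_zero`, for `Z g ≥ e T₁` it is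
`N (hf (p g))` by `isTwo_one`.) FLAT with `T' = e T₁`: `Z g = hf p g` and uniqueness. EQUIVARIANT:
`IsTwo.map`, `IsTwo.unique`, `hf_unique`. BOUND: `dist (F₀ g) (N (hf (p g))) ≤ R` for `T ≤ Z g ≤ e² T₁`:
invariant, `Ht.cpt`, and near each point `N (hf (p ·))` is constant. LIPSCHITZ: for `wt x ^ 2 ≤ 2` either
both `Z g, Z (g x) ≤ T₁` and `F = F₀`, or both are `≥ T`, with the same horofunction, and
`dist (F g) (F (g x)) ≤ dist (F₀ g) (F₀ (g x)) + 2 κ |θ (Z g) - θ (Z (g x))| R`,
`|θ - θ'| ≤ |log Z g - log Z (g x)| ≤ 2 log wt x` (`IsTwo.dist_left`, `IsTwo.dist_wt`; if both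
`Z ≥ e T₁` it is `0`). For large `x`: `exists_factor`. -/
theorem exists_flat (hn : 1 ≤ n) (D : Dat ρ Φ κ lv y₀) {T : ℝ} {y : Vec n → ℝ} (hT : 1 ≤ T)
    (hy : Ht Γ T y) (hfix : Fix ρ lv T y) {F₀ : SUGroup n → Y} (h0 : Eqv ρ F₀)
    (hl : ∀ g, lv (F₀ g) = 0) {L₀ : ℝ} (hL₀ : 0 ≤ L₀) (hLip : LipD L₀ F₀) :
    ∃ (F : SUGroup n → Y) (T' L : ℝ), 0 ≤ L ∧ Eqv ρ F ∧ (∀ g, lv (F g) = 0) ∧ LipD L F ∧
      Flat T T' y F := by
  have TT := D.tgt
  have hκ : 1 ≤ κ := TT.one_le
  have hT0 : 0 < T := by linarith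
  have hyc : Continuous fun g : SUGroup n => y (act g (base n)) := RC.ht_cont hy
  obtain ⟨Z, hZ⟩ : ∃ Z : SUGroup n → ℝ, Z = fun g => y (act g (base n)) := ⟨_, rfl⟩
  have hZg : ∀ g, Z g = y (act g (base n)) := fun g => by rw [hZ]
  have hZc : Continuous Z := by
    rw [hZ]
    exact hyc
  have hZ1 : ∀ g, 1 ≤ Z g := fun g => by
    rw [hZg]
    exact hy.one_le _ (orbit_mem g)
  have hZΓ : ∀ γ ∈ Γ, ∀ g, Z (γ * g) = Z g := by
    intro γ hγ g
    rw [hZg, hZg, act_mul]
    exact hy.inv γ hγ _ (orbit_mem g)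
  have hK : ∀ (g k : SUGroup n), ch k = 1 → ∃ c : ℂ, c ≠ 0 ∧
      act (g * k) (base n) = c • act g (base n) := by
    intro g k hk
    obtain ⟨c, hc, h1⟩ := (ch_eq_one_iff k).1 hk
    refine ⟨c, ?_, ?_⟩
    · intro h2
      rw [h2, norm_zero] at hc
      exact zero_ne_one hc
    · rw [act_mul, h1, act_smul]
  have hZK : ∀ g k : SUGroup n, ch k = 1 → Z (g * k) = Z g := by
    intro g k hk
    obtain ⟨c, hc, h1⟩ := hK g k hk
    rw [hZg, hZg, h1]
    exact hy.hom c hc _ (orbit_mem g)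
  have hfK : ∀ (p : Vec n) (g k : SUGroup n), ch k = 1 → hf p (g * k) = hf p g := by
    intro p g k hk
    obtain ⟨c, hc, h1⟩ := hK g k hk
    rw [hf, hf, h1]
    exact yp_homog p c hc _ (orbit_mem g)
  have hZh : ∀ g x, Z (g * x) ≤ wt x ^ 2 * Z g := by
    intro g x
    rw [hZg, hZg]
    exact hy.harn g x
  have hZh' : ∀ g x, Z g ≤ wt x ^ 2 * Z (g * x) := by
    intro g x
    have h1 := hZh (g * x) x⁻¹
    rwa [mul_inv_cancel_right, wt_inv] at h1
  -- the isotropic vector of a deep point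
  have hp : ∀ g, ∃ p, T ≤ Z g → CuspV T y p ∧ Z g = hf p g := by
    intro g
    by_cases h1 : T ≤ Z g
    · obtain ⟨p, h2, h3⟩ := exists_cuspV hy (g := g) (by rw [← hZg]; exact h1)
      exact ⟨p, fun _ => ⟨h2, by rw [hZg]; exact h3⟩⟩
    · exact ⟨0, fun h => absurd h h1⟩
  choose p hp using hp
  have huni : ∀ g, T ≤ Z g → ∀ r, CuspV T y r → T < 4 * hf r g → hf (p g) = hf r := by
    intro g h1 r hr h2
    obtain ⟨h3, h4⟩ := hp g h1
    refine hf_unique hT0 h3 hr ?_ h2
    rw [← h4]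
    linarith
  -- the equivariant choice of fixed points
  have : Nonempty Y := ⟨y₀⟩
  obtain ⟨N, hN⟩ := exists_equi (G := Γ) (X := SUGroup n → ℝ)
    (fun γ φ g => φ ((γ : SUGroup n)⁻¹ * g)) (fun φ => by simp)
    (fun γ γ' φ => by
      funext g
      simp only [Subgroup.coe_mul, _root_.mul_inv_rev, mul_assoc]) ρ
    {φ | ∃ r, CuspV T y r ∧ φ = hf r}
    (by
      rintro γ φ ⟨r, hr, rfl⟩
      refine ⟨act (γ : SUGroup n) r, hr.translate hy γ.2, ?_⟩
      funext g
      rw [hf_act])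
    (fun z => lv z = 0) (fun γ z hz => by rw [D.act.lv, hz])
    (by
      rintro φ ⟨r, hr, rfl⟩
      obtain ⟨z, hz, h1⟩ := hfix r hr
      exact ⟨z, hz, fun γ h2 => h1 γ fun g => congrFun h2 g⟩)
  have hNlv : ∀ r, CuspV T y r → lv (N (hf r)) = 0 := fun r hr => (hN _ ⟨r, hr, rfl⟩).1
  have hNe : ∀ r, CuspV T y r → ∀ γ : Γ, N (hf (act (γ : SUGroup n) r)) = ρ γ (N (hf r)) := by
    intro r hr γ
    rw [← (hN _ ⟨r, hr, rfl⟩).2 γ]
    congr 1
    funext g
    rw [hf_act]
  -- the weight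
  obtain ⟨θ, hθ⟩ : ∃ θ : SUGroup n → ℝ, θ = fun g => max 0 (min 1 (Real.log (Z g / (2 * T)))) :=
    ⟨_, rfl⟩
  have hθg : ∀ g, θ g = max 0 (min 1 (Real.log (Z g / (2 * T)))) := fun g => by rw [hθ]
  have hθ0 : ∀ g, 0 ≤ θ g := fun g => by
    rw [hθg]
    exact le_max_left _ _
  have hθ1 : ∀ g, θ g ≤ 1 := fun g => by
    rw [hθg]
    exact max_le zero_le_one (min_le_left _ _)
  have hZ0 : ∀ g, 0 < Z g := fun g => by linarith [hZ1 g]
  have hθz : ∀ g, Z g ≤ 2 * T → θ g = 0 := by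
    intro g h1
    rw [hθg]
    apply max_eq_left
    refine (min_le_right _ _).trans (Real.log_nonpos (by have := hZ0 g; positivity) ?_)
    rwa [div_le_one (by linarith)]
  have hθo : ∀ g, Real.exp 1 * (2 * T) ≤ Z g → θ g = 1 := by
    intro g h1
    have h2 : 1 ≤ Real.log (Z g / (2 * T)) := by
      rw [Real.le_log_iff_exp_le (by have := hZ0 g; positivity), le_div_iff₀ (by linarith)]
      exact h1
    rw [hθg, min_eq_left h2, max_eq_right zero_le_one]
  -- the map
  choose F hF using fun g => exists_two TT (hθ0 g) (hθ1 g) (F₀ g) (N (hf (p g)))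
  have hF0 : ∀ g, Z g ≤ 2 * T → F g = F₀ g := by
    intro g h1
    have h2 := hF g
    rw [hθz g h1] at h2
    exact h2.unique TT (isTwo_zero TT _ _)
  have hF1 : ∀ g, Real.exp 1 * (2 * T) ≤ Z g → F g = N (hf (p g)) := by
    intro g h1
    have h2 := hF g
    rw [hθo g h1] at h2
    exact h2.unique TT (isTwo_one TT _ _)
  have hexp : 2 ≤ Real.exp 1 := by
    have := Real.add_one_le_exp (1 : ℝ)
    linarith
  -- equivariance
  have hFe : ∀ (γ : Γ) (g : SUGroup n), F ((γ : SUGroup n) * g) = ρ γ (F g) := by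
    intro γ g
    have e1 := hZΓ γ γ.2 g
    by_cases h1 : T ≤ Z g
    · obtain ⟨h2, h3⟩ := hp g h1
      have h4 : hf (p ((γ : SUGroup n) * g)) = hf (act (γ : SUGroup n) (p g)) := by
        refine huni _ (by rw [e1]; exact h1) _ (h2.translate hy γ.2) ?_
        rw [hf_act, inv_mul_cancel_left, ← h3]
        linarith
      have h5 := hF ((γ : SUGroup n) * g)
      have e2 : θ ((γ : SUGroup n) * g) = θ g := by rw [hθg, hθg, e1]
      rw [h4, hNe _ h2, h0.equi, e2] at h5
      exact h5.unique TT ((hF g).map (ρ γ) (D.act.phi γ))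
    · rw [hF0 g (by linarith), hF0 _ (by rw [e1]; linarith), h0.equi]
  have hFk : ∀ g k : SUGroup n, ch k = 1 → F (g * k) = F g := by
    intro g k hk
    have e1 := hZK g k hk
    by_cases h1 : T ≤ Z g
    · obtain ⟨h2, h3⟩ := hp g h1
      have h4 : hf (p (g * k)) = hf (p g) := by
        refine huni _ (by rw [e1]; exact h1) _ h2 ?_
        rw [hfK _ _ _ hk, ← h3]
        linarith
      have h5 := hF (g * k)
      have e2 : θ (g * k) = θ g := by rw [hθg, hθg, e1]
      rw [h4, h0.kinv g k hk, e2] at h5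
      exact h5.unique TT (hF g)
    · rw [hF0 g (by linarith), hF0 _ (by rw [e1]; linarith), h0.kinv g k hk]
  have hFlv : ∀ g, lv (F g) = 0 := by
    intro g
    by_cases h1 : T ≤ Z g
    · exact (hF g).lv_eq TT D.up D.dn (hθ0 g) (hθ1 g) (hl g) (hNlv _ (hp g h1).1)
    · rw [hF0 g (by linarith), hl]
  -- the bound
  obtain ⟨R, hR0, hR⟩ : ∃ R : ℝ, 0 ≤ R ∧ ∀ g, T ≤ Z g → Z g ≤ Real.exp 1 ^ 2 * (2 * T) →
      dist (F₀ g) (N (hf (p g))) ≤ R := by
    obtain ⟨S, hS, hcov⟩ := hy.cpt (Real.exp 1 ^ 2 * (2 * T))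
    have h1 : ∃ R : ℝ, ∀ g ∈ S, T ≤ Z g → dist (F₀ g) (N (hf (p g))) ≤ R := by
      refine hS.induction_on (p := fun s => ∃ R : ℝ, ∀ g ∈ s, T ≤ Z g →
        dist (F₀ g) (N (hf (p g))) ≤ R) ?_ ?_ ?_ ?_
      · exact ⟨0, fun g hg => absurd hg (Set.notMem_empty g)⟩
      · rintro s t hst ⟨R, h1⟩
        exact ⟨R, fun g hg => h1 g (hst hg)⟩
      · rintro s t ⟨R, h1⟩ ⟨R', h2⟩
        refine ⟨max R R', fun g hg h3 => ?_⟩
        rcases hg with hg | hg
        · exact (h1 g hg h3).trans (le_max_left _ _)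
        · exact (h2 g hg h3).trans (le_max_right _ _)
      · intro g₀ _
        by_cases h2 : T ≤ Z g₀
        · obtain ⟨h3, h4⟩ := hp g₀ h2
          have c1 : Continuous fun g => hf (p g₀) g := by
            have h5 := (continuousOn_yp h3.ne h3.isot).comp_continuous continuous_orbit orbit_mem
            exact h5
          have c2 : Continuous fun g => dist (F₀ g) (N (hf (p g₀))) :=
            h0.cont.dist continuous_const
          have h5 : T / 4 < hf (p g₀) g₀ := by
            rw [← h4]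
            linarith
          have h6 : dist (F₀ g₀) (N (hf (p g₀))) < dist (F₀ g₀) (N (hf (p g₀))) + 1 := by linarith
          refine ⟨_, mem_nhdsWithin_of_mem_nhds (((c1.tendsto g₀).eventually
            (lt_mem_nhds h5)).and ((c2.tendsto g₀).eventually (gt_mem_nhds h6))),
            dist (F₀ g₀) (N (hf (p g₀))) + 1, ?_⟩
          rintro g ⟨h7, h8⟩ h9
          have h10 : hf (p g) = hf (p g₀) := huni g h9 _ h3 (by linarith)
          rw [h10]
          exact le_of_lt h8
        · rw [not_le] at h2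
          refine ⟨_, mem_nhdsWithin_of_mem_nhds ((hZc.tendsto g₀).eventually (gt_mem_nhds h2)), 0, ?_⟩
          intro g h3 h4
          exact absurd h4 (not_le.2 h3)
    obtain ⟨R, h1⟩ := h1
    refine ⟨max R 0, le_max_right _ _, fun g h2 h3 => ?_⟩
    obtain ⟨γ, hγ, h4⟩ := hcov g (by rw [← hZg]; exact h3)
    obtain ⟨h5, h6⟩ := hp g h2
    have e1 := hZΓ γ hγ g
    have h7 := h1 _ h4 (by rw [e1]; exact h2)
    have h8 : hf (p (γ * g)) = hf (act γ (p g)) := by
      refine huni _ (by rw [e1]; exact h2) _ (h5.translate hy hγ) ?_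
      rw [hf_act, inv_mul_cancel_left, ← h6]
      linarith
    have h9 := hNe _ h5 ⟨γ, hγ⟩
    have h10 := h0.equi ⟨γ, hγ⟩ g
    rw [h8, h9, h10, D.act.iso] at h7
    exact h7.trans (le_max_left _ _)
  -- small steps
  have hsmall : ∀ g x : SUGroup n, wt x ^ 2 ≤ 2 →
      dist (F g) (F (g * x)) ≤ (L₀ + 4 * κ * R) * Real.log (wt x) := by
    intro g x hx
    have hlx : 0 ≤ Real.log (wt x) := Real.log_nonneg (one_le_wt x)
    have hw1 := one_le_wt x
    have hκR : 0 ≤ 4 * κ * R := by positivity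
    have z1 := hZh g x
    have z2 := hZh' g x
    have z3 : Z (g * x) ≤ 2 * Z g := z1.trans (mul_le_mul_of_nonneg_right hx (hZ0 g).le)
    have z4 : Z g ≤ 2 * Z (g * x) := z2.trans (mul_le_mul_of_nonneg_right hx (hZ0 _).le)
    by_cases h1 : Z g ≤ 2 * T ∧ Z (g * x) ≤ 2 * T
    · rw [hF0 g h1.1, hF0 _ h1.2]
      refine (hLip g x).trans (mul_le_mul_of_nonneg_right ?_ hlx)
      linarith
    · have h2 : T ≤ Z g ∧ T ≤ Z (g * x) := by
        rw [not_and_or, not_le, not_le] at h1
        rcases h1 with h1 | h1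
        · exact ⟨by linarith, by linarith⟩
        · exact ⟨by linarith, by linarith⟩
      obtain ⟨h3, h4⟩ := h2
      obtain ⟨h5, h6⟩ := hp g h3
      obtain ⟨h7, h8⟩ := hp (g * x) h4
      have h9 : hf (p (g * x)) = hf (p g) := by
        refine huni _ h4 _ h5 ?_
        have h10 := yp_harn h5.ne h5.isot (g * x) x⁻¹
        rw [mul_inv_cancel_right, wt_inv] at h10
        have h11 : Z g ≤ wt x ^ 2 * hf (p g) (g * x) := by
          rw [h6]
          exact h10
        have h12 : 0 < hf (p g) (g * x) := yp_pos h5.ne h5.isot (orbit_mem _)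
        have h13 : Z g ≤ 2 * hf (p g) (g * x) := h11.trans (mul_le_mul_of_nonneg_right hx h12.le)
        linarith
      have b1 := hF g
      have b2 := hF (g * x)
      rw [h9] at b2
      obtain ⟨b, hb⟩ := exists_two TT (hθ0 g) (hθ1 g) (F₀ (g * x)) (N (hf (p g)))
      have d1 := b1.dist_left TT D.dj (hθ0 g) (hθ1 g) hb
      have d2 := hb.dist_wt TT D.dj (hθ0 g) (hθ1 g) (hθ0 (g * x)) (hθ1 (g * x)) b2
      have d3 := hLip g x
      have d4 : |θ g - θ (g * x)| ≤ 2 * Real.log (wt x) := by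
        have e1 : |θ g - θ (g * x)| ≤
            |Real.log (Z g / (2 * T)) - Real.log (Z (g * x) / (2 * T))| := by
          rw [hθg, hθg, max_comm 0, max_comm 0, min_comm 1, min_comm 1]
          refine (abs_max_sub_max_le_abs _ _ _).trans ?_
          refine (abs_min_sub_min_le_max _ _ _ _).trans ?_
          rw [sub_self, abs_zero, max_eq_left (abs_nonneg _)]
        refine e1.trans ?_
        rw [Real.log_div (hZ0 g).ne' (by linarith), Real.log_div (hZ0 _).ne' (by linarith),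
          sub_sub_sub_cancel_right, abs_le]
        have l1 := Real.log_le_log (hZ0 _) z1
        have l2 := Real.log_le_log (hZ0 _) z2
        rw [Real.log_mul (by positivity) (hZ0 _).ne', Real.log_pow] at l1 l2
        push_cast at l1 l2
        constructor <;> linarith
      have d5 : |θ g - θ (g * x)| * dist (F₀ (g * x)) (N (hf (p g))) ≤ 2 * Real.log (wt x) * R := by
        by_cases e1 : Z (g * x) ≤ Real.exp 1 ^ 2 * (2 * T)
        · have e2 := hR (g * x) h4 e1
          rw [h9] at e2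
          exact mul_le_mul d4 e2 dist_nonneg (by positivity)
        · rw [not_le] at e1
          have e2 : Real.exp 1 * (2 * T) ≤ Z (g * x) := by
            nlinarith [mul_pos (Real.exp_pos 1) hT0]
          have e3 : Real.exp 1 * (2 * T) ≤ Z g := by
            nlinarith [mul_pos (Real.exp_pos 1) hT0]
          rw [hθo _ e2, hθo _ e3, sub_self, abs_zero, zero_mul]
          positivity
      have hκ0 : 0 ≤ 2 * κ := by linarith
      have d6 : dist b (F (g * x)) ≤ 4 * κ * R * Real.log (wt x) := by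
        calc dist b (F (g * x)) ≤ 2 * κ * |θ g - θ (g * x)| *
              dist (F₀ (g * x)) (N (hf (p g))) := d2
          _ = 2 * κ * (|θ g - θ (g * x)| * dist (F₀ (g * x)) (N (hf (p g)))) := by ring
          _ ≤ 2 * κ * (2 * Real.log (wt x) * R) := mul_le_mul_of_nonneg_left d5 hκ0
          _ = _ := by ring
      calc dist (F g) (F (g * x)) ≤ dist (F g) b + dist b (F (g * x)) := dist_triangle _ _ _
        _ ≤ L₀ * Real.log (wt x) + 4 * κ * R * Real.log (wt x) := add_le_add (d1.trans d3) d6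
        _ = _ := by ring
  obtain ⟨L, hL⟩ : ∃ L : ℝ, L = L₀ + 4 * κ * R := ⟨_, rfl⟩
  have hL0 : 0 ≤ L := by
    rw [hL]
    have : 0 ≤ 4 * κ * R := by positivity
    linarith
  rw [← hL] at hsmall
  have hchain : ∀ l : List (SUGroup n), (∀ x ∈ l, wt x ^ 2 ≤ 2) → ∀ g : SUGroup n,
      dist (F g) (F (g * l.prod)) ≤ L * (l.map fun x => Real.log (wt x)).sum := by
    intro l
    induction l with
    | nil =>
      intro _ g
      simp
    | cons a l ih =>
      intro hl g
      have h1 := hsmall g a (hl a (List.mem_cons_self ..))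
      have h2 := ih (fun x hx => hl x (List.mem_cons_of_mem _ hx)) (g * a)
      rw [List.prod_cons, ← mul_assoc, List.map_cons, List.sum_cons, mul_add]
      exact (dist_triangle _ (F (g * a)) _).trans (add_le_add h1 h2)
  have hFL : LipD L F := by
    intro g x
    have hx1 := one_le_wt x
    obtain ⟨m, hm⟩ := exists_nat_ge (Real.log (wt x) * 2 / Real.log 2)
    obtain ⟨l, hlen, hprod, hw⟩ := exists_factor hn x (m + 1) (by omega)
    have hl2 : 0 < Real.log 2 := Real.log_pos (by norm_num)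
    have hm0 : (0 : ℝ) < (m : ℝ) + 1 := by positivity
    have hlog : ∀ a ∈ l, Real.log (wt a) = Real.log (wt x) / (m + 1) := by
      intro a ha
      rw [← hw a ha, Real.log_pow]
      push_cast
      field_simp
    have h1 := hchain l (fun a ha => by
      have h2 := hlog a ha
      have h3 : 0 < wt a := by linarith [one_le_wt a]
      rw [← Real.log_le_log_iff (by positivity) (by norm_num), Real.log_pow, h2]
      rw [div_le_iff₀ hl2] at hm
      push_cast
      rw [← mul_div_assoc, div_le_iff₀ hm0]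
      nlinarith) g
    rw [hprod] at h1
    have h2 : (l.map fun a => Real.log (wt a)).sum = Real.log (wt x) := by
      have h3 : l.map (fun a => Real.log (wt a)) = l.map fun _ => Real.log (wt x) / (m + 1) :=
        List.map_congr_left hlog
      rw [h3, List.map_const', List.sum_replicate, hlen, nsmul_eq_mul]
      push_cast
      field_simp
    rw [h2] at h1
    exact h1
  have hFc : Continuous F := by
    rw [continuous_iff_continuousAt]
    intro g
    rw [ContinuousAt, tendsto_iff_dist_tendsto_zero]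
    have t0 : Tendsto (fun h : SUGroup n => L * Real.log (wt (g⁻¹ * h))) (𝓝 g) (𝓝 0) := by
      have h1 : Continuous fun h : SUGroup n => wt (g⁻¹ * h) :=
        continuous_wt.comp (continuous_const.mul continuous_id)
      have h2 := h1.tendsto g
      rw [inv_mul_cancel, wt_one] at h2
      have h3 := ((Real.continuousAt_log one_ne_zero).tendsto.comp h2).const_mul L
      rwa [Real.log_one, mul_zero] at h3
    refine squeeze_zero (fun _ => dist_nonneg) (fun h => ?_) t0
    have h1 := hFL g (g⁻¹ * h)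
    rw [mul_inv_cancel_left] at h1
    rwa [dist_comm]
  refine ⟨F, Real.exp 1 * (2 * T), L, hL0, ⟨hFc, hFk, hFe⟩, hFlv, hFL, ?_⟩
  intro r hr g h hg hh
  have key : ∀ a : SUGroup n, Real.exp 1 * (2 * T) ≤ yp r (act a (base n)) → F a = N (hf r) := by
    intro a ha
    have h1 : T < yp r (act a (base n)) := by nlinarith
    have h2 : Z a = yp r (act a (base n)) := by
      rw [hZg]
      exact hr.eq a (by linarith)
    rw [hF1 a (by rw [h2]; exact ha), huni a (by rw [h2]; exact h1.le) r hr (by rw [hf]; linarith)]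
  rw [key g hg, key h hh]

/-- Existence of the base map of part B for lattices. -/
theorem exists_baseF (hn : 1 ≤ n) (D : Dat ρ Φ κ lv y₀) (hχ : Lat Γ χ) {T : ℝ} {y : Vec n → ℝ}
    (hT : 1 ≤ T) (hy : Ht Γ T y) (hfix : Fix ρ lv T y) {F₀ : SUGroup n → Y} (h0 : Eqv ρ F₀)
    (hl : ∀ g, lv (F₀ g) = 0) {L₀ : ℝ} (hL₀ : 0 ≤ L₀) (hLip : LipD L₀ F₀) :
    ∃ (F : SUGroup n → Y) (L : ℝ) (S : Set (SUGroup n)) (s₀ : ℕ) (B : ℝ),
      BaseF ρ lv χ F L S s₀ B := by
  obtain ⟨F, T', L, hL, h1, h2, h3, h4⟩ := exists_flat hn D hT hy hfix h0 hl hL₀ hLip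
  obtain ⟨S, s₀, B, h5⟩ := cor_of_flat hn hy h1.cont hL h3 h4
  exact ⟨F, L, S, s₀, B, ⟨hχ, h1, h2, hL, h3, h5⟩⟩

end Pool.Agent.Lib.MP_5d4057_al.IN
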