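import Pool.Agent.Lib.MP_5d4057_al.IN.LimF
import Pool.Agent.Lib.MP_5d4057_al.IN.Flat
import Pool.Agent.Lib.MP_5d4057_al.IN.FixG

/-! Part B of INT for all lattices: the limit map of the representation of a lattice at a finite place. -/

namespace Pool.Agent.Lib.MP_5d4057_al.IN

open Matrix MeasureTheory Filter Topology Module Pool.Agent.Lib.MP_5d4057_al
  Pool.Agent.Lib.MP_5d4057_al.Hyb Pool.Agent.Lib.MP_5d4057_al.HM Pool.Agent.Lib.MP_5d4057_al.NU

open scoped ENNReal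

variable {n : ℕ} {Γ : Subgroup (SUGroup n)} {χ : SUGroup n → ℝ} {y : Vec n → ℝ}
  {k : Type} [NontriviallyNormedField k] [IsUltrametricDist k] [ProperSpace k]
  {V : Type} [AddCommGroup V] [Module k V] [FiniteDimensional k V]

/-- **The limit map for lattices** from the inputs `InN` at one place: the limit map with its
approximations, and logarithmic growth. -/
theorem exists_limN (hn : 1 ≤ n) (hV : 0 < finrank k V) (hχ : Lat Γ χ) (hy : Ht Γ 64 y)
    {ρ : Γ →* (V ≃ₗ[k] V)} (hR : Rep ρ) (hI : InN ρ y) :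
    ∃ (N₀ : Nm k V) (F f : SUGroup n → Nm k V) (C : ℝ), N₀.lv = 0 ∧
        LimF (nmAct ρ) (nmCN k V).ph Nm.lv N₀ χ F f ∧ Lg C N₀ f := by
  obtain ⟨N₁, N, C, hG⟩ := hI.gr
  obtain ⟨N₀, hN₀⟩ := exists_lv_zero (k := k) (V := V) hV
  have D := nmDat hR N₀ hN₀
  obtain ⟨f₀, h1, h2, h3⟩ := exists_base hV hR.det hG
  obtain ⟨F, L, S, s₀, B, hB⟩ := exists_baseF hn D hχ (by norm_num) hy hI.fix h1 h2
    (by positivity) h3
  obtain ⟨f, hf⟩ := exists_limF hn D hB
  obtain ⟨C', hC'⟩ := hf.near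
  exact ⟨N₀, F, f, _, hN₀, hf, hB.lg N₀ hC'⟩

end Pool.Agent.Lib.MP_5d4057_al.IN
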