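import Pool.Agent.Lib.MP_5d4057_al.IN.LimCOf
import Pool.Agent.Lib.MP_5d4057_al.HM.RegAx

/-! Local Lipschitz bounds for right translations from the left Lipschitz estimate. -/

set_option autoImplicit false

namespace Pool.Agent.Lib.MP_5d4057_al.IN

open MeasureTheory Filter Topology Pool.Agent.Lib.MP_5d4057_al
open Pool.Agent.Lib.MP_5d4057_al.Hyb Pool.Agent.Lib.MP_5d4057_al.HM
open Pool.Agent.Lib.MP_5d4057_al.NU

open scoped Matrix.Norms.L2Operator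

variable {n : ℕ}

private theorem norm_base_le (i : Fin (n + 1)) : ‖base n i‖ ≤ 1 := by
  refine Fin.lastCases ?_ (fun i => ?_) i
  · rw [Kak.base_last, norm_one]
  · rw [Kak.base_castSucc, norm_zero]
    exact zero_le_one

private theorem norm_vec_le {ξ : Fin n → ℂ} (hξ : Kak.nq ξ = 1) (i : Fin (n + 1)) :
    ‖vec ξ i‖ ≤ 1 := by
  refine Fin.lastCases ?_ (fun i => ?_) i
  · rw [Kak.vec_last, norm_zero]
    exact zero_le_one
  · rw [Kak.vec_castSucc]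
    have h1 : ‖ξ i‖ ^ 2 ≤ Kak.nq ξ :=
      Finset.single_le_sum (f := fun i => ‖ξ i‖ ^ 2) (fun _ _ => sq_nonneg _) (Finset.mem_univ i)
    rw [hξ] at h1
    have h2 := norm_nonneg (ξ i)
    nlinarith

private theorem norm_prod_le {a b c : ℂ} {r : ℝ} (ha : ‖a‖ ≤ r) (hb : ‖b‖ ≤ 1) (hc : ‖c‖ ≤ 1) :
    ‖a * (b * c)‖ ≤ r := by
  rw [norm_mul, norm_mul]
  have h1 : ‖b‖ * ‖c‖ ≤ 1 := mul_le_one₀ hb (norm_nonneg _) hc
  calc ‖a‖ * (‖b‖ * ‖c‖) ≤ ‖a‖ * 1 := mul_le_mul_of_nonneg_left h1 (norm_nonneg _)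
    _ ≤ r := by rwa [mul_one]

/-- small elements of the one-parameter groups -/
private theorem norm_flow_sub {ξ : Fin n → ℂ} (hξ : Kak.nq ξ = 1) {t : ℝ} (h0 : 0 ≤ t)
    (h1 : t ≤ 1) : ‖(Kak.flow ξ hξ t).toMatrix - 1‖ ≤ 4 * (n + 1) * t := by
  have hexp : Real.exp t - 1 ≤ 2 * t := by
    have h2 := Real.abs_exp_sub_one_le (x := t) (by rwa [abs_of_nonneg h0])
    rw [abs_of_nonneg h0] at h2
    exact (le_abs_self _).trans h2
  have hs : 0 ≤ Real.sinh t := Real.sinh_nonneg_iff.2 h0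
  have hc : 0 ≤ Real.cosh t - 1 := by linarith [Real.one_le_cosh t]
  have hsum : Real.cosh t - 1 + Real.sinh t ≤ 2 * t := by
    have := Real.cosh_add_sinh t
    linarith
  have hcn : ‖((Real.cosh t - 1 : ℝ) : ℂ)‖ ≤ Real.cosh t - 1 := by
    rw [Complex.norm_real, Real.norm_eq_abs, abs_of_nonneg hc]
  have hsn : ‖((Real.sinh t : ℝ) : ℂ)‖ ≤ Real.sinh t := by
    rw [Complex.norm_real, Real.norm_eq_abs, abs_of_nonneg hs]
  have hst : ∀ i, ‖star (vec ξ) i‖ ≤ 1 := fun i => by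
    rw [Pi.star_apply, norm_star]
    exact norm_vec_le hξ i
  have hent : ∀ i j, ‖((Kak.flow ξ hξ t).toMatrix - 1) i j‖ ≤ 4 * t := by
    intro i j
    have e : ((Kak.flow ξ hξ t).toMatrix - 1) i j =
        ((Real.cosh t - 1 : ℝ) : ℂ) * (vec ξ i * star (vec ξ) j) +
        ((Real.sinh t : ℝ) : ℂ) * (vec ξ i * base n j) +
        ((Real.sinh t : ℝ) : ℂ) * (base n i * star (vec ξ) j) +
        ((Real.cosh t - 1 : ℝ) : ℂ) * (base n i * base n j) := by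
      rw [Kak.toMatrix_flow, Kak.MM]
      simp only [Matrix.sub_apply, Matrix.add_apply, Matrix.smul_apply, Matrix.vecMulVec_apply,
        smul_eq_mul]
      ring
    rw [e]
    have b1 := norm_prod_le hcn (norm_vec_le hξ i) (hst j)
    have b2 := norm_prod_le hsn (norm_vec_le hξ i) (norm_base_le j)
    have b3 := norm_prod_le hsn (norm_base_le (n := n) i) (hst j)
    have b4 := norm_prod_le hcn (norm_base_le (n := n) i) (norm_base_le (n := n) j)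
    refine (norm_add_le _ _).trans ?_
    have c1 := norm_add_le (((Real.cosh t - 1 : ℝ) : ℂ) * (vec ξ i * star (vec ξ) j) +
        ((Real.sinh t : ℝ) : ℂ) * (vec ξ i * base n j))
        (((Real.sinh t : ℝ) : ℂ) * (base n i * star (vec ξ) j))
    have c2 := norm_add_le (((Real.cosh t - 1 : ℝ) : ℂ) * (vec ξ i * star (vec ξ) j))
        (((Real.sinh t : ℝ) : ℂ) * (vec ξ i * base n j))
    linarith
  have h2 := Ax.norm_sq_le_frob ((Kak.flow ξ hξ t).toMatrix - 1)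
  have h3 : ∑ j, ∑ i, ‖((Kak.flow ξ hξ t).toMatrix - 1) i j‖ ^ 2 ≤
      ∑ _j : Fin (n + 1), ∑ _i : Fin (n + 1), (4 * t) ^ 2 :=
    Finset.sum_le_sum fun j _ => Finset.sum_le_sum fun i _ =>
      pow_le_pow_left₀ (norm_nonneg _) (hent i j) 2
  have h4 : ‖(Kak.flow ξ hξ t).toMatrix - 1‖ ^ 2 ≤ (4 * (n + 1) * t) ^ 2 := by
    refine (h2.trans h3).trans (le_of_eq ?_)
    simp only [Finset.sum_const, Finset.card_univ, Fintype.card_fin, nsmul_eq_mul]
    push_cast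
    ring
  exact le_of_sq_le_sq h4 (by positivity)

theorem loc_of_left (hn : 1 ≤ n) {Y : Type} [MetricSpace Y] {f : SUGroup n → Y}
    (hk : ∀ g x : SUGroup n, ch x = 1 → f (g * x) = f g) {N : ℕ} {C : ℝ} (hC : 0 < C)
    (h : ∀ a g : SUGroup n, ‖a.toMatrix - 1‖ ≤ 1 →
      dist (f g) (f (a * g)) ≤ C * ‖a.toMatrix - 1‖ * ch g ^ (2 * N)) (g : SUGroup n) :
    ∃ Λ r : ℝ, 0 ≤ Λ ∧ 0 < r ∧ ∀ x y : SUGroup n, hq x ≤ r ^ 2 → hq y ≤ r ^ 2 →
      dist (f (g * x)) (f (g * y)) ≤ Λ * dd x y := by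
  obtain ⟨M, hM⟩ : ∃ M : ℝ, M = 4 * ch g := ⟨_, rfl⟩
  have hM0 : 0 < M := by
    have := one_le_ch g
    linarith
  obtain ⟨A, hA⟩ : ∃ A : ℝ, A = (2 * (n + 1)) ^ 2 * M ^ 2 * (4 * (n + 1)) := ⟨_, rfl⟩
  have hA0 : 0 < A := by
    rw [hA]
    positivity
  obtain ⟨r, hr⟩ : ∃ r : ℝ, r = min (1 / 4) (1 / (4 * A)) := ⟨_, rfl⟩
  have hr0 : 0 < r := by
    rw [hr]
    exact lt_min (by norm_num) (by positivity)
  have hr4 : r ≤ 1 / 4 := by rw [hr]; exact min_le_left _ _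
  have hrA : 4 * A * r ≤ 1 := by
    have h1 : r ≤ 1 / (4 * A) := by rw [hr]; exact min_le_right _ _
    rw [le_div_iff₀ (by positivity)] at h1
    linarith
  refine ⟨C * A * M ^ (2 * N) * 2, r, by positivity, hr0, fun x y hx hy => ?_⟩
  have hq0 : ∀ z : SUGroup n, 0 ≤ hq z := fun z => by rw [← nr_zc_sq]; exact sq_nonneg _
  have e1 : ∀ z : SUGroup n, dd z 1 = Real.sqrt (hq z) := fun z => by
    rw [dd_comm, dd, inv_one, _root_.one_mul]
  have h1 : dd x y ≤ 2 * r := by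
    have h2 := dd_triangle x 1 y
    rw [dd_comm 1 y, e1, e1] at h2
    have h3 : Real.sqrt (hq x) ≤ r := Real.sqrt_le_iff.2 ⟨hr0.le, hx⟩
    have h4 : Real.sqrt (hq y) ≤ r := Real.sqrt_le_iff.2 ⟨hr0.le, hy⟩
    linarith
  obtain ⟨z, hz⟩ : ∃ z, z = x⁻¹ * y := ⟨_, rfl⟩
  have hdz : dd x y = Real.sqrt (hq z) := by rw [dd, hz]
  have h2 : hq z ≤ 1 / 4 := by
    have h3 : Real.sqrt (hq z) ≤ 1 / 2 := by rw [← hdz]; linarith
    have h4 := (Real.sqrt_le_left (by norm_num)).1 h3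
    linarith
  obtain ⟨ξ, hξ, t, k, ht, hkk, hzk⟩ := Kak.exists_polar hn z
  have hw : wt z = Real.exp t := by
    rw [hzk, Kak.wt_eq_of_ch (ch_mul_of_ch_eq_one hkk (Kak.flow ξ hξ t)).2, Kak.wt_flow hξ ht]
  have hlog : t ≤ 2 * dd x y := by
    have h3 := log_wt_le_sqrt h2
    rw [hw, Real.log_exp, ← hdz] at h3
    exact h3
  have hchx : ch x ≤ 2 := by
    have h3 : hq x ≤ 1 / 16 := by nlinarith
    have h4 := one_le_ch x
    have h5 : (15 / 16 : ℝ) ≤ (ch x ^ 2)⁻¹ := by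
      unfold hq at h3
      linarith
    have h6 : ch x ^ 2 ≤ 16 / 15 := by
      have h7 := inv_anti₀ (by norm_num) h5
      rw [inv_inv] at h7
      norm_num at h7 ⊢
      linarith
    nlinarith
  have hchgx : ch (g * x) ≤ M := by
    have h3 := ch_mul_le' g x
    have h4 := one_le_ch g
    rw [hM]
    nlinarith
  have hch0 : 0 ≤ ch (g * x) := zero_le_one.trans (one_le_ch _)
  obtain ⟨b, hb⟩ : ∃ b, b = Kak.flow ξ hξ t := ⟨_, rfl⟩
  have e2 : g * y = g * x * b * k := by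
    have h3 : y = x * z := by rw [hz]; group
    rw [h3, hzk, hb]
    group
  have e3 : g * x * b = (g * x * b * (g * x)⁻¹) * (g * x) := by group
  have ht1 : t ≤ 1 := by linarith
  have h5 : ‖(g * x * b * (g * x)⁻¹).toMatrix - 1‖ ≤ A * t := by
    refine (Ax.norm_conj_sub_one (g * x) b).trans ?_
    have h6 := norm_flow_sub hξ ht ht1
    rw [← hb] at h6
    calc (2 * (n + 1)) ^ 2 * ch (g * x) ^ 2 * ‖b.toMatrix - 1‖
        ≤ (2 * (n + 1)) ^ 2 * M ^ 2 * (4 * (n + 1) * t) := by gcongr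
      _ = A * t := by rw [hA]; ring
  have h6 : A * t ≤ 1 := by
    have h7 : A * t ≤ A * (4 * r) := mul_le_mul_of_nonneg_left (by linarith) hA0.le
    linarith
  rw [e2, hk _ _ hkk, e3]
  refine (h _ (g * x) (h5.trans h6)).trans ?_
  calc C * ‖(g * x * b * (g * x)⁻¹).toMatrix - 1‖ * ch (g * x) ^ (2 * N)
      ≤ C * (A * t) * M ^ (2 * N) := by gcongr
    _ ≤ C * (A * (2 * dd x y)) * M ^ (2 * N) := by gcongr
    _ = C * A * M ^ (2 * N) * 2 * dd x y := by ring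

end Pool.Agent.Lib.MP_5d4057_al.IN
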