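import Pool.Agent.Lib.MP_5d4057_al.IN.GoodOf
import Pool.Agent.Lib.MP_5d4057_al.IN.LimLat
import Pool.Agent.Lib.MP_5d4057_al.IN.LimCOf
import Pool.Agent.Lib.MP_5d4057_al.IN.LocL
import Pool.Agent.Lib.MP_5d4057_al.IN.DFinN
import Pool.Agent.Lib.MP_5d4057_al.IN.FMaxN

/-!
# INT: THEOREM G for all lattices (parts A, B, C, D together)
-/

namespace Pool.Agent.Lib.MP_5d4057_al.IN

open Matrix MeasureTheory Filter Topology Module Pool.Agent.Lib.MP_5d4057_al
  Pool.Agent.Lib.MP_5d4057_al.Hyb Pool.Agent.Lib.MP_5d4057_al.HM Pool.Agent.Lib.MP_5d4057_al.NU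

open scoped ENNReal

variable {n : ℕ} {k : Type} [NontriviallyNormedField k] [IsUltrametricDist k] [ProperSpace k]
  {V : Type} [AddCommGroup V] [Module k V] [FiniteDimensional k V]

/-! ### The whole space as a block -/

theorem lv_of_orthF {W : Type} [AddCommGroup W] [Module k W] [FiniteDimensional k W]
    {N N' : Nm k W} {m : ℕ} (hm : m = finrank k W) {w : Fin m → W} (h : OrthF N w)
    (h' : OrthF N' w) : N'.lv - N.lv = ∑ i, Real.log (N' (w i) / N (w i)) := by
  subst hm
  obtain ⟨b, h1, hw⟩ := h.exists_basis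
  have hb : ⇑b = w := funext fun i => hw i i rfl
  have h2 : IsOrth N' b := isOrth_iff.2 fun x i => by rw [hb]; exact h'.2 x i
  rw [lv_sub h1 h2, hb]

omit [IsUltrametricDist k] [ProperSpace k] [FiniteDimensional k V] in
theorem rk_id : rk (LinearMap.id : V →ₗ[k] V) = finrank k V := by
  rw [rk, LinearMap.range_id, finrank_top]

theorem isBlk_id (hV : 0 < finrank k V) : IsBlk (LinearMap.id : V →ₗ[k] V) := by
  refine ⟨LinearMap.ext fun v => rfl, fun h => ?_⟩
  have h1 := rk_id (k := k) (V := V)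
  rw [h, rk, LinearMap.range_zero, finrank_bot] at h1
  omega

theorem orthF_id {N : Nm k V} {b : Basis (Fin (finrank k V)) k V} (hb : IsOrth N b) :
    OrthF (rs LinearMap.id N) fun i =>
      (⟨b i, LinearMap.mem_range.2 ⟨b i, rfl⟩⟩ : LinearMap.range (LinearMap.id : V →ₗ[k] V)) := by
  refine ⟨fun i h => b.ne_zero i (congrArg Subtype.val h), fun c i => ?_⟩
  have h1 := isOrth_iff.1 hb c i
  have e : rs LinearMap.id N (∑ l, c l • (⟨b l, LinearMap.mem_range.2 ⟨b l, rfl⟩⟩ :
      LinearMap.range (LinearMap.id : V →ₗ[k] V))) = N (∑ l, c l • b l) := by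
    rw [rs, Nm.res_apply, Submodule.coe_sum]
    rfl
  rw [e]
  exact h1

theorem Phi_id (N N' : Nm k V) : Phi (rs LinearMap.id N) (rs LinearMap.id N') = Phi N N' := by
  obtain ⟨b, h1, h2, -⟩ := exists_orth2 N N'
  rw [Phi_of_orthF rk_id.symm (orthF_id h1) (orthF_id h2), Phi_eq h1 h2]
  rfl

theorem av_id_sub (N N' : Nm k V) :
    av LinearMap.id N' - av LinearMap.id N = N'.lv - N.lv := by
  obtain ⟨b, h1, h2, -⟩ := exists_orth2 N N'
  rw [av, av, lv_of_orthF rk_id.symm (orthF_id h1) (orthF_id h2), lv_sub h1 h2]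
  rfl

theorem phn_id {N N' : Nm k V} (h : N.lv = 0) (h' : N'.lv = 0) :
    phn LinearMap.id N N' = Phi N N' := by
  rw [phn, Phi_id, av_id_sub, h, h']
  simp

/-! ### THEOREM G -/

variable {Γ : Subgroup (SUGroup n)} {χ : SUGroup n → ℝ} {y : Vec n → ℝ}

/-- **THEOREM G.** Let `Γ` be a lattice in `SU(n,1)` and `ρ` a representation over a local field with
`span ρ = End V` and `|det ρ| = 1`. Then there is an equivariant map to the space of norms whose
logarithms are plurisubharmonic. -/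
theorem exists_pshG (hn : 1 ≤ n) (hV : 0 < finrank k V) (hχ : Lat Γ χ) (hy : Ht Γ 64 y)
    {ρ : Γ →* (V ≃ₗ[k] V)} (hR : Rep ρ) (hI : InN ρ y) : ∃ f : Vec n → Nm k V, PshG ρ f := by
  obtain ⟨N₀, F, f, C, hN₀, hF, hg⟩ := exists_limN hn hV hχ hy hR hI
  obtain ⟨C₁, s, a, b, happ⟩ := hF.app
  obtain ⟨N, C₂, hC₂, hloc⟩ := hF.loc
  have hL : LimC f := happ.limC hn hF.lv fun g => loc_of_left hn hF.eqv.kinv hC₂ hloc g
  have hsec : ∀ g : SUGroup n, f (sec n (act g (base n))) = f g :=
    (exists_cone (u := f) hF.eqv.kinv).2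
  have hhom : Homog fun v => f (sec n v) := (exists_cone (u := f) hF.eqv.kinv).1
  have hequi : ∀ (γ : Γ), ∀ v ∈ Cone n, f (sec n (act (γ : SUGroup n) v)) =
      (f (sec n v)).act (ρ γ) := by
    intro γ v hv
    obtain ⟨c, hc, h⟩ := sec_spec hv
    have e1 : f (sec n (act (γ : SUGroup n) v)) = f ((γ : SUGroup n) * sec n v) := by
      conv_lhs => rw [h, act_smul, ← act_mul, sec_smul (orbit_mem _) hc]
      exact hsec _
    rw [e1, hF.eqv.equi, nmAct_apply]
  have hr : 0 < rk (LinearMap.id : V →ₗ[k] V) := by rw [rk_id]; exact hV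
  have hG := good_of hn hL hg (rk (LinearMap.id : V →ₗ[k] V)) LinearMap.id (isBlk_id hV)
    (by omega) (Cone n) (isOpen_cone n) subset_rfl fun v _ w => le_rfl
  have hphf : ∀ g h : SUGroup n, phf f LinearMap.id (act g (base n)) (act h (base n)) =
      Phi (f g) (f h) := by
    intro g h
    rw [phf, hsec, hsec, phn_id (hF.lv g) (hF.lv h)]
  obtain ⟨C₃, hC₃, hdsp⟩ := hF.dsp
  have hκ : 0 ≤ (nmCN k V).C := zero_le_one.trans (nmCN k V).one_le
  have hvs := D.psh_of_good_lat hn hχ hy hG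
    (fun γ hγ v hv w hw => by
      have e1 := hequi ⟨γ, hγ⟩ v hv
      have e2 := hequi ⟨γ, hγ⟩ w hw
      simp only at e1 e2
      rw [phf, phf, e1, e2, phn_id, phn_id (hF.lv _) (hF.lv _), Phi_act]
      · rw [Nm.lv_act _ _ (hR.det _), hF.lv]
      · rw [Nm.lv_act _ _ (hR.det _), hF.lv])
    (fun x => by
      have e : (fun g : SUGroup n => phf f LinearMap.id (act g (base n)) (act (g * x) (base n))) =
          fun g => Phi (f g) (f (g * x)) := funext fun g => hphf g (g * x)
      rw [e]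
      have h1 : Continuous fun q : Nm k V × Nm k V => (nmCN k V).ph q.1 q.2 :=
        (nmCN k V).tgt.continuous
      exact (h1.comp (hF.eqv.cont.prodMk
        (hF.eqv.cont.comp (continuous_id.mul continuous_const)))).measurable)
    (C := (nmCN k V).C * C₃)
    (fun x => by
      have h1 : LI χ (fun g => ENNReal.ofReal
          (phf f LinearMap.id (act g (base n)) (act (g * x) (base n)))) ≤
          LI χ fun g => ENNReal.ofReal (nmCN k V).C *
            ENNReal.ofReal (dist (f g) (f (g * x)) ^ 2) := by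
        refine LI_mono fun g => ?_
        rw [hphf, ← ENNReal.ofReal_mul hκ]
        exact ENNReal.ofReal_le_ofReal ((nmCN k V).upper _ _)
      refine h1.trans ?_
      have h2 : AEMeasurable (fun g => ENNReal.ofReal (dist (f g) (f (g * x)) ^ 2)) (mu n) :=
        (ENNReal.measurable_ofReal.comp ((hF.eqv.cont.dist
          (hF.eqv.cont.comp (continuous_id.mul continuous_const))).pow 2).measurable).aemeasurable
      rw [LI_const_mul hχ _ h2, mul_assoc, ENNReal.ofReal_mul hκ]
      exact mul_le_mul_right (hdsp x) _)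
  refine ⟨fun v => f (sec n v), hhom, continuousOn_sec hF.eqv.cont, ⟨dist (f 1) N₀ + C, fun g => ?_⟩,
    hequi, fun w hw => ?_⟩
  · show dist (f (sec n (base n))) (f (sec n (act g (base n)))) ≤ _
    rw [hsec, sec_base]
    have h1 := dist_triangle (f 1) N₀ (f g)
    have h2 := hg g
    have h3 : 0 ≤ Real.log (wt g) := Real.log_nonneg (one_le_wt g)
    have h4 : 0 ≤ dist (f 1) N₀ := dist_nonneg
    nlinarith [mul_nonneg h4 h3]
  · have h1 := hvs (yf f LinearMap.id w (av LinearMap.id N₀ / rk (LinearMap.id : V →ₗ[k] V)))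
      ⟨w, LinearMap.mem_range.2 ⟨w, rfl⟩, hw, _, rfl⟩
    have e : yf f LinearMap.id w (av LinearMap.id N₀ / rk (LinearMap.id : V →ₗ[k] V)) =
        fun v => Real.log (f (sec n v) w) := by
      funext v
      have h2 := av_id_sub N₀ (f (sec n v))
      rw [hN₀, hF.lv, sub_zero, sub_eq_zero] at h2
      rw [yf, h2]
      ring
    rwa [e] at h1

end Pool.Agent.Lib.MP_5d4057_al.IN
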