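import Pool.Agent.Lib.MP_5d4057_al.IN.AvgA

/-! Mass and volume (text C1). -/

set_option autoImplicit false

namespace Pool.Agent.Lib.MP_5d4057_al.IN

open Matrix MeasureTheory Filter Topology Pool.Agent.Lib.MP_5d4057_al Pool.Agent.Lib.MP_5d4057_al.Hyb
  Pool.Agent.Lib.MP_5d4057_al.HM

variable {n : ℕ}

private theorem ab_integrable {r : ℝ} (hr : 0 < r) (hr1 : r < 1) {f : SUGroup n → ℝ}
    (hf : Continuous f) (h : ∀ x, r ^ 2 ≤ hq x → f x = 0) : Integrable f (mu n) := by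
  refine hf.integrable_of_hasCompactSupport ?_
  refine HasCompactSupport.intro (isCompact_hq hr1 hr.le) fun x hx => ?_
  have h1 : ¬ hq x ≤ r ^ 2 := hx
  exact h x (not_le.1 h1).le

private theorem ab_setInt {r : ℝ} {f : SUGroup n → ℝ}
    (h : ∀ x, r ^ 2 ≤ hq x → f x = 0) :
    ∫ x in {x : SUGroup n | hq x ≤ r ^ 2}, f x ∂(mu n) = ∫ x, f x ∂(mu n) := by
  refine setIntegral_eq_integral_of_forall_compl_eq_zero fun x hx => ?_
  have h1 : ¬ hq x ≤ r ^ 2 := hx
  exact h x (not_le.1 h1).le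

private theorem ab_meas (t : ℝ) : MeasurableSet {x : SUGroup n | hq x ≤ t} :=
  measurableSet_le continuous_hq.measurable measurable_const

private theorem ab_hq_one : hq (1 : SUGroup n) = 0 := by
  rw [hq, ch_one]
  norm_num

private theorem ab_hq_nonneg (x : SUGroup n) : 0 ≤ hq x := by
  rw [hq]
  have h1 := one_le_ch x
  have h2 : 1 ≤ ch x ^ 2 := one_le_pow₀ h1
  have h3 : (ch x ^ 2)⁻¹ ≤ 1 := inv_le_one_of_one_le₀ h2
  linarith

theorem integrable_wk {r : ℝ} (hr : 0 < r) (hr1 : r < 1) : Integrable (wk n r) (mu n) :=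
  ab_integrable hr hr1 (continuous_wk r) fun _ hx => wk_eq_zero hr hx

private theorem ab_mass (hn : 1 ≤ n) {e r : ℝ} (he : 0 < e) (her : e < r) (hr : r < 1) :
    ∫ x, wk n r x ∂(mu n) = ∫ x, wk n e x ∂(mu n) := by
  obtain ⟨φ, hφ, hφ2, -, -, hφs, hL⟩ := exists_gf hn he her hr
  have h1 := green_wk hn he her hr hφ hφ2 hφs hL (h := fun _ => 1) (fun _ _ _ _ => rfl)
    contDiffOn_const 1
  have h2 : ∀ v : Vec n, Lap (fun _ : Vec n => (1 : ℝ)) v = 0 := by
    intro v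
    unfold Lap
    simp
  simp only [h2, mul_zero, integral_zero, mul_one] at h1
  rw [integral_sub (integrable_wk (he.trans her) hr) (integrable_wk he (her.trans hr))] at h1
  linarith

/-- The mass does not depend on `r`: `green_wk` with `h = 1` (`exists_gf`; two cases `r < 1/2`, `1/2 < r`). -/
theorem integral_wk (hn : 1 ≤ n) {r : ℝ} (hr : 0 < r) (hr1 : r < 1) :
    ∫ x, wk n r x ∂(mu n) = cw n := by
  unfold cw
  rcases lt_trichotomy r (1 / 2) with h | h | h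
  · exact (ab_mass hn hr h (by norm_num)).symm
  · rw [h]
  · exact ab_mass hn (by norm_num) h hr1

theorem cw_pos (n : ℕ) : 0 < cw n := by
  unfold cw
  have h0 : (0 : ℝ) < 1 / 2 := by norm_num
  refine (continuous_wk (1 / 2)).integral_pos_of_hasCompactSupport_nonneg_nonzero (x := 1) ?_
    (fun x => wk_nonneg h0 x) ?_
  · refine HasCompactSupport.intro (isCompact_hq (r := 1 / 2) (by norm_num) h0.le) fun x hx => ?_
    have h1 : ¬ hq x ≤ (1 / 2) ^ 2 := hx
    exact wk_eq_zero h0 (not_le.1 h1).le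
  · rw [wk, ab_hq_one, zero_div, th_eq_one (by norm_num), ch_one]
    positivity

theorem bk_nonneg {r : ℝ} (hr : 0 < r) (x : SUGroup n) : 0 ≤ bk r x :=
  div_nonneg (wk_nonneg hr x) (cw_pos n).le

theorem integrable_bk {r : ℝ} (hr : 0 < r) (hr1 : r < 1) : Integrable (bk (n := n) r) (mu n) :=
  (integrable_wk hr hr1).div_const _

theorem integral_bk (hn : 1 ≤ n) {r : ℝ} (hr : 0 < r) (hr1 : r < 1) :
    ∫ x : SUGroup n, bk r x ∂(mu n) = 1 := by
  unfold bk
  rw [integral_div, integral_wk hn hr hr1, div_self (cw_pos n).ne']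

private theorem ab_bk_zero {r : ℝ} (hr : 0 < r) {x : SUGroup n} (h : r ^ 2 ≤ hq x) :
    bk r x = 0 := by
  rw [bk, wk_eq_zero hr h, zero_div]

/-- `C = 1 / cw n`. -/
theorem bk_le (n : ℕ) : ∃ C : ℝ, 0 < C ∧ ∀ r : ℝ, 0 < r → ∀ x : SUGroup n,
    bk r x ≤ C * (r ^ (2 * n))⁻¹ := by
  have h0 := cw_pos n
  refine ⟨(cw n)⁻¹, inv_pos.2 h0, fun r hr x => ?_⟩
  have h1 : wk n r x ≤ (r ^ (2 * n))⁻¹ := by
    unfold wk
    have h2 : (ch x ^ (2 * (n + 1)))⁻¹ ≤ 1 := inv_le_one_of_one_le₀ (one_le_pow₀ (one_le_ch x))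
    have h3 := th_le_one (hq x / r ^ 2)
    have h4 := th_nonneg (hq x / r ^ 2)
    have h5 : 0 ≤ (ch x ^ (2 * (n + 1)))⁻¹ := inv_nonneg.2 (pow_nonneg (ch_pos x).le _)
    have h6 : 0 ≤ (r ^ (2 * n))⁻¹ := by positivity
    rw [mul_assoc]
    exact mul_le_of_le_one_right h6 (mul_le_one₀ h2 h4 h3)
  rw [bk, div_eq_mul_inv, mul_comm]
  exact mul_le_mul_of_nonneg_left h1 (inv_nonneg.2 h0.le)

/-- on `hq x ≤ r²/4 ≤ 1/4` the bump is at least `(3/4)^(n+1) / cw n * r^(-2n)`. -/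
theorem bk_ge (n : ℕ) : ∃ c : ℝ, 0 < c ∧ ∀ r : ℝ, 0 < r → r ≤ 1 → ∀ x : SUGroup n,
    hq x ≤ r ^ 2 / 4 → c * (r ^ (2 * n))⁻¹ ≤ bk r x := by
  have h0 := cw_pos n
  refine ⟨(3 / 4) ^ (n + 1) / cw n, by positivity, fun r hr hr1 x hx => ?_⟩
  have hr2 : 0 < r ^ 2 := by positivity
  have h1 : hq x / r ^ 2 ≤ 1 / 4 := by
    rw [div_le_iff₀ hr2]
    linarith
  have h2 : r ^ 2 ≤ 1 := pow_le_one₀ hr.le hr1
  have h3 : 3 / 4 ≤ (ch x ^ 2)⁻¹ := by
    have h4 : hq x = 1 - (ch x ^ 2)⁻¹ := rfl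
    linarith
  have h4 : (3 / 4) ^ (n + 1) ≤ (ch x ^ (2 * (n + 1)))⁻¹ := by
    rw [pow_mul, ← inv_pow]
    exact pow_le_pow_left₀ (by norm_num) h3 _
  rw [bk, wk, th_eq_one h1, mul_one, div_mul_eq_mul_div, div_le_div_iff_of_pos_right h0, mul_comm]
  exact mul_le_mul_of_nonneg_left h4 (by positivity)

/-- Volume of balls. Upper bound: `1 = ∫ bk (2 r) >= c (2r)^(-2n) vol` for `r <= 1/2` (use `bk_ge` with
`2 r ≤ 1`; for `2 r = 1` take the radius `2r` replaced by a limit or treat `r ∈ [1/4, 1/2]` by compactness).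
Lower bound: `1 = ∫ bk r <= C r^(-2n) vol`. -/
theorem vol_le (hn : 1 ≤ n) : ∃ C : ℝ, 0 < C ∧ ∀ r : ℝ, 0 < r → r ≤ 1 / 2 →
    (mu n).real {x : SUGroup n | hq x ≤ r ^ 2} ≤ C * r ^ (2 * n) := by
  obtain ⟨c, hc, hb⟩ := bk_ge n
  obtain ⟨V, hV⟩ : ∃ V : ℝ, V = (mu n).real {x : SUGroup n | hq x ≤ (1 / 2) ^ 2} := ⟨_, rfl⟩
  have hV0 : 0 ≤ V := by
    rw [hV]
    exact measureReal_nonneg
  refine ⟨2 ^ (2 * n) / c + 2 ^ (2 * n) * V, by positivity, fun r hr hr1 => ?_⟩
  have hr2 : 0 ≤ r ^ (2 * n) := by positivity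
  rcases lt_or_eq_of_le hr1 with h | h
  · have h2r : 0 < 2 * r := by linarith
    have h2r1 : 2 * r < 1 := by linarith
    have hS := ab_meas (n := n) (r ^ 2)
    have hfin : (mu n) {x : SUGroup n | hq x ≤ r ^ 2} ≠ ⊤ :=
      (isCompact_hq (by linarith) hr.le).measure_lt_top.ne
    have h1 : (mu n).real {x : SUGroup n | hq x ≤ r ^ 2} * (c * ((2 * r) ^ (2 * n))⁻¹) ≤ 1 := by
      have h2 : ∫ _x in {x : SUGroup n | hq x ≤ r ^ 2}, c * ((2 * r) ^ (2 * n))⁻¹ ∂(mu n) ≤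
          ∫ x in {x : SUGroup n | hq x ≤ r ^ 2}, bk (2 * r) x ∂(mu n) := by
        refine setIntegral_mono_on ?_ (integrable_bk h2r h2r1).integrableOn hS fun x hx => ?_
        · exact integrableOn_const hfin
        · refine hb (2 * r) h2r h2r1.le x ?_
          have h3 : hq x ≤ r ^ 2 := hx
          linarith [h3, show (2 * r) ^ 2 / 4 = r ^ 2 by ring]
      have h3 : ∫ x in {x : SUGroup n | hq x ≤ r ^ 2}, bk (2 * r) x ∂(mu n) ≤
          ∫ x, bk (2 * r) x ∂(mu n) :=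
        setIntegral_le_integral (integrable_bk h2r h2r1)
          (Eventually.of_forall fun x => bk_nonneg h2r x)
      rw [setIntegral_const, smul_eq_mul] at h2
      rw [integral_bk hn h2r h2r1] at h3
      exact h2.trans h3
    have h2 : (mu n).real {x : SUGroup n | hq x ≤ r ^ 2} ≤ 2 ^ (2 * n) / c * r ^ (2 * n) := by
      have h4 : 0 < c * ((2 * r) ^ (2 * n))⁻¹ := by positivity
      rw [← le_div_iff₀ h4] at h1
      refine h1.trans (le_of_eq ?_)
      rw [mul_pow]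
      field_simp
    refine h2.trans ?_
    have h5 : 0 ≤ 2 ^ (2 * n) * V * r ^ (2 * n) := by positivity
    linarith [add_mul (2 ^ (2 * n) / c) (2 ^ (2 * n) * V) (r ^ (2 * n))]
  · rw [h, ← hV]
    have h1 : (2 : ℝ) ^ (2 * n) * (1 / 2) ^ (2 * n) = 1 := by
      rw [← mul_pow]
      norm_num
    have h2 : (2 ^ (2 * n) / c + 2 ^ (2 * n) * V) * (1 / 2) ^ (2 * n) =
        2 ^ (2 * n) / c * (1 / 2) ^ (2 * n) + V := by
      linear_combination V * h1
    rw [h2]
    have h3 : 0 ≤ (2 : ℝ) ^ (2 * n) / c * (1 / 2) ^ (2 * n) := by positivity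
    linarith

theorem vol_ge (hn : 1 ≤ n) : ∃ c : ℝ, 0 < c ∧ ∀ r : ℝ, 0 < r → r < 1 →
    c * r ^ (2 * n) ≤ (mu n).real {x : SUGroup n | hq x ≤ r ^ 2} := by
  obtain ⟨C, hC, hb⟩ := bk_le n
  refine ⟨C⁻¹, inv_pos.2 hC, fun r hr hr1 => ?_⟩
  have hS := ab_meas (n := n) (r ^ 2)
  have hfin : (mu n) {x : SUGroup n | hq x ≤ r ^ 2} ≠ ⊤ :=
    (isCompact_hq hr1 hr.le).measure_lt_top.ne
  have h1 : 1 ≤ (mu n).real {x : SUGroup n | hq x ≤ r ^ 2} * (C * (r ^ (2 * n))⁻¹) := by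
    have h2 : ∫ x in {x : SUGroup n | hq x ≤ r ^ 2}, bk r x ∂(mu n) ≤
        ∫ _x in {x : SUGroup n | hq x ≤ r ^ 2}, C * (r ^ (2 * n))⁻¹ ∂(mu n) :=
      setIntegral_mono_on (integrable_bk hr hr1).integrableOn (integrableOn_const hfin) hS
        fun x _ => hb r hr x
    rw [ab_setInt (r := r) fun x hx => ab_bk_zero hr hx, integral_bk hn hr hr1, setIntegral_const,
      smul_eq_mul] at h2
    exact h2
  have h4 : 0 < C * (r ^ (2 * n))⁻¹ := by positivity
  rw [← div_le_iff₀ h4] at h1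
  refine le_trans (le_of_eq ?_) h1
  field_simp

/-! Elementary properties of the averages. -/

theorem integrable_AA {r : ℝ} (hr : 0 < r) (hr1 : r < 1) {u : SUGroup n → ℝ} (hu : Continuous u)
    (g : SUGroup n) : Integrable (fun x => bk r x * u (g * x)) (mu n) := by
  refine ab_integrable hr hr1 ?_ fun x hx => ?_
  · exact (continuous_bk r).mul (hu.comp (continuous_const_mul g))
  · rw [ab_bk_zero hr hx, zero_mul]

theorem AA_const (hn : 1 ≤ n) {r : ℝ} (hr : 0 < r) (hr1 : r < 1) (c : ℝ) (g : SUGroup n) :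
    AA r (fun _ => c) g = c := by
  unfold AA
  rw [integral_mul_const, integral_bk hn hr hr1, one_mul]

theorem AA_add {r : ℝ} (hr : 0 < r) (hr1 : r < 1) {u v : SUGroup n → ℝ} (hu : Continuous u)
    (hv : Continuous v) (g : SUGroup n) : AA r (fun x => u x + v x) g = AA r u g + AA r v g := by
  unfold AA
  rw [← integral_add (integrable_AA hr hr1 hu g) (integrable_AA hr hr1 hv g)]
  simp only [mul_add]

theorem AA_sub {r : ℝ} (hr : 0 < r) (hr1 : r < 1) {u v : SUGroup n → ℝ} (hu : Continuous u)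
    (hv : Continuous v) (g : SUGroup n) : AA r (fun x => u x - v x) g = AA r u g - AA r v g := by
  unfold AA
  rw [← integral_sub (integrable_AA hr hr1 hu g) (integrable_AA hr hr1 hv g)]
  simp only [mul_sub]

theorem AA_smul (r c : ℝ) (u : SUGroup n → ℝ) (g : SUGroup n) :
    AA r (fun x => c * u x) g = c * AA r u g := by
  unfold AA
  rw [← integral_const_mul]
  refine integral_congr_ae (Eventually.of_forall fun x => ?_)
  show bk r x * (c * u (g * x)) = c * (bk r x * u (g * x))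
  ring

/-- Monotonicity: only the points of the ball of radius `r` about `g` matter. -/
theorem AA_mono {r : ℝ} (hr : 0 < r) (hr1 : r < 1) {u v : SUGroup n → ℝ} (hu : Continuous u)
    (hv : Continuous v) {g : SUGroup n} (h : ∀ x, hq x ≤ r ^ 2 → u (g * x) ≤ v (g * x)) :
    AA r u g ≤ AA r v g := by
  unfold AA
  refine integral_mono (integrable_AA hr hr1 hu g) (integrable_AA hr hr1 hv g) fun x => ?_
  show bk r x * u (g * x) ≤ bk r x * v (g * x)
  rcases le_or_gt (hq x) (r ^ 2) with hx | hx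
  · exact mul_le_mul_of_nonneg_left (h x hx) (bk_nonneg hr x)
  · rw [ab_bk_zero hr hx.le, zero_mul, zero_mul]

/-- If `|u| ≤ M` on the ball then `|AA r u g| ≤ M`. -/
theorem abs_AA_le (hn : 1 ≤ n) {r : ℝ} (hr : 0 < r) (hr1 : r < 1) {u : SUGroup n → ℝ}
    (hu : Continuous u) {g : SUGroup n} {M : ℝ} (h : ∀ x, hq x ≤ r ^ 2 → |u (g * x)| ≤ M) :
    |AA r u g| ≤ M := by
  have h1 := AA_mono hr hr1 hu (v := fun _ => M) continuous_const (g := g)
    fun x hx => (abs_le.1 (h x hx)).2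
  have h2 := AA_mono hr hr1 (u := fun _ => -M) continuous_const hu (g := g)
    fun x hx => (abs_le.1 (h x hx)).1
  rw [AA_const hn hr hr1] at h1 h2
  exact abs_le.2 ⟨h2, h1⟩

theorem AA_left (r : ℝ) (u : SUGroup n → ℝ) (a g : SUGroup n) :
    AA r (fun x => u (a * x)) g = AA r u (a * g) := by
  simp only [AA, mul_assoc]

theorem AA_RK (r : ℝ) (u : SUGroup n → ℝ) : RK (AA r u) := by
  intro g k hk
  unfold AA
  have h1 := integral_mul_left_eq_self (μ := mu n) (fun x => bk r (k⁻¹ * x) * u (g * x)) k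
  simp only [inv_mul_cancel_left] at h1
  simp only [mul_assoc]
  rw [h1]
  refine integral_congr_ae (Eventually.of_forall fun x => ?_)
  show bk r (k⁻¹ * x) * u (g * x) = bk r x * u (g * x)
  rw [bk, bk, wk_K (by rw [ch_inv, hk])]

theorem continuous_AA {r : ℝ} (hr : 0 < r) (hr1 : r < 1) {u : SUGroup n → ℝ} (hu : Continuous u) :
    Continuous (AA r u) := by
  rw [continuous_iff_continuousAt]
  intro g
  obtain ⟨K, hK, hgK⟩ := exists_compact_mem_nhds g
  have hB := isCompact_hq (n := n) hr1 hr.le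
  have hKB : IsCompact (K ×ˢ {x : SUGroup n | hq x ≤ r ^ 2}) := hK.prod hB
  have hcont : Continuous fun z : SUGroup n × SUGroup n => u (z.1 * z.2) := by fun_prop
  obtain ⟨M, hM⟩ := hKB.exists_bound_of_continuousOn hcont.continuousOn
  unfold AA
  refine continuousAt_of_dominated (bound := fun x => bk r x * M) ?_ ?_
    ((integrable_bk hr hr1).mul_const _) ?_
  · refine Eventually.of_forall fun g' => ?_
    exact ((continuous_bk r).mul (hu.comp (continuous_const_mul g'))).aestronglyMeasurable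
  · filter_upwards [hgK] with g' hg'
    refine Eventually.of_forall fun x => ?_
    rw [norm_mul, Real.norm_eq_abs, abs_of_nonneg (bk_nonneg hr x)]
    rcases le_or_gt (hq x) (r ^ 2) with hx | hx
    · exact mul_le_mul_of_nonneg_left (hM (g', x) ⟨hg', hx⟩) (bk_nonneg hr x)
    · rw [ab_bk_zero hr hx.le, zero_mul, zero_mul]
  · refine Eventually.of_forall fun x => ?_
    exact (continuous_const.mul (hu.comp (continuous_mul_const x))).continuousAt

private theorem ab_AA_set {r : ℝ} (hr : 0 < r) (u : SUGroup n → ℝ) (g : SUGroup n) :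
    AA r u g = ∫ x in {x : SUGroup n | hq x ≤ r ^ 2}, bk r x * u (g * x) ∂(mu n) := by
  rw [ab_setInt (r := r) fun x hx => ?_]
  · rfl
  · rw [ab_bk_zero hr hx, zero_mul]

private theorem ab_intOn {r : ℝ} (hr : 0 < r) (hr1 : r < 1) {u : SUGroup n → ℝ}
    (hu : Continuous u) (g : SUGroup n) :
    IntegrableOn (fun x => u (g * x)) {x : SUGroup n | hq x ≤ r ^ 2} (mu n) :=
  (hu.comp (continuous_const_mul g)).continuousOn.integrableOn_compact (isCompact_hq hr1 hr.le)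

/-- Upper bound by the integral over the ball. -/
theorem AA_le_int (n : ℕ) : ∃ C : ℝ, 0 < C ∧ ∀ r : ℝ, 0 < r → r < 1 → ∀ u : SUGroup n → ℝ,
    Continuous u → ∀ g : SUGroup n, (∀ x, hq x ≤ r ^ 2 → 0 ≤ u (g * x)) →
      AA r u g ≤ C * (r ^ (2 * n))⁻¹ * ∫ x in {x : SUGroup n | hq x ≤ r ^ 2}, u (g * x) ∂(mu n) := by
  obtain ⟨C, hC, hb⟩ := bk_le n
  refine ⟨C, hC, fun r hr hr1 u hu g h => ?_⟩
  rw [ab_AA_set hr, ← integral_const_mul]
  refine setIntegral_mono_on (integrable_AA hr hr1 hu g).integrableOn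
    ((ab_intOn hr hr1 hu g).const_mul _) (ab_meas _) fun x hx => ?_
  exact mul_le_mul_of_nonneg_right (hb r hr x) (h x hx)

/-- Lower bound by the integral over a part of the half ball. -/
theorem int_le_AA (n : ℕ) : ∃ c : ℝ, 0 < c ∧ ∀ r : ℝ, 0 < r → r < 1 → ∀ u : SUGroup n → ℝ,
    Continuous u → ∀ g : SUGroup n, (∀ x, hq x ≤ r ^ 2 → 0 ≤ u (g * x)) → ∀ S : Set (SUGroup n),
      MeasurableSet S → (∀ x ∈ S, hq x ≤ r ^ 2 / 4) →
        c * (r ^ (2 * n))⁻¹ * ∫ x in S, u (g * x) ∂(mu n) ≤ AA r u g := by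
  obtain ⟨c, hc, hb⟩ := bk_ge n
  refine ⟨c, hc, fun r hr hr1 u hu g h S hS hS2 => ?_⟩
  have hr2 : 0 ≤ r ^ 2 := by positivity
  have hsub : S ⊆ {x : SUGroup n | hq x ≤ r ^ 2} := fun x hx => by
    show hq x ≤ r ^ 2
    linarith [hS2 x hx]
  rw [← integral_const_mul]
  have h1 : ∫ x in S, c * (r ^ (2 * n))⁻¹ * u (g * x) ∂(mu n) ≤
      ∫ x in S, bk r x * u (g * x) ∂(mu n) := by
    refine setIntegral_mono_on (((ab_intOn hr hr1 hu g).mono_set hsub).const_mul _)
      (integrable_AA hr hr1 hu g).integrableOn hS fun x hx => ?_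
    exact mul_le_mul_of_nonneg_right (hb r hr hr1.le x (hS2 x hx)) (h x (hsub hx))
  refine h1.trans ?_
  rw [ab_AA_set hr]
  refine setIntegral_mono_set (integrable_AA hr hr1 hu g).integrableOn ?_ ?_
  · refine (ae_restrict_iff' (ab_meas _)).2 (Eventually.of_forall fun x hx => ?_)
    exact mul_nonneg (bk_nonneg hr x) (h x hx)
  · exact Eventually.of_forall hsub

end Pool.Agent.Lib.MP_5d4057_al.IN
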