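import Pool.Agent.Lib.MP_5d4057_al.IN.BallDef

/-! Geometry of the unit ball of `ℂ^n` (part C), part 1: norm, points, reflections. -/

set_option autoImplicit false

namespace Pool.Agent.Lib.MP_5d4057_al.IN

open Matrix MeasureTheory Filter Topology Pool.Agent.Lib.MP_5d4057_al Pool.Agent.Lib.MP_5d4057_al.Hyb
  Pool.Agent.Lib.MP_5d4057_al.HM

variable {n : ℕ}

/-! ### The norm (`nr z = ‖WithLp.toLp 2 z‖` in `EuclideanSpace ℂ (Fin n)`) -/

theorem nr_nonneg (z : Fin n → ℂ) : 0 ≤ nr z := Real.sqrt_nonneg _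

theorem nr_eq_norm (z : Fin n → ℂ) : nr z = ‖(WithLp.toLp 2 z : EuclideanSpace ℂ (Fin n))‖ := by
  rw [EuclideanSpace.norm_eq]
  rfl

theorem nr_sq (z : Fin n → ℂ) : nr z ^ 2 = ∑ j, ‖z j‖ ^ 2 :=
  Real.sq_sqrt (Finset.sum_nonneg fun _ _ => sq_nonneg _)

theorem nr_zero : nr (0 : Fin n → ℂ) = 0 := by
  rw [nr_eq_norm, WithLp.toLp_zero, norm_zero]

theorem nr_eq_zero {z : Fin n → ℂ} : nr z = 0 ↔ z = 0 := by
  rw [nr_eq_norm, norm_eq_zero, WithLp.toLp_eq_zero]

theorem nr_add_le (z w : Fin n → ℂ) : nr (z + w) ≤ nr z + nr w := by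
  rw [nr_eq_norm, nr_eq_norm, nr_eq_norm, WithLp.toLp_add]
  exact norm_add_le _ _

theorem nr_sub_le (z w : Fin n → ℂ) : nr (z - w) ≤ nr z + nr w := by
  rw [nr_eq_norm, nr_eq_norm, nr_eq_norm, WithLp.toLp_sub]
  exact norm_sub_le _ _

theorem nr_neg (z : Fin n → ℂ) : nr (-z) = nr z := by
  rw [nr_eq_norm, nr_eq_norm, WithLp.toLp_neg, norm_neg]

theorem nr_smul (c : ℂ) (z : Fin n → ℂ) : nr (c • z) = ‖c‖ * nr z := by
  rw [nr_eq_norm, nr_eq_norm, WithLp.toLp_smul, norm_smul]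

theorem continuous_nr : Continuous (nr (n := n)) := by
  unfold nr
  fun_prop

theorem hp_eq_inner (z w : Fin n → ℂ) : hp z w =
    inner ℂ (WithLp.toLp 2 z : EuclideanSpace ℂ (Fin n)) (WithLp.toLp 2 w) := by
  rw [PiLp.inner_apply, hp]
  refine Finset.sum_congr rfl fun j _ => ?_
  rw [RCLike.inner_apply, mul_comm]
  rfl

theorem norm_hp_le (z w : Fin n → ℂ) : ‖hp z w‖ ≤ nr z * nr w := by
  rw [hp_eq_inner, nr_eq_norm, nr_eq_norm]
  exact norm_inner_le_norm _ _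

theorem abs_ip_le (z w : Fin n → ℂ) : |ip z w| ≤ nr z * nr w :=
  (Complex.abs_re_le_norm _).trans (norm_hp_le z w)

theorem hp_self (z : Fin n → ℂ) : hp z z = ((nr z ^ 2 : ℝ) : ℂ) := by
  rw [nr_sq, hp, Complex.ofReal_sum]
  refine Finset.sum_congr rfl fun j _ => ?_
  rw [RCLike.star_def, Complex.conj_mul']
  push_cast
  rfl

theorem ip_self (z : Fin n → ℂ) : ip z z = nr z ^ 2 := by
  rw [ip, hp_self, Complex.ofReal_re]

theorem hp_add (c z w : Fin n → ℂ) : hp c (z + w) = hp c z + hp c w := by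
  simp only [hp, Pi.add_apply, mul_add, Finset.sum_add_distrib]

theorem hp_sub (c z w : Fin n → ℂ) : hp c (z - w) = hp c z - hp c w := by
  simp only [hp, Pi.sub_apply, mul_sub, Finset.sum_sub_distrib]

theorem hp_smul (c : Fin n → ℂ) (t : ℂ) (z : Fin n → ℂ) : hp c (t • z) = t * hp c z := by
  simp only [hp, Pi.smul_apply, smul_eq_mul, Finset.mul_sum]
  exact Finset.sum_congr rfl fun j _ => by ring

theorem hp_smul_left (t : ℂ) (c z : Fin n → ℂ) : hp (t • c) z = star t * hp c z := by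
  simp only [hp, Pi.smul_apply, smul_eq_mul, Finset.mul_sum, star_mul']
  exact Finset.sum_congr rfl fun j _ => by ring

theorem hp_comm (z w : Fin n → ℂ) : hp z w = star (hp w z) := by
  rw [hp, hp, star_sum]
  refine Finset.sum_congr rfl fun j _ => ?_
  rw [star_mul', star_star, mul_comm]

theorem hp_add_left (z w c : Fin n → ℂ) : hp (z + w) c = hp z c + hp w c := by
  simp only [hp, Pi.add_apply, star_add, add_mul, Finset.sum_add_distrib]

theorem hp_sub_left (z w c : Fin n → ℂ) : hp (z - w) c = hp z c - hp w c := by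
  simp only [hp, Pi.sub_apply, star_sub, sub_mul, Finset.sum_sub_distrib]

theorem hp_zero (c : Fin n → ℂ) : hp c 0 = 0 := by
  simp [hp]

theorem hp_zero_left (c : Fin n → ℂ) : hp 0 c = 0 := by
  simp [hp]

theorem ip_add (c z w : Fin n → ℂ) : ip c (z + w) = ip c z + ip c w := by
  rw [ip, hp_add, Complex.add_re, ip, ip]

theorem ip_sub (c z w : Fin n → ℂ) : ip c (z - w) = ip c z - ip c w := by
  rw [ip, hp_sub, Complex.sub_re, ip, ip]

theorem ip_smul (c : Fin n → ℂ) (t : ℝ) (z : Fin n → ℂ) : ip c ((t : ℂ) • z) = t * ip c z := by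
  rw [ip, hp_smul, Complex.re_ofReal_mul, ip]

theorem ip_comm (z w : Fin n → ℂ) : ip z w = ip w z := by
  rw [ip, hp_comm, RCLike.star_def, Complex.conj_re, ip]

theorem nr_sub_sq (z w : Fin n → ℂ) : nr (z - w) ^ 2 = nr z ^ 2 - 2 * ip z w + nr w ^ 2 := by
  rw [← ip_self, ip_sub, ip_comm (z - w) z, ip_comm (z - w) w, ip_sub, ip_sub, ip_self, ip_self,
    ip_comm w z]
  ring

/-! ### Points -/

theorem nr_zc_sq (x : SUGroup n) : nr (zc x) ^ 2 = hq x := by
  rw [nr_sq, sum_norm_zc, hq]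

theorem nr_zc_lt (x : SUGroup n) : nr (zc x) < 1 := by
  have h1 : nr (zc x) ^ 2 < 1 := by
    rw [nr_zc_sq, hq]
    have := ch_pos x
    have h2 : 0 < (ch x ^ 2)⁻¹ := by positivity
    linarith
  have h3 := nr_nonneg (zc x)
  nlinarith

/-- `s = sqrt (1 - |z|²)` -/
theorem sz_pos {z : Fin n → ℂ} (hz : nr z < 1) : 0 < Real.sqrt (1 - nr z ^ 2) := by
  have h0 := nr_nonneg z
  exact Real.sqrt_pos.2 (by nlinarith)

theorem sz_sq {z : Fin n → ℂ} (hz : nr z < 1) : Real.sqrt (1 - nr z ^ 2) ^ 2 = 1 - nr z ^ 2 := by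
  have h0 := nr_nonneg z
  exact Real.sq_sqrt (by nlinarith)

theorem nq_eq_nr_sq' (z : Fin n → ℂ) : Kak.nq z = nr z ^ 2 := by
  rw [nr_sq, Kak.nq]

/-- `|p|² = |z|² / (1 - |z|²)` for `p = z / s` -/
theorem one_add_nq {z : Fin n → ℂ} (hz : nr z < 1) :
    1 + Kak.nq (fun j => ((Real.sqrt (1 - nr z ^ 2))⁻¹ : ℝ) • z j) =
      ((Real.sqrt (1 - nr z ^ 2))⁻¹) ^ 2 := by
  have h1 := sz_pos hz
  have h2 := sz_sq hz
  have e : Kak.nq (fun j => ((Real.sqrt (1 - nr z ^ 2))⁻¹ : ℝ) • z j) =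
      ((Real.sqrt (1 - nr z ^ 2))⁻¹) ^ 2 * nr z ^ 2 := by
    rw [nr_sq, Finset.mul_sum, Kak.nq]
    refine Finset.sum_congr rfl fun j _ => ?_
    rw [norm_smul, mul_pow, Real.norm_eq_abs, sq_abs, ← nr_sq]
  rw [e]
  generalize Real.sqrt (1 - nr z ^ 2) = s at *
  have h3 : nr z ^ 2 = 1 - s ^ 2 := by linarith
  have h4 : s ≠ 0 := h1.ne'
  rw [h3]
  field_simp
  ring

theorem sqrt_one_add_nq {z : Fin n → ℂ} (hz : nr z < 1) :
    Real.sqrt (1 + Kak.nq (fun j => ((Real.sqrt (1 - nr z ^ 2))⁻¹ : ℝ) • z j)) =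
      (Real.sqrt (1 - nr z ^ 2))⁻¹ := by
  rw [one_add_nq hz, Real.sqrt_sq (inv_nonneg.2 (sz_pos hz).le)]

theorem ch_pt {z : Fin n → ℂ} (hz : nr z < 1) : ch (pt z) = (Real.sqrt (1 - nr z ^ 2))⁻¹ := by
  rw [pt, Kak.ch_bp, sqrt_one_add_nq hz]

theorem act_bl_apply (x : SUGroup n) (i : Fin (n + 1)) :
    act x (base n) i = x.toMatrix i (Fin.last n) := by
  rw [act, base, Matrix.mulVec_single_one]
  rfl

/-- `x e_n = X (vec (zc x) + e_n)` -/
theorem act_bl_eq (x : SUGroup n) :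
    act x (base n) = x.toMatrix (Fin.last n) (Fin.last n) • (vec (zc x) + base n) := by
  have h0 : x.toMatrix (Fin.last n) (Fin.last n) ≠ 0 := by
    have := ch_pos x
    rw [ch] at this
    exact norm_pos_iff.1 this
  funext i
  rw [act_bl_apply]
  refine Fin.lastCases ?_ (fun j => ?_) i
  · rw [Pi.smul_apply, Pi.add_apply, Kak.vec_last, Kak.base_last, zero_add, smul_eq_mul, mul_one]
  · rw [Pi.smul_apply, Pi.add_apply, Kak.vec_castSucc, Kak.base_castSucc, add_zero, smul_eq_mul, zc]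
    field_simp

theorem zc_of_act {x : SUGroup n} {c d : ℂ} {z : Fin n → ℂ} (hd : d ≠ 0)
    (h : act x (base n) = c • vec z + d • base n) : zc x = (c / d) • z := by
  funext j
  have h1 := congrFun h j.castSucc
  have h2 := congrFun h (Fin.last n)
  rw [act_bl_apply] at h1 h2
  rw [Pi.add_apply, Pi.smul_apply, Pi.smul_apply, Kak.vec_castSucc, Kak.base_castSucc, smul_zero,
    add_zero, smul_eq_mul] at h1
  rw [Pi.add_apply, Pi.smul_apply, Pi.smul_apply, Kak.vec_last, Kak.base_last, smul_zero,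
    zero_add, smul_eq_mul, mul_one] at h2
  rw [zc, h1, h2, Pi.smul_apply, smul_eq_mul]
  field_simp

theorem zc_of_act2 {x : SUGroup n} {X d : ℂ} {z : Fin n → ℂ} (hX : X ≠ 0) (hd : d ≠ 0)
    (h : act x (base n) = X • (vec z + d • base n)) : zc x = d⁻¹ • z := by
  rw [smul_add, smul_smul] at h
  rw [zc_of_act (mul_ne_zero hX hd) h]
  congr 1
  field_simp

theorem vec_smul' (c : ℂ) (z : Fin n → ℂ) : vec (c • z) = c • vec z := by
  ext i
  refine Fin.lastCases ?_ (fun i => ?_) i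
  · rw [Kak.vec_last, Pi.smul_apply, Kak.vec_last, smul_zero]
  · simp only [Pi.smul_apply, Kak.vec_castSucc]

theorem vec_add' (z w : Fin n → ℂ) : vec (z + w) = vec z + vec w := by
  ext i
  refine Fin.lastCases ?_ (fun i => ?_) i
  · rw [Kak.vec_last, Pi.add_apply, Kak.vec_last, Kak.vec_last, add_zero]
  · rw [Kak.vec_castSucc, Pi.add_apply, Pi.add_apply, Kak.vec_castSucc, Kak.vec_castSucc]

theorem pt_vec (z : Fin n → ℂ) : (fun j => ((Real.sqrt (1 - nr z ^ 2))⁻¹ : ℝ) • z j) =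
    (((Real.sqrt (1 - nr z ^ 2))⁻¹ : ℝ) : ℂ) • z := by
  funext j
  rw [Pi.smul_apply, Complex.real_smul, smul_eq_mul]

theorem zc_pt {z : Fin n → ℂ} (hz : nr z < 1) : zc (pt z) = z := by
  have h1 := sz_pos hz
  have h2 : (((Real.sqrt (1 - nr z ^ 2))⁻¹ : ℝ) : ℂ) ≠ 0 := by exact_mod_cast (inv_pos.2 h1).ne'
  have h := Kak.act_bp (fun j => ((Real.sqrt (1 - nr z ^ 2))⁻¹ : ℝ) • z j)
  rw [sqrt_one_add_nq hz, pt_vec, vec_smul'] at h
  have h3 := zc_of_act (x := pt z) h2 (by rw [pt, pt_vec]; exact h)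
  rw [h3, div_self h2, one_smul]

theorem pt_zero : pt (0 : Fin n → ℂ) = 1 := by
  rw [pt, pt_vec, smul_zero, Kak.bp_zero]

theorem hq_pt {z : Fin n → ℂ} (hz : nr z < 1) : hq (pt z) = nr z ^ 2 := by
  rw [← nr_zc_sq, zc_pt hz]

theorem q_vec_add (z : Fin n → ℂ) : q (vec z + base n) = nr z ^ 2 - 1 := by
  rw [q_eq, nr_sq]
  congr 1
  · refine Finset.sum_congr rfl fun j _ => ?_
    rw [Pi.add_apply, Kak.vec_castSucc, Kak.base_castSucc, add_zero]
  · rw [Pi.add_apply, Kak.vec_last, Kak.base_last, zero_add, norm_one, one_pow]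

theorem vec_add_mem {z : Fin n → ℂ} (hz : nr z < 1) : vec z + base n ∈ Cone n := by
  show q _ < 0
  rw [q_vec_add]
  have := nr_nonneg z
  nlinarith

theorem pt_eq_bp (z : Fin n → ℂ) : pt z = Kak.bp (Kak.pf (vec z + base n)) := by
  rw [pt]
  congr 1
  funext j
  rw [Kak.pf, q_vec_add, Pi.add_apply, Pi.add_apply, Kak.vec_castSucc, Kak.base_castSucc,
    Kak.vec_last, Kak.base_last, add_zero, zero_add, star_one, norm_one, mul_one, one_mul,
    neg_sub, Complex.real_smul, Complex.ofReal_inv]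
  ring

open scoped Matrix.Norms.L2Operator in
/-- continuity of `pt` on the open unit ball (even smooth) -/
theorem continuousOn_pt : ContinuousOn (pt (n := n)) {z | nr z < 1} := by
  have h1 : ContinuousOn (fun v : Vec n => (Kak.bp (Kak.pf v)).toMatrix) (Cone n) :=
    Kak.contDiffOn_sec.continuousOn
  have h2 : Continuous fun z : Fin n → ℂ => (vec z + base n : Vec n) := by
    refine continuous_pi fun i => ?_
    refine Fin.lastCases ?_ (fun j => ?_) i
    · simp only [Pi.add_apply, Kak.vec_last]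
      exact continuous_const
    · simp only [Pi.add_apply, Kak.vec_castSucc]
      exact (continuous_apply j).add continuous_const
  rw [(isClosedEmbedding_toMatrix n).isInducing.continuousOn_iff]
  refine (h1.comp h2.continuousOn fun z hz => vec_add_mem hz).congr fun z _ => ?_
  rw [Function.comp_apply, pt_eq_bp]
  rfl

/-- Two elements with the same ball coordinate differ by an element of the stabiliser: `act g base` and
`act h base` are proportional (`ch_eq_one_iff`). -/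
theorem exists_K {g h : SUGroup n} (hz : zc g = zc h) : ∃ k : SUGroup n, ch k = 1 ∧ h = g * k := by
  have hg0 : g.toMatrix (Fin.last n) (Fin.last n) ≠ 0 := by
    have := ch_pos g
    rw [ch] at this
    exact norm_pos_iff.1 this
  have e : act h (base n) = (h.toMatrix (Fin.last n) (Fin.last n) /
      g.toMatrix (Fin.last n) (Fin.last n)) • act g (base n) := by
    rw [act_bl_eq g, act_bl_eq h, hz, smul_smul, div_mul_cancel₀ _ hg0]
  refine ⟨g⁻¹ * h, ?_, by rw [mul_inv_cancel_left]⟩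
  rw [ch_eq_one_iff]
  refine ⟨h.toMatrix (Fin.last n) (Fin.last n) / g.toMatrix (Fin.last n) (Fin.last n), ?_, ?_⟩
  · have h1 := congrArg q e
    rw [q_smul, q_orbit, q_orbit] at h1
    have h2 : ‖h.toMatrix (Fin.last n) (Fin.last n) / g.toMatrix (Fin.last n) (Fin.last n)‖ ^ 2 = 1 := by
      linarith
    exact (pow_eq_one_iff_of_nonneg (norm_nonneg _) two_ne_zero).1 h2
  · rw [act_mul, e, act_smul, ← act_mul, inv_mul_cancel, act_one]

theorem RK.eq {u : SUGroup n → ℝ} (hu : RK u) {g h : SUGroup n} (hz : zc g = zc h) : u g = u h := by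
  obtain ⟨k, hk, rfl⟩ := exists_K hz
  exact (hu g k hk).symm

theorem zc_eq_of_act {g h : SUGroup n} {c : ℂ} (hc : c ≠ 0)
    (e : act h (base n) = c • act g (base n)) : zc h = zc g := by
  funext j
  have h1 := congrFun e j.castSucc
  have h2 := congrFun e (Fin.last n)
  rw [Pi.smul_apply, act_bl_apply, act_bl_apply, smul_eq_mul] at h1 h2
  rw [zc, zc, h1, h2, mul_div_mul_left _ _ hc]

/-- `zc` is invariant under the stabiliser on the right. -/
theorem zc_mul_K (g : SUGroup n) {k : SUGroup n} (hk : ch k = 1) : zc (g * k) = zc g := by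
  obtain ⟨c, hc, h⟩ := (ch_eq_one_iff k).1 hk
  have hc0 : c ≠ 0 := by
    rintro rfl
    rw [norm_zero] at hc
    exact zero_ne_one hc
  exact zc_eq_of_act hc0 (by rw [act_mul, h, act_smul])

theorem zc_mul_eq (a : SUGroup n) {g h : SUGroup n} (hz : zc g = zc h) : zc (a * g) = zc (a * h) := by
  obtain ⟨k, hk, rfl⟩ := exists_K hz
  rw [← mul_assoc, zc_mul_K _ hk]

/-- The value of the matrices `MM` on `vec ζ + e_n`. -/
theorem MM_mulVec (p ζ : Fin n → ℂ) (a b c d : ℂ) :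
    Kak.MM p a b c d *ᵥ (vec ζ + base n) =
      vec (ζ + (a * hp p ζ + b) • p) + (1 + c * hp p ζ + d) • base n := by
  have h1 : star (vec p) ⬝ᵥ vec ζ = hp p ζ := by
    rw [dotProduct, Fin.sum_univ_castSucc, hp]
    simp only [Pi.star_apply, Kak.vec_castSucc, Kak.vec_last, mul_zero, add_zero]
  simp only [Kak.MM, add_mulVec, smul_mulVec, one_mulVec, vecMulVec_mulVec, dotProduct_add, h1,
    Kak.star_vec_dot_base, Kak.base_dot_vec, Kak.base_dot_base, add_zero, zero_add,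
    MulOpposite.op_one, one_smul, op_smul_eq_smul, vec_add', vec_smul']
  module

theorem one_add_hp_ne {z : Fin n → ℂ} (hz : nr z < 1) (x : SUGroup n) : 1 + hp z (zc x) ≠ 0 := by
  intro h
  have h1 := norm_hp_le z (zc x)
  have h2 : hp z (zc x) = -1 := by linear_combination h
  rw [h2, norm_neg, norm_one] at h1
  have h3 := nr_zc_lt x
  have h4 := nr_nonneg z
  have h5 := nr_nonneg (zc x)
  nlinarith

/-- `[z] x`: the formula `φ_z (ζ) = z + (1 + <z,ζ>)⁻¹ σ_z ζ`. -/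
theorem zc_pt_mul {z : Fin n → ℂ} (hz : nr z < 1) (x : SUGroup n) :
    zc (pt z * x) = z + (1 + hp z (zc x))⁻¹ • sg z (zc x) := by
  have hs := sz_pos hz
  set p : Fin n → ℂ := fun j => ((Real.sqrt (1 - nr z ^ 2))⁻¹ : ℝ) • z j with hp'
  have hb := Kak.bp_d p
  have hq' : Real.sqrt (1 + Kak.nq p) = (Real.sqrt (1 - nr z ^ 2))⁻¹ := sqrt_one_add_nq hz
  have hpz : p = (((Real.sqrt (1 - nr z ^ 2))⁻¹ : ℝ) : ℂ) • z := pt_vec z
  have hm : (pt z).toMatrix = Kak.MM p ((1 / (1 + Real.sqrt (1 + Kak.nq p)) : ℝ) : ℂ)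
      ((1 : ℝ) : ℂ) ((1 : ℝ) : ℂ)
      (((1 / (1 + Real.sqrt (1 + Kak.nq p)) : ℝ) : ℂ) * (Kak.nq p : ℂ)) := rfl
  have h7 : ((1 / (1 + Real.sqrt (1 + Kak.nq p)) : ℝ) : ℂ) * (Kak.nq p : ℂ) =
      (((Real.sqrt (1 - nr z ^ 2))⁻¹ - 1 : ℝ) : ℂ) := by
    rw [← Complex.ofReal_mul]
    congr 1
    linarith
  rw [h7, hq', hpz] at hm
  clear hb hq' h7
  clear hpz
  clear_value p
  subst hp'
  have h1 := one_add_hp_ne hz x
  have hX : x.toMatrix (Fin.last n) (Fin.last n) ≠ 0 := by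
    have := ch_pos x
    rw [ch] at this
    exact norm_pos_iff.1 this
  generalize hse : Real.sqrt (1 - nr z ^ 2) = s at *
  have hs0 : (s : ℂ) ≠ 0 := by exact_mod_cast hs.ne'
  have hs1 : (1 + s : ℂ) ≠ 0 := by exact_mod_cast (by positivity : (0 : ℝ) < 1 + s).ne'
  have e2 : (1 + ((1 : ℝ) : ℂ) * hp (((s⁻¹ : ℝ) : ℂ) • z) (zc x) + ((s⁻¹ - 1 : ℝ) : ℂ)) =
      (s : ℂ)⁻¹ * (1 + hp z (zc x)) := by
    rw [hp_smul_left, RCLike.star_def, Complex.conj_ofReal]
    push_cast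
    ring
  have e : act (pt z * x) (base n) = x.toMatrix (Fin.last n) (Fin.last n) •
      (vec (zc x + (((1 / (1 + s⁻¹) : ℝ) : ℂ) * hp (((s⁻¹ : ℝ) : ℂ) • z) (zc x) + ((1 : ℝ) : ℂ)) •
        (((s⁻¹ : ℝ) : ℂ) • z)) + ((s : ℂ)⁻¹ * (1 + hp z (zc x))) • base n) := by
    rw [act_mul, act_bl_eq x, act_smul, act, hm, MM_mulVec, e2]
  rw [zc_of_act2 hX (mul_ne_zero (inv_ne_zero hs0) h1) e]
  funext j
  rw [hp_smul_left, RCLike.star_def, Complex.conj_ofReal]
  simp only [Pi.smul_apply, Pi.add_apply, smul_eq_mul, sg, hse]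
  have e3 : ((1 / (1 + s⁻¹) : ℝ) : ℂ) = s / (1 + s) := by
    have : (1 / (1 + s⁻¹) : ℝ) = s / (1 + s) := by
      field_simp
      ring
    rw [this]
    push_cast
    rfl
  rw [e3]
  push_cast
  generalize hp z (zc x) = y at *
  field_simp
  ring

/-! ### Reflections -/

theorem nr_rf {v : Fin n → ℂ} (hv : nr v = 1) (z : Fin n → ℂ) : nr (rf v z) = nr z := by
  have e : rf v z = z - ((2 * ip v z : ℝ) : ℂ) • v := by
    funext j
    rw [rf, Pi.sub_apply, Pi.smul_apply, smul_eq_mul]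
  have h1 : nr (rf v z) ^ 2 = nr z ^ 2 := by
    rw [e, nr_sub_sq, ip_smul, nr_smul, hv, ip_comm z v, mul_one, Complex.norm_real,
      Real.norm_eq_abs, sq_abs]
    ring
  have h2 := nr_nonneg (rf v z)
  have h3 := nr_nonneg z
  exact (sq_eq_sq₀ h2 h3).1 h1

theorem rf_rf {v : Fin n → ℂ} (hv : nr v = 1) (z : Fin n → ℂ) : rf v (rf v z) = z := by
  have e : ∀ z : Fin n → ℂ, rf v z = z - ((2 * ip v z : ℝ) : ℂ) • v := by
    intro z
    funext j
    rw [rf, Pi.sub_apply, Pi.smul_apply, smul_eq_mul]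
  have h1 : ip v (rf v z) = - ip v z := by
    rw [e, ip_sub, ip_smul, ip_self, hv]
    ring
  rw [e (rf v z), h1, e z]
  funext j
  simp only [Pi.sub_apply, Pi.smul_apply, smul_eq_mul]
  push_cast
  ring

end Pool.Agent.Lib.MP_5d4057_al.IN
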