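import Pool.Agent.Lib.MP_5d4057_al.IN.AvgDef

/-! The Green function of two bumps (text C1 (a), first half). -/

set_option autoImplicit false

namespace Pool.Agent.Lib.MP_5d4057_al.IN

open Matrix MeasureTheory Filter Topology Pool.Agent.Lib.MP_5d4057_al Pool.Agent.Lib.MP_5d4057_al.Hyb
  Pool.Agent.Lib.MP_5d4057_al.HM

variable {n : ℕ}

/-- the square of the gradient -/
private noncomputable def gam (κ : Vec n → ℝ) (v : Vec n) : ℝ :=
  (- q v / 4) * ∑ i : Fin (n + 1), (J n i i).re *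
    ((fderiv ℝ κ v (Pi.single i 1)) ^ 2 + (fderiv ℝ κ v (Pi.single i Complex.I)) ^ 2)

private theorem fderiv_two_comp {F : ℝ → ℝ} {κ : Vec n → ℝ} {v : Vec n}
    (hF : ContDiffAt ℝ 2 F (κ v)) (hκ : ContDiffAt ℝ 2 κ v) (ξ : Vec n) :
    fderiv ℝ (fderiv ℝ fun w => F (κ w)) v ξ ξ =
      deriv (deriv F) (κ v) * (fderiv ℝ κ v ξ) ^ 2 +
        deriv F (κ v) * fderiv ℝ (fderiv ℝ κ) v ξ ξ := by
  have hκc : ContinuousAt κ v := hκ.continuousAt
  have h1 : ∀ᶠ w in 𝓝 v, fderiv ℝ (fun w => F (κ w)) w = deriv F (κ w) • fderiv ℝ κ w := by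
    have hF1 : ∀ᶠ y in 𝓝 (κ v), DifferentiableAt ℝ F y := by
      filter_upwards [hF.eventually (by norm_num)] with y hy
      exact hy.differentiableAt (by norm_num)
    filter_upwards [hκc.eventually hF1, hκ.eventually (by norm_num)] with w hw1 hw2
    exact (hw1.hasDerivAt.comp_hasFDerivAt w (hw2.differentiableAt (by norm_num)).hasFDerivAt).fderiv
  have h2 : HasFDerivAt (fderiv ℝ κ) (fderiv ℝ (fderiv ℝ κ) v) v :=
    ((hκ.fderiv_right (m := 1) (by norm_num)).differentiableAt (by norm_num)).hasFDerivAt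
  have h3 : HasDerivAt (deriv F) (deriv (deriv F) (κ v)) (κ v) := by
    have h4 : ContDiffAt ℝ 1 (fderiv ℝ F) (κ v) := hF.fderiv_right (m := 1) (by norm_num)
    have h5 : DifferentiableAt ℝ (deriv F) (κ v) := by
      have h6 : deriv F = fun y => fderiv ℝ F y 1 := by
        funext y
        exact fderiv_apply_one_eq_deriv.symm
      rw [h6]
      exact (h4.differentiableAt (by norm_num)).clm_apply (differentiableAt_const _)
    exact h5.hasDerivAt
  have h7 : HasFDerivAt (fun w => deriv F (κ w)) (deriv (deriv F) (κ v) • fderiv ℝ κ v) v :=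
    h3.comp_hasFDerivAt v (hκ.differentiableAt (by norm_num)).hasFDerivAt
  have h8 := h7.smul h2
  have h9 : fderiv ℝ (fderiv ℝ fun w => F (κ w)) v =
      deriv F (κ v) • fderiv ℝ (fderiv ℝ κ) v +
        (deriv (deriv F) (κ v) • fderiv ℝ κ v).smulRight (fderiv ℝ κ v) := by
    rw [Filter.EventuallyEq.fderiv_eq h1]
    exact h8.fderiv
  rw [h9]
  simp only [_root_.add_apply, _root_.smul_apply,
    ContinuousLinearMap.smulRight_apply, smul_eq_mul]
  ring

private theorem lap_comp {F : ℝ → ℝ} {κ : Vec n → ℝ} {v : Vec n}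
    (hF : ContDiffAt ℝ 2 F (κ v)) (hκ : ContDiffAt ℝ 2 κ v) :
    Lap (fun w => F (κ w)) v = deriv (deriv F) (κ v) * gam κ v + deriv F (κ v) * Lap κ v := by
  rw [Lap, Lap, gam]
  simp only [fderiv_two_comp hF hκ, smul_eq_mul, Finset.mul_sum]
  rw [← Finset.sum_add_distrib]
  refine Finset.sum_congr rfl fun i _ => ?_
  ring

private theorem ker_two (v w : Vec n) : ker 2 v w = ker 1 v w ^ 2 := by
  rw [HM.ker, HM.ker, pow_one]

/-- The Laplacian of a function of `k = ker 1 v e`: `L (F k) = k² (1 - k) F'' + ((1 - n) k - k²) F'`.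
Proof: `lap_ker` for `s = 1` and `s = 2` gives `L k = (1 - n) k - k²` and `L (k²) = (4 - 2 n) k² - 4 k³`;
for a `C²` function `F`, `L (F ∘ k) = F'(k) L k + F''(k) Γ` with `Γ = (-q v/4) Σ_i J_ii ((D_i k)² + (D_i' k)²)`
(chain rule, `fderiv_fderiv_line`), and `L (k²) = 2 k L k + 2 Γ` gives `Γ = k² (1 - k)`. -/
theorem lap_comp_ker {F : ℝ → ℝ} {S : Set ℝ} (hS : IsOpen S) (hF : ContDiffOn ℝ 2 F S) {v : Vec n}
    (hv : v ∈ Cone n) (hk : ker 1 v (base n) ∈ S) :
    Lap (fun w => F (ker 1 w (base n))) v =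
      ker 1 v (base n) ^ 2 * (1 - ker 1 v (base n)) * deriv (deriv F) (ker 1 v (base n)) +
        ((1 - n) * ker 1 v (base n) - ker 1 v (base n) ^ 2) * deriv F (ker 1 v (base n)) := by
  have hκ : ContDiffAt ℝ 2 (fun w : Vec n => ker 1 w (base n)) v :=
    ((contDiffOn_ker 1 (base_mem n)).contDiffAt ((isOpen_cone n).mem_nhds hv)).of_le
      (WithTop.coe_le_coe.2 (le_top : (2 : ℕ∞) ≤ ⊤))
  have hFat : ContDiffAt ℝ 2 F (ker 1 v (base n)) := hF.contDiffAt (hS.mem_nhds hk)
  have h1 := lap_ker 1 hv (base_mem n)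
  have h2 := lap_ker 2 hv (base_mem n)
  have hsq : ContDiffAt ℝ 2 (fun y : ℝ => y ^ 2) (ker 1 v (base n)) := (contDiff_id.pow 2).contDiffAt
  have h4 := lap_comp (κ := fun w : Vec n => ker 1 w (base n)) hsq hκ
  have h5 : (fun w : Vec n => ker 1 w (base n) ^ 2) = fun w => ker 2 w (base n) := by
    funext w
    rw [ker_two]
  have h6 : deriv (fun y : ℝ => y ^ 2) = fun y => 2 * y := by
    funext y
    simp
  have h7 : deriv (deriv fun y : ℝ => y ^ 2) (ker 1 v (base n)) = 2 := by
    rw [h6]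
    simp
  rw [h5, h7, h6, h2, h1] at h4
  have h8 := lap_comp (κ := fun w : Vec n => ker 1 w (base n)) hFat hκ
  rw [h8, h1]
  have hk2 : ker (1 + 1) v (base n) = ker 1 v (base n) ^ 2 := ker_two _ _
  have hk3 : ker (2 + 1) v (base n) = ker 1 v (base n) ^ 3 := by
    rw [HM.ker, HM.ker, pow_one]
  have hk2' : ker 2 v (base n) = ker 1 v (base n) ^ 2 := ker_two _ _
  rw [hk2, hk3] at h4
  rw [hk2]
  simp only [lam] at h4 ⊢
  push_cast at h4 ⊢
  generalize ker 1 v (base n) = κ at *
  linear_combination (deriv (deriv F) κ / 2) * (-h4)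

/-- the integral of the step -/
private noncomputable def gG (m : ℕ) (s : ℝ) : ℝ := ∫ y in (0 : ℝ)..s, y ^ m * th y

private theorem gG_cont (m : ℕ) : Continuous fun y : ℝ => y ^ m * th y :=
  (continuous_pow m).mul continuous_th

private theorem gG_deriv (m : ℕ) (s : ℝ) : HasDerivAt (gG m) (s ^ m * th s) s :=
  intervalIntegral.integral_hasDerivAt_right ((gG_cont m).intervalIntegrable _ _)
    ((gG_cont m).stronglyMeasurableAtFilter _ _) (gG_cont m).continuousAt

private theorem gG_small (m : ℕ) {s : ℝ} (hs : s ≤ 1 / 4) : gG m s = s ^ (m + 1) / (m + 1) := by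
  have h1 : gG m s = ∫ y in (0 : ℝ)..s, y ^ m := by
    refine intervalIntegral.integral_congr fun y hy => ?_
    have hy' : y ≤ 1 / 4 := hy.2.trans (max_le (by norm_num) hs)
    change y ^ m * th y = y ^ m
    rw [th_eq_one hy', mul_one]
  rw [h1, integral_pow]
  simp

private theorem gG_mono (m : ℕ) {a b : ℝ} (ha : 0 ≤ a) (hab : a ≤ b) : gG m a ≤ gG m b := by
  have h1 : gG m b - gG m a = ∫ y in a..b, y ^ m * th y :=
    intervalIntegral.integral_interval_sub_left ((gG_cont m).intervalIntegrable _ _)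
      ((gG_cont m).intervalIntegrable _ _)
  have h2 : 0 ≤ ∫ y in a..b, y ^ m * th y :=
    intervalIntegral.integral_nonneg hab fun y hy =>
      mul_nonneg (pow_nonneg (ha.trans hy.1) m) (th_nonneg y)
  linarith

private theorem gG_large (m : ℕ) {s : ℝ} (hs : 1 ≤ s) : gG m s = gG m 1 := by
  have h1 : gG m s - gG m 1 = ∫ y in (1 : ℝ)..s, y ^ m * th y :=
    intervalIntegral.integral_interval_sub_left ((gG_cont m).intervalIntegrable _ _)
      ((gG_cont m).intervalIntegrable _ _)
  have h2 : ∫ y in (1 : ℝ)..s, y ^ m * th y = 0 := by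
    rw [intervalIntegral.integral_congr (g := fun _ => (0 : ℝ)) fun y hy => ?_]
    · simp
    · have hy' : 1 ≤ y := (le_min le_rfl hs).trans hy.1
      change y ^ m * th y = 0
      rw [th_eq_zero hy', mul_zero]
  linarith

open Classical in
/-- `gG m s / s ^ (m + 1)`, smooth at `0` -/
private noncomputable def gg (m : ℕ) (s : ℝ) : ℝ :=
  if s < 1 / 8 then ((m : ℝ) + 1)⁻¹ else gG m s / s ^ (m + 1)

private theorem gg_small (m : ℕ) {s : ℝ} (hs : s ≤ 1 / 4) : gg m s = ((m : ℝ) + 1)⁻¹ := by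
  unfold gg
  split_ifs with h
  · rfl
  · rw [gG_small m hs]
    have hs0 : 0 < s := by linarith [not_lt.1 h]
    have h2 : (s ^ (m + 1)) ≠ 0 := (pow_pos hs0 _).ne'
    field_simp

private theorem gg_mul (m : ℕ) (s : ℝ) : s ^ (m + 1) * gg m s = gG m s := by
  by_cases h : s ≤ 1 / 4
  · rw [gg_small m h, gG_small m h]
    ring
  · unfold gg
    have hs : 1 / 4 < s := not_le.1 h
    rw [if_neg (by linarith)]
    have h2 : (s ^ (m + 1)) ≠ 0 := (pow_pos (by linarith) _).ne'
    field_simp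

open Classical in
private noncomputable def gg' (m : ℕ) (s : ℝ) : ℝ :=
  if s < 1 / 8 then 0 else (th s - (m + 1) * gg m s) / s

private theorem gg'_small (m : ℕ) {s : ℝ} (hs : s ≤ 1 / 4) : gg' m s = 0 := by
  unfold gg'
  split_ifs with h
  · rfl
  · rw [gg_small m hs, th_eq_one hs, mul_inv_cancel₀ (by positivity), sub_self, zero_div]

private theorem gg_ode (m : ℕ) (s : ℝ) : (m + 1) * gg m s + s * gg' m s = th s := by
  by_cases h : s ≤ 1 / 4
  · rw [gg'_small m h, gg_small m h, th_eq_one h, mul_zero, add_zero, mul_inv_cancel₀ (by positivity)]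
  · unfold gg'
    have hs : 1 / 4 < s := not_le.1 h
    rw [if_neg (by linarith)]
    have h2 : s ≠ 0 := by linarith
    field_simp
    ring

private theorem gg_deriv (m : ℕ) (s : ℝ) : HasDerivAt (gg m) (gg' m s) s := by
  by_cases h : s < 1 / 4
  · have h1 : gg m =ᶠ[𝓝 s] fun _ => ((m : ℝ) + 1)⁻¹ := by
      filter_upwards [isOpen_Iio.mem_nhds h] with y hy
      exact gg_small m (le_of_lt hy)
    rw [gg'_small m h.le]
    exact (hasDerivAt_const s _).congr_of_eventuallyEq h1
  · have hs : 1 / 4 ≤ s := not_lt.1 h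
    have hs0 : s ≠ 0 := by linarith
    have h1 : gg m =ᶠ[𝓝 s] fun y => gG m y / y ^ (m + 1) := by
      filter_upwards [isOpen_Ioi.mem_nhds (show (1 : ℝ) / 8 < s by linarith)] with y hy
      unfold gg
      rw [if_neg (not_lt.2 (le_of_lt hy))]
    have h2 : HasDerivAt (fun y : ℝ => y ^ (m + 1)) (((m + 1 : ℕ) : ℝ) * s ^ m) s := by
      have := hasDerivAt_pow (m + 1) s
      simpa using this
    have h3 := ((gG_deriv m s).div h2 (pow_ne_zero _ hs0)).congr_of_eventuallyEq h1
    refine h3.congr_deriv ?_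
    unfold gg'
    rw [if_neg (by linarith), ← gg_mul m s]
    push_cast
    have h4 : s ^ m ≠ 0 := pow_ne_zero _ hs0
    field_simp
    ring

private theorem continuous_gg' (m : ℕ) : Continuous (gg' m) := by
  have hc : Continuous (gg m) := continuous_iff_continuousAt.2 fun s => (gg_deriv m s).continuousAt
  rw [continuous_iff_continuousAt]
  intro s
  by_cases h : s < 1 / 4
  · have h1 : gg' m =ᶠ[𝓝 s] fun _ => (0 : ℝ) := by
      filter_upwards [isOpen_Iio.mem_nhds h] with y hy
      exact gg'_small m (le_of_lt hy)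
    exact continuousAt_const.congr h1.symm
  · have hs : 1 / 4 ≤ s := not_lt.1 h
    have h1 : gg' m =ᶠ[𝓝 s] fun y => (th y - (m + 1) * gg m y) / y := by
      filter_upwards [isOpen_Ioi.mem_nhds (show (1 : ℝ) / 8 < s by linarith)] with y hy
      unfold gg'
      rw [if_neg (not_lt.2 (le_of_lt hy))]
    refine ContinuousAt.congr ?_ h1.symm
    exact ((continuous_th.sub (continuous_const.mul hc)).continuousAt).div continuousAt_id
      (show s ≠ 0 by linarith)

/-- the difference of two dilated functions `gg` -/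
private noncomputable def dD (m : ℕ) (e r t : ℝ) : ℝ :=
  (e ^ (2 * (m + 1)))⁻¹ * gg m (t / e ^ 2) - (r ^ (2 * (m + 1)))⁻¹ * gg m (t / r ^ 2)

private noncomputable def dD' (m : ℕ) (e r t : ℝ) : ℝ :=
  (e ^ (2 * (m + 1)))⁻¹ * (gg' m (t / e ^ 2) / e ^ 2) - (r ^ (2 * (m + 1)))⁻¹ * (gg' m (t / r ^ 2) / r ^ 2)

private theorem dD_deriv (m : ℕ) (e r t : ℝ) : HasDerivAt (dD m e r) (dD' m e r t) t := by
  have h1 : ∀ c : ℝ, HasDerivAt (fun t => gg m (t / c)) (gg' m (t / c) / c) t := fun c => by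
    have h2 : HasDerivAt (fun t : ℝ => t / c) (1 / c) t := (hasDerivAt_id t).div_const c
    have h3 := (gg_deriv m (t / c)).comp t h2
    refine h3.congr_deriv ?_
    ring
  exact ((h1 _).const_mul _).sub ((h1 _).const_mul _)

private theorem continuous_dD' (m : ℕ) (e r : ℝ) : Continuous (dD' m e r) := by
  unfold dD'
  exact (continuous_const.mul (((continuous_gg' m).comp (continuous_id.div_const _)).div_const _)).sub
    (continuous_const.mul (((continuous_gg' m).comp (continuous_id.div_const _)).div_const _))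

private theorem dD_ode (m : ℕ) (e r t : ℝ) :
    (m + 1) * dD m e r t + t * dD' m e r t =
      (e ^ (2 * (m + 1)))⁻¹ * th (t / e ^ 2) - (r ^ (2 * (m + 1)))⁻¹ * th (t / r ^ 2) := by
  unfold dD dD'
  rw [← gg_ode m (t / e ^ 2), ← gg_ode m (t / r ^ 2)]
  ring

private theorem dD_mul (m : ℕ) (e r t : ℝ) :
    t ^ (m + 1) * dD m e r t = gG m (t / e ^ 2) - gG m (t / r ^ 2) := by
  unfold dD
  rw [← gg_mul m (t / e ^ 2), ← gg_mul m (t / r ^ 2), div_pow, div_pow, ← pow_mul, ← pow_mul]
  ring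

private theorem dD_zero (m : ℕ) {e r : ℝ} (he : 0 < e) (her : e < r) : 0 < dD m e r 0 := by
  unfold dD
  rw [zero_div, zero_div, gg_small m (by norm_num), ← sub_mul]
  refine mul_pos (sub_pos.2 ?_) (by positivity)
  exact inv_strictAnti₀ (by positivity) (pow_lt_pow_left₀ her he.le (by omega))

private theorem dD_nonneg (m : ℕ) {e r : ℝ} (he : 0 < e) (her : e < r) {t : ℝ} (ht : 0 ≤ t) :
    0 ≤ dD m e r t := by
  rcases ht.eq_or_lt with h | h
  · rw [← h]
    exact (dD_zero m he her).le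
  · have hr : 0 < r := he.trans her
    have h1 := dD_mul m e r t
    have h2 : gG m (t / r ^ 2) ≤ gG m (t / e ^ 2) := by
      refine gG_mono m (by positivity) ?_
      exact div_le_div_of_nonneg_left ht (by positivity) (pow_le_pow_left₀ he.le her.le 2)
    have h3 : 0 ≤ t ^ (m + 1) * dD m e r t := by linarith
    exact nonneg_of_mul_nonneg_right h3 (by positivity)

private theorem dD_large (m : ℕ) {e r : ℝ} (he : 0 < e) (her : e < r) {t : ℝ} (ht : r ^ 2 ≤ t) :
    dD m e r t = 0 := by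
  have hr : 0 < r := he.trans her
  have ht0 : 0 < t := lt_of_lt_of_le (by positivity) ht
  have h1 := dD_mul m e r t
  have h2 : 1 ≤ t / r ^ 2 := (one_le_div (by positivity)).2 ht
  have h3 : 1 ≤ t / e ^ 2 := (one_le_div (by positivity)).2
    ((pow_le_pow_left₀ he.le her.le 2).trans ht)
  rw [gG_large m h2, gG_large m h3, sub_self] at h1
  rcases mul_eq_zero.1 h1 with h4 | h4
  · exact absurd h4 (by positivity)
  · exact h4

private noncomputable def fF (m : ℕ) (e r k : ℝ) : ℝ := ∫ x in (0 : ℝ)..k, x ^ m * dD m e r (1 - x)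

private theorem fF_cont (m : ℕ) (e r : ℝ) : Continuous fun x : ℝ => x ^ m * dD m e r (1 - x) := by
  have hc : Continuous (dD m e r) :=
    continuous_iff_continuousAt.2 fun s => (dD_deriv m e r s).continuousAt
  exact (continuous_pow m).mul (hc.comp (continuous_const.sub continuous_id))

private theorem fF_deriv (m : ℕ) (e r : ℝ) : deriv (fF m e r) = fun k => k ^ m * dD m e r (1 - k) := by
  funext k
  exact (intervalIntegral.integral_hasDerivAt_right ((fF_cont m e r).intervalIntegrable _ _)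
    ((fF_cont m e r).stronglyMeasurableAtFilter _ _) (fF_cont m e r).continuousAt).deriv

private theorem fF_diff (m : ℕ) (e r : ℝ) : Differentiable ℝ (fF m e r) := fun _ =>
  (intervalIntegral.integral_hasDerivAt_right ((fF_cont m e r).intervalIntegrable _ _)
    ((fF_cont m e r).stronglyMeasurableAtFilter _ _) (fF_cont m e r).continuousAt).differentiableAt

private theorem fF_deriv2 (m : ℕ) (e r k : ℝ) : HasDerivAt (fun k => k ^ m * dD m e r (1 - k))
    (m * k ^ (m - 1) * dD m e r (1 - k) - k ^ m * dD' m e r (1 - k)) k := by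
  have h1 : HasDerivAt (fun k : ℝ => 1 - k) (-1) k := by
    simpa using (hasDerivAt_id k).const_sub 1
  have h2 := (dD_deriv m e r (1 - k)).comp k h1
  have h3 := (hasDerivAt_pow m k).mul h2
  refine h3.congr_deriv ?_
  simp only [Function.comp]
  ring

private theorem fF_contDiff (m : ℕ) (e r : ℝ) : ContDiff ℝ 2 (fF m e r) := by
  have h1 : (2 : WithTop ℕ∞) = 1 + 1 := by norm_num
  rw [h1, contDiff_succ_iff_deriv]
  refine ⟨fF_diff m e r, by simp, ?_⟩
  rw [fF_deriv, contDiff_one_iff_deriv]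
  refine ⟨fun k => (fF_deriv2 m e r k).differentiableAt, ?_⟩
  have h2 : deriv (fun k => k ^ m * dD m e r (1 - k)) =
      fun k => m * k ^ (m - 1) * dD m e r (1 - k) - k ^ m * dD' m e r (1 - k) := by
    funext k
    exact (fF_deriv2 m e r k).deriv
  rw [h2]
  have hc : Continuous (dD m e r) :=
    continuous_iff_continuousAt.2 fun s => (dD_deriv m e r s).continuousAt
  exact ((continuous_const.mul (continuous_pow _)).mul (hc.comp (continuous_const.sub continuous_id))).sub
    ((continuous_pow _).mul ((continuous_dD' m e r).comp (continuous_const.sub continuous_id)))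

/-- The Green function: `φ (v) = F (ker 1 v e)` with `F(k) = ∫_0^k F'`,
`F'(k) = k^(n-1) (H_e(1-k) - H_r(1-k))`, `H_r(t) = r^(-2n) ∫_0^1 y^(n-1) th(y t/r²) dy`. Then
`t^n H_r(t) = ∫_0^(t/r²) y^(n-1) th(y) dy` (`0 < t`), so `H_r <= H_e` for `e <= r`, with equality for
`r² <= t`; `(t^n H_r)' = t^(n-1) r^(-2n) th(t/r²)`; `k^(1-n) (1-k)^n F' = t^n (H_e - H_r)(t)`, `t = 1-k`,
and `L (F k) = k^(n+1) (1-k)^(1-n) d/dk (k^(1-n) (1-k)^n F')` (from `lap_comp_ker`), which is
`k^(n+1) (r^(-2n) th(t/r²) - e^(-2n) th(t/e²))`. `F ∘ k` is of class `C²` on the cone (also at `k = 1`: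
`H_r` is smooth on `ℝ`). `F(1) > 0` since `e < r`. -/
theorem exists_gf (hn : 1 ≤ n) {e r : ℝ} (he : 0 < e) (her : e < r) (hr : r < 1) :
    ∃ φ : Vec n → ℝ, Homog φ ∧ ContDiffOn ℝ 2 φ (Cone n) ∧ (∀ v ∈ Cone n, 0 ≤ φ v) ∧
      0 < φ (base n) ∧ (∀ g : SUGroup n, r ^ 2 ≤ hq g → φ (act g (base n)) = 0) ∧
      ∀ g : SUGroup n, Lap φ (act g (base n)) = wk n r g - wk n e g := by
  obtain ⟨m, rfl⟩ : ∃ m, n = m + 1 := ⟨n - 1, by omega⟩
  have hr0 : 0 < r := he.trans her
  have hker : ∀ g : SUGroup (m + 1), HM.ker 1 (act g (base (m + 1))) (base (m + 1)) =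
      1 - hq g := by
    intro g
    have h1 := ker_orbit 1 g (1 : SUGroup (m + 1))
    rw [act_one, mul_one, ch_inv, mul_one] at h1
    rw [h1, hq]
    ring
  have hint : ∀ k : ℝ, 0 ≤ k → k ≤ 1 → ∀ x ∈ Set.Icc 0 k, 0 ≤ x ^ m * dD m e r (1 - x) :=
    fun k _ hk1 x hx => mul_nonneg (pow_nonneg hx.1 m)
      (dD_nonneg m he her (by linarith [hx.2]))
  refine ⟨fun v => fF m e r (HM.ker 1 v (base (m + 1))), fun c hc v hv => ?_, ?_, fun v hv => ?_,
    ?_, fun g hg => ?_, fun g => ?_⟩
  · change fF m e r _ = fF m e r _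
    rw [ker_smul_left 1 hc]
  · exact (fF_contDiff m e r).comp_contDiffOn ((contDiffOn_ker 1 (base_mem (m + 1))).of_le
      (WithTop.coe_le_coe.2 (le_top : (2 : ℕ∞) ≤ ⊤)))
  · exact intervalIntegral.integral_nonneg (ker_pos 1 hv (base_mem (m + 1))).le
      (hint _ (ker_pos 1 hv (base_mem (m + 1))).le (ker_le_one 1 hv (base_mem (m + 1))))
  · have h1 := hker 1
    rw [act_one, hq, ch_one] at h1
    have h2 : HM.ker 1 (base (m + 1)) (base (m + 1)) = 1 := by
      rw [h1]
      norm_num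
    change 0 < fF m e r _
    rw [h2]
    refine intervalIntegral.integral_pos one_pos (fF_cont m e r).continuousOn
      (fun x hx => hint 1 zero_le_one le_rfl x ⟨hx.1.le, hx.2⟩) ⟨1, ⟨zero_le_one, le_rfl⟩, ?_⟩
    rw [one_pow, one_mul, sub_self]
    exact dD_zero m he her
  · change fF m e r _ = 0
    rw [hker g]
    have h1 : hq g ≤ 1 := by
      unfold hq
      have := inv_nonneg.2 (sq_nonneg (ch g))
      linarith
    unfold fF
    rw [intervalIntegral.integral_congr (g := fun _ => (0 : ℝ)) fun x hx => ?_]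
    · simp
    · have hx' : x ≤ 1 - hq g := hx.2.trans (max_le (by linarith) le_rfl)
      change x ^ m * dD m e r (1 - x) = 0
      rw [dD_large m he her (by linarith), mul_zero]
  · have h1 := lap_comp_ker (n := m + 1) isOpen_univ (fF_contDiff m e r).contDiffOn (orbit_mem g)
      (Set.mem_univ _)
    rw [h1, hker g, fF_deriv, (fF_deriv2 m e r (1 - hq g)).deriv]
    have h2 := dD_ode m e r (hq g)
    have h3 : (1 : ℝ) - (1 - hq g) = hq g := by ring
    beta_reduce
    rw [h3]
    have h4 : (ch g ^ (2 * (m + 1 + 1)))⁻¹ = (1 - hq g) ^ (m + 2) := by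
      rw [hq, sub_sub_cancel, pow_mul, inv_pow]
    unfold wk
    rw [h4]
    have h5 : (m : ℝ) * (1 - hq g) ^ (m - 1) * (1 - hq g) ^ 2 = m * (1 - hq g) ^ (m + 1) := by
      rcases m with _ | m
      · simp
      · rw [Nat.add_sub_cancel]
        ring
    push_cast
    linear_combination (hq g * dD m e r (hq g)) * h5 - (1 - hq g) ^ (m + 2) * h2

/-- Points of the support: compact. -/
theorem isCompact_hq {r : ℝ} (hr : r < 1) (hr0 : 0 ≤ r) : IsCompact {x : SUGroup n | hq x ≤ r ^ 2} := by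
  have hr1 : 0 < 1 - r ^ 2 := by nlinarith
  refine (isCompact_ball (1 / (1 - r ^ 2))).of_isClosed_subset
    (isClosed_le continuous_hq continuous_const) fun x hx => ?_
  have hx' : hq x ≤ r ^ 2 := hx
  have hc := one_le_ch x
  change ch x ≤ 1 / (1 - r ^ 2)
  rw [le_div_iff₀ hr1]
  unfold hq at hx'
  have h1 : 1 - r ^ 2 ≤ (ch x ^ 2)⁻¹ := by linarith
  have h2 : (1 - r ^ 2) * ch x ^ 2 ≤ 1 := by
    have h3 := mul_le_mul_of_nonneg_right h1 (by positivity : 0 ≤ ch x ^ 2)
    rwa [inv_mul_cancel₀ (by positivity)] at h3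
  nlinarith


/-- Green's formula for the bumps: `∫ (wk r - wk e)(x) h(g x) = ∫ φ(x e) (L h)(g x e)`, `h` of class `C²`
only on an open set which contains the support (cut off: `exists_cutoff` or multiply `h` by a smooth
function which is `1` on `{hq ≤ r²}`; or apply `green` to `h` cut off near the compact set). -/
theorem green_wk (hn : 1 ≤ n) {e r : ℝ} (he : 0 < e) (her : e < r) (hr : r < 1) {φ : Vec n → ℝ}
    (hφ : Homog φ) (hφ2 : ContDiffOn ℝ 2 φ (Cone n))
    (hφs : ∀ g : SUGroup n, r ^ 2 ≤ hq g → φ (act g (base n)) = 0)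
    (hL : ∀ g : SUGroup n, Lap φ (act g (base n)) = wk n r g - wk n e g) {h : Vec n → ℝ}
    (hh : Homog h) (hh2 : ContDiffOn ℝ 2 h (Cone n)) (g : SUGroup n) :
    ∫ x, (wk n r x - wk n e x) * h (act (g * x) (base n)) ∂(mu n) =
      ∫ x, φ (act x (base n)) * Lap h (act (g * x) (base n)) ∂(mu n) := by
  have hr0 : 0 ≤ r := (he.trans her).le
  have hcs : HasCompactSupport fun x : SUGroup n => φ (act x (base n)) := by
    refine HasCompactSupport.intro (isCompact_hq (n := n) hr hr0) fun x hx => hφs x ?_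
    exact (not_le.1 hx).le
  have hfh : Homog fun v => h (act g v) := fun c hc v hv => by
    change h (act g (c • v)) = h (act g v)
    rw [act_smul, hh c hc _ (act_mem g hv)]
  have hf2 : ContDiffOn ℝ 2 (fun v => h (act g v)) (Cone n) :=
    hh2.comp (actL g).contDiff.contDiffOn fun v hv => act_mem g hv
  have h1 := green hn hφ hφ2 hcs hfh hf2
  have h2 : ∀ x : SUGroup n, Lap (fun v => h (act g v)) (act x (base n)) =
      Lap h (act (g * x) (base n)) := by
    intro x
    rw [lap_act h g (orbit_mem x) (hh2.contDiffAt ((isOpen_cone n).mem_nhds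
      (act_mem g (orbit_mem x)))), act_mul]
  simp only [h2, hL, smul_eq_mul, ← act_mul] at h1
  exact h1.symm

end Pool.Agent.Lib.MP_5d4057_al.IN
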