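import Pool.Agent.Lib.MP_5d4057_al.IN.AvgB
import Pool.Agent.Lib.MP_5d4057_al.HM.Sub

/-! Sub mean value property and mean value property of the coordinates (text C1 (a), (c)). -/

set_option autoImplicit false

namespace Pool.Agent.Lib.MP_5d4057_al.IN

open Matrix MeasureTheory Filter Topology Pool.Agent.Lib.MP_5d4057_al Pool.Agent.Lib.MP_5d4057_al.Hyb
  Pool.Agent.Lib.MP_5d4057_al.HM

variable {n : ℕ}

/-! ### Rotations -/

private theorem c1_diag (d : Fin (n + 1) → ℂ) (hd : ∀ i, ‖d i‖ = 1) (hp : ∏ i, d i = 1) :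
    ∃ k : SUGroup n, ∀ x : SUGroup n, ch (k * x) = ch x ∧
      ∀ j, zc (k * x) j = d j.castSucc / d (Fin.last n) * zc x j := by
  have h1 : (Matrix.diagonal d).det = 1 := by rw [det_diagonal, hp]
  have hs : ∀ i, star (d i) * d i = 1 := by
    intro i
    rw [RCLike.star_def, Complex.conj_mul', hd]
    simp
  have h2 : (Matrix.diagonal d)ᴴ * J n * Matrix.diagonal d = J n := by
    rw [J, diagonal_conjTranspose, diagonal_mul_diagonal, diagonal_mul_diagonal]
    congr 1
    funext i
    rw [Pi.star_apply, mul_right_comm, hs, one_mul]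
  refine ⟨ofMatrix _ h1 h2, fun x => ?_⟩
  have h3 : ∀ i j, (ofMatrix _ h1 h2 * x).toMatrix i j = d i * x.toMatrix i j := by
    intro i j
    rw [toMatrix_mul, toMatrix_ofMatrix, diagonal_mul]
  constructor
  · rw [ch, h3, norm_mul, hd, one_mul]
    rfl
  · intro j
    rw [zc, zc, h3, h3, mul_div_mul_comm]

private theorem c1_scal (c : ℂ) (hc : ‖c‖ = 1) :
    ∃ k : SUGroup n, ∀ x : SUGroup n, ch (k * x) = ch x ∧ ∀ j, zc (k * x) j = c ^ (n + 1) * zc x j := by
  have hcc : c * star c = 1 := by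
    rw [RCLike.star_def, Complex.mul_conj', hc]; simp
  have hc0 : c ≠ 0 := by
    intro h
    rw [h, norm_zero] at hc
    exact zero_ne_one hc
  obtain ⟨k, hk⟩ := c1_diag (n := n) (Fin.snoc (α := fun _ => ℂ) (fun _ => c) (star c ^ n))
    (fun i => by
      refine Fin.lastCases ?_ (fun i => ?_) i
      · rw [Fin.snoc_last, norm_pow, norm_star, hc, one_pow]
      · rw [Fin.snoc_castSucc, hc])
    (by
      rw [Fin.prod_univ_castSucc]
      simp only [Fin.snoc_castSucc, Fin.snoc_last, Finset.prod_const, Finset.card_univ,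
        Fintype.card_fin]
      rw [← mul_pow, hcc, one_pow])
  refine ⟨k, fun x => ⟨(hk x).1, fun j => ?_⟩⟩
  rw [(hk x).2 j, Fin.snoc_castSucc, Fin.snoc_last]
  congr 1
  have h1 : star c ^ n ≠ 0 := pow_ne_zero _ (star_ne_zero.2 hc0)
  rw [div_eq_iff h1, pow_succ', mul_assoc, ← mul_pow, hcc, one_pow, mul_one]

private theorem c1_root (z : ℂ) (hz : ‖z‖ = 1) : ∃ c : ℂ, c ^ (n + 1) = z ∧ ‖c‖ = 1 := by
  obtain ⟨c, hc⟩ : ∃ c : ℂ, c ^ (n + 1) = z := IsAlgClosed.exists_pow_nat_eq _ (Nat.succ_pos n)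
  refine ⟨c, hc, ?_⟩
  have h1 := congrArg norm hc
  rw [norm_pow, hz] at h1
  exact (pow_eq_one_iff_of_nonneg (norm_nonneg c) (Nat.succ_ne_zero n)).1 h1

/-- the rotation by `ζ` about the base point -/
private theorem c1_rot (ζ : ℂ) (hζ : ‖ζ‖ = 1) :
    ∃ k : SUGroup n, ch k = 1 ∧ ∀ x : SUGroup n, zc (k * x) = ζ • zc x := by
  obtain ⟨c, hc, hc1⟩ := c1_root (n := n) ζ hζ
  obtain ⟨k, hk⟩ := c1_scal (n := n) c hc1
  refine ⟨k, ?_, fun x => ?_⟩
  · have h1 := (hk 1).1
    rwa [mul_one, ch_one] at h1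
  · funext j
    rw [(hk x).2, hc, Pi.smul_apply, smul_eq_mul]

/-! ### The coordinates of a translate -/

private theorem c1_last (g : SUGroup n) {z : Fin n → ℂ} (hz : z ∈ zball n) :
    act g (pt z) (Fin.last n) ≠ 0 := by
  intro h
  have h1 : herm (act g⁻¹ (base n)) (pt z) = 0 := by
    rw [← herm_act g, ← act_mul, mul_inv_cancel, act_one, herm_eq, h, mul_zero, sub_zero]
    refine Finset.sum_eq_zero fun i _ => ?_
    rw [base, Pi.single_eq_of_ne (Fin.castSucc_lt_last i).ne, star_zero, zero_mul]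
  exact herm_pt_ne_zero (act_mem _ (base_mem n)) hz h1

private theorem c1_zc (g y : SUGroup n) (j : Fin n) :
    zc (g * y) j = act g (pt (zc y)) j.castSucc / act g (pt (zc y)) (Fin.last n) := by
  have h1 : act (g * y) (base n) = y.toMatrix (Fin.last n) (Fin.last n) • act g (pt (zc y)) := by
    rw [act_mul, act_base_eq, act_smul]
  rw [zc, ← act_base_apply, ← act_base_apply, h1, Pi.smul_apply, Pi.smul_apply, smul_eq_mul,
    smul_eq_mul, mul_div_mul_left _ _ (toMatrix_last_ne_zero y)]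

private theorem c1_pt (ζ : ℂ) (z : Fin n → ℂ) : pt (ζ • z) = ζ • HM.vec z + base n := by
  funext i
  refine Fin.lastCases ?_ (fun i => ?_) i
  · simp [HM.vec, base]
  · rw [pt_castSucc, Pi.add_apply, Pi.smul_apply, Pi.smul_apply, HM.vec, Fin.snoc_castSucc, base,
      Pi.single_eq_of_ne (Fin.castSucc_lt_last i).ne, add_zero]

/-- the coordinate of the translate on the disc through `z` -/
private noncomputable def c1H (c : Fin n → ℂ) (g : SUGroup n) (z : Fin n → ℂ) (ζ : ℂ) : ℂ :=
  ∑ j, c j * ((ζ * act g (HM.vec z) j.castSucc + act g (base n) j.castSucc) /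
    (ζ * act g (HM.vec z) (Fin.last n) + act g (base n) (Fin.last n)))

private theorem c1_act (g : SUGroup n) (z : Fin n → ℂ) (ζ : ℂ) (i : Fin (n + 1)) :
    act g (pt (ζ • z)) i = ζ * act g (HM.vec z) i + act g (base n) i := by
  rw [c1_pt, act_add, act_smul, Pi.add_apply, Pi.smul_apply, smul_eq_mul]

private theorem c1_smul_mem {z : Fin n → ℂ} (hz : z ∈ zball n) {ζ : ℂ} (hζ : ‖ζ‖ ≤ 1) :
    ζ • z ∈ zball n := by
  show ∑ i, ‖(ζ • z) i‖ ^ 2 ≤ 1
  have h1 : ∑ i, ‖(ζ • z) i‖ ^ 2 ≤ ∑ i, ‖z i‖ ^ 2 := by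
    refine Finset.sum_le_sum fun i _ => ?_
    rw [Pi.smul_apply, norm_smul, mul_pow]
    have h2 : ‖ζ‖ ^ 2 ≤ 1 := pow_le_one₀ (norm_nonneg _) hζ
    exact mul_le_of_le_one_left (sq_nonneg _) h2
  exact h1.trans hz

private theorem c1_den (g : SUGroup n) {z : Fin n → ℂ} (hz : z ∈ zball n) {ζ : ℂ}
    (hζ : ‖ζ‖ ≤ 1) : ζ * act g (HM.vec z) (Fin.last n) + act g (base n) (Fin.last n) ≠ 0 := by
  rw [← c1_act]
  exact c1_last g (c1_smul_mem hz hζ)

private theorem c1_diff (c : Fin n → ℂ) (g : SUGroup n) {z : Fin n → ℂ} (hz : z ∈ zball n) {ζ : ℂ}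
    (hζ : ‖ζ‖ ≤ 1) : DifferentiableAt ℂ (c1H c g z) ζ := by
  have h := c1_den g hz hζ
  unfold c1H
  refine DifferentiableAt.fun_sum fun j _ => ?_
  refine DifferentiableAt.const_mul ?_ _
  exact DifferentiableAt.div (by fun_prop) (by fun_prop) h

private theorem c1_circle (c : Fin n → ℂ) (g : SUGroup n) {z : Fin n → ℂ} (hz : z ∈ zball n) :
    (2 * Real.pi)⁻¹ • ∫ θ in (0 : ℝ)..2 * Real.pi, c1H c g z (circleMap 0 1 θ) =
      c1H c g z 0 := by
  have h := circleAverage_of_differentiable_on_off_countable (f := c1H c g z) (c := 0) (R := 1)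
    (s := ∅) Set.countable_empty
    (fun ζ hζ => (c1_diff c g hz (by simpa using hζ)).continuousAt.continuousWithinAt)
    (fun ζ hζ => c1_diff c g hz (by
      have h1 := hζ.1
      simp only [abs_one, Metric.mem_ball, dist_zero_right] at h1
      exact h1.le))
  exact h

private theorem c1_zero (c : Fin n → ℂ) (g : SUGroup n) (z : Fin n → ℂ) :
    c1H c g z 0 = ∑ j, c j * zc g j := by
  unfold c1H
  refine Finset.sum_congr rfl fun j _ => ?_
  rw [zero_mul, zero_add, zero_mul, zero_add, act_base_apply, act_base_apply, zc]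

private theorem c1_H_rot (c : Fin n → ℂ) (g k x : SUGroup n) {ζ : ℂ} (hk : zc (k * x) = ζ • zc x) :
    c1H c g (zc x) ζ = ∑ j, c j * zc (g * (k * x)) j := by
  unfold c1H
  refine Finset.sum_congr rfl fun j _ => ?_
  rw [c1_zc, hk, c1_act, c1_act]

private theorem c1_bound (c : Fin n → ℂ) (x : SUGroup n) :
    ‖∑ j, c j * zc x j‖ ≤ ∑ j, ‖c j‖ := by
  refine (norm_sum_le _ _).trans (Finset.sum_le_sum fun j _ => ?_)
  rw [norm_mul]
  exact mul_le_of_le_one_right (norm_nonneg _) (norm_zc_le x j)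

private theorem c1_cont (c : Fin n → ℂ) (g : SUGroup n) :
    Continuous fun p : SUGroup n × ℝ => c1H c g (zc p.1) (circleMap 0 1 p.2) := by
  have hz : Continuous fun p : SUGroup n × ℝ => zc p.1 := continuous_zcv.comp continuous_fst
  have hθ : Continuous fun p : SUGroup n × ℝ => circleMap 0 1 p.2 :=
    (continuous_circleMap 0 1).comp continuous_snd
  have hv : ∀ i, Continuous fun p : SUGroup n × ℝ => act g (HM.vec (zc p.1)) i := by
    intro i
    have h1 : Continuous fun z : Fin n → ℂ => act g (HM.vec z) i := by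
      have e : (fun z : Fin n → ℂ => act g (HM.vec z) i) =
          fun z => act g (pt z) i - act g (base n) i := by
        funext z
        have h2 := c1_act g z 1 i
        rw [one_smul, one_mul] at h2
        rw [h2, add_sub_cancel_right]
      rw [e]
      refine Continuous.sub ?_ continuous_const
      have h3 : Continuous fun z : Fin n → ℂ => pt z := contDiff_pt.continuous
      unfold act
      simp only [mulVec, dotProduct]
      exact continuous_finsetSum _ fun j _ => continuous_const.mul ((continuous_apply j).comp h3)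
    exact h1.comp hz
  unfold c1H
  refine continuous_finsetSum _ fun j _ => continuous_const.mul ?_
  refine Continuous.div ((hθ.mul (hv _)).add continuous_const)
    ((hθ.mul (hv _)).add continuous_const) fun p => ?_
  exact c1_den g (zc_mem p.1) (by simp)

private theorem c1_avg {w : SUGroup n → ℝ} (hw : Integrable w (mu n))
    (hK : ∀ k x : SUGroup n, ch k = 1 → w (k * x) = w x) (c : Fin n → ℂ) (g : SUGroup n) :
    ∫ x, w x * (∑ j, c j * zc (g * x) j).re ∂(mu n) =
      (∑ j, c j * zc g j).re * ∫ x, w x ∂(mu n) := by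
  obtain ⟨I, hI⟩ : ∃ I : ℂ, I = ∫ x, (w x : ℂ) * ∑ j, c j * zc (g * x) j ∂(mu n) := ⟨_, rfl⟩
  have hπ : (0 : ℝ) < 2 * Real.pi := by positivity
  have hcirc : ∀ θ : ℝ, ‖circleMap 0 1 θ‖ = 1 := fun θ => by simp
  have hrot : ∀ θ : ℝ, ∫ x, (w x : ℂ) * c1H c g (zc x) (circleMap 0 1 θ) ∂(mu n) = I := by
    intro θ
    obtain ⟨k, hk, hkz⟩ := c1_rot (n := n) (circleMap 0 1 θ) (hcirc θ)
    rw [hI, ← integral_mul_left_eq_self (μ := mu n)
      (fun x : SUGroup n => (w x : ℂ) * ∑ j, c j * zc (g * x) j) k]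
    refine integral_congr_ae (Eventually.of_forall fun x => ?_)
    show (w x : ℂ) * c1H c g (zc x) (circleMap 0 1 θ) = (w (k * x) : ℂ) * _
    rw [hK k x hk, c1_H_rot c g k x (hkz x)]
  have hwc : Integrable (fun x => (w x : ℂ)) (mu n) := hw.ofReal
  have hb : ∀ (x : SUGroup n) (θ : ℝ), ‖c1H c g (zc x) (circleMap 0 1 θ)‖ ≤ ∑ j, ‖c j‖ := by
    intro x θ
    obtain ⟨k, hk, hkz⟩ := c1_rot (n := n) (circleMap 0 1 θ) (hcirc θ)
    rw [c1_H_rot c g k x (hkz x)]
    exact c1_bound c _
  have hint : Integrable (Function.uncurry fun (x : SUGroup n) (θ : ℝ) =>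
      (w x : ℂ) * c1H c g (zc x) (circleMap 0 1 θ))
      ((mu n).prod (volume.restrict (Set.Ioc 0 (2 * Real.pi)))) := by
    have h1 : Integrable (fun p : SUGroup n × ℝ => (w p.1 : ℂ))
        ((mu n).prod (volume.restrict (Set.Ioc 0 (2 * Real.pi)))) := hwc.comp_fst _
    exact h1.mul_bdd (c := ∑ j, ‖c j‖) (c1_cont c g).aestronglyMeasurable
      (Eventually.of_forall fun p => hb p.1 p.2)
  have hswap := integral_integral_swap hint
  have hL : ∫ x, (w x : ℂ) * ∑ j, c j * zc g j ∂(mu n) = I := by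
    have h1 : ∀ x : SUGroup n, (w x : ℂ) * ∑ j, c j * zc g j =
        (2 * Real.pi)⁻¹ • ∫ θ in Set.Ioc 0 (2 * Real.pi),
          (w x : ℂ) * c1H c g (zc x) (circleMap 0 1 θ) := by
      intro x
      rw [← c1_zero c g (zc x), ← c1_circle c g (zc_mem x),
        intervalIntegral.integral_of_le hπ.le, integral_const_mul, mul_smul_comm]
    rw [integral_congr_ae (Eventually.of_forall h1), integral_smul, hswap]
    simp only [hrot]
    rw [integral_const, measureReal_restrict_apply MeasurableSet.univ, Set.univ_inter,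
      Real.volume_real_Ioc_of_le hπ.le, sub_zero, smul_smul, inv_mul_cancel₀ hπ.ne', one_smul]
  have hf : Integrable (fun x => (w x : ℂ) * ∑ j, c j * zc (g * x) j) (mu n) := by
    refine hwc.mul_bdd (c := ∑ j, ‖c j‖) ?_ (Eventually.of_forall fun x => c1_bound c _)
    refine Continuous.aestronglyMeasurable ?_
    exact continuous_finsetSum _ fun j _ => continuous_const.mul
      ((continuous_zc j).comp (continuous_const_mul g))
  have e1 : ∫ x, w x * (∑ j, c j * zc (g * x) j).re ∂(mu n) = I.re := by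
    rw [hI]
    have h2 := Complex.reCLM.integral_comp_comm hf
    simp only [Complex.reCLM_apply] at h2
    rw [← h2]
    refine integral_congr_ae (Eventually.of_forall fun x => ?_)
    show w x * (∑ j, c j * zc (g * x) j).re = ((w x : ℂ) * ∑ j, c j * zc (g * x) j).re
    rw [Complex.re_ofReal_mul]
  rw [e1, ← hL, integral_mul_const, integral_complex_ofReal, Complex.re_ofReal_mul, mul_comm]

/-- Every radial average of the real part of a linear function of the ball coordinate is its value at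
the centre. -/
theorem AA_zc (hn : 1 ≤ n) {r : ℝ} (hr : 0 < r) (hr1 : r < 1) (c : Fin n → ℂ) (g : SUGroup n) :
    AA r (fun x => (∑ j, c j * zc x j).re) g = (∑ j, c j * zc g j).re := by
  have h := c1_avg (integrable_bk hr hr1)
    (fun k x hk => by rw [bk, bk, wk_K hk]) c g
  rw [integral_bk hn hr hr1, mul_one] at h
  exact h

/-- The same for the kernels `kap s` restricted to small balls. -/
theorem kap_zc (hn : 1 ≤ n) {s : ℕ} (hs : n < s) {d : ℝ} (hd : 0 < d) (hd1 : d < 1) (c : Fin n → ℂ)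
    (g : SUGroup n) :
    ∫ x in {x : SUGroup n | hq x ≤ d ^ 2}, kap s x * (∑ j, c j * zc (g * x) j).re ∂(mu n) =
      (∑ j, c j * zc g j).re * ∫ x in {x : SUGroup n | hq x ≤ d ^ 2}, kap s x ∂(mu n) := by
  have _ := hn
  have _ := hd
  have _ := hd1
  have hm : MeasurableSet {x : SUGroup n | hq x ≤ d ^ 2} :=
    (isClosed_le continuous_hq continuous_const).measurableSet
  have h := c1_avg (w := {x : SUGroup n | hq x ≤ d ^ 2}.indicator (kap s))
    ((integrable_kap hs).indicator hm)
    (fun k x hk => by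
      have h1 : (k * x ∈ {x : SUGroup n | hq x ≤ d ^ 2}) = (x ∈ {x : SUGroup n | hq x ≤ d ^ 2}) := by
        simp only [Set.mem_ofPred_eq, hq_K hk]
      have h2 : kap s (k * x) = kap s x := by
        rw [kap, kap, (ch_mul_of_ch_eq_one hk x).1]
      simp only [Set.indicator, h1, h2]) c g
  rw [integral_indicator hm] at h
  rw [← h, ← integral_indicator hm]
  refine integral_congr_ae (Eventually.of_forall fun x => ?_)
  by_cases hx : x ∈ {x : SUGroup n | hq x ≤ d ^ 2}
  · simp only [Set.indicator_of_mem hx]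
  · simp only [Set.indicator_of_notMem hx, zero_mul]

/-! ### The sub mean value property -/

private theorem c1_ch {x : SUGroup n} {r : ℝ} (hr : 0 ≤ r) (hr1 : r < 1) (h : hq x ≤ r ^ 2) :
    ch x ^ 2 ≤ 1 / (1 - r ^ 2) := by
  have h1 : 0 < ch x ^ 2 := pow_pos (ch_pos x) 2
  have h2 : 0 < 1 - r ^ 2 := by nlinarith
  unfold hq at h
  rw [le_div_iff₀ h2]
  have h3 : 1 - r ^ 2 ≤ (ch x ^ 2)⁻¹ := by linarith
  calc ch x ^ 2 * (1 - r ^ 2) ≤ ch x ^ 2 * (ch x ^ 2)⁻¹ := mul_le_mul_of_nonneg_left h3 h1.le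
    _ = 1 := mul_inv_cancel₀ h1.ne'

/-- A smooth function with `L h ≥ 0` is at most its local averages. -/
theorem le_AA_of_lap (hn : 1 ≤ n) {h : Vec n → ℝ} (hh : Homog h) (hh2 : ContDiffOn ℝ 2 h (Cone n))
    (hL : ∀ v ∈ Cone n, 0 ≤ Lap h v) {r : ℝ} (hr : 0 < r) (hr1 : r < 1) (g : SUGroup n) :
    h (act g (base n)) ≤ AA r (fun x => h (act x (base n))) g := by
  obtain ⟨u, hu⟩ : ∃ u : SUGroup n → ℝ, u = fun x => h (act x (base n)) := ⟨_, rfl⟩
  have hc : Continuous u := by
    rw [hu]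
    exact hh2.continuousOn.comp_continuous continuous_orbit orbit_mem
  have hK : ∀ g k : SUGroup n, ch k = 1 → u (g * k) = u g := by
    intro g k hk
    obtain ⟨c, hc1, e⟩ := (ch_eq_one_iff k).1 hk
    have hc0 : c ≠ 0 := by
      rintro rfl
      rw [norm_zero] at hc1
      exact zero_ne_one hc1
    rw [hu]
    show h (act (g * k) (base n)) = h (act g (base n))
    rw [act_mul, e, act_smul]
    exact hh c hc0 _ (orbit_mem g)
  have hmono : ∀ e, 0 < e → e < r → AA e u g ≤ AA r u g := by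
    intro e he her
    obtain ⟨φ, hφ, hφ2, hφ0, -, hφs, hφL⟩ := exists_gf hn he her hr1
    have key := green_wk hn he her hr1 hφ hφ2 hφs hφL hh hh2 g
    have hpos : 0 ≤ ∫ x, φ (act x (base n)) * Lap h (act (g * x) (base n)) ∂(mu n) :=
      integral_nonneg fun x => mul_nonneg (hφ0 _ (orbit_mem x)) (hL _ (orbit_mem _))
    rw [← key] at hpos
    have e1 : AA r u g - AA e u g =
        (cw n)⁻¹ * ∫ x, (wk n r x - wk n e x) * h (act (g * x) (base n)) ∂(mu n) := by
      rw [AA, AA, ← integral_sub (integrable_AA hr hr1 hc g)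
        (integrable_AA he (her.trans hr1) hc g), ← integral_const_mul]
      refine integral_congr_ae (Eventually.of_forall fun x => ?_)
      show bk r x * u (g * x) - bk e x * u (g * x) = _
      rw [bk, bk, hu]
      simp only []
      ring
    have h1 : 0 ≤ (cw n)⁻¹ := inv_nonneg.2 (cw_pos n).le
    have h2 := mul_nonneg h1 hpos
    rw [← e1] at h2
    linarith
  have hgoal : u g ≤ AA r u g := by
    refine le_of_forall_pos_le_add fun ε hε => ?_
    obtain ⟨δ, hδ, hδ1⟩ := Boot.near_K hc hK g hε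
    obtain ⟨e, he⟩ : ∃ e : ℝ, e = min (r / 2) (δ / (1 + δ)) := ⟨_, rfl⟩
    have h0 : 0 < δ / (1 + δ) := by positivity
    have h0' : δ / (1 + δ) < 1 := by
      rw [div_lt_one (by positivity)]
      linarith
    have he0 : 0 < e := by
      rw [he]
      exact lt_min (by linarith) h0
    have her : e < r := by
      rw [he]
      exact (min_le_left _ _).trans_lt (by linarith)
    have hed : e ≤ δ / (1 + δ) := by
      rw [he]
      exact min_le_right _ _
    have he1 : e < 1 := her.trans hr1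
    have he2 : 1 / (1 - e ^ 2) ≤ 1 + δ := by
      have h3 : e ^ 2 ≤ e := by nlinarith
      have h4 : 0 < 1 - e ^ 2 := by nlinarith
      rw [div_le_iff₀ h4]
      have h5 : e ^ 2 * (1 + δ) ≤ δ := by
        have h6 : e ^ 2 ≤ δ / (1 + δ) := h3.trans hed
        rwa [le_div_iff₀ (by positivity)] at h6
      nlinarith
    have h7 : AA e (fun _ => u g - ε) g ≤ AA e u g := by
      refine AA_mono he0 he1 continuous_const hc fun x hx => ?_
      have h8 := hδ1 x ((c1_ch he0.le he1 hx).trans he2)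
      rw [abs_lt] at h8
      linarith
    rw [AA_const hn he0 he1] at h7
    have h9 := hmono e he0 her
    linarith
  rw [hu] at hgoal
  exact hgoal

open scoped Matrix.Norms.L2Operator in
private theorem c1_sec_cont : ContinuousOn (sec n) (Cone n) := by
  rw [(isClosedEmbedding_toMatrix n).isInducing.continuousOn_iff]
  exact (contDiffOn_sec n).continuousOn

private theorem c1_sec {u : SUGroup n → ℝ} (hK : RK u) (g : SUGroup n) :
    u (sec n (act g (base n))) = u g := by
  obtain ⟨c, hc, h⟩ := sec_spec (orbit_mem g)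
  have h1 : ‖c‖ = 1 := by
    have h2 := congrArg q h
    rw [q_smul, q_orbit, q_orbit] at h2
    have h3 : ‖c‖ ^ 2 = 1 := by linarith
    exact (pow_eq_one_iff_of_nonneg (norm_nonneg c) two_ne_zero).1 h3
  have h4 : ch ((sec n (act g (base n)))⁻¹ * g) = 1 := by
    rw [ch_eq_one_iff]
    refine ⟨c, h1, ?_⟩
    have h6 := congrArg (act (sec n (act g (base n)))⁻¹) h
    rw [act_smul, ← act_mul, ← act_mul, inv_mul_cancel, act_one] at h6
    exact h6
  have h5 := hK (sec n (act g (base n))) _ h4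
  rw [mul_inv_cancel_left] at h5
  exact h5.symm

/-- The same for continuous functions which are subharmonic for the averages `Boot.Q t`, `t ≥ t₀`. -/
theorem le_AA (hn : 1 ≤ n) {u : SUGroup n → ℝ} (hu : Continuous u) (hK : RK u) {N : ℕ} {C : ℝ}
    (hg : ∀ g, |u g| ≤ C * ch g ^ (2 * N)) {t₀ : ℕ} (hsub : ∀ t, t₀ ≤ t → ∀ g, u g ≤ Boot.Q t u g)
    {r : ℝ} (hr : 0 < r) (hr1 : r < 1) (g : SUGroup n) : u g ≤ AA r u g := by
  obtain ⟨F, hF⟩ : ∃ F : Vec n → ℝ, F = fun v => u (sec n v) := ⟨_, rfl⟩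
  have hFo : ∀ g : SUGroup n, F (act g (base n)) = u g := fun g => by
    rw [hF]
    exact c1_sec hK g
  have hFh : Homog F := by
    intro c hc v hv
    rw [hF]
    show u (sec n (c • v)) = u (sec n v)
    rw [sec_smul hv hc]
  have hFc : ContinuousOn F (Cone n) := by
    rw [hF]
    exact hu.comp_continuousOn c1_sec_cont
  have hFa : Adm N C F := adm_of_continuousOn hFc fun g => by
    rw [hFo, Real.norm_eq_abs]
    exact hg g
  have hPF : ∀ (t : ℕ) (g : SUGroup n), P t F (act g (base n)) = Boot.Q t u g := by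
    intro t g
    rw [P_orbit, Boot.Q]
    refine integral_congr_ae (Eventually.of_forall fun x => ?_)
    show kap t x • F (act (g * x) (base n)) = _
    rw [hFo, smul_eq_mul]
  -- the smooth averages
  obtain ⟨s₁, h1⟩ := P_tame (n := n) (E := ℝ) hn N
  obtain ⟨s₂, h2⟩ := P_comm (n := n) (E := ℝ) hn N
  obtain ⟨s₃, h3⟩ := P_contDiffOn (E := ℝ) n N
  have hlap : ∀ t, s₁ + s₂ + s₃ + t₀ + n + N + 1 ≤ t → ∀ v ∈ Cone n, 0 ≤ Lap (P t F) v := by
    intro t ht
    obtain ⟨N', C', hC', hT⟩ := h1 t (by omega)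
    have hTF := hT C F hFa
    have hv0 : ∀ g : SUGroup n, 0 ≤ Lap (P t F) (act g (base n)) := by
      intro g
      by_contra hneg
      push Not at hneg
      obtain ⟨s₄, h4⟩ := P_series (E := ℝ) hn N'
      obtain ⟨j₀, s₅, h5⟩ := P_tendsto n N' (f := fun _ => Lap (P t F)) (f₀ := Lap (P t F))
        (fun _ => hTF.adm_lap) hTF.continuousOn_lap (homog_lap hTF.hom hTF.cd)
        (fun T ε hε => ⟨0, fun _ _ g _ => by simpa using hε.le⟩) (ch g)
        (-Lap (P t F) (act g (base n)) / 2) (by linarith)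
      obtain ⟨s, hs⟩ : ∃ s, s = s₁ + s₂ + s₃ + s₄ + s₅ + t₀ + n + N + 1 := ⟨_, rfl⟩
      have hser := h4 s (by omega) _ _ hTF _ (orbit_mem g)
      have hterm : ∀ j : ℕ, (lam n (s + j))⁻¹ • P (s + j) (Lap (P t F)) (act g (base n)) < 0 := by
        intro j
        have h6 := h5 j₀ le_rfl (s + j) (by omega) g le_rfl
        rw [Real.norm_eq_abs, abs_le] at h6
        have h7 : P (s + j) (Lap (P t F)) (act g (base n)) < 0 := by linarith [h6.2]
        rw [smul_eq_mul]
        have h8 : 0 < lam n (s + j) := by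
          unfold lam
          have a1 : (n : ℝ) + 1 ≤ ((s + j : ℕ) : ℝ) := by
            have : n + 1 ≤ s + j := by omega
            exact_mod_cast this
          have a2 : (0 : ℝ) ≤ n := Nat.cast_nonneg n
          exact mul_pos (by linarith) (by linarith)
        exact mul_neg_of_pos_of_neg (inv_pos.2 h8) h7
      have h9 := hser.neg
      have h10 := le_hasSum h9 0 fun j _ => by
        have := hterm j
        linarith
      have h11 := hterm 0
      have h12 : P t F (act g (base n)) ≤ P s (P t F) (act g (base n)) := by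
        rw [h2 s t (by omega) (by omega) C F hFa _ (orbit_mem g)]
        refine Sm.P_mono (N₂ := N) hFa (hFa.avg (s := s) (by omega)) (by omega) (by omega) ?_ (orbit_mem g)
        refine Eventually.of_forall fun y => ?_
        rw [hPF, hFo]
        exact hsub s (by omega) y
      linarith
    intro v hv
    obtain ⟨g, c, hc, rfl⟩ := exists_act_eq hv
    rw [homog_lap hTF.hom hTF.cd c hc _ (orbit_mem g)]
    exact hv0 g
  -- the limit
  refine le_of_forall_pos_le_add fun ε hε => ?_
  obtain ⟨T, hT⟩ : ∃ T : ℝ, T = 2 * ch g * (1 / (1 - r ^ 2)) := ⟨_, rfl⟩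
  have hr2 : 0 < 1 - r ^ 2 := by nlinarith
  have hb : ∀ x : SUGroup n, hq x ≤ r ^ 2 → ch (g * x) ≤ T := by
    intro x hx
    refine (ch_mul_le' g x).trans ?_
    rw [hT]
    have a1 := c1_ch hr.le hr1 hx
    have a2 := one_le_ch x
    have a3 : ch x ≤ 1 / (1 - r ^ 2) := by nlinarith
    exact mul_le_mul_of_nonneg_left a3 (by have := ch_pos g; positivity)
  obtain ⟨j₀, s₆, h6⟩ := P_tendsto n N (f := fun _ => F) (f₀ := F) (fun _ => hFa) hFc hFh
    (fun T ε hε => ⟨0, fun _ _ g _ => by simpa using hε.le⟩) T (ε / 2) (by positivity)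
  obtain ⟨t, ht⟩ : ∃ t, t = s₁ + s₂ + s₃ + s₆ + t₀ + n + N + 1 := ⟨_, rfl⟩
  have hcd : ContDiffOn ℝ 2 (P t F) (Cone n) :=
    (h3 t (by omega) C F hFa).of_le (WithTop.coe_le_coe.2 le_top)
  have key := le_AA_of_lap hn (P_homog t F) hcd (hlap t (by omega)) hr hr1 g
  have hPc : Continuous fun x : SUGroup n => P t F (act x (base n)) :=
    hcd.continuousOn.comp_continuous continuous_orbit orbit_mem
  have hup : AA r (fun x => P t F (act x (base n))) g ≤ AA r (fun x => u x + ε / 2) g := by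
    refine AA_mono hr hr1 hPc (hu.add continuous_const) fun x hx => ?_
    have a1 := h6 j₀ le_rfl t (by omega) (g * x) (hb x hx)
    rw [Real.norm_eq_abs, abs_le, hFo] at a1
    show P t F (act (g * x) (base n)) ≤ u (g * x) + ε / 2
    linarith [a1.2]
  rw [AA_add hr hr1 hu continuous_const, AA_const hn hr hr1] at hup
  have hgT : ch g ≤ T := by
    have h0 : hq (1 : SUGroup n) ≤ r ^ 2 := by
      rw [hq, ch_one]
      simp only [one_pow, inv_one, sub_self]
      positivity
    have h1 := hb 1 h0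
    rwa [mul_one] at h1
  have a2 := h6 j₀ le_rfl t (by omega) g hgT
  rw [Real.norm_eq_abs, abs_le, hFo] at a2
  linarith [a2.1]

end Pool.Agent.Lib.MP_5d4057_al.IN
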