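import Pool.Agent.Lib.MP_5d4057_al.IN.AvgC2
import Pool.Agent.Lib.MP_5d4057_al.IN.AvgC1
import Pool.Agent.Lib.MP_5d4057_al.HM.Sub

/-! Sub mean value property, holomorphic functions, increments, regularity (text C1 (a), (c), (f)). -/

set_option autoImplicit false

namespace Pool.Agent.Lib.MP_5d4057_al.IN

open Matrix MeasureTheory Filter Topology Pool.Agent.Lib.MP_5d4057_al Pool.Agent.Lib.MP_5d4057_al.Hyb
  Pool.Agent.Lib.MP_5d4057_al.HM

variable {n : ℕ}

end Pool.Agent.Lib.MP_5d4057_al.IN
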