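import Pool.Agent.Lib.MP_5d4057_al.IN.AvgB

/-! Increments of the local averages and regularity (text C1 (c), (f)). -/

set_option autoImplicit false

namespace Pool.Agent.Lib.MP_5d4057_al.IN

open Matrix MeasureTheory Filter Topology Pool.Agent.Lib.MP_5d4057_al Pool.Agent.Lib.MP_5d4057_al.Hyb
  Pool.Agent.Lib.MP_5d4057_al.HM

open scoped ComplexOrder MatrixOrder Matrix.Norms.L2Operator

variable {n : ℕ}

/-! ### Increments -/

private theorem deriv_th_bound : ∃ L : ℝ, 0 < L ∧ ∀ y, ‖deriv th y‖ ≤ L := by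
  have hc : Continuous (deriv th) := contDiff_th.continuous_deriv (by simp)
  obtain ⟨L, hL⟩ := (isCompact_Icc (a := (0 : ℝ)) (b := 1)).exists_bound_of_continuousOn
    hc.continuousOn
  refine ⟨max L 1, lt_of_lt_of_le one_pos (le_max_right _ _), fun y => ?_⟩
  by_cases h : y ∈ Set.Icc (0 : ℝ) 1
  · exact (hL y h).trans (le_max_left _ _)
  · have h0 : deriv th y = 0 := by
      rw [Set.mem_Icc, not_and_or, not_le, not_le] at h
      rcases h with h | h
      · have : th =ᶠ[𝓝 y] fun _ => (1 : ℝ) := by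
          filter_upwards [isOpen_Iio.mem_nhds h] with z hz
          exact th_eq_one (by have : z < 0 := hz; linarith)
        rw [this.deriv_eq, deriv_const]
      · have : th =ᶠ[𝓝 y] fun _ => (0 : ℝ) := by
          filter_upwards [isOpen_Ioi.mem_nhds h] with z hz
          exact th_eq_zero (le_of_lt hz)
        rw [this.deriv_eq, deriv_const]
    rw [h0, norm_zero]
    exact zero_le_one.trans (le_max_right _ _)

private theorem th_lip : ∃ L : ℝ, 0 < L ∧ ∀ y y' : ℝ, |th y - th y'| ≤ L * |y - y'| := by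
  obtain ⟨L, hL0, hL⟩ := deriv_th_bound
  refine ⟨L, hL0, fun y y' => ?_⟩
  exact convex_univ.norm_image_sub_le_of_norm_deriv_le (f := th)
    (fun z _ => (contDiff_th.differentiable (by simp)).differentiableAt) (fun z _ => hL z)
    (Set.mem_univ y') (Set.mem_univ y)

private theorem tanh_lip (a b : ℝ) : |Real.tanh a - Real.tanh b| ≤ |a - b| := by
  have hd : ∀ z : ℝ, HasDerivAt Real.tanh ((Real.cosh z ^ 2)⁻¹) z := by
    intro z
    have h1 : HasDerivAt (fun z => Real.sinh z / Real.cosh z)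
        ((Real.cosh z * Real.cosh z - Real.sinh z * Real.sinh z) / Real.cosh z ^ 2) z :=
      (Real.hasDerivAt_sinh z).div (Real.hasDerivAt_cosh z) (Real.cosh_pos z).ne'
    have h2 : (fun z => Real.sinh z / Real.cosh z) = Real.tanh := by
      funext z
      rw [Real.tanh_eq_sinh_div_cosh]
    rw [h2] at h1
    convert h1 using 1
    have := Real.cosh_sq z
    rw [← sq, ← sq, this]
    ring
  have h := convex_univ.norm_image_sub_le_of_norm_deriv_le (f := Real.tanh) (C := 1)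
    (x := b) (y := a) (fun z _ => (hd z).differentiableAt) (fun z _ => by
      rw [(hd z).deriv, norm_inv, norm_pow, Real.norm_eq_abs, sq_abs]
      apply inv_le_one_of_one_le₀
      have := Real.one_le_cosh z
      nlinarith) (Set.mem_univ _) (Set.mem_univ _)
  rw [one_mul] at h
  exact h

private theorem wt_pos' (x : SUGroup n) : 0 < wt x := lt_of_lt_of_le one_pos (one_le_wt x)

private theorem ch_eq_cosh (x : SUGroup n) : ch x = Real.cosh (Real.log (wt x)) := by
  have h1 := one_le_ch x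
  have h2 : 0 ≤ ch x ^ 2 - 1 := by nlinarith
  have h3 : (wt x)⁻¹ = ch x - Real.sqrt (ch x ^ 2 - 1) := by
    rw [inv_eq_iff_eq_inv, eq_comm, inv_eq_iff_eq_inv, eq_comm, wt, eq_comm]
    apply eq_inv_of_mul_eq_one_left
    have := Real.sq_sqrt h2
    nlinarith
  rw [Real.cosh_log (wt_pos' x), h3, wt]
  ring

/-- the hyperbolic tangent of the distance -/
private noncomputable def tt (x : SUGroup n) : ℝ := Real.tanh (Real.log (wt x))

private theorem tt_nonneg (x : SUGroup n) : 0 ≤ tt x := by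
  unfold tt
  rw [Real.tanh_eq_sinh_div_cosh]
  have h1 : 0 ≤ Real.log (wt x) := Real.log_nonneg (one_le_wt x)
  exact div_nonneg (Real.sinh_nonneg_iff.2 h1) (Real.cosh_pos _).le

private theorem hq_eq (x : SUGroup n) : hq x = tt x ^ 2 := by
  rw [hq, tt, ch_eq_cosh, Real.tanh_eq_sinh_div_cosh, div_pow]
  have h1 := Real.cosh_sq (Real.log (wt x))
  have h2 := Real.cosh_pos (Real.log (wt x))
  field_simp
  linarith

private theorem hq_nonneg (x : SUGroup n) : 0 ≤ hq x := by
  rw [hq_eq]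
  exact sq_nonneg _

private theorem hq_le_one (x : SUGroup n) : hq x ≤ 1 := by
  have : 0 < (ch x ^ 2)⁻¹ := inv_pos.2 (pow_pos (ch_pos x) 2)
  rw [hq]
  linarith

private theorem tt_mul (b x : SUGroup n) : |tt (b⁻¹ * x) - tt x| ≤ Real.log (wt b) := by
  have h0 := one_le_wt b
  have h1 := wt_mul_le b⁻¹ x
  have h2 := wt_mul_le b (b⁻¹ * x)
  rw [mul_inv_cancel_left] at h2
  rw [wt_inv] at h1
  have p1 := wt_pos' x
  have p2 := wt_pos' (b⁻¹ * x)
  have p3 := wt_pos' b
  have l1 : Real.log (wt (b⁻¹ * x)) ≤ Real.log (wt b) + Real.log (wt x) := by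
    rw [← Real.log_mul p3.ne' p1.ne']
    exact Real.log_le_log p2 h1
  have l2 : Real.log (wt x) ≤ Real.log (wt b) + Real.log (wt (b⁻¹ * x)) := by
    rw [← Real.log_mul p3.ne' p2.ne']
    exact Real.log_le_log p1 h2
  refine (tanh_lip _ _).trans ?_
  rw [abs_le]
  constructor <;> linarith

private theorem wk_eq (r : ℝ) (x : SUGroup n) :
    wk n r x = (r ^ (2 * n))⁻¹ * ((1 - hq x) ^ (n + 1) * th (hq x / r ^ 2)) := by
  rw [wk, hq, sub_sub_cancel, inv_pow, ← pow_mul]
  ring

private theorem pow_lip (m : ℕ) {a b : ℝ} (ha : |a| ≤ 1) (hb : |b| ≤ 1) :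
    |a ^ m - b ^ m| ≤ m * |a - b| := by
  induction m with
  | zero => simp
  | succ m ih =>
    have e : a ^ (m + 1) - b ^ (m + 1) = a * (a ^ m - b ^ m) + b ^ m * (a - b) := by ring
    rw [e]
    refine (abs_add_le _ _).trans ?_
    rw [abs_mul, abs_mul, abs_pow]
    have h1 : |a| * |a ^ m - b ^ m| ≤ 1 * (m * |a - b|) :=
      mul_le_mul ha ih (abs_nonneg _) zero_le_one
    have h2 : |b| ^ m * |a - b| ≤ 1 * |a - b| :=
      mul_le_mul_of_nonneg_right (pow_le_one₀ (abs_nonneg _) hb) (abs_nonneg _)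
    push_cast
    linarith

/-- the increment of the kernel -/
private theorem wk_incr (n : ℕ) : ∃ C : ℝ, 0 < C ∧ ∀ r : ℝ, 0 < r → r ≤ 1 → ∀ b x : SUGroup n,
    Real.log (wt b) ≤ r → |wk n r (b⁻¹ * x) - wk n r x| ≤
      C * (r ^ (2 * n))⁻¹ * (Real.log (wt b) / r) ∧
      ((2 * r) ^ 2 < hq x → wk n r (b⁻¹ * x) - wk n r x = 0) := by
  obtain ⟨L, hL0, hL⟩ := th_lip
  refine ⟨3 * (n + 1 + L), by positivity, fun r hr hr1 b x hb => ?_⟩
  have hτ : 0 ≤ Real.log (wt b) := Real.log_nonneg (one_le_wt b)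
  obtain ⟨τ, hτd⟩ : ∃ τ, τ = Real.log (wt b) := ⟨_, rfl⟩
  rw [← hτd] at hb hτ ⊢
  have ht := tt_mul b x
  rw [← hτd] at ht
  have h1 := tt_nonneg x
  have h2 := tt_nonneg (b⁻¹ * x)
  rw [abs_le] at ht
  by_cases hc : r ≤ tt x ∧ r ≤ tt (b⁻¹ * x)
  · have e1 : wk n r x = 0 := wk_eq_zero hr (by rw [hq_eq]; exact pow_le_pow_left₀ hr.le hc.1 2)
    have e2 : wk n r (b⁻¹ * x) = 0 :=
      wk_eq_zero hr (by rw [hq_eq]; exact pow_le_pow_left₀ hr.le hc.2 2)
    rw [e1, e2, sub_zero, abs_zero]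
    exact ⟨by positivity, fun _ => rfl⟩
  · have hx2 : tt x ≤ 2 * r ∧ tt (b⁻¹ * x) ≤ 2 * r ∧ tt x + tt (b⁻¹ * x) ≤ 3 * r := by
      rw [not_and_or, not_le, not_le] at hc
      rcases hc with hc | hc
      · exact ⟨by linarith, by linarith, by linarith⟩
      · exact ⟨by linarith, by linarith, by linarith⟩
    refine ⟨?_, fun hlt => ?_⟩
    · have hdiff : |hq (b⁻¹ * x) - hq x| ≤ τ * (3 * r) := by
        rw [hq_eq, hq_eq]
        have e : tt (b⁻¹ * x) ^ 2 - tt x ^ 2 =
            (tt (b⁻¹ * x) - tt x) * (tt x + tt (b⁻¹ * x)) := by ring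
        rw [e, abs_mul, abs_of_nonneg (add_nonneg h1 h2)]
        exact mul_le_mul (abs_le.2 ht) hx2.2.2 (add_nonneg h1 h2) hτ
      rw [wk_eq, wk_eq, ← mul_sub, abs_mul, abs_of_pos (by positivity : 0 < (r ^ (2 * n))⁻¹)]
      set h := hq x with hh
      set h' := hq (b⁻¹ * x) with hh'
      have a1 : |1 - h| ≤ 1 := by
        rw [abs_le]
        constructor
        · have := hq_le_one x; linarith
        · have := hq_nonneg x; linarith
      have a2 : |1 - h'| ≤ 1 := by
        rw [abs_le]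
        constructor
        · have := hq_le_one (b⁻¹ * x); linarith
        · have := hq_nonneg (b⁻¹ * x); linarith
      have e : (1 - h') ^ (n + 1) * th (h' / r ^ 2) - (1 - h) ^ (n + 1) * th (h / r ^ 2) =
          ((1 - h') ^ (n + 1) - (1 - h) ^ (n + 1)) * th (h' / r ^ 2) +
            (1 - h) ^ (n + 1) * (th (h' / r ^ 2) - th (h / r ^ 2)) := by ring
      have b1 : |((1 - h') ^ (n + 1) - (1 - h) ^ (n + 1)) * th (h' / r ^ 2)| ≤
          (n + 1) * (τ * (3 * r)) := by
        rw [abs_mul]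
        have c1 := pow_lip (n + 1) a2 a1
        have c2 : |1 - h' - (1 - h)| = |h' - h| := by
          rw [abs_sub_comm]; congr 1; ring
        rw [c2] at c1
        push_cast at c1
        have c3 : |th (h' / r ^ 2)| ≤ 1 := by
          rw [abs_of_nonneg (th_nonneg _)]; exact th_le_one _
        have c4 : ((n : ℝ) + 1) * |h' - h| ≤ (n + 1) * (τ * (3 * r)) := by gcongr
        calc _ ≤ ((n : ℝ) + 1) * (τ * (3 * r)) * 1 :=
              mul_le_mul (c1.trans c4) c3 (abs_nonneg _) (by positivity)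
          _ = _ := mul_one _
      have b2 : |(1 - h) ^ (n + 1) * (th (h' / r ^ 2) - th (h / r ^ 2))| ≤
          L * (τ * (3 * r) / r ^ 2) := by
        rw [abs_mul, abs_pow]
        have c1 := hL (h' / r ^ 2) (h / r ^ 2)
        have c2 : |h' / r ^ 2 - h / r ^ 2| ≤ τ * (3 * r) / r ^ 2 := by
          rw [← sub_div, abs_div, abs_of_pos (by positivity : 0 < r ^ 2)]
          gcongr
        have c3 : L * |h' / r ^ 2 - h / r ^ 2| ≤ L * (τ * (3 * r) / r ^ 2) := by gcongr
        calc _ ≤ 1 * (L * (τ * (3 * r) / r ^ 2)) :=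
              mul_le_mul (pow_le_one₀ (abs_nonneg _) a1) (c1.trans c3) (abs_nonneg _) zero_le_one
          _ = _ := one_mul _
      have b3 : ((n : ℝ) + 1) * (τ * (3 * r)) ≤ 3 * (n + 1) * (τ / r) := by
        have : τ * r ≤ τ / r := by
          rw [le_div_iff₀ hr]
          have : τ * r * r = τ * (r * r) := by ring
          rw [this]
          have : r * r ≤ 1 := by nlinarith
          nlinarith
        have h3 : 0 ≤ (n : ℝ) + 1 := by positivity
        nlinarith
      have b4 : L * (τ * (3 * r) / r ^ 2) = 3 * L * (τ / r) := by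
        field_simp
      have b5 : |(1 - h') ^ (n + 1) * th (h' / r ^ 2) - (1 - h) ^ (n + 1) * th (h / r ^ 2)| ≤
          3 * (n + 1 + L) * (τ / r) := by
        rw [e]
        refine (abs_add_le _ _).trans ?_
        rw [b4] at b2
        calc _ ≤ 3 * ((n : ℝ) + 1) * (τ / r) + 3 * L * (τ / r) := add_le_add (b1.trans b3) b2
          _ = _ := by ring
      calc _ ≤ (r ^ (2 * n))⁻¹ * (3 * (n + 1 + L) * (τ / r)) := by
            gcongr
        _ = _ := by ring
    · exfalso
      rw [hq_eq] at hlt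
      have : tt x ^ 2 ≤ (2 * r) ^ 2 := pow_le_pow_left₀ h1 hx2.1 2
      linarith

private theorem AA_left_kernel (r : ℝ) (u : SUGroup n → ℝ) (g c : SUGroup n) :
    AA r u (g * c) = ∫ x : SUGroup n, bk r (c⁻¹ * x) * u (g * x) ∂(mu n) := by
  rw [AA, ← integral_mul_left_eq_self (fun x => bk r (c⁻¹ * x) * u (g * x)) c]
  refine integral_congr_ae (Eventually.of_forall fun x => ?_)
  simp only [inv_mul_cancel_left, mul_assoc]

/-- Increments of the averages along left translations: `AA r u (b g) = ∫ bk r (b'⁻¹ x) u (g x)` with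
`b' = g⁻¹ b g`, `tau = log (wt b') ≤ r`; `|hq (b'⁻¹ x) - hq x| ≤ 3 r tau` when one of them is `≤ r²`,
so `|bk r (b'⁻¹ x) - bk r x| ≤ C r^(-2n-1) tau`, and it vanishes outside `hq x ≤ (2r)²`,
whose volume is `≤ C r^(2n)` (`vol_le`). -/
theorem AA_incr (hn : 1 ≤ n) : ∃ C : ℝ, 0 < C ∧ ∀ r : ℝ, 0 < r → r ≤ 1 / 4 → ∀ u : SUGroup n → ℝ,
    Continuous u → ∀ g b : SUGroup n, Real.log (wt (g⁻¹ * b * g)) ≤ r → ∀ M : ℝ,
      (∀ x, hq x ≤ (2 * r) ^ 2 → |u (g * x)| ≤ M) →
        |AA r u (b * g) - AA r u g| ≤ C * (Real.log (wt (g⁻¹ * b * g)) / r) * M := by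
  obtain ⟨C1, hC1, hk⟩ := wk_incr n
  obtain ⟨C2, hC2, hv⟩ := vol_le hn
  have hcw := cw_pos n
  refine ⟨C1 / cw n * (C2 * 2 ^ (2 * n)), by positivity, fun r hr hr4 u hu g b hb M hM => ?_⟩
  obtain ⟨c, hc⟩ : ∃ c, c = g⁻¹ * b * g := ⟨_, rfl⟩
  rw [← hc] at hb ⊢
  have hbg : b * g = g * c := by rw [hc]; group
  have hM0 : 0 ≤ M := (abs_nonneg _).trans (hM 1 (by
    have : hq (1 : SUGroup n) = 0 := by rw [hq, ch_one]; norm_num
    rw [this]; positivity))
  have hτ : 0 ≤ Real.log (wt c) := Real.log_nonneg (one_le_wt c)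
  have hr1 : r < 1 := by linarith
  have hi1 : Integrable (fun x : SUGroup n => bk r (c⁻¹ * x) * u (g * x)) (mu n) := by
    have h := (integrable_AA hr hr1 hu (g * c)).comp_mul_left c⁻¹
    refine h.congr (Eventually.of_forall fun x => ?_)
    simp only [mul_assoc, mul_inv_cancel_left]
  have hi2 := integrable_AA hr hr1 hu g
  have hsub : AA r u (b * g) - AA r u g =
      ∫ x : SUGroup n, (bk r (c⁻¹ * x) - bk r x) * u (g * x) ∂(mu n) := by
    rw [hbg, AA_left_kernel, AA, ← integral_sub hi1 hi2]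
    refine integral_congr_ae (Eventually.of_forall fun x => ?_)
    simp only [sub_mul]
  have hset : ∫ x : SUGroup n, (bk r (c⁻¹ * x) - bk r x) * u (g * x) ∂(mu n) =
      ∫ x in {x : SUGroup n | hq x ≤ (2 * r) ^ 2}, (bk r (c⁻¹ * x) - bk r x) * u (g * x) ∂(mu n) := by
    symm
    apply setIntegral_eq_integral_of_forall_compl_eq_zero
    intro x hx
    have hx' : (2 * r) ^ 2 < hq x := not_le.1 hx
    have := (hk r hr (by linarith) c x hb).2 hx'
    have e : bk r (c⁻¹ * x) - bk r x = 0 := by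
      rw [bk, bk, ← sub_div, this, zero_div]
    rw [e, zero_mul]
  have hfin : (mu n) {x : SUGroup n | hq x ≤ (2 * r) ^ 2} < ⊤ :=
    (isCompact_hq (r := 2 * r) (by linarith) (by linarith)).measure_lt_top
  have hbound := norm_setIntegral_le_of_norm_le_const (μ := mu n)
    (s := {x : SUGroup n | hq x ≤ (2 * r) ^ 2})
    (f := fun x => (bk r (c⁻¹ * x) - bk r x) * u (g * x))
    (C := C1 / cw n * (r ^ (2 * n))⁻¹ * (Real.log (wt c) / r) * M) hfin (fun x hx => by
      rw [norm_mul, Real.norm_eq_abs, Real.norm_eq_abs]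
      refine mul_le_mul ?_ (hM x hx) (abs_nonneg _) (by positivity)
      rw [bk, bk, ← sub_div, abs_div, abs_of_pos hcw, div_le_iff₀ hcw]
      refine ((hk r hr (by linarith) c x hb).1).trans (le_of_eq ?_)
      field_simp)
  rw [hsub, hset]
  refine hbound.trans ?_
  have hvol := hv (2 * r) (by linarith) (by linarith)
  have h0 : 0 ≤ C1 / cw n * (r ^ (2 * n))⁻¹ * (Real.log (wt c) / r) * M := by positivity
  refine (mul_le_mul_of_nonneg_left hvol h0).trans (le_of_eq ?_)
  rw [mul_pow]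
  have : (r ^ (2 * n)) ≠ 0 := by positivity
  field_simp

/-! ### Regularity -/

private theorem sec_act (g : SUGroup n) :
    ∃ k : SUGroup n, ch k = 1 ∧ sec n (act g (base n)) = g * k := by
  obtain ⟨c, hc, h⟩ := sec_spec (orbit_mem g)
  refine ⟨g⁻¹ * sec n (act g (base n)), ?_, by rw [mul_inv_cancel_left]⟩
  have h1 : act (sec n (act g (base n))) (base n) = c⁻¹ • act g (base n) := by
    conv_rhs => rw [h]
    rw [smul_smul, inv_mul_cancel₀ hc, one_smul]
  rw [ch_eq_one_iff]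
  refine ⟨c⁻¹, ?_, ?_⟩
  · have h2 := q_orbit (sec n (act g (base n)))
    rw [h1, q_smul, q_orbit] at h2
    have h3 : ‖c⁻¹‖ ^ 2 = 1 := by linarith
    have h4 := norm_nonneg c⁻¹
    nlinarith
  · rw [act_mul, h1, act_smul, ← act_mul, inv_mul_cancel, act_one]

private theorem at_sec {F : Type} {a : SUGroup n → F} (hK : ∀ g k : SUGroup n, ch k = 1 → a (g * k) = a g)
    (g : SUGroup n) : a (sec n (act g (base n))) = a g := by
  obtain ⟨k, hk, e⟩ := sec_act g
  rw [e, hK g k hk]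

private theorem ker_sec {v : Vec n} (hv : v ∈ Cone n) (y : SUGroup n) :
    ker 1 v (act y (base n)) = (ch ((sec n v)⁻¹ * y) ^ 2)⁻¹ := by
  obtain ⟨c, hc, h⟩ := sec_spec hv
  conv_lhs => rw [h]
  rw [ker_smul_left 1 hc, ker_orbit]

/-- the bump as a function of the kernel -/
private noncomputable def Wf (n : ℕ) (r k : ℝ) : ℝ :=
  (r ^ (2 * n))⁻¹ * (k ^ (n + 1) * th ((1 - k) / r ^ 2)) / cw n

private theorem bk_eq (r : ℝ) (x : SUGroup n) : bk r x = Wf n r ((ch x ^ 2)⁻¹) := by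
  rw [bk, wk_eq, Wf, hq, sub_sub_cancel]

private theorem contDiff_Wf (n : ℕ) (r : ℝ) : ContDiff ℝ (⊤ : ℕ∞) (Wf n r) := by
  unfold Wf
  exact (contDiff_const.mul ((contDiff_id.pow _).mul (contDiff_th.comp
    ((contDiff_const.sub contDiff_id).div_const _)))).div_const _

private theorem AA_eq (r : ℝ) (a : SUGroup n → ℝ) (g : SUGroup n) :
    AA r a g = ∫ y : SUGroup n, bk r (g⁻¹ * y) * a y ∂(mu n) := by
  rw [AA, ← integral_mul_left_eq_self (fun y => bk r (g⁻¹ * y) * a y) g]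
  refine integral_congr_ae (Eventually.of_forall fun x => ?_)
  simp only [inv_mul_cancel_left]

private theorem isCompact_le {r : ℝ} (hr : r < 1) (hr0 : 0 ≤ r) :
    IsCompact {x : SUGroup n | hq x ≤ r ^ 2} := isCompact_hq hr hr0

/-- `u` evaluated at the section is continuous on the cone -/
private theorem continuousOn_sec' : ContinuousOn (fun v => sec n v) (Cone n) := by
  rw [(isClosedEmbedding_toMatrix n).isInducing.continuousOn_iff]
  exact (contDiffOn_sec n).continuousOn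

private theorem sec_contAt {v : Vec n} (hv : v ∈ Cone n) : ContinuousAt (fun v => sec n v) v :=
  continuousOn_sec'.continuousAt ((isOpen_cone n).mem_nhds hv)

/-- the kernel as a function of the ball coordinate -/
private noncomputable def Phi (n : ℕ) (r : ℝ) (v : Vec n) (z : Fin n → ℂ) : ℝ :=
  Wf n r (KPhi 1 v z * (-q (pt z)))

private theorem contDiffOn_Phi (n : ℕ) (r : ℝ) :
    ContDiffOn ℝ (⊤ : ℕ∞) (Function.uncurry (Phi n r)) (Om n) := by
  have h1 : ContDiff ℝ (⊤ : ℕ∞) fun p : Vec n × (Fin n → ℂ) => -q (pt p.2) :=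
    (contDiff_q.comp (contDiff_pt.comp contDiff_snd)).neg
  have h2 := (contDiffOn_KPhi (n := n) 1).mul h1.contDiffOn
  exact (contDiff_Wf n r).comp_contDiffOn h2

private theorem q_pt_zc (y : SUGroup n) : -q (pt (zc y)) = (ch y ^ 2)⁻¹ := by
  have h1 : q (act y (base n)) = -1 := q_orbit y
  rw [act_base_eq, q_smul] at h1
  have h2 : ch y = ‖y.toMatrix (Fin.last n) (Fin.last n)‖ := rfl
  rw [← h2] at h1
  have h3 := ch_pos y
  apply eq_inv_of_mul_eq_one_left
  linarith

private theorem AA_smooth {r : ℝ} (hr : 0 < r) (hr1 : r < 1) {a : SUGroup n → ℝ}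
    (ha : Continuous a) : ContDiffOn ℝ (⊤ : ℕ∞) (fun v => AA r a (sec n v)) (Cone n) := by
  intro v₀ hv₀
  apply ContDiffAt.contDiffWithinAt
  have hr2 : 0 < 1 - r ^ 2 := by nlinarith
  obtain ⟨T, hT⟩ : ∃ T, T = 2 * (ch (sec n v₀) + 1) * (1 / (1 - r ^ 2)) := ⟨_, rfl⟩
  obtain ⟨m, hm⟩ : ∃ m : SUGroup n → ℝ, m = {y : SUGroup n | ch y ≤ T}.indicator a := ⟨_, rfl⟩
  have hmi : Integrable m (mu n) := by
    rw [hm, integrable_indicator_iff (isCompact_ball T).isClosed.measurableSet]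
    exact ha.continuousOn.integrableOn_compact (isCompact_ball T)
  have hsm := contDiffOn_param (ContinuousLinearMap.lsmul ℝ ℝ) (isOpen_cone n) (isOpen_Om n)
    (isCompact_zball n) (cone_prod_subset n) (contDiffOn_Phi n r)
    (continuous_zcv (n := n)).aemeasurable (zc_mem (n := n)) hmi
  have hat := hsm.contDiffAt ((isOpen_cone n).mem_nhds hv₀)
  refine hat.congr_of_eventuallyEq ?_
  have hc : ContinuousAt (fun v => ch (sec n v)) v₀ :=
    ContinuousAt.comp (f := fun v => sec n v) continuous_ch.continuousAt (sec_contAt hv₀)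
  have h1 : ∀ᶠ v in 𝓝 v₀, ch (sec n v) < ch (sec n v₀) + 1 :=
    hc.eventually_lt_const (by linarith)
  filter_upwards [h1, (isOpen_cone n).mem_nhds hv₀] with v hv1 hv
  rw [AA_eq]
  refine integral_congr_ae (Eventually.of_forall fun y => ?_)
  simp only [ContinuousLinearMap.lsmul_apply, smul_eq_mul]
  have e1 : Phi n r v (zc y) = bk r ((sec n v)⁻¹ * y) := by
    rw [Phi, bk_eq, q_pt_zc, ← ker_sec hv y, ker_eq_KPhi, mul_one]
  rw [e1, hm]
  by_cases hy : ch y ≤ T
  · rw [Set.indicator_of_mem (show y ∈ {y : SUGroup n | ch y ≤ T} from hy)]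
  · rw [Set.indicator_of_notMem (show y ∉ {y : SUGroup n | ch y ≤ T} from hy), mul_zero]
    have h2 : r ^ 2 ≤ hq ((sec n v)⁻¹ * y) := by
      by_contra hlt
      rw [not_le] at hlt
      apply hy
      have h3 := ch_mul_le' (sec n v) ((sec n v)⁻¹ * y)
      rw [mul_inv_cancel_left] at h3
      have h4 := one_le_ch ((sec n v)⁻¹ * y)
      have h5 : ch ((sec n v)⁻¹ * y) ≤ 1 / (1 - r ^ 2) := by
        rw [hq] at hlt
        have h6 : 1 - r ^ 2 < (ch ((sec n v)⁻¹ * y) ^ 2)⁻¹ := by linarith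
        have h7 : ch ((sec n v)⁻¹ * y) ^ 2 < (1 - r ^ 2)⁻¹ := by
          rw [lt_inv_comm₀ (by positivity) hr2]
          exact h6
        rw [one_div]
        nlinarith
      rw [hT]
      refine h3.trans ?_
      have h8 := one_le_ch (sec n v)
      have h9 := one_le_ch (sec n v₀)
      gcongr
    rw [bk, wk_eq_zero hr h2, zero_div, zero_mul]

/-- small balls about the points near `g` lie in an open set which contains the coset of `g` -/
private theorem tube {V : Set (SUGroup n)} (hV : IsOpen V) {g : SUGroup n}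
    (hg : ∀ k : SUGroup n, ch k = 1 → g * k ∈ V) : ∃ r : ℝ, 0 < r ∧ r ≤ 1 / 2 ∧
      ∃ N : Set (SUGroup n), IsOpen N ∧ g ∈ N ∧ ∀ g' ∈ N, ∀ x, hq x ≤ r ^ 2 → g' * x ∈ V := by
  have hKc : IsCompact {x : SUGroup n | hq x ≤ (0 : ℝ) ^ 2} := isCompact_le one_pos le_rfl
  have hopen : IsOpen {p : SUGroup n × SUGroup n | p.1 * p.2 ∈ V} :=
    hV.preimage (continuous_fst.mul continuous_snd)
  obtain ⟨N, w, hN, hw, hgN, hKw, hsub⟩ := generalized_tube_lemma (isCompact_singleton (x := g)) hKc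
    hopen (by
      rintro ⟨p1, p2⟩ ⟨h1, h2⟩
      have h1' : p1 = g := h1
      subst h1'
      apply hg
      have h3 : hq p2 ≤ 0 ^ 2 := h2
      rw [hq] at h3
      have h4 := one_le_ch p2
      have h5 : 1 ≤ (ch p2 ^ 2)⁻¹ := by linarith
      have h6 : ch p2 ^ 2 ≤ 1 := by
        rw [one_le_inv₀ (by positivity)] at h5
        exact h5
      nlinarith)
  have hC : IsCompact ({x : SUGroup n | hq x ≤ (1 / 2 : ℝ) ^ 2} \ w) :=
    (isCompact_le (by norm_num) (by norm_num)).diff hw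
  have hr : ∃ r : ℝ, 0 < r ∧ r ≤ 1 / 2 ∧ ∀ x : SUGroup n, hq x ≤ r ^ 2 → x ∈ w := by
    rcases Set.eq_empty_or_nonempty ({x : SUGroup n | hq x ≤ (1 / 2 : ℝ) ^ 2} \ w) with he | hne
    · refine ⟨1 / 2, by norm_num, le_rfl, fun x hx => ?_⟩
      by_contra hxw
      have : x ∈ ({x : SUGroup n | hq x ≤ (1 / 2 : ℝ) ^ 2} \ w) := ⟨hx, hxw⟩
      rw [he] at this
      exact this
    · obtain ⟨x₀, hx₀, hmin⟩ := hC.exists_isMinOn hne continuous_hq.continuousOn
      have hpos : 0 < hq x₀ := by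
        by_contra hle
        rw [not_lt] at hle
        apply hx₀.2
        apply hKw
        show hq x₀ ≤ 0 ^ 2
        simpa using hle
      have hle1 := hq_le_one x₀
      refine ⟨hq x₀ / 2, by linarith, by linarith, fun x hx => ?_⟩
      by_contra hxw
      have h1 : hq x ≤ (1 / 2 : ℝ) ^ 2 := by nlinarith
      have h2 : hq x₀ ≤ hq x := hmin (show x ∈ ({x : SUGroup n | hq x ≤ (1 / 2 : ℝ) ^ 2} \ w) from
        ⟨h1, hxw⟩)
      nlinarith
  obtain ⟨r, hr0, hr1, hrw⟩ := hr
  refine ⟨r, hr0, hr1, N, hN, hgN rfl, fun g' hg' x hx => ?_⟩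
  exact hsub (show (g', x) ∈ N ×ˢ w from ⟨hg', hrw x hx⟩)

private theorem hq_one : hq (1 : SUGroup n) = 0 := by
  rw [hq, ch_one]
  norm_num

private theorem hq_inv (x : SUGroup n) : hq x⁻¹ = hq x := by rw [hq, hq, ch_inv]

private theorem harm_smooth {a : SUGroup n → ℝ} (ha : Continuous a)
    {V : Set (SUGroup n)} (hV : IsOpen V) (hVK : ∀ g ∈ V, ∀ k : SUGroup n, ch k = 1 → g * k ∈ V)
    (h : ∀ g ∈ V, ∀ r : ℝ, 0 < r → r < 1 → (∀ x, hq x ≤ r ^ 2 → g * x ∈ V) → AA r a g = a g) :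
    ∀ g ∈ V, ContDiffAt ℝ (⊤ : ℕ∞) (fun v => a (sec n v)) (act g (base n)) := by
  intro g hg
  obtain ⟨k, hk, e⟩ := sec_act g
  have hgk : g * k ∈ V := hVK g hg k hk
  obtain ⟨r, hr, hr2, N, hN, hgN, hball⟩ := tube hV (hVK _ hgk)
  have hsm := (AA_smooth hr (by linarith) ha).contDiffAt ((isOpen_cone n).mem_nhds (orbit_mem g))
  refine hsm.congr_of_eventuallyEq ?_
  have hmem : ∀ᶠ v in 𝓝 (act g (base n)), sec n v ∈ N := by
    apply (sec_contAt (orbit_mem g)).eventually
    apply hN.mem_nhds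
    show sec n (act g (base n)) ∈ N
    rw [e]
    exact hgN
  filter_upwards [hmem] with v hv
  have hv1 : sec n v ∈ V := by
    have := hball _ hv 1 (by rw [hq_one]; positivity)
    rwa [mul_one] at this
  exact (h _ hv1 r hr (by linarith) (hball _ hv)).symm

private theorem lap_congr {f f' : Vec n → ℝ} {v : Vec n} (h : f =ᶠ[𝓝 v] f') :
    Lap f v = Lap f' v := by
  have h1 : fderiv ℝ f =ᶠ[𝓝 v] fderiv ℝ f' := h.fderiv
  rw [Lap, Lap, h1.fderiv_eq]

private theorem contDiffAt_smul {f : Vec n → ℝ} (hf : ∀ c : ℂ, c ≠ 0 → ∀ v ∈ Cone n, f (c • v) = f v)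
    {m : WithTop ℕ∞} {v : Vec n} (hv : v ∈ Cone n) {c : ℂ} (hc : c ≠ 0) (h : ContDiffAt ℝ m f v) :
    ContDiffAt ℝ m f (c • v) := by
  have h1 : ContDiff ℝ m (fun w : Vec n => c⁻¹ • w) := contDiff_const_smul c⁻¹
  have h2 : ContDiffAt ℝ m (fun w => f (c⁻¹ • w)) (c • v) := by
    apply ContDiffAt.comp (c • v) (g := f) (f := fun w : Vec n => c⁻¹ • w)
    · have : c⁻¹ • c • v = v := by rw [smul_smul, inv_mul_cancel₀ hc, one_smul]
      rw [this]
      exact h
    · exact h1.contDiffAt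
  refine h2.congr_of_eventuallyEq ?_
  filter_upwards [(isOpen_cone n).mem_nhds (smul_mem_cone hc hv)] with w hw
  exact (hf c⁻¹ (inv_ne_zero hc) w hw).symm

/-- Regularity: a continuous function which is equal to its local averages on an open set (invariant
under the stabiliser) is smooth and harmonic there. -/
theorem harm_of_AA (hn : 1 ≤ n) {a : SUGroup n → ℝ} (ha : Continuous a) (hK : RK a)
    {V : Set (SUGroup n)} (hV : IsOpen V) (hVK : ∀ g ∈ V, ∀ k : SUGroup n, ch k = 1 → g * k ∈ V)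
    (h : ∀ g ∈ V, ∀ r : ℝ, 0 < r → r < 1 → (∀ x, hq x ≤ r ^ 2 → g * x ∈ V) → AA r a g = a g) :
    ∀ g ∈ V, ContDiffAt ℝ (⊤ : ℕ∞) (fun v => a (sec n v)) (act g (base n)) ∧
      Lap (fun v => a (sec n v)) (act g (base n)) = 0 := by
  intro g hg
  have hsm := harm_smooth ha hV hVK h
  refine ⟨hsm g hg, ?_⟩
  obtain ⟨ρ, hρ, hρ2, N, -, hgN, hball⟩ := tube hV (hVK g hg)
  have hb : ∀ x, hq x ≤ ρ ^ 2 → g * x ∈ V := hball g hgN
  obtain ⟨f, hf⟩ : ∃ f : Vec n → ℝ, f = fun v => a (sec n v) := ⟨_, rfl⟩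
  have hfh : Homog f := by
    intro c hc v hv
    rw [hf]
    simp only [sec_smul hv hc]
  have hfo : ∀ x : SUGroup n, f (act x (base n)) = a x := by
    intro x
    rw [hf]
    exact at_sec hK x
  -- the cut off
  obtain ⟨ψ, hψ⟩ : ∃ ψ : Vec n → ℝ, ψ = fun v => th ((1 - ker 1 v (act g (base n))) / ρ ^ 2) :=
    ⟨_, rfl⟩
  have hψh : Homog ψ := by
    intro c hc v _
    rw [hψ]
    simp only [ker_smul_left 1 hc]
  have hψs : ContDiffOn ℝ (⊤ : ℕ∞) ψ (Cone n) := by
    rw [hψ]
    exact contDiff_th.comp_contDiffOn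
      ((contDiffOn_const.sub (contDiffOn_ker 1 (orbit_mem g))).div_const _)
  obtain ⟨H, hH⟩ : ∃ H : Vec n → ℝ, H = fun v => ψ v * f v := ⟨_, rfl⟩
  have hHh : Homog H := by
    intro c hc v hv
    rw [hH]
    simp only [hψh c hc v hv, hfh c hc v hv]
  have hkc : ContinuousOn (fun v => ker 1 v (act g (base n))) (Cone n) :=
    (contDiffOn_ker 1 (orbit_mem g)).continuousOn
  have hHs : ContDiffOn ℝ (⊤ : ℕ∞) H (Cone n) := by
    intro v hv
    apply ContDiffAt.contDiffWithinAt
    by_cases hcase : 1 - ker 1 v (act g (base n)) ≤ ρ ^ 2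
    · have hfv : ContDiffAt ℝ (⊤ : ℕ∞) f v := by
        obtain ⟨c, hc, e⟩ := sec_spec hv
        have h1 : ker 1 v (act g (base n)) = (ch ((sec n v)⁻¹ * g) ^ 2)⁻¹ := ker_sec hv g
        have h2 : hq (g⁻¹ * sec n v) ≤ ρ ^ 2 := by
          have e2 : (g⁻¹ * sec n v) = ((sec n v)⁻¹ * g)⁻¹ := by group
          rw [e2, hq_inv, hq, ← h1]
          exact hcase
        have h3 := hb _ h2
        rw [mul_inv_cancel_left] at h3
        have h4 := hsm _ h3
        rw [← hf] at h4
        rw [e]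
        exact contDiffAt_smul hfh (orbit_mem _) hc h4
      rw [hH]
      exact (hψs.contDiffAt ((isOpen_cone n).mem_nhds hv)).mul hfv
    · rw [not_le] at hcase
      have h1 : ∀ᶠ w in 𝓝 v, ρ ^ 2 < 1 - ker 1 w (act g (base n)) :=
        (continuousAt_const.sub (hkc.continuousAt ((isOpen_cone n).mem_nhds hv))).eventually_const_lt
          hcase
      have h2 : H =ᶠ[𝓝 v] fun _ => (0 : ℝ) := by
        filter_upwards [h1] with w hw
        have h3 : ψ w = 0 := by
          rw [hψ]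
          exact th_eq_zero ((one_le_div (by positivity)).2 hw.le)
        rw [hH]
        simp only [h3, zero_mul]
      exact contDiffAt_const.congr_of_eventuallyEq h2
  have hHs2 : ContDiffOn ℝ 2 H (Cone n) :=
    hHs.of_le (WithTop.coe_le_coe.2 (le_top : (2 : ℕ∞) ≤ ⊤))
  -- values of `H` near `g`
  have hker1 : ∀ x : SUGroup n, 1 - ker 1 (act (g * x) (base n)) (act g (base n)) = hq x := by
    intro x
    rw [ker_orbit, hq]
    have e : (g * x)⁻¹ * g = x⁻¹ := by group
    rw [e, ch_inv]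
  have hHo : ∀ x : SUGroup n, hq x ≤ (ρ / 2) ^ 2 → H (act (g * x) (base n)) = a (g * x) := by
    intro x hx
    have h3 : ψ (act (g * x) (base n)) = 1 := by
      rw [hψ]
      simp only [hker1]
      apply th_eq_one
      rw [div_le_iff₀ (by positivity)]
      calc hq x ≤ (ρ / 2) ^ 2 := hx
        _ = _ := by ring
    rw [hH]
    simp only [h3, one_mul, hfo]
  have hnear : f =ᶠ[𝓝 (act g (base n))] H := by
    have h0 : ker 1 (act g (base n)) (act g (base n)) = 1 := by
      have := hker1 1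
      rw [mul_one, hq_one] at this
      linarith
    have hca : ContinuousAt (fun w => 1 - ker 1 w (act g (base n))) (act g (base n)) :=
      continuousAt_const.sub (hkc.continuousAt ((isOpen_cone n).mem_nhds (orbit_mem g)))
    have h1 : ∀ᶠ w in 𝓝 (act g (base n)), 1 - ker 1 w (act g (base n)) < ρ ^ 2 / 4 := by
      apply hca.eventually_lt_const
      show 1 - ker 1 (act g (base n)) (act g (base n)) < ρ ^ 2 / 4
      rw [h0, sub_self]
      positivity
    filter_upwards [h1] with w hw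
    have h3 : ψ w = 1 := by
      rw [hψ]
      apply th_eq_one
      rw [div_le_iff₀ (by positivity)]
      linarith
    rw [hH]
    simp only [h3, one_mul]
  rw [← hf, lap_congr hnear]
  by_contra hne
  -- the sign of the Laplacian
  obtain ⟨Λ, hΛ⟩ : ∃ Λ : SUGroup n → ℝ, Λ = fun x => Lap H (act (g * x) (base n)) := ⟨_, rfl⟩
  have hΛc : Continuous Λ := by
    rw [hΛ]
    have h1 : Continuous fun x : SUGroup n => Lap H (act x (base n)) :=
      (gr_lap_cont hHs2).comp_continuous continuous_orbit orbit_mem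
    exact h1.comp (continuous_const.mul continuous_id)
  have hΛ1 : Λ 1 ≠ 0 := by
    rw [hΛ]
    simp only [mul_one]
    exact hne
  have hΛK : ∀ k : SUGroup n, ch k = 1 → Λ k = Λ 1 := by
    intro k hk
    obtain ⟨c, hc1, hc2⟩ := (ch_eq_one_iff k).1 hk
    have hc0 : c ≠ 0 := by
      rintro rfl
      rw [norm_zero] at hc1
      exact zero_ne_one hc1
    rw [hΛ]
    simp only [mul_one, act_mul, hc2, act_smul]
    exact homog_lap hHh hHs2 c hc0 _ (orbit_mem g)
  have hVo : IsOpen {x : SUGroup n | 0 < Λ x * Λ 1} :=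
    isOpen_lt continuous_const (hΛc.mul continuous_const)
  obtain ⟨r₁, hr₁, hr₁2, N₁, -, h1N, hball₁⟩ := tube hVo (g := 1) (by
    intro k hk
    show 0 < Λ (1 * k) * Λ 1
    rw [one_mul, hΛK k hk]
    exact mul_self_pos.2 hΛ1)
  have hpos : ∀ x, hq x ≤ r₁ ^ 2 → 0 < Λ x * Λ 1 := by
    intro x hx
    have h1 := hball₁ 1 h1N x hx
    rw [one_mul] at h1
    exact h1
  obtain ⟨r, hr, hrr₁, hrρ⟩ : ∃ r : ℝ, 0 < r ∧ r ≤ r₁ ∧ r ≤ ρ / 2 :=
    ⟨min r₁ (ρ / 2), lt_min hr₁ (by linarith), min_le_left _ _, min_le_right _ _⟩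
  have hr1 : r < 1 := by linarith
  have he : 0 < r / 2 := by linarith
  have her : r / 2 < r := by linarith
  obtain ⟨φ, hφh, hφ2, hφ0, hφb, hφs, hφL⟩ := exists_gf hn he her hr1
  have hgreen := green_wk hn he her hr1 hφh hφ2 hφs hφL hHh hHs2 g
  -- the left side vanishes
  have hle1 : ∀ s : ℝ, 0 < s → s ≤ r → s < 1 →
      ∀ x, wk n s x * H (act (g * x) (base n)) = cw n * (bk s x * a (g * x)) := by
    intro s hs hsr hs1 x
    by_cases hx : hq x ≤ s ^ 2
    · have h2 : s ^ 2 ≤ (ρ / 2) ^ 2 := pow_le_pow_left₀ hs.le (hsr.trans hrρ) 2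
      rw [hHo x (hx.trans h2), bk]
      have := (cw_pos n).ne'
      field_simp
    · rw [not_le] at hx
      have h3 : wk n s x = 0 := wk_eq_zero hs hx.le
      rw [bk, h3]
      ring
  have hAA : ∀ s : ℝ, 0 < s → s ≤ r → s < 1 → AA s a g = a g := by
    intro s hs hsr hs1
    apply h g hg s hs hs1
    intro x hx
    apply hb
    have h2 : s ^ 2 ≤ ρ ^ 2 := pow_le_pow_left₀ hs.le (by linarith) 2
    exact hx.trans h2
  have hlhs : ∫ x, (wk n r x - wk n (r / 2) x) * H (act (g * x) (base n)) ∂(mu n) = 0 := by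
    have h1 : ∀ x, (wk n r x - wk n (r / 2) x) * H (act (g * x) (base n)) =
        cw n * (bk r x * a (g * x)) - cw n * (bk (r / 2) x * a (g * x)) := by
      intro x
      rw [sub_mul, hle1 r hr le_rfl hr1 x, hle1 (r / 2) he her.le (by linarith) x]
    simp only [h1]
    rw [integral_sub ((integrable_AA hr hr1 ha g).const_mul _)
      ((integrable_AA he (by linarith) ha g).const_mul _), integral_const_mul, integral_const_mul]
    have h2 := hAA r hr le_rfl hr1
    have h3 := hAA (r / 2) he her.le (by linarith)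
    rw [AA] at h2 h3
    rw [h2, h3, sub_self]
  rw [hlhs] at hgreen
  -- the right side does not
  have hφc : Continuous fun x : SUGroup n => φ (act x (base n)) :=
    hφ2.continuousOn.comp_continuous continuous_orbit orbit_mem
  have hzero : ∀ x : SUGroup n, r ^ 2 < hq x → φ (act x (base n)) = 0 := fun x hx => hφs x hx.le
  have hcs : HasCompactSupport fun x : SUGroup n => φ (act x (base n)) * (Λ x * Λ 1) := by
    apply HasCompactSupport.intro (isCompact_le hr1 hr.le)
    intro x hx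
    have hx' : r ^ 2 < hq x := not_le.1 hx
    rw [hzero x hx', zero_mul]
  have hnn : 0 ≤ fun x : SUGroup n => φ (act x (base n)) * (Λ x * Λ 1) := by
    intro x
    show 0 ≤ φ (act x (base n)) * (Λ x * Λ 1)
    by_cases hx : hq x ≤ r ^ 2
    · have h2 : r ^ 2 ≤ r₁ ^ 2 := pow_le_pow_left₀ hr.le hrr₁ 2
      exact mul_nonneg (hφ0 _ (orbit_mem x)) (hpos x (hx.trans h2)).le
    · rw [hzero x (not_le.1 hx), zero_mul]
  have hint : 0 < ∫ x : SUGroup n, φ (act x (base n)) * (Λ x * Λ 1) ∂(mu n) :=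
    Continuous.integral_pos_of_hasCompactSupport_nonneg_nonzero (μ := mu n)
    (hφc.mul (hΛc.mul continuous_const)) hcs hnn (x := 1) (by
      show φ (act 1 (base n)) * (Λ 1 * Λ 1) ≠ 0
      rw [act_one]
      exact mul_ne_zero hφb.ne' (mul_self_ne_zero.2 hΛ1))
  have h2 : ∫ x : SUGroup n, φ (act x (base n)) * (Λ x * Λ 1) ∂(mu n) =
      (∫ x : SUGroup n, φ (act x (base n)) * Lap H (act (g * x) (base n)) ∂(mu n)) * Λ 1 := by
    rw [← integral_mul_const]
    refine integral_congr_ae (Eventually.of_forall fun x => ?_)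
    simp only [hΛ]
    ring
  rw [h2, ← hgreen, zero_mul] at hint
  exact lt_irrefl _ hint

end Pool.Agent.Lib.MP_5d4057_al.IN
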