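import Pool.Agent.Lib.MP_5d4057_al.HM.Boot
import Pool.Agent.Lib.MP_5d4057_al.HM.Green
import Pool.Agent.Lib.MP_5d4057_al.HM.Lav

/-! Local averages (text C1, new form with a bump kernel). All functions of this part live on the group
`SUGroup n` and are right invariant under the stabiliser `{ch = 1}` of the base point.
`hq x = 1 - (ch x ^ 2)⁻¹ = |zc x|²` is the square of the Euclidean length of the ball coordinate,
`k = (ch x ^ 2)⁻¹ = ker 1 base (x base)`. -/

set_option autoImplicit false

namespace Pool.Agent.Lib.MP_5d4057_al.IN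

open Matrix MeasureTheory Filter Topology Pool.Agent.Lib.MP_5d4057_al Pool.Agent.Lib.MP_5d4057_al.Hyb
  Pool.Agent.Lib.MP_5d4057_al.HM

variable {n : ℕ}

/-- `|zc x|²`, the square of the Euclidean length of the ball coordinate (`sum_norm_zc`). -/
noncomputable def hq (x : SUGroup n) : ℝ := 1 - (ch x ^ 2)⁻¹

/-- The smooth step: `1` on `(-∞, 1/4]`, `0` on `[1, ∞)`. -/
noncomputable def th (y : ℝ) : ℝ := Real.smoothTransition ((1 - y) * (4 / 3))

/-- The bump `r^(-2n) k^(n+1) th (|zc x|² / r²)` (not normalised; its mass does not depend on `r`). -/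
noncomputable def wk (n : ℕ) (r : ℝ) (x : SUGroup n) : ℝ :=
  (r ^ (2 * n))⁻¹ * (ch x ^ (2 * (n + 1)))⁻¹ * th (hq x / r ^ 2)

/-- The mass of the bump. -/
noncomputable def cw (n : ℕ) : ℝ := ∫ x : SUGroup n, wk n (1 / 2) x ∂(mu n)

/-- The normalised bump. -/
noncomputable def bk (r : ℝ) (x : SUGroup n) : ℝ := wk n r x / cw n

/-- The local average: `AA r u g = ∫ bk r x * u (g x)`. -/
noncomputable def AA (r : ℝ) (u : SUGroup n → ℝ) (g : SUGroup n) : ℝ :=
  ∫ x : SUGroup n, bk r x * u (g * x) ∂(mu n)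

/-- Right invariance under the stabiliser of the base point. -/
def RK (u : SUGroup n → ℝ) : Prop := ∀ g k : SUGroup n, ch k = 1 → u (g * k) = u g

theorem th_nonneg (y : ℝ) : 0 ≤ th y := Real.smoothTransition.nonneg _

theorem th_le_one (y : ℝ) : th y ≤ 1 := Real.smoothTransition.le_one _

theorem th_eq_one {y : ℝ} (h : y ≤ 1 / 4) : th y = 1 :=
  Real.smoothTransition.one_of_one_le (by linarith)

theorem th_eq_zero {y : ℝ} (h : 1 ≤ y) : th y = 0 :=
  Real.smoothTransition.zero_of_nonpos (by linarith)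

theorem contDiff_th : ContDiff ℝ (⊤ : ℕ∞) th :=
  Real.smoothTransition.contDiff.comp ((contDiff_const.sub contDiff_id).mul contDiff_const)

theorem continuous_th : Continuous th := contDiff_th.continuous

theorem wk_nonneg {r : ℝ} (hr : 0 < r) (x : SUGroup n) : 0 ≤ wk n r x := by
  have h1 := ch_pos x
  have h2 := th_nonneg (hq x / r ^ 2)
  unfold wk
  positivity

theorem wk_eq_zero {r : ℝ} (hr : 0 < r) {x : SUGroup n} (h : r ^ 2 ≤ hq x) : wk n r x = 0 := by
  have h1 : 1 ≤ hq x / r ^ 2 := (one_le_div (by positivity)).2 h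
  rw [wk, th_eq_zero h1, mul_zero]

theorem continuous_hq : Continuous (hq (n := n)) := by
  unfold hq
  exact continuous_const.sub ((continuous_ch.pow 2).inv₀ fun x => pow_ne_zero 2 (ch_pos x).ne')

theorem continuous_wk (r : ℝ) : Continuous (wk n r) := by
  unfold wk
  exact (continuous_const.mul ((continuous_ch.pow _).inv₀ fun x =>
    pow_ne_zero _ (ch_pos x).ne')).mul (continuous_th.comp (continuous_hq.div_const _))

theorem continuous_bk (r : ℝ) : Continuous (bk (n := n) r) := (continuous_wk r).div_const _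

theorem hq_K {k : SUGroup n} (hk : ch k = 1) (x : SUGroup n) : hq (k * x) = hq x := by
  rw [hq, hq, (ch_mul_of_ch_eq_one hk x).1]

theorem wk_K {k : SUGroup n} (hk : ch k = 1) (r : ℝ) (x : SUGroup n) :
    wk n r (k * x) = wk n r x := by
  rw [wk, wk, hq_K hk, (ch_mul_of_ch_eq_one hk x).1]

end Pool.Agent.Lib.MP_5d4057_al.IN
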