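import Pool.Agent.Lib.MP_5d4057_al.IN.BallA

/-! Geometry of the unit ball of `ℂ^n` (part C), part 2: estimates, distances, flow (part 1 is in `BallA`). -/

set_option autoImplicit false

namespace Pool.Agent.Lib.MP_5d4057_al.IN

open Matrix MeasureTheory Filter Topology Pool.Agent.Lib.MP_5d4057_al Pool.Agent.Lib.MP_5d4057_al.Hyb
  Pool.Agent.Lib.MP_5d4057_al.HM

variable {n : ℕ}

/-! ### Estimates for `σ_z = s (1 - z z^* / (1 + s))`, `s = (1 - |z|²)^(1/2)` -/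

private theorem b2_root {z : Fin n → ℂ} (hz : nr z ≤ 1) :
    0 ≤ Real.sqrt (1 - nr z ^ 2) ∧ Real.sqrt (1 - nr z ^ 2) ≤ 1 ∧
      Real.sqrt (1 - nr z ^ 2) ^ 2 = 1 - nr z ^ 2 := by
  have hz0 := nr_nonneg z
  have h1 : 0 ≤ 1 - nr z ^ 2 := by nlinarith
  refine ⟨Real.sqrt_nonneg _, ?_, Real.sq_sqrt h1⟩
  rw [Real.sqrt_le_one]
  nlinarith [sq_nonneg (nr z)]

private theorem b2_sg_sub {z : Fin n → ℂ} (ζ : Fin n → ℂ) (hz : nr z ≤ 1) :
    nr (sg z ζ - ζ) ≤ nr z ^ 2 * nr ζ := by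
  obtain ⟨hs0, hs1, hs2⟩ := b2_root hz
  obtain ⟨s, hs⟩ : ∃ s, s = Real.sqrt (1 - nr z ^ 2) := ⟨_, rfl⟩
  rw [← hs] at hs0 hs1 hs2
  have hz0 := nr_nonneg z
  have hζ0 := nr_nonneg ζ
  have hne : (1 + s : ℂ) ≠ 0 := by
    have h2 : (1 + s : ℝ) ≠ 0 := by positivity
    exact_mod_cast h2
  have h1 : sg z ζ - ζ = (-(1 - s : ℝ) : ℂ) • ζ + (-((s / (1 + s) : ℝ) : ℂ) * hp z ζ) • z := by
    ext j
    simp only [sg, ← hs, Pi.sub_apply, Pi.add_apply, Pi.smul_apply, smul_eq_mul]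
    push_cast
    field_simp
    ring
  rw [h1]
  refine (nr_add_le _ _).trans ?_
  rw [nr_smul, nr_smul, norm_mul, norm_neg, norm_neg, Complex.norm_real, Complex.norm_real,
    Real.norm_of_nonneg (by linarith : (0 : ℝ) ≤ 1 - s),
    Real.norm_of_nonneg (by positivity : (0 : ℝ) ≤ s / (1 + s))]
  have h3 := norm_hp_le z ζ
  have h4 : s / (1 + s) * ‖hp z ζ‖ * nr z ≤ s / (1 + s) * (nr z * nr ζ) * nr z := by gcongr
  have h5 : s / (1 + s) * (nr z * nr ζ) * nr z = s * (1 - s) * nr ζ := by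
    have h6 : nr z ^ 2 = (1 - s) * (1 + s) := by linarith [show (1 - s) * (1 + s) = 1 - s ^ 2 by ring]
    have h7 : s / (1 + s) * (nr z * nr ζ) * nr z = s / (1 + s) * nr z ^ 2 * nr ζ := by ring
    rw [h7, h6]
    field_simp
  have h6 : nr z ^ 2 * nr ζ = (1 - s) * nr ζ + s * (1 - s) * nr ζ := by
    rw [show nr z ^ 2 = 1 - s ^ 2 by linarith]
    ring
  linarith

theorem sg_sub {z ζ : Fin n → ℂ} (hz : nr z ≤ 1 / 2) : nr (sg z ζ - ζ) ≤ nr z * nr ζ := by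
  refine (b2_sg_sub ζ (by linarith)).trans ?_
  have h1 := nr_nonneg z
  exact mul_le_mul_of_nonneg_right (by nlinarith) (nr_nonneg ζ)

private theorem b2_hp_add_right (z w u : Fin n → ℂ) : hp z (w + u) = hp z w + hp z u := by
  simp only [hp, Pi.add_apply, mul_add, Finset.sum_add_distrib]

private theorem b2_hp_sub_left (z w u : Fin n → ℂ) : hp (z - w) u = hp z u - hp w u := by
  simp only [hp, Pi.sub_apply, star_sub, sub_mul, Finset.sum_sub_distrib]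

private theorem b2_hp_smul_right (z w : Fin n → ℂ) (c : ℂ) : hp z (c • w) = c * hp z w := by
  simp only [hp, Pi.smul_apply, smul_eq_mul, Finset.mul_sum]
  exact Finset.sum_congr rfl fun j _ => by ring

private theorem b2_hp_self (z : Fin n → ℂ) : hp z z = ((nr z ^ 2 : ℝ) : ℂ) := by
  rw [nr_sq, hp, Complex.ofReal_sum]
  refine Finset.sum_congr rfl fun j _ => ?_
  rw [RCLike.star_def, Complex.conj_mul']
  push_cast
  rfl

private theorem b2_abs_sub (z w : Fin n → ℂ) : |nr z - nr w| ≤ nr (z - w) := by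
  rw [abs_le]
  have h1 := nr_add_le (z - w) w
  have h2 := nr_add_le (w - z) z
  have h3 : nr (w - z) = nr (z - w) := by rw [← nr_neg, neg_sub]
  rw [sub_add_cancel] at h1 h2
  constructor <;> linarith

private theorem b2_one_add {a : ℂ} {r : ℝ} (h : ‖a‖ ≤ r) : 1 - r ≤ ‖1 + a‖ ∧ ‖1 + a‖ ≤ 1 + r := by
  have h1 := norm_add_le (1 : ℂ) a
  have h2 := norm_sub_le (1 + a) a
  rw [add_sub_cancel_right] at h2
  rw [norm_one] at h1 h2
  constructor <;> linarith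

theorem sg_lip {z w ζ : Fin n → ℂ} (hz : nr z ≤ 1 / 2) (hw : nr w ≤ 1 / 2) :
    nr (sg z ζ - sg w ζ) ≤ 4 * nr (z - w) * nr ζ := by
  obtain ⟨hs0, hs1, hs2⟩ := b2_root (z := z) (by linarith)
  obtain ⟨s, hs⟩ : ∃ s, s = Real.sqrt (1 - nr z ^ 2) := ⟨_, rfl⟩
  rw [← hs] at hs0 hs1 hs2
  obtain ⟨ht0, ht1, ht2⟩ := b2_root (z := w) (by linarith)
  obtain ⟨t, ht⟩ : ∃ t, t = Real.sqrt (1 - nr w ^ 2) := ⟨_, rfl⟩
  rw [← ht] at ht0 ht1 ht2
  have hz0 := nr_nonneg z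
  have hw0 := nr_nonneg w
  have hζ0 := nr_nonneg ζ
  have hd0 := nr_nonneg (z - w)
  have hd := b2_abs_sub z w
  have hs3 : 1 / 2 ≤ s := by nlinarith
  have ht3 : 1 / 2 ≤ t := by nlinarith
  have hst : |s - t| ≤ nr (z - w) := by
    have h1 : (s - t) * (s + t) = (nr w - nr z) * (nr w + nr z) := by ring_nf; linarith
    have e1 : |(s - t) * (s + t)| = |s - t| * (s + t) := by
      rw [abs_mul, abs_of_nonneg (by positivity : 0 ≤ s + t)]
    have e2 : |(nr w - nr z) * (nr w + nr z)| = |nr z - nr w| * (nr w + nr z) := by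
      rw [abs_mul, abs_of_nonneg (by positivity : 0 ≤ nr w + nr z), abs_sub_comm]
    rw [h1, e2] at e1
    have h3 := abs_nonneg (s - t)
    have h4 := abs_nonneg (nr z - nr w)
    have h5 : |s - t| ≤ |s - t| * (s + t) := le_mul_of_one_le_right h3 (by linarith)
    have h6 : |nr z - nr w| * (nr w + nr z) ≤ |nr z - nr w| :=
      mul_le_of_le_one_right h4 (by linarith)
    linarith
  obtain ⟨c, hc⟩ : ∃ c : ℝ, c = s / (1 + s) := ⟨_, rfl⟩
  obtain ⟨d, hd⟩ : ∃ d : ℝ, d = t / (1 + t) := ⟨_, rfl⟩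
  have hd1 : 0 ≤ d := by rw [hd]; positivity
  have hd2 : d ≤ 1 / 2 := by
    rw [hd, div_le_iff₀ (by positivity)]
    linarith
  have hcd : |c - d| ≤ nr (z - w) := by
    have h1 : c - d = (s - t) / ((1 + s) * (1 + t)) := by
      rw [hc, hd]
      field_simp
      ring
    rw [h1, abs_div, abs_of_nonneg (by positivity : 0 ≤ (1 + s) * (1 + t))]
    refine (div_le_self (abs_nonneg _) ?_).trans hst
    nlinarith
  have hne : (1 + s : ℂ) ≠ 0 := by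
    have h2 : (1 + s : ℝ) ≠ 0 := by positivity
    exact_mod_cast h2
  have hne2 : (1 + t : ℂ) ≠ 0 := by
    have h2 : (1 + t : ℝ) ≠ 0 := by positivity
    exact_mod_cast h2
  have key : sg z ζ - sg w ζ = ((s - t : ℝ) : ℂ) • ζ + (-((c - d : ℝ) : ℂ) * hp z ζ) • z +
      (-(d : ℂ) * hp (z - w) ζ) • z + (-(d : ℂ) * hp w ζ) • (z - w) := by
    ext j
    simp only [sg, ← hs, ← ht, hc, hd, Pi.sub_apply, Pi.add_apply, Pi.smul_apply, smul_eq_mul,
      b2_hp_sub_left]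
    push_cast
    field_simp
    ring
  rw [key]
  have n1 : nr (((s - t : ℝ) : ℂ) • ζ) ≤ nr (z - w) * nr ζ := by
    rw [nr_smul, Complex.norm_real, Real.norm_eq_abs]
    exact mul_le_mul_of_nonneg_right hst hζ0
  have n2 : nr ((-((c - d : ℝ) : ℂ) * hp z ζ) • z) ≤ nr (z - w) * nr ζ := by
    rw [nr_smul, norm_mul, norm_neg, Complex.norm_real, Real.norm_eq_abs]
    calc |c - d| * ‖hp z ζ‖ * nr z ≤ nr (z - w) * (nr z * nr ζ) * nr z := by
          gcongr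
          exact norm_hp_le z ζ
      _ = nr (z - w) * nr ζ * (nr z * nr z) := by ring
      _ ≤ nr (z - w) * nr ζ * 1 := by
          gcongr
          nlinarith
      _ = nr (z - w) * nr ζ := mul_one _
  have n3 : nr ((-(d : ℂ) * hp (z - w) ζ) • z) ≤ nr (z - w) * nr ζ := by
    rw [nr_smul, norm_mul, norm_neg, Complex.norm_real, Real.norm_of_nonneg hd1]
    calc d * ‖hp (z - w) ζ‖ * nr z ≤ d * (nr (z - w) * nr ζ) * nr z := by
          gcongr
          exact norm_hp_le (z - w) ζ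
      _ = nr (z - w) * nr ζ * (d * nr z) := by ring
      _ ≤ nr (z - w) * nr ζ * 1 := by
          gcongr
          nlinarith
      _ = nr (z - w) * nr ζ := mul_one _
  have n4 : nr ((-(d : ℂ) * hp w ζ) • (z - w)) ≤ nr (z - w) * nr ζ := by
    rw [nr_smul, norm_mul, norm_neg, Complex.norm_real, Real.norm_of_nonneg hd1]
    calc d * ‖hp w ζ‖ * nr (z - w) ≤ d * (nr w * nr ζ) * nr (z - w) := by
          gcongr
          exact norm_hp_le w ζ
      _ = nr (z - w) * nr ζ * (d * nr w) := by ring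
      _ ≤ nr (z - w) * nr ζ * 1 := by
          gcongr
          nlinarith
      _ = nr (z - w) * nr ζ := mul_one _
  have m1 := nr_add_le (((s - t : ℝ) : ℂ) • ζ + (-((c - d : ℝ) : ℂ) * hp z ζ) • z +
      (-(d : ℂ) * hp (z - w) ζ) • z) ((-(d : ℂ) * hp w ζ) • (z - w))
  have m2 := nr_add_le (((s - t : ℝ) : ℂ) • ζ + (-((c - d : ℝ) : ℂ) * hp z ζ) • z)
      ((-(d : ℂ) * hp (z - w) ζ) • z)
  have m3 := nr_add_le (((s - t : ℝ) : ℂ) • ζ) ((-((c - d : ℝ) : ℂ) * hp z ζ) • z)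
  linarith

/-- `φ_z(ζ) - z - σ_z ζ = - <z,ζ> σ_z ζ / (1 + <z,ζ>)`. -/
theorem zc_pt_mul_sub {z : Fin n → ℂ} (hz : nr z ≤ 1 / 2) (x : SUGroup n) (hx : nr (zc x) ≤ 1 / 2) :
    nr (zc (pt z * x) - z - sg z (zc x)) ≤ 4 * nr z * nr (zc x) ^ 2 := by
  rw [zc_pt_mul (by linarith)]
  obtain ⟨ζ, hζ⟩ : ∃ ζ, ζ = zc x := ⟨_, rfl⟩
  rw [← hζ] at hx ⊢
  obtain ⟨a, ha⟩ : ∃ a, a = hp z ζ := ⟨_, rfl⟩
  have hz0 := nr_nonneg z
  have hζ0 := nr_nonneg ζ
  have ha1 : ‖a‖ ≤ nr z * nr ζ := by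
    rw [ha]
    exact norm_hp_le z ζ
  have ha2 : ‖a‖ ≤ 1 / 4 := by nlinarith
  have ha3 := (b2_one_add ha2).1
  have hne : 1 + a ≠ 0 := by
    intro h0
    rw [h0, norm_zero] at ha3
    linarith
  have hs : nr (sg z ζ) ≤ 3 / 2 * nr ζ := by
    have h1 := nr_add_le (sg z ζ - ζ) ζ
    rw [sub_add_cancel] at h1
    have h2 := sg_sub (ζ := ζ) hz
    have h3 : nr z * nr ζ ≤ 1 / 2 * nr ζ := mul_le_mul_of_nonneg_right hz hζ0
    linarith
  have h1 : z + (1 + hp z ζ)⁻¹ • sg z ζ - z - sg z ζ = (-(a / (1 + a))) • sg z ζ := by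
    ext j
    simp only [Pi.sub_apply, Pi.add_apply, Pi.smul_apply, smul_eq_mul, ← ha]
    field_simp
    ring
  rw [h1, nr_smul, norm_neg, norm_div]
  have hs0 := nr_nonneg (sg z ζ)
  calc ‖a‖ / ‖1 + a‖ * nr (sg z ζ) ≤ (nr z * nr ζ) / (3 / 4) * (3 / 2 * nr ζ) := by
        gcongr
        linarith
    _ = 2 * nr z * nr ζ ^ 2 := by ring
    _ ≤ 4 * nr z * nr ζ ^ 2 := by
        gcongr
        norm_num

/-- The unit vector `m` with `σ_z m` proportional to `v`: `m = σ_z⁻¹ v / |σ_z⁻¹ v|`,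
`σ_z⁻¹ ζ = s⁻¹ (ζ + <z,ζ> z / (s (1 + s)))`. -/
theorem exists_mirror {z v : Fin n → ℂ} (hz : nr z ≤ 1 / 2) (hv : nr v = 1) :
    ∃ (m : Fin n → ℂ) (c : ℝ), nr m = 1 ∧ |c - 1| ≤ nr z ∧ sg z m = (c : ℂ) • v := by
  obtain ⟨hs0, hs1, hs2⟩ := b2_root (z := z) (by linarith)
  obtain ⟨s, hs⟩ : ∃ s, s = Real.sqrt (1 - nr z ^ 2) := ⟨_, rfl⟩
  rw [← hs] at hs0 hs1 hs2
  have hz0 := nr_nonneg z
  have hs3 : 0 < s := by nlinarith
  obtain ⟨b, hb⟩ : ∃ b : ℝ, b = 1 / (s * (1 + s)) := ⟨_, rfl⟩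
  have hb2 : b * (s * (1 + s)) = 1 := by
    rw [hb]
    field_simp
  have hne : (1 + s : ℂ) ≠ 0 := by
    have h2 : (1 + s : ℝ) ≠ 0 := by positivity
    exact_mod_cast h2
  obtain ⟨p, hp0⟩ : ∃ p : Fin n → ℂ, p = v + ((b : ℂ) * hp z v) • z := ⟨_, rfl⟩
  have hsg : ∀ c : ℂ, sg z (c • p) = (c * (s : ℂ)) • v := by
    intro c
    ext j
    have h1 : hp z p = hp z v * (1 + b * (1 - s ^ 2)) := by
      rw [hp0, b2_hp_add_right, b2_hp_smul_right, b2_hp_self, show nr z ^ 2 = 1 - s ^ 2 by linarith]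
      push_cast
      ring
    have h2 : (b : ℂ) * (s * (1 + s)) = 1 := by exact_mod_cast hb2
    have h3 : hp z v * (1 + b * (1 - s ^ 2)) = (b : ℂ) * hp z v * (1 + s) := by
      linear_combination (-hp z v) * h2
    simp only [sg, ← hs, b2_hp_smul_right, h1, h3, Pi.smul_apply, smul_eq_mul]
    rw [hp0]
    simp only [Pi.add_apply, Pi.smul_apply, smul_eq_mul]
    push_cast
    field_simp
    ring
  have hpne : nr p ≠ 0 := by
    intro h0
    rw [nr_eq_zero] at h0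
    have h1 := hsg 1
    rw [h0, smul_zero, one_mul] at h1
    have h2 : sg z 0 = 0 := by
      ext j
      simp [sg, hp]
    rw [h2] at h1
    have h3 := congrArg nr h1
    rw [nr_zero, nr_smul, hv, Complex.norm_real, Real.norm_of_nonneg hs0] at h3
    linarith
  have hppos : 0 < nr p := lt_of_le_of_ne (nr_nonneg p) (Ne.symm hpne)
  have hm : nr ((((nr p)⁻¹ : ℝ) : ℂ) • p) = 1 := by
    rw [nr_smul, Complex.norm_real, Real.norm_of_nonneg (inv_nonneg.2 hppos.le),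
      inv_mul_cancel₀ hpne]
  refine ⟨(((nr p)⁻¹ : ℝ) : ℂ) • p, (nr p)⁻¹ * s, hm, ?_, ?_⟩
  · have h1 := sg_sub (ζ := (((nr p)⁻¹ : ℝ) : ℂ) • p) hz
    have h2 := b2_abs_sub (sg z ((((nr p)⁻¹ : ℝ) : ℂ) • p)) ((((nr p)⁻¹ : ℝ) : ℂ) • p)
    rw [hm, mul_one] at h1
    rw [hm] at h2
    have h3 : nr (sg z ((((nr p)⁻¹ : ℝ) : ℂ) • p)) = (nr p)⁻¹ * s := by
      rw [hsg, nr_smul, hv, mul_one, ← Complex.ofReal_mul, Complex.norm_real,
        Real.norm_of_nonneg (by positivity)]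
    rw [h3] at h2
    exact h2.trans h1
  · rw [hsg]
    push_cast
    rfl

/-! ### Distances -/

private theorem b2_diff (g h : SUGroup n) : ∃ ζ : Fin n → ℂ,
    nr ζ = Real.sqrt (hq (g⁻¹ * h)) ∧ nr ζ < 1 ∧
      zc h = zc g + (1 + hp (zc g) ζ)⁻¹ • sg (zc g) ζ := by
  have hz := nr_zc_lt g
  obtain ⟨k, hk, hgk⟩ := exists_K (g := pt (zc g)) (h := g) (zc_pt hz)
  have h1 : hq (g⁻¹ * h) = hq ((pt (zc g))⁻¹ * h) := by
    have h2 : g⁻¹ * h = k⁻¹ * ((pt (zc g))⁻¹ * h) := by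
      conv_lhs => rw [hgk]
      group
    rw [h2, hq_K (by rw [ch_inv, hk])]
  refine ⟨zc ((pt (zc g))⁻¹ * h), ?_, nr_zc_lt _, ?_⟩
  · rw [h1, ← nr_zc_sq, Real.sqrt_sq (nr_nonneg _)]
  · have h2 := zc_pt_mul hz ((pt (zc g))⁻¹ * h)
    rw [mul_inv_cancel_left] at h2
    exact h2

/-- Ball coordinates against the invariant distance. -/
theorem nr_zc_sub_le {g h : SUGroup n} (hg : nr (zc g) ≤ 1 / 4) (hh : nr (zc h) ≤ 1 / 4) :
    nr (zc g - zc h) ≤ 2 * Real.sqrt (hq (g⁻¹ * h)) := by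
  obtain ⟨ζ, h1, h2, h3⟩ := b2_diff g h
  rw [← h1]
  obtain ⟨z, hz⟩ : ∃ z, z = zc g := ⟨_, rfl⟩
  rw [← hz] at hg h3
  have hz0 := nr_nonneg z
  have hζ0 := nr_nonneg ζ
  have ha1 : ‖hp z ζ‖ ≤ 1 / 4 := by
    refine (norm_hp_le z ζ).trans ?_
    nlinarith
  have ha3 := (b2_one_add ha1).1
  have hs : nr (sg z ζ) ≤ 5 / 4 * nr ζ := by
    have h1 := nr_add_le (sg z ζ - ζ) ζ
    rw [sub_add_cancel] at h1
    have h2 := sg_sub (z := z) (ζ := ζ) (by linarith)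
    have h3 : nr z * nr ζ ≤ 1 / 4 * nr ζ := mul_le_mul_of_nonneg_right hg hζ0
    linarith
  rw [h3, ← hz, ← nr_neg, neg_sub, add_sub_cancel_left, nr_smul, norm_inv]
  calc ‖1 + hp z ζ‖⁻¹ * nr (sg z ζ) ≤ (3 / 4)⁻¹ * (5 / 4 * nr ζ) := by
        gcongr
        · exact nr_nonneg _
        · linarith
    _ ≤ 2 * nr ζ := by nlinarith

theorem sqrt_hq_le {g h : SUGroup n} (hg : nr (zc g) ≤ 1 / 4) (hh : nr (zc h) ≤ 1 / 4) :
    Real.sqrt (hq (g⁻¹ * h)) ≤ 2 * nr (zc g - zc h) := by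
  obtain ⟨ζ, h1, h2, h3⟩ := b2_diff g h
  rw [← h1]
  obtain ⟨z, hz⟩ : ∃ z, z = zc g := ⟨_, rfl⟩
  rw [← hz] at hg h3
  have hz0 := nr_nonneg z
  have hζ0 := nr_nonneg ζ
  have ha1 : ‖hp z ζ‖ ≤ 1 / 4 := by
    refine (norm_hp_le z ζ).trans ?_
    nlinarith
  have ha3 := b2_one_add ha1
  have hs : 3 / 4 * nr ζ ≤ nr (sg z ζ) := by
    have h1 := nr_add_le (ζ - sg z ζ) (sg z ζ)
    rw [sub_add_cancel, ← nr_neg (ζ - sg z ζ), neg_sub] at h1
    have h2 := sg_sub (z := z) (ζ := ζ) (by linarith)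
    have h3 : nr z * nr ζ ≤ 1 / 4 * nr ζ := mul_le_mul_of_nonneg_right hg hζ0
    linarith
  rw [h3, ← hz, ← nr_neg (z - _), neg_sub, add_sub_cancel_left, nr_smul, norm_inv]
  have h4 : (5 / 4)⁻¹ * (3 / 4 * nr ζ) ≤ ‖1 + hp z ζ‖⁻¹ * nr (sg z ζ) := by
    gcongr
    · linarith
    · linarith
  nlinarith

private theorem b2_sinh_le {x : ℝ} (hx : 0 ≤ x) : Real.sinh x ≤ x * Real.cosh x := by
  have h1 : MonotoneOn (fun y : ℝ => y * Real.cosh y - Real.sinh y) (Set.Ici 0) := by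
    refine monotoneOn_of_deriv_nonneg (convex_Ici 0) ?_ ?_ ?_
    · exact ((continuous_id.mul Real.continuous_cosh).sub Real.continuous_sinh).continuousOn
    · exact ((differentiable_id.mul Real.differentiable_cosh).sub
        Real.differentiable_sinh).differentiableOn
    · intro y hy
      rw [interior_Ici] at hy
      have h2 : HasDerivAt (fun y : ℝ => y * Real.cosh y - Real.sinh y)
          (1 * Real.cosh y + y * Real.sinh y - Real.cosh y) y :=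
        ((hasDerivAt_id y).mul (Real.hasDerivAt_cosh y)).sub (Real.hasDerivAt_sinh y)
      rw [h2.deriv]
      have h3 : 0 ≤ Real.sinh y := Real.sinh_nonneg_iff.2 (le_of_lt hy)
      have h4 : 0 < y := hy
      nlinarith [mul_nonneg h4.le h3]
  have h2 := h1 (Set.mem_Ici.2 le_rfl) (Set.mem_Ici.2 hx) hx
  simp only [zero_mul, Real.sinh_zero, sub_self] at h2
  linarith

/-- the distance `d` of the base point and its image -/
private theorem b2_dist (x : SUGroup n) : 0 ≤ Real.log (wt x) ∧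
    Real.cosh (Real.log (wt x)) = ch x ∧ Real.sinh (Real.log (wt x)) = ch x * Real.sqrt (hq x) := by
  have h0 : 0 < wt x := lt_of_lt_of_le one_pos (one_le_wt x)
  have h1 := one_le_ch x
  have h2 : 0 ≤ ch x ^ 2 - 1 := by nlinarith
  have h3 := Real.sq_sqrt h2
  have hinv : (wt x)⁻¹ = ch x - Real.sqrt (ch x ^ 2 - 1) := by
    refine inv_eq_of_mul_eq_one_right ?_
    rw [wt]
    linear_combination -h3
  refine ⟨Real.log_nonneg (one_le_wt x), ?_, ?_⟩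
  · rw [Real.cosh_log h0, hinv, wt]
    ring
  · rw [Real.sinh_log h0, hinv, wt]
    have h4 : ch x * Real.sqrt (hq x) = Real.sqrt (ch x ^ 2 - 1) := by
      have h5 : ch x ^ 2 - 1 = ch x ^ 2 * hq x := by
        have h6 : ch x ≠ 0 := by positivity
        rw [hq]
        field_simp
      rw [h5, Real.sqrt_mul (sq_nonneg _), Real.sqrt_sq (by linarith)]
    rw [h4]
    ring

/-- `tanh d ≤ d`. -/
theorem sqrt_hq_le_log (x : SUGroup n) : Real.sqrt (hq x) ≤ Real.log (wt x) := by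
  obtain ⟨h1, h2, h3⟩ := b2_dist x
  have h4 := b2_sinh_le h1
  rw [h2, h3, mul_comm (Real.log _)] at h4
  exact le_of_mul_le_mul_left h4 (ch_pos x)

/-- `d ≤ 2 tanh d` for `tanh d ≤ 1/2`. -/
theorem log_wt_le_sqrt {x : SUGroup n} (hx : hq x ≤ 1 / 4) :
    Real.log (wt x) ≤ 2 * Real.sqrt (hq x) := by
  obtain ⟨T, hT⟩ : ∃ T, T = Real.sqrt (hq x) := ⟨_, rfl⟩
  have h0 : 0 < wt x := lt_of_lt_of_le one_pos (one_le_wt x)
  have hT0 : 0 ≤ T := by rw [hT]; exact Real.sqrt_nonneg _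
  have hhq : 0 ≤ hq x := by rw [← nr_zc_sq]; exact sq_nonneg _
  have hT2 : T ^ 2 = hq x := by rw [hT]; exact Real.sq_sqrt hhq
  have hT1 : T ≤ 1 / 2 := by nlinarith
  obtain ⟨-, h2, h3⟩ := b2_dist x
  have h4 : wt x = ch x * (1 + T) := by
    rw [← Real.exp_log h0, ← Real.cosh_add_sinh, h2, h3, ← hT]
    ring
  have h5 : ch x ^ 2 * (1 - T ^ 2) = 1 := by
    have h6 : ch x ≠ 0 := (ch_pos x).ne'
    rw [hT2, hq]
    field_simp
    ring
  have h6 : wt x ^ 2 * (1 - T) = 1 + T := by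
    rw [h4]
    linear_combination (1 + T) * h5
  have h7 : wt x ^ 2 ≤ Real.exp (2 * T) ^ 2 := by
    have h8 : 1 + 4 * T ≤ Real.exp (2 * T) ^ 2 := by
      rw [← Real.exp_nat_mul]
      have h9 := Real.add_one_le_exp ((2 : ℕ) * (2 * T))
      push_cast at h9 ⊢
      linarith
    have h9 : wt x ^ 2 ≤ 1 + 4 * T := by
      have h10 : wt x ^ 2 * (1 - T) ≤ (1 + 4 * T) * (1 - T) := by
        rw [h6]
        nlinarith
      exact le_of_mul_le_mul_right h10 (by linarith)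
    exact h9.trans h8
  rw [← hT, ← Real.log_exp (2 * T)]
  exact Real.log_le_log h0 (le_of_sq_le_sq h7 (Real.exp_pos _).le)

/-- sub-additivity of `tanh` of the distance: `tanh (a + b) ≤ tanh a + tanh b`. -/
private theorem b2_sqrt_hq (x : SUGroup n) :
    Real.sqrt (hq x) * (wt x ^ 2 + 1) = wt x ^ 2 - 1 := by
  have h0 : 0 < wt x := lt_of_lt_of_le one_pos (one_le_wt x)
  obtain ⟨-, h2, h3⟩ := b2_dist x
  rw [Real.cosh_log h0] at h2
  rw [Real.sinh_log h0, ← h2] at h3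
  have h4 : wt x ≠ 0 := h0.ne'
  field_simp at h3
  linarith

theorem sqrt_hq_mul_le (x y : SUGroup n) :
    Real.sqrt (hq (x * y)) ≤ Real.sqrt (hq x) + Real.sqrt (hq y) := by
  have hx := b2_sqrt_hq x
  have hy := b2_sqrt_hq y
  have hxy := b2_sqrt_hq (x * y)
  obtain ⟨a, ha⟩ : ∃ a, a = wt x ^ 2 := ⟨_, rfl⟩
  obtain ⟨b, hb⟩ : ∃ b, b = wt y ^ 2 := ⟨_, rfl⟩
  obtain ⟨c, hc⟩ : ∃ c, c = wt (x * y) ^ 2 := ⟨_, rfl⟩
  have ha1 : 1 ≤ a := by rw [ha]; exact one_le_pow₀ (one_le_wt x)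
  have hb1 : 1 ≤ b := by rw [hb]; exact one_le_pow₀ (one_le_wt y)
  have hc1 : 1 ≤ c := by rw [hc]; exact one_le_pow₀ (one_le_wt _)
  have hcab : c ≤ a * b := by
    rw [ha, hb, hc, ← mul_pow]
    exact pow_le_pow_left₀ (by linarith [one_le_wt (x * y)]) (wt_mul_le x y) 2
  rw [← ha] at hx
  rw [← hb] at hy
  rw [← hc] at hxy
  have e1 : Real.sqrt (hq x) = (a - 1) / (a + 1) := by
    rw [eq_div_iff (by positivity)]
    exact hx
  have e2 : Real.sqrt (hq y) = (b - 1) / (b + 1) := by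
    rw [eq_div_iff (by positivity)]
    exact hy
  have e3 : Real.sqrt (hq (x * y)) = (c - 1) / (c + 1) := by
    rw [eq_div_iff (by positivity)]
    exact hxy
  rw [e1, e2, e3]
  have hab1 : 1 ≤ a * b := one_le_mul_of_one_le_of_one_le ha1 hb1
  have h1 : (c - 1) / (c + 1) ≤ (a * b - 1) / (a * b + 1) := by
    rw [div_le_div_iff₀ (by positivity) (by positivity)]
    nlinarith
  have h2 : (a - 1) / (a + 1) + (b - 1) / (b + 1) - (a * b - 1) / (a * b + 1) =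
      (a * b - 1) * (a - 1) * (b - 1) / ((a * b + 1) * (a + 1) * (b + 1)) := by
    field_simp
    ring
  have h3 : 0 ≤ (a * b - 1) * (a - 1) * (b - 1) / ((a * b + 1) * (a + 1) * (b + 1)) := by
    have h4 : 0 ≤ a * b - 1 := by linarith
    have h5 : 0 ≤ a - 1 := by linarith
    have h6 : 0 ≤ b - 1 := by linarith
    positivity
  linarith

/-! ### The left flow in direction `v` -/

private theorem b2_nr_one {v : Fin n → ℂ} (hv : Kak.nq v = 1) : nr v = 1 := by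
  have h1 : nr v ^ 2 = 1 := by rw [nr_sq, ← hv, Kak.nq]
  nlinarith [nr_nonneg v]

private theorem b2_col_ne (g : SUGroup n) : g.toMatrix (Fin.last n) (Fin.last n) ≠ 0 :=
  norm_ne_zero_iff.1 (ch_pos g).ne'

private theorem b2_col (g : SUGroup n) (j : Fin n) :
    g.toMatrix j.castSucc (Fin.last n) = zc g j * g.toMatrix (Fin.last n) (Fin.last n) := by
  rw [zc, div_mul_cancel₀ _ (b2_col_ne g)]

private theorem b2_MM (p : Fin n → ℂ) (a b c d : ℂ) (u : Vec n) (z : Fin n → ℂ)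
    (hu : ∀ j : Fin n, u j.castSucc = z j * u (Fin.last n)) :
    (∀ j : Fin n, (Kak.MM p a b c d *ᵥ u) j.castSucc =
      u (Fin.last n) * (z j + (a * hp p z + b) * p j)) ∧
      (Kak.MM p a b c d *ᵥ u) (Fin.last n) = u (Fin.last n) * (1 + c * hp p z + d) := by
  have h1 : star (vec p) ⬝ᵥ u = hp p z * u (Fin.last n) := by
    rw [dotProduct, Fin.sum_univ_castSucc, hp, Finset.sum_mul, Pi.star_apply, Kak.vec_last, star_zero,
      zero_mul, add_zero]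
    refine Finset.sum_congr rfl fun j _ => ?_
    rw [Pi.star_apply, Kak.vec_castSucc, hu]
    ring
  have h2 : base n ⬝ᵥ u = u (Fin.last n) := by
    rw [dotProduct, Fin.sum_univ_castSucc, Kak.base_last, one_mul]
    simp [Kak.base_castSucc]
  have h3 : Kak.MM p a b c d *ᵥ u = u + (a * (hp p z * u (Fin.last n)) + b * u (Fin.last n)) • vec p +
      (c * (hp p z * u (Fin.last n)) + d * u (Fin.last n)) • base n := by
    simp only [Kak.MM, add_mulVec, smul_mulVec, one_mulVec, vecMulVec_mulVec, h1, h2, op_smul_eq_smul]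
    module
  rw [h3]
  constructor
  · intro j
    simp only [Pi.add_apply, Pi.smul_apply, smul_eq_mul, Kak.vec_castSucc, Kak.base_castSucc, hu j]
    ring
  · simp only [Pi.add_apply, Pi.smul_apply, smul_eq_mul, Kak.vec_last, Kak.base_last]
    ring

private theorem b2_flow_col {v : Fin n → ℂ} (hv : Kak.nq v = 1) (t : ℝ) (g : SUGroup n) :
    (∀ j : Fin n, (Kak.flow v hv t * g).toMatrix j.castSucc (Fin.last n) =
      g.toMatrix (Fin.last n) (Fin.last n) *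
        (zc g j + (((Real.cosh t - 1 : ℝ) : ℂ) * hp v (zc g) + (Real.sinh t : ℂ)) * v j)) ∧
      (Kak.flow v hv t * g).toMatrix (Fin.last n) (Fin.last n) =
        g.toMatrix (Fin.last n) (Fin.last n) *
          ((Real.cosh t : ℂ) + (Real.sinh t : ℂ) * hp v (zc g)) := by
  have h1 := b2_MM v ((Real.cosh t - 1 : ℝ) : ℂ) (Real.sinh t) (Real.sinh t)
    ((Real.cosh t - 1 : ℝ) : ℂ) (fun i => g.toMatrix i (Fin.last n)) (zc g) (b2_col g)
  rw [← Kak.toMatrix_flow hv] at h1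
  constructor
  · intro j
    rw [toMatrix_mul]
    exact h1.1 j
  · rw [toMatrix_mul]
    refine (h1.2).trans ?_
    push_cast
    ring

private theorem b2_cosh_le {t : ℝ} (ht : 0 ≤ t) (ht1 : t ≤ 1 / 4) : Real.cosh t ≤ 1 + t ^ 2 := by
  have h1 := Real.cosh_le_exp_half_sq t
  have h2 : t ^ 2 / 2 ≤ 1 / 32 := by nlinarith
  have h3 : Real.exp (t ^ 2 / 2) ≤ 1 / (1 - t ^ 2 / 2) :=
    Real.exp_bound_div_one_sub_of_interval (by positivity) (by linarith)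
  have h4 : 1 / (1 - t ^ 2 / 2) ≤ 1 + t ^ 2 := by
    rw [div_le_iff₀ (by linarith)]
    nlinarith [sq_nonneg t]
  linarith

private theorem b2_zc_flow {v : Fin n → ℂ} (hv : Kak.nq v = 1) (t : ℝ) (g : SUGroup n) (j : Fin n) :
    zc (Kak.flow v hv t * g) j =
      (zc g j + (((Real.cosh t - 1 : ℝ) : ℂ) * hp v (zc g) + (Real.sinh t : ℂ)) * v j) /
        ((Real.cosh t : ℂ) + (Real.sinh t : ℂ) * hp v (zc g)) := by
  obtain ⟨h1, h2⟩ := b2_flow_col hv t g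
  rw [zc, h1, h2, mul_div_mul_left _ _ (b2_col_ne g)]

/-- `zc (b(t) g) = (zc g + (sinh t + (cosh t - 1) <v, zc g>) v) / (cosh t + sinh t <v, zc g>)`. -/
theorem zc_flow_mul {v : Fin n → ℂ} (hv : Kak.nq v = 1) {t : ℝ} (ht : 0 ≤ t) (ht1 : t ≤ 1 / 4)
    {g : SUGroup n} (hg : nr (zc g) ≤ 1 / 2) :
    nr (zc (Kak.flow v hv t * g) - zc g - (t : ℂ) • v) ≤ 8 * t * (nr (zc g) + t) := by
  have hz := b2_zc_flow hv t g
  obtain ⟨z, hz0⟩ : ∃ z, z = zc g := ⟨_, rfl⟩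
  rw [← hz0] at hg hz ⊢
  obtain ⟨x, hx⟩ : ∃ x, x = nr z := ⟨_, rfl⟩
  obtain ⟨α, hα⟩ : ∃ α, α = hp v z := ⟨_, rfl⟩
  obtain ⟨C, hC⟩ : ∃ C, C = Real.cosh t := ⟨_, rfl⟩
  obtain ⟨S, hS⟩ : ∃ S, S = Real.sinh t := ⟨_, rfl⟩
  rw [← hx] at hg ⊢
  rw [← hα, ← hC, ← hS] at hz
  have hx0 : 0 ≤ x := by rw [hx]; exact nr_nonneg z
  have hv1 := b2_nr_one hv
  have hα1 : ‖α‖ ≤ x := by
    have h1 := norm_hp_le v z
    rwa [← hα, hv1, one_mul, ← hx] at h1
  have hC1 : 1 ≤ C := by rw [hC]; exact Real.one_le_cosh t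
  have hC2 : C ≤ 1 + t ^ 2 := by rw [hC]; exact b2_cosh_le ht ht1
  have hS1 : t ≤ S := by rw [hS]; exact Real.self_le_sinh_iff.2 ht
  have hS2 : S ≤ t + t ^ 3 := by
    have h1 := b2_sinh_le ht
    rw [← hC, ← hS] at h1
    nlinarith
  have ht2 : t ^ 2 ≤ t / 4 := by nlinarith
  have ht3 : t ^ 3 ≤ t ^ 2 / 4 := by nlinarith [sq_nonneg t]
  obtain ⟨D, hD⟩ : ∃ D : ℂ, D = (C : ℂ) + (S : ℂ) * α := ⟨_, rfl⟩
  rw [← hD] at hz
  have hD1 : ‖D - 1‖ ≤ t ^ 2 + 17 / 16 * t * x := by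
    have h1 : D - 1 = ((C - 1 : ℝ) : ℂ) + (S : ℂ) * α := by
      rw [hD]
      push_cast
      ring
    rw [h1]
    refine (norm_add_le _ _).trans ?_
    rw [norm_mul, Complex.norm_real, Complex.norm_real, Real.norm_of_nonneg (by linarith),
      Real.norm_of_nonneg (by linarith)]
    have h2 : S * ‖α‖ ≤ (t + t ^ 3) * x := by gcongr
    have h3 : t ^ 3 * x ≤ (t / 16) * x := by
      gcongr
      linarith
    linarith
  have hD2 : 1 / 2 ≤ ‖D‖ := by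
    have h1 := norm_sub_norm_le 1 (1 - D)
    rw [sub_sub_cancel, norm_one, ← norm_neg (1 - D), neg_sub] at h1
    have h2 : 17 / 16 * t * x ≤ 17 / 16 * (1 / 4) * (1 / 2) := by gcongr
    have h3 : t ^ 2 ≤ 1 / 16 := by nlinarith
    linarith
  have hDne : D ≠ 0 := by
    intro h0
    rw [h0, norm_zero] at hD2
    linarith
  have key : zc (Kak.flow v hv t * g) - z - (t : ℂ) • v =
      D⁻¹ • ((1 - D) • z + (((C - 1 : ℝ) : ℂ) * α + ((S - t : ℝ) : ℂ) + (t : ℂ) * (1 - D)) • v) := by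
    ext j
    simp only [Pi.sub_apply, Pi.add_apply, Pi.smul_apply, smul_eq_mul, hz]
    push_cast
    field_simp
    ring
  rw [key, nr_smul, norm_inv]
  have n1 := nr_add_le ((1 - D) • z)
    ((((C - 1 : ℝ) : ℂ) * α + ((S - t : ℝ) : ℂ) + (t : ℂ) * (1 - D)) • v)
  rw [nr_smul, nr_smul, hv1, mul_one, ← hx, ← norm_neg (1 - D), neg_sub] at n1
  have n2 : ‖((C - 1 : ℝ) : ℂ) * α + ((S - t : ℝ) : ℂ) + (t : ℂ) * (1 - D)‖ ≤
      t ^ 2 * x + t ^ 3 + t * ‖D - 1‖ := by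
    refine (norm_add₃_le).trans ?_
    rw [norm_mul, norm_mul, Complex.norm_real, Complex.norm_real, Complex.norm_real,
      Real.norm_of_nonneg (by linarith), Real.norm_of_nonneg (by linarith), Real.norm_of_nonneg ht,
      ← norm_neg (1 - D), neg_sub]
    have h2 : (C - 1) * ‖α‖ ≤ t ^ 2 * x := by
      gcongr
      linarith
    linarith
  have n3 : ‖D - 1‖ * x ≤ (t ^ 2 + 17 / 16 * t * x) * x := by gcongr
  have n4 : t * ‖D - 1‖ ≤ t * (t ^ 2 + 17 / 16 * t * x) := by gcongr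
  have hDi : ‖D‖⁻¹ ≤ 2 := by
    have h1 : ‖D‖⁻¹ ≤ (1 / 2)⁻¹ := inv_anti₀ (by norm_num) hD2
    linarith
  have n5 : nr ((1 - D) • z + (((C - 1 : ℝ) : ℂ) * α + ((S - t : ℝ) : ℂ) + (t : ℂ) * (1 - D)) • v) ≤
      4 * t * (x + t) := by
    have e1 : t ^ 2 * x ≤ t / 4 * x := by gcongr
    have e2 : t * x * x ≤ t * x * (1 / 2) := by gcongr
    nlinarith [mul_nonneg ht hx0]
  calc ‖D‖⁻¹ * nr ((1 - D) • z +
        (((C - 1 : ℝ) : ℂ) * α + ((S - t : ℝ) : ℂ) + (t : ℂ) * (1 - D)) • v) ≤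
        2 * (4 * t * (x + t)) := by
        gcongr
        exact nr_nonneg _
    _ = 8 * t * (x + t) := by ring

/-- The displacement of the flow. -/
theorem log_wt_flow_le {v : Fin n → ℂ} (hv : Kak.nq v = 1) {t : ℝ} (ht : 0 ≤ t) (ht1 : t ≤ 1 / 4)
    {g : SUGroup n} (hg : nr (zc g) ≤ 1 / 4) :
    Real.log (wt (g⁻¹ * Kak.flow v hv t * g)) ≤ t * (1 + 8 * nr (zc g)) := by
  obtain ⟨y, hy⟩ : ∃ y, y = g⁻¹ * Kak.flow v hv t * g := ⟨_, rfl⟩
  obtain ⟨hd0, hd1, hd2⟩ := b2_dist y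
  obtain ⟨x, hx⟩ : ∃ x, x = nr (zc g) := ⟨_, rfl⟩
  obtain ⟨α, hα⟩ : ∃ α, α = hp v (zc g) := ⟨_, rfl⟩
  obtain ⟨C, hC⟩ : ∃ C, C = Real.cosh t := ⟨_, rfl⟩
  obtain ⟨S, hS⟩ : ∃ S, S = Real.sinh t := ⟨_, rfl⟩
  obtain ⟨hf1, hf2⟩ := b2_flow_col hv t g
  rw [← hα, ← hC, ← hS] at hf1 hf2
  rw [← hx] at hg ⊢
  rw [← hy]
  have hx0 : 0 ≤ x := by rw [hx]; exact nr_nonneg _
  have hv1 := b2_nr_one hv
  have hα1 : ‖α‖ ≤ x := by
    have h1 := norm_hp_le v (zc g)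
    rwa [← hα, hv1, one_mul, ← hx] at h1
  have hC1 : 1 ≤ C := by rw [hC]; exact Real.one_le_cosh t
  have hCS : C ^ 2 - S ^ 2 = 1 := by rw [hC, hS]; exact Real.cosh_sq_sub_sinh_sq t
  have hS0 : 0 ≤ S := by rw [hS]; exact Real.sinh_nonneg_iff.2 ht
  have hch : ch y = ch g ^ 2 * ‖(C : ℂ) + (S : ℂ) * α - ((x ^ 2 : ℝ) : ℂ) -
      (((C - 1 : ℝ) : ℂ) * α + (S : ℂ)) * star α‖ := by
    have h1 := norm_herm_orbit g (Kak.flow v hv t * g)
    rw [← mul_assoc, ← hy] at h1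
    rw [← h1, herm_eq]
    have e1 : ∀ (k : SUGroup n) (i : Fin (n + 1)), act k (base n) i = k.toMatrix i (Fin.last n) := by
      intro k i
      rw [act, base, mulVec_single_one]
      rfl
    simp only [e1, hf1, hf2, b2_col g]
    obtain ⟨u, hu⟩ : ∃ u, u = g.toMatrix (Fin.last n) (Fin.last n) := ⟨_, rfl⟩
    have e2 : ‖u‖ = ch g := by rw [hu]; rfl
    rw [← hu, ← e2, ← norm_pow, ← norm_mul, ← norm_neg]
    have e3 : ∑ j : Fin n, star (zc g j * u) *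
        (u * (zc g j + (((C - 1 : ℝ) : ℂ) * α + (S : ℂ)) * v j)) =
        star u * u * (((x ^ 2 : ℝ) : ℂ) + (((C - 1 : ℝ) : ℂ) * α + (S : ℂ)) * star α) := by
      obtain ⟨β, hβ⟩ : ∃ β : ℂ, β = ((C - 1 : ℝ) : ℂ) * α + (S : ℂ) := ⟨_, rfl⟩
      have e4 : star α = ∑ j : Fin n, star (zc g j) * v j := by
        rw [hα, hp, star_sum]
        refine Finset.sum_congr rfl fun j _ => ?_
        rw [star_mul, star_star]
      rw [← hβ, e4, hx, ← b2_hp_self, hp, Finset.mul_sum, ← Finset.sum_add_distrib, Finset.mul_sum]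
      refine Finset.sum_congr rfl fun j _ => ?_
      rw [star_mul]
      ring
    rw [e3]
    have e5 : ∀ w : ℂ, ‖star u * u * w‖ = ‖u ^ 2 * w‖ := by
      intro w
      rw [norm_mul, norm_mul, norm_mul, norm_star, norm_pow]
      ring
    rw [← e5]
    congr 1
    ring
  have hsq : ∀ w : ℂ, ‖w‖ ^ 2 = w.re ^ 2 + w.im ^ 2 := by
    intro w
    rw [← Complex.normSq_eq_norm_sq, Complex.normSq_apply]
    ring
  have hch2 : ch y ^ 2 * (1 - x ^ 2) ^ 2 =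
      (C - x ^ 2 - (C - 1) * ‖α‖ ^ 2) ^ 2 + 4 * S ^ 2 * α.im ^ 2 := by
    have h1 : ch g ^ 2 * (1 - x ^ 2) = 1 := by
      have h2 : x ^ 2 = hq g := by rw [hx, nr_zc_sq]
      have h3 : ch g ≠ 0 := (ch_pos g).ne'
      rw [h2, hq]
      field_simp
      ring
    have h2 : (C : ℂ) + (S : ℂ) * α - ((x ^ 2 : ℝ) : ℂ) -
        (((C - 1 : ℝ) : ℂ) * α + (S : ℂ)) * star α =
        ((C - x ^ 2 - (C - 1) * ‖α‖ ^ 2 : ℝ) : ℂ) + ((2 * S * α.im : ℝ) : ℂ) * Complex.I := by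
      have h3 : α * star α = ((‖α‖ ^ 2 : ℝ) : ℂ) := by
        rw [RCLike.star_def, Complex.mul_conj']
        push_cast
        rfl
      have h4 : α - star α = ((2 * α.im : ℝ) : ℂ) * Complex.I := by
        rw [RCLike.star_def, Complex.sub_conj]
      push_cast at h3 h4 ⊢
      linear_combination (-(C - 1 : ℂ)) * h3 + (S : ℂ) * h4
    rw [hch, h2]
    obtain ⟨w, hw⟩ : ∃ w : ℂ, w = ((C - x ^ 2 - (C - 1) * ‖α‖ ^ 2 : ℝ) : ℂ) +
        ((2 * S * α.im : ℝ) : ℂ) * Complex.I := ⟨_, rfl⟩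
    rw [← hw]
    have h3 : (ch g ^ 2 * ‖w‖) ^ 2 * (1 - x ^ 2) ^ 2 = ‖w‖ ^ 2 := by
      have h4 : (ch g ^ 2 * ‖w‖) ^ 2 * (1 - x ^ 2) ^ 2 = (ch g ^ 2 * (1 - x ^ 2)) ^ 2 * ‖w‖ ^ 2 := by
        ring
      rw [h4, h1, one_pow, one_mul]
    rw [h3, hsq, hw]
    simp only [Complex.add_re, Complex.add_im, Complex.ofReal_re, Complex.ofReal_im, Complex.mul_re,
      Complex.mul_im, Complex.I_re, Complex.I_im, mul_zero, mul_one, zero_mul, sub_zero, add_zero,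
      zero_add]
    ring
  have hα2 : ‖α‖ ^ 2 ≤ x ^ 2 := pow_le_pow_left₀ (norm_nonneg α) hα1 2
  have hα3 : α.im ^ 2 ≤ ‖α‖ ^ 2 := by
    rw [hsq α]
    nlinarith [sq_nonneg α.re]
  have hx2 : x ^ 2 ≤ 1 / 16 := by nlinarith
  have hsinh : Real.sinh (Real.log (wt y)) ^ 2 * (1 - x ^ 2) ^ 2 ≤ (S * (1 + x ^ 2)) ^ 2 := by
    have h1 := Real.cosh_sq_sub_sinh_sq (Real.log (wt y))
    rw [hd1] at h1
    have h2 : Real.sinh (Real.log (wt y)) ^ 2 * (1 - x ^ 2) ^ 2 =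
        (C - x ^ 2 - (C - 1) * ‖α‖ ^ 2) ^ 2 + 4 * S ^ 2 * α.im ^ 2 - (1 - x ^ 2) ^ 2 := by
      linear_combination hch2 - (1 - x ^ 2) ^ 2 * h1
    rw [h2]
    obtain ⟨p, hp⟩ : ∃ p, p = ‖α‖ ^ 2 := ⟨_, rfl⟩
    have hp0 : 0 ≤ p := by rw [hp]; positivity
    rw [← hp] at hα2 hα3 ⊢
    obtain ⟨e, he⟩ : ∃ e, e = C - 1 := ⟨_, rfl⟩
    have he0 : 0 ≤ e := by linarith
    have hS2 : S ^ 2 = 2 * e + e ^ 2 := by rw [he]; linarith [show 2 * (C - 1) + (C - 1) ^ 2 = C ^ 2 - 1 by ring]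
    have h3 : (C - x ^ 2 - (C - 1) * p) ^ 2 - (1 - x ^ 2) ^ 2 =
        2 * e * (1 - p) * (1 - x ^ 2) + e ^ 2 * (1 - p) ^ 2 := by
      rw [he]
      ring
    have h4 : 2 * e * (1 - p) * (1 - x ^ 2) ≤ 2 * e * (1 - p) * (1 - p) := by
      refine mul_le_mul_of_nonneg_left (by linarith) ?_
      exact mul_nonneg (by linarith) (by linarith)
    have h5 : 4 * S ^ 2 * α.im ^ 2 ≤ 4 * S ^ 2 * p :=
      mul_le_mul_of_nonneg_left hα3 (by positivity)
    have h6 : 2 * e * (1 - p) * (1 - p) + e ^ 2 * (1 - p) ^ 2 + 4 * S ^ 2 * p = (S * (1 + p)) ^ 2 := by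
      linear_combination (-(1 - p) ^ 2) * hS2
    have h7 : (S * (1 + p)) ^ 2 ≤ (S * (1 + x ^ 2)) ^ 2 := by
      refine pow_le_pow_left₀ (by positivity) ?_ 2
      gcongr
    linarith
  have hs0 : 0 ≤ Real.sinh (Real.log (wt y)) := Real.sinh_nonneg_iff.2 hd0
  have h8 : Real.sinh (Real.log (wt y)) * (1 - x ^ 2) ≤ S * (1 + x ^ 2) := by
    rw [← mul_pow] at hsinh
    exact le_of_sq_le_sq hsinh (by positivity)
  have h9 : Real.sinh (Real.log (wt y)) ≤ S * (1 + x) := by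
    have h10 : S * (1 + x ^ 2) ≤ S * (1 + x) * (1 - x ^ 2) := by
      rw [mul_assoc]
      refine mul_le_mul_of_nonneg_left ?_ hS0
      nlinarith
    exact le_of_mul_le_mul_right (h8.trans h10) (by linarith)
  have h10 : S * (1 + x) ≤ Real.sinh (t + x * t) := by
    rw [Real.sinh_add, ← hS, ← hC]
    have h11 := Real.one_le_cosh (x * t)
    have h12 : x * t ≤ Real.sinh (x * t) := Real.self_le_sinh_iff.2 (by positivity)
    have h13 := b2_sinh_le ht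
    rw [← hS, ← hC] at h13
    have h14 : S * 1 ≤ S * Real.cosh (x * t) := mul_le_mul_of_nonneg_left h11 hS0
    have h15 : C * (x * t) ≤ C * Real.sinh (x * t) :=
      mul_le_mul_of_nonneg_left h12 (by linarith)
    have h16 : x * S ≤ x * (t * C) := mul_le_mul_of_nonneg_left h13 hx0
    linarith
  have h11 : Real.log (wt y) ≤ t + x * t := Real.sinh_le_sinh.1 (h9.trans h10)
  have h12 : 0 ≤ x * t := by positivity
  linarith

theorem nq_eq_nr_sq (z : Fin n → ℂ) : Kak.nq z = nr z ^ 2 := by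
  rw [nr_sq, Kak.nq]

end Pool.Agent.Lib.MP_5d4057_al.IN
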