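import Pool.Agent.Lib.MP_5d4057_al.IN.AvgDef
import Pool.Agent.Lib.MP_5d4057_al.HM.Mom

/-! The unit ball of `ℂ^n`: Euclidean norm, points, reflections, scalar slopes (part C, definitions). -/

set_option autoImplicit false

namespace Pool.Agent.Lib.MP_5d4057_al.IN

open Matrix MeasureTheory Filter Topology Pool.Agent.Lib.MP_5d4057_al Pool.Agent.Lib.MP_5d4057_al.Hyb
  Pool.Agent.Lib.MP_5d4057_al.HM

variable {n : ℕ}

/-- The Euclidean norm on `ℂ^n`. -/
noncomputable def nr (z : Fin n → ℂ) : ℝ := Real.sqrt (∑ j, ‖z j‖ ^ 2)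

/-- The Hermitian product, antilinear in the first argument. -/
def hp (z w : Fin n → ℂ) : ℂ := ∑ j, star (z j) * w j

/-- The real inner product. -/
def ip (z w : Fin n → ℂ) : ℝ := (hp z w).re

/-- The positive element with ball coordinate `z` (for `nr z < 1`). -/
noncomputable def pt (z : Fin n → ℂ) : SUGroup n :=
  Kak.bp fun j => ((Real.sqrt (1 - nr z ^ 2))⁻¹ : ℝ) • z j

/-- The reflection in the real hyperplane orthogonal to the unit vector `v`. -/
noncomputable def rf (v z : Fin n → ℂ) : Fin n → ℂ := fun j => z j - ((2 * ip v z : ℝ) : ℂ) * v j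

/-- The derivative at `0` of the ball automorphism given by `pt z`. -/
noncomputable def sg (z ζ : Fin n → ℂ) : Fin n → ℂ := fun j =>
  ((Real.sqrt (1 - nr z ^ 2) : ℝ) : ℂ) *
    (ζ j - hp z ζ / ((1 + Real.sqrt (1 - nr z ^ 2) : ℝ) : ℂ) * z j)

/-- The mirror property (B14): `F` is a locally uniform limit of functions `Fi i` of moderate growth with
`Fi i g h ≤ ∫ kap (s i) x * Fi i (g x) (h [R (zc x)])` for every reflection `R`, `s i → ∞`. -/
structure Mir (F : SUGroup n → SUGroup n → ℝ) : Prop where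
  ex : ∃ (s : ℕ → ℕ) (Fi : ℕ → SUGroup n → SUGroup n → ℝ) (N : ℕ) (C : ℝ),
    Tendsto s atTop atTop ∧ (∀ i, Continuous fun p : SUGroup n × SUGroup n => Fi i p.1 p.2) ∧
    (∀ i g h, |Fi i g h| ≤ C * (ch g ^ (2 * N) * ch h ^ (2 * N))) ∧
    (∀ i (g h k : SUGroup n), ch k = 1 → Fi i (g * k) h = Fi i g h ∧ Fi i g (h * k) = Fi i g h) ∧
    TendstoLocallyUniformly (fun i (p : SUGroup n × SUGroup n) => Fi i p.1 p.2)
      (fun p => F p.1 p.2) atTop ∧
    ∀ (i : ℕ) (v : Fin n → ℂ), nr v = 1 → ∀ g h : SUGroup n,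
      Fi i g h ≤ ∫ x, kap (s i) x * Fi i (g * x) (h * pt (rf v (zc x))) ∂(mu n)

/-- `F (pt z) (pt w) - ip c (w - z) ≤ (L + ε) |w - z|` near `0`. -/
def SB (c : Fin n → ℂ) (F : SUGroup n → SUGroup n → ℝ) (L : ℝ) : Prop :=
  ∀ ε : ℝ, 0 < ε → ∃ r : ℝ, 0 < r ∧ ∀ z w : Fin n → ℂ, nr z ≤ r → nr w ≤ r →
    F (pt z) (pt w) - ip c (w - z) ≤ (L + ε) * nr (w - z)

/-- `L` is the upper slope at `0` of the function `F`, normalised by the linear function `c`. -/
def Slope (c : Fin n → ℂ) (F : SUGroup n → SUGroup n → ℝ) (L : ℝ) : Prop :=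
  SB c F L ∧ ∀ L', L' < L → ¬ SB c F L'

end Pool.Agent.Lib.MP_5d4057_al.IN
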