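import Pool.Agent.Lib.MP_5d4057_al.Hyb.ArithF
import Pool.Agent.Lib.MP_5d4057_al.Hyb.Intg
import Pool.Agent.Lib.MP_5d4057_al.Hyb.Den
import Pool.Agent.Lib.MP_5d4057_al.HM.AppEmb

/-!
# The representation of a group with entries in `K` over a local field

Part F of INT: `Γ` is a group of matrices whose entries in the basis `B` lie in the number field `K`,
`σ : K → k` an embedding into an ultrametric field, `rhoK : Γ → GL_(m+1)(k)` the corresponding
representation: it spans the matrix algebra, has determinant one, and the pieces of a hybrid are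
bounded.
-/

set_option autoImplicit false

namespace Pool.Agent.Lib.MP_5d4057_al.IN

open Matrix Pool.Agent.Lib.MP_5d4057_al Pool.Agent.Lib.MP_5d4057_al.Hyb
  Pool.Agent.Lib.MP_5d4057_al.HM

section defs

variable {m : ℕ} {K : Subfield ℂ} {B : Matrix (Fin (m + 1)) (Fin (m + 1)) ℂ}
  {Γ : Subgroup (SUGroup m)}

/-- The matrices of the elements of `Γ` in the basis `B`, with entries in `K`. -/
noncomputable def kmat (hB : B.det ≠ 0) (hr : ∀ γ ∈ Γ, EntriesIn K B γ.toMatrix) :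
    Γ →* Matrix (Fin (m + 1)) (Fin (m + 1)) K where
  toFun γ := Matrix.of fun i j => ⟨(B⁻¹ * (γ : SUGroup m).toMatrix * B) i j, hr γ γ.2 i j⟩
  map_one' := by
    ext i j
    show (B⁻¹ * (1 : SUGroup m).toMatrix * B) i j = ((1 : Matrix (Fin (m + 1)) (Fin (m + 1)) K) i j : ℂ)
    rw [toMatrix_one, Matrix.mul_one, Matrix.nonsing_inv_mul _ (isUnit_iff_ne_zero.2 hB),
      Matrix.one_apply, Matrix.one_apply]
    split_ifs <;> rfl
  map_mul' x y := by
    ext i j
    show (B⁻¹ * ((x : SUGroup m) * (y : SUGroup m)).toMatrix * B) i j = _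
    rw [toMatrix_mul, inv_mul_conj_mul, Matrix.mul_apply, Matrix.mul_apply]
    push_cast
    rfl

theorem kmat_map (hB : B.det ≠ 0) (hr : ∀ γ ∈ Γ, EntriesIn K B γ.toMatrix) (γ : Γ) :
    (kmat hB hr γ).map (fun x : K => (x : ℂ)) = B⁻¹ * (γ : SUGroup m).toMatrix * B := rfl

theorem det_kmat (hB : B.det ≠ 0) (hr : ∀ γ ∈ Γ, EntriesIn K B γ.toMatrix) (γ : Γ) :
    (kmat hB hr γ).det = 1 := by
  have h1 : ((kmat hB hr γ).map (fun x : K => (x : ℂ))).det = (((kmat hB hr γ).det : K) : ℂ) :=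
    (RingHom.map_det K.subtype (kmat hB hr γ)).symm
  rw [kmat_map, det_mul, det_mul, det_toMatrix, mul_one, det_nonsing_inv, Ring.inverse_eq_inv',
    inv_mul_cancel₀ hB] at h1
  exact Subtype.ext h1.symm

theorem trace_kmat (hB : B.det ≠ 0) (hr : ∀ γ ∈ Γ, EntriesIn K B γ.toMatrix) (γ : Γ) :
    (((kmat hB hr γ).trace : K) : ℂ) = (γ : SUGroup m).toMatrix.trace := by
  have h1 : ((kmat hB hr γ).map (fun x : K => (x : ℂ))).trace = (((kmat hB hr γ).trace : K) : ℂ) := by
    rw [Matrix.trace, Matrix.trace]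
    push_cast
    rfl
  rw [← h1, kmat_map, Matrix.trace_mul_comm, ← Matrix.mul_assoc,
    Matrix.mul_nonsing_inv _ (isUnit_iff_ne_zero.2 hB), Matrix.one_mul]

theorem span_kmat (hB : B.det ≠ 0) (hr : ∀ γ ∈ Γ, EntriesIn K B γ.toMatrix)
    (hspan : Submodule.span ℂ (SUGroup.toMatrix '' (Γ : Set (SUGroup m))) = ⊤) :
    Submodule.span K (Set.range (kmat hB hr)) = ⊤ := by
  by_contra hne
  obtain ⟨f, hf0, hf⟩ := Submodule.exists_le_ker_of_lt_top _ (lt_top_iff_ne_top.2 hne)
  have hBu := isUnit_iff_ne_zero.2 hB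
  -- the functional in coordinates
  have hfc : ∀ A : Matrix (Fin (m + 1)) (Fin (m + 1)) K,
      f A = ∑ i, ∑ j, A i j * f (Matrix.single i j 1) := by
    intro A
    conv_lhs => rw [Matrix.matrix_eq_sum_single A]
    rw [map_sum]
    refine Finset.sum_congr rfl fun i _ => ?_
    rw [map_sum]
    refine Finset.sum_congr rfl fun j _ => ?_
    have h1 : Matrix.single i j (A i j) = A i j • Matrix.single i j (1 : K) := by
      rw [Matrix.smul_single, smul_eq_mul, mul_one]
    rw [h1, map_smul, smul_eq_mul]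
  let F : Matrix (Fin (m + 1)) (Fin (m + 1)) ℂ →ₗ[ℂ] ℂ :=
    { toFun := fun A => ∑ i, ∑ j, (B⁻¹ * A * B) i j * ((f (Matrix.single i j 1) : K) : ℂ)
      map_add' := fun A A' => by
        simp only [Matrix.mul_add, Matrix.add_apply, add_mul, Finset.sum_add_distrib]
      map_smul' := fun c A => by
        simp only [Matrix.mul_smul, Matrix.smul_mul, Matrix.smul_apply, smul_eq_mul, mul_assoc,
          Finset.mul_sum, RingHom.id_apply] }
  have hFγ : ∀ γ : Γ, F (γ : SUGroup m).toMatrix = 0 := by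
    intro γ
    have h1 : f (kmat hB hr γ) = 0 := hf (Submodule.subset_span ⟨γ, rfl⟩)
    rw [hfc] at h1
    have h2 := congrArg (fun x : K => (x : ℂ)) h1
    simp only [AddSubmonoidClass.coe_finsetSum, MulMemClass.coe_mul, ZeroMemClass.coe_zero] at h2
    exact h2
  have hF0 : ∀ A, F A = 0 := by
    intro A
    have hA : A ∈ Submodule.span ℂ (SUGroup.toMatrix '' (Γ : Set (SUGroup m))) := by
      rw [hspan]; trivial
    induction hA using Submodule.span_induction with
    | mem x hx =>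
      obtain ⟨γ, hγ, rfl⟩ := hx
      exact hFγ ⟨γ, hγ⟩
    | zero => exact map_zero F
    | add x y _ _ hx hy => rw [map_add, hx, hy, add_zero]
    | smul t x _ hx => rw [map_smul, hx, smul_zero]
  have hf1 : ∀ i j, f (Matrix.single i j 1) = 0 := by
    intro i j
    have h1 := hF0 (B * Matrix.single i j 1 * B⁻¹)
    have h2 : B⁻¹ * (B * Matrix.single i j (1 : ℂ) * B⁻¹) * B = Matrix.single i j 1 := by
      calc B⁻¹ * (B * Matrix.single i j (1 : ℂ) * B⁻¹) * B
          = (B⁻¹ * B) * Matrix.single i j 1 * (B⁻¹ * B) := by simp only [Matrix.mul_assoc]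
        _ = _ := by rw [Matrix.nonsing_inv_mul _ hBu, Matrix.one_mul, Matrix.mul_one]
    have h3 : F (B * Matrix.single i j 1 * B⁻¹) = ((f (Matrix.single i j 1) : K) : ℂ) := by
      show ∑ i', ∑ j', (B⁻¹ * (B * Matrix.single i j (1 : ℂ) * B⁻¹) * B) i' j' *
        ((f (Matrix.single i' j' 1) : K) : ℂ) = _
      rw [h2, Finset.sum_eq_single i, Finset.sum_eq_single j]
      · rw [Matrix.single_apply_same, one_mul]
      · intro j' _ hj'
        rw [Matrix.single_apply_of_ne _ _ _ _ _ (fun h => hj' h.2.symm), zero_mul]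
      · intro h
        exact absurd (Finset.mem_univ _) h
      · intro i' _ hi'
        refine Finset.sum_eq_zero fun j' _ => ?_
        rw [Matrix.single_apply_of_ne _ _ _ _ _ (fun h => hi' h.1.symm), zero_mul]
      · intro h
        exact absurd (Finset.mem_univ _) h
    rw [h3] at h1
    exact Subtype.ext h1
  refine hf0 (LinearMap.ext fun A => ?_)
  rw [hfc]
  simp only [hf1, mul_zero, Finset.sum_const_zero, LinearMap.zero_apply]

end defs

section local_field

variable {m : ℕ} {K : Subfield ℂ} {B : Matrix (Fin (m + 1)) (Fin (m + 1)) ℂ}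
  {Γ : Subgroup (SUGroup m)} {k : Type} [NormedField k]

/-- The representation over `k`. -/
noncomputable def rhoK (hB : B.det ≠ 0) (hr : ∀ γ ∈ Γ, EntriesIn K B γ.toMatrix) (σ : K →+* k) :
    Γ →* Matrix (Fin (m + 1)) (Fin (m + 1)) k :=
  ((σ.mapMatrix : Matrix (Fin (m + 1)) (Fin (m + 1)) K →+* Matrix (Fin (m + 1)) (Fin (m + 1)) k) :
    Matrix (Fin (m + 1)) (Fin (m + 1)) K →* Matrix (Fin (m + 1)) (Fin (m + 1)) k).comp (kmat hB hr)

theorem rhoK_apply (hB : B.det ≠ 0) (hr : ∀ γ ∈ Γ, EntriesIn K B γ.toMatrix) (σ : K →+* k)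
    (γ : Γ) : rhoK hB hr σ γ = (kmat hB hr γ).map σ := rfl

theorem det_rhoK (hB : B.det ≠ 0) (hr : ∀ γ ∈ Γ, EntriesIn K B γ.toMatrix) (σ : K →+* k)
    (γ : Γ) : (rhoK hB hr σ γ).det = 1 := by
  have h1 : ((kmat hB hr γ).map σ).det = σ (kmat hB hr γ).det := (RingHom.map_det σ _).symm
  rw [rhoK_apply, h1, det_kmat, map_one]

theorem trace_rhoK (hB : B.det ≠ 0) (hr : ∀ γ ∈ Γ, EntriesIn K B γ.toMatrix) (σ : K →+* k)
    (γ : Γ) : (rhoK hB hr σ γ).trace = σ (kmat hB hr γ).trace := by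
  rw [rhoK_apply, Matrix.trace, Matrix.trace, map_sum]
  rfl

theorem span_rhoK (hB : B.det ≠ 0) (hr : ∀ γ ∈ Γ, EntriesIn K B γ.toMatrix) (σ : K →+* k)
    (hspan : Submodule.span ℂ (SUGroup.toMatrix '' (Γ : Set (SUGroup m))) = ⊤) :
    Submodule.span k (Set.range (rhoK hB hr σ)) = ⊤ := by
  have h1 : ∀ A : Matrix (Fin (m + 1)) (Fin (m + 1)) K,
      A.map σ ∈ Submodule.span k (Set.range (rhoK hB hr σ)) := by
    intro A
    have hA : A ∈ Submodule.span K (Set.range (kmat hB hr)) := by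
      rw [span_kmat hB hr hspan]; trivial
    induction hA using Submodule.span_induction with
    | mem x hx =>
      obtain ⟨γ, rfl⟩ := hx
      exact Submodule.subset_span ⟨γ, rfl⟩
    | zero =>
      rw [Matrix.map_zero _ (map_zero σ)]
      exact Submodule.zero_mem _
    | add x y _ _ hx hy =>
      rw [Matrix.map_add _ (map_add σ)]
      exact Submodule.add_mem _ hx hy
    | smul t x _ hx =>
      have h2 : (t • x).map σ = σ t • x.map σ := by
        ext i j
        rw [Matrix.map_apply, Matrix.smul_apply, Matrix.smul_apply, Matrix.map_apply, smul_eq_mul,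
          smul_eq_mul, map_mul]
      rw [h2]
      exact Submodule.smul_mem _ _ hx
  rw [eq_top_iff]
  intro A _
  rw [Matrix.matrix_eq_sum_single A]
  refine Submodule.sum_mem _ fun i _ => Submodule.sum_mem _ fun j _ => ?_
  have h2 : Matrix.single i j (A i j) = A i j • (Matrix.single i j (1 : K)).map σ := by
    ext i' j'
    rw [Matrix.smul_apply, Matrix.map_apply, smul_eq_mul]
    by_cases h : i = i' ∧ j = j'
    · obtain ⟨rfl, rfl⟩ := h
      rw [Matrix.single_apply_same, Matrix.single_apply_same, map_one, mul_one]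
    · rw [Matrix.single_apply_of_ne _ _ _ _ _ h, Matrix.single_apply_of_ne _ _ _ _ _ h, map_zero,
        mul_zero]
  rw [h2]
  exact Submodule.smul_mem _ _ (h1 _)

/-- A finitely generated group of matrices with entries in `K` is bounded at `σ`. -/
theorem bounded_of_fg [IsUltrametricDist k] {N : ℕ} (L : AddSubgroup (Matrix (Fin N) (Fin N) ℂ)) (hfg : L.FG)
    (hK : ∀ a ∈ L, ∀ i j, a i j ∈ K) (σ : K →+* k) :
    ∃ C : ℝ, 0 ≤ C ∧ ∀ a ∈ L, ∀ i j, ∀ h : a i j ∈ K, ‖σ ⟨a i j, h⟩‖ ≤ C := by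
  classical
  obtain ⟨S, hS⟩ := hfg
  let ν : ℂ → ℝ := fun z => if h : z ∈ K then ‖σ ⟨z, h⟩‖ else 0
  have hν0 : ∀ z, 0 ≤ ν z := by
    intro z
    by_cases h : z ∈ K
    · simp only [ν, dif_pos h]; exact norm_nonneg _
    · simp only [ν, dif_neg h]; exact le_rfl
  have hν : ∀ z (h : z ∈ K), ν z = ‖σ ⟨z, h⟩‖ := fun z h => dif_pos h
  set C : ℝ := ∑ s ∈ S, ∑ i, ∑ j, ν (s i j) with hC
  have hC0 : 0 ≤ C := Finset.sum_nonneg fun s _ => Finset.sum_nonneg fun i _ =>
    Finset.sum_nonneg fun j _ => hν0 _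
  have hSC : ∀ s ∈ S, ∀ i j, ν (s i j) ≤ C := by
    intro s hs i j
    have h1 : ν (s i j) ≤ ∑ j, ν (s i j) :=
      Finset.single_le_sum (f := fun j => ν (s i j)) (fun j _ => hν0 _) (Finset.mem_univ j)
    have h2 : ∑ j, ν (s i j) ≤ ∑ i, ∑ j, ν (s i j) :=
      Finset.single_le_sum (f := fun i => ∑ j, ν (s i j))
        (fun i _ => Finset.sum_nonneg fun j _ => hν0 _) (Finset.mem_univ i)
    have h3 : ∑ i, ∑ j, ν (s i j) ≤ C :=
      Finset.single_le_sum (f := fun s : Matrix (Fin N) (Fin N) ℂ => ∑ i, ∑ j, ν (s i j))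
        (fun s _ => Finset.sum_nonneg fun i _ => Finset.sum_nonneg fun j _ => hν0 _) hs
    exact h1.trans (h2.trans h3)
  refine ⟨C, hC0, ?_⟩
  have hmain : ∀ a ∈ L, ∀ i j, ν (a i j) ≤ C := by
    intro a ha
    rw [← hS] at ha
    induction ha using AddSubgroup.closure_induction with
    | mem x hx => exact hSC x hx
    | zero =>
      intro i j
      have h0 : (0 : ℂ) ∈ K := K.zero_mem
      have h1 : (⟨0, h0⟩ : K) = 0 := rfl
      rw [Matrix.zero_apply, hν 0 h0, h1, map_zero, norm_zero]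
      exact hC0
    | add x y hx hy ihx ihy =>
      intro i j
      rw [hS] at hx hy
      have hx1 := hK x hx i j
      have hy1 := hK y hy i j
      have h1 := ihx i j
      have h2 := ihy i j
      rw [hν _ hx1] at h1
      rw [hν _ hy1] at h2
      have h3 : x i j + y i j ∈ K := K.add_mem hx1 hy1
      have h4 : (⟨x i j + y i j, h3⟩ : K) = ⟨x i j, hx1⟩ + ⟨y i j, hy1⟩ := rfl
      rw [Matrix.add_apply, hν _ h3, h4, map_add]
      exact (IsUltrametricDist.norm_add_le_max _ _).trans (max_le h1 h2)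
    | neg x hx ihx =>
      intro i j
      rw [hS] at hx
      have hx1 := hK x hx i j
      have h1 := ihx i j
      rw [hν _ hx1] at h1
      have h3 : -x i j ∈ K := K.neg_mem hx1
      have h4 : (⟨-x i j, h3⟩ : K) = -⟨x i j, hx1⟩ := rfl
      rw [Matrix.neg_apply, hν _ h3, h4, map_neg, norm_neg]
      exact h1
  intro a ha i j h
  rw [← hν _ h]
  exact hmain a ha i j

end local_field

/-- The additive group generated by an arithmetic group (embedded in the next dimension) is finitely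
generated. -/
theorem fg_piece {m : ℕ} {K : Subfield ℂ} (hK : NumberField K)
    {B : Matrix (Fin (m + 1)) (Fin (m + 1)) ℂ} (hB : B.det ≠ 0) (Γ : Subgroup (SUGroup m))
    (hspan : Submodule.span ℂ (SUGroup.toMatrix '' (Γ : Set (SUGroup m))) = ⊤)
    (hr : ∀ γ ∈ Γ, EntriesIn K B γ.toMatrix) (hint : ∀ γ ∈ Γ, IsIntegral ℤ γ.toMatrix.trace) :
    (AddSubgroup.closure {a : Matrix (Fin (m + 1 + 1)) (Fin (m + 1 + 1)) ℂ |
      ∃ γ ∈ Γ, a = dsum 1 γ.toMatrix}).FG := by
  obtain ⟨N, hN, hden⟩ := exists_bounded_denom hK B hB Γ hspan hr hint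
  obtain ⟨L, hL⟩ : ∃ L, L = AddSubgroup.closure {a : Matrix (Fin (m + 1 + 1)) (Fin (m + 1 + 1)) ℂ |
      ∃ γ ∈ Γ, a = dsum 1 γ.toMatrix} := ⟨_, rfl⟩
  rw [← hL]
  have hBd : (dsum 1 B).det ≠ 0 := by rw [det_dsum, one_mul]; exact hB
  have hBu := isUnit_iff_ne_zero.2 hBd
  have hN0 : (N : ℂ) ≠ 0 := Nat.cast_ne_zero.2 hN.ne'
  have hNint : (N : ℂ) ∈ integers K := natCast_mem _ N
  let ψ : Matrix (Fin (m + 1 + 1)) (Fin (m + 1 + 1)) ℂ →ₗ[ℤ]
      Matrix (Fin (m + 1 + 1)) (Fin (m + 1 + 1)) ℂ :=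
    { toFun := fun a => (N : ℂ) • a
      map_add' := fun a b => smul_add _ _ _
      map_smul' := fun c a => by rw [smul_comm, RingHom.id_apply] }
  have hψ : LinearMap.ker ψ = ⊥ := by
    rw [LinearMap.ker_eq_bot]
    intro a b hab
    exact smul_right_injective _ hN0 hab
  have hO := matOrder_fg (m := m + 1) hK (dsum 1 B) hBu
  have hO' : (AddSubgroup.toIntSubmodule (matOrder (m := m + 1) K (dsum 1 B) hBu).toAddSubgroup).FG := by
    rw [Submodule.fg_iff_addSubgroup_fg]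
    exact hO
  have hle : (AddSubgroup.toIntSubmodule L).map ψ ≤
      AddSubgroup.toIntSubmodule (matOrder (m := m + 1) K (dsum 1 B) hBu).toAddSubgroup := by
    rw [Submodule.map_le_iff_le_comap]
    intro a ha
    have ha' : a ∈ L := ha
    show (N : ℂ) • a ∈ matOrder (m := m + 1) K (dsum 1 B) hBu
    rw [hL] at ha'
    induction ha' using AddSubgroup.closure_induction with
    | mem x hx =>
      obtain ⟨γ, hγ, rfl⟩ := hx
      intro i j
      have h1 : (dsum 1 B)⁻¹ * ((N : ℂ) • dsum 1 γ.toMatrix) * dsum 1 B =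
          (N : ℂ) • dsum 1 (B⁻¹ * γ.toMatrix * B) := by
        rw [dsum_inv' one_ne_zero ((isUnit_iff_isUnit_det B).2 (isUnit_iff_ne_zero.2 hB)), inv_one,
          Matrix.mul_smul, Matrix.smul_mul, dsum_mul, dsum_mul, one_mul, one_mul]
      rw [h1, Matrix.smul_apply, smul_eq_mul]
      refine Fin.cases ?_ (fun i => ?_) i <;> refine Fin.cases ?_ (fun j => ?_) j
      · rw [dsum_zero_zero, mul_one]; exact hNint
      · rw [dsum_zero_succ, mul_zero]; exact (integers K).zero_mem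
      · rw [dsum_succ_zero, mul_zero]; exact (integers K).zero_mem
      · rw [dsum_succ_succ]; exact hden γ hγ i j
    | zero => rw [smul_zero]; exact zero_mem _
    | add x y hx hy ihx ihy =>
      rw [smul_add]
      exact add_mem (ihx (by rw [hL]; exact hx)) (ihy (by rw [hL]; exact hy))
    | neg x hx ihx =>
      rw [smul_neg]
      exact neg_mem (ihx (by rw [hL]; exact hx))
  have h1 : ((AddSubgroup.toIntSubmodule L).map ψ).FG := hO'.of_le hle
  have h2 : (AddSubgroup.toIntSubmodule L).FG := Submodule.fg_of_fg_map_injective ψ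
    (LinearMap.ker_eq_bot.1 hψ) h1
  rw [Submodule.fg_iff_addSubgroup_fg] at h2
  exact h2

/-- **The pieces are bounded at every finite place.** -/
theorem bounded_piece {m : ℕ} {K : Subfield ℂ} {Γ : Fin 2 → Subgroup (SUGroup m)}
    {g : Fin 2 → SUGroup (m + 1)} (hm : 1 ≤ m) (hL : ∀ b, IsLattice (Γ b))
    (hA : ∀ b, IsArithmetic m (Γ b)) {B : Matrix (Fin (m + 1 + 1)) (Fin (m + 1 + 1)) ℂ}
    (hB : B.det ≠ 0) (hr : ∀ γ ∈ hybrid Γ g, EntriesIn K B γ.toMatrix) {k : Type} [NormedField k]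
    [IsUltrametricDist k] (σ : K →+* k) (b : Fin 2) :
    ∃ C : ℝ, ∀ (γ : Γ b) i j, ‖rhoK hB hr σ (embHyb Γ g b γ) i j‖ ≤ C := by
  obtain ⟨K', H, B', hf, hr', hc⟩ := hA b
  have hspan := span_top hm (Γ b) (hL b)
  have hfg := fg_piece hf.cm.1 hf.det (Γ b) hspan hr' fun γ hγ => isIntegral_trace hf.det _ hc γ hγ
  obtain ⟨L₁, hL₁⟩ : ∃ L₁, L₁ = AddSubgroup.closure
    {a : Matrix (Fin (m + 1 + 1)) (Fin (m + 1 + 1)) ℂ | ∃ γ ∈ Γ b, a = dsum 1 γ.toMatrix} :=
    ⟨_, rfl⟩
  rw [← hL₁] at hfg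
  let φ : Matrix (Fin (m + 1 + 1)) (Fin (m + 1 + 1)) ℂ →+
      Matrix (Fin (m + 1 + 1)) (Fin (m + 1 + 1)) ℂ :=
    { toFun := fun a => B⁻¹ * ((g b).toMatrix * a * ((g b)⁻¹).toMatrix) * B
      map_zero' := by simp
      map_add' := fun a c => by
        rw [Matrix.mul_add, Matrix.add_mul, Matrix.mul_add, Matrix.add_mul] }
  have hφγ : ∀ γ : Γ b, φ (dsum 1 (γ : SUGroup m).toMatrix) =
      B⁻¹ * (embHyb Γ g b γ : SUGroup (m + 1)).toMatrix * B := by
    intro γ
    rw [embHyb_coe, toMatrix_mul, toMatrix_mul, extend_toMatrix]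
    rfl
  have hφK : ∀ a ∈ L₁.map φ, ∀ i j, a i j ∈ K := by
    rintro _ ⟨x, hx, rfl⟩
    rw [SetLike.mem_coe, hL₁] at hx
    induction hx using AddSubgroup.closure_induction with
    | mem x hx =>
      obtain ⟨γ, hγ, rfl⟩ := hx
      rw [hφγ ⟨γ, hγ⟩]
      exact hr _ (embHyb Γ g b ⟨γ, hγ⟩).2
    | zero =>
      intro i j
      rw [map_zero, Matrix.zero_apply]
      exact K.zero_mem
    | add x y _ _ ihx ihy =>
      intro i j
      rw [map_add, Matrix.add_apply]
      exact K.add_mem (ihx i j) (ihy i j)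
    | neg x _ ihx =>
      intro i j
      rw [map_neg, Matrix.neg_apply]
      exact K.neg_mem (ihx i j)
  have hfgm : (L₁.map φ).FG := by
    classical
    obtain ⟨S, hS⟩ := hfg
    refine ⟨S.image φ, ?_⟩
    rw [← hS, AddMonoidHom.map_closure, Finset.coe_image]
  obtain ⟨C, -, hC⟩ := bounded_of_fg (L₁.map φ) hfgm hφK σ
  refine ⟨C, fun γ i j => ?_⟩
  have h1 : φ (dsum 1 (γ : SUGroup m).toMatrix) ∈ L₁.map φ := by
    refine ⟨_, ?_, rfl⟩
    rw [SetLike.mem_coe, hL₁]
    exact AddSubgroup.subset_closure ⟨γ, γ.2, rfl⟩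
  have h2 := hC _ h1 i j (hφK _ h1 i j)
  refine le_trans (le_of_eq ?_) h2
  rw [rhoK_apply, Matrix.map_apply]
  rfl

end Pool.Agent.Lib.MP_5d4057_al.IN
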