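import Pool.Agent.Lib.MP_5d4057_al.IN.Had

/-!
# Barycentres, Jensen, variation of the measure
-/

namespace Pool.Agent.Lib.MP_5d4057_al.IN

open MeasureTheory Filter Topology

variable {Y : Type} [MetricSpace Y] {Y' : Type} [MetricSpace Y']

section Bar

variable {Ω : Type} [MeasurableSpace Ω] {μ : Measure Ω} {w w' : Ω → ℝ} {F : Ω → Y} {F' : Ω → Y'}

/-- A probability density `w` and a function `F` with finite second moments. -/
structure Wt (μ : Measure Ω) (w : Ω → ℝ) (F : Ω → Y) : Prop where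
  nonneg : ∀ ω, 0 ≤ w ω
  int : Integrable w μ
  one : ∫ ω, w ω ∂μ = 1
  meas : AEStronglyMeasurable F μ
  sq : ∀ y, Integrable (fun ω => w ω * dist y (F ω) ^ 2) μ

private theorem Wt.mdist (h : Wt μ w F) (y : Y) :
    AEStronglyMeasurable (fun ω => dist y (F ω)) μ :=
  (continuous_const.dist continuous_id).comp_aestronglyMeasurable h.meas

theorem Wt.int_dist (h : Wt μ w F) (y : Y) : Integrable (fun ω => w ω * dist y (F ω)) μ := by
  refine (h.int.add (h.sq y)).mono' (h.int.aestronglyMeasurable.mul (h.mdist y))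
    (Eventually.of_forall fun ω => ?_)
  have h1 := h.nonneg ω
  have h2 : 0 ≤ dist y (F ω) := dist_nonneg
  rw [Real.norm_eq_abs, abs_of_nonneg (mul_nonneg h1 h2)]
  simp only [Pi.add_apply]
  nlinarith [mul_nonneg h1 (sq_nonneg (dist y (F ω) - 1)), mul_nonneg h1 (sq_nonneg (dist y (F ω)))]

theorem Wt.int_ph (H : CN Y) (h : Wt μ w F) (y : Y) : Integrable (fun ω => w ω * H.ph y (F ω)) μ := by
  refine ((h.sq y).const_mul H.C).mono' (h.int.aestronglyMeasurable.mul
    ((H.continuous y).comp_aestronglyMeasurable h.meas)) (Eventually.of_forall fun ω => ?_)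
  have h1 := h.nonneg ω
  rw [Real.norm_eq_abs, abs_of_nonneg (mul_nonneg h1 (H.nonneg _ _))]
  have h2 := mul_le_mul_of_nonneg_left (H.upper y (F ω)) h1
  linarith [h2]

private theorem Wt.ne (h : Wt μ w F) : Nonempty Ω := by
  by_contra hne
  rw [not_nonempty_iff] at hne
  have h1 := h.one
  rw [Measure.eq_zero_of_isEmpty μ, integral_zero_measure] at h1
  exact zero_ne_one h1

private theorem cont_of_lip {φ : Y → ℝ} {K : ℝ} (hφ : ∀ x y, |φ x - φ y| ≤ K * dist x y) :
    Continuous φ := by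
  refine (LipschitzWith.of_dist_le_mul (K := ⟨|K|, abs_nonneg K⟩) fun x y => ?_).continuous
  rw [Real.dist_eq]
  exact (hφ x y).trans (mul_le_mul_of_nonneg_right (le_abs_self K) dist_nonneg)

theorem Wt.int_lip (h : Wt μ w F) {φ : Y → ℝ} {K : ℝ} (hφ : ∀ x y, |φ x - φ y| ≤ K * dist x y) :
    Integrable (fun ω => w ω * φ (F ω)) μ := by
  obtain ⟨ω₀⟩ := h.ne
  refine ((h.int.mul_const |φ (F ω₀)|).add ((h.int_dist (F ω₀)).const_mul |K|)).mono'
    (h.int.aestronglyMeasurable.mul ((cont_of_lip hφ).comp_aestronglyMeasurable h.meas))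
    (Eventually.of_forall fun ω => ?_)
  have h1 := h.nonneg ω
  have h2 := hφ (F ω₀) (F ω)
  have h3 : |K| * dist (F ω₀) (F ω) ≥ K * dist (F ω₀) (F ω) :=
    mul_le_mul_of_nonneg_right (le_abs_self K) dist_nonneg
  have h4 : |φ (F ω)| ≤ |φ (F ω₀)| + |K| * dist (F ω₀) (F ω) := by
    have h5 := abs_sub_abs_le_abs_sub (φ (F ω)) (φ (F ω₀))
    rw [abs_sub_comm] at h5
    linarith
  rw [Real.norm_eq_abs, abs_mul, abs_of_nonneg h1]
  simp only [Pi.add_apply]
  have h6 := mul_le_mul_of_nonneg_left h4 h1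
  linarith

theorem Wt.pair (h : Wt μ w F) (h' : Wt μ w F') : Wt μ w (fun ω => (F ω, F' ω)) := by
  refine ⟨h.nonneg, h.int, h.one, h.meas.prodMk h'.meas, fun y => ?_⟩
  have hm : AEStronglyMeasurable (fun ω => dist y (F ω, F' ω)) μ :=
    (continuous_const.dist continuous_id).comp_aestronglyMeasurable (h.meas.prodMk h'.meas)
  refine ((h.sq y.1).add (h'.sq y.2)).mono' (h.int.aestronglyMeasurable.mul (hm.pow 2))
    (Eventually.of_forall fun ω => ?_)
  have h1 := h.nonneg ω
  rw [Real.norm_eq_abs, abs_of_nonneg (mul_nonneg h1 (sq_nonneg _))]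
  simp only [Pi.add_apply]
  rw [← mul_add]
  refine mul_le_mul_of_nonneg_left ?_ h1
  rw [Prod.dist_eq]
  rcases max_cases (dist y.1 (F ω)) (dist y.2 (F' ω)) with h2 | h2
  · rw [h2.1]
    nlinarith [sq_nonneg (dist y.2 (F' ω))]
  · rw [h2.1]
    nlinarith [sq_nonneg (dist y.1 (F ω))]

/-- The moment of inertia. -/
noncomputable def CN.psi (H : CN Y) (μ : Measure Ω) (w : Ω → ℝ) (F : Ω → Y) (y : Y) : ℝ :=
  ∫ ω, w ω * H.ph y (F ω) ∂μ

private theorem CN.psi_sub (H : CN Y) (h : Wt μ w F) (x y : Y) :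
    |H.psi μ w F x - H.psi μ w F y| ≤
      H.C * dist x y * (2 * (∫ ω, w ω * dist x (F ω) ∂μ) + dist x y) := by
  have hC : 0 ≤ H.C := zero_le_one.trans H.one_le
  unfold CN.psi
  rw [← integral_sub (h.int_ph H x) (h.int_ph H y)]
  have h1 : Integrable (fun ω => H.C * dist x y * (2 * (w ω * dist x (F ω)) + w ω * dist x y)) μ :=
    (((h.int_dist x).const_mul 2).add (h.int.mul_const (dist x y))).const_mul _
  have h2 : ∫ ω, H.C * dist x y * (2 * (w ω * dist x (F ω)) + w ω * dist x y) ∂μ =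
      H.C * dist x y * (2 * (∫ ω, w ω * dist x (F ω) ∂μ) + dist x y) := by
    rw [integral_const_mul, integral_add ((h.int_dist x).const_mul 2)
      (h.int.mul_const (dist x y)), integral_const_mul, integral_mul_const, h.one, one_mul]
  rw [← h2, ← Real.norm_eq_abs]
  refine norm_integral_le_of_norm_le h1 (Eventually.of_forall fun ω => ?_)
  have h3 := h.nonneg ω
  rw [← mul_sub, Real.norm_eq_abs, abs_mul, abs_of_nonneg h3]
  have h4 := mul_le_mul_of_nonneg_left (H.lip x y (F ω)) h3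
  have h5 : dist y (F ω) ≤ dist x y + dist x (F ω) := by
    rw [dist_comm x y]
    exact dist_triangle _ _ _
  have h6 : 0 ≤ w ω * (H.C * dist x y) := mul_nonneg h3 (mul_nonneg hC dist_nonneg)
  have h7 := mul_le_mul_of_nonneg_left h5 h6
  linarith

private theorem CN.psi_cont (H : CN Y) (h : Wt μ w F) : Continuous (H.psi μ w F) := by
  rw [continuous_iff_continuousAt]
  intro x
  have h1 : Tendsto (fun y => H.C * dist x y * (2 * (∫ ω, w ω * dist x (F ω) ∂μ) + dist x y))
      (𝓝 x) (𝓝 0) := by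
    have h2 : Continuous fun y =>
        H.C * dist x y * (2 * (∫ ω, w ω * dist x (F ω) ∂μ) + dist x y) := by fun_prop
    have h3 := h2.tendsto x
    simpa using h3
  rw [ContinuousAt, tendsto_iff_dist_tendsto_zero]
  refine squeeze_zero (fun _ => dist_nonneg) (fun y => ?_) h1
  rw [dist_comm, Real.dist_eq]
  exact H.psi_sub h x y

theorem CN.exists_bar [ProperSpace Y] [Nonempty Y] (H : CN Y) (h : Wt μ w F) :
    ∃ b, ∀ y, H.psi μ w F b + H.ph b y ≤ H.psi μ w F y := by
  obtain ⟨z, hz⟩ := H.exists_min (F := H.psi μ w F) (H.psi_cont h) (B := 0)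
    (fun y => integral_nonneg fun ω => mul_nonneg (h.nonneg ω) (H.nonneg _ _)) one_pos
    (fun x y => by
      have h1 : Integrable (fun ω => w ω * H.ph x (F ω) / 2 + w ω * H.ph y (F ω) / 2) μ :=
        ((h.int_ph H x).div_const 2).add ((h.int_ph H y).div_const 2)
      have h2 : ∫ ω, (w ω * H.ph x (F ω) / 2 + w ω * H.ph y (F ω) / 2 -
          w ω * (H.ph x y / 4)) ∂μ =
          (H.psi μ w F x + H.psi μ w F y) / 2 - 1 / 4 * H.ph x y := by
        rw [integral_sub h1 (h.int.mul_const _), integral_add ((h.int_ph H x).div_const 2)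
          ((h.int_ph H y).div_const 2), integral_div, integral_div, integral_mul_const, h.one,
          CN.psi, CN.psi]
        ring
      rw [← h2]
      refine integral_mono (h.int_ph H _) (h1.sub (h.int.mul_const _)) fun ω => ?_
      have h3 := mul_le_mul_of_nonneg_left (H.cn (F ω) x y) (h.nonneg ω)
      rw [H.symm (F ω) x, H.symm (F ω) y, H.symm (F ω)] at h3
      simp only
      linarith)
  refine ⟨z, fun y => ?_⟩
  have := hz y
  rwa [one_mul] at this

open Classical in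
/-- The barycentre. -/
noncomputable def CN.bar [Nonempty Y] (H : CN Y) (μ : Measure Ω) (w : Ω → ℝ) (F : Ω → Y) : Y :=
  if h : ∃ b, ∀ y, H.psi μ w F b + H.ph b y ≤ H.psi μ w F y then h.choose
  else Classical.arbitrary Y

theorem CN.bar_spec [ProperSpace Y] [Nonempty Y] (H : CN Y) (h : Wt μ w F) (y : Y) :
    H.psi μ w F (H.bar μ w F) + H.ph (H.bar μ w F) y ≤ H.psi μ w F y := by
  have h1 := H.exists_bar h
  rw [CN.bar, dif_pos h1]
  exact h1.choose_spec y

theorem CN.eq_bar [ProperSpace Y] [Nonempty Y] (H : CN Y) (h : Wt μ w F) {b : Y}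
    (hb : ∀ y, H.psi μ w F b ≤ H.psi μ w F y) : b = H.bar μ w F := by
  have h1 := H.bar_spec h b
  have h2 := hb (H.bar μ w F)
  have h3 := H.lower (H.bar μ w F) b
  have h4 : dist (H.bar μ w F) b ^ 2 ≤ 0 := by linarith
  have h5 : dist (H.bar μ w F) b = 0 := by
    have := sq_nonneg (dist (H.bar μ w F) b)
    exact pow_eq_zero_iff two_ne_zero |>.1 (le_antisymm h4 this)
  exact (dist_eq_zero.1 h5).symm

/-- JENSEN. PROOF (EVI): `b` the barycentre, `τ > 0`, `z` the minimiser of
`φ + ph b · / (2 τ)` (`exists_min`, `c = 1 / (2 τ)`; bounded below because `φ` is Lipschitz):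
`φ z + (ph b z + ph z y) / (2 τ) ≤ φ y + ph b y / (2 τ)`; put `y = F ω`, integrate:
`φ z + (ph b z + ψ z - ψ b) / (2 τ) ≤ ∫ φ (F)`, and `ψ b + ph b z ≤ ψ z`, so `φ z ≤ ∫ φ (F)`.
With `y = b`: `ph b z ≤ τ (φ b - φ z)`, so `dist b z ≤ τ K`; `τ → 0`. -/
theorem CN.jensen [ProperSpace Y] [Nonempty Y] (H : CN Y) (h : Wt μ w F) {φ : Y → ℝ} {K : ℝ}
    (hφ : ∀ x y, |φ x - φ y| ≤ K * dist x y) (hc : H.Cvx φ) :
    φ (H.bar μ w F) ≤ ∫ ω, w ω * φ (F ω) ∂μ := by
  set b := H.bar μ w F with hb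
  have hφ' : ∀ x y, |φ x - φ y| ≤ |K| * dist x y := fun x y =>
    (hφ x y).trans (mul_le_mul_of_nonneg_right (le_abs_self K) dist_nonneg)
  have key : ∀ τ : ℝ, 0 < τ → φ b ≤ (∫ ω, w ω * φ (F ω) ∂μ) + τ * |K| ^ 2 := by
    intro τ hτ
    have hcp : 0 < 1 / (2 * τ) := by positivity
    set c : ℝ := 1 / (2 * τ) with hcd
    have hcτ : 2 * τ * c = 1 := by rw [hcd]; field_simp
    obtain ⟨z, hz⟩ := H.exists_min (F := fun y => φ y + c * H.ph b y)
      ((cont_of_lip hφ).add (continuous_const.mul (H.continuous b)))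
      (B := φ b - τ * |K| ^ 2) (fun y => by
        have h1 := (abs_le.1 (hφ' b y)).2
        have h2 := mul_le_mul_of_nonneg_left (H.lower b y) hcp.le
        have h3 : 0 ≤ c * (dist b y - τ * |K|) ^ 2 := by positivity
        have h4 : c * (dist b y - τ * |K|) ^ 2 = c * dist b y ^ 2 -
            (2 * τ * c) * (|K| * dist b y) + (2 * τ * c) * (τ * |K| ^ 2) / 2 := by ring
        rw [hcτ] at h4
        have h5 : 0 ≤ τ * |K| ^ 2 := by positivity
        linarith) hcp
      (fun x y => by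
        have h1 := hc x y
        have h2 := mul_le_mul_of_nonneg_left (H.cn b x y) hcp.le
        linarith)
    have h1 : ∫ ω, (w ω * φ z + c * (w ω * H.ph b z) + c * (w ω * H.ph z (F ω))) ∂μ ≤
        ∫ ω, (w ω * φ (F ω) + c * (w ω * H.ph b (F ω))) ∂μ := by
      refine integral_mono (((h.int.mul_const _).add ((h.int.mul_const _).const_mul _)).add
        ((h.int_ph H z).const_mul _)) ((h.int_lip hφ).add ((h.int_ph H b).const_mul _)) fun ω => ?_
      have h2 := mul_le_mul_of_nonneg_left (hz (F ω)) (h.nonneg ω)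
      simp only
      linarith
    have j1 : Integrable (fun ω => w ω * φ z + c * (w ω * H.ph b z)) μ :=
      (h.int.mul_const _).add ((h.int.mul_const _).const_mul _)
    rw [integral_add j1 ((h.int_ph H z).const_mul _),
      integral_add (h.int.mul_const _) ((h.int.mul_const _).const_mul _),
      integral_add (h.int_lip hφ) ((h.int_ph H b).const_mul _), integral_mul_const,
      integral_const_mul, integral_mul_const, integral_const_mul, integral_const_mul, h.one] at h1
    have h2 := mul_le_mul_of_nonneg_left (H.bar_spec h z) hcp.le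
    rw [← hb, CN.psi, CN.psi] at h2
    have h3 := H.nonneg b z
    have h4 := mul_nonneg hcp.le h3
    have h5 : φ z ≤ ∫ ω, w ω * φ (F ω) ∂μ := by linarith
    have h6 := hz b
    simp only [H.self, mul_zero, add_zero] at h6
    rw [H.symm z b] at h6
    have h7 := (abs_le.1 (hφ' b z)).2
    have h8 : 2 * c * dist b z ^ 2 ≤ |K| * dist b z := by
      have := mul_le_mul_of_nonneg_left (H.lower b z) hcp.le
      linarith
    have h9 : dist b z ≤ τ * |K| := by
      rcases (dist_nonneg (x := b) (y := z)).eq_or_lt with h0 | h0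
      · rw [← h0]; positivity
      · have h10 : 2 * c * dist b z ≤ |K| := by
          by_contra hcon
          push Not at hcon
          have := mul_lt_mul_of_pos_right hcon h0
          nlinarith
        have h11 := mul_le_mul_of_nonneg_left h10 hτ.le
        have h12 : τ * (2 * c * dist b z) = (2 * τ * c) * dist b z := by ring
        rw [h12, hcτ, one_mul] at h11
        exact h11
    have h10 := mul_le_mul_of_nonneg_left h9 (abs_nonneg K)
    nlinarith
  refine le_of_forall_pos_le_add fun ε hε => ?_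
  have hK : 0 < |K| ^ 2 + 1 := by positivity
  have h1 := key (ε / (|K| ^ 2 + 1)) (div_pos hε hK)
  have h2 : ε / (|K| ^ 2 + 1) * |K| ^ 2 ≤ ε := by
    rw [div_mul_eq_mul_div, div_le_iff₀ hK]
    nlinarith [sq_nonneg |K|]
  linarith

/-- Equivariance. -/
theorem CN.bar_map [ProperSpace Y] [Nonempty Y] (H : CN Y) (h : Wt μ w F) (e : Y ≃ Y)
    (he : ∀ x y, H.ph (e x) (e y) = H.ph x y) (h' : Wt μ w (fun ω => e (F ω))) :
    H.bar μ w (fun ω => e (F ω)) = e (H.bar μ w F) := by
  have h1 : ∀ y, H.psi μ w (fun ω => e (F ω)) (e y) = H.psi μ w F y := by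
    intro y
    unfold CN.psi
    simp only [he]
  refine (H.eq_bar h' fun y => ?_).symm
  obtain ⟨y, rfl⟩ := e.surjective y
  rw [h1, h1]
  have h2 := H.bar_spec h y
  have h3 := H.nonneg (H.bar μ w F) y
  linarith

/-- Change of variables. -/
theorem CN.bar_congr {Ω' : Type} [MeasurableSpace Ω'] {μ' : Measure Ω'} {v : Ω' → ℝ} {L : Ω' → Y}
    [Nonempty Y] (H : CN Y) (h : ∀ y, H.psi μ w F y = H.psi μ' v L y) :
    H.bar μ w F = H.bar μ' v L := by
  have h1 : H.psi μ w F = H.psi μ' v L := funext h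
  unfold CN.bar
  rw [h1]

private theorem CN.int_dist_le (H : CN Y) (h : Wt μ w F) (b : Y) :
    ∫ ω, w ω * dist b (F ω) ∂μ ≤ Real.sqrt (H.psi μ w F b) := by
  refine (le_abs_self _).trans (Real.abs_le_sqrt ?_)
  set m := ∫ ω, w ω * dist b (F ω) ∂μ with hm
  have h1 : 0 ≤ ∫ ω, (w ω * dist b (F ω) ^ 2 - 2 * m * (w ω * dist b (F ω)) + w ω * m ^ 2) ∂μ := by
    refine integral_nonneg fun ω => ?_
    have h2 := mul_nonneg (h.nonneg ω) (sq_nonneg (dist b (F ω) - m))
    simp only [Pi.zero_apply]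
    linarith
  have j1 : Integrable (fun ω => w ω * dist b (F ω) ^ 2 - 2 * m * (w ω * dist b (F ω))) μ :=
    (h.sq b).sub ((h.int_dist b).const_mul _)
  rw [integral_add j1 (h.int.mul_const _), integral_sub (h.sq b) ((h.int_dist b).const_mul _), integral_const_mul, integral_mul_const,
    h.one, ← hm] at h1
  have h3 : ∫ ω, w ω * dist b (F ω) ^ 2 ∂μ ≤ H.psi μ w F b :=
    integral_mono (h.sq b) (h.int_ph H b) fun ω =>
      mul_le_mul_of_nonneg_left (H.lower _ _) (h.nonneg ω)
  linarith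

private theorem int_dist_tri (h : Wt μ w F) (b b' : Y) :
    ∫ ω, w ω * dist b' (F ω) ∂μ ≤ (∫ ω, w ω * dist b (F ω) ∂μ) + dist b b' := by
  have h1 : ∫ ω, (w ω * dist b (F ω) + w ω * dist b b') ∂μ =
      (∫ ω, w ω * dist b (F ω) ∂μ) + dist b b' := by
    rw [integral_add (h.int_dist b) (h.int.mul_const _), integral_mul_const, h.one, one_mul]
  rw [← h1]
  refine integral_mono (h.int_dist b') ((h.int_dist b).add (h.int.mul_const _)) fun ω => ?_
  have h2 : dist b' (F ω) ≤ dist b (F ω) + dist b b' := by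
    rw [dist_comm b b', add_comm]
    exact dist_triangle _ _ _
  have h3 := mul_le_mul_of_nonneg_left h2 (h.nonneg ω)
  simp only
  linarith

/-- Variation of the measure (A12). PROOF: add `ψ_w b' ≥ ψ_w b + ph b b'` and
`ψ_w' b ≥ ψ_w' b' + ph b b'`: `2 ph b b' ≤ ∫ (ph b' F - ph b F) (w - w')
≤ C dist b b' ∫ ε (w + w') (dist b F + dist b' F)`, Cauchy - Schwarz. -/
theorem CN.bar_vary [ProperSpace Y] [Nonempty Y] (H : CN Y) (h : Wt μ w F) (h' : Wt μ w' F)
    {ε : ℝ} (hε : 0 ≤ ε) (hw : ∀ ω, |w ω - w' ω| ≤ ε * (w ω + w' ω)) :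
    dist (H.bar μ w F) (H.bar μ w' F) ≤ H.C * ε * (Real.sqrt (H.psi μ w F (H.bar μ w F)) +
      Real.sqrt (H.psi μ w' F (H.bar μ w' F)) + dist (H.bar μ w F) (H.bar μ w' F)) := by
  have hC : 0 ≤ H.C := zero_le_one.trans H.one_le
  set b := H.bar μ w F with hb
  set b' := H.bar μ w' F with hb'
  have h1 := H.bar_spec h b'
  have h2 := H.bar_spec h' b
  rw [← hb] at h1
  rw [← hb', H.symm b' b] at h2
  have i1 := h.int_ph H b
  have i2 := h.int_ph H b'
  have i3 := h'.int_ph H b
  have i4 := h'.int_ph H b'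
  have h3 : (H.psi μ w F b' - H.psi μ w F b) - (H.psi μ w' F b' - H.psi μ w' F b) =
      ∫ ω, ((w ω * H.ph b' (F ω) - w ω * H.ph b (F ω)) -
        (w' ω * H.ph b' (F ω) - w' ω * H.ph b (F ω))) ∂μ := by
    have j1 : Integrable (fun ω => w ω * H.ph b' (F ω) - w ω * H.ph b (F ω)) μ := i2.sub i1
    have j2 : Integrable (fun ω => w' ω * H.ph b' (F ω) - w' ω * H.ph b (F ω)) μ := i4.sub i3
    rw [integral_sub j1 j2, integral_sub i2 i1, integral_sub i4 i3]
    rfl
  have hG : Integrable (fun ω => ε * (H.C * dist b b') * ((w ω * dist b (F ω) +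
      w ω * dist b' (F ω)) + (w' ω * dist b (F ω) + w' ω * dist b' (F ω)))) μ :=
    (((h.int_dist b).add (h.int_dist b')).add ((h'.int_dist b).add (h'.int_dist b'))).const_mul _
  have h4 : ∫ ω, ((w ω * H.ph b' (F ω) - w ω * H.ph b (F ω)) -
        (w' ω * H.ph b' (F ω) - w' ω * H.ph b (F ω))) ∂μ ≤
      ∫ ω, ε * (H.C * dist b b') * ((w ω * dist b (F ω) +
      w ω * dist b' (F ω)) + (w' ω * dist b (F ω) + w' ω * dist b' (F ω))) ∂μ := by
    refine integral_mono ((i2.sub i1).sub (i4.sub i3)) hG fun ω => ?_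
    have g1 := H.lip b b' (F ω)
    have g2 := hw ω
    have g3 : (w ω - w' ω) * (H.ph b' (F ω) - H.ph b (F ω)) ≤
        |w ω - w' ω| * |H.ph b (F ω) - H.ph b' (F ω)| := by
      rw [abs_sub_comm (H.ph b (F ω)), ← abs_mul]
      exact le_abs_self _
    have g4 : |w ω - w' ω| * |H.ph b (F ω) - H.ph b' (F ω)| ≤
        (ε * (w ω + w' ω)) * (H.C * dist b b' * (dist b (F ω) + dist b' (F ω))) :=
      mul_le_mul g2 g1 (abs_nonneg _) ((abs_nonneg _).trans g2)
    simp only
    linarith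
  have j3 : Integrable (fun ω => w ω * dist b (F ω) + w ω * dist b' (F ω)) μ :=
    (h.int_dist b).add (h.int_dist b')
  have j4 : Integrable (fun ω => w' ω * dist b (F ω) + w' ω * dist b' (F ω)) μ :=
    (h'.int_dist b).add (h'.int_dist b')
  rw [integral_const_mul, integral_add j3 j4, integral_add (h.int_dist b) (h.int_dist b'),
    integral_add (h'.int_dist b) (h'.int_dist b')] at h4
  have h5 := H.int_dist_le h b
  have h6 := H.int_dist_le h' b'
  have h7 := int_dist_tri h b b'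
  have h8 := int_dist_tri h' b' b
  rw [dist_comm b' b] at h8
  have h9 := H.lower b b'
  have hd : 0 ≤ dist b b' := dist_nonneg
  set A := Real.sqrt (H.psi μ w F b)
  set B := Real.sqrt (H.psi μ w' F b')
  have hA : 0 ≤ A := Real.sqrt_nonneg _
  have hB : 0 ≤ B := Real.sqrt_nonneg _
  have h10 : ε * (H.C * dist b b') * ((∫ ω, w ω * dist b (F ω) ∂μ) +
      (∫ ω, w ω * dist b' (F ω) ∂μ) + ((∫ ω, w' ω * dist b (F ω) ∂μ) +
      ∫ ω, w' ω * dist b' (F ω) ∂μ)) ≤ ε * (H.C * dist b b') * (2 * (A + B + dist b b')) := by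
    refine mul_le_mul_of_nonneg_left ?_ (by positivity)
    linarith
  have h11 : dist b b' ^ 2 ≤ dist b b' * (H.C * ε * (A + B + dist b b')) := by
    nlinarith
  rcases hd.eq_or_lt with h0 | h0
  · have h12 : 0 ≤ H.C * ε * (A + B + dist b b') := by positivity
    linarith
  · rw [sq] at h11
    exact le_of_mul_le_mul_left h11 h0

theorem CN.bar_prod [ProperSpace Y] [Nonempty Y] [ProperSpace Y'] [Nonempty Y'] (H : CN Y)
    (H' : CN Y') (h : Wt μ w F) (h' : Wt μ w F') :
    (H.prod H').bar μ w (fun ω => (F ω, F' ω)) = (H.bar μ w F, H'.bar μ w F') := by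
  have h1 : ∀ y : Y × Y', (H.prod H').psi μ w (fun ω => (F ω, F' ω)) y =
      H.psi μ w F y.1 + H'.psi μ w F' y.2 := by
    intro y
    have h2 : ∀ ω, w ω * (H.prod H').ph y (F ω, F' ω) =
        w ω * H.ph y.1 (F ω) + w ω * H'.ph y.2 (F' ω) := fun ω => mul_add _ _ _
    unfold CN.psi
    simp only [h2]
    exact integral_add (h.int_ph H _) (h'.int_ph H' _)
  refine ((H.prod H').eq_bar (h.pair h') fun y => ?_).symm
  rw [h1, h1]
  have h2 := H.bar_spec h y.1
  have h3 := H'.bar_spec h' y.2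
  have h4 := H.nonneg (H.bar μ w F) y.1
  have h5 := H'.nonneg (H'.bar μ w F') y.2
  simp only
  linarith

/-- JENSEN FOR PAIRS. -/
theorem CN.jensen_pair [ProperSpace Y] [Nonempty Y] [ProperSpace Y'] [Nonempty Y'] (H : CN Y)
    (H' : CN Y') (h : Wt μ w F) (h' : Wt μ w F') {φ : Y → Y' → ℝ} {K : ℝ}
    (hφ : ∀ x y x' y', |φ x x' - φ y y'| ≤ K * (dist x y + dist x' y'))
    (hc : ∀ x y x' y', φ (H.mid x y) (H'.mid x' y') ≤ (φ x x' + φ y y') / 2) :
    φ (H.bar μ w F) (H'.bar μ w F') ≤ ∫ ω, w ω * φ (F ω) (F' ω) ∂μ := by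
  have h1 := (H.prod H').jensen (h.pair h') (φ := fun p => φ p.1 p.2) (K := 2 * |K|)
    (fun x y => by
      refine (hφ _ _ _ _).trans ?_
      rw [Prod.dist_eq]
      have h2 := le_max_left (dist x.1 y.1) (dist x.2 y.2)
      have h3 := le_max_right (dist x.1 y.1) (dist x.2 y.2)
      have h4 : K * (dist x.1 y.1 + dist x.2 y.2) ≤ |K| * (dist x.1 y.1 + dist x.2 y.2) :=
        mul_le_mul_of_nonneg_right (le_abs_self K) (add_nonneg dist_nonneg dist_nonneg)
      have h5 := mul_le_mul_of_nonneg_left (add_le_add h2 h3) (abs_nonneg K)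
      linarith)
    (fun x y => hc _ _ _ _)
  rw [H.bar_prod H' h h'] at h1
  exact h1

end Bar

end Pool.Agent.Lib.MP_5d4057_al.IN
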