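import Pool.Agent.Lib.MP_5d4057_al.IN.NmF
import Pool.Agent.Lib.MP_5d4057_al.IN.HadB

/-!
# A8: the metric space of norms
-/

namespace Pool.Agent.Lib.MP_5d4057_al.IN

open Module

variable {k : Type} [NontriviallyNormedField k] [IsUltrametricDist k] [ProperSpace k]
  {V : Type} [AddCommGroup V] [Module k V] [FiniteDimensional k V]

/-- The distance `sup |log N - log N'|`. -/
noncomputable def Nm.d (N N' : Nm k V) : ℝ := ⨆ v : V, |Real.log (N v) - Real.log (N' v)|

theorem Nm.d_bdd (N N' : Nm k V) :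
    BddAbove (Set.range fun v : V => |Real.log (N v) - Real.log (N' v)|) := by
  obtain ⟨C, hC, h⟩ := N.exists_le N'
  obtain ⟨C', hC', h'⟩ := N'.exists_le N
  refine ⟨|Real.log C| + |Real.log C'|, ?_⟩
  rintro _ ⟨v, rfl⟩
  by_cases hv : v = 0
  · simp only [hv, Nm.zero, sub_self, abs_zero]
    positivity
  · have hN := N.pos hv
    have hN' := N'.pos hv
    have h1 : Real.log (N' v) ≤ Real.log C + Real.log (N v) := by
      rw [← Real.log_mul hC.ne' hN.ne']
      exact Real.log_le_log hN' (h v)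
    have h2 : Real.log (N v) ≤ Real.log C' + Real.log (N' v) := by
      rw [← Real.log_mul hC'.ne' hN'.ne']
      exact Real.log_le_log hN (h' v)
    have h3 := le_abs_self (Real.log C)
    have h4 := le_abs_self (Real.log C')
    have h5 := abs_nonneg (Real.log C)
    have h6 := abs_nonneg (Real.log C')
    simp only
    rw [abs_le]
    constructor <;> linarith

theorem Nm.le_d (N N' : Nm k V) (v : V) : |Real.log (N v) - Real.log (N' v)| ≤ N.d N' :=
  le_ciSup (N.d_bdd N') v

noncomputable instance : MetricSpace (Nm k V) where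
  dist := Nm.d
  dist_self N := by simp [Nm.d]
  dist_comm N N' := by simp only [Nm.d, abs_sub_comm]
  dist_triangle N N' N'' := by
    refine ciSup_le fun v => ?_
    refine (abs_sub_le _ (Real.log (N' v)) _).trans ?_
    exact add_le_add (N.le_d N' v) (N'.le_d N'' v)
  eq_of_dist_eq_zero {N N'} h := by
    ext v
    by_cases hv : v = 0
    · simp [hv]
    · have h1 := N.le_d N' v
      have h2 : |Real.log (N v) - Real.log (N' v)| ≤ 0 := h1.trans h.le
      have h3 : Real.log (N v) = Real.log (N' v) := by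
        have := abs_nonpos_iff.1 h2
        linarith
      exact Real.log_injOn_pos (Set.mem_Ioi.2 (N.pos hv)) (Set.mem_Ioi.2 (N'.pos hv)) h3

theorem Nm.dist_eq (N N' : Nm k V) : dist N N' = ⨆ v : V, |Real.log (N v) - Real.log (N' v)| := rfl

theorem Nm.log_le_dist (N N' : Nm k V) (v : V) : |Real.log (N v) - Real.log (N' v)| ≤ dist N N' :=
  N.le_d N' v

theorem Nm.dist_le {N N' : Nm k V} {r : ℝ} (h : ∀ v, v ≠ 0 → |Real.log (N v) - Real.log (N' v)| ≤ r)
    (hr : 0 ≤ r) : dist N N' ≤ r := by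
  rw [Nm.dist_eq]
  refine ciSup_le fun v => ?_
  by_cases hv : v = 0
  · simpa [hv] using hr
  · exact h v hv

/-- `N v ≤ exp (dist) * N' v`. -/
theorem Nm.le_exp_dist (N N' : Nm k V) (v : V) : N v ≤ Real.exp (dist N N') * N' v := by
  by_cases hv : v = 0
  · simp [hv]
  · have h1 := (abs_le.1 (N.log_le_dist N' v)).2
    have hN := N.pos hv
    have hN' := N'.pos hv
    rw [← Real.log_le_log_iff hN (mul_pos (Real.exp_pos _) hN'),
      Real.log_mul (Real.exp_ne_zero _) hN'.ne', Real.log_exp]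
    linarith

theorem Nm.dist_act (e : V ≃ₗ[k] V) (N N' : Nm k V) : dist (N.act e) (N'.act e) = dist N N' := by
  apply le_antisymm
  · refine Nm.dist_le (fun v _ => ?_) dist_nonneg
    exact N.log_le_dist N' (e.symm v)
  · refine Nm.dist_le (fun v _ => ?_) dist_nonneg
    have h := (N.act e).log_le_dist (N'.act e) (e v)
    simpa using h

private theorem ext_le_aux (N N' : Nm k V) (j : ℕ) (x : ⋀[k]^j V) :
    N'.ext j x ≤ Real.exp (j * dist N N') * N.ext j x := by
  obtain ⟨b, hb⟩ := exists_orth N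
  have hr : 0 ≤ Real.exp (j * dist N N') * N.ext j x :=
    mul_nonneg (Real.exp_pos _).le ((N.ext j).nonneg x)
  refine (N'.ext j).le_of_basis (b.exteriorPower j) hr fun s => ?_
  have hinj : Function.Injective (Set.powersetCard.ofFinEmbEquiv.symm s) :=
    (Set.powersetCard.ofFinEmbEquiv.symm s).injective
  have e1 : ∀ M : Nm k V, M.ext j (b.exteriorPower j s) =
      M.vol (fun l => b (Set.powersetCard.ofFinEmbEquiv.symm s l)) := by
    intro M
    rw [exteriorPower.basis_apply]
    rfl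
  have h1 : N'.ext j (b.exteriorPower j s) ≤
      Real.exp (j * dist N N') * N.ext j (b.exteriorPower j s) := by
    rw [e1, e1, (hb.orthF hinj).vol_eq]
    refine (N'.vol_le _).trans ?_
    calc ∏ l, N' (b (Set.powersetCard.ofFinEmbEquiv.symm s l))
        ≤ ∏ l : Fin j, (Real.exp (dist N N') *
            N (b (Set.powersetCard.ofFinEmbEquiv.symm s l))) := by
          refine Finset.prod_le_prod (fun l _ => N'.nonneg _) fun l _ => ?_
          rw [dist_comm]
          exact N'.le_exp_dist N _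
      _ = Real.exp (j * dist N N') *
            ∏ l : Fin j, N (b (Set.powersetCard.ofFinEmbEquiv.symm s l)) := by
          rw [Finset.prod_mul_distrib, Finset.prod_const, Finset.card_univ, Fintype.card_fin,
            ← Real.exp_nat_mul]
  calc ‖(b.exteriorPower j).repr x s‖ * N'.ext j (b.exteriorPower j s)
      ≤ ‖(b.exteriorPower j).repr x s‖ *
          (Real.exp (j * dist N N') * N.ext j (b.exteriorPower j s)) :=
        mul_le_mul_of_nonneg_left h1 (norm_nonneg _)
    _ = Real.exp (j * dist N N') *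
          (‖(b.exteriorPower j).repr x s‖ * N.ext j (b.exteriorPower j s)) := by ring
    _ ≤ Real.exp (j * dist N N') * N.ext j x :=
        mul_le_mul_of_nonneg_left (hb.ext j x s) (Real.exp_pos _).le

/-- The exterior powers are Lipschitz. PROOF: orthogonal basis `b` of `N`; `N'.ext (b_s)
≤ ∏ N' (b i) ≤ exp (j dist) ∏ N (b i)`. -/
theorem Nm.dist_ext (N N' : Nm k V) (j : ℕ) : dist (N.ext j) (N'.ext j) ≤ j * dist N N' := by
  refine Nm.dist_le (fun x hx => ?_) (mul_nonneg (Nat.cast_nonneg _) dist_nonneg)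
  have hN := (N.ext j).pos hx
  have hN' := (N'.ext j).pos hx
  have h1 := Real.log_le_log hN' (ext_le_aux N N' j x)
  have h2 := Real.log_le_log hN (ext_le_aux N' N j x)
  rw [Real.log_mul (Real.exp_ne_zero _) hN.ne', Real.log_exp] at h1
  rw [Real.log_mul (Real.exp_ne_zero _) hN'.ne', Real.log_exp, dist_comm] at h2
  rw [abs_le]
  constructor <;> linarith

private theorem lop_lip_aux {V' : Type} [AddCommGroup V'] [Module k V'] [FiniteDimensional k V']
    {T : V →ₗ[k] V'} (hT : T ≠ 0) (N M : Nm k V) (N' M' : Nm k V') :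
    lop T N N' ≤ lop T M M' + (dist N M + dist N' M') := by
  refine lop_le hT fun v hv => ?_
  have h1 := (abs_le.1 (N'.log_le_dist M' (T v))).2
  have h2 := log_le_lop hv M M'
  have h3 := (abs_le.1 (N.log_le_dist M v)).1
  linarith

/-- Joint Lipschitz bound of `lop`. -/
theorem lop_lip {V' : Type} [AddCommGroup V'] [Module k V'] [FiniteDimensional k V']
    {T : V →ₗ[k] V'} (hT : T ≠ 0) (N M : Nm k V) (N' M' : Nm k V') :
    |lop T N N' - lop T M M'| ≤ dist N M + dist N' M' := by
  have h1 := lop_lip_aux hT N M N' M'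
  have h2 := lop_lip_aux hT M N M' N'
  rw [dist_comm M N, dist_comm M' N'] at h2
  rw [abs_le]
  constructor <;> linarith

private theorem lop_zero_aux {V' : Type} [AddCommGroup V'] [Module k V'] [FiniteDimensional k V']
    (N : Nm k V) (N' : Nm k V') : lop (0 : V →ₗ[k] V') N N' = 0 := by
  unfold lop opn
  simp

private theorem lop_lip0 {V' : Type} [AddCommGroup V'] [Module k V'] [FiniteDimensional k V']
    (T : V →ₗ[k] V') (N M : Nm k V) (N' M' : Nm k V') :
    |lop T N N' - lop T M M'| ≤ dist N M + dist N' M' := by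
  by_cases hT : T = 0
  · rw [hT, lop_zero_aux, lop_zero_aux, sub_self, abs_zero]
    exact add_nonneg dist_nonneg dist_nonneg
  · exact lop_lip hT N M N' M'

private theorem DD_lip0 (j : ℕ) (N M N' M' : Nm k V) :
    |DD j N N' - DD j M M'| ≤ j * (dist N M + dist N' M') := by
  refine (lop_lip0 _ _ _ _ _).trans ?_
  have h1 := N.dist_ext M j
  have h2 := N'.dist_ext M' j
  rw [mul_add]
  exact add_le_add h1 h2

theorem Dj_lip {p : V →ₗ[k] V} {j : ℕ} (hp : exteriorPower.map j p ≠ 0) (N M N' M' : Nm k V) :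
    |Dj p j N N' - Dj p j M M'| ≤ j * (dist N M + dist N' M') := by
  refine (lop_lip hp _ _ _ _).trans ?_
  have h1 := N.dist_ext M j
  have h2 := N'.dist_ext M' j
  rw [mul_add]
  exact add_le_add h1 h2

theorem Nm.lv_lip (N N' : Nm k V) : |N.lv - N'.lv| ≤ finrank k V * dist N N' :=
  ((N.ext _).log_le_dist (N'.ext _) _).trans (N.dist_ext N' _)

private theorem dist_le_aux {N N' : Nm k V} {b : Basis (Fin (finrank k V)) k V} (hb : IsOrth N b)
    {r : ℝ} (h : ∀ i, Real.log (N (b i)) - Real.log (N' (b i)) ≤ r) (hb' : IsOrth N' b) {v : V}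
    (hv : v ≠ 0) : Real.log (N v) - Real.log (N' v) ≤ r := by
  obtain ⟨i, hi, hi0⟩ := hb.exists_eq hv
  have h1 := hb' v i
  have hc : 0 < ‖b.repr v i‖ := norm_pos_iff.2 hi0
  have hN := N.pos (b.ne_zero i)
  have hN' := N'.pos (b.ne_zero i)
  have h2 := Real.log_le_log (mul_pos hc hN') h1
  rw [Real.log_mul hc.ne' hN'.ne'] at h2
  rw [← hi, Real.log_mul hc.ne' hN.ne']
  have h3 := h i
  linarith

theorem dist_sq_le_Phi (N N' : Nm k V) : dist N N' ^ 2 ≤ Phi N N' := by
  obtain ⟨b, hb, hb', -⟩ := exists_orth2 N N'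
  have hP := Phi_eq hb hb'
  have h0 := Phi_nonneg N N'
  have h1 : ∀ i, |Real.log (N (b i)) - Real.log (N' (b i))| ≤ Real.sqrt (Phi N N') := by
    intro i
    rw [← Real.sqrt_sq_eq_abs]
    refine Real.sqrt_le_sqrt ?_
    rw [hP]
    have h2 : (Real.log (N (b i)) - Real.log (N' (b i))) ^ 2 =
        Real.log (N' (b i) / N (b i)) ^ 2 := by
      rw [Real.log_div (N'.pos (b.ne_zero i)).ne' (N.pos (b.ne_zero i)).ne']
      ring
    rw [h2]
    exact Finset.single_le_sum (f := fun i => Real.log (N' (b i) / N (b i)) ^ 2)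
      (fun i _ => sq_nonneg _) (Finset.mem_univ i)
  have h2 : dist N N' ≤ Real.sqrt (Phi N N') := by
    refine Nm.dist_le (fun v hv => ?_) (Real.sqrt_nonneg _)
    rw [abs_le]
    constructor
    · have := dist_le_aux hb' (N' := N) (r := Real.sqrt (Phi N N'))
        (fun i => by have := (abs_le.1 (h1 i)).1; linarith) hb hv
      linarith
    · exact dist_le_aux hb (fun i => (abs_le.1 (h1 i)).2) hb' hv
  calc dist N N' ^ 2 ≤ Real.sqrt (Phi N N') ^ 2 :=
        pow_le_pow_left₀ dist_nonneg h2 2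
    _ = Phi N N' := Real.sq_sqrt h0

theorem Phi_le_dist_sq (N N' : Nm k V) : Phi N N' ≤ finrank k V * dist N N' ^ 2 := by
  obtain ⟨b, hb, hb', -⟩ := exists_orth2 N N'
  rw [Phi_eq hb hb']
  calc ∑ i, Real.log (N' (b i) / N (b i)) ^ 2 ≤ ∑ _i : Fin (finrank k V), dist N N' ^ 2 := by
        refine Finset.sum_le_sum fun i _ => ?_
        rw [Real.log_div (N'.pos (b.ne_zero i)).ne' (N.pos (b.ne_zero i)).ne', ← sq_abs]
        refine pow_le_pow_left₀ (abs_nonneg _) ?_ 2
        rw [abs_sub_comm]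
        exact N.log_le_dist N' _
    _ = finrank k V * dist N N' ^ 2 := by
        rw [Finset.sum_const, Finset.card_univ, Fintype.card_fin, nsmul_eq_mul]

/-- PROOF: `Phi = ∑ λ_j²`, `|λ_j(N,M) - λ_j(N',M)| ≤ (2 j + 1) dist N N'`,
`|λ_j(N,M)| ≤ dist N M`. -/
theorem Phi_lip : ∃ C : ℝ, 1 ≤ C ∧ ∀ N N' M : Nm k V,
    |Phi N M - Phi N' M| ≤ C * dist N N' * (dist N M + dist N' M) := by
  set m := finrank k V with hm
  refine ⟨1 + ∑ j ∈ Finset.range m, (2 * (j : ℝ) + 1) ^ 2, ?_, ?_⟩
  · have : (0 : ℝ) ≤ ∑ j ∈ Finset.range m, (2 * (j : ℝ) + 1) ^ 2 :=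
      Finset.sum_nonneg fun _ _ => sq_nonneg _
    linarith
  intro N N' M
  have hself : ∀ (j : ℕ) (M : Nm k V), DD j M M = 0 := DD_self
  have hd : (0 : ℝ) ≤ dist N N' := dist_nonneg
  have hd1 : (0 : ℝ) ≤ dist N M := dist_nonneg
  have hd2 : (0 : ℝ) ≤ dist N' M := dist_nonneg
  have h1 : ∀ j : ℕ, |DD j N M - DD j N' M| ≤ j * dist N N' := by
    intro j
    have := DD_lip0 j N N' M M
    rwa [dist_self, add_zero] at this
  have h2 : ∀ (j : ℕ) (L : Nm k V), |DD j L M| ≤ j * dist L M := by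
    intro j L
    have := DD_lip0 j L M M M
    rwa [dist_self, add_zero, hself, sub_zero] at this
  have h3 : ∀ j : ℕ, |(DD (j + 1) N M - DD j N M) ^ 2 - (DD (j + 1) N' M - DD j N' M) ^ 2| ≤
      (2 * (j : ℝ) + 1) ^ 2 * (dist N N' * (dist N M + dist N' M)) := by
    intro j
    have e : (DD (j + 1) N M - DD j N M) ^ 2 - (DD (j + 1) N' M - DD j N' M) ^ 2 =
        ((DD (j + 1) N M - DD (j + 1) N' M) - (DD j N M - DD j N' M)) *
        ((DD (j + 1) N M - DD j N M) + (DD (j + 1) N' M - DD j N' M)) := by ring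
    rw [e, abs_mul]
    have a1 : |(DD (j + 1) N M - DD (j + 1) N' M) - (DD j N M - DD j N' M)| ≤
        (2 * (j : ℝ) + 1) * dist N N' := by
      have b1 := h1 (j + 1)
      have b2 := h1 j
      have b3 := abs_sub (DD (j + 1) N M - DD (j + 1) N' M) (DD j N M - DD j N' M)
      push_cast at b1
      linarith
    have a2 : |(DD (j + 1) N M - DD j N M) + (DD (j + 1) N' M - DD j N' M)| ≤
        (2 * (j : ℝ) + 1) * (dist N M + dist N' M) := by
      have b1 := h2 (j + 1) N
      have b2 := h2 j N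
      have b3 := h2 (j + 1) N'
      have b4 := h2 j N'
      have b5 := abs_sub (DD (j + 1) N M) (DD j N M)
      have b6 := abs_sub (DD (j + 1) N' M) (DD j N' M)
      have b7 := abs_add_le (DD (j + 1) N M - DD j N M) (DD (j + 1) N' M - DD j N' M)
      push_cast at b1 b3
      linarith
    calc _ ≤ ((2 * (j : ℝ) + 1) * dist N N') * ((2 * (j : ℝ) + 1) * (dist N M + dist N' M)) :=
          mul_le_mul a1 a2 (abs_nonneg _) (by positivity)
      _ = _ := by ring
  have h4 : |Phi N M - Phi N' M| ≤ ∑ j ∈ Finset.range m,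
      (2 * (j : ℝ) + 1) ^ 2 * (dist N N' * (dist N M + dist N' M)) := by
    unfold Phi
    rw [← Finset.sum_sub_distrib]
    refine (Finset.abs_sum_le_sum_abs _ _).trans (Finset.sum_le_sum fun j _ => h3 j)
  refine h4.trans ?_
  rw [← Finset.sum_mul]
  have h5 : 0 ≤ dist N N' * (dist N M + dist N' M) := by positivity
  calc _ ≤ (1 + ∑ j ∈ Finset.range m, (2 * (j : ℝ) + 1) ^ 2) *
        (dist N N' * (dist N M + dist N' M)) := by
        refine mul_le_mul_of_nonneg_right ?_ h5
        linarith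
    _ = _ := by ring

theorem Phi_act (e : V ≃ₗ[k] V) (N N' : Nm k V) : Phi (N.act e) (N'.act e) = Phi N N' := by
  obtain ⟨b, hb, hb', -⟩ := exists_orth2 N N'
  rw [Phi_eq hb hb', Phi_eq (hb.act e) (hb'.act e)]
  refine Finset.sum_congr rfl fun i _ => ?_
  simp

end Pool.Agent.Lib.MP_5d4057_al.IN
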