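import Pool.Agent.Lib.MP_5d4057_al.IN.OneStep
import Pool.Agent.Lib.MP_5d4057_al.IN.NmG

/-! Blocks (part C): idempotents `p` orthogonal for a norm, restriction to `range p`. -/

namespace Pool.Agent.Lib.MP_5d4057_al.IN

open Module

variable {k : Type} [NontriviallyNormedField k] [IsUltrametricDist k] [ProperSpace k]
  {V : Type} [AddCommGroup V] [Module k V] [FiniteDimensional k V]

/-- A block: a nonzero idempotent. -/
structure IsBlk (p : V →ₗ[k] V) : Prop where
  idem : p ∘ₗ p = p
  ne : p ≠ 0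

/-- `p` is orthogonal for `N`: `V = range p ⊕ ker p` is an orthogonal decomposition. -/
def OrthP (N : Nm k V) (p : V →ₗ[k] V) : Prop := ∀ v, N (p v) ≤ N v

/-- The rank. -/
noncomputable def rk (p : V →ₗ[k] V) : ℕ := finrank k (LinearMap.range p)

/-- The restriction of a norm to `range p`. -/
noncomputable def rs (p : V →ₗ[k] V) (N : Nm k V) : Nm k (LinearMap.range p) :=
  N.res (LinearMap.range p)

/-- The logarithm of the volume of `range p`. -/
noncomputable def av (p : V →ₗ[k] V) (N : Nm k V) : ℝ := (rs p N).lv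

theorem IsBlk.rk_pos {p : V →ₗ[k] V} (hp : IsBlk p) : 0 < rk p := by
  refine Nat.pos_of_ne_zero fun h => hp.ne ?_
  exact LinearMap.range_eq_bot.1 (Submodule.finrank_eq_zero.1 h)

theorem OrthP.compl {N : Nm k V} {p : V →ₗ[k] V} (h : OrthP N p) (v : V) : N (v - p v) ≤ N v :=
  (N.sub_le v (p v)).trans (max_le le_rfl (h v))

/-- `N v = max (N (p v)) (N (v - p v))`. -/
theorem OrthP.eq_max {N : Nm k V} {p : V →ₗ[k] V} (h : OrthP N p) (v : V) :
    N v = max (N (p v)) (N (v - p v)) := by
  refine le_antisymm ?_ (max_le (h v) (h.compl v))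
  have h1 := N.add_le (p v) (v - p v)
  rwa [add_sub_cancel] at h1

/-- The exterior powers of `p` are contractions for the exterior norms. Proof: for an orthogonal basis `b` of
`N`, `N^j (p b_(i₁) ∧ ..) ≤ ∏ N (p b_i) ≤ ∏ N (b_i)` (`Nm.vol_le`). -/
theorem OrthP.ext_le {N : Nm k V} {p : V →ₗ[k] V} (h : OrthP N p) (j : ℕ) (x : ⋀[k]^j V) :
    N.ext j (exteriorPower.map j p x) ≤ N.ext j x := by
  obtain ⟨b, hb⟩ := exists_orth N
  have h1 := (hb.ext j).map_le (exteriorPower.map j p) (N.ext j) zero_le_one (fun s => ?_) x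
  · rwa [one_mul] at h1
  · have hinj : Function.Injective (Set.powersetCard.ofFinEmbEquiv.symm s) :=
      (Set.powersetCard.ofFinEmbEquiv.symm s).injective
    have h2 := (hb.orthF hinj).vol_eq
    rw [one_mul, exteriorPower.basis_apply, exteriorPower.ιMulti_family,
      exteriorPower.map_apply_ιMulti]
    change N.vol _ ≤ N.vol _
    refine (N.vol_le _).trans ?_
    refine le_trans (Finset.prod_le_prod (fun l _ => N.nonneg _) fun l _ => ?_) h2.ge
    exact h _

/-- The restriction of the exterior norm. -/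
private theorem rs_ext_aux (p : V →ₗ[k] V) (N : Nm k V) (j : ℕ) (x : ⋀[k]^j (LinearMap.range p)) :
    (rs p N).ext j x = N.ext j (exteriorPower.map j (LinearMap.range p).subtype x) :=
  Nm.ext_comap N _ (Submodule.subtype_injective _) j x

private theorem ext_rs_map (p : V →ₗ[k] V) (N : Nm k V) (j : ℕ) (x : ⋀[k]^j V) :
    (rs p N).ext j (exteriorPower.map j p.rangeRestrict x) = N.ext j (exteriorPower.map j p x) := by
  rw [rs_ext_aux]
  congr 1
  have h1 := LinearMap.congr_fun
    (exteriorPower.map_comp (n := j) p.rangeRestrict (LinearMap.range p).subtype) x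
  rw [LinearMap.comp_apply] at h1
  exact h1.symm

omit [IsUltrametricDist k] [ProperSpace k] [FiniteDimensional k V] in
private theorem IsBlk.restr_subtype {p : V →ₗ[k] V} (hp : IsBlk p) :
    p.rangeRestrict ∘ₗ (LinearMap.range p).subtype = LinearMap.id := by
  refine LinearMap.ext fun w => Subtype.ext ?_
  obtain ⟨_, v, rfl⟩ := w
  exact LinearMap.congr_fun hp.idem v

omit [IsUltrametricDist k] [ProperSpace k] [FiniteDimensional k V] in
private theorem map_map_subtype {p : V →ₗ[k] V} (hp : IsBlk p) (j : ℕ)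
    (x : ⋀[k]^j (LinearMap.range p)) :
    exteriorPower.map j p (exteriorPower.map j (LinearMap.range p).subtype x) =
      exteriorPower.map j (LinearMap.range p).subtype x := by
  have h1 : p ∘ₗ (LinearMap.range p).subtype = (LinearMap.range p).subtype := by
    refine LinearMap.ext fun w => ?_
    obtain ⟨_, v, rfl⟩ := w
    exact LinearMap.congr_fun hp.idem v
  have h2 := LinearMap.congr_fun
    (exteriorPower.map_comp (n := j) (LinearMap.range p).subtype p) x
  rw [h1] at h2
  exact h2.symm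

/-- `log |Λ^j p|` is the position function of the restrictions. Proof:
`exteriorPower.map j p = map j subtype ∘ map j p.rangeRestrict`, `Nm.ext_comap`; `≤`: `OrthP.ext_le`;
`≥`: `p` is the identity on its range. -/
theorem Dj_eq_DD {N N' : Nm k V} {p : V →ₗ[k] V} (hp : IsBlk p) (h : OrthP N p) {j : ℕ}
    (hj : j ≤ rk p) : Dj p j N N' = DD j (rs p N) (rs p N') := by
  have _ := hj
  refine congrArg Real.log (le_antisymm ?_ ?_)
  · refine opn_le (opn_nonneg _ _ _) fun x => ?_
    have h1 := le_opn (exteriorPower.map j LinearMap.id) ((rs p N).ext j) ((rs p N').ext j)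
      (exteriorPower.map j p.rangeRestrict x)
    rw [exteriorPower.map_id, LinearMap.id_apply, ext_rs_map, ext_rs_map] at h1
    rw [exteriorPower.map_id]
    exact h1.trans (mul_le_mul_of_nonneg_left (h.ext_le j x) (opn_nonneg _ _ _))
  · refine opn_le (opn_nonneg _ _ _) fun x => ?_
    have h1 := le_opn (exteriorPower.map j p) (N.ext j) (N'.ext j)
      (exteriorPower.map j (LinearMap.range p).subtype x)
    rw [map_map_subtype hp] at h1
    rw [exteriorPower.map_id, LinearMap.id_apply, rs_ext_aux, rs_ext_aux]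
    exact h1

/-- The restriction of the exterior norm. -/
theorem rs_ext (p : V →ₗ[k] V) (N : Nm k V) (j : ℕ) (x : ⋀[k]^j (LinearMap.range p)) :
    (rs p N).ext j x = N.ext j (exteriorPower.map j (LinearMap.range p).subtype x) :=
  Nm.ext_comap N _ (Submodule.subtype_injective _) j x

/-- The dual norms of the restriction. -/
theorem rs_dual {N : Nm k V} {p : V →ₗ[k] V} (hp : IsBlk p) (h : OrthP N p) {j : ℕ}
    (ξ : (⋀[k]^j (LinearMap.range p)) →ₗ[k] k) :
    lop (ξ ∘ₗ exteriorPower.map j p.rangeRestrict) (N.ext j) (Nm.abs k) =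
      lop ξ ((rs p N).ext j) (Nm.abs k) := by
  refine congrArg Real.log (le_antisymm ?_ ?_)
  · refine opn_le (opn_nonneg _ _ _) fun x => ?_
    have h1 := le_opn ξ ((rs p N).ext j) (Nm.abs k) (exteriorPower.map j p.rangeRestrict x)
    rw [ext_rs_map] at h1
    exact h1.trans (mul_le_mul_of_nonneg_left (h.ext_le j x) (opn_nonneg _ _ _))
  · refine opn_le (opn_nonneg _ _ _) fun x => ?_
    have h1 := le_opn (ξ ∘ₗ exteriorPower.map j p.rangeRestrict) (N.ext j) (Nm.abs k)
      (exteriorPower.map j (LinearMap.range p).subtype x)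
    have h2 := LinearMap.congr_fun
      (exteriorPower.map_comp (n := j) (LinearMap.range p).subtype p.rangeRestrict) x
    rw [hp.restr_subtype, exteriorPower.map_id, LinearMap.id_apply, LinearMap.comp_apply] at h2
    rw [LinearMap.comp_apply, ← h2, ← rs_ext_aux] at h1
    exact h1

theorem map_ne_zero {p : V →ₗ[k] V} (hp : IsBlk p) {j : ℕ} (hj : j ≤ rk p) :
    exteriorPower.map j p ≠ 0 := by
  intro h0
  have hf : LinearIndependent k (fun i : Fin j => finBasis k (LinearMap.range p)
      (Fin.castLE (show j ≤ finrank k (LinearMap.range p) from hj) i)) :=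
    (finBasis k (LinearMap.range p)).linearIndependent.comp _ (Fin.castLE_injective _)
  have hf' : LinearIndependent k (fun i : Fin j => (finBasis k (LinearMap.range p)
      (Fin.castLE (show j ≤ finrank k (LinearMap.range p) from hj) i) : V)) :=
    hf.map' (LinearMap.range p).subtype (Submodule.ker_subtype _)
  have N : Nm k V := Nm.ofBasis (finBasis k V) (fun _ => 1) fun _ => one_pos
  have h1 := N.vol_pos hf'
  have h2 := LinearMap.congr_fun h0 (exteriorPower.ιMulti k j (fun i : Fin j =>
    (finBasis k (LinearMap.range p)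
      (Fin.castLE (show j ≤ finrank k (LinearMap.range p) from hj) i) : V)))
  rw [exteriorPower.map_apply_ιMulti, LinearMap.zero_apply] at h2
  have h3 : (p ∘ fun i : Fin j => (finBasis k (LinearMap.range p)
      (Fin.castLE (show j ≤ finrank k (LinearMap.range p) from hj) i) : V)) =
      fun i : Fin j => (finBasis k (LinearMap.range p)
      (Fin.castLE (show j ≤ finrank k (LinearMap.range p) from hj) i) : V) := by
    funext i
    obtain ⟨v, hv⟩ := (finBasis k (LinearMap.range p)
      (Fin.castLE (show j ≤ finrank k (LinearMap.range p) from hj) i)).2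
    rw [Function.comp_apply, ← hv]
    exact LinearMap.congr_fun hp.idem v
  rw [h3] at h2
  rw [Nm.vol, h2, Nm.zero] at h1
  exact lt_irrefl _ h1

/-- The block `subtype ∘ q ∘ p` of an idempotent `q` of `range p`. -/
noncomputable def sbp (p : V →ₗ[k] V) (q : LinearMap.range p →ₗ[k] LinearMap.range p) : V →ₗ[k] V :=
  (LinearMap.range p).subtype ∘ₗ q ∘ₗ p.rangeRestrict

omit [IsUltrametricDist k] [ProperSpace k] [FiniteDimensional k V] in
private theorem range_sbp (p : V →ₗ[k] V) (q : LinearMap.range p →ₗ[k] LinearMap.range p) :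
    LinearMap.range (sbp p q) = (LinearMap.range q).map (LinearMap.range p).subtype := by
  rw [sbp, LinearMap.range_comp, LinearMap.range_comp_of_range_eq_top]
  exact LinearMap.range_rangeRestrict p

theorem isBlk_sbp {p : V →ₗ[k] V} (hp : IsBlk p) {q : LinearMap.range p →ₗ[k] LinearMap.range p}
    (hq : q ∘ₗ q = q) (h0 : q ≠ 0) : IsBlk (sbp p q) := by
  refine ⟨?_, fun h => h0 ?_⟩
  · refine LinearMap.ext fun v => ?_
    have h1 := LinearMap.congr_fun hp.restr_subtype (q (p.rangeRestrict v))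
    have h2 := LinearMap.congr_fun hq (p.rangeRestrict v)
    rw [LinearMap.comp_apply, LinearMap.id_apply] at h1
    rw [LinearMap.comp_apply] at h2
    simp only [sbp, LinearMap.comp_apply]
    rw [h1, h2]
  · refine LinearMap.ext fun w => Subtype.ext ?_
    have h1 := LinearMap.congr_fun h (w : V)
    have h2 := LinearMap.congr_fun hp.restr_subtype w
    rw [LinearMap.comp_apply, LinearMap.id_apply, Submodule.subtype_apply] at h2
    rw [sbp, LinearMap.comp_apply, LinearMap.comp_apply, h2] at h1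
    exact h1

theorem rk_sbp {p : V →ₗ[k] V} (hp : IsBlk p) (q : LinearMap.range p →ₗ[k] LinearMap.range p) :
    rk (sbp p q) = finrank k (LinearMap.range q) := by
  have _ := hp
  rw [rk, range_sbp]
  exact Submodule.finrank_map_subtype_eq _ _

theorem sbp_add {p : V →ₗ[k] V} (hp : IsBlk p) (q : LinearMap.range p →ₗ[k] LinearMap.range p) :
    sbp p q + sbp p (LinearMap.id - q) = p := by
  have _ := hp
  refine LinearMap.ext fun v => ?_
  simp [sbp]

theorem sbp_comp {p : V →ₗ[k] V} (hp : IsBlk p) {q : LinearMap.range p →ₗ[k] LinearMap.range p}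
    (hq : q ∘ₗ q = q) : sbp p q ∘ₗ sbp p (LinearMap.id - q) = 0 ∧
      sbp p (LinearMap.id - q) ∘ₗ sbp p q = 0 := by
  have h1 : ∀ w, p.rangeRestrict ((LinearMap.range p).subtype w) = w := fun w =>
    LinearMap.congr_fun hp.restr_subtype w
  have h2 : ∀ w, q (q w) = q w := fun w => LinearMap.congr_fun hq w
  constructor
  · refine LinearMap.ext fun v => ?_
    simp only [sbp, LinearMap.comp_apply, LinearMap.sub_apply, LinearMap.id_apply]
    rw [h1, map_sub q, h2, sub_self, map_zero, LinearMap.zero_apply]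
  · refine LinearMap.ext fun v => ?_
    simp only [sbp, LinearMap.comp_apply, LinearMap.sub_apply, LinearMap.id_apply]
    rw [h1, h2, sub_self, map_zero, LinearMap.zero_apply]

theorem OrthP.sbp {N : Nm k V} {p : V →ₗ[k] V} (hp : IsBlk p) (h : OrthP N p)
    {q : LinearMap.range p →ₗ[k] LinearMap.range p} (hq : OrthP (rs p N) q) :
    OrthP N (sbp p q) ∧ OrthP N (sbp p (LinearMap.id - q)) := by
  have _ := hp
  constructor
  · intro v
    have h1 := hq (p.rangeRestrict v)
    exact h1.trans (h v)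
  · intro v
    have h1 := hq.compl (p.rangeRestrict v)
    exact h1.trans (h v)

/-- The volume of a restriction in terms of a basis of the subspace. -/
private theorem lv_res (W : Submodule k V) {j : ℕ} (w : Basis (Fin j) k W) :
    ∃ C : ℝ, ∀ N : Nm k V, (N.res W).lv = Real.log (N.vol fun i => (w i : V)) + C := by
  have hj : finrank k W = j := by rw [finrank_eq_card_basis w, Fintype.card_fin]
  subst hj
  refine ⟨Real.log ‖(Matrix.of fun i l => w.repr (finBasis k W i) l).det‖, fun N => ?_⟩
  have h1 := (N.res W).vol_matrix (fun i => w i) (Matrix.of fun i l => w.repr (finBasis k W i) l)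
  have h2 : (fun i => ∑ l, (Matrix.of fun i l => w.repr (finBasis k W i) l) i l • w l) =
      finBasis k W := by
    funext i
    exact w.sum_repr _
  have h3 : (N.res W).vol (fun i => w i) = N.vol fun i => (w i : V) := by
    rw [Nm.vol, Nm.res, Nm.ext_comap, exteriorPower.map_apply_ιMulti]
    rfl
  rw [h2, h3] at h1
  have h4 : 0 < (N.res W).vol (finBasis k W) := (N.res W).vol_pos (finBasis k W).linearIndependent
  have h5 : 0 < N.vol fun i => (w i : V) := by
    rw [← h3]
    exact (N.res W).vol_pos w.linearIndependent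
  have h6 : ‖(Matrix.of fun i l => w.repr (finBasis k W i) l).det‖ ≠ 0 := by
    intro h0
    rw [h0, zero_mul] at h1
    exact h4.ne' h1
  rw [Nm.lv, h1, Real.log_mul h6 h5.ne', add_comm]

private theorem lv_res_span {W : Submodule k V} {j : ℕ} {w : Fin j → V}
    (hw : LinearIndependent k w) (hW : Submodule.span k (Set.range w) = W) :
    ∃ C : ℝ, ∀ N : Nm k V, (N.res W).lv = Real.log (N.vol w) + C := by
  subst hW
  obtain ⟨C, hC⟩ := lv_res _ (Basis.span hw)
  refine ⟨C, fun N => ?_⟩
  rw [hC]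
  congr 3
  funext i
  exact congrArg Subtype.val (Basis.span_apply hw i)

omit [IsUltrametricDist k] [ProperSpace k] [FiniteDimensional k V] in
private theorem range_prj {m : ℕ} (b : Basis (Fin m) k V) (s : Finset (Fin m)) :
    LinearMap.range (prj b s) = Submodule.span k (b '' s) := by
  rw [prj, Basis.constr_range]
  apply le_antisymm
  · rw [Submodule.span_le]
    rintro _ ⟨i, rfl⟩
    by_cases hi : i ∈ s
    · simp only [hi, if_true]
      exact Submodule.subset_span ⟨i, hi, rfl⟩
    · simp only [hi, if_false]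
      exact Submodule.zero_mem _
  · rw [Submodule.span_le]
    rintro _ ⟨i, hi, rfl⟩
    refine Submodule.subset_span ⟨i, ?_⟩
    have hi' : i ∈ s := hi
    simp only [hi', if_true]

/-- The volume of the range of `sbp p (prj b s)` is the exterior norm of `b_s`, up to a constant. -/
theorem av_sbp_prj {p : V →ₗ[k] V} (hp : IsBlk p) (b : Basis (Fin (rk p)) k (LinearMap.range p))
    {j : ℕ} (s : Set.powersetCard (Fin (rk p)) j) : ∃ C : ℝ, ∀ N : Nm k V,
      av (sbp p (prj b s.1)) N = Real.log ((rs p N).ext j (b.exteriorPower j s)) + C := by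
  have _ := hp
  have hinj : Function.Injective (Set.powersetCard.ofFinEmbEquiv.symm s) :=
    (Set.powersetCard.ofFinEmbEquiv.symm s).injective
  have hli : LinearIndependent k (fun l : Fin j =>
      (b (Set.powersetCard.ofFinEmbEquiv.symm s l) : V)) :=
    (b.linearIndependent.comp _ hinj).map' (LinearMap.range p).subtype (Submodule.ker_subtype _)
  have hsp : Submodule.span k (Set.range (fun l : Fin j =>
      (b (Set.powersetCard.ofFinEmbEquiv.symm s l) : V))) =
      LinearMap.range (sbp p (prj b s.1)) := by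
    rw [range_sbp, range_prj, Submodule.map_span]
    congr 1
    ext v
    constructor
    · rintro ⟨l, rfl⟩
      refine ⟨_, ⟨Set.powersetCard.ofFinEmbEquiv.symm s l, ?_, rfl⟩, rfl⟩
      exact (Set.powersetCard.mem_range_ofFinEmbEquiv_symm_iff_mem s _).1 ⟨l, rfl⟩
    · rintro ⟨_, ⟨i, hi, rfl⟩, rfl⟩
      obtain ⟨l, hl⟩ := (Set.powersetCard.mem_range_ofFinEmbEquiv_symm_iff_mem s i).2 hi
      exact ⟨l, congrArg (fun i => ((b i : LinearMap.range p) : V)) hl⟩
  obtain ⟨C, hC⟩ := lv_res_span hli hsp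
  refine ⟨C, fun N => ?_⟩
  have h1 : (rs p N).ext j (b.exteriorPower j s) = N.vol (fun l : Fin j =>
      (b (Set.powersetCard.ofFinEmbEquiv.symm s l) : V)) := by
    rw [rs_ext_aux, exteriorPower.basis_apply, exteriorPower.ιMulti_family,
      exteriorPower.map_apply_ιMulti]
    rfl
  rw [h1]
  exact hC N

private theorem sum_orth {N : Nm k V} {W₁ W₂ : Submodule k V}
    (h1 : ∀ x ∈ W₁, ∀ y ∈ W₂, N x ≤ N (x + y)) (h2 : ∀ x ∈ W₁, ∀ y ∈ W₂, N y ≤ N (x + y))
    {a b : ℕ} {u : Fin a → V} {u' : Fin b → V} (hu : OrthF N u) (hu' : OrthF N u')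
    (hm : ∀ i, u i ∈ W₁) (hm' : ∀ i, u' i ∈ W₂) : OrthF N (Fin.append u u') := by
  constructor
  · intro i
    refine Fin.addCases (fun i => ?_) (fun i => ?_) i
    · rw [Fin.append_left]
      exact hu.1 i
    · rw [Fin.append_right]
      exact hu'.1 i
  · intro c i
    rw [Fin.sum_univ_add]
    simp only [Fin.append_left, Fin.append_right]
    have m1 : ∑ l, c (Fin.castAdd b l) • u l ∈ W₁ :=
      W₁.sum_mem fun l _ => W₁.smul_mem _ (hm l)
    have m2 : ∑ l, c (Fin.natAdd a l) • u' l ∈ W₂ :=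
      W₂.sum_mem fun l _ => W₂.smul_mem _ (hm' l)
    refine Fin.addCases (fun i => ?_) (fun i => ?_) i
    · rw [Fin.append_left]
      exact (hu.2 (fun l => c (Fin.castAdd b l)) i).trans (h1 _ m1 _ m2)
    · rw [Fin.append_right]
      exact (hu'.2 (fun l => c (Fin.natAdd a l)) i).trans (h2 _ m1 _ m2)

private theorem exists_orth_tuple (N : Nm k V) (W : Submodule k V) {a : ℕ}
    (w : Basis (Fin a) k W) : ∃ u : Fin a → V, OrthF N u ∧ (∀ i, u i ∈ W) ∧
      ∃ A : Matrix (Fin a) (Fin a) k, ∀ i, (w i : V) = ∑ l, A i l • u l := by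
  have ha : finrank k W = a := by rw [finrank_eq_card_basis w, Fintype.card_fin]
  subst ha
  obtain ⟨b, hb⟩ := exists_orth (N.res W)
  refine ⟨fun i => (b i : V), ?_, fun i => (b i).2, fun i l => b.repr (w i) l, fun i => ?_⟩
  · have h1 := hb.orthF (s := id) Function.injective_id
    refine ⟨fun i h => h1.1 i (Subtype.ext h), fun c i => ?_⟩
    have h2 := h1.2 c i
    rw [Nm.res_apply, Nm.res_apply, AddSubmonoidClass.coe_finsetSum] at h2
    exact h2
  · have h1 := congrArg (fun x : W => (x : V)) (b.sum_repr (w i))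
    simp only [AddSubmonoidClass.coe_finsetSum] at h1
    exact h1.symm

private theorem vol_append_eq {N : Nm k V} {W₁ W₂ : Submodule k V}
    (h1 : ∀ x ∈ W₁, ∀ y ∈ W₂, N x ≤ N (x + y)) (h2 : ∀ x ∈ W₁, ∀ y ∈ W₂, N y ≤ N (x + y))
    {a b : ℕ} (w : Basis (Fin a) k W₁) (w' : Basis (Fin b) k W₂) :
    N.vol (Fin.append (fun i => (w i : V)) fun i => (w' i : V)) =
      N.vol (fun i => (w i : V)) * N.vol fun i => (w' i : V) := by
  obtain ⟨u, hu, hm, A, hA⟩ := exists_orth_tuple N W₁ w
  obtain ⟨u', hu', hm', D, hD⟩ := exists_orth_tuple N W₂ w'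
  have e1 : (fun i => (w i : V)) = fun i => ∑ l, A i l • u l := funext hA
  have e2 : (fun i => (w' i : V)) = fun i => ∑ l, D i l • u' l := funext hD
  have e3 : Fin.append (fun i => (w i : V)) (fun i => (w' i : V)) = fun i => ∑ l,
      ((Matrix.fromBlocks A 0 0 D).submatrix finSumFinEquiv.symm finSumFinEquiv.symm) i l •
        Fin.append u u' l := by
    funext i
    refine Fin.addCases (fun i => ?_) (fun i => ?_) i
    · rw [Fin.append_left, Fin.sum_univ_add, hA]
      simp
    · rw [Fin.append_right, Fin.sum_univ_add, hD]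
      simp
  have e4 : N.vol (Fin.append u u') = N.vol u * N.vol u' := by
    rw [(sum_orth h1 h2 hu hu' hm hm').vol_eq, hu.vol_eq, hu'.vol_eq, Fin.prod_univ_add]
    simp only [Fin.append_left, Fin.append_right]
  rw [e3, N.vol_matrix, Matrix.det_submatrix_equiv_self, Matrix.det_fromBlocks_zero₂₁, e1, e2,
    N.vol_matrix, N.vol_matrix, e4, norm_mul]
  ring

/-- Additivity of the volume for an orthogonal decomposition: there is a constant with
`av p₁ N + av p₂ N = av p N + C` whenever `p₁`, `p₂` are orthogonal for `N`, `p = p₁ + p₂`,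
`p₁ p₂ = p₂ p₁ = 0`. -/
theorem av_add {p p₁ p₂ : V →ₗ[k] V} (hp₁ : IsBlk p₁) (hp₂ : IsBlk p₂) (hadd : p₁ + p₂ = p)
    (h12 : p₁ ∘ₗ p₂ = 0) (h21 : p₂ ∘ₗ p₁ = 0) : ∃ C : ℝ, ∀ N : Nm k V, OrthP N p₁ → OrthP N p₂ →
      av p₁ N + av p₂ N = av p N + C := by
  obtain ⟨W₁, hW₁⟩ : ∃ W₁, W₁ = LinearMap.range p₁ := ⟨_, rfl⟩
  obtain ⟨W₂, hW₂⟩ : ∃ W₂, W₂ = LinearMap.range p₂ := ⟨_, rfl⟩
  obtain ⟨w, -⟩ : ∃ w : Basis (Fin (finrank k W₁)) k W₁, True := ⟨finBasis k W₁, trivial⟩
  obtain ⟨w', -⟩ : ∃ w' : Basis (Fin (finrank k W₂)) k W₂, True := ⟨finBasis k W₂, trivial⟩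
  have i1 : ∀ x, p₁ (p₁ x) = p₁ x := fun x => LinearMap.congr_fun hp₁.idem x
  have i2 : ∀ x, p₂ (p₂ x) = p₂ x := fun x => LinearMap.congr_fun hp₂.idem x
  have i3 : ∀ x, p₁ (p₂ x) = 0 := fun x => LinearMap.congr_fun h12 x
  have i4 : ∀ x, p₂ (p₁ x) = 0 := fun x => LinearMap.congr_fun h21 x
  have i5 : ∀ x, p x = p₁ x + p₂ x := fun x => (LinearMap.congr_fun hadd x).symm
  have m1 : ∀ x ∈ W₁, p₁ x = x ∧ p₂ x = 0 := by
    intro x hx
    rw [hW₁] at hx
    obtain ⟨y, rfl⟩ := hx
    exact ⟨i1 y, i4 y⟩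
  have m2 : ∀ x ∈ W₂, p₂ x = x ∧ p₁ x = 0 := by
    intro x hx
    rw [hW₂] at hx
    obtain ⟨y, rfl⟩ := hx
    exact ⟨i2 y, i3 y⟩
  have hsup : W₁ ⊔ W₂ = LinearMap.range p := by
    apply le_antisymm
    · refine sup_le (fun x hx => ⟨x, ?_⟩) (fun x hx => ⟨x, ?_⟩)
      · rw [i5, (m1 x hx).1, (m1 x hx).2, add_zero]
      · rw [i5, (m2 x hx).1, (m2 x hx).2, zero_add]
    · rintro _ ⟨x, rfl⟩
      rw [i5]
      refine Submodule.add_mem_sup ?_ ?_
      · rw [hW₁]
        exact ⟨x, rfl⟩
      · rw [hW₂]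
        exact ⟨x, rfl⟩
  have hdis : Disjoint W₁ W₂ := by
    rw [Submodule.disjoint_def]
    intro x hx hx'
    rw [← (m1 x hx).1, (m2 x hx').2]
  have s1 : Submodule.span k (Set.range fun i => (w i : V)) = W₁ := by
    have h := congrArg (Submodule.map W₁.subtype) w.span_eq
    rw [Submodule.map_span, Submodule.map_top, Submodule.range_subtype, ← Set.range_comp] at h
    exact h
  have s2 : Submodule.span k (Set.range fun i => (w' i : V)) = W₂ := by
    have h := congrArg (Submodule.map W₂.subtype) w'.span_eq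
    rw [Submodule.map_span, Submodule.map_top, Submodule.range_subtype, ← Set.range_comp] at h
    exact h
  have l1 : LinearIndependent k fun i => (w i : V) :=
    w.linearIndependent.map' W₁.subtype (Submodule.ker_subtype _)
  have l2 : LinearIndependent k fun i => (w' i : V) :=
    w'.linearIndependent.map' W₂.subtype (Submodule.ker_subtype _)
  have ha : Fin.append (fun i => (w i : V)) (fun i => (w' i : V)) =
      Sum.elim (fun i => (w i : V)) (fun i => (w' i : V)) ∘ finSumFinEquiv.symm := by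
    funext i
    refine Fin.addCases (fun i => ?_) (fun i => ?_) i
    · rw [Fin.append_left]
      simp
    · rw [Fin.append_right]
      simp
  have l3 : LinearIndependent k (Fin.append (fun i => (w i : V)) fun i => (w' i : V)) := by
    rw [ha]
    refine (LinearIndependent.sum_type l1 l2 ?_).comp _ finSumFinEquiv.symm.injective
    rw [s1, s2]
    exact hdis
  have s3 : Submodule.span k (Set.range (Fin.append (fun i => (w i : V)) fun i => (w' i : V))) =
      LinearMap.range p := by
    rw [ha, EquivLike.range_comp, Set.Sum.elim_range, Submodule.span_union, s1, s2, hsup]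
  obtain ⟨C, hC⟩ := lv_res_span l3 s3
  obtain ⟨C₁, hC₁⟩ := lv_res W₁ w
  obtain ⟨C₂, hC₂⟩ := lv_res W₂ w'
  refine ⟨C₁ + C₂ - C, fun N hN₁ hN₂ => ?_⟩
  have o1 : ∀ x ∈ W₁, ∀ y ∈ W₂, N x ≤ N (x + y) := by
    intro x hx y hy
    have h := hN₁ (x + y)
    rwa [map_add, (m1 x hx).1, (m2 y hy).2, add_zero] at h
  have o2 : ∀ x ∈ W₁, ∀ y ∈ W₂, N y ≤ N (x + y) := by
    intro x hx y hy
    have h := hN₂ (x + y)
    rwa [map_add, (m1 x hx).2, (m2 y hy).1, zero_add] at h
  have hv := vol_append_eq o1 o2 w w'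
  have e1 : av p₁ N = (N.res W₁).lv := by rw [hW₁]; rfl
  have e2 : av p₂ N = (N.res W₂).lv := by rw [hW₂]; rfl
  have e3 : av p N = (N.res (LinearMap.range p)).lv := rfl
  rw [e1, e2, e3, hC, hC₁, hC₂, hv, Real.log_mul (N.vol_pos l1).ne' (N.vol_pos l2).ne']
  ring

/-- `av p` is `rk p` Lipschitz. -/
theorem abs_av_sub_le (p : V →ₗ[k] V) (N N' : Nm k V) :
    |av p N - av p N'| ≤ rk p * dist N N' := by
  refine ((rs p N).lv_lip (rs p N')).trans (mul_le_mul_of_nonneg_left ?_ (Nat.cast_nonneg _))
  exact Nm.dist_le (fun v _ => N.log_le_dist N' (v : V)) dist_nonneg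

end Pool.Agent.Lib.MP_5d4057_al.IN
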