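import Pool.Agent.Lib.MP_5d4057_al.IN.CenY
import Pool.Agent.Lib.MP_5d4057_al.NU.LipN1

/-! Part B of INT: the centre and the uniform bound (B7, B8). -/

namespace Pool.Agent.Lib.MP_5d4057_al.IN

open MeasureTheory Filter Topology Pool.Agent.Lib.MP_5d4057_al
open Pool.Agent.Lib.MP_5d4057_al.Hyb Pool.Agent.Lib.MP_5d4057_al.HM
open Pool.Agent.Lib.MP_5d4057_al.NU

open scoped ENNReal

variable {n : ℕ} {Γ : Subgroup (SUGroup n)} {χ : SUGroup n → ℝ} {Y : Type} [MetricSpace Y]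
variable {Φ : Y → Y → ℝ} {κ : ℝ} {lv : Y → ℝ} {y₀ : Y} {ρ : Γ →* Equiv.Perm Y}

private theorem cb_ib (n : ℕ) (T : ℝ) :
    ∫⁻ g : SUGroup n, ib T g ∂(mu n) = (mu n) {g : SUGroup n | ch g ≤ T} := by
  have h := lint_ball T (fun _ : SUGroup n => (1 : ℝ≥0∞))
  simp only [mul_one, lintegral_const, MeasurableSet.univ, Measure.restrict_apply,
    Set.univ_inter, one_mul] at h
  exact h.symm

/-- Some point of a fixed ball has small oscillation at all scales. -/
private theorem cb_good (hχ : Lat Γ χ) (C₀ : ℝ) : ∃ K : ℝ → ℝ, (∀ T, 0 < K T) ∧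
    ∀ δ : Bool → Bool → SUGroup n → SUGroup n → ℝ, Psm Γ δ → Fd χ δ →
      (∀ x, dsp χ δ false false x ≤ C₀ * (Real.log (wt x) + 1)) →
      ∃ g₀ : SUGroup n, ch g₀ ≤ 2 ∧ ∀ T, ∫⁻ x, ib T x *
        ENNReal.ofReal (δ false false g₀ (g₀ * x) ^ 2) ∂(mu n) ≤ ENNReal.ofReal (K T) := by
  obtain ⟨s, hs⟩ : ∃ s : ℕ, s = n + 2 := ⟨_, rfl⟩
  have hcs : 0 < cs n s := cs_pos' (by omega)
  have hw : ∀ x : SUGroup n, 0 ≤ ch x ^ 2 - 1 := fun x => by
    have := one_le_ch x
    nlinarith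
  -- the bound of the total oscillation
  have hi0 : Integrable (fun x : SUGroup n => kap s x * (2 * C₀ ^ 2 * (ch x ^ 2 - 1) +
      2 * C₀ ^ 2)) (mu n) := by
    have h1 := integrable_mom (n := n) (s := s) (N := 0) (k := 1) (by omega)
    have h2 := integrable_kap (n := n) (s := s) (by omega)
    refine ((h1.const_mul (2 * C₀ ^ 2)).add (h2.const_mul (2 * C₀ ^ 2))).congr
      (ae_of_all _ fun x => ?_)
    simp only [mul_zero, pow_zero, one_mul, pow_one, Pi.add_apply]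
    ring
  obtain ⟨c1, hc1⟩ : ∃ c1 : ℝ, c1 = ∫ x : SUGroup n, kap s x * (2 * C₀ ^ 2 * (ch x ^ 2 - 1) +
      2 * C₀ ^ 2) ∂(mu n) := ⟨_, rfl⟩
  have hc10 : 0 ≤ c1 := by
    rw [hc1]
    refine integral_nonneg fun x => mul_nonneg (kap_nonneg s x) ?_
    have := hw x
    positivity
  -- the mass of the ball
  set B : Set (SUGroup n) := {g : SUGroup n | ch g ≤ 2} with hB
  have hBm : MeasurableSet B := DD.measurableSet_ball 2
  obtain ⟨c, hc, hcχ⟩ : ∃ c : ℝ, 0 < c ∧ ∀ g ∈ B, c ≤ χ g := by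
    obtain ⟨g0, -, hg0⟩ := (isCompact_ball (n := n) 2).exists_isMinOn ⟨1, by
      show ch (1 : SUGroup n) ≤ 2
      rw [ch_one]
      norm_num⟩ hχ.cont.continuousOn
    exact ⟨χ g0, hχ.pos g0, fun g hg => hg0 hg⟩
  have hb1 := DD.ball_pos (n := n)
  obtain ⟨b1, hb1d⟩ : ∃ b1 : ℝ, b1 = (mu n).real {x : SUGroup n | ch x ≤ 2} := ⟨_, rfl⟩
  rw [← hb1d] at hb1
  obtain ⟨c2, hc2⟩ : ∃ c2 : ℝ, c2 = (c1 + 1) / (c * b1) := ⟨_, rfl⟩
  have hc20 : 0 < c2 := by rw [hc2]; positivity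
  refine ⟨fun T => cs n s * (|T| + 1) ^ (2 * s) * c2, fun T => by positivity,
    fun δ hδ hF hd => ?_⟩
  have hcc : Continuous fun p : SUGroup n × SUGroup n => δ false false p.1 (p.1 * p.2) ^ 2 :=
    ((hδ.cont false false).comp (continuous_fst.prodMk (continuous_fst.mul continuous_snd))).pow 2
  have hcm : Measurable fun p : SUGroup n × SUGroup n =>
      ENNReal.ofReal (δ false false p.1 (p.1 * p.2) ^ 2) := hcc.measurable.ennreal_ofReal
  have hkm : Measurable fun x : SUGroup n => ENNReal.ofReal (kap s x) :=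
    (continuous_kap s).measurable.ennreal_ofReal
  set f : SUGroup n → ℝ≥0∞ := fun g => ∫⁻ x, ENNReal.ofReal (kap s x) *
    ENNReal.ofReal (δ false false g (g * x) ^ 2) ∂(mu n) with hf
  have htot : LI χ f ≤ ENNReal.ofReal c1 := by
    have e1 := LI_lintegral hχ hkm.aemeasurable
      (fun g x => ENNReal.ofReal (δ false false g (g * x) ^ 2)) hcm.aemeasurable
    rw [hf, e1, hc1, ofReal_integral_eq_lintegral_ofReal hi0 (ae_of_all _ fun x =>
      mul_nonneg (kap_nonneg s x) (by have := hw x; positivity))]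
    refine lintegral_mono fun x => ?_
    simp only [LI_sq hχ hδ hF false false x]
    rw [← ENNReal.ofReal_mul (kap_nonneg s x)]
    refine ENNReal.ofReal_le_ofReal (mul_le_mul_of_nonneg_left ?_ (kap_nonneg s x))
    have h1 := log_wt_le x
    have h2 : 0 ≤ Real.log (wt x) := Real.log_nonneg (one_le_wt x)
    have h3 := hd x
    have h4 : 0 ≤ dsp χ δ false false x := Real.sqrt_nonneg _
    have h5 : Real.sqrt (ch x ^ 2 - 1) ^ 2 = ch x ^ 2 - 1 := Real.sq_sqrt (hw x)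
    have h6 : dsp χ δ false false x ≤ |C₀| * (Real.sqrt (ch x ^ 2 - 1) + 1) := by
      refine h3.trans ((mul_le_mul_of_nonneg_right (le_abs_self C₀) (by linarith)).trans ?_)
      exact mul_le_mul_of_nonneg_left (by linarith) (abs_nonneg _)
    have h7 := pow_le_pow_left₀ h4 h6 2
    rw [mul_pow, sq_abs] at h7
    refine h7.trans ?_
    have h8 : (Real.sqrt (ch x ^ 2 - 1) + 1) ^ 2 ≤ 2 * (ch x ^ 2 - 1) + 2 := by
      nlinarith [sq_nonneg (Real.sqrt (ch x ^ 2 - 1) - 1)]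
    have h9 := mul_le_mul_of_nonneg_left h8 (sq_nonneg C₀)
    linarith
  -- a good point
  obtain ⟨g0, hg0, hf0⟩ : ∃ g ∈ B, f g ≤ ENNReal.ofReal c2 := by
    by_contra hno
    push Not at hno
    have h1 : ENNReal.ofReal (c1 + 1) ≤ LI χ f := by
      have hBf : (mu n) B ≠ ⊤ := (isCompact_ball 2).measure_lt_top.ne
      calc ENNReal.ofReal (c1 + 1) = ENNReal.ofReal (c * c2) * (mu n) B := by
            rw [← ENNReal.ofReal_toReal hBf, ← ENNReal.ofReal_mul (by positivity)]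
            congr 1
            have : ((mu n) B).toReal = b1 := hb1d.symm
            rw [this, hc2]
            field_simp
        _ = ∫⁻ _ in B, ENNReal.ofReal (c * c2) ∂(mu n) := by rw [setLIntegral_const]
        _ ≤ ∫⁻ g in B, ENNReal.ofReal (χ g) * f g ∂(mu n) := by
            refine setLIntegral_mono_ae' hBm (ae_of_all _ fun g hg => ?_)
            rw [ENNReal.ofReal_mul hc.le]
            exact mul_le_mul' (ENNReal.ofReal_le_ofReal (hcχ g hg)) (hno g hg).le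
        _ ≤ _ := setLIntegral_le_lintegral _ _
    have h2 := (ENNReal.ofReal_le_ofReal_iff hc10).1 (h1.trans htot)
    linarith
  refine ⟨g0, hg0, fun T => ?_⟩
  have hT0 : 0 ≤ |T| + 1 := by positivity
  have hpt : ∀ x : SUGroup n, ib T x ≤
      ENNReal.ofReal (cs n s * (|T| + 1) ^ (2 * s)) * ENNReal.ofReal (kap s x) := by
    intro x
    refine (ib_mono (show T ≤ |T| + 1 by linarith [le_abs_self T]) x).trans
      ((ib_le_pow hT0 s x).trans (le_of_eq ?_))
    rw [← ENNReal.ofReal_mul (by positivity), ← ENNReal.ofReal_mul (by positivity)]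
    congr 1
    unfold kap
    field_simp
  calc ∫⁻ x, ib T x * ENNReal.ofReal (δ false false g0 (g0 * x) ^ 2) ∂(mu n)
      ≤ ∫⁻ x, ENNReal.ofReal (cs n s * (|T| + 1) ^ (2 * s)) * (ENNReal.ofReal (kap s x) *
          ENNReal.ofReal (δ false false g0 (g0 * x) ^ 2)) ∂(mu n) := by
        refine lintegral_mono fun x => ?_
        rw [← mul_assoc]
        exact mul_le_mul_left (hpt x) _
    _ = ENNReal.ofReal (cs n s * (|T| + 1) ^ (2 * s)) * f g0 :=
        lintegral_const_mul' _ _ ENNReal.ofReal_ne_top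
    _ ≤ ENNReal.ofReal (cs n s * (|T| + 1) ^ (2 * s)) * ENNReal.ofReal c2 := by gcongr
    _ = _ := by rw [← ENNReal.ofReal_mul (by positivity)]

/-- Chebyshev: a point `x` such that `F` is small both at `x` and at `h x`. -/
private theorem cb_point {F : SUGroup n → ℝ} (hFc : Continuous F) {T c u : ℝ}
    {h : SUGroup n} (hT : 4 * ch h ≤ T) (hu : 0 < u) (hc0 : 0 ≤ c)
    (ho : ∫⁻ x, ib T x * ENNReal.ofReal (F x ^ 2) ∂(mu n) ≤ ENNReal.ofReal c)
    (hc : 2 * c < u ^ 2 * (mu n).real {x : SUGroup n | ch x ≤ 2}) :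
    ∃ x, F x ≤ u ∧ F (h * x) ≤ u := by
  by_contra hno
  push Not at hno
  set B1 := {x : SUGroup n | ch x ≤ 2} with hB1
  set E := {x : SUGroup n | ch x ≤ T ∧ u < F x} with hE
  have hch := one_le_ch h
  have hEm : MeasurableSet E :=
    (DD.measurableSet_ball T).inter (isOpen_lt continuous_const hFc).measurableSet
  have h1 : ENNReal.ofReal (u ^ 2) * (mu n) E ≤ ENNReal.ofReal c := by
    refine le_trans ?_ ho
    calc ENNReal.ofReal (u ^ 2) * (mu n) E = ∫⁻ _ in E, ENNReal.ofReal (u ^ 2) ∂(mu n) := by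
          rw [setLIntegral_const]
      _ ≤ ∫⁻ x in E, ib T x * ENNReal.ofReal (F x ^ 2) ∂(mu n) := by
          refine setLIntegral_mono_ae' hEm (ae_of_all _ fun x hx => ?_)
          have e1 : ib T x = 1 := by unfold ib; rw [if_pos hx.1]
          rw [e1, one_mul]
          exact ENNReal.ofReal_le_ofReal (pow_le_pow_left₀ hu.le hx.2.le 2)
      _ ≤ _ := setLIntegral_le_lintegral _ _
  have h2 : B1 ⊆ E ∪ (fun x => h * x) ⁻¹' E := by
    intro x hx
    have hx2 : ch x ≤ 2 := hx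
    have hhx : ch (h * x) ≤ T := by
      have := ch_mul_le' h x
      nlinarith
    by_cases h3 : F x ≤ u
    · exact Or.inr ⟨hhx, hno x h3⟩
    · exact Or.inl ⟨show ch x ≤ T by linarith, not_le.1 h3⟩
  have h4 : (mu n) B1 ≤ 2 * (mu n) E := by
    calc (mu n) B1 ≤ (mu n) (E ∪ (fun x => h * x) ⁻¹' E) := measure_mono h2
      _ ≤ (mu n) E + (mu n) ((fun x => h * x) ⁻¹' E) := measure_union_le _ _
      _ = 2 * (mu n) E := by rw [measure_preimage_mul, two_mul]
  have hBf : (mu n) B1 ≠ ⊤ := (isCompact_ball 2).measure_lt_top.ne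
  have h5 : ENNReal.ofReal (u ^ 2 * (mu n).real B1) ≤ ENNReal.ofReal (2 * c) := by
    calc ENNReal.ofReal (u ^ 2 * (mu n).real B1) = ENNReal.ofReal (u ^ 2) * (mu n) B1 := by
          rw [ENNReal.ofReal_mul (by positivity), Measure.real, ENNReal.ofReal_toReal hBf]
      _ ≤ ENNReal.ofReal (u ^ 2) * (2 * (mu n) E) := by gcongr
      _ = 2 * (ENNReal.ofReal (u ^ 2) * (mu n) E) := by ring
      _ ≤ 2 * ENNReal.ofReal c := by gcongr
      _ = _ := by
          rw [ENNReal.ofReal_mul (by norm_num)]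
          norm_num
  have h6 := (ENNReal.ofReal_le_ofReal_iff (by positivity)).1 h5
  linarith

/-- **The centre** (B7). PROOF: `T` fixed, `S` from `D.irr`, `T₁ ≥ T` large. By `PairY.disp` and
Chebyshev there is `g₀`, `ch g₀ ≤ 2`, with `∫_{ch x ≤ T₁} dist (f g₀) (f (g₀ x))² ≤ C`. For `γ ∈ S` let
`h = g₀⁻¹ γ g₀`: there is `x` with `dist (f g₀) (f (g₀ x)) ≤ u`, `dist (f g₀) (f (g₀ h x)) ≤ u`
(`HM.DD.exists_point` for the function `g ↦ dist`), and `γ g₀ x = g₀ h x`, so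
`dist (ρ γ (f g₀)) (f g₀) ≤ 2 u`; `D.irr` bounds `dist y₀ (f g₀)`. For `f'` use `PairY.close`. -/
theorem PairY.centre (hn : 1 ≤ n) (hΓ : Coc Γ) (hχ : Lat Γ χ) (D : Dat ρ Φ κ lv y₀) {c : ℝ}
    (hc : 0 < c) : ∃ (s₀ : ℕ) (B : ℝ → ℝ), ∀ s : ℕ, s₀ ≤ s → ∀ f f' : SUGroup n → Y,
      PairY ρ Φ lv y₀ χ c s f f' → ∀ T : ℝ, ∫⁻ g, ib T g *
        ENNReal.ofReal (dist y₀ (f g) ^ 2 + dist y₀ (f' g) ^ 2) ∂(mu n) ≤
          ENNReal.ofReal (B T) := by
  classical
  obtain ⟨C, hC, hdisp⟩ := PairY.disp hn hΓ hχ D hc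
  obtain ⟨s₁, C₂, hC₂, hclose⟩ := PairY.close hn hΓ hχ D hc
  obtain ⟨K, hK0, hK⟩ := cb_good hχ C
  obtain ⟨S, hS⟩ := D.irr
  -- a bound for the conjugates
  obtain ⟨T1, hT1⟩ : ∃ T1 : ℝ, ∀ γ ∈ S, ∀ g : SUGroup n, ch g ≤ 2 →
      ch (g⁻¹ * (γ : SUGroup n) * g) ≤ T1 := by
    refine ⟨∑ γ ∈ S, 16 * ch (γ : SUGroup n), fun γ hγ g hg => ?_⟩
    have h1 := ch_mul_le' (g⁻¹ * (γ : SUGroup n)) g
    have h2 := ch_mul_le' g⁻¹ (γ : SUGroup n)
    rw [ch_inv] at h2
    have h3 := one_le_ch g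
    have h4 := one_le_ch (γ : SUGroup n)
    have h5 : ch (g⁻¹ * (γ : SUGroup n)) ≤ 4 * ch (γ : SUGroup n) := by nlinarith
    have h6 := ch_pos (g⁻¹ * (γ : SUGroup n))
    have h7 : ch (g⁻¹ * (γ : SUGroup n) * g) ≤ 16 * ch (γ : SUGroup n) := by nlinarith
    refine h7.trans ?_
    exact Finset.single_le_sum (f := fun γ : Γ => 16 * ch (γ : SUGroup n))
      (fun δ _ => by have := ch_pos (δ : SUGroup n); positivity) hγ
  obtain ⟨R, hRdef⟩ : ∃ R : ℝ, R = max 2 (4 * T1) := ⟨_, rfl⟩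
  have hR1 : 4 * T1 ≤ R := by rw [hRdef]; exact le_max_right _ _
  obtain ⟨c2, hc2⟩ : ∃ c2 : ℝ, c2 = K R := ⟨_, rfl⟩
  have hc20 : 0 < c2 := by rw [hc2]; exact hK0 R
  have hb1 := DD.ball_pos (n := n)
  obtain ⟨b1, hb1d⟩ : ∃ b1 : ℝ, b1 = (mu n).real {x : SUGroup n | ch x ≤ 2} := ⟨_, rfl⟩
  rw [← hb1d] at hb1
  obtain ⟨u, hu⟩ : ∃ u : ℝ, u = Real.sqrt (2 * c2 / b1) + 1 := ⟨_, rfl⟩
  have hu0 : 0 < u := by rw [hu]; positivity
  have hu2 : 2 * c2 < u ^ 2 * b1 := by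
    have h1 : 0 ≤ 2 * c2 / b1 := by positivity
    have h2 := Real.sq_sqrt h1
    have h3 := Real.sqrt_nonneg (2 * c2 / b1)
    have h4 : 2 * c2 / b1 < u ^ 2 := by
      rw [hu]
      nlinarith
    rwa [div_lt_iff₀ hb1] at h4
  obtain ⟨C', hC'⟩ := hS (2 * u)
  refine ⟨max (2 * n + 2) s₁, fun T => (6 * C' ^ 2 + 2 * C₂ ^ 2) *
    (mu n).real {g : SUGroup n | ch g ≤ T} + 6 * K (4 * T), fun s hs f f' h T => ?_⟩
  have hs1 : 2 * n + 2 ≤ s := (le_max_left _ _).trans hs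
  have hs2 : s₁ ≤ s := (le_max_right _ _).trans hs
  have hsq : 1 ≤ Real.sqrt s := by
    refine Real.one_le_sqrt.2 ?_
    have : 1 ≤ s := by omega
    exact_mod_cast this
  have hd : ∀ x, dsp χ (dl f f') false false x ≤ C * (Real.log (wt x) + 1) := by
    intro x
    refine (hdisp s hs1 f f' h false false x).trans (mul_le_mul_of_nonneg_left ?_ hC.le)
    have : 1 / Real.sqrt s ≤ 1 := by
      rw [div_le_one (by linarith)]
      exact hsq
    linarith
  obtain ⟨g₀, hg₀, hosc⟩ := hK (dl f f') (h.psm D) (h.fd hΓ hχ D) hd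
  have hosc' : ∀ T, ∫⁻ x, ib T x * ENNReal.ofReal (dist (f g₀) (f (g₀ * x)) ^ 2) ∂(mu n) ≤
      ENNReal.ofReal (K T) := hosc
  -- the displacement of the generators
  have hy : dist y₀ (f g₀) ≤ C' := by
    refine hC' (f g₀) (h.l1 g₀) fun γ hγ => ?_
    have hhT : 4 * ch (g₀⁻¹ * (γ : SUGroup n) * g₀) ≤ R := by
      have := hT1 γ hγ g₀ hg₀
      linarith
    have hFc : Continuous fun x : SUGroup n => dist (f g₀) (f (g₀ * x)) :=
      continuous_const.dist (h.e1.cont.comp (continuous_const.mul continuous_id))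
    obtain ⟨x, hx1, hx2⟩ := cb_point hFc hhT hu0 hc20.le (by rw [hc2]; exact hosc' R)
      (by rw [← hb1d]; exact hu2)
    have e1 : g₀ * (g₀⁻¹ * (γ : SUGroup n) * g₀ * x) = (γ : SUGroup n) * (g₀ * x) := by group
    have e2 : f (g₀ * (g₀⁻¹ * (γ : SUGroup n) * g₀ * x)) = ρ γ (f (g₀ * x)) := by
      rw [e1]
      exact h.e1.equi γ _
    rw [e2] at hx2
    have h3 := dist_triangle (f g₀) (ρ γ (f (g₀ * x))) (ρ γ (f g₀))
    rw [D.act.iso, dist_comm (f (g₀ * x))] at h3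
    linarith
  have hC'0 : 0 ≤ C' := dist_nonneg.trans hy
  -- the final estimate
  have hpt : ∀ g, ENNReal.ofReal (dist y₀ (f g) ^ 2 + dist y₀ (f' g) ^ 2) ≤
      ENNReal.ofReal (6 * C' ^ 2 + 2 * C₂ ^ 2) + ENNReal.ofReal 6 *
        ENNReal.ofReal (dist (f g₀) (f g) ^ 2) := by
    intro g
    rw [← ENNReal.ofReal_mul (by norm_num), ← ENNReal.ofReal_add (by positivity) (by positivity)]
    refine ENNReal.ofReal_le_ofReal ?_
    have h1 : dist y₀ (f g) ≤ C' + dist (f g₀) (f g) :=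
      (dist_triangle _ (f g₀) _).trans (by linarith)
    have h2 : dist (f g) (f' g) ≤ C₂ := by
      refine (hclose s hs2 f f' h g).trans ?_
      rw [div_le_iff₀ (by linarith)]
      nlinarith
    have h3 : dist y₀ (f' g) ≤ (C' + dist (f g₀) (f g)) + C₂ :=
      (dist_triangle _ (f g) _).trans (by linarith)
    have h4 : 0 ≤ dist y₀ (f g) := dist_nonneg
    have h5 : 0 ≤ dist y₀ (f' g) := dist_nonneg
    have h6 := pow_le_pow_left₀ h4 h1 2
    have h7 := pow_le_pow_left₀ h5 h3 2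
    nlinarith [sq_nonneg (C' - dist (f g₀) (f g)), sq_nonneg ((C' + dist (f g₀) (f g)) - C₂)]
  have hm1 : Measurable fun g : SUGroup n => ENNReal.ofReal (dist (f g₀) (f g) ^ 2) :=
    ((continuous_const.dist h.e1.cont).pow 2).measurable.ennreal_ofReal
  have hshift : ∫⁻ g, ib T g * ENNReal.ofReal (dist (f g₀) (f g) ^ 2) ∂(mu n) ≤
      ENNReal.ofReal (K (4 * T)) := by
    rw [← lintegral_mul_left_eq_self (μ := mu n)
      (fun g => ib T g * ENNReal.ofReal (dist (f g₀) (f g) ^ 2)) g₀]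
    refine le_trans (lintegral_mono fun x => ?_) (hosc' (4 * T))
    refine mul_le_mul_left ?_ _
    by_cases hx : ch (g₀ * x) ≤ T
    · have h1 := ch_mul_le' g₀⁻¹ (g₀ * x)
      rw [inv_mul_cancel_left, ch_inv] at h1
      have h2 := ch_pos (g₀ * x)
      have h3 : ch x ≤ 4 * T := by nlinarith [ch_pos g₀]
      unfold ib
      rw [if_pos hx, if_pos h3]
    · unfold ib
      rw [if_neg hx]
      exact zero_le
  have hBf : (mu n) {g : SUGroup n | ch g ≤ T} ≠ ⊤ := (isCompact_ball T).measure_lt_top.ne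
  calc ∫⁻ g, ib T g * ENNReal.ofReal (dist y₀ (f g) ^ 2 + dist y₀ (f' g) ^ 2) ∂(mu n)
      ≤ ∫⁻ g, (ENNReal.ofReal (6 * C' ^ 2 + 2 * C₂ ^ 2) * ib T g +
          ENNReal.ofReal 6 * (ib T g * ENNReal.ofReal (dist (f g₀) (f g) ^ 2))) ∂(mu n) := by
        refine lintegral_mono fun g => ?_
        refine (mul_le_mul_right (hpt g) (ib T g)).trans (le_of_eq ?_)
        ring
    _ = ENNReal.ofReal (6 * C' ^ 2 + 2 * C₂ ^ 2) * (mu n) {g : SUGroup n | ch g ≤ T} +
          ENNReal.ofReal 6 * ∫⁻ g, ib T g * ENNReal.ofReal (dist (f g₀) (f g) ^ 2) ∂(mu n) := by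
        rw [lintegral_add_left ((measurable_ib T).const_mul _),
          lintegral_const_mul' _ _ ENNReal.ofReal_ne_top,
          lintegral_const_mul' _ _ ENNReal.ofReal_ne_top, cb_ib]
    _ ≤ ENNReal.ofReal (6 * C' ^ 2 + 2 * C₂ ^ 2) * (mu n) {g : SUGroup n | ch g ≤ T} +
          ENNReal.ofReal 6 * ENNReal.ofReal (K (4 * T)) := by gcongr
    _ = _ := by
        have e : (mu n) {g : SUGroup n | ch g ≤ T} =
            ENNReal.ofReal ((mu n).real {g : SUGroup n | ch g ≤ T}) :=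
          (ENNReal.ofReal_toReal hBf).symm
        rw [e, ← ENNReal.ofReal_mul (by positivity), ← ENNReal.ofReal_mul (by norm_num),
          ← ENNReal.ofReal_add (by positivity) (by have := hK0 (4 * T); positivity)]

/-- **The uniform bound** (B8). PROOF: `U g = 1 + dist y₀ (f g) + dist y₀ (f' g)` satisfies
`U ≤ Q s U` (`Bs.jen`), `U (γ g) ≤ U g + C (1 + log wt γ)` (`act_growth`), so the growth hypotheses of
`Boot.boot_six` for `U` and `Q A U` (both `≥ 1`); the measure hypothesis from `PairY.centre`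
(Chebyshev); `Q_comm`, `Q_lap`. Then `U ≤ C₁ ch ^ (2 N)`, bounded on the compact `F` of `Coc`, hence
`≤ C (1 + log wt g)`. -/
theorem PairY.bound (hn : 1 ≤ n) (hΓ : Coc Γ) (hχ : Lat Γ χ) (D : Dat ρ Φ κ lv y₀) {c : ℝ}
    (hc : 0 < c) : ∃ (s₀ : ℕ) (C : ℝ), ∀ s : ℕ, s₀ ≤ s → ∀ f f' : SUGroup n → Y,
      PairY ρ Φ lv y₀ χ c s f f' → Lg C y₀ f ∧ Lg C y₀ f' := by
  classical
  obtain ⟨s₁, B, hB⟩ := PairY.centre hn hΓ hχ D hc
  obtain ⟨Ca, hCa, hact⟩ := act_growth hn hΓ D.act y₀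
  obtain ⟨F, hFc, hFγ⟩ := hΓ.cpt
  -- a bound for `wt` on `F`
  obtain ⟨R, hR1, hR⟩ : ∃ R : ℝ, 1 ≤ R ∧ ∀ y ∈ F, wt y ≤ R := by
    obtain ⟨b, hb⟩ := hFc.bddAbove_image (f := fun y : SUGroup n => ch y)
      continuous_ch.continuousOn
    refine ⟨max 1 (2 * b), le_max_left _ _, fun y hy => (wt_le y).trans ?_⟩
    have : ch y ≤ b := hb ⟨y, hy, rfl⟩
    exact le_trans (by linarith) (le_max_right _ _)
  have hlR : 0 ≤ Real.log R := Real.log_nonneg hR1
  -- the growth of functions which are almost invariant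
  have hgrow : ∀ U : SUGroup n → ℝ, (∀ (γ : Γ) g, U ((γ : SUGroup n) * g) ≤ U g +
      2 * dist y₀ (ρ γ y₀)) → ∀ M : ℝ, (∀ y ∈ F, U y ≤ M) → ∀ g,
        U g ≤ M + 2 * Ca * (1 + Real.log R + Real.log (wt g)) := by
    intro U hU M hM g
    obtain ⟨γ, hγ, hγF⟩ := hFγ g
    have h1 := hU (⟨γ, hγ⟩ : Γ)⁻¹ (γ * g)
    have e1 : (((⟨γ, hγ⟩ : Γ)⁻¹ : Γ) : SUGroup n) = γ⁻¹ := rfl
    rw [e1, inv_mul_cancel_left] at h1
    have h2 := hact (⟨γ, hγ⟩ : Γ)⁻¹
    rw [e1] at h2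
    have h3 : wt γ⁻¹ ≤ R * wt g := by
      have e2 : γ⁻¹ = g * (γ * g)⁻¹ := by group
      rw [e2]
      refine (wt_mul_le _ _).trans ?_
      rw [wt_inv, mul_comm]
      exact mul_le_mul_of_nonneg_right (hR _ hγF) (by linarith [one_le_wt g])
    have h4 : Real.log (wt γ⁻¹) ≤ Real.log R + Real.log (wt g) := by
      rw [← Real.log_mul (by linarith) (by linarith [one_le_wt g])]
      exact Real.log_le_log (by linarith [one_le_wt γ⁻¹]) h3
    have h5 := hM _ hγF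
    have h6 : dist y₀ (ρ (⟨γ, hγ⟩ : Γ)⁻¹ y₀) ≤ Ca * (1 + (Real.log R + Real.log (wt g))) :=
      h2.trans (mul_le_mul_of_nonneg_left (by linarith) hCa.le)
    linarith
  obtain ⟨A₁, hA₁⟩ := Q_comm n 1
  obtain ⟨A₂, hA₂⟩ := Q_lap n 1
  obtain ⟨A, hA⟩ : ∃ A : ℕ, A = max (2 * (2 * n + 2) + 4 * 1 + 2) (max A₁ A₂) := ⟨_, rfl⟩
  have hA0 : 2 * (2 * n + 2) + 4 * 1 + 2 ≤ A := by rw [hA]; exact le_max_left _ _
  have hA1 : A₁ ≤ A := by rw [hA]; exact (le_max_left _ _).trans (le_max_right _ _)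
  have hA2 : A₂ ≤ A := by rw [hA]; exact (le_max_right _ _).trans (le_max_right _ _)
  obtain ⟨C₀, hC₀⟩ : ∃ C₀ : ℝ, C₀ = 1 + 2 * Ca * (3 + Real.log R) := ⟨_, rfl⟩
  have hC₀0 : 0 < C₀ := by rw [hC₀]; positivity
  have hψ : ∀ r : ℝ, Tendsto (fun T : ℝ =>
      (if T ≤ 2 then (mu n).real {g : SUGroup n | ch g ≤ r} else 0) +
        2 * |B r| / (T - 1) ^ 2) atTop (𝓝 0) := by
    intro r
    have h1 : Tendsto (fun T : ℝ => if T ≤ 2 then (mu n).real {g : SUGroup n | ch g ≤ r} else 0)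
        atTop (𝓝 0) := by
      refine tendsto_const_nhds.congr' ?_
      filter_upwards [eventually_gt_atTop (2 : ℝ)] with T hT
      rw [if_neg (not_le.2 hT)]
    have h2 : Tendsto (fun T : ℝ => 2 * |B r| / (T - 1) ^ 2) atTop (𝓝 0) := by
      refine tendsto_const_nhds.div_atTop ?_
      exact (tendsto_pow_atTop two_ne_zero).comp (tendsto_atTop_add_const_right _ _ tendsto_id)
    simpa using h1.add h2
  obtain ⟨C₁, hC₁, hboot⟩ := boot_sixN (Boot.csOK n) (N := 1) (A := A) hA0 hFc hC₀0 hψ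
  refine ⟨max s₁ (2 * (2 * n + 2) + 4 * A + 2), C₁ * R ^ 2 + 2 * Ca * (1 + Real.log R),
    fun s hs f f' h => ?_⟩
  have hs1 : s₁ ≤ s := (le_max_left _ _).trans hs
  have hs2 : 2 * (2 * n + 2) + 4 * A + 2 ≤ s := (le_max_right _ _).trans hs
  have hsn : n + 2 < s := by omega
  set U : SUGroup n → ℝ := fun g => 1 + dist y₀ (f g) + dist y₀ (f' g) with hUdef
  have hU1 : ∀ g, 1 ≤ U g := fun g => by
    have h1 : 0 ≤ dist y₀ (f g) := dist_nonneg
    have h2 : 0 ≤ dist y₀ (f' g) := dist_nonneg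
    simp only [hUdef]
    linarith
  have hUc : Continuous U := (continuous_const.add (continuous_const.dist h.e1.cont)).add
    (continuous_const.dist h.e2.cont)
  have hUk : ∀ g k : SUGroup n, ch k = 1 → U (g * k) = U g := by
    intro g k hk
    simp only [hUdef]
    rw [h.e1.kinv g k hk, h.e2.kinv g k hk]
  have hUγ : ∀ (γ : Γ) g, U ((γ : SUGroup n) * g) ≤ U g + 2 * dist y₀ (ρ γ y₀) := by
    intro γ g
    simp only [hUdef]
    rw [h.e1.equi, h.e2.equi]
    have h1 := dist_triangle y₀ (ρ γ y₀) (ρ γ (f g))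
    have h2 := dist_triangle y₀ (ρ γ y₀) (ρ γ (f' g))
    rw [D.act.iso] at h1 h2
    linarith
  have hUg := hgrow U hUγ
  have hUg2 : ∀ M, (∀ g ∈ F, U g ≤ M) → ∀ g, U g ≤ C₀ * M * ch g ^ (2 * 1) := by
    intro M hM g
    have hM1 : 1 ≤ M := by
      obtain ⟨γ, hγ, hγF⟩ := hFγ 1
      exact (hU1 _).trans (hM _ hγF)
    have h1 := hUg M hM g
    have h2 := one_le_ch g
    have h3 : Real.log (wt g) ≤ 2 * ch g := by
      have h4 := Real.log_le_sub_one_of_pos (show 0 < wt g by linarith [one_le_wt g])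
      have h5 := wt_le g
      linarith
    have h4 : 1 ≤ ch g ^ 2 := by nlinarith
    have h5 : 2 * ch g ≤ 2 * ch g ^ 2 := by nlinarith
    have h6 : 1 + Real.log R + Real.log (wt g) ≤ (3 + Real.log R) * ch g ^ 2 := by nlinarith
    have h7 : U g ≤ M + 2 * Ca * ((3 + Real.log R) * ch g ^ 2) := by
      have := mul_le_mul_of_nonneg_left h6 (show 0 ≤ 2 * Ca by positivity)
      linarith
    refine h7.trans ?_
    have h8 : 0 ≤ 2 * Ca * ((3 + Real.log R) * ch g ^ 2) := by positivity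
    have h9 : M ≤ M * ch g ^ 2 := le_mul_of_one_le_right (by linarith) h4
    have h10 : 2 * Ca * ((3 + Real.log R) * ch g ^ 2) ≤
        M * (2 * Ca * ((3 + Real.log R) * ch g ^ 2)) := le_mul_of_one_le_left h8 hM1
    rw [hC₀]
    have h11 : (1 + 2 * Ca * (3 + Real.log R)) * M * ch g ^ (2 * 1) = M * ch g ^ 2 +
        M * (2 * Ca * ((3 + Real.log R) * ch g ^ 2)) := by ring
    rw [h11]
    linarith
  obtain ⟨M₀, hM₀⟩ := hFc.bddAbove_image (f := U) hUc.continuousOn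
  have hAg : Ag 1 (C₀ * M₀) U := ⟨hUc, hUk, fun g => by
    rw [abs_of_nonneg (by linarith [hU1 g])]
    exact hUg2 M₀ (fun y hy => hM₀ ⟨y, hy, rfl⟩) g⟩
  -- the measure
  have hvol : ∀ r T, (mu n).real {g | ch g ≤ r ∧ T < U g} ≤
      (if T ≤ 2 then (mu n).real {g : SUGroup n | ch g ≤ r} else 0) +
        2 * |B r| / (T - 1) ^ 2 := by
    intro r T
    have hBf : (mu n) {g : SUGroup n | ch g ≤ r} ≠ ⊤ := (isCompact_ball r).measure_lt_top.ne
    by_cases hT : T ≤ 2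
    · rw [if_pos hT]
      have h1 : (mu n).real {g | ch g ≤ r ∧ T < U g} ≤ (mu n).real {g : SUGroup n | ch g ≤ r} :=
        measureReal_mono (fun g hg => hg.1) hBf
      have h2 : 0 ≤ 2 * |B r| / (T - 1) ^ 2 := by positivity
      linarith
    · rw [if_neg hT, zero_add]
      push Not at hT
      have hT1 : 0 < T - 1 := by linarith
      set E := {g : SUGroup n | ch g ≤ r ∧ T < U g} with hE
      have hEm : MeasurableSet E :=
        (DD.measurableSet_ball r).inter (isOpen_lt continuous_const hUc).measurableSet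
      have hEf : (mu n) E ≠ ⊤ := ne_top_of_le_ne_top hBf (measure_mono fun g hg => hg.1)
      have h1 : ENNReal.ofReal ((T - 1) ^ 2 / 2) * (mu n) E ≤ ENNReal.ofReal (B r) := by
        refine le_trans ?_ (hB s hs1 f f' h r)
        calc ENNReal.ofReal ((T - 1) ^ 2 / 2) * (mu n) E =
              ∫⁻ _ in E, ENNReal.ofReal ((T - 1) ^ 2 / 2) ∂(mu n) := by rw [setLIntegral_const]
          _ ≤ ∫⁻ g in E, ib r g *
                ENNReal.ofReal (dist y₀ (f g) ^ 2 + dist y₀ (f' g) ^ 2) ∂(mu n) := by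
              refine setLIntegral_mono_ae' hEm (ae_of_all _ fun g hg => ?_)
              have e1 : ib r g = 1 := by unfold ib; rw [if_pos hg.1]
              rw [e1, one_mul]
              refine ENNReal.ofReal_le_ofReal ?_
              have e2 : T < 1 + dist y₀ (f g) + dist y₀ (f' g) := hg.2
              have e3 : (T - 1) ^ 2 ≤ (dist y₀ (f g) + dist y₀ (f' g)) ^ 2 :=
                pow_le_pow_left₀ hT1.le (by linarith) 2
              nlinarith [sq_nonneg (dist y₀ (f g) - dist y₀ (f' g))]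
          _ ≤ _ := setLIntegral_le_lintegral _ _
      have h2 : (T - 1) ^ 2 / 2 * (mu n).real E ≤ |B r| := by
        have h3 : ENNReal.ofReal ((T - 1) ^ 2 / 2 * (mu n).real E) ≤ ENNReal.ofReal |B r| := by
          rw [ENNReal.ofReal_mul (by positivity), Measure.real, ENNReal.ofReal_toReal hEf]
          exact h1.trans (ENNReal.ofReal_le_ofReal (le_abs_self _))
        exact (ENNReal.ofReal_le_ofReal_iff (abs_nonneg _)).1 h3
      rw [le_div_iff₀ (by positivity)]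
      linarith
  -- subharmonicity
  have hprob : IsProbabilityMeasure (kapM n s) := isProb_kapM (by omega)
  obtain ⟨Cg1, hg1⟩ := h.g1
  obtain ⟨Cg2, hg2⟩ := h.g2
  have hJ : Jen Φ fun z => dist y₀ z := Jen2.left D.tgt D.dj y₀
  have hsub : ∀ g, U g ≤ Boot.Q s U g := by
    intro g
    have h1 := Bs.jen h.e1.cont hg1 hsn h.b1 hJ g
    have h2 := Bs.jen h.e2.cont hg2 hsn h.b2 hJ g
    have i1 : Integrable (fun x => dist y₀ (f (g * x))) (kapM n s) :=
      (Lg.sqI h.e1.cont hg1 hsn g).dist y₀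
    have i2 : Integrable (fun x => dist y₀ (f' (g * x))) (kapM n s) :=
      (Lg.sqI h.e2.cont hg2 hsn g).dist y₀
    have e1 : Boot.Q s U g = ∫ x, U (g * x) ∂(kapM n s) := (integral_kapM s _).symm
    have e2 : Boot.Q s (fun x => dist y₀ (f x)) g = ∫ x, dist y₀ (f (g * x)) ∂(kapM n s) :=
      (integral_kapM s _).symm
    have e3 : Boot.Q s (fun x => dist y₀ (f' x)) g = ∫ x, dist y₀ (f' (g * x)) ∂(kapM n s) :=
      (integral_kapM s _).symm
    have e4 : ∫ x, U (g * x) ∂(kapM n s) = 1 + ∫ x, dist y₀ (f (g * x)) ∂(kapM n s) +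
        ∫ x, dist y₀ (f' (g * x)) ∂(kapM n s) := by
      have i0 : Integrable (fun _ : SUGroup n => (1 : ℝ)) (kapM n s) := integrable_const 1
      have := integral_add (i0.add i1) i2
      simp only [Pi.add_apply] at this
      have h4 := integral_add i0 i1
      simp only [hUdef]
      rw [this, h4, integral_const]
      simp
    rw [e1, e4, ← e2, ← e3]
    simp only [hUdef]
    linarith
  have hfin := hboot s U hs2 hUc (fun g => by linarith [hU1 g]) hUg2 hvol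
    (fun a b ha hb g => hA₁ a b (hA1.trans ha) (hA1.trans hb) _ U hAg g)
    (fun a b ha hb g => hA₂ a b (hA2.trans ha) (hA2.trans hb) _ U hAg g) hsub
  have hF1 : ∀ y ∈ F, U y ≤ C₁ * R ^ 2 := by
    intro y hy
    refine (hfin y).trans (mul_le_mul_of_nonneg_left ?_ hC₁.le)
    exact pow_le_pow_left₀ (ch_pos y).le ((ch_le_wt y).trans (hR y hy)) _
  have hlast : ∀ g, U g ≤ (C₁ * R ^ 2 + 2 * Ca * (1 + Real.log R)) * (1 + Real.log (wt g)) := by
    intro g
    have h1 := hUg _ hF1 g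
    have h2 : 0 ≤ Real.log (wt g) := Real.log_nonneg (one_le_wt g)
    have h3 : 0 ≤ C₁ * R ^ 2 * Real.log (wt g) := by positivity
    have h4 : 0 ≤ Ca * Real.log R * Real.log (wt g) := by positivity
    nlinarith
  constructor
  · intro g
    refine le_trans ?_ (hlast g)
    have : 0 ≤ dist y₀ (f' g) := dist_nonneg
    simp only [hUdef]
    linarith
  · intro g
    refine le_trans ?_ (hlast g)
    have : 0 ≤ dist y₀ (f g) := dist_nonneg
    simp only [hUdef]
    linarith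

end Pool.Agent.Lib.MP_5d4057_al.IN
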