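import Pool.Agent.Lib.MP_5d4057_al.IN.Tgt
import Pool.Agent.Lib.MP_5d4057_al.HM.BootPair
import Pool.Agent.Lib.MP_5d4057_al.HM.DefsB

/-! Part B of INT: scalar functions on the group (rows B-FUN). -/

namespace Pool.Agent.Lib.MP_5d4057_al.IN

open MeasureTheory Filter Topology Pool.Agent.Lib.MP_5d4057_al
open Pool.Agent.Lib.MP_5d4057_al.Hyb Pool.Agent.Lib.MP_5d4057_al.HM

open scoped ENNReal

variable {n : ℕ}

/-- Continuous right `K` invariant functions of polynomial growth. -/
structure Ag (N : ℕ) (C : ℝ) (u : SUGroup n → ℝ) : Prop where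
  cont : Continuous u
  kinv : ∀ g k : SUGroup n, ch k = 1 → u (g * k) = u g
  bound : ∀ g : SUGroup n, |u g| ≤ C * ch g ^ (2 * N)

private theorem fn_mem (g : SUGroup n) : act g (base n) ∈ Cone n := orbit_mem g

private theorem fn_section {F : Type} {u : SUGroup n → F}
    (hk : ∀ g k : SUGroup n, ch k = 1 → u (g * k) = u g) (g : SUGroup n) :
    u (sec n (act g (base n))) = u g := by
  obtain ⟨c, hc, h⟩ := sec_spec (orbit_mem g)
  set s := sec n (act g (base n)) with hs
  have hq := congrArg q h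
  rw [q_smul, q_orbit, q_orbit] at hq
  have hc1 : ‖c‖ = 1 := by
    have h1 : ‖c‖ ^ 2 = 1 := by linarith
    have h2 := norm_nonneg c
    nlinarith
  have hk1 : ch (s⁻¹ * g) = 1 := by
    rw [ch_eq_one_iff]
    refine ⟨c, hc1, ?_⟩
    rw [act_mul, h, act_smul, ← act_mul, inv_mul_cancel, act_one]
  have h3 := hk s (s⁻¹ * g) hk1
  rw [mul_inv_cancel_left] at h3
  exact h3.symm

open scoped Matrix.Norms.L2Operator in
private theorem fn_cont : ContinuousOn (sec n) (Cone n) := by
  rw [(isClosedEmbedding_toMatrix n).isInducing.continuousOn_iff]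
  exact (contDiffOn_sec n).continuousOn

/-- A right `K` invariant map on the group comes from a homogeneous map on the cone
(`U v = u (sec v)`). PROOF: `sec_smul`; by `sec_spec` `act g e = c • act (sec) e`, so
`k = (sec)⁻¹ g` satisfies `act k e = c • e`, `‖c‖ = 1` because `q` is preserved, `ch k = 1`
(`ch_eq_one_iff`), and `g = sec * k`. -/
theorem exists_cone {F : Type} {u : SUGroup n → F} (hk : ∀ g k : SUGroup n, ch k = 1 → u (g * k) = u g) :
    Homog (fun v => u (sec n v)) ∧ ∀ g : SUGroup n, u (sec n (act g (base n))) = u g :=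
  ⟨fun c hc v hv => by
    show u (sec n (c • v)) = u (sec n v)
    rw [sec_smul hv hc], fn_section hk⟩

theorem continuousOn_sec {F : Type} [TopologicalSpace F] {u : SUGroup n → F} (hu : Continuous u) :
    ContinuousOn (fun v => u (sec n v)) (Cone n) :=
  hu.comp_continuousOn fn_cont

private theorem Ag.adm {N : ℕ} {C : ℝ} {u : SUGroup n → ℝ} (h : Ag N C u) :
    Adm N C fun v => u (sec n v) := by
  refine ⟨?_, fun g => ?_⟩
  · have e : (fun y : SUGroup n => u (sec n (act y (base n)))) = u :=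
      funext fun g => fn_section h.kinv g
    rw [e]
    exact h.cont.aestronglyMeasurable
  · rw [fn_section h.kinv, Real.norm_eq_abs]
    exact h.bound g

private theorem Ag.QP {N : ℕ} {C : ℝ} {u : SUGroup n → ℝ} (h : Ag N C u) (a : ℕ)
    (g : SUGroup n) : Boot.Q a u g = P a (fun v => u (sec n v)) (act g (base n)) := by
  rw [← Boot.Q_eq_P]
  congr 1
  exact funext fun g => (fn_section h.kinv g).symm

private theorem Ag.QQP {N : ℕ} {C : ℝ} {u : SUGroup n → ℝ} (h : Ag N C u) (a b : ℕ)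
    (g : SUGroup n) : Boot.Q a (Boot.Q b u) g =
      P a (P b (fun v => u (sec n v))) (act g (base n)) := by
  have e : Boot.Q b u = fun g => P b (fun v => u (sec n v)) (act g (base n)) :=
    funext fun g => h.QP b g
  rw [e, Boot.Q_eq_P]

/-- the case `n = 0` -/
private theorem fn_zero {N : ℕ} {C : ℝ} {u : SUGroup 0 → ℝ} (h : Ag N C u) {a : ℕ} (ha : 0 < a) :
    Boot.Q a u = u := by
  have hch : ∀ x : SUGroup 0, ch x = 1 := by
    intro x
    have h1 := sum_row x
    rw [Finset.univ_eq_empty, Finset.sum_empty] at h1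
    have h2 := one_le_ch x
    nlinarith
  funext g
  unfold Boot.Q
  have e : ∀ x : SUGroup 0, kap a x * u (g * x) = kap a x * u g := fun x => by
    rw [h.kinv g x (hch x)]
  simp_rw [e]
  rw [integral_mul_const, integral_kap ha, one_mul]

/-- PROOF: `Boot.Q_eq_P` twice for `U v = u (sec v)` and `P_comm` (file `HM.Comm`), exactly as `hcomm`
in the proof of `HM.boot_pair` (BootPair.lean). -/
theorem Q_comm (n N : ℕ) : ∃ A : ℕ, ∀ a b, A ≤ a → A ≤ b → ∀ (C : ℝ) (u : SUGroup n → ℝ),
    Ag N C u → ∀ g, Boot.Q a (Boot.Q b u) g = Boot.Q b (Boot.Q a u) g := by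
  rcases Nat.eq_zero_or_pos n with rfl | hn
  · refine ⟨1, fun a b ha hb C u hu g => ?_⟩
    rw [fn_zero hu hb, fn_zero hu ha, fn_zero hu hb]
  · obtain ⟨s, hs⟩ := P_comm (E := ℝ) hn N
    refine ⟨s, fun a b ha hb C u hu g => ?_⟩
    rw [hu.QQP, hu.QQP]
    exact hs a b ha hb C _ hu.adm _ (orbit_mem g)

/-- PROOF: as `hlap` in the proof of `HM.boot_pair` (BootPair.lean). -/
theorem Q_lap (n N : ℕ) : ∃ A : ℕ, ∀ a b, A ≤ a → A ≤ b → ∀ (C : ℝ) (u : SUGroup n → ℝ),
    Ag N C u → ∀ g, lam n a * (Boot.Q a (Boot.Q b u) g - Boot.Q (a + 1) (Boot.Q b u) g) =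
      lam n b * (Boot.Q a (Boot.Q b u) g - Boot.Q a (Boot.Q (b + 1) u) g) := by
  rcases Nat.eq_zero_or_pos n with rfl | hn
  · refine ⟨1, fun a b ha hb C u hu g => ?_⟩
    rw [fn_zero hu hb, fn_zero hu ha, fn_zero hu (Nat.succ_pos a), fn_zero hu (Nat.succ_pos b),
      fn_zero hu ha, sub_self, mul_zero, mul_zero]
  · obtain ⟨s3, h3⟩ := P_comm (E := ℝ) hn N
    obtain ⟨s4, h4⟩ := lap_P (E := ℝ) hn N
    obtain ⟨s5, h5⟩ := P_bound (E := ℝ) n N
    refine ⟨s3 + s4 + s5, fun a b ha hb C u hu g => ?_⟩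
    have hv := orbit_mem (n := n) g
    have hA := hu.adm
    have e1 := h4 a (by omega) _ (P b fun v => u (sec n v)) (h5 b (by omega) _ _ hA) _ hv
    have e2 := h4 b (by omega) _ (P a fun v => u (sec n v)) (h5 a (by omega) _ _ hA) _ hv
    have e3 := Boot.lap_congr (fun w hw => h3 a b (by omega) (by omega) _ _ hA w hw) hv
    have e4 := h3 a b (by omega) (by omega) _ _ hA _ hv
    have e5 := h3 a (b + 1) (by omega) (by omega) _ _ hA _ hv
    simp only [hu.QQP]
    rw [e1, e2, smul_eq_mul, smul_eq_mul, ← e4, ← e5] at e3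
    exact e3

/-- PROOF: continuity as `Boot.Gr.Q_cont` (apply it to `C * ch ^ (2 N) ± u`, or by Harnack),
`K`-invariance `Boot.Q_mul_K`, bound `ch (g x) ≤ 2 ch g ch x` and `integral_kap_pow_le`. -/
theorem Ag.Q (n N : ℕ) : ∃ (A : ℕ) (K : ℝ), 0 < K ∧ ∀ a, A ≤ a → ∀ (C : ℝ) (u : SUGroup n → ℝ),
    0 ≤ C → Ag N C u → Ag N (K * C) (Boot.Q a u) := by
  obtain ⟨s5, h5⟩ := P_bound (E := ℝ) n N
  refine ⟨s5 + (n + N + 1), 2 * 4 ^ N, by positivity, fun a ha C u _ hu => ?_⟩
  have hA := hu.adm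
  have e : Boot.Q a u = fun g => P a (fun v => u (sec n v)) (act g (base n)) :=
    funext fun g => hu.QP a g
  refine ⟨?_, fun g k hk => Boot.Q_mul_K a u g hk, fun g => ?_⟩
  · rw [e]
    exact continuous_orbit_of (Sm.contDiffOn_P hA (by omega)).continuousOn
  · rw [hu.QP, ← Real.norm_eq_abs]
    exact (h5 a (by omega) C _ hA).bound g

/-- `∫ kap_s log wt` is small and `Q s` of a logarithmically growing function grows
logarithmically. -/
theorem kap_log (n : ℕ) : ∃ (s₀ : ℕ) (K : ℝ), 0 < K ∧ ∀ s, s₀ ≤ s →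
    Integrable (fun x : SUGroup n => kap s x * Real.log (wt x)) (mu n) ∧
    Integrable (fun x : SUGroup n => kap s x * Real.log (wt x) ^ 2) (mu n) ∧
    ∫ x : SUGroup n, kap s x * Real.log (wt x) ∂(mu n) ≤ K / Real.sqrt s ∧
    ∫ x : SUGroup n, kap s x * Real.log (wt x) ^ 2 ∂(mu n) ≤ K / s := by
  obtain ⟨C, hC, hm⟩ := mom_le n 0 1
  refine ⟨n + 2, C + 1, by positivity, fun s hs => ?_⟩
  have hs0 : (0 : ℝ) < s := by exact_mod_cast (by omega : 0 < s)
  have hm' := hm s (by omega)
  have hi : Integrable (fun x : SUGroup n => kap s x * (ch x ^ 2 - 1)) (mu n) := by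
    have h := integrable_mom (n := n) (s := s) (N := 0) (k := 1) (by omega)
    refine h.congr (Filter.Eventually.of_forall fun x => ?_)
    simp only [mul_zero, pow_zero, pow_one, one_mul]
  have hi0 := integrable_kap (n := n) (s := s) (by omega)
  have h1 : ∫ x : SUGroup n, kap s x * (ch x ^ 2 - 1) ∂(mu n) ≤ C / s := by
    simpa using hm'
  have hc2 : ∀ x : SUGroup n, 0 ≤ ch x ^ 2 - 1 := fun x => by
    have := one_le_ch x
    nlinarith
  have hl0 : ∀ x : SUGroup n, 0 ≤ Real.log (wt x) := fun x => Real.log_nonneg (one_le_wt x)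
  have hl2 : ∀ x : SUGroup n, Real.log (wt x) ^ 2 ≤ ch x ^ 2 - 1 := fun x => by
    have h := pow_le_pow_left₀ (hl0 x) (log_wt_le x) 2
    rwa [Real.sq_sqrt (hc2 x)] at h
  have hcl : Continuous fun x : SUGroup n => Real.log (wt x) :=
    continuous_wt.log fun x => (lt_of_lt_of_le one_pos (one_le_wt x)).ne'
  have hil2 : Integrable (fun x : SUGroup n => kap s x * Real.log (wt x) ^ 2) (mu n) := by
    refine Integrable.mono' hi ((continuous_kap s).mul (hcl.pow 2)).aestronglyMeasurable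
      (Filter.Eventually.of_forall fun x => ?_)
    have hk := kap_nonneg s x
    rw [Real.norm_eq_abs, abs_of_nonneg (mul_nonneg hk (sq_nonneg _))]
    exact mul_le_mul_of_nonneg_left (hl2 x) hk
  have hsq : 0 < Real.sqrt s := Real.sqrt_pos.2 hs0
  have hss : Real.sqrt s * Real.sqrt s = s := Real.mul_self_sqrt hs0.le
  have hbig : Integrable (fun x : SUGroup n => 1 / (2 * Real.sqrt s) * kap s x +
      Real.sqrt s / 2 * (kap s x * Real.log (wt x) ^ 2)) (mu n) :=
    (hi0.const_mul _).add (hil2.const_mul _)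
  have hpt : ∀ x : SUGroup n, kap s x * Real.log (wt x) ≤ 1 / (2 * Real.sqrt s) * kap s x +
      Real.sqrt s / 2 * (kap s x * Real.log (wt x) ^ 2) := fun x => by
    have hk := kap_nonneg s x
    have h2 : Real.log (wt x) ≤ 1 / (2 * Real.sqrt s) + Real.sqrt s / 2 * Real.log (wt x) ^ 2 := by
      have h3 : 0 ≤ (Real.sqrt s * Real.log (wt x) - 1) ^ 2 / (2 * Real.sqrt s) := by positivity
      have h4 : (Real.sqrt s * Real.log (wt x) - 1) ^ 2 / (2 * Real.sqrt s) =
          1 / (2 * Real.sqrt s) + Real.sqrt s / 2 * Real.log (wt x) ^ 2 - Real.log (wt x) := by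
        field_simp
        ring
      linarith
    calc kap s x * Real.log (wt x) ≤ kap s x *
          (1 / (2 * Real.sqrt s) + Real.sqrt s / 2 * Real.log (wt x) ^ 2) :=
          mul_le_mul_of_nonneg_left h2 hk
      _ = _ := by ring
  have hil : Integrable (fun x : SUGroup n => kap s x * Real.log (wt x)) (mu n) := by
    refine Integrable.mono' hbig ((continuous_kap s).mul hcl).aestronglyMeasurable
      (Filter.Eventually.of_forall fun x => ?_)
    rw [Real.norm_eq_abs, abs_of_nonneg (mul_nonneg (kap_nonneg s x) (hl0 x))]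
    exact hpt x
  have h2 : ∫ x : SUGroup n, kap s x * Real.log (wt x) ^ 2 ∂(mu n) ≤ C / s := by
    refine (integral_mono hil2 hi fun x => ?_).trans h1
    exact mul_le_mul_of_nonneg_left (hl2 x) (kap_nonneg s x)
  refine ⟨hil, hil2, ?_, h2.trans (div_le_div_of_nonneg_right (by linarith) hs0.le)⟩
  refine (integral_mono hil hbig hpt).trans ?_
  rw [integral_add (hi0.const_mul _) (hil2.const_mul _), integral_const_mul, integral_const_mul,
    integral_kap (by omega), mul_one]
  have h3 : Real.sqrt s / 2 * ∫ x : SUGroup n, kap s x * Real.log (wt x) ^ 2 ∂(mu n) ≤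
      Real.sqrt s / 2 * (C / s) := mul_le_mul_of_nonneg_left h2 (by positivity)
  have h4 : Real.sqrt s / 2 * (C / s) = C / (2 * Real.sqrt s) := by
    rw [div_mul_div_comm, div_eq_div_iff (by positivity) (by positivity)]
    calc Real.sqrt s * C * (2 * Real.sqrt s) = C * (2 * (Real.sqrt s * Real.sqrt s)) := by ring
      _ = _ := by rw [hss]
  rw [h4] at h3
  have h5 : 1 / (2 * Real.sqrt s) + C / (2 * Real.sqrt s) ≤ (C + 1) / Real.sqrt s := by
    rw [← add_div, div_le_div_iff₀ (by positivity) hsq]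
    nlinarith
  linarith

end Pool.Agent.Lib.MP_5d4057_al.IN
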