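import Pool.Agent.Lib.MP_5d4057_al.NU.LGC
import Pool.Agent.Lib.MP_5d4057_al.NU.LatA2

/-! Part B of INT: displacement of invariant pseudo metrics (B6). The proofs are those of
`NU/LGB.lean`, `NU/LGC.lean` with `dT (A (g e)) (B (h e))` replaced by `δ a b g h`. -/

namespace Pool.Agent.Lib.MP_5d4057_al.IN

open MeasureTheory Filter Topology Pool.Agent.Lib.MP_5d4057_al
open Pool.Agent.Lib.MP_5d4057_al.Hyb Pool.Agent.Lib.MP_5d4057_al.HM
open Pool.Agent.Lib.MP_5d4057_al.HM.DD Pool.Agent.Lib.MP_5d4057_al.NU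

open scoped ENNReal

variable {n : ℕ} {Γ : Subgroup (SUGroup n)} {χ : SUGroup n → ℝ}

/-- An invariant continuous pseudo metric on `G × ι`. -/
structure Psm (Γ : Subgroup (SUGroup n)) {ι : Type} (δ : ι → ι → SUGroup n → SUGroup n → ℝ) :
    Prop where
  cont : ∀ a b, Continuous fun p : SUGroup n × SUGroup n => δ a b p.1 p.2
  nonneg : ∀ a b g h, 0 ≤ δ a b g h
  self : ∀ a g, δ a a g g = 0
  symm : ∀ a b g h, δ a b g h = δ b a h g
  tri : ∀ a b c g h k, δ a c g k ≤ δ a b g h + δ b c h k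
  inv : ∀ a b, ∀ γ ∈ Γ, ∀ g h, δ a b (γ * g) (γ * h) = δ a b g h

/-- The displacement. -/
noncomputable def dsp {ι : Type} (χ : SUGroup n → ℝ) (δ : ι → ι → SUGroup n → SUGroup n → ℝ)
    (a b : ι) (x : SUGroup n) : ℝ := nm χ fun g => δ a b g (g * x)

/-- Finite displacement. -/
def Fd {ι : Type} (χ : SUGroup n → ℝ) (δ : ι → ι → SUGroup n → SUGroup n → ℝ) : Prop :=
  ∀ a b x, LG.L2 χ fun g => δ a b g (g * x)

section aux

variable {ι : Type} {δ : ι → ι → SUGroup n → SUGroup n → ℝ}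

private theorem cont_d (h : Psm Γ δ) (a b : ι) :
    Continuous fun p : SUGroup n × SUGroup n => δ a b p.2 (p.2 * p.1) :=
  (h.cont a b).comp (continuous_snd.prodMk (continuous_snd.mul continuous_fst))

private theorem cont_d' (h : Psm Γ δ) (a b : ι) :
    Continuous fun p : SUGroup n × SUGroup n => δ a b p.1 (p.1 * p.2) :=
  (h.cont a b).comp (continuous_fst.prodMk (continuous_fst.mul continuous_snd))

private theorem inv_d (h : Psm Γ δ) (a b : ι) (x : SUGroup n) :
    ∀ γ ∈ Γ, ∀ g, δ a b (γ * g) (γ * g * x) = δ a b g (g * x) := by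
  intro γ hγ g
  rw [mul_assoc]
  exact h.inv a b γ hγ g (g * x)

private theorem comm_d (h : Psm Γ δ) (a b : ι) (x : SUGroup n) :
    (fun g => δ b a g (g * x)) = fun g => δ a b (g * x) (g * x * x⁻¹) := by
  funext g
  rw [mul_inv_cancel_right]
  exact h.symm b a _ _

private theorem dsp_one' (χ : SUGroup n → ℝ) (h : Psm Γ δ) (a : ι) : dsp χ δ a a 1 = 0 := by
  have e : (fun g => δ a a g (g * 1)) = fun _ => 0 := by
    funext g
    rw [mul_one, h.self]
  rw [dsp, e, nm]
  simp [II]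

private theorem dsp_nonneg' (χ : SUGroup n → ℝ) (δ : ι → ι → SUGroup n → SUGroup n → ℝ) (a b : ι)
    (x : SUGroup n) : 0 ≤ dsp χ δ a b x := nm_nonneg _ _

end aux

theorem dsp_triangle (hχ : Lat Γ χ) {ι : Type} {δ : ι → ι → SUGroup n → SUGroup n → ℝ}
    (h : Psm Γ δ) (hF : Fd χ δ) (a b c : ι) (x y : SUGroup n) :
    dsp χ δ a c x ≤ dsp χ δ a b y + dsp χ δ b c (y⁻¹ * x) := by
  have hG := LG.CutG.of_lat hχ
  have e : (fun g => (fun g' => δ b c g' (g' * (y⁻¹ * x))) (g * y)) =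
      fun g => δ b c (g * y) (g * x) := by
    funext g
    beta_reduce
    rw [mul_assoc, mul_inv_cancel_left]
  obtain ⟨h1, h2⟩ := (hF b c (y⁻¹ * x)).mul_right hG (inv_d h b c _) y
  rw [e] at h1 h2
  have h3 := hF a b y
  unfold dsp
  rw [← h2]
  refine le_trans ?_ (LG.nm_add_le hG h3 h1)
  refine LG.nm_mono hG (hF a c x) (h3.add hG h1) fun g => ?_
  rw [abs_of_nonneg (h.nonneg _ _ _ _)]
  exact h.tri a b c g (g * y) (g * x)

theorem dsp_symm (hχ : Lat Γ χ) {ι : Type} {δ : ι → ι → SUGroup n → SUGroup n → ℝ}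
    (h : Psm Γ δ) (hF : Fd χ δ) (a b : ι) (x : SUGroup n) :
    dsp χ δ b a x = dsp χ δ a b x⁻¹ := by
  have hG := LG.CutG.of_lat hχ
  unfold dsp
  rw [comm_d h a b x]
  exact ((hF a b x⁻¹).mul_right hG (inv_d h a b _) x).2

private theorem dsp_list (hχ : Lat Γ χ) {ι : Type} {δ : ι → ι → SUGroup n → SUGroup n → ℝ}
    (h : Psm Γ δ) (hF : Fd χ δ) (a : ι) (b : ℝ)
    (l : List (SUGroup n)) (hl : ∀ y ∈ l, dsp χ δ a a y ≤ b) :
    dsp χ δ a a l.prod ≤ l.length * b := by
  induction l with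
  | nil => simp [dsp_one' χ h]
  | cons z l ih =>
    have h0 := dsp_triangle hχ h hF a a a (z * l.prod) z
    rw [inv_mul_cancel_left] at h0
    have h1 := hl z (List.mem_cons_self)
    have h2 := ih fun y hy => hl y (List.mem_cons_of_mem _ hy)
    rw [List.prod_cons, List.length_cons]
    push_cast
    linarith

private theorem measurable_dsp_sq (hχ : Lat Γ χ) {ι : Type}
    {δ : ι → ι → SUGroup n → SUGroup n → ℝ} (h : Psm Γ δ) (a b : ι) :
    Measurable fun x => dsp χ δ a b x ^ 2 := by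
  have hG := LG.CutG.of_lat hχ
  have h1 : (fun x => dsp χ δ a b x ^ 2) = fun x => ∫ g, χ g * δ a b g (g * x) ^ 2 ∂(mu n) := by
    funext x
    rw [dsp, LG.nm_sq hG, II]
    simp only [smul_eq_mul]
  rw [h1]
  have h2 : Continuous fun p : SUGroup n × SUGroup n => χ p.2 * δ a b p.2 (p.2 * p.1) ^ 2 :=
    (hχ.cont.comp continuous_snd).mul ((cont_d h a b).pow 2)
  exact (h2.stronglyMeasurable.integral_prod_right (ν := mu n)).measurable

theorem measurable_dsp (hχ : Lat Γ χ) {ι : Type} {δ : ι → ι → SUGroup n → SUGroup n → ℝ}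
    (h : Psm Γ δ) (a b : ι) : Measurable (dsp χ δ a b) := by
  have h1 := (measurable_dsp_sq hχ h a b).sqrt
  have h2 : (fun x => Real.sqrt (dsp χ δ a b x ^ 2)) = dsp χ δ a b := by
    funext x
    exact Real.sqrt_sq (dsp_nonneg' χ δ a b x)
  rwa [h2] at h1

/-- The square of the displacement as a lower integral. -/
theorem LI_sq (hχ : Lat Γ χ) {ι : Type} {δ : ι → ι → SUGroup n → SUGroup n → ℝ}
    (h : Psm Γ δ) (hF : Fd χ δ) (a b : ι) (x : SUGroup n) :
    LI χ (fun g => ENNReal.ofReal (δ a b g (g * x) ^ 2)) =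
      ENNReal.ofReal (dsp χ δ a b x ^ 2) := by
  have hG := LG.CutG.of_lat hχ
  rw [dsp, LG.nm_sq hG]
  exact LG.lint_eq_II hG (hF a b x).sq fun g => sq_nonneg _

section main

variable {ι : Type} {δ : ι → ι → SUGroup n → SUGroup n → ℝ} {a b : ι}

/-- The mean of the squared displacement is bounded by the energy. -/
private theorem integral_dsp_le (hχ : Lat Γ χ) {s : ℕ} (h : Psm Γ δ) (hF : Fd χ δ) {c : ℝ}
    (hc : 0 ≤ c)
    (hE : LI χ (fun g => ∫⁻ x, ENNReal.ofReal (kap s x) *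
        ENNReal.ofReal (δ a b g (g * x) ^ 2) ∂(mu n)) ≤ ENNReal.ofReal c) :
    Integrable (fun x => kap s x * dsp χ δ a b x ^ 2) (mu n) ∧
      ∫ x, kap s x * dsp χ δ a b x ^ 2 ∂(mu n) ≤ c := by
  have hm : Measurable fun x => kap s x * dsp χ δ a b x ^ 2 :=
    (continuous_kap s).measurable.mul (measurable_dsp_sq hχ h a b)
  have h0 : ∀ x, 0 ≤ kap s x * dsp χ δ a b x ^ 2 := fun x =>
    mul_nonneg (kap_nonneg s x) (sq_nonneg _)
  have h1 : ∫⁻ x, ENNReal.ofReal (kap s x * dsp χ δ a b x ^ 2) ∂(mu n) ≤ ENNReal.ofReal c := by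
    refine le_trans (le_of_eq ?_) hE
    have hcc : Continuous fun p : SUGroup n × SUGroup n => δ a b p.1 (p.1 * p.2) ^ 2 :=
      (cont_d' h a b).pow 2
    have hcm : Measurable fun p : SUGroup n × SUGroup n =>
        ENNReal.ofReal (δ a b p.1 (p.1 * p.2) ^ 2) := hcc.measurable.ennreal_ofReal
    rw [LI_lintegral hχ (continuous_kap s).measurable.ennreal_ofReal.aemeasurable
      (fun g x => ENNReal.ofReal (δ a b g (g * x) ^ 2)) hcm.aemeasurable]
    refine lintegral_congr fun x => ?_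
    rw [LI_sq hχ h hF, ENNReal.ofReal_mul (kap_nonneg s x)]
  constructor
  · refine ⟨hm.aestronglyMeasurable, ?_⟩
    rw [hasFiniteIntegral_iff_ofReal (ae_of_all _ h0)]
    exact lt_of_le_of_lt h1 ENNReal.ofReal_lt_top
  · rw [integral_eq_lintegral_of_nonneg_ae (ae_of_all _ h0) hm.aestronglyMeasurable]
    exact ENNReal.toReal_le_of_le_ofReal hc h1

private theorem measurableSet_good (hχ : Lat Γ χ) (h : Psm Γ δ) (a b : ι) (u v : ℝ) :
    MeasurableSet {x : SUGroup n | dsp χ δ a b x ^ 2 ≤ u ∧ ch x ^ 2 - 1 ≤ v} := by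
  refine MeasurableSet.inter ?_ ?_
  · exact measurableSet_le (measurable_dsp_sq hχ h a b) measurable_const
  · exact (isClosed_le ((continuous_ch.pow 2).sub continuous_const) continuous_const).measurableSet

/-- The good set: large mass. -/
private theorem good_mass (hχ : Lat Γ χ) {s : ℕ} (hn : 1 ≤ n) (hs : 2 * n + 2 ≤ s)
    (h : Psm Γ δ) {c : ℝ} (hc : 0 < c)
    (hi : Integrable (fun x => kap s x * dsp χ δ a b x ^ 2) (mu n))
    (hE : ∫ x, kap s x * dsp χ δ a b x ^ 2 ∂(mu n) ≤ c / s) :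
    3 / 4 ≤ ∫ x in {x : SUGroup n | dsp χ δ a b x ^ 2 ≤ 8 * c / s ∧ ch x ^ 2 - 1 ≤ 16 * n / s},
      kap s x ∂(mu n) := by
  have hn' : (1 : ℝ) ≤ n := by exact_mod_cast hn
  have hs0 : (2 : ℝ) * n + 2 ≤ s := by exact_mod_cast hs
  have hsp : (0 : ℝ) < s := by linarith
  set A := {x : SUGroup n | dsp χ δ a b x ^ 2 ≤ 8 * c / s ∧ ch x ^ 2 - 1 ≤ 16 * n / s} with hA
  have hAm : MeasurableSet A := measurableSet_good hχ h a b _ _
  have hk := integrable_kap (n := n) (s := s) (by omega)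
  have hk1 := integral_kap (n := n) (s := s) (by omega)
  have hm := integrable_mom (n := n) (s := s) (N := 0) (k := 1) (by omega)
  have hm1 := mom_one (n := n) (s := s) (by omega)
  simp only [mul_zero, pow_zero, one_mul, pow_one] at hm
  have h1 : ∫ x in A, kap s x ∂(mu n) + ∫ x in Aᶜ, kap s x ∂(mu n) = 1 := by
    rw [integral_add_compl hAm hk, hk1]
  have h2 : ∫ x in Aᶜ, kap s x ∂(mu n) ≤ ∫ x, (s / (8 * c) * (kap s x * dsp χ δ a b x ^ 2) +
      s / (16 * n) * (kap s x * (ch x ^ 2 - 1))) ∂(mu n) := by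
    rw [← integral_indicator hAm.compl]
    refine integral_mono (hk.indicator hAm.compl)
      ((hi.const_mul _).add (hm.const_mul _)) fun x => ?_
    have hkx := kap_nonneg s x
    have h3 : 0 ≤ dsp χ δ a b x ^ 2 := sq_nonneg _
    have h4 : 0 ≤ ch x ^ 2 - 1 := by
      have := one_le_ch x
      nlinarith
    simp only
    by_cases hx : x ∈ Aᶜ
    · rw [Set.indicator_of_mem hx]
      have hx2 : ¬ (dsp χ δ a b x ^ 2 ≤ 8 * c / s ∧ ch x ^ 2 - 1 ≤ 16 * n / s) := hx
      have key : 1 ≤ s / (8 * c) * dsp χ δ a b x ^ 2 + s / (16 * n) * (ch x ^ 2 - 1) := by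
        rw [not_and_or, not_le, not_le] at hx2
        have e3 : 0 ≤ s / (8 * c) * dsp χ δ a b x ^ 2 := by positivity
        have e4 : 0 ≤ s / (16 * n) * (ch x ^ 2 - 1) := by positivity
        rcases hx2 with h | h
        · have : 1 ≤ s / (8 * c) * dsp χ δ a b x ^ 2 := by
            have e5 := mul_le_mul_of_nonneg_left h.le (show 0 ≤ (s : ℝ) / (8 * c) by positivity)
            have e6 : (s : ℝ) / (8 * c) * (8 * c / s) = 1 := by field_simp
            linarith
          linarith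
        · have : 1 ≤ s / (16 * n) * (ch x ^ 2 - 1) := by
            have e5 := mul_le_mul_of_nonneg_left h.le
              (show 0 ≤ (s : ℝ) / (16 * n) by positivity)
            have e6 : (s : ℝ) / (16 * n) * (16 * n / s) = 1 := by field_simp
            linarith
          linarith
      nlinarith
    · rw [Set.indicator_of_notMem hx]
      positivity
  rw [integral_add (hi.const_mul _) (hm.const_mul _), integral_const_mul, integral_const_mul,
    hm1] at h2
  have h3 : s / (8 * c) * ∫ x, kap s x * dsp χ δ a b x ^ 2 ∂(mu n) ≤ 1 / 8 := by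
    have := mul_le_mul_of_nonneg_left hE (show 0 ≤ (s : ℝ) / (8 * c) by positivity)
    refine this.trans (le_of_eq ?_)
    field_simp
  have h4 : (s : ℝ) / (16 * n) * (n / (s - 1 - n)) ≤ 1 / 8 := by
    have e1 : (0 : ℝ) < s - 1 - n := by linarith
    rw [div_mul_div_comm, div_le_div_iff₀ (by positivity) (by norm_num)]
    nlinarith
  linarith

/-- Small translates. -/
private theorem dsp_small (hχ : Lat Γ χ) {s : ℕ} (hn : 1 ≤ n)
    (hs : 2 * n + 2 ≤ s) (h : Psm Γ δ) (hF : Fd χ δ) {c : ℝ}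
    (hmass : 3 / 4 ≤ ∫ x in {x : SUGroup n | dsp χ δ a b x ^ 2 ≤ 8 * c / s ∧
      ch x ^ 2 - 1 ≤ 16 * n / s}, kap s x ∂(mu n)) {z : SUGroup n}
    (hz : ch z ^ 2 - 1 ≤ 1 / (400 * n * s)) :
    dsp χ δ a a z ≤ 2 * Real.sqrt (8 * c / s) := by
  set A := {x : SUGroup n | dsp χ δ a b x ^ 2 ≤ 8 * c / s ∧ ch x ^ 2 - 1 ≤ 16 * n / s} with hA
  have hAm : MeasurableSet A := measurableSet_good hχ h a b _ _
  have hk := integrable_kap (n := n) (s := s) (by omega)
  have hk1 := integral_kap (n := n) (s := s) (by omega)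
  obtain ⟨y, hy1, hy2⟩ : ∃ y, y ∈ A ∧ z⁻¹ * y ∈ A := by
    by_contra hno
    push Not at hno
    set B : Set (SUGroup n) := (fun y => z⁻¹ * y) ⁻¹' A with hB
    have hBm : MeasurableSet B := (measurable_const_mul z⁻¹) hAm
    have hdisj : Disjoint A B := by
      rw [Set.disjoint_left]
      intro y h1 h2
      exact hno y h1 h2
    have h1 : ∫ x in A ∪ B, kap s x ∂(mu n) = ∫ x in A, kap s x ∂(mu n) +
        ∫ x in B, kap s x ∂(mu n) :=
      setIntegral_union hdisj hBm hk.integrableOn hk.integrableOn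
    have h2 : ∫ x in A ∪ B, kap s x ∂(mu n) ≤ 1 := by
      rw [← hk1]
      exact setIntegral_le_integral hk (ae_of_all _ fun x => kap_nonneg s x)
    have h3 : 1 / 2 * ∫ x in A, kap s x ∂(mu n) ≤ ∫ x in B, kap s x ∂(mu n) := by
      have e1 : ∫ x in B, kap s x ∂(mu n) = ∫ x, A.indicator (fun x => kap s (z * x)) x ∂(mu n) := by
        rw [← integral_indicator hBm, ← integral_mul_left_eq_self (μ := mu n) _ z]
        refine integral_congr_ae (ae_of_all _ fun x => ?_)
        beta_reduce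
        by_cases hx : x ∈ A
        · rw [Set.indicator_of_mem hx, Set.indicator_of_mem]
          show z⁻¹ * (z * x) ∈ A
          rwa [inv_mul_cancel_left]
        · rw [Set.indicator_of_notMem hx, Set.indicator_of_notMem]
          show ¬ (z⁻¹ * (z * x) ∈ A)
          rwa [inv_mul_cancel_left]
      rw [e1, ← integral_indicator hAm, ← integral_const_mul]
      refine integral_mono ((hk.indicator hAm).const_mul _)
        ((hk.comp_mul_left z).indicator hAm) fun x => ?_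
      by_cases hx : x ∈ A
      · simp only [Set.indicator_of_mem hx]
        exact kap_mul_ge (by omega) (by omega) hz hx.2 hn
      · simp only [Set.indicator_of_notMem hx, mul_zero, le_refl]
    linarith
  have h1 := dsp_triangle hχ h hF a b a z y
  have h2 : dsp χ δ b a (y⁻¹ * z) = dsp χ δ a b (z⁻¹ * y) := by
    rw [dsp_symm hχ h hF a b, _root_.mul_inv_rev, inv_inv]
  rw [h2] at h1
  have h3 : dsp χ δ a b y ≤ Real.sqrt (8 * c / s) := Real.le_sqrt_of_sq_le hy1.1
  have h4 : dsp χ δ a b (z⁻¹ * y) ≤ Real.sqrt (8 * c / s) := Real.le_sqrt_of_sq_le hy2.1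
  linarith

private theorem dsp_bound (hχ : Lat Γ χ) {s : ℕ} (hn : 1 ≤ n)
    (hs : 2 * n + 2 ≤ s) (h : Psm Γ δ) (hF : Fd χ δ) {c : ℝ} (hc : 0 < c)
    (hmass : 3 / 4 ≤ ∫ x in {x : SUGroup n | dsp χ δ a b x ^ 2 ≤ 8 * c / s ∧
      ch x ^ 2 - 1 ≤ 16 * n / s}, kap s x ∂(mu n)) (x : SUGroup n) :
    dsp χ δ a a x ≤ 2 * Real.sqrt (8 * c) * (30 * n * Real.log (wt x) + 2 / Real.sqrt s) := by
  have hn' : (1 : ℝ) ≤ n := by exact_mod_cast hn
  have hs0 : (2 : ℝ) * n + 2 ≤ s := by exact_mod_cast hs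
  have hsp : (0 : ℝ) < s := by linarith
  have hsq : 0 < Real.sqrt s := Real.sqrt_pos.2 hsp
  have hsq1 : 1 ≤ Real.sqrt s := Real.one_le_sqrt.2 (by linarith)
  set u := Real.log (wt x) with hu
  have hu0 : 0 ≤ u := log_wt_nonneg x
  set K : ℝ := 30 * n * Real.sqrt s * u with hK
  have hK0 : 0 ≤ K := by positivity
  set N : ℕ := ⌈K⌉₊ + 1 with hN
  have hNK : K ≤ N := by
    rw [hN]
    push_cast
    have := Nat.le_ceil K
    linarith
  have hN2 : (N : ℝ) ≤ K + 2 := by
    rw [hN]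
    push_cast
    have := Nat.ceil_lt_add_one hK0
    linarith
  have hN1 : 1 ≤ N := by omega
  have hN1' : (1 : ℝ) ≤ N := by exact_mod_cast hN1
  obtain ⟨l, hl1, hl2, hl3⟩ := exists_factor hn x N hN1
  have hsm : ∀ y ∈ l, dsp χ δ a a y ≤ 2 * Real.sqrt (8 * c / s) := by
    intro y hy
    have h1 := hl3 y hy
    have h2 : (N : ℝ) * Real.log (wt y) = u := by
      rw [← Real.log_pow, h1]
    have h3 : Real.log (wt y) ≤ 1 / (30 * n * Real.sqrt s) := by
      rw [le_div_iff₀ (by positivity)]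
      by_contra hneg
      push Not at hneg
      have h4 : 0 ≤ Real.log (wt y) := log_wt_nonneg y
      have h5 : K = (N : ℝ) * (Real.log (wt y) * (30 * n * Real.sqrt s)) := by
        rw [hK, ← h2]
        ring
      nlinarith
    have h4 : 0 ≤ Real.log (wt y) := log_wt_nonneg y
    have h5 : 1 / (30 * n * Real.sqrt s) ≤ 1 := by
      rw [div_le_one (by positivity)]
      nlinarith
    have h6 := ch_sq_le y (h3.trans h5)
    have h7 : Real.log (wt y) ^ 2 ≤ (1 / (30 * n * Real.sqrt s)) ^ 2 := pow_le_pow_left₀ h4 h3 2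
    have h8 : (1 / (30 * n * Real.sqrt s)) ^ 2 = 1 / (900 * n ^ 2 * s) := by
      rw [div_pow, mul_pow, mul_pow, Real.sq_sqrt hsp.le]
      norm_num
    refine dsp_small hχ hn hs h hF hmass ?_
    refine h6.trans ?_
    rw [h8] at h7
    calc 9 / 4 * Real.log (wt y) ^ 2 ≤ 9 / 4 * (1 / (900 * (n : ℝ) ^ 2 * s)) := by linarith
      _ = 1 / (400 * (n : ℝ) ^ 2 * s) := by
          field_simp
          norm_num
      _ ≤ 1 / (400 * (n : ℝ) * s) := by
          apply one_div_le_one_div_of_le (by positivity)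
          nlinarith [mul_pos (show (0 : ℝ) < n by linarith) hsp]
  have h1 := dsp_list hχ h hF a _ l hsm
  rw [hl1, hl2] at h1
  refine h1.trans ?_
  rw [Real.sqrt_div (by positivity)]
  have h2 : (N : ℝ) * (2 * (Real.sqrt (8 * c) / Real.sqrt s)) ≤
      (K + 2) * (2 * (Real.sqrt (8 * c) / Real.sqrt s)) :=
    mul_le_mul_of_nonneg_right hN2 (by positivity)
  refine h2.trans (le_of_eq ?_)
  rw [hK]
  field_simp

private theorem dsp_LH (hχ : Lat Γ χ) {s : ℕ} (hn : 1 ≤ n)
    (hs : 2 * n + 2 ≤ s) (h : Psm Γ δ) (hF : Fd χ δ) {c : ℝ} (hc : 0 < c)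
    (hmass : 3 / 4 ≤ ∫ x in {x : SUGroup n | dsp χ δ a b x ^ 2 ≤ 8 * c / s ∧
      ch x ^ 2 - 1 ≤ 16 * n / s}, kap s x ∂(mu n)) :
    dsp χ δ a b 1 ≤ Real.sqrt (8 * c) * (240 * n * Real.sqrt n + 5) / Real.sqrt s := by
  have hn' : (1 : ℝ) ≤ n := by exact_mod_cast hn
  have hs0 : (2 : ℝ) * n + 2 ≤ s := by exact_mod_cast hs
  have hsp : (0 : ℝ) < s := by linarith
  have hsq : 0 < Real.sqrt s := Real.sqrt_pos.2 hsp
  obtain ⟨x, hx⟩ : ({x : SUGroup n | dsp χ δ a b x ^ 2 ≤ 8 * c / s ∧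
      ch x ^ 2 - 1 ≤ 16 * n / s}).Nonempty := by
    by_contra hne
    rw [Set.not_nonempty_iff_eq_empty] at hne
    rw [hne, setIntegral_empty] at hmass
    norm_num at hmass
  have h1 := dsp_triangle hχ h hF a a b 1 x⁻¹
  rw [inv_inv, mul_one] at h1
  have h2 := dsp_bound hχ hn hs h hF hc hmass x⁻¹
  have h3 : Real.log (wt x⁻¹) ≤ 4 * Real.sqrt n / Real.sqrt s := by
    rw [wt_inv]
    refine (log_wt_le x).trans ?_
    have e1 : Real.sqrt (ch x ^ 2 - 1) ≤ Real.sqrt (16 * n / s) := Real.sqrt_le_sqrt hx.2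
    refine e1.trans (le_of_eq ?_)
    rw [Real.sqrt_div (by positivity), Real.sqrt_mul (by norm_num)]
    congr 2
    rw [show (16 : ℝ) = 4 ^ 2 by norm_num, Real.sqrt_sq (by norm_num)]
  have h4 : dsp χ δ a b x ≤ Real.sqrt (8 * c) / Real.sqrt s := by
    rw [← Real.sqrt_div (by positivity)]
    exact Real.le_sqrt_of_sq_le hx.1
  have h5 : 30 * n * Real.log (wt x⁻¹) + 2 / Real.sqrt s ≤
      (120 * n * Real.sqrt n + 2) / Real.sqrt s := by
    have := mul_le_mul_of_nonneg_left h3 (show (0 : ℝ) ≤ 30 * n by positivity)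
    have e2 : (120 * n * Real.sqrt n + 2) / Real.sqrt s =
        30 * n * (4 * Real.sqrt n / Real.sqrt s) + 2 / Real.sqrt s := by
      field_simp
      ring
    rw [e2]
    linarith
  have h6 := mul_le_mul_of_nonneg_left h5 (show (0 : ℝ) ≤ 2 * Real.sqrt (8 * c) by positivity)
  have h7 : 2 * Real.sqrt (8 * c) * ((120 * n * Real.sqrt n + 2) / Real.sqrt s) +
      Real.sqrt (8 * c) / Real.sqrt s =
      Real.sqrt (8 * c) * (240 * n * Real.sqrt n + 5) / Real.sqrt s := by
    field_simp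
    ring
  linarith

end main

/-- **The displacement bound** (T3 D3): the constant depends only on `n` and `c`. -/
theorem dsp_main (hn : 1 ≤ n) {c : ℝ} (hc : 0 < c) : ∃ C : ℝ, 0 < C ∧
    ∀ (Γ : Subgroup (SUGroup n)) (χ : SUGroup n → ℝ), Lat Γ χ →
    ∀ δ : Bool → Bool → SUGroup n → SUGroup n → ℝ, Psm Γ δ → Fd χ δ → ∀ s : ℕ, 2 * n + 2 ≤ s →
      LI χ (fun g => ∫⁻ x, ENNReal.ofReal (kap s x) *
        ENNReal.ofReal (δ false true g (g * x) ^ 2) ∂(mu n)) ≤ ENNReal.ofReal (c / s) →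
      ∀ (a b : Bool) (x : SUGroup n), dsp χ δ a b x ≤ C * (Real.log (wt x) + 1 / Real.sqrt s) := by
  obtain ⟨S, hS⟩ : ∃ S : ℝ, S = Real.sqrt (8 * c) := ⟨_, rfl⟩
  have hS0 : 0 < S := by rw [hS]; exact Real.sqrt_pos.2 (by linarith)
  obtain ⟨q, hq⟩ : ∃ q : ℝ, q = 240 * n * Real.sqrt n + 5 := ⟨_, rfl⟩
  have hn' : (1 : ℝ) ≤ n := by exact_mod_cast hn
  have hq0 : 0 < q := by rw [hq]; positivity
  refine ⟨S * (60 * n + 4 + 2 * q), by positivity,
    fun Γ χ hχ δ h hF s hs hE a b x => ?_⟩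
  have hs0 : (2 : ℝ) * n + 2 ≤ s := by exact_mod_cast hs
  have hsp : (0 : ℝ) < s := by linarith
  have hsq : 0 < Real.sqrt s := Real.sqrt_pos.2 hsp
  obtain ⟨hi, hi2⟩ := integral_dsp_le hχ h hF (a := false) (b := true) (c := c / s)
    (by positivity) hE
  have hmass := good_mass hχ hn hs h hc hi hi2
  have hb := dsp_bound hχ hn hs h hF hc hmass x
  have hl := dsp_LH hχ hn hs h hF hc hmass
  rw [← hS] at hb hl
  rw [← hq] at hl
  have hu0 : 0 ≤ Real.log (wt x) := log_wt_nonneg x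
  -- the other displacement at `1`
  have hl' : dsp χ δ true false 1 ≤ S * q / Real.sqrt s := by
    have e := dsp_symm hχ h hF false true 1
    rw [inv_one] at e
    rw [e]
    exact hl
  have hv : 0 < 1 / Real.sqrt s := by positivity
  have e1 : S * q / Real.sqrt s = S * q * (1 / Real.sqrt s) := by ring
  have e2 : 2 * S * (30 * n * Real.log (wt x) + 2 / Real.sqrt s) =
      S * (60 * n) * Real.log (wt x) + S * 4 * (1 / Real.sqrt s) := by ring
  rw [e1] at hl hl'
  rw [e2] at hb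
  have key : S * (60 * n) * Real.log (wt x) + S * 4 * (1 / Real.sqrt s) +
      2 * (S * q * (1 / Real.sqrt s)) ≤
      S * (60 * n + 4 + 2 * q) * (Real.log (wt x) + 1 / Real.sqrt s) := by
    have e3 : S * (60 * n + 4 + 2 * q) * (Real.log (wt x) + 1 / Real.sqrt s) =
        (S * (60 * n) * Real.log (wt x) + S * 4 * (1 / Real.sqrt s) +
      2 * (S * q * (1 / Real.sqrt s))) + (S * (4 + 2 * q) * Real.log (wt x) +
        S * (60 * n) * (1 / Real.sqrt s)) := by ring
    rw [e3]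
    have e4 : 0 ≤ S * (4 + 2 * q) * Real.log (wt x) := by positivity
    have e5 : 0 ≤ S * (60 * n) * (1 / Real.sqrt s) := by positivity
    linarith
  have hp : 0 ≤ S * q * (1 / Real.sqrt s) := by positivity
  -- false true
  have hft : dsp χ δ false true x ≤ S * (60 * n) * Real.log (wt x) +
      S * 4 * (1 / Real.sqrt s) + S * q * (1 / Real.sqrt s) := by
    have h1 := dsp_triangle hχ h hF false false true x x
    rw [inv_mul_cancel] at h1
    linarith
  refine le_trans ?_ key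
  cases a <;> cases b
  · linarith
  · linarith
  · have h1 := dsp_triangle hχ h hF true false false x 1
    rw [inv_one, one_mul] at h1
    linarith
  · have h1 := dsp_triangle hχ h hF true false true x 1
    rw [inv_one, one_mul] at h1
    linarith

end Pool.Agent.Lib.MP_5d4057_al.IN
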