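import Pool.Agent.Lib.MP_5d4057_al.IN.EnJ
import Pool.Agent.Lib.MP_5d4057_al.IN.Psm
import Pool.Agent.Lib.MP_5d4057_al.IN.Fun
import Pool.Agent.Lib.MP_5d4057_al.NU.LipN1

/-! Part B of INT: the centre of one map (B7), and a polynomial bound from the averages; common to the
files `CenB` and `CenBF`. -/

namespace Pool.Agent.Lib.MP_5d4057_al.IN

open MeasureTheory Filter Topology Pool.Agent.Lib.MP_5d4057_al
open Pool.Agent.Lib.MP_5d4057_al.Hyb Pool.Agent.Lib.MP_5d4057_al.HM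
open Pool.Agent.Lib.MP_5d4057_al.NU

open scoped ENNReal

variable {n : ℕ} {Γ : Subgroup (SUGroup n)} {χ : SUGroup n → ℝ} {Y : Type} [MetricSpace Y]
variable {Φ : Y → Y → ℝ} {κ : ℝ} {lv : Y → ℝ} {y₀ : Y} {ρ : Γ →* Equiv.Perm Y}

/-- A function with small integral over the quotient is small at a point of the ball `ch ≤ 2`. -/
theorem cg_point (hχ : Lat Γ χ) : ∃ M : ℝ, 0 < M ∧ ∀ (φ : SUGroup n → ℝ≥0∞) (K : ℝ), 0 ≤ K →
    LI χ φ ≤ ENNReal.ofReal K → ∃ g₀ : SUGroup n, ch g₀ ≤ 2 ∧ φ g₀ ≤ ENNReal.ofReal (M * (K + 1)) := by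
  have hne : ({x : SUGroup n | ch x ≤ 2}).Nonempty := ⟨1, by
    show ch (1 : SUGroup n) ≤ 2
    rw [ch_one]
    norm_num⟩
  obtain ⟨y, -, hy⟩ := (isCompact_ball (n := n) 2).exists_isMinOn hne hχ.cont.continuousOn
  have hm := hχ.pos y
  have hv := DD.ball_pos (n := n)
  obtain ⟨m, hmd⟩ : ∃ m, m = χ y := ⟨_, rfl⟩
  obtain ⟨v, hvd⟩ : ∃ v, v = (mu n).real {x : SUGroup n | ch x ≤ 2} := ⟨_, rfl⟩
  rw [← hmd] at hm
  rw [← hvd] at hv
  refine ⟨1 / (m * v), by positivity, fun φ K hK hφ => ?_⟩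
  by_contra hno
  push Not at hno
  have h1 : ENNReal.ofReal (K + 1) ≤ LI χ φ := by
    calc ENNReal.ofReal (K + 1)
        = ENNReal.ofReal (m * (1 / (m * v) * (K + 1))) * ENNReal.ofReal v := by
          rw [← ENNReal.ofReal_mul (by positivity)]
          congr 1
          field_simp
      _ = ENNReal.ofReal (m * (1 / (m * v) * (K + 1))) * ∫⁻ g, ib 2 g ∂(mu n) := by
          rw [lint_ib, hvd]
      _ = ∫⁻ g, ENNReal.ofReal (m * (1 / (m * v) * (K + 1))) * ib 2 g ∂(mu n) :=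
          (lintegral_const_mul' _ _ ENNReal.ofReal_ne_top).symm
      _ ≤ LI χ φ := by
          refine lintegral_mono fun g => ?_
          simp only
          unfold ib
          split_ifs with hg
          · rw [mul_one, ENNReal.ofReal_mul hm.le]
            refine mul_le_mul' (ENNReal.ofReal_le_ofReal ?_) (hno g hg).le
            rw [hmd]
            exact hy hg
          · rw [mul_zero]
            exact zero_le
  have h2 := h1.trans hφ
  rw [ENNReal.ofReal_le_ofReal_iff hK] at h2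
  linarith

/-- Chebyshev: a point `x` such that `w` is small both at `x` and at `h x`. -/
theorem cg_two {w : SUGroup n → ℝ} (hw : Continuous w) {h : SUGroup n} {T : ℝ}
    (hT : 4 * ch h ≤ T) {c u : ℝ} (hc0 : 0 ≤ c) (hu : 0 < u)
    (ho : ∫⁻ x, ib T x * ENNReal.ofReal (w x ^ 2) ∂(mu n) ≤ ENNReal.ofReal c)
    (hc : 2 * c < u ^ 2 * (mu n).real {x : SUGroup n | ch x ≤ 2}) :
    ∃ x, w x ≤ u ∧ w (h * x) ≤ u := by
  set B := {x : SUGroup n | ch x ≤ T} with hB
  set B1 := {x : SUGroup n | ch x ≤ 2} with hB1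
  have hch := one_le_ch h
  set E := {x : SUGroup n | ch x ≤ T ∧ u < w x} with hE
  have hEm : MeasurableSet E :=
    (DD.measurableSet_ball T).inter (isOpen_lt continuous_const hw).measurableSet
  have h1 : ENNReal.ofReal (u ^ 2) * (mu n) E ≤ ENNReal.ofReal c := by
    rw [← lintegral_indicator_const hEm]
    refine le_trans (lintegral_mono fun x => ?_) ho
    simp only
    by_cases hx : x ∈ E
    · rw [Set.indicator_of_mem hx]
      unfold ib
      rw [if_pos hx.1, one_mul]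
      exact ENNReal.ofReal_le_ofReal (pow_le_pow_left₀ hu.le hx.2.le 2)
    · rw [Set.indicator_of_notMem hx]
      exact zero_le
  by_contra hno
  push Not at hno
  have h2 : B1 ⊆ E ∪ (fun x => h * x) ⁻¹' E := by
    intro x hx
    have hx2 : ch x ≤ 2 := hx
    have hhx : ch (h * x) ≤ T := by
      have := ch_mul_le' h x
      nlinarith
    by_cases h3 : w x ≤ u
    · exact Or.inr ⟨hhx, hno x h3⟩
    · refine Or.inl ⟨?_, not_le.1 h3⟩
      linarith
  have h4 : (mu n) B1 ≤ 2 * (mu n) E := by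
    calc (mu n) B1 ≤ (mu n) (E ∪ (fun x => h * x) ⁻¹' E) := measure_mono h2
      _ ≤ (mu n) E + (mu n) ((fun x => h * x) ⁻¹' E) := measure_union_le _ _
      _ = 2 * (mu n) E := by rw [measure_preimage_mul, two_mul]
  have h5 : ENNReal.ofReal (u ^ 2 * (mu n).real B1) ≤ ENNReal.ofReal (2 * c) := by
    rw [ENNReal.ofReal_mul (by positivity), ofReal_measureReal (isCompact_ball 2).measure_lt_top.ne,
      ENNReal.ofReal_mul (by norm_num)]
    calc ENNReal.ofReal (u ^ 2) * (mu n) B1 ≤ ENNReal.ofReal (u ^ 2) * (2 * (mu n) E) := by gcongr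
      _ = 2 * (ENNReal.ofReal (u ^ 2) * (mu n) E) := by ring
      _ ≤ 2 * ENNReal.ofReal c := by gcongr
      _ = _ := by rw [ENNReal.ofReal_ofNat]
  rw [ENNReal.ofReal_le_ofReal_iff (by positivity)] at h5
  linarith

/-- **The centre of one map**: a map with displacement `≤ C₀ ch x ^ 2` (in the square) is at bounded
distance of `y₀`, in the mean over balls, with polynomial constants. -/
theorem cg_one (hχ : Lat Γ χ) (D : Dat ρ Φ κ lv y₀) {C₀ : ℝ} (hC₀ : 0 ≤ C₀) :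
    ∃ C : ℝ, 0 < C ∧ ∀ f : SUGroup n → Y, Eqv ρ f → (∀ g, lv (f g) = 0) →
      (∀ x, LI χ (fun g => ENNReal.ofReal (dist (f g) (f (g * x)) ^ 2)) ≤
        ENNReal.ofReal (C₀ * ch x ^ 2)) →
      ∀ T : ℝ, 1 ≤ T → ∫⁻ g, ib T g * ENNReal.ofReal (dist y₀ (f g) ^ 2) ∂(mu n) ≤
        ENNReal.ofReal (C * T ^ (2 * (n + 2))) := by
  obtain ⟨M, hM0, hM⟩ := cg_point hχ
  obtain ⟨V, hV0, hV⟩ := lint_ib_poly n
  obtain ⟨S, hS⟩ := D.irr
  obtain ⟨H, hH⟩ := (S.image fun γ : Γ => ch (γ : SUGroup n)).exists_le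
  have hv := DD.ball_pos (n := n)
  obtain ⟨v, hvd⟩ : ∃ v, v = (mu n).real {x : SUGroup n | ch x ≤ 2} := ⟨_, rfl⟩
  rw [← hvd] at hv
  obtain ⟨t, ht⟩ : ∃ t, t = n + 2 := ⟨_, rfl⟩
  have hint : Integrable (fun x : SUGroup n => (ch x ^ (2 * t))⁻¹ * ch x ^ 2) (mu n) :=
    integrable_pow (n := n) (s := t) (N := 1) (by omega)
  obtain ⟨J, hJ⟩ : ∃ J, J = ∫ x : SUGroup n, (ch x ^ (2 * t))⁻¹ * ch x ^ 2 ∂(mu n) := ⟨_, rfl⟩
  have hJ0 : 0 ≤ J := by
    rw [hJ]
    exact integral_nonneg fun x => by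
      have := ch_pos x
      positivity
  obtain ⟨P, hP⟩ : ∃ P, P = M * (C₀ * J + 1) := ⟨_, rfl⟩
  have hP0 : 0 < P := by
    rw [hP]
    positivity
  obtain ⟨T₁, hT₁⟩ : ∃ T₁, T₁ = 64 * (|H| + 1) := ⟨_, rfl⟩
  have hT₁0 : 0 ≤ T₁ := by rw [hT₁]; positivity
  obtain ⟨c₁, hc₁⟩ : ∃ c₁, c₁ = T₁ ^ (2 * t) * P := ⟨_, rfl⟩
  have hc₁0 : 0 ≤ c₁ := by rw [hc₁]; positivity
  obtain ⟨u, hu⟩ : ∃ u, u = (2 * c₁ + 1) / v + 1 := ⟨_, rfl⟩
  have hu1 : 1 ≤ u := by
    rw [hu]
    have : 0 ≤ (2 * c₁ + 1) / v := by positivity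
    linarith
  have huv : 2 * c₁ < u ^ 2 * v := by
    have h1 : u * v ≤ u ^ 2 * v := by
      refine mul_le_mul_of_nonneg_right ?_ hv.le
      nlinarith
    have h2 : u * v = 2 * c₁ + 1 + v := by
      rw [hu, add_mul, div_mul_cancel₀ _ hv.ne', one_mul]
    linarith
  obtain ⟨R₀, hR₀⟩ := hS (2 * u)
  refine ⟨2 * R₀ ^ 2 * V + 2 * 4 ^ (2 * t) * P + 1, by positivity, fun f hf hlv hd T hT => ?_⟩
  have hfc := hf.cont
  have hcd : Continuous fun p : SUGroup n × SUGroup n => dist (f p.1) (f (p.1 * p.2)) ^ 2 :=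
    ((hfc.comp continuous_fst).dist (hfc.comp (continuous_fst.mul continuous_snd))).pow 2
  -- the weighted displacement
  have hLI : LI χ (fun g => ∫⁻ x, ENNReal.ofReal ((ch x ^ (2 * t))⁻¹) *
      ENNReal.ofReal (dist (f g) (f (g * x)) ^ 2) ∂(mu n)) ≤ ENNReal.ofReal (C₀ * J) := by
    have hm1 : Measurable fun x : SUGroup n => ENNReal.ofReal ((ch x ^ (2 * t))⁻¹) :=
      ((continuous_ch.pow _).inv₀ fun x => pow_ne_zero _ (ch_pos x).ne').measurable.ennreal_ofReal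
    rw [LI_lintegral hχ hm1.aemeasurable (fun g x => ENNReal.ofReal (dist (f g) (f (g * x)) ^ 2))
      hcd.measurable.ennreal_ofReal.aemeasurable]
    calc ∫⁻ x, ENNReal.ofReal ((ch x ^ (2 * t))⁻¹) *
          LI χ (fun g => ENNReal.ofReal (dist (f g) (f (g * x)) ^ 2)) ∂(mu n)
        ≤ ∫⁻ x, ENNReal.ofReal (C₀ * ((ch x ^ (2 * t))⁻¹ * ch x ^ 2)) ∂(mu n) := by
          refine lintegral_mono fun x => ?_
          have hx := ch_pos x
          refine (mul_le_mul_right (hd x) _).trans (le_of_eq ?_)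
          rw [← ENNReal.ofReal_mul (by positivity)]
          congr 1
          ring
      _ = _ := by
          rw [← ofReal_integral_eq_lintegral_ofReal (hint.const_mul C₀)
            (Eventually.of_forall fun x => ?_), integral_const_mul, hJ]
          have hx := ch_pos x
          positivity
  obtain ⟨g₀, hg₀, hφ⟩ := hM _ _ (by positivity) hLI
  rw [← hP] at hφ
  have hball : ∀ R : ℝ, 0 ≤ R → ∫⁻ x, ib R x * ENNReal.ofReal (dist (f g₀) (f (g₀ * x)) ^ 2) ∂(mu n) ≤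
      ENNReal.ofReal (R ^ (2 * t) * P) := by
    intro R hR
    calc ∫⁻ x, ib R x * ENNReal.ofReal (dist (f g₀) (f (g₀ * x)) ^ 2) ∂(mu n)
        ≤ ∫⁻ x, ENNReal.ofReal (R ^ (2 * t)) * (ENNReal.ofReal ((ch x ^ (2 * t))⁻¹) *
          ENNReal.ofReal (dist (f g₀) (f (g₀ * x)) ^ 2)) ∂(mu n) := by
          refine lintegral_mono fun x => ?_
          rw [← mul_assoc]
          exact mul_le_mul_left (ib_le_pow hR t x) _
      _ = ENNReal.ofReal (R ^ (2 * t)) * ∫⁻ x, ENNReal.ofReal ((ch x ^ (2 * t))⁻¹) *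
          ENNReal.ofReal (dist (f g₀) (f (g₀ * x)) ^ 2) ∂(mu n) :=
          lintegral_const_mul' _ _ ENNReal.ofReal_ne_top
      _ ≤ ENNReal.ofReal (R ^ (2 * t)) * ENNReal.ofReal P := by gcongr
      _ = _ := by rw [← ENNReal.ofReal_mul (by positivity)]
  -- the displacement of the generators
  have hw : Continuous fun x : SUGroup n => dist (f g₀) (f (g₀ * x)) :=
    continuous_const.dist (hfc.comp (continuous_const_mul g₀))
  have hR : dist y₀ (f g₀) ≤ R₀ := by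
    refine hR₀ _ (hlv g₀) fun γ hγ => ?_
    have hγH : ch (γ : SUGroup n) ≤ H := hH _ (Finset.mem_image_of_mem _ hγ)
    have hT1 : 4 * ch (g₀⁻¹ * (γ : SUGroup n) * g₀) ≤ T₁ := by
      have h1 := ch_mul_le' (g₀⁻¹ * (γ : SUGroup n)) g₀
      have h2 := ch_mul_le' g₀⁻¹ (γ : SUGroup n)
      rw [ch_inv] at h2
      have h3 := ch_pos g₀
      have h4 := ch_pos (γ : SUGroup n)
      have h5 := ch_pos (g₀⁻¹ * (γ : SUGroup n))
      have h6 : ch (g₀⁻¹ * (γ : SUGroup n)) ≤ 4 * ch (γ : SUGroup n) := by nlinarith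
      have h7 : ch (g₀⁻¹ * (γ : SUGroup n) * g₀) ≤ 16 * ch (γ : SUGroup n) := by nlinarith
      have h8 := le_abs_self H
      rw [hT₁]
      linarith
    obtain ⟨x, hx1, hx2⟩ := cg_two hw hT1 hc₁0 (by linarith : 0 < u)
      (by rw [hc₁]; exact hball T₁ hT₁0) (by rw [← hvd]; exact huv)
    have e1 : g₀ * (g₀⁻¹ * (γ : SUGroup n) * g₀ * x) = (γ : SUGroup n) * (g₀ * x) := by group
    rw [e1, hf.equi γ] at hx2
    have h1 := D.act.iso γ (f g₀) (f (g₀ * x))
    have h2 := dist_triangle (f g₀) (ρ γ (f (g₀ * x))) (ρ γ (f g₀))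
    rw [dist_comm (ρ γ (f (g₀ * x))), h1] at h2
    linarith
  -- the ball
  have hsq : ∀ g, dist y₀ (f g) ^ 2 ≤ 2 * R₀ ^ 2 + 2 * dist (f g₀) (f g) ^ 2 := by
    intro g
    have h1 := dist_triangle y₀ (f g₀) (f g)
    have h2 : 0 ≤ dist y₀ (f g₀) := dist_nonneg
    have h3 : 0 ≤ dist (f g₀) (f g) := dist_nonneg
    have h4 : 0 ≤ dist y₀ (f g) := dist_nonneg
    have h5 : dist y₀ (f g) ^ 2 ≤ (R₀ + dist (f g₀) (f g)) ^ 2 :=
      pow_le_pow_left₀ h4 (by linarith) 2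
    nlinarith [sq_nonneg (R₀ - dist (f g₀) (f g))]
  have hT0 : 0 ≤ T := by linarith
  have hshift : ∫⁻ g, ib T g * ENNReal.ofReal (dist (f g₀) (f g) ^ 2) ∂(mu n) ≤
      ENNReal.ofReal ((4 * T) ^ (2 * t) * P) := by
    rw [← lintegral_mul_left_eq_self (μ := mu n)
      (fun g => ib T g * ENNReal.ofReal (dist (f g₀) (f g) ^ 2)) g₀]
    refine le_trans (lintegral_mono fun x => ?_) (hball (4 * T) (by positivity))
    simp only
    refine mul_le_mul_left ?_ _
    unfold ib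
    split_ifs with h1 h2
    · exact le_rfl
    · exfalso
      apply h2
      have h3 := ch_mul_le' g₀⁻¹ (g₀ * x)
      rw [inv_mul_cancel_left, ch_inv] at h3
      have h4 := ch_pos (g₀ * x)
      nlinarith
    · exact zero_le
    · exact le_rfl
  have hmi : Measurable fun g : SUGroup n => ib T g * ENNReal.ofReal (2 * R₀ ^ 2) :=
    (measurable_ib T).mul_const _
  calc ∫⁻ g, ib T g * ENNReal.ofReal (dist y₀ (f g) ^ 2) ∂(mu n)
      ≤ ∫⁻ g, (ib T g * ENNReal.ofReal (2 * R₀ ^ 2) +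
          2 * (ib T g * ENNReal.ofReal (dist (f g₀) (f g) ^ 2))) ∂(mu n) := by
        refine lintegral_mono fun g => ?_
        refine (mul_le_mul_right (ENNReal.ofReal_le_ofReal (hsq g)) _).trans (le_of_eq ?_)
        rw [ENNReal.ofReal_add (by positivity) (by positivity), mul_add,
          ENNReal.ofReal_mul (p := 2) (q := dist (f g₀) (f g) ^ 2) (by norm_num), ENNReal.ofReal_ofNat]
        ring
    _ = (∫⁻ g, ib T g ∂(mu n)) * ENNReal.ofReal (2 * R₀ ^ 2) +
          2 * ∫⁻ g, ib T g * ENNReal.ofReal (dist (f g₀) (f g) ^ 2) ∂(mu n) := by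
        rw [lintegral_add_left hmi, lintegral_mul_const' _ _ ENNReal.ofReal_ne_top,
          lintegral_const_mul' _ _ (by norm_num)]
    _ ≤ ENNReal.ofReal (V * T ^ (2 * (n + 1))) * ENNReal.ofReal (2 * R₀ ^ 2) +
          2 * ENNReal.ofReal ((4 * T) ^ (2 * t) * P) := by
        gcongr
        exact hV T hT
    _ = ENNReal.ofReal (V * T ^ (2 * (n + 1)) * (2 * R₀ ^ 2) + 2 * ((4 * T) ^ (2 * t) * P)) := by
        rw [← ENNReal.ofReal_mul (by positivity), ENNReal.ofReal_add (by positivity) (by positivity),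
          ENNReal.ofReal_mul (p := 2) (by norm_num), ENNReal.ofReal_ofNat]
    _ ≤ _ := by
        refine ENNReal.ofReal_le_ofReal ?_
        rw [← ht]
        have h1 : T ^ (2 * (n + 1)) ≤ T ^ (2 * t) := pow_le_pow_right₀ hT (by omega)
        have h2 : 0 ≤ T ^ (2 * t) := by positivity
        have h3 : V * T ^ (2 * (n + 1)) * (2 * R₀ ^ 2) ≤ V * T ^ (2 * t) * (2 * R₀ ^ 2) := by
          gcongr
        rw [mul_pow]
        nlinarith

/-- The weighted integral from the balls: dyadic shells (as `NU.LimN.weighted`). -/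
theorem cg_weighted {k t : ℕ} (ht : k + 1 ≤ t) {K : ℝ} (hK : 0 ≤ K) {u : SUGroup n → ℝ}
    (hu : Continuous u)
    (hb : ∀ T : ℝ, 1 ≤ T → ∫⁻ g, ib T g * ENNReal.ofReal (u g) ∂(mu n) ≤
      ENNReal.ofReal (K * T ^ k)) :
    ∫⁻ y, ENNReal.ofReal ((ch y ^ (2 * t))⁻¹) * ENNReal.ofReal (u y) ∂(mu n) ≤
      ENNReal.ofReal (K * 2 ^ k * 2) := by
  calc ∫⁻ y, ENNReal.ofReal ((ch y ^ (2 * t))⁻¹) * ENNReal.ofReal (u y) ∂(mu n)
      ≤ ∫⁻ y, ∑' j : ℕ, ENNReal.ofReal (((2 : ℝ) ^ j) ^ (2 * t))⁻¹ *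
          (ib (2 ^ (j + 1)) y * ENNReal.ofReal (u y)) ∂(mu n) := by
        refine lintegral_mono fun y => ?_
        refine (mul_le_mul_left (inv_pow_le_tsum t y) _).trans (le_of_eq ?_)
        rw [← ENNReal.tsum_mul_right]
        refine tsum_congr fun j => ?_
        ring
    _ = ∑' j : ℕ, ∫⁻ y, ENNReal.ofReal (((2 : ℝ) ^ j) ^ (2 * t))⁻¹ *
          (ib (2 ^ (j + 1)) y * ENNReal.ofReal (u y)) ∂(mu n) := by
        refine lintegral_tsum fun j => ?_
        exact (((measurable_ib _).mul hu.measurable.ennreal_ofReal).const_mul _).aemeasurable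
    _ ≤ ∑' j : ℕ, ENNReal.ofReal (K * 2 ^ k) * ENNReal.ofReal (1 / 2) ^ j := by
        refine ENNReal.tsum_le_tsum fun j => ?_
        rw [lintegral_const_mul' _ _ ENNReal.ofReal_ne_top]
        have h1 := hb (2 ^ (j + 1)) (one_le_pow₀ (by norm_num))
        calc ENNReal.ofReal (((2 : ℝ) ^ j) ^ (2 * t))⁻¹ *
              ∫⁻ y, ib (2 ^ (j + 1)) y * ENNReal.ofReal (u y) ∂(mu n)
            ≤ ENNReal.ofReal (((2 : ℝ) ^ j) ^ (2 * t))⁻¹ *
              ENNReal.ofReal (K * (2 ^ (j + 1)) ^ k) := by gcongr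
          _ = ENNReal.ofReal ((((2 : ℝ) ^ j) ^ (2 * t))⁻¹ * (K * (2 ^ (j + 1)) ^ k)) := by
              rw [← ENNReal.ofReal_mul (by positivity)]
          _ ≤ ENNReal.ofReal (K * 2 ^ k * (1 / 2) ^ j) := by
              refine ENNReal.ofReal_le_ofReal ?_
              have e1 : (((2 : ℝ) ^ j) ^ (2 * t))⁻¹ * (K * (2 ^ (j + 1)) ^ k) =
                  K * 2 ^ k * ((((2 : ℝ) ^ j) ^ (2 * t))⁻¹ * (2 ^ j) ^ k) := by
                rw [pow_succ, mul_pow]
                ring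
              rw [e1]
              refine mul_le_mul_of_nonneg_left ?_ (by positivity)
              have h2 : (1 : ℝ) ≤ 2 ^ j := one_le_pow₀ (by norm_num)
              rw [one_div, inv_pow, ← div_eq_inv_mul, div_le_iff₀ (by positivity),
                ← div_eq_inv_mul, le_div_iff₀ (by positivity), ← pow_succ]
              exact pow_le_pow_right₀ h2 (by omega)
          _ = _ := by
              rw [ENNReal.ofReal_mul (by positivity), ENNReal.ofReal_pow (by norm_num)]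
    _ = ENNReal.ofReal (K * 2 ^ k) * ENNReal.ofReal 2 := by
        rw [ENNReal.tsum_mul_left, ENNReal.tsum_geometric]
        congr 1
        rw [← ENNReal.ofReal_one, ← ENNReal.ofReal_sub _ (by norm_num),
          ← ENNReal.ofReal_inv_of_pos (by norm_num)]
        norm_num
    _ = _ := by
        rw [← ENNReal.ofReal_mul (by positivity)]

/-- From a bound on the balls to a polynomial bound of a function with `u ≤ Q s u`. -/
theorem cg_poly (n N k : ℕ) {K : ℝ} (hK : 0 ≤ K) : ∃ (s₁ t : ℕ) (C₁ : ℝ), 0 < C₁ ∧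
    ∀ (s : ℕ) (C : ℝ) (u : SUGroup n → ℝ), s₁ ≤ s → 0 ≤ C → Ag N C u → (∀ g, 0 ≤ u g) →
      (∀ g, u g ≤ Boot.Q s u g) →
      (∀ T : ℝ, 1 ≤ T → ∫⁻ g, ib T g * ENNReal.ofReal (u g) ∂(mu n) ≤
        ENNReal.ofReal (K * T ^ k)) → ∀ g, u g ≤ C₁ * ch g ^ (2 * t) := by
  obtain ⟨A₁, hA₁⟩ := Q_comm n N
  obtain ⟨A₂, hA₂⟩ := Q_lap n N
  have hcs := Boot.csOK n
  obtain ⟨t, ht⟩ : ∃ t, t = A₁ + A₂ + 2 * (2 * n + 2) + 4 * N + 2 + (k + 1) := ⟨_, rfl⟩
  have hcp : 0 < cs n t := cs_pos' (by omega)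
  obtain ⟨B, hB⟩ : ∃ B, B = K * 2 ^ k * 2 / cs n t := ⟨_, rfl⟩
  have hB0 : 0 ≤ B := by rw [hB]; positivity
  have hcf := Boot.cfive_pos n t
  refine ⟨t + (2 * (2 * n + 2) + 4 * t + 2), t, Boot.cfive n t * (4 ^ t * B) + 1, by positivity,
    fun s C u hs hC hu h0 hsub hb g => ?_⟩
  have hGr : Boot.Gr N C u := ⟨hu.cont, h0, fun g => (le_abs_self _).trans (hu.bound g)⟩
  have hQ1 : Boot.Q t u 1 ≤ B := by
    unfold Boot.Q
    simp only [one_mul]
    have hm : Continuous fun x : SUGroup n => HM.kap t x * u x := (continuous_kap t).mul hu.cont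
    rw [integral_eq_lintegral_of_nonneg_ae (Eventually.of_forall fun x =>
      mul_nonneg (kap_nonneg _ _) (h0 x)) hm.aestronglyMeasurable]
    refine ENNReal.toReal_le_of_le_ofReal hB0 ?_
    calc ∫⁻ x, ENNReal.ofReal (HM.kap t x * u x) ∂(mu n)
        = ∫⁻ x, ENNReal.ofReal (1 / cs n t) *
          (ENNReal.ofReal ((ch x ^ (2 * t))⁻¹) * ENNReal.ofReal (u x)) ∂(mu n) := by
          refine lintegral_congr fun x => ?_
          have hx := ch_pos x
          rw [← ENNReal.ofReal_mul (by positivity), ← ENNReal.ofReal_mul (by positivity)]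
          congr 1
          unfold HM.kap
          ring
      _ = ENNReal.ofReal (1 / cs n t) *
          ∫⁻ x, ENNReal.ofReal ((ch x ^ (2 * t))⁻¹) * ENNReal.ofReal (u x) ∂(mu n) :=
          lintegral_const_mul' _ _ ENNReal.ofReal_ne_top
      _ ≤ ENNReal.ofReal (1 / cs n t) * ENNReal.ofReal (K * 2 ^ k * 2) := by
          gcongr
          exact cg_weighted (by omega) hK hu.cont hb
      _ = _ := by
          rw [← ENNReal.ofReal_mul (by positivity), hB]
          congr 1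
          ring
  have hPt : ∀ g, Boot.Q t u g ≤ 4 ^ t * B * ch g ^ (2 * t) := by
    intro g
    have h1 := Q_harn hcs hGr hC (s := t) (by omega) g
    have h2 : wt g ^ (2 * t) ≤ (2 * ch g) ^ (2 * t) :=
      pow_le_pow_left₀ (by linarith [one_le_wt g]) (wt_le g) _
    have h3 : (2 * ch g) ^ (2 * t) = 4 ^ t * ch g ^ (2 * t) := by
      rw [mul_pow, pow_mul (2 : ℝ) 2 t]
      norm_num
    have h4 : 0 ≤ wt g ^ (2 * t) := by
      have := one_le_wt g
      positivity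
    have h5 : 0 ≤ ch g ^ (2 * t) := by
      have := ch_pos g
      positivity
    calc Boot.Q t u g ≤ wt g ^ (2 * t) * Boot.Q t u 1 := h1
      _ ≤ wt g ^ (2 * t) * B := mul_le_mul_of_nonneg_left hQ1 h4
      _ ≤ (2 * ch g) ^ (2 * t) * B := mul_le_mul_of_nonneg_right h2 hB0
      _ = _ := by rw [h3]; ring
  have h5 := boot_fiveN hcs hGr hC (A := t) (N' := t) (s := s) (t := t) (by omega)
    (fun a b ha hb => hA₁ a b (by omega) (by omega) C u hu)
    (fun a b ha hb => hA₂ a b (by omega) (by omega) C u hu) (by omega) (by omega) le_rfl hsub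
    (B := 4 ^ t * B) (by positivity) hPt g
  have h6 : 0 ≤ ch g ^ (2 * t) := by
    have := ch_pos g
    positivity
  linarith

end Pool.Agent.Lib.MP_5d4057_al.IN
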