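import Pool.Agent.Lib.MP_5d4057_al.IN.CenF
import Pool.Agent.Lib.MP_5d4057_al.IN.CenG

/-! Part B of INT for all lattices (base map `F`, structure `Cor`): the centre and the uniform bound (B7, B8). -/

namespace Pool.Agent.Lib.MP_5d4057_al.IN

open MeasureTheory Filter Topology Pool.Agent.Lib.MP_5d4057_al
open Pool.Agent.Lib.MP_5d4057_al.Hyb Pool.Agent.Lib.MP_5d4057_al.HM
open Pool.Agent.Lib.MP_5d4057_al.NU

open scoped ENNReal

variable {n : ℕ} {Γ : Subgroup (SUGroup n)} {χ : SUGroup n → ℝ} {Y : Type} [MetricSpace Y]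
variable {Φ : Y → Y → ℝ} {κ : ℝ} {lv : Y → ℝ} {y₀ : Y} {ρ : Γ →* Equiv.Perm Y}
variable {F : SUGroup n → Y} {L : ℝ} {S : Set (SUGroup n)} {s₀ : ℕ} {B : ℝ}

/-- **The centre** (B7), with a polynomial bound. PROOF: `Fin S` from `D.irr`, `T₁` fixed and large.
For every `T ≥ 1` there is `g₀`, `ch g₀ ≤ 2`, with `∫_{ch x ≤ T₁} dist (f g₀) (f (g₀ x))² ≤ C` and
`∫_{ch x ≤ 2 T} dist (f g₀) (f (g₀ x))² ≤ C T ^ k` (`PairF.disp`, `setLIntegral_le`, Chebyshev). For
`γ` in the finite set let `h = g₀⁻¹ γ g₀`: there is `x` with `dist (f g₀) (f (g₀ x)) ≤ u`,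
`dist (f g₀) (f (g₀ h x)) ≤ u` (`HM.DD.exists_point`), and `γ g₀ x = g₀ h x`, so
`dist (ρ γ (f g₀)) (f g₀) ≤ 2 u`; `D.irr` bounds `dist y₀ (f g₀)`. For `f'` use `PairF.close`. -/
theorem PairF.centre (hn : 1 ≤ n) (D : Dat ρ Φ κ lv y₀) (hF : BaseF ρ lv χ F L S s₀ B) {c : ℝ}
    (hc : 0 < c) : ∃ (s₁ k : ℕ) (C : ℝ), 0 < C ∧ ∀ s : ℕ, s₁ ≤ s → ∀ f f' : SUGroup n → Y,
      PairF ρ Φ lv F χ c s f f' → ∀ T : ℝ, 1 ≤ T → ∫⁻ g, ib T g *
        ENNReal.ofReal (dist y₀ (f g) ^ 2 + dist y₀ (f' g) ^ 2) ∂(mu n) ≤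
          ENNReal.ofReal (C * T ^ k) := by
  obtain ⟨C₀, hC₀, hd⟩ := PairF.disp hn D hF hc
  obtain ⟨C, hC, hC1⟩ := cg_one hF.lat D (C₀ := 4 * C₀ ^ 2) (by positivity)
  refine ⟨2 * n + 2, 2 * (n + 2), 2 * C, by positivity, fun s hs f f' h T hT => ?_⟩
  have hs1 : (1 : ℝ) ≤ s := by exact_mod_cast (by omega : 1 ≤ s)
  have key : ∀ f f' : SUGroup n → Y, PairF ρ Φ lv F χ c s f f' →
      ∫⁻ g, ib T g * ENNReal.ofReal (dist y₀ (f g) ^ 2) ∂(mu n) ≤
        ENNReal.ofReal (C * T ^ (2 * (n + 2))) := by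
    intro f f' h
    refine hC1 f h.e1 h.l1 (fun x => ?_) T hT
    have h1 := LI_sq hF.lat (h.psm D) (h.fd hF) false false x
    simp only [dl, cond_false] at h1
    rw [h1]
    refine ENNReal.ofReal_le_ofReal ?_
    have h2 := hd s hs f f' h false false x
    have h3 : 0 ≤ dsp χ (dl f f') false false x := DD.nm_nonneg _ _
    have h4 : Real.log (wt x) ≤ ch x := by
      refine (log_wt_le x).trans ?_
      rw [Real.sqrt_le_left (ch_pos x).le]
      linarith
    have h5 : 1 / Real.sqrt s ≤ ch x := by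
      have h6 : 1 ≤ Real.sqrt s := Real.one_le_sqrt.2 hs1
      have h7 : 1 / Real.sqrt s ≤ 1 := by
        rw [div_le_one (by linarith)]
        exact h6
      exact h7.trans (one_le_ch x)
    have h6 : dsp χ (dl f f') false false x ≤ C₀ * (2 * ch x) :=
      h2.trans (mul_le_mul_of_nonneg_left (by linarith) hC₀.le)
    have h7 := pow_le_pow_left₀ h3 h6 2
    refine h7.trans (le_of_eq ?_)
    ring
  have k1 := key f f' h
  have k2 := key f' f (h.symm hF.lat D)
  have hm : Measurable fun g : SUGroup n => ib T g * ENNReal.ofReal (dist y₀ (f g) ^ 2) :=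
    (measurable_ib T).mul (((continuous_const.dist h.e1.cont).pow 2).measurable.ennreal_ofReal)
  calc ∫⁻ g, ib T g * ENNReal.ofReal (dist y₀ (f g) ^ 2 + dist y₀ (f' g) ^ 2) ∂(mu n)
      = ∫⁻ g, (ib T g * ENNReal.ofReal (dist y₀ (f g) ^ 2) +
          ib T g * ENNReal.ofReal (dist y₀ (f' g) ^ 2)) ∂(mu n) := by
        refine lintegral_congr fun g => ?_
        rw [ENNReal.ofReal_add (by positivity) (by positivity), mul_add]
    _ ≤ ENNReal.ofReal (C * T ^ (2 * (n + 2))) + ENNReal.ofReal (C * T ^ (2 * (n + 2))) := by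
        rw [lintegral_add_left hm]
        exact add_le_add k1 k2
    _ = _ := by
        rw [← ENNReal.ofReal_add (by positivity) (by positivity)]
        congr 1
        ring

private theorem cbf_lg_nonneg {C : ℝ} {f : SUGroup n → Y} (h : Lg C y₀ f) : 0 ≤ C := by
  have h1 := h 1
  rw [wt_one, Real.log_one, add_zero, mul_one] at h1
  exact dist_nonneg.trans h1

private theorem cbf_lg_ch {C : ℝ} {f : SUGroup n → Y} (h : Lg C y₀ f) (g : SUGroup n) :
    dist y₀ (f g) ≤ 2 * C * ch g ^ (2 * 1) := by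
  have h0 := cbf_lg_nonneg h
  have h1 := one_le_ch g
  have h4 : Real.log (wt g) ≤ ch g := by
    refine (log_wt_le g).trans ?_
    rw [Real.sqrt_le_left (ch_pos g).le]
    linarith
  have h2 : 1 + Real.log (wt g) ≤ 2 * ch g ^ 2 := by nlinarith
  calc dist y₀ (f g) ≤ C * (1 + Real.log (wt g)) := h g
    _ ≤ C * (2 * ch g ^ 2) := mul_le_mul_of_nonneg_left h2 h0
    _ = _ := by ring

/-- Polynomial bound. PROOF: `U g = 1 + dist y₀ (f g) + dist y₀ (f' g)` satisfies `U ≤ Q s U`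
(`Bs.jen`), is continuous, `K`-invariant and of logarithmic growth (constant depending on the pair).
`PairF.centre` on shells (`NU.inv_pow_le_tsum`, as in `NU.LimN.weighted`) bounds `Q t U 1` for a
fixed `t`, `NU.Q_harn` bounds `Q t U g ≤ wt g ^ (2 t) Q t U 1`, `NU.boot_fiveN` (with `Q_comm`,
`Q_lap`) gives `U ≤ C ch ^ (2 N)`. -/
theorem PairF.poly (hn : 1 ≤ n) (D : Dat ρ Φ κ lv y₀) (hF : BaseF ρ lv χ F L S s₀ B) {c : ℝ}
    (hc : 0 < c) : ∃ (s₁ N : ℕ) (C : ℝ), 0 < C ∧ ∀ s : ℕ, s₁ ≤ s → ∀ f f' : SUGroup n → Y,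
      PairF ρ Φ lv F χ c s f f' → ∀ g : SUGroup n,
        dist y₀ (f g) + dist y₀ (f' g) ≤ C * ch g ^ (2 * N) := by
  obtain ⟨s₁, k, K, hK, hcen⟩ := PairF.centre hn D hF hc
  obtain ⟨V, hV0, hV⟩ := lint_ib_poly n
  obtain ⟨s₂, t, C₁, hC₁, hp⟩ := cg_poly n 1 (k + 2 * (n + 1)) (K := V + K) (by positivity)
  refine ⟨s₁ + s₂ + (n + 3), t, C₁, hC₁, fun s hs f f' h => ?_⟩
  obtain ⟨a, ha⟩ := h.w1
  obtain ⟨a', ha'⟩ := h.w2
  have hg1 := hF.lg y₀ ha
  have hg2 := hF.lg y₀ ha'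
  obtain ⟨b, hb⟩ : ∃ b, b = dist y₀ (F 1) + L + a := ⟨_, rfl⟩
  obtain ⟨b', hb'⟩ : ∃ b', b' = dist y₀ (F 1) + L + a' := ⟨_, rfl⟩
  rw [← hb] at hg1
  rw [← hb'] at hg2
  have hb0 := cbf_lg_nonneg hg1
  have hb0' := cbf_lg_nonneg hg2
  have hs3 : n + 2 < s := by omega
  have := isProb_kapM (n := n) (s := s) (by omega)
  have hjen := Jen2.left D.tgt D.dj y₀
  refine hp s (2 * (b + b')) (fun g => dist y₀ (f g) + dist y₀ (f' g)) (by omega) (by positivity)
    ⟨(continuous_const.dist h.e1.cont).add (continuous_const.dist h.e2.cont), ?_, ?_⟩ ?_ ?_ ?_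
  · intro g k hk
    simp only [h.e1.kinv g k hk, h.e2.kinv g k hk]
  · intro g
    rw [abs_of_nonneg (by positivity)]
    have h1 := cbf_lg_ch hg1 g
    have h2 := cbf_lg_ch hg2 g
    linarith
  · intro g
    positivity
  · intro g
    have h1 := Bs.jen h.e1.cont hg1 hs3 h.b1 hjen g
    have h2 := Bs.jen h.e2.cont hg2 hs3 h.b2 hjen g
    have i1 := (Lg.sqI h.e1.cont hg1 hs3 g).dist y₀
    have i2 := (Lg.sqI h.e2.cont hg2 hs3 g).dist y₀
    have e : Boot.Q s (fun g => dist y₀ (f g) + dist y₀ (f' g)) g =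
        Boot.Q s (fun x => dist y₀ (f x)) g + Boot.Q s (fun x => dist y₀ (f' x)) g := by
      unfold Boot.Q
      rw [← integral_kapM, ← integral_kapM, ← integral_kapM, integral_add i1 i2]
    rw [e]
    linarith
  · intro T hT
    have hT0 : 0 ≤ T := by linarith
    have hm : Measurable fun g : SUGroup n => ib T g := measurable_ib T
    calc ∫⁻ g, ib T g * ENNReal.ofReal (dist y₀ (f g) + dist y₀ (f' g)) ∂(mu n)
        ≤ ∫⁻ g, (ib T g + ib T g *
            ENNReal.ofReal (dist y₀ (f g) ^ 2 + dist y₀ (f' g) ^ 2)) ∂(mu n) := by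
          refine lintegral_mono fun g => ?_
          have h1 : dist y₀ (f g) + dist y₀ (f' g) ≤
              1 + (dist y₀ (f g) ^ 2 + dist y₀ (f' g) ^ 2) := by
            nlinarith [sq_nonneg (dist y₀ (f g) - 1), sq_nonneg (dist y₀ (f' g) - 1),
              sq_nonneg (dist y₀ (f g)), sq_nonneg (dist y₀ (f' g))]
          refine (mul_le_mul_right (ENNReal.ofReal_le_ofReal h1) _).trans (le_of_eq ?_)
          rw [ENNReal.ofReal_add zero_le_one (by positivity), mul_add, ENNReal.ofReal_one, mul_one]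
      _ ≤ ENNReal.ofReal (V * T ^ (2 * (n + 1))) + ENNReal.ofReal (K * T ^ k) := by
          rw [lintegral_add_left hm]
          exact add_le_add (hV T hT) (hcen s (by omega) f f' h T hT)
      _ = ENNReal.ofReal (V * T ^ (2 * (n + 1)) + K * T ^ k) := by
          rw [← ENNReal.ofReal_add (by positivity) (by positivity)]
      _ ≤ _ := by
          refine ENNReal.ofReal_le_ofReal ?_
          have h1 : T ^ (2 * (n + 1)) ≤ T ^ (k + 2 * (n + 1)) := pow_le_pow_right₀ hT (by omega)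
          have h2 : T ^ k ≤ T ^ (k + 2 * (n + 1)) := pow_le_pow_right₀ hT (by omega)
          have h3 := mul_le_mul_of_nonneg_left h1 hV0.le
          have h4 := mul_le_mul_of_nonneg_left h2 hK.le
          rw [add_mul]
          linarith

/-- **The uniform bound** (B8). PROOF: `W = (dist (f g) (F g) + dist (f' g) (F g)) / 2` is bounded
(`w1`, `w2`), invariant, satisfies the inequality of `Cor.max` (`BaseF.step` twice) and is bounded on
`S` by `PairF.poly`, uniformly in `s`. -/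
theorem PairF.bound (hn : 1 ≤ n) (D : Dat ρ Φ κ lv y₀) (hF : BaseF ρ lv χ F L S s₀ B) {c : ℝ}
    (hc : 0 < c) : ∃ (s₁ : ℕ) (C : ℝ), 0 < C ∧ ∀ s : ℕ, s₁ ≤ s → ∀ f f' : SUGroup n → Y,
      PairF ρ Φ lv F χ c s f f' → ∀ g, dist (f g) (F g) ≤ C ∧ dist (f' g) (F g) ≤ C := by
  obtain ⟨s₁, N, C₁, hC₁, hp⟩ := PairF.poly hn D hF hc
  have hFc := hF.eqv.cont
  have hcont : Continuous fun g : SUGroup n => C₁ * ch g ^ (2 * N) + dist y₀ (F g) :=
    (continuous_const.mul (continuous_ch.pow _)).add (continuous_const.dist hFc)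
  obtain ⟨M, hM⟩ := hF.cor.cpt.exists_bound_of_continuousOn hcont.continuousOn
  have hB := hF.cor.nonneg
  refine ⟨s₁ + s₀ + (n + 3), 2 * (|M| + B) + 1, by positivity, fun s hs f f' h => ?_⟩
  obtain ⟨a, ha⟩ := h.w1
  obtain ⟨a', ha'⟩ := h.w2
  have ha0 : 0 ≤ a := dist_nonneg.trans (ha 1)
  have ha0' : 0 ≤ a' := dist_nonneg.trans (ha' 1)
  have hs3 : n + 2 < s := by omega
  have hprob := isProb_kapM (n := n) (s := s) (by omega)
  have c1 : Continuous fun g => dist (f g) (F g) := h.e1.cont.dist hFc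
  have c2 : Continuous fun g => dist (f' g) (F g) := h.e2.cont.dist hFc
  have hpoly := hp s (by omega) f f' h
  have hmax := hF.cor.max s (by omega) |M| (fun g => (dist (f g) (F g) + dist (f' g) (F g)) / 2)
    (abs_nonneg M) ((c1.add c2).div_const 2) ?_ ?_ ?_ ?_ ?_ ?_
  · intro g
    have h1 := hmax g
    have h2 : 0 ≤ dist (f g) (F g) := dist_nonneg
    have h3 : 0 ≤ dist (f' g) (F g) := dist_nonneg
    constructor <;> linarith
  · intro g k hk
    simp only [h.e1.kinv g k hk, h.e2.kinv g k hk, hF.eqv.kinv g k hk]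
  · intro γ hγ g
    have e1 := h.e1.equi ⟨γ, hγ⟩ g
    have e2 := h.e2.equi ⟨γ, hγ⟩ g
    have e3 := hF.eqv.equi ⟨γ, hγ⟩ g
    simp only at e1 e2 e3
    simp only [e1, e2, e3, D.act.iso]
  · intro g
    positivity
  · exact ⟨(a + a') / 2, fun g => by
      have h1 := ha g
      have h2 := ha' g
      linarith⟩
  · intro g
    have h1 := hF.step D hs3 h.e1.cont ha h.b1 g
    have h2 := hF.step D hs3 h.e2.cont ha' h.b2 g
    have i1 : Integrable (fun x => dist (f (g * x)) (F (g * x))) (kapM n s) := by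
      refine (integrable_const a).mono' (c1.comp (continuous_const_mul g)).aestronglyMeasurable
        (Eventually.of_forall fun x => ?_)
      rw [Real.norm_eq_abs, abs_of_nonneg dist_nonneg]
      exact ha _
    have i2 : Integrable (fun x => dist (f' (g * x)) (F (g * x))) (kapM n s) := by
      refine (integrable_const a').mono' (c2.comp (continuous_const_mul g)).aestronglyMeasurable
        (Eventually.of_forall fun x => ?_)
      rw [Real.norm_eq_abs, abs_of_nonneg dist_nonneg]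
      exact ha' _
    have e : Boot.Q s (fun g => (dist (f g) (F g) + dist (f' g) (F g)) / 2) g =
        (Boot.Q s (fun x => dist (f x) (F x)) g + Boot.Q s (fun x => dist (f' x) (F x)) g) / 2 := by
      unfold Boot.Q
      rw [← integral_kapM, ← integral_kapM, ← integral_kapM, integral_div, integral_add i1 i2]
    rw [e]
    linarith
  · intro g hg
    have h1 := hM g hg
    rw [Real.norm_eq_abs] at h1
    have h2 := (le_abs_self _).trans h1
    have h3 := hpoly g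
    have h4 : dist (f g) (F g) ≤ dist y₀ (f g) + dist y₀ (F g) := dist_triangle_left _ _ _
    have h5 : dist (f' g) (F g) ≤ dist y₀ (f' g) + dist y₀ (F g) := dist_triangle_left _ _ _
    have h6 := le_abs_self M
    have h7 : 0 ≤ dist y₀ (f g) := dist_nonneg
    have h8 : 0 ≤ dist y₀ (f' g) := dist_nonneg
    linarith

/-- Uniform logarithmic growth. -/
theorem PairF.growth (hn : 1 ≤ n) (D : Dat ρ Φ κ lv y₀) (hF : BaseF ρ lv χ F L S s₀ B) {c : ℝ}
    (hc : 0 < c) : ∃ (s₁ : ℕ) (C : ℝ), 0 < C ∧ ∀ s : ℕ, s₁ ≤ s → ∀ f f' : SUGroup n → Y,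
      PairF ρ Φ lv F χ c s f f' → Lg C y₀ f ∧ Lg C y₀ f' := by
  obtain ⟨s₁, C, hC, h⟩ := PairF.bound hn D hF hc
  have h0 : 0 ≤ dist y₀ (F 1) := dist_nonneg
  have h1 := hF.L0
  exact ⟨s₁, dist y₀ (F 1) + L + C, by positivity, fun s hs f f' hp =>
    ⟨hF.lg y₀ fun g => (h s hs f f' hp g).1, hF.lg y₀ fun g => (h s hs f f' hp g).2⟩⟩

end Pool.Agent.Lib.MP_5d4057_al.IN
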