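import Pool.Agent.Lib.MP_5d4057_al.IN.PairY
import Pool.Agent.Lib.MP_5d4057_al.IN.Psm

/-! Part B of INT: displacement of pairs and the centre (B6, B7). -/

namespace Pool.Agent.Lib.MP_5d4057_al.IN

open MeasureTheory Filter Topology Pool.Agent.Lib.MP_5d4057_al
open Pool.Agent.Lib.MP_5d4057_al.Hyb Pool.Agent.Lib.MP_5d4057_al.HM
open Pool.Agent.Lib.MP_5d4057_al.NU

open scoped ENNReal

variable {n : ℕ} {Γ : Subgroup (SUGroup n)} {χ : SUGroup n → ℝ} {Y : Type} [MetricSpace Y]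
variable {Φ : Y → Y → ℝ} {κ : ℝ} {lv : Y → ℝ} {y₀ : Y} {ρ : Γ →* Equiv.Perm Y}

/-- The pseudo metric of a pair. -/
def dl (f f' : SUGroup n → Y) (a b : Bool) (g h : SUGroup n) : ℝ :=
  dist (cond a f' f g) (cond b f' f h)

private theorem cy_cond {ρ : Γ →* Equiv.Perm Y} {f f' : SUGroup n → Y} (h1 : Eqv ρ f)
    (h2 : Eqv ρ f') (a : Bool) : Eqv ρ (fun g => cond a f' f g) := by
  cases a
  · exact h1
  · exact h2

private theorem cy_inv (hA : Acts ρ Φ lv) {f f' : SUGroup n → Y} (h1 : Eqv ρ f) (h2 : Eqv ρ f')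
    (a b : Bool) : ∀ γ ∈ Γ, ∀ g h, dl f f' a b (γ * g) (γ * h) = dl f f' a b g h := by
  intro γ hγ g h
  have e1 := (cy_cond h1 h2 a).equi ⟨γ, hγ⟩ g
  have e2 := (cy_cond h1 h2 b).equi ⟨γ, hγ⟩ h
  have e3 := hA.iso ⟨γ, hγ⟩ (cond a f' f g) (cond b f' f h)
  simp only at e1 e2
  rw [dl, dl, e1, e2, e3]

private theorem cy_cont {f f' : SUGroup n → Y} (h1 : Eqv ρ f) (h2 : Eqv ρ f') (a b : Bool) :
    Continuous fun p : SUGroup n × SUGroup n => dl f f' a b p.1 p.2 :=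
  ((cy_cond h1 h2 a).cont.comp continuous_fst).dist ((cy_cond h1 h2 b).cont.comp continuous_snd)

theorem PairY.psm (D : Dat ρ Φ κ lv y₀) {c : ℝ} {s : ℕ} {f f' : SUGroup n → Y}
    (h : PairY ρ Φ lv y₀ χ c s f f') : Psm Γ (dl f f') :=
  { cont := fun a b => cy_cont h.e1 h.e2 a b
    nonneg := fun _ _ _ _ => dist_nonneg
    self := fun _ _ => dist_self _
    symm := fun _ _ _ _ => dist_comm _ _
    tri := fun _ _ _ _ _ _ => dist_triangle _ _ _
    inv := fun a b => cy_inv D.act h.e1 h.e2 a b }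

theorem PairY.fd (hΓ : Coc Γ) (hχ : Lat Γ χ) (D : Dat ρ Φ κ lv y₀) {c : ℝ} {s : ℕ}
    {f f' : SUGroup n → Y} (h : PairY ρ Φ lv y₀ χ c s f f') : Fd χ (dl f f') := by
  intro a b x
  have hP := h.psm D
  have hc : Continuous fun g : SUGroup n => dl f f' a b g (g * x) :=
    (hP.cont a b).comp (continuous_id.prodMk (continuous_mul_const x))
  obtain ⟨K, hK⟩ := bounded_of_invariant hΓ hc fun γ hγ g => by
    rw [mul_assoc]
    exact hP.inv a b γ hγ g (g * x)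
  exact LG.L2.of_bound (LG.CutG.of_lat hχ) hc.aestronglyMeasurable fun g => hK g

/-- Displacement of pairs (B6). PROOF: `dsp_main`, `dist ^ 2 ≤ Φ`, `LJ_symm`. -/
theorem PairY.disp (hn : 1 ≤ n) (hΓ : Coc Γ) (hχ : Lat Γ χ) (D : Dat ρ Φ κ lv y₀) {c : ℝ}
    (hc : 0 < c) : ∃ C : ℝ, 0 < C ∧ ∀ s : ℕ, 2 * n + 2 ≤ s → ∀ f f' : SUGroup n → Y,
      PairY ρ Φ lv y₀ χ c s f f' → ∀ (a b : Bool) (x : SUGroup n),
        dsp χ (dl f f') a b x ≤ C * (Real.log (wt x) + 1 / Real.sqrt s) := by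
  obtain ⟨C, hC, hm⟩ := dsp_main hn hc
  refine ⟨C, hC, fun s hs f f' h a b x => ?_⟩
  refine hm Γ χ hχ _ (h.psm D) (h.fd hΓ hχ D) s hs ?_ a b x
  have h1 : LJ χ Φ s f f' ≤ ENNReal.ofReal (c / s) := by
    rw [LJ_symm hχ D.tgt D.act h.e1 h.e2]
    exact h.en
  refine le_trans ?_ h1
  unfold LJ LI
  refine lintegral_mono fun g => mul_le_mul_right ?_ _
  refine lintegral_mono fun x => mul_le_mul_right ?_ _
  exact ENNReal.ofReal_le_ofReal (D.tgt.ge _ _)

/-- `f` and `f'` are close. PROOF: `u g = dist (f g) (f' g)` is `Γ`-invariant and `u ≤ Q s u`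
(`Bs.jen2` with `D.dj`, `b1`, `b2`), so constant by `HM.const_of_le_P` (with `exists_cone`,
`continuousOn_sec`); `u ^ 2 * II χ 1 = dsp false true 1 ^ 2 ≤ (C / √s)²` (`PairY.disp`). -/
theorem PairY.close (hn : 1 ≤ n) (hΓ : Coc Γ) (hχ : Lat Γ χ) (D : Dat ρ Φ κ lv y₀) {c : ℝ}
    (hc : 0 < c) : ∃ (s₀ : ℕ) (C : ℝ), 0 < C ∧ ∀ s : ℕ, s₀ ≤ s → ∀ f f' : SUGroup n → Y,
      PairY ρ Φ lv y₀ χ c s f f' → ∀ g, dist (f g) (f' g) ≤ C / Real.sqrt s := by
  obtain ⟨C, hC, hm⟩ := PairY.disp hn hΓ hχ D hc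
  obtain ⟨s₁, hs₁⟩ := const_of_le_P hΓ
  have hI := LG.II_one_pos (LG.CutG.of_lat hχ)
  have hI' : 0 < Real.sqrt (II χ fun _ => (1 : ℝ)) := Real.sqrt_pos.2 hI
  refine ⟨max s₁ (2 * n + 2), C / Real.sqrt (II χ fun _ => (1 : ℝ)), div_pos hC hI',
    fun s hs f f' h g => ?_⟩
  have hs1 : s₁ ≤ s := (le_max_left _ _).trans hs
  have hs2 : 2 * n + 2 ≤ s := (le_max_right _ _).trans hs
  have hs3 : n + 2 < s := by omega
  obtain ⟨C1, hg1⟩ := h.g1
  obtain ⟨C2, hg2⟩ := h.g2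
  set u : SUGroup n → ℝ := fun g => dist (f g) (f' g) with hu
  have huc : Continuous u := h.e1.cont.dist h.e2.cont
  have huk : ∀ g k : SUGroup n, ch k = 1 → u (g * k) = u g := by
    intro g k hk
    simp only [hu]
    rw [h.e1.kinv g k hk, h.e2.kinv g k hk]
  have hui : ∀ γ ∈ Γ, ∀ g, u (γ * g) = u g := by
    intro γ hγ g
    simp only [hu]
    have e1 := h.e1.equi ⟨γ, hγ⟩ g
    have e2 := h.e2.equi ⟨γ, hγ⟩ g
    simp only at e1 e2
    rw [e1, e2, D.act.iso]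
  obtain ⟨hU1, hU2⟩ := exists_cone huk
  have hUc := continuousOn_sec huc
  have hQ : ∀ g, u g ≤ ∫ x, kap s x * u (g * x) ∂(mu n) := by
    intro g
    have e1 := Bs.jen2 h.e1.cont (hg1.mono (le_max_left C1 C2)) h.e2.cont
      (hg2.mono (le_max_right C1 C2)) hs3 h.b1 h.b2 D.dj g g
    rw [dist_comm] at e1
    exact e1
  have hconst := hs₁ s hs1 (fun v => u (sec n v)) hUc hU1 ?_ ?_
  · have hall : ∀ g, u g = u 1 := by
      intro g
      have e1 := hconst (act g (base n)) (orbit_mem g)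
      have e2 := hconst (act 1 (base n)) (orbit_mem 1)
      simp only [hU2] at e1 e2
      rw [e1, e2]
    have hd := hm s hs2 f f' h false true 1
    have e1 : dsp χ (dl f f') false true 1 = u 1 * Real.sqrt (II χ fun _ => (1 : ℝ)) := by
      have e2 : (fun g => dl f f' false true g (g * 1)) = fun _ : SUGroup n => u 1 := by
        funext g
        rw [mul_one]
        exact hall g
      rw [dsp, e2]
      exact LG.nm_const χ dist_nonneg
    rw [e1, show Real.log (wt (1 : SUGroup n)) = 0 by rw [wt_one, Real.log_one], zero_add] at hd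
    show u g ≤ _
    rw [hall g, div_div, mul_comm (Real.sqrt (II χ fun _ => (1 : ℝ))), ← div_div,
      le_div_iff₀ hI', div_eq_mul_one_div]
    exact hd
  · intro γ hγ v hv
    obtain ⟨g, c, hc, rfl⟩ := exists_act_eq hv
    show u (sec n (act γ (c • act g (base n)))) = u (sec n (c • act g (base n)))
    rw [act_smul, ← act_mul]
    have e1 := hU1 c hc _ (orbit_mem (γ * g))
    have e2 := hU1 c hc _ (orbit_mem g)
    simp only at e1 e2
    rw [e1, e2, hU2, hU2, hui γ hγ]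
  · intro v hv
    obtain ⟨g, c, hc, rfl⟩ := exists_act_eq hv
    have e1 := hU1 c hc _ (orbit_mem g)
    simp only at e1
    rw [e1, P_homog s _ c hc _ (orbit_mem g), P_orbit]
    simp only [hU2]
    exact hQ g

end Pool.Agent.Lib.MP_5d4057_al.IN
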