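import Pool.Agent.Lib.MP_5d4057_al.IN.PairF
import Pool.Agent.Lib.MP_5d4057_al.IN.CenY

/-! Part B of INT for all lattices (base map `F`, structure `Cor`): displacement of pairs and the centre (B6, B7). -/

namespace Pool.Agent.Lib.MP_5d4057_al.IN

open MeasureTheory Filter Topology Pool.Agent.Lib.MP_5d4057_al
open Pool.Agent.Lib.MP_5d4057_al.Hyb Pool.Agent.Lib.MP_5d4057_al.HM
open Pool.Agent.Lib.MP_5d4057_al.NU

open scoped ENNReal

variable {n : ℕ} {Γ : Subgroup (SUGroup n)} {χ : SUGroup n → ℝ} {Y : Type} [MetricSpace Y]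
variable {Φ : Y → Y → ℝ} {κ : ℝ} {lv : Y → ℝ} {y₀ : Y} {ρ : Γ →* Equiv.Perm Y}
variable {F : SUGroup n → Y} {L : ℝ} {S : Set (SUGroup n)} {s₀ : ℕ} {B : ℝ}

private theorem cf_cond {ρ : Γ →* Equiv.Perm Y} {f f' : SUGroup n → Y} (h1 : Eqv ρ f)
    (h2 : Eqv ρ f') (a : Bool) : Eqv ρ (fun g => cond a f' f g) := by
  cases a
  · exact h1
  · exact h2

private theorem cf_inv (hA : Acts ρ Φ lv) {f f' : SUGroup n → Y} (h1 : Eqv ρ f) (h2 : Eqv ρ f')
    (a b : Bool) : ∀ γ ∈ Γ, ∀ g h, dl f f' a b (γ * g) (γ * h) = dl f f' a b g h := by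
  intro γ hγ g h
  have e1 := (cf_cond h1 h2 a).equi ⟨γ, hγ⟩ g
  have e2 := (cf_cond h1 h2 b).equi ⟨γ, hγ⟩ h
  have e3 := hA.iso ⟨γ, hγ⟩ (cond a f' f g) (cond b f' f h)
  simp only at e1 e2
  rw [dl, dl, e1, e2, e3]

private theorem cf_cont {f f' : SUGroup n → Y} (h1 : Eqv ρ f) (h2 : Eqv ρ f') (a b : Bool) :
    Continuous fun p : SUGroup n × SUGroup n => dl f f' a b p.1 p.2 :=
  ((cf_cond h1 h2 a).cont.comp continuous_fst).dist ((cf_cond h1 h2 b).cont.comp continuous_snd)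

/-- `dl` is the pseudo metric of a pair, see `CenY.lean`. PROOF: as `PairY.psm`. -/
theorem PairF.psm (D : Dat ρ Φ κ lv y₀) {c : ℝ} {s : ℕ} {f f' : SUGroup n → Y}
    (h : PairF ρ Φ lv F χ c s f f') : Psm Γ (dl f f') :=
  { cont := fun a b => cf_cont h.e1 h.e2 a b
    nonneg := fun _ _ _ _ => dist_nonneg
    self := fun _ _ => dist_self _
    symm := fun _ _ _ _ => dist_comm _ _
    tri := fun _ _ _ _ _ _ => dist_triangle _ _ _
    inv := fun a b => cf_inv D.act h.e1 h.e2 a b }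

/-- PROOF: `dist (A g) (A' (g x)) ≤ 2 C + L log wt x` by `w1`, `w2` and `hF.lip`; `LI χ 1 < ⊤`. -/
theorem PairF.fd (hF : BaseF ρ lv χ F L S s₀ B) {c : ℝ} {s : ℕ}
    {f f' : SUGroup n → Y} (h : PairF ρ Φ lv F χ c s f f') : Fd χ (dl f f') := by
  intro a b x
  have hc : Continuous fun g : SUGroup n => dl f f' a b g (g * x) :=
    (cf_cont h.e1 h.e2 a b).comp (continuous_id.prodMk (continuous_mul_const x))
  have hw : ∀ a : Bool, ∃ C : ℝ, ∀ g, dist (cond a f' f g) (F g) ≤ C := by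
    intro a
    cases a
    · exact h.w1
    · exact h.w2
  obtain ⟨C₁, h1⟩ := hw a
  obtain ⟨C₂, h2⟩ := hw b
  refine LG.L2.of_bound (LG.CutG.of_lat hF.lat) hc.aestronglyMeasurable
    (c := C₁ + L * Real.log (wt x) + C₂) fun g => ?_
  rw [dl, abs_of_nonneg dist_nonneg]
  have h3 := dist_triangle4 (cond a f' f g) (F g) (F (g * x)) (cond b f' f (g * x))
  have h4 := h1 g
  have h5 := h2 (g * x)
  have h6 := hF.lip g x
  rw [dist_comm (cond b f' f (g * x))] at h5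
  linarith

/-- Displacement of pairs (B6). PROOF: `dsp_main`, `dist ^ 2 ≤ Φ`, `LJ_symm`. -/
theorem PairF.disp (hn : 1 ≤ n) (D : Dat ρ Φ κ lv y₀) (hF : BaseF ρ lv χ F L S s₀ B) {c : ℝ}
    (hc : 0 < c) : ∃ C : ℝ, 0 < C ∧ ∀ s : ℕ, 2 * n + 2 ≤ s → ∀ f f' : SUGroup n → Y,
      PairF ρ Φ lv F χ c s f f' → ∀ (a b : Bool) (x : SUGroup n),
        dsp χ (dl f f') a b x ≤ C * (Real.log (wt x) + 1 / Real.sqrt s) := by
  obtain ⟨C, hC, hm⟩ := dsp_main hn hc
  refine ⟨C, hC, fun s hs f f' h a b x => ?_⟩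
  refine hm Γ χ hF.lat _ (h.psm D) (h.fd hF) s hs ?_ a b x
  have h1 : LJ χ Φ s f f' ≤ ENNReal.ofReal (c / s) := by
    rw [LJ_symm hF.lat D.tgt D.act h.e1 h.e2]
    exact h.en
  refine le_trans ?_ h1
  unfold LJ LI
  refine lintegral_mono fun g => mul_le_mul_right ?_ _
  refine lintegral_mono fun x => mul_le_mul_right ?_ _
  exact ENNReal.ofReal_le_ofReal (D.tgt.ge _ _)

/-- A bounded continuous invariant function with `u ≤ Q s u` is constant. PROOF: `LI χ (Q s (u ^ 2)) =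
LI χ (u ^ 2)` (`LI_lintegral`, `LI_mul_right`), so there is a `g` with `Q s (u ^ 2) g ≤ (u g) ^ 2`; then
`∫ kap s x (u (g x) - u g)² ≤ 2 u g (u g - Q s u g) ≤ 0`. -/
theorem const_of_le_Q (hχ : Lat Γ χ) {s : ℕ} (hs : n < s) {u : SUGroup n → ℝ} (hu : Continuous u)
    (hΓ : ∀ γ ∈ Γ, ∀ g, u (γ * g) = u g) (h0 : ∀ g, 0 ≤ u g) {C : ℝ} (hC : ∀ g, u g ≤ C)
    (hle : ∀ g, u g ≤ Boot.Q s u g) (g h : SUGroup n) : u g = u h := by
  have hk := integrable_kap (n := n) hs
  have hk1 := integral_kap (n := n) hs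
  have hC0 : 0 ≤ C := (h0 1).trans (hC 1)
  have hct : ∀ g, Continuous fun x : SUGroup n => u (g * x) := fun g =>
    hu.comp (continuous_const_mul g)
  have i1 : ∀ g, Integrable (fun x => kap s x * u (g * x)) (mu n) := by
    intro g
    refine (hk.const_mul C).mono' ((continuous_kap s).mul (hct g)).aestronglyMeasurable
      (ae_of_all _ fun x => ?_)
    rw [Real.norm_of_nonneg (mul_nonneg (kap_nonneg s x) (h0 _)), mul_comm C]
    exact mul_le_mul_of_nonneg_left (hC _) (kap_nonneg s x)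
  have i2 : ∀ g, Integrable (fun x => kap s x * u (g * x) ^ 2) (mu n) := by
    intro g
    refine (hk.const_mul (C ^ 2)).mono' ((continuous_kap s).mul ((hct g).pow 2)).aestronglyMeasurable
      (ae_of_all _ fun x => ?_)
    rw [Real.norm_of_nonneg (mul_nonneg (kap_nonneg s x) (sq_nonneg _)), mul_comm (C ^ 2)]
    exact mul_le_mul_of_nonneg_left (pow_le_pow_left₀ (h0 _) (hC _) 2) (kap_nonneg s x)
  have hvar : ∀ g, Integrable (fun x => kap s x * (u (g * x) - u g) ^ 2) (mu n) ∧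
      ∫ x, kap s x * (u (g * x) - u g) ^ 2 ∂(mu n) =
      (∫ x, kap s x * u (g * x) ^ 2 ∂(mu n)) - 2 * u g * Boot.Q s u g + u g ^ 2 := by
    intro g
    have e : (fun x => kap s x * (u (g * x) - u g) ^ 2) = fun x =>
        (kap s x * u (g * x) ^ 2 - 2 * u g * (kap s x * u (g * x))) + u g ^ 2 * kap s x := by
      funext x
      ring
    rw [e]
    have j1 : Integrable (fun x => 2 * u g * (kap s x * u (g * x))) (mu n) := (i1 g).const_mul _
    have j2 : Integrable (fun x => kap s x * u (g * x) ^ 2 - 2 * u g * (kap s x * u (g * x)))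
      (mu n) := (i2 g).sub j1
    have j3 : Integrable (fun x : SUGroup n => u g ^ 2 * kap s x) (mu n) := hk.const_mul _
    refine ⟨j2.add j3, ?_⟩
    rw [integral_add j2 j3, integral_sub (i2 g) j1, integral_const_mul, integral_const_mul, hk1,
      Boot.Q]
    ring
  have hvn : ∀ g, 0 ≤ ∫ x, kap s x * (u (g * x) - u g) ^ 2 ∂(mu n) := fun g =>
    integral_nonneg fun x => mul_nonneg (kap_nonneg s x) (sq_nonneg _)
  -- a point with equality
  obtain ⟨f₁, hf₁⟩ : ∃ f₁ : SUGroup n → ℝ≥0∞, f₁ = fun g => ENNReal.ofReal (u g ^ 2) := ⟨_, rfl⟩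
  obtain ⟨W, hW⟩ : ∃ W : SUGroup n → ℝ≥0∞, W = fun g => ∫⁻ x, ENNReal.ofReal (kap s x) *
    ENNReal.ofReal (u (g * x) ^ 2) ∂(mu n) := ⟨_, rfl⟩
  have hW' : ∀ g, W g = ENNReal.ofReal (∫ x, kap s x * u (g * x) ^ 2 ∂(mu n)) := by
    intro g
    rw [hW, ofReal_integral_eq_lintegral_ofReal (i2 g)
      (ae_of_all _ fun x => mul_nonneg (kap_nonneg s x) (sq_nonneg _))]
    refine lintegral_congr fun x => ?_
    rw [ENNReal.ofReal_mul (kap_nonneg s x)]
  have hge : ∀ g, f₁ g ≤ W g := by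
    intro g
    rw [hW', hf₁]
    refine ENNReal.ofReal_le_ofReal ?_
    have h1 := hvn g
    rw [(hvar g).2] at h1
    have h2 := mul_le_mul_of_nonneg_left (hle g) (h0 g)
    nlinarith
  have hm₁ : Measurable f₁ := by
    rw [hf₁]
    exact (hu.pow 2).measurable.ennreal_ofReal
  have hkm : Measurable fun x : SUGroup n => ENNReal.ofReal (kap s x) :=
    (continuous_kap s).measurable.ennreal_ofReal
  have hΨ : Measurable fun p : SUGroup n × SUGroup n => ENNReal.ofReal (u (p.1 * p.2) ^ 2) :=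
    ((hu.comp continuous_mul).pow 2).measurable.ennreal_ofReal
  have hmW : Measurable W := by
    rw [hW]
    exact Measurable.lintegral_prod_right'
      (f := fun p : SUGroup n × SUGroup n => ENNReal.ofReal (kap s p.2) *
        ENNReal.ofReal (u (p.1 * p.2) ^ 2)) ((hkm.comp measurable_snd).mul hΨ)
  have hLI : LI χ W = LI χ f₁ := by
    have e1 := LI_lintegral hχ hkm.aemeasurable (fun g x => ENNReal.ofReal (u (g * x) ^ 2))
      hΨ.aemeasurable
    rw [hW, e1]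
    have e2 : ∀ x, LI χ (fun g => ENNReal.ofReal (u (g * x) ^ 2)) = LI χ f₁ := by
      intro x
      have e3 := LI_mul_right hχ (f := f₁) (fun γ hγ g => by rw [hf₁]; simp only [hΓ γ hγ g])
        hm₁.aemeasurable x
      rw [← e3, hf₁]
    simp only [e2]
    rw [lintegral_mul_const _ hkm, ← ofReal_integral_eq_lintegral_ofReal hk
      (ae_of_all _ fun x => kap_nonneg s x), hk1, ENNReal.ofReal_one, one_mul]
  have hfin : LI χ f₁ ≠ ⊤ := by
    refine ne_top_of_le_ne_top (b := ENNReal.ofReal (C ^ 2) * LI χ 1)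
      (ENNReal.mul_ne_top ENNReal.ofReal_ne_top hχ.LI_one.ne) ?_
    rw [← LI_const_mul hχ _ measurable_one.aemeasurable]
    refine LI_mono fun g => ?_
    rw [hf₁, Pi.one_apply, mul_one]
    exact ENNReal.ofReal_le_ofReal (pow_le_pow_left₀ (h0 _) (hC _) 2)
  have hz : LI χ (fun g => W g - f₁ g) = 0 := by
    have e1 := LI_add hχ (f₂ := fun g => W g - f₁ g) hm₁.aemeasurable
    have e2 : (fun g => f₁ g + (W g - f₁ g)) = W := by
      funext g
      exact add_tsub_cancel_of_le (hge g)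
    rw [e2, hLI] at e1
    have e3 : LI χ f₁ + LI χ (fun g => W g - f₁ g) = LI χ f₁ + 0 := by rw [← e1, add_zero]
    exact (ENNReal.add_right_inj hfin).1 e3
  obtain ⟨p, hp⟩ : ∃ p, W p ≤ f₁ p := by
    have hz' : ∫⁻ g, ENNReal.ofReal (χ g) * (W g - f₁ g) ∂(mu n) = 0 := hz
    have hmm : Measurable fun g => ENNReal.ofReal (χ g) * (W g - f₁ g) :=
      hχ.measurable.mul (hmW.sub hm₁)
    rw [lintegral_eq_zero_iff hmm] at hz'
    obtain ⟨p, hp⟩ := hz'.exists
    refine ⟨p, ?_⟩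
    rw [Pi.zero_apply, mul_eq_zero] at hp
    rcases hp with hp | hp
    · exact absurd (ENNReal.ofReal_eq_zero.1 hp) (not_le.2 (hχ.pos p))
    · exact tsub_eq_zero_iff_le.1 hp
  rw [hW', hf₁, ENNReal.ofReal_le_ofReal_iff (sq_nonneg _)] at hp
  have hv0 : ∫ x, kap s x * (u (p * x) - u p) ^ 2 ∂(mu n) = 0 := by
    refine le_antisymm ?_ (hvn p)
    rw [(hvar p).2]
    have h2 := mul_le_mul_of_nonneg_left (hle p) (h0 p)
    nlinarith
  have hcv : Continuous fun x : SUGroup n => kap s x * (u (p * x) - u p) ^ 2 :=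
    (continuous_kap s).mul (((hct p).sub continuous_const).pow 2)
  rw [integral_eq_zero_iff_of_nonneg
    (fun x => mul_nonneg (kap_nonneg s x) (sq_nonneg _)) (hvar p).1] at hv0
  have hall := (hcv.ae_eq_iff_eq (mu n) continuous_zero).1 hv0
  have hq : ∀ g, u g = u p := by
    intro g
    have e1 := congrFun hall (p⁻¹ * g)
    simp only [mul_inv_cancel_left, Pi.zero_apply] at e1
    rcases mul_eq_zero.1 e1 with e2 | e2
    · exact absurd e2 (kap_pos hs _).ne'
    · have e3 := pow_eq_zero_iff (two_ne_zero) |>.1 e2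
      linarith
  rw [hq g, hq h]

/-- `f` and `f'` are close. PROOF: `u g = dist (f g) (f' g)` is invariant, bounded and `u ≤ Q s u`
(`Bs.jen2` with `D.dj`, `b1`, `b2`), so constant by `const_of_le_Q`;
`u ^ 2 * LI χ 1 = dsp false true 1 ^ 2 ≤ (C / √s)²` (`PairF.disp`). -/
theorem PairF.close (hn : 1 ≤ n) (D : Dat ρ Φ κ lv y₀) (hF : BaseF ρ lv χ F L S s₀ B) {c : ℝ}
    (hc : 0 < c) : ∃ (s₁ : ℕ) (C : ℝ), 0 < C ∧ ∀ s : ℕ, s₁ ≤ s → ∀ f f' : SUGroup n → Y,
      PairF ρ Φ lv F χ c s f f' → ∀ g, dist (f g) (f' g) ≤ C / Real.sqrt s := by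
  obtain ⟨C, hC, hm⟩ := PairF.disp hn D hF hc
  have hI := LG.II_one_pos (LG.CutG.of_lat hF.lat)
  have hI' : 0 < Real.sqrt (II χ fun _ => (1 : ℝ)) := Real.sqrt_pos.2 hI
  refine ⟨2 * n + 2 + 1, C / Real.sqrt (II χ fun _ => (1 : ℝ)), div_pos hC hI',
    fun s hs f f' h g => ?_⟩
  have hs2 : 2 * n + 2 ≤ s := by omega
  have hs3 : n + 2 < s := by omega
  obtain ⟨C1, hw1⟩ := h.w1
  obtain ⟨C2, hw2⟩ := h.w2
  have hg1 := hF.lg y₀ hw1
  have hg2 := hF.lg y₀ hw2
  obtain ⟨u, hu⟩ : ∃ u : SUGroup n → ℝ, u = fun g => dist (f g) (f' g) := ⟨_, rfl⟩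
  have huc : Continuous u := by
    rw [hu]
    exact h.e1.cont.dist h.e2.cont
  have hui : ∀ γ ∈ Γ, ∀ g, u (γ * g) = u g := by
    intro γ hγ g
    simp only [hu]
    have e1 := h.e1.equi ⟨γ, hγ⟩ g
    have e2 := h.e2.equi ⟨γ, hγ⟩ g
    simp only at e1 e2
    rw [e1, e2, D.act.iso]
  have hub : ∀ g, u g ≤ C1 + C2 := by
    intro g
    simp only [hu]
    have h1 := dist_triangle (f g) (F g) (f' g)
    have h2 := hw1 g
    have h3 := hw2 g
    rw [dist_comm (f' g)] at h3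
    linarith
  have hQ : ∀ g, u g ≤ Boot.Q s u g := by
    intro g
    have e1 := Bs.jen2 h.e1.cont (hg1.mono (le_max_left _ _)) h.e2.cont
      (hg2.mono (le_max_right _ _)) hs3 h.b1 h.b2 D.dj g g
    rw [dist_comm] at e1
    rw [Boot.Q, hu]
    exact e1
  have hall : ∀ g, u g = u 1 := fun g =>
    const_of_le_Q hF.lat (by omega) huc hui (fun g => by rw [hu]; exact dist_nonneg) hub hQ g 1
  have hd := hm s hs2 f f' h false true 1
  have e1 : dsp χ (dl f f') false true 1 = u 1 * Real.sqrt (II χ fun _ => (1 : ℝ)) := by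
    have e2 : (fun g => dl f f' false true g (g * 1)) = fun _ : SUGroup n => u 1 := by
      funext g
      rw [mul_one, ← hall g, hu]
      rfl
    rw [dsp, e2]
    exact LG.nm_const χ (by rw [hu]; exact dist_nonneg)
  rw [e1, show Real.log (wt (1 : SUGroup n)) = 0 by rw [wt_one, Real.log_one], zero_add] at hd
  have e3 : dist (f g) (f' g) = u 1 := by
    rw [← hall g, hu]
  rw [e3, div_div, mul_comm (Real.sqrt (II χ fun _ => (1 : ℝ))), ← div_div,
    le_div_iff₀ hI', div_eq_mul_one_div]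
  exact hd

end Pool.Agent.Lib.MP_5d4057_al.IN
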