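import Mathlib

/-! Project INT: facts used in the CN inequality for ultrametric norms (A0, A7) which do not depend
on the definition of a norm. -/

set_option autoImplicit false

namespace Pool.Agent.Lib.MP_5d4057_al.IN

open Finset

/-! ### Schur's inequality for squares -/

theorem abel_nat (y d : ℕ → ℝ) : ∀ m : ℕ, (∀ i, i < m → y (i + 1) ≤ y i) →
    (∀ j, j ≤ m → 0 ≤ ∑ i ∈ range j, d i) →
    y m * ∑ i ∈ range (m + 1), d i ≤ ∑ i ∈ range (m + 1), y i * d i := by
  intro m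
  induction m with
  | zero =>
    intro _ _
    simp
  | succ m ih =>
    intro hy hd
    have h1 := ih (fun i hi => hy i (by omega)) (fun j hj => hd j (by omega))
    have h2 := hy m (by omega)
    have h3 := hd (m + 1) le_rfl
    rw [sum_range_succ _ (m + 1), sum_range_succ _ (m + 1), mul_add]
    have h4 := mul_le_mul_of_nonneg_right h2 h3
    linarith

/-- The first `j` indices. -/
def ini (m j : ℕ) : Finset (Fin m) := univ.filter fun i : Fin m => i.val < j

theorem mem_ini {m j : ℕ} {i : Fin m} : i ∈ ini m j ↔ i.val < j := by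
  simp [ini]

theorem ini_self (m : ℕ) : ini m m = univ := by
  ext i
  simp [mem_ini]

theorem card_ini {m j : ℕ} (h : j ≤ m) : (ini m j).card = j := by
  have h1 : ini m j = (range j).attachFin (fun i hi => lt_of_lt_of_le (mem_range.1 hi) h) := by
    ext i
    simp [mem_ini]
  rw [h1, card_attachFin, card_range]

theorem sum_ini {m j : ℕ} (h : j ≤ m) (D : ℕ → ℝ) :
    ∑ i ∈ ini m j, D i.val = ∑ i ∈ range j, D i := by
  have h1 : (ini m j).map Fin.valEmbedding = range j := by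
    ext i
    simp only [mem_map, mem_ini, Fin.valEmbedding_apply, mem_range]
    constructor
    · rintro ⟨a, ha, rfl⟩
      exact ha
    · intro hi
      exact ⟨⟨i, lt_of_lt_of_le hi h⟩, hi, rfl⟩
  rw [← h1, sum_map]
  rfl

/-- Abel summation: `∑ y d ≥ 0` if `y` is decreasing, the partial sums of `d` are nonnegative and
the total sum is zero. -/
theorem abel_nonneg {m : ℕ} (y d : Fin m → ℝ) (hy : Antitone y)
    (hd : ∀ j : ℕ, j ≤ m → 0 ≤ ∑ i ∈ ini m j, d i) (h0 : ∑ i, d i = 0) :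
    0 ≤ ∑ i, y i * d i := by
  rcases Nat.eq_zero_or_pos m with hm | hm
  · subst hm
    simp
  obtain ⟨M, rfl⟩ : ∃ M, m = M + 1 := ⟨m - 1, by omega⟩
  obtain ⟨Y, hY⟩ : ∃ Y : ℕ → ℝ, Y = fun i => if h : i < M + 1 then y ⟨i, h⟩ else 0 := ⟨_, rfl⟩
  obtain ⟨D, hD⟩ : ∃ D : ℕ → ℝ, D = fun i => if h : i < M + 1 then d ⟨i, h⟩ else 0 := ⟨_, rfl⟩
  have eY : ∀ i : Fin (M + 1), Y i.val = y i := fun i => by
    rw [hY]
    beta_reduce
    rw [dif_pos i.2]
  have eD : ∀ i : Fin (M + 1), D i.val = d i := fun i => by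
    rw [hD]
    beta_reduce
    rw [dif_pos i.2]
  have e1 : ∑ i ∈ range (M + 1), Y i * D i = ∑ i, y i * d i := by
    rw [← Fin.sum_univ_eq_sum_range (fun i => Y i * D i)]
    exact sum_congr rfl fun i _ => by rw [eY, eD]
  have e2 : ∑ i ∈ range (M + 1), D i = 0 := by
    rw [← Fin.sum_univ_eq_sum_range D, ← h0]
    exact sum_congr rfl fun i _ => eD i
  have h1 := abel_nat Y D M (fun i hi => by
    rw [hY]
    beta_reduce
    rw [dif_pos (by omega : i + 1 < M + 1), dif_pos (by omega : i < M + 1)]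
    exact hy (Fin.mk_le_mk.2 (by omega))) (fun j hj => by
    have h2 := hd j (by omega)
    rw [← sum_ini (by omega : j ≤ M + 1) D]
    refine h2.trans (le_of_eq (sum_congr rfl fun i _ => (eD i).symm)))
  rw [e2, mul_zero, e1] at h1
  exact h1

/-- Schur's inequality for sums of squares: `x` is majorised by the decreasing `lam`. -/
theorem schur_sq_fin {m : ℕ} (x lam : Fin m → ℝ)
    (h : ∀ J : Finset (Fin m), ∑ i ∈ J, x i ≤ ∑ i ∈ ini m J.card, lam i)
    (he : ∑ i, x i = ∑ i, lam i) : ∑ i, x i ^ 2 ≤ ∑ i, lam i ^ 2 := by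
  obtain ⟨σ, hσ⟩ : ∃ σ : Equiv.Perm (Fin m), Antitone (x ∘ σ) := by
    refine ⟨Tuple.sort fun i => - x i, ?_⟩
    intro i j hij
    have h1 := Tuple.monotone_sort (fun i => - x i) hij
    simp only [Function.comp_apply] at h1 ⊢
    linarith
  have h1 := abel_nonneg (x ∘ σ) (fun i => lam i - x (σ i)) hσ (fun j hj => by
    have h2 := h ((ini m j).map σ.toEmbedding)
    rw [card_map, card_ini hj, sum_map] at h2
    rw [sum_sub_distrib, sub_nonneg]
    exact h2) (by
    rw [sum_sub_distrib, Equiv.sum_comp σ x, he, sub_self])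
  have h2 : 0 ≤ ∑ i, (lam i - x (σ i)) ^ 2 := sum_nonneg fun i _ => sq_nonneg _
  have h3 : ∑ i, lam i ^ 2 = ∑ i, x (σ i) ^ 2 + 2 * ∑ i, (x ∘ σ) i * (lam i - x (σ i)) +
      ∑ i, (lam i - x (σ i)) ^ 2 := by
    rw [mul_sum, ← sum_add_distrib, ← sum_add_distrib]
    refine sum_congr rfl fun i _ => ?_
    simp only [Function.comp_apply]
    ring
  have h4 : ∑ i, x (σ i) ^ 2 = ∑ i, x i ^ 2 := Equiv.sum_comp σ fun i => x i ^ 2
  linarith

/-- The parallelogram identity. -/
theorem para {m : ℕ} (u v : Fin m → ℝ) (t : ℝ) :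
    ∑ i, ((1 - t) * u i + t * v i) ^ 2 = (1 - t) * ∑ i, u i ^ 2 + t * ∑ i, v i ^ 2 -
      t * (1 - t) * ∑ i, (u i - v i) ^ 2 := by
  rw [mul_sum, mul_sum, mul_sum, ← sum_add_distrib, ← sum_sub_distrib]
  exact sum_congr rfl fun i _ => by ring

/-! ### Unit minors -/

section Minor

variable {k : Type*} [NormedField k] [IsUltrametricDist k]

/-- A matrix with unit diagonal and small entries (after scaling) has a determinant of norm one. -/
theorem norm_det_unit {ι : Type*} [Fintype ι] [DecidableEq ι] (c : Matrix ι ι k) {μ : ι → ℝ}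
    (hμ : ∀ i, 0 < μ i) (h1 : ∀ i, ‖c i i‖ = 1) (h : ∀ i j, i ≠ j → ‖c i j‖ * μ j < μ i) :
    ‖c.det‖ = 1 := by
  rw [Matrix.det_apply, ← Finset.add_sum_erase _ _ (mem_univ (1 : Equiv.Perm ι))]
  have e1 : ‖Equiv.Perm.sign (1 : Equiv.Perm ι) • ∏ i, c ((1 : Equiv.Perm ι) i) i‖ = 1 := by
    rw [Equiv.Perm.sign_one, one_smul, norm_prod]
    refine prod_eq_one fun i _ => ?_
    rw [Equiv.Perm.one_apply, h1]
  have hns : ∀ (σ : Equiv.Perm ι) (x : k), ‖Equiv.Perm.sign σ • x‖ = ‖x‖ := by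
    intro σ x
    rcases Int.units_eq_one_or (Equiv.Perm.sign σ) with hs | hs
    · rw [hs, one_smul]
    · rw [hs, Units.neg_smul, one_smul, norm_neg]
  have hle : ∀ i j, ‖c i j‖ ≤ μ i / μ j := by
    intro i j
    rw [le_div_iff₀ (hμ j)]
    by_cases hij : i = j
    · subst hij
      rw [h1, one_mul]
    · exact (h i j hij).le
  have e2 : ‖∑ σ ∈ univ.erase (1 : Equiv.Perm ι), Equiv.Perm.sign σ • ∏ i, c (σ i) i‖ < 1 := by
    by_cases hne : (univ.erase (1 : Equiv.Perm ι)).Nonempty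
    · obtain ⟨τ, hτ, hle'⟩ := IsUltrametricDist.exists_norm_finsetSum_le_of_nonempty hne
        (fun σ : Equiv.Perm ι => Equiv.Perm.sign σ • ∏ i, c (σ i) i)
      refine hle'.trans_lt ?_
      rw [hns, norm_prod]
      have hτ1 : τ ≠ 1 := (mem_erase.1 hτ).1
      obtain ⟨i₀, hi₀⟩ : ∃ i, τ i ≠ i := by
        by_contra hcon
        push Not at hcon
        exact hτ1 (Equiv.ext fun i => by rw [hcon i, Equiv.Perm.one_apply])
      have hprod : ∏ i, μ (τ i) / μ i = 1 := by
        rw [prod_div_distrib, Equiv.prod_comp τ μ, div_self]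
        exact (prod_pos fun i _ => hμ i).ne'
      by_cases hz : ∃ i, ‖c (τ i) i‖ = 0
      · obtain ⟨i, hi⟩ := hz
        rw [prod_eq_zero (mem_univ i) hi]
        exact one_pos
      · push Not at hz
        rw [← hprod]
        refine prod_lt_prod (fun i _ => lt_of_le_of_ne (norm_nonneg _) (hz i).symm)
          (fun i _ => hle _ _) ⟨i₀, mem_univ _, ?_⟩
        rw [lt_div_iff₀ (hμ i₀)]
        exact h _ _ hi₀
    · rw [not_nonempty_iff_eq_empty.1 hne, sum_empty, norm_zero]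
      exact one_pos
  have h3 := IsUltrametricDist.norm_add_eq_max_of_norm_ne_norm
    (x := Equiv.Perm.sign (1 : Equiv.Perm ι) • ∏ i, c ((1 : Equiv.Perm ι) i) i)
    (y := ∑ σ ∈ univ.erase (1 : Equiv.Perm ι), Equiv.Perm.sign σ • ∏ i, c (σ i) i)
    (by rw [e1]; exact e2.ne')
  rw [h3, e1]
  exact max_eq_left e2.le

end Minor

/-! ### Generic perturbations -/

/-- There is a direction in which arbitrarily small perturbations are pairwise incongruent. -/
theorem exists_generic_real {m : ℕ} (a : Fin m → ℝ) (q : ℝ) : ∃ c : Fin m → ℝ, ∀ δ : ℝ, 0 < δ →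
    ∃ e : ℝ, 0 < e ∧ e < δ ∧ ∀ i j, i ≠ j → ∀ z : ℤ,
      (a i + e * c i) - (a j + e * c j) ≠ z * q := by
  refine ⟨fun i => (i.val : ℝ), fun δ hδ => ?_⟩
  obtain ⟨S, hS⟩ : ∃ S : Set ℝ, S = ⋃ (i : Fin m) (j : Fin m) (z : ℤ),
    {(z * q - (a i - a j)) / ((i.val : ℝ) - (j.val : ℝ))} := ⟨_, rfl⟩
  have hSc : S.Countable := by
    rw [hS]
    exact Set.countable_iUnion fun i => Set.countable_iUnion fun j =>
      Set.countable_iUnion fun z => Set.countable_singleton _
  have hd := hSc.dense_compl ℝ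
  obtain ⟨e, he, heS⟩ := hd.exists_mem_open isOpen_Ioo (Set.nonempty_Ioo.2 hδ)
  refine ⟨e, heS.1, heS.2, fun i j hij z hz => he ?_⟩
  rw [hS]
  simp only [Set.mem_iUnion, Set.mem_singleton_iff]
  refine ⟨i, j, z, ?_⟩
  have hne : (i.val : ℝ) - (j.val : ℝ) ≠ 0 := by
    rw [sub_ne_zero]
    intro h
    exact hij (Fin.ext (Nat.cast_injective h))
  rw [eq_div_iff hne]
  linarith

end Pool.Agent.Lib.MP_5d4057_al.IN
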