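import Pool.Agent.Lib.MP_5d4057_al.IN.EnJ

/-! Part B of INT for all lattices (base map `F`, structure `Cor`): the base map and the maximum principle off a compact core. -/

namespace Pool.Agent.Lib.MP_5d4057_al.IN

open MeasureTheory Filter Topology Pool.Agent.Lib.MP_5d4057_al
open Pool.Agent.Lib.MP_5d4057_al.Hyb Pool.Agent.Lib.MP_5d4057_al.HM
open Pool.Agent.Lib.MP_5d4057_al.NU

open scoped ENNReal

variable {n : ℕ} {Γ : Subgroup (SUGroup n)} {χ : SUGroup n → ℝ} {Y : Type} [MetricSpace Y]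
variable {Φ : Y → Y → ℝ} {κ : ℝ} {lv : Y → ℝ} {y₀ : Y} {ρ : Γ →* Equiv.Perm Y}

/-- **The maximum principle off the core `S`**, for the distance to the base map `F`. If `Γ` is
cocompact it holds trivially (`cor_of_coc`); for other lattices it is proved with a barrier in the
cusps. -/
structure Cor (Γ : Subgroup (SUGroup n)) (F : SUGroup n → Y) (S : Set (SUGroup n)) (s₀ : ℕ)
    (B : ℝ) : Prop where
  cpt : IsCompact S
  nonneg : 0 ≤ B
  max : ∀ s, s₀ ≤ s → ∀ (M : ℝ) (W : SUGroup n → ℝ), 0 ≤ M → Continuous W →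
    (∀ g k : SUGroup n, ch k = 1 → W (g * k) = W g) → (∀ γ ∈ Γ, ∀ g, W (γ * g) = W g) →
    (∀ g, 0 ≤ W g) → (∃ C : ℝ, ∀ g, W g ≤ C) →
    (∀ g, W g ≤ Boot.Q s W g + ∫ x, kap s x * dist (F g) (F (g * x)) ∂(mu n)) →
    (∀ g ∈ S, W g ≤ M) → ∀ g, W g ≤ M + B

/-- The base map. -/
structure BaseF (ρ : Γ →* Equiv.Perm Y) (lv : Y → ℝ) (χ : SUGroup n → ℝ) (F : SUGroup n → Y)
    (L : ℝ) (S : Set (SUGroup n)) (s₀ : ℕ) (B : ℝ) : Prop where
  lat : Lat Γ χ
  eqv : Eqv ρ F
  lv : ∀ g, lv (F g) = 0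
  L0 : 0 ≤ L
  lip : LipD L F
  cor : Cor Γ F S s₀ B

/-- The cocompact case. -/
theorem cor_of_coc (hΓ : Coc Γ) (F : SUGroup n → Y) : ∃ S, Cor Γ F S 0 0 := by
  obtain ⟨S, hS, hcov⟩ := hΓ.cpt
  refine ⟨S, hS, le_rfl, fun s _ M W _ _ _ hΓW _ _ _ hSW g => ?_⟩
  obtain ⟨γ, hγ, hm⟩ := hcov g
  rw [add_zero, ← hΓW γ hγ g]
  exact hSW _ hm

/-- Lipschitz maps have logarithmic growth. -/
theorem LipD.lg {L : ℝ} (hL : 0 ≤ L) {F : SUGroup n → Y} (hF : LipD L F) (y₀ : Y) :
    Lg (dist y₀ (F 1) + L) y₀ F := by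
  intro g
  have h1 := hF 1 g
  rw [one_mul] at h1
  have h2 := dist_triangle y₀ (F 1) (F g)
  have h3 : 0 ≤ Real.log (wt g) := Real.log_nonneg (one_le_wt g)
  have h4 : 0 ≤ dist y₀ (F 1) := dist_nonneg
  nlinarith [mul_nonneg h4 h3]

/-- Maps at bounded distance of the base map have logarithmic growth. -/
theorem BaseF.lg {F : SUGroup n → Y} {L : ℝ} {S : Set (SUGroup n)} {s₀ : ℕ} {B : ℝ}
    (hF : BaseF ρ lv χ F L S s₀ B) (y₀ : Y) {f : SUGroup n → Y} {C : ℝ}
    (h : ∀ g, dist (f g) (F g) ≤ C) : Lg (dist y₀ (F 1) + L + C) y₀ f := by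
  intro g
  have h1 := hF.lip.lg hF.L0 y₀ g
  have h2 := dist_triangle y₀ (F g) (f g)
  rw [dist_comm (F g) (f g)] at h2
  have h3 : 0 ≤ Real.log (wt g) := Real.log_nonneg (one_le_wt g)
  have h4 : 0 ≤ C := dist_nonneg.trans (h g)
  nlinarith [h g, mul_nonneg h4 h3]

private theorem cf_tend (T : Tgt Φ κ) {u v : ℕ → Y} {a b : Y} (hu : Tendsto u atTop (𝓝 a))
    (hv : Tendsto v atTop (𝓝 b)) : Tendsto (fun j => ENNReal.ofReal (Φ (u j) (v j))) atTop
      (𝓝 (ENNReal.ofReal (Φ a b))) :=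
  (ENNReal.continuous_ofReal.tendsto _).comp
    ((T.continuous.tendsto (a, b)).comp (hu.prodMk_nhds hv))

/-- Lower semicontinuity of the energy. PROOF: Fatou twice (`lintegral_liminf_le`), `Tgt.continuous`. -/
theorem LJ_fatou (hχ : Lat Γ χ) (T : Tgt Φ κ) {s : ℕ} {h f : ℕ → SUGroup n → Y}
    {h' f' : SUGroup n → Y} (hh : ∀ j, Continuous (h j)) (hf : ∀ j, Continuous (f j))
    (th : ∀ g, Tendsto (fun j => h j g) atTop (𝓝 (h' g)))
    (tf : ∀ g, Tendsto (fun j => f j g) atTop (𝓝 (f' g))) {c : ℝ≥0∞}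
    (hc : ∀ j, LJ χ Φ s (h j) (f j) ≤ c) : LJ χ Φ s h' f' ≤ c := by
  have hm1 : ∀ j g, Measurable fun x : SUGroup n => ENNReal.ofReal (χ g) *
      (ENNReal.ofReal (kap s x) * ENNReal.ofReal (Φ (h j g) (f j (g * x)))) := by
    intro j g
    have h1 : Continuous fun x : SUGroup n => ENNReal.ofReal (Φ (h j g) (f j (g * x))) :=
      ENNReal.continuous_ofReal.comp (T.continuous.comp
        (continuous_const.prodMk ((hf j).comp (continuous_const.mul continuous_id))))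
    exact ((continuous_kap s).measurable.ennreal_ofReal.mul h1.measurable).const_mul _
  have hm2 : ∀ j, Measurable fun g : SUGroup n => ENNReal.ofReal (χ g) *
      ∫⁻ x, ENNReal.ofReal (kap s x) * ENNReal.ofReal (Φ (h j g) (f j (g * x))) ∂(mu n) := by
    intro j
    have h1 : Continuous fun p : SUGroup n × SUGroup n =>
        ENNReal.ofReal (Φ (h j p.1) (f j (p.1 * p.2))) :=
      ENNReal.continuous_ofReal.comp (T.continuous.comp
        (((hh j).comp continuous_fst).prodMk ((hf j).comp (continuous_fst.mul continuous_snd))))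
    have h2 : Measurable fun p : SUGroup n × SUGroup n => ENNReal.ofReal (kap s p.2) :=
      ((continuous_kap s).comp continuous_snd).measurable.ennreal_ofReal
    exact hχ.cont.measurable.ennreal_ofReal.mul (h2.mul h1.measurable).lintegral_prod_right'
  have key : ∀ g : SUGroup n, ENNReal.ofReal (χ g) *
      ∫⁻ x, ENNReal.ofReal (kap s x) * ENNReal.ofReal (Φ (h' g) (f' (g * x))) ∂(mu n) ≤
      liminf (fun j => ENNReal.ofReal (χ g) * ∫⁻ x, ENNReal.ofReal (kap s x) *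
        ENNReal.ofReal (Φ (h j g) (f j (g * x))) ∂(mu n)) atTop := by
    intro g
    simp only [← lintegral_const_mul' _ _ (ENNReal.ofReal_ne_top (r := χ g))]
    refine le_trans (lintegral_mono fun x => ?_) (lintegral_liminf_le fun j => hm1 j g)
    have h1 := ENNReal.Tendsto.const_mul (a := ENNReal.ofReal (χ g)) (ENNReal.Tendsto.const_mul
      (a := ENNReal.ofReal (kap s x)) (cf_tend T (th g) (tf (g * x)))
      (Or.inr ENNReal.ofReal_ne_top)) (Or.inr ENNReal.ofReal_ne_top)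
    exact h1.liminf_eq.ge
  calc LJ χ Φ s h' f' ≤ ∫⁻ g, liminf (fun j => ENNReal.ofReal (χ g) *
        ∫⁻ x, ENNReal.ofReal (kap s x) * ENNReal.ofReal (Φ (h j g) (f j (g * x))) ∂(mu n)) atTop
          ∂(mu n) := lintegral_mono key
    _ ≤ liminf (fun j => LJ χ Φ s (h j) (f j)) atTop := lintegral_liminf_le hm2
    _ ≤ c := liminf_le_of_frequently_le' (Frequently.of_forall hc)

/-- The same for `LI`. -/
theorem LI_fatou (hχ : Lat Γ χ) (T : Tgt Φ κ) {h f : ℕ → SUGroup n → Y}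
    {h' f' : SUGroup n → Y} (hh : ∀ j, Continuous (h j)) (hf : ∀ j, Continuous (f j))
    (hh1 : Continuous h') (hf1 : Continuous f')
    (th : ∀ g, Tendsto (fun j => h j g) atTop (𝓝 (h' g)))
    (tf : ∀ g, Tendsto (fun j => f j g) atTop (𝓝 (f' g)))
    (h0 : Tendsto (fun j => LI χ fun g => ENNReal.ofReal (Φ (h j g) (f j g))) atTop (𝓝 0)) :
    ∀ g, h' g = f' g := by
  have hm : ∀ j, Measurable fun g : SUGroup n =>
      ENNReal.ofReal (χ g) * ENNReal.ofReal (Φ (h j g) (f j g)) := by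
    intro j
    exact hχ.cont.measurable.ennreal_ofReal.mul
      (ENNReal.continuous_ofReal.comp (T.continuous.comp ((hh j).prodMk (hf j)))).measurable
  have hm' : Measurable fun g : SUGroup n =>
      ENNReal.ofReal (χ g) * ENNReal.ofReal (Φ (h' g) (f' g)) :=
    hχ.cont.measurable.ennreal_ofReal.mul
      (ENNReal.continuous_ofReal.comp (T.continuous.comp (hh1.prodMk hf1))).measurable
  have h1 : ∫⁻ g, ENNReal.ofReal (χ g) * ENNReal.ofReal (Φ (h' g) (f' g)) ∂(mu n) ≤ 0 := by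
    calc ∫⁻ g, ENNReal.ofReal (χ g) * ENNReal.ofReal (Φ (h' g) (f' g)) ∂(mu n) ≤
          ∫⁻ g, liminf (fun j => ENNReal.ofReal (χ g) * ENNReal.ofReal (Φ (h j g) (f j g))) atTop
            ∂(mu n) := by
          refine lintegral_mono fun g => ?_
          have h2 := ENNReal.Tendsto.const_mul (a := ENNReal.ofReal (χ g))
            (cf_tend T (th g) (tf g)) (Or.inr ENNReal.ofReal_ne_top)
          exact h2.liminf_eq.ge
      _ ≤ liminf (fun j => LI χ fun g => ENNReal.ofReal (Φ (h j g) (f j g))) atTop :=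
          lintegral_liminf_le hm
      _ = 0 := h0.liminf_eq
  have h2 := (lintegral_eq_zero_iff hm').1 (le_antisymm h1 zero_le)
  have h3 : h' =ᵐ[mu n] f' := by
    filter_upwards [h2] with g hg
    have h4 : ENNReal.ofReal (χ g) ≠ 0 := by
      rw [Ne, ENNReal.ofReal_eq_zero, not_le]
      exact hχ.pos g
    have h5 := (mul_eq_zero.1 hg).resolve_left h4
    exact T.eq (ENNReal.ofReal_eq_zero.1 h5)
  have h6 := Measure.eq_of_ae_eq h3 hh1 hf1
  exact fun g => congrFun h6 g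

end Pool.Agent.Lib.MP_5d4057_al.IN
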