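import Pool.Agent.Lib.MP_5d4057_al.NU.CuspN
import Pool.Agent.Lib.MP_5d4057_al.NU.ThmL

/-!
# Nonuniform lattices at a finite place: the cusp groups are bounded
-/

namespace Pool.Agent.Lib.MP_5d4057_al.IN

open Matrix MeasureTheory Filter Topology Pool.Agent.Lib.MP_5d4057_al
  Pool.Agent.Lib.MP_5d4057_al.Hyb Pool.Agent.Lib.MP_5d4057_al.HM
  Pool.Agent.Lib.MP_5d4057_al.HM.Kak Pool.Agent.Lib.MP_5d4057_al.NU

variable {n m : ℕ} {E : Type} [NormedField E]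

/-- The largest norm of an entry of the image of a matrix. -/
noncomputable def ent (σ : ℂ →+* E) (A : Mat (m + 1)) : ℝ :=
  Finset.univ.sup' ⟨((0 : Fin (m + 1)), (0 : Fin (m + 1))), Finset.mem_univ _⟩
    fun p : Fin (m + 1) × Fin (m + 1) => ‖σ (A p.1 p.2)‖

theorem le_ent (σ : ℂ →+* E) (A : Mat (m + 1)) (i j : Fin (m + 1)) : ‖σ (A i j)‖ ≤ ent σ A :=
  Finset.le_sup' (fun p : Fin (m + 1) × Fin (m + 1) => ‖σ (A p.1 p.2)‖)
    (Finset.mem_univ ((i, j) : Fin (m + 1) × Fin (m + 1)))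

theorem ent_le {σ : ℂ →+* E} {A : Mat (m + 1)} {C : ℝ} (h : ∀ i j, ‖σ (A i j)‖ ≤ C) :
    ent σ A ≤ C :=
  Finset.sup'_le _ _ fun p _ => h p.1 p.2

theorem ent_nonneg (σ : ℂ →+* E) (A : Mat (m + 1)) : 0 ≤ ent σ A :=
  (norm_nonneg _).trans (le_ent σ A 0 0)

theorem ent_one (σ : ℂ →+* E) : ent σ (1 : Mat (m + 1)) ≤ 1 := by
  refine ent_le fun i j => ?_
  rw [Matrix.one_apply]
  split_ifs
  · rw [map_one, norm_one]
  · rw [map_zero, norm_zero]
    exact zero_le_one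

section

variable [IsUltrametricDist E]

theorem ent_add (σ : ℂ →+* E) (A B : Mat (m + 1)) : ent σ (A + B) ≤ max (ent σ A) (ent σ B) := by
  refine ent_le fun i j => ?_
  rw [Matrix.add_apply, map_add]
  exact (IsUltrametricDist.norm_add_le_max _ _).trans (max_le_max (le_ent σ A i j) (le_ent σ B i j))

theorem ultra_sum {ι : Type} (s : Finset ι) (f : ι → E) {C : ℝ} (hC : 0 ≤ C)
    (h : ∀ i ∈ s, ‖f i‖ ≤ C) : ‖∑ i ∈ s, f i‖ ≤ C := by
  classical
  induction s using Finset.induction_on with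
  | empty => simpa using hC
  | insert a s ha ih =>
    rw [Finset.sum_insert ha]
    exact (IsUltrametricDist.norm_add_le_max _ _).trans (max_le (h a (Finset.mem_insert_self a s))
      (ih fun i hi => h i (Finset.mem_insert_of_mem hi)))

theorem ent_mul (σ : ℂ →+* E) (A B : Mat (m + 1)) : ent σ (A * B) ≤ ent σ A * ent σ B := by
  refine ent_le fun i j => ?_
  rw [Matrix.mul_apply, map_sum]
  refine ultra_sum _ _ (mul_nonneg (ent_nonneg σ A) (ent_nonneg σ B)) fun l _ => ?_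
  rw [map_mul, norm_mul]
  exact mul_le_mul (le_ent σ A i l) (le_ent σ B l j) (norm_nonneg _) (ent_nonneg σ A)

/-- A cobounded group of Heisenberg type is bounded at a finite place. -/
theorem bdd_uni (σ : ℂ →+* E) {ξ : Fin n → ℂ} (hξ : nq ξ = 1)
    {Δ : Subgroup (SUGroup n)} (hd : DiscreteTopology Δ) (hle : Δ ≤ PS ξ)
    (h1 : ∀ x ∈ Δ, Dg ξ x = 1) {R : ℝ} (hc : ∀ g ∈ PS ξ, ∃ δ ∈ Δ, ch (δ * g) ≤ R) :
    ∃ C : ℝ, 0 ≤ C ∧ ∀ δ ∈ Δ, ent σ δ.toMatrix ≤ C := by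
  obtain ⟨S, C, hS, hSΔ, hw⟩ := exists_word hξ hd hle hc
  obtain ⟨B, hB⟩ := (hS.image fun s => ent σ (s.toMatrix - 1)).bddAbove
  have hB' : ∀ s ∈ S, ent σ (s.toMatrix - 1) ≤ |B| := fun s hs =>
    (hB (Set.mem_image_of_mem _ hs)).trans (le_abs_self B)
  have hB0 : 0 ≤ |B| := abs_nonneg B
  have hpr : ∀ l : List (SUGroup n), (∀ s ∈ l, s ∈ S) → l.prod ∈ Δ := by
    intro l hl
    exact Δ.list_prod_mem fun s hs => hSΔ s (hl s hs)
  have e00 : ent σ (0 : Mat (n + 1)) ≤ 0 := ent_le fun i j => by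
    rw [Matrix.zero_apply, map_zero, norm_zero]
  have ha : ∀ l : List (SUGroup n), (∀ s ∈ l, s ∈ S) → ∀ r ∈ S,
      ent σ ((r.toMatrix - 1) * (l.prod.toMatrix - 1)) ≤ |B| ^ 2 := by
    intro l
    induction l with
    | nil =>
      intro _ r _
      rw [List.prod_nil, toMatrix_one, sub_self, Matrix.mul_zero]
      exact e00.trans (by positivity)
    | cons s l ih =>
      intro hl r hr
      have hs : s ∈ S := hl s List.mem_cons_self
      have hl' : ∀ s ∈ l, s ∈ S := fun x hx => hl x (List.mem_cons_of_mem _ hx)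
      have e0 := mul_three hξ (PS_le_St ξ (hle (hSΔ r hr))) (PS_le_St ξ (hle (hSΔ s hs)))
        (PS_le_St ξ (hle (hpr l hl'))) (h1 r (hSΔ r hr)) (h1 s (hSΔ s hs)) (h1 _ (hpr l hl'))
      have e1 : (r.toMatrix - 1) * ((s :: l).prod.toMatrix - 1) =
          (r.toMatrix - 1) * (s.toMatrix - 1) + (r.toMatrix - 1) * (l.prod.toMatrix - 1) := by
        rw [List.prod_cons, toMatrix_mul]
        have e2 : s.toMatrix * l.prod.toMatrix - 1 = (s.toMatrix - 1) * (l.prod.toMatrix - 1) +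
            ((s.toMatrix - 1) + (l.prod.toMatrix - 1)) := by
          noncomm_ring
        rw [e2, Matrix.mul_add, ← Matrix.mul_assoc, e0, zero_add, Matrix.mul_add]
      rw [e1]
      refine (ent_add σ _ _).trans (max_le ?_ (ih hl' r hr))
      rw [sq]
      exact (ent_mul σ _ _).trans (mul_le_mul (hB' r hr) (hB' s hs) (ent_nonneg σ _) hB0)
  have hb : ∀ l : List (SUGroup n), (∀ s ∈ l, s ∈ S) →
      ent σ (l.prod.toMatrix - 1) ≤ max |B| (|B| ^ 2) := by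
    intro l
    induction l with
    | nil =>
      intro _
      rw [List.prod_nil, toMatrix_one, sub_self]
      exact e00.trans (le_max_of_le_left hB0)
    | cons s l ih =>
      intro hl
      have hs : s ∈ S := hl s List.mem_cons_self
      have hl' : ∀ s ∈ l, s ∈ S := fun x hx => hl x (List.mem_cons_of_mem _ hx)
      have e1 : (s :: l).prod.toMatrix - 1 = (s.toMatrix - 1) * (l.prod.toMatrix - 1) +
          ((s.toMatrix - 1) + (l.prod.toMatrix - 1)) := by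
        rw [List.prod_cons, toMatrix_mul]
        noncomm_ring
      rw [e1]
      refine (ent_add σ _ _).trans (max_le (le_max_of_le_right (ha l hl' s hs)) ?_)
      exact (ent_add σ _ _).trans (max_le (le_max_of_le_left (hB' s hs)) (ih hl'))
  refine ⟨max 1 (max |B| (|B| ^ 2)), le_max_of_le_left zero_le_one, ?_⟩
  intro δ hδ
  obtain ⟨l, hl, hlδ, -⟩ := hw δ hδ
  have e1 : δ.toMatrix = 1 + (l.prod.toMatrix - 1) := by rw [hlδ]; abel
  rw [e1]
  exact (ent_add σ _ _).trans (max_le_max (ent_one σ) (hb l hl))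

variable {Γ : Subgroup (SUGroup n)}

/-- CuspR: the stabiliser of a cusp is bounded at a finite place. -/
theorem bdd_St (σ : ℂ →+* E) (hd : DiscreteTopology Γ) {ξ : Fin n → ℂ} (hP : Par Γ ξ) {R : ℝ}
    (hc : ∀ g ∈ PS ξ, ∃ γ ∈ Γ, γ ∈ St ξ ∧ ch (γ * g) ≤ R) :
    ∃ C : ℝ, 0 < C ∧ ∀ γ ∈ Γ, γ ∈ St ξ → ent σ γ.toMatrix ≤ C := by
  have hξ := hP.1
  obtain ⟨Δ, hle, hfi, h1, R', hR'⟩ := exists_unip hd hP hc
  have hlΓ : Δ ≤ Γ := hle.trans inf_le_left
  have hdΔ : DiscreteTopology Δ :=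
    DiscreteTopology.of_continuous_injective (continuous_inclusion hlΓ)
      (Set.inclusion_injective hlΓ)
  obtain ⟨C, hC0, hC⟩ := bdd_uni σ hξ hdΔ (hle.trans inf_le_right) h1 hR'
  have hfin : Finite ((Γ ⊓ PS ξ : Subgroup (SUGroup n)) ⧸ Δ.subgroupOf (Γ ⊓ PS ξ)) :=
    Nat.finite_of_card_ne_zero hfi
  obtain ⟨M, hM⟩ := (Set.finite_range fun c : ((Γ ⊓ PS ξ : Subgroup (SUGroup n)) ⧸
    Δ.subgroupOf (Γ ⊓ PS ξ)) => ent σ (c.out : SUGroup n).toMatrix * C).bddAbove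
  refine ⟨|M| + 1, by positivity, ?_⟩
  intro γ hγ hs
  have hγ' : γ ∈ Γ ⊓ PS ξ := ⟨hγ, hP.2 γ hγ hs⟩
  obtain ⟨c, hcdef⟩ : ∃ c : ((Γ ⊓ PS ξ : Subgroup (SUGroup n)) ⧸ Δ.subgroupOf (Γ ⊓ PS ξ)),
    c = QuotientGroup.mk ⟨γ, hγ'⟩ := ⟨_, rfl⟩
  have hout : (QuotientGroup.mk c.out : ((Γ ⊓ PS ξ : Subgroup (SUGroup n)) ⧸
      Δ.subgroupOf (Γ ⊓ PS ξ))) = QuotientGroup.mk ⟨γ, hγ'⟩ := by
    rw [QuotientGroup.out_eq', hcdef]
  have hδ : (c.out : SUGroup n)⁻¹ * γ ∈ Δ := by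
    have := QuotientGroup.eq.1 hout
    rw [Subgroup.mem_subgroupOf] at this
    exact this
  have hMc : ent σ (c.out : SUGroup n).toMatrix * C ≤ |M| :=
    (hM (Set.mem_range_self c)).trans (le_abs_self M)
  obtain ⟨r, hr⟩ : ∃ r : SUGroup n, r = (c.out : SUGroup n) := ⟨_, rfl⟩
  rw [← hr] at hδ hMc
  have e1 : γ.toMatrix = r.toMatrix * (r⁻¹ * γ).toMatrix := by
    rw [← toMatrix_mul, mul_inv_cancel_left]
  rw [e1]
  calc ent σ (r.toMatrix * (r⁻¹ * γ).toMatrix)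
      ≤ ent σ r.toMatrix * ent σ (r⁻¹ * γ).toMatrix := ent_mul σ _ _
    _ ≤ ent σ r.toMatrix * C := mul_le_mul_of_nonneg_left (hC _ hδ) (ent_nonneg σ _)
    _ ≤ |M| + 1 := by linarith

end

end Pool.Agent.Lib.MP_5d4057_al.IN
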