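import Pool.Agent.Lib.MP_5d4057_al.IN.DTst

/-! INT, part D, file DBmp: bumps, partitions of unity, the local principle. -/

set_option autoImplicit false

namespace Pool.Agent.Lib.MP_5d4057_al.IN.D

open Matrix MeasureTheory Filter Topology Pool.Agent.Lib.MP_5d4057_al
  Pool.Agent.Lib.MP_5d4057_al.Hyb Pool.Agent.Lib.MP_5d4057_al.HM

open scoped ComplexOrder MatrixOrder Matrix.Norms.L2Operator ENNReal

variable {n : ℕ} {O : Set (SUGroup n)} {Φ Ψ : Mat (n + 1) → ℝ}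

private theorem bm_bump {K V : Set (Mat (n + 1))} (hK : IsCompact K) (hV : IsOpen V) (hKV : K ⊆ V) :
    ∃ ζ : Mat (n + 1) → ℝ, ContDiff ℝ (⊤ : ℕ∞) ζ ∧ HasCompactSupport ζ ∧ tsupport ζ ⊆ V ∧
      (∀ M, 0 ≤ ζ M) ∧ (∀ M, ζ M ≤ 1) ∧ ∃ W : Set (Mat (n + 1)), IsOpen W ∧ K ⊆ W ∧
        ∀ M ∈ W, ζ M = 1 := by
  obtain ⟨L, hL, hKL, hLV⟩ := exists_compact_between hK hV hKV
  obtain ⟨f, h1, h2, h3⟩ := exists_contMDiffMap_one_nhds_of_subset_interior
    (modelWithCornersSelf ℝ (Mat (n + 1))) (n := (⊤ : ℕ∞)) hK.isClosed hKL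
  have hsub : tsupport (f : Mat (n + 1) → ℝ) ⊆ L := by
    refine closure_minimal ?_ hL.isClosed
    intro M hM
    by_contra h4
    exact hM (h2 M h4)
  rw [eventually_nhdsSet_iff_exists] at h1
  obtain ⟨W, hW, hKW, hW1⟩ := h1
  refine ⟨f, f.contMDiff.contDiff, ?_, hsub.trans hLV, fun M => (h3 M).1, fun M => (h3 M).2,
    W, hW, hKW, hW1⟩
  exact hL.of_isClosed_subset (isClosed_tsupport _) hsub

private theorem bm_zero (V : Set (SUGroup n)) : Tst V (fun _ : Mat (n + 1) => (0 : ℝ)) := by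
  have h0 : tsupport (fun _ : Mat (n + 1) => (0 : ℝ)) = ∅ := by
    rw [tsupport_eq_empty_iff]
    rfl
  refine ⟨⟨contDiff_const, ?_, fun g hg => ?_⟩, fun _ => le_rfl⟩
  · rw [HasCompactSupport, h0]
    exact isCompact_empty
  · rw [h0] at hg
    exact absurd hg (Set.notMem_empty _)

/-- Bumps. PROOF: `toMatrix` is a closed embedding, so `O = toMatrix ⁻¹' V` with `V` open; smooth bump
on `Mat (n + 1)` equal to `1` near the compact set `toMatrix '' K`, with compact support in `V`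
(`exists_compact_between`, `exists_contMDiff_..` or `exists_contDiff_tsupport_subset` and products). -/
theorem exists_bump (hO : IsOpen O) {K : Set (SUGroup n)} (hK : IsCompact K) (hKO : K ⊆ O) :
    ∃ ζ : Mat (n + 1) → ℝ, Tst O ζ ∧ (∀ M, 0 ≤ ζ M) ∧ (∀ M, ζ M ≤ 1) ∧
      ∃ W : Set (Mat (n + 1)), IsOpen W ∧ (∀ g ∈ K, g.toMatrix ∈ W) ∧ ∀ M ∈ W, ζ M = 1 := by
  obtain ⟨V, hV, hVO⟩ := (isClosedEmbedding_toMatrix n).isInducing.isOpen_iff.1 hO
  have hK' : IsCompact (SUGroup.toMatrix '' K) := hK.image (continuous_toMatrix n)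
  have hKV : SUGroup.toMatrix '' K ⊆ V := by
    rintro _ ⟨g, hg, rfl⟩
    have h1 : g ∈ SUGroup.toMatrix ⁻¹' V := by
      rw [hVO]
      exact hKO hg
    exact h1
  obtain ⟨ζ, h1, h2, h3, h4, h5, W, hW, hKW, hW1⟩ := bm_bump hK' hV hKV
  refine ⟨ζ, ⟨⟨h1, h2, fun g hg => ?_⟩, fun g => h4 _⟩, h4, h5, W, hW,
    fun g hg => hKW ⟨g, hg, rfl⟩, hW1⟩
  rw [← hVO]
  exact h3 hg

/-- Finite partitions of unity near a compact set. PROOF: `SmoothPartitionOfUnity.exists_isSubordinate`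
on `Mat (n + 1)` for a compact neighbourhood of `toMatrix '' K`, times a bump; only finitely many
members are not zero on the compact support of the bump. -/
theorem exists_part {ι : Type} (V : ι → Set (SUGroup n)) (hV : ∀ i, IsOpen (V i))
    {K : Set (SUGroup n)} (hK : IsCompact K) (hcov : K ⊆ ⋃ i, V i) :
    ∃ (s : Finset ι) (ζ : ι → Mat (n + 1) → ℝ), (∀ i, Tst (V i) (ζ i)) ∧ (∀ i M, 0 ≤ ζ i M) ∧
      ∃ W : Set (Mat (n + 1)), IsOpen W ∧ (∀ g ∈ K, g.toMatrix ∈ W) ∧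
        ∀ M ∈ W, ∑ i ∈ s, ζ i M = 1 := by
  classical
  obtain ⟨s, ζ, h1, h2, -, -, h5⟩ : ∃ (s : Finset ι) (ζ : ι → Mat (n + 1) → ℝ),
      (∀ i, Tst (V i) (ζ i)) ∧ (∀ i M, 0 ≤ ζ i M) ∧ (∀ i ∉ s, ∀ M, ζ i M = 0) ∧
      (∀ M, ∑ i ∈ s, ζ i M ≤ 1) ∧
      ∃ W : Set (Mat (n + 1)), IsOpen W ∧ (∀ g ∈ K, g.toMatrix ∈ W) ∧
        ∀ M ∈ W, ∑ i ∈ s, ζ i M = 1 := by
    refine hK.induction_on (p := fun K => ∃ (s : Finset ι) (ζ : ι → Mat (n + 1) → ℝ),
      (∀ i, Tst (V i) (ζ i)) ∧ (∀ i M, 0 ≤ ζ i M) ∧ (∀ i ∉ s, ∀ M, ζ i M = 0) ∧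
      (∀ M, ∑ i ∈ s, ζ i M ≤ 1) ∧
      ∃ W : Set (Mat (n + 1)), IsOpen W ∧ (∀ g ∈ K, g.toMatrix ∈ W) ∧
        ∀ M ∈ W, ∑ i ∈ s, ζ i M = 1) ?_ ?_ ?_ ?_
    · refine ⟨∅, fun _ _ => 0, fun i => bm_zero (V i), fun _ _ => le_rfl, fun _ _ _ => rfl,
        fun M => ?_, ∅, isOpen_empty, fun g hg => absurd hg (Set.notMem_empty g),
        fun M hM => absurd hM (Set.notMem_empty M)⟩
      simp
    · rintro A B hAB ⟨s, ζ, h1, h2, h3, h4, W, hW, hKW, hW1⟩
      exact ⟨s, ζ, h1, h2, h3, h4, W, hW, fun g hg => hKW g (hAB hg), hW1⟩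
    · rintro A B ⟨s, ζ, h1, h2, h3, h4, W, hW, hKW, hW1⟩ ⟨s', ζ', h1', h2', h3', h4', W', hW', hKW', hW1'⟩
      have e1 : ∀ M, ∑ i ∈ s ∪ s', ζ i M = ∑ i ∈ s, ζ i M := by
        intro M
        refine (Finset.sum_subset Finset.subset_union_left fun i _ hi => h3 i hi M).symm
      have e2 : ∀ M, ∑ i ∈ s ∪ s', ζ' i M = ∑ i ∈ s', ζ' i M := by
        intro M
        refine (Finset.sum_subset Finset.subset_union_right fun i _ hi => h3' i hi M).symm
      have e3 : ∀ M, ∑ i ∈ s ∪ s', (ζ i M + (1 - ∑ j ∈ s, ζ j M) * ζ' i M) =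
          1 - (1 - ∑ j ∈ s, ζ j M) * (1 - ∑ j ∈ s', ζ' j M) := by
        intro M
        rw [Finset.sum_add_distrib, ← Finset.mul_sum, e1, e2]
        ring
      have hc : ContDiff ℝ (⊤ : ℕ∞) fun M : Mat (n + 1) => 1 - ∑ j ∈ s, ζ j M :=
        contDiff_const.sub (ContDiff.sum fun i _ => (h1 i).smooth)
      refine ⟨s ∪ s', fun i M => ζ i M + (1 - ∑ j ∈ s, ζ j M) * ζ' i M, fun i => ?_, fun i M => ?_,
        fun i hi M => ?_, fun M => ?_, W ∪ W', hW.union hW', ?_, ?_⟩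
      · refine (h1 i).add ⟨Cs.mul hc (h1' i).toCs, fun g => ?_⟩
        exact mul_nonneg (by linarith [h4 g.toMatrix]) (h2' i _)
      · exact add_nonneg (h2 i M) (mul_nonneg (by linarith [h4 M]) (h2' i M))
      · rw [Finset.mem_union, not_or] at hi
        show ζ i M + (1 - ∑ j ∈ s, ζ j M) * ζ' i M = 0
        rw [h3 i hi.1, h3' i hi.2]
        ring
      · show ∑ i ∈ s ∪ s', (ζ i M + (1 - ∑ j ∈ s, ζ j M) * ζ' i M) ≤ 1
        rw [e3]
        have h6 : 0 ≤ (1 - ∑ j ∈ s, ζ j M) * (1 - ∑ j ∈ s', ζ' j M) :=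
          mul_nonneg (by linarith [h4 M]) (by linarith [h4' M])
        linarith
      · rintro g (hg | hg)
        · exact Or.inl (hKW g hg)
        · exact Or.inr (hKW' g hg)
      · rintro M (hM | hM)
        · show ∑ i ∈ s ∪ s', (ζ i M + (1 - ∑ j ∈ s, ζ j M) * ζ' i M) = 1
          rw [e3, hW1 M hM]
          ring
        · show ∑ i ∈ s ∪ s', (ζ i M + (1 - ∑ j ∈ s, ζ j M) * ζ' i M) = 1
          rw [e3, hW1' M hM]
          ring
    · intro x hx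
      obtain ⟨i, hi⟩ := Set.mem_iUnion.1 (hcov hx)
      obtain ⟨ζ, h1, h2, h3, W, hW, hKW, hW1⟩ := exists_bump (hV i) (K := {x}) isCompact_singleton
        (Set.singleton_subset_iff.2 hi)
      have hxW : x.toMatrix ∈ W := hKW x rfl
      refine ⟨SUGroup.toMatrix ⁻¹' W, mem_nhdsWithin_of_mem_nhds
        ((hW.preimage (continuous_toMatrix n)).mem_nhds hxW), {i},
        fun j M => if j = i then ζ M else 0, fun j => ?_, fun j M => ?_, fun j hj M => ?_,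
        fun M => ?_, W, hW, fun g hg => hg, fun M hM => ?_⟩
      · by_cases hj : j = i
        · subst hj
          simpa using h1
        · simp only [hj, if_false]
          exact bm_zero (V j)
      · show 0 ≤ if j = i then ζ M else 0
        split_ifs
        · exact h2 M
        · exact le_rfl
      · rw [Finset.mem_singleton] at hj
        exact if_neg hj
      · show ∑ j ∈ {i}, (if j = i then ζ M else 0) ≤ 1
        rw [Finset.sum_singleton, if_pos rfl]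
        exact h3 M
      · show ∑ j ∈ {i}, (if j = i then ζ M else 0) = 1
        rw [Finset.sum_singleton, if_pos rfl]
        exact hW1 M hM
  exact ⟨s, ζ, h1, h2, h5⟩

/-- Decomposition of a test function: `exists_part` for the support of `Φ` in the group. -/
theorem Cs.split (hΦ : Cs O Φ) {ι : Type} (V : ι → Set (SUGroup n)) (hV : ∀ i, IsOpen (V i))
    (hcov : O ⊆ ⋃ i, V i) :
    ∃ (s : Finset ι) (ζ : ι → Mat (n + 1) → ℝ), (∀ i, Tst (V i) (ζ i)) ∧ (∀ i M, 0 ≤ ζ i M) ∧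
      ∀ g : SUGroup n, Φ =ᶠ[𝓝 g.toMatrix] fun M => ∑ i ∈ s, ζ i M * Φ M := by
  obtain ⟨s, ζ, h1, h2, W, hW, hKW, hW1⟩ := exists_part V hV hΦ.compact
    fun g hg => hcov (hΦ.sub g hg)
  refine ⟨s, ζ, h1, h2, fun g => ?_⟩
  by_cases hg : g.toMatrix ∈ tsupport Φ
  · filter_upwards [hW.mem_nhds (hKW g hg)] with M hM
    rw [← Finset.sum_mul, hW1 M hM, one_mul]
  · filter_upwards [notMem_tsupport_iff_eventuallyEq.1 hg] with M hM
    have h3 : Φ M = 0 := hM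
    simp [h3]

/-- The local principle: an additive functional of the germ of `Φ` along the group is nonnegative on
`Tst O` if it is so locally. PROOF: `Cs.split` for the cover by the sets `V`; induction on the finite
set. -/
theorem Tst.loc (P : (Mat (n + 1) → ℝ) → ℝ) (hP0 : P (fun _ => 0) = 0)
    (hadd : ∀ Φ Ψ, Tst O Φ → Tst O Ψ → P (fun M => Φ M + Ψ M) = P Φ + P Ψ)
    (hcongr : ∀ Φ Ψ, Tst O Φ → Tst O Ψ → (∀ g : SUGroup n, Φ =ᶠ[𝓝 g.toMatrix] Ψ) → P Φ = P Ψ)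
    (hloc : ∀ g ∈ O, ∃ V, IsOpen V ∧ g ∈ V ∧ ∀ Φ, Tst (O ∩ V) Φ → 0 ≤ P Φ) :
    ∀ Φ, Tst O Φ → 0 ≤ P Φ := by
  classical
  intro Φ hΦ
  choose! V hV hgV hP using hloc
  obtain ⟨s, ζ, h1, h2, h3⟩ := hΦ.toCs.split (fun g : O => V g) (fun g => hV g g.2)
    fun g hg => Set.mem_iUnion.2 ⟨⟨g, hg⟩, hgV g hg⟩
  have h4 : ∀ i : O, Tst (O ∩ V i) (fun M => ζ i M * Φ M) := by
    intro i
    have h5 := (h1 i).mul_inter hΦ
    rwa [Set.inter_comm] at h5
  have key : ∀ t : Finset O, Tst O (fun M => ∑ i ∈ t, ζ i M * Φ M) ∧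
      0 ≤ P (fun M => ∑ i ∈ t, ζ i M * Φ M) := by
    intro t
    induction t using Finset.induction_on with
    | empty =>
      simp only [Finset.sum_empty]
      exact ⟨bm_zero O, hP0.ge⟩
    | insert a t ha ih =>
      have h5 : Tst O (fun M => ζ a M * Φ M) := (h4 a).mono Set.inter_subset_left
      simp only [Finset.sum_insert ha]
      refine ⟨h5.add ih.1, ?_⟩
      rw [hadd _ _ h5 ih.1]
      exact add_nonneg (hP a a.2 _ (h4 a)) ih.2
  rw [hcongr Φ _ hΦ (key s).1 h3]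
  exact (key s).2

end Pool.Agent.Lib.MP_5d4057_al.IN.D
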