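import Pool.Agent.Lib.MP_5d4057_al.IN.DWk

/-! INT, part D, file DCmp: cutting off near the zero set of a continuous function. -/

set_option autoImplicit false

namespace Pool.Agent.Lib.MP_5d4057_al.IN.D

open Matrix MeasureTheory Filter Topology Pool.Agent.Lib.MP_5d4057_al
  Pool.Agent.Lib.MP_5d4057_al.Hyb Pool.Agent.Lib.MP_5d4057_al.HM

open scoped ComplexOrder MatrixOrder Matrix.Norms.L2Operator ENNReal

variable {n : ℕ} {O : Set (SUGroup n)} {Φ : Mat (n + 1) → ℝ} {u v : SUGroup n → ℝ}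
  {G H : Ix n → SUGroup n → ℝ}

/-- The cut-off functions: `0` on `(-∞, 1]`, `1` on `[4, ∞)`, with values in `[0, 1]`, smooth and
monotone. -/
structure Cof (S : ℝ → ℝ) : Prop where
  smooth : ContDiff ℝ (⊤ : ℕ∞) S
  mono : Monotone S
  zero : ∀ x ≤ 1, S x = 0
  one : ∀ x, 4 ≤ x → S x = 1

/-- `Real.smoothTransition ((x - 1) / 3)`. -/
theorem exists_cof : ∃ S : ℝ → ℝ, Cof S := by
  refine ⟨fun x => Real.smoothTransition ((x - 1) / 3), ?_, ?_, ?_, ?_⟩
  · exact Real.smoothTransition.contDiff.comp ((contDiff_id.sub contDiff_const).div_const _)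
  · intro x y hxy
    exact Real.smoothTransition.monotone (by linarith)
  · intro x hx
    exact Real.smoothTransition.zero_of_nonpos (by linarith)
  · intro x hx
    exact Real.smoothTransition.one_of_one_le (by linarith)

private theorem cmp_deriv_cont {S : ℝ → ℝ} (hS : Cof S) : Continuous (deriv S) :=
  hS.smooth.continuous_deriv (by simp)

private theorem cmp_deriv_low {S : ℝ → ℝ} (hS : Cof S) {x : ℝ} (hx : x < 1) : deriv S x = 0 := by
  have h1 : S =ᶠ[𝓝 x] fun _ => (0 : ℝ) := by
    filter_upwards [gt_mem_nhds hx] with y hy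
    exact hS.zero y (le_of_lt hy)
  rw [h1.deriv_eq, deriv_const]

private theorem cmp_deriv_high {S : ℝ → ℝ} (hS : Cof S) {x : ℝ} (hx : 4 < x) : deriv S x = 0 := by
  have h1 : S =ᶠ[𝓝 x] fun _ => (1 : ℝ) := by
    filter_upwards [lt_mem_nhds hx] with y hy
    exact hS.one y (le_of_lt hy)
  rw [h1.deriv_eq, deriv_const]

theorem Cof.deriv_bound {S : ℝ → ℝ} (hS : Cof S) : ∃ C : ℝ, 0 ≤ C ∧ ∀ x, 0 ≤ deriv S x ∧
    deriv S x ≤ C ∧ (x < 1 → deriv S x = 0) ∧ (4 < x → deriv S x = 0) := by
  obtain ⟨C, hC⟩ := (isCompact_Icc (a := (1 : ℝ)) (b := 4)).exists_bound_of_continuousOn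
    (cmp_deriv_cont hS).continuousOn
  have hC0 : 0 ≤ C := (norm_nonneg _).trans (hC 1 ⟨le_rfl, by norm_num⟩)
  refine ⟨C, hC0, fun x => ⟨hS.mono.deriv_nonneg, ?_, cmp_deriv_low hS, cmp_deriv_high hS⟩⟩
  rcases lt_or_ge x 1 with h1 | h1
  · rw [cmp_deriv_low hS h1]
    exact hC0
  · rcases lt_or_ge 4 x with h2 | h2
    · rw [cmp_deriv_high hS h2]
      exact hC0
    · exact (Real.le_norm_self _).trans (hC x ⟨h1, h2⟩)

/-- The open set where `u` is positive. -/
def Ps (O : Set (SUGroup n)) (u : SUGroup n → ℝ) : Set (SUGroup n) := O ∩ {g | 0 < u g}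

theorem isOpen_Ps (hO : IsOpen O) (hu : ContinuousOn u O) : IsOpen (Ps O u) :=
  hu.isOpen_inter_preimage hO isOpen_Ioi

/-- The compact set on which everything happens. -/
def Kc (Φ : Mat (n + 1) → ℝ) (u : SUGroup n → ℝ) (e : ℝ) : Set (SUGroup n) :=
  {g | g.toMatrix ∈ tsupport Φ ∧ e / 2 ≤ u g}

theorem Kc_compact (hΦ : Cs O Φ) (hu : ContinuousOn u O) {e : ℝ} (he : 0 < e) :
    IsCompact (Kc Φ u e) ∧ Kc Φ u e ⊆ Ps O u := by
  have hK : IsCompact {g : SUGroup n | g.toMatrix ∈ tsupport Φ} := hΦ.compact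
  constructor
  · have h1 : IsClosed ({g : SUGroup n | g.toMatrix ∈ tsupport Φ} ∩ u ⁻¹' Set.Ici (e / 2)) :=
      (hu.mono fun g hg => hΦ.sub g hg).preimage_isClosed_of_isClosed hK.isClosed isClosed_Ici
    exact hK.of_isClosed_subset h1 Set.inter_subset_left
  · intro g hg
    exact ⟨hΦ.sub g hg.1, lt_of_lt_of_le (by positivity) hg.2⟩

/-! ### auxiliary lemmas -/

private theorem cmp_unif {K : Set (SUGroup n)} {V : ℕ → SUGroup n → ℝ} {v w : SUGroup n → ℝ}
    {T : ℝ → ℝ} (hT : UniformContinuous T) (hV : TendstoUniformlyOn V v atTop K) {B : ℝ}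
    (hB : ∀ g ∈ K, |w g| ≤ B) {e : ℝ} (he : 0 < e) :
    TendstoUniformlyOn (fun k g => w g * T (V k g / e)) (fun g => w g * T (v g / e)) atTop K := by
  rw [Metric.tendstoUniformlyOn_iff] at hV ⊢
  intro ε hε
  obtain ⟨B', hB'⟩ : ∃ B', B' = |B| + 1 := ⟨_, rfl⟩
  have hB0 : 0 < B' := by rw [hB']; positivity
  obtain ⟨δ, hδ, h1⟩ := Metric.uniformContinuous_iff.1 hT (ε / B') (by positivity)
  filter_upwards [hV (δ * e) (by positivity)] with k hk g hg
  have h2 := hk g hg
  have h3 : dist (v g / e) (V k g / e) < δ := by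
    rw [Real.dist_eq, ← sub_div, abs_div, abs_of_pos he, div_lt_iff₀ he]
    exact h2
  have h4 := h1 h3
  rw [Real.dist_eq] at h4
  rw [Real.dist_eq, ← mul_sub, abs_mul]
  have h5 : |w g| < B' := by
    rw [hB']
    exact lt_of_le_of_lt ((hB g hg).trans (le_abs_self B)) (lt_add_one _)
  calc |w g| * |T (v g / e) - T (V k g / e)| ≤ B' * |T (v g / e) - T (V k g / e)| :=
        mul_le_mul_of_nonneg_right h5.le (abs_nonneg _)
    _ < B' * (ε / B') := mul_lt_mul_of_pos_left h4 hB0
    _ = ε := by field_simp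

private theorem cmp_memLp {K : Set (SUGroup n)} (hK : IsCompact K) {f : SUGroup n → ℝ}
    (hf : ContinuousOn f K) : MemLp f 2 ((mu n).restrict K) := by
  have : IsFiniteMeasure ((mu n).restrict K) := ⟨by
    rw [Measure.restrict_apply_univ]
    exact hK.measure_lt_top⟩
  obtain ⟨C, hC⟩ := hK.exists_bound_of_continuousOn hf
  refine MemLp.of_bound (hf.aestronglyMeasurable hK.measurableSet) C ?_
  exact (ae_restrict_iff' hK.measurableSet).2 (Eventually.of_forall fun g hg => hC g hg)

private theorem cmp_unifS {S : ℝ → ℝ} (hS : Cof S) : UniformContinuous S := by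
  obtain ⟨C, hC, h⟩ := hS.deriv_bound
  have h1 : LipschitzWith C.toNNReal S := by
    refine lipschitzWith_of_nnnorm_deriv_le (hS.smooth.differentiable (by simp)) fun x => ?_
    rw [← NNReal.coe_le_coe, coe_nnnorm, Real.norm_of_nonneg (h x).1, Real.coe_toNNReal C hC]
    exact (h x).2.1
  exact h1.uniformContinuous

private theorem cmp_unifD {S : ℝ → ℝ} (hS : Cof S) : UniformContinuous (deriv S) := by
  have h1 : HasCompactSupport (deriv S) := by
    refine HasCompactSupport.intro (isCompact_Icc (a := (1 : ℝ)) (b := 4)) fun x hx => ?_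
    rw [Set.mem_Icc, not_and_or, not_le, not_le] at hx
    rcases hx with hx | hx
    · exact cmp_deriv_low hS hx
    · exact cmp_deriv_high hS hx
  exact h1.uniformContinuous_of_continuous (cmp_deriv_cont hS)

private theorem cmp_nonneg {S : ℝ → ℝ} (hS : Cof S) (x : ℝ) : 0 ≤ S x := by
  rw [← hS.zero (min x 1) (min_le_right _ _)]
  exact hS.mono (min_le_left _ _)

/-- **Test functions `Φ * S (u / e)`.** Statement: they are limits of test functions on `Ps O u` with
supports in the fixed compact set `Kc Φ u e`: uniformly, and in `L²` for the derivatives.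
PROOF: `K = Kc Φ u e`; `ζ` a bump on `Ps O u` equal to `1` near `K` (`exists_bump`), `K'` its support in
the group; `U k` as in `Wg.seq` on `K'`; `Ψ k M = Φ M * (ζ M * S (U k M / e))` for large `k`. On
`K' \ K` and on the support of `Φ` one has `u < e / 2`, so `U k < e` and `S (U k / e) = 0` near such
points; near `K` one has `ζ = 1`. The support of `Ψ k` in the group is contained in `K` because on
the support of `Φ`, outside `K`, `Ψ k` vanishes in a neighbourhood (in the space of matrices: shrink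
`ζ` to the set where `|U k - u|` is small, or use that `U k < e` is an open condition: the support is
taken of the function `Φ * (ζ * S (U k / e))` and the point `g.toMatrix` with `U k g < e` has a
neighbourhood on which `S (U k / e) = 0`). Derivatives: `dX Ψ = dX Φ * S (U k / e) + Φ * S' (U k / e) / e
* dX (U k)` on `K`, `tendsto_mul_unif`. -/
theorem test_comp (hO : IsOpen O) (hu : ContinuousOn u O) (h : Wg (Ps O u) u G) {S : ℝ → ℝ}
    (hS : Cof S) (hΦ : Tst O Φ) {e : ℝ} (he : 0 < e) :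
    ∃ Ψ : ℕ → Mat (n + 1) → ℝ, (∀ k, Tst (Ps O u) (Ψ k)) ∧
      (∀ k (g : SUGroup n), g.toMatrix ∈ tsupport (Ψ k) → g ∈ Kc Φ u e) ∧
      TendstoUniformlyOn (fun k (g : SUGroup n) => Ψ k g.toMatrix)
        (fun g => Φ g.toMatrix * S (u g / e)) atTop (Kc Φ u e) ∧
      ∀ c, Tendsto (fun k => eLpNorm (fun g : SUGroup n => dX (Xa c) (Ψ k) g.toMatrix -
        (dX (Xa c) Φ g.toMatrix * S (u g / e) +
          Φ g.toMatrix * (deriv S (u g / e) / e * G c g))) 2 ((mu n).restrict (Kc Φ u e)))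
        atTop (𝓝 0) := by
  obtain ⟨hK, hKP⟩ := Kc_compact hΦ.toCs hu he
  have hP : IsOpen (Ps O u) := isOpen_Ps hO hu
  obtain ⟨ζ, hζ, hζ0, hζ1, W, hW, hKW, hWζ⟩ := exists_bump hP hK hKP
  have hK' : IsCompact {g : SUGroup n | g.toMatrix ∈ tsupport ζ} := hζ.toCs.compact
  have hK'P : {g : SUGroup n | g.toMatrix ∈ tsupport ζ} ⊆ Ps O u := fun g hg => hζ.sub g hg
  obtain ⟨U, hU, hUu, hUG⟩ := h.seq hK' hK'P
  have hKK' : Kc Φ u e ⊆ {g : SUGroup n | g.toMatrix ∈ tsupport ζ} := by
    intro g hg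
    refine subset_tsupport _ ?_
    rw [Function.mem_support, hWζ _ (hKW g hg)]
    exact one_ne_zero
  -- shift the index
  obtain ⟨k₀, hk₀⟩ : ∃ k₀, ∀ k ≥ k₀, ∀ g : SUGroup n, g.toMatrix ∈ tsupport ζ →
      |U k g.toMatrix - u g| < e / 2 := by
    have h1 := Metric.tendstoUniformlyOn_iff.1 hUu (e / 2) (by positivity)
    obtain ⟨k₀, h2⟩ := eventually_atTop.1 h1
    refine ⟨k₀, fun k hk g hg => ?_⟩
    have h3 := h2 k hk g hg
    rwa [dist_comm, Real.dist_eq] at h3
  obtain ⟨V, hV⟩ : ∃ V : ℕ → Mat (n + 1) → ℝ, V = fun k => U (k + k₀) := ⟨_, rfl⟩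
  have hVs : ∀ k, ContDiff ℝ (⊤ : ℕ∞) (V k) := fun k => by
    rw [hV]
    exact hU _
  have hVu : TendstoUniformlyOn (fun k (g : SUGroup n) => V k g.toMatrix) u atTop (Kc Φ u e) := by
    rw [hV, Metric.tendstoUniformlyOn_iff]
    intro ε hε
    have h1 := Metric.tendstoUniformlyOn_iff.1 hUu ε hε
    filter_upwards [(tendsto_add_atTop_nat k₀).eventually h1] with k hk g hg
    exact hk g (hKK' hg)
  have hVG : ∀ c, Tendsto (fun k => eLpNorm (fun g : SUGroup n => dX (Xa c) (V k) g.toMatrix - G c g)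
      2 ((mu n).restrict (Kc Φ u e))) atTop (𝓝 0) := by
    intro c
    rw [hV]
    refine tendsto_of_tendsto_of_tendsto_of_le_of_le tendsto_const_nhds
      ((hUG c).comp (tendsto_add_atTop_nat k₀)) (fun _ => bot_le) fun k => ?_
    exact eLpNorm_mono_measure _ (Measure.restrict_mono hKK' le_rfl)
  have hVe : ∀ k (g : SUGroup n), g.toMatrix ∈ tsupport ζ → |V k g.toMatrix - u g| < e / 2 := by
    intro k g hg
    rw [hV]
    exact hk₀ _ (Nat.le_add_left _ _) g hg
  -- the functions
  have hSV : ∀ k, ContDiff ℝ (⊤ : ℕ∞) fun M => S (V k M / e) := fun k =>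
    hS.smooth.comp ((hVs k).div_const e)
  obtain ⟨Ψ, hΨ⟩ : ∃ Ψ : ℕ → Mat (n + 1) → ℝ,
      Ψ = fun k M => Φ M * (ζ M * S (V k M / e)) := ⟨_, rfl⟩
  have hsΨ : ∀ k, tsupport (Ψ k) ⊆ tsupport Φ ∩ tsupport ζ := by
    intro k
    refine Set.subset_inter ?_ ?_
    · refine closure_mono fun M hM => ?_
      rw [Function.mem_support, hΨ] at hM
      exact left_ne_zero_of_mul hM
    · refine closure_mono fun M hM => ?_
      rw [Function.mem_support, hΨ] at hM
      exact left_ne_zero_of_mul (right_ne_zero_of_mul hM)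
  have hT : ∀ k, Tst (Ps O u) (Ψ k) := by
    intro k
    refine ⟨⟨?_, ?_, ?_⟩, ?_⟩
    · rw [hΨ]
      exact hΦ.smooth.mul (hζ.smooth.mul (hSV k))
    · exact hΦ.supp.of_isClosed_subset (isClosed_tsupport _)
        ((hsΨ k).trans Set.inter_subset_left)
    · intro g hg
      exact hζ.sub g (hsΨ k hg).2
    · intro g
      rw [hΨ]
      exact mul_nonneg (hΦ.nonneg g) (mul_nonneg (hζ0 _) (cmp_nonneg hS _))
  have hsub : ∀ k (g : SUGroup n), g.toMatrix ∈ tsupport (Ψ k) → g ∈ Kc Φ u e := by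
    intro k g hg
    refine ⟨(hsΨ k hg).1, ?_⟩
    by_contra hlt
    rw [not_le] at hlt
    have h1 := hVe k g (hsΨ k hg).2
    have h2 : V k g.toMatrix < e := by
      have := (abs_lt.1 h1).2
      linarith
    have h3 : ∀ᶠ M in 𝓝 g.toMatrix, Ψ k M = 0 := by
      filter_upwards [(hVs k).continuous.continuousAt.eventually (gt_mem_nhds h2)] with M hM
      rw [hΨ]
      have h4 : V k M / e ≤ 1 := (div_le_one he).2 (le_of_lt hM)
      simp only [hS.zero _ h4, mul_zero]
    exact (notMem_tsupport_iff_eventuallyEq.2 h3) hg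
  -- bounds
  obtain ⟨B, hB⟩ := hK.exists_bound_of_continuousOn
    ((hΦ.smooth.continuous.comp (continuous_toMatrix n)).continuousOn)
  have hev : ∀ k, ∀ g ∈ Kc Φ u e, Ψ k =ᶠ[𝓝 g.toMatrix] fun M => Φ M * S (V k M / e) := by
    intro k g hg
    filter_upwards [hW.mem_nhds (hKW g hg)] with M hM
    rw [hΨ]
    simp only [hWζ M hM, one_mul]
  refine ⟨Ψ, hT, hsub, ?_, ?_⟩
  · have h1 := cmp_unif (w := fun g : SUGroup n => Φ g.toMatrix) (cmp_unifS hS) hVu hB he
    refine h1.congr (Eventually.of_forall fun k g hg => ?_)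
    exact (hev k g hg).self_of_nhds.symm
  · intro c
    have hcu : ContinuousOn u (Kc Φ u e) := hu.mono fun g hg => hΦ.sub g hg.1
    have hcS : Continuous S := hS.smooth.continuous
    have hcD : Continuous (deriv S) := cmp_deriv_cont hS
    have hcm : Continuous (SUGroup.toMatrix (m := n)) := continuous_toMatrix n
    have hcX : ∀ F : Mat (n + 1) → ℝ, ContDiff ℝ (⊤ : ℕ∞) F → ContinuousOn
        (fun g : SUGroup n => dX (Xa c) F g.toMatrix) (Kc Φ u e) := fun F hF =>
      ((contDiff_dX hF).continuous.comp hcm).continuousOn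
    have hcV : ∀ k, Continuous fun g : SUGroup n => V k g.toMatrix := fun k =>
      (hVs k).continuous.comp hcm
    -- first part
    have m1 : MemLp (fun g : SUGroup n => dX (Xa c) Φ g.toMatrix) 2 ((mu n).restrict (Kc Φ u e)) :=
      cmp_memLp hK (hcX Φ hΦ.smooth)
    have u1 := cmp_unif (w := fun _ : SUGroup n => (1 : ℝ)) (cmp_unifS hS) hVu (B := 1)
      (fun g _ => by simp) he
    simp only [one_mul] at u1
    have t1 := tendsto_mul_unif (fun _ => m1) m1 hK
      (fun k => (hcS.comp ((hcV k).div_const e)).continuousOn)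
      (hcS.comp_continuousOn (hcu.div_const e)) u1 (by simp)
    -- second part
    have m2 : MemLp (G c) 2 ((mu n).restrict (Kc Φ u e)) := h.memLp hK hKP c
    have m3 : ∀ k, MemLp (fun g : SUGroup n => dX (Xa c) (V k) g.toMatrix) 2
        ((mu n).restrict (Kc Φ u e)) := fun k => cmp_memLp hK (hcX _ (hVs k))
    have hB2 : ∀ g ∈ Kc Φ u e, |Φ g.toMatrix / e| ≤ B / e := by
      intro g hg
      rw [abs_div, abs_of_pos he]
      exact div_le_div_of_nonneg_right (hB g hg) he.le
    have u2 := cmp_unif (w := fun g : SUGroup n => Φ g.toMatrix / e) (cmp_unifD hS) hVu hB2 he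
    have hcΦ : Continuous fun g : SUGroup n => Φ g.toMatrix / e :=
      (hΦ.smooth.continuous.comp hcm).div_const e
    have t2 := tendsto_mul_unif m3 m2 hK
      (fun k => (hcΦ.mul (hcD.comp ((hcV k).div_const e))).continuousOn)
      (hcΦ.continuousOn.mul (hcD.comp_continuousOn (hcu.div_const e))) u2 (hVG c)
    have t3 := t1.add t2
    rw [add_zero] at t3
    refine tendsto_of_tendsto_of_tendsto_of_le_of_le tendsto_const_nhds t3
      (fun _ => bot_le) fun k => ?_
    have hm1 : AEStronglyMeasurable (fun g : SUGroup n => S (V k g.toMatrix / e) *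
        dX (Xa c) Φ g.toMatrix - S (u g / e) * dX (Xa c) Φ g.toMatrix)
        ((mu n).restrict (Kc Φ u e)) := by
      refine ContinuousOn.aestronglyMeasurable ?_ hK.measurableSet
      exact ((hcS.comp ((hcV k).div_const e)).continuousOn.mul (hcX Φ hΦ.smooth)).sub
        ((hcS.comp_continuousOn (hcu.div_const e)).mul (hcX Φ hΦ.smooth))
    have hm2 : AEStronglyMeasurable (fun g : SUGroup n => Φ g.toMatrix / e *
        deriv S (V k g.toMatrix / e) * dX (Xa c) (V k) g.toMatrix -
        Φ g.toMatrix / e * deriv S (u g / e) * G c g) ((mu n).restrict (Kc Φ u e)) := by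
      refine AEStronglyMeasurable.sub ?_ ?_
      · refine ContinuousOn.aestronglyMeasurable ?_ hK.measurableSet
        exact (hcΦ.mul (hcD.comp ((hcV k).div_const e))).continuousOn.mul (hcX _ (hVs k))
      · refine AEStronglyMeasurable.mul ?_ m2.1
        exact ContinuousOn.aestronglyMeasurable
          (hcΦ.continuousOn.mul (hcD.comp_continuousOn (hcu.div_const e))) hK.measurableSet
    refine le_trans (le_of_eq ?_) (eLpNorm_add_le hm1 hm2 (by norm_num))
    refine eLpNorm_congr_ae ((ae_restrict_iff' hK.measurableSet).2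
      (Eventually.of_forall fun g hg => ?_))
    have hd : dX (Xa c) (Ψ k) g.toMatrix = dX (Xa c) Φ g.toMatrix * S (V k g.toMatrix / e) +
        Φ g.toMatrix * (deriv S (V k g.toMatrix / e) / e * dX (Xa c) (V k) g.toMatrix) := by
      rw [(dX_congr (hev k g hg)).self_of_nhds, dX_mul hΦ.smooth (hSV k)]
      have h5 := dX_comp (X := Xa c) hS.smooth ((hVs k).div_const e)
      have h6 : dX (Xa c) (fun M => V k M / e) = fun M => dX (Xa c) (V k) M / e := by
        have h7 := dX_smul (X := Xa c) (1 / e) (hVs k)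
        have h8 : (fun M => 1 / e * V k M) = fun M => V k M / e := by
          funext M
          ring
        rw [h8] at h7
        rw [h7]
        funext M
        ring
      rw [h6] at h5
      rw [h5]
      ring
    simp only [Pi.add_apply, Pi.mul_apply, Function.comp_apply]
    rw [hd]
    ring

end Pool.Agent.Lib.MP_5d4057_al.IN.D
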