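import Pool.Agent.Lib.MP_5d4057_al.IN.DWk

/-! INT, part D, file DWkB: sums, locality and limits of weak gradients. -/

set_option autoImplicit false

namespace Pool.Agent.Lib.MP_5d4057_al.IN.D

open Matrix MeasureTheory Filter Topology Pool.Agent.Lib.MP_5d4057_al
  Pool.Agent.Lib.MP_5d4057_al.Hyb Pool.Agent.Lib.MP_5d4057_al.HM

open scoped ComplexOrder MatrixOrder Matrix.Norms.L2Operator ENNReal

variable {n : ℕ} {O O' : Set (SUGroup n)} {Φ : Mat (n + 1) → ℝ} {u v : SUGroup n → ℝ}
  {G G' : Ix n → SUGroup n → ℝ}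

private theorem h21_cont {U : Mat (n + 1) → ℝ} (hU : ContDiff ℝ (⊤ : ℕ∞) U) (X : Mat (n + 1)) :
    Continuous fun g : SUGroup n => dX X U g.toMatrix :=
  (contDiff_dX hU).continuous.comp (continuous_toMatrix n)

private theorem h21_cont0 {U : Mat (n + 1) → ℝ} (hU : ContDiff ℝ (⊤ : ℕ∞) U) :
    Continuous fun g : SUGroup n => U g.toMatrix :=
  hU.continuous.comp (continuous_toMatrix n)

private theorem h21_meas {U : Mat (n + 1) → ℝ} (hU : ContDiff ℝ (⊤ : ℕ∞) U) (X : Mat (n + 1))
    {F : SUGroup n → ℝ} {K : Set (SUGroup n)} (hKO : K ⊆ O)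
    (hF : AEStronglyMeasurable F ((mu n).restrict O)) :
    AEStronglyMeasurable (fun g : SUGroup n => dX X U g.toMatrix - F g) ((mu n).restrict K) :=
  (h21_cont hU X).aestronglyMeasurable.sub
    (hF.mono_measure (Measure.restrict_mono hKO le_rfl))

theorem Wg.mono (h : Wg O u G) (hO : O' ⊆ O) : Wg O' u G :=
  ⟨h.cont.mono hO, fun c => (h.meas c).mono_measure (Measure.restrict_mono hO le_rfl),
    fun K hK => h.approx K (hK.trans hO)⟩

theorem Wg.congr (h : Wg O u G) (hO : IsOpen O) (hu : ∀ g ∈ O, u g = v g)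
    (hG : ∀ c, ∀ᵐ g ∂(mu n), g ∈ O → G c g = G' c g) : Wg O v G' := by
  refine ⟨h.cont.congr fun g hg => (hu g hg).symm, fun c => (h.meas c).congr ?_, ?_⟩
  · exact (ae_restrict_iff' hO.measurableSet).2 (hG c)
  · intro K hKO hK ε hε
    obtain ⟨U, h1, h2, h3⟩ := h.approx K hKO hK ε hε
    refine ⟨U, h1, fun g hg => by rw [← hu g (hKO hg)]; exact h2 g hg, fun c => ?_⟩
    refine le_trans (le_of_eq (eLpNorm_congr_ae ?_)) (h3 c)
    filter_upwards [ae_restrict_of_ae (hG c), ae_restrict_mem hK.measurableSet] with g hg hgK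
    rw [hg (hKO hgK)]

theorem Wg.add (h : Wg O u G) (h' : Wg O v G') :
    Wg O (fun g => u g + v g) fun c g => G c g + G' c g := by
  refine ⟨h.cont.add h'.cont, fun c => (h.meas c).add (h'.meas c), fun K hKO hK ε hε => ?_⟩
  obtain ⟨U, h1, h2, h3⟩ := h.approx K hKO hK (ε / 2) (half_pos hε)
  obtain ⟨U', h1', h2', h3'⟩ := h'.approx K hKO hK (ε / 2) (half_pos hε)
  refine ⟨fun M => U M + U' M, h1.add h1', fun g hg => ?_, fun c => ?_⟩
  · have a := h2 g hg
    have b := h2' g hg
    have e : U g.toMatrix + U' g.toMatrix - (u g + v g) =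
        (U g.toMatrix - u g) + (U' g.toMatrix - v g) := by ring
    change |U g.toMatrix + U' g.toMatrix - (u g + v g)| ≤ ε
    rw [e]
    exact (abs_add_le _ _).trans (by linarith)
  · have e : (fun g : SUGroup n => dX (Xa c) (fun M => U M + U' M) g.toMatrix -
        (G c g + G' c g)) = (fun g : SUGroup n => dX (Xa c) U g.toMatrix - G c g) +
          fun g : SUGroup n => dX (Xa c) U' g.toMatrix - G' c g := by
      funext g
      rw [dX_add h1 h1']
      simp only [Pi.add_apply]
      ring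
    rw [e]
    refine (eLpNorm_add_le (h21_meas h1 _ hKO (h.meas c)) (h21_meas h1' _ hKO (h'.meas c))
      (by norm_num)).trans ?_
    refine (add_le_add (h3 c) (h3' c)).trans ?_
    rw [← ENNReal.ofReal_add (by positivity) (by positivity), add_halves]

theorem Wg.smul (c : ℝ) (h : Wg O u G) : Wg O (fun g => c * u g) fun a g => c * G a g := by
  refine ⟨continuousOn_const.mul h.cont, fun a => (h.meas a).const_mul c,
    fun K hKO hK ε hε => ?_⟩
  have hc : 0 < |c| + 1 := by positivity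
  have hce : |c| * (ε / (|c| + 1)) ≤ ε := by
    rw [← mul_div_assoc, div_le_iff₀ hc]
    nlinarith [abs_nonneg c]
  obtain ⟨U, h1, h2, h3⟩ := h.approx K hKO hK (ε / (|c| + 1)) (by positivity)
  refine ⟨fun M => c * U M, contDiff_const.mul h1, fun g hg => ?_, fun a => ?_⟩
  · have e : c * U g.toMatrix - c * u g = c * (U g.toMatrix - u g) := by ring
    change |c * U g.toMatrix - c * u g| ≤ ε
    rw [e, abs_mul]
    exact (mul_le_mul_of_nonneg_left (h2 g hg) (abs_nonneg c)).trans hce
  · have e : (fun g : SUGroup n => dX (Xa a) (fun M => c * U M) g.toMatrix - c * G a g) =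
        c • fun g : SUGroup n => dX (Xa a) U g.toMatrix - G a g := by
      funext g
      rw [dX_smul c h1]
      simp only [Pi.smul_apply, smul_eq_mul]
      ring
    rw [e, eLpNorm_const_smul, Real.enorm_eq_ofReal_abs]
    refine (mul_le_mul_right (h3 a) _).trans ?_
    rw [← ENNReal.ofReal_mul (abs_nonneg c)]
    exact ENNReal.ofReal_le_ofReal hce

private theorem h21_zero : Wg O (fun _ => 0) fun _ _ => 0 := by
  refine ⟨continuousOn_const, fun _ => aestronglyMeasurable_const, fun K hKO hK ε hε =>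
    ⟨fun _ => 0, contDiff_const, fun g _ => by simpa using hε.le, fun c => ?_⟩⟩
  have e : (fun g : SUGroup n => dX (Xa c) (fun _ => (0 : ℝ)) g.toMatrix - 0) = fun _ => 0 := by
    funext g
    simp [dX]
  rw [e]
  simp

theorem Wg.sum {ι : Type} (s : Finset ι) {u : ι → SUGroup n → ℝ} {G : ι → Ix n → SUGroup n → ℝ}
    (h : ∀ i ∈ s, Wg O (u i) (G i)) : Wg O (fun g => ∑ i ∈ s, u i g) fun c g => ∑ i ∈ s, G i c g := by
  classical
  induction s using Finset.induction_on with
  | empty => simpa using h21_zero (n := n) (O := O)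
  | insert a s ha ih =>
    have h1 := (h a (Finset.mem_insert_self a s)).add
      (ih fun i hi => h i (Finset.mem_insert_of_mem hi))
    simpa only [Finset.sum_insert ha] using h1

theorem Wg.zero : Wg O (fun _ => 0) fun _ _ => 0 := h21_zero

/-- A smooth function on an open set `V` of matrices. PROOF: multiply by a bump which is `1` near `K`
with compact support in `V` (extended by `0`); then `ε` is not needed. -/
theorem Wg.of_smooth {V : Set (Mat (n + 1))} (hV : IsOpen V) {F : Mat (n + 1) → ℝ}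
    (hF : ContDiffOn ℝ (⊤ : ℕ∞) F V) :
    Wg {g : SUGroup n | g.toMatrix ∈ V} (fun g => F g.toMatrix)
      fun c g => dX (Xa c) F g.toMatrix := by
  have hmaps : Set.MapsTo (fun g : SUGroup n => g.toMatrix) {g : SUGroup n | g.toMatrix ∈ V} V :=
    fun g hg => hg
  have hO : IsOpen {g : SUGroup n | g.toMatrix ∈ V} := hV.preimage (continuous_toMatrix n)
  have hd : ContinuousOn (fderiv ℝ F) V := hF.continuousOn_fderiv_of_isOpen hV (by simp)
  have hdg : ∀ c : Ix n, ContinuousOn (fun g : SUGroup n => dX (Xa c) F g.toMatrix)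
      {g : SUGroup n | g.toMatrix ∈ V} := by
    intro c
    have h1 : ContinuousOn (fun g : SUGroup n => fderiv ℝ F g.toMatrix)
      {g : SUGroup n | g.toMatrix ∈ V} := hd.comp (continuous_toMatrix n).continuousOn hmaps
    exact h1.clm_apply ((continuous_toMatrix n).mul continuous_const).continuousOn
  refine ⟨hF.continuousOn.comp (continuous_toMatrix n).continuousOn hmaps,
    fun c => (hdg c).aestronglyMeasurable hO.measurableSet, fun K hKO hK ε hε => ?_⟩
  have hKc : IsCompact (SUGroup.toMatrix '' K) := hK.image (continuous_toMatrix n)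
  have hdis : Disjoint Vᶜ (SUGroup.toMatrix '' K) := by
    rw [Set.disjoint_left]
    rintro M hM ⟨g, hg, rfl⟩
    exact hM (hKO hg)
  obtain ⟨f, hf0, hf1, -⟩ := exists_contMDiffMap_zero_one_nhds_of_isClosed
    (modelWithCornersSelf ℝ (Mat (n + 1))) (n := (⊤ : ℕ∞))
    hV.isClosed_compl hKc.isClosed hdis
  have hfs : ContDiff ℝ (⊤ : ℕ∞) (f : Mat (n + 1) → ℝ) := f.contMDiff.contDiff
  have hU : ContDiff ℝ (⊤ : ℕ∞) fun M => f M * F M := by
    rw [contDiff_iff_contDiffAt]
    intro M
    by_cases hM : M ∈ V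
    · exact hfs.contDiffAt.mul (hF.contDiffAt (hV.mem_nhds hM))
    · have h1 : ∀ᶠ x in 𝓝 M, f x = 0 := hf0.filter_mono (nhds_le_nhdsSet hM)
      have h2 : (fun M => f M * F M) =ᶠ[𝓝 M] fun _ => 0 := by
        filter_upwards [h1] with x hx
        rw [hx, zero_mul]
      exact contDiffAt_const.congr_of_eventuallyEq h2
  have hn : ∀ g ∈ K, (fun M => f M * F M) =ᶠ[𝓝 g.toMatrix] F := by
    intro g hg
    have h1 : ∀ᶠ x in 𝓝 g.toMatrix, f x = 1 := hf1.filter_mono
      (nhds_le_nhdsSet (Set.mem_image_of_mem _ hg))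
    filter_upwards [h1] with x hx
    rw [hx, one_mul]
  refine ⟨fun M => f M * F M, hU, fun g hg => ?_, fun c => ?_⟩
  · have h1 : f g.toMatrix * F g.toMatrix = F g.toMatrix := (hn g hg).eq_of_nhds
    change |f g.toMatrix * F g.toMatrix - F g.toMatrix| ≤ ε
    rw [h1, sub_self, abs_zero]
    exact hε.le
  · have e : (fun g : SUGroup n => dX (Xa c) (fun M => f M * F M) g.toMatrix -
        dX (Xa c) F g.toMatrix) =ᵐ[(mu n).restrict K] fun _ => 0 := by
      filter_upwards [ae_restrict_mem hK.measurableSet] with g hg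
      rw [(dX_congr (hn g hg)).eq_of_nhds, sub_self]
    rw [eLpNorm_congr_ae e]
    simp

private theorem h21_bdd {ι : Type} {K : Set (SUGroup n)} (hK : IsCompact K)
    (f : ι → SUGroup n → ℝ) (hf : ∀ i, Continuous (f i)) :
    ∃ C : ι → ℝ, (∀ i, 0 ≤ C i) ∧ ∀ i, ∀ g ∈ K, |f i g| ≤ C i := by
  have h1 : ∀ i, ∃ C : ℝ, 0 ≤ C ∧ ∀ g ∈ K, |f i g| ≤ C := by
    intro i
    obtain ⟨C, hC⟩ := hK.exists_bound_of_continuousOn (hf i).continuousOn
    refine ⟨max C 0, le_max_right _ _, fun g hg => ?_⟩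
    have := hC g hg
    rw [Real.norm_eq_abs] at this
    exact this.trans (le_max_left _ _)
  choose C hC0 hC using h1
  exact ⟨C, hC0, hC⟩

/-- Locality with a common gradient. PROOF: for compact `K` take a finite partition of unity `ζ i` near
`K` (`exists_part`) for the cover, `K i` = the intersection of `K` and the support of `ζ i` (compact in
`V i`), `U = ∑ ζ i * U i` with `U i` good on `K i`; `dX U = ∑ dX (ζ i) * U i + ∑ ζ i * dX (U i)` tends to
`u * dX (∑ ζ i) + G = G`. -/
theorem Wg.loc (hu : ContinuousOn u O)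
    (hm : ∀ c, AEStronglyMeasurable (G c) ((mu n).restrict O))
    (h : ∀ g ∈ O, ∃ V, IsOpen V ∧ g ∈ V ∧ Wg (O ∩ V) u G) : Wg O u G := by
  refine ⟨hu, hm, fun K hKO hK ε hε => ?_⟩
  choose V hVo hgV hWg using fun g : K => h g.1 (hKO g.2)
  obtain ⟨s, ζ, hT, hpos, W, hW, hKW, hsum⟩ := exists_part V hVo hK
    (fun g hg => Set.mem_iUnion.2 ⟨⟨g, hg⟩, hgV ⟨g, hg⟩⟩)
  -- bounds for the members of the partition and their derivatives
  obtain ⟨A, hA0, hA⟩ := h21_bdd hK (fun (i : K) (g : SUGroup n) => ζ i g.toMatrix)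
    fun i => h21_cont0 (hT i).smooth
  have hB1 : ∀ c : Ix n, ∃ C : K → ℝ, (∀ i, 0 ≤ C i) ∧ ∀ i, ∀ g ∈ K,
      |dX (Xa c) (ζ i) g.toMatrix| ≤ C i := fun c => h21_bdd hK
    (fun (i : K) (g : SUGroup n) => dX (Xa c) (ζ i) g.toMatrix)
    fun i => h21_cont (hT i).smooth _
  choose B hB0 hB using hB1
  -- the constants
  set m : ℝ := (((mu n).restrict K Set.univ) ^ (1 / (2 : ENNReal).toReal)).toReal with hmdef
  have hmfin : ((mu n).restrict K Set.univ) ^ (1 / (2 : ENNReal).toReal) ≠ ⊤ := by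
    apply ENNReal.rpow_ne_top_of_nonneg (by norm_num)
    rw [Measure.restrict_apply_univ]
    exact hK.measure_lt_top.ne
  have hm0 : 0 ≤ m := ENNReal.toReal_nonneg
  have hmof : ((mu n).restrict K Set.univ) ^ (1 / (2 : ENNReal).toReal) = ENNReal.ofReal m :=
    (ENNReal.ofReal_toReal hmfin).symm
  set S : ℝ := ∑ i ∈ s, (A i + ∑ c, B c i) with hS
  have hBs : ∀ i, 0 ≤ ∑ c, B c i := fun i => Finset.sum_nonneg fun c _ => hB0 c i
  have hS0 : 0 ≤ S := Finset.sum_nonneg fun i _ => add_nonneg (hA0 i) (hBs i)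
  set δ : ℝ := ε / ((S + 1) * (m + 1)) with hδ
  have hδ0 : 0 < δ := by positivity
  have hδS : S * δ * (m + 1) ≤ ε := by
    rw [hδ]
    have h1 : S * (ε / ((S + 1) * (m + 1))) * (m + 1) = (S / (S + 1)) * ε := by
      field_simp
    rw [h1]
    have h2 : S / (S + 1) ≤ 1 := by
      rw [div_le_one (by positivity)]
      linarith
    nlinarith
  -- the pieces
  have hKi : ∀ i, IsCompact (K ∩ {g : SUGroup n | g.toMatrix ∈ tsupport (ζ i)}) := fun i =>
    hK.inter_right ((isClosed_tsupport (ζ i)).preimage (continuous_toMatrix n))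
  have hKiO : ∀ i, K ∩ {g : SUGroup n | g.toMatrix ∈ tsupport (ζ i)} ⊆ O ∩ V i :=
    fun i g hg => ⟨hKO hg.1, (hT i).sub g hg.2⟩
  choose U hU1 hU2 hU3 using fun i => (hWg i).approx _ (hKiO i) (hKi i) δ hδ0
  have hoff : ∀ i, ∀ g ∈ K, g ∉ K ∩ {g : SUGroup n | g.toMatrix ∈ tsupport (ζ i)} →
      ζ i g.toMatrix = 0 := fun i g hg hgi => image_eq_zero_of_notMem_tsupport
    fun h1 => hgi ⟨hg, h1⟩
  have hoffd : ∀ i (c : Ix n), ∀ g ∈ K,
      g ∉ K ∩ {g : SUGroup n | g.toMatrix ∈ tsupport (ζ i)} →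
      dX (Xa c) (ζ i) g.toMatrix = 0 := by
    intro i c g hg hgi
    have h1 : g.toMatrix ∉ tsupport (ζ i) := fun h1 => hgi ⟨hg, h1⟩
    have h2 : ζ i =ᶠ[𝓝 g.toMatrix] fun _ => 0 := notMem_tsupport_iff_eventuallyEq.1 h1
    rw [(dX_congr h2).eq_of_nhds]
    simp [dX]
  have hdsum : ∀ c : Ix n, ∀ g ∈ K, ∑ i ∈ s, dX (Xa c) (ζ i) g.toMatrix = 0 := by
    intro c g hg
    have h1 : (fun M => ∑ i ∈ s, ζ i M) =ᶠ[𝓝 g.toMatrix] fun _ => (1 : ℝ) := by
      filter_upwards [hW.mem_nhds (hKW g hg)] with M hM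
      exact hsum M hM
    have h2 := (dX_congr (X := Xa c) h1).eq_of_nhds
    rw [dX_sum s fun i => (hT i).smooth] at h2
    refine h2.trans ?_
    simp [dX]
  have hUs : ∀ i, ContDiff ℝ (⊤ : ℕ∞) fun M => ζ i M * U i M := fun i =>
    (hT i).smooth.mul (hU1 i)
  refine ⟨fun M => ∑ i ∈ s, ζ i M * U i M, ContDiff.sum fun i _ => hUs i, fun g hg => ?_,
    fun c => ?_⟩
  · have h1 : ∑ i ∈ s, ζ i g.toMatrix = 1 := hsum _ (hKW g hg)
    have h2 : ∑ i ∈ s, ζ i g.toMatrix * U i g.toMatrix - u g =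
        ∑ i ∈ s, ζ i g.toMatrix * (U i g.toMatrix - u g) := by
      rw [Finset.sum_congr rfl fun i _ => mul_sub (ζ i g.toMatrix) (U i g.toMatrix) (u g),
        Finset.sum_sub_distrib, ← Finset.sum_mul, h1, one_mul]
    change |∑ i ∈ s, ζ i g.toMatrix * U i g.toMatrix - u g| ≤ ε
    rw [h2]
    refine (Finset.abs_sum_le_sum_abs _ _).trans ?_
    have h3 : ∀ i ∈ s, |ζ i g.toMatrix * (U i g.toMatrix - u g)| ≤ (A i + ∑ c, B c i) * δ := by
      intro i _
      by_cases hgi : g ∈ K ∩ {g : SUGroup n | g.toMatrix ∈ tsupport (ζ i)}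
      · rw [abs_mul]
        exact mul_le_mul ((hA i g hg).trans (le_add_of_nonneg_right (hBs i))) (hU2 i g hgi)
          (abs_nonneg _) (add_nonneg (hA0 i) (hBs i))
      · rw [hoff i g hg hgi, zero_mul, abs_zero]
        exact mul_nonneg (add_nonneg (hA0 i) (hBs i)) hδ0.le
    refine (Finset.sum_le_sum h3).trans ?_
    rw [← Finset.sum_mul]
    have h4 : S * δ ≤ S * δ * (m + 1) := le_mul_of_one_le_right (by positivity) (by linarith)
    exact h4.trans hδS
  · have e : (fun g : SUGroup n => dX (Xa c) (fun M => ∑ i ∈ s, ζ i M * U i M) g.toMatrix -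
        G c g) =ᵐ[(mu n).restrict K] ∑ i ∈ s, ((fun g : SUGroup n =>
          dX (Xa c) (ζ i) g.toMatrix * (U i g.toMatrix - u g)) + fun g : SUGroup n =>
          ζ i g.toMatrix * (dX (Xa c) (U i) g.toMatrix - G c g)) := by
      filter_upwards [ae_restrict_mem hK.measurableSet] with g hg
      rw [dX_sum s hUs, Finset.sum_apply]
      simp only [Pi.add_apply]
      have h1 : ∀ i, dX (Xa c) (fun M => ζ i M * U i M) g.toMatrix =
          dX (Xa c) (ζ i) g.toMatrix * U i g.toMatrix +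
            ζ i g.toMatrix * dX (Xa c) (U i) g.toMatrix := fun i => by
        rw [dX_mul (hT i).smooth (hU1 i)]
      have h2 : ∑ i ∈ s, ζ i g.toMatrix = 1 := hsum _ (hKW g hg)
      have h3 := hdsum c g hg
      have h4 : ∑ i ∈ s, (dX (Xa c) (ζ i) g.toMatrix * (U i g.toMatrix - u g) +
          ζ i g.toMatrix * (dX (Xa c) (U i) g.toMatrix - G c g)) =
          ∑ i ∈ s, (dX (Xa c) (ζ i) g.toMatrix * U i g.toMatrix +
            ζ i g.toMatrix * dX (Xa c) (U i) g.toMatrix) -
            (∑ i ∈ s, dX (Xa c) (ζ i) g.toMatrix) * u g -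
              (∑ i ∈ s, ζ i g.toMatrix) * G c g := by
        rw [Finset.sum_mul, Finset.sum_mul, ← Finset.sum_sub_distrib, ← Finset.sum_sub_distrib]
        apply Finset.sum_congr rfl
        intro i _
        ring
      rw [h4, h3, h2, zero_mul, sub_zero, one_mul]
      congr 1
      exact Finset.sum_congr rfl fun i _ => h1 i
    have hmsK := hK.measurableSet
    have hd1 : ∀ i, AEStronglyMeasurable (fun g : SUGroup n =>
        dX (Xa c) (ζ i) g.toMatrix * (U i g.toMatrix - u g)) ((mu n).restrict K) := by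
      intro i
      refine ContinuousOn.aestronglyMeasurable ?_ hmsK
      exact (h21_cont (hT i).smooth _).continuousOn.mul
        ((h21_cont0 (hU1 i)).continuousOn.sub (hu.mono hKO))
    have hd2 : ∀ i, AEStronglyMeasurable (fun g : SUGroup n =>
        ζ i g.toMatrix * (dX (Xa c) (U i) g.toMatrix - G c g)) ((mu n).restrict K) := fun i =>
      (h21_cont0 (hT i).smooth).aestronglyMeasurable.mul (h21_meas (hU1 i) _ hKO (hm c))
    rw [eLpNorm_congr_ae e]
    refine (eLpNorm_sum_le (fun i _ => (hd1 i).add (hd2 i)) (by norm_num)).trans ?_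
    have h5 : ∀ i ∈ s, eLpNorm ((fun g : SUGroup n =>
          dX (Xa c) (ζ i) g.toMatrix * (U i g.toMatrix - u g)) + fun g : SUGroup n =>
          ζ i g.toMatrix * (dX (Xa c) (U i) g.toMatrix - G c g)) 2 ((mu n).restrict K) ≤
        ENNReal.ofReal ((A i + ∑ c, B c i) * δ * (m + 1)) := by
      intro i _
      have hBc : B c i ≤ ∑ c, B c i :=
        Finset.single_le_sum (f := fun c => B c i) (fun c _ => hB0 c i) (Finset.mem_univ c)
      refine (eLpNorm_add_le (hd1 i) (hd2 i) (by norm_num)).trans ?_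
      have p1 : eLpNorm (fun g : SUGroup n =>
          dX (Xa c) (ζ i) g.toMatrix * (U i g.toMatrix - u g)) 2 ((mu n).restrict K) ≤
          ENNReal.ofReal (m * (B c i * δ)) := by
        have q1 : ∀ᵐ g ∂((mu n).restrict K),
            ‖dX (Xa c) (ζ i) g.toMatrix * (U i g.toMatrix - u g)‖ ≤ B c i * δ := by
          filter_upwards [ae_restrict_mem hmsK] with g hg
          rw [Real.norm_eq_abs]
          by_cases hgi : g ∈ K ∩ {g : SUGroup n | g.toMatrix ∈ tsupport (ζ i)}
          · rw [abs_mul]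
            exact mul_le_mul (hB c i g hg) (hU2 i g hgi) (abs_nonneg _) (hB0 c i)
          · rw [hoffd i c g hg hgi, zero_mul, abs_zero]
            exact mul_nonneg (hB0 c i) hδ0.le
        refine (eLpNorm_le_of_ae_bound q1).trans ?_
        rw [ENNReal.ofReal_mul hm0]
        refine mul_le_mul_left (le_of_eq ?_) _
        rw [← hmof]
        norm_num
      have p2 : eLpNorm (fun g : SUGroup n =>
          ζ i g.toMatrix * (dX (Xa c) (U i) g.toMatrix - G c g)) 2 ((mu n).restrict K) ≤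
          ENNReal.ofReal (A i * δ) := by
        have q1 : ∀ᵐ g ∂((mu n).restrict K),
            ‖ζ i g.toMatrix * (dX (Xa c) (U i) g.toMatrix - G c g)‖ ≤ A i *
              ‖(K ∩ {g : SUGroup n | g.toMatrix ∈ tsupport (ζ i)}).indicator
                (fun g : SUGroup n => dX (Xa c) (U i) g.toMatrix - G c g) g‖ := by
          filter_upwards [ae_restrict_mem hmsK] with g hg
          by_cases hgi : g ∈ K ∩ {g : SUGroup n | g.toMatrix ∈ tsupport (ζ i)}
          · rw [Set.indicator_of_mem hgi, norm_mul]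
            exact mul_le_mul_of_nonneg_right (hA i g hg) (norm_nonneg _)
          · rw [hoff i g hg hgi, zero_mul, norm_zero]
            exact mul_nonneg (hA0 i) (norm_nonneg _)
        refine (eLpNorm_le_mul_eLpNorm_of_ae_le_mul q1 2).trans ?_
        rw [ENNReal.ofReal_mul (hA0 i), eLpNorm_indicator_eq_eLpNorm_restrict
          (hKi i).measurableSet]
        refine mul_le_mul_right ?_ _
        refine (eLpNorm_mono_measure _ ?_).trans (hU3 i c)
        exact Measure.restrict_mono_measure Measure.restrict_le_self _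
      refine (add_le_add p1 p2).trans ?_
      rw [← ENNReal.ofReal_add (mul_nonneg hm0 (mul_nonneg (hB0 c i) hδ0.le))
        (mul_nonneg (hA0 i) hδ0.le)]
      apply ENNReal.ofReal_le_ofReal
      have hx1 : 0 ≤ A i * δ * m := mul_nonneg (mul_nonneg (hA0 i) hδ0.le) hm0
      have hx2 : m * (B c i * δ) ≤ m * ((∑ c, B c i) * δ) :=
        mul_le_mul_of_nonneg_left (mul_le_mul_of_nonneg_right hBc hδ0.le) hm0
      have hx3 : 0 ≤ (∑ c, B c i) * δ := mul_nonneg (hBs i) hδ0.le
      nlinarith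
    refine (Finset.sum_le_sum h5).trans ?_
    rw [← ENNReal.ofReal_sum_of_nonneg fun i _ => mul_nonneg (mul_nonneg
      (add_nonneg (hA0 i) (hBs i)) hδ0.le) (by linarith)]
    apply ENNReal.ofReal_le_ofReal
    rw [← Finset.sum_mul, ← Finset.sum_mul]
    exact hδS

/-- The crossing lemma for gradients: if on compact subsets of `O` the function `u` is a uniform limit
and `G` an `L²`-limit of pairs in `Wg O`, then the pair is in `Wg O`. -/
theorem Wg.of_limit (hu : ContinuousOn u O)
    (hm : ∀ c, AEStronglyMeasurable (G c) ((mu n).restrict O))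
    (h : ∀ K ⊆ O, IsCompact K → ∀ ε > 0, ∃ (w : SUGroup n → ℝ) (H : Ix n → SUGroup n → ℝ),
      Wg O w H ∧ (∀ g ∈ K, |w g - u g| ≤ ε) ∧
      ∀ c, eLpNorm (fun g => H c g - G c g) 2 ((mu n).restrict K) ≤ ENNReal.ofReal ε) :
    Wg O u G := by
  refine ⟨hu, hm, fun K hKO hK ε hε => ?_⟩
  obtain ⟨w, H, hw, h1, h2⟩ := h K hKO hK (ε / 2) (half_pos hε)
  obtain ⟨U, h3, h4, h5⟩ := hw.approx K hKO hK (ε / 2) (half_pos hε)
  refine ⟨U, h3, fun g hg => ?_, fun c => ?_⟩
  · have a := h1 g hg
    have b := h4 g hg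
    have e : U g.toMatrix - u g = (U g.toMatrix - w g) + (w g - u g) := by ring
    rw [e]
    exact (abs_add_le _ _).trans (by linarith)
  · have e : (fun g : SUGroup n => dX (Xa c) U g.toMatrix - G c g) =
        (fun g : SUGroup n => dX (Xa c) U g.toMatrix - H c g) + fun g => H c g - G c g := by
      funext g
      simp only [Pi.add_apply]
      ring
    rw [e]
    have hmono := Measure.restrict_mono hKO (le_refl (mu n))
    refine (eLpNorm_add_le (h21_meas h3 _ hKO (hw.meas c))
      (((hw.meas c).mono_measure hmono).sub ((hm c).mono_measure hmono)) (by norm_num)).trans ?_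
    refine (add_le_add (h5 c) (h2 c)).trans ?_
    rw [← ENNReal.ofReal_add (by positivity) (by positivity), add_halves]

end Pool.Agent.Lib.MP_5d4057_al.IN.D
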