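import Pool.Agent.Lib.MP_5d4057_al.IN.DCmp
import Pool.Agent.Lib.MP_5d4057_al.IN.DWkB

/-! INT, part D, file DCmpB: consequences of the cut-off lemma. -/

set_option autoImplicit false

namespace Pool.Agent.Lib.MP_5d4057_al.IN.D

open Matrix MeasureTheory Filter Topology Pool.Agent.Lib.MP_5d4057_al
  Pool.Agent.Lib.MP_5d4057_al.Hyb Pool.Agent.Lib.MP_5d4057_al.HM

open scoped ComplexOrder MatrixOrder Matrix.Norms.L2Operator ENNReal

variable {n : ℕ} {O : Set (SUGroup n)} {Φ : Mat (n + 1) → ℝ} {u v : SUGroup n → ℝ}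
  {G H : Ix n → SUGroup n → ℝ}

/-! ### tools -/

private theorem cb_cont : Continuous fun g : SUGroup n => g.toMatrix :=
  (isClosedEmbedding_toMatrix n).continuous

private theorem cb_fin {K : Set (SUGroup n)} (hK : IsCompact K) :
    IsFiniteMeasure ((mu n).restrict K) :=
  ⟨by rw [Measure.restrict_apply_univ]; exact hK.measure_lt_top⟩

private theorem cb_memLp {K : Set (SUGroup n)} (hK : IsCompact K) {f : SUGroup n → ℝ}
    (hf : ContinuousOn f K) : MemLp f 2 ((mu n).restrict K) := by
  have := cb_fin hK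
  obtain ⟨C, hC⟩ := hK.exists_bound_of_continuousOn hf
  refine MemLp.of_bound (hf.aestronglyMeasurable hK.measurableSet) C ?_
  exact (ae_restrict_iff' hK.measurableSet).2 (Eventually.of_forall hC)

private theorem cb_mul_memLp {K : Set (SUGroup n)} (hK : IsCompact K) {a F : SUGroup n → ℝ}
    (ha : ContinuousOn a K) (hF : MemLp F 2 ((mu n).restrict K)) :
    MemLp (fun g => a g * F g) 2 ((mu n).restrict K) := by
  obtain ⟨C, hC⟩ := hK.exists_bound_of_continuousOn ha
  refine hF.of_le_mul (c := C) ((ha.aestronglyMeasurable hK.measurableSet).mul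
    hF.aestronglyMeasurable) ?_
  refine (ae_restrict_iff' hK.measurableSet).2 (Eventually.of_forall fun g hg => ?_)
  rw [norm_mul]
  exact mul_le_mul_of_nonneg_right (hC g hg) (norm_nonneg _)

private theorem cb_dX_cont {F : Mat (n + 1) → ℝ} (hF : ContDiff ℝ (⊤ : ℕ∞) F) (c : Ix n) :
    Continuous fun g : SUGroup n => dX (Xa c) F g.toMatrix :=
  (contDiff_dX hF).continuous.comp cb_cont

private theorem cb_zero {M : Mat (n + 1)} (h : M ∉ tsupport Φ) (X : Mat (n + 1)) :
    Φ M = 0 ∧ dX X Φ M = 0 := by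
  refine ⟨image_eq_zero_of_notMem_tsupport h, ?_⟩
  rw [dX, fderiv_of_notMem_tsupport ℝ h]
  rfl

/-- outside the compact set everything vanishes -/
private theorem cb_out {S : ℝ → ℝ} (hS : Cof S) {e : ℝ} (he : 0 < e) {g : SUGroup n}
    (hg : g ∉ Kc Φ u e) (c : Ix n) : Φ g.toMatrix * S (u g / e) = 0 ∧
      dX (Xa c) Φ g.toMatrix * S (u g / e) +
        Φ g.toMatrix * (deriv S (u g / e) / e * G c g) = 0 := by
  by_cases h : g.toMatrix ∈ tsupport Φ
  · have h1 : u g < e / 2 := by
      by_contra h2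
      exact hg ⟨h, not_lt.1 h2⟩
    have h2 : u g / e < 1 := by
      rw [div_lt_one he]
      linarith
    obtain ⟨C, -, hC⟩ := hS.deriv_bound
    rw [hS.zero _ h2.le, (hC _).2.2.1 h2]
    simp
  · obtain ⟨h1, h2⟩ := cb_zero h (Xa c)
    rw [h1, h2]
    simp

/-- a uniformly convergent sequence times an integrable function -/
private theorem cb_int_unif {K : Set (SUGroup n)} (hK : IsCompact K) {B F : SUGroup n → ℝ}
    {f : ℕ → SUGroup n → ℝ} (hB : IntegrableOn B K (mu n)) (hf : ∀ k, ContinuousOn (f k) K)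
    (hF : ContinuousOn F K) (h : TendstoUniformlyOn f F atTop K) :
    Tendsto (fun k => ∫ g in K, B g * f k g ∂(mu n)) atTop (𝓝 (∫ g in K, B g * F g ∂(mu n))) := by
  obtain ⟨C, hC⟩ := hK.exists_bound_of_continuousOn hF
  refine tendsto_integral_filter_of_dominated_convergence (fun g => ‖B g‖ * (C + 1)) ?_ ?_
    (hB.norm.mul_const _) ?_
  · exact Eventually.of_forall fun k =>
      hB.aestronglyMeasurable.mul ((hf k).aestronglyMeasurable hK.measurableSet)
  · have h1 := Metric.tendstoUniformlyOn_iff.1 h 1 one_pos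
    filter_upwards [h1] with k hk
    refine (ae_restrict_iff' hK.measurableSet).2 (Eventually.of_forall fun g hg => ?_)
    rw [norm_mul]
    refine mul_le_mul_of_nonneg_left ?_ (norm_nonneg _)
    have h2 := hk g hg
    rw [dist_comm, Real.dist_eq] at h2
    have h3 := hC g hg
    rw [Real.norm_eq_abs] at h3 ⊢
    have h4 : f k g = F g + (f k g - F g) := by ring
    rw [h4]
    refine (abs_add_le _ _).trans ?_
    linarith
  · refine (ae_restrict_iff' hK.measurableSet).2 (Eventually.of_forall fun g hg => ?_)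
    exact (h.tendsto_at hg).const_mul _

private theorem cb_set {K : Set (SUGroup n)} {F : SUGroup n → ℝ} (h : ∀ g, g ∉ K → F g = 0) :
    ∫ g, F g ∂(mu n) = ∫ g in K, F g ∂(mu n) :=
  (setIntegral_eq_integral_of_forall_compl_eq_zero h).symm

private theorem cb_unif_mul {K : Set (SUGroup n)} (hK : IsCompact K) {a F : SUGroup n → ℝ}
    {b f : ℕ → SUGroup n → ℝ} (ha : ContinuousOn a K) (hF : ContinuousOn F K)
    (hb : TendstoUniformlyOn b a atTop K) (hf : TendstoUniformlyOn f F atTop K) :
    TendstoUniformlyOn (fun k g => b k g * f k g) (fun g => a g * F g) atTop K := by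
  obtain ⟨C₁, hC₁⟩ := hK.exists_bound_of_continuousOn ha
  obtain ⟨C₂, hC₂⟩ := hK.exists_bound_of_continuousOn hF
  rw [Metric.tendstoUniformlyOn_iff] at hb hf ⊢
  intro ε hε
  have p1 : 0 < |C₁| + 1 := by positivity
  have p2 : 0 < |C₂| + 1 := by positivity
  filter_upwards [hb (ε / (2 * (|C₂| + 1))) (by positivity),
    hf (ε / (2 * (|C₁| + 1))) (by positivity), hf 1 one_pos] with k h1 h2 h3 g hg
  have h1 := h1 g hg
  have h2 := h2 g hg
  have h3 := h3 g hg
  rw [dist_comm, Real.dist_eq] at h1 h2 h3 ⊢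
  have c1 := (hC₁ g hg).trans (le_abs_self C₁)
  have c2 := (hC₂ g hg).trans (le_abs_self C₂)
  rw [Real.norm_eq_abs] at c1 c2
  have h4 : |f k g| < |C₂| + 1 := by
    have : f k g = F g + (f k g - F g) := by ring
    rw [this]
    refine (abs_add_le _ _).trans_lt ?_
    linarith
  have h5 : b k g * f k g - a g * F g = (b k g - a g) * f k g + a g * (f k g - F g) := by ring
  rw [h5]
  refine (abs_add_le _ _).trans_lt ?_
  rw [abs_mul, abs_mul]
  have h6 : |b k g - a g| * |f k g| ≤ ε / (2 * (|C₂| + 1)) * (|C₂| + 1) :=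
    mul_le_mul h1.le h4.le (abs_nonneg _) (by positivity)
  have h7 : ε / (2 * (|C₂| + 1)) * (|C₂| + 1) = ε / 2 := by
    field_simp
  have h8 : |a g| * |f k g - F g| ≤ |C₁| * (ε / (2 * (|C₁| + 1))) :=
    mul_le_mul c1 h2.le (abs_nonneg _) (abs_nonneg _)
  have h9 : |C₁| * (ε / (2 * (|C₁| + 1))) < ε / 2 := by
    have : ε / 2 = (|C₁| + 1) * (ε / (2 * (|C₁| + 1))) := by
      field_simp
    rw [this]
    exact mul_lt_mul_of_pos_right (by linarith) (by positivity)
  linarith

private theorem cb_unifS {S : ℝ → ℝ} (hS : Cof S) : UniformContinuous S := by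
  obtain ⟨C, hC0, hC⟩ := hS.deriv_bound
  have h1 : LipschitzWith C.toNNReal S :=
    lipschitzWith_of_nnnorm_deriv_le (hS.smooth.differentiable (by norm_num)) fun x => by
      refine NNReal.coe_le_coe.1 ?_
      rw [coe_nnnorm, Real.norm_eq_abs, abs_of_nonneg (hC x).1, Real.coe_toNNReal _ hC0]
      exact (hC x).2.1
  exact h1.uniformContinuous

private theorem cb_unifS' {S : ℝ → ℝ} (hS : Cof S) : UniformContinuous (deriv S) := by
  obtain ⟨C, hC0, hC⟩ := hS.deriv_bound
  have h1 : HasCompactSupport (deriv S) :=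
    HasCompactSupport.intro (isCompact_Icc (a := (1 : ℝ)) (b := 4)) fun x hx => by
      rw [Set.mem_Icc, not_and_or, not_le, not_le] at hx
      rcases hx with hx | hx
      · exact (hC x).2.2.1 hx
      · exact (hC x).2.2.2 hx
  exact h1.uniformContinuous_of_continuous (hS.smooth.continuous_deriv (by norm_num))

/-- Consequence for integrals. `B` is in `L²` on compact subsets of `Ps O u`. -/
theorem test_comp_int (hO : IsOpen O) (hu : ContinuousOn u O) (h : Wg (Ps O u) u G) {S : ℝ → ℝ}
    (hS : Cof S) (hΦ : Tst O Φ) {e : ℝ} (he : 0 < e) :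
    ∃ Ψ : ℕ → Mat (n + 1) → ℝ, (∀ k, Tst (Ps O u) (Ψ k)) ∧
      (∀ B : SUGroup n → ℝ, LocallyIntegrableOn B (Ps O u) (mu n) →
        Tendsto (fun k => ∫ g, B g * Ψ k g.toMatrix ∂(mu n)) atTop
          (𝓝 (∫ g, B g * (Φ g.toMatrix * S (u g / e)) ∂(mu n)))) ∧
      (∀ (c : Ix n) (B : SUGroup n → ℝ),
        (∀ K ⊆ Ps O u, IsCompact K → MemLp B 2 ((mu n).restrict K)) →
        Tendsto (fun k => ∫ g, B g * dX (Xa c) (Ψ k) g.toMatrix ∂(mu n)) atTop
          (𝓝 (∫ g, B g * (dX (Xa c) Φ g.toMatrix * S (u g / e) +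
            Φ g.toMatrix * (deriv S (u g / e) / e * G c g)) ∂(mu n)))) ∧
      ∀ (c : Ix n) (B : SUGroup n → ℝ), ContinuousOn B O →
        Tendsto (fun k => ∫ g, |B g * (dX (Xa c) Φ g.toMatrix - dX (Xa c) (Ψ k) g.toMatrix)| ∂(mu n))
          atTop (𝓝 (∫ g, |B g * (dX (Xa c) Φ g.toMatrix - (dX (Xa c) Φ g.toMatrix * S (u g / e) +
            Φ g.toMatrix * (deriv S (u g / e) / e * G c g)))| ∂(mu n))) := by
  obtain ⟨Ψ, h1, h2, h3, h4⟩ := test_comp hO hu h hS hΦ he
  obtain ⟨hK, hKP⟩ := Kc_compact hΦ.toCs hu he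
  have hKO : Kc Φ u e ⊆ O := fun g hg => (hKP hg).1
  have huK : ContinuousOn u (Kc Φ u e) := hu.mono hKO
  have hSc : Continuous S := hS.smooth.continuous
  have hdSc : Continuous (deriv S) := hS.smooth.continuous_deriv (by norm_num)
  have hq : ContinuousOn (fun g => u g / e) (Kc Φ u e) := huK.div_const e
  have hSu : ContinuousOn (fun g => S (u g / e)) (Kc Φ u e) := hSc.comp_continuousOn hq
  have hdSu : ContinuousOn (fun g => deriv S (u g / e) / e) (Kc Φ u e) :=
    (hdSc.comp_continuousOn hq).div_const e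
  have hΦc : Continuous fun g : SUGroup n => Φ g.toMatrix := hΦ.smooth.continuous.comp cb_cont
  have hout : ∀ k (g : SUGroup n), g ∉ Kc Φ u e → g.toMatrix ∉ tsupport (Ψ k) := fun k g hg hg' =>
    hg (h2 k g hg')
  have hFm : ∀ c, MemLp (fun g => dX (Xa c) Φ g.toMatrix * S (u g / e) +
      Φ g.toMatrix * (deriv S (u g / e) / e * G c g)) 2 ((mu n).restrict (Kc Φ u e)) := by
    intro c
    refine (cb_memLp hK ((cb_dX_cont hΦ.smooth c).continuousOn.mul hSu)).add ?_
    exact cb_mul_memLp hK hΦc.continuousOn (cb_mul_memLp hK hdSu (h.memLp hK hKP c))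
  have hΨm : ∀ k c, MemLp (fun g : SUGroup n => dX (Xa c) (Ψ k) g.toMatrix) 2
      ((mu n).restrict (Kc Φ u e)) := fun k c =>
    cb_memLp hK (cb_dX_cont (h1 k).smooth c).continuousOn
  refine ⟨Ψ, h1, ?_, ?_, ?_⟩
  · intro B hB
    have e1 : ∀ k, ∫ g, B g * Ψ k g.toMatrix ∂(mu n) =
        ∫ g in Kc Φ u e, B g * Ψ k g.toMatrix ∂(mu n) := fun k => cb_set fun g hg => by
      rw [(cb_zero (hout k g hg) 0).1, mul_zero]
    have e2 : ∫ g, B g * (Φ g.toMatrix * S (u g / e)) ∂(mu n) =
        ∫ g in Kc Φ u e, B g * (Φ g.toMatrix * S (u g / e)) ∂(mu n) := cb_set fun g hg => by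
      by_cases hn : Nonempty (Ix n)
      · obtain ⟨c⟩ := hn
        rw [(cb_out (G := G) hS he hg c).1, mul_zero]
      · by_cases h : g.toMatrix ∈ tsupport Φ
        · have h1 : u g < e / 2 := by
            by_contra h2
            exact hg ⟨h, not_lt.1 h2⟩
          have h2 : u g / e < 1 := by
            rw [div_lt_one he]
            linarith
          rw [hS.zero _ h2.le, mul_zero, mul_zero]
        · rw [(cb_zero h 0).1, zero_mul, mul_zero]
    simp only [e1]
    rw [e2]
    exact cb_int_unif hK (hB.integrableOn_compact_subset hKP hK)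
      (fun k => ((h1 k).smooth.continuous.comp cb_cont).continuousOn)
      (hΦc.continuousOn.mul hSu) h3
  · intro c B hB
    have e1 : ∀ k, ∫ g, B g * dX (Xa c) (Ψ k) g.toMatrix ∂(mu n) =
        ∫ g in Kc Φ u e, B g * dX (Xa c) (Ψ k) g.toMatrix ∂(mu n) := fun k => cb_set fun g hg => by
      rw [(cb_zero (hout k g hg) (Xa c)).2, mul_zero]
    have e2 : ∫ g, B g * (dX (Xa c) Φ g.toMatrix * S (u g / e) +
          Φ g.toMatrix * (deriv S (u g / e) / e * G c g)) ∂(mu n) =
        ∫ g in Kc Φ u e, B g * (dX (Xa c) Φ g.toMatrix * S (u g / e) +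
          Φ g.toMatrix * (deriv S (u g / e) / e * G c g)) ∂(mu n) := cb_set fun g hg => by
      rw [(cb_out (G := G) hS he hg c).2, mul_zero]
    simp only [e1]
    rw [e2]
    exact tendsto_int_mul (hB _ hKP hK) (fun k => hΨm k c) (hFm c) (h4 c)
  · intro c B hB
    obtain ⟨K₁, hK₁⟩ : ∃ K₁ : Set (SUGroup n), K₁ = {g : SUGroup n | g.toMatrix ∈ tsupport Φ} :=
      ⟨_, rfl⟩
    have hK₁c : IsCompact K₁ := by
      rw [hK₁]
      exact hΦ.toCs.compact
    have hK₁O : K₁ ⊆ O := by
      rw [hK₁]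
      exact fun g hg => hΦ.sub g hg
    have hKK : Kc Φ u e ⊆ K₁ := by
      rw [hK₁]
      exact fun g hg => hg.1
    have z1 : ∀ k (g : SUGroup n), g ∉ Kc Φ u e → dX (Xa c) (Ψ k) g.toMatrix = 0 := fun k g hg =>
      (cb_zero (hout k g hg) (Xa c)).2
    have z2 : ∀ g : SUGroup n, g ∉ Kc Φ u e → dX (Xa c) Φ g.toMatrix * S (u g / e) +
        Φ g.toMatrix * (deriv S (u g / e) / e * G c g) = 0 := fun g hg =>
      (cb_out (G := G) hS he hg c).2
    have e1 : ∀ k, ∫ g, |B g * (dX (Xa c) Φ g.toMatrix - dX (Xa c) (Ψ k) g.toMatrix)| ∂(mu n) =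
        ∫ g in K₁, |B g * (dX (Xa c) Φ g.toMatrix - dX (Xa c) (Ψ k) g.toMatrix)| ∂(mu n) :=
      fun k => cb_set fun g hg => by
        rw [z1 k g (fun h' => hg (hKK h'))]
        rw [hK₁] at hg
        rw [(cb_zero (Φ := Φ) hg (Xa c)).2]
        simp
    have e2 : ∫ g, |B g * (dX (Xa c) Φ g.toMatrix - (dX (Xa c) Φ g.toMatrix * S (u g / e) +
          Φ g.toMatrix * (deriv S (u g / e) / e * G c g)))| ∂(mu n) =
        ∫ g in K₁, |B g * (dX (Xa c) Φ g.toMatrix - (dX (Xa c) Φ g.toMatrix * S (u g / e) +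
          Φ g.toMatrix * (deriv S (u g / e) / e * G c g)))| ∂(mu n) := cb_set fun g hg => by
      rw [z2 g (fun h' => hg (hKK h'))]
      rw [hK₁] at hg
      rw [(cb_zero (Φ := Φ) hg (Xa c)).2]
      simp
    simp only [e1]
    rw [e2]
    have m1 : MemLp (fun g : SUGroup n => dX (Xa c) Φ g.toMatrix) 2 ((mu n).restrict K₁) :=
      cb_memLp hK₁c (cb_dX_cont hΦ.smooth c).continuousOn
    have m2 : MemLp (fun g => dX (Xa c) Φ g.toMatrix * S (u g / e) +
        Φ g.toMatrix * (deriv S (u g / e) / e * G c g)) 2 ((mu n).restrict K₁) := by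
      have i1 := (memLp_indicator_iff_restrict hK.measurableSet).2 (hFm c)
      have i2 : (Kc Φ u e).indicator (fun g => dX (Xa c) Φ g.toMatrix * S (u g / e) +
          Φ g.toMatrix * (deriv S (u g / e) / e * G c g)) = fun g => dX (Xa c) Φ g.toMatrix *
            S (u g / e) + Φ g.toMatrix * (deriv S (u g / e) / e * G c g) := by
        funext g
        by_cases hg : g ∈ Kc Φ u e
        · rw [Set.indicator_of_mem hg]
        · rw [Set.indicator_of_notMem hg, z2 g hg]
      rw [i2] at i1
      exact i1.restrict K₁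
    refine tendsto_int_abs (cb_memLp hK₁c (hB.mono hK₁O)) (fun k => m1.sub (cb_memLp hK₁c
      (cb_dX_cont (h1 k).smooth c).continuousOn)) (m1.sub m2) ?_
    refine (h4 c).congr fun k => ?_
    have s1 : Function.support (fun g : SUGroup n => dX (Xa c) (Ψ k) g.toMatrix -
        (dX (Xa c) Φ g.toMatrix * S (u g / e) +
          Φ g.toMatrix * (deriv S (u g / e) / e * G c g))) ⊆ Kc Φ u e := by
      intro g hg
      by_contra h'
      exact hg (by
        show dX (Xa c) (Ψ k) g.toMatrix - _ = 0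
        rw [z1 k g h', z2 g h', sub_zero])
    rw [eLpNorm_restrict_eq_of_support_subset s1,
      ← eLpNorm_restrict_eq_of_support_subset (s1.trans hKK), ← eLpNorm_neg]
    congr 1
    funext g
    simp only [Pi.neg_apply]
    ring

/-- The function `v * S (u / e)`, extended by `0` to `O`, is in `Wg O`. The function `v` is continuous
on `O`. PROOF: near `K ∩ {u ≥ e / 2}` a bump `ζ` on `Ps O u`; `ζ * V k * S (U k / e)`. -/
theorem Wg.cut (hO : IsOpen O) (hu : ContinuousOn u O) (hv : ContinuousOn v O)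
    (h : Wg (Ps O u) u G) (h' : Wg (Ps O u) v H) {S : ℝ → ℝ} (hS : Cof S) {e : ℝ} (he : 0 < e) :
    Wg O (fun g => v g * S (u g / e)) fun c g =>
      (Ps O u).indicator (fun g => H c g * S (u g / e) + v g * (deriv S (u g / e) / e * G c g)) g := by
  have hPO : IsOpen (Ps O u) := isOpen_Ps hO hu
  have hPs : Ps O u ⊆ O := fun g hg => hg.1
  have hSc : Continuous S := hS.smooth.continuous
  have hdSc : Continuous (deriv S) := hS.smooth.continuous_deriv (by norm_num)
  obtain ⟨C, hC0, hC⟩ := hS.deriv_bound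
  have hSu : ContinuousOn (fun g => S (u g / e)) O := hSc.comp_continuousOn (hu.div_const e)
  have hdSu : ContinuousOn (fun g => deriv S (u g / e) / e) O :=
    (hdSc.comp_continuousOn (hu.div_const e)).div_const e
  refine ⟨hv.mul hSu, ?_, ?_⟩
  · intro c
    show AEStronglyMeasurable ((Ps O u).indicator fun g => H c g * S (u g / e) +
      v g * (deriv S (u g / e) / e * G c g)) ((mu n).restrict O)
    rw [aestronglyMeasurable_indicator_iff hPO.measurableSet,
      Measure.restrict_restrict hPO.measurableSet, Set.inter_eq_left.2 hPs]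
    have m : ∀ {f : SUGroup n → ℝ}, ContinuousOn f O →
        AEStronglyMeasurable f ((mu n).restrict (Ps O u)) := fun hf =>
      (hf.mono hPs).aestronglyMeasurable hPO.measurableSet
    exact ((h'.meas c).mul (m hSu)).add ((m hv).mul ((m hdSu).mul (h.meas c)))
  · intro K hKO hK ε hε
    obtain ⟨Ke, hKe⟩ : ∃ Ke : Set (SUGroup n), Ke = K ∩ u ⁻¹' Set.Ici (e / 2) := ⟨_, rfl⟩
    have hKeK : Ke ⊆ K := by
      rw [hKe]
      exact Set.inter_subset_left
    have hKec : IsCompact Ke := by
      refine hK.of_isClosed_subset ?_ hKeK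
      rw [hKe]
      exact (hu.mono hKO).preimage_isClosed_of_isClosed hK.isClosed isClosed_Ici
    have hKeP : Ke ⊆ Ps O u := by
      rw [hKe]
      rintro g ⟨hg1, hg2⟩
      have hg3 : e / 2 ≤ u g := hg2
      exact ⟨hKO hg1, by show 0 < u g; linarith⟩
    have hnKe : ∀ g ∈ K, g ∉ Ke → u g < e / 2 := by
      intro g hg hg'
      by_contra h1
      apply hg'
      rw [hKe]
      exact ⟨hg, not_lt.1 h1⟩
    obtain ⟨ζ, hζ, -, -, W, hW, hWK, hWζ⟩ := exists_bump hPO hKec hKeP
    obtain ⟨K', hK'd⟩ : ∃ K' : Set (SUGroup n), K' = {g : SUGroup n | g.toMatrix ∈ tsupport ζ} :=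
      ⟨_, rfl⟩
    have hK'c : IsCompact K' := by
      rw [hK'd]
      exact hζ.toCs.compact
    have hK'P : K' ⊆ Ps O u := by
      rw [hK'd]
      exact fun g hg => hζ.sub g hg
    have hKeK' : Ke ⊆ K' := by
      intro g hg
      rw [hK'd]
      apply subset_tsupport
      rw [Function.mem_support, hWζ _ (hWK g hg)]
      exact one_ne_zero
    obtain ⟨U, hU1, hU2, hU3⟩ := h.seq hK'c hK'P
    obtain ⟨V, hV1, hV2, hV3⟩ := h'.seq hK'c hK'P
    have hres : ∀ f : ℕ → SUGroup n → ℝ,
        Tendsto (fun k => eLpNorm (f k) 2 ((mu n).restrict K')) atTop (𝓝 0) →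
        Tendsto (fun k => eLpNorm (f k) 2 ((mu n).restrict Ke)) atTop (𝓝 0) := fun f hf =>
      tendsto_of_tendsto_of_tendsto_of_le_of_le tendsto_const_nhds hf (fun _ => zero_le)
        fun k => eLpNorm_mono_measure _ (Measure.restrict_mono hKeK' le_rfl)
    have hU3e := fun c => hres _ (hU3 c)
    have hV3e := fun c => hres _ (hV3 c)
    have hU2e := hU2.mono hKeK'
    have hV2e := hV2.mono hKeK'
    have hKeO : Ke ⊆ O := hKeP.trans hPs
    have hcU : ∀ k, Continuous fun g : SUGroup n => U k g.toMatrix := fun k =>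
      (hU1 k).continuous.comp cb_cont
    have hcV : ∀ k, Continuous fun g : SUGroup n => V k g.toMatrix := fun k =>
      (hV1 k).continuous.comp cb_cont
    -- uniform limits
    have hlin : UniformContinuous fun x : ℝ => x / e := by
      have := (Real.uniformContinuous_const_mul (x := e⁻¹))
      simpa only [div_eq_inv_mul] using this
    have ua : TendstoUniformlyOn (fun k (g : SUGroup n) => S (U k g.toMatrix / e))
        (fun g => S (u g / e)) atTop Ke :=
      ((cb_unifS hS).comp hlin).comp_tendstoUniformlyOn hU2e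
    have hlin2 : UniformContinuous fun x : ℝ => deriv S (x / e) / e :=
      hlin.comp ((cb_unifS' hS).comp hlin)
    have ub : TendstoUniformlyOn (fun k (g : SUGroup n) => deriv S (U k g.toMatrix / e) / e)
        (fun g => deriv S (u g / e) / e) atTop Ke := hlin2.comp_tendstoUniformlyOn hU2e
    have uY : TendstoUniformlyOn (fun k (g : SUGroup n) => V k g.toMatrix *
        S (U k g.toMatrix / e)) (fun g => v g * S (u g / e)) atTop Ke :=
      cb_unif_mul hKec (hv.mono hKeO) (hSu.mono hKeO) hV2e ua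
    -- limits in `L²`
    have mU : ∀ k c, MemLp (fun g : SUGroup n => dX (Xa c) (U k) g.toMatrix) 2
        ((mu n).restrict Ke) := fun k c => cb_memLp hKec (cb_dX_cont (hU1 k) c).continuousOn
    have mV : ∀ k c, MemLp (fun g : SUGroup n => dX (Xa c) (V k) g.toMatrix) 2
        ((mu n).restrict Ke) := fun k c => cb_memLp hKec (cb_dX_cont (hV1 k) c).continuousOn
    have mG := fun c => h.memLp hKec hKeP c
    have mH := fun c => h'.memLp hKec hKeP c
    have ca : ∀ k, ContinuousOn (fun g : SUGroup n => S (U k g.toMatrix / e)) Ke := fun k =>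
      (hSc.comp ((hcU k).div_const e)).continuousOn
    have cb : ∀ k, ContinuousOn (fun g : SUGroup n => deriv S (U k g.toMatrix / e) / e) Ke :=
      fun k => ((hdSc.comp ((hcU k).div_const e)).div_const e).continuousOn
    have t1 : ∀ c, Tendsto (fun k => eLpNorm (fun g : SUGroup n => S (U k g.toMatrix / e) *
        dX (Xa c) (V k) g.toMatrix - S (u g / e) * H c g) 2 ((mu n).restrict Ke)) atTop (𝓝 0) :=
      fun c => tendsto_mul_unif (fun k => mV k c) (mH c) hKec ca (hSu.mono hKeO) ua (hV3e c)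
    have t2 : ∀ c, Tendsto (fun k => eLpNorm (fun g : SUGroup n => V k g.toMatrix *
        dX (Xa c) (U k) g.toMatrix - v g * G c g) 2 ((mu n).restrict Ke)) atTop (𝓝 0) :=
      fun c => tendsto_mul_unif (fun k => mU k c) (mG c) hKec (fun k => (hcV k).continuousOn)
        (hv.mono hKeO) hV2e (hU3e c)
    have m2 : ∀ k c, MemLp (fun g : SUGroup n => V k g.toMatrix * dX (Xa c) (U k) g.toMatrix) 2
        ((mu n).restrict Ke) := fun k c => cb_mul_memLp hKec (hcV k).continuousOn (mU k c)
    have m2' : ∀ c, MemLp (fun g : SUGroup n => v g * G c g) 2 ((mu n).restrict Ke) := fun c =>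
      cb_mul_memLp hKec (hv.mono hKeO) (mG c)
    have t3 : ∀ c, Tendsto (fun k => eLpNorm (fun g : SUGroup n =>
        deriv S (U k g.toMatrix / e) / e * (V k g.toMatrix * dX (Xa c) (U k) g.toMatrix) -
          deriv S (u g / e) / e * (v g * G c g)) 2 ((mu n).restrict Ke)) atTop (𝓝 0) :=
      fun c => tendsto_mul_unif (fun k => m2 k c) (m2' c) hKec cb (hdSu.mono hKeO) ub (t2 c)
    -- the sum
    have t4 : ∀ c, Tendsto (fun k => eLpNorm (fun g : SUGroup n =>
        (S (U k g.toMatrix / e) * dX (Xa c) (V k) g.toMatrix - S (u g / e) * H c g) +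
        (deriv S (U k g.toMatrix / e) / e * (V k g.toMatrix * dX (Xa c) (U k) g.toMatrix) -
          deriv S (u g / e) / e * (v g * G c g))) 2 ((mu n).restrict Ke)) atTop (𝓝 0) := by
      intro c
      have h0 := (t1 c).add (t3 c)
      rw [add_zero] at h0
      refine tendsto_of_tendsto_of_tendsto_of_le_of_le tendsto_const_nhds h0 (fun _ => zero_le)
        fun k => ?_
      refine eLpNorm_add_le ?_ ?_ (by norm_num)
      · exact ((cb_mul_memLp hKec (ca k) (mV k c)).sub
          (cb_mul_memLp hKec (hSu.mono hKeO) (mH c))).aestronglyMeasurable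
      · exact ((cb_mul_memLp hKec (cb k) (m2 k c)).sub
          (cb_mul_memLp hKec (hdSu.mono hKeO) (m2' c))).aestronglyMeasurable
    -- choice of `k`
    have f1 : ∀ᶠ k in atTop, ∀ c, eLpNorm (fun g : SUGroup n =>
        (S (U k g.toMatrix / e) * dX (Xa c) (V k) g.toMatrix - S (u g / e) * H c g) +
        (deriv S (U k g.toMatrix / e) / e * (V k g.toMatrix * dX (Xa c) (U k) g.toMatrix) -
          deriv S (u g / e) / e * (v g * G c g))) 2 ((mu n).restrict Ke) ≤ ENNReal.ofReal ε :=
      eventually_all.2 fun c => ENNReal.tendsto_nhds_zero.1 (t4 c) _ (ENNReal.ofReal_pos.2 hε)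
    obtain ⟨k, k1, k2, k3⟩ := (f1.and ((Metric.tendstoUniformlyOn_iff.1 uY ε hε).and
      (Metric.tendstoUniformlyOn_iff.1 hU2 (e / 4) (by positivity)))).exists
    -- the function
    have sSU : ContDiff ℝ (⊤ : ℕ∞) fun M => e⁻¹ * U k M := contDiff_const.mul (hU1 k)
    have sS : ContDiff ℝ (⊤ : ℕ∞) fun M => S (e⁻¹ * U k M) := hS.smooth.comp sSU
    have sVS : ContDiff ℝ (⊤ : ℕ∞) fun M => V k M * S (e⁻¹ * U k M) := (hV1 k).mul sS
    have dY : ∀ c M, dX (Xa c) (fun M => ζ M * (V k M * S (e⁻¹ * U k M))) M =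
        dX (Xa c) ζ M * (V k M * S (U k M / e)) + ζ M * (S (U k M / e) * dX (Xa c) (V k) M +
          deriv S (U k M / e) / e * (V k M * dX (Xa c) (U k) M)) := by
      intro c M
      rw [dX_mul hζ.smooth sVS, dX_mul (hV1 k) sS, dX_comp hS.smooth sSU, dX_smul _ (hU1 k),
        div_eq_inv_mul (U k M) e]
      ring
    -- outside `Ke`
    have o1 : ∀ g ∈ K, g ∉ Ke → S (u g / e) = 0 ∧ deriv S (u g / e) = 0 ∧ ∀ c,
        ζ g.toMatrix * (V k g.toMatrix * S (U k g.toMatrix / e)) = 0 ∧
          dX (Xa c) (fun M => ζ M * (V k M * S (e⁻¹ * U k M))) g.toMatrix = 0 := by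
      intro g hg hg'
      have h1 := hnKe g hg hg'
      have h2 : u g / e < 1 := by
        rw [div_lt_one he]
        linarith
      refine ⟨hS.zero _ h2.le, (hC _).2.2.1 h2, fun c => ?_⟩
      rw [dY]
      by_cases h3 : g ∈ K'
      · have h4 := k3 g h3
        rw [dist_comm, Real.dist_eq, abs_lt] at h4
        have h5 : U k g.toMatrix / e < 1 := by
          rw [div_lt_one he]
          linarith [h4.2]
        rw [hS.zero _ h5.le, (hC _).2.2.1 h5]
        simp
      · rw [hK'd] at h3
        obtain ⟨z1, z2⟩ := cb_zero (Φ := ζ) h3 (Xa c)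
        rw [z1, z2]
        simp
    refine ⟨fun M => ζ M * (V k M * S (e⁻¹ * U k M)), hζ.smooth.mul sVS, ?_, ?_⟩
    · intro g hg
      show |ζ g.toMatrix * (V k g.toMatrix * S (e⁻¹ * U k g.toMatrix)) - v g * S (u g / e)| ≤ ε
      by_cases hg' : g ∈ Ke
      · have h1 := k2 g hg'
        rw [dist_comm, Real.dist_eq] at h1
        rw [hWζ _ (hWK g hg'), one_mul, ← div_eq_inv_mul]
        exact h1.le
      · by_cases hn : Nonempty (Ix n)
        · obtain ⟨c⟩ := hn
          obtain ⟨o2, -, o3⟩ := o1 g hg hg'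
          have o4 := (o3 c).1
          rw [div_eq_inv_mul] at o4
          rw [o4, o2, mul_zero, sub_zero, abs_zero]
          exact hε.le
        · have h1 := hnKe g hg hg'
          have h2 : u g / e < 1 := by
            rw [div_lt_one he]
            linarith
          rw [hS.zero _ h2.le]
          by_cases h3 : g ∈ K'
          · have h4 := k3 g h3
            rw [dist_comm, Real.dist_eq, abs_lt] at h4
            have h5 : U k g.toMatrix / e < 1 := by
              rw [div_lt_one he]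
              linarith [h4.2]
            rw [← div_eq_inv_mul, hS.zero _ h5.le]
            simpa using hε.le
          · rw [hK'd] at h3
            rw [(cb_zero (Φ := ζ) h3 0).1]
            simpa using hε.le
    · intro c
      refine le_trans (le_of_eq ?_) (k1 c)
      rw [← Measure.restrict_restrict_of_subset hKeK,
        ← eLpNorm_indicator_eq_eLpNorm_restrict hKec.measurableSet]
      refine eLpNorm_congr_ae ?_
      refine (ae_restrict_iff' hK.measurableSet).2 (Eventually.of_forall fun g hg => ?_)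
      by_cases hg' : g ∈ Ke
      · have hζ0 : dX (Xa c) ζ g.toMatrix = 0 := by
          have h1 : ζ =ᶠ[𝓝 g.toMatrix] fun _ => (1 : ℝ) := by
            filter_upwards [hW.mem_nhds (hWK g hg')] with M hM
            exact hWζ M hM
          rw [dX, h1.fderiv_eq]
          simp
        rw [Set.indicator_of_mem hg']
        show dX (Xa c) (fun M => ζ M * (V k M * S (e⁻¹ * U k M))) g.toMatrix -
          (Ps O u).indicator _ g = _
        rw [dY, Set.indicator_of_mem (hKeP hg'), hζ0, hWζ _ (hWK g hg')]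
        ring
      · rw [Set.indicator_of_notMem hg']
        show dX (Xa c) (fun M => ζ M * (V k M * S (e⁻¹ * U k M))) g.toMatrix -
          (Ps O u).indicator _ g = _
        obtain ⟨o2, o3, o4⟩ := o1 g hg hg'
        rw [(o4 c).2]
        by_cases hP : g ∈ Ps O u
        · rw [Set.indicator_of_mem hP, o2, o3]
          simp
        · rw [Set.indicator_of_notMem hP, sub_zero]

end Pool.Agent.Lib.MP_5d4057_al.IN.D
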