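import Pool.Agent.Lib.MP_5d4057_al.IN.DPW

/-! INT, part D, file DCrP: crossing for plurisubharmonic functions. -/

set_option autoImplicit false

namespace Pool.Agent.Lib.MP_5d4057_al.IN.D

open Matrix MeasureTheory Filter Topology Pool.Agent.Lib.MP_5d4057_al
  Pool.Agent.Lib.MP_5d4057_al.Hyb Pool.Agent.Lib.MP_5d4057_al.HM

open scoped ComplexOrder MatrixOrder Matrix.Norms.L2Operator ENNReal

variable {n : ℕ} {O : Set (SUGroup n)} {Φ Θ : Mat (n + 1) → ℝ}
  {q : Ix n → Ix n → SUGroup n → ℝ} {G : Ix n → Ix n → Ix n → SUGroup n → ℝ}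
  {y : SUGroup n → ℝ}

/-- `y` has increments at most `sqrt(q_cc)`, locally uniformly. -/
def Inc (O : Set (SUGroup n)) (q : Ix n → Ix n → SUGroup n → ℝ) (y : SUGroup n → ℝ) : Prop :=
  ∀ g₀ ∈ O, ∀ (c : Ix n), ∀ ε > 0, ∃ δ > 0, ∀ᶠ g in 𝓝 g₀, ∀ t : ℝ, |t| < δ →
    (y (g * ba c t) - y g) ^ 2 ≤ (q c c g + ε) * t ^ 2

/-- Uniform version on compact sets. PROOF: compactness. -/
theorem Inc.compact (h : Inc O q y) {K : Set (SUGroup n)} (hK : IsCompact K) (hKO : K ⊆ O)
    (c : Ix n) {ε : ℝ} (hε : 0 < ε) :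
    ∃ δ > 0, ∀ g ∈ K, ∀ t : ℝ, |t| < δ → (y (g * ba c t) - y g) ^ 2 ≤ (q c c g + ε) * t ^ 2 := by
  refine hK.induction_on (p := fun s => ∃ δ > 0, ∀ g ∈ s, ∀ t : ℝ, |t| < δ →
    (y (g * ba c t) - y g) ^ 2 ≤ (q c c g + ε) * t ^ 2) ?_ ?_ ?_ ?_
  · exact ⟨1, one_pos, fun g hg => absurd hg (Set.notMem_empty g)⟩
  · rintro s t hst ⟨δ, hδ, hd⟩
    exact ⟨δ, hδ, fun g hg => hd g (hst hg)⟩
  · rintro s t ⟨δ, hδ, hd⟩ ⟨δ', hδ', hd'⟩
    refine ⟨min δ δ', lt_min hδ hδ', fun g hg u hu => ?_⟩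
    rcases hg with hg | hg
    · exact hd g hg u (lt_of_lt_of_le hu (min_le_left _ _))
    · exact hd' g hg u (lt_of_lt_of_le hu (min_le_right _ _))
  · intro g hg
    obtain ⟨δ, hδ, hd⟩ := h g (hKO hg) c ε hε
    exact ⟨_, mem_nhdsWithin_of_mem_nhds hd, δ, hδ, fun g' hg' => hg'⟩

/-- a smooth function with compact support is bounded -/
private theorem crP_bdd (h : Cs O Θ) : ∃ C : ℝ, ∀ M, |Θ M| ≤ C := by
  obtain ⟨C, hC⟩ := h.smooth.continuous.bounded_above_of_compact_support h.supp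
  exact ⟨C, hC⟩

/-- the difference quotients are bounded -/
private theorem crP_diff (h : Cs O Θ) (c : Ix n) :
    ∃ C : ℝ, 0 ≤ C ∧ ∀ (g : SUGroup n) (t : ℝ),
      |Θ (g * ba c t).toMatrix - Θ g.toMatrix| ≤ C * |t| := by
  obtain ⟨C, hC⟩ := crP_bdd (h.dX (Xa c))
  refine ⟨C, le_trans (abs_nonneg _) (hC 0), fun g t => ?_⟩
  have h1 := Convex.norm_image_sub_le_of_norm_hasDerivWithin_le (s := Set.univ)
    (f := fun s : ℝ => Θ (g * ba c s).toMatrix)
    (f' := fun s : ℝ => dX (Xa c) Θ (g * ba c s).toMatrix) (C := C) (x := 0) (y := t)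
    (fun s _ => (hasDerivAt_dX h.smooth c g s).hasDerivWithinAt) (fun s _ => hC _)
    convex_univ (Set.mem_univ _) (Set.mem_univ _)
  rw [ba_zero, mul_one, sub_zero] at h1
  exact h1

/-- **Pairing.** PROOF: `ψ = Θ`; `∫ y dX Θ = lim ∫ y(g) (Θ(g b(t)) - Θ(g)) / t =
lim ∫ (y(g b(-t)) - y(g)) / t * Θ(g)` (right invariance of the Haar measure; the difference quotients of
`Θ` converge uniformly and have supports in a compact subset of `O` for small `t`), and the
last integrand is at most `sqrt(q_cc + ε) |Θ|`; then `ε → 0`. -/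
theorem pairing (hO : IsOpen O) (hq : ∀ a b, ContinuousOn (q a b) O) (hy : ContinuousOn y O)
    (h0 : ∀ c, ∀ g ∈ O, 0 ≤ q c c g) (h : Inc O q y) (hΘ : Cs O Θ) (c : Ix n) :
    |∫ g, y g * dX (Xa c) Θ g.toMatrix ∂(mu n)| ≤
      ∫ g, Real.sqrt (q c c g) * |Θ g.toMatrix| ∂(mu n) := by
  -- the support and a bump
  have hK : IsCompact {g : SUGroup n | g.toMatrix ∈ tsupport Θ} := hΘ.compact
  have hKO : {g : SUGroup n | g.toMatrix ∈ tsupport Θ} ⊆ O := fun g hg => hΘ.sub g hg
  obtain ⟨ζ, hζ, -, -, W, hW, hKW, hζ1⟩ := exists_bump hO hK hKO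
  have hmat : Continuous (fun g : SUGroup n => g.toMatrix) := continuous_toMatrix n
  have hΘc : Continuous (fun g : SUGroup n => Θ g.toMatrix) := hΘ.smooth.continuous.comp hmat
  -- the function `Y`
  have hYi : Integrable (fun g => y g * ζ g.toMatrix) (mu n) :=
    hζ.toCs.integrable_cont hy hO
  have hΘi : Integrable (fun g : SUGroup n => Θ g.toMatrix) (mu n) := by
    have h1 := hΘ.integrable_cont (u := fun _ => (1 : ℝ)) continuousOn_const hO
    simpa using h1
  have hqi : Integrable (fun g : SUGroup n => Real.sqrt (q c c g) * |Θ g.toMatrix|) (mu n) := by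
    have h1 := (hΘ.integrable_cont (u := fun g => Real.sqrt (q c c g))
      (Real.continuous_sqrt.comp_continuousOn (hq c c)) hO).abs
    refine h1.congr (Eventually.of_forall fun g => ?_)
    simp only [abs_mul, abs_of_nonneg (Real.sqrt_nonneg _)]
  obtain ⟨CΘ, hCΘ⟩ := crP_bdd hΘ
  obtain ⟨C, hC0, hC⟩ := crP_diff hΘ c
  -- replace `y` by `Y`
  have e1 : ∫ g, y g * dX (Xa c) Θ g.toMatrix ∂(mu n) =
      ∫ g, (y g * ζ g.toMatrix) * dX (Xa c) Θ g.toMatrix ∂(mu n) := by
    refine integral_congr_ae (Eventually.of_forall fun g => ?_)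
    by_cases hg : g.toMatrix ∈ tsupport Θ
    · simp only [hζ1 _ (hKW g hg), mul_one]
    · have h1 : dX (Xa c) Θ g.toMatrix = 0 := by
        have h2 : Θ =ᶠ[𝓝 g.toMatrix] fun _ => 0 := notMem_tsupport_iff_eventuallyEq.mp hg
        rw [dX, h2.fderiv_eq]
        simp
      simp only [h1, mul_zero]
  -- the limit
  have hlim : Tendsto (fun t : ℝ => ∫ g, (y g * ζ g.toMatrix) *
      (t⁻¹ * (Θ (g * ba c t).toMatrix - Θ g.toMatrix)) ∂(mu n)) (𝓝[≠] 0)
      (𝓝 (∫ g, (y g * ζ g.toMatrix) * dX (Xa c) Θ g.toMatrix ∂(mu n))) := by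
    refine tendsto_integral_filter_of_dominated_convergence
      (fun g => |y g * ζ g.toMatrix| * C) ?_ ?_ (hYi.abs.mul_const C) ?_
    · refine Eventually.of_forall fun t => ?_
      refine hYi.aestronglyMeasurable.mul ?_
      refine Continuous.aestronglyMeasurable ?_
      refine continuous_const.mul (Continuous.sub ?_ hΘc)
      exact hΘc.comp (continuous_id.mul continuous_const)
    · filter_upwards [self_mem_nhdsWithin] with t ht
      refine Eventually.of_forall fun g => ?_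
      rw [Real.norm_eq_abs, abs_mul]
      refine mul_le_mul_of_nonneg_left ?_ (abs_nonneg _)
      rw [abs_mul, abs_inv]
      have ht0 : 0 < |t| := abs_pos.mpr ht
      rw [inv_mul_le_iff₀ ht0, mul_comm]
      exact hC g t
    · refine Eventually.of_forall fun g => ?_
      refine Tendsto.const_mul _ ?_
      have h1 := (hasDerivAt_dX hΘ.smooth c g 0)
      rw [hasDerivAt_iff_tendsto_slope] at h1
      rw [ba_zero, mul_one] at h1
      refine h1.congr fun t => ?_
      rw [slope_def_field, ba_zero, mul_one, sub_zero]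
      rw [div_eq_inv_mul]
  -- the bound for small `t`
  have hbd : ∀ ε : ℝ, 0 < ε → |∫ g, (y g * ζ g.toMatrix) * dX (Xa c) Θ g.toMatrix ∂(mu n)| ≤
      ∫ g, Real.sqrt (q c c g) * |Θ g.toMatrix| ∂(mu n) +
        Real.sqrt ε * ∫ g : SUGroup n, |Θ g.toMatrix| ∂(mu n) := by
    intro ε hε
    refine le_of_tendsto hlim.abs ?_
    obtain ⟨δ, hδ, hd⟩ := h.compact hK hKO c hε
    have hW' : ∀ᶠ t : ℝ in 𝓝 0, ∀ g ∈ {g : SUGroup n | g.toMatrix ∈ tsupport Θ},
        (g * ba c (-t)).toMatrix ∈ W := by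
      refine hK.eventually_forall_of_forall_eventually fun g hg => ?_
      have hc : Continuous (fun p : ℝ × SUGroup n => (p.2 * ba c (-p.1)).toMatrix) :=
        hmat.comp (continuous_snd.mul ((continuous_ba c).comp continuous_fst.neg))
      have h2 : (g * ba c (-(0 : ℝ))).toMatrix ∈ W := by
        rw [neg_zero, ba_zero, mul_one]
        exact hKW g hg
      have hca : ContinuousAt (fun p : ℝ × SUGroup n => (p.2 * ba c (-p.1)).toMatrix) (0, g) :=
        hc.continuousAt
      exact hca.eventually (hW.mem_nhds h2)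
    have hδ' : ∀ᶠ t : ℝ in 𝓝 0, |t| < δ := by
      have h3 : ContinuousAt (fun t : ℝ => |t|) 0 := continuous_abs.continuousAt
      refine h3.eventually_lt continuousAt_const ?_
      simpa using hδ
    filter_upwards [hW'.filter_mono nhdsWithin_le_nhds, hδ'.filter_mono nhdsWithin_le_nhds,
      self_mem_nhdsWithin] with t ht1 ht2 ht3
    have ht0 : 0 < |t| := abs_pos.mpr ht3
    -- change of variables
    have hYt : Integrable (fun g => (y g * ζ g.toMatrix) * Θ (g * ba c t).toMatrix) (mu n) := by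
      refine hYi.mul_bdd (c := CΘ) ?_ (Eventually.of_forall fun g => hCΘ _)
      exact (hΘc.comp (continuous_id.mul continuous_const)).aestronglyMeasurable
    have hY0 : Integrable (fun g => (y g * ζ g.toMatrix) * Θ g.toMatrix) (mu n) :=
      hYi.mul_bdd (c := CΘ) hΘc.aestronglyMeasurable (Eventually.of_forall fun g => hCΘ _)
    have hb : ba c (-t) * ba c t = 1 := by
      rw [← ba_add, neg_add_cancel, ba_zero]
    have e2 : ∫ g, (y g * ζ g.toMatrix) * Θ (g * ba c t).toMatrix ∂(mu n) =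
        ∫ g, (y (g * ba c (-t)) * ζ (g * ba c (-t)).toMatrix) * Θ g.toMatrix ∂(mu n) := by
      have h4 := integral_mul_right_eq_self (μ := mu n)
        (fun g => (y g * ζ g.toMatrix) * Θ (g * ba c t).toMatrix) (ba c (-t))
      rw [← h4]
      refine integral_congr_ae (Eventually.of_forall fun g => ?_)
      simp only [mul_assoc g, hb, mul_one]
    have hYt' : Integrable (fun g => (y (g * ba c (-t)) * ζ (g * ba c (-t)).toMatrix) *
        Θ g.toMatrix) (mu n) := by
      have h5 : Integrable (fun g => y (g * ba c (-t)) * ζ (g * ba c (-t)).toMatrix) (mu n) :=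
        hYi.comp_mul_right (ba c (-t))
      exact h5.mul_bdd (c := CΘ) hΘc.aestronglyMeasurable (Eventually.of_forall fun g => hCΘ _)
    have e3 : ∫ g, (y g * ζ g.toMatrix) *
        (t⁻¹ * (Θ (g * ba c t).toMatrix - Θ g.toMatrix)) ∂(mu n) =
        ∫ g, t⁻¹ * ((y (g * ba c (-t)) * ζ (g * ba c (-t)).toMatrix - y g * ζ g.toMatrix) *
          Θ g.toMatrix) ∂(mu n) := by
      have h6 : ∫ g, (y g * ζ g.toMatrix) *
          (t⁻¹ * (Θ (g * ba c t).toMatrix - Θ g.toMatrix)) ∂(mu n) =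
          t⁻¹ * (∫ g, (y g * ζ g.toMatrix) * Θ (g * ba c t).toMatrix ∂(mu n) -
            ∫ g, (y g * ζ g.toMatrix) * Θ g.toMatrix ∂(mu n)) := by
        rw [← integral_sub hYt hY0, ← integral_const_mul]
        refine integral_congr_ae (Eventually.of_forall fun g => ?_)
        simp only
        ring
      rw [h6, e2, ← integral_sub hYt' hY0, ← integral_const_mul]
      refine integral_congr_ae (Eventually.of_forall fun g => ?_)
      simp only
      ring
    rw [e3]
    -- the pointwise bound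
    have hpt : ∀ g : SUGroup n, ‖t⁻¹ * ((y (g * ba c (-t)) * ζ (g * ba c (-t)).toMatrix -
        y g * ζ g.toMatrix) * Θ g.toMatrix)‖ ≤
        Real.sqrt (q c c g) * |Θ g.toMatrix| + Real.sqrt ε * |Θ g.toMatrix| := by
      intro g
      by_cases hg : g.toMatrix ∈ tsupport Θ
      · rw [hζ1 _ (ht1 g hg), hζ1 _ (hKW g hg), mul_one, mul_one, Real.norm_eq_abs, abs_mul,
          abs_mul, ← mul_assoc, ← add_mul]
        refine mul_le_mul_of_nonneg_right ?_ (abs_nonneg _)
        rw [abs_inv, inv_mul_le_iff₀ ht0]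
        have h7 := hd g hg (-t) (by rwa [abs_neg])
        have h8 : 0 ≤ q c c g := h0 c g (hKO hg)
        have h9 : Real.sqrt (q c c g + ε) ≤ Real.sqrt (q c c g) + Real.sqrt ε := by
          rw [Real.sqrt_le_left (by positivity)]
          have h10 := Real.sq_sqrt h8
          have h11 := Real.sq_sqrt hε.le
          have h12 : 0 ≤ Real.sqrt (q c c g) * Real.sqrt ε := by positivity
          nlinarith
        calc |y (g * ba c (-t)) - y g| = Real.sqrt ((y (g * ba c (-t)) - y g) ^ 2) :=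
              (Real.sqrt_sq_eq_abs _).symm
          _ ≤ Real.sqrt ((q c c g + ε) * (-t) ^ 2) := Real.sqrt_le_sqrt h7
          _ = |t| * Real.sqrt (q c c g + ε) := by
              rw [Real.sqrt_mul (by linarith), Real.sqrt_sq_eq_abs, abs_neg, mul_comm]
          _ ≤ |t| * (Real.sqrt (q c c g) + Real.sqrt ε) :=
              mul_le_mul_of_nonneg_left h9 ht0.le
      · have h13 : Θ g.toMatrix = 0 := image_eq_zero_of_notMem_tsupport hg
        simp [h13]
    calc |∫ g, t⁻¹ * ((y (g * ba c (-t)) * ζ (g * ba c (-t)).toMatrix - y g * ζ g.toMatrix) *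
          Θ g.toMatrix) ∂(mu n)|
        ≤ ∫ g : SUGroup n, (Real.sqrt (q c c g) * |Θ g.toMatrix| +
          Real.sqrt ε * |Θ g.toMatrix|) ∂(mu n) := by
          rw [← Real.norm_eq_abs]
          exact norm_integral_le_of_norm_le (hqi.add (hΘi.abs.const_mul _))
            (Eventually.of_forall hpt)
      _ = _ := by
          rw [integral_add hqi (hΘi.abs.const_mul _), integral_const_mul]
  rw [e1]
  -- `ε → 0`
  have hT : Tendsto (fun ε : ℝ => ∫ g, Real.sqrt (q c c g) * |Θ g.toMatrix| ∂(mu n) +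
        Real.sqrt ε * ∫ g : SUGroup n, |Θ g.toMatrix| ∂(mu n)) (𝓝[>] 0)
      (𝓝 (∫ g, Real.sqrt (q c c g) * |Θ g.toMatrix| ∂(mu n) +
        Real.sqrt 0 * ∫ g : SUGroup n, |Θ g.toMatrix| ∂(mu n))) := by
    have h1 : Continuous (fun ε : ℝ => ∫ g, Real.sqrt (q c c g) * |Θ g.toMatrix| ∂(mu n) +
        Real.sqrt ε * ∫ g : SUGroup n, |Θ g.toMatrix| ∂(mu n)) :=
      continuous_const.add (Real.continuous_sqrt.mul continuous_const)
    exact (h1.tendsto 0).mono_left nhdsWithin_le_nhds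
  rw [Real.sqrt_zero, zero_mul, add_zero] at hT
  refine ge_of_tendsto hT ?_
  filter_upwards [self_mem_nhdsWithin] with ε hε
  exact hbd ε hε

end Pool.Agent.Lib.MP_5d4057_al.IN.D
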