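import Pool.Agent.Lib.MP_5d4057_al.IN.DSum
import Pool.Agent.Lib.MP_5d4057_al.IN.DWkB

/-! INT, part D, file DDat: sums of data. -/

set_option autoImplicit false

namespace Pool.Agent.Lib.MP_5d4057_al.IN.D

open Matrix MeasureTheory Filter Topology Pool.Agent.Lib.MP_5d4057_al
  Pool.Agent.Lib.MP_5d4057_al.Hyb Pool.Agent.Lib.MP_5d4057_al.HM

open scoped ComplexOrder MatrixOrder Matrix.Norms.L2Operator ENNReal

variable {n : ℕ} {O O' : Set (SUGroup n)} {Φ Ψ : Mat (n + 1) → ℝ}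
  {q q₁ q₂ : Ix n → Ix n → SUGroup n → ℝ} {G G₁ G₂ : Ix n → Ix n → Ix n → SUGroup n → ℝ}

/-! ### auxiliary lemmas -/

private theorem dat_off (h : Cs O Φ) {g : SUGroup n} (hg : g ∉ O) : Φ g.toMatrix = 0 := by
  by_contra hne
  exact hg (h.sub g (subset_tsupport _ hne))

private theorem dat_ineq {t₁ t₂ x y : ℝ} (h₁ : 0 ≤ t₁) (h₂ : 0 ≤ t₂) (z₁ : t₁ = 0 → x = 0)
    (z₂ : t₂ = 0 → y = 0) : (t₁ + t₂)⁻¹ * (x + y) ^ 2 ≤ t₁⁻¹ * x ^ 2 + t₂⁻¹ * y ^ 2 := by
  rcases h₁.eq_or_lt with e₁ | p₁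
  · rw [← e₁, z₁ e₁.symm]
    simp
  rcases h₂.eq_or_lt with e₂ | p₂
  · rw [← e₂, z₂ e₂.symm]
    simp
  rw [← sub_nonneg]
  have e : t₁⁻¹ * x ^ 2 + t₂⁻¹ * y ^ 2 - (t₁ + t₂)⁻¹ * (x + y) ^ 2 =
      (t₂ * x - t₁ * y) ^ 2 / (t₁ * t₂ * (t₁ + t₂)) := by
    have : t₁ + t₂ ≠ 0 := by positivity
    field_simp
    ring
  rw [e]
  positivity

private theorem dat_nsq {t₁ t₂ : ℝ} {g : SUGroup n} (h₁ : 0 ≤ t₁) (h₂ : 0 ≤ t₂)
    (z₁ : t₁ = 0 → ∀ c a b, G₁ c a b g = 0) (z₂ : t₂ = 0 → ∀ c a b, G₂ c a b g = 0) :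
    (t₁ + t₂)⁻¹ * nsq (fun c a b g => G₁ c a b g + G₂ c a b g) g ≤
      t₁⁻¹ * nsq G₁ g + t₂⁻¹ * nsq G₂ g := by
  simp only [nsq, Finset.mul_sum, ← Finset.sum_add_distrib]
  exact Finset.sum_le_sum fun c _ => Finset.sum_le_sum fun a _ => Finset.sum_le_sum fun b _ =>
    dat_ineq h₁ h₂ (fun h => z₁ h c a b) (fun h => z₂ h c a b)

private theorem dat_nsq_nonneg (g : SUGroup n) : 0 ≤ nsq G g :=
  Finset.sum_nonneg fun _ _ => Finset.sum_nonneg fun _ _ => Finset.sum_nonneg fun _ _ =>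
    sq_nonneg _

private theorem dat_meas (hO : IsOpen O) (hΦ : Cs O Φ) {t : SUGroup n → ℝ}
    (ht : ContinuousOn t O)
    (hG : ∀ c a b, AEStronglyMeasurable (G c a b) ((mu n).restrict O)) :
    AEStronglyMeasurable (fun g => (t g)⁻¹ * nsq G g * Φ g.toMatrix) (mu n) := by
  have h1 : (fun g : SUGroup n => (t g)⁻¹ * nsq G g * Φ g.toMatrix) =
      O.indicator fun g => (t g)⁻¹ * nsq G g * Φ g.toMatrix := by
    funext g
    by_cases hg : g ∈ O
    · rw [Set.indicator_of_mem hg]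
    · rw [Set.indicator_of_notMem hg, dat_off hΦ hg, mul_zero]
  have h2 : AEMeasurable (fun g : SUGroup n => (t g)⁻¹) ((mu n).restrict O) :=
    (ht.aemeasurable hO.measurableSet).inv
  have h3 : AEMeasurable (fun g : SUGroup n => nsq G g) ((mu n).restrict O) := by
    unfold nsq
    exact Finset.aemeasurable_fun_sum _ fun c _ => Finset.aemeasurable_fun_sum _ fun a _ =>
      Finset.aemeasurable_fun_sum _ fun b _ => (hG c a b).aemeasurable.pow_const 2
  have h4 : AEMeasurable (fun g : SUGroup n => Φ g.toMatrix) ((mu n).restrict O) := by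
    have h5 := (hΦ.integrable_cont (u := fun _ => (1 : ℝ)) continuousOn_const hO)
    simp only [one_mul] at h5
    exact h5.aestronglyMeasurable.aemeasurable.restrict
  rw [h1, aestronglyMeasurable_indicator_iff hO.measurableSet]
  exact ((h2.mul h3).mul h4).aestronglyMeasurable

private theorem dat_tr_add (g : SUGroup n) :
    tr (fun a b g => q₁ a b g + q₂ a b g) g = tr q₁ g + tr q₂ g :=
  Finset.sum_add_distrib

private theorem dat_trG_add (c : Ix n) (g : SUGroup n) :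
    trG (fun c a b g => G₁ c a b g + G₂ c a b g) c g = trG G₁ c g + trG G₂ c g :=
  Finset.sum_add_distrib

private theorem dat_tr_smul (c : ℝ) (g : SUGroup n) :
    tr (fun a b g => c * q a b g) g = c * tr q g := by
  unfold tr
  rw [Finset.mul_sum]

private theorem dat_trG_smul (c : ℝ) (d : Ix n) (g : SUGroup n) :
    trG (fun d a b g => c * G d a b g) d g = c * trG G d g := by
  unfold trG
  rw [Finset.mul_sum]

private theorem dat_nsq_smul (c : ℝ) (g : SUGroup n) :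
    nsq (fun d a b g => c * G d a b g) g = c ^ 2 * nsq G g := by
  simp only [nsq, Finset.mul_sum, mul_pow]

/-! ### data -/

theorem Dat.tr_nonneg (h : Dat O q G) {g : SUGroup n} (hg : g ∈ O) : 0 ≤ tr q g := by
  rcases isEmpty_or_nonempty (Ix n) with he | ⟨⟨a⟩⟩
  · unfold tr
    rw [Finset.univ_eq_empty, Finset.sum_empty]
  · exact (abs_nonneg _).trans (h.dom a a g hg)

theorem Dat.wg_tr (h : Dat O q G) : Wg O (tr q) (trG G) :=
  Wg.sum Finset.univ (u := fun a => q a a) (G := fun a c => G c a a) fun a _ => h.grad a a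

theorem Dat.mono (h : Dat O q G) (hO : O' ⊆ O) : Dat O' q G where
  symm a b g hg := h.symm a b g (hO hg)
  dom a b g hg := h.dom a b g (hO hg)
  grad a b := (h.grad a b).mono hO
  zero c a b g hg := h.zero c a b g (hO hg)
  int Φ hΦ := h.int Φ (hΦ.mono hO)
  p2 Φ hΦ := h.p2 Φ (hΦ.mono hO)
  p3 Φ hΦ := h.p3 Φ (hΦ.mono hO)

theorem Dat.congr (h : Dat O q₁ G) (hO : IsOpen O) (hq : ∀ a b, ∀ g ∈ O, q₁ a b g = q₂ a b g) :
    Dat O q₂ G := by
  have ht : ∀ g ∈ O, tr q₁ g = tr q₂ g := fun g hg =>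
    Finset.sum_congr rfl fun a _ => hq a a g hg
  have e1 : ∀ Φ, Tst O Φ → (fun g : SUGroup n => (tr q₂ g)⁻¹ * nsq G g * Φ g.toMatrix) =
      fun g => (tr q₁ g)⁻¹ * nsq G g * Φ g.toMatrix := by
    intro Φ hΦ
    funext g
    by_cases hg : g ∈ O
    · rw [ht g hg]
    · rw [dat_off hΦ.toCs hg, mul_zero, mul_zero]
  have e2 : ∀ Φ, Tst O Φ → (fun g : SUGroup n => tr q₂ g * Φ g.toMatrix) =
      fun g => tr q₁ g * Φ g.toMatrix := by
    intro Φ hΦ
    funext g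
    by_cases hg : g ∈ O
    · rw [ht g hg]
    · rw [dat_off hΦ.toCs hg, mul_zero, mul_zero]
  refine ⟨fun a b g hg => ?_, fun a b g hg => ?_, fun a b => ?_, fun c a b g hg h0 => ?_,
    fun Φ hΦ => ?_, fun Φ hΦ => ?_, fun Φ hΦ => ?_⟩
  · rw [← hq a b g hg, ← hq b a g hg]
    exact h.symm a b g hg
  · rw [← hq a b g hg, ← ht g hg]
    exact h.dom a b g hg
  · exact (h.grad a b).congr hO (hq a b) fun c => Filter.Eventually.of_forall fun _ _ => rfl
  · exact h.zero c a b g hg ((ht g hg).trans h0)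
  · rw [e1 Φ hΦ]
    exact h.int Φ hΦ
  · rw [e1 Φ hΦ, e2 Φ hΦ]
    exact h.p2 Φ hΦ
  · rw [← Siu_congr hΦ.toCs hq]
    exact h.p3 Φ hΦ

/-- PROOF: `(t₁ + t₂)⁻¹ |G₁ + G₂|² ≤ t₁⁻¹ |G₁|² + t₂⁻¹ |G₂|²` pointwise on `O` (with `0⁻¹ = 0`:
`G_i = 0` where `t_i = 0`); everything else is linear. -/
theorem Dat.add (hO : IsOpen O) (h₁ : Dat O q₁ G₁) (h₂ : Dat O q₂ G₂) :
    Dat O (fun a b g => q₁ a b g + q₂ a b g) (fun c a b g => G₁ c a b g + G₂ c a b g) := by
  have hpt : ∀ Φ, Tst O Φ → ∀ g : SUGroup n,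
      (tr (fun a b g => q₁ a b g + q₂ a b g) g)⁻¹ *
          nsq (fun c a b g => G₁ c a b g + G₂ c a b g) g * Φ g.toMatrix ≤
        (tr q₁ g)⁻¹ * nsq G₁ g * Φ g.toMatrix + (tr q₂ g)⁻¹ * nsq G₂ g * Φ g.toMatrix := by
    intro Φ hΦ g
    by_cases hg : g ∈ O
    · rw [dat_tr_add, ← add_mul]
      exact mul_le_mul_of_nonneg_right (dat_nsq (h₁.tr_nonneg hg) (h₂.tr_nonneg hg)
        (fun h c a b => h₁.zero c a b g hg h) (fun h c a b => h₂.zero c a b g hg h)) (hΦ.nonneg g)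
    · rw [dat_off hΦ.toCs hg]
      simp
  have hcont : ∀ a b, ContinuousOn (q₁ a b) O ∧ ContinuousOn (q₂ a b) O := fun a b =>
    ⟨(h₁.grad a b).cont, (h₂.grad a b).cont⟩
  have hint : ∀ Φ, Tst O Φ → Integrable (fun g : SUGroup n =>
      (tr (fun a b g => q₁ a b g + q₂ a b g) g)⁻¹ *
          nsq (fun c a b g => G₁ c a b g + G₂ c a b g) g * Φ g.toMatrix) (mu n) := by
    intro Φ hΦ
    refine ((h₁.int Φ hΦ).add (h₂.int Φ hΦ)).mono' ?_ (Filter.Eventually.of_forall fun g => ?_)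
    · refine dat_meas hO hΦ.toCs ?_ fun c a b => ?_
      · have e : tr (fun a b g => q₁ a b g + q₂ a b g) = fun g => tr q₁ g + tr q₂ g :=
          funext fun g => dat_tr_add g
        rw [e]
        exact h₁.wg_tr.cont.add h₂.wg_tr.cont
      · exact ((h₁.grad a b).meas c).add ((h₂.grad a b).meas c)
    · have h0 : 0 ≤ (tr (fun a b g => q₁ a b g + q₂ a b g) g)⁻¹ *
          nsq (fun c a b g => G₁ c a b g + G₂ c a b g) g * Φ g.toMatrix := by
        by_cases hg : g ∈ O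
        · refine mul_nonneg (mul_nonneg (inv_nonneg.2 ?_) (dat_nsq_nonneg g)) (hΦ.nonneg g)
          rw [dat_tr_add]
          exact add_nonneg (h₁.tr_nonneg hg) (h₂.tr_nonneg hg)
        · rw [dat_off hΦ.toCs hg, mul_zero]
      rw [Real.norm_eq_abs, abs_of_nonneg h0]
      exact hpt Φ hΦ g
  refine ⟨fun a b g hg => ?_, fun a b g hg => ?_, fun a b => ?_, fun c a b g hg h0 => ?_,
    hint, fun Φ hΦ => ?_, fun Φ hΦ => ?_⟩
  · show q₁ a b g + q₂ a b g = q₁ b a g + q₂ b a g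
    rw [h₁.symm a b g hg, h₂.symm a b g hg]
  · rw [dat_tr_add]
    exact (abs_add_le _ _).trans (add_le_add (h₁.dom a b g hg) (h₂.dom a b g hg))
  · exact (h₁.grad a b).add (h₂.grad a b)
  · rw [dat_tr_add] at h0
    have n1 := h₁.tr_nonneg hg
    have n2 := h₂.tr_nonneg hg
    show G₁ c a b g + G₂ c a b g = 0
    rw [h₁.zero c a b g hg (by linarith), h₂.zero c a b g hg (by linarith), add_zero]
  · have i1 := h₁.int Φ hΦ
    have i2 := h₂.int Φ hΦ
    have s1 : ∫ g, (tr (fun a b g => q₁ a b g + q₂ a b g) g)⁻¹ *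
          nsq (fun c a b g => G₁ c a b g + G₂ c a b g) g * Φ g.toMatrix ∂(mu n) ≤
        ∫ g, (tr q₁ g)⁻¹ * nsq G₁ g * Φ g.toMatrix ∂(mu n) +
          ∫ g, (tr q₂ g)⁻¹ * nsq G₂ g * Φ g.toMatrix ∂(mu n) := by
      rw [← integral_add i1 i2]
      exact integral_mono (hint Φ hΦ) (i1.add i2) (hpt Φ hΦ)
    have s2 : ∀ c, ∫ g, trG (fun c a b g => G₁ c a b g + G₂ c a b g) c g *
        dX (Xa c) Φ g.toMatrix ∂(mu n) = ∫ g, trG G₁ c g * dX (Xa c) Φ g.toMatrix ∂(mu n) +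
          ∫ g, trG G₂ c g * dX (Xa c) Φ g.toMatrix ∂(mu n) := by
      intro c
      have j1 := (hΦ.toCs.dX (Xa c)).integrable (h₁.wg_tr.locInt hO c) hO
      have j2 := (hΦ.toCs.dX (Xa c)).integrable (h₂.wg_tr.locInt hO c) hO
      rw [← integral_add j1 j2]
      refine integral_congr_ae (Filter.Eventually.of_forall fun g => ?_)
      show trG (fun c a b g => G₁ c a b g + G₂ c a b g) c g * dX (Xa c) Φ g.toMatrix =
        trG G₁ c g * dX (Xa c) Φ g.toMatrix + trG G₂ c g * dX (Xa c) Φ g.toMatrix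
      rw [dat_trG_add, add_mul]
    have s3 : ∫ g, tr (fun a b g => q₁ a b g + q₂ a b g) g * Φ g.toMatrix ∂(mu n) =
        ∫ g, tr q₁ g * Φ g.toMatrix ∂(mu n) + ∫ g, tr q₂ g * Φ g.toMatrix ∂(mu n) := by
      have j1 := hΦ.toCs.integrable_cont h₁.wg_tr.cont hO
      have j2 := hΦ.toCs.integrable_cont h₂.wg_tr.cont hO
      rw [← integral_add j1 j2]
      refine integral_congr_ae (Filter.Eventually.of_forall fun g => ?_)
      show tr (fun a b g => q₁ a b g + q₂ a b g) g * Φ g.toMatrix =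
        tr q₁ g * Φ g.toMatrix + tr q₂ g * Φ g.toMatrix
      rw [dat_tr_add, add_mul]
    rw [s3, Finset.sum_congr rfl fun c _ => s2 c, Finset.sum_add_distrib]
    have p1 := h₁.p2 Φ hΦ
    have p2 := h₂.p2 Φ hΦ
    refine s1.trans ((add_le_add p1 p2).trans (le_of_eq ?_))
    ring
  · rw [Siu_add_left hO (fun a b => (hcont a b).1) (fun a b => (hcont a b).2) hΦ.toCs]
    exact add_nonneg (h₁.p3 Φ hΦ) (h₂.p3 Φ hΦ)

theorem Dat.smul {c : ℝ} (hc : 0 ≤ c) (hO : IsOpen O) (h : Dat O q G) :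
    Dat O (fun a b g => c * q a b g) (fun d a b g => c * G d a b g) := by
  have e1 : ∀ Φ : Mat (n + 1) → ℝ, (fun g : SUGroup n => (tr (fun a b g => c * q a b g) g)⁻¹ *
      nsq (fun d a b g => c * G d a b g) g * Φ g.toMatrix) =
      fun g => c * ((tr q g)⁻¹ * nsq G g * Φ g.toMatrix) := by
    intro Φ
    funext g
    rw [dat_tr_smul, dat_nsq_smul, mul_inv]
    rcases hc.eq_or_lt with h0 | h0
    · rw [← h0]
      simp
    · field_simp
  refine ⟨fun a b g hg => ?_, fun a b g hg => ?_, fun a b => ?_, fun d a b g hg h0 => ?_,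
    fun Φ hΦ => ?_, fun Φ hΦ => ?_, fun Φ hΦ => ?_⟩
  · show c * q a b g = c * q b a g
    rw [h.symm a b g hg]
  · rw [dat_tr_smul]
    show |c * q a b g| ≤ _
    rw [abs_mul, abs_of_nonneg hc]
    exact mul_le_mul_of_nonneg_left (h.dom a b g hg) hc
  · exact (h.grad a b).smul c
  · rw [dat_tr_smul] at h0
    show c * G d a b g = 0
    rcases mul_eq_zero.1 h0 with h1 | h1
    · rw [h1, zero_mul]
    · rw [h.zero d a b g hg h1, mul_zero]
  · rw [e1 Φ]
    exact (h.int Φ hΦ).const_mul c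
  · rw [e1 Φ, integral_const_mul]
    have e2 : ∀ d, ∫ g, trG (fun d a b g => c * G d a b g) d g * dX (Xa d) Φ g.toMatrix ∂(mu n) =
        c * ∫ g, trG G d g * dX (Xa d) Φ g.toMatrix ∂(mu n) := by
      intro d
      rw [← integral_const_mul]
      refine integral_congr_ae (Filter.Eventually.of_forall fun g => ?_)
      show trG (fun d a b g => c * G d a b g) d g * dX (Xa d) Φ g.toMatrix =
        c * (trG G d g * dX (Xa d) Φ g.toMatrix)
      rw [dat_trG_smul, mul_assoc]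
    have e3 : ∫ g, tr (fun a b g => c * q a b g) g * Φ g.toMatrix ∂(mu n) =
        c * ∫ g, tr q g * Φ g.toMatrix ∂(mu n) := by
      rw [← integral_const_mul]
      refine integral_congr_ae (Filter.Eventually.of_forall fun g => ?_)
      show tr (fun a b g => c * q a b g) g * Φ g.toMatrix = c * (tr q g * Φ g.toMatrix)
      rw [dat_tr_smul, mul_assoc]
    rw [e3, Finset.sum_congr rfl fun d _ => e2 d, ← Finset.mul_sum]
    refine (mul_le_mul_of_nonneg_left (h.p2 Φ hΦ) hc).trans (le_of_eq ?_)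
    ring
  · rw [Siu_smul_left]
    exact mul_nonneg hc (h.p3 Φ hΦ)

theorem Dat.zero' (hq : ∀ a b, ∀ g ∈ O, q a b g = 0) : Dat O q (fun _ _ _ _ => 0) := by
  have ht : ∀ g ∈ O, tr q g = 0 := fun g hg => Finset.sum_eq_zero fun a _ => hq a a g hg
  have hn : ∀ g : SUGroup n, nsq (fun _ _ _ _ => 0) g = 0 := by
    intro g
    simp [nsq]
  have hz : Wg O (fun _ : SUGroup n => (0 : ℝ)) fun _ _ => 0 := Wg.zero
  refine ⟨fun a b g hg => ?_, fun a b g hg => ?_, fun a b => ?_, fun c a b g hg h0 => rfl,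
    fun Φ hΦ => ?_, fun Φ hΦ => ?_, fun Φ hΦ => ?_⟩
  · rw [hq a b g hg, hq b a g hg]
  · rw [hq a b g hg, ht g hg, abs_zero]
  · refine ⟨continuousOn_const.congr fun g hg => hq a b g hg, hz.meas, fun K hK hKc ε hε => ?_⟩
    obtain ⟨U, h1, h2, h3⟩ := hz.approx K hK hKc ε hε
    refine ⟨U, h1, fun g hg => ?_, h3⟩
    rw [hq a b g (hK hg)]
    exact h2 g hg
  · simp only [hn, mul_zero, zero_mul]
    exact integrable_zero _ _ _
  · have e1 : ∀ g : SUGroup n, tr q g * Φ g.toMatrix = 0 := by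
      intro g
      by_cases hg : g ∈ O
      · rw [ht g hg, zero_mul]
      · rw [dat_off hΦ.toCs hg, mul_zero]
    have e2 : ∀ (c : Ix n) (g : SUGroup n), trG (fun _ _ _ _ => 0) c g = 0 := by
      intro c g
      simp [trG]
    simp only [hn, e1, e2, mul_zero, zero_mul, integral_zero, Finset.sum_const_zero, neg_zero,
      add_zero]
    exact le_refl _
  · have e1 : Siu q Φ = Siu (fun a b g => 0 * q a b g) Φ :=
      Siu_congr hΦ.toCs fun a b g hg => by rw [hq a b g hg, zero_mul]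
    rw [e1, Siu_smul_left, zero_mul]

end Pool.Agent.Lib.MP_5d4057_al.IN.D
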