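import Pool.Agent.Lib.MP_5d4057_al.IN.DCrP
import Pool.Agent.Lib.MP_5d4057_al.IN.DDat
import Pool.Agent.Lib.MP_5d4057_al.IN.DCmpB

/-! INT, part D, file DCrPB: crossing for plurisubharmonic functions. -/

set_option autoImplicit false

namespace Pool.Agent.Lib.MP_5d4057_al.IN.D

open Matrix MeasureTheory Filter Topology Pool.Agent.Lib.MP_5d4057_al
  Pool.Agent.Lib.MP_5d4057_al.Hyb Pool.Agent.Lib.MP_5d4057_al.HM

open scoped ComplexOrder MatrixOrder Matrix.Norms.L2Operator ENNReal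

variable {n : ℕ} {O : Set (SUGroup n)} {Φ Θ : Mat (n + 1) → ℝ}
  {q : Ix n → Ix n → SUGroup n → ℝ} {G : Ix n → Ix n → Ix n → SUGroup n → ℝ}
  {y : SUGroup n → ℝ}

private theorem crpb_q_nonneg (h : Inc O q y) : ∀ c, ∀ g ∈ O, 0 ≤ q c c g := by
  intro c g hg
  refine le_of_forall_pos_le_add fun ε hε => ?_
  obtain ⟨δ, hδ, h1⟩ := h g hg c ε hε
  have h2 := h1.self_of_nhds (δ / 2) (by rw [abs_of_pos (half_pos hδ)]; linarith)
  have h3 : 0 < (δ / 2) ^ 2 := by positivity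
  by_contra hlt
  push Not at hlt
  have h4 := mul_neg_of_neg_of_pos hlt h3
  have h5 := sq_nonneg (y (g * ba c (δ / 2)) - y g)
  linarith

private theorem crpb_cof {S : ℝ → ℝ} (hS : Cof S) (x : ℝ) : 0 ≤ S x ∧ S x ≤ 1 := by
  constructor
  · rw [← hS.zero (min x 1) (min_le_right _ _)]
    exact hS.mono (min_le_left _ _)
  · rw [← hS.one (max x 4) (le_max_right _ _)]
    exact hS.mono (le_max_left _ _)

private theorem crpb_step (hO : IsOpen O) (hq : ∀ a b, ContinuousOn (q a b) O)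
    (hy : ContinuousOn y O) (h0 : ∀ c, ∀ g ∈ O, 0 ≤ q c c g) (h : Inc O q y) (hΦ : Cs O Φ)
    (hΘ : Cs O Θ) (c : Ix n) :
    ∫ g, y g * dX (Xa c) (dX (Xa c) Θ) g.toMatrix ∂(mu n) -
      ∫ g, |Real.sqrt (q c c g) * (dX (Xa c) Φ g.toMatrix - dX (Xa c) Θ g.toMatrix)| ∂(mu n) ≤
      ∫ g, y g * dX (Xa c) (dX (Xa c) Φ) g.toMatrix ∂(mu n) := by
  have h1 := pairing hO hq hy h0 h ((hΦ.sub' hΘ).dX (Xa c)) c
  rw [dX_sub hΦ.smooth hΘ.smooth] at h1
  rw [dX_sub (contDiff_dX hΦ.smooth) (contDiff_dX hΘ.smooth)] at h1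
  have i1 := ((hΦ.dX (Xa c)).dX (Xa c)).integrable_cont hy hO
  have i2 := ((hΘ.dX (Xa c)).dX (Xa c)).integrable_cont hy hO
  have h2 : ∫ g, y g * (dX (Xa c) (dX (Xa c) Φ) g.toMatrix -
      dX (Xa c) (dX (Xa c) Θ) g.toMatrix) ∂(mu n) =
      ∫ g, y g * dX (Xa c) (dX (Xa c) Φ) g.toMatrix ∂(mu n) -
        ∫ g, y g * dX (Xa c) (dX (Xa c) Θ) g.toMatrix ∂(mu n) := by
    rw [← integral_sub i1 i2]
    refine integral_congr_ae (ae_of_all _ fun g => ?_)
    ring
  have h3 : ∫ g, Real.sqrt (q c c g) * |dX (Xa c) Φ g.toMatrix - dX (Xa c) Θ g.toMatrix| ∂(mu n) =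
      ∫ g, |Real.sqrt (q c c g) * (dX (Xa c) Φ g.toMatrix - dX (Xa c) Θ g.toMatrix)| ∂(mu n) := by
    refine integral_congr_ae (ae_of_all _ fun g => ?_)
    simp only
    rw [abs_mul, abs_of_nonneg (Real.sqrt_nonneg _)]
  have h4 : |∫ g, y g * (dX (Xa c) (dX (Xa c) Φ) g.toMatrix -
      dX (Xa c) (dX (Xa c) Θ) g.toMatrix) ∂(mu n)| ≤
      ∫ g, Real.sqrt (q c c g) * |dX (Xa c) Φ g.toMatrix - dX (Xa c) Θ g.toMatrix| ∂(mu n) := h1
  rw [h2, h3] at h4
  have h5 := (abs_le.1 h4).1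
  linarith

/-- the pointwise bound on `O` -/
private theorem crpb_bound {S : ℝ → ℝ} (hS : Cof S) {C : ℝ} (hC : 0 ≤ C)
    (hd : ∀ x, 0 ≤ deriv S x ∧ deriv S x ≤ C ∧ (x < 1 → deriv S x = 0) ∧ (4 < x → deriv S x = 0))
    {e T Q P X w N : ℝ} (he : 0 < e) (hT : 0 ≤ T) (hQ : Q ≤ T) (hP : 0 ≤ P)
    (hN : w ^ 2 ≤ 2 * n * N) :
    |Real.sqrt Q * (X - (X * S (T / e) + P * (deriv S (T / e) / e * w)))| ≤
      |Real.sqrt Q * X| + 2 * C * (P + 2 * n * (T⁻¹ * N * P)) := by
  have hN0 : 0 ≤ 2 * n * N := (sq_nonneg w).trans hN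
  obtain ⟨s0, s1⟩ := crpb_cof hS (T / e)
  obtain ⟨d0, d1, d2, d3⟩ := hd (T / e)
  have hR : 0 ≤ 2 * C * (P + 2 * n * (T⁻¹ * N * P)) := by
    have h1 : 2 * n * (T⁻¹ * N * P) = T⁻¹ * (2 * n * N) * P := by ring
    rw [h1]
    have : 0 ≤ T⁻¹ := inv_nonneg.2 hT
    positivity
  have e1 : Real.sqrt Q * (X - (X * S (T / e) + P * (deriv S (T / e) / e * w))) =
      Real.sqrt Q * X * (1 - S (T / e)) - Real.sqrt Q * P * (deriv S (T / e) / e * w) := by ring
  rw [e1]
  refine (abs_sub _ _).trans (add_le_add ?_ ?_)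
  · rw [abs_mul]
    refine mul_le_of_le_one_right (abs_nonneg _) ?_
    rw [abs_of_nonneg (by linarith)]
    linarith
  · by_cases h1 : T / e < 1
    · rw [d2 h1, zero_div, zero_mul, mul_zero, abs_zero]
      exact hR
    by_cases h2 : 4 < T / e
    · rw [d3 h2, zero_div, zero_mul, mul_zero, abs_zero]
      exact hR
    push Not at h1 h2
    rw [le_div_iff₀ he, one_mul] at h1
    rw [div_le_iff₀ he] at h2
    have hT' : 0 < T := lt_of_lt_of_le he h1
    have hsT : 0 < Real.sqrt T := Real.sqrt_pos.2 hT'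
    have hss : Real.sqrt T * Real.sqrt T = T := Real.mul_self_sqrt hT
    have h3 : Real.sqrt Q ≤ Real.sqrt T := Real.sqrt_le_sqrt hQ
    have h4 : deriv S (T / e) / e ≤ C * (4 / T) := by
      rw [div_le_iff₀ he]
      calc deriv S (T / e) ≤ C * 1 := by rw [mul_one]; exact d1
        _ ≤ C * (4 / T * e) := by
            refine mul_le_mul_of_nonneg_left ?_ hC
            rw [div_mul_eq_mul_div, le_div_iff₀ hT']
            linarith
        _ = C * (4 / T) * e := by ring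
    have h5 : |Real.sqrt Q * P * (deriv S (T / e) / e * w)| =
        Real.sqrt Q * P * (deriv S (T / e) / e * |w|) := by
      rw [abs_mul, abs_mul, abs_mul, abs_of_nonneg (Real.sqrt_nonneg _), abs_of_nonneg hP,
        abs_of_nonneg (div_nonneg d0 he.le)]
    rw [h5]
    have h6 : Real.sqrt Q * P * (deriv S (T / e) / e * |w|) ≤
        Real.sqrt T * P * (C * (4 / T) * |w|) := by
      refine mul_le_mul (mul_le_mul_of_nonneg_right h3 hP)
        (mul_le_mul_of_nonneg_right h4 (abs_nonneg _)) ?_ (by positivity)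
      exact mul_nonneg (div_nonneg d0 he.le) (abs_nonneg _)
    refine h6.trans ?_
    have h7 : Real.sqrt T * P * (C * (4 / T) * |w|) = 4 * C * P * (|w| / Real.sqrt T) := by
      have h10 : Real.sqrt T * (4 / T) = 4 * (1 / Real.sqrt T) := by
        rw [eq_comm, mul_one_div, div_eq_iff hsT.ne']
        calc (4 : ℝ) = 4 / T * T := by rw [div_mul_cancel₀ _ hT'.ne']
          _ = 4 / T * (Real.sqrt T * Real.sqrt T) := by rw [hss]
          _ = Real.sqrt T * (4 / T) * Real.sqrt T := by ring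
      calc Real.sqrt T * P * (C * (4 / T) * |w|) = Real.sqrt T * (4 / T) * (P * C * |w|) := by ring
        _ = 4 * (1 / Real.sqrt T) * (P * C * |w|) := by rw [h10]
        _ = 4 * C * P * (|w| / Real.sqrt T) := by ring
    have h8 : |w| / Real.sqrt T ≤ (1 + T⁻¹ * (2 * n * N)) / 2 := by
      have h9 : (|w| / Real.sqrt T) ^ 2 ≤ T⁻¹ * (2 * n * N) := by
        rw [div_pow, Real.sq_sqrt hT, sq_abs, div_eq_inv_mul]
        exact mul_le_mul_of_nonneg_left hN (inv_nonneg.2 hT)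
      nlinarith [sq_nonneg (|w| / Real.sqrt T - 1)]
    rw [h7]
    calc 4 * C * P * (|w| / Real.sqrt T) ≤ 4 * C * P * ((1 + T⁻¹ * (2 * n * N)) / 2) :=
          mul_le_mul_of_nonneg_left h8 (by positivity)
      _ = 2 * C * (P + 2 * n * (T⁻¹ * N * P)) := by ring

/-- the limit `e → 0` -/
private theorem crpb_lim (hO : IsOpen O) (D : Dat O q G) (hΦ : Tst O Φ) {S : ℝ → ℝ} (hS : Cof S) (c : Ix n) :
    Tendsto (fun m : ℕ => ∫ g, |Real.sqrt (q c c g) * (dX (Xa c) Φ g.toMatrix -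
      (dX (Xa c) Φ g.toMatrix * S (tr q g / (1 / ((m : ℝ) + 1))) + Φ g.toMatrix *
        (deriv S (tr q g / (1 / ((m : ℝ) + 1))) / (1 / ((m : ℝ) + 1)) * trG G c g)))| ∂(mu n))
      atTop (𝓝 0) := by
  obtain ⟨C, hC, hd⟩ := hS.deriv_bound
  have hcT : ContinuousOn (tr q) O := D.wg_tr.cont
  have hcQ : ContinuousOn (fun g => Real.sqrt (q c c g)) O := (D.grad c c).cont.sqrt
  have hoff : ∀ g : SUGroup n, g ∉ O → Φ g.toMatrix = 0 ∧ dX (Xa c) Φ g.toMatrix = 0 := by
    intro g hg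
    exact ⟨image_eq_zero_of_notMem_tsupport fun h => hg (hΦ.sub g h),
      image_eq_zero_of_notMem_tsupport fun h => hg ((hΦ.toCs.dX (Xa c)).sub g h)⟩
  have key := tendsto_integral_of_dominated_convergence (μ := mu n)
    (F := fun (m : ℕ) g => |Real.sqrt (q c c g) * (dX (Xa c) Φ g.toMatrix -
      (dX (Xa c) Φ g.toMatrix * S (tr q g / (1 / ((m : ℝ) + 1))) + Φ g.toMatrix *
        (deriv S (tr q g / (1 / ((m : ℝ) + 1))) / (1 / ((m : ℝ) + 1)) * trG G c g)))|)
    (f := fun _ => (0 : ℝ))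
    (fun g => |Real.sqrt (q c c g) * dX (Xa c) Φ g.toMatrix| +
      2 * C * (Φ g.toMatrix + 2 * n * ((tr q g)⁻¹ * nsq G g * Φ g.toMatrix))) ?_ ?_ ?_ ?_
  · rwa [integral_zero] at key
  · intro m
    have e1 : (fun g => |Real.sqrt (q c c g) * (dX (Xa c) Φ g.toMatrix -
      (dX (Xa c) Φ g.toMatrix * S (tr q g / (1 / ((m : ℝ) + 1))) + Φ g.toMatrix *
        (deriv S (tr q g / (1 / ((m : ℝ) + 1))) / (1 / ((m : ℝ) + 1)) * trG G c g)))|) =
        O.indicator (fun g => |Real.sqrt (q c c g) * (dX (Xa c) Φ g.toMatrix -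
      (dX (Xa c) Φ g.toMatrix * S (tr q g / (1 / ((m : ℝ) + 1))) + Φ g.toMatrix *
        (deriv S (tr q g / (1 / ((m : ℝ) + 1))) / (1 / ((m : ℝ) + 1)) * trG G c g)))|) := by
      funext g
      by_cases hg : g ∈ O
      · rw [Set.indicator_of_mem hg]
      · rw [Set.indicator_of_notMem hg, (hoff g hg).1, (hoff g hg).2]
        simp
    rw [e1, aestronglyMeasurable_indicator_iff hO.measurableSet]
    have a1 : AEStronglyMeasurable (fun g => Real.sqrt (q c c g)) ((mu n).restrict O) :=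
      hcQ.aestronglyMeasurable hO.measurableSet
    have a2 : AEStronglyMeasurable (fun g : SUGroup n => dX (Xa c) Φ g.toMatrix)
        ((mu n).restrict O) :=
      ((contDiff_dX hΦ.smooth).continuous.comp (continuous_toMatrix n)).aestronglyMeasurable
    have a3 : AEStronglyMeasurable (fun g : SUGroup n => Φ g.toMatrix) ((mu n).restrict O) :=
      (hΦ.smooth.continuous.comp (continuous_toMatrix n)).aestronglyMeasurable
    have a4 : AEStronglyMeasurable (fun g => S (tr q g / (1 / ((m : ℝ) + 1))))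
        ((mu n).restrict O) :=
      (hS.smooth.continuous.comp_continuousOn (hcT.div_const _)).aestronglyMeasurable
        hO.measurableSet
    have a5 : AEStronglyMeasurable (fun g => deriv S (tr q g / (1 / ((m : ℝ) + 1))))
        ((mu n).restrict O) :=
      ((hS.smooth.continuous_deriv (by simp)).comp_continuousOn
        (hcT.div_const _)).aestronglyMeasurable hO.measurableSet
    have a6 : AEStronglyMeasurable (trG G c) ((mu n).restrict O) := D.wg_tr.meas c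
    exact (a1.mul (a2.sub ((a2.mul a4).add (a3.mul ((a5.mul (aestronglyMeasurable_const (b := (1 / ((m : ℝ) + 1))⁻¹))).mul a6))))).norm
  · have b1 : Integrable (fun g => |Real.sqrt (q c c g) * dX (Xa c) Φ g.toMatrix|) (mu n) :=
      ((hΦ.toCs.dX (Xa c)).integrable_cont hcQ hO).abs
    have b2 : Integrable (fun g : SUGroup n => Φ g.toMatrix) (mu n) := by
      have := hΦ.toCs.integrable_cont (continuousOn_const (c := (1 : ℝ))) hO
      simpa using this
    exact b1.add ((b2.add ((D.int Φ hΦ).const_mul _)).const_mul _)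
  · intro m
    refine ae_of_all _ fun g => ?_
    rw [Real.norm_eq_abs, abs_abs]
    by_cases hg : g ∈ O
    · have h1 := (abs_le.1 (D.dom c c g hg)).2
      refine crpb_bound hS hC hd (by positivity) (D.tr_nonneg hg) h1 (hΦ.nonneg g) ?_
      refine le_trans ?_ (trG_sq_le G g)
      exact Finset.single_le_sum (f := fun c => trG G c g ^ 2) (fun _ _ => sq_nonneg _)
        (Finset.mem_univ c)
    · rw [(hoff g hg).1, (hoff g hg).2]
      simp
  · refine ae_of_all _ fun g => ?_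
    refine tendsto_const_nhds.congr' ?_
    by_cases hg : g ∈ O
    · rcases (D.tr_nonneg hg).eq_or_lt with hT | hT
      · refine Eventually.of_forall fun m => ?_
        have h1 := D.dom c c g hg
        rw [← hT] at h1
        have h2 : q c c g = 0 := abs_nonpos_iff.1 h1
        simp only
        rw [h2, Real.sqrt_zero, zero_mul, abs_zero]
      · obtain ⟨m₀, hm₀⟩ := exists_nat_gt (4 / tr q g)
        filter_upwards [eventually_ge_atTop m₀] with m hm
        have h1 : 4 < tr q g / (1 / ((m : ℝ) + 1)) := by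
          rw [div_div_eq_mul_div, div_one]
          rw [div_lt_iff₀ hT] at hm₀
          have h2 : (m₀ : ℝ) ≤ m := by exact_mod_cast hm
          nlinarith
        rw [hS.one _ h1.le, (hd _).2.2.2 h1]
        simp
    · refine Eventually.of_forall fun m => ?_
      simp only
      rw [(hoff g hg).1, (hoff g hg).2]
      simp

/-- **Crossing for plurisubharmonic functions.** `G` is the extended gradient (`Crs.dat'`). PROOF: `Φ` in
`Tst O`, `j`; `S` a cut-off, `Ψ k` from `test_comp_int` for `u = T = tr q`, gradient `trG G`, `e > 0`.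
`0 ≤ ∫ y (X_j² + X_j'²) Ψ_k` (`hp`), so `∫ y (X_j² + X_j'²) Φ ≥ ∫ y (X_j² + X_j'²)(Φ - Ψ_k) ≥
- Σ_{c = j, j'} ∫ sqrt(q_cc) |X_c(Φ - Ψ_k)|` (`pairing` with `Θ = dX (Xa c) (Φ - Ψ_k)`). As `k → ∞` the
last integral tends to `∫ sqrt(q_cc) |X_cΦ (1 - S) - Φ S' / e trG_c| ≤ ∫_{T ≤ 4 e} 2 sqrt(e) |X_cΦ| +
C ∫_{0 < T ≤ 4 e} Φ T^{-1/2} |trG_c|` (`sqrt(q_cc) ≤ sqrt T`, `sqrt T / e ≤ 4 / sqrt T` where
`T ≤ 4 e`), which tends to `0` as `e → 0` because
`T^{-1/2} |trG_c| Φ ≤ T⁻¹ trG_c² Φ + Φ` is integrable (`D.int`, `trG_sq_le`). -/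
theorem pw_cross (hO : IsOpen O) (D : Dat O q G) (hy : ContinuousOn y O) (h : Inc O q y)
    (hp : PW (Ps O (tr q)) y) : PW O y := by
  intro Φ hΦ j
  have hq : ∀ a b, ContinuousOn (q a b) O := fun a b => (D.grad a b).cont
  have h0 := crpb_q_nonneg h
  obtain ⟨S, hS⟩ := exists_cof
  have hadd : ∀ Ψ, Cs O Ψ → ∫ g, y g * (dX (Xa (j, false)) (dX (Xa (j, false)) Ψ) g.toMatrix +
      dX (Xa (j, true)) (dX (Xa (j, true)) Ψ) g.toMatrix) ∂(mu n) =
      ∫ g, y g * dX (Xa (j, false)) (dX (Xa (j, false)) Ψ) g.toMatrix ∂(mu n) +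
        ∫ g, y g * dX (Xa (j, true)) (dX (Xa (j, true)) Ψ) g.toMatrix ∂(mu n) := by
    intro Ψ hΨ
    rw [← integral_add ((hΨ.dX _).dX _ |>.integrable_cont hy hO)
      ((hΨ.dX _).dX _ |>.integrable_cont hy hO)]
    refine integral_congr_ae (ae_of_all _ fun g => ?_)
    ring
  have hlim := ((crpb_lim hO D hΦ hS (j, false)).add (crpb_lim hO D hΦ hS (j, true))).neg
  rw [add_zero, neg_zero] at hlim
  refine le_of_tendsto hlim (Eventually.of_forall fun m => ?_)
  have he : 0 < 1 / ((m : ℝ) + 1) := by positivity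
  obtain ⟨Ψ, hΨ, -, -, hB⟩ := test_comp_int hO D.wg_tr.cont (D.wg_tr.mono Set.inter_subset_left)
    hS hΦ he
  have t1 := hB (j, false) (fun g => Real.sqrt (q (j, false) (j, false) g))
    (D.grad _ _).cont.sqrt
  have t2 := hB (j, true) (fun g => Real.sqrt (q (j, true) (j, true) g))
    (D.grad _ _).cont.sqrt
  refine le_of_tendsto (t1.add t2).neg (Eventually.of_forall fun k => ?_)
  have hΨO : Cs O (Ψ k) := ((hΨ k).mono Set.inter_subset_left).toCs
  have s1 := crpb_step hO hq hy h0 h hΦ.toCs hΨO (j, false)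
  have s2 := crpb_step hO hq hy h0 h hΦ.toCs hΨO (j, true)
  have s3 := hp (Ψ k) (hΨ k) j
  rw [hadd (Ψ k) hΨO] at s3
  rw [hadd Φ hΦ.toCs]
  linarith

end Pool.Agent.Lib.MP_5d4057_al.IN.D
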