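import Pool.Agent.Lib.MP_5d4057_al.IN.DTst

/-! INT, part D, file DInt: integration of test functions. -/

set_option autoImplicit false

namespace Pool.Agent.Lib.MP_5d4057_al.IN.D

open Matrix MeasureTheory Filter Topology Pool.Agent.Lib.MP_5d4057_al
  Pool.Agent.Lib.MP_5d4057_al.Hyb Pool.Agent.Lib.MP_5d4057_al.HM

open scoped ComplexOrder MatrixOrder Matrix.Norms.L2Operator ENNReal

variable {n : ℕ} {O O' : Set (SUGroup n)} {Φ Ψ F : Mat (n + 1) → ℝ} {X Y : Mat (n + 1)}

/-- Taylor's inequality on a line. -/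
private theorem taylor_le {f f' f'' : ℝ → ℝ} {B : ℝ} (h1 : ∀ t, HasDerivAt f (f' t) t)
    (h2 : ∀ t, HasDerivAt f' (f'' t) t) (hB : ∀ t, f'' t ≤ B) (t : ℝ) :
    f t ≤ f 0 + f' 0 * t + B * t ^ 2 / 2 := by
  have d1 : ∀ s, HasDerivAt (fun s => f 0 + f' 0 * s + B * s ^ 2 / 2 - f s)
      (f' 0 + B * s - f' s) s := by
    intro s
    have a := ((((hasDerivAt_id s).const_mul (f' 0)).const_add (f 0)).add
      ((((hasDerivAt_id s).pow 2).const_mul B).div_const 2)).sub (h1 s)
    refine a.congr_deriv ?_
    simp only [id, mul_one, Nat.cast_ofNat]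
    ring
  have d2 : ∀ s, HasDerivAt (fun s => f' 0 + B * s - f' s) (B - f'' s) s := by
    intro s
    have a := (((hasDerivAt_id s).const_mul B).const_add (f' 0)).sub (h2 s)
    exact a.congr_deriv (by rw [mul_one])
  have hm : Monotone (fun s => f' 0 + B * s - f' s) :=
    monotone_of_deriv_nonneg (fun s => (d2 s).differentiableAt) fun s => by
      rw [(d2 s).deriv]
      linarith [hB s]
  have key : (0 : ℝ) ≤ f 0 + f' 0 * t + B * t ^ 2 / 2 - f t := by
    rcases le_total 0 t with ht | ht
    · have h3 : MonotoneOn (fun s => f 0 + f' 0 * s + B * s ^ 2 / 2 - f s) (Set.Ici 0) := by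
        refine monotoneOn_of_deriv_nonneg (convex_Ici 0)
          (fun s _ => (d1 s).continuousAt.continuousWithinAt)
          (fun s _ => (d1 s).differentiableAt.differentiableWithinAt) fun s hs => ?_
        rw [(d1 s).deriv]
        rw [interior_Ici] at hs
        have h4 := hm (le_of_lt hs)
        simp only [mul_zero, add_zero, sub_self] at h4
        exact h4
      have h5 := h3 (Set.mem_Ici.2 le_rfl) (Set.mem_Ici.2 ht) ht
      simp only [mul_zero, add_zero] at h5
      norm_num at h5
      linarith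
    · have h3 : AntitoneOn (fun s => f 0 + f' 0 * s + B * s ^ 2 / 2 - f s) (Set.Iic 0) := by
        refine antitoneOn_of_deriv_nonpos (convex_Iic 0)
          (fun s _ => (d1 s).continuousAt.continuousWithinAt)
          (fun s _ => (d1 s).differentiableAt.differentiableWithinAt) fun s hs => ?_
        rw [(d1 s).deriv]
        rw [interior_Iic] at hs
        have h4 := hm (le_of_lt hs)
        simp only [mul_zero, add_zero, sub_self] at h4
        exact h4
      have h5 := h3 (Set.mem_Iic.2 ht) (Set.mem_Iic.2 le_rfl) ht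
      simp only [mul_zero, add_zero] at h5
      norm_num at h5
      linarith
  linarith

/-- A nonnegative function of class `C²` with bounded second derivative on a line: `f'² ≤ 2 C f`;
apply it to `t ↦ Φ (g * ba c t)`, the second derivative `dX (dX Φ)` is bounded. -/
theorem Tst.sqrt (h : Tst O Φ) (c : Ix n) :
    ∃ C : ℝ, 0 ≤ C ∧ ∀ g : SUGroup n, dX (Xa c) Φ g.toMatrix ^ 2 ≤ C * Φ g.toMatrix := by
  have h1 := h.toCs.dX (Xa c)
  have h2 := h1.dX (Xa c)
  obtain ⟨B₀, hB₀⟩ := h2.supp.exists_bound_of_continuous h2.smooth.continuous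
  obtain ⟨B, hB, hBpos⟩ : ∃ B : ℝ, (∀ M, dX (Xa c) (dX (Xa c) Φ) M ≤ B) ∧ 0 < B :=
    ⟨max B₀ 1, fun M => (le_abs_self _).trans ((hB₀ M).trans (le_max_left _ _)),
      lt_of_lt_of_le one_pos (le_max_right _ _)⟩
  refine ⟨2 * B, by positivity, fun g => ?_⟩
  have key := taylor_le (f := fun t => Φ (g * ba c t).toMatrix)
    (f' := fun t => dX (Xa c) Φ (g * ba c t).toMatrix)
    (f'' := fun t => dX (Xa c) (dX (Xa c) Φ) (g * ba c t).toMatrix) (B := B)
    (fun t => hasDerivAt_dX h.smooth c g t) (fun t => hasDerivAt_dX h1.smooth c g t)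
    (fun t => hB _) (-(dX (Xa c) Φ g.toMatrix / B))
  have hn := h.nonneg (g * ba c (-(dX (Xa c) Φ g.toMatrix / B)))
  simp only [ba_zero, mul_one] at key
  have h3 := hn.trans key
  have h4 : Φ g.toMatrix + dX (Xa c) Φ g.toMatrix * -(dX (Xa c) Φ g.toMatrix / B) +
      B * (-(dX (Xa c) Φ g.toMatrix / B)) ^ 2 / 2 =
      Φ g.toMatrix - dX (Xa c) Φ g.toMatrix ^ 2 / (2 * B) := by
    field_simp
    ring
  rw [h4, sub_nonneg, div_le_iff₀ (by positivity)] at h3
  linarith

/-! ### integration -/

private theorem Cs.zero_of {g : SUGroup n} (hg : g.toMatrix ∉ tsupport Φ) : Φ g.toMatrix = 0 :=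
  image_eq_zero_of_notMem_tsupport hg

/-- `u` is locally integrable on `O`. PROOF: `Φ` is bounded and vanishes off a compact subset of `O`. -/
theorem Cs.integrable (h : Cs O Φ) {u : SUGroup n → ℝ} (hu : LocallyIntegrableOn u O (mu n))
    (hO : IsOpen O) : Integrable (fun g => u g * Φ g.toMatrix) (mu n) := by
  have _ := hO
  obtain ⟨B, hB⟩ := h.supp.exists_bound_of_continuous h.smooth.continuous
  have hK := h.compact
  have h1 : IntegrableOn u {g : SUGroup n | g.toMatrix ∈ tsupport Φ} (mu n) :=
    hu.integrableOn_compact_subset (fun g hg => h.sub g hg) hK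
  rw [← integrableOn_iff_integrable_of_support_subset
    (s := {g : SUGroup n | g.toMatrix ∈ tsupport Φ})]
  · have hc : Continuous fun g : SUGroup n => Φ g.toMatrix :=
      h.smooth.continuous.comp (continuous_toMatrix n)
    exact h1.mul_bdd hc.aestronglyMeasurable (Eventually.of_forall fun g => hB _)
  · intro g hg
    by_contra hg'
    exact hg (by simp only [Cs.zero_of hg', mul_zero])

theorem Cs.integrable_cont (h : Cs O Φ) {u : SUGroup n → ℝ} (hu : ContinuousOn u O)
    (hO : IsOpen O) : Integrable (fun g => u g * Φ g.toMatrix) (mu n) :=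
  h.integrable (hu.locallyIntegrableOn hO.measurableSet) hO

private theorem continuous_mul_cs (hO : IsOpen O) {u : SUGroup n → ℝ} (hu : ContinuousOn u O)
    (hΦ : Cs O Φ) : Continuous fun g : SUGroup n => u g * Φ g.toMatrix := by
  have hc : Continuous fun g : SUGroup n => Φ g.toMatrix :=
    hΦ.smooth.continuous.comp (continuous_toMatrix n)
  rw [continuous_iff_continuousAt]
  intro g
  by_cases hg : g.toMatrix ∈ tsupport Φ
  · exact (hu.continuousAt (hO.mem_nhds (hΦ.sub g hg))).mul hc.continuousAt
  · have hopen : IsOpen {x : SUGroup n | x.toMatrix ∈ tsupport Φ}ᶜ :=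
      ((isClosed_tsupport Φ).preimage (continuous_toMatrix n)).isOpen_compl
    have h1 : (fun x : SUGroup n => u x * Φ x.toMatrix) =ᶠ[𝓝 g] fun _ => 0 := by
      filter_upwards [hopen.mem_nhds hg] with x hx
      rw [Cs.zero_of hx, mul_zero]
    exact (continuousAt_const (y := (0 : ℝ))).congr h1.symm

/-- Integration by parts for functions on the group with a continuous derivative. PROOF: `integral_flow`
for `Ψ g = u g * Φ g`, `Ψ' g = u' g * Φ g + u g * dX Φ g`, continuous on the whole group because `Φ`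
has compact support in `O`. -/
theorem ibp (hO : IsOpen O) {c : Ix n} {u u' : SUGroup n → ℝ} (hu : ContinuousOn u O)
    (hu' : ContinuousOn u' O) (hd : ∀ g ∈ O, HasDerivAt (fun t => u (g * ba c t)) (u' g) 0)
    (hΦ : Cs O Φ) : ∫ g, u g * dX (Xa c) Φ g.toMatrix ∂(mu n) =
      -∫ g, u' g * Φ g.toMatrix ∂(mu n) := by
  have hD := hΦ.dX (Xa c)
  have i1 := hΦ.integrable_cont hu' hO
  have i2 := hD.integrable_cont hu hO
  have hmain := integral_flow (b := ba c) (Ψ := fun g : SUGroup n => u g * Φ g.toMatrix)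
    (Ψ' := fun g : SUGroup n => u' g * Φ g.toMatrix + u g * dX (Xa c) Φ g.toMatrix)
    (ba_zero c) (ba_add c) (continuous_ba c)
    ((continuous_mul_cs hO hu' hΦ).add (continuous_mul_cs hO hu hD)) ?_
    (hΦ.integrable_cont hu hO) (i1.add i2)
  · rw [integral_add i1 i2] at hmain
    linarith
  · intro g t
    by_cases hg : (g * ba c t).toMatrix ∈ tsupport Φ
    · have e1 := hd _ (hΦ.sub _ hg)
      have e2 : HasDerivAt (fun s => u (g * ba c s)) (u' (g * ba c t)) t := by
        have e3 : HasDerivAt (fun s => u (g * ba c t * ba c (s - t))) (u' (g * ba c t)) t := by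
          have e4 := HasDerivAt.comp_sub_const (f := fun s => u (g * ba c t * ba c s))
            (f' := u' (g * ba c t)) t t (by rw [sub_self]; exact e1)
          exact e4
        refine e3.congr_of_eventuallyEq (Eventually.of_forall fun s => ?_)
        show u (g * ba c s) = u (g * ba c t * ba c (s - t))
        rw [mul_assoc, ← ba_add, add_sub_cancel]
      exact e2.mul (hasDerivAt_dX hΦ.smooth c g t)
    · have hopen : IsOpen {x : SUGroup n | x.toMatrix ∈ tsupport Φ}ᶜ :=
        ((isClosed_tsupport Φ).preimage (continuous_toMatrix n)).isOpen_compl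
      have hcb : Continuous fun s : ℝ => g * ba c s := continuous_const.mul (continuous_ba c)
      have h1 : (fun s : ℝ => u (g * ba c s) * Φ (g * ba c s).toMatrix) =ᶠ[𝓝 t] fun _ => 0 := by
        filter_upwards [hcb.continuousAt.preimage_mem_nhds (hopen.mem_nhds hg)] with s hs
        rw [Cs.zero_of hs, mul_zero]
      have h2 : dX (Xa c) Φ (g * ba c t).toMatrix = 0 := by
        have h3 : Φ =ᶠ[𝓝 (g * ba c t).toMatrix] 0 :=
          notMem_tsupport_iff_eventuallyEq.1 hg
        show fderiv ℝ Φ (g * ba c t).toMatrix _ = 0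
        rw [h3.fderiv_eq]
        simp
      rw [Cs.zero_of hg, h2, mul_zero, mul_zero, add_zero]
      exact (hasDerivAt_const t (0 : ℝ)).congr_of_eventuallyEq h1

theorem integral_dX (hΦ : Cs O Φ) (c : Ix n) :
    ∫ g : SUGroup n, dX (Xa c) Φ g.toMatrix ∂(mu n) = 0 := by
  have h := ibp (O := Set.univ) isOpen_univ (c := c) (u := fun _ => 1) (u' := fun _ => 0)
    continuousOn_const continuousOn_const (fun g _ => hasDerivAt_const _ _)
    (hΦ.mono (Set.subset_univ O))
  simpa using h

end Pool.Agent.Lib.MP_5d4057_al.IN.D
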