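import Pool.Agent.Lib.MP_5d4057_al.IN.DDat
import Pool.Agent.Lib.MP_5d4057_al.IN.DCmpB
import Pool.Agent.Lib.MP_5d4057_al.IN.DInt
import Pool.Agent.Lib.MP_5d4057_al.IN.DBmp

/-! INT, part D, file DCrs: crossing the zero set of the energy. -/

set_option autoImplicit false

namespace Pool.Agent.Lib.MP_5d4057_al.IN.D

open Matrix MeasureTheory Filter Topology Pool.Agent.Lib.MP_5d4057_al
  Pool.Agent.Lib.MP_5d4057_al.Hyb Pool.Agent.Lib.MP_5d4057_al.HM

open scoped ComplexOrder MatrixOrder Matrix.Norms.L2Operator ENNReal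

variable {n : ℕ} {O : Set (SUGroup n)} {Φ : Mat (n + 1) → ℝ}
  {q : Ix n → Ix n → SUGroup n → ℝ} {G : Ix n → Ix n → Ix n → SUGroup n → ℝ}

/-- The hypotheses of the crossing theorem. -/
structure Crs (O : Set (SUGroup n)) (q : Ix n → Ix n → SUGroup n → ℝ)
    (G : Ix n → Ix n → Ix n → SUGroup n → ℝ) : Prop where
  isOpen : IsOpen O
  cont : ∀ a b, ContinuousOn (q a b) O
  symm : ∀ a b, ∀ g ∈ O, q a b g = q b a g
  dom : ∀ a b, ∀ g ∈ O, |q a b g| ≤ tr q g
  dat : Dat (Ps O (tr q)) q G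

/-- The gradient extended by zero. -/
noncomputable def Gz (O : Set (SUGroup n)) (q : Ix n → Ix n → SUGroup n → ℝ)
    (G : Ix n → Ix n → Ix n → SUGroup n → ℝ) (c a b : Ix n) (g : SUGroup n) : ℝ :=
  (Ps O (tr q)).indicator (G c a b) g

private theorem crs_nonneg (h : Crs O q G) {g : SUGroup n} (hg : g ∈ O) : 0 ≤ tr q g := by
  rcases isEmpty_or_nonempty (Ix n) with hE | ⟨⟨a⟩⟩
  · rw [tr, Finset.univ_eq_empty, Finset.sum_empty]
  · exact (abs_nonneg _).trans (h.dom a a g hg)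

private theorem crs_cont (h : Crs O q G) : ContinuousOn (tr q) O :=
  continuousOn_finsetSum _ fun a _ => h.cont a a

private theorem crs_dX_zero {X M : Mat (n + 1)} (hM : M ∉ tsupport Φ) : dX X Φ M = 0 := by
  have h1 : fderiv ℝ Φ M = 0 := by
    by_contra hne
    exact hM (support_fderiv_subset ℝ hne)
  rw [dX, h1]
  rfl

private theorem crs_cof {S : ℝ → ℝ} (hS : Cof S) (x : ℝ) : 0 ≤ S x ∧ S x ≤ 1 := by
  constructor
  · rw [← hS.zero (min x 1) (min_le_right _ _)]
    exact hS.mono (min_le_left _ _)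
  · rw [← hS.one (max x 4) (le_max_right _ _)]
    exact hS.mono (le_max_left _ _)

private theorem crs_locsq (h : Crs O q G) {K : Set (SUGroup n)} (hK : IsCompact K)
    (hKP : K ⊆ Ps O (tr q)) : IntegrableOn (nsq G) K (mu n) := by
  refine integrable_finsetSum _ fun c _ => integrable_finsetSum _ fun a _ =>
    integrable_finsetSum _ fun b _ => ?_
  exact ((h.dat.grad a b).memLp hK hKP c).integrable_sq

private theorem crs_cont_inv (h : Crs O q G) {K : Set (SUGroup n)}
    (hKP : K ⊆ Ps O (tr q)) : ContinuousOn (fun g => (tr q g)⁻¹) K :=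
  ((crs_cont h).mono fun _ hg => (hKP hg).1).inv₀ fun _ hg => (hKP hg).2.ne'

private theorem crs_locint (h : Crs O q G) :
    LocallyIntegrableOn (fun g => (tr q g)⁻¹ * nsq G g) (Ps O (tr q)) (mu n) := by
  have hP : IsOpen (Ps O (tr q)) := isOpen_Ps h.isOpen (crs_cont h)
  rw [locallyIntegrableOn_iff hP.isLocallyClosed]
  intro K hKP hK
  exact (crs_locsq h hK hKP).continuousOn_mul (crs_cont_inv h hKP) hK

private theorem crs_off {S : ℝ → ℝ} (hS : Cof S) {e : ℝ} (he : 0 < e)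
    {g : SUGroup n} (hg : g ∉ Kc Φ (tr q) e) : g.toMatrix ∉ tsupport Φ ∨ S (tr q g / e) = 0 := by
  by_cases h1 : g.toMatrix ∈ tsupport Φ
  · right
    refine hS.zero _ ?_
    have h2 : ¬ e / 2 ≤ tr q g := fun h3 => hg ⟨h1, h3⟩
    rw [div_le_one he]
    linarith
  · exact Or.inl h1

private theorem crs_phi_zero {M : Mat (n + 1)} (hM : M ∉ tsupport Φ) : Φ M = 0 :=
  image_eq_zero_of_notMem_tsupport hM

private theorem crs_contS (h : Crs O q G) {S : ℝ → ℝ} (hS : Cof S) (e : ℝ) :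
    ContinuousOn (fun g => S (tr q g / e)) O :=
  hS.smooth.continuous.comp_continuousOn ((crs_cont h).div_const e)

private theorem crs_contPhi (hΦ : Tst O Φ) : Continuous fun g : SUGroup n => Φ g.toMatrix :=
  hΦ.smooth.continuous.comp (continuous_toMatrix n)

private theorem crs_intA (h : Crs O q G) {S : ℝ → ℝ} (hS : Cof S) (hΦ : Tst O Φ) {e : ℝ}
    (he : 0 < e) (c : Ix n) :
    Integrable (fun g => trG G c g * (dX (Xa c) Φ g.toMatrix * S (tr q g / e))) (mu n) := by
  obtain ⟨hK, hKP⟩ := Kc_compact hΦ.toCs (crs_cont h) he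
  have : IsFiniteMeasure ((mu n).restrict (Kc Φ (tr q) e)) :=
    isFiniteMeasure_restrict.2 hK.measure_lt_top.ne
  have h1 : IntegrableOn (trG G c) (Kc Φ (tr q) e) (mu n) :=
    (h.dat.wg_tr.memLp hK hKP c).integrable one_le_two
  have h2 : ContinuousOn (fun g : SUGroup n => dX (Xa c) Φ g.toMatrix * S (tr q g / e))
      (Kc Φ (tr q) e) :=
    ((contDiff_dX hΦ.smooth).continuous.comp (continuous_toMatrix n)).continuousOn.mul
      ((crs_contS h hS e).mono fun g hg => (hKP hg).1)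
  refine (h1.mul_continuousOn h2 hK).integrable_of_forall_notMem_eq_zero fun g hg => ?_
  rcases crs_off hS he hg with h3 | h3
  · rw [crs_dX_zero h3]
    ring
  · rw [h3]
    ring

private theorem crs_intB (h : Crs O q G) {S : ℝ → ℝ} (hS : Cof S) (hΦ : Tst O Φ) {e : ℝ}
    (he : 0 < e) (c : Ix n) :
    Integrable (fun g => trG G c g ^ 2 * (Φ g.toMatrix * (deriv S (tr q g / e) / e))) (mu n) := by
  obtain ⟨hK, hKP⟩ := Kc_compact hΦ.toCs (crs_cont h) he
  have h1 : IntegrableOn (fun g => trG G c g ^ 2) (Kc Φ (tr q) e) (mu n) :=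
    (h.dat.wg_tr.memLp hK hKP c).integrable_sq
  have h2 : ContinuousOn (fun g : SUGroup n => Φ g.toMatrix * (deriv S (tr q g / e) / e))
      (Kc Φ (tr q) e) :=
    (crs_contPhi hΦ).continuousOn.mul
      ((((hS.smooth.continuous_deriv (by simp)).comp_continuousOn
        ((crs_cont h).div_const e)).div_const e).mono fun g hg => (hKP hg).1)
  refine (h1.mul_continuousOn h2 hK).integrable_of_forall_notMem_eq_zero fun g hg => ?_
  obtain ⟨C, -, hC⟩ := hS.deriv_bound
  by_cases h3 : g.toMatrix ∈ tsupport Φ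
  · have h4 : ¬ e / 2 ≤ tr q g := fun h5 => hg ⟨h3, h5⟩
    have h5 : tr q g / e < 1 := by
      rw [div_lt_one he]
      linarith
    rw [(hC _).2.2.1 h5]
    ring
  · rw [crs_phi_zero h3]
    ring

private theorem crs_intF (h : Crs O q G) {S : ℝ → ℝ} (hS : Cof S) (hΦ : Tst O Φ) {e : ℝ}
    (he : 0 < e) :
    Integrable (fun g => (tr q g)⁻¹ * nsq G g * (Φ g.toMatrix * S (tr q g / e))) (mu n) := by
  obtain ⟨hK, hKP⟩ := Kc_compact hΦ.toCs (crs_cont h) he
  have h1 := (crs_locint h).integrableOn_compact_subset hKP hK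
  have h2 : ContinuousOn (fun g : SUGroup n => Φ g.toMatrix * S (tr q g / e))
      (Kc Φ (tr q) e) :=
    (crs_contPhi hΦ).continuousOn.mul ((crs_contS h hS e).mono fun g hg => (hKP hg).1)
  refine (h1.mul_continuousOn h2 hK).integrable_of_forall_notMem_eq_zero fun g hg => ?_
  rcases crs_off hS he hg with h3 | h3
  · rw [crs_phi_zero h3]
    ring
  · rw [h3]
    ring

private theorem crs_trnn (h : Crs O q G) {g : SUGroup n} (hΦ : Tst O Φ) :
    0 ≤ tr q g * Φ g.toMatrix := by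
  by_cases h3 : g.toMatrix ∈ tsupport Φ
  · exact mul_nonneg (crs_nonneg h (hΦ.sub g h3)) (hΦ.nonneg g)
  · rw [crs_phi_zero h3]
    simp

/-- `(P2)` for the test function `Φ * S (T / e)`, `T = tr q`. PROOF: `p2` for the functions `Ψ k` of
`test_comp_int` (with `u = T`, gradient `trG G`), limit; the term with `S'` is `≤ 0` and is dropped.
The integrals are over the group; the integrands vanish where `T ≤ e`. -/
theorem Crs.p2_cut (h : Crs O q G) {S : ℝ → ℝ} (hS : Cof S) (hΦ : Tst O Φ) {e : ℝ} (he : 0 < e) :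
    ∫ g, (tr q g)⁻¹ * nsq G g * (Φ g.toMatrix * S (tr q g / e)) ∂(mu n) ≤
      -(2 * ∑ c, ∫ g, trG G c g * (dX (Xa c) Φ g.toMatrix * S (tr q g / e)) ∂(mu n)) +
        (8 * n + 8) * ∫ g, tr q g * (Φ g.toMatrix * S (tr q g / e)) ∂(mu n) := by
  have hT := crs_cont h
  have hW := h.dat.wg_tr
  have hP : IsOpen (Ps O (tr q)) := isOpen_Ps h.isOpen hT
  obtain ⟨Ψ, hΨ, hB0, hB1, -⟩ := test_comp_int h.isOpen hT hW hS hΦ he
  have h1 := hB0 _ (crs_locint h)
  have h2 : ∀ c, _ := fun c => hB1 c (trG G c) fun K hKP hK => hW.memLp hK hKP c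
  have h3 := hB0 (tr q)
    ((hT.mono fun g hg => hg.1).locallyIntegrableOn hP.measurableSet)
  have h4 : ∀ c, ∫ g, trG G c g * (dX (Xa c) Φ g.toMatrix * S (tr q g / e)) ∂(mu n) ≤
      ∫ g, trG G c g * (dX (Xa c) Φ g.toMatrix * S (tr q g / e) +
        Φ g.toMatrix * (deriv S (tr q g / e) / e * trG G c g)) ∂(mu n) := by
    intro c
    have e1 : ∀ g, trG G c g * (dX (Xa c) Φ g.toMatrix * S (tr q g / e) +
        Φ g.toMatrix * (deriv S (tr q g / e) / e * trG G c g)) =
        trG G c g * (dX (Xa c) Φ g.toMatrix * S (tr q g / e)) +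
          trG G c g ^ 2 * (Φ g.toMatrix * (deriv S (tr q g / e) / e)) := fun g => by ring
    simp_rw [e1]
    refine integral_mono (crs_intA h hS hΦ he c)
      ((crs_intA h hS hΦ he c).add (crs_intB h hS hΦ he c)) fun g => ?_
    obtain ⟨C, -, hC⟩ := hS.deriv_bound
    exact le_add_of_nonneg_right (mul_nonneg (sq_nonneg _) (mul_nonneg (hΦ.nonneg g)
      (div_nonneg (hC _).1 he.le)))
  have h5 := le_of_tendsto_of_tendsto' h1
    (((tendsto_finsetSum Finset.univ fun c _ => h2 c).const_mul 2).neg.add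
      (h3.const_mul (8 * (n : ℝ) + 8))) fun k => h.dat.p2 (Ψ k) (hΨ k)
  refine h5.trans ?_
  have h6 := Finset.sum_le_sum fun (c : Ix n) (_ : c ∈ Finset.univ) => h4 c
  linarith

private theorem crs_nsq_nonneg (G : Ix n → Ix n → Ix n → SUGroup n → ℝ) (g : SUGroup n) :
    0 ≤ nsq G g :=
  Finset.sum_nonneg fun _ _ => Finset.sum_nonneg fun _ _ => Finset.sum_nonneg fun _ _ => sq_nonneg _

private theorem crs_le_nsq (G : Ix n → Ix n → Ix n → SUGroup n → ℝ) (c a b : Ix n)
    (g : SUGroup n) : G c a b g ^ 2 ≤ nsq G g := by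
  have h1 := Finset.single_le_sum (f := fun c => ∑ a, ∑ b, G c a b g ^ 2)
    (fun _ _ => Finset.sum_nonneg fun _ _ => Finset.sum_nonneg fun _ _ => sq_nonneg _)
    (Finset.mem_univ c)
  have h2 := Finset.single_le_sum (f := fun a => ∑ b, G c a b g ^ 2)
    (fun _ _ => Finset.sum_nonneg fun _ _ => sq_nonneg _) (Finset.mem_univ a)
  have h3 := Finset.single_le_sum (f := fun b => G c a b g ^ 2)
    (fun _ _ => sq_nonneg _) (Finset.mem_univ b)
  exact h3.trans (h2.trans h1)

private theorem crs_amgm {t d P C T s A : ℝ} (hd : d ^ 2 ≤ C * P) (hT : 0 < T)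
    (hP : 0 ≤ P) (hC : 0 ≤ C) (hs : 0 ≤ s) (hs1 : s ≤ 1) (hA : 0 < A) :
    -(2 * (t * (d * s))) ≤ A⁻¹ * (T⁻¹ * t ^ 2 * (P * s)) + A * C * T := by
  have hx : 0 ≤ A⁻¹ * (T⁻¹ * t ^ 2 * P) := by positivity
  have hy : 0 ≤ A * C * T := by positivity
  have e1 : A⁻¹ * (T⁻¹ * t ^ 2 * P) * (A * C * T) = t ^ 2 * (C * P) := by
    field_simp
  have h1 : (2 * (t * d)) ^ 2 ≤ (A⁻¹ * (T⁻¹ * t ^ 2 * P) + A * C * T) ^ 2 := by
    have h2 : t ^ 2 * d ^ 2 ≤ t ^ 2 * (C * P) := mul_le_mul_of_nonneg_left hd (sq_nonneg t)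
    nlinarith [sq_nonneg (A⁻¹ * (T⁻¹ * t ^ 2 * P) - A * C * T)]
  have h3 := (abs_le.1 (abs_le_of_sq_le_sq h1 (by positivity))).1
  have h4 : -(2 * (t * (d * s))) ≤ (A⁻¹ * (T⁻¹ * t ^ 2 * P) + A * C * T) * s := by
    have h5 := mul_le_mul_of_nonneg_right h3 hs
    nlinarith
  have h6 : A * C * T * s ≤ A * C * T := mul_le_of_le_one_right hy hs1
  calc -(2 * (t * (d * s))) ≤ (A⁻¹ * (T⁻¹ * t ^ 2 * P) + A * C * T) * s := h4
    _ = A⁻¹ * (T⁻¹ * t ^ 2 * (P * s)) + A * C * T * s := by ring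
    _ ≤ _ := by linarith

private theorem crs_bound (h : Crs O q G) (hΦ : Tst O Φ) {S : ℝ → ℝ} (hS : Cof S) :
    ∃ M : ℝ, ∀ e > 0,
      ∫ g, (tr q g)⁻¹ * nsq G g * (Φ g.toMatrix * S (tr q g / e)) ∂(mu n) ≤ M := by
  choose C hC0 hC using fun c : Ix n => hΦ.sqrt c
  set K : Set (SUGroup n) := {g | g.toMatrix ∈ tsupport Φ} with hKdef
  have hK : IsCompact K := hΦ.toCs.compact
  have hKO : K ⊆ O := fun g hg => hΦ.sub g hg
  have hTK : Integrable (K.indicator (tr q)) (mu n) := by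
    rw [integrable_indicator_iff hK.measurableSet]
    exact ((crs_cont h).mono hKO).integrableOn_compact hK
  have hTΦ : Integrable (fun g => tr q g * Φ g.toMatrix) (mu n) :=
    hΦ.toCs.integrable_cont (crs_cont h) h.isOpen
  refine ⟨2 * ((∑ c, 4 * ((n : ℝ) + 1) * C c) * ∫ g, K.indicator (tr q) g ∂(mu n) +
    (8 * n + 8) * ∫ g, tr q g * Φ g.toMatrix ∂(mu n)), fun e he => ?_⟩
  have h0 := h.p2_cut hS hΦ he
  have e0 : ∀ g, tr q g * (Φ g.toMatrix * S (tr q g / e)) =
      (tr q g * Φ g.toMatrix) * S (tr q g / e) := fun g => by ring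
  have h1 : ∫ g, tr q g * (Φ g.toMatrix * S (tr q g / e)) ∂(mu n) ≤
      ∫ g, tr q g * Φ g.toMatrix ∂(mu n) := by
    refine integral_mono_of_nonneg (Eventually.of_forall fun g => ?_) hTΦ
      (Eventually.of_forall fun g => ?_)
    · simp only [Pi.zero_apply]
      rw [e0 g]
      exact mul_nonneg (crs_trnn h hΦ) (crs_cof hS _).1
    · simp only
      rw [e0 g]
      exact mul_le_of_le_one_right (crs_trnn h hΦ) (crs_cof hS _).2
  have hn : (0 : ℝ) ≤ n := Nat.cast_nonneg n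
  have h2 : -(2 * ∑ c, ∫ g, trG G c g * (dX (Xa c) Φ g.toMatrix * S (tr q g / e)) ∂(mu n)) ≤
      (1 / 2) * ∫ g, (tr q g)⁻¹ * nsq G g * (Φ g.toMatrix * S (tr q g / e)) ∂(mu n) +
        (∑ c, 4 * ((n : ℝ) + 1) * C c) * ∫ g, K.indicator (tr q) g ∂(mu n) := by
    rw [← integral_finsetSum _ fun c _ => crs_intA h hS hΦ he c, ← integral_const_mul,
      ← integral_neg, ← integral_const_mul, ← integral_const_mul,
      ← integral_add ((crs_intF h hS hΦ he).const_mul _) (hTK.const_mul _)]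
    refine integral_mono ((integrable_finsetSum _ fun c _ =>
      crs_intA h hS hΦ he c).const_mul _).neg
      (((crs_intF h hS hΦ he).const_mul _).add (hTK.const_mul _)) fun g => ?_
    simp only
    by_cases hg : g ∈ K
    · have hT0 : 0 ≤ tr q g := crs_nonneg h (hKO hg)
      rw [Set.indicator_of_mem hg]
      rcases eq_or_ne (S (tr q g / e)) 0 with hs0 | hs0
      · rw [hs0]
        simp only [mul_zero, Finset.sum_const_zero, neg_zero, zero_add]
        exact mul_nonneg (Finset.sum_nonneg fun c _ => mul_nonneg (by positivity) (hC0 c)) hT0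
      · have hTp : 0 < tr q g := by
          by_contra hneg
          exact hs0 (hS.zero _ ((div_nonpos_of_nonpos_of_nonneg (not_lt.1 hneg) he.le).trans
            zero_le_one))
        obtain ⟨hs, hs1⟩ := crs_cof hS (tr q g / e)
        have hA : 0 < 4 * ((n : ℝ) + 1) := by positivity
        have h3 : ∀ c : Ix n, -(2 * (trG G c g * (dX (Xa c) Φ g.toMatrix * S (tr q g / e)))) ≤
            (4 * ((n : ℝ) + 1))⁻¹ * ((tr q g)⁻¹ * trG G c g ^ 2 *
              (Φ g.toMatrix * S (tr q g / e))) + 4 * ((n : ℝ) + 1) * C c * tr q g := fun c =>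
          crs_amgm (hC c g) hTp (hΦ.nonneg g) (hC0 c) hs hs1 hA
        have h4 := Finset.sum_le_sum fun (c : Ix n) (_ : c ∈ Finset.univ) => h3 c
        rw [Finset.sum_neg_distrib, ← Finset.mul_sum, Finset.sum_add_distrib, ← Finset.mul_sum,
          ← Finset.sum_mul, ← Finset.sum_mul, ← Finset.mul_sum] at h4
        refine h4.trans (add_le_add ?_ le_rfl)
        have h5 := trG_sq_le G g
        have h6 : 0 ≤ (tr q g)⁻¹ * nsq G g * (Φ g.toMatrix * S (tr q g / e)) :=
          mul_nonneg (mul_nonneg (inv_nonneg.2 hT0) (crs_nsq_nonneg G g))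
            (mul_nonneg (hΦ.nonneg g) hs)
        calc (4 * ((n : ℝ) + 1))⁻¹ * (((tr q g)⁻¹ * ∑ c, trG G c g ^ 2) *
              (Φ g.toMatrix * S (tr q g / e)))
            ≤ (4 * ((n : ℝ) + 1))⁻¹ * ((tr q g)⁻¹ * (2 * n * nsq G g) *
              (Φ g.toMatrix * S (tr q g / e))) :=
              mul_le_mul_of_nonneg_left (mul_le_mul_of_nonneg_right
                (mul_le_mul_of_nonneg_left h5 (inv_nonneg.2 hT0))
                (mul_nonneg (hΦ.nonneg g) hs)) (inv_nonneg.2 hA.le)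
          _ = (4 * ((n : ℝ) + 1))⁻¹ * (2 * n) * ((tr q g)⁻¹ * nsq G g *
              (Φ g.toMatrix * S (tr q g / e))) := by ring
          _ ≤ (1 / 2) * ((tr q g)⁻¹ * nsq G g * (Φ g.toMatrix * S (tr q g / e))) := by
              refine mul_le_mul_of_nonneg_right ?_ h6
              rw [inv_mul_le_iff₀ hA]
              linarith
    · have h7 : g.toMatrix ∉ tsupport Φ := hg
      rw [Set.indicator_of_notMem hg, crs_phi_zero h7]
      simp only [crs_dX_zero h7]
      simp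
  have h8 := mul_le_mul_of_nonneg_left h1 (by positivity : (0 : ℝ) ≤ 8 * (n : ℝ) + 8)
  linarith

/-- **The energy estimate.** PROOF: in `p2_cut`, `|trG_c dX_cΦ| ≤ |trG_c| sqrt(C Φ)` (`Tst.sqrt`),
`2 |trG_c| sqrt(C Φ) S ≤ (1/(4 n)) T⁻¹ trG_c² Φ S + 4 n C T S` (on the support of `Φ`), `trG_sq_le`: half of the left side is
absorbed (it is finite: the integrand vanishes off `Kc Φ T e`, a compact subset of the set `T > 0`); so
the left side of `p2_cut` is bounded uniformly in `e`; monotone convergence `e → 0`. -/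
theorem Crs.int (h : Crs O q G) (hΦ : Tst O Φ) :
    Integrable (fun g => (tr q g)⁻¹ * nsq (Gz O q G) g * Φ g.toMatrix) (mu n) := by
  obtain ⟨S, hS⟩ := exists_cof
  obtain ⟨M, hM⟩ := crs_bound h hΦ hS
  have hek : ∀ k : ℕ, (0 : ℝ) < 1 / ((k : ℝ) + 1) := fun k => by positivity
  have hlim : ∀ g : SUGroup n, Tendsto (fun k : ℕ => (tr q g)⁻¹ * nsq G g *
      (Φ g.toMatrix * S (tr q g / (1 / ((k : ℝ) + 1))))) atTop
      (𝓝 ((tr q g)⁻¹ * nsq (Gz O q G) g * Φ g.toMatrix)) := by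
    intro g
    by_cases hg : g ∈ Ps O (tr q)
    · have e1 : nsq (Gz O q G) g = nsq G g := by
        simp only [nsq, Gz, Set.indicator_of_mem hg]
      rw [e1]
      refine tendsto_const_nhds.congr' ?_
      obtain ⟨k₀, hk₀⟩ := exists_nat_gt (4 / tr q g)
      filter_upwards [eventually_ge_atTop k₀] with k hk
      have hTp : 0 < tr q g := hg.2
      have h1 : 4 ≤ tr q g / (1 / ((k : ℝ) + 1)) := by
        rw [div_div_eq_mul_div, div_one]
        have h2 : (k₀ : ℝ) ≤ k := Nat.cast_le.2 hk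
        have h3 : 4 / tr q g ≤ (k : ℝ) + 1 := by linarith
        rw [div_le_iff₀ hTp] at h3
        linarith
      rw [hS.one _ h1, mul_one]
    · have e1 : nsq (Gz O q G) g = 0 := by
        simp only [nsq, Gz, Set.indicator_of_notMem hg]
        simp
      rw [e1]
      have e2 : ∀ k : ℕ, (tr q g)⁻¹ * nsq G g *
          (Φ g.toMatrix * S (tr q g / (1 / ((k : ℝ) + 1)))) = 0 := by
        intro k
        by_cases hgO : g ∈ O
        · have hT0 : ¬ 0 < tr q g := fun h0 => hg ⟨hgO, h0⟩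
          rw [hS.zero _ ((div_nonpos_of_nonpos_of_nonneg (not_lt.1 hT0) (hek k).le).trans
            zero_le_one)]
          ring
        · rw [crs_phi_zero fun h0 => hgO (hΦ.sub g h0)]
          ring
      simp only [e2, mul_zero, zero_mul]
      exact tendsto_const_nhds
  have hint := fun k : ℕ => crs_intF h hS hΦ (hek k)
  have hle : ∀ k : ℕ, ∫⁻ g, ‖(tr q g)⁻¹ * nsq G g *
      (Φ g.toMatrix * S (tr q g / (1 / ((k : ℝ) + 1))))‖ₑ ∂(mu n) ≤ ENNReal.ofReal M := by
    intro k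
    rw [← ofReal_integral_norm_eq_lintegral_enorm (hint k)]
    refine ENNReal.ofReal_le_ofReal (le_of_eq_of_le ?_ (hM _ (hek k)))
    refine integral_congr_ae (Eventually.of_forall fun g => ?_)
    simp only
    refine Real.norm_of_nonneg ?_
    by_cases hgO : g ∈ O
    · exact mul_nonneg (mul_nonneg (inv_nonneg.2 (crs_nonneg h hgO)) (crs_nsq_nonneg G g))
        (mul_nonneg (hΦ.nonneg g) (crs_cof hS _).1)
    · rw [crs_phi_zero fun h0 => hgO (hΦ.sub g h0)]
      simp
  refine ⟨aestronglyMeasurable_of_tendsto_ae _ (fun k => (hint k).aestronglyMeasurable)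
    (Eventually.of_forall hlim), ?_⟩
  have h1 : ∫⁻ g, ‖(tr q g)⁻¹ * nsq (Gz O q G) g * Φ g.toMatrix‖ₑ ∂(mu n) ≤
      liminf (fun k : ℕ => ∫⁻ g, ‖(tr q g)⁻¹ * nsq G g *
        (Φ g.toMatrix * S (tr q g / (1 / ((k : ℝ) + 1))))‖ₑ ∂(mu n)) atTop := by
    refine (lintegral_congr fun g => ?_).trans_le
      (lintegral_liminf_le' fun k => (hint k).aestronglyMeasurable.enorm)
    exact (hlim g).enorm.liminf_eq.symm
  refine (h1.trans (liminf_le_of_le (by isBoundedDefault) fun b hb => ?_)).trans_lt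
    (ENNReal.ofReal_lt_top (r := M))
  obtain ⟨k, hk⟩ := hb.exists
  exact hk.trans (hle k)

/-- PROOF: every compact `K ⊆ O` carries a bump; `T` is bounded on `K`, `|G|² ≤ T * (T⁻¹ |G|²)`. -/
theorem Crs.memLp (h : Crs O q G) {K : Set (SUGroup n)} (hK : IsCompact K) (hKO : K ⊆ O)
    (c a b : Ix n) : MemLp (Gz O q G c a b) 2 ((mu n).restrict K) := by
  obtain ⟨ζ, hζ, -, -, W, -, hW, hW1⟩ := exists_bump h.isOpen hK hKO
  have hP : IsOpen (Ps O (tr q)) := isOpen_Ps h.isOpen (crs_cont h)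
  have hm : AEStronglyMeasurable (Gz O q G c a b) (mu n) :=
    (aestronglyMeasurable_indicator_iff hP.measurableSet).2 ((h.dat.grad a b).meas c)
  rw [memLp_two_iff_integrable_sq hm.restrict]
  obtain ⟨C, hC⟩ := hK.exists_bound_of_continuousOn ((crs_cont h).mono hKO)
  refine ((h.int hζ).restrict.const_mul C).mono' (hm.restrict.pow 2) ?_
  filter_upwards [ae_restrict_mem hK.measurableSet] with g hg
  rw [hW1 _ (hW g hg), mul_one, Real.norm_of_nonneg (sq_nonneg _)]
  have h1 := crs_le_nsq (Gz O q G) c a b g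
  by_cases hgP : g ∈ Ps O (tr q)
  · have hTp : 0 < tr q g := hgP.2
    have h2 : tr q g ≤ C := (le_abs_self _).trans (hC g hg)
    refine h1.trans ?_
    have h3 : 1 ≤ C * (tr q g)⁻¹ := by
      rw [← div_eq_mul_inv, one_le_div hTp]
      exact h2
    have h4 := mul_le_mul_of_nonneg_right h3 (crs_nsq_nonneg (Gz O q G) g)
    rw [one_mul, mul_assoc] at h4
    exact h4
  · have e1 : nsq (Gz O q G) g = 0 := by
      simp only [nsq, Gz, Set.indicator_of_notMem hgP]
      simp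
    rw [e1] at h1 ⊢
    simpa using h1

end Pool.Agent.Lib.MP_5d4057_al.IN.D
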