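import Pool.Agent.Lib.MP_5d4057_al.IN.DCrs

/-! INT, part D, file DCrsB: crossing, second part. -/

set_option autoImplicit false

namespace Pool.Agent.Lib.MP_5d4057_al.IN.D

open Matrix MeasureTheory Filter Topology Pool.Agent.Lib.MP_5d4057_al
  Pool.Agent.Lib.MP_5d4057_al.Hyb Pool.Agent.Lib.MP_5d4057_al.HM

open scoped ComplexOrder MatrixOrder Matrix.Norms.L2Operator ENNReal

variable {n : ℕ} {O : Set (SUGroup n)} {Φ : Mat (n + 1) → ℝ}
  {q : Ix n → Ix n → SUGroup n → ℝ} {G : Ix n → Ix n → Ix n → SUGroup n → ℝ}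

private theorem cb_tr_nonneg (h : Crs O q G) {g : SUGroup n} (hg : g ∈ O) : 0 ≤ tr q g := by
  by_cases hn : Nonempty (Ix n)
  · obtain ⟨a⟩ := hn
    exact (abs_nonneg _).trans (h.dom a a g hg)
  · have := not_nonempty_iff.1 hn
    simp [tr]

private theorem cb_tr_cont (h : Crs O q G) : ContinuousOn (tr q) O :=
  continuousOn_finsetSum _ fun a _ => h.cont a a

private theorem cb_cof_nonneg {S : ℝ → ℝ} (hS : Cof S) (x : ℝ) : 0 ≤ S x := by
  rcases le_total x 1 with hx | hx
  · rw [hS.zero x hx]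
  · rw [← hS.zero 1 le_rfl]
    exact hS.mono hx

private theorem cb_cof_le_one {S : ℝ → ℝ} (hS : Cof S) (x : ℝ) : S x ≤ 1 := by
  rcases le_total x 4 with hx | hx
  · rw [← hS.one 4 le_rfl]
    exact hS.mono hx
  · rw [hS.one x hx]

private theorem cb_cof_ev {S : ℝ → ℝ} (hS : Cof S) {T : ℝ} (hT : 0 < T) :
    ∀ᶠ k : ℕ in atTop, S (T / (1 / ((k : ℝ) + 1))) = 1 := by
  obtain ⟨k₀, hk₀⟩ := exists_nat_gt (4 / T)
  filter_upwards [eventually_ge_atTop k₀] with k hk
  apply hS.one
  rw [div_div_eq_mul_div, div_one]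
  have h1 : (k₀ : ℝ) ≤ k := by exact_mod_cast hk
  rw [div_lt_iff₀ hT] at hk₀
  nlinarith

private theorem cb_meas (hO : IsOpen O) {F w : SUGroup n → ℝ}
    (hF : AEStronglyMeasurable F (mu n)) (hw : ContinuousOn w O) (h0 : ∀ g, g ∉ O → F g = 0) :
    AEStronglyMeasurable (fun g => F g * w g) (mu n) := by
  have h1 : (fun g => F g * w g) = fun g => F g * O.indicator w g := by
    funext g
    by_cases hg : g ∈ O
    · rw [Set.indicator_of_mem hg]
    · rw [h0 g hg, zero_mul, zero_mul]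
  rw [h1]
  refine hF.mul ?_
  rw [aestronglyMeasurable_indicator_iff hO.measurableSet]
  exact hw.aestronglyMeasurable hO.measurableSet

private theorem cb_dct (hO : IsOpen O) {S : ℝ → ℝ} (hS : Cof S) {F T : SUGroup n → ℝ}
    (hT : ContinuousOn T O) (hF : Integrable F (mu n)) (h0 : ∀ g, g ∉ O → F g = 0)
    (h1 : ∀ g ∈ O, F g ≠ 0 → 0 < T g) :
    Tendsto (fun k : ℕ => ∫ g, F g * S (T g / (1 / ((k : ℝ) + 1))) ∂(mu n)) atTop
      (𝓝 (∫ g, F g ∂(mu n))) := by
  refine tendsto_integral_of_dominated_convergence (fun g => ‖F g‖) (fun k => ?_) hF.norm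
    (fun k => ?_) ?_
  · exact cb_meas hO hF.aestronglyMeasurable
      (hS.smooth.continuous.comp_continuousOn (hT.div_const _)) h0
  · filter_upwards with g
    rw [norm_mul, Real.norm_of_nonneg (cb_cof_nonneg hS _)]
    exact mul_le_of_le_one_right (norm_nonneg _) (cb_cof_le_one hS _)
  · filter_upwards with g
    by_cases hg : F g = 0
    · simp [hg]
    · have hgO : g ∈ O := by
        by_contra hc
        exact hg (h0 g hc)
      refine tendsto_const_nhds.congr' ?_
      filter_upwards [cb_cof_ev hS (h1 g hgO hg)] with k hk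
      rw [hk, mul_one]

private theorem cb_zero (hΦ : Cs O Φ) {g : SUGroup n} (hg : g ∉ O) : Φ g.toMatrix = 0 :=
  image_eq_zero_of_notMem_tsupport fun h' => hg (hΦ.sub g h')

private theorem cb_Gz_mem {c a b : Ix n} {g : SUGroup n} (hg : g ∈ Ps O (tr q)) :
    Gz O q G c a b g = G c a b g := Set.indicator_of_mem hg _

private theorem cb_Gz_zero {c a b : Ix n} {g : SUGroup n} (hg : g ∉ Ps O (tr q)) :
    Gz O q G c a b g = 0 := Set.indicator_of_notMem hg _

private theorem cb_small (h : Crs O q G) (K : Set (SUGroup n)) (hK : IsCompact K) :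
    ∃ s : ℕ → Set (SUGroup n), (∀ k, MeasurableSet (s k)) ∧
      (∀ (k : ℕ) (g : SUGroup n), g ∈ s k ↔
        g ∈ O ∧ 0 < tr q g ∧ tr q g ≤ 4 * (1 / ((k : ℝ) + 1))) ∧
      Tendsto (fun k => (mu n).restrict K (s k)) atTop (𝓝 0) := by
  have hTc := cb_tr_cont h
  have hfin : IsFiniteMeasure ((mu n).restrict K) :=
    ⟨by rw [Measure.restrict_apply_univ]; exact hK.measure_lt_top⟩
  let s : ℕ → Set (SUGroup n) := fun k =>
    {g | g ∈ O ∧ 0 < tr q g ∧ tr q g ≤ 4 * (1 / ((k : ℝ) + 1))}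
  have hmem : ∀ (k : ℕ) (g : SUGroup n), g ∈ s k ↔
      g ∈ O ∧ 0 < tr q g ∧ tr q g ≤ 4 * (1 / ((k : ℝ) + 1)) := fun k g => Iff.rfl
  have hs : ∀ k, MeasurableSet (s k) := by
    intro k
    have h1 : IsOpen (O ∩ tr q ⁻¹' Set.Ioi (4 * (1 / ((k : ℝ) + 1)))) :=
      hTc.isOpen_inter_preimage h.isOpen isOpen_Ioi
    have h2 : s k = Ps O (tr q) \ (O ∩ tr q ⁻¹' Set.Ioi (4 * (1 / ((k : ℝ) + 1)))) := by
      ext g
      rw [hmem]
      constructor
      · rintro ⟨a1, a2, a3⟩
        exact ⟨⟨a1, a2⟩, fun hc => absurd (Set.mem_Ioi.1 hc.2) (not_lt.2 a3)⟩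
      · rintro ⟨⟨a1, a2⟩, a3⟩
        refine ⟨a1, a2, not_lt.1 fun hc => a3 ⟨a1, Set.mem_Ioi.2 hc⟩⟩
    rw [h2]
    exact (isOpen_Ps h.isOpen hTc).measurableSet.diff h1.measurableSet
  refine ⟨s, hs, hmem, ?_⟩
  have hanti : Antitone s := by
    intro k l hkl g hg
    refine ⟨hg.1, hg.2.1, hg.2.2.trans ?_⟩
    have h1 : (k : ℝ) ≤ l := by exact_mod_cast hkl
    gcongr
  have hlim := tendsto_measure_iInter_atTop (μ := (mu n).restrict K) (s := s)
    (fun k => (hs k).nullMeasurableSet) hanti ⟨0, measure_ne_top _ _⟩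
  have hempty : ⋂ k, s k = ∅ := by
    rw [Set.eq_empty_iff_forall_notMem]
    intro g hg
    have h1 := fun k => (Set.mem_iInter.1 hg k)
    obtain ⟨k, hk⟩ := exists_nat_gt (4 / tr q g)
    have h2 := (h1 0).2.1
    have h3 := (h1 k).2.2
    rw [div_lt_iff₀ h2] at hk
    rw [mul_one_div, le_div_iff₀ (by positivity)] at h3
    nlinarith
  rw [hempty, measure_empty] at hlim
  exact hlim

/-- **(P1).** PROOF: `Wg.of_limit` with `w = q_ab * S (T / e)` (`Wg.cut`): `|w - q_ab| ≤ 4 e` because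
`|q_ab| ≤ T`; the gradient is `1_{T>0} (G_cab S + q_ab S' / e trG_c)`, the difference to `Gz` is bounded
by `C |G| 1_{0 < T ≤ 4 e}` (`|q_ab| ≤ T ≤ 4 e` where `S' ≠ 0`), which tends to `0` in `L²(K)`
(dominated convergence, `Crs.memLp`). -/
theorem Crs.wg (h : Crs O q G) (a b : Ix n) : Wg O (q a b) fun c => Gz O q G c a b := by
  obtain ⟨S, hS⟩ := exists_cof
  obtain ⟨C, hC, hSd⟩ := hS.deriv_bound
  have hTc := cb_tr_cont h
  have hP : IsOpen (Ps O (tr q)) := isOpen_Ps h.isOpen hTc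
  have hm : ∀ c, AEStronglyMeasurable (Gz O q G c a b) (mu n) := fun c =>
    (aestronglyMeasurable_indicator_iff hP.measurableSet).2 ((h.dat.grad a b).meas c)
  refine Wg.of_limit (h.cont a b) (fun c => (hm c).restrict) fun K hKO hK ε hε => ?_
  let D : Ix n → SUGroup n → ℝ := fun c g =>
    ‖Gz O q G c a b g‖ + 4 * C * ‖∑ a', Gz O q G c a' a' g‖
  have hD : ∀ c, MemLp (D c) 2 ((mu n).restrict K) := by
    intro c
    have h1 : MemLp (fun g => ∑ a', Gz O q G c a' a' g) 2 ((mu n).restrict K) :=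
      memLp_finsetSum _ fun a' _ => h.memLp hK hKO c a' a'
    exact (h.memLp hK hKO c a b).norm.add (h1.norm.const_mul (4 * C))
  choose δ hδ0 hδ using fun c => (hD c).eLpNorm_indicator_le (by norm_num) (by norm_num) hε
  obtain ⟨s, hs, hmem, hlim⟩ := cb_small h K hK
  have hev : ∀ᶠ k in atTop, ∀ c, (mu n).restrict K (s k) ≤ ENNReal.ofReal (δ c) := by
    rw [Filter.eventually_all]
    intro c
    exact hlim.eventually_le_const (ENNReal.ofReal_pos.2 (hδ0 c))
  have hev2 : ∀ᶠ k : ℕ in atTop, 4 * (1 / ((k : ℝ) + 1)) ≤ ε := by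
    have h1 := (tendsto_one_div_add_atTop_nhds_zero_nat (𝕜 := ℝ)).const_mul 4
    rw [mul_zero] at h1
    exact h1.eventually_le_const hε
  obtain ⟨k, hk1, hk2⟩ := (hev.and hev2).exists
  have hmk := hmem k
  set e : ℝ := 1 / ((k : ℝ) + 1) with he
  have he0 : 0 < e := by positivity
  refine ⟨_, _, Wg.cut h.isOpen hTc (h.cont a b) h.dat.wg_tr (h.dat.grad a b) hS he0,
    fun g hg => ?_, fun c => ?_⟩
  · have hgO := hKO hg
    have h1 : q a b g * S (tr q g / e) - q a b g = -(q a b g * (1 - S (tr q g / e))) := by ring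
    rw [h1, abs_neg, abs_mul]
    have h2 := cb_cof_nonneg hS (tr q g / e)
    have h3 := cb_cof_le_one hS (tr q g / e)
    rw [abs_of_nonneg (by linarith : (0 : ℝ) ≤ 1 - S (tr q g / e))]
    rcases le_or_gt (4 * e) (tr q g) with h4 | h4
    · have h5 : S (tr q g / e) = 1 := hS.one _ (by rw [le_div_iff₀ he0]; exact h4)
      rw [h5, sub_self, mul_zero]
      exact hε.le
    · calc |q a b g| * (1 - S (tr q g / e)) ≤ tr q g * 1 :=
            mul_le_mul (h.dom a b g hgO) (by linarith) (by linarith) (cb_tr_nonneg h hgO)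
        _ ≤ ε := by linarith
  · refine le_trans (eLpNorm_mono_ae ?_) (hδ c (s k) (hs k) (hk1 c))
    rw [ae_restrict_iff' hK.measurableSet]
    filter_upwards with g hg
    have hgO := hKO hg
    by_cases hgP : g ∈ Ps O (tr q)
    · rw [Set.indicator_of_mem hgP, cb_Gz_mem hgP]
      have hT : 0 < tr q g := hgP.2
      have hS0 := cb_cof_nonneg hS (tr q g / e)
      have hS1 := cb_cof_le_one hS (tr q g / e)
      obtain ⟨d0, d1, d2, d3⟩ := hSd (tr q g / e)
      rcases lt_or_ge (4 * e) (tr q g) with h4 | h4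
      · have h4' : 4 < tr q g / e := by rw [lt_div_iff₀ he0]; exact h4
        rw [hS.one _ h4'.le, d3 h4', zero_div, zero_mul, mul_zero, add_zero, mul_one, sub_self,
          norm_zero]
        exact norm_nonneg _
      · have hgs : g ∈ s k := (hmk g).2 ⟨hgO, hT, h4⟩
        rw [Set.indicator_of_mem hgs]
        have hDn : ‖D c g‖ = D c g := Real.norm_of_nonneg (by positivity)
        rw [hDn]
        have e1 : (∑ a', Gz O q G c a' a' g) = trG G c g :=
          Finset.sum_congr rfl fun a' _ => cb_Gz_mem hgP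
        show _ ≤ ‖Gz O q G c a b g‖ + 4 * C * ‖∑ a', Gz O q G c a' a' g‖
        rw [e1, cb_Gz_mem hgP]
        have e2 : G c a b g * S (tr q g / e) + q a b g * (deriv S (tr q g / e) / e * trG G c g) -
            G c a b g = G c a b g * (S (tr q g / e) - 1) +
            (q a b g / e * deriv S (tr q g / e)) * trG G c g := by ring
        rw [e2]
        refine (norm_add_le _ _).trans (add_le_add ?_ ?_)
        · rw [norm_mul]
          refine mul_le_of_le_one_right (norm_nonneg _) ?_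
          rw [Real.norm_eq_abs, abs_le]
          constructor <;> linarith
        · rw [norm_mul]
          refine mul_le_mul_of_nonneg_right ?_ (norm_nonneg _)
          rw [norm_mul, Real.norm_eq_abs, Real.norm_eq_abs, abs_div, abs_of_pos he0,
            abs_of_nonneg d0]
          refine mul_le_mul ?_ d1 d0 (by norm_num)
          rw [div_le_iff₀ he0]
          exact (h.dom a b g hgO).trans h4
    · rw [Set.indicator_of_notMem hgP, cb_Gz_zero hgP, sub_zero, norm_zero]
      exact norm_nonneg _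

/-- **(P2).** PROOF: `e → 0` in `p2_cut`, dominated convergence: `|trG_c dX_cΦ| ≤ T⁻¹ |G|² Φ + C T` on
the support of `Φ`. -/
theorem Crs.p2 (h : Crs O q G) (hΦ : Tst O Φ) :
    ∫ g, (tr q g)⁻¹ * nsq (Gz O q G) g * Φ g.toMatrix ∂(mu n) ≤
      -(2 * ∑ c, ∫ g, trG (Gz O q G) c g * dX (Xa c) Φ g.toMatrix ∂(mu n)) +
        (8 * n + 8) * ∫ g, tr q g * Φ g.toMatrix ∂(mu n) := by
  obtain ⟨S, hS⟩ := exists_cof
  have hTc := cb_tr_cont h
  have hpos : ∀ g, g ∈ O → tr q g ≠ 0 → 0 < tr q g := fun g hg h0 =>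
    lt_of_le_of_ne (cb_tr_nonneg h hg) (Ne.symm h0)
  have l1 := cb_dct h.isOpen hS hTc (h.int hΦ)
    (fun g hg => by rw [cb_zero hΦ.toCs hg, mul_zero]) fun g hg h0 => by
      refine hpos g hg fun h1 => h0 ?_
      rw [h1, _root_.inv_zero, zero_mul, zero_mul]
  have l3 := cb_dct h.isOpen hS hTc (hΦ.toCs.integrable_cont hTc h.isOpen)
    (fun g hg => by rw [cb_zero hΦ.toCs hg, mul_zero]) fun g hg h0 => by
      refine hpos g hg fun h1 => h0 ?_
      rw [h1, zero_mul]
  have l2 : ∀ c, Tendsto (fun k : ℕ => ∫ g, trG (Gz O q G) c g * dX (Xa c) Φ g.toMatrix *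
      S (tr q g / (1 / ((k : ℝ) + 1))) ∂(mu n)) atTop
      (𝓝 (∫ g, trG (Gz O q G) c g * dX (Xa c) Φ g.toMatrix ∂(mu n))) := by
    intro c
    refine cb_dct h.isOpen hS hTc ?_
      (fun g hg => by rw [cb_zero (hΦ.toCs.dX (Xa c)) hg, mul_zero]) fun g hg h0 => ?_
    · have e1 : (fun g : SUGroup n => trG (Gz O q G) c g * dX (Xa c) Φ g.toMatrix) =
          fun g => ∑ a, Gz O q G c a a g * dX (Xa c) Φ g.toMatrix := by
        funext g
        rw [trG, Finset.sum_mul]
      rw [e1]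
      exact integrable_finsetSum _ fun a _ =>
        (hΦ.toCs.dX (Xa c)).integrable ((h.wg a a).locInt h.isOpen c) h.isOpen
    · by_contra h1
      refine h0 ?_
      have e1 : trG (Gz O q G) c g = 0 :=
        Finset.sum_eq_zero fun a _ => cb_Gz_zero fun h2 => h1 h2.2
      rw [e1, zero_mul]
  have key : ∀ k : ℕ, ∫ g, (tr q g)⁻¹ * nsq (Gz O q G) g * Φ g.toMatrix *
      S (tr q g / (1 / ((k : ℝ) + 1))) ∂(mu n) ≤
      -(2 * ∑ c, ∫ g, trG (Gz O q G) c g * dX (Xa c) Φ g.toMatrix *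
        S (tr q g / (1 / ((k : ℝ) + 1))) ∂(mu n)) +
      (8 * n + 8) * ∫ g, tr q g * Φ g.toMatrix * S (tr q g / (1 / ((k : ℝ) + 1))) ∂(mu n) := by
    intro k
    have he : (0 : ℝ) < 1 / ((k : ℝ) + 1) := by positivity
    have hp := h.p2_cut hS hΦ he
    set e : ℝ := 1 / ((k : ℝ) + 1)
    have hS0 : ∀ g ∈ O, g ∉ Ps O (tr q) → S (tr q g / e) = 0 := by
      intro g hg hgP
      refine hS.zero _ ?_
      have h1 : tr q g ≤ 0 := not_lt.1 fun h2 => hgP ⟨hg, h2⟩
      exact (div_nonpos_of_nonpos_of_nonneg h1 he.le).trans zero_le_one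
    have e1 : (fun g : SUGroup n => (tr q g)⁻¹ * nsq G g * (Φ g.toMatrix * S (tr q g / e))) =
        fun g => (tr q g)⁻¹ * nsq (Gz O q G) g * Φ g.toMatrix * S (tr q g / e) := by
      funext g
      by_cases hg : g ∈ O
      · by_cases hgP : g ∈ Ps O (tr q)
        · have h1 : nsq (Gz O q G) g = nsq G g := by
            simp only [nsq, cb_Gz_mem hgP]
          rw [h1]
          ring
        · rw [hS0 g hg hgP]
          ring
      · rw [cb_zero hΦ.toCs hg]
        ring
    have e2 : ∀ c, (fun g : SUGroup n => trG G c g * (dX (Xa c) Φ g.toMatrix * S (tr q g / e))) =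
        fun g => trG (Gz O q G) c g * dX (Xa c) Φ g.toMatrix * S (tr q g / e) := by
      intro c
      funext g
      by_cases hg : g ∈ O
      · by_cases hgP : g ∈ Ps O (tr q)
        · have h1 : trG (Gz O q G) c g = trG G c g := by
            simp only [trG, cb_Gz_mem hgP]
          rw [h1]
          ring
        · rw [hS0 g hg hgP]
          ring
      · rw [cb_zero (hΦ.toCs.dX (Xa c)) hg]
        ring
    have e3 : (fun g : SUGroup n => tr q g * (Φ g.toMatrix * S (tr q g / e))) =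
        fun g => tr q g * Φ g.toMatrix * S (tr q g / e) := by
      funext g
      ring
    simp only [e1, e2, e3] at hp
    exact hp
  exact le_of_tendsto_of_tendsto' l1
    (((tendsto_finsetSum _ fun c _ => l2 c).const_mul 2).neg.add (l3.const_mul _)) key

end Pool.Agent.Lib.MP_5d4057_al.IN.D
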