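import Pool.Agent.Lib.MP_5d4057_al.IN.DCrsB

/-! INT, part D, file DCrsC: crossing, third part. -/

set_option autoImplicit false

namespace Pool.Agent.Lib.MP_5d4057_al.IN.D

open Matrix MeasureTheory Filter Topology Pool.Agent.Lib.MP_5d4057_al
  Pool.Agent.Lib.MP_5d4057_al.Hyb Pool.Agent.Lib.MP_5d4057_al.HM

open scoped ComplexOrder MatrixOrder Matrix.Norms.L2Operator ENNReal

variable {n : ℕ} {O : Set (SUGroup n)} {Φ : Mat (n + 1) → ℝ}
  {q : Ix n → Ix n → SUGroup n → ℝ} {G : Ix n → Ix n → Ix n → SUGroup n → ℝ}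

/-- **(P3).** PROOF: `Siu q Φ = - Σ_j ∫ SiuG (Gz) X_jΦ` (`Siu_eq_SiuG`, `Crs.wg`). For the functions
`Ψ k` of `test_comp_int`: `0 ≤ Siu q (Ψ k) = - Σ_j ∫ SiuG G X_jΨ_k`; limit in `k`:
`0 ≤ - Σ_j ∫ SiuG_j (X_jΦ S + Φ S' / e trG_j)`. The second part is at most
`C ∫_{e ≤ T ≤ 4 e} |G|² / e Φ ≤ 4 C ∫_{0 < T ≤ 4 e} T⁻¹ |G|² Φ → 0`; the first tends to `Siu q Φ`. -/
theorem Crs.p3 (h : Crs O q G) (hΦ : Tst O Φ) : 0 ≤ Siu q Φ := by
  have hT : ContinuousOn (tr q) O := continuousOn_finsetSum _ fun a _ => h.cont a a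
  have hP : IsOpen (Ps O (tr q)) := isOpen_Ps h.isOpen hT
  have hPm : MeasurableSet (Ps O (tr q)) := hP.measurableSet
  have hTP : ContinuousOn (tr q) (Ps O (tr q)) := hT.mono Set.inter_subset_left
  obtain ⟨S, hS⟩ := exists_cof
  obtain ⟨C', hC', hdS⟩ := hS.deriv_bound
  obtain ⟨C, hC, hSq⟩ := SiuG_sq_le G
  have hsup : ∀ g : SUGroup n, g ∉ O → Φ g.toMatrix = 0 ∧ ∀ j : Ix n, dX (Xa j) Φ g.toMatrix = 0 := by
    intro g hg
    exact ⟨image_eq_zero_of_notMem_tsupport fun h1 => hg (hΦ.sub g h1),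
      fun j => image_eq_zero_of_notMem_tsupport fun h1 => hg ((hΦ.toCs.dX (Xa j)).sub g h1)⟩
  have hGz : ∀ g ∈ Ps O (tr q), ∀ c a b, Gz O q G c a b g = G c a b g :=
    fun g hg c a b => Set.indicator_of_mem hg _
  have hGz0 : ∀ g, g ∉ Ps O (tr q) → ∀ c a b, Gz O q G c a b g = 0 :=
    fun g hg c a b => Set.indicator_of_notMem hg _
  have hSz : ∀ g ∈ Ps O (tr q), ∀ j, SiuG (Gz O q G) j g = SiuG G j g := by
    intro g hg j
    simp only [SiuG, hGz g hg]
  have hSz0 : ∀ g, g ∉ Ps O (tr q) → ∀ j, SiuG (Gz O q G) j g = 0 := by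
    intro g hg j
    simp [SiuG, hGz0 g hg]
  have hnz : ∀ g ∈ Ps O (tr q), nsq (Gz O q G) g = nsq G g := by
    intro g hg
    simp only [nsq, hGz g hg]
  have hnz0 : ∀ g, g ∉ Ps O (tr q) → nsq (Gz O q G) g = 0 := by
    intro g hg
    simp [nsq, hGz0 g hg]
  have hn0 : ∀ g, 0 ≤ nsq G g := fun g =>
    Finset.sum_nonneg fun c _ => Finset.sum_nonneg fun a _ => Finset.sum_nonneg fun b _ => sq_nonneg _
  have hGm : ∀ c a b, AEStronglyMeasurable (G c a b) ((mu n).restrict (Ps O (tr q))) :=
    fun c a b => (h.dat.grad a b).meas c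
  have hSm : ∀ j, AEStronglyMeasurable (SiuG G j) ((mu n).restrict (Ps O (tr q))) := by
    intro j
    unfold SiuG
    refine Finset.aestronglyMeasurable_fun_sum _ fun i _ => ?_
    split_ifs
    · exact (((hGm _ _ _).add (hGm _ _ _)).sub ((hGm _ _ _).add (hGm _ _ _))).sub
        ((hGm _ _ _).sub (hGm _ _ _))
    · exact (((hGm _ _ _).add (hGm _ _ _)).sub ((hGm _ _ _).add (hGm _ _ _))).add
        ((hGm _ _ _).sub (hGm _ _ _))
  have htm : ∀ j, AEStronglyMeasurable (trG G j) ((mu n).restrict (Ps O (tr q))) := by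
    intro j
    unfold trG
    exact Finset.aestronglyMeasurable_fun_sum _ fun a _ => hGm _ _ _
  -- the inequality for the cut test function
  have key : ∀ e : ℝ, 0 < e → ∑ j, ∫ g, SiuG G j g * (dX (Xa j) Φ g.toMatrix * S (tr q g / e) +
      Φ g.toMatrix * (deriv S (tr q g / e) / e * trG G j g)) ∂(mu n) ≤ 0 := by
    intro e he
    obtain ⟨Ψ, hΨ, -, hlim, -⟩ := test_comp_int h.isOpen hT h.dat.wg_tr hS hΦ he
    have h1 : ∀ k, ∑ j, ∫ g, SiuG G j g * dX (Xa j) (Ψ k) g.toMatrix ∂(mu n) ≤ 0 := by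
      intro k
      have h2 := h.dat.p3 (Ψ k) (hΨ k)
      rw [Siu_eq_SiuG hP (fun a b => h.dat.grad a b) (hΨ k).toCs] at h2
      linarith
    refine le_of_tendsto' (tendsto_finsetSum _ fun j _ => hlim j (SiuG G j) ?_) h1
    intro K hK hKc
    have hGL : ∀ c a b, MemLp (G c a b) 2 ((mu n).restrict K) :=
      fun c a b => (h.dat.grad a b).memLp hKc hK c
    unfold SiuG
    refine memLp_finsetSum _ fun i _ => ?_
    split_ifs
    · exact (((hGL _ _ _).add (hGL _ _ _)).sub ((hGL _ _ _).add (hGL _ _ _))).sub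
        ((hGL _ _ _).sub (hGL _ _ _))
    · exact (((hGL _ _ _).add (hGL _ _ _)).sub ((hGL _ _ _).add (hGL _ _ _))).add
        ((hGL _ _ _).sub (hGL _ _ _))
  -- the limit
  have hf0 : ∀ j, Integrable (fun g => SiuG (Gz O q G) j g * dX (Xa j) Φ g.toMatrix) (mu n) := by
    intro j
    have hGi : ∀ c a b, Integrable (fun g => Gz O q G c a b g * dX (Xa j) Φ g.toMatrix) (mu n) :=
      fun c a b => (hΦ.toCs.dX (Xa j)).integrable ((h.wg a b).locInt h.isOpen c) h.isOpen
    unfold SiuG
    simp only [Finset.sum_mul]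
    refine integrable_finsetSum _ fun i _ => ?_
    split_ifs
    · simp only [add_mul, sub_mul]
      exact (((hGi _ _ _).add (hGi _ _ _)).sub ((hGi _ _ _).add (hGi _ _ _))).sub
        ((hGi _ _ _).sub (hGi _ _ _))
    · simp only [add_mul, sub_mul]
      exact (((hGi _ _ _).add (hGi _ _ _)).sub ((hGi _ _ _).add (hGi _ _ _))).add
        ((hGi _ _ _).sub (hGi _ _ _))
  have hW := h.int hΦ
  have hcut : ∀ (e : ℝ), 0 < e → ∀ g, g ∉ Ps O (tr q) → ∀ j,
      SiuG G j g * (dX (Xa j) Φ g.toMatrix * S (tr q g / e) +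
      Φ g.toMatrix * (deriv S (tr q g / e) / e * trG G j g)) = 0 := by
    intro e he g hg j
    by_cases hgO : g ∈ O
    · have h1 : tr q g ≤ 0 := by
        by_contra h2
        exact hg ⟨hgO, not_le.1 h2⟩
      have h2 : tr q g / e ≤ 0 := div_nonpos_of_nonpos_of_nonneg h1 he.le
      rw [hS.zero _ (by linarith), (hdS _).2.2.1 (by linarith)]
      ring
    · rw [(hsup g hgO).1, (hsup g hgO).2 j]
      ring
  have lim : ∀ j, Tendsto (fun m : ℕ => ∫ g, SiuG G j g *
      (dX (Xa j) Φ g.toMatrix * S (tr q g / (1 / ((m : ℝ) + 1))) +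
      Φ g.toMatrix * (deriv S (tr q g / (1 / ((m : ℝ) + 1))) / (1 / ((m : ℝ) + 1)) *
        trG G j g)) ∂(mu n)) atTop
      (𝓝 (∫ g, SiuG (Gz O q G) j g * dX (Xa j) Φ g.toMatrix ∂(mu n))) := by
    intro j
    refine tendsto_integral_of_dominated_convergence
      (fun g => |SiuG (Gz O q G) j g * dX (Xa j) Φ g.toMatrix| +
        (2 * C' * (C + 2 * n)) * ((tr q g)⁻¹ * nsq (Gz O q G) g * Φ g.toMatrix)) ?_
      ((hf0 j).abs.add (hW.const_mul _)) ?_ ?_
    · intro m
      obtain ⟨e, he⟩ : ∃ e : ℝ, e = 1 / ((m : ℝ) + 1) := ⟨_, rfl⟩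
      have he0 : 0 < e := by rw [he]; positivity
      rw [← he]
      have h1 : (fun g => SiuG G j g * (dX (Xa j) Φ g.toMatrix * S (tr q g / e) +
          Φ g.toMatrix * (deriv S (tr q g / e) / e * trG G j g))) =
          (Ps O (tr q)).indicator (fun g => SiuG G j g * (dX (Xa j) Φ g.toMatrix * S (tr q g / e) +
          Φ g.toMatrix * (deriv S (tr q g / e) / e * trG G j g))) := by
        funext g
        by_cases hg : g ∈ Ps O (tr q)
        · rw [Set.indicator_of_mem hg]
        · rw [Set.indicator_of_notMem hg]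
          exact hcut e he0 g hg j
      rw [h1, aestronglyMeasurable_indicator_iff hPm]
      have c1 : Continuous fun g : SUGroup n => dX (Xa j) Φ g.toMatrix :=
        (contDiff_dX hΦ.smooth).continuous.comp (continuous_toMatrix n)
      have c2 : Continuous fun g : SUGroup n => Φ g.toMatrix :=
        hΦ.smooth.continuous.comp (continuous_toMatrix n)
      have c3 : ContinuousOn (fun g => S (tr q g / e)) (Ps O (tr q)) :=
        hS.smooth.continuous.comp_continuousOn (hTP.div_const e)
      have c4 : ContinuousOn (fun g => deriv S (tr q g / e)) (Ps O (tr q)) :=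
        (hS.smooth.continuous_deriv (by norm_num)).comp_continuousOn (hTP.div_const e)
      have m3 := c3.aestronglyMeasurable (μ := mu n) hPm
      have m4 := c4.aestronglyMeasurable (μ := mu n) hPm
      exact (hSm j).mul ((c1.aestronglyMeasurable.mul m3).add
        (c2.aestronglyMeasurable.mul ((m4.mul_const e⁻¹).mul (htm j))))
    · intro m
      obtain ⟨e, he⟩ : ∃ e : ℝ, e = 1 / ((m : ℝ) + 1) := ⟨_, rfl⟩
      have he0 : 0 < e := by rw [he]; positivity
      rw [← he]
      refine Filter.Eventually.of_forall fun g => ?_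
      by_cases hg : g ∈ Ps O (tr q)
      · have hT0 : 0 < tr q g := hg.2
        rw [hSz g hg, hnz g hg, Real.norm_eq_abs]
        have a1 : |S (tr q g / e)| ≤ 1 := by
          have b1 : 0 ≤ S (tr q g / e) := by
            have := hS.mono (show min 0 (tr q g / e) ≤ tr q g / e from min_le_right _ _)
            rwa [hS.zero _ ((min_le_left _ _).trans (by norm_num))] at this
          have b2 : S (tr q g / e) ≤ 1 := by
            have := hS.mono (show tr q g / e ≤ max 4 (tr q g / e) from le_max_right _ _)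
            rwa [hS.one _ (le_max_left _ _)] at this
          rw [abs_of_nonneg b1]
          exact b2
        have a2 : |SiuG G j g * (dX (Xa j) Φ g.toMatrix * S (tr q g / e))| ≤
            |SiuG G j g * dX (Xa j) Φ g.toMatrix| := by
          rw [← mul_assoc, abs_mul]
          exact mul_le_of_le_one_right (abs_nonneg _) a1
        have a3 : |SiuG G j g| * |trG G j g| ≤ (C + 2 * n) / 2 * nsq G g := by
          have b1 := hSq j g
          have b2 := trG_sq_le G g
          have b3 : trG G j g ^ 2 ≤ ∑ c, trG G c g ^ 2 :=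
            Finset.single_le_sum (f := fun c => trG G c g ^ 2) (fun c _ => sq_nonneg _)
              (Finset.mem_univ j)
          have b4 := two_mul_le_add_sq |SiuG G j g| |trG G j g|
          rw [sq_abs, sq_abs] at b4
          linarith
        have a4 : |deriv S (tr q g / e) / e| ≤ C' * (4 * (tr q g)⁻¹) := by
          obtain ⟨d1, d2, d3, d4⟩ := hdS (tr q g / e)
          rw [abs_of_nonneg (div_nonneg d1 he0.le)]
          by_cases h4 : 4 < tr q g / e
          · rw [d4 h4, zero_div]
            positivity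
          · push Not at h4
            rw [div_le_iff₀ he0] at h4
            have e1 : 1 / e ≤ 4 * (tr q g)⁻¹ := by
              rw [div_le_iff₀ he0]
              have : (tr q g)⁻¹ * (4 * e) ≥ (tr q g)⁻¹ * tr q g :=
                mul_le_mul_of_nonneg_left h4 (by positivity)
              rw [inv_mul_cancel₀ hT0.ne'] at this
              linarith
            calc deriv S (tr q g / e) / e = deriv S (tr q g / e) * (1 / e) := by ring
              _ ≤ C' * (4 * (tr q g)⁻¹) := mul_le_mul d2 e1 (by positivity) hC'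
        have a5 : |SiuG G j g * (Φ g.toMatrix * (deriv S (tr q g / e) / e * trG G j g))| ≤
            (2 * C' * (C + 2 * n)) * ((tr q g)⁻¹ * nsq G g * Φ g.toMatrix) := by
          have hΦ0 := hΦ.nonneg g
          have e1 : |SiuG G j g * (Φ g.toMatrix * (deriv S (tr q g / e) / e * trG G j g))| =
              Φ g.toMatrix * ((|SiuG G j g| * |trG G j g|) * |deriv S (tr q g / e) / e|) := by
            rw [abs_mul, abs_mul (Φ g.toMatrix), abs_mul (deriv S (tr q g / e) / e),
              abs_of_nonneg hΦ0]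
            ring
          rw [e1]
          calc Φ g.toMatrix * ((|SiuG G j g| * |trG G j g|) * |deriv S (tr q g / e) / e|) ≤
              Φ g.toMatrix * (((C + 2 * n) / 2 * nsq G g) * (C' * (4 * (tr q g)⁻¹))) := by
                refine mul_le_mul_of_nonneg_left ?_ hΦ0
                exact mul_le_mul a3 a4 (abs_nonneg _)
                  (mul_nonneg (by positivity) (hn0 g))
            _ = _ := by ring
        rw [mul_add]
        exact (abs_add_le _ _).trans (add_le_add a2 a5)
      · rw [hcut e he0 g hg j, norm_zero, hnz0 g hg, mul_zero, zero_mul, mul_zero, add_zero]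
        exact abs_nonneg _
    · refine Filter.Eventually.of_forall fun g => ?_
      by_cases hg : g ∈ Ps O (tr q)
      · have hT0 : 0 < tr q g := hg.2
        rw [hSz g hg]
        refine Tendsto.congr' ?_ tendsto_const_nhds
        obtain ⟨N, hN⟩ := exists_nat_gt (4 / tr q g)
        filter_upwards [Filter.eventually_ge_atTop N] with m hm
        have h1 : 4 < tr q g / (1 / ((m : ℝ) + 1)) := by
          rw [div_div_eq_mul_div, div_one]
          rw [div_lt_iff₀ hT0] at hN
          have h2 : (N : ℝ) ≤ m := by exact_mod_cast hm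
          have h3 : (N : ℝ) * tr q g ≤ m * tr q g := mul_le_mul_of_nonneg_right h2 hT0.le
          linarith
        rw [hS.one _ h1.le, (hdS _).2.2.2 h1]
        ring
      · rw [hSz0 g hg, zero_mul]
        refine Tendsto.congr (fun m => ?_) tendsto_const_nhds
        exact (hcut _ (by positivity) g hg j).symm
  rw [Siu_eq_SiuG h.isOpen (fun a b => h.wg a b) hΦ.toCs]
  have hfin := le_of_tendsto' (tendsto_finsetSum Finset.univ fun j _ => lim j)
    (fun m => key _ (by positivity))
  linarith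

/-- **Crossing.** -/
theorem Crs.dat' (h : Crs O q G) : Dat O q (Gz O q G) where
  symm := h.symm
  dom := h.dom
  grad := h.wg
  zero := fun c a b g hg h0 => by
    rw [Gz, Set.indicator_of_notMem]
    rintro ⟨-, h1⟩
    exact absurd h0 (ne_of_gt h1)
  int := fun Φ hΦ => h.int hΦ
  p2 := fun Φ hΦ => h.p2 hΦ
  p3 := fun Φ hΦ => h.p3 hΦ

end Pool.Agent.Lib.MP_5d4057_al.IN.D
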