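import Pool.Agent.Lib.MP_5d4057_al.IN.DSmG
import Pool.Agent.Lib.MP_5d4057_al.NU.CutN

/-! INT, part D, file DCutN: cut-off functions in the height with small second derivatives along all
pairs of right flows. -/

set_option autoImplicit false

namespace Pool.Agent.Lib.MP_5d4057_al.IN.D

open Matrix MeasureTheory Filter Topology Pool.Agent.Lib.MP_5d4057_al
  Pool.Agent.Lib.MP_5d4057_al.Hyb Pool.Agent.Lib.MP_5d4057_al.HM
  Pool.Agent.Lib.MP_5d4057_al.NU

open scoped ComplexOrder MatrixOrder Matrix.Norms.L2Operator ENNReal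

variable {n : ℕ} {Γ : Subgroup (SUGroup n)}

/-- The derivative of `herm (g w) p` along the flow. -/
theorem hasDerivAt_hw (w p : Vec n) (c : Ix n) (g : SUGroup n) :
    HasDerivAt (fun t => herm (act (g * ba c t) w) p) (herm (act g (Xa c *ᵥ w)) p) 0 := by
  have h1 := Kak.hasDerivAt_flow (xi_norm c) 0
  rw [Kak.flow_zero (xi_norm c), toMatrix_one, one_mul] at h1
  obtain ⟨L, hL⟩ : ∃ L : Mat (n + 1) →ₗ[ℝ] ℂ, ∀ M, L M = herm ((g.toMatrix * M) *ᵥ w) p := by
    refine ⟨{ toFun := fun M => herm ((g.toMatrix * M) *ᵥ w) p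
              map_add' := fun A B => ?_
              map_smul' := fun r A => ?_ }, fun M => rfl⟩
    · rw [Matrix.mul_add, Matrix.add_mulVec, herm_add_left]
    · rw [Matrix.mul_smul, Matrix.smul_mulVec]
      have e : ((r : ℝ) • ((g.toMatrix * A) *ᵥ w)) = ((r : ℂ) • ((g.toMatrix * A) *ᵥ w)) := by
        ext i
        simp
      rw [e, herm_smul_left]
      simp
  have h2 := (LinearMap.toContinuousLinearMap L).hasFDerivAt.comp_hasDerivAt (0 : ℝ) h1
  have e1 : (fun t => herm (act (g * ba c t) w) p) =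
      (LinearMap.toContinuousLinearMap L) ∘ fun t => (Kak.flow (xi c) (xi_norm c) t).toMatrix := by
    funext t
    show herm (act (g * ba c t) w) p = L _
    rw [hL, act, toMatrix_mul]
    rfl
  have e2 : herm (act g (Xa c *ᵥ w)) p = (LinearMap.toContinuousLinearMap L) (xmat (xi c)) := by
    show _ = L _
    rw [hL, act, Matrix.mulVec_mulVec]
    rfl
  rw [e1, e2]
  exact h2

theorem Xa_base (c : Ix n) : Xa c *ᵥ base n = vec (xi c) := by
  rw [Xa, xmat, Matrix.add_mulVec, Matrix.vecMulVec_mulVec, Matrix.vecMulVec_mulVec,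
    Kak.base_dot_base, Kak.star_vec_dot_base]
  simp

/-- The inner product of the directions. -/
noncomputable def ip2 (d c : Ix n) : ℂ := star (vec (xi d)) ⬝ᵥ vec (xi c)

theorem Xa_vec (d c : Ix n) : Xa d *ᵥ vec (xi c) = ip2 d c • base n := by
  rw [Xa, xmat, Matrix.add_mulVec, Matrix.vecMulVec_mulVec, Matrix.vecMulVec_mulVec,
    Kak.base_dot_vec, ip2]
  simp

theorem ip2_eq (d c : Ix n) : ip2 d c = ∑ i, star (xi d i) * xi c i := by
  rw [ip2, dotProduct, Fin.sum_univ_castSucc]
  simp only [Pi.star_apply, Kak.vec_castSucc, Kak.vec_last, star_zero, zero_mul, add_zero]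

theorem norm_ip2 (d c : Ix n) : ‖ip2 d c‖ ≤ 1 := by
  rw [ip2_eq]
  have h1 : ‖∑ i, star (xi d i) * xi c i‖ ≤ ∑ i, ‖xi d i‖ * ‖xi c i‖ := by
    refine (norm_sum_le _ _).trans (le_of_eq ?_)
    exact Finset.sum_congr rfl fun i _ => by rw [norm_mul, norm_star]
  refine h1.trans ?_
  have h2 := Finset.sum_mul_sq_le_sq_mul_sq Finset.univ (fun i => ‖xi d i‖) fun i => ‖xi c i‖
  rw [xi_norm, xi_norm, one_mul] at h2
  have h3 : 0 ≤ ∑ i, ‖xi d i‖ * ‖xi c i‖ :=
    Finset.sum_nonneg fun _ _ => mul_nonneg (norm_nonneg _) (norm_nonneg _)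
  nlinarith

section
variable {p : Vec n}

/-- The quotient `herm (g ξ_c, p) / herm (g e, p)`. -/
noncomputable def uu (p : Vec n) (c : Ix n) (g : SUGroup n) : ℂ :=
  herm (act g (vec (xi c))) p / herm (act g (base n)) p

theorem herm_inv (g : SUGroup n) (w p : Vec n) : herm (act g w) p = herm w (act g⁻¹ p) := by
  have h := herm_act g w (act g⁻¹ p)
  rwa [← act_mul, mul_inv_cancel, act_one] at h

theorem herm_base_eq (w : Vec n) : herm (base n) w = -w (Fin.last n) := by
  rw [herm_eq]
  simp [Kak.base_castSucc, Kak.base_last]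

theorem last_ne_of_null {w : Vec n} (hw : w ≠ 0) (hq : q w = 0) : w (Fin.last n) ≠ 0 := by
  intro h0
  rw [q_eq, h0, norm_zero] at hq
  have h1 : ∑ i : Fin n, ‖w i.castSucc‖ ^ 2 = 0 := by linarith
  have h2 := (Finset.sum_eq_zero_iff_of_nonneg fun i _ => sq_nonneg _).1 h1
  refine hw ?_
  ext i
  refine Fin.lastCases ?_ (fun i => ?_) i
  · exact h0
  · have h3 := h2 i (Finset.mem_univ i)
    have h4 : ‖w i.castSucc‖ = 0 := by
      rwa [sq_eq_zero_iff] at h3
    exact norm_eq_zero.1 h4

theorem herm_orbit_ne (hp : p ≠ 0) (hq : q p = 0) (g : SUGroup n) :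
    herm (act g (base n)) p ≠ 0 := by
  rw [herm_inv, herm_base_eq]
  refine neg_ne_zero.2 (last_ne_of_null ?_ ?_)
  · intro h
    have h1 : act g (act g⁻¹ p) = p := by rw [← act_mul, mul_inv_cancel, act_one]
    rw [h] at h1
    refine hp ?_
    rw [← h1, act, Matrix.mulVec_zero]
  · rw [q_act, hq]

theorem norm_uu (hp : p ≠ 0) (hq : q p = 0) (c : Ix n) (g : SUGroup n) : ‖uu p c g‖ ≤ 1 := by
  have h0 := herm_orbit_ne hp hq g
  rw [uu, norm_div, div_le_one (norm_pos_iff.2 h0), herm_inv, herm_inv g (base n)]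
  set w := act g⁻¹ p with hw
  have hqw : q w = 0 := by rw [hw, q_act, hq]
  rw [herm_base_eq, norm_neg, herm_eq]
  simp only [Kak.vec_castSucc, Kak.vec_last, star_zero, zero_mul, sub_zero]
  have h1 : ‖∑ i, star (xi c i) * w i.castSucc‖ ≤ ∑ i, ‖xi c i‖ * ‖w i.castSucc‖ := by
    refine (norm_sum_le _ _).trans (le_of_eq ?_)
    exact Finset.sum_congr rfl fun i _ => by rw [norm_mul, norm_star]
  refine h1.trans ?_
  have h2 := Finset.sum_mul_sq_le_sq_mul_sq Finset.univ (fun i => ‖xi c i‖)
    fun i => ‖w i.castSucc‖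
  rw [xi_norm, one_mul] at h2
  rw [q_eq] at hqw
  have h3 : ∑ i : Fin n, ‖w i.castSucc‖ ^ 2 = ‖w (Fin.last n)‖ ^ 2 := by linarith
  rw [h3] at h2
  have h4 : 0 ≤ ∑ i, ‖xi c i‖ * ‖w i.castSucc‖ :=
    Finset.sum_nonneg fun _ _ => mul_nonneg (norm_nonneg _) (norm_nonneg _)
  exact (pow_le_pow_iff_left₀ h4 (norm_nonneg _) two_ne_zero).1 h2

/-- The derivative of `uu`. -/
theorem hasDerivAt_uu (hp : p ≠ 0) (hq : q p = 0) (c d : Ix n) (g : SUGroup n) :
    HasDerivAt (fun t => uu p c (g * ba d t)) (star (ip2 d c) - uu p c g * uu p d g) 0 := by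
  have h1 := hasDerivAt_hw (vec (xi c)) p d g
  have h2 := hasDerivAt_hw (base n) p d g
  have h0 : herm (act (g * ba d 0) (base n)) p ≠ 0 := herm_orbit_ne hp hq _
  have h3 := h1.div h2 h0
  rw [ba_zero, mul_one] at h3
  refine h3.congr_deriv ?_
  have h4 := herm_orbit_ne hp hq g
  rw [Xa_base, Xa_vec, act_smul, herm_smul_left, uu, uu]
  field_simp

/-- The logarithm of the height. -/
noncomputable def lg (p : Vec n) (g : SUGroup n) : ℝ := Real.log (yp p (act g (base n)))

theorem lg_eq (hp : p ≠ 0) (hq : q p = 0) (g : SUGroup n) :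
    lg p g = -Real.log (‖herm (act g (base n)) p‖ ^ 2) := by
  have _ := hp
  have _ := hq
  rw [lg, yp, q_orbit, neg_neg, one_div, Real.log_inv]

theorem hasDerivAt_lg (hp : p ≠ 0) (hq : q p = 0) (c : Ix n) (g : SUGroup n) :
    HasDerivAt (fun t => lg p (g * ba c t)) (-(2 * (uu p c g).re)) 0 := by
  have e : (fun t => lg p (g * ba c t)) =
      fun t => -Real.log (‖herm (act (g * ba c t) (base n)) p‖ ^ 2) := by
    funext t
    exact lg_eq hp hq _
  rw [e]
  have h1 := (hasDerivAt_hw (base n) p c g).norm_sq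
  have h0 : herm (act (g * ba c 0) (base n)) p ≠ 0 := herm_orbit_ne hp hq _
  have h2 := (h1.log (pow_ne_zero 2 (norm_ne_zero_iff.2 h0))).neg
  rw [ba_zero, mul_one] at h2
  refine h2.congr_deriv ?_
  rw [Xa_base]
  have h4 := herm_orbit_ne hp hq g
  have h5 : ‖herm (act g (base n)) p‖ ^ 2 ≠ 0 := pow_ne_zero 2 (norm_ne_zero_iff.2 h4)
  have h6 : (uu p c g).re * ‖herm (act g (base n)) p‖ ^ 2 =
      inner ℝ (herm (act g (base n)) p) (herm (act g (vec (xi c))) p) := by
    rw [uu, Complex.inner, Complex.div_re, ← Complex.normSq_eq_norm_sq, Complex.mul_re,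
      Complex.conj_re, Complex.conj_im]
    have h7 : Complex.normSq (herm (act g (base n)) p) ≠ 0 := by
      rw [Complex.normSq_eq_norm_sq]
      exact h5
    field_simp
    ring
  rw [← h6]
  field_simp

private theorem cont_hw (w : Vec n) : Continuous fun g : SUGroup n => herm (act g w) p := by
  have h : Continuous fun g : SUGroup n => act g w := continuous_actv w
  unfold herm
  exact (h.star).dotProduct continuous_const

theorem continuous_uu (hp : p ≠ 0) (hq : q p = 0) (c : Ix n) : Continuous (uu p c) :=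
  (cont_hw _).div (cont_hw _) fun g => herm_orbit_ne hp hq g

theorem c2_lg (hp : p ≠ 0) (hq : q p = 0) : C2 ba (lg p) ∧
    (∀ c, XD (ba c) (lg p) = fun g => -(2 * (uu p c g).re)) ∧
    ∀ c d, XD (ba d) (XD (ba c) (lg p)) = fun g => -(2 * (star (ip2 d c) - uu p c g * uu p d g).re) := by
  refine C2.of_hasDerivAt ?_ (hasDerivAt_lg hp hq)
    (fun c => ((Complex.continuous_re.comp (continuous_uu hp hq c)).const_mul 2).neg)
    (fun c d g => ?_) fun c d => ?_
  · have e : lg p = fun g => -Real.log (‖herm (act g (base n)) p‖ ^ 2) := funext (lg_eq hp hq)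
    rw [e]
    exact (((cont_hw _).norm.pow 2).log fun g =>
      pow_ne_zero 2 (norm_ne_zero_iff.2 (herm_orbit_ne hp hq g))).neg
  · have h1 := hasDerivAt_uu hp hq c d g
    have h2 := (Complex.reCLM.hasFDerivAt.comp_hasDerivAt (0 : ℝ) h1)
    exact (h2.const_mul 2).neg
  · exact ((Complex.continuous_re.comp (continuous_const.sub
      ((continuous_uu hp hq c).mul (continuous_uu hp hq d)))).const_mul 2).neg

theorem smG_lg (hp : p ≠ 0) (hq : q p = 0) : SmG (lg p) := by
  obtain ⟨L, hL⟩ : ∃ L : Mat (n + 1) →L[ℝ] ℂ, ∀ M, L M = herm (M *ᵥ base n) p := by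
    let L0 : Mat (n + 1) →ₗ[ℝ] ℂ :=
      { toFun := fun M => herm (M *ᵥ base n) p
        map_add' := fun A B => by rw [Matrix.add_mulVec, herm_add_left]
        map_smul' := fun r A => by
          rw [Matrix.smul_mulVec]
          have e : ((r : ℝ) • (A *ᵥ base n)) = ((r : ℂ) • (A *ᵥ base n)) := by
            ext i
            simp
          rw [e, herm_smul_left]
          simp }
    exact ⟨LinearMap.toContinuousLinearMap L0, fun M => rfl⟩
  refine SmG.of_on fun g => ⟨{M | L M ≠ 0}, fun M => -Real.log (‖L M‖ ^ 2),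
    isOpen_ne_fun L.continuous continuous_const, ?_, fun M hM => ?_,
    Filter.Eventually.of_forall fun h => ?_⟩
  · show L g.toMatrix ≠ 0
    rw [hL]
    exact herm_orbit_ne hp hq g
  · have h1 : ContDiffAt ℝ (⊤ : ℕ∞) (fun M => ‖L M‖ ^ 2) M :=
      ((contDiff_norm_sq ℝ).comp L.contDiff).contDiffAt
    exact (h1.log (pow_ne_zero 2 (norm_ne_zero_iff.2 hM))).neg.contDiffWithinAt
  · show lg p h = -Real.log (‖L h.toMatrix‖ ^ 2)
    rw [lg_eq hp hq, hL]
    rfl

theorem lg_bounds (hp : p ≠ 0) (hq : q p = 0) (c d : Ix n) (g : SUGroup n) :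
    |XD (ba c) (lg p) g| ≤ 2 ∧ |XD (ba d) (XD (ba c) (lg p)) g| ≤ 4 := by
  have h := c2_lg hp hq
  rw [h.2.2 c d, h.2.1 c]
  have h1 := norm_uu hp hq c g
  have h2 := norm_uu hp hq d g
  have h3 := norm_ip2 d c
  constructor
  · rw [abs_neg, abs_mul, abs_two]
    have h4 := Complex.abs_re_le_norm (uu p c g)
    linarith
  · rw [abs_neg, abs_mul, abs_two]
    have h4 := Complex.abs_re_le_norm (star (ip2 d c) - uu p c g * uu p d g)
    have h5 := norm_sub_le (star (ip2 d c)) (uu p c g * uu p d g)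
    rw [norm_star, norm_mul] at h5
    have h6 : ‖uu p c g‖ * ‖uu p d g‖ ≤ 1 := mul_le_one₀ h1 (norm_nonneg _) h2
    linarith

end

/-- Bounds for the derivatives of the smooth transition. -/
theorem trans_bounds : ∃ B : ℝ, 0 ≤ B ∧ ∀ x, |deriv Real.smoothTransition x| ≤ B ∧
    |deriv (deriv Real.smoothTransition) x| ≤ B := by
  have hcd : ContDiff ℝ (⊤ : ℕ∞) Real.smoothTransition := Real.smoothTransition.contDiff
  have hc1 : ContDiff ℝ (⊤ : ℕ∞) (deriv Real.smoothTransition) :=
    (contDiff_infty_iff_deriv.1 hcd).2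
  have hc2 : ContDiff ℝ (⊤ : ℕ∞) (deriv (deriv Real.smoothTransition)) :=
    (contDiff_infty_iff_deriv.1 hc1).2
  obtain ⟨B1, hB1⟩ := (isCompact_Icc (a := (0 : ℝ)) (b := 1)).exists_bound_of_continuousOn
    hc1.continuous.continuousOn
  obtain ⟨B2, hB2⟩ := (isCompact_Icc (a := (0 : ℝ)) (b := 1)).exists_bound_of_continuousOn
    hc2.continuous.continuousOn
  have h0 : 0 ≤ B1 := (norm_nonneg _).trans (hB1 0 ⟨le_rfl, zero_le_one⟩)
  have hz : ∀ x, x ∉ Set.Icc (0 : ℝ) 1 → deriv Real.smoothTransition =ᶠ[𝓝 x] fun _ => 0 := by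
    intro x hx
    have h1 : ∃ a : ℝ, Real.smoothTransition =ᶠ[𝓝 x] fun _ => a := by
      rcases lt_or_ge x 0 with h | h
      · refine ⟨0, ?_⟩
        filter_upwards [Iio_mem_nhds h] with z hz
        exact Real.smoothTransition.zero_of_nonpos (le_of_lt hz)
      · have h2 : 1 < x := by
          by_contra h3
          exact hx ⟨h, not_lt.1 h3⟩
        refine ⟨1, ?_⟩
        filter_upwards [Ioi_mem_nhds h2] with z hz
        exact Real.smoothTransition.one_of_one_le (le_of_lt hz)
    obtain ⟨a, ha⟩ := h1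
    have h2 := eventually_eventually_nhds.2 ha
    filter_upwards [h2] with z hz
    have h3 : Real.smoothTransition =ᶠ[𝓝 z] fun _ => a := hz
    rw [h3.deriv_eq, deriv_const]
  refine ⟨max B1 B2, h0.trans (le_max_left _ _), fun x => ?_⟩
  by_cases hx : x ∈ Set.Icc (0 : ℝ) 1
  · exact ⟨(hB1 x hx).trans (le_max_left _ _), (hB2 x hx).trans (le_max_right _ _)⟩
  · have h1 := hz x hx
    rw [h1.eq_of_nhds, h1.deriv_eq, deriv_const, abs_zero]
    exact ⟨h0.trans (le_max_left _ _), h0.trans (le_max_left _ _)⟩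

section
variable {T : ℝ} {y : Vec n → ℝ}

/-- Cut-offs exist. -/
theorem ct_of_ht (hy : Ht Γ T y) : Ct (ba (n := n)) Γ (SmG (n := n)) := by
  intro F hF ε hε
  obtain ⟨B, hB0, hB⟩ := trans_bounds
  have hyc : Continuous fun g : SUGroup n => y (act g (base n)) := continuous_orb hy.cont_c
  obtain ⟨M, hM⟩ := hF.exists_bound_of_continuousOn hyc.continuousOn
  set R : ℝ := max 1 (max T (max (Real.log (max M 1) + 1) (8 * B / ε))) with hR
  have hR1 : 1 ≤ R := le_max_left _ _
  have hR0 : 0 < R := lt_of_lt_of_le one_pos hR1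
  have hRT : T ≤ R := (le_max_left _ _).trans (le_max_right _ _)
  have hRM : Real.log (max M 1) + 1 ≤ R :=
    ((le_max_left _ _).trans (le_max_right _ _)).trans (le_max_right _ _)
  have hRε : 8 * B / ε ≤ R :=
    ((le_max_right _ _).trans (le_max_right _ _)).trans (le_max_right _ _)
  have hTe : T ≤ Real.exp R := hRT.trans (by linarith [Real.add_one_le_exp R])
  obtain ⟨Q, hQ, hQc⟩ := hy.cpt (Real.exp (2 * R))
  set Φ : SUGroup n → ℝ := fun g =>
    Real.smoothTransition (2 - Real.log (y (act g (base n))) / R) with hΦ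
  have hlc : Continuous fun g : SUGroup n => Real.log (y (act g (base n))) :=
    hyc.log fun g => (hy.pos (orbit_mem g)).ne'
  have hone : ∀ g, Real.log (y (act g (base n))) < R → Φ g = 1 := by
    intro g h
    refine Real.smoothTransition.one_of_one_le ?_
    have : Real.log (y (act g (base n))) / R < 1 := by rwa [div_lt_one hR0]
    linarith
  -- the local forms
  have hloc : ∀ g, (Φ =ᶠ[𝓝 g] fun _ => 1) ∨ ∃ p : Vec n, p ≠ 0 ∧ q p = 0 ∧
      Φ =ᶠ[𝓝 g] fun h => Real.smoothTransition (2 - lg p h / R) := by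
    intro g
    by_cases h : Real.log (y (act g (base n))) < R
    · left
      have h1 : ∀ᶠ h in 𝓝 g, Real.log (y (act h (base n))) < R :=
        hlc.continuousAt.eventually_lt_const h
      filter_upwards [h1] with h hh
      exact hone h hh
    · right
      have h1 : T ≤ y (act g (base n)) := by
        refine hTe.trans ?_
        rw [← Real.le_log_iff_exp_le (hy.pos (orbit_mem g))]
        exact not_lt.1 h
      obtain ⟨p, hp, hqp, h5, -, hloc⟩ := hy.nul g h1
      refine ⟨p, hp, hqp, ?_⟩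
      have hcy : Continuous fun h : SUGroup n => yp p (act h (base n)) := by
        have e : (fun h : SUGroup n => yp p (act h (base n))) =
            fun h => 1 / ‖herm (act h (base n)) p‖ ^ 2 := by
          funext h
          rw [yp, q_orbit, neg_neg]
        rw [e]
        exact continuous_const.div ((cont_hw (base n)).norm.pow 2) fun g =>
          pow_ne_zero 2 (norm_ne_zero_iff.2 (herm_orbit_ne hp hqp g))
      have h6 : ∀ᶠ h in 𝓝 g, T < 4 * yp p (act h (base n)) := by
        refine (continuous_const.mul hcy).continuousAt.eventually_const_lt ?_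
        show T < 4 * yp p (act g (base n))
        rw [← h5]
        have := hy.pos (orbit_mem g)
        linarith
      filter_upwards [h6] with h hh
      show Real.smoothTransition (2 - Real.log (y (act h (base n))) / R) = _
      rw [hloc h hh.le, lg]
  have hcd : ContDiff ℝ (⊤ : ℕ∞) Real.smoothTransition := Real.smoothTransition.contDiff
  have hc1 : ContDiff ℝ (⊤ : ℕ∞) (deriv Real.smoothTransition) :=
    (contDiff_infty_iff_deriv.1 hcd).2
  have hlin : ∀ x : ℝ, HasDerivAt (fun x : ℝ => 2 - x / R) (-(1 / R)) x := fun x =>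
    ((hasDerivAt_id x).div_const R).const_sub 2
  have hF1 : ∀ x : ℝ, HasDerivAt (fun x : ℝ => Real.smoothTransition (2 - x / R))
      (deriv Real.smoothTransition (2 - x / R) * -(1 / R)) x := fun x =>
    HasDerivAt.comp x ((hcd.differentiable (by norm_num)).differentiableAt.hasDerivAt) (hlin x)
  have hF2 : ∀ x : ℝ, HasDerivAt (fun x : ℝ => deriv Real.smoothTransition (2 - x / R) * -(1 / R))
      (deriv (deriv Real.smoothTransition) (2 - x / R) * -(1 / R) * -(1 / R)) x := fun x =>
    (HasDerivAt.comp x ((hc1.differentiable (by norm_num)).differentiableAt.hasDerivAt)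
      (hlin x)).mul_const _
  have hc2 : Continuous (deriv (deriv Real.smoothTransition)) :=
    (contDiff_infty_iff_deriv.1 hc1).2.continuous
  refine ⟨Φ, Q, hQ, ?_, fun g => Real.smoothTransition.nonneg _,
    fun g => Real.smoothTransition.le_one _, fun γ hγ g => ?_, fun g hg => ?_, fun g hg => ?_,
    fun c d g => ?_⟩
  · refine SmG.of_local fun g => ?_
    rcases hloc g with h | ⟨p, hp, hqp, h⟩
    · exact ⟨_, SmG.const 1, h⟩
    · refine ⟨_, ?_, h⟩
      have h1 : ContDiff ℝ (⊤ : ℕ∞) fun x : ℝ => Real.smoothTransition (2 - x / R) :=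
        hcd.comp (contDiff_const.sub (contDiff_id.div_const R))
      exact SmG.comp (S := fun x : ℝ => Real.smoothTransition (2 - x / R)) h1 (smG_lg hp hqp)
  · rw [hΦ]
    simp only [act_mul, hy.inv γ hγ _ (orbit_mem g)]
  · refine hQc g ?_
    by_contra hcon
    have h1 : 2 * R < Real.log (y (act g (base n))) := by
      rwa [Real.lt_log_iff_exp_lt (hy.pos (orbit_mem g)), ← not_le]
    refine hg (Real.smoothTransition.zero_of_nonpos ?_)
    have : 2 < Real.log (y (act g (base n))) / R := by rwa [lt_div_iff₀ hR0]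
    linarith
  · refine hone g ?_
    have h1 : y (act g (base n)) ≤ max M 1 :=
      ((le_abs_self _).trans (hM g hg)).trans (le_max_left _ _)
    have h2 := Real.log_le_log (hy.pos (orbit_mem g)) h1
    linarith
  · rcases hloc g with h | ⟨p, hp, hqp, h⟩
    · rw [XD2_congr fl_ba c d h]
      have e : XD (ba c) (fun _ : SUGroup n => (1 : ℝ)) = fun _ => 0 := by
        funext g
        unfold XD
        rw [deriv_const]
      rw [e]
      unfold XD
      rw [deriv_const, abs_zero]
      exact hε.le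
    · rw [XD2_congr fl_ba c d h]
      have h1 := (c2_lg hp hqp).1.comp fl_ba (F := fun x => Real.smoothTransition (2 - x / R))
        (F1 := fun x => deriv Real.smoothTransition (2 - x / R) * -(1 / R))
        (F2 := fun x => deriv (deriv Real.smoothTransition) (2 - x / R) * -(1 / R) * -(1 / R))
        (fun g => hF1 _) (fun g => hF2 _) (((hc2.comp (continuous_const.sub
          ((c2_lg hp hqp).1.c0.div_const R))).mul continuous_const).mul continuous_const)
      rw [h1.2.2 c d g]
      have b1 := (lg_bounds hp hqp c d g).1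
      have b2 := (lg_bounds hp hqp d d g).1
      have b3 := (lg_bounds hp hqp c d g).2
      have b4 := (hB (2 - lg p g / R)).1
      have b5 := (hB (2 - lg p g / R)).2
      set u1 := XD (ba c) (lg p) g
      set u2 := XD (ba d) (lg p) g
      set u3 := XD (ba d) (XD (ba c) (lg p)) g
      set s1 := deriv Real.smoothTransition (2 - lg p g / R)
      set s2 := deriv (deriv Real.smoothTransition) (2 - lg p g / R)
      have hRi : 0 < 1 / R := by positivity
      have hRi1 : 1 / R ≤ 1 := by rw [div_le_one hR0]; exact hR1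
      have t1 : |s2 * -(1 / R) * -(1 / R) * u2 * u1| ≤ 4 * B * (1 / R) := by
        rw [abs_mul, abs_mul, abs_mul, abs_mul, abs_neg, abs_of_pos hRi]
        have e1 : |s2| * (1 / R) * (1 / R) ≤ B * (1 / R) * 1 := by
          gcongr
        calc |s2| * (1 / R) * (1 / R) * |u2| * |u1| ≤ (B * (1 / R) * 1) * 2 * 2 := by
              gcongr
          _ = 4 * B * (1 / R) := by ring
      have t2 : |s1 * -(1 / R) * u3| ≤ 4 * B * (1 / R) := by
        rw [abs_mul, abs_mul, abs_neg, abs_of_pos hRi]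
        calc |s1| * (1 / R) * |u3| ≤ B * (1 / R) * 4 := by gcongr
          _ = 4 * B * (1 / R) := by ring
      have t3 : 8 * B * (1 / R) ≤ ε := by
        rw [div_le_iff₀ hε] at hRε
        rw [mul_one_div, div_le_iff₀ hR0]
        linarith
      refine (abs_add_le _ _).trans ?_
      linarith

end

end Pool.Agent.Lib.MP_5d4057_al.IN.D
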