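import Pool.Agent.Lib.MP_5d4057_al.HM.Lav
import Pool.Agent.Lib.MP_5d4057_al.HM.Kak

/-!
# INT, part D: Bochner, Siu and plurisubharmonicity. Definitions

Leader helper58; text `h50_int.md` (part D) with the changes of helper58: everything is stated for an
abstract system of blocks (`Good`), so that this part does not know about norms. Files `D*.lean`.
Conventions: functions on the group are `u : SUGroup n → ℝ`; functions on the hyperbolic space are
functions on the cone, evaluated at `act g (base n)`. Test functions are restrictions to the group of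
smooth functions with compact support on the space `Mat (n + 1)`.
-/

set_option autoImplicit false

namespace Pool.Agent.Lib.MP_5d4057_al.IN.D

open Matrix MeasureTheory Filter Topology Pool.Agent.Lib.MP_5d4057_al
  Pool.Agent.Lib.MP_5d4057_al.Hyb Pool.Agent.Lib.MP_5d4057_al.HM

open scoped ComplexOrder MatrixOrder Matrix.Norms.L2Operator ENNReal

variable {n : ℕ}

/-- The real directions: `(j, false)` is `e_j`, `(j, true)` is `i e_j`. -/
abbrev Ix (n : ℕ) : Type := Fin n × Bool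

/-- The unit vector number `a`. -/
noncomputable def xi (a : Ix n) : Fin n → ℂ := Pi.single a.1 (if a.2 then Complex.I else 1)

theorem xi_norm (a : Ix n) : ∑ i, ‖xi a i‖ ^ 2 = 1 := by
  rw [Finset.sum_eq_single a.1]
  · rw [xi, Pi.single_eq_same]
    split_ifs <;> simp
  · intro i _ hi
    rw [xi, Pi.single_eq_of_ne hi]
    simp
  · intro h
    exact absurd (Finset.mem_univ _) h

/-- The element `X_a` of the Lie algebra. -/
noncomputable def Xa (a : Ix n) : Mat (n + 1) := xmat (xi a)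

/-- The right flow of `X_a`. -/
noncomputable def ba (a : Ix n) (t : ℝ) : SUGroup n := Kak.flow (xi a) (xi_norm a) t

/-- The derivative `X F` of a function of matrices (right invariant flows `M exp(t X)`). -/
noncomputable def dX (X : Mat (n + 1)) (F : Mat (n + 1) → ℝ) (M : Mat (n + 1)) : ℝ :=
  fderiv ℝ F M (M * X)

/-- The domain in the group over a set `U` of the cone. -/
def orb (U : Set (Vec n)) : Set (SUGroup n) := {g | act g (base n) ∈ U}

/-- Smooth functions with compact support on the space of matrices, with support (in the group) in `O`. -/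
structure Cs (O : Set (SUGroup n)) (Φ : Mat (n + 1) → ℝ) : Prop where
  smooth : ContDiff ℝ (⊤ : ℕ∞) Φ
  supp : HasCompactSupport Φ
  sub : ∀ g : SUGroup n, g.toMatrix ∈ tsupport Φ → g ∈ O

/-- Test functions: nonnegative on the group. -/
structure Tst (O : Set (SUGroup n)) (Φ : Mat (n + 1) → ℝ) : Prop extends Cs O Φ where
  nonneg : ∀ g : SUGroup n, 0 ≤ Φ g.toMatrix

/-- `G` is the gradient of the continuous function `u` on the open set `O`, in the strong sense: on
compact sets `u` is uniformly approximated by smooth functions whose derivatives tend to `G` in `L²`. -/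
structure Wg (O : Set (SUGroup n)) (u : SUGroup n → ℝ) (G : Ix n → SUGroup n → ℝ) : Prop where
  cont : ContinuousOn u O
  meas : ∀ c, AEStronglyMeasurable (G c) ((mu n).restrict O)
  approx : ∀ K ⊆ O, IsCompact K → ∀ ε > 0, ∃ U : Mat (n + 1) → ℝ, ContDiff ℝ (⊤ : ℕ∞) U ∧
    (∀ g ∈ K, |U g.toMatrix - u g| ≤ ε) ∧
    ∀ c, eLpNorm (fun g : SUGroup n => dX (Xa c) U g.toMatrix - G c g) 2 ((mu n).restrict K) ≤
      ENNReal.ofReal ε

/-- The trace of the form `q` (twice the energy density). -/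
def tr (q : Ix n → Ix n → SUGroup n → ℝ) (g : SUGroup n) : ℝ := ∑ a, q a a g

/-- The gradient of the trace; `G c a b` is `X_c q_ab`. -/
def trG (G : Ix n → Ix n → Ix n → SUGroup n → ℝ) (c : Ix n) (g : SUGroup n) : ℝ := ∑ a, G c a a g

/-- `|G|²`. -/
def nsq (G : Ix n → Ix n → Ix n → SUGroup n → ℝ) (g : SUGroup n) : ℝ :=
  ∑ c, ∑ a, ∑ b, G c a b g ^ 2

/-- Siu's form: `(1/16)` of it is the real part of
`∫ ∑ (β_ii Zb_j Z_j Φ - β_ij Zb_i Z_j Φ)` with `β_ij = Z_i h Zb_j h`, if `q_ab = X_a h X_b h`. -/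
noncomputable def Siu (q : Ix n → Ix n → SUGroup n → ℝ) (Φ : Mat (n + 1) → ℝ) : ℝ :=
  ∫ g : SUGroup n, ∑ i : Fin n, ∑ j : Fin n,
    ((q (i, false) (i, false) g + q (i, true) (i, true) g) *
        (dX (Xa (j, false)) (dX (Xa (j, false)) Φ) g.toMatrix +
          dX (Xa (j, true)) (dX (Xa (j, true)) Φ) g.toMatrix) -
      (q (i, false) (j, false) g + q (i, true) (j, true) g) *
        (dX (Xa (i, false)) (dX (Xa (j, false)) Φ) g.toMatrix +
          dX (Xa (i, true)) (dX (Xa (j, true)) Φ) g.toMatrix) +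
      (q (i, false) (j, true) g - q (i, true) (j, false) g) *
        (dX (Xa (i, true)) (dX (Xa (j, false)) Φ) g.toMatrix -
          dX (Xa (i, false)) (dX (Xa (j, true)) Φ) g.toMatrix)) ∂(mu n)

/-- DATA (text D2): a continuous dominated symmetric form with gradient, with the inequality of Bochner
(`p2`) and the inequality of Siu (`p3`). Here `0⁻¹ = 0`. -/
structure Dat (O : Set (SUGroup n)) (q : Ix n → Ix n → SUGroup n → ℝ)
    (G : Ix n → Ix n → Ix n → SUGroup n → ℝ) : Prop where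
  symm : ∀ a b, ∀ g ∈ O, q a b g = q b a g
  dom : ∀ a b, ∀ g ∈ O, |q a b g| ≤ tr q g
  grad : ∀ a b, Wg O (q a b) fun c => G c a b
  zero : ∀ c a b, ∀ g ∈ O, tr q g = 0 → G c a b g = 0
  int : ∀ Φ, Tst O Φ → Integrable (fun g => (tr q g)⁻¹ * nsq G g * Φ g.toMatrix) (mu n)
  p2 : ∀ Φ, Tst O Φ → ∫ g, (tr q g)⁻¹ * nsq G g * Φ g.toMatrix ∂(mu n) ≤
    -(2 * ∑ c, ∫ g, trG G c g * dX (Xa c) Φ g.toMatrix ∂(mu n)) +
      (8 * n + 8) * ∫ g, tr q g * Φ g.toMatrix ∂(mu n)
  p3 : ∀ Φ, Tst O Φ → 0 ≤ Siu q Φ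

/-- Plurisubharmonicity in the weak sense. -/
def PW (O : Set (SUGroup n)) (y : SUGroup n → ℝ) : Prop := ∀ Φ, Tst O Φ → ∀ j : Fin n,
  0 ≤ ∫ g, y g * (dX (Xa (j, false)) (dX (Xa (j, false)) Φ) g.toMatrix +
    dX (Xa (j, true)) (dX (Xa (j, true)) Φ) g.toMatrix) ∂(mu n)

/-- A function on the cone as a function on the group. -/
def onG (y : Vec n → ℝ) (g : SUGroup n) : ℝ := y (act g (base n))

/-- Homogeneous continuous functions of polynomial growth on the cone. -/
structure Fn (y : Vec n → ℝ) : Prop where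
  hom : Homog y
  cont : ContinuousOn y (Cone n)
  adm : ∃ (N : ℕ) (C : ℝ), Adm N C y

/-- Zero slope at `v₀`. -/
def ZeroSlope (φ : Vec n → Vec n → ℝ) (v₀ : Vec n) : Prop :=
  ∀ ε > 0, ∀ᶠ p : Vec n × Vec n in 𝓝 (v₀, v₀), φ p.1 p.2 ≤ ε * ‖p.1 - p.2‖ ^ 2

/-- The common part of the definition of `Good`: `φ v w` is (for a block `p` of norms) the sum of the
squares of the normalised positions of `f v` and `f w` on the block, and `S` is the set of the functions
`u_w - a_p / r`, `w` a nonzero vector of the block. -/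
structure Basic (U : Set (Vec n)) (φ : Vec n → Vec n → ℝ) (S : Set (Vec n → ℝ)) : Prop where
  isOpen : IsOpen U
  sub : U ⊆ Cone n
  nonneg : ∀ v ∈ U, ∀ w ∈ U, 0 ≤ φ v w
  fn : ∀ y ∈ S, Fn y
  lip : ∀ y ∈ S, ∀ v ∈ U, ∀ w ∈ U, (y w - y v) ^ 2 ≤ φ v w

/-- The relation between a block and its two parts on an open set `U`: `b = a_{p₁}/r₁ - a_{p₂}/r₂`,
`c = r₁ r₂ / r`, `t = r₂ / r`. -/
structure Split (U : Set (Vec n)) (φ φ₁ φ₂ : Vec n → Vec n → ℝ) (S S₁ S₂ : Set (Vec n → ℝ))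
    (b : Vec n → ℝ) (c t : ℝ) : Prop where
  fn : Fn b
  smooth : ContDiffOn ℝ (⊤ : ℕ∞) b U
  harm : ∀ v ∈ U, Lap b v = 0
  pos : 0 < c
  eq : ∀ v ∈ U, ∀ w ∈ U, φ v w = φ₁ v w + φ₂ v w + c * (b w - b v) ^ 2
  mem : ∀ y ∈ S, (∃ y₁ ∈ S₁, ∃ y₂ ∈ S₂, ∀ v ∈ U, y v = max (y₁ v + t * b v) (y₂ v - (1 - t) * b v)) ∨
    (∃ y₁ ∈ S₁, ∀ v ∈ U, y v = y₁ v + t * b v) ∨ (∃ y₂ ∈ S₂, ∀ v ∈ U, y v = y₂ v - (1 - t) * b v)

/-- The structure theorem (Theorem S of the text, iterated): near every point the block has zero slope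
or it splits into two smaller blocks, with a nontrivial harmonic function `b`. -/
def Good : ℕ → Set (Vec n) → (Vec n → Vec n → ℝ) → Set (Vec n → ℝ) → Prop
  | 0, U, φ, S => Basic U φ S ∧ ∀ v₀ ∈ U, ZeroSlope φ v₀
  | r + 1, U, φ, S => Basic U φ S ∧ ∀ v₀ ∈ U, ZeroSlope φ v₀ ∨
      ∃ (U' : Set (Vec n)) (φ₁ φ₂ : Vec n → Vec n → ℝ) (S₁ S₂ : Set (Vec n → ℝ)) (b : Vec n → ℝ)
        (c t : ℝ), v₀ ∈ U' ∧ U' ⊆ U ∧ Good r U' φ₁ S₁ ∧ Good r U' φ₂ S₂ ∧
          Split U' φ φ₁ φ₂ S S₁ S₂ b c t ∧ fderiv ℝ b v₀ ≠ 0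

/-- The quadratic form `Q_v(η) = lim φ(v, v + t η) / t²`. -/
noncomputable def Qf (φ : Vec n → Vec n → ℝ) (v η : Vec n) : ℝ :=
  limUnder (𝓝[≠] (0 : ℝ)) fun t : ℝ => φ v (v + t • η) / t ^ 2

/-- The components `q_ab(g)` of the quadratic form in the frame `g ξ_a`. -/
noncomputable def qf (φ : Vec n → Vec n → ℝ) (a b : Ix n) (g : SUGroup n) : ℝ :=
  (Qf φ (act g (base n)) (act g (vec (xi a)) + act g (vec (xi b))) -
    Qf φ (act g (base n)) (act g (vec (xi a)) - act g (vec (xi b)))) / 4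

/-- The form of a single function. -/
noncomputable def qh (h : Vec n → ℝ) (a b : Ix n) (g : SUGroup n) : ℝ :=
  fderiv ℝ h (act g (base n)) (act g (vec (xi a))) * fderiv ℝ h (act g (base n)) (act g (vec (xi b)))

/-- The second derivatives `X_a X_b h`. -/
noncomputable def hh (h : Vec n → ℝ) (a b : Ix n) (g : SUGroup n) : ℝ :=
  fderiv ℝ (fderiv ℝ h) (act g (base n)) (act g (vec (xi a))) (act g (vec (xi b)))

/-- The gradient of `qh`. -/
noncomputable def Gh (h : Vec n → ℝ) (c a b : Ix n) (g : SUGroup n) : ℝ :=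
  hh h c a g * fderiv ℝ h (act g (base n)) (act g (vec (xi b))) +
    fderiv ℝ h (act g (base n)) (act g (vec (xi a))) * hh h c b g

/-- Plurisubharmonicity of a continuous function (in the viscosity sense, on all complex lines; for
continuous functions this is the classical notion). The function `ψ` is of class `C²` near `0` with positive
Laplacian. -/
def VSub (y : Vec n → ℝ) : Prop := ∀ v ∈ Cone n, ∀ (ξ : Vec n) (ψ : ℂ → ℝ), ContDiffAt ℝ 2 ψ 0 →
  0 < fderiv ℝ (fderiv ℝ ψ) 0 1 1 + fderiv ℝ (fderiv ℝ ψ) 0 Complex.I Complex.I →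
    ¬ IsLocalMax (fun z : ℂ => y (v + z • ξ) + ψ z) 0

end Pool.Agent.Lib.MP_5d4057_al.IN.D
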