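import Pool.Agent.Lib.MP_5d4057_al.IN.DTst

/-! INT, part D, file DFrm: the quadratic form of a good system of blocks. -/

set_option autoImplicit false

namespace Pool.Agent.Lib.MP_5d4057_al.IN.D

open Matrix MeasureTheory Filter Topology Pool.Agent.Lib.MP_5d4057_al
  Pool.Agent.Lib.MP_5d4057_al.Hyb Pool.Agent.Lib.MP_5d4057_al.HM

open scoped ComplexOrder MatrixOrder Matrix.Norms.L2Operator ENNReal

variable {n : ℕ} {r : ℕ} {U U' : Set (Vec n)} {φ φ₁ φ₂ : Vec n → Vec n → ℝ}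
  {S S₁ S₂ : Set (Vec n → ℝ)} {b : Vec n → ℝ} {c t : ℝ}

theorem Good.basic (h : Good r U φ S) : Basic U φ S := by
  cases r with
  | zero => exact h.1
  | succ r => exact h.1

theorem Good.succ (h : Good r U φ S) : Good (r + 1) U φ S := by
  induction r generalizing U φ S with
  | zero => exact ⟨h.1, fun v₀ hv₀ => Or.inl (h.2 v₀ hv₀)⟩
  | succ r ih =>
    refine ⟨h.1, fun v₀ hv₀ => ?_⟩
    rcases h.2 v₀ hv₀ with h1 | ⟨U', φ₁, φ₂, S₁, S₂, b, c, t, h2, h3, h4, h5, h6, h7⟩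
    · exact Or.inl h1
    · exact Or.inr ⟨U', φ₁, φ₂, S₁, S₂, b, c, t, h2, h3, ih h4, ih h5, h6, h7⟩

theorem DFrm_basic_mono (h : Basic U φ S) (hU' : IsOpen U') (hs : U' ⊆ U) : Basic U' φ S where
  isOpen := hU'
  sub := hs.trans h.sub
  nonneg := fun v hv w hw => h.nonneg v (hs hv) w (hs hw)
  fn := h.fn
  lip := fun y hy v hv w hw => h.lip y hy v (hs hv) w (hs hw)

theorem DFrm_split_mono {U U' : Set (Vec n)} (h : Split U φ φ₁ φ₂ S S₁ S₂ b c t) (hs : U' ⊆ U) :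
    Split U' φ φ₁ φ₂ S S₁ S₂ b c t where
  fn := h.fn
  smooth := h.smooth.mono hs
  harm := fun v hv => h.harm v (hs hv)
  pos := h.pos
  eq := fun v hv w hw => h.eq v (hs hv) w (hs hw)
  mem := by
    intro y hy
    rcases h.mem y hy with ⟨y₁, h1, y₂, h2, h3⟩ | ⟨y₁, h1, h3⟩ | ⟨y₂, h2, h3⟩
    · exact Or.inl ⟨y₁, h1, y₂, h2, fun v hv => h3 v (hs hv)⟩
    · exact Or.inr (Or.inl ⟨y₁, h1, fun v hv => h3 v (hs hv)⟩)
    · exact Or.inr (Or.inr ⟨y₂, h2, fun v hv => h3 v (hs hv)⟩)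

/-- Restriction to a smaller open set (used by part C). -/
theorem Good.mono (h : Good r U φ S) (hU' : IsOpen U') (hs : U' ⊆ U) : Good r U' φ S := by
  induction r generalizing U U' φ S with
  | zero => exact ⟨DFrm_basic_mono h.1 hU' hs, fun v hv => h.2 v (hs hv)⟩
  | succ r ih =>
    refine ⟨DFrm_basic_mono h.1 hU' hs, fun v₀ hv₀ => ?_⟩
    rcases h.2 v₀ (hs hv₀) with h1 | ⟨U'', φ₁, φ₂, S₁, S₂, b, c, t, h2, h3, h4, h5, h6, h7⟩
    · exact Or.inl h1
    · have ho : IsOpen (U'' ∩ U') := h4.basic.isOpen.inter hU'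
      exact Or.inr ⟨U'' ∩ U', φ₁, φ₂, S₁, S₂, b, c, t, ⟨h2, hv₀⟩, Set.inter_subset_right,
        ih h4 ho Set.inter_subset_left, ih h5 ho Set.inter_subset_left,
        DFrm_split_mono h6 Set.inter_subset_left, h7⟩

/-- the quadratic approximation gives the limits -/
theorem DFrm_tendsto {v : Vec n} {m : ℕ} {ℓ : Fin m → Vec n →L[ℝ] ℝ}
    (h : ∀ ε > 0, ∀ᶠ η : Vec n in 𝓝 0, |φ v (v + η) - ∑ i, ℓ i η ^ 2| ≤ ε * ‖η‖ ^ 2)
    (η : Vec n) :
    Tendsto (fun t : ℝ => φ v (v + t • η) / t ^ 2) (𝓝[≠] 0) (𝓝 (∑ i, ℓ i η ^ 2)) := by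
  rw [Metric.tendsto_nhds]
  intro ε hε
  have hpos : 0 < ‖η‖ ^ 2 + 1 := by positivity
  have h1 := h (ε / (‖η‖ ^ 2 + 1)) (div_pos hε hpos)
  have h2 : Tendsto (fun t : ℝ => t • η) (𝓝[≠] 0) (𝓝 (0 : Vec n)) := by
    have h3 : Continuous fun t : ℝ => t • η := by fun_prop
    have h4 := h3.tendsto (0 : ℝ)
    rw [zero_smul] at h4
    exact h4.mono_left nhdsWithin_le_nhds
  filter_upwards [h2.eventually h1, self_mem_nhdsWithin] with t ht ht0
  have ht0' : t ≠ 0 := ht0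
  have ht2 : 0 < t ^ 2 := by positivity
  have e1 : ∑ i, ℓ i (t • η) ^ 2 = t ^ 2 * ∑ i, ℓ i η ^ 2 := by
    rw [Finset.mul_sum]
    refine Finset.sum_congr rfl fun i _ => ?_
    rw [map_smul, smul_eq_mul]
    ring
  rw [e1, norm_smul, Real.norm_eq_abs, mul_pow, sq_abs] at ht
  rw [Real.dist_eq]
  have e2 : φ v (v + t • η) / t ^ 2 - ∑ i, ℓ i η ^ 2 =
      (φ v (v + t • η) - t ^ 2 * ∑ i, ℓ i η ^ 2) / t ^ 2 := by
    field_simp
  rw [e2, abs_div, abs_of_pos ht2, div_lt_iff₀ ht2]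
  refine lt_of_le_of_lt ht ?_
  rw [div_mul_eq_mul_div, div_lt_iff₀ hpos]
  nlinarith [mul_pos hε ht2]

theorem DFrm_forms (h : Good r U φ S) {v : Vec n} (hv : v ∈ U) :
    ∃ (m : ℕ) (ℓ : Fin m → Vec n →L[ℝ] ℝ), ∀ ε > 0, ∀ᶠ η : Vec n in 𝓝 0,
      |φ v (v + η) - ∑ i, ℓ i η ^ 2| ≤ ε * ‖η‖ ^ 2 := by
  -- the case of zero slope
  have hzero : ∀ {U : Set (Vec n)} {φ : Vec n → Vec n → ℝ} {S : Set (Vec n → ℝ)},
      Basic U φ S → v ∈ U → ZeroSlope φ v → ∃ (m : ℕ) (ℓ : Fin m → Vec n →L[ℝ] ℝ), ∀ ε > 0,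
        ∀ᶠ η : Vec n in 𝓝 0, |φ v (v + η) - ∑ i, ℓ i η ^ 2| ≤ ε * ‖η‖ ^ 2 := by
    intro U φ S hB hv h0
    refine ⟨0, Fin.elim0, fun ε hε => ?_⟩
    have h1 := h0 ε hε
    have h2 : Tendsto (fun η : Vec n => (v, v + η)) (𝓝 0) (𝓝 (v, v)) := by
      have h3 : Continuous fun η : Vec n => (v, v + η) := by fun_prop
      have h4 := h3.tendsto (0 : Vec n)
      rwa [add_zero] at h4
    have h3 : ∀ᶠ η : Vec n in 𝓝 0, v + η ∈ U := by
      have h3 : Continuous fun η : Vec n => v + η := by fun_prop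
      have h4 := h3.tendsto (0 : Vec n)
      rw [add_zero] at h4
      exact h4.eventually (hB.isOpen.mem_nhds hv)
    filter_upwards [h2.eventually h1, h3] with η hη hη'
    have h5 := hB.nonneg v hv _ hη'
    simp only [Finset.univ_eq_empty, Finset.sum_empty, sub_zero]
    rw [abs_of_nonneg h5]
    refine hη.trans_eq ?_
    show ε * ‖v - (v + η)‖ ^ 2 = _
    rw [sub_add_cancel_left, norm_neg]
  induction r generalizing U φ S with
  | zero => exact hzero h.1 hv (h.2 v hv)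
  | succ r ih =>
    rcases h.2 v hv with h1 | ⟨U', φ₁, φ₂, S₁, S₂, b, c, t, h2, h3, h4, h5, h6, h7⟩
    · exact hzero h.1 hv h1
    · obtain ⟨m₁, ℓ₁, H₁⟩ := ih h4 h2
      obtain ⟨m₂, ℓ₂, H₂⟩ := ih h5 h2
      have hc := h6.pos
      have hU'o : IsOpen U' := h4.basic.isOpen
      have hd : DifferentiableAt ℝ b v :=
        (h6.smooth.contDiffAt (hU'o.mem_nhds h2)).differentiableAt (by simp)
      refine ⟨m₁ + m₂ + 1, Fin.append (Fin.append ℓ₁ ℓ₂) (fun _ => Real.sqrt c • fderiv ℝ b v),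
        fun ε hε => ?_⟩
      have es : ∀ η : Vec n, ∑ i, Fin.append (Fin.append ℓ₁ ℓ₂)
          (fun _ : Fin 1 => Real.sqrt c • fderiv ℝ b v) i η ^ 2 =
          ∑ i, ℓ₁ i η ^ 2 + ∑ i, ℓ₂ i η ^ 2 + c * (fderiv ℝ b v η) ^ 2 := by
        intro η
        rw [Fin.sum_univ_add, Fin.sum_univ_add]
        simp only [Fin.append_left, Fin.append_right, Finset.univ_unique, Finset.sum_singleton]
        congr 1
        show (Real.sqrt c * fderiv ℝ b v η) ^ 2 = _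
        rw [mul_pow, Real.sq_sqrt hc.le]
      -- the increment of `b`
      set D := fderiv ℝ b v with hD
      set M : ℝ := ‖D‖ with hM
      have hM0 : 0 ≤ M := norm_nonneg _
      obtain ⟨δ, hδ0, hδ⟩ : ∃ δ : ℝ, 0 < δ ∧ c * (δ * (2 * M + δ)) ≤ ε / 3 := by
        refine ⟨min 1 (ε / 3 / (c * (2 * M + 1))), lt_min one_pos (by positivity), ?_⟩
        set δ := min 1 (ε / 3 / (c * (2 * M + 1)))
        have a1 : δ ≤ 1 := min_le_left _ _
        have a2 : δ ≤ ε / 3 / (c * (2 * M + 1)) := min_le_right _ _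
        have a3 : 0 < δ := lt_min one_pos (by positivity)
        have a4 : δ * (c * (2 * M + 1)) ≤ ε / 3 := by
          rwa [le_div_iff₀ (by positivity)] at a2
        calc c * (δ * (2 * M + δ)) ≤ c * (δ * (2 * M + 1)) := by gcongr
          _ = δ * (c * (2 * M + 1)) := by ring
          _ ≤ ε / 3 := a4
      have hb : ∀ᶠ η : Vec n in 𝓝 0, |b (v + η) - b v - D η| ≤ δ * ‖η‖ := by
        have h8 := hd.hasFDerivAt.isLittleO
        have h9 := h8.def hδ0
        have h10 : Tendsto (fun η : Vec n => v + η) (𝓝 0) (𝓝 v) := by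
          have h3 : Continuous fun η : Vec n => v + η := by fun_prop
          have h4 := h3.tendsto (0 : Vec n)
          rwa [add_zero] at h4
        filter_upwards [h10.eventually h9] with η hη
        rw [add_sub_cancel_left] at hη
        exact hη
      have h8 : ∀ᶠ η : Vec n in 𝓝 0, v + η ∈ U' := by
        have h3 : Continuous fun η : Vec n => v + η := by fun_prop
        have h4 := h3.tendsto (0 : Vec n)
        rw [add_zero] at h4
        exact h4.eventually (hU'o.mem_nhds h2)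
      filter_upwards [H₁ (ε / 3) (by positivity), H₂ (ε / 3) (by positivity), hb, h8]
        with η h11 h12 h13 h14
      rw [es, h6.eq v h2 _ h14]
      have hDη : |D η| ≤ M * ‖η‖ := D.le_opNorm η
      have key : |c * (b (v + η) - b v) ^ 2 - c * (D η) ^ 2| ≤ ε / 3 * ‖η‖ ^ 2 := by
        have e1 : c * (b (v + η) - b v) ^ 2 - c * (D η) ^ 2 =
            c * ((b (v + η) - b v - D η) * (2 * D η + (b (v + η) - b v - D η))) := by ring
        rw [e1, abs_mul, abs_mul, abs_of_pos hc]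
        have e2 : |2 * D η + (b (v + η) - b v - D η)| ≤ (2 * M + δ) * ‖η‖ := by
          refine (abs_add_le _ _).trans ?_
          rw [abs_mul, abs_of_pos (by norm_num : (0 : ℝ) < 2)]
          linarith
        calc c * (|b (v + η) - b v - D η| * |2 * D η + (b (v + η) - b v - D η)|)
            ≤ c * ((δ * ‖η‖) * ((2 * M + δ) * ‖η‖)) := by gcongr
          _ = c * (δ * (2 * M + δ)) * ‖η‖ ^ 2 := by ring
          _ ≤ ε / 3 * ‖η‖ ^ 2 := by gcongr
      have e3 : φ₁ v (v + η) + φ₂ v (v + η) + c * (b (v + η) - b v) ^ 2 -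
          (∑ i, ℓ₁ i η ^ 2 + ∑ i, ℓ₂ i η ^ 2 + c * (D η) ^ 2) =
          (φ₁ v (v + η) - ∑ i, ℓ₁ i η ^ 2) + (φ₂ v (v + η) - ∑ i, ℓ₂ i η ^ 2) +
            (c * (b (v + η) - b v) ^ 2 - c * (D η) ^ 2) := by ring
      rw [e3]
      refine (abs_add_le _ _).trans ?_
      refine (add_le_add (abs_add_le _ _) le_rfl).trans ?_
      linarith

/-- `φ(v, v + η) = Σ ℓ_i(η)² + o(|η|²)` for finitely many real linear forms, and the forms are `0` if the slope at `v` is `0`. PROOF: induction on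
`r`. Zero slope: `0`. Otherwise `φ = φ₁ + φ₂ + c (b w - b v)²` near `v`, the last term gives
`ℓ = sqrt c * Db(v)`. -/
theorem Good.exists_forms (h : Good r U φ S) {v : Vec n} (hv : v ∈ U) :
    ∃ (m : ℕ) (ℓ : Fin m → Vec n →L[ℝ] ℝ), (∀ ε > 0, ∀ᶠ η : Vec n in 𝓝 0,
      |φ v (v + η) - ∑ i, ℓ i η ^ 2| ≤ ε * ‖η‖ ^ 2) ∧ ∀ η, Qf φ v η = ∑ i, ℓ i η ^ 2 := by
  obtain ⟨m, ℓ, H⟩ := DFrm_forms h hv
  exact ⟨m, ℓ, H, fun η => (DFrm_tendsto H η).limUnder_eq⟩

/-- The limit in the definition of `Qf`. -/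
theorem Good.tendsto (h : Good r U φ S) {v : Vec n} (hv : v ∈ U) (η : Vec n) :
    Tendsto (fun t : ℝ => φ v (v + t • η) / t ^ 2) (𝓝[≠] 0) (𝓝 (Qf φ v η)) := by
  obtain ⟨m, ℓ, H, e⟩ := h.exists_forms hv
  rw [e η]
  exact DFrm_tendsto H η

/-- the components by the forms -/
theorem DFrm_qf_eq {m : ℕ} {ℓ : Fin m → Vec n →L[ℝ] ℝ} {g : SUGroup n}
    (e : ∀ η, Qf φ (act g (base n)) η = ∑ i, ℓ i η ^ 2) (a b : Ix n) :
    qf φ a b g = ∑ i, ℓ i (act g (vec (xi a))) * ℓ i (act g (vec (xi b))) := by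
  rw [qf, e, e, ← Finset.sum_sub_distrib, Finset.sum_div]
  refine Finset.sum_congr rfl fun i _ => ?_
  rw [map_add, map_sub]
  ring

theorem Good.qf_symm (h : Good r U φ S) (a b : Ix n) {g : SUGroup n} (hg : g ∈ orb U) :
    qf φ a b g = qf φ b a g := by
  obtain ⟨m, ℓ, -, e⟩ := h.exists_forms (v := act g (base n)) hg
  rw [DFrm_qf_eq e, DFrm_qf_eq e]
  exact Finset.sum_congr rfl fun i _ => mul_comm _ _

/-- `|Σ ℓ_i(x) ℓ_i(y)| ≤ (Q(x) + Q(y)) / 2`. -/
theorem Good.qf_dom (h : Good r U φ S) (a b : Ix n) {g : SUGroup n} (hg : g ∈ orb U) :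
    |qf φ a b g| ≤ tr (qf φ) g := by
  obtain ⟨m, ℓ, -, e⟩ := h.exists_forms (v := act g (base n)) hg
  have h1 : ∀ a : Ix n, 0 ≤ qf φ a a g := fun a => by
    rw [DFrm_qf_eq e]
    exact Finset.sum_nonneg fun i _ => mul_self_nonneg _
  have h2 : ∀ a : Ix n, qf φ a a g ≤ tr (qf φ) g := fun a =>
    Finset.single_le_sum (f := fun a => qf φ a a g) (fun a _ => h1 a) (Finset.mem_univ a)
  have h3 : |qf φ a b g| ≤ (qf φ a a g + qf φ b b g) / 2 := by
    rw [DFrm_qf_eq e, DFrm_qf_eq e, DFrm_qf_eq e]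
    refine (Finset.abs_sum_le_sum_abs _ _).trans ?_
    rw [← Finset.sum_add_distrib, Finset.sum_div]
    refine Finset.sum_le_sum fun i _ => ?_
    rw [abs_le]
    constructor
    · nlinarith [sq_nonneg (ℓ i (act g (vec (xi a))) + ℓ i (act g (vec (xi b))))]
    · nlinarith [sq_nonneg (ℓ i (act g (vec (xi a))) - ℓ i (act g (vec (xi b))))]
  have h4 := h2 a
  have h5 := h2 b
  linarith

theorem Good.qf_nonneg (h : Good r U φ S) (a : Ix n) {g : SUGroup n} (hg : g ∈ orb U) :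
    0 ≤ qf φ a a g := by
  obtain ⟨m, ℓ, -, e⟩ := h.exists_forms (v := act g (base n)) hg
  rw [DFrm_qf_eq e]
  exact Finset.sum_nonneg fun i _ => mul_self_nonneg _

/-- additivity of the quadratic form -/
theorem DFrm_Qf_split (h₁ : Good r U' φ₁ S₁) (h₂ : Good r U' φ₂ S₂)
    (hs : Split U' φ φ₁ φ₂ S S₁ S₂ b c t) {v : Vec n} (hv : v ∈ U') (η : Vec n) :
    Qf φ v η = Qf φ₁ v η + Qf φ₂ v η + c * (fderiv ℝ b v η) ^ 2 := by
  have hU'o : IsOpen U' := h₁.basic.isOpen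
  have hd : DifferentiableAt ℝ b v :=
    (hs.smooth.contDiffAt (hU'o.mem_nhds hv)).differentiableAt (by simp)
  have h1 := h₁.tendsto hv η
  have h2 := h₂.tendsto hv η
  have h3 : Tendsto (fun t : ℝ => (b (v + t • η) - b v) / t) (𝓝[≠] 0) (𝓝 (fderiv ℝ b v η)) := by
    have h4 : HasDerivAt (fun t : ℝ => b (v + t • η)) (fderiv ℝ b v η) 0 := by
      have h5 : HasDerivAt (fun t : ℝ => v + t • η) η 0 := by
        have h6 := ((hasDerivAt_id (0 : ℝ)).smul_const η).const_add v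
        simpa using h6
      have h7 : HasFDerivAt b (fderiv ℝ b v) (v + (0 : ℝ) • η) := by
        rw [zero_smul, add_zero]
        exact hd.hasFDerivAt
      exact h7.comp_hasDerivAt (0 : ℝ) h5
    have h5 := h4.tendsto_slope
    refine h5.congr fun t => ?_
    rw [slope_def_field, zero_smul, add_zero, sub_zero]
  have h4 := (h1.add h2).add ((h3.pow 2).const_mul c)
  refine Tendsto.limUnder_eq (h4.congr' ?_)
  have h5 : ∀ᶠ t : ℝ in 𝓝[≠] 0, v + t • η ∈ U' := by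
    have h6 : Continuous fun t : ℝ => v + t • η := by fun_prop
    have h7 := h6.tendsto (0 : ℝ)
    rw [zero_smul, add_zero] at h7
    exact (h7.mono_left nhdsWithin_le_nhds).eventually (hU'o.mem_nhds hv)
  filter_upwards [h5] with t ht
  rw [hs.eq v hv _ ht]
  rw [add_div, add_div, div_pow, mul_div_assoc]

/-- Additivity on `orb U'`. PROOF: `Good.tendsto` for the three functions on `U'` and
`(b(v + tη) - b(v))² / t² → (Db(v)η)²`; polarisation. -/
theorem qf_split (h₁ : Good r U' φ₁ S₁) (h₂ : Good r U' φ₂ S₂)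
    (hs : Split U' φ φ₁ φ₂ S S₁ S₂ b c t) (a a' : Ix n) {g : SUGroup n} (hg : g ∈ orb U') :
    qf φ a a' g = qf φ₁ a a' g + qf φ₂ a a' g + c * qh b a a' g := by
  have hv : act g (base n) ∈ U' := hg
  rw [qf, qf, qf, qh, DFrm_Qf_split h₁ h₂ hs hv, DFrm_Qf_split h₁ h₂ hs hv, map_add, map_sub]
  ring

end Pool.Agent.Lib.MP_5d4057_al.IN.D
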