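import Pool.Agent.Lib.MP_5d4057_al.IN.DFrm

/-! INT, part D, file DFrmB: the quadratic form, second part. -/

set_option autoImplicit false

namespace Pool.Agent.Lib.MP_5d4057_al.IN.D

open Matrix MeasureTheory Filter Topology Pool.Agent.Lib.MP_5d4057_al
  Pool.Agent.Lib.MP_5d4057_al.Hyb Pool.Agent.Lib.MP_5d4057_al.HM

open scoped ComplexOrder MatrixOrder Matrix.Norms.L2Operator ENNReal

variable {n : ℕ} {r : ℕ} {U U' : Set (Vec n)} {φ φ₁ φ₂ : Vec n → Vec n → ℝ}
  {S S₁ S₂ : Set (Vec n → ℝ)} {b : Vec n → ℝ} {c t : ℝ}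

/-- a bound for the quadratic form at a point of small slope -/
theorem DFrmB_Qf_le (h : Good r U φ S) {v : Vec n} (hv : v ∈ U) {ε : ℝ}
    (h0 : ∀ᶠ w : Vec n in 𝓝 v, φ v w ≤ ε * ‖v - w‖ ^ 2) (η : Vec n) :
    Qf φ v η ≤ ε * ‖η‖ ^ 2 := by
  refine le_of_tendsto (h.tendsto hv η) ?_
  have h6 : Tendsto (fun t : ℝ => v + t • η) (𝓝[≠] 0) (𝓝 v) := by
    have h6 : Continuous fun t : ℝ => v + t • η := by fun_prop
    have h7 := h6.tendsto (0 : ℝ)
    rw [zero_smul, add_zero] at h7
    exact h7.mono_left nhdsWithin_le_nhds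
  filter_upwards [h6.eventually h0, self_mem_nhdsWithin] with t ht ht0
  have ht0' : t ≠ 0 := ht0
  have ht2 : 0 < t ^ 2 := by positivity
  rw [div_le_iff₀ ht2]
  refine ht.trans_eq ?_
  rw [sub_add_cancel_left, norm_neg, norm_smul, Real.norm_eq_abs, mul_pow, sq_abs]
  ring

theorem DFrmB_Qf_nonneg (h : Good r U φ S) {v : Vec n} (hv : v ∈ U) (η : Vec n) :
    0 ≤ Qf φ v η := by
  obtain ⟨m, ℓ, -, e⟩ := h.exists_forms hv
  rw [e]
  exact Finset.sum_nonneg fun i _ => sq_nonneg _

/-- the diagonal components -/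
theorem DFrmB_qf_diag (h : Good r U φ S) {g : SUGroup n} (hg : g ∈ orb U) (a : Ix n) :
    qf φ a a g = Qf φ (act g (base n)) (act g (vec (xi a))) := by
  obtain ⟨m, ℓ, -, e⟩ := h.exists_forms (v := act g (base n)) hg
  rw [DFrm_qf_eq e, e]
  exact Finset.sum_congr rfl fun i _ => (sq _).symm

/-- Points of zero slope. PROOF: `Q = 0`. -/
theorem tr_zero_of_slope (h : Good r U φ S) {g : SUGroup n} (hg : g ∈ orb U)
    (h0 : ZeroSlope φ (act g (base n))) : tr (qf φ) g = 0 := by
  have hQ : ∀ η, Qf φ (act g (base n)) η = 0 := by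
    intro η
    refine le_antisymm ?_ (DFrmB_Qf_nonneg h hg η)
    refine le_of_forall_pos_le_add fun ε hε => ?_
    have hp : 0 < ‖η‖ ^ 2 + 1 := by positivity
    have h1 := h0 (ε / (‖η‖ ^ 2 + 1)) (div_pos hε hp)
    have h2 : Tendsto (fun w : Vec n => (act g (base n), w)) (𝓝 (act g (base n)))
        (𝓝 (act g (base n), act g (base n))) := by
      have h3 : Continuous fun w : Vec n => (act g (base n), w) := by fun_prop
      exact h3.tendsto _
    have h3 := DFrmB_Qf_le h hg (h2.eventually h1) η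
    refine h3.trans ?_
    rw [zero_add, div_mul_eq_mul_div, div_le_iff₀ hp]
    nlinarith [hε.le]
  rw [tr]
  refine Finset.sum_eq_zero fun a _ => ?_
  rw [DFrmB_qf_diag h hg, hQ]

theorem DFrmB_act_single (g : SUGroup n) (j : Fin n) (z : ℂ) :
    act g (Pi.single j.castSucc z) = z.re • act g (vec (xi (j, false))) +
      z.im • act g (vec (xi (j, true))) := by
  have hv : ∀ ξ : Fin n → ℂ, (HM.vec ξ : Vec n) = fun i => Fin.lastCases (motive := fun _ => ℂ) 0 ξ i := by
    intro ξ
    funext i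
    refine Fin.lastCases ?_ (fun i => ?_) i
    · rw [HM.vec, Fin.snoc_last, Fin.lastCases_last]
    · rw [HM.vec, Fin.snoc_castSucc, Fin.lastCases_castSucc]
  have e : (Pi.single j.castSucc z : Vec n) = z.re • vec (xi (j, false)) +
      z.im • vec (xi (j, true)) := by
    rw [hv, hv]
    funext i
    refine Fin.lastCases ?_ (fun i => ?_) i
    · simp only [Pi.add_apply, Pi.smul_apply, Fin.lastCases_last, smul_zero, add_zero]
      rw [Pi.single_eq_of_ne (Fin.castSucc_lt_last j).ne']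
    · simp only [Pi.add_apply, Pi.smul_apply, Fin.lastCases_castSucc, xi]
      by_cases hij : i = j
      · subst hij
        rw [Pi.single_eq_same, Pi.single_eq_same, Pi.single_eq_same]
        simp only [Bool.false_eq_true, if_false, if_true]
        apply Complex.ext <;> simp
      · rw [Pi.single_eq_of_ne (fun hh => hij (Fin.castSucc_injective n hh)),
          Pi.single_eq_of_ne hij, Pi.single_eq_of_ne hij]
        simp
  rw [e]
  show actL g _ = _
  rw [map_add, map_smul, map_smul]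
  rfl

/-- At a point which is not of zero slope the trace is positive. PROOF: `qf_split`, the forms of `φ₁`, `φ₂`
are nonnegative, and `Σ_a (Db(v)(g ξ_a))² > 0` because `Db(v) ≠ 0` and `Db(v)(s v) = 0` for complex `s`
(`HM.homog_fderiv`); the vectors `g ξ_a`, `v`, `i v` span (over `ℝ`). -/
theorem tr_pos_of_split (h₁ : Good r U' φ₁ S₁) (h₂ : Good r U' φ₂ S₂)
    (hs : Split U' φ φ₁ φ₂ S S₁ S₂ b c t) (hU' : U' ⊆ Cone n) {g : SUGroup n} (hg : g ∈ orb U')
    (hb : fderiv ℝ b (act g (base n)) ≠ 0) : 0 < tr (qf φ) g := by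
  have hU'o : IsOpen U' := h₁.basic.isOpen
  have hv : act g (base n) ∈ U' := hg
  have hd : DifferentiableAt ℝ b (act g (base n)) :=
    (hs.smooth.contDiffAt (hU'o.mem_nhds hv)).differentiableAt (by simp)
  have h1 : ∀ a : Ix n, c * (fderiv ℝ b (act g (base n)) (act g (vec (xi a)))) ^ 2 ≤
      qf φ a a g := by
    intro a
    rw [qf_split h₁ h₂ hs a a hg, qh]
    have h2 := h₁.qf_nonneg a hg
    have h3 := h₂.qf_nonneg a hg
    nlinarith
  have h2 : ∃ a : Ix n, fderiv ℝ b (act g (base n)) (act g (vec (xi a))) ≠ 0 := by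
    by_contra hcon
    push Not at hcon
    refine hb ?_
    ext w
    have e1 : w = act g (act g⁻¹ w) := by
      rw [← act_mul, mul_inv_cancel, act_one]
    have e2 : ∀ u : Vec n, fderiv ℝ b (act g (base n)) (act g u) = 0 := by
      intro u
      have e3 : u = ∑ i, Pi.single i (u i) := (Finset.univ_sum_single u).symm
      rw [e3]
      have e4 : act g (∑ i, Pi.single i (u i)) = ∑ i, act g (Pi.single i (u i)) := by
        show actL g _ = ∑ i, actL g _
        rw [map_sum]
      rw [e4, map_sum]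
      refine Finset.sum_eq_zero fun i _ => ?_
      refine Fin.lastCases ?_ (fun i => ?_) i
      · have e5 : (Pi.single (Fin.last n) (u (Fin.last n)) : Vec n) = u (Fin.last n) • base n := by
          rw [base, ← Pi.single_smul, smul_eq_mul, mul_one]
        rw [e5, act_smul]
        exact homog_fderiv hs.fn.hom (hU' hv) hd _
      · rw [DFrmB_act_single, map_add, map_smul, map_smul, hcon, hcon]
        simp
    rw [e1, e2]
    rfl
  obtain ⟨a, ha⟩ := h2
  have hc := hs.pos
  have h3 : 0 < qf φ a a g := lt_of_lt_of_le (by positivity) (h1 a)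
  have h4 : ∀ a : Ix n, 0 ≤ qf φ a a g := fun a => le_trans (by positivity) (h1 a)
  exact lt_of_lt_of_le h3
    (Finset.single_le_sum (f := fun a => qf φ a a g) (fun a _ => h4 a) (Finset.mem_univ a))

theorem DFrmB_continuous_act (w : Vec n) : Continuous fun g : SUGroup n => act g w := by
  show Continuous fun g : SUGroup n => g.toMatrix *ᵥ w
  exact (continuous_toMatrix n).matrix_mulVec continuous_const

/-- PROOF: induction on `r`. At a point of zero slope: `φ(v, w) ≤ ε |v - w|²` near `v₀` gives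
`Q_v(η) ≤ ε |η|²` near `v₀`. At other points: `qf_split` and `b` is smooth. -/
theorem Good.continuousOn (h : Good r U φ S) (a b : Ix n) :
    ContinuousOn (qf φ a b) (orb U) := by
  -- points of zero slope
  have hzero : ∀ {r : ℕ} {U : Set (Vec n)} {φ : Vec n → Vec n → ℝ} {S : Set (Vec n → ℝ)},
      Good r U φ S → ∀ g₀ ∈ orb U, ZeroSlope φ (act g₀ (base n)) →
        ContinuousAt (qf φ a b) g₀ := by
    intro r U φ S h g₀ hg₀ h0
    have hopen : IsOpen (orb U) := isOpen_orb h.basic.isOpen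
    have hz : qf φ a b g₀ = 0 := by
      have h1 := h.qf_dom a b hg₀
      rw [tr_zero_of_slope h hg₀ h0] at h1
      exact abs_nonpos_iff.1 h1
    rw [ContinuousAt, hz, Metric.tendsto_nhds]
    intro ε hε
    -- a bound for the frame
    set B : SUGroup n → ℝ := fun g => ∑ a : Ix n, ‖act g (vec (xi a))‖ ^ 2 with hB
    have hBc : Continuous B := by
      refine continuous_finsetSum _ fun a _ => ?_
      exact ((DFrmB_continuous_act _).norm).pow 2
    have hB0 : ∀ g, 0 ≤ B g := fun g => Finset.sum_nonneg fun a _ => sq_nonneg _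
    have hBev : ∀ᶠ g in 𝓝 g₀, B g < B g₀ + 1 :=
      hBc.continuousAt.eventually (gt_mem_nhds (by linarith : B g₀ < B g₀ + 1))
    have hp : 0 < B g₀ + 1 := by linarith [hB0 g₀]
    have h1 := h0 (ε / (2 * (B g₀ + 1))) (by positivity)
    rw [nhds_prod_eq] at h1
    have h2 := h1.curry
    have h3 : Tendsto (fun g : SUGroup n => act g (base n)) (𝓝 g₀) (𝓝 (act g₀ (base n))) :=
      (DFrmB_continuous_act _).tendsto _
    have h4 : ∀ᶠ v in 𝓝 (act g₀ (base n)), ∀ᶠ w in 𝓝 v,
        φ v w ≤ ε / (2 * (B g₀ + 1)) * ‖v - w‖ ^ 2 := by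
      rw [← nhds_prod_eq] at h1
      have h5 := eventually_eventually_nhds.2 h1
      have h6 : Tendsto (fun v : Vec n => (v, v)) (𝓝 (act g₀ (base n)))
          (𝓝 (act g₀ (base n), act g₀ (base n))) := by
        have h7 : Continuous fun v : Vec n => (v, v) := by fun_prop
        exact h7.tendsto _
      filter_upwards [h6.eventually h5] with v hv
      have h7 : Tendsto (fun w : Vec n => (v, w)) (𝓝 v) (𝓝 (v, v)) := by
        have h8 : Continuous fun w : Vec n => (v, w) := by fun_prop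
        exact h8.tendsto _
      exact h7.eventually hv
    filter_upwards [h3.eventually h4, hBev, hopen.mem_nhds hg₀] with g hg1 hg2 hg3
    rw [dist_zero_right, Real.norm_eq_abs]
    refine lt_of_le_of_lt (h.qf_dom a b hg3) ?_
    have h5 : tr (qf φ) g ≤ ε / (2 * (B g₀ + 1)) * B g := by
      rw [tr, hB, Finset.mul_sum]
      refine Finset.sum_le_sum fun a _ => ?_
      rw [DFrmB_qf_diag h hg3]
      exact DFrmB_Qf_le h hg3 hg1 _
    refine lt_of_le_of_lt h5 ?_
    calc ε / (2 * (B g₀ + 1)) * B g ≤ ε / (2 * (B g₀ + 1)) * (B g₀ + 1) := by gcongr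
      _ = ε / 2 := by field_simp
      _ < ε := by linarith
  induction r generalizing U φ S with
  | zero => exact fun g₀ hg₀ => (hzero h g₀ hg₀ (h.2 _ hg₀)).continuousWithinAt
  | succ r ih =>
    intro g₀ hg₀
    rcases h.2 _ hg₀ with h1 | ⟨U', φ₁, φ₂, S₁, S₂, β, c, t, h2, h3, h4, h5, h6, h7⟩
    · exact (hzero h g₀ hg₀ h1).continuousWithinAt
    · have hU'o : IsOpen U' := h4.basic.isOpen
      have hopen : IsOpen (orb U') := isOpen_orb hU'o
      have hg₀' : g₀ ∈ orb U' := h2
      have hfd : ContinuousOn (fderiv ℝ β) U' :=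
        h6.smooth.continuousOn_fderiv_of_isOpen hU'o (by simp)
      have hqh : ContinuousAt (qh β a b) g₀ := by
        have h8 : ContinuousAt (fun g : SUGroup n => fderiv ℝ β (act g (base n))) g₀ :=
          ContinuousAt.comp (f := fun g : SUGroup n => act g (base n)) (g := fderiv ℝ β)
            (hfd.continuousAt (hU'o.mem_nhds h2)) (DFrmB_continuous_act _).continuousAt
        exact (h8.clm_apply (DFrmB_continuous_act _).continuousAt).mul
          (h8.clm_apply (DFrmB_continuous_act _).continuousAt)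
      have h9 : ContinuousAt (fun g => qf φ₁ a b g + qf φ₂ a b g + c * qh β a b g) g₀ :=
        (((ih h4).continuousAt (hopen.mem_nhds hg₀')).add
          ((ih h5).continuousAt (hopen.mem_nhds hg₀'))).add (hqh.const_mul c)
      refine ContinuousAt.continuousWithinAt (h9.congr ?_)
      filter_upwards [hopen.mem_nhds hg₀'] with g hg
      exact (qf_split h4 h5 h6 a b hg).symm

theorem DFrmB_unif {P : SUGroup n → ℝ → Prop} {g₀ : SUGroup n}
    (h : ∀ᶠ p : SUGroup n × ℝ in 𝓝 (g₀, 0), P p.1 p.2) :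
    ∃ δ > 0, ∀ᶠ g in 𝓝 g₀, ∀ t : ℝ, |t| < δ → P g t := by
  rw [nhds_prod_eq, Filter.eventually_prod_iff] at h
  obtain ⟨pa, ha, pb, hb, hab⟩ := h
  obtain ⟨δ, hδ, hd⟩ := Metric.eventually_nhds_iff.1 hb
  refine ⟨δ, hδ, ha.mono fun g hg t ht => hab hg (hd ?_)⟩
  rwa [Real.dist_eq, sub_zero]

/-- locally uniform differentiability along the flow -/
theorem DFrmB_incr {E : Type} [NormedAddCommGroup E] [NormedSpace ℝ E]
    {F F' : SUGroup n → ℝ → E} {g₀ : SUGroup n}
    (hF : ∀ᶠ p : SUGroup n × ℝ in 𝓝 (g₀, 0), HasDerivAt (F p.1) (F' p.1 p.2) p.2)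
    (hc : ContinuousAt (fun p : SUGroup n × ℝ => F' p.1 p.2) (g₀, 0)) {ε : ℝ} (hε : 0 < ε) :
    ∃ δ > 0, ∀ᶠ g in 𝓝 g₀, ∀ t : ℝ, |t| < δ →
      ‖F g t - F g 0 - t • F' g 0‖ ≤ ε * |t| := by
  have h1 : ∀ᶠ p : SUGroup n × ℝ in 𝓝 (g₀, 0), dist (F' p.1 p.2) (F' g₀ 0) < ε / 2 :=
    Metric.tendsto_nhds.1 hc _ (by positivity)
  obtain ⟨δ, hδ, H⟩ := DFrmB_unif (P := fun g t => HasDerivAt (F g) (F' g t) t ∧
    dist (F' g t) (F' g₀ 0) < ε / 2) (hF.and h1)
  refine ⟨δ, hδ, H.mono fun g hg t ht => ?_⟩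
  have h0 := (hg 0 (by simpa using hδ)).2
  have key := (convex_ball (0 : ℝ) δ).norm_image_sub_le_of_norm_hasDerivWithin_le
    (f := fun t => F g t - t • F' g 0) (f' := fun t => F' g t - F' g 0) (C := ε)
    (x := 0) (y := t) ?_ ?_ ?_ ?_
  · simp only [zero_smul, sub_zero, Real.norm_eq_abs] at key
    rwa [show F g t - F g 0 - t • F' g 0 = F g t - t • F' g 0 - F g 0 by abel]
  · intro x hx
    rw [mem_ball_zero_iff, Real.norm_eq_abs] at hx
    have h2 := (hg x hx).1
    have h3 := (hasDerivAt_id x).smul_const (F' g 0)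
    rw [one_smul] at h3
    exact (h2.sub h3).hasDerivWithinAt
  · intro x hx
    rw [mem_ball_zero_iff, Real.norm_eq_abs] at hx
    have h2 := (hg x hx).2
    rw [← dist_eq_norm]
    refine (dist_triangle_right _ _ (F' g₀ 0)).trans ?_
    linarith
  · rw [mem_ball_zero_iff, norm_zero]
    exact hδ
  · rw [mem_ball_zero_iff, Real.norm_eq_abs]
    exact ht

theorem DFrmB_continuous_flow (c : Ix n) (w : Vec n) :
    Continuous fun p : SUGroup n × ℝ => act (p.1 * ba c p.2) w :=
  (DFrmB_continuous_act w).comp (continuous_fst.mul ((continuous_ba c).comp continuous_snd))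

theorem DFrmB_hbd (c : Ix n) (t : ℝ) :
    HasDerivAt (fun t => (ba c t).toMatrix) ((ba c t).toMatrix * xmat (xi c)) t :=
  Kak.hasDerivAt_flow (xi_norm c) t

/-- The increments, locally uniformly. PROOF: induction on `r` as before (`|g e_n - g b_c(t) e_n| ≤ C |t|`
locally uniformly). -/
theorem Good.inc (h : Good r U φ S) (c : Ix n) {g₀ : SUGroup n} (hg₀ : g₀ ∈ orb U) {ε : ℝ}
    (hε : 0 < ε) : ∃ δ > 0, ∀ᶠ g in 𝓝 g₀, ∀ t : ℝ, |t| < δ →
      φ (act g (base n)) (act (g * ba c t) (base n)) ≤ (qf φ c c g + ε) * t ^ 2 := by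
  -- the flow is near the point
  have hflow : Tendsto (fun p : SUGroup n × ℝ => (act p.1 (base n), act (p.1 * ba c p.2) (base n)))
      (𝓝 (g₀, 0)) (𝓝 (act g₀ (base n), act g₀ (base n))) := by
    have h1 : Continuous fun p : SUGroup n × ℝ =>
        (act p.1 (base n), act (p.1 * ba c p.2) (base n)) :=
      ((DFrmB_continuous_act _).comp continuous_fst).prodMk (DFrmB_continuous_flow c _)
    have h2 := h1.tendsto (g₀, (0 : ℝ))
    simp only [ba_zero, mul_one] at h2
    exact h2
  -- points of zero slope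
  have hzero : ∀ {r : ℕ} {U : Set (Vec n)} {φ : Vec n → Vec n → ℝ} {S : Set (Vec n → ℝ)} {ε : ℝ},
      Good r U φ S → g₀ ∈ orb U → ZeroSlope φ (act g₀ (base n)) → 0 < ε →
        ∃ δ > 0, ∀ᶠ g in 𝓝 g₀, ∀ t : ℝ, |t| < δ →
          φ (act g (base n)) (act (g * ba c t) (base n)) ≤ (qf φ c c g + ε) * t ^ 2 := by
    intro r U φ S ε h hg₀ h0 hε
    have hopen : IsOpen (orb U) := isOpen_orb h.basic.isOpen
    obtain ⟨δ₁, hδ₁, H₁⟩ := DFrmB_incr (E := Vec n) (g₀ := g₀)
      (F := fun g t => act (g * ba c t) (base n)) (F' := fun g t => act (g * ba c t) (HM.vec (xi c)))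
      (Eventually.of_forall fun p => by
        have h1 := hasDerivAt_flow (f := fun v : Vec n => v) (DFrmB_hbd c) p.1 p.2
          differentiableAt_id
        rw [fderiv_fun_id] at h1
        exact h1)
      (DFrmB_continuous_flow c _).continuousAt one_pos
    set C : ℝ := ‖act g₀ (HM.vec (xi c))‖ + 1 with hC
    have hC1 : 0 ≤ C := by positivity
    have hCev : ∀ᶠ g in 𝓝 g₀, ‖act g (HM.vec (xi c))‖ < C :=
      (DFrmB_continuous_act (HM.vec (xi c))).norm.continuousAt.eventually
        (gt_mem_nhds (by rw [hC]; linarith))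
    have h1 := h0 (ε / (C + 1) ^ 2) (by positivity)
    obtain ⟨δ₂, hδ₂, H₂⟩ := DFrmB_unif (P := fun g t => φ (act g (base n))
      (act (g * ba c t) (base n)) ≤ ε / (C + 1) ^ 2 *
        ‖act g (base n) - act (g * ba c t) (base n)‖ ^ 2) (hflow.eventually h1)
    refine ⟨min δ₁ δ₂, lt_min hδ₁ hδ₂, ?_⟩
    filter_upwards [H₁, H₂, hCev, hopen.mem_nhds hg₀] with g h2 h3 h4 h5 t ht
    have h6 := h2 t (lt_of_lt_of_le ht (min_le_left _ _))
    have h7 := h3 t (lt_of_lt_of_le ht (min_le_right _ _))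
    simp only [ba_zero, mul_one, one_mul] at h6
    have h8 : ‖act g (base n) - act (g * ba c t) (base n)‖ ≤ (C + 1) * |t| := by
      rw [norm_sub_rev]
      have e : act (g * ba c t) (base n) - act g (base n) =
          (act (g * ba c t) (base n) - act g (base n) - t • act g (HM.vec (xi c))) +
            t • act g (HM.vec (xi c)) := by abel
      rw [e]
      refine (norm_add_le _ _).trans ?_
      rw [norm_smul, Real.norm_eq_abs]
      nlinarith [abs_nonneg t]
    have h9 := h.qf_nonneg c h5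
    refine h7.trans ?_
    calc ε / (C + 1) ^ 2 * ‖act g (base n) - act (g * ba c t) (base n)‖ ^ 2
        ≤ ε / (C + 1) ^ 2 * ((C + 1) * |t|) ^ 2 := by gcongr
      _ = ε * t ^ 2 := by
          rw [mul_pow, sq_abs]
          field_simp
      _ ≤ (qf φ c c g + ε) * t ^ 2 := by nlinarith [sq_nonneg t]
  induction r generalizing U φ S ε with
  | zero => exact hzero h hg₀ (h.2 _ hg₀) hε
  | succ r ih =>
    rcases h.2 _ hg₀ with h1 | ⟨U', φ₁, φ₂, S₁, S₂, β, k, t, h2, h3, h4, h5, h6, h7⟩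
    · exact hzero h hg₀ h1 hε
    · have hU'o : IsOpen U' := h4.basic.isOpen
      have hopen : IsOpen (orb U') := isOpen_orb hU'o
      have hg₀' : g₀ ∈ orb U' := h2
      have hk := h6.pos
      obtain ⟨δ₁, hδ₁, H₁⟩ := ih h4 hg₀' (ε := ε / 3) (by positivity)
      obtain ⟨δ₂, hδ₂, H₂⟩ := ih h5 hg₀' (ε := ε / 3) (by positivity)
      have hfd : ContinuousOn (fderiv ℝ β) U' :=
        h6.smooth.continuousOn_fderiv_of_isOpen hU'o (by simp)
      -- the derivative
      set D : SUGroup n → ℝ → ℝ := fun g t =>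
        fderiv ℝ β (act (g * ba c t) (base n)) (act (g * ba c t) (HM.vec (xi c))) with hD
      have hDc : ContinuousAt (fun p : SUGroup n × ℝ => D p.1 p.2) (g₀, 0) := by
        have h8 : ContinuousAt (fun p : SUGroup n × ℝ =>
            fderiv ℝ β (act (p.1 * ba c p.2) (base n))) (g₀, 0) :=
          ContinuousAt.comp (f := fun p : SUGroup n × ℝ => act (p.1 * ba c p.2) (base n))
            (g := fderiv ℝ β)
            (by
              rw [show act ((g₀, (0 : ℝ)).1 * ba c (g₀, (0 : ℝ)).2) (base n) =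
                act g₀ (base n) by simp only [ba_zero, mul_one]]
              exact hfd.continuousAt (hU'o.mem_nhds h2))
            (DFrmB_continuous_flow c _).continuousAt
        exact h8.clm_apply (DFrmB_continuous_flow c _).continuousAt
      have hev : ∀ᶠ p : SUGroup n × ℝ in 𝓝 (g₀, 0), act p.1 (base n) ∈ U' ∧
          act (p.1 * ba c p.2) (base n) ∈ U' :=
        hflow.eventually ((hU'o.prod hU'o).mem_nhds ⟨h2, h2⟩)
      set M : ℝ := |D g₀ 0| + 1 with hM
      have hM1 : 0 ≤ M := by positivity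
      obtain ⟨ε₁, hε₁, hε₁'⟩ : ∃ ε₁ : ℝ, 0 < ε₁ ∧ k * (ε₁ * (2 * M + ε₁)) ≤ ε / 3 := by
        refine ⟨min 1 (ε / 3 / (k * (2 * M + 1))), lt_min one_pos (by positivity), ?_⟩
        set δ := min 1 (ε / 3 / (k * (2 * M + 1)))
        have a1 : δ ≤ 1 := min_le_left _ _
        have a2 : δ ≤ ε / 3 / (k * (2 * M + 1)) := min_le_right _ _
        have a3 : 0 < δ := lt_min one_pos (by positivity)
        have a4 : δ * (k * (2 * M + 1)) ≤ ε / 3 := by
          rwa [le_div_iff₀ (by positivity)] at a2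
        calc k * (δ * (2 * M + δ)) ≤ k * (δ * (2 * M + 1)) := by gcongr
          _ = δ * (k * (2 * M + 1)) := by ring
          _ ≤ ε / 3 := a4
      obtain ⟨δ₃, hδ₃, H₃⟩ := DFrmB_incr (E := ℝ) (g₀ := g₀)
        (F := fun g t => β (act (g * ba c t) (base n))) (F' := D)
        (hev.mono fun p hp => hasDerivAt_flow (DFrmB_hbd c) p.1 p.2
          ((h6.smooth.contDiffAt (hU'o.mem_nhds hp.2)).differentiableAt (by simp)))
        hDc hε₁
      obtain ⟨δ₄, hδ₄, H₄⟩ := DFrmB_unif (P := fun g t => act g (base n) ∈ U' ∧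
          act (g * ba c t) (base n) ∈ U') hev
      obtain ⟨δ₅, hδ₅, H₅⟩ := DFrmB_unif (P := fun g t => |D g t| < M)
        (hDc.abs.eventually (gt_mem_nhds (by rw [hM]; linarith)))
      refine ⟨min (min δ₁ δ₂) (min (min δ₃ δ₄) δ₅), lt_min (lt_min hδ₁ hδ₂)
        (lt_min (lt_min hδ₃ hδ₄) hδ₅), ?_⟩
      filter_upwards [H₁, H₂, H₃, H₄, H₅, hopen.mem_nhds hg₀'] with g a1 a2 a3 a4 a5 a6 t ht
      have ht1 : |t| < δ₁ := lt_of_lt_of_le ht ((min_le_left _ _).trans (min_le_left _ _))
      have ht2 : |t| < δ₂ := lt_of_lt_of_le ht ((min_le_left _ _).trans (min_le_right _ _))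
      have ht3 : |t| < δ₃ := lt_of_lt_of_le ht
        ((min_le_right _ _).trans ((min_le_left _ _).trans (min_le_left _ _)))
      have ht4 : |t| < δ₄ := lt_of_lt_of_le ht
        ((min_le_right _ _).trans ((min_le_left _ _).trans (min_le_right _ _)))
      have b1 := a1 t ht1
      have b2 := a2 t ht2
      have b3 := a3 t ht3
      have b4 := a4 t ht4
      have b5 := (a5 0 (by simpa using hδ₅)).le
      have hD0 : D g 0 = fderiv ℝ β (act g (base n)) (act g (HM.vec (xi c))) := by
        simp only [hD, ba_zero, mul_one]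
      simp only [ba_zero, mul_one, Real.norm_eq_abs, smul_eq_mul] at b3
      rw [h6.eq _ b4.1 _ b4.2, qf_split h4 h5 h6 c c a6, qh, ← hD0]
      set x := β (act (g * ba c t) (base n)) - β (act g (base n)) with hx
      have b6 : |x| ≤ (|D g 0| + ε₁) * |t| := by
        have e : x = (x - t * D g 0) + t * D g 0 := by ring
        rw [e]
        refine (abs_add_le _ _).trans ?_
        rw [abs_mul t]
        linarith
      have b7 : k * x ^ 2 ≤ (k * (D g 0 * D g 0) + ε / 3) * t ^ 2 := by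
        have c1 : x ^ 2 ≤ ((|D g 0| + ε₁) * |t|) ^ 2 := by
          rw [← sq_abs x]
          gcongr
        have c2 : ((|D g 0| + ε₁) * |t|) ^ 2 =
            (D g 0 * D g 0 + ε₁ * (2 * |D g 0| + ε₁)) * t ^ 2 := by
          rw [mul_pow, sq_abs, ← abs_mul_abs_self (D g 0)]
          ring
        have c3 : k * (ε₁ * (2 * |D g 0| + ε₁)) ≤ ε / 3 :=
          le_trans (by gcongr) hε₁'
        calc k * x ^ 2 ≤ k * ((D g 0 * D g 0 + ε₁ * (2 * |D g 0| + ε₁)) * t ^ 2) := by
              rw [← c2]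
              gcongr
          _ = (k * (D g 0 * D g 0) + k * (ε₁ * (2 * |D g 0| + ε₁))) * t ^ 2 := by ring
          _ ≤ (k * (D g 0 * D g 0) + ε / 3) * t ^ 2 := by gcongr
      nlinarith [b1, b2, b7]

/-- Invariance. -/
theorem qf_inv {γ : SUGroup n} (h : ∀ v ∈ Cone n, ∀ w ∈ Cone n, φ (act γ v) (act γ w) = φ v w)
    (a b : Ix n) (g : SUGroup n) : qf φ a b (γ * g) = qf φ a b g := by
  have hQ : ∀ v ∈ Cone n, ∀ η : Vec n, Qf φ (act γ v) (act γ η) = Qf φ v η := by
    intro v hv η
    have hev : ∀ᶠ t : ℝ in 𝓝[≠] 0, v + t • η ∈ Cone n := by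
      have h6 : Continuous fun t : ℝ => v + t • η := by fun_prop
      have h7 := h6.tendsto (0 : ℝ)
      rw [zero_smul, add_zero] at h7
      exact (h7.mono_left nhdsWithin_le_nhds).eventually ((isOpen_cone n).mem_nhds hv)
    have h1 : (fun t : ℝ => φ (act γ v) (act γ v + t • act γ η) / t ^ 2) =ᶠ[𝓝[≠] 0]
        fun t : ℝ => φ v (v + t • η) / t ^ 2 := by
      filter_upwards [hev] with t ht
      have e : act γ v + t • act γ η = act γ (v + t • η) := by
        show actL γ v + t • actL γ η = actL γ (v + t • η)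
        rw [map_add, map_smul]
      rw [e, h v hv _ ht]
    rw [Qf, Qf, limUnder, limUnder, Filter.map_congr h1]
  have e : ∀ w : Vec n, act (γ * g) w = act γ (act g w) := fun w => act_mul γ g w
  have e2 : ∀ x y : Vec n, act γ x + act γ y = act γ (x + y) := fun x y => (act_add γ x y).symm
  have e3 : ∀ x y : Vec n, act γ x - act γ y = act γ (x - y) := fun x y => by
    show actL γ x - actL γ y = actL γ (x - y)
    rw [map_sub]
  rw [qf, qf, e, e, e, e2, e3, hQ _ (orbit_mem g), hQ _ (orbit_mem g)]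

end Pool.Agent.Lib.MP_5d4057_al.IN.D
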