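import Pool.Agent.Lib.MP_5d4057_al.IN.DDat
import Pool.Agent.Lib.MP_5d4057_al.HM.Cut

/-! INT, part D, file DGlo: the global argument for cocompact groups. -/

set_option autoImplicit false

namespace Pool.Agent.Lib.MP_5d4057_al.IN.D

open Matrix MeasureTheory Filter Topology Pool.Agent.Lib.MP_5d4057_al
  Pool.Agent.Lib.MP_5d4057_al.Hyb Pool.Agent.Lib.MP_5d4057_al.HM

open scoped ComplexOrder MatrixOrder Matrix.Norms.L2Operator ENNReal

variable {n : ℕ} {Γ : Subgroup (SUGroup n)} {q : Ix n → Ix n → SUGroup n → ℝ}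
  {G : Ix n → Ix n → Ix n → SUGroup n → ℝ}

private theorem dglo_left {A : Mat (n + 1)} {Φ : Mat (n + 1) → ℝ} (hΦ : ContDiff ℝ (⊤ : ℕ∞) Φ)
    (X : Mat (n + 1)) : dX X (fun M => Φ (A * M)) = fun M => dX X Φ (A * M) :=
  funext fun M => dX_left A hΦ M

/-- Left invariance of the form. PROOF: `dX_left`, left invariance of the Haar measure. -/
theorem Siu_left {γ : SUGroup n} (hq : ∀ a b g, q a b (γ * g) = q a b g) {Φ : Mat (n + 1) → ℝ}
    (hΦ : Tst Set.univ Φ) : Siu q (fun M => Φ (γ.toMatrix * M)) = Siu q Φ := by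
  have h1 : ∀ X Y : Mat (n + 1), ∀ g : SUGroup n,
      dX X (dX Y fun M => Φ (γ.toMatrix * M)) g.toMatrix = dX X (dX Y Φ) (γ * g).toMatrix := by
    intro X Y g
    rw [dglo_left hΦ.smooth, dglo_left (contDiff_dX hΦ.smooth), toMatrix_mul]
  unfold Siu
  simp only [h1]
  conv_rhs => rw [← integral_mul_left_eq_self _ γ]
  simp only [hq]

/-- The smoothed cut-off function. -/
noncomputable def cuT (χ : SUGroup n → ℝ) (ψ : Mat (n + 1) → ℝ) (M : Mat (n + 1)) : ℝ :=
  ∫ y : SUGroup n, χ y * ψ ((y⁻¹).toMatrix * M) ∂(mu n)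

attribute [local instance] Lv.instMS Lv.instBS

/-- the matrix of the inverse, cut off -/
private noncomputable def dglo_u (χ : SUGroup n → ℝ) (y : SUGroup n) : Mat (n + 1) := by
  classical exact if y ∈ tsupport χ then (y⁻¹).toMatrix else 1

private theorem dglo_cont : Continuous fun y : SUGroup n => (y⁻¹).toMatrix :=
  (continuous_toMatrix n).comp continuous_inv

private theorem dglo_meas (χ : SUGroup n → ℝ) : Measurable (dglo_u χ) :=
  Measurable.ite (isClosed_tsupport χ).measurableSet dglo_cont.measurable measurable_const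

private def dglo_k (χ : SUGroup n → ℝ) : Set (Mat (n + 1)) :=
  insert 1 ((fun y : SUGroup n => (y⁻¹).toMatrix) '' tsupport χ)

private theorem dglo_k_cpt {χ : SUGroup n → ℝ} (hχ : HasCompactSupport χ) :
    IsCompact (dglo_k χ) := (IsCompact.image hχ dglo_cont).insert 1

private theorem dglo_mem (χ : SUGroup n → ℝ) (y : SUGroup n) : dglo_u χ y ∈ dglo_k χ := by
  unfold dglo_u dglo_k
  split_ifs with h
  · exact Set.mem_insert_of_mem _ ⟨y, h, rfl⟩
  · exact Set.mem_insert _ _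

private theorem dglo_eq (χ : SUGroup n → ℝ) (ψ : Mat (n + 1) → ℝ) (M : Mat (n + 1)) :
    cuT χ ψ M = ∫ y : SUGroup n, ContinuousLinearMap.lsmul ℝ ℝ (ψ (dglo_u χ y * M)) (χ y)
      ∂(mu n) := by
  unfold cuT
  refine integral_congr_ae (Eventually.of_forall fun y => ?_)
  show χ y * ψ ((y⁻¹).toMatrix * M) = ContinuousLinearMap.lsmul ℝ ℝ (ψ (dglo_u χ y * M)) (χ y)
  rw [ContinuousLinearMap.lsmul_apply, smul_eq_mul]
  by_cases h : y ∈ tsupport χ
  · rw [dglo_u, if_pos h, mul_comm]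
  · rw [image_eq_zero_of_notMem_tsupport h, zero_mul, mul_zero]

private theorem dglo_sm {ψ : Mat (n + 1) → ℝ} (hψ : ContDiff ℝ (⊤ : ℕ∞) ψ) :
    ContDiffOn ℝ (⊤ : ℕ∞)
      (Function.uncurry fun (M : Mat (n + 1)) (X : Mat (n + 1)) => ψ (X * M))
      (Set.univ ×ˢ Set.univ) := by
  have h1 : ContDiff ℝ (⊤ : ℕ∞) fun p : Mat (n + 1) × Mat (n + 1) => p.2 * p.1 :=
    contDiff_snd.mul contDiff_fst
  exact (hψ.comp h1).contDiffOn

private theorem dglo_int {χ : SUGroup n → ℝ} (hχ : Cut Γ χ) : Integrable χ (mu n) :=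
  hχ.cont.integrable_of_hasCompactSupport hχ.supp

/-- PROOF: differentiation under the integral (`χ` is continuous with compact support, `ψ` smooth with compact support; for `M` in a
ball all derivatives of the integrand are bounded): `contDiff_of_..`, or `HM.LavA`; the support is in the
compact set `supp χ * supp ψ`; positivity: `ψ > 0` near `1`. -/
theorem tst_cuT {χ : SUGroup n → ℝ} (hχ : Cut Γ χ) {ψ : Mat (n + 1) → ℝ} (hψ : Tst Set.univ ψ) :
    Tst Set.univ (cuT χ ψ) := by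
  refine ⟨⟨?_, ?_, fun _ _ => Set.mem_univ _⟩, ?_⟩
  · rw [← contDiffOn_univ]
    have h1 := contDiffOn_param (ContinuousLinearMap.lsmul ℝ ℝ : ℝ →L[ℝ] ℝ →L[ℝ] ℝ) (n := ⊤)
      (Φ := fun (M : Mat (n + 1)) (X : Mat (n + 1)) => ψ (X * M)) isOpen_univ
      (isOpen_univ.prod isOpen_univ) (dglo_k_cpt hχ.supp)
      (Set.prod_mono subset_rfl (Set.subset_univ _)) (dglo_sm hψ.smooth)
      (dglo_meas χ).aemeasurable (dglo_mem χ) (dglo_int hχ)
    exact h1.congr fun M _ => dglo_eq χ ψ M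
  · refine HasCompactSupport.of_support_subset_isCompact
      (K := (fun p : SUGroup n × Mat (n + 1) => p.1.toMatrix * p.2) ''
        (tsupport χ ×ˢ tsupport ψ)) ?_ ?_
    · refine (IsCompact.prod hχ.supp hψ.supp).image ?_
      exact ((continuous_toMatrix n).comp continuous_fst).mul continuous_snd
    · intro M hM
      by_contra hcon
      apply hM
      unfold cuT
      refine integral_eq_zero_of_ae (Eventually.of_forall fun y => ?_)
      show χ y * ψ ((y⁻¹).toMatrix * M) = 0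
      by_cases h : y ∈ tsupport χ
      · by_cases h2 : (y⁻¹).toMatrix * M ∈ tsupport ψ
        · exfalso
          apply hcon
          refine ⟨(y, (y⁻¹).toMatrix * M), ⟨h, h2⟩, ?_⟩
          show y.toMatrix * ((y⁻¹).toMatrix * M) = M
          rw [← Matrix.mul_assoc, toMatrix_mul_inv, Matrix.one_mul]
        · rw [image_eq_zero_of_notMem_tsupport h2, mul_zero]
      · rw [image_eq_zero_of_notMem_tsupport h, zero_mul]
  · intro g
    unfold cuT
    refine integral_nonneg fun y => ?_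
    show 0 ≤ χ y * ψ ((y⁻¹).toMatrix * g.toMatrix)
    rw [← toMatrix_mul]
    exact mul_nonneg (hχ.nonneg y) (hψ.nonneg _)

theorem dX_cuT {χ : SUGroup n → ℝ} (hχ : Cut Γ χ) {ψ : Mat (n + 1) → ℝ} (hψ : Cs Set.univ ψ)
    (X : Mat (n + 1)) : dX X (cuT χ ψ) = cuT χ (dX X ψ) := by
  funext M
  have h0 : cuT χ ψ = fun M => ∫ y : SUGroup n,
      ContinuousLinearMap.lsmul ℝ ℝ (ψ (dglo_u χ y * M)) (χ y) ∂(mu n) :=
    funext fun M => dglo_eq χ ψ M
  rw [dglo_eq χ (dX X ψ) M]
  show fderiv ℝ (cuT χ ψ) M (M * X) = _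
  rw [h0, fderiv_param_apply (ContinuousLinearMap.lsmul ℝ ℝ : ℝ →L[ℝ] ℝ →L[ℝ] ℝ)
    (Φ := fun (M : Mat (n + 1)) (X : Mat (n + 1)) => ψ (X * M)) isOpen_univ
    (isOpen_univ.prod isOpen_univ) (dglo_k_cpt hχ.supp)
    (Set.prod_mono subset_rfl (Set.subset_univ _))
    ((dglo_sm hψ.smooth).of_le (by exact_mod_cast le_top))
    (dglo_meas χ).aemeasurable (dglo_mem χ) (dglo_int hχ) (Set.mem_univ M) (M * X)]
  refine integral_congr_ae (Eventually.of_forall fun y => ?_)
  have h1 := dX_left (X := X) (dglo_u χ y) hψ.smooth M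
  have h2 : fderiv ℝ (fun M => ψ (dglo_u χ y * M)) M (M * X) = dX X ψ (dglo_u χ y * M) := h1
  show ContinuousLinearMap.lsmul ℝ ℝ (fderiv ℝ (fun M => ψ (dglo_u χ y * M)) M (M * X)) (χ y) = _
  rw [h2]

end Pool.Agent.Lib.MP_5d4057_al.IN.D
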