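import Pool.Agent.Lib.MP_5d4057_al.IN.DGloN
import Pool.Agent.Lib.MP_5d4057_al.IN.DFrmB

/-! INT, part D, file DGloE: the energy density of a system of blocks has finite mass if the
displacements are small in the mean (Fatou). -/

set_option autoImplicit false

namespace Pool.Agent.Lib.MP_5d4057_al.IN.D

open Matrix MeasureTheory Filter Topology Pool.Agent.Lib.MP_5d4057_al
  Pool.Agent.Lib.MP_5d4057_al.Hyb Pool.Agent.Lib.MP_5d4057_al.HM
  Pool.Agent.Lib.MP_5d4057_al.NU

open scoped ComplexOrder MatrixOrder Matrix.Norms.L2Operator ENNReal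

variable {n : ℕ} {Γ : Subgroup (SUGroup n)} {χ : SUGroup n → ℝ} {r : ℕ}
  {φ : Vec n → Vec n → ℝ} {S : Set (Vec n → ℝ)}

/-- The flow of the base point. -/
theorem hasDerivAt_orbit_ba (a : Ix n) (g : SUGroup n) :
    HasDerivAt (fun t => act (g * ba a t) (base n)) (act g (vec (xi a))) 0 := by
  have h1 := Kak.hasDerivAt_flow (xi_norm a) 0
  rw [Kak.flow_zero (xi_norm a), toMatrix_one, one_mul] at h1
  obtain ⟨L, hL⟩ : ∃ L : Mat (n + 1) →ₗ[ℝ] Vec n, ∀ M, L M = (g.toMatrix * M) *ᵥ base n := by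
    refine ⟨{ toFun := fun M => (g.toMatrix * M) *ᵥ base n
              map_add' := fun A B => ?_
              map_smul' := fun r A => ?_ }, fun M => rfl⟩
    · rw [Matrix.mul_add, Matrix.add_mulVec]
    · rw [Matrix.mul_smul, Matrix.smul_mulVec]
      rfl
  have h2 := (LinearMap.toContinuousLinearMap L).hasFDerivAt.comp_hasDerivAt (0 : ℝ) h1
  have e1 : (fun t => act (g * ba a t) (base n)) =
      (LinearMap.toContinuousLinearMap L) ∘ fun t => (Kak.flow (xi a) (xi_norm a) t).toMatrix := by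
    funext t
    show act (g * ba a t) (base n) = L _
    rw [hL, act, toMatrix_mul]
    rfl
  have e2 : act g (vec (xi a)) = (LinearMap.toContinuousLinearMap L) (xmat (xi a)) := by
    show _ = L _
    rw [hL, act, ← Xa_base, Matrix.mulVec_mulVec]
    rfl
  rw [e1, e2]
  exact h2

/-- The diagonal components as limits along the flow. -/
theorem tendsto_qf (h : Good r (Cone n) φ S) (a : Ix n) (g : SUGroup n) :
    Tendsto (fun t : ℝ => φ (act g (base n)) (act (g * ba a t) (base n)) / t ^ 2) (𝓝[≠] 0)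
      (𝓝 (qf φ a a g)) := by
  have hg : g ∈ orb (Cone n) := orbit_mem g
  obtain ⟨m, ℓ, H, e⟩ := h.exists_forms (v := act g (base n)) hg
  rw [DFrmB_qf_diag h hg, e]
  set v := act g (base n) with hv
  set η := act g (vec (xi a)) with hη
  have hd := hasDerivAt_orbit_ba a g
  have h0 : act (g * ba a 0) (base n) = v := by rw [ba_zero, mul_one]
  set E : ℝ → Vec n := fun t => act (g * ba a t) (base n) - v with hE
  have hsl : Tendsto (fun t : ℝ => t⁻¹ • E t) (𝓝[≠] 0) (𝓝 η) := by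
    have h1 := hasDerivAt_iff_tendsto_slope.1 hd
    refine h1.congr fun t => ?_
    rw [slope_def_module, h0, sub_zero]
  have hE0 : Tendsto E (𝓝[≠] 0) (𝓝 0) := by
    have h1 : Tendsto (fun t => act (g * ba a t) (base n)) (𝓝 0) (𝓝 v) := by
      have h2 := hd.continuousAt.tendsto
      rwa [h0] at h2
    have h3 := (h1.sub_const v).mono_left (nhdsWithin_le_nhds (a := (0 : ℝ)) (s := {0}ᶜ))
    rwa [sub_self] at h3
  have hmain : Tendsto (fun t : ℝ => ∑ i, ℓ i (t⁻¹ • E t) ^ 2) (𝓝[≠] 0) (𝓝 (∑ i, ℓ i η ^ 2)) :=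
    tendsto_finsetSum _ fun i _ => (((ℓ i).continuous.tendsto η).comp hsl).pow 2
  have herr : Tendsto (fun t : ℝ => φ v (act (g * ba a t) (base n)) / t ^ 2 -
      ∑ i, ℓ i (t⁻¹ • E t) ^ 2) (𝓝[≠] 0) (𝓝 0) := by
    rw [Metric.tendsto_nhds]
    intro ε hε
    have hN : ∀ᶠ t : ℝ in 𝓝[≠] 0, ‖t⁻¹ • E t‖ ^ 2 < ‖η‖ ^ 2 + 1 :=
      ((hsl.norm).pow 2).eventually_lt_const (by linarith)
    have hp : 0 < ‖η‖ ^ 2 + 1 := by positivity
    have h1 := hE0.eventually (H (ε / (‖η‖ ^ 2 + 1)) (div_pos hε hp))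
    filter_upwards [hN, h1, self_mem_nhdsWithin] with t h2 h3 h4
    have ht : t ≠ 0 := h4
    have ht2 : 0 < t ^ 2 := by positivity
    rw [Real.dist_eq, sub_zero]
    have e1 : v + E t = act (g * ba a t) (base n) := by rw [hE]; simp
    rw [e1] at h3
    have e2 : ∑ i, ℓ i (t⁻¹ • E t) ^ 2 = (∑ i, ℓ i (E t) ^ 2) / t ^ 2 := by
      rw [Finset.sum_div]
      refine Finset.sum_congr rfl fun i _ => ?_
      rw [map_smul, smul_eq_mul]
      field_simp
    have e3 : ‖t⁻¹ • E t‖ ^ 2 = ‖E t‖ ^ 2 / t ^ 2 := by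
      rw [norm_smul, norm_inv, Real.norm_eq_abs, mul_pow, inv_pow, sq_abs]
      field_simp
    rw [e2, ← sub_div, abs_div, abs_of_pos ht2, div_lt_iff₀ ht2]
    refine h3.trans_lt ?_
    rw [e3, div_lt_iff₀ ht2] at h2
    calc ε / (‖η‖ ^ 2 + 1) * ‖E t‖ ^ 2 < ε / (‖η‖ ^ 2 + 1) * ((‖η‖ ^ 2 + 1) * t ^ 2) :=
          mul_lt_mul_of_pos_left h2 (div_pos hε hp)
      _ = ε * t ^ 2 := by field_simp
  have h5 := herr.add hmain
  rw [zero_add] at h5
  refine h5.congr fun t => ?_
  ring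

theorem log_wt_ba (a : Ix n) {t : ℝ} (ht : 0 ≤ t) : Real.log (wt (ba a t)) = t := by
  rw [ba, Kak.wt_flow (xi_norm a) ht, Real.log_exp]

/-- **Finite mass of the energy density.** -/
theorem LI_qf_lt (h : Lat Γ χ) (hG : Good r (Cone n) φ S)
    (hmeas : ∀ x : SUGroup n, Measurable fun g : SUGroup n =>
      φ (act g (base n)) (act (g * x) (base n))) {C : ℝ}
    (hE : ∀ x : SUGroup n, LI χ (fun g => ENNReal.ofReal
      (φ (act g (base n)) (act (g * x) (base n)))) ≤ ENNReal.ofReal (C * Real.log (wt x) ^ 2))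
    (a : Ix n) : LI χ (fun g => ENNReal.ofReal (qf φ a a g)) < ⊤ := by
  set s : ℕ → ℝ := fun k => 1 / ((k : ℝ) + 1) with hs
  have hs0 : ∀ k, 0 < s k := fun k => by rw [hs]; positivity
  have hst : Tendsto s atTop (𝓝[≠] 0) := by
    refine tendsto_nhdsWithin_iff.2 ⟨tendsto_one_div_add_atTop_nhds_zero_nat,
      Filter.Eventually.of_forall fun k => (hs0 k).ne'⟩
  have hlim : ∀ g : SUGroup n, Tendsto (fun k => ENNReal.ofReal (χ g) * ENNReal.ofReal
      (φ (act g (base n)) (act (g * ba a (s k)) (base n)) / s k ^ 2)) atTop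
      (𝓝 (ENNReal.ofReal (χ g) * ENNReal.ofReal (qf φ a a g))) := fun g =>
    ENNReal.Tendsto.const_mul (ENNReal.tendsto_ofReal ((tendsto_qf hG a g).comp hst))
      (Or.inr ENNReal.ofReal_ne_top)
  have hm : ∀ k, Measurable fun g : SUGroup n => ENNReal.ofReal (χ g) * ENNReal.ofReal
      (φ (act g (base n)) (act (g * ba a (s k)) (base n)) / s k ^ 2) := fun k =>
    h.measurable.mul ((hmeas _).div_const _).ennreal_ofReal
  refine lt_of_le_of_lt (b := ENNReal.ofReal C) ?_ ENNReal.ofReal_lt_top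
  calc LI χ (fun g => ENNReal.ofReal (qf φ a a g))
      = ∫⁻ g, liminf (fun k => ENNReal.ofReal (χ g) * ENNReal.ofReal
          (φ (act g (base n)) (act (g * ba a (s k)) (base n)) / s k ^ 2)) atTop ∂(mu n) := by
        unfold LI
        exact lintegral_congr fun g => (hlim g).liminf_eq.symm
    _ ≤ liminf (fun k => ∫⁻ g, ENNReal.ofReal (χ g) * ENNReal.ofReal
          (φ (act g (base n)) (act (g * ba a (s k)) (base n)) / s k ^ 2) ∂(mu n)) atTop :=
        lintegral_liminf_le hm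
    _ ≤ liminf (fun _ : ℕ => ENNReal.ofReal C) atTop := by
        refine liminf_le_liminf (Eventually.of_forall fun k => ?_)
        have hk2 : 0 < s k ^ 2 := pow_pos (hs0 k) 2
        have e1 : ∫⁻ g, ENNReal.ofReal (χ g) * ENNReal.ofReal
            (φ (act g (base n)) (act (g * ba a (s k)) (base n)) / s k ^ 2) ∂(mu n) =
            ENNReal.ofReal (s k ^ 2)⁻¹ * LI χ (fun g => ENNReal.ofReal
              (φ (act g (base n)) (act (g * ba a (s k)) (base n)))) := by
          rw [← LI_const_mul h _ ((hmeas _).ennreal_ofReal).aemeasurable]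
          unfold LI
          refine lintegral_congr fun g => ?_
          rw [div_eq_inv_mul, ENNReal.ofReal_mul (inv_nonneg.2 hk2.le)]
        show ∫⁻ g, ENNReal.ofReal (χ g) * ENNReal.ofReal
            (φ (act g (base n)) (act (g * ba a (s k)) (base n)) / s k ^ 2) ∂(mu n) ≤ _
        rw [e1]
        refine (mul_le_mul_right (hE (ba a (s k))) _).trans ?_
        rw [log_wt_ba a (hs0 k).le, ← ENNReal.ofReal_mul (inv_nonneg.2 hk2.le)]
        refine ENNReal.ofReal_le_ofReal (le_of_eq ?_)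
        rw [mul_comm C, ← mul_assoc, inv_mul_cancel₀ hk2.ne', one_mul]
    _ = ENNReal.ofReal C := by simp

end Pool.Agent.Lib.MP_5d4057_al.IN.D
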