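import Pool.Agent.Lib.MP_5d4057_al.IN.DCutN
import Pool.Agent.Lib.MP_5d4057_al.IN.DDat

/-! INT, part D, file DGloN: the form of Siu vanishes, lattices (D6 for lattices). -/

set_option autoImplicit false

namespace Pool.Agent.Lib.MP_5d4057_al.IN.D

open Matrix MeasureTheory Filter Topology Pool.Agent.Lib.MP_5d4057_al
  Pool.Agent.Lib.MP_5d4057_al.Hyb Pool.Agent.Lib.MP_5d4057_al.HM
  Pool.Agent.Lib.MP_5d4057_al.NU

open scoped ComplexOrder MatrixOrder Matrix.Norms.L2Operator ENNReal

variable {n : ℕ} {Γ : Subgroup (SUGroup n)} {χ : SUGroup n → ℝ}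
  {q : Ix n → Ix n → SUGroup n → ℝ} {G : Ix n → Ix n → Ix n → SUGroup n → ℝ}

/-- The coefficients of Siu's form: `sm q c d` is the coefficient of `X_d X_c`. -/
noncomputable def sm (q : Ix n → Ix n → SUGroup n → ℝ) (c d : Ix n) (g : SUGroup n) : ℝ :=
  if c.2 = d.2 then
    (if c.1 = d.1 then ∑ i : Fin n, (q (i, false) (i, false) g + q (i, true) (i, true) g) else 0) -
      (q (d.1, false) (c.1, false) g + q (d.1, true) (c.1, true) g)
  else if d.2 then q (d.1, false) (c.1, true) g - q (d.1, true) (c.1, false) g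
  else -(q (d.1, false) (c.1, true) g - q (d.1, true) (c.1, false) g)

/-- The algebra. -/
theorem sum_sm (q : Ix n → Ix n → SUGroup n → ℝ) (g : SUGroup n) (Y : Ix n → Ix n → ℝ) :
    ∑ c, ∑ d, sm q c d g * Y c d = ∑ i : Fin n, ∑ j : Fin n,
    ((q (i, false) (i, false) g + q (i, true) (i, true) g) *
        (Y (j, false) (j, false) + Y (j, true) (j, true)) -
      (q (i, false) (j, false) g + q (i, true) (j, true) g) *
        (Y (j, false) (i, false) + Y (j, true) (i, true)) +
      (q (i, false) (j, true) g - q (i, true) (j, false) g) *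
        (Y (j, false) (i, true) - Y (j, true) (i, false))) := by
  set A : ℝ := ∑ i : Fin n, (q (i, false) (i, false) g + q (i, true) (i, true) g) with hA
  have h1 : ∑ c, ∑ d, sm q c d g * Y c d = ∑ j : Fin n, ∑ i : Fin n,
      ((if j = i then A else 0) * (Y (j, false) (i, false) + Y (j, true) (i, true)) -
      (q (i, false) (j, false) g + q (i, true) (j, true) g) *
        (Y (j, false) (i, false) + Y (j, true) (i, true)) +
      (q (i, false) (j, true) g - q (i, true) (j, false) g) *
        (Y (j, false) (i, true) - Y (j, true) (i, false))) := by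
    rw [Fintype.sum_prod_type]
    refine Finset.sum_congr rfl fun j _ => ?_
    simp only [Fintype.sum_bool, Fintype.sum_prod_type]
    rw [← Finset.sum_add_distrib]
    refine Finset.sum_congr rfl fun i _ => ?_
    simp only [sm, if_true, Bool.false_eq_true, if_false, Bool.true_eq_false, ← hA]
    ring
  rw [h1]
  have h2 : ∑ i : Fin n, ∑ j : Fin n,
    ((q (i, false) (i, false) g + q (i, true) (i, true) g) *
        (Y (j, false) (j, false) + Y (j, true) (j, true)) -
      (q (i, false) (j, false) g + q (i, true) (j, true) g) *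
        (Y (j, false) (i, false) + Y (j, true) (i, true)) +
      (q (i, false) (j, true) g - q (i, true) (j, false) g) *
        (Y (j, false) (i, true) - Y (j, true) (i, false))) =
      A * ∑ j : Fin n, (Y (j, false) (j, false) + Y (j, true) (j, true)) +
      ∑ i : Fin n, ∑ j : Fin n, (-((q (i, false) (j, false) g + q (i, true) (j, true) g) *
        (Y (j, false) (i, false) + Y (j, true) (i, true))) +
      (q (i, false) (j, true) g - q (i, true) (j, false) g) *
        (Y (j, false) (i, true) - Y (j, true) (i, false))) := by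
    rw [hA, Finset.sum_mul, ← Finset.sum_add_distrib]
    refine Finset.sum_congr rfl fun i _ => ?_
    rw [Finset.mul_sum, ← Finset.sum_add_distrib]
    exact Finset.sum_congr rfl fun j _ => by ring
  have h3 : ∑ j : Fin n, ∑ i : Fin n,
      ((if j = i then A else 0) * (Y (j, false) (i, false) + Y (j, true) (i, true)) -
      (q (i, false) (j, false) g + q (i, true) (j, true) g) *
        (Y (j, false) (i, false) + Y (j, true) (i, true)) +
      (q (i, false) (j, true) g - q (i, true) (j, false) g) *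
        (Y (j, false) (i, true) - Y (j, true) (i, false))) =
      A * ∑ j : Fin n, (Y (j, false) (j, false) + Y (j, true) (j, true)) +
      ∑ j : Fin n, ∑ i : Fin n, (-((q (i, false) (j, false) g + q (i, true) (j, true) g) *
        (Y (j, false) (i, false) + Y (j, true) (i, true))) +
      (q (i, false) (j, true) g - q (i, true) (j, false) g) *
        (Y (j, false) (i, true) - Y (j, true) (i, false))) := by
    rw [Finset.mul_sum, ← Finset.sum_add_distrib]
    refine Finset.sum_congr rfl fun j _ => ?_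
    have h4 : A * (Y (j, false) (j, false) + Y (j, true) (j, true)) =
        ∑ i : Fin n, (if j = i then A else 0) * (Y (j, false) (i, false) + Y (j, true) (i, true)) := by
      simp only [ite_mul, zero_mul, Finset.sum_ite_eq, Finset.mem_univ, if_true]
    rw [h4, ← Finset.sum_add_distrib]
    exact Finset.sum_congr rfl fun i _ => by ring
  rw [h2, h3, Finset.sum_comm]

/-- Siu's form as a second order form. -/
theorem Siu_eq_siu {Φ : Mat (n + 1) → ℝ} (hΦ : ContDiff ℝ (⊤ : ℕ∞) Φ) {φ : SUGroup n → ℝ}
    (he : ∀ g : SUGroup n, Φ g.toMatrix = φ g) : Siu q Φ = siu ba (sm q) φ := by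
  have e0 : φ = fun g : SUGroup n => Φ g.toMatrix := funext fun g => (he g).symm
  subst e0
  have h := c2_smooth hΦ
  unfold Siu siu
  refine integral_congr_ae (Filter.Eventually.of_forall fun g => ?_)
  unfold sx
  simp only [h.2.2]
  rw [sum_sm q g fun c d => dX (Xa d) (dX (Xa c) Φ) g.toMatrix]

theorem sm_continuous (hc : ∀ a b, Continuous (q a b)) (c d : Ix n) : Continuous (sm q c d) := by
  unfold sm
  split_ifs
  · exact (continuous_finsetSum _ fun i _ => (hc _ _).add (hc _ _)).sub ((hc _ _).add (hc _ _))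
  · exact continuous_const.sub ((hc _ _).add (hc _ _))
  · exact (hc _ _).sub (hc _ _)
  · exact ((hc _ _).sub (hc _ _)).neg

theorem sm_inv (hq : ∀ γ ∈ Γ, ∀ a b g, q a b (γ * g) = q a b g) (c d : Ix n) :
    ∀ γ ∈ Γ, ∀ g, sm q c d (γ * g) = sm q c d g := by
  intro γ hγ g
  unfold sm
  simp only [hq γ hγ]

theorem tr_eq (q : Ix n → Ix n → SUGroup n → ℝ) (g : SUGroup n) :
    tr q g = ∑ i : Fin n, (q (i, false) (i, false) g + q (i, true) (i, true) g) := by
  unfold tr
  rw [Fintype.sum_prod_type]
  refine Finset.sum_congr rfl fun i _ => ?_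
  rw [Fintype.sum_bool, add_comm]

theorem sm_le (hdom : ∀ a b g, |q a b g| ≤ tr q g) (c d : Ix n) (g : SUGroup n) :
    |sm q c d g| ≤ 3 * tr q g := by
  have h0 : 0 ≤ tr q g := (abs_nonneg _).trans (hdom c d g)
  have h2 : ∀ a b a' b', |q a b g + q a' b' g| ≤ 2 * tr q g := by
    intro a b a' b'
    have := abs_add_le (q a b g) (q a' b' g)
    linarith [hdom a b g, hdom a' b' g]
  have h3 : ∀ a b a' b', |q a b g - q a' b' g| ≤ 2 * tr q g := by
    intro a b a' b'
    have := abs_sub (q a b g) (q a' b' g)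
    linarith [hdom a b g, hdom a' b' g]
  unfold sm
  rw [← tr_eq]
  split_ifs
  · have h4 := abs_sub (tr q g) (q (d.1, false) (c.1, false) g + q (d.1, true) (c.1, true) g)
    rw [abs_of_nonneg h0] at h4
    linarith [h2 (d.1, false) (c.1, false) (d.1, true) (c.1, true)]
  · rw [zero_sub, abs_neg]
    linarith [h2 (d.1, false) (c.1, false) (d.1, true) (c.1, true)]
  · linarith [h3 (d.1, false) (c.1, true) (d.1, true) (c.1, false)]
  · rw [abs_neg]
    linarith [h3 (d.1, false) (c.1, true) (d.1, true) (c.1, false)]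

/-- **The form vanishes** (D6 for lattices, with cut-offs given abstractly). -/
theorem siu_zero_ct (h : Lat Γ χ) (hct : Ct (ba (n := n)) Γ SmG) (D : Dat Set.univ q G)
    (hq : ∀ γ ∈ Γ, ∀ a b g, q a b (γ * g) = q a b g)
    (hm : ∀ a, LI χ (fun g => ENNReal.ofReal (q a a g)) < ⊤) :
    ∀ Φ, Tst Set.univ Φ → Siu q Φ = 0 := by
  have hc : ∀ a b, Continuous (q a b) := fun a b =>
    continuousOn_univ.1 (D.grad a b).cont
  have hdom : ∀ a b g, |q a b g| ≤ tr q g := fun a b g => D.dom a b g (Set.mem_univ g)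
  have htr0 : ∀ a g, 0 ≤ tr q g := fun a g => (abs_nonneg _).trans (hdom a a g)
  have htrc : Continuous (tr q) := by
    unfold tr
    exact continuous_finsetSum _ fun a _ => hc a a
  have hint : Integrable (fun g => χ g * tr q g) (mu n) := by
    refine ⟨(h.cont.mul htrc).aestronglyMeasurable, ?_⟩
    rcases isEmpty_or_nonempty (Ix n) with he | ⟨⟨a0⟩⟩
    · have e : (fun g => χ g * tr q g) = fun _ => (0 : ℝ) := by
        funext g
        unfold tr
        rw [Finset.univ_eq_empty, Finset.sum_empty, mul_zero]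
      rw [e]
      exact (integrable_zero _ _ _).2
    · have h1 : ∀ g, ‖χ g * tr q g‖ₑ ≤
          ∑ a, ENNReal.ofReal (χ g) * ENNReal.ofReal (q a a g) := by
        intro g
        rw [← Finset.mul_sum, Real.enorm_eq_ofReal (mul_nonneg (h.pos g).le (htr0 a0 g)),
          ENNReal.ofReal_mul (h.pos g).le]
        refine mul_le_mul_right ?_ _
        unfold tr
        exact Finset.le_sum_of_subadditive ENNReal.ofReal ENNReal.ofReal_zero.le
          (fun x y => ENNReal.ofReal_add_le) Finset.univ fun a => q a a g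
      have hms : ∀ a ∈ (Finset.univ : Finset (Ix n)),
          Measurable fun g => ENNReal.ofReal (χ g) * ENNReal.ofReal (q a a g) := fun a _ =>
        h.measurable.mul (hc a a).measurable.ennreal_ofReal
      refine lt_of_le_of_lt (lintegral_mono h1) ?_
      rw [lintegral_finsetSum _ hms]
      exact ENNReal.sum_lt_top.2 fun a _ => hm a
  have hmm : ∀ c d, Integrable (fun g => χ g * |sm q c d g|) (mu n) := by
    intro c d
    refine (hint.const_mul 3).mono' (h.cont.mul (sm_continuous hc c d).abs).aestronglyMeasurable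
      (Filter.Eventually.of_forall fun g => ?_)
    rw [Real.norm_of_nonneg (mul_nonneg (h.pos g).le (abs_nonneg _))]
    calc χ g * |sm q c d g| ≤ χ g * (3 * tr q g) :=
          mul_le_mul_of_nonneg_left (sm_le hdom c d g) (h.pos g).le
      _ = 3 * (χ g * tr q g) := by ring
  intro Φ hΦ
  have hTf : ∀ {Ψ : Mat (n + 1) → ℝ}, Tst (n := n) Set.univ Ψ →
      Tf SmG (fun g : SUGroup n => Ψ g.toMatrix) := by
    intro Ψ hΨ
    refine ⟨SmG.of_smooth hΨ.smooth, ?_, hΨ.nonneg⟩
    exact HasCompactSupport.of_support_subset_isCompact hΨ.toCs.compact fun g hg =>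
      subset_tsupport _ hg
  rw [Siu_eq_siu hΦ.smooth fun g => rfl]
  refine siu_eq_zero h fl_ba (cl_smG h.disc) hct bu_smG (sm_continuous hc) (sm_inv hq) hmm
    (fun φ hφ => ?_) _ (hTf hΦ)
  obtain ⟨Ψ, hΨ, he⟩ := hφ.sm.ext hφ.supp
  rw [← Siu_eq_siu hΨ.smooth he]
  exact D.p3 Ψ ⟨hΨ, fun g => by rw [he]; exact hφ.nonneg g⟩

/-- **The form vanishes** (D6 for lattices). -/
theorem siu_zero_lat (h : Lat Γ χ) {T : ℝ} {y : Vec n → ℝ} (hy : Ht Γ T y)
    (D : Dat Set.univ q G) (hq : ∀ γ ∈ Γ, ∀ a b g, q a b (γ * g) = q a b g)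
    (hm : ∀ a, LI χ (fun g => ENNReal.ofReal (q a a g)) < ⊤) :
    ∀ Φ, Tst Set.univ Φ → Siu q Φ = 0 :=
  siu_zero_ct h (ct_of_ht hy) D hq hm

end Pool.Agent.Lib.MP_5d4057_al.IN.D
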