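import Pool.Agent.Lib.MP_5d4057_al.IN.DDat

/-! INT, part D, file DGlu: gluing of data. -/

set_option autoImplicit false

namespace Pool.Agent.Lib.MP_5d4057_al.IN.D

open Matrix MeasureTheory Filter Topology Pool.Agent.Lib.MP_5d4057_al
  Pool.Agent.Lib.MP_5d4057_al.Hyb Pool.Agent.Lib.MP_5d4057_al.HM

open scoped ComplexOrder MatrixOrder Matrix.Norms.L2Operator ENNReal

variable {n : ℕ} {O O' : Set (SUGroup n)} {Φ Ψ : Mat (n + 1) → ℝ}
  {q q₁ q₂ : Ix n → Ix n → SUGroup n → ℝ} {G G₁ G₂ : Ix n → Ix n → Ix n → SUGroup n → ℝ}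

private theorem glu_off (h : Cs O Φ) {g : SUGroup n} (hg : g ∉ O) : Φ g.toMatrix = 0 :=
  image_eq_zero_of_notMem_tsupport fun hm => hg (h.sub g hm)

private theorem glu_dX_zero (X : Mat (n + 1)) : dX X (fun _ => 0) = fun _ => 0 := by
  funext M
  simp [dX]

/-- two gradients which agree almost everywhere have the same integrals -/
private theorem glu_nsq (hG : ∀ᵐ g ∂(mu n), g ∈ O → ∀ c a b, G₁ c a b g = G₂ c a b g)
    (hΦ : Cs O Φ) :
    (fun g : SUGroup n => (tr q g)⁻¹ * nsq G₁ g * Φ g.toMatrix) =ᵐ[mu n]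
      fun g => (tr q g)⁻¹ * nsq G₂ g * Φ g.toMatrix := by
  filter_upwards [hG] with g hg
  by_cases hO : g ∈ O
  · have h1 : nsq G₁ g = nsq G₂ g := by
      unfold nsq
      refine Finset.sum_congr rfl fun c _ => Finset.sum_congr rfl fun a _ =>
        Finset.sum_congr rfl fun b _ => ?_
      rw [hg hO]
    rw [h1]
  · rw [glu_off hΦ hO, mul_zero, mul_zero]

private theorem glu_trG (hG : ∀ᵐ g ∂(mu n), g ∈ O → ∀ c a b, G₁ c a b g = G₂ c a b g)
    (hΦ : Cs O Φ) (c : Ix n) :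
    (fun g : SUGroup n => trG G₁ c g * Φ g.toMatrix) =ᵐ[mu n]
      fun g => trG G₂ c g * Φ g.toMatrix := by
  filter_upwards [hG] with g hg
  by_cases hO : g ∈ O
  · have h1 : trG G₁ c g = trG G₂ c g := by
      unfold trG
      refine Finset.sum_congr rfl fun a _ => ?_
      rw [hg hO]
    rw [h1]
  · rw [glu_off hΦ hO, mul_zero, mul_zero]

private theorem glu_cont_tr (hq : ∀ a b, ContinuousOn (q a b) O) : ContinuousOn (tr q) O := by
  unfold tr
  exact continuousOn_finsetSum _ fun a _ => hq a a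

/-- gluing for a sequence of open sets -/
private theorem glu_seq (hO : IsOpen O) {V : ℕ → Set (SUGroup n)}
    {G : ℕ → Ix n → Ix n → Ix n → SUGroup n → ℝ} (hV : ∀ k, IsOpen (V k))
    (hcov : O ⊆ ⋃ k, V k) (h : ∀ k, Dat (O ∩ V k) q (G k)) : ∃ G, Dat O q G := by
  classical
  have hOV : ∀ k, IsOpen (O ∩ V k) := fun k => hO.inter (hV k)
  have hex : ∀ g ∈ O, ∃ k, g ∈ O ∩ V k := by
    intro g hg
    obtain ⟨k, hk⟩ := Set.mem_iUnion.1 (hcov hg)
    exact ⟨k, hg, hk⟩
  -- the glued gradient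
  obtain ⟨Gl, hGl⟩ : ∃ Gl : Ix n → Ix n → Ix n → SUGroup n → ℝ, ∀ g ∈ O, ∃ k, g ∈ O ∩ V k ∧
      ∀ c a b, Gl c a b g = G k c a b g := by
    refine ⟨fun c a b g => if h : ∃ k, g ∈ O ∩ V k then G (Nat.find h) c a b g else 0, ?_⟩
    intro g hg
    refine ⟨Nat.find (hex g hg), Nat.find_spec (hex g hg), fun c a b => ?_⟩
    exact dif_pos (hex g hg)
  -- almost everywhere
  have hae0 : ∀ j k : ℕ, ∀ c a b, ∀ᵐ g ∂(mu n), g ∈ (O ∩ V j) ∩ (O ∩ V k) →
      G j c a b g = G k c a b g := by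
    intro j k c a b
    exact Wg.unique (((h j).grad a b).mono Set.inter_subset_left)
      (((h k).grad a b).mono Set.inter_subset_right) ((hOV j).inter (hOV k)) c
  have hae1 : ∀ᵐ g ∂(mu n), ∀ j k : ℕ, ∀ c a b, g ∈ (O ∩ V j) ∩ (O ∩ V k) →
      G j c a b g = G k c a b g := by
    rw [ae_all_iff]; intro j
    rw [ae_all_iff]; intro k
    rw [ae_all_iff]; intro c
    rw [ae_all_iff]; intro a
    rw [ae_all_iff]; intro b
    exact hae0 j k c a b
  have hae : ∀ k, ∀ᵐ g ∂(mu n), g ∈ O ∩ V k → ∀ c a b, Gl c a b g = G k c a b g := by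
    intro k
    filter_upwards [hae1] with g hg hk c a b
    obtain ⟨j, hj, e⟩ := hGl g hk.1
    rw [e]
    exact hg j k c a b ⟨hj, hk⟩
  -- continuity
  have hcont : ∀ a b, ContinuousOn (q a b) O := by
    intro a b g hg
    obtain ⟨k, hk⟩ := hex g hg
    exact ((((h k).grad a b).cont.continuousAt ((hOV k).mem_nhds hk))).continuousWithinAt
  have hct := glu_cont_tr hcont
  have hOU : O = ⋃ k, O ∩ V k := by
    rw [← Set.inter_iUnion]
    exact (Set.inter_eq_left.2 hcov).symm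
  have hmeas : ∀ c a b, AEStronglyMeasurable (Gl c a b) ((mu n).restrict O) := by
    intro c a b
    rw [hOU, aestronglyMeasurable_iUnion_iff]
    intro k
    refine (((h k).grad a b).meas c).congr ?_
    rw [EventuallyEq, ae_restrict_iff' (hOV k).measurableSet]
    filter_upwards [hae k] with g hg hk
    exact (hg hk c a b).symm
  have hgrad : ∀ a b, Wg O (q a b) fun c => Gl c a b := by
    intro a b
    refine Wg.loc (hcont a b) (fun c => hmeas c a b) fun g hg => ?_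
    obtain ⟨k, hk⟩ := hex g hg
    refine ⟨V k, hV k, hk.2, ((h k).grad a b).congr (hOV k) (fun _ _ => rfl) fun c => ?_⟩
    filter_upwards [hae k] with g hg hk
    exact (hg hk c a b).symm
  have hint : ∀ Φ, Tst O Φ → Integrable (fun g => (tr q g)⁻¹ * nsq Gl g * Φ g.toMatrix) (mu n) := by
    intro Φ hΦ
    obtain ⟨s, ζ, hζ, hζ0, he⟩ := hΦ.toCs.split V hV hcov
    have h1 : ∀ i, Integrable (fun g : SUGroup n => (tr q g)⁻¹ * nsq Gl g *
        (Φ g.toMatrix * ζ i g.toMatrix)) (mu n) := by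
      intro i
      have h2 := hΦ.mul_inter (hζ i)
      exact ((h i).int _ h2).congr (glu_nsq (hae i) h2.toCs).symm
    have h3 := integrable_finsetSum s fun i _ => h1 i
    refine h3.congr (Eventually.of_forall fun g => ?_)
    have h4 : Φ g.toMatrix = ∑ i ∈ s, ζ i g.toMatrix * Φ g.toMatrix := (he g).self_of_nhds
    change ∑ i ∈ s, (tr q g)⁻¹ * nsq Gl g * (Φ g.toMatrix * ζ i g.toMatrix) =
      (tr q g)⁻¹ * nsq Gl g * Φ g.toMatrix
    rw [← Finset.mul_sum]
    congr 1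
    rw [h4]
    refine Finset.sum_congr rfl fun i _ => ?_
    rw [← h4, mul_comm]
  have htr : Wg O (tr q) (trG Gl) := by
    exact Wg.sum Finset.univ fun a _ => hgrad a a
  have hi1 : ∀ {Φ : Mat (n + 1) → ℝ} (c : Ix n), Cs O Φ →
      Integrable (fun g : SUGroup n => trG Gl c g * Φ g.toMatrix) (mu n) :=
    fun c hΦ => hΦ.integrable (htr.locInt hO c) hO
  have hi2 : ∀ {Φ : Mat (n + 1) → ℝ}, Cs O Φ →
      Integrable (fun g : SUGroup n => tr q g * Φ g.toMatrix) (mu n) :=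
    fun hΦ => hΦ.integrable_cont hct hO
  refine ⟨Gl, ⟨?_, ?_, hgrad, ?_, hint, ?_, ?_⟩⟩
  · intro a b g hg
    obtain ⟨k, hk⟩ := hex g hg
    exact (h k).symm a b g hk
  · intro a b g hg
    obtain ⟨k, hk⟩ := hex g hg
    exact (h k).dom a b g hk
  · intro c a b g hg h0
    obtain ⟨k, hk, e⟩ := hGl g hg
    rw [e]
    exact (h k).zero c a b g hk h0
  · -- Bochner
    have key : ∀ Φ, Tst O Φ → 0 ≤ -(2 * ∑ c, ∫ g, trG Gl c g * dX (Xa c) Φ g.toMatrix ∂(mu n)) +
        (8 * n + 8) * ∫ g, tr q g * Φ g.toMatrix ∂(mu n) -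
        ∫ g, (tr q g)⁻¹ * nsq Gl g * Φ g.toMatrix ∂(mu n) := by
      refine Tst.loc _ ?_ ?_ ?_ ?_
      · simp [glu_dX_zero]
      · intro Φ Ψ hΦ hΨ
        have e1 : ∀ c : Ix n, ∫ g : SUGroup n, trG Gl c g *
            dX (Xa c) (fun M => Φ M + Ψ M) g.toMatrix ∂(mu n) =
            ∫ g, trG Gl c g * dX (Xa c) Φ g.toMatrix ∂(mu n) +
              ∫ g, trG Gl c g * dX (Xa c) Ψ g.toMatrix ∂(mu n) := by
          intro c
          rw [← integral_add (hi1 c (hΦ.toCs.dX _)) (hi1 c (hΨ.toCs.dX _)),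
            dX_add hΦ.smooth hΨ.smooth]
          refine integral_congr_ae (Eventually.of_forall fun g => ?_)
          change _ * (_ + _) = _ * _ + _ * _
          rw [mul_add]
        have e2 : ∫ g : SUGroup n, tr q g * (Φ g.toMatrix + Ψ g.toMatrix) ∂(mu n) =
            ∫ g, tr q g * Φ g.toMatrix ∂(mu n) + ∫ g, tr q g * Ψ g.toMatrix ∂(mu n) := by
          rw [← integral_add (hi2 hΦ.toCs) (hi2 hΨ.toCs)]
          refine integral_congr_ae (Eventually.of_forall fun g => ?_)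
          change _ * (_ + _) = _ * _ + _ * _
          rw [mul_add]
        have e3 : ∫ g : SUGroup n, (tr q g)⁻¹ * nsq Gl g * (Φ g.toMatrix + Ψ g.toMatrix) ∂(mu n) =
            ∫ g, (tr q g)⁻¹ * nsq Gl g * Φ g.toMatrix ∂(mu n) +
              ∫ g, (tr q g)⁻¹ * nsq Gl g * Ψ g.toMatrix ∂(mu n) := by
          rw [← integral_add (hint Φ hΦ) (hint Ψ hΨ)]
          refine integral_congr_ae (Eventually.of_forall fun g => ?_)
          change _ * (_ + _) = _ * _ + _ * _
          rw [mul_add]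
        rw [Finset.sum_congr rfl fun c _ => e1 c, Finset.sum_add_distrib, e2, e3]
        ring
      · intro Φ Ψ hΦ hΨ he
        have e0 : ∀ g : SUGroup n, Φ g.toMatrix = Ψ g.toMatrix := fun g => (he g).self_of_nhds
        have e1 : ∀ (c : Ix n) (g : SUGroup n), dX (Xa c) Φ g.toMatrix = dX (Xa c) Ψ g.toMatrix :=
          fun c g => (dX_congr (he g)).self_of_nhds
        simp only [e0, e1]
      · intro g hg
        obtain ⟨k, hk⟩ := hex g hg
        refine ⟨V k, hV k, hk.2, fun Φ hΦ => ?_⟩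
        have e1 := integral_congr_ae (glu_nsq (q := q) (hae k) hΦ.toCs)
        have e2 : ∀ c : Ix n, ∫ g : SUGroup n, trG Gl c g * dX (Xa c) Φ g.toMatrix ∂(mu n) =
            ∫ g, trG (G k) c g * dX (Xa c) Φ g.toMatrix ∂(mu n) :=
          fun c => integral_congr_ae (glu_trG (hae k) (hΦ.toCs.dX _) c)
        have e3 := (h k).p2 Φ hΦ
        simp only [e1, e2]
        linarith
    intro Φ hΦ
    have := key Φ hΦ
    linarith
  · -- Siu
    refine Tst.loc (Siu q) Siu_zero (fun Φ Ψ hΦ hΨ => Siu_add hO hcont hΦ.toCs hΨ.toCs)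
      (fun Φ Ψ _ _ he => Siu_congr_right he) fun g hg => ?_
    obtain ⟨k, hk⟩ := hex g hg
    exact ⟨V k, hV k, hk.2, (h k).p3⟩

/-- **Gluing of data.** PROOF: countably many of the sets `V` cover `O` (Lindelöf, `O` is second
countable): `V k` with gradients `G k`; `G := G k` on `V k` minus the union of the previous ones, `0`
outside `O`. On `V j ∩ V k` the gradients agree almost everywhere (`Wg.unique`), so
`G = G k` almost everywhere on `V k`. `symm`, `dom`, `zero` are pointwise; `grad`: `Wg.loc`, `Wg.congr`;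
`int`: `Cs.split` (finite sum); `p2`, `p3`: `Tst.loc` (the functionals are additive by `int` and
`Wg.locInt`). -/
theorem Dat.glue (hO : IsOpen O)
    (h : ∀ g ∈ O, ∃ (V : Set (SUGroup n)) (G : Ix n → Ix n → Ix n → SUGroup n → ℝ),
      IsOpen V ∧ g ∈ V ∧ Dat (O ∩ V) q G) : ∃ G, Dat O q G := by
  classical
  rcases O.eq_empty_or_nonempty with rfl | hne
  · exact ⟨_, Dat.zero' fun a b g hg => absurd hg (Set.notMem_empty g)⟩
  have h' : ∀ g : O, ∃ (V : Set (SUGroup n)) (G : Ix n → Ix n → Ix n → SUGroup n → ℝ),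
      IsOpen V ∧ (g : SUGroup n) ∈ V ∧ Dat (O ∩ V) q G := fun g => h g g.2
  choose V G hV hg hD using h'
  obtain ⟨T, hT, hTU⟩ := TopologicalSpace.isOpen_iUnion_countable V hV
  have hsub : O ⊆ ⋃ i ∈ T, V i := by
    rw [hTU]
    intro g hg'
    exact Set.mem_iUnion.2 ⟨⟨g, hg'⟩, hg ⟨g, hg'⟩⟩
  have hTne : T.Nonempty := by
    obtain ⟨g, hg'⟩ := hne
    obtain ⟨i, hi⟩ := Set.mem_iUnion.1 (hsub hg')
    obtain ⟨hi, _⟩ := Set.mem_iUnion.1 hi
    exact ⟨i, hi⟩
  obtain ⟨f, rfl⟩ := hT.exists_eq_range hTne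
  refine glu_seq hO (V := fun k => V (f k)) (G := fun k => G (f k)) (fun k => hV _) ?_
    fun k => hD _
  intro g hg'
  obtain ⟨i, hi⟩ := Set.mem_iUnion.1 (hsub hg')
  obtain ⟨⟨k, rfl⟩, hi⟩ := Set.mem_iUnion.1 hi
  exact Set.mem_iUnion.2 ⟨k, hi⟩

end Pool.Agent.Lib.MP_5d4057_al.IN.D
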