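import Pool.Agent.Lib.MP_5d4057_al.IN.DTst

/-! INT, part D, file DHarA: one harmonic function, pointwise identities. -/

set_option autoImplicit false

namespace Pool.Agent.Lib.MP_5d4057_al.IN.D

open Matrix MeasureTheory Filter Topology Pool.Agent.Lib.MP_5d4057_al
  Pool.Agent.Lib.MP_5d4057_al.Hyb Pool.Agent.Lib.MP_5d4057_al.HM

open scoped ComplexOrder MatrixOrder Matrix.Norms.L2Operator ENNReal

variable {n : ℕ}

/-- A harmonic function on an open subset of the cone. -/
structure Hrm (U : Set (Vec n)) (h : Vec n → ℝ) : Prop where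
  isOpen : IsOpen U
  sub : U ⊆ Cone n
  hom : Homog h
  smooth : ContDiffOn ℝ (⊤ : ℕ∞) h U
  harm : ∀ v ∈ U, Lap h v = 0

/-- The first derivatives `h_a = X_a h`. -/
noncomputable def h1 (h : Vec n → ℝ) (a : Ix n) (g : SUGroup n) : ℝ :=
  fderiv ℝ h (act g (base n)) (act g (vec (xi a)))

/-- The Hermitian product `⟨ξ_c, ξ_a⟩`; `X_c ξ_a = ⟨ξ_c, ξ_a⟩ e_n`. -/
noncomputable def sx (c a : Ix n) : ℂ := ∑ i, star (xi c i) * xi a i

/-- The third derivatives `X_c X_a X_b h`. -/
noncomputable def h3 (h : Vec n → ℝ) (c a b : Ix n) (g : SUGroup n) : ℝ :=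
  fderiv ℝ (fderiv ℝ (fderiv ℝ h)) (act g (base n)) (act g (vec (xi c))) (act g (vec (xi a)))
      (act g (vec (xi b))) -
    fderiv ℝ h (act g (base n)) (sx c a • act g (vec (xi b))) -
    fderiv ℝ h (act g (base n)) (sx c b • act g (vec (xi a)))

/-! ### auxiliary lemmas -/

section gen

variable {V : Type} [NormedAddCommGroup V] [NormedSpace ℝ V]

private theorem hA_le (m : ℕ) : (m : WithTop ℕ∞) ≤ ((⊤ : ℕ∞) : WithTop ℕ∞) := by
  exact_mod_cast (le_top : (m : ℕ∞) ≤ ⊤)

private theorem gA_d {F : Type} [NormedAddCommGroup F] [NormedSpace ℝ F] {U : Set V}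
    (hU : IsOpen U) {h : V → F} (hs : ContDiffOn ℝ (⊤ : ℕ∞) h U) :
    ContDiffOn ℝ (⊤ : ℕ∞) (fderiv ℝ h) U :=
  hs.fderiv_of_isOpen hU (by exact_mod_cast le_top)

private theorem gA_sym2 {F : Type} [NormedAddCommGroup F] [NormedSpace ℝ F] {U : Set V}
    (hU : IsOpen U) {h : V → F} (hs : ContDiffOn ℝ (⊤ : ℕ∞) h U) {v : V}
    (hv : v ∈ U) (x y : V) : fderiv ℝ (fderiv ℝ h) v x y = fderiv ℝ (fderiv ℝ h) v y x :=
  (hs.contDiffAt (hU.mem_nhds hv)).isSymmSndFDerivAt (by simpa using hA_le 2) x y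

private theorem gA_sym12 {U : Set V} (hU : IsOpen U) {h : V → ℝ}
    (hs : ContDiffOn ℝ (⊤ : ℕ∞) h U) {v : V} (hv : v ∈ U) (x y z : V) :
    fderiv ℝ (fderiv ℝ (fderiv ℝ h)) v x y z = fderiv ℝ (fderiv ℝ (fderiv ℝ h)) v y x z := by
  have h2 := gA_sym2 hU (gA_d hU hs) hv x y
  exact congrArg (fun A : V →L[ℝ] ℝ => A z) h2

private theorem gA_comp {F : Type} [NormedAddCommGroup F] [NormedSpace ℝ F] {f : V → F}
    {v : ℝ → V} {v' : V} (hf : DifferentiableAt ℝ f (v 0)) (dv : HasDerivAt v v' 0) :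
    HasDerivAt (fun t => f (v t)) (fderiv ℝ f (v 0) v') 0 :=
  hf.hasFDerivAt.comp_hasDerivAt (0 : ℝ) dv

/-- the derivative of the second derivative along a path -/
private theorem gA_path {U : Set V} (hU : IsOpen U) {h : V → ℝ}
    (hs : ContDiffOn ℝ (⊤ : ℕ∞) h U) {v y z : ℝ → V} {v' y' z' : V} (hv : v 0 ∈ U)
    (dv : HasDerivAt v v' 0) (dy : HasDerivAt y y' 0) (dz : HasDerivAt z z' 0) :
    HasDerivAt (fun t => fderiv ℝ (fderiv ℝ h) (v t) (y t) (z t))
      (fderiv ℝ (fderiv ℝ (fderiv ℝ h)) (v 0) v' (y 0) (z 0) +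
        fderiv ℝ (fderiv ℝ h) (v 0) y' (z 0) + fderiv ℝ (fderiv ℝ h) (v 0) (y 0) z') 0 := by
  have h1 : DifferentiableAt ℝ (fderiv ℝ (fderiv ℝ h)) (v 0) :=
    ((gA_d hU (gA_d hU hs)).contDiffAt (hU.mem_nhds hv)).differentiableAt (by simp)
  have h2 := gA_comp (f := fderiv ℝ (fderiv ℝ h)) h1 dv
  have h3 := (h2.clm_apply dy).clm_apply dz
  rw [_root_.add_apply] at h3
  exact h3

private theorem gA_sym23 {U : Set V} (hU : IsOpen U) {h : V → ℝ}
    (hs : ContDiffOn ℝ (⊤ : ℕ∞) h U) {v : V} (hv : v ∈ U) (x y z : V) :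
    fderiv ℝ (fderiv ℝ (fderiv ℝ h)) v x y z = fderiv ℝ (fderiv ℝ (fderiv ℝ h)) v x z y := by
  have hp : HasDerivAt (fun t : ℝ => v + t • x) x 0 := by
    have h1 := ((hasDerivAt_id (0 : ℝ)).smul_const x).const_add v
    simpa using h1
  have hv0 : v + (0 : ℝ) • x = v := by simp
  have key : ∀ y z : V, HasDerivAt (fun t : ℝ => fderiv ℝ (fderiv ℝ h) (v + t • x) y z)
      (fderiv ℝ (fderiv ℝ (fderiv ℝ h)) v x y z) 0 := by
    intro y z
    have h1 := gA_path hU hs (v := fun t : ℝ => v + t • x) (y := fun _ => y) (z := fun _ => z)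
      (by rw [hv0]; exact hv) hp (hasDerivAt_const _ _) (hasDerivAt_const _ _)
    simp only [hv0, map_zero, _root_.zero_apply, add_zero] at h1
    exact h1
  have hev : (fun t : ℝ => fderiv ℝ (fderiv ℝ h) (v + t • x) y z) =ᶠ[𝓝 0]
      fun t : ℝ => fderiv ℝ (fderiv ℝ h) (v + t • x) z y := by
    have hc : ContinuousAt (fun t : ℝ => v + t • x) 0 := hp.continuousAt
    have hm : ∀ᶠ t : ℝ in 𝓝 0, v + t • x ∈ U := by
      refine hc.eventually_mem (hU.mem_nhds ?_)
      rw [hv0]
      exact hv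
    filter_upwards [hm] with t ht
    exact gA_sym2 hU hs ht y z
  exact (key y z).unique ((key z y).congr_of_eventuallyEq hev)

private theorem gA_cont {X : Type} [TopologicalSpace X] {O : Set X} {U : Set V} (hU : IsOpen U)
    {h : V → ℝ} (hs : ContDiffOn ℝ (⊤ : ℕ∞) h U) {v x y z : X → V} (hv : ContinuousOn v O)
    (hvU : ∀ g ∈ O, v g ∈ U) (hx : ContinuousOn x O) (hy : ContinuousOn y O)
    (hz : ContinuousOn z O) :
    ContinuousOn (fun g => fderiv ℝ (fderiv ℝ (fderiv ℝ h)) (v g) (x g) (y g) (z g)) O := by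
  have h1 : ContinuousOn (fderiv ℝ (fderiv ℝ (fderiv ℝ h))) U :=
    (gA_d hU (gA_d hU (gA_d hU hs))).continuousOn
  have h2 : ContinuousOn (fun g => fderiv ℝ (fderiv ℝ (fderiv ℝ h)) (v g)) O :=
    h1.comp hv hvU
  exact ((h2.clm_apply hx).clm_apply hy).clm_apply hz

end gen

private theorem hA_contDiffAt {U : Set (Vec n)} {h : Vec n → ℝ} (H : Hrm U h) {v : Vec n}
    (hv : v ∈ U) : ContDiffAt ℝ (⊤ : ℕ∞) h v :=
  H.smooth.contDiffAt (H.isOpen.mem_nhds hv)

private theorem hA_xbase (c : Ix n) : Xa c *ᵥ base n = vec (xi c) := by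
  rw [Xa, xmat, Matrix.add_mulVec, Matrix.vecMulVec_mulVec, Matrix.vecMulVec_mulVec,
    Kak.base_dot_base, Kak.star_vec_dot_base]
  simp

private theorem hA_xvec (c a : Ix n) : Xa c *ᵥ vec (xi a) = sx c a • base n := by
  rw [Xa, xmat, Matrix.add_mulVec, Matrix.vecMulVec_mulVec, Matrix.vecMulVec_mulVec,
    Kak.base_dot_vec]
  have h1 : star (vec (xi c)) ⬝ᵥ vec (xi a) = sx c a := by
    rw [dotProduct, Fin.sum_univ_castSucc]
    simp only [Pi.star_apply, Kak.vec_castSucc, Kak.vec_last, mul_zero, add_zero]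
    rfl
  rw [h1]
  simp

private theorem hA_flow (c : Ix n) (t : ℝ) :
    HasDerivAt (fun t => (ba c t).toMatrix) ((ba c t).toMatrix * Xa c) t :=
  Kak.hasDerivAt_flow (xi_norm c) t

private theorem hA_act (c : Ix n) (g : SUGroup n) (w : Vec n) :
    HasDerivAt (fun t => act (g * ba c t) w) (act g (Xa c *ᵥ w)) 0 := by
  let L : Mat (n + 1) →ₗ[ℝ] Vec n :=
    { toFun := fun M => (g.toMatrix * M) *ᵥ w
      map_add' := fun M N => by rw [Matrix.mul_add, Matrix.add_mulVec]
      map_smul' := fun r M => by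
        rw [Matrix.mul_smul, Matrix.smul_mulVec]
        rfl }
  have h1 : HasDerivAt (fun t => L.toContinuousLinearMap ((ba c t).toMatrix))
      (L.toContinuousLinearMap ((ba c 0).toMatrix * Xa c)) 0 :=
    L.toContinuousLinearMap.hasFDerivAt.comp_hasDerivAt (0 : ℝ) (hA_flow c 0)
  have e1 : (fun t => L.toContinuousLinearMap ((ba c t).toMatrix)) =
      fun t => act (g * ba c t) w := by
    funext t
    rfl
  have e2 : L.toContinuousLinearMap ((ba c 0).toMatrix * Xa c) = act g (Xa c *ᵥ w) := by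
    rw [ba_zero]
    show (g.toMatrix * ((1 : SUGroup n).toMatrix * Xa c)) *ᵥ w = g.toMatrix *ᵥ (Xa c *ᵥ w)
    rw [Matrix.mulVec_mulVec, toMatrix_one, Matrix.one_mul]
  rw [e1, e2] at h1
  exact h1

private theorem hA_base (c : Ix n) (g : SUGroup n) :
    HasDerivAt (fun t => act (g * ba c t) (base n)) (act g (vec (xi c))) 0 := by
  have h1 := hA_act c g (base n)
  rwa [hA_xbase] at h1

private theorem hA_vec (c a : Ix n) (g : SUGroup n) :
    HasDerivAt (fun t => act (g * ba c t) (vec (xi a))) (sx c a • act g (base n)) 0 := by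
  have h1 := hA_act c g (vec (xi a))
  rwa [hA_xvec, act_smul] at h1

private theorem hA_zero (c : Ix n) (g : SUGroup n) (w : Vec n) : act (g * ba c 0) w = act g w := by
  rw [ba_zero, mul_one]

private theorem hA_cont_act (w : Vec n) : Continuous fun g : SUGroup n => act g w := by
  unfold act
  exact (continuous_toMatrix n).matrix_mulVec continuous_const

/-- the composition of a function on the cone with the flow -/
private theorem hA_comp {F : Type} [NormedAddCommGroup F] [NormedSpace ℝ F] {f : Vec n → F}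
    (c : Ix n) (g : SUGroup n) (hf : DifferentiableAt ℝ f (act g (base n))) :
    HasDerivAt (fun t => f (act (g * ba c t) (base n)))
      (fderiv ℝ f (act g (base n)) (act g (vec (xi c)))) 0 := by
  have h1 : HasFDerivAt f (fderiv ℝ f (act g (base n))) (act (g * ba c 0) (base n)) := by
    rw [hA_zero]
    exact hf.hasFDerivAt
  exact h1.comp_hasDerivAt (0 : ℝ) (hA_base c g)

/-- the derivative of the relation `Dh(u)(s u) = 0` -/
private theorem hA_euler {U : Set (Vec n)} {h : Vec n → ℝ} (H : Hrm U h) {v : Vec n}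
    (hv : v ∈ U) (s : ℂ) (η : Vec n) :
    fderiv ℝ (fderiv ℝ h) v η (s • v) = -fderiv ℝ h v (s • η) := by
  have hd := hA_contDiffAt H hv
  have hev : ∀ᶠ u in 𝓝 v, fderiv ℝ h u (s • u) = 0 := by
    filter_upwards [H.isOpen.mem_nhds hv] with u hu
    exact homog_fderiv H.hom (H.sub hu) ((hA_contDiffAt H hu).differentiableAt (by simp)) s
  have hD : DifferentiableAt ℝ (fderiv ℝ h) v :=
    (hd.fderiv_right (m := 1) (by exact_mod_cast hA_le 2)).differentiableAt (by norm_num)
  have hL : HasFDerivAt (fun u : Vec n => s • u)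
      (s • ContinuousLinearMap.id ℝ (Vec n)) v := (hasFDerivAt_id v).const_smul s
  have h1 : HasFDerivAt (fun u => fderiv ℝ h u (s • u))
      ((fderiv ℝ h v).comp (s • ContinuousLinearMap.id ℝ (Vec n)) +
        (fderiv ℝ (fderiv ℝ h) v).flip (s • v)) v :=
    hD.hasFDerivAt.clm_apply hL
  have h2 : HasFDerivAt (fun u => fderiv ℝ h u (s • u)) (0 : Vec n →L[ℝ] ℝ) v :=
    (hasFDerivAt_const (0 : ℝ) v).congr_of_eventuallyEq hev
  have h3 := congrArg (fun A : Vec n →L[ℝ] ℝ => A η) (h1.unique h2)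
  have h4 : fderiv ℝ h v (s • η) + fderiv ℝ (fderiv ℝ h) v η (s • v) = 0 := h3
  linarith

private theorem hA_sym2 {U : Set (Vec n)} {h : Vec n → ℝ} (H : Hrm U h) {v : Vec n}
    (hv : v ∈ U) (x y : Vec n) :
    fderiv ℝ (fderiv ℝ h) v x y = fderiv ℝ (fderiv ℝ h) v y x :=
  gA_sym2 H.isOpen H.smooth hv x y

private theorem hA_d2 {U : Set (Vec n)} {h : Vec n → ℝ} (H : Hrm U h) :
    ContDiffOn ℝ (⊤ : ℕ∞) (fderiv ℝ h) U := gA_d H.isOpen H.smooth

private theorem hA_d3 {U : Set (Vec n)} {h : Vec n → ℝ} (H : Hrm U h) :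
    ContDiffOn ℝ (⊤ : ℕ∞) (fderiv ℝ (fderiv ℝ h)) U := gA_d H.isOpen (hA_d2 H)

/-- the third derivative -/
private noncomputable abbrev D3 (h : Vec n → ℝ) (v x y z : Vec n) : ℝ :=
  fderiv ℝ (fderiv ℝ (fderiv ℝ h)) v x y z

private theorem hA_sym12 {U : Set (Vec n)} {h : Vec n → ℝ} (H : Hrm U h) {v : Vec n}
    (hv : v ∈ U) (x y z : Vec n) : D3 h v x y z = D3 h v y x z :=
  gA_sym12 H.isOpen H.smooth hv x y z

private theorem hA_sym23 {U : Set (Vec n)} {h : Vec n → ℝ} (H : Hrm U h) {v : Vec n}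
    (hv : v ∈ U) (x y z : Vec n) : D3 h v x y z = D3 h v x z y :=
  gA_sym23 H.isOpen H.smooth hv x y z

private theorem hA_h3 (h : Vec n → ℝ) (c a b : Ix n) (g : SUGroup n) : h3 h c a b g =
    D3 h (act g (base n)) (act g (vec (xi c))) (act g (vec (xi a))) (act g (vec (xi b))) -
      fderiv ℝ h (act g (base n)) (sx c a • act g (vec (xi b))) -
      fderiv ℝ h (act g (base n)) (sx c b • act g (vec (xi a))) := rfl

private theorem hA_vec_single (j : Fin n) (c : ℂ) :
    vec (Pi.single j c) = (Pi.single j.castSucc c : Vec n) := by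
  ext i
  refine Fin.lastCases ?_ (fun i => ?_) i
  · rw [Kak.vec_last, Pi.single_eq_of_ne (Fin.castSucc_lt_last j).ne']
  · rw [Kak.vec_castSucc]
    by_cases hij : i = j
    · subst hij
      rw [Pi.single_eq_same, Pi.single_eq_same]
    · rw [Pi.single_eq_of_ne hij, Pi.single_eq_of_ne]
      intro h
      exact hij (Fin.castSucc_injective n h)

private noncomputable def hA_u (b : Bool) : ℂ := if b then Complex.I else 1

private theorem hA_xi (a : Ix n) : xi a = Pi.single a.1 (hA_u a.2) := rfl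

private theorem hA_sx (c a : Ix n) :
    sx c a = if c.1 = a.1 then star (hA_u c.2) * hA_u a.2 else 0 := by
  unfold sx
  rw [Finset.sum_eq_single c.1]
  · rw [hA_xi, hA_xi, Pi.single_eq_same]
    by_cases hca : c.1 = a.1
    · rw [if_pos hca, hca, Pi.single_eq_same]
    · rw [if_neg hca, Pi.single_eq_of_ne hca, mul_zero]
  · intro i _ hi
    rw [hA_xi c, Pi.single_eq_of_ne hi, star_zero, zero_mul]
  · intro hc
    exact absurd (Finset.mem_univ _) hc

/-- `Dh(s g ξ_b)` in terms of the first derivatives -/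
private theorem hA_L (h : Vec n → ℝ) (g : SUGroup n) (s : ℂ) (b : Ix n) :
    fderiv ℝ h (act g (base n)) (s • act g (vec (xi b))) =
      (s * hA_u b.2).re * h1 h (b.1, false) g + (s * hA_u b.2).im * h1 h (b.1, true) g := by
  have e : s • act g (vec (xi b)) = (s * hA_u b.2).re • act g (vec (xi (b.1, false))) +
      (s * hA_u b.2).im • act g (vec (xi (b.1, true))) := by
    have e1 : ∀ (r : ℝ) (w : Vec n), r • act g w = act g ((r : ℂ) • w) := by
      intro r w
      rw [act_smul]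
      rfl
    rw [← act_smul, e1, e1, ← act_add]
    congr 1
    rw [hA_xi, hA_xi, hA_xi, hA_vec_single, hA_vec_single, hA_vec_single, ← Pi.single_smul,
      ← Pi.single_smul, ← Pi.single_smul, ← Pi.single_add]
    congr 1
    show s * hA_u b.2 = ((s * hA_u b.2).re : ℂ) * 1 + ((s * hA_u b.2).im : ℂ) * Complex.I
    rw [mul_one]
    exact (Complex.re_add_im _).symm
  rw [e, map_add, map_smul, map_smul, smul_eq_mul, smul_eq_mul]
  rfl

private theorem hA_h3' (h : Vec n → ℝ) (c a b : Ix n) (g : SUGroup n) : h3 h c a b g =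
    D3 h (act g (base n)) (act g (vec (xi c))) (act g (vec (xi a))) (act g (vec (xi b))) -
      ((sx c a * hA_u b.2).re * h1 h (b.1, false) g +
        (sx c a * hA_u b.2).im * h1 h (b.1, true) g) -
      ((sx c b * hA_u a.2).re * h1 h (a.1, false) g +
        (sx c b * hA_u a.2).im * h1 h (a.1, true) g) := by
  rw [hA_h3, hA_L, hA_L]

section

variable {U : Set (Vec n)} {h : Vec n → ℝ} (H : Hrm U h)

include H

theorem continuousOn_h1 (a : Ix n) : ContinuousOn (h1 h a) (orb U) := by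
  have h1 : ContinuousOn (fderiv ℝ h) U := (hA_d2 H).continuousOn
  have h2 : ContinuousOn (fun g : SUGroup n => fderiv ℝ h (act g (base n))) (orb U) :=
    h1.comp continuous_orbit.continuousOn fun g hg => hg
  exact h2.clm_apply (hA_cont_act _).continuousOn

theorem continuousOn_hh (a b : Ix n) : ContinuousOn (hh h a b) (orb U) := by
  have h1 : ContinuousOn (fderiv ℝ (fderiv ℝ h)) U := (hA_d3 H).continuousOn
  have h2 : ContinuousOn (fun g : SUGroup n => fderiv ℝ (fderiv ℝ h) (act g (base n))) (orb U) :=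
    h1.comp continuous_orbit.continuousOn fun g hg => hg
  exact (h2.clm_apply (hA_cont_act _).continuousOn).clm_apply (hA_cont_act _).continuousOn

theorem continuousOn_h3 (c a b : Ix n) : ContinuousOn (h3 h c a b) (orb U) := by
  have h3 : ContinuousOn (fderiv ℝ h) U := (hA_d2 H).continuousOn
  have h4 : ContinuousOn (fun g : SUGroup n => fderiv ℝ h (act g (base n))) (orb U) :=
    h3.comp continuous_orbit.continuousOn fun g hg => hg
  have h5 : ∀ (s : ℂ) (b : Ix n), ContinuousOn (fun g : SUGroup n =>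
      fderiv ℝ h (act g (base n)) (s • act g (vec (xi b)))) (orb U) := fun s b =>
    h4.clm_apply ((hA_cont_act _).const_smul s).continuousOn
  exact ((gA_cont H.isOpen H.smooth continuous_orbit.continuousOn (fun g hg => hg)
    (hA_cont_act _).continuousOn (hA_cont_act _).continuousOn
      (hA_cont_act _).continuousOn).sub (h5 _ _)).sub (h5 _ _)

/-- The second derivative is symmetric. -/
theorem hh_symm (a b : Ix n) {g : SUGroup n} (hg : g ∈ orb U) : hh h a b g = hh h b a g :=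
  hA_sym2 H hg _ _

/-- `HM.hasDerivAt_flow`. -/
theorem deriv_onG (c : Ix n) {g : SUGroup n} (hg : g ∈ orb U) :
    HasDerivAt (fun t => onG h (g * ba c t)) (h1 h c g) 0 :=
  hA_comp c g ((hA_contDiffAt H hg).differentiableAt (by simp))

/-- `HM.hasDerivAt_flow_two` is the case `c = a`; in general `X_c ξ_a = ⟨ξ_c, ξ_a⟩ e_n` and
`Dh(v)(s v) = 0` for complex `s` (`HM.homog_fderiv`). -/
theorem deriv_h1 (c a : Ix n) {g : SUGroup n} (hg : g ∈ orb U) :
    HasDerivAt (fun t => h1 h a (g * ba c t)) (hh h c a g) 0 := by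
  have hD : DifferentiableAt ℝ (fderiv ℝ h) (act g (base n)) :=
    ((hA_d2 H).contDiffAt (H.isOpen.mem_nhds hg)).differentiableAt (by simp)
  have h1 := (hA_comp c g hD).clm_apply (hA_vec c a g)
  rw [hA_zero, hA_zero, homog_fderiv H.hom (H.sub hg)
    ((hA_contDiffAt H hg).differentiableAt (by simp)), add_zero] at h1
  exact h1

/-- PROOF: the derivative is `D³h(c,a,b) + D²h(s v, gξ_b) + D²h(gξ_a, s' v)`, `v = g e_n`,
`s = ⟨ξ_c,ξ_a⟩`, `s' = ⟨ξ_c,ξ_b⟩`; differentiate `Dh(v)(s v) = 0`: `D²h(v)(η, s v) = - Dh(v)(s η)`. -/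
theorem deriv_hh (c a b : Ix n) {g : SUGroup n} (hg : g ∈ orb U) :
    HasDerivAt (fun t => hh h a b (g * ba c t)) (h3 h c a b g) 0 := by
  have h1 := gA_path H.isOpen H.smooth (v := fun t => act (g * ba c t) (base n))
    (by rw [hA_zero]; exact hg) (hA_base c g) (hA_vec c a g) (hA_vec c b g)
  simp only [hA_zero] at h1
  have e : D3 h (act g (base n)) (act g (vec (xi c))) (act g (vec (xi a)))
      (act g (vec (xi b))) +
      fderiv ℝ (fderiv ℝ h) (act g (base n)) (sx c a • act g (base n)) (act g (vec (xi b))) +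
      fderiv ℝ (fderiv ℝ h) (act g (base n)) (act g (vec (xi a))) (sx c b • act g (base n)) =
      h3 h c a b g := by
    rw [hA_sym2 H hg (sx c a • act g (base n)),
      hA_euler H hg, hA_euler H hg, hA_h3]
    ring
  rw [← e]
  exact h1

/-- `HM.lap_frame`. -/
theorem sum_hh {g : SUGroup n} (hg : g ∈ orb U) : ∑ a, hh h a a g = 0 := by
  have h1 := H.harm _ hg
  rw [lap_frame H.hom g ((hA_contDiffAt H hg).of_le (by exact_mod_cast hA_le 2)), smul_eq_mul,
    mul_eq_zero] at h1
  rcases h1 with h1 | h1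
  · norm_num at h1
  · rw [Fintype.sum_prod_type, ← h1]
    refine Finset.sum_congr rfl fun j _ => ?_
    rw [Fintype.sum_bool, add_comm]
    unfold hh
    rw [show xi (j, false) = Pi.single j 1 from rfl,
      show xi (j, true) = Pi.single j Complex.I from rfl, hA_vec_single, hA_vec_single]

/-- `Σ_a X_c X_a X_a h = 0`. -/
theorem sum_h3 (c : Ix n) {g : SUGroup n} (hg : g ∈ orb U) : ∑ a, h3 h c a a g = 0 := by
  have h1 : HasDerivAt (fun t => ∑ a, hh h a a (g * ba c t)) (∑ a, h3 h c a a g) 0 :=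
    HasDerivAt.fun_sum fun a _ => deriv_hh H c a a hg
  have h2 : ∀ᶠ t : ℝ in 𝓝 0, g * ba c t ∈ orb U := by
    have hc : ContinuousAt (fun t : ℝ => g * ba c t) 0 :=
      (continuous_const.mul (continuous_ba c)).continuousAt
    refine hc.eventually_mem ((isOpen_orb H.isOpen).mem_nhds ?_)
    rw [ba_zero, mul_one]
    exact hg
  have h3' : (fun t => ∑ a, hh h a a (g * ba c t)) =ᶠ[𝓝 0] fun _ => 0 := by
    filter_upwards [h2] with t ht
    exact sum_hh H ht
  exact h1.unique ((hasDerivAt_const (0 : ℝ) (0 : ℝ)).congr_of_eventuallyEq h3')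

private theorem hA_trace (a : Ix n) {g : SUGroup n} (hg : g ∈ orb U) :
    ∑ j : Fin n, (D3 h (act g (base n)) (act g (vec (xi a))) (act g (vec (xi (j, false))))
        (act g (vec (xi (j, false)))) +
      D3 h (act g (base n)) (act g (vec (xi a))) (act g (vec (xi (j, true))))
        (act g (vec (xi (j, true))))) = 0 := by
  have h1' := sum_h3 H a hg
  rw [Fintype.sum_prod_type] at h1'
  rw [← h1']
  refine Finset.sum_congr rfl fun j _ => ?_
  rw [Fintype.sum_bool, hA_h3', hA_h3', hA_sx, hA_sx]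
  obtain ⟨i, β⟩ := a
  by_cases hij : i = j
  · cases β <;> simp [hij, hA_u] <;> ring
  · simp [hij]
    ring

/-- **Commutation** `Σ_c X_c X_c X_a h = - (2 n + 2) X_a h`. PROOF: `D³h` is symmetric and
`Σ_c D³h(c,c,a) = Σ_c D³h(a,c,c) = 2 Dh(g Σ_c ⟨ξ_a,ξ_c⟩ ξ_c) = 0` (`sum_h3`; for `a = (i,false)` the
sum is `e_i + i (i e_i) = 0`). The corrections: `- Σ_c Dh(⟨ξ_c,ξ_c⟩ gξ_a) = - 2 n h_a` and
`- Dh(g Σ_c ⟨ξ_c,ξ_a⟩ ξ_c) = - 2 h_a`. -/
theorem sum_h3_comm (a : Ix n) {g : SUGroup n} (hg : g ∈ orb U) :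
    ∑ c, h3 h c c a g = -(2 * n + 2) * h1 h a g := by
  have h0 := hA_trace H a hg
  have h2 : ∀ j : Fin n, ∑ b : Bool, h3 h (j, b) (j, b) a g =
      (D3 h (act g (base n)) (act g (vec (xi a))) (act g (vec (xi (j, false))))
        (act g (vec (xi (j, false)))) +
      D3 h (act g (base n)) (act g (vec (xi a))) (act g (vec (xi (j, true))))
        (act g (vec (xi (j, true))))) - 2 * h1 h a g - (if j = a.1 then 2 * h1 h a g else 0) := by
    intro j
    have s1 : ∀ b : Bool, D3 h (act g (base n)) (act g (vec (xi (j, b))))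
        (act g (vec (xi (j, b)))) (act g (vec (xi a))) =
        D3 h (act g (base n)) (act g (vec (xi a))) (act g (vec (xi (j, b))))
          (act g (vec (xi (j, b)))) := by
      intro b
      rw [hA_sym23 H hg, hA_sym12 H hg]
    rw [Fintype.sum_bool, hA_h3', hA_h3', hA_sx, hA_sx, hA_sx, hA_sx, s1, s1]
    obtain ⟨i, β⟩ := a
    by_cases hij : j = i
    · cases β <;> simp [hij, hA_u] <;> ring
    · cases β <;> simp [hij, hA_u] <;> ring
  rw [Fintype.sum_prod_type, Finset.sum_congr rfl fun j _ => h2 j, Finset.sum_sub_distrib,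
    Finset.sum_sub_distrib, h0, Finset.sum_const, Finset.card_univ, Fintype.card_fin,
    Finset.sum_ite_eq' Finset.univ a.1, if_pos (Finset.mem_univ _), nsmul_eq_mul]
  ring

/-- The real form of `Σ_j Z_j (Zb_j Z_i h) = 0`, first part. PROOF: the terms with `D³h` are
`Σ_j (D³(i,j,j) + D³(i,j',j')) + Σ_j (D³(j,i',j') - D³(j',i',j))`, the first sum is `0` as before and the
second is `0` by symmetry. Corrections: from the first sum `-(2n+2) h_i`; from `h3 (j, i', j')`:
`- Dh(⟨ξ_j,ξ_i'⟩ gξ_j') - Dh(⟨ξ_j,ξ_j'⟩ gξ_i') = δ_ij h_i + h_i`, sum `(n+1) h_i`; from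
`- h3 (j', i', j)`: `δ_ij h_i + h_i`, sum `(n+1) h_i`. -/
theorem siu_one (i : Fin n) {g : SUGroup n} (hg : g ∈ orb U) :
    ∑ j : Fin n, (h3 h (j, false) (i, false) (j, false) g + h3 h (j, false) (i, true) (j, true) g -
      (h3 h (j, true) (i, true) (j, false) g - h3 h (j, true) (i, false) (j, true) g)) = 0 := by
  rw [← hA_trace H (i, false) hg]
  refine Finset.sum_congr rfl fun j _ => ?_
  have s1 := hA_sym12 H hg (act g (vec (xi (j, false)))) (act g (vec (xi (i, false))))
    (act g (vec (xi (j, false))))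
  have s2 := hA_sym12 H hg (act g (vec (xi (j, true)))) (act g (vec (xi (i, false))))
    (act g (vec (xi (j, true))))
  have s3 : D3 h (act g (base n)) (act g (vec (xi (j, false)))) (act g (vec (xi (i, true))))
      (act g (vec (xi (j, true)))) = D3 h (act g (base n)) (act g (vec (xi (j, true))))
        (act g (vec (xi (i, true)))) (act g (vec (xi (j, false)))) := by
    rw [hA_sym12 H hg, hA_sym23 H hg, hA_sym12 H hg]
  rw [hA_h3', hA_h3', hA_h3', hA_h3', s1, s2, s3]
  simp only [hA_sx]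
  by_cases hij : j = i
  · simp [hij, hA_u]
    ring
  · simp [hij, hA_u]
    ring

/-- Second part: the same computation with `i'` in place of `i`. -/
theorem siu_two (i : Fin n) {g : SUGroup n} (hg : g ∈ orb U) :
    ∑ j : Fin n, (h3 h (j, false) (i, true) (j, false) g - h3 h (j, false) (i, false) (j, true) g +
      (h3 h (j, true) (i, false) (j, false) g + h3 h (j, true) (i, true) (j, true) g)) = 0 := by
  rw [← hA_trace H (i, true) hg]
  refine Finset.sum_congr rfl fun j _ => ?_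
  have s1 := hA_sym12 H hg (act g (vec (xi (j, false)))) (act g (vec (xi (i, true))))
    (act g (vec (xi (j, false))))
  have s2 := hA_sym12 H hg (act g (vec (xi (j, true)))) (act g (vec (xi (i, true))))
    (act g (vec (xi (j, true))))
  have s3 : D3 h (act g (base n)) (act g (vec (xi (j, true)))) (act g (vec (xi (i, false))))
      (act g (vec (xi (j, false)))) = D3 h (act g (base n)) (act g (vec (xi (j, false))))
        (act g (vec (xi (i, false)))) (act g (vec (xi (j, true)))) := by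
    rw [hA_sym12 H hg, hA_sym23 H hg, hA_sym12 H hg]
  rw [hA_h3', hA_h3', hA_h3', hA_h3', s1, s2, s3]
  simp only [hA_sx]
  by_cases hij : j = i
  · simp [hij, hA_u]
    ring
  · simp [hij, hA_u]
    ring

end

end Pool.Agent.Lib.MP_5d4057_al.IN.D
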