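import Pool.Agent.Lib.MP_5d4057_al.IN.DHarA
import Pool.Agent.Lib.MP_5d4057_al.IN.DWkB

/-! INT, part D, file DHarB: one harmonic function, Bochner. -/

set_option autoImplicit false

namespace Pool.Agent.Lib.MP_5d4057_al.IN.D

open Matrix MeasureTheory Filter Topology Pool.Agent.Lib.MP_5d4057_al
  Pool.Agent.Lib.MP_5d4057_al.Hyb Pool.Agent.Lib.MP_5d4057_al.HM

open scoped ComplexOrder MatrixOrder Matrix.Norms.L2Operator ENNReal

variable {n : ℕ} {U : Set (Vec n)} {h : Vec n → ℝ} (H : Hrm U h)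

include H

omit H in
/-- `M ↦ M v`. -/
private noncomputable def dharL (v : Vec n) : Mat (n + 1) →L[ℝ] Vec n :=
  LinearMap.toContinuousLinearMap
    { toFun := fun M => M *ᵥ v
      map_add' := fun M N => Matrix.add_mulVec M N v
      map_smul' := fun r M => Matrix.smul_mulVec r M v }

omit H in
/-- Left multiplication. -/
private noncomputable def dharM (A : Mat (n + 1)) : Mat (n + 1) →L[ℝ] Mat (n + 1) :=
  LinearMap.toContinuousLinearMap
    { toFun := fun M => A * M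
      map_add' := fun M N => Matrix.mul_add A M N
      map_smul' := fun r M => Matrix.mul_smul A r M }

/-- PROOF: `Wg.of_smooth` for the function `M ↦ Dh(M e_n)(M ξ_a) * Dh(M e_n)(M ξ_b)` on
`V = {M | M e_n ∈ U}`; its `dX (Xa c)` at `g` is `Gh h c a b g` by `deriv_h1`. -/
theorem wg_qh (a b : Ix n) : Wg (orb U) (qh h a b) fun c => Gh h c a b := by
  classical
  obtain ⟨F, hFd⟩ : ∃ F : Mat (n + 1) → ℝ, F = fun M =>
      fderiv ℝ h (M *ᵥ base n) (M *ᵥ vec (xi a)) * fderiv ℝ h (M *ᵥ base n) (M *ᵥ vec (xi b)) :=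
    ⟨_, rfl⟩
  have hV : IsOpen {M : Mat (n + 1) | M *ᵥ base n ∈ U} :=
    H.isOpen.preimage (dharL (base n)).continuous
  have hd : ContDiffOn ℝ (⊤ : ℕ∞) (fderiv ℝ h) U :=
    H.smooth.fderiv_of_isOpen H.isOpen (by simp)
  have hd' : ContDiffOn ℝ (⊤ : ℕ∞) (fun M : Mat (n + 1) => fderiv ℝ h (M *ᵥ base n))
      {M : Mat (n + 1) | M *ᵥ base n ∈ U} :=
    hd.comp (dharL (base n)).contDiff.contDiffOn (fun M hM => hM)
  have hF : ContDiffOn ℝ (⊤ : ℕ∞) F {M : Mat (n + 1) | M *ᵥ base n ∈ U} := by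
    rw [hFd]
    exact (hd'.clm_apply (dharL (vec (xi a))).contDiff.contDiffOn).mul
      (hd'.clm_apply (dharL (vec (xi b))).contDiff.contDiffOn)
  have hW1 := Wg.of_smooth (n := n) hV hF
  refine Wg.congr hW1 (isOpen_orb H.isOpen) (fun g _ => by rw [hFd]; rfl) fun c => ?_
  refine Eventually.of_forall fun g hg => ?_
  have hg' : g ∈ orb U := hg
  have hgV : g.toMatrix ∈ {M : Mat (n + 1) | M *ᵥ base n ∈ U} := hg
  -- the derivative along the flow, first way
  have d1 : HasFDerivAt F (fderiv ℝ F g.toMatrix) g.toMatrix := by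
    have h2 := (hF.contDiffAt (hV.mem_nhds hgV)).differentiableAt (by simp)
    exact h2.hasFDerivAt
  have hfl := Kak.hasDerivAt_flow (xi_norm c) 0
  have d2 : HasDerivAt (fun t => (g * ba c t).toMatrix) (g.toMatrix * Xa c) 0 := by
    have h3 : HasDerivAt (fun t => dharM g.toMatrix (Kak.flow (xi c) (xi_norm c) t).toMatrix)
        (dharM g.toMatrix ((Kak.flow (xi c) (xi_norm c) 0).toMatrix * xmat (xi c))) 0 :=
      (dharM g.toMatrix).hasFDerivAt.comp_hasDerivAt 0 hfl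
    have h4 : dharM g.toMatrix ((Kak.flow (xi c) (xi_norm c) 0).toMatrix * xmat (xi c)) =
        g.toMatrix * Xa c := by
      have f0 : (Kak.flow (xi c) (xi_norm c) 0).toMatrix = 1 :=
        (congrArg (fun x : SUGroup n => x.toMatrix) (ba_zero c)).trans toMatrix_one
      show g.toMatrix * ((Kak.flow (xi c) (xi_norm c) 0).toMatrix * xmat (xi c)) =
        g.toMatrix * xmat (xi c)
      rw [f0, Matrix.one_mul]
    rw [h4] at h3
    have h5 : (fun t => (g * ba c t).toMatrix) =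
        fun t => dharM g.toMatrix (Kak.flow (xi c) (xi_norm c) t).toMatrix := by
      funext t
      rw [toMatrix_mul]
      rfl
    rw [h5]
    exact h3
  have e0 : (g * ba c 0).toMatrix = g.toMatrix := by rw [ba_zero, mul_one]
  have d3 : HasDerivAt (fun t => F (g * ba c t).toMatrix) (fderiv ℝ F g.toMatrix (g.toMatrix * Xa c))
      0 := by
    have d1' : HasFDerivAt F (fderiv ℝ F g.toMatrix) (g * ba c 0).toMatrix := by rw [e0]; exact d1
    exact d1'.comp_hasDerivAt 0 d2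
  -- second way
  have d4 : HasDerivAt (fun t => h1 h a (g * ba c t) * h1 h b (g * ba c t))
      (hh h c a g * h1 h b (g * ba c 0) + h1 h a (g * ba c 0) * hh h c b g) 0 :=
    (deriv_h1 H c a hg').mul (deriv_h1 H c b hg')
  rw [ba_zero, mul_one] at d4
  have d5 : (fun t => F (g * ba c t).toMatrix) =
      fun t => h1 h a (g * ba c t) * h1 h b (g * ba c t) := by
    rw [hFd]
    rfl
  rw [d5] at d3
  exact d3.unique d4

/-- `|G|² ≤ 4 T |H|²`, `T = Σ h_a²`, `G_cab = h_ca h_b + h_a h_cb`. -/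
theorem nsq_le (g : SUGroup n) : nsq (Gh h) g ≤ 4 * tr (qh h) g * ∑ c, ∑ a, hh h c a g ^ 2 := by
  have _ := H
  have hT : tr (qh h) g = ∑ b, h1 h b g ^ 2 := by
    refine Finset.sum_congr rfl fun b _ => ?_
    rw [pow_two]
    rfl
  have h2 : ∀ c : Ix n, ∑ a, ∑ b, Gh h c a b g ^ 2 ≤
      4 * tr (qh h) g * ∑ a, hh h c a g ^ 2 := by
    intro c
    have h3 : ∀ a b : Ix n, Gh h c a b g ^ 2 ≤
        2 * (hh h c a g ^ 2 * h1 h b g ^ 2) + 2 * (h1 h a g ^ 2 * hh h c b g ^ 2) := by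
      intro a b
      have e : Gh h c a b g = hh h c a g * h1 h b g + h1 h a g * hh h c b g := rfl
      rw [e]
      nlinarith [sq_nonneg (hh h c a g * h1 h b g - h1 h a g * hh h c b g)]
    have h4 : ∑ a, ∑ b, Gh h c a b g ^ 2 ≤ ∑ a : Ix n, ∑ b : Ix n,
        (2 * (hh h c a g ^ 2 * h1 h b g ^ 2) + 2 * (h1 h a g ^ 2 * hh h c b g ^ 2)) :=
      Finset.sum_le_sum fun a _ => Finset.sum_le_sum fun b _ => h3 a b
    refine h4.trans (le_of_eq ?_)
    have h5 : ∀ a : Ix n, ∑ b : Ix n,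
        (2 * (hh h c a g ^ 2 * h1 h b g ^ 2) + 2 * (h1 h a g ^ 2 * hh h c b g ^ 2)) =
        2 * (hh h c a g ^ 2 * ∑ b, h1 h b g ^ 2) + 2 * (h1 h a g ^ 2 * ∑ b, hh h c b g ^ 2) := by
      intro a
      rw [Finset.sum_add_distrib, ← Finset.mul_sum, ← Finset.mul_sum, ← Finset.mul_sum,
        ← Finset.mul_sum]
    rw [Finset.sum_congr rfl fun a _ => h5 a, Finset.sum_add_distrib, ← Finset.mul_sum,
      ← Finset.mul_sum, ← Finset.sum_mul, ← Finset.sum_mul, hT]
    ring
  calc nsq (Gh h) g ≤ ∑ c, 4 * tr (qh h) g * ∑ a, hh h c a g ^ 2 :=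
        Finset.sum_le_sum fun c _ => h2 c
    _ = 4 * tr (qh h) g * ∑ c, ∑ a, hh h c a g ^ 2 := by rw [← Finset.mul_sum]

/-- The divergence of the gradient of the trace. PROOF: `trG_c = 2 Σ_a h_a h_ca`, `deriv_h1`, `deriv_hh`,
`sum_h3_comm` after summation over `c`. Here the derivative of `trG (Gh h) c` in the direction `c` is
`2 Σ_a (h_ca² + h_a X_c X_c X_a h)`. -/
theorem deriv_trG (c : Ix n) {g : SUGroup n} (hg : g ∈ orb U) :
    HasDerivAt (fun t => trG (Gh h) c (g * ba c t))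
      (2 * ∑ a, (hh h c a g ^ 2 + h1 h a g * h3 h c c a g)) 0 := by
  have e0 : g * ba c 0 = g := by rw [ba_zero, mul_one]
  have h2 : ∀ a : Ix n, HasDerivAt (fun t => Gh h c a a (g * ba c t))
      (2 * (hh h c a g ^ 2 + h1 h a g * h3 h c c a g)) 0 := by
    intro a
    have d1 := deriv_hh H c c a hg
    have d2 := deriv_h1 H c a hg
    have d3 := (d1.mul d2).add (d2.mul d1)
    have d4 : HasDerivAt (fun t => Gh h c a a (g * ba c t))
        ((h3 h c c a g * h1 h a (g * ba c 0) + hh h c a (g * ba c 0) * hh h c a g) +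
          (hh h c a g * hh h c a (g * ba c 0) + h1 h a (g * ba c 0) * h3 h c c a g)) 0 := d3
    rw [e0] at d4
    have e1 : 2 * (hh h c a g ^ 2 + h1 h a g * h3 h c c a g) =
        ((h3 h c c a g * h1 h a g + hh h c a g * hh h c a g) +
          (hh h c a g * hh h c a g + h1 h a g * h3 h c c a g)) := by ring
    rw [e1]
    exact d4
  have d5 : HasDerivAt (fun t => ∑ a, Gh h c a a (g * ba c t))
      (∑ a : Ix n, 2 * (hh h c a g ^ 2 + h1 h a g * h3 h c c a g)) 0 :=
    HasDerivAt.fun_sum fun a _ => h2 a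
  rw [← Finset.mul_sum] at d5
  exact d5

/-- **Bochner** in the weak form. PROOF: `ibp` with `deriv_trG`, sum over `c`, `sum_h3_comm`. -/
theorem bochner_one {Φ : Mat (n + 1) → ℝ} (hΦ : Cs (orb U) Φ) :
    ∫ g, (∑ c, ∑ a, hh h c a g ^ 2) * Φ g.toMatrix ∂(mu n) =
      -(1 / 2) * ∑ c, ∫ g, trG (Gh h) c g * dX (Xa c) Φ g.toMatrix ∂(mu n) +
        (2 * n + 2) * ∫ g, tr (qh h) g * Φ g.toMatrix ∂(mu n) := by
  have hO : IsOpen (orb (n := n) U) := isOpen_orb H.isOpen
  have ch1 := continuousOn_h1 H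
  have chh := continuousOn_hh H
  have ch3 := continuousOn_h3 H
  have cG : ∀ c : Ix n, ContinuousOn (trG (Gh h) c) (orb U) := by
    intro c
    refine continuousOn_finsetSum _ fun a _ => ?_
    exact ((chh c a).mul (ch1 a)).add ((ch1 a).mul (chh c a))
  have cU : ∀ c : Ix n, ContinuousOn
      (fun g => 2 * ∑ a, (hh h c a g ^ 2 + h1 h a g * h3 h c c a g)) (orb U) := by
    intro c
    refine continuousOn_const.mul (continuousOn_finsetSum _ fun a _ => ?_)
    exact ((chh c a).pow 2).add ((ch1 a).mul (ch3 c c a))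
  have cA : ContinuousOn (fun g => ∑ c, ∑ a, hh h c a g ^ 2) (orb U) :=
    continuousOn_finsetSum _ fun c _ => continuousOn_finsetSum _ fun a _ => (chh c a).pow 2
  have cT : ContinuousOn (tr (qh h)) (orb U) :=
    continuousOn_finsetSum _ fun a _ => (ch1 a).mul (ch1 a)
  have h2 : ∀ c : Ix n, ∫ g, trG (Gh h) c g * dX (Xa c) Φ g.toMatrix ∂(mu n) =
      -∫ g, (2 * ∑ a, (hh h c a g ^ 2 + h1 h a g * h3 h c c a g)) * Φ g.toMatrix ∂(mu n) :=
    fun c => ibp hO (cG c) (cU c) (fun g hg => deriv_trG H c hg) hΦ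
  have i1 : ∀ c : Ix n, Integrable (fun g =>
      (2 * ∑ a, (hh h c a g ^ 2 + h1 h a g * h3 h c c a g)) * Φ g.toMatrix) (mu n) :=
    fun c => hΦ.integrable_cont (cU c) hO
  have h3' : ∑ c, ∫ g, trG (Gh h) c g * dX (Xa c) Φ g.toMatrix ∂(mu n) =
      -∫ g, ∑ c, (2 * ∑ a, (hh h c a g ^ 2 + h1 h a g * h3 h c c a g)) * Φ g.toMatrix ∂(mu n) := by
    rw [integral_finsetSum _ fun c _ => i1 c, ← Finset.sum_neg_distrib]
    exact Finset.sum_congr rfl fun c _ => h2 c
  have h4 : ∀ g : SUGroup n,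
      ∑ c, (2 * ∑ a, (hh h c a g ^ 2 + h1 h a g * h3 h c c a g)) * Φ g.toMatrix =
      2 * ((∑ c, ∑ a, hh h c a g ^ 2) * Φ g.toMatrix) -
        (4 * n + 4) * (tr (qh h) g * Φ g.toMatrix) := by
    intro g
    by_cases hg : g ∈ orb U
    · rw [← Finset.sum_mul, ← Finset.mul_sum]
      have e1 : ∑ c : Ix n, ∑ a : Ix n, (hh h c a g ^ 2 + h1 h a g * h3 h c c a g) =
          (∑ c, ∑ a, hh h c a g ^ 2) + ∑ a, h1 h a g * ∑ c, h3 h c c a g := by
        rw [Finset.sum_congr rfl fun c _ => Finset.sum_add_distrib, Finset.sum_add_distrib]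
        congr 1
        rw [Finset.sum_comm]
        exact Finset.sum_congr rfl fun a _ => (Finset.mul_sum _ _ _).symm
      have e2 : ∑ a : Ix n, h1 h a g * ∑ c, h3 h c c a g = -(2 * n + 2) * tr (qh h) g := by
        rw [tr, Finset.mul_sum]
        refine Finset.sum_congr rfl fun a _ => ?_
        rw [sum_h3_comm H a hg]
        show h1 h a g * (-(2 * (n : ℝ) + 2) * h1 h a g) =
          -(2 * (n : ℝ) + 2) * (h1 h a g * h1 h a g)
        ring
      rw [e1, e2]
      ring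
    · have h0 : Φ g.toMatrix = 0 := by
        by_contra h5
        exact hg (hΦ.sub g (subset_tsupport Φ h5))
      simp only [h0, mul_zero, Finset.sum_const_zero, sub_zero]
  have i2 : Integrable (fun g => (∑ c, ∑ a, hh h c a g ^ 2) * Φ g.toMatrix) (mu n) :=
    hΦ.integrable_cont cA hO
  have i3 : Integrable (fun g => tr (qh h) g * Φ g.toMatrix) (mu n) :=
    hΦ.integrable_cont cT hO
  have h5 : ∫ g, ∑ c, (2 * ∑ a, (hh h c a g ^ 2 + h1 h a g * h3 h c c a g)) * Φ g.toMatrix ∂(mu n) =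
      2 * (∫ g, (∑ c, ∑ a, hh h c a g ^ 2) * Φ g.toMatrix ∂(mu n)) -
        (4 * n + 4) * ∫ g, tr (qh h) g * Φ g.toMatrix ∂(mu n) := by
    rw [integral_congr_ae (Eventually.of_forall h4), integral_sub (i2.const_mul 2) (i3.const_mul _),
      integral_const_mul, integral_const_mul]
  rw [h3', h5]
  ring

end Pool.Agent.Lib.MP_5d4057_al.IN.D
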