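import Pool.Agent.Lib.MP_5d4057_al.IN.DHarB

/-! INT, part D, file DHarC: one harmonic function, Siu. -/

set_option autoImplicit false

namespace Pool.Agent.Lib.MP_5d4057_al.IN.D

open Matrix MeasureTheory Filter Topology Pool.Agent.Lib.MP_5d4057_al
  Pool.Agent.Lib.MP_5d4057_al.Hyb Pool.Agent.Lib.MP_5d4057_al.HM

open scoped ComplexOrder MatrixOrder Matrix.Norms.L2Operator ENNReal

variable {n : ℕ} {U : Set (Vec n)} {h : Vec n → ℝ} (H : Hrm U h)

/-- The integrand of Siu's form for one harmonic function. -/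
noncomputable def sq2 (h : Vec n → ℝ) (g : SUGroup n) : ℝ :=
  ∑ i : Fin n, ∑ j : Fin n,
    ((hh h (i, false) (j, false) g + hh h (i, true) (j, true) g) ^ 2 +
      (hh h (i, true) (j, false) g - hh h (i, false) (j, true) g) ^ 2)

/-! ### integration by parts, bookkeeping -/

/-- two integrable functions with opposite integrals -/
private def HIb (F F' : SUGroup n → ℝ) : Prop :=
  Integrable F (mu n) ∧ Integrable F' (mu n) ∧ ∫ g, F g ∂(mu n) = -∫ g, F' g ∂(mu n)

private theorem HIb.add {F F' G G' : SUGroup n → ℝ} (h1 : HIb F F') (h2 : HIb G G') :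
    HIb (fun g => F g + G g) fun g => F' g + G' g := by
  refine ⟨h1.1.add h2.1, h1.2.1.add h2.2.1, ?_⟩
  rw [integral_add h1.1 h2.1, integral_add h1.2.1 h2.2.1, h1.2.2, h2.2.2]
  ring

private theorem HIb.sub {F F' G G' : SUGroup n → ℝ} (h1 : HIb F F') (h2 : HIb G G') :
    HIb (fun g => F g - G g) fun g => F' g - G' g := by
  refine ⟨h1.1.sub h2.1, h1.2.1.sub h2.2.1, ?_⟩
  rw [integral_sub h1.1 h2.1, integral_sub h1.2.1 h2.2.1, h1.2.2, h2.2.2]
  ring

private theorem HIb.sum {κ : Type} (s : Finset κ) {F F' : κ → SUGroup n → ℝ}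
    (h1 : ∀ k, HIb (F k) (F' k)) :
    HIb (fun g => ∑ k ∈ s, F k g) fun g => ∑ k ∈ s, F' k g := by
  refine ⟨integrable_finsetSum s fun k _ => (h1 k).1,
    integrable_finsetSum s fun k _ => (h1 k).2.1, ?_⟩
  rw [integral_finsetSum s fun k _ => (h1 k).1, integral_finsetSum s fun k _ => (h1 k).2.1,
    ← Finset.sum_neg_distrib]
  exact Finset.sum_congr rfl fun k _ => (h1 k).2.2

private theorem HIb.base {O : Set (SUGroup n)} (hO : IsOpen O) {c : Ix n}
    {u u' : SUGroup n → ℝ} (hu : ContinuousOn u O) (hu' : ContinuousOn u' O)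
    (hd : ∀ g ∈ O, HasDerivAt (fun t => u (g * ba c t)) (u' g) 0) {Ψ : Mat (n + 1) → ℝ}
    (hΨ : Cs O Ψ) :
    HIb (fun g => u g * dX (Xa c) Ψ g.toMatrix) fun g => u' g * Ψ g.toMatrix :=
  ⟨(hΨ.dX _).integrable_cont hu hO, hΨ.integrable_cont hu' hO, ibp hO hu hu' hd hΨ⟩

private theorem hc_off {O : Set (SUGroup n)} {Ψ : Mat (n + 1) → ℝ} (hΨ : Cs O Ψ) {g : SUGroup n}
    (hg : g ∉ O) : Ψ g.toMatrix = 0 := by
  by_contra h0
  exact hg (hΨ.sub g (subset_tsupport _ (Function.mem_support.2 h0)))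

/-- equality on `O` is enough -/
private theorem hc_eqOn {O : Set (SUGroup n)} {Ψ : Mat (n + 1) → ℝ} (hΨ : Cs O Ψ)
    {u v : SUGroup n → ℝ} (h : ∀ g ∈ O, u g = v g) (g : SUGroup n) :
    u g * Ψ g.toMatrix = v g * Ψ g.toMatrix := by
  by_cases hg : g ∈ O
  · rw [h g hg]
  · rw [hc_off hΨ hg, mul_zero, mul_zero]

/-- `P_ij` -/
private noncomputable def hcP (h : Vec n → ℝ) (i j : Fin n) (g : SUGroup n) : ℝ :=
  hh h (i, false) (j, false) g + hh h (i, true) (j, true) g

/-- `R_ij` -/
private noncomputable def hcR (h : Vec n → ℝ) (i j : Fin n) (g : SUGroup n) : ℝ :=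
  hh h (i, true) (j, false) g - hh h (i, false) (j, true) g

/-- the derivative of `P_ij` in the direction `c` -/
private noncomputable def hcP' (h : Vec n → ℝ) (c : Ix n) (i j : Fin n) (g : SUGroup n) : ℝ :=
  h3 h c (i, false) (j, false) g + h3 h c (i, true) (j, true) g

/-- the derivative of `R_ij` in the direction `c` -/
private noncomputable def hcR' (h : Vec n → ℝ) (c : Ix n) (i j : Fin n) (g : SUGroup n) : ℝ :=
  h3 h c (i, true) (j, false) g - h3 h c (i, false) (j, true) g

/-- `A_j` -/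
private noncomputable def hcA (h : Vec n → ℝ) (j : Fin n) (g : SUGroup n) : ℝ :=
  ∑ i, (hcP h i j g * h1 h (i, false) g + hcR h i j g * h1 h (i, true) g)

/-- `A'_j` -/
private noncomputable def hcB (h : Vec n → ℝ) (j : Fin n) (g : SUGroup n) : ℝ :=
  ∑ i, (hcP h i j g * h1 h (i, true) g - hcR h i j g * h1 h (i, false) g)

private noncomputable def hcA' (h : Vec n → ℝ) (j : Fin n) (g : SUGroup n) : ℝ :=
  ∑ i, ((hcP' h (j, false) i j g * h1 h (i, false) g +
      hcP h i j g * hh h (j, false) (i, false) g) +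
    (hcR' h (j, false) i j g * h1 h (i, true) g + hcR h i j g * hh h (j, false) (i, true) g))

private noncomputable def hcB' (h : Vec n → ℝ) (j : Fin n) (g : SUGroup n) : ℝ :=
  ∑ i, ((hcP' h (j, true) i j g * h1 h (i, true) g +
      hcP h i j g * hh h (j, true) (i, true) g) -
    (hcR' h (j, true) i j g * h1 h (i, false) g + hcR h i j g * hh h (j, true) (i, false) g))

private theorem hc_tr (h : Vec n → ℝ) (g : SUGroup n) : tr (qh h) g = ∑ a, h1 h a g ^ 2 :=
  Finset.sum_congr rfl fun _ _ => (sq _).symm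

private theorem hc_nsq (h : Vec n → ℝ) (g : SUGroup n) : 0 ≤ nsq (Gh h) g :=
  Finset.sum_nonneg fun _ _ => Finset.sum_nonneg fun _ _ => Finset.sum_nonneg fun _ _ =>
    sq_nonneg _

private theorem hc_tr0 (h : Vec n → ℝ) (g : SUGroup n) : 0 ≤ tr (qh h) g := by
  rw [hc_tr]
  exact Finset.sum_nonneg fun _ _ => sq_nonneg _

private theorem hc_sq2 (h : Vec n → ℝ) (g : SUGroup n) : 0 ≤ sq2 h g :=
  Finset.sum_nonneg fun _ _ => Finset.sum_nonneg fun _ _ =>
    add_nonneg (sq_nonneg _) (sq_nonneg _)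

/-- the sum of the squares of the second derivatives -/
private noncomputable def hcS (h : Vec n → ℝ) (g : SUGroup n) : ℝ := ∑ c, ∑ a, hh h c a g ^ 2

private theorem hc_S0 (h : Vec n → ℝ) (g : SUGroup n) : 0 ≤ hcS h g :=
  Finset.sum_nonneg fun _ _ => Finset.sum_nonneg fun _ _ => sq_nonneg _

include H

private theorem hc_open : IsOpen (orb U) := isOpen_orb H.isOpen

private theorem hc_qh (a b c : Ix n) {g : SUGroup n} (hg : g ∈ orb U) :
    HasDerivAt (fun t => qh h a b (g * ba c t)) (Gh h c a b g) 0 := by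
  have e := (deriv_h1 H c a hg).fun_mul (deriv_h1 H c b hg)
  have e0 : g * ba c 0 = g := by rw [ba_zero, mul_one]
  rw [e0] at e
  exact e

private theorem hc_cqh (a b : Ix n) : ContinuousOn (qh h a b) (orb U) :=
  (continuousOn_h1 H a).mul (continuousOn_h1 H b)

private theorem hc_cGh (c a b : Ix n) : ContinuousOn (Gh h c a b) (orb U) :=
  ((continuousOn_hh H c a).mul (continuousOn_h1 H b)).add
    ((continuousOn_h1 H a).mul (continuousOn_hh H c b))

private theorem hc_ibq (a b c : Ix n) {Ψ : Mat (n + 1) → ℝ} (hΨ : Cs (orb U) Ψ) :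
    HIb (fun g => qh h a b g * dX (Xa c) Ψ g.toMatrix) fun g => Gh h c a b g * Ψ g.toMatrix :=
  HIb.base (hc_open H) (hc_cqh H a b) (hc_cGh H c a b) (fun _ hg => hc_qh H a b c hg) hΨ

private theorem hc_cP (i j : Fin n) : ContinuousOn (hcP h i j) (orb U) :=
  (continuousOn_hh H _ _).add (continuousOn_hh H _ _)

private theorem hc_cR (i j : Fin n) : ContinuousOn (hcR h i j) (orb U) :=
  (continuousOn_hh H _ _).sub (continuousOn_hh H _ _)

private theorem hc_cP' (c : Ix n) (i j : Fin n) : ContinuousOn (hcP' h c i j) (orb U) :=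
  (continuousOn_h3 H _ _ _).add (continuousOn_h3 H _ _ _)

private theorem hc_cR' (c : Ix n) (i j : Fin n) : ContinuousOn (hcR' h c i j) (orb U) :=
  (continuousOn_h3 H _ _ _).sub (continuousOn_h3 H _ _ _)

private theorem hc_dP (c : Ix n) (i j : Fin n) {g : SUGroup n} (hg : g ∈ orb U) :
    HasDerivAt (fun t => hcP h i j (g * ba c t)) (hcP' h c i j g) 0 :=
  (deriv_hh H c _ _ hg).fun_add (deriv_hh H c _ _ hg)

private theorem hc_dR (c : Ix n) (i j : Fin n) {g : SUGroup n} (hg : g ∈ orb U) :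
    HasDerivAt (fun t => hcR h i j (g * ba c t)) (hcR' h c i j g) 0 :=
  (deriv_hh H c _ _ hg).fun_sub (deriv_hh H c _ _ hg)

private theorem hc_dA (j : Fin n) {g : SUGroup n} (hg : g ∈ orb U) :
    HasDerivAt (fun t => hcA h j (g * ba (j, false) t)) (hcA' h j g) 0 := by
  have e0 : g * ba (j, false) 0 = g := by rw [ba_zero, mul_one]
  refine HasDerivAt.fun_sum fun i _ => ?_
  have e1 := (hc_dP H (j, false) i j hg).fun_mul (deriv_h1 H (j, false) (i, false) hg)
  have e2 := (hc_dR H (j, false) i j hg).fun_mul (deriv_h1 H (j, false) (i, true) hg)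
  rw [e0] at e1 e2
  exact e1.fun_add e2

private theorem hc_dB (j : Fin n) {g : SUGroup n} (hg : g ∈ orb U) :
    HasDerivAt (fun t => hcB h j (g * ba (j, true) t)) (hcB' h j g) 0 := by
  have e0 : g * ba (j, true) 0 = g := by rw [ba_zero, mul_one]
  refine HasDerivAt.fun_sum fun i _ => ?_
  have e1 := (hc_dP H (j, true) i j hg).fun_mul (deriv_h1 H (j, true) (i, true) hg)
  have e2 := (hc_dR H (j, true) i j hg).fun_mul (deriv_h1 H (j, true) (i, false) hg)
  rw [e0] at e1 e2
  exact e1.fun_sub e2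

private theorem hc_cA (j : Fin n) : ContinuousOn (hcA h j) (orb U) :=
  continuousOn_finsetSum _ fun i _ =>
    ((hc_cP H i j).mul (continuousOn_h1 H _)).add ((hc_cR H i j).mul (continuousOn_h1 H _))

private theorem hc_cB (j : Fin n) : ContinuousOn (hcB h j) (orb U) :=
  continuousOn_finsetSum _ fun i _ =>
    ((hc_cP H i j).mul (continuousOn_h1 H _)).sub ((hc_cR H i j).mul (continuousOn_h1 H _))

private theorem hc_cA' (j : Fin n) : ContinuousOn (hcA' h j) (orb U) :=
  continuousOn_finsetSum _ fun i _ =>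
    (((hc_cP' H _ i j).mul (continuousOn_h1 H _)).add
      ((hc_cP H i j).mul (continuousOn_hh H _ _))).add
    (((hc_cR' H _ i j).mul (continuousOn_h1 H _)).add
      ((hc_cR H i j).mul (continuousOn_hh H _ _)))

private theorem hc_cB' (j : Fin n) : ContinuousOn (hcB' h j) (orb U) :=
  continuousOn_finsetSum _ fun i _ =>
    (((hc_cP' H _ i j).mul (continuousOn_h1 H _)).add
      ((hc_cP H i j).mul (continuousOn_hh H _ _))).sub
    (((hc_cR' H _ i j).mul (continuousOn_h1 H _)).add
      ((hc_cR H i j).mul (continuousOn_hh H _ _)))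

/-- `∑_a h_aa = 0` over the pairs -/
private theorem hc_sum_hh {g : SUGroup n} (hg : g ∈ orb U) :
    ∑ i : Fin n, (hh h (i, false) (i, false) g + hh h (i, true) (i, true) g) = 0 := by
  have e := sum_hh H hg
  rw [Fintype.sum_prod_type] at e
  rw [← e]
  refine Finset.sum_congr rfl fun i _ => ?_
  rw [Fintype.sum_bool, add_comm]

/-- the first coefficient -/
private theorem hc_coefA (j : Fin n) {g : SUGroup n} (hg : g ∈ orb U) :
    ∑ i : Fin n, ((Gh h (j, false) (i, false) (i, false) g + Gh h (j, false) (i, true) (i, true) g) -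
      (Gh h (i, false) (i, false) (j, false) g + Gh h (i, false) (i, true) (j, true) g) +
      (Gh h (i, true) (i, false) (j, true) g - Gh h (i, true) (i, true) (j, false) g)) =
      hcA h j g := by
  have e := hc_sum_hh H hg
  have e1 : hcA h j g = ∑ i : Fin n, ((hcP h i j g * h1 h (i, false) g +
      hcR h i j g * h1 h (i, true) g) -
      (hh h (i, false) (i, false) g + hh h (i, true) (i, true) g) * h1 h (j, false) g) := by
    rw [Finset.sum_sub_distrib, ← Finset.sum_mul, e, zero_mul, sub_zero]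
    rfl
  rw [e1]
  refine Finset.sum_congr rfl fun i _ => ?_
  have s1 := hh_symm H (i, false) (j, false) hg
  have s2 := hh_symm H (i, true) (j, true) hg
  have s3 := hh_symm H (i, true) (j, false) hg
  have s4 := hh_symm H (i, false) (j, true) hg
  have s5 := hh_symm H (i, true) (i, false) hg
  show (hh h (j, false) (i, false) g * h1 h (i, false) g +
      h1 h (i, false) g * hh h (j, false) (i, false) g +
      (hh h (j, false) (i, true) g * h1 h (i, true) g +
      h1 h (i, true) g * hh h (j, false) (i, true) g)) -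
      (hh h (i, false) (i, false) g * h1 h (j, false) g +
      h1 h (i, false) g * hh h (i, false) (j, false) g +
      (hh h (i, false) (i, true) g * h1 h (j, true) g +
      h1 h (i, true) g * hh h (i, false) (j, true) g)) +
      (hh h (i, true) (i, false) g * h1 h (j, true) g +
      h1 h (i, false) g * hh h (i, true) (j, true) g -
      (hh h (i, true) (i, true) g * h1 h (j, false) g +
      h1 h (i, true) g * hh h (i, true) (j, false) g)) = _
  unfold hcP hcR
  rw [← s1, ← s3, s5]
  ring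

/-- the second coefficient -/
private theorem hc_coefB (j : Fin n) {g : SUGroup n} (hg : g ∈ orb U) :
    ∑ i : Fin n, ((Gh h (j, true) (i, false) (i, false) g + Gh h (j, true) (i, true) (i, true) g) -
      (Gh h (i, true) (i, false) (j, false) g + Gh h (i, true) (i, true) (j, true) g) -
      (Gh h (i, false) (i, false) (j, true) g - Gh h (i, false) (i, true) (j, false) g)) =
      hcB h j g := by
  have e := hc_sum_hh H hg
  have e1 : hcB h j g = ∑ i : Fin n, ((hcP h i j g * h1 h (i, true) g -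
      hcR h i j g * h1 h (i, false) g) -
      (hh h (i, false) (i, false) g + hh h (i, true) (i, true) g) * h1 h (j, true) g) := by
    rw [Finset.sum_sub_distrib, ← Finset.sum_mul, e, zero_mul, sub_zero]
    rfl
  rw [e1]
  refine Finset.sum_congr rfl fun i _ => ?_
  have s1 := hh_symm H (i, false) (j, false) hg
  have s2 := hh_symm H (i, true) (j, true) hg
  have s3 := hh_symm H (i, true) (j, false) hg
  have s4 := hh_symm H (i, false) (j, true) hg
  have s5 := hh_symm H (i, true) (i, false) hg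
  show (hh h (j, true) (i, false) g * h1 h (i, false) g +
      h1 h (i, false) g * hh h (j, true) (i, false) g +
      (hh h (j, true) (i, true) g * h1 h (i, true) g +
      h1 h (i, true) g * hh h (j, true) (i, true) g)) -
      (hh h (i, true) (i, false) g * h1 h (j, false) g +
      h1 h (i, false) g * hh h (i, true) (j, false) g +
      (hh h (i, true) (i, true) g * h1 h (j, true) g +
      h1 h (i, true) g * hh h (i, true) (j, true) g)) -
      (hh h (i, false) (i, false) g * h1 h (j, true) g +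
      h1 h (i, false) g * hh h (i, false) (j, true) g -
      (hh h (i, false) (i, true) g * h1 h (j, false) g +
      h1 h (i, true) g * hh h (i, false) (j, false) g)) = _
  unfold hcP hcR
  rw [← s4, ← s2, s5]
  ring

/-- the sum of the second derivatives -/
private theorem hc_last {g : SUGroup n} (hg : g ∈ orb U) :
    ∑ j : Fin n, (hcA' h j g + hcB' h j g) = sq2 h g := by
  have t1 : ∀ i : Fin n, ∑ j : Fin n, (hcP' h (j, false) i j g - hcR' h (j, true) i j g) = 0 :=
    fun i => siu_one H i hg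
  have t2 : ∀ i : Fin n, ∑ j : Fin n, (hcR' h (j, false) i j g + hcP' h (j, true) i j g) = 0 :=
    fun i => siu_two H i hg
  have e1 : ∀ j : Fin n, hcA' h j g + hcB' h j g = ∑ i : Fin n,
      ((hcP h i j g ^ 2 + hcR h i j g ^ 2) +
        ((hcP' h (j, false) i j g - hcR' h (j, true) i j g) * h1 h (i, false) g +
        (hcR' h (j, false) i j g + hcP' h (j, true) i j g) * h1 h (i, true) g)) := by
    intro j
    unfold hcA' hcB'
    rw [← Finset.sum_add_distrib]
    refine Finset.sum_congr rfl fun i _ => ?_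
    have s1 := hh_symm H (i, false) (j, false) hg
    have s2 := hh_symm H (i, true) (j, true) hg
    have s3 := hh_symm H (i, true) (j, false) hg
    have s4 := hh_symm H (i, false) (j, true) hg
    unfold hcP hcR
    rw [← s1, ← s2, ← s3, ← s4]
    ring
  rw [Finset.sum_congr rfl fun j _ => e1 j, Finset.sum_comm]
  have e2 : ∀ i : Fin n, ∑ j : Fin n, ((hcP h i j g ^ 2 + hcR h i j g ^ 2) +
        ((hcP' h (j, false) i j g - hcR' h (j, true) i j g) * h1 h (i, false) g +
        (hcR' h (j, false) i j g + hcP' h (j, true) i j g) * h1 h (i, true) g)) =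
        ∑ j : Fin n, (hcP h i j g ^ 2 + hcR h i j g ^ 2) := by
    intro i
    have e3 : ∑ j : Fin n, ((hcP' h (j, false) i j g - hcR' h (j, true) i j g) *
        h1 h (i, false) g + (hcR' h (j, false) i j g + hcP' h (j, true) i j g) *
        h1 h (i, true) g) = 0 := by
      rw [Finset.sum_add_distrib, ← Finset.sum_mul, ← Finset.sum_mul, t1 i, t2 i, zero_mul,
        zero_mul, add_zero]
    refine Finset.sum_add_distrib.trans ?_
    rw [e3, add_zero]
  rw [Finset.sum_congr rfl fun i _ => e2 i]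
  rfl

/-- **Siu's identity.** PROOF. Write `i = (i,false)`, `i' = (i,true)`. Integrate by parts once (`ibp` for
`u = q_ab = h_a h_b`, `u' = Gh`): `Siu = - ∫ Σ_j (A_j X_jΦ + A'_j X_j'Φ)` with
`A_j = Σ_i [X_j(q_ii + q_i'i') - X_i(q_ij + q_i'j') + X_i'(q_ij' - q_i'j)] = Σ_i (P_ij h_i + R_ij h_i')`,
`A'_j = Σ_i [X_j'(q_ii + q_i'i') - X_i'(q_ij + q_i'j') - X_i(q_ij' - q_i'j)] = Σ_i (P_ij h_i' - R_ij h_i)`,
`P_ij = h_ij + h_i'j'`, `R_ij = h_i'j - h_ij'` (symmetry of `hh` and `sum_hh`). Again by parts: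
`Siu = ∫ Σ_j (X_j A_j + X_j' A'_j) Φ`, and `Σ_j (X_j A_j + X_j' A'_j) = Σ_ij (P_ij² + R_ij²) +
Σ_i h_i Σ_j (X_j P_ij - X_j' R_ij) + Σ_i h_i' Σ_j (X_j R_ij + X_j' P_ij)`; the last two sums are `0` by
`siu_one`, `siu_two` (with `deriv_hh`). -/
theorem siu_eq {Φ : Mat (n + 1) → ℝ} (hΦ : Cs (orb U) Φ) :
    Siu (qh h) Φ = ∫ g, sq2 h g * Φ g.toMatrix ∂(mu n) := by
  have hO := hc_open H
  have hj : ∀ c : Ix n, Cs (orb U) (dX (Xa c) Φ) := fun c => hΦ.dX _
  -- first integration by parts
  have B := fun (a b c d : Ix n) => hc_ibq H a b c (hj d)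
  have T := fun i j : Fin n =>
    ((((B (i, false) (i, false) (j, false) (j, false)).add
      (B (i, true) (i, true) (j, false) (j, false))).add
      ((B (i, false) (i, false) (j, true) (j, true)).add
      (B (i, true) (i, true) (j, true) (j, true)))).sub
    (((B (i, false) (j, false) (i, false) (j, false)).add
      (B (i, true) (j, true) (i, false) (j, false))).add
      ((B (i, false) (j, false) (i, true) (j, true)).add
      (B (i, true) (j, true) (i, true) (j, true))))).add
    (((B (i, false) (j, true) (i, true) (j, false)).sub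
      (B (i, true) (j, false) (i, true) (j, false))).sub
      ((B (i, false) (j, true) (i, false) (j, true)).sub
      (B (i, true) (j, false) (i, false) (j, true))))
  have T2 := HIb.sum Finset.univ fun i : Fin n => HIb.sum Finset.univ fun j : Fin n => T i j
  have E1 : Siu (qh h) Φ = -∫ g, ∑ j : Fin n, (hcA h j g * dX (Xa (j, false)) Φ g.toMatrix +
      hcB h j g * dX (Xa (j, true)) Φ g.toMatrix) ∂(mu n) := by
    refine Eq.trans ?_ (T2.2.2.trans ?_)
    · unfold Siu
      congr 1
      funext g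
      refine Finset.sum_congr rfl fun i _ => Finset.sum_congr rfl fun j _ => ?_
      ring
    · congr 2
      funext g
      beta_reduce
      rw [Finset.sum_comm]
      refine Finset.sum_congr rfl fun j _ => ?_
      rw [← hc_eqOn (hj (j, false)) (fun g hg => hc_coefA H j hg) g,
        ← hc_eqOn (hj (j, true)) (fun g hg => hc_coefB H j hg) g, Finset.sum_mul,
        Finset.sum_mul, ← Finset.sum_add_distrib]
      refine Finset.sum_congr rfl fun i _ => ?_
      ring
  -- second integration by parts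
  have T3 := HIb.sum Finset.univ fun j : Fin n =>
    (HIb.base hO (hc_cA H j) (hc_cA' H j) (fun _ hg => hc_dA H j hg) hΦ).add
      (HIb.base hO (hc_cB H j) (hc_cB' H j) (fun _ hg => hc_dB H j hg) hΦ)
  rw [E1, T3.2.2, neg_neg]
  congr 1
  funext g
  rw [← hc_eqOn hΦ (fun g hg => hc_last H hg) g, Finset.sum_mul]
  refine Finset.sum_congr rfl fun j _ => ?_
  ring

private theorem hc_bound (g : SUGroup n) : 0 ≤ (tr (qh h) g)⁻¹ * nsq (Gh h) g ∧
    (tr (qh h) g)⁻¹ * nsq (Gh h) g ≤ 4 * hcS h g := by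
  have h0 := hc_tr0 h g
  have h1 := nsq_le H g
  refine ⟨mul_nonneg (inv_nonneg.2 h0) (hc_nsq h g), ?_⟩
  rcases h0.eq_or_lt with h2 | h2
  · rw [← h2, _root_.inv_zero, zero_mul]
    exact mul_nonneg (by norm_num) (hc_S0 h g)
  · rw [inv_mul_le_iff₀ h2]
    refine h1.trans (le_of_eq ?_)
    show 4 * tr (qh h) g * hcS h g = tr (qh h) g * (4 * hcS h g)
    ring

private theorem hc_cS : ContinuousOn (hcS h) (orb U) :=
  continuousOn_finsetSum _ fun c _ => continuousOn_finsetSum _ fun a _ =>
    (continuousOn_hh H c a).pow 2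

private theorem hc_meas {Φ : Mat (n + 1) → ℝ} (hΦ : Tst (orb U) Φ) :
    AEStronglyMeasurable (fun g => (tr (qh h) g)⁻¹ * nsq (Gh h) g * Φ g.toMatrix) (mu n) := by
  have hO := hc_open H
  have e : (fun g => (tr (qh h) g)⁻¹ * nsq (Gh h) g * Φ g.toMatrix) =
      (orb U).indicator fun g => (tr (qh h) g)⁻¹ * nsq (Gh h) g * Φ g.toMatrix := by
    funext g
    by_cases hg : g ∈ orb U
    · rw [Set.indicator_of_mem hg]
    · rw [Set.indicator_of_notMem hg, hc_off hΦ.toCs hg, mul_zero]
  rw [e, aestronglyMeasurable_indicator_iff hO.measurableSet]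
  have c1 : ContinuousOn (tr (qh h)) (orb U) :=
    continuousOn_finsetSum _ fun a _ => hc_cqh H a a
  have c2 : ContinuousOn (nsq (Gh h)) (orb U) :=
    continuousOn_finsetSum _ fun c _ => continuousOn_finsetSum _ fun a _ =>
      continuousOn_finsetSum _ fun b _ => (hc_cGh H c a b).pow 2
  have c3 : Continuous fun g : SUGroup n => Φ g.toMatrix :=
    hΦ.smooth.continuous.comp (continuous_toMatrix n)
  have m1 := (c1.aestronglyMeasurable (μ := mu n) hO.measurableSet).aemeasurable.inv
  have m2 := (c2.aestronglyMeasurable (μ := mu n) hO.measurableSet).aemeasurable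
  exact ((m1.mul m2).mul (c3.measurable.aemeasurable)).aestronglyMeasurable

private theorem hc_int {Φ : Mat (n + 1) → ℝ} (hΦ : Tst (orb U) Φ) :
    Integrable (fun g => (tr (qh h) g)⁻¹ * nsq (Gh h) g * Φ g.toMatrix) (mu n) := by
  have i1 : Integrable (fun g => (4 * hcS h g) * Φ g.toMatrix) (mu n) :=
    hΦ.toCs.integrable_cont (continuousOn_const.mul (hc_cS H)) (hc_open H)
  refine i1.mono' (hc_meas H hΦ) (Filter.Eventually.of_forall fun g => ?_)
  have b := hc_bound H g
  rw [Real.norm_eq_abs, abs_of_nonneg (mul_nonneg b.1 (hΦ.nonneg g))]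
  exact mul_le_mul_of_nonneg_right b.2 (hΦ.nonneg g)

/-- One harmonic function gives data. PROOF: `wg_qh`, `nsq_le`, `bochner_one`, `siu_eq`; if `tr = 0` then
all `h_a` vanish. -/
theorem dat_one : Dat (orb U) (qh h) (Gh h) := by
  have hO := hc_open H
  refine ⟨fun a b g _ => mul_comm _ _, ?_, fun a b => wg_qh H a b, ?_, fun Φ hΦ => hc_int H hΦ,
    ?_, ?_⟩
  · intro a b g _
    have ha : h1 h a g ^ 2 ≤ tr (qh h) g := by
      rw [hc_tr]
      exact Finset.single_le_sum (f := fun c => h1 h c g ^ 2) (fun c _ => sq_nonneg _)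
        (Finset.mem_univ a)
    have hb : h1 h b g ^ 2 ≤ tr (qh h) g := by
      rw [hc_tr]
      exact Finset.single_le_sum (f := fun c => h1 h c g ^ 2) (fun c _ => sq_nonneg _)
        (Finset.mem_univ b)
    show |h1 h a g * h1 h b g| ≤ tr (qh h) g
    rw [abs_le]
    constructor
    · nlinarith [sq_nonneg (h1 h a g + h1 h b g)]
    · nlinarith [sq_nonneg (h1 h a g - h1 h b g)]
  · intro c a b g _ h0
    rw [hc_tr] at h0
    have hz : ∀ a, h1 h a g = 0 := fun a =>
      pow_eq_zero_iff (two_ne_zero) |>.1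
        ((Finset.sum_eq_zero_iff_of_nonneg fun c _ => sq_nonneg (h1 h c g)).1 h0 a
          (Finset.mem_univ a))
    show hh h c a g * h1 h b g + h1 h a g * hh h c b g = 0
    rw [hz a, hz b]
    ring
  · intro Φ hΦ
    have i1 : Integrable (fun g => (4 * hcS h g) * Φ g.toMatrix) (mu n) :=
      hΦ.toCs.integrable_cont (continuousOn_const.mul (hc_cS H)) hO
    have e1 : ∫ g, (tr (qh h) g)⁻¹ * nsq (Gh h) g * Φ g.toMatrix ∂(mu n) ≤
        ∫ g, (4 * hcS h g) * Φ g.toMatrix ∂(mu n) :=
      integral_mono (hc_int H hΦ) i1 fun g =>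
        mul_le_mul_of_nonneg_right (hc_bound H g).2 (hΦ.nonneg g)
    have e2 : ∫ g, (4 * hcS h g) * Φ g.toMatrix ∂(mu n) =
        4 * ∫ g, hcS h g * Φ g.toMatrix ∂(mu n) := by
      rw [← integral_const_mul]
      congr 1
      funext g
      ring
    have e3 : ∫ g, hcS h g * Φ g.toMatrix ∂(mu n) =
      -(1 / 2) * ∑ c, ∫ g, trG (Gh h) c g * dX (Xa c) Φ g.toMatrix ∂(mu n) +
        (2 * n + 2) * ∫ g, tr (qh h) g * Φ g.toMatrix ∂(mu n) := bochner_one H hΦ.toCs
    rw [e2, e3] at e1
    refine e1.trans (le_of_eq ?_)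
    ring
  · intro Φ hΦ
    rw [siu_eq H hΦ.toCs]
    exact integral_nonneg fun g => mul_nonneg (hc_sq2 h g) (hΦ.nonneg g)

private theorem hc_csq2 : ContinuousOn (sq2 h) (orb U) :=
  continuousOn_finsetSum _ fun i _ => continuousOn_finsetSum _ fun j _ =>
    ((hc_cP H i j).pow 2).add ((hc_cR H i j).pow 2)

private theorem hc_zero (h0 : ∀ Φ, Tst (orb U) Φ → Siu (qh h) Φ = 0) {g : SUGroup n}
    (hg : g ∈ orb U) : sq2 h g = 0 := by
  have hO := hc_open H
  obtain ⟨ζ, hζ, -, -, W, hW, hKW, hW1⟩ := exists_bump hO (isCompact_singleton (x := g))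
    (Set.singleton_subset_iff.2 hg)
  have e1 := h0 ζ hζ
  rw [siu_eq H hζ.toCs, integral_eq_zero_iff_of_nonneg
    (fun g => mul_nonneg (hc_sq2 h g) (hζ.nonneg g))
    (hζ.toCs.integrable_cont (hc_csq2 H) hO)] at e1
  have hV : IsOpen (orb U ∩ {g : SUGroup n | g.toMatrix ∈ W}) :=
    hO.inter (hW.preimage (continuous_toMatrix n))
  have e2 : sq2 h =ᵐ[(mu n).restrict (orb U ∩ {g : SUGroup n | g.toMatrix ∈ W})]
      fun _ => (0 : ℝ) := by
    filter_upwards [ae_restrict_of_ae e1, ae_restrict_mem hV.measurableSet] with x hx hx2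
    have hx3 : sq2 h x * ζ x.toMatrix = 0 := hx
    rwa [hW1 _ hx2.2, mul_one] at hx3
  exact Measure.eqOn_open_of_ae_eq e2 hV ((hc_csq2 H).mono Set.inter_subset_left)
    continuousOn_const ⟨hg, hKW g rfl⟩

private theorem hc_two (c : Ix n) {Φ : Mat (n + 1) → ℝ} (hΦ : Cs (orb U) Φ) :
    Integrable (fun g => onG h g * dX (Xa c) (dX (Xa c) Φ) g.toMatrix) (mu n) ∧
    Integrable (fun g => hh h c c g * Φ g.toMatrix) (mu n) ∧
    ∫ g, onG h g * dX (Xa c) (dX (Xa c) Φ) g.toMatrix ∂(mu n) =
      ∫ g, hh h c c g * Φ g.toMatrix ∂(mu n) := by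
  have hO := hc_open H
  have c0 : ContinuousOn (onG h) (orb U) := by
    have c1 : Continuous fun g : SUGroup n => act g (base n) := by
      unfold act
      exact (continuous_toMatrix n).matrix_mulVec continuous_const
    exact H.smooth.continuousOn.comp c1.continuousOn fun g hg => hg
  have b1 := HIb.base hO c0 (continuousOn_h1 H c) (fun _ hg => deriv_onG H c hg)
    (hΦ.dX (Xa c))
  have b2 := HIb.base hO (continuousOn_h1 H c) (continuousOn_hh H c c)
    (fun _ hg => deriv_h1 H c c hg) hΦ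
  refine ⟨b1.1, b2.2.1, ?_⟩
  rw [b1.2.2, b2.2.2, neg_neg]

/-- PROOF: by `siu_eq` and continuity `sq2 = 0` on `orb U`, so `h_jj + h_j'j' = 0`; `ibp` twice. -/
theorem pw_one (h0 : ∀ Φ, Tst (orb U) Φ → Siu (qh h) Φ = 0) (t : ℝ) :
    PW (orb U) (fun g => t * onG h g) := by
  intro Φ hΦ j
  have z : ∀ g ∈ orb U, hh h (j, false) (j, false) g + hh h (j, true) (j, true) g = 0 := by
    intro g hg
    have e1 := hc_zero H h0 hg
    unfold sq2 at e1
    have e2 := (Finset.sum_eq_zero_iff_of_nonneg fun i _ => Finset.sum_nonneg fun j _ =>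
      add_nonneg (sq_nonneg _) (sq_nonneg _)).1 e1 j (Finset.mem_univ j)
    have e3 := (Finset.sum_eq_zero_iff_of_nonneg fun j _ =>
      add_nonneg (sq_nonneg _) (sq_nonneg _)).1 e2 j (Finset.mem_univ j)
    have e4 := (add_eq_zero_iff_of_nonneg (sq_nonneg _) (sq_nonneg _)).1 e3
    exact pow_eq_zero_iff (two_ne_zero) |>.1 e4.1
  obtain ⟨i1, k1, e1⟩ := hc_two H (j, false) hΦ.toCs
  obtain ⟨i2, k2, e2⟩ := hc_two H (j, true) hΦ.toCs
  have e3 : ∫ g, t * onG h g * (dX (Xa (j, false)) (dX (Xa (j, false)) Φ) g.toMatrix +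
      dX (Xa (j, true)) (dX (Xa (j, true)) Φ) g.toMatrix) ∂(mu n) =
      t * ∫ g, (hh h (j, false) (j, false) g * Φ g.toMatrix +
        hh h (j, true) (j, true) g * Φ g.toMatrix) ∂(mu n) := by
    rw [integral_add k1 k2, ← e1, ← e2, ← integral_add i1 i2, ← integral_const_mul]
    congr 1
    funext g
    ring
  have e4 : ∫ g, (hh h (j, false) (j, false) g * Φ g.toMatrix +
        hh h (j, true) (j, true) g * Φ g.toMatrix) ∂(mu n) = 0 := by
    have e5 : (fun g : SUGroup n => hh h (j, false) (j, false) g * Φ g.toMatrix +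
        hh h (j, true) (j, true) g * Φ g.toMatrix) = fun _ => 0 := by
      funext g
      rw [← add_mul]
      refine (hc_eqOn (v := fun _ => 0) hΦ.toCs (fun g hg => z g hg) g).trans ?_
      exact zero_mul _
    rw [e5, integral_zero]
  rw [e3, e4, mul_zero]

end Pool.Agent.Lib.MP_5d4057_al.IN.D
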