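import Pool.Agent.Lib.MP_5d4057_al.IN.DMol

/-! INT, part D, file DMolB: maxima of plurisubharmonic functions. -/

set_option autoImplicit false

namespace Pool.Agent.Lib.MP_5d4057_al.IN.D

open Matrix MeasureTheory Filter Topology Pool.Agent.Lib.MP_5d4057_al
  Pool.Agent.Lib.MP_5d4057_al.Hyb Pool.Agent.Lib.MP_5d4057_al.HM

open scoped ComplexOrder MatrixOrder Matrix.Norms.L2Operator ENNReal

variable {n : ℕ} {O : Set (SUGroup n)} {y y₁ y₂ : Vec n → ℝ}

private theorem mb_ba (c : Ix n) (t : ℝ) :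
    HasDerivAt (fun t => (ba c t).toMatrix) ((ba c t).toMatrix * xmat (xi c)) t :=
  Kak.hasDerivAt_flow (xi_norm c) t

/-- first derivatives along the flow -/
private theorem mb_one {f : Vec n → ℝ} (hs : ContDiffOn ℝ (⊤ : ℕ∞) f (Cone n)) (g : SUGroup n)
    (c : Ix n) (t : ℝ) : HasDerivAt (fun t => f (act (g * ba c t) (base n)))
      (fderiv ℝ f (act (g * ba c t) (base n)) (act (g * ba c t) (vec (xi c)))) t :=
  HM.hasDerivAt_flow (mb_ba c) g t
    (((hs.contDiffAt ((isOpen_cone n).mem_nhds (orbit_mem _))).differentiableAt (by simp)))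

/-- second derivatives along the flow -/
private theorem mb_two {f : Vec n → ℝ} (hf : Homog f) (hs : ContDiffOn ℝ (⊤ : ℕ∞) f (Cone n))
    (g : SUGroup n) (c : Ix n) (t : ℝ) :
    HasDerivAt (fun t => fderiv ℝ f (act (g * ba c t) (base n)) (act (g * ba c t) (vec (xi c))))
      (hh f c c (g * ba c t)) t :=
  HM.hasDerivAt_flow_two hf (xi_norm c) (mb_ba c) g t
    ((hs.contDiffAt ((isOpen_cone n).mem_nhds (orbit_mem _))).of_le
      (WithTop.coe_le_coe.2 (le_top : (2 : ℕ∞) ≤ ⊤)))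

private theorem mb_cont_act (w : Vec n) : Continuous fun g : SUGroup n => act g w := by
  unfold act
  exact (continuous_toMatrix n).matrix_mulVec continuous_const

private theorem mb_cont_f {f : Vec n → ℝ} (hs : ContDiffOn ℝ (⊤ : ℕ∞) f (Cone n)) :
    Continuous (onG f) := by
  unfold onG
  exact hs.continuousOn.comp_continuous continuous_orbit orbit_mem

private theorem mb_cont_d {f : Vec n → ℝ} (hs : ContDiffOn ℝ (⊤ : ℕ∞) f (Cone n)) (c : Ix n) :
    Continuous fun g : SUGroup n => fderiv ℝ f (act g (base n)) (act g (vec (xi c))) := by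
  have h1 : ContinuousOn (fderiv ℝ f) (Cone n) :=
    hs.continuousOn_fderiv_of_isOpen (isOpen_cone n) (by simp)
  exact (h1.comp_continuous continuous_orbit orbit_mem).clm_apply (mb_cont_act _)

private theorem mb_cont_hh {f : Vec n → ℝ} (hs : ContDiffOn ℝ (⊤ : ℕ∞) f (Cone n)) (c : Ix n) :
    Continuous (hh f c c) := by
  have h0 : ContDiffOn ℝ 1 (fderiv ℝ f) (Cone n) :=
    hs.fderiv_of_isOpen (isOpen_cone n) (WithTop.coe_le_coe.2 (le_top : (1 + 1 : ℕ∞) ≤ ⊤))
  have h1 : ContinuousOn (fderiv ℝ (fderiv ℝ f)) (Cone n) :=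
    h0.continuousOn_fderiv_of_isOpen (isOpen_cone n) le_rfl
  unfold hh
  exact ((h1.comp_continuous continuous_orbit orbit_mem).clm_apply (mb_cont_act _)).clm_apply
    (mb_cont_act _)

private theorem mb_off {Φ : Mat (n + 1) → ℝ} (hΦ : Cs O Φ) {g : SUGroup n} (hg : g ∉ O) :
    Φ g.toMatrix = 0 := by
  by_contra h
  exact hg (hΦ.sub g (subset_tsupport _ h))

/-- The smooth case. PROOF: `ibp` twice; `f` is smooth on the cone, `O` open, `lvi f j ≥ 0` on `O`. -/
theorem pw_of_smooth (hO : IsOpen O) {f : Vec n → ℝ} (hf : Homog f)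
    (hs : ContDiffOn ℝ (⊤ : ℕ∞) f (Cone n)) (h : ∀ j, ∀ g ∈ O, 0 ≤ lvi f j g) :
    PW O (onG f) := by
  intro Φ hΦ j
  have key : ∀ c : Ix n, ∫ g, onG f g * dX (Xa c) (dX (Xa c) Φ) g.toMatrix ∂(mu n) =
      ∫ g, hh f c c g * Φ g.toMatrix ∂(mu n) := by
    intro c
    have e1 := ibp hO (c := c) (u := onG f)
      (u' := fun g => fderiv ℝ f (act g (base n)) (act g (vec (xi c))))
      (mb_cont_f hs).continuousOn (mb_cont_d hs c).continuousOn
      (fun g _ => by
        have h1 := mb_one hs g c 0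
        rw [ba_zero, mul_one] at h1
        exact h1) (hΦ.toCs.dX (Xa c))
    have e2 := ibp hO (c := c)
      (u := fun g => fderiv ℝ f (act g (base n)) (act g (vec (xi c)))) (u' := hh f c c)
      (mb_cont_d hs c).continuousOn (mb_cont_hh hs c).continuousOn
      (fun g _ => by
        have h1 := mb_two hf hs g c 0
        rw [ba_zero, mul_one] at h1
        exact h1) hΦ.toCs
    rw [e1, e2, neg_neg]
  have hi : ∀ c : Ix n, Integrable (fun g => onG f g * dX (Xa c) (dX (Xa c) Φ) g.toMatrix) (mu n) :=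
    fun c => ((hΦ.toCs.dX (Xa c)).dX (Xa c)).integrable_cont (mb_cont_f hs).continuousOn hO
  have hi2 : ∀ c : Ix n, Integrable (fun g => hh f c c g * Φ g.toMatrix) (mu n) :=
    fun c => hΦ.toCs.integrable_cont (mb_cont_hh hs c).continuousOn hO
  simp only [mul_add]
  rw [integral_add (hi _) (hi _), key, key, ← integral_add (hi2 _) (hi2 _)]
  refine integral_nonneg fun g => ?_
  show 0 ≤ hh f (j, false) (j, false) g * Φ g.toMatrix + hh f (j, true) (j, true) g * Φ g.toMatrix
  rw [← add_mul]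
  by_cases hg : g ∈ O
  · exact mul_nonneg (h j g hg) (hΦ.nonneg g)
  · rw [mb_off hΦ.toCs hg, mul_zero]

/-- the one variable computation -/
private theorem mb_log (N : ℝ) (hN : 0 < N) {a b a' b' : ℝ → ℝ} {A B : ℝ}
    (ha : ∀ t, HasDerivAt a (a' t) t) (hb : ∀ t, HasDerivAt b (b' t) t) (ha' : HasDerivAt a' A 0)
    (hb' : HasDerivAt b' B 0) {F' : ℝ → ℝ} {C : ℝ}
    (hF : ∀ t, HasDerivAt (fun t => 1 / N * Real.log (Real.exp (N * a t) + Real.exp (N * b t)))
      (F' t) t) (hC : HasDerivAt F' C 0) :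
    (Real.exp (N * a 0) * A + Real.exp (N * b 0) * B) /
      (Real.exp (N * a 0) + Real.exp (N * b 0)) ≤ C := by
  have h0 : ∀ t, 0 < Real.exp (N * a t) + Real.exp (N * b t) := fun t => by positivity
  have hE : ∀ t, HasDerivAt (fun t => Real.exp (N * a t)) (Real.exp (N * a t) * (N * a' t)) t :=
    fun t => ((ha t).const_mul N).exp
  have hG : ∀ t, HasDerivAt (fun t => Real.exp (N * b t)) (Real.exp (N * b t) * (N * b' t)) t :=
    fun t => ((hb t).const_mul N).exp
  have h1 : ∀ t, F' t = (Real.exp (N * a t) * a' t + Real.exp (N * b t) * b' t) /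
      (Real.exp (N * a t) + Real.exp (N * b t)) := by
    intro t
    have h2 : HasDerivAt (fun t => 1 / N * Real.log (Real.exp (N * a t) + Real.exp (N * b t)))
        (1 / N * ((Real.exp (N * a t) * (N * a' t) + Real.exp (N * b t) * (N * b' t)) /
          (Real.exp (N * a t) + Real.exp (N * b t)))) t :=
      (((hE t).add (hG t)).log (h0 t).ne').const_mul (1 / N)
    rw [(hF t).unique h2]
    have := (h0 t).ne'
    field_simp
  have h2 : HasDerivAt F' ((((Real.exp (N * a 0) * (N * a' 0)) * a' 0 + Real.exp (N * a 0) * A +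
      ((Real.exp (N * b 0) * (N * b' 0)) * b' 0 + Real.exp (N * b 0) * B)) *
        (Real.exp (N * a 0) + Real.exp (N * b 0)) -
      (Real.exp (N * a 0) * a' 0 + Real.exp (N * b 0) * b' 0) *
        (Real.exp (N * a 0) * (N * a' 0) + Real.exp (N * b 0) * (N * b' 0))) /
      (Real.exp (N * a 0) + Real.exp (N * b 0)) ^ 2) 0 := by
    rw [show F' = fun t => (Real.exp (N * a t) * a' t + Real.exp (N * b t) * b' t) /
      (Real.exp (N * a t) + Real.exp (N * b t)) from funext h1]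
    exact (((hE 0).mul ha').add ((hG 0).mul hb')).div ((hE 0).add (hG 0)) (h0 0).ne'
  rw [hC.unique h2]
  have e1 := Real.exp_pos (N * a 0)
  have e2 := Real.exp_pos (N * b 0)
  generalize Real.exp (N * a 0) = p at *
  generalize Real.exp (N * b 0) = r at *
  generalize a' 0 = x at *
  generalize b' 0 = z at *
  have h3 : (p * (N * x) * x + p * A + (r * (N * z) * z + r * B)) * (p + r) -
      (p * x + r * z) * (p * (N * x) + r * (N * z)) =
      (p * A + r * B) * (p + r) + N * (p * r) * (x - z) ^ 2 := by ring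
  rw [h3, div_le_div_iff₀ (by positivity) (by positivity)]
  have h4 : 0 ≤ N * (p * r) * (x - z) ^ 2 * (p + r) := by positivity
  nlinarith

/-- The regularised maximum of two smooth functions. PROOF: `F = (1/N) log(e^{N f₁} + e^{N f₂})`,
`p = e^{N f₁} / (e^{N f₁} + e^{N f₂})`: `X X F = p XX f₁ + (1-p) XX f₂ + N p (1-p) (X f₁ - X f₂)²`. -/
theorem lvi_log (N : ℝ) (hN : 0 < N) {f₁ f₂ : Vec n → ℝ} (h₁ : Homog f₁) (h₂ : Homog f₂)
    (hs₁ : ContDiffOn ℝ (⊤ : ℕ∞) f₁ (Cone n)) (hs₂ : ContDiffOn ℝ (⊤ : ℕ∞) f₂ (Cone n))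
    (j : Fin n) (g : SUGroup n) (hl₁ : 0 ≤ lvi f₁ j g) (hl₂ : 0 ≤ lvi f₂ j g) :
    0 ≤ lvi (fun v => 1 / N * Real.log (Real.exp (N * f₁ v) + Real.exp (N * f₂ v))) j g := by
  have hs : ContDiffOn ℝ (⊤ : ℕ∞)
      (fun v => 1 / N * Real.log (Real.exp (N * f₁ v) + Real.exp (N * f₂ v))) (Cone n) := by
    refine contDiffOn_const.mul (ContDiffOn.log ?_ fun v _ => by positivity)
    exact (contDiffOn_const.mul hs₁).exp.add (contDiffOn_const.mul hs₂).exp
  have hh' : Homog (fun v => 1 / N * Real.log (Real.exp (N * f₁ v) + Real.exp (N * f₂ v))) := by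
    intro c hc v hv
    show 1 / N * Real.log (Real.exp (N * f₁ (c • v)) + Real.exp (N * f₂ (c • v))) = _
    rw [h₁ c hc v hv, h₂ c hc v hv]
  have key : ∀ c : Ix n,
      (Real.exp (N * f₁ (act g (base n))) * hh f₁ c c g +
        Real.exp (N * f₂ (act g (base n))) * hh f₂ c c g) /
        (Real.exp (N * f₁ (act g (base n))) + Real.exp (N * f₂ (act g (base n)))) ≤
      hh (fun v => 1 / N * Real.log (Real.exp (N * f₁ v) + Real.exp (N * f₂ v))) c c g := by
    intro c
    have e := mb_log N hN (mb_one hs₁ g c) (mb_one hs₂ g c) (mb_two h₁ hs₁ g c 0)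
      (mb_two h₂ hs₂ g c 0) (mb_one hs g c) (mb_two hh' hs g c 0)
    simp only [ba_zero, mul_one] at e
    exact e
  have k1 := key (j, false)
  have k2 := key (j, true)
  have h0 : 0 < Real.exp (N * f₁ (act g (base n))) + Real.exp (N * f₂ (act g (base n))) := by
    positivity
  have e1 := Real.exp_pos (N * f₁ (act g (base n)))
  have e2 := Real.exp_pos (N * f₂ (act g (base n)))
  unfold lvi at *
  refine le_trans ?_ (add_le_add k1 k2)
  rw [← add_div]
  refine div_nonneg ?_ h0.le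
  nlinarith [mul_nonneg e1.le hl₁, mul_nonneg e2.le hl₂]

/-- Stability of `PW` under locally uniform limits. PROOF: `Φ` has compact support in `O`. -/
theorem pw_limit (hO : IsOpen O) {y : SUGroup n → ℝ} (hy : ContinuousOn y O)
    (h : ∀ K ⊆ O, IsCompact K → ∀ ε > 0, ∃ (V : Set (SUGroup n)) (z : SUGroup n → ℝ),
      IsOpen V ∧ K ⊆ V ∧ ContinuousOn z V ∧ PW V z ∧ ∀ g ∈ K, |z g - y g| ≤ ε) : PW O y := by
  intro Φ hΦ j
  obtain ⟨K, hKd⟩ : ∃ K : Set (SUGroup n), K = {g : SUGroup n | g.toMatrix ∈ tsupport Φ} :=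
    ⟨_, rfl⟩
  have hK : IsCompact K := hKd ▸ hΦ.toCs.compact
  have hKO : K ⊆ O := fun g hg => hΦ.sub g (by rw [hKd] at hg; exact hg)
  obtain ⟨D, hD⟩ : ∃ D : Mat (n + 1) → ℝ, D = fun M => dX (Xa (j, false)) (dX (Xa (j, false)) Φ) M +
    dX (Xa (j, true)) (dX (Xa (j, true)) Φ) M := ⟨_, rfl⟩
  have hcs : ∀ O' : Set (SUGroup n), Cs O' Φ → Cs O' D := fun O' h' => by
    rw [hD]
    exact ((h'.dX _).dX _).add ((h'.dX _).dX _)
  have hDi : Integrable (fun g : SUGroup n => D g.toMatrix) (mu n) := by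
    have := (hcs O hΦ.toCs).integrable_cont (u := fun _ => (1 : ℝ)) continuousOn_const hO
    simpa using this
  have hDK : Cs K Φ := ⟨hΦ.smooth, hΦ.supp, fun g hg => by rw [hKd]; exact hg⟩
  have hD0 : ∀ g : SUGroup n, g ∉ K → D g.toMatrix = 0 := fun g hg => mb_off (hcs K hDK) hg
  change 0 ≤ ∫ g, y g * (dX (Xa (j, false)) (dX (Xa (j, false)) Φ) g.toMatrix +
    dX (Xa (j, true)) (dX (Xa (j, true)) Φ) g.toMatrix) ∂(mu n)
  have hDe : ∀ g : SUGroup n, dX (Xa (j, false)) (dX (Xa (j, false)) Φ) g.toMatrix +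
    dX (Xa (j, true)) (dX (Xa (j, true)) Φ) g.toMatrix = D g.toMatrix := fun g => by rw [hD]
  simp only [hDe]
  obtain ⟨I, hI⟩ : ∃ I : ℝ, I = ∫ g : SUGroup n, |D g.toMatrix| ∂(mu n) := ⟨_, rfl⟩
  have hI0 : 0 ≤ I := by rw [hI]; exact integral_nonneg fun _ => abs_nonneg _
  have hyi : Integrable (fun g => y g * D g.toMatrix) (mu n) :=
    (hcs O hΦ.toCs).integrable_cont hy hO
  refine le_of_forall_pos_lt_add fun e he => ?_
  have he1 : 0 < e / (I + 1) := by positivity
  obtain ⟨V, z, hV, hKV, hz, hPW, hzy⟩ := h K hKO hK (e / (I + 1)) he1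
  have hΦV : Tst V Φ := ⟨⟨hΦ.smooth, hΦ.supp, fun g hg => hKV (by rw [hKd]; exact hg)⟩, hΦ.nonneg⟩
  have h1 := hPW Φ hΦV j
  simp only [hDe] at h1
  have hzi : Integrable (fun g => z g * D g.toMatrix) (mu n) :=
    (hcs V hΦV.toCs).integrable_cont hz hV
  have h2 : ∫ g, z g * D g.toMatrix ∂(mu n) - ∫ g, y g * D g.toMatrix ∂(mu n) ≤
      e / (I + 1) * I := by
    have h5 : e / (I + 1) * I = ∫ g : SUGroup n, e / (I + 1) * |D g.toMatrix| ∂(mu n) := by
      rw [integral_const_mul, ← hI]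
    rw [← integral_sub hzi hyi, h5]
    refine integral_mono (hzi.sub hyi) (hDi.abs.const_mul _) fun g => ?_
    show z g * D g.toMatrix - y g * D g.toMatrix ≤ e / (I + 1) * |D g.toMatrix|
    by_cases hg : g ∈ K
    · rw [← sub_mul]
      refine (le_abs_self _).trans ?_
      rw [abs_mul]
      exact mul_le_mul_of_nonneg_right (hzy g hg) (abs_nonneg _)
    · rw [hD0 g hg]
      simp
  have h3 : e / (I + 1) * I < e := by
    rw [div_mul_eq_mul_div, div_lt_iff₀ (by positivity)]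
    nlinarith
  linarith

/-- the regularised maximum is close to the maximum -/
private theorem mb_logmax {N a b : ℝ} (hN : 0 < N) :
    |1 / N * Real.log (Real.exp (N * a) + Real.exp (N * b)) - max a b| ≤ Real.log 2 / N := by
  have h1 : N * max a b ≤ Real.log (Real.exp (N * a) + Real.exp (N * b)) := by
    rw [Real.le_log_iff_exp_le (by positivity)]
    rcases le_total a b with h | h
    · rw [max_eq_right h]
      linarith [Real.exp_pos (N * a)]
    · rw [max_eq_left h]
      linarith [Real.exp_pos (N * b)]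
  have h2 : Real.log (Real.exp (N * a) + Real.exp (N * b)) ≤ Real.log 2 + N * max a b := by
    rw [Real.log_le_iff_le_exp (by positivity), Real.exp_add, Real.exp_log (by norm_num)]
    have h3 : Real.exp (N * a) ≤ Real.exp (N * max a b) :=
      Real.exp_le_exp.2 (mul_le_mul_of_nonneg_left (le_max_left _ _) hN.le)
    have h4 : Real.exp (N * b) ≤ Real.exp (N * max a b) :=
      Real.exp_le_exp.2 (mul_le_mul_of_nonneg_left (le_max_right _ _) hN.le)
    linarith
  have h3 : 1 / N * Real.log (Real.exp (N * a) + Real.exp (N * b)) - max a b =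
      (Real.log (Real.exp (N * a) + Real.exp (N * b)) - N * max a b) / N := by
    field_simp
  rw [h3, abs_of_nonneg (div_nonneg (by linarith) hN.le)]
  exact div_le_div_of_nonneg_right (by linarith) hN.le

/-- **Maxima.** PROOF: for a compact `K ⊆ O` choose an open `V` with compact closure in `O`, `K ⊆ V`; for
`θ` a mollifier with small support (`exists_moll`) `lav θ y_i` is smooth, close to `y_i` on `K`
(`lav_approx`) and `lvi (lav θ y_i) ≥ 0` on `V` (`pw_lav`; the support of `θ` in the group is near `1`);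
`lvi_log`, `pw_of_smooth` on `V`, `|F_N - max| ≤ log 2 / N`; `pw_limit`. -/
theorem pw_max (hO : IsOpen O) (h₁ : Fn y₁) (h₂ : Fn y₂) (hp₁ : PW O (onG y₁))
    (hp₂ : PW O (onG y₂)) : PW O (onG fun v => max (y₁ v) (y₂ v)) := by
  refine pw_limit hO (h₁.max h₂).continuous_onG.continuousOn fun K hKO hK ε hε => ?_
  obtain ⟨V, hV, hKV, hVO, hVc⟩ := exists_open_between_and_isCompact_closure hK hO hKO
  obtain ⟨T, hT⟩ := hK.bddAbove_image (f := ch (n := n)) continuous_ch.continuousOn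
  have hT' : ∀ g ∈ K, ch g ≤ T := fun g hg => hT (Set.mem_image_of_mem _ hg)
  obtain ⟨δ₁, hδ₁, ha₁⟩ := lav_approx h₁.hom h₁.cont T (ε := ε / 2) (by positivity)
  obtain ⟨δ₂, hδ₂, ha₂⟩ := lav_approx h₂.hom h₂.cont T (ε := ε / 2) (by positivity)
  -- the support
  have hev : ∀ᶠ a : SUGroup n in 𝓝 1, ∀ g ∈ closure V, a * g ∈ O := by
    refine hVc.eventually_forall_of_forall_eventually fun g hg => ?_
    have hc : Continuous fun p : SUGroup n × SUGroup n => p.1 * p.2 := continuous_mul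
    refine hc.continuousAt.eventually (hO.mem_nhds ?_)
    show (1 : SUGroup n) * g ∈ O
    rw [one_mul]
    exact hVO hg
  rw [(isClosedEmbedding_toMatrix n).isInducing.nhds_eq_comap, Filter.eventually_comap,
    toMatrix_one, Metric.eventually_nhds_iff] at hev
  obtain ⟨δ₃, hδ₃, ha₃⟩ := hev
  obtain ⟨δ, hδ⟩ : ∃ δ : ℝ, δ = min (min δ₁ δ₂) (δ₃ / 2) := ⟨_, rfl⟩
  have hδ0 : 0 < δ := by rw [hδ]; exact lt_min (lt_min hδ₁ hδ₂) (by positivity)
  have hd1 : δ ≤ δ₁ := by rw [hδ]; exact (min_le_left _ _).trans (min_le_left _ _)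
  have hd2 : δ ≤ δ₂ := by rw [hδ]; exact (min_le_left _ _).trans (min_le_right _ _)
  have hd3 : δ < δ₃ := by
    have : δ ≤ δ₃ / 2 := by rw [hδ]; exact min_le_right _ _
    linarith
  obtain ⟨θ, hθ, hθ1, hθ0⟩ := exists_moll n hδ0
  have hsup : ∀ M ∈ tsupport θ, ‖M - 1‖ ≤ δ := by
    have hcl : IsClosed {M : Mat (n + 1) | ‖M - 1‖ ≤ δ} :=
      isClosed_le (continuous_id.sub continuous_const).norm continuous_const
    have : tsupport θ ⊆ {M : Mat (n + 1) | ‖M - 1‖ ≤ δ} := by
      refine closure_minimal (fun M hM => ?_) hcl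
      by_contra h3
      exact hM (hθ0 M (not_le.1 h3))
    exact fun M hM => this hM
  have hg : ∀ g ∈ V, ∀ b : SUGroup n, (b * g⁻¹).toMatrix ∈ tsupport θ → b ∈ O := by
    intro g hgV b hb
    have h3 := hsup _ hb
    have h4 := ha₃ (y := (b * g⁻¹).toMatrix) (by rw [dist_eq_norm]; linarith) (b * g⁻¹) rfl g
      (subset_closure hgV)
    rwa [inv_mul_cancel_right] at h4
  obtain ⟨N₁, C₁, hA₁⟩ := h₁.adm
  obtain ⟨N₂, C₂, hA₂⟩ := h₂.adm
  have hs₁ := lav_contDiffOn hθ hA₁
  have hs₂ := lav_contDiffOn hθ hA₂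
  have hh₁ := lav_homog θ y₁
  have hh₂ := lav_homog θ y₂
  -- the parameter `N`
  obtain ⟨N, hNd⟩ : ∃ N : ℝ, N = 2 * Real.log 2 / ε := ⟨_, rfl⟩
  have hlog : 0 < Real.log 2 := Real.log_pos (by norm_num)
  have hN : 0 < N := by rw [hNd]; positivity
  have hN2 : Real.log 2 / N = ε / 2 := by
    rw [hNd]
    field_simp
  obtain ⟨F, hF⟩ : ∃ F : Vec n → ℝ, F = fun v => 1 / N * Real.log
    (Real.exp (N * lav θ y₁ v) + Real.exp (N * lav θ y₂ v)) := ⟨_, rfl⟩
  have hFs : ContDiffOn ℝ (⊤ : ℕ∞) F (Cone n) := by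
    rw [hF]
    refine contDiffOn_const.mul (ContDiffOn.log ?_ fun v _ => by positivity)
    exact (contDiffOn_const.mul hs₁).exp.add (contDiffOn_const.mul hs₂).exp
  have hFh : Homog F := by
    intro c hc v hv
    rw [hF]
    simp only
    rw [hh₁ c hc v hv, hh₂ c hc v hv]
  refine ⟨V, onG F, hV, hKV, (mb_cont_f hFs).continuousOn, ?_, fun g hgK => ?_⟩
  · refine pw_of_smooth hV hFh hFs fun j g hgV => ?_
    rw [hF]
    exact lvi_log N hN hh₁ hh₂ hs₁ hs₂ j g (pw_lav h₁ hθ (hg g hgV) hp₁ j)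
      (pw_lav h₂ hθ (hg g hgV) hp₂ j)
  · have e1 := ha₁ θ hθ hθ1 (fun A hA => hθ0 A (hd1.trans_lt hA)) g (hT' g hgK)
    have e2 := ha₂ θ hθ hθ1 (fun A hA => hθ0 A (hd2.trans_lt hA)) g (hT' g hgK)
    rw [Real.norm_eq_abs] at e1 e2
    have e3 := mb_logmax (a := lav θ y₁ (act g (base n))) (b := lav θ y₂ (act g (base n))) hN
    rw [hN2] at e3
    have e4 := abs_max_sub_max_le_max (lav θ y₁ (act g (base n))) (lav θ y₂ (act g (base n)))
      (y₁ (act g (base n))) (y₂ (act g (base n)))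
    have e5 : |max (lav θ y₁ (act g (base n))) (lav θ y₂ (act g (base n))) -
        max (y₁ (act g (base n))) (y₂ (act g (base n)))| ≤ ε / 2 := e4.trans (max_le e1 e2)
    show |F (act g (base n)) - max (y₁ (act g (base n))) (y₂ (act g (base n)))| ≤ ε
    rw [hF]
    simp only
    have := abs_sub_le (1 / N * Real.log (Real.exp (N * lav θ y₁ (act g (base n))) +
      Real.exp (N * lav θ y₂ (act g (base n)))))
      (max (lav θ y₁ (act g (base n))) (lav θ y₂ (act g (base n))))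
      (max (y₁ (act g (base n))) (y₂ (act g (base n))))
    linarith

end Pool.Agent.Lib.MP_5d4057_al.IN.D
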