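import Pool.Agent.Lib.MP_5d4057_al.IN.DCrsC
import Pool.Agent.Lib.MP_5d4057_al.IN.DGlu
import Pool.Agent.Lib.MP_5d4057_al.IN.DCrPB
import Pool.Agent.Lib.MP_5d4057_al.IN.DFrmB
import Pool.Agent.Lib.MP_5d4057_al.IN.DHarC
import Pool.Agent.Lib.MP_5d4057_al.IN.DMolB

/-! INT, part D, file DInd: the main induction. -/

set_option autoImplicit false

namespace Pool.Agent.Lib.MP_5d4057_al.IN.D

open Matrix MeasureTheory Filter Topology Pool.Agent.Lib.MP_5d4057_al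
  Pool.Agent.Lib.MP_5d4057_al.Hyb Pool.Agent.Lib.MP_5d4057_al.HM

open scoped ComplexOrder MatrixOrder Matrix.Norms.L2Operator ENNReal

variable {n : ℕ}

private theorem inc_of_good {r : ℕ} {U : Set (Vec n)} {φ : Vec n → Vec n → ℝ}
    {S : Set (Vec n → ℝ)} (h : Good r U φ S) {y : Vec n → ℝ} (hy : y ∈ S) :
    Inc (orb U) (qf φ) (onG y) := by
  intro g₀ hg₀ c ε hε
  obtain ⟨δ, hδ, hev⟩ := h.inc c hg₀ hε
  have hU := h.basic.isOpen
  have hcont : ContinuousAt (fun p : SUGroup n × ℝ => p.1 * ba c p.2) (g₀, 0) :=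
    (continuous_fst.mul ((continuous_ba c).comp continuous_snd)).continuousAt
  have hmem : orb U ∈ 𝓝 ((fun p : SUGroup n × ℝ => p.1 * ba c p.2) (g₀, 0)) := by
    refine (isOpen_orb hU).mem_nhds ?_
    show g₀ * ba c 0 ∈ orb U
    rw [ba_zero, mul_one]
    exact hg₀
  have h1 := hcont hmem
  rw [mem_map, nhds_prod_eq] at h1
  obtain ⟨A, hA, B, hB, hAB⟩ := Filter.mem_prod_iff.1 h1
  obtain ⟨δ', hδ', hB'⟩ := Metric.mem_nhds_iff.1 hB
  refine ⟨min δ δ', lt_min hδ hδ', ?_⟩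
  filter_upwards [hev, hA, (isOpen_orb hU).mem_nhds hg₀] with g h2 h3 h4 t ht
  have h5 : g * ba c t ∈ orb U := by
    have h6 : (g, t) ∈ A ×ˢ B := by
      refine ⟨h3, hB' ?_⟩
      rw [Metric.mem_ball, dist_zero_right, Real.norm_eq_abs]
      exact ht.trans_le (min_le_right _ _)
    have h7 := Set.mem_preimage.1 (hAB h6)
    exact h7
  have h7 := h.basic.lip y hy (act g (base n)) h4 (act (g * ba c t) (base n)) h5
  have h8 := h2 t (ht.trans_le (min_le_left _ _))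
  exact le_trans h7 h8

/-- The crossing data. -/
private theorem crs_of_good {r : ℕ} {U : Set (Vec n)} {φ : Vec n → Vec n → ℝ}
    {S : Set (Vec n → ℝ)} (h : Good r U φ S) {G : Ix n → Ix n → Ix n → SUGroup n → ℝ}
    (hG : Dat (Ps (orb U) (tr (qf φ))) (qf φ) G) : Crs (orb U) (qf φ) G where
  isOpen := isOpen_orb h.basic.isOpen
  cont := fun a b => h.continuousOn a b
  symm := fun a b _ hg => h.qf_symm a b hg
  dom := fun a b _ hg => h.qf_dom a b hg
  dat := hG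

private theorem tr_cont {r : ℕ} {U : Set (Vec n)} {φ : Vec n → Vec n → ℝ}
    {S : Set (Vec n → ℝ)} (h : Good r U φ S) : ContinuousOn (tr (qf φ)) (orb U) := by
  unfold tr
  exact continuousOn_finsetSum _ fun a _ => h.continuousOn a a

/-- **Main induction** (text D5). PROOF: induction on `r`; `O = orb U`, `T = tr (qf φ)`.
`r = 0`: `T = 0` on `O` (`tr_zero_of_slope`), so `qf φ = 0` (`qf_dom`) and `Dat.zero'`; `pw_cross` (`Good.inc`,
`Basic.lip`; `Ps O T` is empty).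
`r + 1`: every point of `Ps O T` is not of zero slope, so it has `U'` with a splitting; on `orb U'` data for
`φ₁`, `φ₂` (induction) and `qh b` (`dat_one`), `Dat.add`, `Dat.smul`, `Dat.congr` (`qf_split`), `Dat.glue` on
`Ps O T`, then `Crs.dat'`. Plurisubharmonicity: if `Siu = 0` on `Tst (orb U)` then on `Tst (orb U')` the sum
of three nonnegative terms (`p3`) is `0`, so each is; induction, `pw_one` for `b`, `PW.add`, `pw_max`,
`PW.congr` give `PW (orb U') (onG y)`; `PW.loc` on `Ps O T`; `pw_cross`. -/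
theorem main (r : ℕ) : ∀ (U : Set (Vec n)) (φ : Vec n → Vec n → ℝ) (S : Set (Vec n → ℝ)),
    Good r U φ S → (∃ G, Dat (orb U) (qf φ) G) ∧
      ((∀ Φ, Tst (orb U) Φ → Siu (qf φ) Φ = 0) → ∀ y ∈ S, PW (orb U) (onG y)) := by
  induction r with
  | zero =>
    intro U φ S h
    have hz : ∀ g ∈ orb U, tr (qf φ) g = 0 := fun g hg => tr_zero_of_slope h hg (h.2 _ hg)
    have hq : ∀ a b, ∀ g ∈ orb U, qf φ a b g = 0 := fun a b g hg => by
      have h1 := h.qf_dom a b hg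
      rw [hz g hg] at h1
      exact abs_nonpos_iff.1 h1
    have hD : Dat (orb U) (qf φ) (fun _ _ _ _ => 0) := Dat.zero' hq
    refine ⟨⟨_, hD⟩, fun _ y hy => ?_⟩
    refine pw_cross (isOpen_orb h.basic.isOpen) hD ((h.basic.fn y hy).continuous_onG.continuousOn)
      (inc_of_good h hy) ?_
    intro Φ hΦ j
    have h1 : ∀ g : SUGroup n, g.toMatrix ∉ tsupport Φ := by
      intro g hg
      have h2 := hΦ.sub g hg
      have h3 : 0 < tr (qf φ) g := h2.2
      rw [hz g h2.1] at h3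
      exact lt_irrefl _ h3
    refine integral_nonneg fun g => ?_
    have h4 : ∀ X Y : Mat (n + 1), dX X (dX Y Φ) g.toMatrix = 0 := by
      intro X Y
      have h6 : Φ =ᶠ[𝓝 g.toMatrix] fun _ => 0 := notMem_tsupport_iff_eventuallyEq.1 (h1 g)
      have h7 := dX_congr (X := X) (dX_congr (X := Y) h6)
      have h8 : dX Y (fun _ : Mat (n + 1) => (0 : ℝ)) = fun _ => 0 := by
        funext M
        simp [IN.D.dX]
      rw [h7.eq_of_nhds, h8]
      simp [IN.D.dX]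
    show 0 ≤ onG y g * (dX (Xa (j, false)) (dX (Xa (j, false)) Φ) g.toMatrix +
      dX (Xa (j, true)) (dX (Xa (j, true)) Φ) g.toMatrix)
    rw [h4, h4, add_zero, mul_zero]
  | succ r ih =>
    intro U φ S h
    have hO : IsOpen (orb U) := isOpen_orb h.basic.isOpen
    have hT := tr_cont h
    have hPs : IsOpen (Ps (orb U) (tr (qf φ))) := isOpen_Ps hO hT
    -- the local splittings
    have hsp : ∀ g ∈ Ps (orb U) (tr (qf φ)), ∃ (U' : Set (Vec n)) (φ₁ φ₂ : Vec n → Vec n → ℝ)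
        (S₁ S₂ : Set (Vec n → ℝ)) (b : Vec n → ℝ) (c t : ℝ), g ∈ orb U' ∧ U' ⊆ U ∧
          Good r U' φ₁ S₁ ∧ Good r U' φ₂ S₂ ∧ Split U' φ φ₁ φ₂ S S₁ S₂ b c t := by
      rintro g ⟨hg, hgT⟩
      rcases h.2 _ hg with h0 | ⟨U', φ₁, φ₂, S₁, S₂, b, c, t, h1, h2, h3, h4, h5, -⟩
      · have h1 := tr_zero_of_slope h hg h0
        rw [Set.mem_ofPred_eq, h1] at hgT
        exact absurd hgT (lt_irrefl _)
      · exact ⟨U', φ₁, φ₂, S₁, S₂, b, c, t, h1, h2, h3, h4, h5⟩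
    have hrm : ∀ {U' : Set (Vec n)} {φ₁ φ₂ : Vec n → Vec n → ℝ}
        {S₁ S₂ : Set (Vec n → ℝ)} {b : Vec n → ℝ} {c t : ℝ}, Good r U' φ₁ S₁ →
          Split U' φ φ₁ φ₂ S S₁ S₂ b c t → Hrm U' b := fun h1 h2 =>
      ⟨h1.basic.isOpen, h1.basic.sub, h2.fn.hom, h2.smooth, h2.harm⟩
    have hloc : ∀ g ∈ Ps (orb U) (tr (qf φ)), ∃ (V : Set (SUGroup n))
        (G : Ix n → Ix n → Ix n → SUGroup n → ℝ), IsOpen V ∧ g ∈ V ∧
          Dat (Ps (orb U) (tr (qf φ)) ∩ V) (qf φ) G := by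
      intro g hg
      obtain ⟨U', φ₁, φ₂, S₁, S₂, b, c, t, h1, h2, h3, h4, h5⟩ := hsp g hg
      obtain ⟨⟨G₁, hG₁⟩, -⟩ := ih U' φ₁ S₁ h3
      obtain ⟨⟨G₂, hG₂⟩, -⟩ := ih U' φ₂ S₂ h4
      have hO' : IsOpen (orb U') := isOpen_orb h3.basic.isOpen
      have hb := dat_one (hrm h3 h5)
      have h6 := Dat.add hO' (Dat.add hO' hG₁ hG₂) (hb.smul h5.pos.le hO')
      have h7 := h6.congr (q₂ := qf φ) hO' fun a b' g' hg' => (qf_split h3 h4 h5 a b' hg').symm
      exact ⟨orb U', _, hO', h1, h7.mono Set.inter_subset_right⟩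
    obtain ⟨G, hG⟩ := Dat.glue hPs hloc
    have hC := crs_of_good h hG
    have hD := hC.dat'
    refine ⟨⟨_, hD⟩, fun h0 y hy => ?_⟩
    have hyF := h.basic.fn y hy
    refine pw_cross hO hD hyF.continuous_onG.continuousOn (inc_of_good h hy) ?_
    refine PW.loc hPs hyF.continuous_onG.continuousOn fun g hg => ?_
    obtain ⟨U', φ₁, φ₂, S₁, S₂, b, c, t, h1, h2, h3, h4, h5⟩ := hsp g hg
    obtain ⟨⟨G₁, hG₁⟩, hp₁⟩ := ih U' φ₁ S₁ h3
    obtain ⟨⟨G₂, hG₂⟩, hp₂⟩ := ih U' φ₂ S₂ h4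
    have hO' : IsOpen (orb U') := isOpen_orb h3.basic.isOpen
    have hH := hrm h3 h5
    have hb := dat_one hH
    have hsub : orb U' ⊆ orb U := fun g' hg' => h2 hg'
    have hsum : ∀ Φ, Tst (orb U') Φ → Siu (qf φ₁) Φ + Siu (qf φ₂) Φ + c * Siu (qh b) Φ = 0 := by
      intro Φ hΦ
      rw [← Siu_smul_left, ← Siu_add_left hO' (fun a b' => h3.continuousOn a b')
        (fun a b' => h4.continuousOn a b') hΦ.toCs,
        ← Siu_add_left (q₁ := fun a b' g => qf φ₁ a b' g + qf φ₂ a b' g)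
          (q₂ := fun a b' g => c * qh b a b' g) hO'
          (fun a b' => (h3.continuousOn a b').add (h4.continuousOn a b'))
          (fun a b' => (hb.grad a b').cont.const_smul c) hΦ.toCs,
        ← Siu_congr hΦ.toCs (fun a b' g' hg' => qf_split h3 h4 h5 a b' hg')]
      exact h0 Φ (hΦ.mono hsub)
    have hz : ∀ Φ, Tst (orb U') Φ → Siu (qf φ₁) Φ = 0 ∧ Siu (qf φ₂) Φ = 0 ∧ Siu (qh b) Φ = 0 := by
      intro Φ hΦ
      have e := hsum Φ hΦ
      have e1 := hG₁.p3 Φ hΦ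
      have e2 := hG₂.p3 Φ hΦ
      have e3 := hb.p3 Φ hΦ
      have e4 := mul_nonneg h5.pos.le e3
      refine ⟨by linarith, by linarith, ?_⟩
      have e5 : c * Siu (qh b) Φ = 0 := by linarith
      exact (mul_eq_zero.1 e5).resolve_left h5.pos.ne'
    have hP₁ : ∀ y₁ ∈ S₁, PW (orb U') (onG y₁) := hp₁ fun Φ hΦ => (hz Φ hΦ).1
    have hP₂ : ∀ y₂ ∈ S₂, PW (orb U') (onG y₂) := hp₂ fun Φ hΦ => (hz Φ hΦ).2.1
    have hPb : ∀ s : ℝ, PW (orb U') (fun g => s * onG b g) :=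
      fun s => pw_one hH (fun Φ hΦ => (hz Φ hΦ).2.2) s
    have hadd : ∀ (z : Vec n → ℝ) (s : ℝ), Fn z → PW (orb U') (onG z) →
        PW (orb U') (onG fun v => z v + s * b v) := by
      intro z s hz hzP
      exact PW.add hO' hz.continuous_onG.continuousOn
        (h5.fn.continuous_onG.continuousOn.const_smul s) hzP (hPb s)
    refine ⟨orb U', hO', h1, ?_⟩
    refine PW.mono (O := orb U') ?_ Set.inter_subset_right
    rcases h5.mem y hy with ⟨y₁, hy₁, y₂, hy₂, e⟩ | ⟨y₁, hy₁, e⟩ | ⟨y₂, hy₂, e⟩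
    · have k₁ := h3.basic.fn y₁ hy₁
      have k₂ := h4.basic.fn y₂ hy₂
      have k := pw_max hO' (k₁.add_smul h5.fn t) (k₂.add_smul h5.fn (-(1 - t)))
        (hadd y₁ t k₁ (hP₁ y₁ hy₁)) (hadd y₂ (-(1 - t)) k₂ (hP₂ y₂ hy₂))
      refine k.congr fun g' hg' => ?_
      show max _ _ = y (act g' (base n))
      rw [e _ hg']
      congr 1
      ring
    · have k₁ := h3.basic.fn y₁ hy₁
      refine (hadd y₁ t k₁ (hP₁ y₁ hy₁)).congr fun g' hg' => ?_
      exact (e _ hg').symm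
    · have k₂ := h4.basic.fn y₂ hy₂
      refine (hadd y₂ (-(1 - t)) k₂ (hP₂ y₂ hy₂)).congr fun g' hg' => ?_
      show y₂ (act g' (base n)) + -(1 - t) * b (act g' (base n)) = y (act g' (base n))
      rw [e _ hg']
      ring

end Pool.Agent.Lib.MP_5d4057_al.IN.D
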