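import Pool.Agent.Lib.MP_5d4057_al.IN.DPW
import Pool.Agent.Lib.MP_5d4057_al.HM.Lav

/-! INT, part D, file DMol: left mollification of plurisubharmonic functions; maxima. -/

set_option autoImplicit false

namespace Pool.Agent.Lib.MP_5d4057_al.IN.D

open Matrix MeasureTheory Filter Topology Pool.Agent.Lib.MP_5d4057_al
  Pool.Agent.Lib.MP_5d4057_al.Hyb Pool.Agent.Lib.MP_5d4057_al.HM

open scoped ComplexOrder MatrixOrder Matrix.Norms.L2Operator ENNReal

variable {n : ℕ} {O : Set (SUGroup n)} {y y₁ y₂ : Vec n → ℝ}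

theorem Fn.continuous_onG (h : Fn y) : Continuous (onG y) := by
  have h1 : Continuous fun g : SUGroup n => y (act g (base n)) :=
    h.cont.comp_continuous continuous_orbit orbit_mem
  exact h1

private theorem mol_adm (h : Fn y) : ∃ (N : ℕ) (C : ℝ), 0 ≤ C ∧
    ∀ N', N ≤ N' → ∀ g : SUGroup n, |y (act g (base n))| ≤ C * ch g ^ (2 * N') := by
  obtain ⟨N, C, hA⟩ := h.adm
  have hC : 0 ≤ C := by
    have h1 := (norm_nonneg _).trans (hA.bound 1)
    rwa [ch_one, one_pow, mul_one] at h1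
  refine ⟨N, C, hC, fun N' hN g => ?_⟩
  have h1 := hA.bound g
  rw [Real.norm_eq_abs] at h1
  have h2 : ch g ^ (2 * N) ≤ ch g ^ (2 * N') :=
    pow_le_pow_right₀ (one_le_ch g) (by omega)
  exact h1.trans (mul_le_mul_of_nonneg_left h2 hC)

theorem Fn.add_smul (h₁ : Fn y₁) (h₂ : Fn y₂) (t : ℝ) : Fn fun v => y₁ v + t * y₂ v := by
  obtain ⟨N₁, C₁, hC₁, hb₁⟩ := mol_adm h₁
  obtain ⟨N₂, C₂, hC₂, hb₂⟩ := mol_adm h₂
  refine ⟨fun c hc v hv => ?_, h₁.cont.add (continuousOn_const.mul h₂.cont),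
    Max.max N₁ N₂, C₁ + |t| * C₂, ?_, fun g => ?_⟩
  · show y₁ (c • v) + t * y₂ (c • v) = y₁ v + t * y₂ v
    rw [h₁.hom c hc v hv, h₂.hom c hc v hv]
  · have h3 : Continuous fun g : SUGroup n => onG y₁ g + t * onG y₂ g :=
      h₁.continuous_onG.add (continuous_const.mul h₂.continuous_onG)
    exact h3.aestronglyMeasurable
  · have e1 := hb₁ _ (le_max_left N₁ N₂) g
    have e2 := hb₂ _ (le_max_right N₁ N₂) g
    rw [Real.norm_eq_abs]
    have e3 := abs_add_le (y₁ (act g (base n))) (t * y₂ (act g (base n)))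
    rw [abs_mul] at e3
    have e4 := mul_le_mul_of_nonneg_left e2 (abs_nonneg t)
    have e5 : (C₁ + |t| * C₂) * ch g ^ (2 * Max.max N₁ N₂) = C₁ * ch g ^ (2 * Max.max N₁ N₂) +
      |t| * (C₂ * ch g ^ (2 * Max.max N₁ N₂)) := by ring
    rw [e5]
    linarith

theorem Fn.max (h₁ : Fn y₁) (h₂ : Fn y₂) : Fn fun v => max (y₁ v) (y₂ v) := by
  obtain ⟨N₁, C₁, hC₁, hb₁⟩ := mol_adm h₁
  obtain ⟨N₂, C₂, hC₂, hb₂⟩ := mol_adm h₂
  refine ⟨fun c hc v hv => ?_, ContinuousOn.sup h₁.cont h₂.cont,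
    Max.max N₁ N₂, C₁ + C₂, ?_, fun g => ?_⟩
  · show Max.max (y₁ (c • v)) (y₂ (c • v)) = Max.max (y₁ v) (y₂ v)
    rw [h₁.hom c hc v hv, h₂.hom c hc v hv]
  · have h3 : Continuous fun g : SUGroup n => Max.max (onG y₁ g) (onG y₂ g) :=
      h₁.continuous_onG.max h₂.continuous_onG
    exact h3.aestronglyMeasurable
  · have e1 := hb₁ _ (le_max_left N₁ N₂) g
    have e2 := hb₂ _ (le_max_right N₁ N₂) g
    rw [Real.norm_eq_abs]
    have e3 : |Max.max (y₁ (act g (base n))) (y₂ (act g (base n)))| ≤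
        |y₁ (act g (base n))| + |y₂ (act g (base n))| := by
      rcases max_cases (y₁ (act g (base n))) (y₂ (act g (base n))) with h | h
      · rw [h.1]
        linarith [abs_nonneg (y₂ (act g (base n)))]
      · rw [h.1]
        linarith [abs_nonneg (y₁ (act g (base n)))]
    have e5 : (C₁ + C₂) * ch g ^ (2 * Max.max N₁ N₂) = C₁ * ch g ^ (2 * Max.max N₁ N₂) +
      C₂ * ch g ^ (2 * Max.max N₁ N₂) := by ring
    rw [e5]
    linarith

/-- The Levi form of `f` at `g e_n` in the direction `g e_j` (times `4`). -/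
noncomputable def lvi (f : Vec n → ℝ) (j : Fin n) (g : SUGroup n) : ℝ :=
  hh f (j, false) (j, false) g + hh f (j, true) (j, true) g

private theorem mol_cont {u : SUGroup n → ℝ} (hu : Continuous u) {Φ : Mat (n + 1) → ℝ}
    (hΦ : Cs Set.univ Φ) (a : SUGroup n) :
    Continuous fun b : SUGroup n => u b * Φ (b * a).toMatrix :=
  hu.mul (hΦ.smooth.continuous.comp ((continuous_toMatrix n).comp (continuous_mul_const a)))

private theorem mol_int {u : SUGroup n → ℝ} (hu : Continuous u) {Φ : Mat (n + 1) → ℝ}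
    (hΦ : Cs Set.univ Φ) (a : SUGroup n) :
    Integrable (fun b : SUGroup n => u b * Φ (b * a).toMatrix) (mu n) := by
  refine (mol_cont hu hΦ a).integrable_of_hasCompactSupport ?_
  have h1 : HasCompactSupport fun b : SUGroup n => Φ (b * a).toMatrix :=
    (hΦ.supp.comp_isClosedEmbedding (isClosedEmbedding_toMatrix n)).comp_homeomorph
      (Homeomorph.mulRight a)
  exact h1.mul_left

/-- Differentiation under the integral. -/
private theorem mol_deriv {u : SUGroup n → ℝ} (hu : Continuous u) {Φ : Mat (n + 1) → ℝ}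
    (hΦ : Cs Set.univ Φ) (c : Ix n) (t₀ : ℝ) :
    HasDerivAt (fun t : ℝ => ∫ b : SUGroup n, u b * Φ (b * ba c (-t)).toMatrix ∂(mu n))
      (-∫ b : SUGroup n, u b * dX (Xa c) Φ (b * ba c (-t₀)).toMatrix ∂(mu n)) t₀ := by
  have hd := hΦ.dX (Xa c)
  obtain ⟨C, hC⟩ := hd.smooth.continuous.bounded_above_of_compact_support hd.supp
  obtain ⟨K₀, hK₀⟩ : ∃ K₀ : Set (SUGroup n), K₀ = {g | g.toMatrix ∈ tsupport (dX (Xa c) Φ)} :=
    ⟨_, rfl⟩
  have hK₀c : IsCompact K₀ := by
    rw [hK₀]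
    exact hd.compact
  obtain ⟨K, hK⟩ : ∃ K : Set (SUGroup n), K = (fun p : SUGroup n × ℝ => p.1 * ba c p.2) ''
    (K₀ ×ˢ Set.Icc (t₀ - 1) (t₀ + 1)) := ⟨_, rfl⟩
  have hKc : IsCompact K := by
    rw [hK]
    exact (hK₀c.prod isCompact_Icc).image
      (continuous_fst.mul ((continuous_ba c).comp continuous_snd))
  have hout : ∀ t ∈ Set.Icc (t₀ - 1) (t₀ + 1), ∀ b, b ∉ K →
      dX (Xa c) Φ (b * ba c (-t)).toMatrix = 0 := by
    intro t ht b hb
    refine image_eq_zero_of_notMem_tsupport fun h => hb ?_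
    rw [hK]
    refine ⟨(b * ba c (-t), t), ⟨?_, ht⟩, ?_⟩
    · rw [hK₀]
      exact h
    · show b * ba c (-t) * ba c t = b
      rw [mul_assoc, ← ba_add, neg_add_cancel, ba_zero, mul_one]
  have hs : Set.Icc (t₀ - 1) (t₀ + 1) ∈ 𝓝 t₀ := Icc_mem_nhds (by linarith) (by linarith)
  have key := hasDerivAt_integral_of_dominated_loc_of_deriv_le (μ := mu n) (x₀ := t₀)
    (F := fun (t : ℝ) (b : SUGroup n) => u b * Φ (b * ba c (-t)).toMatrix)
    (F' := fun (t : ℝ) (b : SUGroup n) => u b * -dX (Xa c) Φ (b * ba c (-t)).toMatrix)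
    (bound := K.indicator fun b => ‖u b‖ * C) hs
    (Eventually.of_forall fun t => (mol_cont hu hΦ _).aestronglyMeasurable)
    (mol_int hu hΦ _)
    (by
      have h1 := (mol_cont hu hd (ba c (-t₀))).neg
      have h2 : (fun b : SUGroup n => -(u b * dX (Xa c) Φ (b * ba c (-t₀)).toMatrix)) =
          fun b : SUGroup n => u b * -dX (Xa c) Φ (b * ba c (-t₀)).toMatrix := by
        funext b
        ring
      have h3 : Continuous fun b : SUGroup n =>
          u b * -dX (Xa c) Φ (b * ba c (-t₀)).toMatrix := by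
        rw [← h2]
        exact h1
      exact h3.aestronglyMeasurable)
    (Eventually.of_forall fun b t ht => by
      by_cases hb : b ∈ K
      · rw [Set.indicator_of_mem hb, norm_mul, norm_neg]
        exact mul_le_mul_of_nonneg_left (hC _) (norm_nonneg _)
      · rw [Set.indicator_of_notMem hb, hout t ht b hb, neg_zero, mul_zero, norm_zero])
    (by
      refine IntegrableOn.integrable_indicator ?_ hKc.isClosed.measurableSet
      exact (hu.norm.mul continuous_const).continuousOn.integrableOn_compact hKc)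
    (Eventually.of_forall fun b t _ => by
      have h1 := hasDerivAt_dX hΦ.smooth c b (-t)
      have h2 : HasDerivAt (fun t : ℝ => Φ (b * ba c (-t)).toMatrix)
          (dX (Xa c) Φ (b * ba c (-t)).toMatrix * -1) t :=
        h1.comp t (hasDerivAt_neg t)
      have h3 := h2.const_mul (u b)
      rw [mul_neg_one] at h3
      exact h3)
  have h4 := key.2
  have h5 : ∫ b : SUGroup n, u b * -dX (Xa c) Φ (b * ba c (-t₀)).toMatrix ∂(mu n) =
      -∫ b : SUGroup n, u b * dX (Xa c) Φ (b * ba c (-t₀)).toMatrix ∂(mu n) := by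
    rw [← integral_neg]
    refine integral_congr_ae (Eventually.of_forall fun b => ?_)
    show u b * -dX (Xa c) Φ (b * ba c (-t₀)).toMatrix =
      -(u b * dX (Xa c) Φ (b * ba c (-t₀)).toMatrix)
    ring
  rw [h5] at h4
  exact h4

/-- The derivatives of the mollification: with `Ψ M = θ (M g⁻¹)`,
`X_c X_c (lav θ y)(g) = ∫ y(b e_n) (dX dX Ψ)(b) db`. PROOF: `lav θ y (g b_c(t) e_n) =
∫ θ(b b_c(-t) g⁻¹) y(b e_n) db` (`lav_eq`, right invariance), differentiate twice under the integral;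
on the other side `HM.hasDerivAt_flow`, `HM.hasDerivAt_flow_two` (`lav θ y` is smooth and homogeneous). -/
theorem hh_lav (hy : Fn y) {θ : Mat (n + 1) → ℝ} (hθ : Test n θ) (g : SUGroup n) (c : Ix n) :
    hh (lav θ y) c c g = ∫ b : SUGroup n, onG y b *
      dX (Xa c) (dX (Xa c) fun M => θ (M * (g⁻¹).toMatrix)) b.toMatrix ∂(mu n) := by
  obtain ⟨N, C, hA⟩ := hy.adm
  have hu := hy.continuous_onG
  have hθ' : Cs Set.univ θ := ⟨hθ.smooth, hθ.supp, fun _ _ => Set.mem_univ _⟩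
  obtain ⟨Ψ, hΨ⟩ : ∃ Ψ : Mat (n + 1) → ℝ, Ψ = fun M => θ (M * (g⁻¹).toMatrix) := ⟨_, rfl⟩
  have hΨc : Cs Set.univ Ψ := by
    rw [hΨ]
    exact hθ'.right g⁻¹
  rw [← hΨ]
  have hbd : ∀ t, HasDerivAt (fun t => (ba c t).toMatrix) ((ba c t).toMatrix * xmat (xi c)) t :=
    fun t => Kak.hasDerivAt_flow (xi_norm c) t
  have hcd : ContDiffOn ℝ (⊤ : ℕ∞) (lav θ y) (Cone n) := lav_contDiffOn hθ hA
  have hca : ∀ a : SUGroup n, ContDiffAt ℝ 2 (lav θ y) (act a (base n)) := fun a =>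
    (hcd.contDiffAt ((isOpen_cone n).mem_nhds (orbit_mem a))).of_le (WithTop.coe_le_coe.2 le_top)
  -- the function along the flow
  have hF : ∀ t : ℝ, lav θ y (act (g * ba c t) (base n)) =
      ∫ b : SUGroup n, onG y b * Ψ (b * ba c (-t)).toMatrix ∂(mu n) := by
    intro t
    have h1 : (ba c t)⁻¹ = ba c (-t) := by
      refine inv_eq_of_mul_eq_one_right ?_
      rw [← ba_add, add_neg_cancel, ba_zero]
    rw [lav_eq hy.hom (orbit_mem _), ← Lv.int_sec hy.hom (one_ne_zero : (1 : ℂ) ≠ 0)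
      (σ := g * ba c t) (by rw [one_smul])]
    refine integral_congr_ae (Eventually.of_forall fun b => ?_)
    show θ ((b * (g * ba c t)⁻¹).toMatrix) • y (act b (base n)) =
      y (act b (base n)) * Ψ (b * ba c (-t)).toMatrix
    rw [smul_eq_mul, mul_comm, hΨ, _root_.mul_inv_rev, h1, ← mul_assoc, toMatrix_mul]
  have hF1 : ∀ t : ℝ, fderiv ℝ (lav θ y) (act (g * ba c t) (base n))
      (act (g * ba c t) (vec (xi c))) =
      -∫ b : SUGroup n, onG y b * dX (Xa c) Ψ (b * ba c (-t)).toMatrix ∂(mu n) := by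
    intro t
    have h1 := HM.hasDerivAt_flow hbd g t ((hca (g * ba c t)).differentiableAt (by norm_num))
    simp only [hF] at h1
    exact h1.unique (mol_deriv hu hΨc c t)
  have h2 := HM.hasDerivAt_flow_two (lav_homog θ y) (xi_norm c) hbd g 0 (hca (g * ba c 0))
  simp only [hF1] at h2
  have h3 := (mol_deriv hu (hΨc.dX (Xa c)) c 0).neg
  have h4 := h2.unique h3
  rw [ba_zero, mul_one, neg_neg, neg_zero, ba_zero] at h4
  rw [hh, h4]
  refine integral_congr_ae (Eventually.of_forall fun b => ?_)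
  show onG y b * dX (Xa c) (dX (Xa c) Ψ) (b * 1).toMatrix = _
  rw [mul_one]

/-- Mollification of plurisubharmonic functions. PROOF: `hh_lav` and `PW` for the test function
`M ↦ θ (M g⁻¹)` (`Tst`, with support in `O`). -/
theorem pw_lav (hy : Fn y) {θ : Mat (n + 1) → ℝ} (hθ : Test n θ) {g : SUGroup n}
    (hg : ∀ b : SUGroup n, (b * g⁻¹).toMatrix ∈ tsupport θ → b ∈ O) (h : PW O (onG y))
    (j : Fin n) : 0 ≤ lvi (lav θ y) j g := by
  have hu := hy.continuous_onG
  have hθ' : Cs Set.univ θ := ⟨hθ.smooth, hθ.supp, fun _ _ => Set.mem_univ _⟩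
  obtain ⟨Ψ, hΨ⟩ : ∃ Ψ : Mat (n + 1) → ℝ, Ψ = fun M => θ (M * (g⁻¹).toMatrix) := ⟨_, rfl⟩
  have hΨc : Cs Set.univ Ψ := by
    rw [hΨ]
    exact hθ'.right g⁻¹
  have hΨt : Tst O Ψ := by
    refine ⟨⟨hΨc.smooth, hΨc.supp, fun b hb => hg b ?_⟩, fun b => ?_⟩
    · have hc : Continuous fun M : Mat (n + 1) => M * (g⁻¹).toMatrix :=
        continuous_id.mul continuous_const
      have h1 : tsupport Ψ ⊆ (fun M : Mat (n + 1) => M * (g⁻¹).toMatrix) ⁻¹' tsupport θ := by
        rw [hΨ]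
        exact tsupport_comp_subset_preimage θ hc
      have h2 : b.toMatrix * (g⁻¹).toMatrix ∈ tsupport θ := h1 hb
      rw [toMatrix_mul]
      exact h2
    · rw [hΨ]
      exact hθ.nonneg _
  have hi : ∀ c : Ix n, Integrable (fun b : SUGroup n =>
      onG y b * dX (Xa c) (dX (Xa c) Ψ) b.toMatrix) (mu n) := by
    intro c
    have h1 := mol_int hu ((hΨc.dX (Xa c)).dX (Xa c)) 1
    simp only [mul_one] at h1
    exact h1
  have h1 := h Ψ hΨt j
  rw [lvi, hh_lav hy hθ g (j, false), hh_lav hy hθ g (j, true), ← hΨ,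
    ← integral_add (hi _) (hi _)]
  refine h1.trans_eq (integral_congr_ae (Eventually.of_forall fun b => ?_))
  exact mul_add _ _ _

end Pool.Agent.Lib.MP_5d4057_al.IN.D
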