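import Pool.Agent.Lib.MP_5d4057_al.IN.DBmp
import Pool.Agent.Lib.MP_5d4057_al.IN.DInt

/-! INT, part D, file DPW: vanishing almost everywhere, the class PW. -/

set_option autoImplicit false

namespace Pool.Agent.Lib.MP_5d4057_al.IN.D

open Matrix MeasureTheory Filter Topology Pool.Agent.Lib.MP_5d4057_al
  Pool.Agent.Lib.MP_5d4057_al.Hyb Pool.Agent.Lib.MP_5d4057_al.HM

open scoped ComplexOrder MatrixOrder Matrix.Norms.L2Operator ENNReal

variable {n : ℕ} {O : Set (SUGroup n)} {Φ Ψ : Mat (n + 1) → ℝ}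

/-- PROOF: `IsOpen.ae_eq_zero_of_integral_contDiff_smul_eq_zero` on `Mat (n + 1)` with the measure
`(mu n).map toMatrix`, or bumps and inner regularity. -/
theorem ae_zero (hO : IsOpen O) {F : SUGroup n → ℝ} (hF : LocallyIntegrableOn F O (mu n))
    (h : ∀ Φ, Cs O Φ → ∫ g, F g * Φ g.toMatrix ∂(mu n) = 0) :
    ∀ᵐ g ∂(mu n), g ∈ O → F g = 0 := by
  letI : MeasurableSpace (Mat (n + 1)) := borel _
  haveI : BorelSpace (Mat (n + 1)) := ⟨rfl⟩
  have hj := isClosedEmbedding_toMatrix n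
  have hjm : MeasurableEmbedding (SUGroup.toMatrix : SUGroup n → Mat (n + 1)) :=
    hj.measurableEmbedding
  obtain ⟨V, hV, hVO⟩ := hj.isInducing.isOpen_iff.1 hO
  have hFF : ∀ g, Function.extend (SUGroup.toMatrix : SUGroup n → Mat (n + 1)) F 0 g.toMatrix =
      F g := fun g => hj.injective.extend_apply F 0 g
  have key := hV.ae_eq_zero_of_integral_contDiff_smul_eq_zero
    (μ := (mu n).map (SUGroup.toMatrix : SUGroup n → Mat (n + 1)))
    (f := Function.extend (SUGroup.toMatrix : SUGroup n → Mat (n + 1)) F 0) ?_ ?_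
  · rw [hjm.ae_map_iff] at key
    filter_upwards [key] with g hg hgO
    rw [← hFF]
    exact hg (by rw [← hVO] at hgO; exact hgO)
  · rw [locallyIntegrableOn_iff hV.isLocallyClosed]
    intro K hKV hK
    rw [hjm.integrableOn_map_iff]
    have e : Function.extend (SUGroup.toMatrix : SUGroup n → Mat (n + 1)) F 0 ∘
        SUGroup.toMatrix = F := funext hFF
    rw [e]
    apply hF.integrableOn_compact_subset _ (hj.isCompact_preimage hK)
    intro g hg
    rw [← hVO]
    exact hKV hg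
  · intro Φ h1 h2 h3
    rw [hjm.integral_map]
    have h4 := h Φ ⟨h1, h2, fun g hg => by rw [← hVO]; exact h3 hg⟩
    rw [← h4]
    apply integral_congr_ae
    filter_upwards with g
    rw [hFF, smul_eq_mul, mul_comm]

/-- the operator of the definition of `PW` -/
private noncomputable def h21L (j : Fin n) (Φ : Mat (n + 1) → ℝ) (M : Mat (n + 1)) : ℝ :=
  dX (Xa (j, false)) (dX (Xa (j, false)) Φ) M + dX (Xa (j, true)) (dX (Xa (j, true)) Φ) M

private theorem h21L_cs (h : Cs O Φ) (j : Fin n) : Cs O (h21L j Φ) :=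
  ((h.dX _).dX _).add ((h.dX _).dX _)

private theorem h21L_add (h : Cs O Φ) (h' : Cs O Ψ) (j : Fin n) (M : Mat (n + 1)) :
    h21L j (fun M => Φ M + Ψ M) M = h21L j Φ M + h21L j Ψ M := by
  unfold h21L
  rw [dX_add h.smooth h'.smooth, dX_add h.smooth h'.smooth,
    dX_add (h.dX _).smooth (h'.dX _).smooth, dX_add (h.dX _).smooth (h'.dX _).smooth]
  ring

private theorem h21L_off (h : Cs O Φ) (j : Fin n) {g : SUGroup n} (hg : g ∉ O) :
    h21L j Φ g.toMatrix = 0 :=
  image_eq_zero_of_notMem_tsupport fun h1 => hg ((h21L_cs h j).sub g h1)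

/-- Plurisubharmonicity is local. PROOF: `Tst.loc`. -/
theorem PW.loc (hO : IsOpen O) {y : SUGroup n → ℝ} (hy : ContinuousOn y O)
    (h : ∀ g ∈ O, ∃ V, IsOpen V ∧ g ∈ V ∧ PW (O ∩ V) y) : PW O y := by
  intro Φ hΦ j
  refine Tst.loc (O := O) (fun Φ => ∫ g, y g * h21L j Φ g.toMatrix ∂(mu n)) ?_ ?_ ?_ ?_ Φ hΦ
  · have e : ∀ M : Mat (n + 1), h21L j (fun _ => 0) M = 0 := by
      intro M
      have e1 : ∀ X : Mat (n + 1), dX X (fun _ => (0 : ℝ)) = fun _ => 0 := by
        intro X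
        funext M
        simp [dX]
      unfold h21L
      rw [e1, e1, e1, e1, add_zero]
    simp only [e, mul_zero, integral_zero]
  · intro Φ Ψ h1 h2
    rw [← integral_add ((h21L_cs h1.toCs j).integrable_cont hy hO)
      ((h21L_cs h2.toCs j).integrable_cont hy hO)]
    apply integral_congr_ae
    filter_upwards with g
    rw [h21L_add h1.toCs h2.toCs, mul_add]
  · intro Φ Ψ _ _ he
    apply integral_congr_ae
    filter_upwards with g
    have e1 : ∀ X : Mat (n + 1), dX X (dX X Φ) g.toMatrix = dX X (dX X Ψ) g.toMatrix :=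
      fun X => (dX_congr (dX_congr (he g))).eq_of_nhds
    unfold h21L
    rw [e1, e1]
  · intro g hg
    obtain ⟨V, hV, hgV, hP⟩ := h g hg
    exact ⟨V, hV, hgV, fun Φ hΦ => hP Φ hΦ j⟩

theorem PW.congr {y y' : SUGroup n → ℝ} (h : PW O y) (he : ∀ g ∈ O, y g = y' g) : PW O y' := by
  intro Φ hΦ j
  have h1 := h Φ hΦ j
  refine h1.trans (le_of_eq ?_)
  apply integral_congr_ae
  filter_upwards with g
  by_cases hg : g ∈ O
  · rw [he g hg]
  · have := h21L_off hΦ.toCs j hg
    unfold h21L at this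
    rw [this, mul_zero, mul_zero]

theorem PW.mono {O' : Set (SUGroup n)} {y : SUGroup n → ℝ} (h : PW O y) (hO : O' ⊆ O) : PW O' y :=
  fun Φ hΦ j => h Φ (hΦ.mono hO) j

/-- `y` and `z` continuous on `O`. -/
theorem PW.add (hO : IsOpen O) {y z : SUGroup n → ℝ} (hy : ContinuousOn y O)
    (hz : ContinuousOn z O) (h : PW O y) (h' : PW O z) : PW O (fun g => y g + z g) := by
  intro Φ hΦ j
  have e : ∫ g, (y g + z g) * h21L j Φ g.toMatrix ∂(mu n) =
      ∫ g, y g * h21L j Φ g.toMatrix ∂(mu n) + ∫ g, z g * h21L j Φ g.toMatrix ∂(mu n) := by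
    rw [← integral_add ((h21L_cs hΦ.toCs j).integrable_cont hy hO)
      ((h21L_cs hΦ.toCs j).integrable_cont hz hO)]
    apply integral_congr_ae
    filter_upwards with g
    rw [add_mul]
  change 0 ≤ ∫ g, (y g + z g) * h21L j Φ g.toMatrix ∂(mu n)
  rw [e]
  exact add_nonneg (h Φ hΦ j) (h' Φ hΦ j)

theorem PW.smul {y : SUGroup n → ℝ} {c : ℝ} (hc : 0 ≤ c) (h : PW O y) :
    PW O (fun g => c * y g) := by
  intro Φ hΦ j
  have e : ∫ g, (c * y g) * h21L j Φ g.toMatrix ∂(mu n) =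
      c * ∫ g, y g * h21L j Φ g.toMatrix ∂(mu n) := by
    rw [← integral_const_mul]
    apply integral_congr_ae
    filter_upwards with g
    rw [mul_assoc]
  change 0 ≤ ∫ g, (c * y g) * h21L j Φ g.toMatrix ∂(mu n)
  rw [e]
  exact mul_nonneg hc (h Φ hΦ j)

end Pool.Agent.Lib.MP_5d4057_al.IN.D
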