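import Pool.Agent.Lib.MP_5d4057_al.IN.DMol
import Pool.Agent.Lib.MP_5d4057_al.RC.Max

/-! INT, part D, file DPsh: from the weak notion to plurisubharmonicity on complex lines. -/

set_option autoImplicit false

namespace Pool.Agent.Lib.MP_5d4057_al.IN.D

open Matrix MeasureTheory Filter Topology Pool.Agent.Lib.MP_5d4057_al
  Pool.Agent.Lib.MP_5d4057_al.Hyb Pool.Agent.Lib.MP_5d4057_al.HM

open scoped ComplexOrder MatrixOrder Matrix.Norms.L2Operator ENNReal

variable {n : ℕ} {y : Vec n → ℝ}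

/-- The Levi form at a point `v` of the cone in a direction `η`. -/
noncomputable def lev (f : Vec n → ℝ) (v η : Vec n) : ℝ :=
  fderiv ℝ (fderiv ℝ f) v η η + fderiv ℝ (fderiv ℝ f) v (Complex.I • η) (Complex.I • η)

private theorem psh_two {f : Vec n → ℝ} (hs : ContDiffOn ℝ (⊤ : ℕ∞) f (Cone n)) {v : Vec n}
    (hv : v ∈ Cone n) : ContDiffAt ℝ 2 f v :=
  (hs.of_le (WithTop.coe_le_coe.2 (le_top : (2 : ℕ∞) ≤ ⊤))).contDiffAt ((isOpen_cone n).mem_nhds hv)

private theorem psh_symm {f : Vec n → ℝ} {v : Vec n} (hd : ContDiffAt ℝ 2 f v) (a b : Vec n) :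
    fderiv ℝ (fderiv ℝ f) v a b = fderiv ℝ (fderiv ℝ f) v b a := by
  have h : IsSymmSndFDerivAt ℝ f v := hd.isSymmSndFDerivAt (by simp)
  exact h a b

private theorem psh_mixed {f : Vec n → ℝ} (hf : Homog f) {v : Vec n} (hv : v ∈ Cone n)
    (hd : ContDiffAt ℝ 2 f v) (c : ℂ) (η : Vec n) :
    fderiv ℝ (fderiv ℝ f) v η (c • v) = - fderiv ℝ f v (c • η) := by
  have hev : ∀ᶠ u in 𝓝 v, fderiv ℝ f u (c • u) = 0 := by
    have h1 : ∀ᶠ u in 𝓝 v, ContDiffAt ℝ 2 f u := hd.eventually (by norm_num)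
    have h2 : ∀ᶠ u in 𝓝 v, u ∈ Cone n := (isOpen_cone n).mem_nhds hv
    filter_upwards [h1, h2] with u hu1 hu2
    exact homog_fderiv hf hu2 (hu1.differentiableAt (by norm_num)) c
  have hD : DifferentiableAt ℝ (fderiv ℝ f) v :=
    (hd.fderiv_right (m := 1) (by norm_num)).differentiableAt (by norm_num)
  have hL : HasFDerivAt (fun u : Vec n => c • u)
      (c • ContinuousLinearMap.id ℝ (Vec n)) v := by
    exact (hasFDerivAt_id v).const_smul c
  have h1 : HasFDerivAt (fun u => fderiv ℝ f u (c • u))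
      ((fderiv ℝ f v).comp (c • ContinuousLinearMap.id ℝ (Vec n)) +
        (fderiv ℝ (fderiv ℝ f) v).flip (c • v)) v :=
    hD.hasFDerivAt.clm_apply hL
  have h2 : HasFDerivAt (fun u => fderiv ℝ f u (c • u)) (0 : Vec n →L[ℝ] ℝ) v :=
    (hasFDerivAt_const (0 : ℝ) v).congr_of_eventuallyEq hev
  have h3 := congrArg (fun A : Vec n →L[ℝ] ℝ => A η) (h1.unique h2)
  simp only [_root_.add_apply, ContinuousLinearMap.flip_apply,
    _root_.zero_apply, ContinuousLinearMap.comp_apply] at h3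
  have h4 : (c • ContinuousLinearMap.id ℝ (Vec n)) η = c • η := by simp
  rw [h4] at h3
  linarith

/-- PROOF: `D²f(v)(c v, η) = - Df(v)(c η)` for complex `c` and `D²f(v)(c v, c v) = 0` (homogeneity), so
the mixed terms cancel: `-2 Df(v)(c η) - 2 Df(v)(i c (i η)) = 0`. -/
theorem lev_add {f : Vec n → ℝ} (hf : Homog f) (hs : ContDiffOn ℝ (⊤ : ℕ∞) f (Cone n)) {v : Vec n}
    (hv : v ∈ Cone n) (c : ℂ) (η : Vec n) : lev f v (η + c • v) = lev f v η := by
  have hd := psh_two hs hv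
  have h1 := psh_mixed hf hv hd c η
  have h2 := psh_mixed hf hv hd (Complex.I * c) (Complex.I • η)
  have h3 := psh_symm hd (c • v) η
  have h4 := psh_symm hd ((Complex.I * c) • v) (Complex.I • η)
  have h5 := homog_fderiv_two_aux hf hv hd c
  have h6 := homog_fderiv_two_aux hf hv hd (Complex.I * c)
  have e : (Complex.I * c) • (Complex.I • η) = -(c • η) := by
    rw [smul_smul, mul_right_comm, Complex.I_mul_I, neg_one_mul, neg_smul]
  rw [e, map_neg, neg_neg] at h2
  rw [lev, lev, smul_add, smul_smul]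
  simp only [map_add, _root_.add_apply]
  rw [h3, h4, h1, h2, h5, h6]
  ring

private theorem psh_smul (f : Vec n → ℝ) (v : Vec n) (c : ℂ) (η : Vec n) :
    lev f v (c • η) = ‖c‖ ^ 2 * lev f v η := by
  have e1 : c • η = c.re • η + c.im • (Complex.I • η) := by
    funext i
    apply Complex.ext <;> simp <;> ring
  have e2 : Complex.I • (c • η) = c.re • (Complex.I • η) + (-c.im) • η := by
    funext i
    apply Complex.ext <;> simp <;> ring
  have e3 : ‖c‖ ^ 2 = c.re ^ 2 + c.im ^ 2 := by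
    rw [← Complex.normSq_eq_norm_sq, Complex.normSq_apply]
    ring
  rw [lev, e2, e1, lev, e3]
  simp only [map_add, map_smul, _root_.add_apply, _root_.smul_apply, smul_eq_mul]
  ring

private theorem psh_scale {f : Vec n → ℝ} (hf : Homog f)
    (hs : ContDiffOn ℝ (⊤ : ℕ∞) f (Cone n)) {v : Vec n} (hv : v ∈ Cone n) {s : ℂ} (h0 : s ≠ 0)
    (η : Vec n) : lev f (s • v) (s • η) = lev f v η := by
  have hv' : s • v ∈ Cone n := by
    show q (s • v) < 0
    rw [q_smul]
    have h1 : q v < 0 := hv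
    have h2 : 0 < ‖s‖ := norm_pos_iff.2 h0
    exact mul_neg_of_pos_of_neg (by positivity) h1
  have key : ∀ ξ : Vec n, fderiv ℝ (fderiv ℝ f) (s • v) (s • ξ) (s • ξ) =
      fderiv ℝ (fderiv ℝ f) v ξ ξ := by
    intro ξ
    rw [fderiv_fderiv_line (psh_two hs hv'), fderiv_fderiv_line (psh_two hs hv)]
    have h1 : (fun t : ℝ => f (s • v + t • (s • ξ))) =ᶠ[𝓝 0] fun t : ℝ => f (v + t • ξ) := by
      have h2 : ContinuousAt (fun t : ℝ => v + t • ξ) 0 := by fun_prop
      have h3 : ∀ᶠ t : ℝ in 𝓝 0, v + t • ξ ∈ Cone n := by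
        refine h2.eventually ((isOpen_cone n).mem_nhds ?_)
        simpa using hv
      filter_upwards [h3] with t ht
      have e : s • v + t • (s • ξ) = s • (v + t • ξ) := by rw [smul_add, smul_comm]
      rw [e, hf s h0 _ ht]
    exact h1.deriv.deriv_eq
  rw [lev, lev, key, smul_comm Complex.I s η, key]

private theorem psh_vec_I (j : Fin n) : vec (Pi.single j Complex.I) =
    Complex.I • (vec (Pi.single j 1) : Vec n) := by
  funext i
  refine Fin.lastCases ?_ (fun i => ?_) i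
  · rw [Pi.smul_apply, Kak.vec_last, Kak.vec_last, smul_zero]
  · rw [Pi.smul_apply, Kak.vec_castSucc, Kak.vec_castSucc]
    by_cases h : i = j
    · subst h
      rw [Pi.single_eq_same, Pi.single_eq_same, smul_eq_mul, mul_one]
    · rw [Pi.single_eq_of_ne h, Pi.single_eq_of_ne h, smul_zero]

private theorem psh_lvi (f : Vec n → ℝ) (j : Fin n) (g : SUGroup n) :
    lvi f j g = lev f (act g (base n)) (act g (vec (Pi.single j 1))) := by
  have e1 : xi (j, false) = Pi.single j 1 := rfl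
  have e2 : xi (j, true) = Pi.single j Complex.I := rfl
  rw [lvi, hh, hh, lev, e1, e2, psh_vec_I, act_smul]

/-- pairs of orthogonal vectors -/
private theorem psh_frame (j : Fin n) {v η : Vec n} (hv : v ∈ Cone n) (hη : herm v η = 0)
    (h0 : η ≠ 0) : ∃ (g : SUGroup n) (a b : ℂ), a ≠ 0 ∧ b ≠ 0 ∧ v = a • act g (base n) ∧
      η = b • act g (vec (Pi.single j 1)) := by
  obtain ⟨e, he⟩ : ∃ e : Vec n, e = vec (Pi.single j 1) := ⟨_, rfl⟩
  rw [← he]
  have hbe : herm (base n) e = 0 := by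
    rw [herm_eq, he, Kak.vec_last, mul_zero, sub_zero]
    refine Finset.sum_eq_zero fun i _ => ?_
    rw [Kak.base_castSucc, star_zero, zero_mul]
  have hqe : q e = 1 := by
    rw [q_eq, he, Kak.vec_last, norm_zero, zero_pow two_ne_zero, sub_zero,
      Finset.sum_eq_single j]
    · rw [Kak.vec_castSucc, Pi.single_eq_same, norm_one, one_pow]
    · intro i _ hi
      rw [Kak.vec_castSucc, Pi.single_eq_of_ne hi, norm_zero, zero_pow two_ne_zero]
    · intro h
      exact absurd (Finset.mem_univ j) h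
  obtain ⟨g₀, c, hc0, hvc⟩ := exists_act_eq hv
  obtain ⟨ζ, hζ⟩ : ∃ ζ : Vec n, ζ = act g₀⁻¹ η := ⟨_, rfl⟩
  have hgζ : act g₀ ζ = η := by rw [hζ, ← act_mul, mul_inv_cancel, act_one]
  have hζ0 : ζ ≠ 0 := by
    intro h
    apply h0
    rw [← hgζ, h]
    have h1 := act_smul g₀ 0 (0 : Vec n)
    rwa [zero_smul, zero_smul] at h1
  have hbζ : herm (base n) ζ = 0 := by
    rw [← herm_act g₀, hgζ]
    rw [hvc, herm_smul_left] at hη
    exact (mul_eq_zero.1 hη).resolve_left (star_ne_zero.2 hc0)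
  have hqζ : 0 < q ζ := q_pos_of_orth (base_mem n) hbζ hζ0
  obtain ⟨u, hu1, hu⟩ : ∃ u : ℂ, ‖u‖ = 1 ∧ u * herm e ζ = (‖herm e ζ‖ : ℂ) := by
    by_cases h : herm e ζ = 0
    · exact ⟨1, norm_one, by rw [h]; simp⟩
    · have h1 : ‖herm e ζ‖ ≠ 0 := norm_ne_zero_iff.2 h
      refine ⟨star (herm e ζ) / ‖herm e ζ‖, ?_, ?_⟩
      · rw [norm_div, norm_star, Complex.norm_real, norm_norm, div_self h1]
      · have h2 : ((‖herm e ζ‖ : ℝ) : ℂ) ≠ 0 := by exact_mod_cast h1
        rw [div_mul_eq_mul_div, RCLike.star_def, Complex.conj_mul', sq, mul_div_assoc,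
          div_self h2, mul_one]
  have hsq : 0 < Real.sqrt (q ζ) := Real.sqrt_pos.2 hqζ
  obtain ⟨s, hs⟩ : ∃ s : ℂ, s = (((Real.sqrt (q ζ))⁻¹ : ℝ) : ℂ) * u := ⟨_, rfl⟩
  have hu0 : u ≠ 0 := by
    rintro rfl
    rw [norm_zero] at hu1
    exact zero_ne_one hu1
  have hs0 : s ≠ 0 := by
    rw [hs]
    refine mul_ne_zero ?_ hu0
    exact_mod_cast (inv_pos.2 hsq).ne'
  have hsn : ‖s‖ ^ 2 * q ζ = 1 := by
    rw [hs, norm_mul, hu1, mul_one, Complex.norm_real, Real.norm_of_nonneg (inv_pos.2 hsq).le,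
      inv_pow, Real.sq_sqrt hqζ.le, inv_mul_cancel₀ hqζ.ne']
  obtain ⟨w, hw⟩ : ∃ w : Vec n, w = s • ζ := ⟨_, rfl⟩
  have hqw : q w = 1 := by rw [hw, q_smul, hsn]
  have hbw : herm (base n) w = 0 := by rw [hw, herm_smul_right, hbζ, mul_zero]
  obtain ⟨x, hx⟩ : ∃ x : ℝ, herm e w = (x : ℂ) := by
    refine ⟨(Real.sqrt (q ζ))⁻¹ * ‖herm e ζ‖, ?_⟩
    rw [hw, herm_smul_right, hs, mul_assoc, hu]
    push_cast
    ring
  have hwe : herm w e = (x : ℂ) := by
    rw [herm_comm, hx, RCLike.star_def, Complex.conj_ofReal]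
  have hζw : ζ = s⁻¹ • w := by rw [hw, smul_smul, inv_mul_cancel₀ hs0, one_smul]
  by_cases hew : e = w
  · refine ⟨g₀, c, s⁻¹, hc0, inv_ne_zero hs0, hvc, ?_⟩
    rw [hew, ← act_smul, ← hζw, hgζ]
  obtain ⟨d, hd⟩ : ∃ d : Vec n, d = e - w := ⟨_, rfl⟩
  have hd0 : d ≠ 0 := by rw [hd]; exact sub_ne_zero.2 hew
  have hde : d = e + (-1 : ℂ) • w := by rw [hd]; module
  have hbd : herm (base n) d = 0 := by
    rw [hde, herm_add_right, herm_smul_right, hbe, hbw, mul_zero, add_zero]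
  have hdb : herm d (base n) = 0 := by rw [herm_comm, hbd, star_zero]
  have hqd0 : 0 < q d := q_pos_of_orth (base_mem n) hbd hd0
  have h1 : herm d e = ((1 - x : ℝ) : ℂ) := by
    rw [hde, herm_add_left, herm_smul_left, herm_self, hqe, hwe]
    push_cast
    simp
    ring
  have h2 : herm d w = ((x - 1 : ℝ) : ℂ) := by
    rw [hde, herm_add_left, herm_smul_left, herm_self, hqw, hx]
    push_cast
    simp
    ring
  have hqd : q d = 2 * (1 - x) := by
    have h3 : herm d d = ((2 * (1 - x) : ℝ) : ℂ) := by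
      conv_lhs => rw [hde, herm_add_right, herm_smul_right, ← hde, h1, h2]
      push_cast
      ring
    rw [herm_self] at h3
    exact_mod_cast h3
  have hx1 : (1 - x : ℝ) ≠ 0 := by
    intro h
    rw [hqd, h, mul_zero] at hqd0
    exact lt_irrefl _ hqd0
  have hx1' : ((1 - x : ℝ) : ℂ) ≠ 0 := by exact_mod_cast hx1
  obtain ⟨c', hc'⟩ : ∃ c' : ℂ, c' ^ (n + 1) = -1 := IsAlgClosed.exists_pow_nat_eq _ (Nat.succ_pos n)
  have hc1 : ‖c'‖ = 1 := by
    have h1 := congrArg norm hc'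
    rw [norm_pow, norm_neg, norm_one] at h1
    exact (pow_eq_one_iff_of_nonneg (norm_nonneg c') (Nat.succ_ne_zero n)).1 h1
  have hc'0 : c' ≠ 0 := by
    intro h
    rw [h, norm_zero] at hc1
    exact zero_ne_one hc1
  have hcc : star c' * c' = 1 := by
    rw [RCLike.star_def, Complex.conj_mul', hc1]; simp
  have hdet : (c' • Kak.refl d).det = 1 := by
    rw [det_smul, Kak.det_refl hqd0.ne', Fintype.card_fin, hc']; norm_num
  have hpres : (c' • Kak.refl d)ᴴ * J n * (c' • Kak.refl d) = J n := by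
    apply Kak.pres_of_herm
    intro v w
    rw [smul_mulVec, smul_mulVec, herm_smul_left, herm_smul_right, Kak.herm_refl hqd0.ne',
      ← mul_assoc, hcc, one_mul]
  have e1 : Kak.refl d *ᵥ e = w := by
    rw [Kak.refl_mulVec, h1, hqd]
    have : (2 * ((1 - x : ℝ) : ℂ) / ((2 * (1 - x) : ℝ) : ℂ)) = 1 := by
      rw [Complex.ofReal_mul, Complex.ofReal_ofNat]
      exact div_self (mul_ne_zero two_ne_zero hx1')
    rw [this, one_smul, hd, sub_sub_cancel]
  have e2 : Kak.refl d *ᵥ base n = base n := by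
    rw [Kak.refl_mulVec, hdb, mul_zero, zero_div, zero_smul, sub_zero]
  have k1 : act (ofMatrix (c' • Kak.refl d) hdet hpres) (base n) = c' • base n := by
    rw [act, toMatrix_ofMatrix, smul_mulVec, e2]
  have k2 : act (ofMatrix (c' • Kak.refl d) hdet hpres) e = c' • w := by
    rw [act, toMatrix_ofMatrix, smul_mulVec, e1]
  refine ⟨g₀ * ofMatrix (c' • Kak.refl d) hdet hpres, c * c'⁻¹, s⁻¹ * c'⁻¹,
    mul_ne_zero hc0 (inv_ne_zero hc'0), mul_ne_zero (inv_ne_zero hs0) (inv_ne_zero hc'0), ?_, ?_⟩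
  · rw [act_mul, k1, act_smul, smul_smul, mul_assoc, inv_mul_cancel₀ hc'0, mul_one, hvc]
  · rw [act_mul, k2, act_smul, smul_smul, mul_assoc, inv_mul_cancel₀ hc'0, mul_one, ← act_smul,
      ← hζw, hgζ]

/-- PROOF: `lev f v (c • η) = |c|² lev f v η`; `f(c v) = f(v)` gives `lev f (c • v) (c • η) = lev f v η`.
Every `v` in the cone is `c • g e_n` and, for `η` orthogonal to `v` (`herm v η = 0`), `g` can be chosen with
`g e_1` proportional to `η` (first column; `K` is transitive: complete `v`, `η` to a basis adapted to the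
form, normalise the determinant with a further column, or, if `n = 1`, by a phase); general `η`: `lev_add`
with the component along `v`. -/
theorem lev_nonneg (hn : 1 ≤ n) {f : Vec n → ℝ} (hf : Homog f)
    (hs : ContDiffOn ℝ (⊤ : ℕ∞) f (Cone n)) (h : ∀ j g, 0 ≤ lvi f j g) {v : Vec n}
    (hv : v ∈ Cone n) (η : Vec n) : 0 ≤ lev f v η := by
  have hqv : q v < 0 := hv
  have hqv' : ((q v : ℝ) : ℂ) ≠ 0 := by exact_mod_cast hqv.ne
  obtain ⟨η₀, hη₀⟩ : ∃ η₀ : Vec n, η₀ = η + (-(herm v η / (q v : ℂ))) • v := ⟨_, rfl⟩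
  have h1 : lev f v η = lev f v η₀ := by rw [hη₀, lev_add hf hs hv]
  have h2 : herm v η₀ = 0 := by
    rw [hη₀, herm_add_right, herm_smul_right, herm_self, neg_mul, div_mul_cancel₀ _ hqv',
      add_neg_cancel]
  rw [h1]
  by_cases h0 : η₀ = 0
  · rw [h0, lev, smul_zero, map_zero, add_zero]
  obtain ⟨g, a, b, ha, hb, hva, hηb⟩ := psh_frame (⟨0, hn⟩ : Fin n) hv h2 h0
  have h3 : η₀ = a • ((a⁻¹ * b) • act g (vec (Pi.single (⟨0, hn⟩ : Fin n) 1))) := by
    rw [smul_smul, ← mul_assoc, mul_inv_cancel₀ ha, one_mul, ← hηb]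
  rw [h3, hva, psh_scale hf hs (orbit_mem g) ha, psh_smul, ← psh_lvi]
  exact mul_nonneg (by positivity) (h _ _)

end Pool.Agent.Lib.MP_5d4057_al.IN.D
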