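import Pool.Agent.Lib.MP_5d4057_al.IN.GloN
import Pool.Agent.Lib.MP_5d4057_al.IN.DBmp

/-! INT, part D, file DSmG: smooth functions on the group which are locally restrictions of smooth
functions of matrices. -/

set_option autoImplicit false

namespace Pool.Agent.Lib.MP_5d4057_al.IN.D

open Matrix MeasureTheory Filter Topology Pool.Agent.Lib.MP_5d4057_al
  Pool.Agent.Lib.MP_5d4057_al.Hyb Pool.Agent.Lib.MP_5d4057_al.HM
  Pool.Agent.Lib.MP_5d4057_al.NU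

open scoped ComplexOrder MatrixOrder Matrix.Norms.L2Operator ENNReal

variable {n : ℕ}

/-- Functions on the group which are locally restrictions of smooth functions of matrices. -/
def SmG (φ : SUGroup n → ℝ) : Prop :=
  ∀ g, ∃ Ψ : Mat (n + 1) → ℝ, ContDiff ℝ (⊤ : ℕ∞) Ψ ∧ φ =ᶠ[𝓝 g] fun h => Ψ h.toMatrix

theorem fl_ba : Fl (ba (n := n)) := ⟨ba_zero, continuous_ba⟩

private theorem sm_cont {F : Mat (n + 1) → ℝ} (hF : ContDiff ℝ (⊤ : ℕ∞) F) :
    Continuous fun g : SUGroup n => F g.toMatrix := hF.continuous.comp (continuous_toMatrix n)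

theorem c2_smooth {Ψ : Mat (n + 1) → ℝ} (h : ContDiff ℝ (⊤ : ℕ∞) Ψ) :
    C2 ba (fun g : SUGroup n => Ψ g.toMatrix) ∧
      (∀ c, XD (ba c) (fun g : SUGroup n => Ψ g.toMatrix) = fun g => dX (Xa c) Ψ g.toMatrix) ∧
      ∀ c d, XD (ba d) (XD (ba c) fun g : SUGroup n => Ψ g.toMatrix) =
        fun g => dX (Xa d) (dX (Xa c) Ψ) g.toMatrix := by
  have hd : ∀ {F : Mat (n + 1) → ℝ}, ContDiff ℝ (⊤ : ℕ∞) F → ∀ (c : Ix n) (g : SUGroup n),
      HasDerivAt (fun t => F (g * ba c t).toMatrix) (dX (Xa c) F g.toMatrix) 0 := by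
    intro F hF c g
    have h1 := hasDerivAt_dX hF c g 0
    rwa [ba_zero, mul_one] at h1
  exact C2.of_hasDerivAt (sm_cont h) (fun c g => hd h c g) (fun c => sm_cont (contDiff_dX h))
    (fun c d g => hd (contDiff_dX h) d g) fun c d => sm_cont (contDiff_dX (contDiff_dX h))

theorem SmG.c2 {φ : SUGroup n → ℝ} (h : SmG φ) : C2 ba φ :=
  C2.of_local fl_ba fun g => by
    obtain ⟨Ψ, hΨ, he⟩ := h g
    exact ⟨_, (c2_smooth hΨ).1, he⟩

theorem SmG.of_smooth {Ψ : Mat (n + 1) → ℝ} (h : ContDiff ℝ (⊤ : ℕ∞) Ψ) :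
    SmG (fun g : SUGroup n => Ψ g.toMatrix) := fun _ => ⟨Ψ, h, Filter.EventuallyEq.rfl⟩

/-- A function smooth near a point has the germ of a smooth function. -/
theorem exists_germ {W : Set (Mat (n + 1))} (hW : IsOpen W) {Ψ : Mat (n + 1) → ℝ}
    (hΨ : ContDiffOn ℝ (⊤ : ℕ∞) Ψ W) {M : Mat (n + 1)} (hM : M ∈ W) :
    ∃ Ψ' : Mat (n + 1) → ℝ, ContDiff ℝ (⊤ : ℕ∞) Ψ' ∧ Ψ =ᶠ[𝓝 M] Ψ' := by
  obtain ⟨r, hr, hball⟩ := Metric.isOpen_iff.1 hW M hM
  let f : ContDiffBump M := ⟨r / 4, r / 2, by positivity, by linarith⟩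
  refine ⟨fun x => f x * Ψ x, ?_, ?_⟩
  · rw [contDiff_iff_contDiffAt]
    intro x
    by_cases hx : x ∈ W
    · exact f.contDiff.contDiffAt.mul (hΨ.contDiffAt (hW.mem_nhds hx))
    · have h1 : x ∉ tsupport f := by
        rw [f.tsupport_eq]
        intro h2
        refine hx (hball ?_)
        rw [Metric.mem_closedBall] at h2
        rw [Metric.mem_ball]
        have h3 : f.rOut = r / 2 := rfl
        rw [h3] at h2
        linarith
      have h2 : (f : Mat (n + 1) → ℝ) =ᶠ[𝓝 x] 0 := notMem_tsupport_iff_eventuallyEq.1 h1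
      have h3 : (fun x => f x * Ψ x) =ᶠ[𝓝 x] fun _ => 0 := by
        filter_upwards [h2] with y hy
        rw [hy]
        simp
      exact contDiffAt_const.congr_of_eventuallyEq h3
  · filter_upwards [f.eventuallyEq_one] with y hy
    rw [hy]
    simp

theorem SmG.of_local {φ : SUGroup n → ℝ} (h : ∀ g, ∃ ψ, SmG ψ ∧ φ =ᶠ[𝓝 g] ψ) : SmG φ := by
  intro g
  obtain ⟨ψ, hψ, he⟩ := h g
  obtain ⟨Ψ, hΨ, he'⟩ := hψ g
  exact ⟨Ψ, hΨ, he.trans he'⟩

theorem SmG.of_on {φ : SUGroup n → ℝ} (h : ∀ g, ∃ (W : Set (Mat (n + 1))) (Ψ : Mat (n + 1) → ℝ),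
    IsOpen W ∧ g.toMatrix ∈ W ∧ ContDiffOn ℝ (⊤ : ℕ∞) Ψ W ∧ φ =ᶠ[𝓝 g] fun h => Ψ h.toMatrix) :
    SmG φ := by
  intro g
  obtain ⟨W, Ψ, hW, hg, hΨ, he⟩ := h g
  obtain ⟨Ψ', hΨ', he'⟩ := exists_germ hW hΨ hg
  exact ⟨Ψ', hΨ', he.trans ((continuous_toMatrix n).continuousAt.eventually he')⟩

theorem SmG.const (a : ℝ) : SmG (fun _ : SUGroup n => a) := SmG.of_smooth contDiff_const

section
variable {φ ψ : SUGroup n → ℝ}

theorem SmG.add (h : SmG φ) (h' : SmG ψ) : SmG fun g => φ g + ψ g := by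
  intro g
  obtain ⟨Ψ, hΨ, he⟩ := h g
  obtain ⟨Ψ', hΨ', he'⟩ := h' g
  exact ⟨fun M => Ψ M + Ψ' M, hΨ.add hΨ', he.add he'⟩

theorem SmG.mul (h : SmG φ) (h' : SmG ψ) : SmG fun g => φ g * ψ g := by
  intro g
  obtain ⟨Ψ, hΨ, he⟩ := h g
  obtain ⟨Ψ', hΨ', he'⟩ := h' g
  exact ⟨fun M => Ψ M * Ψ' M, hΨ.mul hΨ', he.mul he'⟩

theorem SmG.inv (h : SmG φ) (h0 : ∀ g, φ g ≠ 0) : SmG fun g => (φ g)⁻¹ := by
  refine SmG.of_on fun g => ?_
  obtain ⟨Ψ, hΨ, he⟩ := h g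
  refine ⟨{M | Ψ M ≠ 0}, fun M => (Ψ M)⁻¹, isOpen_ne_fun hΨ.continuous continuous_const, ?_,
    fun M hM => (hΨ.contDiffAt.inv hM).contDiffWithinAt, he.inv⟩
  show Ψ g.toMatrix ≠ 0
  rw [← he.eq_of_nhds]
  exact h0 g

theorem SmG.comp {S : ℝ → ℝ} (hS : ContDiff ℝ (⊤ : ℕ∞) S) (h : SmG φ) : SmG fun g => S (φ g) := by
  intro g
  obtain ⟨Ψ, hΨ, he⟩ := h g
  refine ⟨fun M => S (Ψ M), hS.comp hΨ, ?_⟩
  filter_upwards [he] with x hx
  rw [hx]

theorem SmG.sum {κ : Type} (T : Finset κ) {f : κ → SUGroup n → ℝ} (hf : ∀ k ∈ T, SmG (f k)) :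
    SmG fun g => ∑ k ∈ T, f k g := by
  classical
  induction T using Finset.induction_on with
  | empty =>
    simp only [Finset.sum_empty]
    exact SmG.const 0
  | insert a T ha ih =>
    simp only [Finset.sum_insert ha]
    exact (hf a (Finset.mem_insert_self a T)).add
      (ih fun k hk => hf k (Finset.mem_insert_of_mem hk))

theorem SmG.left (h : SmG φ) (γ : SUGroup n) : SmG fun g => φ (γ * g) := by
  intro g
  obtain ⟨Ψ, hΨ, he⟩ := h (γ * g)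
  refine ⟨fun M => Ψ (γ.toMatrix * M), hΨ.comp (contDiff_const.mul contDiff_id), ?_⟩
  have h1 : Tendsto (fun h : SUGroup n => γ * h) (𝓝 g) (𝓝 (γ * g)) :=
    (continuous_const_mul γ).tendsto g
  filter_upwards [h1.eventually he] with x hx
  rw [hx, toMatrix_mul]

theorem SmG.gs {Γ : Subgroup (SUGroup n)} (hd : DiscreteTopology Γ) (h : SmG φ)
    (hs : HasCompactSupport φ) : SmG (IN.gs Γ φ) :=
  SmG.of_local fun g => by
    obtain ⟨T, hT⟩ := gs_eventually hd hs g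
    exact ⟨_, SmG.sum T fun γ _ => h.left _, hT⟩

/-- A function of the orbit. -/
theorem SmG.orbit {U : Set (Vec n)} (hU : IsOpen U) {y : Vec n → ℝ}
    (hy : ContDiffOn ℝ (⊤ : ℕ∞) y U) (hφ : ∀ g : SUGroup n, ∃ ψ, SmG ψ ∧
      (act g (base n) ∈ U ∨ φ =ᶠ[𝓝 g] ψ)) (he : ∀ g : SUGroup n, act g (base n) ∈ U →
        φ g = y (act g (base n))) : SmG φ := by
  obtain ⟨L, hL⟩ : ∃ L : Mat (n + 1) →L[ℝ] Vec n, ∀ M, L M = M *ᵥ base n := by
    let L0 : Mat (n + 1) →ₗ[ℝ] Vec n :=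
      { toFun := fun M => M *ᵥ base n
        map_add' := fun A B => Matrix.add_mulVec A B _
        map_smul' := fun c A => Matrix.smul_mulVec c A _ }
    exact ⟨LinearMap.toContinuousLinearMap L0, fun M => rfl⟩
  intro g
  obtain ⟨ψ, hψ, h1⟩ := hφ g
  rcases h1 with h1 | h1
  · have hW : IsOpen (L ⁻¹' U) := hU.preimage L.continuous
    have h2 : ContDiffOn ℝ (⊤ : ℕ∞) (fun M => y (L M)) (L ⁻¹' U) :=
      hy.comp L.contDiff.contDiffOn fun M hM => hM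
    have hg : g.toMatrix ∈ L ⁻¹' U := by
      show L g.toMatrix ∈ U
      rw [hL]
      exact h1
    obtain ⟨Ψ', hΨ', he'⟩ := exists_germ hW h2 hg
    refine ⟨Ψ', hΨ', ?_⟩
    have h3 : ∀ᶠ h : SUGroup n in 𝓝 g, act h (base n) ∈ U :=
      (continuous_orbit.tendsto g).eventually (hU.mem_nhds h1)
    filter_upwards [(continuous_toMatrix n).continuousAt.eventually he', h3] with x hx hx'
    rw [he x hx', ← hx, hL]
    rfl
  · obtain ⟨Ψ, hΨ, he'⟩ := hψ g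
    exact ⟨Ψ, hΨ, h1.trans he'⟩

private theorem cs_sum {κ : Type} (T : Finset κ) {f : κ → Mat (n + 1) → ℝ}
    (hf : ∀ k ∈ T, Cs (n := n) Set.univ (f k)) : Cs (n := n) Set.univ fun M => ∑ k ∈ T, f k M := by
  classical
  induction T using Finset.induction_on with
  | empty =>
    simp only [Finset.sum_empty]
    exact ⟨contDiff_const, HasCompactSupport.zero, fun g _ => Set.mem_univ g⟩
  | insert a T ha ih =>
    simp only [Finset.sum_insert ha]
    exact (hf a (Finset.mem_insert_self a T)).add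
      (ih fun k hk => hf k (Finset.mem_insert_of_mem hk))

/-- Extension to a smooth function with compact support on the space of matrices. -/
theorem SmG.ext (h : SmG φ) (hs : HasCompactSupport φ) :
    ∃ Φ : Mat (n + 1) → ℝ, Cs (n := n) Set.univ Φ ∧ ∀ g : SUGroup n, Φ g.toMatrix = φ g := by
  choose Ψ hΨ hE using h
  have hV : ∀ i : SUGroup n, ∃ V : Set (SUGroup n), IsOpen V ∧ i ∈ V ∧
      ∀ h ∈ V, φ h = Ψ i h.toMatrix := by
    intro i
    obtain ⟨V, hV1, hV2, hV3⟩ := eventually_nhds_iff.1 (hE i)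
    exact ⟨V, hV2, hV3, hV1⟩
  choose V hVo hVi hVe using hV
  obtain ⟨s, ζ, hζ, -, W, hW, hKW, hsum⟩ := exists_part V hVo (K := tsupport φ) hs
    fun g _ => Set.mem_iUnion.2 ⟨g, hVi g⟩
  refine ⟨fun M => ∑ i ∈ s, Ψ i M * ζ i M, cs_sum s fun i _ =>
    (Cs.mul (hΨ i) (hζ i).toCs).mono (Set.subset_univ _), fun g => ?_⟩
  have h1 : ∀ i ∈ s, Ψ i g.toMatrix * ζ i g.toMatrix = φ g * ζ i g.toMatrix := by
    intro i _
    by_cases h0 : ζ i g.toMatrix = 0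
    · rw [h0, mul_zero, mul_zero]
    · rw [hVe i g ((hζ i).sub g (subset_tsupport _ h0))]
  show ∑ i ∈ s, Ψ i g.toMatrix * ζ i g.toMatrix = φ g
  rw [Finset.sum_congr rfl h1, ← Finset.mul_sum]
  by_cases hg : g ∈ tsupport φ
  · rw [hsum _ (hKW g hg), mul_one]
  · rw [image_eq_zero_of_notMem_tsupport hg, zero_mul]

end

theorem cl_smG {Γ : Subgroup (SUGroup n)} (hd : DiscreteTopology Γ) :
    Cl (ba (n := n)) Γ (SmG (n := n)) :=
  ⟨fun _ h => h.c2, SmG.const, fun _ _ h h' => h.add h', fun _ _ h h' => h.mul h',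
    fun _ h h0 => h.inv h0, fun _ h hs => h.gs hd hs⟩

theorem bu_smG : Bu (SmG (n := n)) := by
  intro F hF
  obtain ⟨ζ, hζ, h0, -, W, -, hFW, hW⟩ := exists_bump (n := n) isOpen_univ hF (Set.subset_univ F)
  refine ⟨fun g => ζ g.toMatrix, ⟨SmG.of_smooth hζ.smooth, ?_, fun g => h0 _⟩, fun g hg => ?_⟩
  · refine HasCompactSupport.of_support_subset_isCompact hζ.toCs.compact fun g hg => ?_
    exact subset_tsupport _ hg
  · show 0 < ζ g.toMatrix
    rw [hW _ (hFW g hg)]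
    exact one_pos

end Pool.Agent.Lib.MP_5d4057_al.IN.D
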