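import Pool.Agent.Lib.MP_5d4057_al.IN.DWk

/-! INT, part D, file DSum: sums and gluing of data. -/

set_option autoImplicit false

namespace Pool.Agent.Lib.MP_5d4057_al.IN.D

open Matrix MeasureTheory Filter Topology Pool.Agent.Lib.MP_5d4057_al
  Pool.Agent.Lib.MP_5d4057_al.Hyb Pool.Agent.Lib.MP_5d4057_al.HM

open scoped ComplexOrder MatrixOrder Matrix.Norms.L2Operator ENNReal

variable {n : ℕ} {O O' : Set (SUGroup n)} {Φ Ψ : Mat (n + 1) → ℝ}
  {q q₁ q₂ : Ix n → Ix n → SUGroup n → ℝ} {G G₁ G₂ : Ix n → Ix n → Ix n → SUGroup n → ℝ}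

/-! ### auxiliary lemmas -/

private theorem dsum_zero_off (h : Cs O Φ) {g : SUGroup n} (hg : g ∉ O) : Φ g.toMatrix = 0 :=
  image_eq_zero_of_notMem_tsupport (fun hx => hg (h.sub g hx))

/-- the integrand of `Siu` for given second derivatives -/
private noncomputable def dsumI (q : Ix n → Ix n → SUGroup n → ℝ)
    (D : Ix n → Ix n → SUGroup n → ℝ) (g : SUGroup n) : ℝ :=
  ∑ i : Fin n, ∑ j : Fin n,
    ((q (i, false) (i, false) g + q (i, true) (i, true) g) *
        (D (j, false) (j, false) g + D (j, true) (j, true) g) -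
      (q (i, false) (j, false) g + q (i, true) (j, true) g) *
        (D (i, false) (j, false) g + D (i, true) (j, true) g) +
      (q (i, false) (j, true) g - q (i, true) (j, false) g) *
        (D (i, true) (j, false) g - D (i, false) (j, true) g))

private theorem dsum_Siu (q : Ix n → Ix n → SUGroup n → ℝ) (Φ : Mat (n + 1) → ℝ) :
    Siu q Φ = ∫ g, dsumI q (fun a b g => dX (Xa a) (dX (Xa b) Φ) g.toMatrix) g ∂(mu n) := rfl

private theorem dsum_integrable {D : Ix n → Ix n → SUGroup n → ℝ}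
    (h : ∀ a b c d, Integrable (fun g => q a b g * D c d g) (mu n)) :
    Integrable (fun g => dsumI q D g) (mu n) := by
  unfold dsumI
  refine integrable_finsetSum _ fun i _ => integrable_finsetSum _ fun j _ => ?_
  refine (Integrable.sub ?_ ?_).add ?_
  · have h1 := ((h (i, false) (i, false) (j, false) (j, false)).add
      (h (i, false) (i, false) (j, true) (j, true))).add
      ((h (i, true) (i, true) (j, false) (j, false)).add
      (h (i, true) (i, true) (j, true) (j, true)))
    refine h1.congr (Eventually.of_forall fun g => ?_)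
    simp only [Pi.add_apply]
    ring
  · have h1 := ((h (i, false) (j, false) (i, false) (j, false)).add
      (h (i, false) (j, false) (i, true) (j, true))).add
      ((h (i, true) (j, true) (i, false) (j, false)).add
      (h (i, true) (j, true) (i, true) (j, true)))
    refine h1.congr (Eventually.of_forall fun g => ?_)
    simp only [Pi.add_apply]
    ring
  · have h1 := ((h (i, false) (j, true) (i, true) (j, false)).sub
      (h (i, false) (j, true) (i, false) (j, true))).sub
      ((h (i, true) (j, false) (i, true) (j, false)).sub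
      (h (i, true) (j, false) (i, false) (j, true)))
    refine h1.congr (Eventually.of_forall fun g => ?_)
    simp only [Pi.sub_apply]
    ring

private theorem dsum_int (hO : IsOpen O) (hq : ∀ a b, ContinuousOn (q a b) O) (hΦ : Cs O Φ) :
    Integrable (fun g => dsumI q (fun a b g => dX (Xa a) (dX (Xa b) Φ) g.toMatrix) g) (mu n) :=
  dsum_integrable fun a b c d => ((hΦ.dX (Xa d)).dX (Xa c)).integrable_cont (hq a b) hO

/-! ### the form `Siu` -/

/-- `Siu` depends only on the values of `q` on `O`. -/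
theorem Siu_congr (hΦ : Cs O Φ) (h : ∀ a b, ∀ g ∈ O, q₁ a b g = q₂ a b g) :
    Siu q₁ Φ = Siu q₂ Φ := by
  rw [dsum_Siu, dsum_Siu]
  congr 1
  funext g
  unfold dsumI
  refine Finset.sum_congr rfl fun i _ => Finset.sum_congr rfl fun j _ => ?_
  by_cases hg : g ∈ O
  · simp only [h _ _ g hg]
  · have h0 : ∀ a b : Ix n, dX (Xa a) (dX (Xa b) Φ) g.toMatrix = 0 := fun a b =>
      dsum_zero_off ((hΦ.dX (Xa b)).dX (Xa a)) hg
    simp only [h0, add_zero, sub_zero, mul_zero]

/-- `Siu` depends only on the germ of `Φ` along the group. -/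
theorem Siu_congr_right (h : ∀ g : SUGroup n, Φ =ᶠ[𝓝 g.toMatrix] Ψ) : Siu q Φ = Siu q Ψ := by
  rw [dsum_Siu, dsum_Siu]
  congr 1
  funext g
  have h0 : ∀ a b : Ix n, dX (Xa a) (dX (Xa b) Φ) g.toMatrix =
      dX (Xa a) (dX (Xa b) Ψ) g.toMatrix := fun a b => (dX_congr (dX_congr (h g))).eq_of_nhds
  unfold dsumI
  simp only [h0]

private theorem dsum_dX_zero (X : Mat (n + 1)) : dX X (fun _ => (0 : ℝ)) = fun _ => 0 := by
  funext M
  unfold dX
  simp

theorem Siu_zero : Siu q (fun _ => 0) = 0 := by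
  rw [dsum_Siu]
  unfold dsumI
  simp only [dsum_dX_zero, add_zero, sub_zero, mul_zero, Finset.sum_const_zero, integral_zero]

theorem Siu_add (hO : IsOpen O) (hq : ∀ a b, ContinuousOn (q a b) O) (hΦ : Cs O Φ)
    (hΨ : Cs O Ψ) : Siu q (fun M => Φ M + Ψ M) = Siu q Φ + Siu q Ψ := by
  rw [dsum_Siu, dsum_Siu, dsum_Siu, ← integral_add (dsum_int hO hq hΦ) (dsum_int hO hq hΨ)]
  congr 1
  funext g
  have h0 : ∀ a b : Ix n, dX (Xa a) (dX (Xa b) (fun M => Φ M + Ψ M)) g.toMatrix =
      dX (Xa a) (dX (Xa b) Φ) g.toMatrix + dX (Xa a) (dX (Xa b) Ψ) g.toMatrix := fun a b => by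
    rw [dX_add hΦ.smooth hΨ.smooth, dX_add (contDiff_dX hΦ.smooth) (contDiff_dX hΨ.smooth)]
  unfold dsumI
  simp only [h0, ← Finset.sum_add_distrib]
  refine Finset.sum_congr rfl fun i _ => Finset.sum_congr rfl fun j _ => ?_
  ring

theorem Siu_sub (hO : IsOpen O) (hq : ∀ a b, ContinuousOn (q a b) O) (hΦ : Cs O Φ)
    (hΨ : Cs O Ψ) : Siu q (fun M => Φ M - Ψ M) = Siu q Φ - Siu q Ψ := by
  rw [dsum_Siu, dsum_Siu, dsum_Siu, ← integral_sub (dsum_int hO hq hΦ) (dsum_int hO hq hΨ)]
  congr 1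
  funext g
  have h0 : ∀ a b : Ix n, dX (Xa a) (dX (Xa b) (fun M => Φ M - Ψ M)) g.toMatrix =
      dX (Xa a) (dX (Xa b) Φ) g.toMatrix - dX (Xa a) (dX (Xa b) Ψ) g.toMatrix := fun a b => by
    rw [dX_sub hΦ.smooth hΨ.smooth, dX_sub (contDiff_dX hΦ.smooth) (contDiff_dX hΨ.smooth)]
  unfold dsumI
  simp only [h0, ← Finset.sum_sub_distrib]
  refine Finset.sum_congr rfl fun i _ => Finset.sum_congr rfl fun j _ => ?_
  ring

theorem Siu_smul (hΦ : Cs O Φ) (c : ℝ) : Siu q (fun M => c * Φ M) = c * Siu q Φ := by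
  rw [dsum_Siu, dsum_Siu, ← integral_const_mul]
  congr 1
  funext g
  have h0 : ∀ a b : Ix n, dX (Xa a) (dX (Xa b) (fun M => c * Φ M)) g.toMatrix =
      c * dX (Xa a) (dX (Xa b) Φ) g.toMatrix := fun a b => by
    rw [dX_smul c hΦ.smooth, dX_smul c (contDiff_dX hΦ.smooth)]
  unfold dsumI
  simp only [h0, Finset.mul_sum]
  refine Finset.sum_congr rfl fun i _ => Finset.sum_congr rfl fun j _ => ?_
  ring

theorem Siu_add_left (hO : IsOpen O) (hq₁ : ∀ a b, ContinuousOn (q₁ a b) O)
    (hq₂ : ∀ a b, ContinuousOn (q₂ a b) O) (hΦ : Cs O Φ) :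
    Siu (fun a b g => q₁ a b g + q₂ a b g) Φ = Siu q₁ Φ + Siu q₂ Φ := by
  rw [dsum_Siu, dsum_Siu, dsum_Siu, ← integral_add (dsum_int hO hq₁ hΦ) (dsum_int hO hq₂ hΦ)]
  congr 1
  funext g
  unfold dsumI
  simp only [← Finset.sum_add_distrib]
  refine Finset.sum_congr rfl fun i _ => Finset.sum_congr rfl fun j _ => ?_
  ring

theorem Siu_smul_left (c : ℝ) : Siu (fun a b g => c * q a b g) Φ = c * Siu q Φ := by
  rw [dsum_Siu, dsum_Siu, ← integral_const_mul]
  congr 1
  funext g
  unfold dsumI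
  simp only [Finset.mul_sum]
  refine Finset.sum_congr rfl fun i _ => Finset.sum_congr rfl fun j _ => ?_
  ring

/-- The form after one integration by parts. -/
noncomputable def SiuG (G : Ix n → Ix n → Ix n → SUGroup n → ℝ) (j : Ix n) (g : SUGroup n) : ℝ :=
  ∑ i : Fin n,
    (if j.2 then
      G (j.1, true) (i, false) (i, false) g + G (j.1, true) (i, true) (i, true) g -
        (G (i, true) (i, false) (j.1, false) g + G (i, true) (i, true) (j.1, true) g) -
        (G (i, false) (i, false) (j.1, true) g - G (i, false) (i, true) (j.1, false) g)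
    else
      G (j.1, false) (i, false) (i, false) g + G (j.1, false) (i, true) (i, true) g -
        (G (i, false) (i, false) (j.1, false) g + G (i, false) (i, true) (j.1, true) g) +
        (G (i, true) (i, false) (j.1, true) g - G (i, true) (i, true) (j.1, false) g))

private theorem dsum_a4 {f₁ f₂ f₃ f₄ : SUGroup n → ℝ} (h₁ : Integrable f₁ (mu n))
    (h₂ : Integrable f₂ (mu n)) (h₃ : Integrable f₃ (mu n)) (h₄ : Integrable f₄ (mu n)) :
    Integrable (fun g => f₁ g + f₂ g + (f₃ g + f₄ g)) (mu n) ∧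
    ∫ g, (f₁ g + f₂ g + (f₃ g + f₄ g)) ∂(mu n) = (∫ g, f₁ g ∂(mu n)) + (∫ g, f₂ g ∂(mu n)) +
      ((∫ g, f₃ g ∂(mu n)) + (∫ g, f₄ g ∂(mu n))) := by
  have a : Integrable (fun g => f₁ g + f₂ g) (mu n) := h₁.add h₂
  have b : Integrable (fun g => f₃ g + f₄ g) (mu n) := h₃.add h₄
  exact ⟨a.add b, by rw [integral_add a b, integral_add h₁ h₂, integral_add h₃ h₄]⟩

private theorem dsum_s4 {f₁ f₂ f₃ f₄ : SUGroup n → ℝ} (h₁ : Integrable f₁ (mu n))
    (h₂ : Integrable f₂ (mu n)) (h₃ : Integrable f₃ (mu n)) (h₄ : Integrable f₄ (mu n)) :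
    Integrable (fun g => f₁ g - f₂ g - (f₃ g - f₄ g)) (mu n) ∧
    ∫ g, (f₁ g - f₂ g - (f₃ g - f₄ g)) ∂(mu n) = (∫ g, f₁ g ∂(mu n)) - (∫ g, f₂ g ∂(mu n)) -
      ((∫ g, f₃ g ∂(mu n)) - (∫ g, f₄ g ∂(mu n))) := by
  have a : Integrable (fun g => f₁ g - f₂ g) (mu n) := h₁.sub h₂
  have b : Integrable (fun g => f₃ g - f₄ g) (mu n) := h₃.sub h₄
  exact ⟨a.sub b, by rw [integral_sub a b, integral_sub h₁ h₂, integral_sub h₃ h₄]⟩

private theorem dsum_p3 {f₁ f₂ f₃ : SUGroup n → ℝ} (h₁ : Integrable f₁ (mu n))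
    (h₂ : Integrable f₂ (mu n)) (h₃ : Integrable f₃ (mu n)) :
    Integrable (fun g => f₁ g - f₂ g + f₃ g) (mu n) ∧
    ∫ g, (f₁ g - f₂ g + f₃ g) ∂(mu n) = (∫ g, f₁ g ∂(mu n)) - (∫ g, f₂ g ∂(mu n)) +
      (∫ g, f₃ g ∂(mu n)) := by
  have a : Integrable (fun g => f₁ g - f₂ g) (mu n) := h₁.sub h₂
  exact ⟨a.add h₃, by rw [integral_add a h₃, integral_sub h₁ h₂]⟩

private theorem dsum_p6 {f₁ f₂ f₃ f₄ f₅ f₆ : SUGroup n → ℝ} (h₁ : Integrable f₁ (mu n))
    (h₂ : Integrable f₂ (mu n)) (h₃ : Integrable f₃ (mu n)) (h₄ : Integrable f₄ (mu n))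
    (h₅ : Integrable f₅ (mu n)) (h₆ : Integrable f₆ (mu n)) :
    Integrable (fun g => f₁ g + f₂ g - (f₃ g + f₄ g) + (f₅ g - f₆ g)) (mu n) ∧
    ∫ g, (f₁ g + f₂ g - (f₃ g + f₄ g) + (f₅ g - f₆ g)) ∂(mu n) =
      (∫ g, f₁ g ∂(mu n)) + (∫ g, f₂ g ∂(mu n)) -
      ((∫ g, f₃ g ∂(mu n)) + (∫ g, f₄ g ∂(mu n))) +
      ((∫ g, f₅ g ∂(mu n)) - (∫ g, f₆ g ∂(mu n))) := by
  have a : Integrable (fun g => f₁ g + f₂ g) (mu n) := h₁.add h₂
  have b : Integrable (fun g => f₃ g + f₄ g) (mu n) := h₃.add h₄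
  have c : Integrable (fun g => f₅ g - f₆ g) (mu n) := h₅.sub h₆
  obtain ⟨h, h'⟩ := dsum_p3 a b c
  exact ⟨h, by rw [h', integral_add h₁ h₂, integral_add h₃ h₄, integral_sub h₅ h₆]⟩

private theorem dsum_m6 {f₁ f₂ f₃ f₄ f₅ f₆ : SUGroup n → ℝ} (h₁ : Integrable f₁ (mu n))
    (h₂ : Integrable f₂ (mu n)) (h₃ : Integrable f₃ (mu n)) (h₄ : Integrable f₄ (mu n))
    (h₅ : Integrable f₅ (mu n)) (h₆ : Integrable f₆ (mu n)) :
    Integrable (fun g => f₁ g + f₂ g - (f₃ g + f₄ g) - (f₅ g - f₆ g)) (mu n) ∧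
    ∫ g, (f₁ g + f₂ g - (f₃ g + f₄ g) - (f₅ g - f₆ g)) ∂(mu n) =
      (∫ g, f₁ g ∂(mu n)) + (∫ g, f₂ g ∂(mu n)) -
      ((∫ g, f₃ g ∂(mu n)) + (∫ g, f₄ g ∂(mu n))) -
      ((∫ g, f₅ g ∂(mu n)) - (∫ g, f₆ g ∂(mu n))) := by
  have a : Integrable (fun g => f₁ g + f₂ g) (mu n) := h₁.add h₂
  have b : Integrable (fun g => f₃ g + f₄ g) (mu n) := h₃.add h₄
  have c : Integrable (fun g => f₅ g - f₆ g) (mu n) := h₅.sub h₆
  have d : Integrable (fun g => f₁ g + f₂ g - (f₃ g + f₄ g)) (mu n) := a.sub b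
  exact ⟨d.sub c, by rw [integral_sub d c, integral_sub a b, integral_add h₁ h₂,
    integral_add h₃ h₄, integral_sub h₅ h₆]⟩

private theorem dsum_lin {D : Ix n → Ix n → SUGroup n → ℝ}
    (h : ∀ a b c d, Integrable (fun g => q a b g * D c d g) (mu n)) :
    ∫ g, dsumI q D g ∂(mu n) = ∑ i : Fin n, ∑ j : Fin n,
      ((∫ g, q (i, false) (i, false) g * D (j, false) (j, false) g ∂(mu n)) +
        (∫ g, q (i, false) (i, false) g * D (j, true) (j, true) g ∂(mu n)) +
        ((∫ g, q (i, true) (i, true) g * D (j, false) (j, false) g ∂(mu n)) +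
        (∫ g, q (i, true) (i, true) g * D (j, true) (j, true) g ∂(mu n))) -
      ((∫ g, q (i, false) (j, false) g * D (i, false) (j, false) g ∂(mu n)) +
        (∫ g, q (i, false) (j, false) g * D (i, true) (j, true) g ∂(mu n)) +
        ((∫ g, q (i, true) (j, true) g * D (i, false) (j, false) g ∂(mu n)) +
        (∫ g, q (i, true) (j, true) g * D (i, true) (j, true) g ∂(mu n)))) +
      ((∫ g, q (i, false) (j, true) g * D (i, true) (j, false) g ∂(mu n)) -
        (∫ g, q (i, false) (j, true) g * D (i, false) (j, true) g ∂(mu n)) -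
        ((∫ g, q (i, true) (j, false) g * D (i, true) (j, false) g ∂(mu n)) -
        (∫ g, q (i, true) (j, false) g * D (i, false) (j, true) g ∂(mu n))))) := by
  have hI : ∀ i j : Fin n, Integrable (fun g =>
      (q (i, false) (i, false) g * D (j, false) (j, false) g +
        q (i, false) (i, false) g * D (j, true) (j, true) g +
        (q (i, true) (i, true) g * D (j, false) (j, false) g +
        q (i, true) (i, true) g * D (j, true) (j, true) g)) -
      (q (i, false) (j, false) g * D (i, false) (j, false) g +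
        q (i, false) (j, false) g * D (i, true) (j, true) g +
        (q (i, true) (j, true) g * D (i, false) (j, false) g +
        q (i, true) (j, true) g * D (i, true) (j, true) g)) +
      (q (i, false) (j, true) g * D (i, true) (j, false) g -
        q (i, false) (j, true) g * D (i, false) (j, true) g -
        (q (i, true) (j, false) g * D (i, true) (j, false) g -
        q (i, true) (j, false) g * D (i, false) (j, true) g))) (mu n) := fun i j =>
    ((((h _ _ _ _).add (h _ _ _ _)).add ((h _ _ _ _).add (h _ _ _ _))).sub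
      (((h _ _ _ _).add (h _ _ _ _)).add ((h _ _ _ _).add (h _ _ _ _)))).add
      (((h _ _ _ _).sub (h _ _ _ _)).sub ((h _ _ _ _).sub (h _ _ _ _)))
  have h1 : (fun g => dsumI q D g) = fun g => ∑ i : Fin n, ∑ j : Fin n,
      ((q (i, false) (i, false) g * D (j, false) (j, false) g +
        q (i, false) (i, false) g * D (j, true) (j, true) g +
        (q (i, true) (i, true) g * D (j, false) (j, false) g +
        q (i, true) (i, true) g * D (j, true) (j, true) g)) -
      (q (i, false) (j, false) g * D (i, false) (j, false) g +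
        q (i, false) (j, false) g * D (i, true) (j, true) g +
        (q (i, true) (j, true) g * D (i, false) (j, false) g +
        q (i, true) (j, true) g * D (i, true) (j, true) g)) +
      (q (i, false) (j, true) g * D (i, true) (j, false) g -
        q (i, false) (j, true) g * D (i, false) (j, true) g -
        (q (i, true) (j, false) g * D (i, true) (j, false) g -
        q (i, true) (j, false) g * D (i, false) (j, true) g))) := by
    funext g
    unfold dsumI
    refine Finset.sum_congr rfl fun i _ => Finset.sum_congr rfl fun j _ => ?_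
    ring
  rw [h1, integral_finsetSum _ fun i _ => integrable_finsetSum _ fun j _ => hI i j]
  refine Finset.sum_congr rfl fun i _ => ?_
  rw [integral_finsetSum _ fun j _ => hI i j]
  refine Finset.sum_congr rfl fun j _ => ?_
  obtain ⟨a, a'⟩ := dsum_a4 (h (i, false) (i, false) (j, false) (j, false))
    (h (i, false) (i, false) (j, true) (j, true)) (h (i, true) (i, true) (j, false) (j, false))
    (h (i, true) (i, true) (j, true) (j, true))
  obtain ⟨b, b'⟩ := dsum_a4 (h (i, false) (j, false) (i, false) (j, false))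
    (h (i, false) (j, false) (i, true) (j, true)) (h (i, true) (j, true) (i, false) (j, false))
    (h (i, true) (j, true) (i, true) (j, true))
  obtain ⟨c, c'⟩ := dsum_s4 (h (i, false) (j, true) (i, true) (j, false))
    (h (i, false) (j, true) (i, false) (j, true)) (h (i, true) (j, false) (i, true) (j, false))
    (h (i, true) (j, false) (i, false) (j, true))
  rw [(dsum_p3 a b c).2, a', b', c']

private theorem dsum_SiuG_false (j : Fin n) {P : SUGroup n → ℝ}
    (h : ∀ a b c, Integrable (fun g => G a b c g * P g) (mu n)) :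
    ∫ g, SiuG G (j, false) g * P g ∂(mu n) = ∑ i : Fin n,
      ((∫ g, G (j, false) (i, false) (i, false) g * P g ∂(mu n)) +
        (∫ g, G (j, false) (i, true) (i, true) g * P g ∂(mu n)) -
        ((∫ g, G (i, false) (i, false) (j, false) g * P g ∂(mu n)) +
        (∫ g, G (i, false) (i, true) (j, true) g * P g ∂(mu n))) +
        ((∫ g, G (i, true) (i, false) (j, true) g * P g ∂(mu n)) -
        (∫ g, G (i, true) (i, true) (j, false) g * P g ∂(mu n)))) := by
  have h1 : (fun g => SiuG G (j, false) g * P g) = fun g => ∑ i : Fin n,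
      (G (j, false) (i, false) (i, false) g * P g + G (j, false) (i, true) (i, true) g * P g -
        (G (i, false) (i, false) (j, false) g * P g + G (i, false) (i, true) (j, true) g * P g) +
        (G (i, true) (i, false) (j, true) g * P g - G (i, true) (i, true) (j, false) g * P g)) := by
    funext g
    unfold SiuG
    rw [Finset.sum_mul]
    refine Finset.sum_congr rfl fun i _ => ?_
    simp only [Bool.false_eq_true, if_false]
    ring
  rw [h1, integral_finsetSum _ fun i _ => (dsum_p6 (h _ _ _) (h _ _ _) (h _ _ _) (h _ _ _)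
    (h _ _ _) (h _ _ _)).1]
  exact Finset.sum_congr rfl fun i _ => (dsum_p6 (h _ _ _) (h _ _ _) (h _ _ _) (h _ _ _)
    (h _ _ _) (h _ _ _)).2

private theorem dsum_SiuG_true (j : Fin n) {P : SUGroup n → ℝ}
    (h : ∀ a b c, Integrable (fun g => G a b c g * P g) (mu n)) :
    ∫ g, SiuG G (j, true) g * P g ∂(mu n) = ∑ i : Fin n,
      ((∫ g, G (j, true) (i, false) (i, false) g * P g ∂(mu n)) +
        (∫ g, G (j, true) (i, true) (i, true) g * P g ∂(mu n)) -
        ((∫ g, G (i, true) (i, false) (j, false) g * P g ∂(mu n)) +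
        (∫ g, G (i, true) (i, true) (j, true) g * P g ∂(mu n))) -
        ((∫ g, G (i, false) (i, false) (j, true) g * P g ∂(mu n)) -
        (∫ g, G (i, false) (i, true) (j, false) g * P g ∂(mu n)))) := by
  have h1 : (fun g => SiuG G (j, true) g * P g) = fun g => ∑ i : Fin n,
      (G (j, true) (i, false) (i, false) g * P g + G (j, true) (i, true) (i, true) g * P g -
        (G (i, true) (i, false) (j, false) g * P g + G (i, true) (i, true) (j, true) g * P g) -
        (G (i, false) (i, false) (j, true) g * P g - G (i, false) (i, true) (j, false) g * P g)) := by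
    funext g
    unfold SiuG
    rw [Finset.sum_mul]
    refine Finset.sum_congr rfl fun i _ => ?_
    simp only [if_true]
    ring
  rw [h1, integral_finsetSum _ fun i _ => (dsum_m6 (h _ _ _) (h _ _ _) (h _ _ _) (h _ _ _)
    (h _ _ _) (h _ _ _)).1]
  exact Finset.sum_congr rfl fun i _ => (dsum_m6 (h _ _ _) (h _ _ _) (h _ _ _) (h _ _ _)
    (h _ _ _) (h _ _ _)).2

/-- `Siu_q(Φ) = - Σ_j ∫ SiuG_j X_j Φ`. PROOF: `Wg.weak` with the test functions `dX Φ`. -/
theorem Siu_eq_SiuG (hO : IsOpen O) (hw : ∀ a b, Wg O (q a b) fun c => G c a b) (hΦ : Cs O Φ) :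
    Siu q Φ = -∑ j, ∫ g, SiuG G j g * dX (Xa j) Φ g.toMatrix ∂(mu n) := by
  have hI : ∀ a b c d, Integrable (fun g => q a b g * dX (Xa c) (dX (Xa d) Φ) g.toMatrix) (mu n) :=
    fun a b c d => ((hΦ.dX (Xa d)).dX (Xa c)).integrable_cont (hw a b).cont hO
  have hJ : ∀ d a b c, Integrable (fun g => G a b c g * dX (Xa d) Φ g.toMatrix) (mu n) :=
    fun d a b c => (hΦ.dX (Xa d)).integrable ((hw b c).locInt hO a) hO
  have hW : ∀ a b c d : Ix n, ∫ g, q a b g * dX (Xa c) (dX (Xa d) Φ) g.toMatrix ∂(mu n) =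
      -∫ g, G c a b g * dX (Xa d) Φ g.toMatrix ∂(mu n) := fun a b c d =>
    (hw a b).weak hO (hΦ.dX (Xa d)) c
  rw [dsum_Siu, dsum_lin (D := fun a b g => dX (Xa a) (dX (Xa b) Φ) g.toMatrix) hI,
    Fintype.sum_prod_type]
  simp only [Fintype.sum_bool, hW]
  rw [Finset.sum_congr rfl fun j _ => congrArg₂ (· + ·) (dsum_SiuG_true (G := G) j (hJ (j, true)))
    (dsum_SiuG_false (G := G) j (hJ (j, false)))]
  rw [Finset.sum_comm, ← Finset.sum_neg_distrib]
  refine Finset.sum_congr rfl fun j _ => ?_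
  rw [← Finset.sum_add_distrib, ← Finset.sum_neg_distrib]
  refine Finset.sum_congr rfl fun i _ => ?_
  ring

private theorem dsum_abs_le (G : Ix n → Ix n → Ix n → SUGroup n → ℝ) (g : SUGroup n)
    (c a b : Ix n) : |G c a b g| ≤ √(nsq G g) := by
  refine Real.abs_le_sqrt ?_
  have h1 : G c a b g ^ 2 ≤ ∑ b, G c a b g ^ 2 :=
    Finset.single_le_sum (f := fun b => G c a b g ^ 2) (fun b _ => sq_nonneg _) (Finset.mem_univ b)
  have h2 : ∑ b, G c a b g ^ 2 ≤ ∑ a, ∑ b, G c a b g ^ 2 :=
    Finset.single_le_sum (f := fun a => ∑ b, G c a b g ^ 2)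
      (fun a _ => Finset.sum_nonneg fun b _ => sq_nonneg _) (Finset.mem_univ a)
  have h3 : ∑ a, ∑ b, G c a b g ^ 2 ≤ nsq G g :=
    Finset.single_le_sum (f := fun c => ∑ a, ∑ b, G c a b g ^ 2)
      (fun c _ => Finset.sum_nonneg fun a _ => Finset.sum_nonneg fun b _ => sq_nonneg _)
      (Finset.mem_univ c)
  exact h1.trans (h2.trans h3)

private theorem dsum_nsq_nonneg (G : Ix n → Ix n → Ix n → SUGroup n → ℝ) (g : SUGroup n) :
    0 ≤ nsq G g :=
  Finset.sum_nonneg fun _ _ => Finset.sum_nonneg fun _ _ => Finset.sum_nonneg fun _ _ =>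
    sq_nonneg _

theorem SiuG_sq_le (G : Ix n → Ix n → Ix n → SUGroup n → ℝ) : ∃ C : ℝ, 0 ≤ C ∧ ∀ j g,
    SiuG G j g ^ 2 ≤ C * nsq G g := by
  refine ⟨(n * 6) ^ 2, sq_nonneg _, fun j g => ?_⟩
  have hs := Real.sqrt_nonneg (nsq G g)
  have h1 : |SiuG G j g| ≤ n * 6 * √(nsq G g) := by
    unfold SiuG
    refine (Finset.abs_sum_le_sum_abs _ _).trans ?_
    have h2 : ∀ i ∈ (Finset.univ : Finset (Fin n)), |(if j.2 then
      G (j.1, true) (i, false) (i, false) g + G (j.1, true) (i, true) (i, true) g -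
        (G (i, true) (i, false) (j.1, false) g + G (i, true) (i, true) (j.1, true) g) -
        (G (i, false) (i, false) (j.1, true) g - G (i, false) (i, true) (j.1, false) g)
      else
      G (j.1, false) (i, false) (i, false) g + G (j.1, false) (i, true) (i, true) g -
        (G (i, false) (i, false) (j.1, false) g + G (i, false) (i, true) (j.1, true) g) +
        (G (i, true) (i, false) (j.1, true) g - G (i, true) (i, true) (j.1, false) g))| ≤
        6 * √(nsq G g) := by
      intro i _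
      have hb := fun c a b => abs_le.1 (dsum_abs_le G g c a b)
      split_ifs
      · have e1 := hb (j.1, true) (i, false) (i, false)
        have e2 := hb (j.1, true) (i, true) (i, true)
        have e3 := hb (i, true) (i, false) (j.1, false)
        have e4 := hb (i, true) (i, true) (j.1, true)
        have e5 := hb (i, false) (i, false) (j.1, true)
        have e6 := hb (i, false) (i, true) (j.1, false)
        rw [abs_le]
        constructor <;> linarith [e1.1, e1.2, e2.1, e2.2, e3.1, e3.2, e4.1, e4.2, e5.1, e5.2,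
          e6.1, e6.2]
      · have e1 := hb (j.1, false) (i, false) (i, false)
        have e2 := hb (j.1, false) (i, true) (i, true)
        have e3 := hb (i, false) (i, false) (j.1, false)
        have e4 := hb (i, false) (i, true) (j.1, true)
        have e5 := hb (i, true) (i, false) (j.1, true)
        have e6 := hb (i, true) (i, true) (j.1, false)
        rw [abs_le]
        constructor <;> linarith [e1.1, e1.2, e2.1, e2.2, e3.1, e3.2, e4.1, e4.2, e5.1, e5.2,
          e6.1, e6.2]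
    refine (Finset.sum_le_sum h2).trans (le_of_eq ?_)
    rw [Finset.sum_const, Finset.card_univ, Fintype.card_fin, nsmul_eq_mul]
    ring
  have h3 := pow_le_pow_left₀ (abs_nonneg _) h1 2
  rw [sq_abs, mul_pow, Real.sq_sqrt (dsum_nsq_nonneg G g)] at h3
  exact h3

/-- `Σ_c (Σ_a G_caa)² ≤ 2 n |G|²` (Cauchy-Schwarz). -/
theorem trG_sq_le (G : Ix n → Ix n → Ix n → SUGroup n → ℝ) (g : SUGroup n) :
    ∑ c, trG G c g ^ 2 ≤ 2 * n * nsq G g := by
  unfold nsq
  rw [Finset.mul_sum]
  refine Finset.sum_le_sum fun c _ => ?_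
  unfold trG
  have h1 : (∑ a, G c a a g) ^ 2 ≤ (Finset.univ : Finset (Ix n)).card * ∑ a, G c a a g ^ 2 :=
    sq_sum_le_card_mul_sum_sq
  have h2 : ((Finset.univ : Finset (Ix n)).card : ℝ) = 2 * n := by
    rw [Finset.card_univ, Fintype.card_prod, Fintype.card_fin, Fintype.card_bool]
    push_cast
    ring
  rw [h2] at h1
  refine h1.trans (mul_le_mul_of_nonneg_left ?_ (by positivity))
  refine Finset.sum_le_sum fun a _ => ?_
  exact Finset.single_le_sum (f := fun b => G c a b g ^ 2) (fun b _ => sq_nonneg _)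
    (Finset.mem_univ a)

end Pool.Agent.Lib.MP_5d4057_al.IN.D
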