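import Pool.Agent.Lib.MP_5d4057_al.IN.DDef
import Pool.Agent.Lib.MP_5d4057_al.HM.Flow

/-! INT, part D, file DTst: the calculus of test functions. -/

set_option autoImplicit false

namespace Pool.Agent.Lib.MP_5d4057_al.IN.D

open Matrix MeasureTheory Filter Topology Pool.Agent.Lib.MP_5d4057_al
  Pool.Agent.Lib.MP_5d4057_al.Hyb Pool.Agent.Lib.MP_5d4057_al.HM

open scoped ComplexOrder MatrixOrder Matrix.Norms.L2Operator ENNReal

variable {n : ℕ} {O O' : Set (SUGroup n)} {Φ Ψ F : Mat (n + 1) → ℝ} {X Y : Mat (n + 1)}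

theorem isOpen_orb {U : Set (Vec n)} (hU : IsOpen U) : IsOpen (orb U) := by
  exact hU.preimage continuous_orbit

theorem orb_cone : orb (Cone n) = Set.univ := by
  exact Set.eq_univ_of_forall fun g => orbit_mem g

/-- Right multiplication. -/
private noncomputable def dtstR (X : Mat (n + 1)) : Mat (n + 1) →L[ℝ] Mat (n + 1) :=
  LinearMap.toContinuousLinearMap
    { toFun := fun M => M * X
      map_add' := fun M N => Matrix.add_mul M N X
      map_smul' := fun r M => Matrix.smul_mul r M X }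

/-- Left multiplication. -/
private noncomputable def dtstL (A : Mat (n + 1)) : Mat (n + 1) →L[ℝ] Mat (n + 1) :=
  LinearMap.toContinuousLinearMap
    { toFun := fun M => A * M
      map_add' := fun M N => Matrix.mul_add A M N
      map_smul' := fun r M => Matrix.mul_smul A r M }

private theorem dtstR_apply (X M : Mat (n + 1)) : dtstR X M = M * X := rfl

private theorem dtstL_apply (A M : Mat (n + 1)) : dtstL A M = A * M := rfl

private theorem dtst_has (hF : ContDiff ℝ (⊤ : ℕ∞) F) (M : Mat (n + 1)) :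
    HasFDerivAt F (fderiv ℝ F M) M :=
  ((hF.differentiable (by simp)) M).hasFDerivAt

private theorem dtst_eq {L : Mat (n + 1) →L[ℝ] ℝ} {M : Mat (n + 1)} (h : HasFDerivAt F L M) :
    dX X F M = L (M * X) := by
  rw [dX, h.fderiv]

private theorem dtst_cs (hS : ContDiff ℝ (⊤ : ℕ∞) Ψ) (hsub : ∀ M, Ψ M ≠ 0 → M ∈ tsupport Φ)
    (h : Cs O Φ) : Cs O Ψ := by
  have h1 : Function.support Ψ ⊆ tsupport Φ := fun M hM => hsub M hM
  exact ⟨hS, h.supp.mono' h1, fun g hg =>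
    h.sub g (closure_minimal h1 (isClosed_tsupport Φ) hg)⟩

private theorem dtst_cs_union (hS : ContDiff ℝ (⊤ : ℕ∞) F)
    (hsub : ∀ M, F M ≠ 0 → M ∈ tsupport Φ ∪ tsupport Ψ) (h : Cs O Φ) (h' : Cs O Ψ) : Cs O F := by
  have h1 : tsupport F ⊆ tsupport Φ ∪ tsupport Ψ :=
    closure_minimal (fun M hM => hsub M hM) ((isClosed_tsupport Φ).union (isClosed_tsupport Ψ))
  refine ⟨hS, ?_, fun g hg => (h1 hg).elim (h.sub g) (h'.sub g)⟩
  exact IsCompact.of_isClosed_subset (h.supp.isCompact.union h'.supp.isCompact)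
    (isClosed_tsupport F) h1

private theorem dtst_ne {z w : ℝ} {P Q : Prop} (hz : z ≠ 0 → P) (hw : w ≠ 0 → Q)
    (h : z + w ≠ 0 ∨ z - w ≠ 0) : P ∨ Q := by
  by_cases h1 : z = 0
  · by_cases h2 : w = 0
    · rw [h1, h2] at h
      simp at h
    · exact Or.inr (hw h2)
  · exact Or.inl (hz h1)

/-! ### the derivatives `dX` -/

theorem contDiff_dX (hF : ContDiff ℝ (⊤ : ℕ∞) F) : ContDiff ℝ (⊤ : ℕ∞) (dX X F) := by
  have h1 : ContDiff ℝ (⊤ : ℕ∞) (fderiv ℝ F) := hF.fderiv_right (by simp)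
  have h2 : ContDiff ℝ (⊤ : ℕ∞) fun M : Mat (n + 1) => dtstR X M := (dtstR X).contDiff
  exact h1.clm_apply h2

theorem dX_congr {M : Mat (n + 1)} (h : Φ =ᶠ[𝓝 M] Ψ) : dX X Φ =ᶠ[𝓝 M] dX X Ψ := by
  filter_upwards [h.fderiv (𝕜 := ℝ)] with N hN
  rw [dX, dX, hN]

theorem dX_add (hΦ : ContDiff ℝ (⊤ : ℕ∞) Φ) (hΨ : ContDiff ℝ (⊤ : ℕ∞) Ψ) :
    dX X (fun M => Φ M + Ψ M) = fun M => dX X Φ M + dX X Ψ M := by
  funext M
  have h : HasFDerivAt (fun M => Φ M + Ψ M) (fderiv ℝ Φ M + fderiv ℝ Ψ M) M :=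
    (dtst_has hΦ M).add (dtst_has hΨ M)
  rw [dtst_eq h]
  rfl

theorem dX_sub (hΦ : ContDiff ℝ (⊤ : ℕ∞) Φ) (hΨ : ContDiff ℝ (⊤ : ℕ∞) Ψ) :
    dX X (fun M => Φ M - Ψ M) = fun M => dX X Φ M - dX X Ψ M := by
  funext M
  have h : HasFDerivAt (fun M => Φ M - Ψ M) (fderiv ℝ Φ M - fderiv ℝ Ψ M) M :=
    (dtst_has hΦ M).sub (dtst_has hΨ M)
  rw [dtst_eq h]
  rfl

theorem dX_smul (c : ℝ) (hΦ : ContDiff ℝ (⊤ : ℕ∞) Φ) :
    dX X (fun M => c * Φ M) = fun M => c * dX X Φ M := by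
  funext M
  have h : HasFDerivAt (fun M => c * Φ M) (c • fderiv ℝ Φ M) M := (dtst_has hΦ M).const_mul c
  rw [dtst_eq h]
  rfl

theorem dX_mul (hΦ : ContDiff ℝ (⊤ : ℕ∞) Φ) (hΨ : ContDiff ℝ (⊤ : ℕ∞) Ψ) :
    dX X (fun M => Φ M * Ψ M) = fun M => dX X Φ M * Ψ M + Φ M * dX X Ψ M := by
  funext M
  have h : HasFDerivAt (fun M => Φ M * Ψ M) (Φ M • fderiv ℝ Ψ M + Ψ M • fderiv ℝ Φ M) M :=
    (dtst_has hΦ M).mul (dtst_has hΨ M)
  rw [dtst_eq h]
  show Φ M * dX X Ψ M + Ψ M * dX X Φ M = _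
  ring

theorem dX_sum {ι : Type} (s : Finset ι) {Ψ : ι → Mat (n + 1) → ℝ}
    (hΨ : ∀ i, ContDiff ℝ (⊤ : ℕ∞) (Ψ i)) :
    dX X (fun M => ∑ i ∈ s, Ψ i M) = fun M => ∑ i ∈ s, dX X (Ψ i) M := by
  funext M
  have h : HasFDerivAt (fun M => ∑ i ∈ s, Ψ i M) (∑ i ∈ s, fderiv ℝ (Ψ i) M) M :=
    HasFDerivAt.fun_sum fun i _ => dtst_has (hΨ i) M
  rw [dtst_eq h, _root_.sum_apply]
  rfl

theorem dX_comp {S : ℝ → ℝ} (hS : ContDiff ℝ (⊤ : ℕ∞) S) (hΦ : ContDiff ℝ (⊤ : ℕ∞) Φ) :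
    dX X (fun M => S (Φ M)) = fun M => deriv S (Φ M) * dX X Φ M := by
  funext M
  have h1 : HasDerivAt S (deriv S (Φ M)) (Φ M) :=
    ((hS.differentiable (by simp)) (Φ M)).hasDerivAt
  have h : HasFDerivAt (fun M => S (Φ M)) (deriv S (Φ M) • fderiv ℝ Φ M) M :=
    h1.comp_hasFDerivAt M (dtst_has hΦ M)
  rw [dtst_eq h]
  rfl

/-- `[X, Y] = X Y - Y X`. -/
theorem dX_comm (hΦ : ContDiff ℝ (⊤ : ℕ∞) Φ) (M : Mat (n + 1)) :
    dX X (dX Y Φ) M - dX Y (dX X Φ) M = dX (X * Y - Y * X) Φ M := by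
  have key : ∀ A B : Mat (n + 1), dX A (dX B Φ) M =
      fderiv ℝ Φ M (M * A * B) + fderiv ℝ (fderiv ℝ Φ) M (M * A) (M * B) := by
    intro A B
    have h1 : ContDiff ℝ (⊤ : ℕ∞) (fderiv ℝ Φ) := hΦ.fderiv_right (by simp)
    have h2 : HasFDerivAt (fderiv ℝ Φ) (fderiv ℝ (fderiv ℝ Φ) M) M :=
      ((h1.differentiable (by simp)) M).hasFDerivAt
    have h3 := h2.clm_apply (dtstR B).hasFDerivAt (x := M)
    have h4 := dtst_eq (F := dX B Φ) (X := A) h3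
    rw [h4]
    rfl
  have hs : fderiv ℝ (fderiv ℝ Φ) M (M * X) (M * Y) = fderiv ℝ (fderiv ℝ Φ) M (M * Y) (M * X) := by
    have h1 : ContDiffAt ℝ 2 Φ M := (hΦ.of_le
      (WithTop.coe_le_coe.mpr (le_top : (2 : ℕ∞) ≤ ⊤))).contDiffAt
    exact (h1.isSymmSndFDerivAt (by simp)).eq (M * X) (M * Y)
  rw [key, key, hs, dX, Matrix.mul_sub, map_sub, Matrix.mul_assoc, Matrix.mul_assoc]
  ring

theorem dX_left (A : Mat (n + 1)) (hΦ : ContDiff ℝ (⊤ : ℕ∞) Φ) (M : Mat (n + 1)) :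
    dX X (fun M => Φ (A * M)) M = dX X Φ (A * M) := by
  have h : HasFDerivAt (fun M => Φ (A * M)) ((fderiv ℝ Φ (A * M)).comp (dtstL A)) M :=
    (dtst_has hΦ (A * M)).comp M (dtstL A).hasFDerivAt
  rw [dtst_eq h, ContinuousLinearMap.comp_apply, dtstL_apply, dX, Matrix.mul_assoc]

/-- The derivative along the flow (`Kak.hasDerivAt_flow`). -/
theorem hasDerivAt_dX (hF : ContDiff ℝ (⊤ : ℕ∞) F) (c : Ix n) (g : SUGroup n) (t : ℝ) :
    HasDerivAt (fun t => F (g * ba c t).toMatrix) (dX (Xa c) F (g * ba c t).toMatrix) t := by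
  have h1 := Kak.hasDerivAt_flow (xi_norm c) t
  have h2 : HasDerivAt (fun t => dtstL g.toMatrix (Kak.flow (xi c) (xi_norm c) t).toMatrix)
      (dtstL g.toMatrix ((Kak.flow (xi c) (xi_norm c) t).toMatrix * xmat (xi c))) t :=
    (dtstL g.toMatrix).hasFDerivAt.comp_hasDerivAt t h1
  have h3 : HasDerivAt (fun t => F (dtstL g.toMatrix (Kak.flow (xi c) (xi_norm c) t).toMatrix))
      (fderiv ℝ F (dtstL g.toMatrix (Kak.flow (xi c) (xi_norm c) t).toMatrix)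
        (dtstL g.toMatrix ((Kak.flow (xi c) (xi_norm c) t).toMatrix * xmat (xi c)))) t :=
    (dtst_has hF _).comp_hasDerivAt t h2
  have e : dX (Xa c) F (g * ba c t).toMatrix =
      fderiv ℝ F (dtstL g.toMatrix (Kak.flow (xi c) (xi_norm c) t).toMatrix)
        (dtstL g.toMatrix ((Kak.flow (xi c) (xi_norm c) t).toMatrix * xmat (xi c))) := by
    rw [dX, toMatrix_mul, dtstL_apply, dtstL_apply, Matrix.mul_assoc]
    rfl
  rw [e]
  exact h3

theorem ba_zero (c : Ix n) : ba c 0 = 1 := Kak.flow_zero (xi_norm c)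

theorem ba_add (c : Ix n) (s t : ℝ) : ba c (s + t) = ba c s * ba c t := Kak.flow_add (xi_norm c) s t

theorem continuous_ba (c : Ix n) : Continuous (ba (n := n) c) := Kak.continuous_flow (xi_norm c)

/-! ### closure properties -/

theorem Cs.mono (h : Cs O Φ) (hO : O ⊆ O') : Cs O' Φ :=
  ⟨h.smooth, h.supp, fun g hg => hO (h.sub g hg)⟩

theorem Cs.dX (h : Cs O Φ) (X : Mat (n + 1)) : Cs O (dX X Φ) := by
  refine dtst_cs (contDiff_dX h.smooth) (fun M hM => ?_) h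
  refine support_fderiv_subset ℝ (fun h0 => hM ?_)
  rw [D.dX, h0]
  rfl

theorem Cs.add (h : Cs O Φ) (h' : Cs O Ψ) : Cs O (fun M => Φ M + Ψ M) := by
  refine dtst_cs_union (h.smooth.add h'.smooth) (fun M hM => ?_) h h'
  exact dtst_ne (fun h1 => subset_tsupport Φ h1) (fun h1 => subset_tsupport Ψ h1) (Or.inl hM)

theorem Cs.sub' (h : Cs O Φ) (h' : Cs O Ψ) : Cs O (fun M => Φ M - Ψ M) := by
  refine dtst_cs_union (h.smooth.sub h'.smooth) (fun M hM => ?_) h h'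
  exact dtst_ne (fun h1 => subset_tsupport Φ h1) (fun h1 => subset_tsupport Ψ h1) (Or.inr hM)

theorem Cs.smul (c : ℝ) (h : Cs O Φ) : Cs O (fun M => c * Φ M) := by
  exact dtst_cs (contDiff_const.mul h.smooth) (fun M hM => subset_tsupport Φ
    (right_ne_zero_of_mul hM)) h

theorem Cs.mul (hF : ContDiff ℝ (⊤ : ℕ∞) F) (h : Cs O Φ) : Cs O (fun M => F M * Φ M) := by
  exact dtst_cs (hF.mul h.smooth) (fun M hM => subset_tsupport Φ (right_ne_zero_of_mul hM)) h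

/-- A product has its support in the intersection. -/
theorem Cs.mul_inter (h : Cs O Φ) (h' : Cs O' Ψ) : Cs (O ∩ O') (fun M => Φ M * Ψ M) := by
  have h1 : Cs O (fun M => Φ M * Ψ M) := dtst_cs (h.smooth.mul h'.smooth)
    (fun M hM => subset_tsupport Φ (left_ne_zero_of_mul hM)) h
  have h2 : Cs O' (fun M => Φ M * Ψ M) := dtst_cs (h.smooth.mul h'.smooth)
    (fun M hM => subset_tsupport Ψ (right_ne_zero_of_mul hM)) h'
  exact ⟨h1.smooth, h1.supp, fun g hg => ⟨h1.sub g hg, h2.sub g hg⟩⟩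

theorem Cs.left (h : Cs Set.univ Φ) (γ : SUGroup n) :
    Cs Set.univ (fun M => Φ (γ.toMatrix * M)) := by
  refine ⟨h.smooth.comp (dtstL γ.toMatrix).contDiff, ?_, fun g _ => Set.mem_univ g⟩
  refine HasCompactSupport.intro (h.supp.isCompact.image (dtstL (γ⁻¹).toMatrix).continuous)
    fun M hM => ?_
  by_contra h0
  refine hM ⟨γ.toMatrix * M, subset_tsupport Φ h0, ?_⟩
  rw [dtstL_apply, ← Matrix.mul_assoc, toMatrix_inv_mul, Matrix.one_mul]

theorem Cs.right (h : Cs Set.univ Φ) (γ : SUGroup n) :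
    Cs Set.univ (fun M => Φ (M * γ.toMatrix)) := by
  refine ⟨h.smooth.comp (dtstR γ.toMatrix).contDiff, ?_, fun g _ => Set.mem_univ g⟩
  refine HasCompactSupport.intro (h.supp.isCompact.image (dtstR (γ⁻¹).toMatrix).continuous)
    fun M hM => ?_
  by_contra h0
  refine hM ⟨M * γ.toMatrix, subset_tsupport Φ h0, ?_⟩
  rw [dtstR_apply, Matrix.mul_assoc, toMatrix_mul_inv, Matrix.mul_one]

/-- The support in the group is a compact subset of `O`. -/
theorem Cs.compact (h : Cs O Φ) : IsCompact {g : SUGroup n | g.toMatrix ∈ tsupport Φ} :=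
  (isClosedEmbedding_toMatrix n).isCompact_preimage h.supp.isCompact

theorem Tst.mono (h : Tst O Φ) (hO : O ⊆ O') : Tst O' Φ :=
  ⟨h.toCs.mono hO, h.nonneg⟩

theorem Tst.add (h : Tst O Φ) (h' : Tst O Ψ) : Tst O (fun M => Φ M + Ψ M) :=
  ⟨h.toCs.add h'.toCs, fun g => add_nonneg (h.nonneg g) (h'.nonneg g)⟩

theorem Tst.smul {c : ℝ} (hc : 0 ≤ c) (h : Tst O Φ) : Tst O (fun M => c * Φ M) :=
  ⟨h.toCs.smul c, fun g => mul_nonneg hc (h.nonneg g)⟩

theorem Tst.mul_inter (h : Tst O Φ) (h' : Tst O' Ψ) : Tst (O ∩ O') (fun M => Φ M * Ψ M) :=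
  ⟨h.toCs.mul_inter h'.toCs, fun g => mul_nonneg (h.nonneg g) (h'.nonneg g)⟩

theorem Tst.left (h : Tst Set.univ Φ) (γ : SUGroup n) :
    Tst Set.univ (fun M => Φ (γ.toMatrix * M)) :=
  ⟨h.toCs.left γ, fun g => by
    have h1 := h.nonneg (γ * g)
    rwa [toMatrix_mul] at h1⟩

theorem Tst.right (h : Tst Set.univ Φ) (γ : SUGroup n) :
    Tst Set.univ (fun M => Φ (M * γ.toMatrix)) :=
  ⟨h.toCs.right γ, fun g => by
    have h1 := h.nonneg (g * γ)
    rwa [toMatrix_mul] at h1⟩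

end Pool.Agent.Lib.MP_5d4057_al.IN.D
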