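import Pool.Agent.Lib.MP_5d4057_al.IN.DPW

/-! INT, part D, file DWk: weak gradients. -/

set_option autoImplicit false

namespace Pool.Agent.Lib.MP_5d4057_al.IN.D

open Matrix MeasureTheory Filter Topology Pool.Agent.Lib.MP_5d4057_al
  Pool.Agent.Lib.MP_5d4057_al.Hyb Pool.Agent.Lib.MP_5d4057_al.HM

open scoped ComplexOrder MatrixOrder Matrix.Norms.L2Operator ENNReal

variable {n : ℕ} {O O' : Set (SUGroup n)} {Φ : Mat (n + 1) → ℝ} {u v : SUGroup n → ℝ}
  {G G' : Ix n → SUGroup n → ℝ}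

/-! ### auxiliary lemmas -/

private theorem fin_restrict {K : Set (SUGroup n)} (hK : IsCompact K) :
    IsFiniteMeasure ((mu n).restrict K) :=
  ⟨by rw [Measure.restrict_apply_univ]; exact hK.measure_lt_top⟩

private theorem memLp_cont {K : Set (SUGroup n)} (hK : IsCompact K) {f : SUGroup n → ℝ}
    (hf : ContinuousOn f K) : MemLp f 2 ((mu n).restrict K) := by
  have := fin_restrict hK
  obtain ⟨C, hC⟩ := hK.exists_bound_of_continuousOn hf
  refine MemLp.of_bound (hf.aestronglyMeasurable hK.measurableSet) C ?_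
  exact (ae_restrict_iff' hK.measurableSet).mpr (ae_of_all _ hC)

private theorem cont_mat {F : Mat (n + 1) → ℝ} (hF : ContDiff ℝ (⊤ : ℕ∞) F) :
    Continuous fun g : SUGroup n => F g.toMatrix :=
  hF.continuous.comp (continuous_toMatrix n)

private theorem l1_conv {K : Set (SUGroup n)} {B F : SUGroup n → ℝ} {f : ℕ → SUGroup n → ℝ}
    (hB : MemLp B 2 ((mu n).restrict K)) (hf : ∀ k, MemLp (f k) 2 ((mu n).restrict K))
    (hF : MemLp F 2 ((mu n).restrict K))
    (h : Tendsto (fun k => eLpNorm (fun g => f k g - F g) 2 ((mu n).restrict K)) atTop (𝓝 0)) :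
    Tendsto (fun k => eLpNorm (fun g => B g * f k g - B g * F g) 1 ((mu n).restrict K)) atTop
      (𝓝 0) := by
  have h1 : ∀ k, eLpNorm (fun g => B g * f k g - B g * F g) 1 ((mu n).restrict K) ≤
      eLpNorm B 2 ((mu n).restrict K) *
        eLpNorm (fun g => f k g - F g) 2 ((mu n).restrict K) := by
    intro k
    have h2 := eLpNorm_smul_le_mul_eLpNorm (p := 2) (q := 2) (r := 1)
      ((hf k).sub hF).aestronglyMeasurable hB.aestronglyMeasurable
    have e : (B • (f k - F)) = fun g => B g * f k g - B g * F g := by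
      funext g
      simp [mul_sub]
    rw [e] at h2
    exact h2
  have h3 : Tendsto (fun k => eLpNorm B 2 ((mu n).restrict K) *
      eLpNorm (fun g => f k g - F g) 2 ((mu n).restrict K)) atTop (𝓝 0) := by
    have h4 := ENNReal.Tendsto.const_mul (a := eLpNorm B 2 ((mu n).restrict K)) h
      (Or.inr hB.eLpNorm_ne_top)
    rwa [mul_zero] at h4
  exact tendsto_of_tendsto_of_tendsto_of_le_of_le tendsto_const_nhds h3 (fun _ => zero_le) h1

/-! ### convergence in `L²` on a compact set -/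

/-- PROOF: Cauchy-Schwarz (`MeasureTheory.MemLp.integrable_mul`, Hölder for `eLpNorm`). -/
theorem tendsto_int_mul {K : Set (SUGroup n)} {B F : SUGroup n → ℝ} {f : ℕ → SUGroup n → ℝ}
    (hB : MemLp B 2 ((mu n).restrict K)) (hf : ∀ k, MemLp (f k) 2 ((mu n).restrict K))
    (hF : MemLp F 2 ((mu n).restrict K))
    (h : Tendsto (fun k => eLpNorm (fun g => f k g - F g) 2 ((mu n).restrict K)) atTop (𝓝 0)) :
    Tendsto (fun k => ∫ g in K, B g * f k g ∂(mu n)) atTop (𝓝 (∫ g in K, B g * F g ∂(mu n))) := by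
  refine tendsto_integral_of_L1' (fun g => B g * F g)
    (hB.integrable_mul hF).aestronglyMeasurable
    (F := fun k g => B g * f k g) (Eventually.of_forall fun k => hB.integrable_mul (hf k)) ?_
  exact l1_conv hB hf hF h

theorem tendsto_int_abs {K : Set (SUGroup n)} {B F : SUGroup n → ℝ} {f : ℕ → SUGroup n → ℝ}
    (hB : MemLp B 2 ((mu n).restrict K)) (hf : ∀ k, MemLp (f k) 2 ((mu n).restrict K))
    (hF : MemLp F 2 ((mu n).restrict K))
    (h : Tendsto (fun k => eLpNorm (fun g => f k g - F g) 2 ((mu n).restrict K)) atTop (𝓝 0)) :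
    Tendsto (fun k => ∫ g in K, |B g * f k g| ∂(mu n)) atTop
      (𝓝 (∫ g in K, |B g * F g| ∂(mu n))) := by
  refine tendsto_integral_of_L1' (fun g => |B g * F g|)
    (hB.integrable_mul hF).abs.aestronglyMeasurable
    (F := fun k g => |B g * f k g|)
    (Eventually.of_forall fun k => (hB.integrable_mul (hf k)).abs) ?_
  refine tendsto_of_tendsto_of_tendsto_of_le_of_le tendsto_const_nhds (l1_conv hB hf hF h)
    (fun _ => zero_le) fun k => ?_
  refine eLpNorm_mono fun g => ?_
  simp only [Pi.sub_apply, Real.norm_eq_abs]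
  exact abs_abs_sub_abs_le_abs_sub _ _

/-- A uniformly bounded and uniformly convergent sequence of multipliers. PROOF: `‖a_k f_k - a F‖ ≤
sup|a_k| ‖f_k - F‖ + sup|a_k - a| ‖F‖`. -/
theorem tendsto_mul_unif {K : Set (SUGroup n)} {F a : SUGroup n → ℝ}
    {f b : ℕ → SUGroup n → ℝ} (hf : ∀ k, MemLp (f k) 2 ((mu n).restrict K))
    (hF : MemLp F 2 ((mu n).restrict K)) (hK : IsCompact K)
    (hb : ∀ k, ContinuousOn (b k) K) (ha : ContinuousOn a K) (hu : TendstoUniformlyOn b a atTop K)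
    (h : Tendsto (fun k => eLpNorm (fun g => f k g - F g) 2 ((mu n).restrict K)) atTop (𝓝 0)) :
    Tendsto (fun k => eLpNorm (fun g => b k g * f k g - a g * F g) 2 ((mu n).restrict K)) atTop
      (𝓝 0) := by
  have hKm : MeasurableSet K := hK.measurableSet
  obtain ⟨M, hM⟩ := hK.exists_bound_of_continuousOn ha
  have hM' : ∀ g ∈ K, |a g| ≤ |M| := fun g hg => (hM g hg).trans (le_abs_self M)
  have hbm : ∀ k, AEStronglyMeasurable (b k) ((mu n).restrict K) := fun k =>
    (hb k).aestronglyMeasurable hKm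
  have ham : AEStronglyMeasurable a ((mu n).restrict K) := ha.aestronglyMeasurable hKm
  have hC : eLpNorm F 2 ((mu n).restrict K) ≠ ∞ := hF.eLpNorm_ne_top
  rw [ENNReal.tendsto_nhds_zero]
  intro ε hε
  have hε2 : 0 < ε / 2 := ENNReal.half_pos hε.ne'
  -- the second multiplier
  obtain ⟨m, hm⟩ : ∃ m : ℕ, ENNReal.ofReal (1 / ((m : ℝ) + 1)) *
      eLpNorm F 2 ((mu n).restrict K) ≤ ε / 2 := by
    have h1 : Tendsto (fun m : ℕ => ENNReal.ofReal (1 / ((m : ℝ) + 1))) atTop (𝓝 0) := by
      have h2 := ENNReal.tendsto_ofReal (tendsto_one_div_add_atTop_nhds_zero_nat (𝕜 := ℝ))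
      rwa [ENNReal.ofReal_zero] at h2
    have h3 := ENNReal.Tendsto.mul_const (b := eLpNorm F 2 ((mu n).restrict K)) h1 (Or.inr hC)
    rw [zero_mul] at h3
    exact ((ENNReal.tendsto_nhds_zero.mp h3) (ε / 2) hε2).exists
  have hη : (0 : ℝ) < 1 / ((m : ℝ) + 1) := by positivity
  have hη1 : 1 / ((m : ℝ) + 1) ≤ 1 := by
    rw [div_le_one (by positivity)]
    linarith [Nat.cast_nonneg (α := ℝ) m]
  have h4 : Tendsto (fun k => ENNReal.ofReal (|M| + 1) *
      eLpNorm (fun g => f k g - F g) 2 ((mu n).restrict K)) atTop (𝓝 0) := by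
    have h5 := ENNReal.Tendsto.const_mul (a := ENNReal.ofReal (|M| + 1)) h
      (Or.inr ENNReal.ofReal_ne_top)
    rwa [mul_zero] at h5
  rw [Metric.tendstoUniformlyOn_iff] at hu
  filter_upwards [hu _ hη, (ENNReal.tendsto_nhds_zero.mp h4) (ε / 2) hε2] with k hk hk2
  have hk' : ∀ g ∈ K, |b k g - a g| ≤ 1 / ((m : ℝ) + 1) := by
    intro g hg
    have h6 := hk g hg
    rw [dist_comm, Real.dist_eq] at h6
    exact h6.le
  have e : (fun g => b k g * f k g - a g * F g) =
      (fun g => b k g * (f k g - F g)) + fun g => (b k g - a g) * F g := by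
    funext g
    simp only [Pi.add_apply]
    ring
  rw [e]
  refine (eLpNorm_add_le ((hbm k).mul ((hf k).sub hF).aestronglyMeasurable)
    (((hbm k).sub ham).mul hF.aestronglyMeasurable) (by norm_num)).trans ?_
  have h7 : eLpNorm (fun g => b k g * (f k g - F g)) 2 ((mu n).restrict K) ≤
      ENNReal.ofReal (|M| + 1) * eLpNorm (fun g => f k g - F g) 2 ((mu n).restrict K) := by
    refine eLpNorm_le_mul_eLpNorm_of_ae_le_mul ?_ 2
    refine (ae_restrict_iff' hKm).mpr (ae_of_all _ fun g hg => ?_)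
    rw [norm_mul]
    refine mul_le_mul_of_nonneg_right ?_ (norm_nonneg _)
    rw [Real.norm_eq_abs]
    have h8 : |b k g| ≤ |b k g - a g| + |a g| := by
      have := abs_add_le (b k g - a g) (a g)
      rwa [sub_add_cancel] at this
    linarith [hk' g hg, hM' g hg]
  have h9 : eLpNorm (fun g => (b k g - a g) * F g) 2 ((mu n).restrict K) ≤
      ENNReal.ofReal (1 / ((m : ℝ) + 1)) * eLpNorm F 2 ((mu n).restrict K) := by
    refine eLpNorm_le_mul_eLpNorm_of_ae_le_mul ?_ 2
    refine (ae_restrict_iff' hKm).mpr (ae_of_all _ fun g hg => ?_)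
    rw [norm_mul]
    exact mul_le_mul_of_nonneg_right (hk' g hg) (norm_nonneg _)
  calc _ ≤ ε / 2 + ε / 2 := add_le_add (h7.trans hk2) (h9.trans hm)
    _ = ε := ENNReal.add_halves ε

/-! ### elementary properties -/

/-- PROOF: `G c = dX U - (dX U - G c)`, the first function is continuous. -/
theorem Wg.memLp (h : Wg O u G) {K : Set (SUGroup n)} (hK : IsCompact K) (hKO : K ⊆ O) (c : Ix n) :
    MemLp (G c) 2 ((mu n).restrict K) := by
  obtain ⟨U, hU, -, hG⟩ := h.approx K hKO hK 1 one_pos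
  have h1 : MemLp (fun g : SUGroup n => dX (Xa c) U g.toMatrix) 2 ((mu n).restrict K) :=
    memLp_cont hK (cont_mat (contDiff_dX hU)).continuousOn
  have hm : AEStronglyMeasurable (G c) ((mu n).restrict K) :=
    (h.meas c).mono_measure (Measure.restrict_mono hKO le_rfl)
  have h2 : MemLp (fun g : SUGroup n => dX (Xa c) U g.toMatrix - G c g) 2
      ((mu n).restrict K) :=
    ⟨h1.aestronglyMeasurable.sub hm, (hG c).trans_lt ENNReal.ofReal_lt_top⟩
  have h3 := h1.sub h2
  have e : ((fun g : SUGroup n => dX (Xa c) U g.toMatrix) -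
      fun g : SUGroup n => dX (Xa c) U g.toMatrix - G c g) = G c := by
    funext g
    simp
  rwa [e] at h3

/-- PROOF: every point of `O` has a compact neighbourhood in `O`; `L² ⊆ L¹` on compact sets. -/
theorem Wg.locInt (h : Wg O u G) (hO : IsOpen O) (c : Ix n) :
    LocallyIntegrableOn (G c) O (mu n) := by
  intro x hx
  obtain ⟨K, hK, hxK, hKO⟩ := exists_compact_subset hO hx
  have := fin_restrict hK
  have h1 : IntegrableOn (G c) K (mu n) :=
    memLp_one_iff_integrable.mp ((h.memLp hK hKO c).mono_exponent (by norm_num))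
  exact ⟨K, mem_nhdsWithin_of_mem_nhds (mem_interior_iff_mem_nhds.mp hxK), h1⟩

/-- The sequence form: for every compact `K` in `O` there are smooth functions `U k` with `U k → u`
uniformly on `K` and `dX (U k) → G` in `L²(K)`. -/
theorem Wg.seq (h : Wg O u G) {K : Set (SUGroup n)} (hK : IsCompact K) (hKO : K ⊆ O) :
    ∃ U : ℕ → Mat (n + 1) → ℝ, (∀ k, ContDiff ℝ (⊤ : ℕ∞) (U k)) ∧
      TendstoUniformlyOn (fun k (g : SUGroup n) => U k g.toMatrix) u atTop K ∧
      ∀ c, Tendsto (fun k => eLpNorm (fun g : SUGroup n => dX (Xa c) (U k) g.toMatrix - G c g) 2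
        ((mu n).restrict K)) atTop (𝓝 0) := by
  have hex : ∀ k : ℕ, ∃ U : Mat (n + 1) → ℝ, ContDiff ℝ (⊤ : ℕ∞) U ∧
      (∀ g ∈ K, |U g.toMatrix - u g| ≤ 1 / ((k : ℝ) + 1)) ∧
      ∀ c, eLpNorm (fun g : SUGroup n => dX (Xa c) U g.toMatrix - G c g) 2
        ((mu n).restrict K) ≤ ENNReal.ofReal (1 / ((k : ℝ) + 1)) := fun k =>
    h.approx K hKO hK _ (by positivity)
  choose U hU1 hU2 hU3 using hex
  have hlim := tendsto_one_div_add_atTop_nhds_zero_nat (𝕜 := ℝ)
  refine ⟨U, hU1, ?_, fun c => ?_⟩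
  · rw [Metric.tendstoUniformlyOn_iff]
    intro ε hε
    filter_upwards [(tendsto_order.mp hlim).2 ε hε] with k hk g hg
    rw [dist_comm, Real.dist_eq]
    exact (hU2 k g hg).trans_lt hk
  · have h2 := ENNReal.tendsto_ofReal hlim
    rw [ENNReal.ofReal_zero] at h2
    exact tendsto_of_tendsto_of_tendsto_of_le_of_le tendsto_const_nhds h2 (fun _ => zero_le)
      fun k => hU3 k c

/-- The weak identity. PROOF: `K` = the support of `Φ`, `U k` as in `Wg.seq`, `ibp` for the smooth
function `U k` (`integral_dX` for the product `U k * Φ`), limit. -/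
theorem Wg.weak (h : Wg O u G) (hO : IsOpen O) (hΦ : Cs O Φ) (c : Ix n) :
    ∫ g, u g * dX (Xa c) Φ g.toMatrix ∂(mu n) = -∫ g, G c g * Φ g.toMatrix ∂(mu n) := by
  obtain ⟨K, hKdef⟩ : ∃ K : Set (SUGroup n), K = {g | g.toMatrix ∈ tsupport Φ} := ⟨_, rfl⟩
  have hK : IsCompact K := by
    rw [hKdef]
    exact hΦ.compact
  have hKO : K ⊆ O := by
    intro g hg
    rw [hKdef] at hg
    exact hΦ.sub g hg
  have hz : ∀ g, g ∉ K → Φ g.toMatrix = 0 := by
    intro g hg
    rw [hKdef] at hg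
    exact image_eq_zero_of_notMem_tsupport hg
  have hz' : ∀ g, g ∉ K → dX (Xa c) Φ g.toMatrix = 0 := by
    intro g hg
    rw [hKdef] at hg
    have h1 : fderiv ℝ Φ g.toMatrix = 0 := by
      by_contra h2
      exact hg (support_fderiv_subset ℝ h2)
    rw [dX, h1]
    rfl
  obtain ⟨U, hU, hu, hG⟩ := h.seq hK hKO
  have hibp : ∀ k, ∫ g, U k g.toMatrix * dX (Xa c) Φ g.toMatrix ∂(mu n) =
      -∫ g, dX (Xa c) (U k) g.toMatrix * Φ g.toMatrix ∂(mu n) := by
    intro k
    refine ibp hO (cont_mat (hU k)).continuousOn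
      (cont_mat (contDiff_dX (hU k))).continuousOn (fun g _ => ?_) hΦ
    have h1 := hasDerivAt_dX (hU k) c g 0
    rw [ba_zero, mul_one] at h1
    exact h1
  have hcU : ∀ k, ContinuousOn (fun g : SUGroup n => U k g.toMatrix) K := fun k =>
    (cont_mat (hU k)).continuousOn
  have hcu : ContinuousOn u K := h.cont.mono hKO
  have hmu : MemLp u 2 ((mu n).restrict K) := memLp_cont hK hcu
  have hmU : ∀ k, MemLp (fun g : SUGroup n => U k g.toMatrix) 2 ((mu n).restrict K) := fun k =>
    memLp_cont hK (hcU k)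
  have hΦ1 : MemLp (fun g : SUGroup n => Φ g.toMatrix) 2 ((mu n).restrict K) :=
    memLp_cont hK (cont_mat hΦ.smooth).continuousOn
  have hΦ2 : MemLp (fun g : SUGroup n => dX (Xa c) Φ g.toMatrix) 2 ((mu n).restrict K) :=
    memLp_cont hK (cont_mat (contDiff_dX hΦ.smooth)).continuousOn
  have hone : MemLp (fun _ : SUGroup n => (1 : ℝ)) 2 ((mu n).restrict K) :=
    memLp_cont hK continuousOn_const
  have hconv : Tendsto (fun k => eLpNorm (fun g : SUGroup n => U k g.toMatrix - u g) 2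
      ((mu n).restrict K)) atTop (𝓝 0) := by
    have h1 := tendsto_mul_unif (f := fun _ _ => (1 : ℝ)) (F := fun _ => (1 : ℝ))
      (fun _ => hone) hone hK hcU hcu hu (by simp)
    simpa only [mul_one] using h1
  have t1 := tendsto_int_mul hΦ2 hmU hmu hconv
  have t2 := tendsto_int_mul hΦ1
    (fun k => memLp_cont hK (cont_mat (contDiff_dX (X := Xa c) (hU k))).continuousOn)
    (h.memLp hK hKO c) (hG c)
  have e1 : ∀ F : SUGroup n → ℝ, ∫ g in K, dX (Xa c) Φ g.toMatrix * F g ∂(mu n) =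
      ∫ g, F g * dX (Xa c) Φ g.toMatrix ∂(mu n) := by
    intro F
    rw [setIntegral_eq_integral_of_forall_compl_eq_zero fun g hg => by rw [hz' g hg, zero_mul]]
    exact integral_congr_ae (ae_of_all _ fun g => mul_comm _ _)
  have e2 : ∀ F : SUGroup n → ℝ, ∫ g in K, Φ g.toMatrix * F g ∂(mu n) =
      ∫ g, F g * Φ g.toMatrix ∂(mu n) := by
    intro F
    rw [setIntegral_eq_integral_of_forall_compl_eq_zero fun g hg => by rw [hz g hg, zero_mul]]
    exact integral_congr_ae (ae_of_all _ fun g => mul_comm _ _)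
  simp only [e1] at t1
  simp only [e2] at t2
  simp only [hibp] at t1
  exact tendsto_nhds_unique t1 t2.neg

/-- PROOF: `Wg.weak` and `ae_zero`. -/
theorem Wg.unique (h : Wg O u G) (h' : Wg O u G') (hO : IsOpen O) (c : Ix n) :
    ∀ᵐ g ∂(mu n), g ∈ O → G c g = G' c g := by
  have h1 := ae_zero hO ((h.locInt hO c).sub (h'.locInt hO c)) (fun Φ hΦ => by
    have e1 := h.weak hO hΦ c
    have e2 := h'.weak hO hΦ c
    have i1 := hΦ.integrable (h.locInt hO c) hO
    have i2 := hΦ.integrable (h'.locInt hO c) hO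
    have e3 : ∫ g, (G c - G' c) g * Φ g.toMatrix ∂(mu n) =
        ∫ g, G c g * Φ g.toMatrix ∂(mu n) - ∫ g, G' c g * Φ g.toMatrix ∂(mu n) := by
      rw [← integral_sub i1 i2]
      refine integral_congr_ae (ae_of_all _ fun g => ?_)
      simp only [Pi.sub_apply]
      ring
    rw [e3]
    linarith)
  filter_upwards [h1] with g hg hgO
  have h2 := hg hgO
  rw [Pi.sub_apply, sub_eq_zero] at h2
  exact h2

end Pool.Agent.Lib.MP_5d4057_al.IN.D
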