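import Pool.Agent.Lib.MP_5d4057_al.IN.BarS
import Pool.Agent.Lib.MP_5d4057_al.IN.GroA
import Pool.Agent.Lib.MP_5d4057_al.NU.LatB

/-! Part B of INT: the energy `J` (B4). -/

namespace Pool.Agent.Lib.MP_5d4057_al.IN

open MeasureTheory Filter Topology Pool.Agent.Lib.MP_5d4057_al
open Pool.Agent.Lib.MP_5d4057_al.Hyb Pool.Agent.Lib.MP_5d4057_al.HM
open Pool.Agent.Lib.MP_5d4057_al.NU

open scoped ENNReal

variable {n : ℕ} {Γ : Subgroup (SUGroup n)} {χ : SUGroup n → ℝ} {Y : Type} [MetricSpace Y]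
variable {Φ : Y → Y → ℝ} {κ : ℝ} {lv : Y → ℝ} {y₀ : Y} {ρ : Γ →* Equiv.Perm Y}

/-- A cocompact lattice has a cut off function. PROOF: `NU.exists_chi`; integrable: `∫ χ ≤ ∫_F
∑ χ (γ g) = mu F` for the compact `F` of `Coc` (unfold `1 ≤ ∑ 1_F (γ g)`, countable `Γ`). -/
theorem exists_lat_of_coc (hΓ : Coc Γ) : ∃ χ : SUGroup n → ℝ, Lat Γ χ := by
  obtain ⟨χ, hc, hp, hs⟩ := exists_chi hΓ.disc
  refine ⟨χ, hΓ.disc, hc, hp, hs, hc.aestronglyMeasurable, ?_⟩
  rw [hasFiniteIntegral_iff_ofReal (Filter.Eventually.of_forall fun g => (hp g).le)]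
  have := countable_disc hΓ.disc
  obtain ⟨F, hF, hcov⟩ := hΓ.cpt
  have hFm : MeasurableSet F := hF.isClosed.measurableSet
  have hsm : ∀ g, Summable fun γ : Γ => χ ((γ : SUGroup n) * g) := by
    intro g
    by_contra h0
    have h1 := hs g
    rw [tsum_eq_zero_of_not_summable h0] at h1
    exact zero_ne_one h1
  have hs' : ∀ g, ∑' γ : Γ, ENNReal.ofReal (χ ((γ : SUGroup n) * g)) = 1 := by
    intro g
    rw [← ENNReal.ofReal_tsum_of_nonneg (fun γ => (hp _).le) (hsm g), hs g, ENNReal.ofReal_one]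
  obtain ⟨φ, hφ⟩ : ∃ φ : SUGroup n → ℝ≥0∞, φ = F.indicator 1 := ⟨_, rfl⟩
  have hφm : Measurable φ := by
    rw [hφ]
    exact measurable_one.indicator hFm
  have h1 : ∀ g, 1 ≤ ∑' γ : Γ, φ ((γ : SUGroup n) * g) := by
    intro g
    obtain ⟨γ, hγ, hm⟩ := hcov g
    refine le_trans (le_of_eq ?_) (ENNReal.le_tsum (⟨γ, hγ⟩ : Γ))
    rw [hφ, Set.indicator_of_mem hm, Pi.one_apply]
  have hχm : Measurable fun g => ENNReal.ofReal (χ g) := hc.measurable.ennreal_ofReal
  have e2 : ∀ γ : Γ, ∫⁻ g, ENNReal.ofReal (χ g) * φ ((γ : SUGroup n) * g) ∂(mu n) =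
      ∫⁻ g, ENNReal.ofReal (χ (((γ⁻¹ : Γ) : SUGroup n) * g)) * φ g ∂(mu n) := by
    intro γ
    rw [← lintegral_mul_left_eq_self
      (fun g => ENNReal.ofReal (χ (((γ⁻¹ : Γ) : SUGroup n) * g)) * φ g) (γ : SUGroup n)]
    refine lintegral_congr fun g => ?_
    rw [← mul_assoc, ← Subgroup.coe_mul, inv_mul_cancel, Subgroup.coe_one, one_mul]
  calc ∫⁻ g, ENNReal.ofReal (χ g) ∂(mu n)
      ≤ ∫⁻ g, ∑' γ : Γ, ENNReal.ofReal (χ g) * φ ((γ : SUGroup n) * g) ∂(mu n) := by
        refine lintegral_mono fun g => ?_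
        rw [ENNReal.tsum_mul_left]
        exact le_mul_of_one_le_right' (h1 g)
    _ = ∑' γ : Γ, ∫⁻ g, ENNReal.ofReal (χ g) * φ ((γ : SUGroup n) * g) ∂(mu n) :=
        lintegral_tsum fun γ =>
          (hχm.mul (hφm.comp (measurable_const_mul (γ : SUGroup n)))).aemeasurable
    _ = ∑' γ : Γ, ∫⁻ g, ENNReal.ofReal (χ (((γ⁻¹ : Γ) : SUGroup n) * g)) * φ g ∂(mu n) :=
        tsum_congr e2
    _ = ∫⁻ g, ∑' γ : Γ, ENNReal.ofReal (χ (((γ⁻¹ : Γ) : SUGroup n) * g)) * φ g ∂(mu n) :=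
        (lintegral_tsum fun γ =>
          ((hχm.comp (measurable_const_mul ((γ⁻¹ : Γ) : SUGroup n))).mul hφm).aemeasurable).symm
    _ = ∫⁻ g, φ g ∂(mu n) := by
        refine lintegral_congr fun g => ?_
        rw [ENNReal.tsum_mul_right]
        have h2 : ∑' γ : Γ, ENNReal.ofReal (χ (((γ⁻¹ : Γ) : SUGroup n) * g)) = 1 := by
          rw [← hs' g]
          exact (Equiv.inv Γ).tsum_eq fun γ : Γ => ENNReal.ofReal (χ ((γ : SUGroup n) * g))
        rw [h2, one_mul]
    _ = mu n F := by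
        rw [hφ, lintegral_indicator_one hFm]
    _ < ⊤ := hF.measure_lt_top

/-- The energy of a pair. -/
noncomputable def LJ (χ : SUGroup n → ℝ) (Φ : Y → Y → ℝ) (s : ℕ) (h f : SUGroup n → Y) : ℝ≥0∞ :=
  LI χ fun g => ∫⁻ x, ENNReal.ofReal (kap s x) * ENNReal.ofReal (Φ (h g) (f (g * x))) ∂(mu n)

/-- PROOF: `NU.LI_swap` with `Φ' g g' = ofReal (Φ (h g) (f g'))`, `kap_inv`. -/
theorem LJ_symm (hχ : Lat Γ χ) (T : Tgt Φ κ) (hA : Acts ρ Φ lv) {s : ℕ} {h f : SUGroup n → Y}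
    (hh : Eqv ρ h) (hf : Eqv ρ f) : LJ χ Φ s h f = LJ χ Φ s f h := by
  obtain ⟨Φ', hΦ'⟩ : ∃ Φ' : SUGroup n → SUGroup n → ℝ≥0∞,
      Φ' = fun g g' => ENNReal.ofReal (Φ (h g) (f g')) := ⟨_, rfl⟩
  have hm : AEMeasurable (Function.uncurry Φ') ((mu n).prod (mu n)) := by
    have hc : Continuous (Function.uncurry Φ') := by
      rw [hΦ']
      exact ENNReal.continuous_ofReal.comp (T.continuous.comp
        ((hh.cont.comp continuous_fst).prodMk (hf.cont.comp continuous_snd)))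
    exact hc.measurable.aemeasurable
  have hinv : ∀ γ ∈ Γ, ∀ g g' : SUGroup n, Φ' (γ * g) (γ * g') = Φ' g g' := by
    intro γ hγ g g'
    rw [hΦ']
    show ENNReal.ofReal (Φ (h (γ * g)) (f (γ * g'))) = ENNReal.ofReal (Φ (h g) (f g'))
    have h1 := hh.equi ⟨γ, hγ⟩ g
    have h2 := hf.equi ⟨γ, hγ⟩ g'
    have h1' : h (γ * g) = ρ ⟨γ, hγ⟩ (h g) := h1
    have h2' : f (γ * g') = ρ ⟨γ, hγ⟩ (f g') := h2
    rw [h1', h2', hA.phi]
  have hκ : AEMeasurable (fun x : SUGroup n => ENNReal.ofReal (kap s x)) (mu n) :=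
    (continuous_kap s).measurable.ennreal_ofReal.aemeasurable
  have e1 := LI_swap hχ hm hinv hκ (fun x => by rw [kap_inv])
  rw [hΦ'] at e1
  have e2 : LJ χ Φ s h f = LI χ (fun g => ∫⁻ x, ENNReal.ofReal (kap s x) *
    ENNReal.ofReal (Φ (h (g * x)) (f g)) ∂(mu n)) := e1
  rw [e2]
  unfold LJ
  simp only [T.symm (f _) (h _)]

private theorem enj_conv (T : Tgt Φ κ) {s : ℕ} (hs : n + 2 < s) {C : ℝ} {f : SUGroup n → Y}
    (hf : Continuous f) (hg : Lg C y₀ f) (g : SUGroup n) (y : Y) :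
    ∫⁻ x, ENNReal.ofReal (kap s x) * ENNReal.ofReal (Φ y (f (g * x))) ∂(mu n) =
      ENNReal.ofReal (∫ x, Φ y (f (g * x)) ∂(kapM n s)) := by
  rw [← lintegral_kapM s (fun x => ENNReal.ofReal (Φ y (f (g * x)))),
    ofReal_integral_eq_lintegral_ofReal (T.integrable (Lg.sqI hf hg hs g) y)
      (Filter.Eventually.of_forall fun x => T.nonneg _ _)]

/-- The variance inequality, integrated. PROOF: pointwise `IsBar` at `g` with `y = h g`, in the form
of lower integrals (`ofReal_integral_eq_lintegral_ofReal`, `Tgt.integrable`, `Lg.sqI`), `LI_add`. -/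
theorem LJ_bar (hχ : Lat Γ χ) (T : Tgt Φ κ) {s : ℕ} (hs : n + 2 < s) {C : ℝ}
    {h f f' : SUGroup n → Y} (hh : Continuous h) (hf : Continuous f) (hf' : Continuous f')
    (hg : Lg C y₀ f) (hb : Bs Φ s f f') :
    LJ χ Φ s f' f + LI χ (fun g => ENNReal.ofReal (Φ (h g) (f' g))) ≤ LJ χ Φ s h f := by
  have hm : AEMeasurable (fun g => ENNReal.ofReal (Φ (h g) (f' g))) (mu n) := by
    have hc : Continuous (fun g => ENNReal.ofReal (Φ (h g) (f' g))) :=
      ENNReal.continuous_ofReal.comp (T.continuous.comp (hh.prodMk hf'))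
    exact hc.measurable.aemeasurable
  rw [add_comm]
  unfold LJ
  rw [← LI_add hχ hm]
  refine LI_mono fun g => ?_
  rw [enj_conv T hs hf hg g (f' g), enj_conv T hs hf hg g (h g),
    ← ENNReal.ofReal_add (T.nonneg _ _) (integral_nonneg fun x => T.nonneg _ _)]
  refine ENNReal.ofReal_le_ofReal ?_
  have h1 := hb g (h g)
  linarith

/-- The energy of a Lipschitz map. PROOF: `Φ (f g) (f (g x)) ≤ κ L² (log wt x)²`, `kap_log`. -/
theorem LJ_lip (n : ℕ) : ∃ (s₀ : ℕ) (K : ℝ), 0 < K ∧ ∀ {Y : Type} [MetricSpace Y]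
    {Φ : Y → Y → ℝ} {κ : ℝ} {Γ : Subgroup (SUGroup n)} {χ : SUGroup n → ℝ}, Tgt Φ κ → Lat Γ χ →
      ∀ s, s₀ ≤ s → ∀ (L : ℝ) (f : SUGroup n → Y), Continuous f → LipD L f →
        LJ χ Φ s f f ≤ ENNReal.ofReal (K * κ * L ^ 2 / s) * LI χ 1 := by
  obtain ⟨s₀, K, hK, hkl⟩ := kap_log n
  refine ⟨s₀, K, hK, ?_⟩
  intro Y _ Φ κ Γ χ T hχ s hs L f hf hL
  obtain ⟨-, hi2, -, hb2⟩ := hkl s hs
  have hκ0 : 0 ≤ κ := zero_le_one.trans T.one_le
  have h1 : ∀ g : SUGroup n, ∫⁻ x, ENNReal.ofReal (kap s x) *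
      ENNReal.ofReal (Φ (f g) (f (g * x))) ∂(mu n) ≤
      ENNReal.ofReal (K * κ * L ^ 2 / s) * 1 := by
    intro g
    have h2 : ∀ x, ENNReal.ofReal (kap s x) * ENNReal.ofReal (Φ (f g) (f (g * x))) ≤
        ENNReal.ofReal (κ * L ^ 2) * ENNReal.ofReal (kap s x * Real.log (wt x) ^ 2) := by
      intro x
      rw [← ENNReal.ofReal_mul (kap_nonneg s x), ← ENNReal.ofReal_mul (by positivity)]
      refine ENNReal.ofReal_le_ofReal ?_
      have h3 : dist (f g) (f (g * x)) ^ 2 ≤ (L * Real.log (wt x)) ^ 2 :=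
        pow_le_pow_left₀ dist_nonneg (hL g x) 2
      have h4 : Φ (f g) (f (g * x)) ≤ κ * (L * Real.log (wt x)) ^ 2 :=
        (T.le _ _).trans (mul_le_mul_of_nonneg_left h3 hκ0)
      calc kap s x * Φ (f g) (f (g * x)) ≤ kap s x * (κ * (L * Real.log (wt x)) ^ 2) :=
            mul_le_mul_of_nonneg_left h4 (kap_nonneg s x)
        _ = κ * L ^ 2 * (kap s x * Real.log (wt x) ^ 2) := by ring
    calc ∫⁻ x, ENNReal.ofReal (kap s x) * ENNReal.ofReal (Φ (f g) (f (g * x))) ∂(mu n)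
        ≤ ∫⁻ x : SUGroup n, ENNReal.ofReal (κ * L ^ 2) *
            ENNReal.ofReal (kap s x * Real.log (wt x) ^ 2) ∂(mu n) := lintegral_mono h2
      _ = ENNReal.ofReal (κ * L ^ 2) *
            ∫⁻ x : SUGroup n, ENNReal.ofReal (kap s x * Real.log (wt x) ^ 2) ∂(mu n) :=
          lintegral_const_mul' _ _ ENNReal.ofReal_ne_top
      _ = ENNReal.ofReal (κ * L ^ 2) *
            ENNReal.ofReal (∫ x : SUGroup n, kap s x * Real.log (wt x) ^ 2 ∂(mu n)) := by
          rw [ofReal_integral_eq_lintegral_ofReal hi2 (Filter.Eventually.of_forall fun x =>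
            mul_nonneg (kap_nonneg s x) (sq_nonneg _))]
      _ = ENNReal.ofReal (κ * L ^ 2 *
            ∫ x : SUGroup n, kap s x * Real.log (wt x) ^ 2 ∂(mu n)) :=
          (ENNReal.ofReal_mul (mul_nonneg hκ0 (sq_nonneg L))).symm
      _ ≤ ENNReal.ofReal (κ * L ^ 2 * (K / s)) :=
          ENNReal.ofReal_le_ofReal (mul_le_mul_of_nonneg_left hb2 (by positivity))
      _ = ENNReal.ofReal (K * κ * L ^ 2 / s) * 1 := by
          rw [mul_one]
          congr 1
          ring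
  calc LJ χ Φ s f f ≤ LI χ (fun g => ENNReal.ofReal (K * κ * L ^ 2 / s) *
        (1 : SUGroup n → ℝ≥0∞) g) := LI_mono h1
    _ = ENNReal.ofReal (K * κ * L ^ 2 / s) * LI χ 1 :=
        LI_const_mul hχ _ measurable_one.aemeasurable

/-- The energy `J (bar_s f, f)` is the integral of the spread. -/
theorem LJ_spread (hχ : Lat Γ χ) (T : Tgt Φ κ) {s : ℕ} (hs : n + 2 < s) {C : ℝ}
    {f f' : SUGroup n → Y} (hf : Continuous f) (hg : Lg C y₀ f) (hb : Bs Φ s f f') :
    LJ χ Φ s f' f = LI χ fun g => ENNReal.ofReal (Sp Φ s f f' g) := by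
  unfold LJ Sp
  congr 1
  funext g
  exact enj_conv T hs hf hg g (f' g)

private theorem enj_at {h : ℕ → SUGroup n → Y} {h' : SUGroup n → Y}
    (th : TendstoLocallyUniformly h h' atTop) (g : SUGroup n) :
    Tendsto (fun j => h j g) atTop (𝓝 (h' g)) :=
  (tendstoLocallyUniformlyOn_univ.2 th).tendsto_at (Set.mem_univ g)

/-- The distance of `h j` and `f j` is bounded, uniformly for large `j`. -/
private theorem enj_bdd (hΓ : Coc Γ) (hA : Acts ρ Φ lv) {h f : ℕ → SUGroup n → Y}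
    {h' f' : SUGroup n → Y} (hh : ∀ j, Eqv ρ (h j)) (hf : ∀ j, Eqv ρ (f j))
    (th : TendstoLocallyUniformly h h' atTop) (tf : TendstoLocallyUniformly f f' atTop) :
    ∃ R : ℝ, 0 ≤ R ∧ ∀ᶠ j in atTop, ∀ g, dist (h j g) (f j g) ≤ R := by
  obtain ⟨F, hF, hcov⟩ := hΓ.cpt
  have hh'c : Continuous h' := th.continuous (Frequently.of_forall fun j => (hh j).cont)
  have hf'c : Continuous f' := tf.continuous (Frequently.of_forall fun j => (hf j).cont)
  obtain ⟨R, hR⟩ := (hF.image (hh'c.dist hf'c)).bddAbove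
  have hR' : ∀ g ∈ F, dist (h' g) (f' g) ≤ R := fun g hg => hR (Set.mem_image_of_mem _ hg)
  have uh := (tendstoLocallyUniformlyOn_iff_tendstoUniformlyOn_of_compact hF).1
    (th.tendstoLocallyUniformlyOn (s := F))
  have uf := (tendstoLocallyUniformlyOn_iff_tendstoUniformlyOn_of_compact hF).1
    (tf.tendstoLocallyUniformlyOn (s := F))
  refine ⟨|R| + 2, by positivity, ?_⟩
  filter_upwards [Metric.tendstoUniformlyOn_iff.1 uh 1 one_pos,
    Metric.tendstoUniformlyOn_iff.1 uf 1 one_pos] with j h1 h2 g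
  obtain ⟨γ, hγ, hm⟩ := hcov g
  have e1 : h j (γ * g) = ρ ⟨γ, hγ⟩ (h j g) := (hh j).equi ⟨γ, hγ⟩ g
  have e2 : f j (γ * g) = ρ ⟨γ, hγ⟩ (f j g) := (hf j).equi ⟨γ, hγ⟩ g
  rw [← hA.iso ⟨γ, hγ⟩ (h j g) (f j g), ← e1, ← e2]
  have h3 := h1 _ hm
  have h4 := h2 _ hm
  have h5 := hR' _ hm
  have h6 := dist_triangle4 (h j (γ * g)) (h' (γ * g)) (f' (γ * g)) (f j (γ * g))
  rw [dist_comm] at h3
  have h7 := le_abs_self R
  linarith

/-- The dominating function. -/
private theorem enj_dom {s : ℕ} (hs : n + 2 < s) (κ R L : ℝ) :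
    ∫⁻ x : SUGroup n, ENNReal.ofReal (κ * (R + L * Real.log (wt x)) ^ 2) ∂(kapM n s) ≠ ⊤ := by
  have hwt : ∀ x : SUGroup n, 0 ≤ Real.log (wt x) := fun x => Real.log_nonneg (one_le_wt x)
  have hc : Continuous fun x : SUGroup n => R + L * Real.log (wt x) := by
    refine continuous_const.add (continuous_const.mul (continuous_wt.log fun x => ?_))
    exact (lt_of_lt_of_le one_pos (one_le_wt x)).ne'
  have hg : Lg (|R| + |L|) (0 : ℝ) fun x : SUGroup n => R + L * Real.log (wt x) := by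
    intro x
    rw [dist_comm, Real.dist_eq, sub_zero]
    have h1 := abs_add_le R (L * Real.log (wt x))
    rw [abs_mul, abs_of_nonneg (hwt x)] at h1
    have h2 := mul_nonneg (abs_nonneg R) (hwt x)
    have h3 := abs_nonneg L
    nlinarith
  have h1 := ((Lg.sqI hc hg hs 1).int 0).const_mul κ
  have h2 : Integrable (fun x : SUGroup n => κ * (R + L * Real.log (wt x)) ^ 2) (kapM n s) := by
    refine h1.congr (Filter.Eventually.of_forall fun x => ?_)
    show κ * dist (0 : ℝ) (R + L * Real.log (wt (1 * x))) ^ 2 = _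
    rw [one_mul, dist_comm, Real.dist_eq, sub_zero, sq_abs]
  exact ((hasFiniteIntegral_iff_norm _).1 h2.2 |> fun h3 =>
    (lt_of_le_of_lt (lintegral_mono fun x => ENNReal.ofReal_le_ofReal (Real.le_norm_self _)) h3).ne)

/-- Lower semicontinuity is not needed: the energy converges for locally uniformly convergent
sequences of equivariant maps with a common Lipschitz constant. PROOF: for fixed `g` the inner
integrals converge (dominated by `κ (R + L log wt x)² kap s x`, `R` a bound of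
`dist (h j g) (f j g)`, which is `Γ`-invariant in `g`, hence bounded uniformly in `g` and `j` because
`Γ` is cocompact); they are bounded uniformly in `g, j`, and `χ` is integrable. -/
theorem LJ_tendsto (hn : 1 ≤ n) (hΓ : Coc Γ) (hχ : Lat Γ χ) (T : Tgt Φ κ) (hA : Acts ρ Φ lv)
    {s : ℕ} (hs : n + 2 < s) {L : ℝ} {h f : ℕ → SUGroup n → Y} {h' f' : SUGroup n → Y}
    (hh : ∀ j, Eqv ρ (h j)) (hf : ∀ j, Eqv ρ (f j)) (hLh : ∀ j, LipD L (h j))
    (hLf : ∀ j, LipD L (f j)) (th : TendstoLocallyUniformly h h' atTop)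
    (tf : TendstoLocallyUniformly f f' atTop) :
    Tendsto (fun j => LJ χ Φ s (h j) (f j)) atTop (𝓝 (LJ χ Φ s h' f')) := by
  have hP : IsProbabilityMeasure (kapM n s) := isProb_kapM (by omega)
  have hκ0 : 0 ≤ κ := zero_le_one.trans T.one_le
  have hh'c : Continuous h' := th.continuous (Frequently.of_forall fun j => (hh j).cont)
  have hf'c : Continuous f' := tf.continuous (Frequently.of_forall fun j => (hf j).cont)
  obtain ⟨R, hR0, hR⟩ := enj_bdd hΓ hA hh hf th tf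
  obtain ⟨B, hB⟩ : ∃ B : SUGroup n → ℝ≥0∞,
      B = fun x => ENNReal.ofReal (κ * (R + L * Real.log (wt x)) ^ 2) := ⟨_, rfl⟩
  have hBf : ∫⁻ x, B x ∂(kapM n s) ≠ ⊤ := by
    rw [hB]
    exact enj_dom hs κ R L
  have hbd : ∀ᶠ j in atTop, ∀ g x, ENNReal.ofReal (Φ (h j g) (f j (g * x))) ≤ B x := by
    filter_upwards [hR] with j hj g x
    rw [hB]
    refine ENNReal.ofReal_le_ofReal ((T.le _ _).trans (mul_le_mul_of_nonneg_left ?_ hκ0))
    refine pow_le_pow_left₀ dist_nonneg ?_ 2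
    exact (dist_triangle _ (f j g) _).trans (add_le_add (hj g) (hLf j g x))
  have hcj : ∀ u v : SUGroup n → Y, Continuous u → Continuous v →
      Continuous fun p : SUGroup n × SUGroup n => ENNReal.ofReal (Φ (u p.1) (v (p.1 * p.2))) := by
    intro u v hu hv
    exact ENNReal.continuous_ofReal.comp (T.continuous.comp
      ((hu.comp continuous_fst).prodMk (hv.comp (continuous_fst.mul continuous_snd))))
  have hLJ : ∀ u v : SUGroup n → Y, LJ χ Φ s u v = ∫⁻ g, ENNReal.ofReal (χ g) *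
      ∫⁻ x, ENNReal.ofReal (Φ (u g) (v (g * x))) ∂(kapM n s) ∂(mu n) := by
    intro u v
    unfold LJ LI
    refine lintegral_congr fun g => ?_
    rw [lintegral_kapM s (fun x => ENNReal.ofReal (Φ (u g) (v (g * x))))]
  simp only [hLJ]
  refine tendsto_lintegral_filter_of_dominated_convergence
    (fun g => ENNReal.ofReal (χ g) * ∫⁻ x, B x ∂(kapM n s)) ?_ ?_ ?_ ?_
  · refine Filter.Eventually.of_forall fun j => ?_
    exact hχ.measurable.mul (hcj _ _ (hh j).cont (hf j).cont).measurable.lintegral_prod_right'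
  · filter_upwards [hbd] with j hj
    refine Filter.Eventually.of_forall fun g => ?_
    exact mul_le_mul_right (lintegral_mono fun x => hj g x) _
  · rw [lintegral_mul_const _ hχ.measurable]
    refine ENNReal.mul_ne_top ?_ hBf
    have h1 := hχ.LI_one
    unfold LI at h1
    simp only [Pi.one_apply, mul_one] at h1
    exact h1.ne
  · refine Filter.Eventually.of_forall fun g => ?_
    refine ENNReal.Tendsto.const_mul ?_ (Or.inr ENNReal.ofReal_ne_top)
    refine tendsto_lintegral_filter_of_dominated_convergence B ?_ ?_ hBf ?_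
    · refine Filter.Eventually.of_forall fun j => ?_
      exact ((hcj _ _ (hh j).cont (hf j).cont).comp
        (continuous_const.prodMk continuous_id)).measurable
    · filter_upwards [hbd] with j hj
      exact Filter.Eventually.of_forall fun x => hj g x
    · refine Filter.Eventually.of_forall fun x => ?_
      refine (ENNReal.continuous_ofReal.tendsto _).comp ?_
      exact (T.continuous.tendsto (h' g, f' (g * x))).comp
        ((enj_at th g).prodMk_nhds (enj_at tf (g * x)))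

end Pool.Agent.Lib.MP_5d4057_al.IN
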