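import Pool.Agent.Lib.MP_5d4057_al.IN.FMax
import Pool.Agent.Lib.MP_5d4057_al.IN.FEmb
import Pool.Agent.Lib.MP_5d4057_al.IN.FRep
import Pool.Agent.Lib.MP_5d4057_al.HM.AppFinal

/-!
# Part F4: the final theorem: cocompact hybrids of arithmetic pieces are arithmetic
-/

namespace Pool.Agent.Lib.MP_5d4057_al.IN

open Matrix Filter Topology Module Pool.Agent.Lib.MP_5d4057_al
  Pool.Agent.Lib.MP_5d4057_al.Hyb Pool.Agent.Lib.MP_5d4057_al.HM Pool.Agent.Lib.MP_5d4057_al.NU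

/-- Integrality of the traces of a cocompact hybrid of arithmetic pieces. -/
theorem integral_of_coc (G : ThmG) {k : ℕ} (hk : 1 ≤ k) (Γ₃ : Subgroup (SUGroup k))
    (Γ : Fin 2 → Subgroup (SUGroup (k + 1))) (g : Fin 2 → SUGroup (k + 2))
    (h₃ : IsLattice Γ₃) (hL : ∀ b, IsLattice (Γ b)) (hA : ∀ b, IsArith (k + 1) (Γ b))
    (hagree : ∀ γ ∈ Γ₃, g 0 * extend (k + 1) (extend k γ) * (g 0)⁻¹ =
      g 1 * extend (k + 1) (extend k γ) * (g 1)⁻¹)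
    (hlat : IsLattice (hybrid Γ g)) (hcoc : Coc (hybrid Γ g)) :
    ∀ γ ∈ hybrid Γ g, IsIntegral ℤ γ.toMatrix.trace := by
  intro γ hγ
  by_contra hx
  obtain ⟨p, hp, σ, hσ⟩ := exists_embed hx
  have hcocb : ∀ b, Coc (Γ b) := coc_piece hL hcoc
  have hfgg : FGG (hybrid Γ g) := fgg_hybrid (fun b => RC.fgg_of_isArith (hA b)) g
  have hspan : Submodule.span ℂ (SUGroup.toMatrix '' (hybrid Γ g : Set (SUGroup (k + 2)))) = ⊤ :=
    span_top (by omega) (hybrid Γ g) hlat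
  obtain ⟨F, iF₁, iF₂, iF₃, i, ρ, hi, hrep, hρ⟩ := exists_rep p σ hfgg hspan
  obtain ⟨f, hf⟩ := G (k + 2) (hybrid Γ g) F (k + 2 + 1) ρ (by omega) (by omega) hcoc hrep
  have hb : ∀ b, Bdd (ρ.comp (embHyb Γ g b)) := by
    intro b
    obtain ⟨C, hC⟩ := bdd_of_isArith p σ (hA b)
    exact bdd_of_entries p hi hρ b hC
  obtain ⟨X, ζ, hζ, -, hg⟩ := frame hk Γ₃ h₃ g hagree
  have hζ0 : ζ ≠ 0 := by
    intro h
    rw [h, mul_zero] at hζ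
    exact zero_ne_one hζ
  have htr := trace_le_of_pieces (by omega : 1 ≤ k + 1) hf hcocb hb hζ0 (act_gen_one hg) ⟨γ, hγ⟩
  have h1 : i (LinearMap.trace F (Fin (k + 2 + 1) → F)
      (ρ ⟨γ, hγ⟩ : (Fin (k + 2 + 1) → F) →ₗ[F] (Fin (k + 2 + 1) → F))) = σ γ.toMatrix.trace := by
    have h2 := congrArg Matrix.trace (hρ ⟨γ, hγ⟩)
    simp only [Matrix.trace, Matrix.diag, Matrix.map_apply] at h2
    rw [← Matrix.toLin'_toMatrix' (ρ ⟨γ, hγ⟩ : (Fin (k + 2 + 1) → F) →ₗ[F] (Fin (k + 2 + 1) → F)),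
      Matrix.trace_toLin'_eq, Matrix.trace, Matrix.trace, map_sum, map_sum]
    exact h2
  rw [← hi, h1] at htr
  exact absurd htr (not_le.2 hσ)

/-- FINAL THEOREM. -/
theorem hybrid_arith (G : ThmG) (k : ℕ) (hk : 1 ≤ k) (Γ₃ : Subgroup (SUGroup k))
    (Γ : Fin 2 → Subgroup (SUGroup (k + 1))) (g : Fin 2 → SUGroup (k + 2))
    (h₃ : IsLattice Γ₃) (hL : ∀ b, IsLattice (Γ b)) (hA : ∀ b, IsArith (k + 1) (Γ b))
    (hsub : ∀ b, ∀ γ ∈ Γ₃, extend k γ ∈ Γ b)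
    (hagree : ∀ γ ∈ Γ₃, g 0 * extend (k + 1) (extend k γ) * (g 0)⁻¹ =
      g 1 * extend (k + 1) (extend k γ) * (g 1)⁻¹)
    (hlat : IsLattice (hybrid Γ g)) (hc : CompactSpace (SUGroup (k + 2) ⧸ hybrid Γ g)) :
    IsArith (k + 2) (hybrid Γ g) := by
  have hcoc : Coc (hybrid Γ g) := coc_of_compactSpace hlat.1 hc
  obtain ⟨h1, h2⟩ := hybrid_final k hk Γ₃ Γ g h₃ hL hA hsub hagree (Or.inl hc) hlat
  exact h1.2 ⟨h2 (Or.inl hc), integral_of_coc G hk Γ₃ Γ g h₃ hL hA hagree hlat hcoc⟩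

end Pool.Agent.Lib.MP_5d4057_al.IN
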