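import Pool.Agent.Lib.MP_5d4057_al.IN.NmB

/-!
# A fixed norm bounds the traces

Part F of INT.
-/

set_option autoImplicit false

namespace Pool.Agent.Lib.MP_5d4057_al.IN

open Module

variable {k : Type} [NontriviallyNormedField k] [IsUltrametricDist k] [ProperSpace k]
  {V : Type} [AddCommGroup V] [Module k V] [FiniteDimensional k V]

/-- An endomorphism which does not increase an ultrametric norm has trace of absolute value at most
one. -/
theorem norm_trace_le_one (N : Nm k V) (f : V →ₗ[k] V) (h : ∀ v, N (f v) ≤ N v) :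
    ‖LinearMap.trace k V f‖ ≤ 1 := by
  obtain ⟨b, hb⟩ := exists_orth N
  rw [LinearMap.trace_eq_matrix_trace k b, Matrix.trace]
  refine IsUltrametricDist.norm_sum_le_of_forall_le_of_nonneg zero_le_one fun i _ => ?_
  rw [Matrix.diag_apply, LinearMap.toMatrix_apply]
  have h1 := (hb (f (b i)) i).trans (h (b i))
  have h2 : 0 < N (b i) := N.pos (b.ne_zero i)
  exact le_of_mul_le_mul_right (by rwa [one_mul]) h2

/-- The same for matrices. -/
theorem norm_matrix_trace_le_one {n : ℕ} (N : Nm k (Fin n → k)) (A : Matrix (Fin n) (Fin n) k)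
    (h : ∀ v, N (A.mulVec v) ≤ N v) : ‖A.trace‖ ≤ 1 := by
  have h1 := norm_trace_le_one N (Matrix.toLin' A) fun v => by
    rw [Matrix.toLin'_apply]
    exact h v
  rwa [Matrix.trace_toLin'_eq] at h1

end Pool.Agent.Lib.MP_5d4057_al.IN
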