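import Pool.Agent.Lib.MP_5d4057_al.IN.Plc
import Pool.Agent.Lib.MP_5d4057_al.IN.TrN
import Pool.Agent.Lib.MP_5d4057_al.IN.BdP

/-!
# Integrality of the traces from the boundedness at all finite places

Part F of INT: the arithmetic end.
-/

set_option autoImplicit false

namespace Pool.Agent.Lib.MP_5d4057_al.IN

open Matrix Pool.Agent.Lib.MP_5d4057_al Pool.Agent.Lib.MP_5d4057_al.Hyb
  Pool.Agent.Lib.MP_5d4057_al.HM

/-- The hybrid is bounded at every finite place: every representation over a local field with the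
properties of `rhoK` fixes an ultrametric norm. This is what the harmonic maps of parts A - E give. -/
def BddAll {m : ℕ} (Γ : Fin 2 → Subgroup (SUGroup m)) (g : Fin 2 → SUGroup (m + 1)) : Prop :=
  ∀ (k : Type) [NontriviallyNormedField k] [IsUltrametricDist k] [ProperSpace k]
    (ρ : hybrid Γ g →* Matrix (Fin (m + 1 + 1)) (Fin (m + 1 + 1)) k),
    Submodule.span k (Set.range ρ) = ⊤ → (∀ γ, (ρ γ).det = 1) →
    (∀ b, ∃ C : ℝ, ∀ (γ : Γ b) i j, ‖ρ (embHyb Γ g b γ) i j‖ ≤ C) →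
    ∃ N : Nm k (Fin (m + 1 + 1) → k), ∀ γ v, N (ρ γ *ᵥ v) = N v

/-- All traces of the hybrid are algebraic integers. -/
theorem integral_of_bdd {m : ℕ} (hm : 1 ≤ m) {K : Subfield ℂ} (hK : NumberField K)
    {Γ : Fin 2 → Subgroup (SUGroup m)} {g : Fin 2 → SUGroup (m + 1)} (hL : ∀ b, IsLattice (Γ b))
    (hA : ∀ b, IsArithmetic m (Γ b)) {B : Matrix (Fin (m + 1 + 1)) (Fin (m + 1 + 1)) ℂ}
    (hB : B.det ≠ 0) (hr : ∀ γ ∈ hybrid Γ g, EntriesIn K B γ.toMatrix)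
    (hspan : Submodule.span ℂ (SUGroup.toMatrix '' (hybrid Γ g : Set (SUGroup (m + 1)))) = ⊤)
    (hG : BddAll Γ g) : ∀ γ ∈ hybrid Γ g, IsIntegral ℤ γ.toMatrix.trace := by
  intro γ hγ
  by_contra hcon
  have htr := trace_kmat hB hr ⟨γ, hγ⟩
  have hx : ¬ IsIntegral ℤ (kmat hB hr ⟨γ, hγ⟩).trace := by
    intro h
    refine hcon ?_
    have h1 : IsIntegral ℤ (((kmat hB hr ⟨γ, hγ⟩).trace : K) : ℂ) :=
      h.map (K.subtype.toIntAlgHom)
    rw [htr] at h1
    exact h1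
  obtain ⟨k, i1, i2, i3, -, σ, hσ⟩ := exists_place hx
  obtain ⟨N, hN⟩ := hG k (rhoK hB hr σ) (span_rhoK hB hr σ hspan) (det_rhoK hB hr σ)
    (fun b => bounded_piece hm hL hA hB hr σ b)
  have h1 := norm_matrix_trace_le_one N (rhoK hB hr σ ⟨γ, hγ⟩) fun v => (hN _ v).le
  rw [trace_rhoK] at h1
  exact absurd h1 (not_le.2 hσ)

end Pool.Agent.Lib.MP_5d4057_al.IN
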