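import Pool.Agent.Lib.MP_5d4057_al.IN.GroN
import Pool.Agent.Lib.MP_5d4057_al.IN.Flat

/-!
# Nonuniform lattices at a finite place: the cusp groups fix a norm
-/

namespace Pool.Agent.Lib.MP_5d4057_al.IN

open Matrix MeasureTheory Filter Topology Module Pool.Agent.Lib.MP_5d4057_al
  Pool.Agent.Lib.MP_5d4057_al.Hyb Pool.Agent.Lib.MP_5d4057_al.HM
  Pool.Agent.Lib.MP_5d4057_al.HM.Kak Pool.Agent.Lib.MP_5d4057_al.NU

variable {n m : ℕ} {Γ : Subgroup (SUGroup n)}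

theorem hf_smul (c : ℂ) (p : Vec n) (g : SUGroup n) : hf (c • p) g = hf p g / ‖c‖ ^ 2 := by
  rw [hf, hf, yp_smul]

/-- The horofunction of `(ξ, 1)` on the geodesic to `ξ`. -/
theorem hf_fl {ξ : Fin n → ℂ} (hξ : nq ξ = 1) (t : ℝ) : hf (pe ξ) (fl ξ t) = Real.exp (2 * t) := by
  have h1 := yp_ray hξ (1 : SUGroup n) t
  rw [inv_one, mv_one, one_mul] at h1
  rw [hf, h1, yp_pe, inv_one, ml_one, norm_one]
  simp

/-- Horofunctions are unbounded. -/
theorem exists_hf_ge {p : Vec n} (hp : p ≠ 0) (hq : q p = 0) (R : ℝ) : ∃ g, R ≤ hf p g := by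
  obtain ⟨h0, ξ, hξ, hpe⟩ := exists_pe hp hq
  have hc : 0 < ‖p (Fin.last n)‖ ^ 2 := by
    have := norm_pos_iff.2 h0
    positivity
  obtain ⟨c, hcd⟩ : ∃ c, c = p (Fin.last n) := ⟨_, rfl⟩
  rw [← hcd] at hc hpe
  refine ⟨fl ξ (R * ‖c‖ ^ 2), ?_⟩
  rw [hpe, hf_smul, hf_fl hξ, le_div_iff₀ hc]
  have h1 := Real.add_one_le_exp (2 * (R * ‖c‖ ^ 2))
  rcases le_or_gt 0 R with h | h
  · have : 0 ≤ R * ‖c‖ ^ 2 := mul_nonneg h hc.le
    linarith
  · have : R * ‖c‖ ^ 2 ≤ 0 := mul_nonpos_of_nonpos_of_nonneg h.le hc.le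
    exact this.trans (Real.exp_pos _).le

/-- The stabiliser of the horofunction of `(ξ, 1)`. -/
theorem mem_PS_of_hf {ξ : Fin n → ℂ} (hξ : nq ξ = 1) {γ : SUGroup n}
    (h : ∀ g : SUGroup n, hf (pe ξ) (γ⁻¹ * g) = hf (pe ξ) g) : γ ∈ PS ξ := by
  have h0 := ml_ne_zero hξ γ
  have hη := nq_mv hξ γ
  -- the two functions on the cone
  have h1 : ∀ v ∈ Cone n, yp (pe (mv γ ξ)) v = ‖ml γ ξ‖ ^ 2 * yp (pe ξ) v := by
    intro v hv
    obtain ⟨g, c, hc, rfl⟩ := exists_act_eq hv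
    rw [yp_homog _ c hc _ (orbit_mem g), yp_homog _ c hc _ (orbit_mem g)]
    have h2 := h g
    rw [hf, hf] at h2
    have h3 : yp (pe ξ) (act (γ⁻¹ * g) (base n)) = yp (act γ (pe ξ)) (act g (base n)) := by
      rw [← yp_act γ (pe ξ), ← act_mul, mul_inv_cancel_left]
    rw [h3, act_pe hξ, yp_smul] at h2
    have h4 : ‖ml γ ξ‖ ^ 2 ≠ 0 := pow_ne_zero _ (norm_ne_zero_iff.2 h0)
    rw [← h2]
    field_simp
  have hpp : herm (pe ξ) (pe ξ) = 0 := by
    rw [herm_self, q_pe, hξ, sub_self, Complex.ofReal_zero]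
  have hne : mv γ ξ = ξ := by
    by_contra hne
    have ha : 0 < ‖herm (pe ξ) (pe (mv γ ξ))‖ := norm_pos_iff.2 (herm_pe_ne hξ hη (Ne.symm hne))
    obtain ⟨a, had⟩ : ∃ a, a = ‖herm (pe ξ) (pe (mv γ ξ))‖ := ⟨_, rfl⟩
    obtain ⟨l, hl⟩ : ∃ l, l = ‖ml γ ξ‖ := ⟨_, rfl⟩
    have hl0 : 0 < l := by rw [hl]; exact norm_pos_iff.2 h0
    rw [← had] at ha
    rw [← hl] at h1
    obtain ⟨s, hs⟩ : ∃ s, s = min (a / 2) (l * a / 4) := ⟨_, rfl⟩
    have hs0 : 0 < s := by rw [hs]; exact lt_min (by positivity) (by positivity)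
    have hs1 : s ≤ a / 2 := by rw [hs]; exact min_le_left _ _
    have hs2 : s ≤ l * a / 4 := by rw [hs]; exact min_le_right _ _
    obtain ⟨v, hv⟩ : ∃ v, v = pe ξ + (s : ℂ) • base n := ⟨_, rfl⟩
    have e1 : herm v (pe ξ) = -(s : ℂ) := by
      rw [hv, herm_add_left, herm_smul_left, hpp, herm_base_pe, Complex.star_def,
        Complex.conj_ofReal]
      ring
    have e2 : herm v (pe (mv γ ξ)) = herm (pe ξ) (pe (mv γ ξ)) - (s : ℂ) := by
      rw [hv, herm_add_left, herm_smul_left, herm_base_pe, Complex.star_def,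
        Complex.conj_ofReal]
      ring
    have e3 : q v = -(2 * s + s ^ 2) := by
      have h5 : ((q v : ℝ) : ℂ) = ((-(2 * s + s ^ 2) : ℝ) : ℂ) := by
        rw [← herm_self]
        have h6 : herm v v = herm v (pe ξ) + (s : ℂ) * herm v (base n) := by
          conv_lhs => rw [hv, herm_add_right, herm_smul_right, ← hv]
        have h7 : herm v (base n) = -1 - (s : ℂ) := by
          rw [hv, herm_add_left, herm_smul_left, herm_comm (base n) (pe ξ), herm_base_pe,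
            herm_self, q_base, Complex.star_def, Complex.conj_ofReal]
          simp
          ring
        rw [h6, h7, e1]
        push_cast
        ring
      exact_mod_cast h5
    have hvc : v ∈ Cone n := by
      show q v < 0
      rw [e3]
      nlinarith
    have h2 := h1 v hvc
    rw [yp, yp, e1, e2, e3, norm_neg, Complex.norm_real, Real.norm_eq_abs, abs_of_pos hs0] at h2
    have e4 : a - s ≤ ‖herm (pe ξ) (pe (mv γ ξ)) - (s : ℂ)‖ := by
      have := norm_sub_norm_le (herm (pe ξ) (pe (mv γ ξ))) (s : ℂ)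
      rwa [Complex.norm_real, Real.norm_eq_abs, abs_of_pos hs0, ← had] at this
    obtain ⟨d, hd⟩ : ∃ d, d = ‖herm (pe ξ) (pe (mv γ ξ)) - (s : ℂ)‖ := ⟨_, rfl⟩
    rw [← hd] at h2 e4
    have hd0 : a / 2 ≤ d := by linarith
    have hd1 : 0 < d := by linarith
    have hk : 0 < 2 * s + s ^ 2 := by positivity
    rw [neg_neg, mul_div_assoc', div_eq_div_iff (by positivity) (by positivity)] at h2
    have h3 : s ^ 2 = l ^ 2 * d ^ 2 := by
      have h4 : (2 * s + s ^ 2) * s ^ 2 = (2 * s + s ^ 2) * (l ^ 2 * d ^ 2) := by linarith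
      exact mul_left_cancel₀ hk.ne' h4
    have h4 : s = l * d := by
      have h5 : s ^ 2 = (l * d) ^ 2 := by rw [h3]; ring
      exact (sq_eq_sq₀ hs0.le (by positivity)).1 h5
    nlinarith
  rw [mem_PS hξ]
  refine ⟨hne, ?_⟩
  have h2 := h1 (base n) (base_mem n)
  rw [hne] at h2
  have h3 : 0 < yp (pe ξ) (base n) :=
    yp_pos (pe_ne_zero ξ) (by rw [q_pe, hξ, sub_self]) (base_mem n)
  have h4 : ‖ml γ ξ‖ ^ 2 = 1 := by
    have h5 : yp (pe ξ) (base n) * 1 = yp (pe ξ) (base n) * ‖ml γ ξ‖ ^ 2 := by linarith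
    exact (mul_left_cancel₀ h3.ne' h5).symm
  have h5 := norm_nonneg (ml γ ξ)
  nlinarith

/-- The line of a transvection is a cusp of `hty Γ`. -/
theorem cuspV_of_tv (hd : DiscreteTopology Γ) (hT : TF Γ) {γ : SUGroup n} {ξ : Fin n → ℂ} {κ : ℝ}
    (hγ : γ ∈ Γ) (h : IsTv γ ξ κ) {g : SUGroup n}
    (hg : hty Γ (act g (base n)) = yp (pe ξ) (act g (base n)) / |κ|) :
    CuspV 64 (hty Γ) (((Real.sqrt |κ| : ℝ) : ℂ) • pe ξ) := by
  have hκ : 0 < |κ| := abs_pos.2 h.2.1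
  have hs : 0 < Real.sqrt |κ| := Real.sqrt_pos.2 hκ
  have e : ∀ v : Vec n, yp (((Real.sqrt |κ| : ℝ) : ℂ) • pe ξ) v = yp (pe ξ) v / |κ| := by
    intro v
    rw [yp_smul, Complex.norm_real, Real.norm_eq_abs, abs_of_pos hs, Real.sq_sqrt hκ.le]
  refine ⟨smul_ne_zero (Complex.ofReal_ne_zero.2 hs.ne') (pe_ne_zero ξ), ?_, ?_, ?_⟩
  · rw [q_smul, q_pe, h.1, sub_self, mul_zero]
  · intro h'
    rw [e]
    exact le_hty hd hγ h h'
  · intro h' h4
    rw [e] at h4 ⊢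
    exact hty_unique hd hT hγ h hg (by linarith)

/-- A cusp is the line of a transvection. -/
theorem CuspV.exists_tv (hn : 2 ≤ n) {χ : SUGroup n → ℝ} (hL : Lat Γ χ) (hT : TF Γ) (hTor : Tor Γ)
    {p : Vec n} (hp : CuspV 64 (hty Γ) p) : ∃ γ ∈ Γ, ∃ (ξ : Fin n → ℂ) (κ : ℝ), IsTv γ ξ κ ∧
      hf p = hf (((Real.sqrt |κ| : ℝ) : ℂ) • pe ξ) := by
  have hd := hL.disc
  obtain ⟨g, hg⟩ := exists_hf_ge hp.ne hp.isot 65
  have h1 : hty Γ (act g (base n)) = hf p g := hp.eq g (by rw [hf] at hg; linarith)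
  obtain ⟨γ, hγ, ξ, κ, h2, h3⟩ := exists_hty hd g (by rw [h1]; linarith)
  have h4 := cuspV_of_tv hd hT hγ h2 h3
  refine ⟨γ, hγ, ξ, κ, h2, hf_unique (by norm_num) hp h4 (g := g) (by linarith) ?_⟩
  have hκ : 0 < |κ| := abs_pos.2 h2.2.1
  have hs : 0 < Real.sqrt |κ| := Real.sqrt_pos.2 hκ
  have e : hf (((Real.sqrt |κ| : ℝ) : ℂ) • pe ξ) g = yp (pe ξ) (act g (base n)) / |κ| := by
    rw [hf_smul, Complex.norm_real, Real.norm_eq_abs, abs_of_pos hs, Real.sq_sqrt hκ.le, hf]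
  rw [e, ← h3, h1]
  linarith

/-- The data of a lattice: partition of unity, height function, bounded cusp groups at all finite
places. -/
theorem exists_cusp_data (hn : 2 ≤ n) (hL : IsLattice Γ) (hF : FGG Γ) :
    ∃ (χ : SUGroup n → ℝ) (y : Vec n → ℝ), Lat Γ χ ∧ Ht Γ 64 y ∧ ∀ p : Vec n, CuspV 64 y p →
      ∀ (E : Type) [NormedField E] [IsUltrametricDist E] (σ : ℂ →+* E), ∃ C : ℝ, 0 < C ∧
        ∀ γ ∈ Γ, (∀ g : SUGroup n, hf p (γ⁻¹ * g) = hf p g) → ent σ γ.toMatrix ≤ C := by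
  obtain ⟨χ, hχ⟩ := exists_lat hL
  obtain ⟨Γ', hle, hfi, hN, hTor⟩ := exists_tor hF
  obtain ⟨χ', hχ'⟩ := hχ.finite_index hle hfi
  have hT := tf_of_tor hχ'.disc hTor
  refine ⟨χ, hty Γ', hχ, ht_of_normal hle hN (ht_hty hn hχ' hT hTor), ?_⟩
  intro p hp E _ _ σ
  obtain ⟨γ₁, hγ₁, ξ, κ, h1, h2⟩ := hp.exists_tv hn hχ' hT hTor
  have hξ := h1.1
  have hκ : 0 < |κ| := abs_pos.2 h1.2.1
  have hs : 0 < Real.sqrt |κ| := Real.sqrt_pos.2 hκ
  have hPar := h1.par hχ'.disc hγ₁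
  obtain ⟨R, X, hX⟩ := exists_rays hχ' hT
  obtain ⟨R', hc⟩ := horo hT hTor hχ'.disc hX hPar ⟨γ₁, hγ₁, h1.ne_one, h1.mem_St⟩
  obtain ⟨C, hC, h3⟩ := bdd_St σ hχ'.disc hPar hc
  -- the cosets
  have hfi' : Γ'.relIndex (Γ ⊓ PS ξ) ≠ 0 := fun h => hfi (Subgroup.relIndex_eq_zero_of_le_right inf_le_left h)
  obtain ⟨S, hS, hcov⟩ := exists_cosets (Γ := Γ ⊓ PS ξ) hfi'
  refine ⟨∑ c ∈ S, ent σ c.toMatrix * C + 1, ?_, ?_⟩
  · have := Finset.sum_nonneg fun c (_ : c ∈ S) => mul_nonneg (ent_nonneg σ c.toMatrix) hC.le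
    linarith
  · intro γ hγ hst
    have h4 : γ ∈ PS ξ := by
      refine mem_PS_of_hf hξ fun g => ?_
      have h5 := hst g
      rw [h2, hf_smul, hf_smul, Complex.norm_real, Real.norm_eq_abs, abs_of_pos hs,
        Real.sq_sqrt hκ.le] at h5
      have h6 := congrArg (fun r => r * |κ|) h5
      simpa [div_mul_cancel₀ _ hκ.ne'] using h6
    obtain ⟨c, hcS, hcγ⟩ := hcov γ ⟨hγ, h4⟩
    have h5 := h3 _ hcγ (PS_le_St ξ ((PS ξ).mul_mem ((PS ξ).inv_mem (hS c hcS).2) h4))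
    have e1 : γ.toMatrix = c.toMatrix * (c⁻¹ * γ).toMatrix := by
      rw [← toMatrix_mul, mul_inv_cancel_left]
    have h6 : ent σ c.toMatrix * C ≤ ∑ c ∈ S, ent σ c.toMatrix * C :=
      Finset.single_le_sum (f := fun c : SUGroup n => ent σ c.toMatrix * C)
        (fun c _ => mul_nonneg (ent_nonneg σ c.toMatrix) hC.le) hcS
    rw [e1]
    calc ent σ (c.toMatrix * (c⁻¹ * γ).toMatrix) ≤ ent σ c.toMatrix * ent σ (c⁻¹ * γ).toMatrix :=
          ent_mul σ _ _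
      _ ≤ ent σ c.toMatrix * C := mul_le_mul_of_nonneg_left h5 (ent_nonneg σ _)
      _ ≤ _ := by linarith

section Norm

variable {k : Type} [NontriviallyNormedField k] [IsUltrametricDist k] [ProperSpace k]
  {V : Type} [AddCommGroup V] [Module k V] [FiniteDimensional k V]

/-- A bounded group fixes a norm. -/
theorem exists_fixed_norm {G : Type} [Group G] (ρ : G →* (V ≃ₗ[k] V)) (H : Subgroup G)
    (N₀ : Nm k V) {C : ℝ} (hC : ∀ γ ∈ H, ∀ w, N₀ (ρ γ w) ≤ C * N₀ w) :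
    ∃ N : Nm k V, ∀ γ ∈ H, N.act (ρ γ) = N := by
  have hb : ∀ w, BddAbove (Set.range fun γ : H => N₀ (ρ γ w)) := by
    intro w
    refine ⟨C * N₀ w, ?_⟩
    rintro _ ⟨γ, rfl⟩
    exact hC γ γ.2 w
  have hle : ∀ (w : V) (γ : H), N₀ (ρ γ w) ≤ ⨆ γ : H, N₀ (ρ γ w) := fun w γ =>
    le_ciSup (hb w) γ
  obtain ⟨N, hN⟩ : ∃ N : Nm k V, ∀ w, N w = ⨆ γ : H, N₀ (ρ γ w) := by
    refine ⟨⟨fun w => ⨆ γ : H, N₀ (ρ γ w), ?_, ?_, ?_⟩, fun w => rfl⟩
    · intro c w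
      rw [Real.mul_iSup_of_nonneg (norm_nonneg c)]
      refine iSup_congr fun γ => ?_
      rw [map_smul, N₀.smul]
    · intro v w
      refine ciSup_le fun γ => ?_
      rw [map_add]
      exact (N₀.add_le _ _).trans (max_le_max (hle v γ) (hle w γ))
    · intro w hw
      refine lt_of_lt_of_le ?_ (hle w 1)
      refine N₀.pos ?_
      intro h0
      exact hw ((ρ ((1 : H) : G)).map_eq_zero_iff.1 h0)
  refine ⟨N, fun γ hγ => ?_⟩
  have key : ∀ δ ∈ H, ∀ w, N (ρ δ w) ≤ N w := by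
    intro δ hδ w
    rw [hN, hN]
    refine ciSup_le fun γ => ?_
    have e : ρ (γ : G) (ρ δ w) = ρ ((γ * ⟨δ, hδ⟩ : H) : G) w := by
      rw [Subgroup.coe_mul, map_mul]
      rfl
    rw [e]
    exact hle w _
  ext w
  rw [Nm.act_apply]
  have e : (ρ γ).symm w = ρ γ⁻¹ w := by
    rw [map_inv]
    rfl
  apply le_antisymm
  · rw [e]
    exact key _ (H.inv_mem hγ) w
  · have h1 := key γ hγ ((ρ γ).symm w)
    rwa [LinearEquiv.apply_symm_apply] at h1

theorem lv_scale (N : Nm k V) {c : ℝ} (hc : 0 < c) :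
    (N.scale c hc).lv = N.lv + finrank k V * Real.log c := by
  obtain ⟨b, hb⟩ := exists_orth N
  have hb' : IsOrth (N.scale c hc) b := by
    intro v i
    show ‖b.repr v i‖ * (c * N (b i)) ≤ c * N v
    have := hb v i
    nlinarith
  have h1 := lv_sub hb hb'
  have h2 : ∀ i, Real.log ((N.scale c hc) (b i) / N (b i)) = Real.log c := by
    intro i
    show Real.log (c * N (b i) / N (b i)) = Real.log c
    rw [mul_div_cancel_right₀ _ (N.pos (b.ne_zero i)).ne']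
  rw [Finset.sum_congr rfl fun i _ => h2 i, Finset.sum_const, Finset.card_univ, Fintype.card_fin,
    nsmul_eq_mul] at h1
  linarith

/-- Normalisation of the volume. -/
theorem exists_scale [Nontrivial V] (N : Nm k V) : ∃ (c : ℝ) (hc : 0 < c),
    (N.scale c hc).lv = 0 := by
  have hd : (0 : ℝ) < finrank k V := by exact_mod_cast finrank_pos
  refine ⟨Real.exp (-N.lv / finrank k V), Real.exp_pos _, ?_⟩
  rw [lv_scale, Real.log_exp]
  field_simp
  ring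

theorem scale_act (N : Nm k V) {c : ℝ} (hc : 0 < c) (e : V ≃ₗ[k] V) :
    (N.scale c hc).act e = (N.act e).scale c hc := by
  ext v
  rfl

end Norm

/-- CuspR for the representation: a norm of volume one fixed by the cusp group. -/
theorem exists_fix_data (hn : 2 ≤ n) (hL : IsLattice Γ) (hF : FGG Γ) :
    ∃ (χ : SUGroup n → ℝ) (y : Vec n → ℝ), Lat Γ χ ∧ Ht Γ 64 y ∧ ∀ p : Vec n, CuspV 64 y p →
      ∀ (k : Type) [NontriviallyNormedField k] [IsUltrametricDist k] [ProperSpace k]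
        (E : Type) [NormedField E] [IsUltrametricDist E] (σ : ℂ →+* E) (i : k →+* E),
        (∀ x, ‖i x‖ = ‖x‖) → ∀ ρ : Γ →* ((Fin (n + 1) → k) ≃ₗ[k] (Fin (n + 1) → k)),
        (∀ γ : Γ, (LinearMap.toMatrix'
          (ρ γ : (Fin (n + 1) → k) →ₗ[k] (Fin (n + 1) → k))).map i =
            (γ : SUGroup n).toMatrix.map σ) →
        ∃ N : Nm k (Fin (n + 1) → k), N.lv = 0 ∧
          ∀ γ : Γ, (∀ g : SUGroup n, hf p ((γ : SUGroup n)⁻¹ * g) = hf p g) →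
            N.act (ρ γ) = N := by
  obtain ⟨χ, y, h1, h2, h3⟩ := exists_cusp_data hn hL hF
  refine ⟨χ, y, h1, h2, ?_⟩
  intro p hp k _ _ _ E _ _ σ i hi ρ hρ
  obtain ⟨C, hC, h4⟩ := h3 p hp E σ
  obtain ⟨N₀⟩ : Nonempty (Nm k (Fin (n + 1) → k)) :=
    ⟨Nm.ofBasis (Pi.basisFun k (Fin (n + 1))) (fun _ => 1) (fun _ => one_pos)⟩
  obtain ⟨C', hC', h5⟩ := exists_op_ent N₀ σ hi hρ
  let H : Subgroup Γ :=
    { carrier := {γ : Γ | ∀ g : SUGroup n, hf p ((γ : SUGroup n)⁻¹ * g) = hf p g}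
      mul_mem' := by
        intro a b ha hb g
        rw [Subgroup.coe_mul, _root_.mul_inv_rev, mul_assoc, hb, ha]
      one_mem' := by
        intro g
        rw [Subgroup.coe_one, inv_one, one_mul]
      inv_mem' := by
        intro a ha g
        have h6 := ha ((a : SUGroup n) * g)
        rw [inv_mul_cancel_left] at h6
        rw [Subgroup.coe_inv, inv_inv]
        exact h6.symm }
  obtain ⟨N, hN⟩ := exists_fixed_norm ρ H N₀ (C := C' * C) fun γ hγ w => by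
    refine (h5 γ w).trans (mul_le_mul_of_nonneg_right ?_ (N₀.nonneg w))
    exact mul_le_mul_of_nonneg_left (h4 γ γ.2 hγ) hC'.le
  obtain ⟨c, hc, h6⟩ := exists_scale N
  refine ⟨N.scale c hc, h6, fun γ hγ => ?_⟩
  rw [scale_act, hN γ hγ]

end Pool.Agent.Lib.MP_5d4057_al.IN
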