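import Pool.Agent.Lib.MP_5d4057_al.NU.CutN
import Pool.Agent.Lib.MP_5d4057_al.NU.FlowN

/-! Functions on the group which are twice continuously differentiable along finitely many right
flows. -/

namespace Pool.Agent.Lib.MP_5d4057_al.IN

open Matrix MeasureTheory Filter Topology Pool.Agent.Lib.MP_5d4057_al
  Pool.Agent.Lib.MP_5d4057_al.Hyb Pool.Agent.Lib.MP_5d4057_al.HM
  Pool.Agent.Lib.MP_5d4057_al.NU

open scoped ComplexOrder MatrixOrder Matrix.Norms.L2Operator ENNReal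

variable {n : ℕ} {ι : Type}

/-- The derivative along the right flow `b`. -/
noncomputable def XD (b : ℝ → SUGroup n) (φ : SUGroup n → ℝ) (g : SUGroup n) : ℝ :=
  deriv (fun t => φ (g * b t)) 0

/-- A family of continuous curves through `1`. -/
structure Fl (b : ι → ℝ → SUGroup n) : Prop where
  zero : ∀ c, b c 0 = 1
  cont : ∀ c, Continuous (b c)

/-- Twice continuously differentiable along the flows. -/
structure C2 (b : ι → ℝ → SUGroup n) (φ : SUGroup n → ℝ) : Prop where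
  c0 : Continuous φ
  d1 : ∀ c g, DifferentiableAt ℝ (fun t => φ (g * b c t)) 0
  c1 : ∀ c, Continuous (XD (b c) φ)
  d2 : ∀ c d g, DifferentiableAt ℝ (fun t => XD (b c) φ (g * b d t)) 0
  c2 : ∀ c d, Continuous (XD (b d) (XD (b c) φ))

variable {b : ι → ℝ → SUGroup n}

theorem C2.hasDerivAt {φ : SUGroup n → ℝ} (h : C2 b φ) (c : ι) (g : SUGroup n) :
    HasDerivAt (fun t => φ (g * b c t)) (XD (b c) φ g) 0 :=
  (h.d1 c g).hasDerivAt

theorem C2.hasDerivAt2 {φ : SUGroup n → ℝ} (h : C2 b φ) (c d : ι) (g : SUGroup n) :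
    HasDerivAt (fun t => XD (b c) φ (g * b d t)) (XD (b d) (XD (b c) φ) g) 0 :=
  (h.d2 c d g).hasDerivAt

/-- Construction from explicit derivatives. -/
theorem C2.of_hasDerivAt {φ : SUGroup n → ℝ} {φ1 : ι → SUGroup n → ℝ}
    {φ2 : ι → ι → SUGroup n → ℝ} (c0 : Continuous φ)
    (h1 : ∀ c g, HasDerivAt (fun t => φ (g * b c t)) (φ1 c g) 0) (c1 : ∀ c, Continuous (φ1 c))
    (h2 : ∀ c d g, HasDerivAt (fun t => φ1 c (g * b d t)) (φ2 c d g) 0)
    (c2 : ∀ c d, Continuous (φ2 c d)) :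
    C2 b φ ∧ (∀ c, XD (b c) φ = φ1 c) ∧ ∀ c d, XD (b d) (XD (b c) φ) = φ2 c d := by
  have e1 : ∀ c, XD (b c) φ = φ1 c := fun c => funext fun g => (h1 c g).deriv
  have e2 : ∀ c d, XD (b d) (XD (b c) φ) = φ2 c d := by
    intro c d
    rw [e1]
    exact funext fun g => (h2 c d g).deriv
  refine ⟨⟨c0, fun c g => (h1 c g).differentiableAt, fun c => ?_, fun c d g => ?_, fun c d => ?_⟩,
    e1, e2⟩
  · rw [e1]
    exact c1 c
  · rw [e1]
    exact (h2 c d g).differentiableAt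
  · rw [e2]
    exact c2 c d

theorem C2.const (hb : Fl b) (a : ℝ) : C2 b (fun _ => a) := by
  have _ := hb
  exact (C2.of_hasDerivAt (φ1 := fun _ _ => 0) (φ2 := fun _ _ _ => 0) continuous_const
    (fun c g => hasDerivAt_const _ _) (fun c => continuous_const) (fun c d g => hasDerivAt_const _ _)
    fun c d => continuous_const).1

section
variable {φ ψ : SUGroup n → ℝ}

theorem C2.add (hφ : C2 b φ) (hψ : C2 b ψ) : C2 b (fun g => φ g + ψ g) ∧
    ∀ c d g, XD (b d) (XD (b c) fun g => φ g + ψ g) g =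
      XD (b d) (XD (b c) φ) g + XD (b d) (XD (b c) ψ) g := by
  have h := C2.of_hasDerivAt (b := b) (φ1 := fun c g => XD (b c) φ g + XD (b c) ψ g)
    (φ2 := fun c d g => XD (b d) (XD (b c) φ) g + XD (b d) (XD (b c) ψ) g)
    (hφ.c0.add hψ.c0) (fun c g => (hφ.hasDerivAt c g).add (hψ.hasDerivAt c g))
    (fun c => (hφ.c1 c).add (hψ.c1 c))
    (fun c d g => (hφ.hasDerivAt2 c d g).add (hψ.hasDerivAt2 c d g))
    (fun c d => (hφ.c2 c d).add (hψ.c2 c d))
  exact ⟨h.1, fun c d g => congrFun (h.2.2 c d) g⟩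

theorem C2.const_mul (a : ℝ) (hφ : C2 b φ) : C2 b (fun g => a * φ g) ∧
    ∀ c d g, XD (b d) (XD (b c) fun g => a * φ g) g = a * XD (b d) (XD (b c) φ) g := by
  have h := C2.of_hasDerivAt (b := b) (φ1 := fun c g => a * XD (b c) φ g)
    (φ2 := fun c d g => a * XD (b d) (XD (b c) φ) g)
    (continuous_const.mul hφ.c0) (fun c g => (hφ.hasDerivAt c g).const_mul a)
    (fun c => continuous_const.mul (hφ.c1 c))
    (fun c d g => (hφ.hasDerivAt2 c d g).const_mul a)
    (fun c d => continuous_const.mul (hφ.c2 c d))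
  exact ⟨h.1, fun c d g => congrFun (h.2.2 c d) g⟩

theorem C2.mul (hb : Fl b) (hφ : C2 b φ) (hψ : C2 b ψ) : C2 b (fun g => φ g * ψ g) := by
  refine (C2.of_hasDerivAt (b := b) (φ1 := fun c g => XD (b c) φ g * ψ g + φ g * XD (b c) ψ g)
    (φ2 := fun c d g => (XD (b d) (XD (b c) φ) g * ψ g + XD (b c) φ g * XD (b d) ψ g) +
      (XD (b d) φ g * XD (b c) ψ g + φ g * XD (b d) (XD (b c) ψ) g))
    (hφ.c0.mul hψ.c0) (fun c g => ?_) (fun c => ?_) (fun c d g => ?_) (fun c d => ?_)).1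
  · have h := (hφ.hasDerivAt c g).mul (hψ.hasDerivAt c g)
    rw [hb.zero, mul_one] at h
    exact h
  · exact ((hφ.c1 c).mul hψ.c0).add (hφ.c0.mul (hψ.c1 c))
  · have h1 := (hφ.hasDerivAt2 c d g).mul (hψ.hasDerivAt d g)
    have h2 := (hφ.hasDerivAt d g).mul (hψ.hasDerivAt2 c d g)
    rw [hb.zero, mul_one] at h1 h2
    exact h1.add h2
  · exact (((hφ.c2 c d).mul hψ.c0).add ((hφ.c1 c).mul (hψ.c1 d))).add
      (((hφ.c1 d).mul (hψ.c1 c)).add (hφ.c0.mul (hψ.c2 c d)))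

/-- Composition with a function of one variable; explicit second derivatives. -/
theorem C2.comp (hb : Fl b) (hφ : C2 b φ) {F F1 F2 : ℝ → ℝ}
    (h1 : ∀ g, HasDerivAt F (F1 (φ g)) (φ g)) (h2 : ∀ g, HasDerivAt F1 (F2 (φ g)) (φ g))
    (c2 : Continuous fun g => F2 (φ g)) : C2 b (fun g => F (φ g)) ∧
    (∀ c g, XD (b c) (fun g => F (φ g)) g = F1 (φ g) * XD (b c) φ g) ∧
    ∀ c d g, XD (b d) (XD (b c) fun g => F (φ g)) g =
      F2 (φ g) * XD (b d) φ g * XD (b c) φ g + F1 (φ g) * XD (b d) (XD (b c) φ) g := by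
  have k0 : Continuous fun g => F (φ g) := by
    rw [continuous_iff_continuousAt]
    exact fun g => ContinuousAt.comp (f := φ) (h1 g).continuousAt hφ.c0.continuousAt
  have k1 : Continuous fun g => F1 (φ g) := by
    rw [continuous_iff_continuousAt]
    exact fun g => ContinuousAt.comp (f := φ) (h2 g).continuousAt hφ.c0.continuousAt
  have h := C2.of_hasDerivAt (b := b) (φ := fun g => F (φ g))
    (φ1 := fun c g => F1 (φ g) * XD (b c) φ g)
    (φ2 := fun c d g => F2 (φ g) * XD (b d) φ g * XD (b c) φ g +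
      F1 (φ g) * XD (b d) (XD (b c) φ) g) k0 (fun c g => ?_) (fun c => ?_) (fun c d g => ?_)
    (fun c d => ?_)
  · exact ⟨h.1, fun c g => congrFun (h.2.1 c) g, fun c d g => congrFun (h.2.2 c d) g⟩
  · have e : φ (g * b c 0) = φ g := by rw [hb.zero, mul_one]
    exact HasDerivAt.comp (h₂ := F) (h := fun t => φ (g * b c t)) (0 : ℝ)
      (by rw [e]; exact h1 g) (hφ.hasDerivAt c g)
  · exact k1.mul (hφ.c1 c)
  · have e : φ (g * b d 0) = φ g := by rw [hb.zero, mul_one]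
    have h3 : HasDerivAt (fun t => F1 (φ (g * b d t))) (F2 (φ g) * XD (b d) φ g) 0 :=
      HasDerivAt.comp (h₂ := F1) (h := fun t => φ (g * b d t)) (0 : ℝ)
        (by rw [e]; exact h2 g) (hφ.hasDerivAt d g)
    have h4 := h3.mul (hφ.hasDerivAt2 c d g)
    rw [hb.zero, mul_one] at h4
    exact h4
  · exact ((c2.mul (hφ.c1 d)).mul (hφ.c1 c)).add (k1.mul (hφ.c2 c d))

theorem C2.inv (hb : Fl b) (hφ : C2 b φ) (h0 : ∀ g, φ g ≠ 0) : C2 b (fun g => (φ g)⁻¹) := by
  refine (hφ.comp hb (F := fun x => x⁻¹) (F1 := fun x => -(x ^ 2)⁻¹)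
    (F2 := fun x => 2 * x * ((x ^ 2) ^ 2)⁻¹) (fun g => hasDerivAt_inv (h0 g)) (fun g => ?_)
    ?_).1
  · have h1 := ((hasDerivAt_pow 2 (φ g)).inv (pow_ne_zero 2 (h0 g))).neg
    refine h1.congr_deriv ?_
    simp only [Nat.cast_ofNat, Nat.reduceSub, pow_one]
    have := h0 g
    field_simp
  · exact (continuous_const.mul hφ.c0).mul (((hφ.c0.pow 2).pow 2).inv₀ fun g =>
      pow_ne_zero 2 (pow_ne_zero 2 (h0 g)))

/-- The derivative depends only on the germ. -/
theorem XD_congr {β : ℝ → SUGroup n} (h0 : β 0 = 1) (hc : Continuous β) {g : SUGroup n}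
    (h : φ =ᶠ[𝓝 g] ψ) : XD β φ g = XD β ψ g := by
  refine Filter.EventuallyEq.deriv_eq ?_
  have h1 : Tendsto (fun t => g * β t) (𝓝 0) (𝓝 g) := by
    have h2 : Continuous fun t => g * β t := continuous_const.mul hc
    have h3 := h2.tendsto 0
    rwa [h0, mul_one] at h3
  exact h1.eventually h

theorem XD_congr' {β : ℝ → SUGroup n} (h0 : β 0 = 1) (hc : Continuous β) {g : SUGroup n}
    (h : φ =ᶠ[𝓝 g] ψ) : XD β φ =ᶠ[𝓝 g] XD β ψ := by
  have h1 := eventually_eventually_nhds.2 h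
  filter_upwards [h1] with x hx
  exact XD_congr h0 hc hx

/-- The property is local. -/
theorem C2.of_local (hb : Fl b) (h : ∀ g, ∃ ψ, C2 b ψ ∧ φ =ᶠ[𝓝 g] ψ) : C2 b φ := by
  have hT : ∀ c (g : SUGroup n), Tendsto (fun t => g * b c t) (𝓝 0) (𝓝 g) := by
    intro c g
    have h2 : Continuous fun t => g * b c t := continuous_const.mul (hb.cont c)
    have h3 := h2.tendsto 0
    rwa [hb.zero, mul_one] at h3
  refine ⟨?_, fun c g => ?_, fun c => ?_, fun c d g => ?_, fun c d => ?_⟩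
  · rw [continuous_iff_continuousAt]
    intro g
    obtain ⟨ψ, hψ, he⟩ := h g
    exact (hψ.c0.continuousAt).congr he.symm
  · obtain ⟨ψ, hψ, he⟩ := h g
    exact (hψ.d1 c g).congr_of_eventuallyEq ((hT c g).eventually he)
  · rw [continuous_iff_continuousAt]
    intro g
    obtain ⟨ψ, hψ, he⟩ := h g
    exact ((hψ.c1 c).continuousAt).congr (XD_congr' (hb.zero c) (hb.cont c) he).symm
  · obtain ⟨ψ, hψ, he⟩ := h g
    exact (hψ.d2 c d g).congr_of_eventuallyEq
      ((hT d g).eventually (XD_congr' (hb.zero c) (hb.cont c) he))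
  · rw [continuous_iff_continuousAt]
    intro g
    obtain ⟨ψ, hψ, he⟩ := h g
    exact ((hψ.c2 c d).continuousAt).congr (XD_congr' (hb.zero d) (hb.cont d)
      (XD_congr' (hb.zero c) (hb.cont c) he)).symm

theorem XD2_congr (hb : Fl b) (c d : ι) {g : SUGroup n} (h : φ =ᶠ[𝓝 g] ψ) :
    XD (b d) (XD (b c) φ) g = XD (b d) (XD (b c) ψ) g :=
  XD_congr (hb.zero d) (hb.cont d) (XD_congr' (hb.zero c) (hb.cont c) h)

/-- Left translations. -/
theorem XD_left (β : ℝ → SUGroup n) (a : SUGroup n) (φ : SUGroup n → ℝ) :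
    XD β (fun g => φ (a * g)) = fun g => XD β φ (a * g) := by
  funext g
  unfold XD
  simp only [mul_assoc]

theorem C2.left (hφ : C2 b φ) (a : SUGroup n) : C2 b (fun g => φ (a * g)) := by
  have hca : Continuous fun g : SUGroup n => a * g := continuous_const_mul a
  refine ⟨hφ.c0.comp hca, fun c g => ?_, fun c => ?_, fun c d g => ?_, fun c d => ?_⟩
  · have h1 := hφ.d1 c (a * g)
    simp only [mul_assoc] at h1
    exact h1
  · rw [XD_left]
    exact (hφ.c1 c).comp hca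
  · rw [XD_left]
    have h1 := hφ.d2 c d (a * g)
    simp only [mul_assoc] at h1
    exact h1
  · rw [XD_left, XD_left]
    exact (hφ.c2 c d).comp hca

theorem C2.sum {κ : Type} (hb : Fl b) (T : Finset κ) {f : κ → SUGroup n → ℝ}
    (hf : ∀ k ∈ T, C2 b (f k)) : C2 b (fun g => ∑ k ∈ T, f k g) ∧
    ∀ c d g, XD (b d) (XD (b c) fun g => ∑ k ∈ T, f k g) g =
      ∑ k ∈ T, XD (b d) (XD (b c) (f k)) g := by
  classical
  induction T using Finset.induction_on with
  | empty =>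
    simp only [Finset.sum_empty]
    refine ⟨C2.const hb 0, fun c d g => ?_⟩
    have e : XD (b c) (fun _ : SUGroup n => (0 : ℝ)) = fun _ => 0 := by
      funext g
      unfold XD
      rw [deriv_const]
    rw [e]
    unfold XD
    rw [deriv_const]
  | insert a T ha ih =>
    have h1 := ih fun k hk => hf k (Finset.mem_insert_of_mem hk)
    have h2 := (hf a (Finset.mem_insert_self a T)).add h1.1
    simp only [Finset.sum_insert ha]
    refine ⟨h2.1, fun c d g => ?_⟩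
    rw [h2.2, h1.2]

end

/-- Support of the derivatives. -/
theorem XD_zero_of {β : ℝ → SUGroup n} (h0 : β 0 = 1) (hc : Continuous β) {φ : SUGroup n → ℝ}
    {g : SUGroup n} (hg : g ∉ tsupport φ) : g ∉ tsupport (XD β φ) := by
  have h1 : φ =ᶠ[𝓝 g] fun _ => 0 := notMem_tsupport_iff_eventuallyEq.1 hg
  rw [notMem_tsupport_iff_eventuallyEq]
  filter_upwards [XD_congr' h0 hc h1] with x hx
  rw [hx]
  unfold XD
  rw [deriv_const]
  rfl

theorem XD_compact {β : ℝ → SUGroup n} (h0 : β 0 = 1) (hc : Continuous β) {φ : SUGroup n → ℝ}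
    (hs : HasCompactSupport φ) : HasCompactSupport (XD β φ) :=
  HasCompactSupport.of_support_subset_isCompact (K := tsupport φ) hs fun x hx => by
    by_contra h
    exact XD_zero_of h0 hc h (subset_tsupport _ hx)

section
variable {Γ : Subgroup (SUGroup n)} {φ : SUGroup n → ℝ}

/-- The sum over `Γ` is locally a finite sum. -/
theorem gsum_local (hd : DiscreteTopology Γ) (hs : HasCompactSupport φ) (g : SUGroup n) :
    ∃ T : Finset Γ, ∀ᶠ h in 𝓝 g, ∀ γ : Γ, γ ∉ T → φ ((γ : SUGroup n) * h) = 0 := by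
  obtain ⟨F, hF, hFg⟩ := exists_compact_mem_nhds g
  have h1 := finite_meet_disc hd hF hs
  refine ⟨h1.toFinset, ?_⟩
  filter_upwards [hFg] with h hh γ hγ
  by_contra h0
  refine hγ ?_
  rw [Set.Finite.mem_toFinset]
  exact ⟨h, hh, subset_tsupport _ h0⟩

/-- The `Γ`-sum of a function. -/
noncomputable def gs (Γ : Subgroup (SUGroup n)) (φ : SUGroup n → ℝ) (g : SUGroup n) : ℝ :=
  ∑' γ : Γ, φ ((γ : SUGroup n) * g)

theorem gs_inv (φ : SUGroup n → ℝ) : ∀ γ ∈ Γ, ∀ g, gs Γ φ (γ * g) = gs Γ φ g := by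
  intro γ hγ g
  unfold gs
  have h1 : ∀ δ : Γ, φ ((δ : SUGroup n) * (γ * g)) =
      (fun δ : Γ => φ ((δ : SUGroup n) * g)) (Equiv.mulRight (⟨γ, hγ⟩ : Γ) δ) := by
    intro δ
    show φ ((δ : SUGroup n) * (γ * g)) = φ (((δ : SUGroup n) * γ) * g)
    rw [mul_assoc]
  rw [tsum_congr h1]
  exact Equiv.tsum_eq (Equiv.mulRight (⟨γ, hγ⟩ : Γ)) fun δ : Γ => φ ((δ : SUGroup n) * g)

theorem gs_hasSum (hd : DiscreteTopology Γ) (hs : HasCompactSupport φ) (g : SUGroup n) :
    HasSum (fun γ : Γ => φ ((γ : SUGroup n) * g)) (gs Γ φ g) := by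
  obtain ⟨T, hT⟩ := gsum_local hd hs g
  exact (summable_of_ne_finset_zero (s := T) fun γ hγ => hT.self_of_nhds γ hγ).hasSum

theorem gs_nonneg (h0 : ∀ g, 0 ≤ φ g) (g : SUGroup n) : 0 ≤ gs Γ φ g :=
  tsum_nonneg fun _ => h0 _

theorem le_gs (hd : DiscreteTopology Γ) (hs : HasCompactSupport φ) (h0 : ∀ g, 0 ≤ φ g)
    (γ : Γ) (g : SUGroup n) : φ ((γ : SUGroup n) * g) ≤ gs Γ φ g :=
  (gs_hasSum hd hs g).summable.le_tsum γ fun _ _ => h0 _

theorem gs_mul_inv {f : SUGroup n → ℝ} (hf : ∀ γ ∈ Γ, ∀ g, f (γ * g) = f g) (g : SUGroup n) :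
    gs Γ (fun g => f g * φ g) g = f g * gs Γ φ g := by
  unfold gs
  rw [← tsum_mul_left]
  refine tsum_congr fun γ => ?_
  show f ((γ : SUGroup n) * g) * φ ((γ : SUGroup n) * g) = f g * φ ((γ : SUGroup n) * g)
  rw [hf _ γ.2]

theorem gs_eventually (hd : DiscreteTopology Γ) (hs : HasCompactSupport φ) (g : SUGroup n) :
    ∃ T : Finset Γ, gs Γ φ =ᶠ[𝓝 g] fun h => ∑ γ ∈ T, φ ((γ : SUGroup n) * h) := by
  obtain ⟨T, hT⟩ := gsum_local hd hs g
  refine ⟨T, ?_⟩
  filter_upwards [hT] with h hh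
  exact tsum_eq_sum fun γ hγ => hh γ hγ

/-- The `Γ`-sum of a test function, and its derivatives. -/
theorem C2.gs (hb : Fl b) (hd : DiscreteTopology Γ) (hφ : C2 b φ) (hs : HasCompactSupport φ) :
    C2 b (gs Γ φ) ∧ ∀ c d g, XD (b d) (XD (b c) (gs Γ φ)) g =
      IN.gs Γ (XD (b d) (XD (b c) φ)) g := by
  have hl : ∀ γ : Γ, C2 b (fun h => φ ((γ : SUGroup n) * h)) := fun γ => hφ.left _
  refine ⟨C2.of_local hb fun g => ?_, fun c d g => ?_⟩
  · obtain ⟨T, hT⟩ := gs_eventually hd hs g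
    exact ⟨_, (C2.sum hb T fun γ _ => hl γ).1, hT⟩
  · obtain ⟨T, hT⟩ := gsum_local hd hs g
    have h1 : IN.gs Γ φ =ᶠ[𝓝 g] fun h => ∑ γ ∈ T, φ ((γ : SUGroup n) * h) := by
      filter_upwards [hT] with h hh
      exact tsum_eq_sum fun γ hγ => hh γ hγ
    rw [XD2_congr hb c d h1, (C2.sum hb T fun γ _ => hl γ).2]
    have h2 : ∀ γ : Γ, XD (b d) (XD (b c) fun h => φ ((γ : SUGroup n) * h)) g =
        XD (b d) (XD (b c) φ) ((γ : SUGroup n) * g) := by
      intro γ
      rw [XD_left, XD_left]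
    unfold IN.gs
    rw [tsum_eq_sum (s := T)]
    · exact Finset.sum_congr rfl fun γ _ => h2 γ
    · intro γ hγ
      rw [← h2]
      have h3 : (fun h => φ ((γ : SUGroup n) * h)) =ᶠ[𝓝 g] fun _ => 0 := by
        filter_upwards [hT] with h hh
        exact hh γ hγ
      rw [XD2_congr hb c d h3]
      have e : XD (b c) (fun _ : SUGroup n => (0 : ℝ)) = fun _ => 0 := by
        funext g
        unfold XD
        rw [deriv_const]
      rw [e]
      unfold XD
      rw [deriv_const]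

end

end Pool.Agent.Lib.MP_5d4057_al.IN
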