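import Mathlib

/-! Project INT: facts about a locally compact ultrametric field (A0). -/

set_option autoImplicit false

namespace Pool.Agent.Lib.MP_5d4057_al.IN

variable (k : Type*) [NontriviallyNormedField k] [IsUltrametricDist k] [ProperSpace k]

theorem isCompact_ball : IsCompact (Metric.ball (0 : k) 1) :=
  Metric.isCompact_of_isClosed_isBounded (IsUltrametricDist.isClosed_ball 0 1) Metric.isBounded_ball

/-- A uniformiser. -/
theorem exists_unif_max : ∃ p : k, 0 < ‖p‖ ∧ ‖p‖ < 1 ∧ ∀ x : k, ‖x‖ < 1 → ‖x‖ ≤ ‖p‖ := by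
  obtain ⟨y, hy0, hy1⟩ := NormedField.exists_norm_lt_one k
  obtain ⟨p, hp, hmax⟩ := (isCompact_ball k).exists_isMaxOn
    (f := fun x => ‖x‖) ⟨y, by rwa [mem_ball_zero_iff]⟩ continuous_norm.continuousOn
  rw [mem_ball_zero_iff] at hp
  refine ⟨p, ?_, hp, fun x hx => hmax (by rwa [mem_ball_zero_iff])⟩
  exact lt_of_lt_of_le hy0 (hmax (a := y) (by rwa [mem_ball_zero_iff]))

variable {k}

omit [IsUltrametricDist k] [ProperSpace k] in
/-- The values of the norm. -/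
theorem norm_eq_zpow {p : k} (h0 : 0 < ‖p‖) (h1 : ‖p‖ < 1) (hp : ∀ x : k, ‖x‖ < 1 → ‖x‖ ≤ ‖p‖)
    {x : k} (hx : x ≠ 0) : ∃ z : ℤ, ‖x‖ = ‖p‖ ^ z := by
  have hx0 : 0 < ‖x‖ := norm_pos_iff.2 hx
  obtain ⟨n, hn1, hn2⟩ := exists_mem_Ico_zpow hx0 ((one_lt_inv₀ h0).2 h1)
  have e1 : ‖x * p ^ (n + 1)‖ = ‖x‖ * ‖p‖ ^ (n + 1) := by rw [norm_mul, norm_zpow]
  have hq : 0 < ‖p‖ ^ (n + 1) := zpow_pos h0 _
  have h2 : ‖x * p ^ (n + 1)‖ < 1 := by
    rw [e1]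
    have h3 := mul_lt_mul_of_pos_right hn2 hq
    rwa [inv_zpow, inv_mul_cancel₀ hq.ne'] at h3
  have h3 := hp _ h2
  rw [e1] at h3
  have h4 : ‖p‖ ≤ ‖x‖ * ‖p‖ ^ (n + 1) := by
    have h5 := mul_le_mul_of_nonneg_right hn1 hq.le
    refine le_trans (le_of_eq ?_) h5
    rw [inv_zpow, zpow_add₀ h0.ne' n 1, ← mul_assoc, inv_mul_cancel₀ (zpow_pos h0 n).ne',
      zpow_one, one_mul]
  have h5 := le_antisymm h3 h4
  refine ⟨-n, ?_⟩
  rw [zpow_neg]
  rw [zpow_add₀ h0.ne' n 1, zpow_one] at h5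
  have hn0 : 0 < ‖p‖ ^ n := zpow_pos h0 n
  field_simp
  nlinarith

omit [IsUltrametricDist k] in
/-- The residue field is finite. -/
theorem exists_residues : ∃ F : Finset k, ∀ x : k, ‖x‖ ≤ 1 → ∃ y ∈ F, ‖x - y‖ < 1 := by
  have hc : IsCompact (Metric.closedBall (0 : k) 1) := isCompact_closedBall 0 1
  obtain ⟨t, ht⟩ := hc.elim_finite_subcover (fun y : k => Metric.ball y 1)
    (fun y => Metric.isOpen_ball) (fun x _ => Set.mem_iUnion.2 ⟨x, Metric.mem_ball_self one_pos⟩)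
  refine ⟨t, fun x hx => ?_⟩
  have h1 := ht (show x ∈ Metric.closedBall (0 : k) 1 by rwa [mem_closedBall_zero_iff])
  simp only [Set.mem_iUnion, Metric.mem_ball, dist_eq_norm, exists_prop] at h1
  exact h1

end Pool.Agent.Lib.MP_5d4057_al.IN
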