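import Pool.Agent.Lib.MP_5d4057_al.IN.Blk

/-!
# INT, from C to D: the normalised sum of squares on a block

`phn p N N'` is the sum of the squares of the normalised positions of `N`, `N'` on the block `p`.
-/

namespace Pool.Agent.Lib.MP_5d4057_al.IN

open Module

variable {k : Type} [NontriviallyNormedField k] [IsUltrametricDist k] [ProperSpace k]
  {V : Type} [AddCommGroup V] [Module k V] [FiniteDimensional k V]

/-- The sum of the squares of the normalised positions on a block. -/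
noncomputable def phn (p : V →ₗ[k] V) (N N' : Nm k V) : ℝ :=
  Phi (rs p N) (rs p N') - (av p N' - av p N) ^ 2 / rk p

/-- The positions on a block. -/
theorem exists_pos (p : V →ₗ[k] V) (N N' : Nm k V) :
    ∃ b : Basis (Fin (rk p)) k (LinearMap.range p), IsOrth (rs p N) b ∧ IsOrth (rs p N') b ∧
      ∃ x : Fin (rk p) → ℝ, Antitone x ∧ (∀ i, x i = Real.log (rs p N' (b i) / rs p N (b i))) ∧
        av p N' - av p N = ∑ i, x i ∧ Phi (rs p N) (rs p N') = ∑ i, x i ^ 2 ∧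
        ∀ j ≤ rk p, DD j (rs p N) (rs p N') = ∑ i : Fin (rk p), if i.val < j then x i else 0 := by
  obtain ⟨b, h1, h2, h3⟩ := exists_orth2 (rs p N) (rs p N')
  refine ⟨b, h1, h2, fun i => Real.log (rs p N' (b i) / rs p N (b i)), ?_, fun _ => rfl,
    lv_sub h1 h2, Phi_eq h1 h2, fun j hj => DD_eq h1 h2 h3 hj⟩
  intro i j hij
  refine Real.log_le_log ?_ (h3 hij)
  exact div_pos ((rs p N').pos (b.ne_zero _)) ((rs p N).pos (b.ne_zero _))

theorem sum_sq_sub {r : ℕ} (hr : 0 < r) (x : Fin r → ℝ) :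
    ∑ i, x i ^ 2 - (∑ i, x i) ^ 2 / r = ∑ i, (x i - (∑ i, x i) / r) ^ 2 := by
  have h : (r : ℝ) ≠ 0 := by exact_mod_cast hr.ne'
  obtain ⟨s, hs⟩ : ∃ s, s = ∑ i, x i := ⟨_, rfl⟩
  have e : ∀ i, (x i - s / r) ^ 2 = x i ^ 2 - 2 * (s / r) * x i + (s / r) ^ 2 := fun i => by ring
  rw [← hs, Finset.sum_congr rfl fun i _ => e i, Finset.sum_add_distrib, Finset.sum_sub_distrib,
    ← Finset.mul_sum, ← hs, Finset.sum_const, Finset.card_univ, Fintype.card_fin, nsmul_eq_mul]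
  field_simp
  ring

/-- The Lipschitz bound of the functions `log N x - av p N / rk p`. -/
theorem phn_lip {p : V →ₗ[k] V} (hp : IsBlk p) (N N' : Nm k V) {y : V}
    (hy : y ∈ LinearMap.range p) (h0 : y ≠ 0) :
    ((Real.log (N' y) - av p N' / rk p) - (Real.log (N y) - av p N / rk p)) ^ 2 ≤ phn p N N' := by
  obtain ⟨b, h1, h2, x, hx, hxe, hav, hPhi, -⟩ := exists_pos p N N'
  have hr := hp.rk_pos
  have hr' : (0 : ℝ) < rk p := by exact_mod_cast hr
  rw [phn, hPhi, hav, sum_sq_sub hr]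
  obtain ⟨s, hs⟩ : ∃ s, s = ∑ i, x i := ⟨_, rfl⟩
  rw [← hs]
  have hpos : ∀ (M : Nm k V) i, 0 < rs p M (b i) := fun M i => (rs p M).pos (b.ne_zero i)
  have hrat : ∀ i, rs p N' (b i) = Real.exp (x i) * rs p N (b i) := by
    intro i
    rw [hxe, Real.exp_log (div_pos (hpos _ _) (hpos _ _)), div_mul_cancel₀ _ (hpos _ _).ne']
  obtain ⟨y', hy'⟩ : ∃ y' : LinearMap.range p, (y' : V) = y := ⟨⟨y, hy⟩, rfl⟩
  have hy0 : y' ≠ 0 := by
    rintro rfl
    exact h0 hy'.symm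
  obtain ⟨i0, hi0⟩ : ∃ i0 : Fin (rk p), i0.val = 0 := ⟨⟨0, hr⟩, rfl⟩
  obtain ⟨i1, hi1⟩ : ∃ i1 : Fin (rk p), i1.val = rk p - 1 := ⟨⟨rk p - 1, by omega⟩, rfl⟩
  have b1 : ∀ i, x i ≤ x i0 := fun i => hx (by rw [Fin.le_def, hi0]; omega)
  have b2 : ∀ i, x i1 ≤ x i := fun i => hx (by rw [Fin.le_def, hi1]; omega)
  have u1 : N' y ≤ Real.exp (x i0) * N y := by
    have := h1.le_of_le (N' := rs p N') (Real.exp_pos (x i0)).le (fun i => by
      rw [hrat]
      exact mul_le_mul_of_nonneg_right (Real.exp_le_exp.2 (b1 i)) (hpos _ _).le) y'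
    rwa [rs, rs, Nm.res_apply, Nm.res_apply, hy'] at this
  have u2 : N y ≤ Real.exp (-x i1) * N' y := by
    have := h2.le_of_le (N' := rs p N) (Real.exp_pos (-x i1)).le (fun i => by
      rw [hrat, ← mul_assoc, ← Real.exp_add]
      refine le_mul_of_one_le_left (hpos _ _).le (Real.one_le_exp ?_)
      have := b2 i
      linarith) y'
    rwa [rs, rs, Nm.res_apply, Nm.res_apply, hy'] at this
  have l1 := Real.log_le_log (N'.pos h0) u1
  have l2 := Real.log_le_log (N.pos h0) u2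
  rw [Real.log_mul (Real.exp_pos _).ne' (N.pos h0).ne', Real.log_exp] at l1
  rw [Real.log_mul (Real.exp_pos _).ne' (N'.pos h0).ne', Real.log_exp] at l2
  have hd : (Real.log (N' y) - av p N' / rk p) - (Real.log (N y) - av p N / rk p) =
      (Real.log (N' y) - Real.log (N y)) - s / rk p := by
    rw [hs, ← hav]
    ring
  rw [hd]
  have t : ∀ i, (x i - s / rk p) ^ 2 ≤ ∑ i, (x i - s / rk p) ^ 2 := fun i =>
    Finset.single_le_sum (f := fun i => (x i - s / rk p) ^ 2) (fun j _ => sq_nonneg _)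
      (Finset.mem_univ i)
  rcases le_total 0 ((Real.log (N' y) - Real.log (N y)) - s / rk p) with h | h
  · refine le_trans ?_ (t i0)
    refine pow_le_pow_left₀ h ?_ 2
    linarith
  · refine le_trans ?_ (t i1)
    rw [← neg_sq, ← neg_sq (x i1 - s / rk p)]
    refine pow_le_pow_left₀ (by linarith) ?_ 2
    linarith

theorem phn_nonneg {p : V →ₗ[k] V} (hp : IsBlk p) (N N' : Nm k V) : 0 ≤ phn p N N' := by
  obtain ⟨b, h1, h2, x, hx, hxe, hav, hPhi, -⟩ := exists_pos p N N'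
  rw [phn, hPhi, hav, sum_sq_sub hp.rk_pos]
  exact Finset.sum_nonneg fun i _ => sq_nonneg _

theorem phn_rk_one {p : V →ₗ[k] V} (h : rk p = 1) (N N' : Nm k V) : phn p N N' = 0 := by
  obtain ⟨b, h1, h2, x, hx, hxe, hav, hPhi, -⟩ := exists_pos p N N'
  have hr : 0 < rk p := by omega
  rw [phn, hPhi, hav, sum_sq_sub hr]
  refine Finset.sum_eq_zero fun i _ => ?_
  have hs : ∑ j, x j = x i := by
    refine Fintype.sum_eq_single i fun j hj => ?_
    exact absurd (Fin.ext (by omega)) hj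
  rw [hs, h]
  simp

/-- `phn` is small if the normalised `DD j` are. -/
theorem phn_le {p : V →ₗ[k] V} (hp : IsBlk p) {N N' : Nm k V} {e : ℝ}
    (h : ∀ j ≤ rk p, DD j (rs p N) (rs p N') - (j : ℝ) / rk p * (av p N' - av p N) ≤ e) :
    phn p N N' ≤ rk p * e ^ 2 := by
  obtain ⟨b, h1, h2, x, hx, hxe, hav, hPhi, hDD⟩ := exists_pos p N N'
  have hr := hp.rk_pos
  have hr' : (0 : ℝ) < rk p := by exact_mod_cast hr
  rw [phn, hPhi, hav, sum_sq_sub hr]
  rw [hav] at h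
  obtain ⟨s, hs⟩ : ∃ s, s = ∑ i, x i := ⟨_, rfl⟩
  rw [← hs] at h ⊢
  obtain ⟨i0, hi0⟩ : ∃ i0 : Fin (rk p), i0.val = 0 := ⟨⟨0, hr⟩, rfl⟩
  obtain ⟨i1, hi1⟩ : ∃ i1 : Fin (rk p), i1.val = rk p - 1 := ⟨⟨rk p - 1, by omega⟩, rfl⟩
  have b1 : ∀ i, x i ≤ x i0 := fun i => hx (by rw [Fin.le_def, hi0]; omega)
  have b2 : ∀ i, x i1 ≤ x i := fun i => hx (by rw [Fin.le_def, hi1]; omega)
  have c1 : x i0 - s / rk p ≤ e := by
    have h3 := h 1 (by omega)
    rw [hDD 1 (by omega)] at h3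
    have h4 : ∑ i : Fin (rk p), (if i.val < 1 then x i else 0) = x i0 := by
      rw [Fintype.sum_eq_single i0 fun j hj => if_neg fun h5 => hj (Fin.ext (by omega)),
        if_pos (by omega)]
    rw [h4] at h3
    push_cast at h3
    have e1 : 1 / (rk p : ℝ) * s = s / rk p := by ring
    rwa [e1] at h3
  have c2 : -e ≤ x i1 - s / rk p := by
    have h3 := h (rk p - 1) (by omega)
    rw [hDD (rk p - 1) (by omega)] at h3
    have h4 : ∑ i : Fin (rk p), (if i.val < rk p - 1 then x i else 0) = s - x i1 := by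
      have h5 : ∀ i : Fin (rk p), (if i.val < rk p - 1 then x i else 0) =
          x i - (if i = i1 then x i1 else 0) := by
        intro i
        by_cases h6 : i = i1
        · rw [h6, if_neg (by omega), if_pos rfl, sub_self]
        · have h7 : i.val ≠ rk p - 1 := fun h8 => h6 (Fin.ext (by omega))
          rw [if_pos (by omega), if_neg h6, sub_zero]
      rw [Finset.sum_congr rfl fun i _ => h5 i, Finset.sum_sub_distrib, ← hs,
        Finset.sum_ite_eq' Finset.univ i1, if_pos (Finset.mem_univ _)]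
    rw [h4, Nat.cast_sub (by omega), Nat.cast_one] at h3
    have e1 : ((rk p : ℝ) - 1) / rk p * s = s - s / rk p := by
      field_simp
    rw [e1] at h3
    linarith
  calc ∑ i, (x i - s / rk p) ^ 2 ≤ ∑ _i : Fin (rk p), e ^ 2 := by
        refine Finset.sum_le_sum fun i _ => ?_
        rw [← sq_abs]
        refine pow_le_pow_left₀ (abs_nonneg _) (abs_le.2 ⟨?_, ?_⟩) 2
        · have := b2 i
          linarith
        · have := b1 i
          linarith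
    _ = _ := by rw [Finset.sum_const, Finset.card_univ, Fintype.card_fin, nsmul_eq_mul]

/-! ### Splitting -/

theorem Phi_of_orthF {W : Type} [AddCommGroup W] [Module k W] [FiniteDimensional k W]
    {N N' : Nm k W} {m : ℕ} (hm : m = finrank k W) {w : Fin m → W} (h : OrthF N w)
    (h' : OrthF N' w) : Phi N N' = ∑ i, Real.log (N' (w i) / N (w i)) ^ 2 := by
  subst hm
  obtain ⟨b, h1, hw⟩ := h.exists_basis
  have hb : ⇑b = w := funext fun i => hw i i rfl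
  have h2 : IsOrth N' b := isOrth_iff.2 fun x i => by rw [hb]; exact h'.2 x i
  rw [Phi_eq h1 h2, hb]

omit [IsUltrametricDist k] [ProperSpace k] [FiniteDimensional k V] in
theorem range_split {p p₁ p₂ : V →ₗ[k] V} (hp₁ : IsBlk p₁) (hp₂ : IsBlk p₂) (hadd : p₁ + p₂ = p)
    (h12 : p₁ ∘ₗ p₂ = 0) (h21 : p₂ ∘ₗ p₁ = 0) :
    LinearMap.range p = LinearMap.range p₁ ⊔ LinearMap.range p₂ ∧
      LinearMap.range p₁ ⊓ LinearMap.range p₂ = ⊥ := by
  have a1 : ∀ v, p₁ (p₁ v) = p₁ v := fun v => LinearMap.congr_fun hp₁.idem v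
  have a2 : ∀ v, p₂ (p₂ v) = p₂ v := fun v => LinearMap.congr_fun hp₂.idem v
  have a3 : ∀ v, p₁ (p₂ v) = 0 := fun v => LinearMap.congr_fun h12 v
  have a4 : ∀ v, p₂ (p₁ v) = 0 := fun v => LinearMap.congr_fun h21 v
  constructor
  · apply le_antisymm
    · rintro _ ⟨v, rfl⟩
      rw [← hadd, LinearMap.add_apply]
      exact Submodule.add_mem_sup (LinearMap.mem_range_self _ _) (LinearMap.mem_range_self _ _)
    · refine sup_le ?_ ?_
      · rintro _ ⟨v, rfl⟩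
        refine ⟨p₁ v, ?_⟩
        rw [← hadd, LinearMap.add_apply, a1, a4, add_zero]
      · rintro _ ⟨v, rfl⟩
        refine ⟨p₂ v, ?_⟩
        rw [← hadd, LinearMap.add_apply, a2, a3, zero_add]
  · rw [eq_bot_iff]
    rintro _ ⟨⟨v, rfl⟩, ⟨w, hw⟩⟩
    have h1 : p₁ (p₁ v) = 0 := by rw [← hw, a3]
    rw [a1] at h1
    rw [h1]
    exact Submodule.zero_mem _

theorem rk_add {p p₁ p₂ : V →ₗ[k] V} (hp₁ : IsBlk p₁) (hp₂ : IsBlk p₂) (hadd : p₁ + p₂ = p)
    (h12 : p₁ ∘ₗ p₂ = 0) (h21 : p₂ ∘ₗ p₁ = 0) : rk p = rk p₁ + rk p₂ := by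
  obtain ⟨h1, h2⟩ := range_split hp₁ hp₂ hadd h12 h21
  have h3 := Submodule.finrank_sup_add_finrank_inf_eq (LinearMap.range p₁) (LinearMap.range p₂)
  rw [h2, finrank_bot, add_zero, ← h1] at h3
  exact h3

theorem orthF_append {N : Nm k V} {p p₁ p₂ : V →ₗ[k] V} (hp₁ : IsBlk p₁) (hp₂ : IsBlk p₂)
    (h12 : p₁ ∘ₗ p₂ = 0) (h21 : p₂ ∘ₗ p₁ = 0) (o₁ : OrthP N p₁) (o₂ : OrthP N p₂)
    (l₁ : LinearMap.range p₁ ≤ LinearMap.range p) (l₂ : LinearMap.range p₂ ≤ LinearMap.range p)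
    {b₁ : Basis (Fin (rk p₁)) k (LinearMap.range p₁)} (hb₁ : IsOrth (rs p₁ N) b₁)
    {b₂ : Basis (Fin (rk p₂)) k (LinearMap.range p₂)} (hb₂ : IsOrth (rs p₂ N) b₂) :
    OrthF (rs p N) (Fin.append (fun i => (⟨b₁ i, l₁ (b₁ i).2⟩ : LinearMap.range p))
      fun i => ⟨b₂ i, l₂ (b₂ i).2⟩) := by
  have a1 : ∀ v ∈ LinearMap.range p₁, p₁ v = v ∧ p₂ v = 0 := by
    rintro _ ⟨v, rfl⟩
    exact ⟨LinearMap.congr_fun hp₁.idem v, LinearMap.congr_fun h21 v⟩
  have a2 : ∀ v ∈ LinearMap.range p₂, p₂ v = v ∧ p₁ v = 0 := by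
    rintro _ ⟨v, rfl⟩
    exact ⟨LinearMap.congr_fun hp₂.idem v, LinearMap.congr_fun h12 v⟩
  refine ⟨fun i => ?_, fun c i => ?_⟩
  · refine Fin.addCases (fun i => ?_) (fun i => ?_) i
    · rw [Fin.append_left]
      intro h
      exact b₁.ne_zero i (Subtype.ext (congrArg (fun z : LinearMap.range p => (z : V)) h))
    · rw [Fin.append_right]
      intro h
      exact b₂.ne_zero i (Subtype.ext (congrArg (fun z : LinearMap.range p => (z : V)) h))
  · obtain ⟨x₁, hx₁⟩ : ∃ x₁ : LinearMap.range p₁,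
        x₁ = ∑ l, c (Fin.castAdd (rk p₂) l) • b₁ l := ⟨_, rfl⟩
    obtain ⟨x₂, hx₂⟩ : ∃ x₂ : LinearMap.range p₂,
        x₂ = ∑ l, c (Fin.natAdd (rk p₁) l) • b₂ l := ⟨_, rfl⟩
    have hsum : ((∑ l, c l • Fin.append (fun i => (⟨b₁ i, l₁ (b₁ i).2⟩ : LinearMap.range p))
        (fun i => ⟨b₂ i, l₂ (b₂ i).2⟩) l : LinearMap.range p) : V) = (x₁ : V) + x₂ := by
      rw [Fin.sum_univ_add, hx₁, hx₂]
      simp only [Fin.append_left, Fin.append_right, Submodule.coe_add, Submodule.coe_sum,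
        Submodule.coe_smul]
    have hN : rs p N (∑ l, c l • Fin.append (fun i => (⟨b₁ i, l₁ (b₁ i).2⟩ : LinearMap.range p))
        (fun i => ⟨b₂ i, l₂ (b₂ i).2⟩) l) = N ((x₁ : V) + x₂) := by
      rw [rs, Nm.res_apply, hsum]
    rw [hN]
    have o1 := o₁ ((x₁ : V) + x₂)
    have o2 := o₂ ((x₁ : V) + x₂)
    rw [map_add, (a1 _ x₁.2).1, (a2 _ x₂.2).2, add_zero] at o1
    rw [map_add, (a1 _ x₁.2).2, (a2 _ x₂.2).1, zero_add] at o2
    refine Fin.addCases (fun i => ?_) (fun i => ?_) i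
    · rw [Fin.append_left]
      refine le_trans ?_ o1
      have := isOrth_iff.1 hb₁ (fun l => c (Fin.castAdd (rk p₂) l)) i
      rw [← hx₁] at this
      exact this
    · rw [Fin.append_right]
      refine le_trans ?_ o2
      have := isOrth_iff.1 hb₂ (fun l => c (Fin.natAdd (rk p₁) l)) i
      rw [← hx₂] at this
      exact this

theorem Phi_split {N N' : Nm k V} {p p₁ p₂ : V →ₗ[k] V} (hp₁ : IsBlk p₁) (hp₂ : IsBlk p₂)
    (hadd : p₁ + p₂ = p) (h12 : p₁ ∘ₗ p₂ = 0) (h21 : p₂ ∘ₗ p₁ = 0) (o₁ : OrthP N p₁)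
    (o₂ : OrthP N p₂) (o₁' : OrthP N' p₁) (o₂' : OrthP N' p₂) :
    Phi (rs p N) (rs p N') = Phi (rs p₁ N) (rs p₁ N') + Phi (rs p₂ N) (rs p₂ N') := by
  obtain ⟨b₁, f1, f1', -⟩ := exists_orth2 (rs p₁ N) (rs p₁ N')
  obtain ⟨b₂, f2, f2', -⟩ := exists_orth2 (rs p₂ N) (rs p₂ N')
  have hr := (range_split hp₁ hp₂ hadd h12 h21).1
  have l₁ : LinearMap.range p₁ ≤ LinearMap.range p := by rw [hr]; exact le_sup_left
  have l₂ : LinearMap.range p₂ ≤ LinearMap.range p := by rw [hr]; exact le_sup_right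
  rw [Phi_of_orthF (rk_add hp₁ hp₂ hadd h12 h21).symm
    (orthF_append hp₁ hp₂ h12 h21 o₁ o₂ l₁ l₂ f1 f2)
    (orthF_append hp₁ hp₂ h12 h21 o₁' o₂' l₁ l₂ f1' f2'), Fin.sum_univ_add, Phi_eq f1 f1',
    Phi_eq f2 f2']
  simp only [Fin.append_left, Fin.append_right]
  rfl

/-- **The square function of a split block.** -/
theorem phn_split {N N' : Nm k V} {p p₁ p₂ : V →ₗ[k] V} (hp₁ : IsBlk p₁) (hp₂ : IsBlk p₂)
    (hadd : p₁ + p₂ = p) (h12 : p₁ ∘ₗ p₂ = 0) (h21 : p₂ ∘ₗ p₁ = 0) (o₁ : OrthP N p₁)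
    (o₂ : OrthP N p₂) (o₁' : OrthP N' p₁) (o₂' : OrthP N' p₂) :
    phn p N N' = phn p₁ N N' + phn p₂ N N' + ((rk p₁ : ℝ) * rk p₂ / rk p) *
      ((av p₁ N' / rk p₁ - av p₂ N' / rk p₂) - (av p₁ N / rk p₁ - av p₂ N / rk p₂)) ^ 2 := by
  obtain ⟨C, hC⟩ := av_add hp₁ hp₂ hadd h12 h21
  have e1 := hC N o₁ o₂
  have e2 := hC N' o₁' o₂'
  have h1 : (rk p₁ : ℝ) ≠ 0 := by exact_mod_cast hp₁.rk_pos.ne'
  have h2 : (rk p₂ : ℝ) ≠ 0 := by exact_mod_cast hp₂.rk_pos.ne'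
  have h3 : (rk p : ℝ) = rk p₁ + rk p₂ := by
    rw [rk_add hp₁ hp₂ hadd h12 h21]
    push_cast
    rfl
  have h4 : (rk p₁ : ℝ) + rk p₂ ≠ 0 := by
    have a1 : (0 : ℝ) < rk p₁ := by exact_mod_cast hp₁.rk_pos
    have a2 : (0 : ℝ) < rk p₂ := by exact_mod_cast hp₂.rk_pos
    positivity
  have e3 : av p N' - av p N = (av p₁ N' - av p₁ N) + (av p₂ N' - av p₂ N) := by linarith
  rw [phn, phn, phn, Phi_split hp₁ hp₂ hadd h12 h21 o₁ o₂ o₁' o₂', e3, h3]
  field_simp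
  ring

end Pool.Agent.Lib.MP_5d4057_al.IN
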