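import Pool.Agent.Lib.MP_5d4057_al.IN.OneStep

/-! The projections `prj` and orthogonality from defect zero (part C, algebra). -/

namespace Pool.Agent.Lib.MP_5d4057_al.IN

open Module

variable {k : Type} [NontriviallyNormedField k] [IsUltrametricDist k] [ProperSpace k]
  {V : Type} [AddCommGroup V] [Module k V] [FiniteDimensional k V]

set_option linter.unusedSectionVars false

private theorem prj_apply {m : ℕ} (b : Basis (Fin m) k V) (s : Finset (Fin m)) (i : Fin m) :
    prj b s (b i) = if i ∈ s then b i else 0 :=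
  b.constr_basis k _ i

theorem prj_idem {m : ℕ} (b : Basis (Fin m) k V) (s : Finset (Fin m)) :
    prj b s ∘ₗ prj b s = prj b s := by
  refine b.ext fun i => ?_
  rw [LinearMap.comp_apply, prj_apply]
  split_ifs with h
  · rw [prj_apply, if_pos h]
  · rw [map_zero]

/-- The rank of the projection. -/
theorem finrank_range_prj {m : ℕ} (b : Basis (Fin m) k V) (s : Finset (Fin m)) :
    finrank k (LinearMap.range (prj b s)) = s.card := by
  have h1 : LinearMap.range (prj b s) = Submodule.span k (Set.range fun i : s => b i) := by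
    rw [prj, Basis.constr_range]
    apply le_antisymm
    · rw [Submodule.span_le]
      rintro _ ⟨i, rfl⟩
      beta_reduce
      split_ifs with h
      · exact Submodule.subset_span ⟨⟨i, h⟩, rfl⟩
      · exact Submodule.zero_mem _
    · rw [Submodule.span_le]
      rintro _ ⟨⟨i, h⟩, rfl⟩
      exact Submodule.subset_span ⟨i, if_pos h⟩
  rw [h1]
  refine (finrank_span_eq_card (b := fun i : s => b i)
    (b.linearIndependent.comp (fun i : s => (i : Fin m)) Subtype.val_injective)).trans ?_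
  exact Fintype.card_coe s

private theorem coord_prj {m : ℕ} (b : Basis (Fin m) k V) {s : Finset (Fin m)} {i : Fin m}
    (hi : i ∈ s) (v : V) : b.coord i (prj b s v) = b.coord i v := by
  have h : b.coord i ∘ₗ prj b s = b.coord i := by
    refine b.ext fun l => ?_
    rw [LinearMap.comp_apply, prj_apply]
    split_ifs with hl
    · rfl
    · rw [map_zero, Basis.coord_apply, Basis.repr_self, Finsupp.single_eq_of_ne]
      rintro rfl
      exact hl hi
  exact LinearMap.congr_fun h v

private theorem mem_prj {m : ℕ} (b : Basis (Fin m) k V) {s : Finset (Fin m)} {i : Fin m}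
    (hi : i ∈ s) : b i ∈ LinearMap.range (prj b s) :=
  ⟨b i, by rw [prj_apply, if_pos hi]⟩

/-- an orthogonal basis of a subspace which starts with a given vector -/
private theorem exists_start (N : Nm k V) (W : Submodule k V) {j : ℕ}
    (hW : finrank k W = j + 1) {v : V} (hv : v ∈ W) (hv0 : v ≠ 0) :
    ∃ c : Basis (Fin (j + 1)) k W, IsOrth (N.res W) c ∧ (c 0 : V) = v := by
  obtain ⟨b0, hb0⟩ := exists_orth (N.res W)
  have hv1 : (⟨v, hv⟩ : W) ≠ 0 := fun h => hv0 (congrArg Subtype.val h)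
  obtain ⟨l, hl⟩ := exists_norming_of_orth hb0 hv1
  obtain ⟨b1, hb1⟩ := exists_orth ((N.res W).res (LinearMap.ker l))
  obtain ⟨c, h1, h2, -⟩ := exists_cons (fun _ : Unit => N.res W) (fun _ => hl) b1 fun _ => hb1
  refine ⟨c.reindex (finCongr hW), (h1 ()).reindex _, ?_⟩
  rw [Basis.reindex_apply, h2 _ (by simp)]

/-- **Orthogonality from defect zero.** `ω = b_s`, `ξ` = the coordinate at `s`. Proof. Let
`v = v₁ + v₂`, `v₁ = prj v ≠ 0`, `v₂ = v - v₁` in the span of the other basis vectors. Choose an orthogonal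
basis `(v₁, w₂, .., w_j)` of `W₁ = range (prj b s)` for `N.res W₁` which contains `v₁` (norming functional of
`v₁`, `exists_orth_compl` or `exists_cons`). `ω = λ v₁ ∧ w₂ ∧ .. ∧ w_j` (`vol_matrix`), so
`N^j(ω) = ‖λ‖ N(v₁) ∏ N(w_i)` (`OrthF.vol_eq`), and `ξ` does not see `v₂`:
`ξ ((v₁+v₂) ∧ w₂ ∧ ..) = ξ (v₁ ∧ w₂ ∧ ..) = 1/λ` (the coordinate is a minor with a zero row,
`exteriorPower.ιMultiDual_apply_ιMulti`). So `1/‖λ‖ ≤ N*(ξ) N^j((v₁+v₂) ∧ w₂ ..) ≤ N*(ξ) N(v₁+v₂) ∏ N(w_i)`,
that is `N(v₁) ≤ N^j(ω) N*(ξ) N(v₁+v₂) ≤ N(v₁+v₂)`. -/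
theorem orth_of_defect {N : Nm k V} {m : ℕ} {b : Basis (Fin m) k V} {j : ℕ}
    (s : Set.powersetCard (Fin m) j)
    (h : Real.log (N.ext j (b.exteriorPower j s)) +
      lop ((b.exteriorPower j).coord s) (N.ext j) (Nm.abs k) ≤ 0) (v : V) :
    N (prj b s.1 v) ≤ N v := by
  by_cases hv0 : prj b s.1 v = 0
  · rw [hv0, N.zero]
    exact N.nonneg v
  -- the case `j = 0` does not occur
  obtain ⟨j', rfl⟩ : ∃ j', j = j' + 1 := by
    refine ⟨j - 1, ?_⟩
    rcases Nat.eq_zero_or_pos j with hj | hj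
    · exfalso
      subst hj
      have hs : s.1 = ∅ := Finset.card_eq_zero.1 s.2
      have h1 := finrank_range_prj b s.1
      rw [hs, Finset.card_empty, ← hs] at h1
      have h2 : LinearMap.range (prj b s.1) = ⊥ := Submodule.finrank_eq_zero.1 h1
      exact hv0 ((Submodule.eq_bot_iff _).1 h2 _ ⟨v, rfl⟩)
    · omega
  set e := Set.powersetCard.ofFinEmbEquiv.symm s with he
  have hes : ∀ i, e i ∈ s.1 := fun i =>
    (Set.powersetCard.mem_range_ofFinEmbEquiv_symm_iff_mem s (e i)).1 ⟨i, rfl⟩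
  have hW : finrank k (LinearMap.range (prj b s.1)) = j' + 1 := by
    rw [finrank_range_prj]
    exact s.2
  obtain ⟨c, hc, hc0⟩ := exists_start N (LinearMap.range (prj b s.1)) hW ⟨v, rfl⟩ hv0
  obtain ⟨w, hw⟩ : ∃ w : Fin (j' + 1) → V, w = fun i => (c i : V) := ⟨_, rfl⟩
  have hw0 : w 0 = prj b s.1 v := by rw [hw]; exact hc0
  have hpos : ∀ i, 0 < N (w i) := by
    intro i
    rw [hw]
    exact N.pos fun h0 => c.ne_zero i (Subtype.ext h0)
  have hwo : OrthF N w := by
    refine ⟨fun i h0 => ?_, fun x i => ?_⟩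
    · have := hpos i
      rw [h0, N.zero] at this
      exact lt_irrefl _ this
    · have h1 := isOrth_iff.1 hc x i
      rw [Nm.res_apply, Nm.res_apply] at h1
      rw [hw]
      push_cast at h1
      exact h1
  -- the matrices
  obtain ⟨A, hA⟩ : ∃ A : Matrix (Fin (j' + 1)) (Fin (j' + 1)) k,
    A = fun i l => c.repr ⟨b (e i), mem_prj b (hes i)⟩ l := ⟨_, rfl⟩
  have hbA : (fun i => b (e i)) = fun i => ∑ l, A i l • w l := by
    funext i
    have h1 := congrArg Subtype.val (c.sum_repr ⟨b (e i), mem_prj b (hes i)⟩)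
    push_cast at h1
    rw [hA, hw]
    exact h1.symm
  have hξ : ∀ x : Fin (j' + 1) → V, (b.exteriorPower (j' + 1)).coord s
      (exteriorPower.ιMulti k (j' + 1) x) =
        (Matrix.of fun i l => b.coord (e l) (x i)).det := by
    intro x
    rw [Basis.coord_apply, exteriorPower.basis_repr_apply, exteriorPower.ιMultiDual_apply_ιMulti]
  obtain ⟨B, hB⟩ : ∃ B : Matrix (Fin (j' + 1)) (Fin (j' + 1)) k,
    B = Matrix.of fun i l => b.coord (e l) (w i) := ⟨_, rfl⟩
  have hAB : A * B = 1 := by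
    ext i r
    rw [Matrix.mul_apply, hB]
    have h1 := congrFun hbA i
    beta_reduce at h1
    have h2 := congrArg (b.coord (e r)) h1
    rw [map_sum] at h2
    simp only [map_smul, smul_eq_mul] at h2
    rw [Matrix.one_apply]
    refine h2.symm.trans ?_
    rw [Basis.coord_apply, Basis.repr_self]
    by_cases hir : i = r
    · rw [hir, Finsupp.single_eq_same, if_pos rfl]
    · rw [if_neg hir, Finsupp.single_eq_of_ne]
      exact fun h => hir (e.injective h.symm)
  have hdet : ‖A.det‖ * ‖B.det‖ = 1 := by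
    rw [← norm_mul, ← Matrix.det_mul, hAB, Matrix.det_one, norm_one]
  have hA0 : 0 < ‖A.det‖ := by
    rcases (norm_nonneg A.det).eq_or_lt with h0 | h0
    · rw [← h0, zero_mul] at hdet
      exact absurd hdet zero_ne_one
    · exact h0
  -- the volumes
  have hP : 0 < ∏ i : Fin j', N (w i.succ) := Finset.prod_pos fun i _ => hpos _
  have hvol : N.ext (j' + 1) (b.exteriorPower (j' + 1) s) =
      ‖A.det‖ * (N (prj b s.1 v) * ∏ i : Fin j', N (w i.succ)) := by
    rw [exteriorPower.basis_apply, exteriorPower.ιMulti_family]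
    show N.vol (fun i => b (e i)) = _
    rw [hbA, Nm.vol_matrix, hwo.vol_eq, Fin.prod_univ_succ, hw0]
  -- the other tuple
  obtain ⟨u, hu⟩ : ∃ u : Fin (j' + 1) → V, u = Fin.cons v fun i => w i.succ := ⟨_, rfl⟩
  have hvolu : N.vol u ≤ N v * ∏ i : Fin j', N (w i.succ) := by
    refine (N.vol_le u).trans (le_of_eq ?_)
    rw [Fin.prod_univ_succ, hu]
    simp only [Fin.cons_zero, Fin.cons_succ]
  have hBu : (Matrix.of fun i l => b.coord (e l) (u i)) = B := by
    rw [hB]
    ext i l
    simp only [Matrix.of_apply]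
    refine Fin.cases ?_ (fun i => ?_) i
    · rw [hu, Fin.cons_zero, hw0, coord_prj b (hes l)]
    · rw [hu, Fin.cons_succ]
  have hξu : ‖B.det‖ ≤ opn ((b.exteriorPower (j' + 1)).coord s) (N.ext (j' + 1)) (Nm.abs k) *
      N.vol u := by
    have h1 := le_opn ((b.exteriorPower (j' + 1)).coord s) (N.ext (j' + 1)) (Nm.abs k)
      (exteriorPower.ιMulti k (j' + 1) u)
    rw [hξ, hBu] at h1
    exact h1
  -- the defect
  have hξ0 : (b.exteriorPower (j' + 1)).coord s ≠ 0 := by
    intro h0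
    have h1 := LinearMap.congr_fun h0 (b.exteriorPower (j' + 1) s)
    rw [Basis.coord_apply, Basis.repr_self, Finsupp.single_eq_same, LinearMap.zero_apply] at h1
    exact one_ne_zero h1
  have hop := opn_pos hξ0 (N.ext (j' + 1)) (Nm.abs k)
  have hext : 0 < N.ext (j' + 1) (b.exteriorPower (j' + 1) s) :=
    (N.ext (j' + 1)).pos ((b.exteriorPower (j' + 1)).ne_zero s)
  have hdef : N.ext (j' + 1) (b.exteriorPower (j' + 1) s) *
      opn ((b.exteriorPower (j' + 1)).coord s) (N.ext (j' + 1)) (Nm.abs k) ≤ 1 := by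
    unfold lop at h
    rw [← Real.log_mul hext.ne' hop.ne'] at h
    exact (Real.log_nonpos_iff (mul_pos hext hop).le).1 h
  set op := opn ((b.exteriorPower (j' + 1)).coord s) (N.ext (j' + 1)) (Nm.abs k) with hopd
  set P := ∏ i : Fin j', N (w i.succ) with hPd
  rw [hvol] at hdef
  have h1 : 1 ≤ ‖A.det‖ * (op * (N v * P)) := by
    calc (1 : ℝ) = ‖A.det‖ * ‖B.det‖ := hdet.symm
      _ ≤ ‖A.det‖ * (op * N.vol u) := mul_le_mul_of_nonneg_left hξu (norm_nonneg _)
      _ ≤ ‖A.det‖ * (op * (N v * P)) :=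
        mul_le_mul_of_nonneg_left (mul_le_mul_of_nonneg_left hvolu hop.le) (norm_nonneg _)
  have h2 : N (prj b s.1 v) * (‖A.det‖ * op * P) ≤ N v * (‖A.det‖ * op * P) := by
    calc N (prj b s.1 v) * (‖A.det‖ * op * P) = ‖A.det‖ * (N (prj b s.1 v) * P) * op := by ring
      _ ≤ 1 := hdef
      _ ≤ ‖A.det‖ * (op * (N v * P)) := h1
      _ = N v * (‖A.det‖ * op * P) := by ring
  exact le_of_mul_le_mul_right h2 (mul_pos (mul_pos hA0 hop) hP)

end Pool.Agent.Lib.MP_5d4057_al.IN
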