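import Pool.Agent.Lib.MP_5d4057_al.IN.Pers

/-! Persistence (text C5, C6, new form), the induction over the scales. -/

set_option autoImplicit false

namespace Pool.Agent.Lib.MP_5d4057_al.IN

open Matrix MeasureTheory Filter Topology Pool.Agent.Lib.MP_5d4057_al Pool.Agent.Lib.MP_5d4057_al.Hyb
  Pool.Agent.Lib.MP_5d4057_al.HM

variable {n : ℕ}

private theorem sqrt_hq_eq (x : SUGroup n) : Real.sqrt (hq x) = nr (zc x) := by
  rw [← nr_zc_sq, Real.sqrt_sq (nr_nonneg _)]

private theorem nr_le_dd (p g : SUGroup n) : nr (zc g) ≤ nr (zc p) + dd p g := by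
  have h := sqrt_hq_mul_le p (p⁻¹ * g)
  rw [mul_inv_cancel_left, sqrt_hq_eq, sqrt_hq_eq] at h
  exact h

private theorem dd_mul (p g x : SUGroup n) : dd p (g * x) ≤ dd p g + Real.sqrt (hq x) := by
  unfold dd
  rw [← mul_assoc]
  exact sqrt_hq_mul_le _ _

private theorem dd_self (p : SUGroup n) : dd p p = 0 := by
  unfold dd
  rw [inv_mul_cancel, hq, ch_one]
  norm_num

private theorem dd_one (g : SUGroup n) : dd 1 g = nr (zc g) := by
  unfold dd
  rw [inv_one, one_mul, sqrt_hq_eq]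

private theorem sqrt_hq_le_of {x : SUGroup n} {r : ℝ} (hr : 0 ≤ r) (h : hq x ≤ r ^ 2) :
    Real.sqrt (hq x) ≤ r := by
  rw [← Real.sqrt_sq hr]
  exact Real.sqrt_le_sqrt h

/-- the average and the function differ by at most the defect -/
private theorem AA_sand (hn : 1 ≤ n) {r : ℝ} (hr : 0 < r) (hr1 : r < 1) {u u' : SUGroup n → ℝ}
    (hu : Continuous u) (hu' : Continuous u') (hs : ∀ g, u g ≤ AA r u g)
    (hs' : ∀ g, u' g ≤ AA r u' g) (hpos : ∀ g, 0 ≤ u g + u' g) {g : SUGroup n} {G : ℝ}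
    (hG : ∀ x, hq x ≤ r ^ 2 → u (g * x) + u' (g * x) ≤ G) :
    0 ≤ AA r u g - u g ∧ AA r u g - u g ≤ G := by
  have h1 := AA_add hr hr1 hu hu' g
  have h2 : AA r (fun x => u x + u' x) g ≤ AA r (fun _ => G) g :=
    AA_mono hr hr1 (hu.add hu') continuous_const hG
  rw [AA_const hn hr hr1] at h2
  have h3 := hs g
  have h4 := hs' g
  have h5 := hpos g
  exact ⟨by linarith, by linarith⟩

private theorem continuous_ip (v : Fin n → ℂ) : Continuous fun x : SUGroup n => ip v (zc x) := by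
  unfold ip hp
  exact Complex.continuous_re.comp (continuous_finsetSum _ fun j _ =>
    continuous_const.mul (continuous_zc j))

/-- affine functions of the ball coordinate are their own averages -/
private theorem AA_af (hn : 1 ≤ n) {r : ℝ} (hr : 0 < r) (hr1 : r < 1) (v : Fin n → ℂ) (L u₀ : ℝ)
    (g : SUGroup n) : AA r (fun x => u₀ + L * ip v (zc x)) g = u₀ + L * ip v (zc g) := by
  have h1 := AA_add hr hr1 (u := fun _ => u₀) (v := fun x => L * ip v (zc x)) continuous_const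
    (continuous_const.mul (continuous_ip v)) g
  rw [AA_const hn hr hr1, AA_smul] at h1
  refine h1.trans ?_
  have h2 := AA_zc hn hr hr1 (fun j => star (v j)) g
  unfold ip hp
  rw [h2]

private theorem AA_split (hn : 1 ≤ n) {r : ℝ} (hr : 0 < r) (hr1 : r < 1) (v : Fin n → ℂ) (L u₀ : ℝ)
    {u : SUGroup n → ℝ} (hu : Continuous u) (g : SUGroup n) :
    AA r u g = AA r (fun x => u x - (u₀ + L * ip v (zc x))) g + (u₀ + L * ip v (zc g)) := by
  have h1 := AA_sub hr hr1 hu (v := fun x => u₀ + L * ip v (zc x))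
    (continuous_const.add (continuous_const.mul (continuous_ip v))) g
  rw [AA_af hn hr hr1] at h1
  linarith

private theorem nr_one_of {v : Fin n → ℂ} (hv : Kak.nq v = 1) : nr v = 1 := by
  have h1 := nq_eq_nr_sq v
  rw [hv] at h1
  have h2 := nr_nonneg v
  nlinarith

private theorem nr_flow_le {v : Fin n → ℂ} (hv : Kak.nq v = 1) {t : ℝ} (ht : 0 ≤ t)
    {g : SUGroup n} (hg : nr (zc g) + t ≤ 1 / 8) :
    nr (zc (Kak.flow v hv t * g)) ≤ nr (zc g) + 2 * t := by
  have h0 := nr_nonneg (zc g)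
  have h1 := zc_flow_mul hv ht (by linarith) (g := g) (by linarith)
  have h2 : zc (Kak.flow v hv t * g) =
      (zc (Kak.flow v hv t * g) - zc g - (t : ℂ) • v) + (zc g + (t : ℂ) • v) := by
    ring
  have h3 : nr ((t : ℂ) • v) = t := by
    rw [nr_smul, nr_one_of hv, mul_one, Complex.norm_real, Real.norm_eq_abs, abs_of_nonneg ht]
  rw [h2]
  refine (nr_add_le _ _).trans ?_
  have h4 := nr_add_le (zc g) ((t : ℂ) • v)
  rw [h3] at h4
  nlinarith

/-- the increments of the average of an almost affine function, small steps -/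
private theorem incr_half (hn : 1 ≤ n) {C : ℝ} (hC : 0 < C)
    (hA : ∀ r : ℝ, 0 < r → r ≤ 1 / 4 → ∀ u : SUGroup n → ℝ,
      Continuous u → ∀ g b : SUGroup n, Real.log (wt (g⁻¹ * b * g)) ≤ r → ∀ M : ℝ,
        (∀ x, hq x ≤ (2 * r) ^ 2 → |u (g * x)| ≤ M) →
          |AA r u (b * g) - AA r u g| ≤ C * (Real.log (wt (g⁻¹ * b * g)) / r) * M)
    {L d rr u₀ : ℝ} (hL : 0 ≤ L) (hr : 0 < rr) (hr1 : rr ≤ 1 / 64) (hd : rr ≤ d)
    {v : Fin n → ℂ} (hv : Kak.nq v = 1) {u : SUGroup n → ℝ} (hu : Continuous u)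
    (h : ∀ g, nr (zc g) ≤ rr → |u g - u₀ - L * ip v (zc g)| ≤ d * rr) {g : SUGroup n} {t : ℝ}
    (ht : 0 ≤ t) (ht1 : t ≤ rr / 512) (hg : nr (zc g) ≤ rr / 2) :
    (L - (5 * L + 512 * C) * d) * t ≤
      AA (rr / 256) u (Kak.flow v hv t * g) - AA (rr / 256) u g := by
  have hd0 : 0 < d := hr.trans_le hd
  have hg0 := nr_nonneg (zc g)
  have hrr : 0 < rr / 256 := by linarith
  rw [AA_split hn hrr (by linarith) v L u₀ hu, AA_split hn hrr (by linarith) v L u₀ hu g]
  -- the affine part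
  have h1 := zc_flow_mul hv ht (by linarith) (g := g) (by linarith)
  have h2 : ip v (zc (Kak.flow v hv t * g)) = ip v (zc g) + t +
      ip v (zc (Kak.flow v hv t * g) - zc g - (t : ℂ) • v) := by
    rw [ip_sub, ip_sub, ip_smul, ip_self, nr_one_of hv]
    ring
  have h3 := abs_ip_le v (zc (Kak.flow v hv t * g) - zc g - (t : ℂ) • v)
  rw [nr_one_of hv, one_mul] at h3
  have h4 : |ip v (zc (Kak.flow v hv t * g) - zc g - (t : ℂ) • v)| ≤ 5 * rr * t := by
    refine h3.trans (h1.trans ?_)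
    nlinarith
  -- the error
  have h5 := log_wt_flow_le hv ht (by linarith) (g := g) (by linarith)
  have h6 : Real.log (wt (g⁻¹ * Kak.flow v hv t * g)) ≤ 2 * t := by
    refine h5.trans ?_
    nlinarith
  have h7 := hA (rr / 256) hrr (by linarith) (fun x => u x - (u₀ + L * ip v (zc x)))
    (hu.sub (continuous_const.add (continuous_const.mul (continuous_ip v)))) g
    (Kak.flow v hv t) (by linarith) (d * rr) (fun x hx => by
      have e1 := sqrt_hq_le_of (by linarith) hx
      have e2 := sqrt_hq_mul_le g x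
      rw [sqrt_hq_eq, sqrt_hq_eq] at e2
      rw [← sub_sub]
      exact h _ (by linarith))
  have h8 : C * (Real.log (wt (g⁻¹ * Kak.flow v hv t * g)) / (rr / 256)) * (d * rr) ≤
      512 * C * d * t := by
    have e1 : C * (Real.log (wt (g⁻¹ * Kak.flow v hv t * g)) / (rr / 256)) * (d * rr) =
        256 * C * d * Real.log (wt (g⁻¹ * Kak.flow v hv t * g)) := by
      field_simp
    rw [e1]
    have e2 := mul_le_mul_of_nonneg_left h6 (a := 256 * C * d) (by positivity)
    linarith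
  have h9 := (abs_le.1 (h7.trans h8)).1
  have h10 := (abs_le.1 h4).1
  rw [h2]
  have h11 : L * (-(5 * rr * t)) ≤
      L * ip v (zc (Kak.flow v hv t * g) - zc g - (t : ℂ) • v) :=
    mul_le_mul_of_nonneg_left h10 hL
  have h12 : L * (5 * rr * t) ≤ 5 * L * d * t := by
    have := mul_le_mul_of_nonneg_left hd (a := L * (5 * t)) (by positivity)
    linarith
  linarith

/-- the increments of the average of an almost affine function -/
private theorem incr_base (hn : 1 ≤ n) : ∃ C : ℝ, 0 < C ∧ ∀ (L d rr u₀ : ℝ), 0 ≤ L → 0 < rr →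
    rr ≤ 1 / 64 → rr ≤ d → ∀ (v : Fin n → ℂ) (hv : Kak.nq v = 1) (u : SUGroup n → ℝ),
    Continuous u → (∀ g, nr (zc g) ≤ rr → |u g - u₀ - L * ip v (zc g)| ≤ d * rr) →
    ∀ g t, 0 ≤ t → t ≤ rr / 256 → nr (zc g) ≤ rr / 4 →
      (L - C * (L + 1) * d) * t ≤
        AA (rr / 256) u (Kak.flow v hv t * g) - AA (rr / 256) u g := by
  obtain ⟨C, hC, hA⟩ := AA_incr hn
  refine ⟨5 + 512 * C, by positivity, fun L d rr u₀ hL hr hr1 hd v hv u hu h g t ht ht1 hg => ?_⟩
  have hd0 : 0 < d := hr.trans_le hd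
  have hg0 := nr_nonneg (zc g)
  have h1 := nr_flow_le hv (t := t / 2) (by linarith) (g := g) (by linarith)
  have h2 := incr_half hn hC hA hL hr hr1 hd hv hu h (g := g) (t := t / 2) (by linarith)
    (by linarith) (by linarith)
  have h3 := incr_half hn hC hA hL hr hr1 hd hv hu h (g := Kak.flow v hv (t / 2) * g)
    (t := t / 2) (by linarith) (by linarith) (by linarith)
  have h4 : Kak.flow v hv (t / 2) * (Kak.flow v hv (t / 2) * g) = Kak.flow v hv t * g := by
    rw [← mul_assoc, ← Kak.flow_add, add_halves]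
  rw [h4] at h3
  have h5 : (L - (5 + 512 * C) * (L + 1) * d) * t ≤ (L - (5 * L + 512 * C) * d) * t := by
    refine mul_le_mul_of_nonneg_right ?_ ht
    have e1 : 0 ≤ (5 + 512 * C * L) * d := by positivity
    nlinarith
  linarith

/-- **Persistence.** Proof: for a centre `p` with `nr (zc p) ≤ rr/8` put `ρ_i = 4^(-i) rr/8`,
`G_i = 16^(-i) d₁ rr`; by induction `u + u' ≤ G_i` on `{dd p g ≤ ρ_i}` and the increments of
`AA (ρ_i/32) u` are `≥ κ_i t`, `κ_0 = L - C d₁` (`small`: `u` is affine up to `d₁ rr`; `AA_zc`, `zc_flow_mul`,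
`AA_incr`), `κ_(i+1) = κ_i - C G_i/ρ_i` (`pers_incr`), `∑ G_i/ρ_i ≤ 16 d₁`. So with `e := C' d₁`,
`pers_step` applies at every scale and `C (e/c) ≤ 1/16` for small `d₁`. Hence `u + u' = 0` at `p`. Last
claim: `p = 1`, `i = 1`: there `G = 0`, so `u = AA u` and the increments are `≥ (L - e) t`. -/
theorem persist (hn : 1 ≤ n) {L c : ℝ} (hL : 0 < L) (hc : 0 < c) : ∃ d₁ : ℝ, 0 < d₁ ∧
    ∀ rr : ℝ, 0 < rr → rr ≤ d₁ → ∀ (v : Fin n → ℂ) (hv : Kak.nq v = 1) (u u' : SUGroup n → ℝ)
    (Λ u₀ : ℝ), 0 ≤ Λ → Continuous u → Continuous u' →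
    (∀ r g, 0 < r → r < 1 → u g ≤ AA r u g) → (∀ r g, 0 < r → r < 1 → u' g ≤ AA r u' g) →
    (∀ g, 0 ≤ u g + u' g) →
    (∀ g, nr (zc g) ≤ rr → u g + u' g ≤ d₁ * rr ∧ |u g - u₀ - L * ip v (zc g)| ≤ d₁ * rr) →
    (∀ g t, 0 ≤ t → t ≤ rr → nr (zc g) ≤ rr → nr (zc (Kak.flow v hv t * g)) ≤ rr →
      u (Kak.flow v hv t * g) - u g ≤ (L + d₁) * t ∧ u' g - u' (Kak.flow v hv t * g) ≤ (L + d₁) * t) →
    (∀ g t, 0 < t → t ≤ rr → nr (zc g) ≤ rr → nr (zc (Kak.flow v hv t * g)) ≤ rr →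
      (L - c) * t ≤ u (Kak.flow v hv t * g) - u g →
      (L - c) * t ≤ u' g - u' (Kak.flow v hv t * g) → u g + u' g ≤ Λ * t) →
    (∀ g, nr (zc g) ≤ rr / 8 → u g + u' g = 0) ∧
      ∃ t₀ : ℝ, 0 < t₀ ∧ ∀ t, 0 ≤ t → t ≤ t₀ → L / 2 * t ≤ u (Kak.flow v hv t) - u 1 := by
  obtain ⟨C1, hC1, step⟩ := pers_step hn
  obtain ⟨C2, hC2, incr⟩ := pers_incr hn
  obtain ⟨C0, hC0, base⟩ := incr_base hn
  obtain ⟨C', hC'⟩ : ∃ C', C' = C0 * (L + 1) + 11 * C2 + 8 := ⟨_, rfl⟩
  have hC'0 : 0 < C' := by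
    rw [hC']
    positivity
  obtain ⟨d₁, hd₁⟩ : ∃ d₁, d₁ = min (1 / 64) (min (c / (16 * C1 * C')) (L / (2 * C'))) := ⟨_, rfl⟩
  have hd0 : 0 < d₁ := by
    rw [hd₁]
    positivity
  have hd1 : d₁ ≤ 1 / 64 := by
    rw [hd₁]
    exact min_le_left _ _
  have hd2 : C1 * (C' * d₁ / c) ≤ 1 / 16 := by
    have h1 : d₁ ≤ c / (16 * C1 * C') := by
      rw [hd₁]
      exact (min_le_right _ _).trans (min_le_left _ _)
    rw [le_div_iff₀ (by positivity)] at h1
    rw [← mul_div_assoc, div_le_iff₀ hc]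
    linarith
  have hd3 : C' * d₁ ≤ L / 2 := by
    have h1 : d₁ ≤ L / (2 * C') := by
      rw [hd₁]
      exact (min_le_right _ _).trans (min_le_right _ _)
    rw [le_div_iff₀ (by positivity)] at h1
    linarith
  refine ⟨d₁, hd0, fun rr hr hrd v hv u u' Λ u₀ hΛ hu hu' hs hs' hpos hsm hup hone => ?_⟩
  obtain ⟨e, he⟩ : ∃ e, e = C' * d₁ := ⟨_, rfl⟩
  have he0 : 0 < e := by
    rw [he]
    positivity
  have hde : 8 * d₁ ≤ e := by
    rw [he, hC']
    have : 0 ≤ (C0 * (L + 1) + 11 * C2) * d₁ := by positivity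
    nlinarith
  obtain ⟨B, hB⟩ : ∃ B, B = 11 * C2 * d₁ := ⟨_, rfl⟩
  have hB0 : 0 ≤ B := by
    rw [hB]
    positivity
  -- the statement at one scale
  obtain ⟨S, hS⟩ : ∃ S : SUGroup n → ℝ → Prop, S = fun p q =>
      (∀ g, dd p g ≤ rr / 8 * q → u g + u' g ≤ d₁ * rr * q ^ 2) ∧
      ∀ g t, 0 ≤ t → t ≤ rr / 8 * q / 32 → dd p g ≤ rr / 8 * q / 2 →
        dd p (Kak.flow v hv t * g) ≤ rr / 8 * q / 2 →
        (L - e + B * q) * t ≤ AA (rr / 8 * q / 32) u (Kak.flow v hv t * g) -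
          AA (rr / 8 * q / 32) u g := ⟨_, rfl⟩
  have hbase : ∀ p : SUGroup n, nr (zc p) ≤ rr / 8 → S p 1 := by
    intro p hp
    rw [hS]
    refine ⟨fun g hg => ?_, fun g t ht ht1 hg hg' => ?_⟩
    · rw [mul_one] at hg
      have h1 := nr_le_dd p g
      have h2 := (hsm g (by linarith)).1
      linarith
    · rw [mul_one] at hg ht1
      have h1 := nr_le_dd p g
      have h2 := base L d₁ rr u₀ hL.le hr (by linarith) hrd v hv u hu
        (fun g hg => (hsm g hg).2) g t ht (by linarith) (by linarith)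
      have e1 : rr / 8 * 1 / 32 = rr / 256 := by ring
      rw [e1]
      have e2 : L - e + B * 1 ≤ L - C0 * (L + 1) * d₁ := by
        rw [he, hB, hC']
        nlinarith
      exact (mul_le_mul_of_nonneg_right e2 ht).trans h2
  have hstep : ∀ p : SUGroup n, nr (zc p) ≤ rr / 8 → ∀ q : ℝ, 0 < q → q ≤ 1 → S p q →
      S p (q / 4) := by
    intro p hp q hq0 hq1 hSq
    rw [hS] at hSq ⊢
    obtain ⟨hS1, hS2⟩ := hSq
    have hρ : 0 < rr / 8 * q := by positivity
    have hρ1 : rr / 8 * q ≤ rr / 8 := by nlinarith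
    have hG : 0 ≤ d₁ * rr * q ^ 2 := by positivity
    have hmem : ∀ g, dd p g ≤ rr / 8 * q → nr (zc g) ≤ rr := fun g hg => by
      have h1 := nr_le_dd p g
      linarith
    have hG2 : d₁ * rr * q ^ 2 ≤ e * (rr / 8 * q) := by
      have h1 : q ^ 2 ≤ q := by nlinarith
      have h2 : d₁ * rr * q ^ 2 ≤ d₁ * rr * q := mul_le_mul_of_nonneg_left h1 (by positivity)
      have h3 : 8 * d₁ * (rr / 8 * q) ≤ e * (rr / 8 * q) :=
        mul_le_mul_of_nonneg_right hde hρ.le
      linarith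
    have key := step L e c Λ (rr / 8 * q) (d₁ * rr * q ^ 2) hL he0 hc hΛ hρ (by linarith) hG hG2
      v hv u u' hu hu' hs hs' hpos p (by linarith) hS1
      (fun g t ht ht1 hg hg' => by
        have h1 := hup g t ht (by linarith) (hmem g hg) (hmem _ hg')
        have h2 : (L + d₁) * t ≤ (L + e) * t :=
          mul_le_mul_of_nonneg_right (by linarith) ht
        exact ⟨h1.1.trans h2, h1.2.trans h2⟩)
      (fun g t ht ht1 hg hg' => hone g t ht (by linarith) (hmem g hg) (hmem _ hg'))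
      (fun g t ht ht1 hg hg' => by
        have h1 := hS2 g t ht ht1 hg hg'
        have h2 : (L - e) * t ≤ (L - e + B * q) * t :=
          mul_le_mul_of_nonneg_right (by nlinarith) ht
        exact h2.trans h1)
    have e1 : rr / 8 * (q / 4) = rr / 8 * q / 4 := by ring
    rw [e1]
    refine ⟨fun g hg => ?_, fun g t ht ht1 hg hg' => ?_⟩
    · refine (key g hg).trans ?_
      have h1 : C1 * (e / c) * (d₁ * rr * q ^ 2) ≤ 1 / 16 * (d₁ * rr * q ^ 2) := by
        refine mul_le_mul_of_nonneg_right ?_ hG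
        rw [he]
        exact hd2
      refine h1.trans (le_of_eq ?_)
      ring
    · have h1 := incr (L - e + B * q) (rr / 8 * q) (d₁ * rr * q ^ 2) hρ (by linarith) hG v hv u hu
        p (by linarith) (fun g hg => by
          have h2 := AA_sand hn (r := rr / 8 * q / 32) (by linarith) (by linarith) hu hu'
            (fun g => hs _ g (by linarith) (by linarith))
            (fun g => hs' _ g (by linarith) (by linarith)) hpos (g := g)
            (G := d₁ * rr * q ^ 2) (fun x hx => by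
              have e2 := sqrt_hq_le_of (by linarith) hx
              have e3 := dd_mul p g x
              exact hS1 _ (by linarith))
          rw [abs_sub_comm, abs_of_nonneg h2.1]
          exact h2.2)
        hS2 g t ht ht1 hg hg'
      refine le_trans (mul_le_mul_of_nonneg_right ?_ ht) h1
      have e2 : d₁ * rr * q ^ 2 / (rr / 8 * q) = 8 * d₁ * q := by
        field_simp
      rw [e2, hB]
      have : 0 ≤ C2 * d₁ * q := by positivity
      nlinarith
  have hall : ∀ p : SUGroup n, nr (zc p) ≤ rr / 8 → ∀ i : ℕ, S p ((1 / 4) ^ i) := by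
    intro p hp i
    induction i with
    | zero =>
      rw [pow_zero]
      exact hbase p hp
    | succ i ih =>
      have h1 := hstep p hp ((1 / 4) ^ i) (by positivity)
        (pow_le_one₀ (by norm_num) (by norm_num)) ih
      have e1 : ((1 : ℝ) / 4) ^ (i + 1) = (1 / 4) ^ i / 4 := by
        rw [pow_succ]
        ring
      rw [e1]
      exact h1
  have hzero : ∀ g, nr (zc g) ≤ rr / 8 → u g + u' g = 0 := by
    intro p hp
    refine le_antisymm ?_ (hpos p)
    have h1 : Tendsto (fun i : ℕ => d₁ * rr * (((1 : ℝ) / 4) ^ i) ^ 2) atTop (𝓝 0) := by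
      have h2 : Tendsto (fun i : ℕ => ((1 : ℝ) / 4) ^ i) atTop (𝓝 0) :=
        tendsto_pow_atTop_nhds_zero_of_lt_one (by norm_num) (by norm_num)
      simpa using (h2.pow 2).const_mul (d₁ * rr)
    refine ge_of_tendsto' h1 fun i => ?_
    have h2 := hall p hp i
    rw [hS] at h2
    refine h2.1 p ?_
    rw [dd_self]
    positivity
  refine ⟨hzero, rr / 256, by positivity, fun t ht ht1 => ?_⟩
  have hz1 : zc (1 : SUGroup n) = 0 := by
    have h1 : nr (zc (1 : SUGroup n)) = 0 := by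
      rw [← sqrt_hq_eq, hq, ch_one]
      norm_num
    exact nr_eq_zero.1 h1
  have hz0 : nr (zc (1 : SUGroup n)) = 0 := by rw [hz1, nr_zero]
  have hfl := nr_flow_le hv ht (g := 1) (by rw [hz0]; linarith)
  rw [hz0, zero_add] at hfl
  have hb := hbase 1 (by rw [hz0]; positivity)
  rw [hS] at hb
  have h1 := hb.2 1 t ht (by linarith) (by rw [dd_self]; positivity)
    (by rw [dd_one]; linarith)
  have hAA : ∀ g : SUGroup n, nr (zc g) ≤ rr / 16 → AA (rr / 8 * 1 / 32) u g = u g := by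
    intro g hg
    have h2 := AA_sand hn (r := rr / 8 * 1 / 32) (by linarith) (by linarith) hu hu'
      (fun g => hs _ g (by linarith) (by linarith))
      (fun g => hs' _ g (by linarith) (by linarith)) hpos (g := g) (G := 0) (fun x hx => by
        have e2 := sqrt_hq_le_of (by linarith) hx
        have e3 := sqrt_hq_mul_le g x
        rw [sqrt_hq_eq, sqrt_hq_eq] at e3
        exact (hzero _ (by linarith)).le)
    linarith [h2.1, h2.2]
  rw [hAA _ (by linarith), hAA 1 (by rw [hz0]; positivity), mul_one (Kak.flow v hv t), mul_one]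
    at h1
  refine le_trans (mul_le_mul_of_nonneg_right ?_ ht) h1
  rw [he]
  linarith

end Pool.Agent.Lib.MP_5d4057_al.IN
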