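import Pool.Agent.Lib.MP_5d4057_al.IN.Mirr

/-! Long nearly extremal pairs (text, new C3, first half). -/

set_option autoImplicit false

namespace Pool.Agent.Lib.MP_5d4057_al.IN

open Matrix MeasureTheory Filter Topology Pool.Agent.Lib.MP_5d4057_al Pool.Agent.Lib.MP_5d4057_al.Hyb
  Pool.Agent.Lib.MP_5d4057_al.HM

variable {n : ℕ}

/-! ### The comparison principle -/

private theorem co_cont_zc : Continuous fun x : SUGroup n => zc x :=
  continuous_pi fun j => continuous_zc j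

private theorem co_cont_phi (g : SUGroup n) : Continuous fun x : SUGroup n => zc (g * x) :=
  co_cont_zc.comp (continuous_const.mul continuous_id)

private theorem co_cont_ip (c : Fin n → ℂ) : Continuous fun z : Fin n → ℂ => ip c z := by
  unfold ip hp
  exact Complex.continuous_re.comp (continuous_finsetSum _ fun j _ =>
    continuous_const.mul (continuous_apply j))

private theorem co_cont_rf (v : Fin n → ℂ) : Continuous fun z : Fin n → ℂ => rf v z := by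
  refine continuous_pi fun j => ?_
  unfold rf
  exact (continuous_apply j).sub ((Complex.continuous_ofReal.comp
    (continuous_const.mul (co_cont_ip v))).mul continuous_const)

private theorem co_cont_ptrf {v : Fin n → ℂ} (hv : nr v = 1) :
    Continuous fun x : SUGroup n => pt (rf v (zc x)) := by
  have h1 : Continuous fun x : SUGroup n => rf v (zc x) := (co_cont_rf v).comp co_cont_zc
  refine continuousOn_pt.comp_continuous h1 fun x => ?_
  show nr (rf v (zc x)) < 1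
  rw [nr_rf hv]
  exact nr_zc_lt x

private theorem co_cont_bar (A B M : ℝ) (c m₀ : Fin n → ℂ) :
    Continuous fun p : (Fin n → ℂ) × (Fin n → ℂ) => bar A B M c m₀ p.1 p.2 := by
  have h1 : Continuous fun p : (Fin n → ℂ) × (Fin n → ℂ) => p.2 - p.1 :=
    continuous_snd.sub continuous_fst
  have h2 : Continuous fun p : (Fin n → ℂ) × (Fin n → ℂ) => (1 / 2 : ℂ) • (p.1 + p.2) - m₀ := by
    have h3 : Continuous fun p : (Fin n → ℂ) × (Fin n → ℂ) => p.1 + p.2 :=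
      continuous_fst.add continuous_snd
    exact (h3.const_smul (1 / 2 : ℂ)).sub continuous_const
  unfold bar
  exact (((continuous_const.mul (continuous_nr.comp h1)).sub
    (continuous_const.mul ((continuous_nr.comp h1).pow 2))).add
      (continuous_const.mul ((continuous_nr.comp h2).pow 2))).add ((co_cont_ip c).comp h1)

private theorem co_bar_le {A B M : ℝ} (hA : 0 ≤ A) (hB : 0 ≤ B) (hM : 0 ≤ M) (c m₀ : Fin n → ℂ)
    {z w : Fin n → ℂ} (hz : nr z ≤ 1) (hw : nr w ≤ 1) :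
    |bar A B M c m₀ z w| ≤ A * 2 + B * 2 ^ 2 + M * (1 + nr m₀) ^ 2 + nr c * 2 := by
  have h1 : nr (w - z) ≤ 2 := (nr_sub_le w z).trans (by linarith)
  have h2 : nr ((1 / 2 : ℂ) • (z + w) - m₀) ≤ 1 + nr m₀ := by
    refine (nr_sub_le _ _).trans (add_le_add_left ?_ _)
    have h3 : ‖(1 / 2 : ℂ)‖ = 1 / 2 := by norm_num
    rw [nr_smul, h3]
    have := nr_add_le z w
    linarith
  have h3 : |ip c (w - z)| ≤ nr c * 2 := (abs_ip_le _ _).trans
    (mul_le_mul_of_nonneg_left h1 (nr_nonneg c))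
  have h4 : nr (w - z) ^ 2 ≤ 2 ^ 2 := pow_le_pow_left₀ (nr_nonneg _) h1 2
  have h5 := pow_le_pow_left₀ (nr_nonneg _) h2 2
  have e1 := mul_le_mul_of_nonneg_left h1 hA
  have e2 := mul_le_mul_of_nonneg_left h4 hB
  have e3 := mul_le_mul_of_nonneg_left h5 hM
  have f1 := mul_nonneg hA (nr_nonneg (w - z))
  have f2 := mul_nonneg hB (sq_nonneg (nr (w - z)))
  have f3 := mul_nonneg hM (sq_nonneg (nr ((1 / 2 : ℂ) • (z + w) - m₀)))
  rw [abs_le] at h3 ⊢
  unfold bar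
  constructor <;> linarith [h3.1, h3.2]

private theorem co_norm_le (z : Fin n → ℂ) : ‖z‖ ≤ nr z := by
  refine (pi_norm_le_iff_of_nonneg (nr_nonneg z)).2 fun j => ?_
  refine Real.le_sqrt_of_sq_le ?_
  exact Finset.single_le_sum (f := fun j => ‖z j‖ ^ 2) (fun i _ => sq_nonneg _)
    (Finset.mem_univ j)

private theorem co_ch_pt {z : Fin n → ℂ} (hz : nr z ≤ 1 / 8) : ch (pt z) ≤ 2 := by
  have h0 := nr_nonneg z
  rw [ch_pt (by linarith)]
  refine inv_le_of_inv_le₀ (by norm_num) ?_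
  refine Real.le_sqrt_of_sq_le ?_
  nlinarith

private theorem co_ch_ptrf {v : Fin n → ℂ} (hv : nr v = 1) (x : SUGroup n) :
    ch (pt (rf v (zc x))) = ch x := by
  have h1 := ch_pos x
  rw [ch_pt (by rw [nr_rf hv]; exact nr_zc_lt x), nr_rf hv, nr_zc_sq, hq, sub_sub_cancel,
    ← inv_pow, Real.sqrt_sq (inv_pos.2 h1).le, inv_inv]

private theorem co_disp {z : Fin n → ℂ} (hz : nr z ≤ 1 / 8) {x : SUGroup n}
    (hx : nr (zc x) ≤ 1 / 2) : nr (zc (pt z * x) - z) ≤ 2 * nr (zc x) := by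
  have h0 := nr_nonneg z
  have h1 := zc_pt_mul_sub (z := z) (by linarith) x hx
  have h2 := sg_sub (z := z) (ζ := zc x) (by linarith)
  have h3 := nr_add_le (zc (pt z * x) - z - sg z (zc x)) (sg z (zc x))
  rw [sub_add_cancel] at h3
  have h4 := nr_add_le (sg z (zc x) - zc x) (zc x)
  rw [sub_add_cancel] at h4
  have h5 := nr_nonneg (zc x)
  have h6 : nr z * nr (zc x) ≤ 1 / 8 * nr (zc x) := mul_le_mul_of_nonneg_right hz h5
  have h7 : 4 * nr z * nr (zc x) ^ 2 ≤ 1 / 4 * nr (zc x) := by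
    have h8 : nr z * nr (zc x) * nr (zc x) ≤ 1 / 8 * nr (zc x) * (1 / 2) :=
      mul_le_mul h6 hx h5 (by positivity)
    nlinarith
  linarith

private theorem co_bl {d : ℝ} (hd : 0 < d) {x : SUGroup n} (hx : x ∈ bl n d) : nr (zc x) ≤ d := by
  have h1 : nr (zc x) ^ 2 ≤ d ^ 2 := by
    rw [nr_zc_sq]
    exact hx
  exact (sq_le_sq₀ (nr_nonneg _) hd.le).1 h1

/-- splitting the integral -/
private theorem co_int {s N : ℕ} (hs : n + N < s) {d K h0 Kg : ℝ} {h g : SUGroup n → ℝ}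
    (hh : Continuous h) (hb : ∀ x, |h x| ≤ K * ch x ^ (2 * N)) (h0b : |h0| ≤ K)
    (hg : Continuous g) (hgb : ∀ x, |g x| ≤ Kg) (hle : ∀ x ∈ bl n d, h x ≤ h0 + g x) :
    ∫ x, kap s x * h x ∂(mu n) ≤ h0 + ∫ x in bl n d, kap s x * g x ∂(mu n) +
      2 * K * ∫ x in (bl n d)ᶜ, kap s x * ch x ^ (2 * N) ∂(mu n) := by
  have hm : MeasurableSet (bl n d) := measurableSet_bl d
  have hns : n < s := by omega
  have i0 := integrable_kap (n := n) hns
  have i1 := integrable_kap_pow (n := n) hs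
  have i2 : Integrable (fun x => kap s x * h x) (mu n) := by
    refine Integrable.mono' (i1.const_mul K) ((continuous_kap s).mul hh).aestronglyMeasurable
      (Filter.Eventually.of_forall fun x => ?_)
    rw [norm_mul, Real.norm_eq_abs, Real.norm_eq_abs, abs_of_nonneg (kap_nonneg s x)]
    calc kap s x * |h x| ≤ kap s x * (K * ch x ^ (2 * N)) :=
          mul_le_mul_of_nonneg_left (hb x) (kap_nonneg s x)
      _ = K * (kap s x * ch x ^ (2 * N)) := by ring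
  have i3 : Integrable (fun x => kap s x * g x) (mu n) := by
    refine Integrable.mono' (i0.mul_const Kg) ((continuous_kap s).mul hg).aestronglyMeasurable
      (Filter.Eventually.of_forall fun x => ?_)
    rw [norm_mul, Real.norm_eq_abs, Real.norm_eq_abs, abs_of_nonneg (kap_nonneg s x)]
    exact mul_le_mul_of_nonneg_left (hgb x) (kap_nonneg s x)
  have e1 := integral_add_compl hm i2
  have e2 := integral_add_compl hm i0
  rw [integral_kap hns] at e2
  have a1 : ∫ x in bl n d, kap s x * h x ∂(mu n) ≤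
      h0 * ∫ x in bl n d, kap s x ∂(mu n) + ∫ x in bl n d, kap s x * g x ∂(mu n) := by
    rw [← integral_const_mul, ← integral_add (i0.integrableOn.const_mul h0) i3.integrableOn]
    refine setIntegral_mono_on i2.integrableOn
      ((i0.integrableOn.const_mul h0).add i3.integrableOn) hm fun x hx => ?_
    have h1 := mul_le_mul_of_nonneg_left (hle x hx) (kap_nonneg s x)
    refine h1.trans (le_of_eq ?_)
    ring
  have a2 : ∫ x in (bl n d)ᶜ, kap s x * h x ∂(mu n) ≤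
      K * ∫ x in (bl n d)ᶜ, kap s x * ch x ^ (2 * N) ∂(mu n) := by
    rw [← integral_const_mul]
    refine integral_mono i2.integrableOn (i1.integrableOn.const_mul K) fun x => ?_
    have h1 := mul_le_mul_of_nonneg_left ((le_abs_self _).trans (hb x)) (kap_nonneg s x)
    refine h1.trans (le_of_eq ?_)
    ring
  have a3 : ∫ x in (bl n d)ᶜ, kap s x ∂(mu n) ≤
      ∫ x in (bl n d)ᶜ, kap s x * ch x ^ (2 * N) ∂(mu n) := by
    refine integral_mono i0.integrableOn i1.integrableOn fun x => ?_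
    have h1 : 1 ≤ ch x ^ (2 * N) := one_le_pow₀ (one_le_ch x)
    exact le_mul_of_one_le_right (kap_nonneg s x) h1
  have a4 : 0 ≤ ∫ x in (bl n d)ᶜ, kap s x ∂(mu n) :=
    integral_nonneg fun x => kap_nonneg s x
  have hK : 0 ≤ K := (abs_nonneg _).trans h0b
  have a5 : h0 * ∫ x in bl n d, kap s x ∂(mu n) ≤
      h0 + K * ∫ x in (bl n d)ᶜ, kap s x ∂(mu n) := by
    have h1 : ∫ x in bl n d, kap s x ∂(mu n) = 1 - ∫ x in (bl n d)ᶜ, kap s x ∂(mu n) := by
      linarith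
    have h2 : -h0 ≤ K := (neg_le_abs _).trans h0b
    have h3 := mul_le_mul_of_nonneg_right h2 a4
    rw [h1]
    linarith
  have a6 := mul_le_mul_of_nonneg_left a3 hK
  rw [← e1]
  linarith

private theorem co_pts {m₀ z w : Fin n → ℂ} {ρ₁ T κ : ℝ} (hρ : 0 < ρ₁) (hm₀ : nr m₀ + T + ρ₁ ≤ κ)
    (h1 : nr (w - z) ≤ ρ₁) (h2 : nr ((1 / 2 : ℂ) • (z + w) - m₀) ≤ T) : nr z ≤ κ ∧ nr w ≤ κ := by
  have h3 : ‖(1 / 2 : ℂ)‖ = 1 / 2 := by norm_num
  have h4 := nr_add_le ((1 / 2 : ℂ) • (z + w) - m₀) m₀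
  rw [sub_add_cancel] at h4
  have e1 : z = (1 / 2 : ℂ) • (z + w) - (1 / 2 : ℂ) • (w - z) := by
    funext j
    simp only [Pi.sub_apply, Pi.smul_apply, Pi.add_apply, smul_eq_mul]
    ring
  have e2 : w = (1 / 2 : ℂ) • (z + w) + (1 / 2 : ℂ) • (w - z) := by
    funext j
    simp only [Pi.sub_apply, Pi.smul_apply, Pi.add_apply, smul_eq_mul]
    ring
  have h5 : nr ((1 / 2 : ℂ) • (w - z)) = 1 / 2 * nr (w - z) := by rw [nr_smul, h3]
  have h6 := nr_sub_le ((1 / 2 : ℂ) • (z + w)) ((1 / 2 : ℂ) • (w - z))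
  have h7 := nr_add_le ((1 / 2 : ℂ) • (z + w)) ((1 / 2 : ℂ) • (w - z))
  rw [← e1, h5] at h6
  rw [← e2, h5] at h7
  constructor <;> linarith

private theorem co_move {m₀ z w z' w' : Fin n → ℂ} {a b e : ℝ} (hz : nr (z' - z) ≤ e)
    (hw : nr (w' - w) ≤ e) (h1 : nr (w - z) ≤ a - 2 * e)
    (h2 : nr ((1 / 2 : ℂ) • (z + w) - m₀) ≤ b - e) :
    nr (w' - z') ≤ a ∧ nr ((1 / 2 : ℂ) • (z' + w') - m₀) ≤ b := by
  have h3 : ‖(1 / 2 : ℂ)‖ = 1 / 2 := by norm_num
  have e1 : w' - z' = (w - z) + ((w' - w) - (z' - z)) := by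
    funext j
    simp only [Pi.sub_apply, Pi.add_apply]
    ring
  have e2 : (1 / 2 : ℂ) • (z' + w') - m₀ =
      ((1 / 2 : ℂ) • (z + w) - m₀) + (1 / 2 : ℂ) • ((w' - w) + (z' - z)) := by
    funext j
    simp only [Pi.sub_apply, Pi.smul_apply, Pi.add_apply, smul_eq_mul]
    ring
  have h4 := nr_add_le (w - z) ((w' - w) - (z' - z))
  have h5 := nr_sub_le (w' - w) (z' - z)
  have h6 := nr_add_le ((1 / 2 : ℂ) • (z + w) - m₀) ((1 / 2 : ℂ) • ((w' - w) + (z' - z)))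
  have h7 := nr_add_le (w' - w) (z' - z)
  rw [← e1] at h4
  rw [← e2, nr_smul, h3] at h6
  constructor <;> linarith

private theorem co_tail (d : ℝ) (x : SUGroup n) (hx : x ∈ (bl n d)ᶜ) : d ^ 2 ≤ ch x ^ 2 - 1 := by
  have h1 : d ^ 2 < hq x := not_le.1 hx
  have h2 : 1 ≤ ch x ^ 2 := one_le_pow₀ (one_le_ch x)
  have h3 : 0 < ch x ^ 2 := by linarith
  have h4 : ch x ^ 2 * (ch x ^ 2)⁻¹ = 1 := mul_inv_cancel₀ h3.ne'
  have h5 : 0 < (ch x ^ 2)⁻¹ := inv_pos.2 h3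
  have h6 : (ch x ^ 2)⁻¹ ≤ 1 := inv_le_one_of_one_le₀ h2
  rw [hq] at h1
  nlinarith [mul_nonneg (sub_nonneg.2 h2) (sub_nonneg.2 h6)]

/-- right invariance under `K` -/
private theorem co_K {f : SUGroup n → SUGroup n → ℝ}
    (hf : ∀ g h k : SUGroup n, ch k = 1 → f (g * k) h = f g h ∧ f g (h * k) = f g h)
    (g h : SUGroup n) : f g h = f (pt (zc g)) (pt (zc h)) := by
  obtain ⟨k, hk, hg⟩ := exists_K (zc_pt (nr_zc_lt g) : zc (pt (zc g)) = zc g)
  obtain ⟨l, hl, hh⟩ := exists_K (zc_pt (nr_zc_lt h) : zc (pt (zc h)) = zc h)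
  calc f g h = f (pt (zc g) * k) (pt (zc h) * l) := by rw [← hg, ← hh]
    _ = f (pt (zc g) * k) (pt (zc h)) := (hf _ _ l hl).2
    _ = f (pt (zc g)) (pt (zc h)) := (hf _ _ k hk).1

/-- **Comparison principle.** `F` with the mirror property; `Om` the open set of all `(z, w)` with
`0 < nr (w - z) < ρ₁`, `nr ((z + w)/2 - m₀) < T`; `κ ≥ nr m₀ + T + ρ₁`, `κ ≤ 1/8`. If the parameters
satisfy the inequality of `mirror_neg` on `Om` and `F (pt z) (pt w) ≤ bar z w` on the boundary, then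
`F (pt z) (pt w) ≤ bar z w` on `Om`. Proof: let `mx > 0` be the maximum of `F - bar` over the closure of `Om`
(compact), attained only in `Om`. `Fi → F` uniformly on a neighbourhood; let `(z_i, w_i)` be a maximum point of
`Fi - bar` on the closure; a subsequence converges to a point `(z, w)` with `F - bar = mx`, so in `Om`;
`r₀ := nr (w - z)/2`, `d` small (`≤ r₀/32`, and `(φ_z' ζ, φ_w' R ζ)` is in `Om` for `|ζ| ≤ d`, all `R`
and `(z', w')` near `(z, w)`: `nr (zc (pt z * x) - z) ≤ 2 nr (zc x)`). For this `i` take `m` from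
`mirror_neg` at `(z_i, w_i)`: `Fi (pt z_i) (pt w_i) ≤ ∫ kap Fi (..)`; on `bl d` the integrand is
`≤ Fi (z_i,w_i) + bar (..) - bar (z_i,w_i)` (`Fi` is right `K` invariant, so
`Fi (pt z_i * x) (..) = Fi (pt (zc ..)) (pt (zc ..))`); off `bl d` it is `≤ C ch^(2N).. `, with integral
`≤ C / s²` (`mom_tail`, `ch (pt w * pt (rf m (zc x))) ≤ 2 ch (pt w) ch x`). So `0 ≤ - c₁/s + C/s²`. -/
theorem comparison (hn : 1 ≤ n) {C₀ : ℝ} (hC₀ : 0 < C₀)
    (hmir : ∀ (A B M : ℝ) (c m₀ : Fin n → ℂ) (r₀ κ ε d : ℝ),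
      0 ≤ A → 0 ≤ B → 0 ≤ M → 0 < r₀ → κ ≤ 1 / 4 → 0 < ε → 0 < d → d ≤ r₀ / 32 →
      ∃ (s₀ : ℕ) (c₁ : ℝ), 0 < c₁ ∧ ∀ s, s₀ ≤ s → ∀ z w : Fin n → ℂ, nr z ≤ κ → nr w ≤ κ →
        r₀ ≤ nr (w - z) →
        A * C₀ * nr (w - z) + (B + M) * C₀ * κ + M * ((2 * n - 1) / (2 * n)) + ε ≤ B * (2 / n) →
        ∃ m : Fin n → ℂ, nr m = 1 ∧
          ∫ x in bl n d, kap s x * (bar A B M c m₀ (zc (pt z * x)) (zc (pt w * pt (rf m (zc x)))) -
            bar A B M c m₀ z w) ∂(mu n) ≤ - (c₁ / s))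
    {F : SUGroup n → SUGroup n → ℝ} (hF : Mir F) {A B M : ℝ} (hA : 0 ≤ A) (hB : 0 ≤ B) (hM : 0 ≤ M)
    {c m₀ : Fin n → ℂ} {ρ₁ T κ ε : ℝ} (hρ₁ : 0 < ρ₁) (hT : 0 < T) (hκ : κ ≤ 1 / 8)
    (hm₀ : nr m₀ + T + ρ₁ ≤ κ) (hε : 0 < ε)
    (hpar : A * C₀ * ρ₁ + (B + M) * C₀ * κ + M * ((2 * n - 1) / (2 * n)) + ε ≤ B * (2 / n))
    (hbd : ∀ z w : Fin n → ℂ, nr (w - z) ≤ ρ₁ → nr ((1 / 2 : ℂ) • (z + w) - m₀) ≤ T →
      nr (w - z) = 0 ∨ nr (w - z) = ρ₁ ∨ nr ((1 / 2 : ℂ) • (z + w) - m₀) = T →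
        F (pt z) (pt w) ≤ bar A B M c m₀ z w) :
    ∀ z w : Fin n → ℂ, nr (w - z) ≤ ρ₁ → nr ((1 / 2 : ℂ) • (z + w) - m₀) ≤ T →
      F (pt z) (pt w) ≤ bar A B M c m₀ z w := by
  obtain ⟨s, Fi, N, C, hs, hFc, hFb, hFK, hloc, hFm⟩ := hF.ex
  intro z₀ w₀ hz₀ hw₀
  by_contra hlt
  rw [not_le] at hlt
  have hnr1 : Continuous fun p : (Fin n → ℂ) × (Fin n → ℂ) => nr (p.2 - p.1) :=
    continuous_nr.comp (continuous_snd.sub continuous_fst)
  have hnr2 : Continuous fun p : (Fin n → ℂ) × (Fin n → ℂ) =>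
      nr ((1 / 2 : ℂ) • (p.1 + p.2) - m₀) := by
    have h3 : Continuous fun p : (Fin n → ℂ) × (Fin n → ℂ) => p.1 + p.2 :=
      continuous_fst.add continuous_snd
    exact continuous_nr.comp ((h3.const_smul (1 / 2 : ℂ)).sub continuous_const)
  obtain ⟨D, hD⟩ : ∃ D : Set ((Fin n → ℂ) × (Fin n → ℂ)), D = {p | nr (p.2 - p.1) ≤ ρ₁} ∩
      {p | nr ((1 / 2 : ℂ) • (p.1 + p.2) - m₀) ≤ T} := ⟨_, rfl⟩
  have hDm : ∀ p ∈ D, nr (p.2 - p.1) ≤ ρ₁ ∧ nr ((1 / 2 : ℂ) • (p.1 + p.2) - m₀) ≤ T := by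
    intro p hp
    rw [hD] at hp
    exact hp
  have hDp : ∀ p ∈ D, nr p.1 ≤ κ ∧ nr p.2 ≤ κ := fun p hp =>
    co_pts hρ₁ hm₀ (hDm p hp).1 (hDm p hp).2
  have hDc : IsClosed D := by
    rw [hD]
    exact (isClosed_le hnr1 continuous_const).inter (isClosed_le hnr2 continuous_const)
  have hDk : IsCompact D := by
    refine (isCompact_closedBall (0 : (Fin n → ℂ) × (Fin n → ℂ)) κ).of_isClosed_subset hDc
      fun p hp => ?_
    rw [mem_closedBall_zero_iff]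
    exact max_le ((co_norm_le _).trans (hDp p hp).1) ((co_norm_le _).trans (hDp p hp).2)
  have hptc : ContinuousOn (fun p : (Fin n → ℂ) × (Fin n → ℂ) => (pt p.1, pt p.2)) D := by
    refine ContinuousOn.prodMk ?_ ?_
    · refine continuousOn_pt.comp continuousOn_fst fun p hp => ?_
      show nr p.1 < 1
      linarith [(hDp p hp).1]
    · refine continuousOn_pt.comp continuousOn_snd fun p hp => ?_
      show nr p.2 < 1
      linarith [(hDp p hp).2]
  have hFcont : Continuous fun p : SUGroup n × SUGroup n => F p.1 p.2 :=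
    hloc.continuous (Filter.Frequently.of_forall hFc)
  have hbar := co_cont_bar (n := n) A B M c m₀
  have hGc : ContinuousOn (fun p : (Fin n → ℂ) × (Fin n → ℂ) =>
      F (pt p.1) (pt p.2) - bar A B M c m₀ p.1 p.2) D :=
    (hFcont.comp_continuousOn hptc).sub hbar.continuousOn
  have hGic : ∀ i, ContinuousOn (fun p : (Fin n → ℂ) × (Fin n → ℂ) =>
      Fi i (pt p.1) (pt p.2) - bar A B M c m₀ p.1 p.2) D := fun i =>
    ((hFc i).comp_continuousOn hptc).sub hbar.continuousOn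
  have hne : D.Nonempty := ⟨(z₀, w₀), by rw [hD]; exact ⟨hz₀, hw₀⟩⟩
  obtain ⟨pm, hpm, hmax⟩ := hDk.exists_isMaxOn hne hGc
  obtain ⟨mx, hmx⟩ : ∃ mx : ℝ, mx = F (pt pm.1) (pt pm.2) - bar A B M c m₀ pm.1 pm.2 := ⟨_, rfl⟩
  have hmx0 : 0 < mx := by
    have h1 : (z₀, w₀) ∈ D := by
      rw [hD]
      exact ⟨hz₀, hw₀⟩
    have h2 := isMaxOn_iff.1 hmax _ h1
    dsimp only at h2
    rw [hmx]
    linarith
  obtain ⟨D', hD'⟩ : ∃ D' : Set ((Fin n → ℂ) × (Fin n → ℂ)), D' = D ∩ (fun p =>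
      F (pt p.1) (pt p.2) - bar A B M c m₀ p.1 p.2) ⁻¹' (Set.Ici (mx / 2)) := ⟨_, rfl⟩
  have hD'c : IsCompact D' := by
    refine hDk.of_isClosed_subset ?_ (by rw [hD']; exact Set.inter_subset_left)
    rw [hD']
    exact hGc.preimage_isClosed_of_isClosed hDc isClosed_Ici
  have hD'ne : D'.Nonempty := by
    refine ⟨pm, ?_⟩
    rw [hD']
    refine ⟨hpm, ?_⟩
    show mx / 2 ≤ F (pt pm.1) (pt pm.2) - bar A B M c m₀ pm.1 pm.2
    rw [← hmx]
    linarith
  have hφc : Continuous fun p : (Fin n → ℂ) × (Fin n → ℂ) =>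
      min (min (nr (p.2 - p.1)) (ρ₁ - nr (p.2 - p.1)))
        (T - nr ((1 / 2 : ℂ) • (p.1 + p.2) - m₀)) :=
    (hnr1.min (continuous_const.sub hnr1)).min (continuous_const.sub hnr2)
  obtain ⟨pn, hpn, hmin⟩ := hD'c.exists_isMinOn hD'ne hφc.continuousOn
  obtain ⟨δ, hδ⟩ : ∃ δ : ℝ, δ = min (min (nr (pn.2 - pn.1)) (ρ₁ - nr (pn.2 - pn.1)))
        (T - nr ((1 / 2 : ℂ) • (pn.1 + pn.2) - m₀)) := ⟨_, rfl⟩
  have hδ0 : 0 < δ := by
    have h1 := hpn
    rw [hD'] at h1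
    obtain ⟨h2, h3⟩ := h1
    have h4 : mx / 2 ≤ F (pt pn.1) (pt pn.2) - bar A B M c m₀ pn.1 pn.2 := h3
    obtain ⟨h5, h6⟩ := hDm pn h2
    have h7 := hbd pn.1 pn.2 h5 h6
    have h8 : ¬ (nr (pn.2 - pn.1) = 0 ∨ nr (pn.2 - pn.1) = ρ₁ ∨
        nr ((1 / 2 : ℂ) • (pn.1 + pn.2) - m₀) = T) := by
      intro h9
      have h10 := h7 h9
      linarith
    rw [not_or, not_or] at h8
    obtain ⟨h9, h10, h11⟩ := h8
    rw [hδ]
    refine lt_min (lt_min ?_ ?_) ?_
    · exact lt_of_le_of_ne (nr_nonneg _) (Ne.symm h9)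
    · exact sub_pos.2 (lt_of_le_of_ne h5 h10)
    · exact sub_pos.2 (lt_of_le_of_ne h6 h11)
  have hδp : ∀ p ∈ D', δ ≤ nr (p.2 - p.1) ∧ nr (p.2 - p.1) ≤ ρ₁ - δ ∧
      nr ((1 / 2 : ℂ) • (p.1 + p.2) - m₀) ≤ T - δ := by
    intro p hp
    have h1 := isMinOn_iff.1 hmin _ hp
    rw [← hδ, le_min_iff, le_min_iff] at h1
    obtain ⟨⟨h2, h3⟩, h4⟩ := h1
    exact ⟨h2, by linarith, by linarith⟩
  have hδ1 : δ ≤ 1 / 8 := by
    have h1 := (hδp pn hpn).1
    have h2 := (hδp pn hpn).2.1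
    have h3 := nr_nonneg m₀
    linarith
  obtain ⟨s₀, c₁, hc₁, hmi⟩ := hmir A B M c m₀ δ κ ε (δ / 32) hA hB hM hδ0 (by linarith) hε
    (by positivity) le_rfl
  obtain ⟨Ct, hCt, htl⟩ := mom_tail n (2 * N) 2 (e := (δ / 32) ^ 2) (by positivity)
  have hC : 0 ≤ C := by
    have h1 := (abs_nonneg _).trans (hFb 0 1 1)
    have h2 : 0 < ch (1 : SUGroup n) ^ (2 * N) * ch (1 : SUGroup n) ^ (2 * N) :=
      mul_pos (pow_pos (ch_pos _) _) (pow_pos (ch_pos _) _)
    exact nonneg_of_mul_nonneg_left h1 h2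
  obtain ⟨K, hK⟩ : ∃ K : ℝ, K = C * (4 ^ (2 * N) * 4 ^ (2 * N)) := ⟨_, rfl⟩
  have hK0 : 0 ≤ K := by rw [hK]; positivity
  obtain ⟨S, hS⟩ := exists_nat_gt (2 * K * Ct / c₁)
  -- choice of `i`
  have hu : ∀ᶠ i in atTop, ∀ p ∈ D, |Fi i (pt p.1) (pt p.2) - F (pt p.1) (pt p.2)| < mx / 8 := by
    have h1 : IsCompact ((fun p : (Fin n → ℂ) × (Fin n → ℂ) => (pt p.1, pt p.2)) '' D) :=
      hDk.image_of_continuousOn hptc
    have h2 := (tendstoLocallyUniformlyOn_iff_tendstoUniformlyOn_of_compact h1).1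
      hloc.tendstoLocallyUniformlyOn
    rw [Metric.tendstoUniformlyOn_iff] at h2
    refine (h2 (mx / 8) (by positivity)).mono fun i hi p hp => ?_
    have h3 := hi (pt p.1, pt p.2) ⟨p, hp, rfl⟩
    rw [dist_comm, Real.dist_eq] at h3
    exact h3
  obtain ⟨i, hi, hsi⟩ := (hu.and (hs.eventually_ge_atTop
    (max (max s₀ (n + 2 * N + 3)) (max S 1)))).exists
  have hsi0 : s₀ ≤ s i := ((le_max_left _ _).trans (le_max_left _ _)).trans hsi
  have hsi1 : n + 2 * N + 3 ≤ s i := ((le_max_right _ _).trans (le_max_left _ _)).trans hsi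
  have hsi2 : S ≤ s i := ((le_max_left _ _).trans (le_max_right _ _)).trans hsi
  have hsi3 : 1 ≤ s i := ((le_max_right _ _).trans (le_max_right _ _)).trans hsi
  obtain ⟨q, hq, hqm⟩ := hDk.exists_isMaxOn hne (hGic i)
  have hqm' : ∀ p ∈ D, Fi i (pt p.1) (pt p.2) - bar A B M c m₀ p.1 p.2 ≤
      Fi i (pt q.1) (pt q.2) - bar A B M c m₀ q.1 q.2 := isMaxOn_iff.1 hqm
  have hqD' : q ∈ D' := by
    rw [hD']
    refine ⟨hq, ?_⟩
    show mx / 2 ≤ F (pt q.1) (pt q.2) - bar A B M c m₀ q.1 q.2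
    have h1 := hqm' pm hpm
    have h2 := abs_lt.1 (hi pm hpm)
    have h3 := abs_lt.1 (hi q hq)
    linarith [h2.1, h2.2, h3.1, h3.2]
  obtain ⟨hq1, hq2, hq3⟩ := hδp q hqD'
  obtain ⟨hz, hw⟩ := hDp q hq
  obtain ⟨m, hm, hint⟩ := hmi (s i) hsi0 q.1 q.2 hz hw hq1 (by
    have h1 : A * C₀ * nr (q.2 - q.1) ≤ A * C₀ * ρ₁ :=
      mul_le_mul_of_nonneg_left (hDm q hq).1 (mul_nonneg hA hC₀.le)
    linarith)
  have hM1 := hFm i m hm (pt q.1) (pt q.2)
  have hchz : ch (pt q.1) ≤ 2 := co_ch_pt (hz.trans hκ)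
  have hchw : ch (pt q.2) ≤ 2 := co_ch_pt (hw.trans hκ)
  have hcz := ch_pos (pt q.1)
  have hcw := ch_pos (pt q.2)
  have hd : 0 < δ / 32 := by positivity
  have hkey := co_int (n := n) (s := s i) (N := 2 * N) (by omega) (d := δ / 32) (K := K)
    (h0 := Fi i (pt q.1) (pt q.2))
    (Kg := 2 * (A * 2 + B * 2 ^ 2 + M * (1 + nr m₀) ^ 2 + nr c * 2))
    (h := fun x => Fi i (pt q.1 * x) (pt q.2 * pt (rf m (zc x))))
    (g := fun x => bar A B M c m₀ (zc (pt q.1 * x)) (zc (pt q.2 * pt (rf m (zc x)))) -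
      bar A B M c m₀ q.1 q.2) ?_ ?_ ?_ ?_ ?_ ?_
  · have h1 : ∫ x in (bl n (δ / 32))ᶜ, kap (s i) x * ch x ^ (2 * (2 * N)) ∂(mu n) ≤
        Ct / (s i : ℝ) ^ 2 := by
      refine le_trans ?_ (htl (s i) (by omega))
      refine setIntegral_mono_set (integrable_kap_pow (n := n) (by omega)).integrableOn
        (Filter.Eventually.of_forall fun x => mul_nonneg (kap_nonneg _ _)
          (pow_nonneg (ch_pos x).le _))
        (Filter.Eventually.of_forall fun x hx => co_tail (δ / 32) x hx)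
    have h2 := mul_le_mul_of_nonneg_left h1 (show 0 ≤ 2 * K by positivity)
    have h3 : c₁ / (s i : ℝ) ≤ 2 * K * (Ct / (s i : ℝ) ^ 2) := by
      linarith
    have hs0 : (0 : ℝ) < s i := by exact_mod_cast hsi3
    have h4 : c₁ * (s i : ℝ) ≤ 2 * K * Ct := by
      have h5 := mul_le_mul_of_nonneg_right h3 (sq_nonneg (s i : ℝ))
      have h6 : c₁ / (s i : ℝ) * (s i : ℝ) ^ 2 = c₁ * s i := by
        field_simp
      have h7 : 2 * K * (Ct / (s i : ℝ) ^ 2) * (s i : ℝ) ^ 2 = 2 * K * Ct := by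
        field_simp
      rwa [h6, h7] at h5
    have h5 : (S : ℝ) ≤ s i := by exact_mod_cast hsi2
    rw [div_lt_iff₀ hc₁] at hS
    have h6 := mul_le_mul_of_nonneg_right h5 hc₁.le
    linarith
  · exact (hFc i).comp ((continuous_const.mul continuous_id).prodMk
      (continuous_const.mul (co_cont_ptrf hm)))
  · intro x
    have h1 := hFb i (pt q.1 * x) (pt q.2 * pt (rf m (zc x)))
    have hx := ch_pos x
    have h2 : ch (pt q.1 * x) ≤ 4 * ch x := by
      refine (ch_mul_le' _ _).trans ?_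
      have := mul_le_mul_of_nonneg_right hchz hx.le
      linarith
    have h3 : ch (pt q.2 * pt (rf m (zc x))) ≤ 4 * ch x := by
      refine (ch_mul_le' _ _).trans ?_
      rw [co_ch_ptrf hm]
      have := mul_le_mul_of_nonneg_right hchw hx.le
      linarith
    have h4 := pow_le_pow_left₀ (ch_pos _).le h2 (2 * N)
    have h5 := pow_le_pow_left₀ (ch_pos _).le h3 (2 * N)
    have h6 := mul_le_mul h4 h5 (pow_nonneg (ch_pos _).le _) (by positivity)
    refine h1.trans ((mul_le_mul_of_nonneg_left h6 hC).trans (le_of_eq ?_))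
    rw [hK, mul_pow, mul_comm 2 (2 * N), pow_mul]
    ring
  · have h1 := hFb i (pt q.1) (pt q.2)
    have h4 := pow_le_pow_left₀ hcz.le (hchz.trans (by norm_num : (2 : ℝ) ≤ 4)) (2 * N)
    have h5 := pow_le_pow_left₀ hcw.le (hchw.trans (by norm_num : (2 : ℝ) ≤ 4)) (2 * N)
    have h6 := mul_le_mul h4 h5 (pow_nonneg (ch_pos _).le _) (by positivity)
    rw [hK]
    exact h1.trans (mul_le_mul_of_nonneg_left h6 hC)
  · exact (hbar.comp ((co_cont_phi (pt q.1)).prodMk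
      (co_cont_zc.comp (continuous_const.mul (co_cont_ptrf hm))))).sub continuous_const
  · intro x
    have h1 := co_bar_le hA hB hM c m₀ (nr_zc_lt (pt q.1 * x)).le
      (nr_zc_lt (pt q.2 * pt (rf m (zc x)))).le
    have h2 := co_bar_le hA hB hM c m₀ (z := q.1) (w := q.2) (by linarith) (by linarith)
    have h3 := abs_sub (bar A B M c m₀ (zc (pt q.1 * x)) (zc (pt q.2 * pt (rf m (zc x)))))
      (bar A B M c m₀ q.1 q.2)
    show |bar A B M c m₀ (zc (pt q.1 * x)) (zc (pt q.2 * pt (rf m (zc x)))) -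
      bar A B M c m₀ q.1 q.2| ≤ _
    linarith
  · intro x hx
    have hxd := co_bl hd hx
    have h1 := co_disp (hz.trans hκ) (x := x) (by linarith)
    have hrx : nr (zc (pt (rf m (zc x)))) = nr (zc x) := by
      rw [zc_pt (by rw [nr_rf hm]; exact nr_zc_lt x), nr_rf hm]
    have h2 := co_disp (hw.trans hκ) (x := pt (rf m (zc x))) (by rw [hrx]; linarith)
    rw [hrx] at h2
    have h3 := co_move (m₀ := m₀) (a := ρ₁) (b := T) (e := δ / 16) (h1.trans (by linarith))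
      (h2.trans (by linarith)) (hq2.trans (by linarith)) (hq3.trans (by linarith))
    have h4 : (zc (pt q.1 * x), zc (pt q.2 * pt (rf m (zc x)))) ∈ D := by
      rw [hD]
      exact h3
    have h5 := hqm' _ h4
    have h6 := co_K (hFK i) (pt q.1 * x) (pt q.2 * pt (rf m (zc x)))
    show Fi i (pt q.1 * x) (pt q.2 * pt (rf m (zc x))) ≤ _
    rw [h6]
    linarith

/-- **Long pairs.** Proof: `K² = 2n + 1`, `M' := 2η/(2n+1)` (`η ≤ L` without loss of generality),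
`α := M'/2`, `A := L - α/2 ≥ 0`, `B := (n M'/2)/R₀`, `M := M'/R₀`, `ρ₁ := 2 R₀`, `T := K R₀`; `R₀` small:
`F (pt y) (pt y') - ip c (y' - y) ≤ (L + α/2) nr (y' - y)` for `nr y, nr y' ≤ (K + 3) R₀`. Suppose that there
is no such pair. For every `m₀` with `nr m₀ ≤ R₀` the hypotheses of `comparison` hold: `hpar`:
`B (2/n) = M'/R₀`, `M (2n-1)/(2n) = M'/R₀ - M'/(2n R₀)`, the rest is bounded, so it is true with
`ε := M'/(8 n R₀)` for `R₀` small; boundary: `nr (w - z) = 0`: `F = 0 ≤ bar`; `nr (..) = T`: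
`M T² = M' K² R₀ = (2n+1) M' R₀ ≥ α ρ + B ρ²` for `ρ ≤ 2R₀`; `ρ = 2R₀`:
`bar ≥ (L - α/2) 2R₀ - 4 B R₀² + ip = 2R₀ (L - M'/4 - n M') + ip ≥ 2R₀ (L - η) + ip`. Conclusion for
`m₀ = (z + w)/2`: `F (pt z) (pt w) - ip c (w-z) ≤ (L - α/2) nr (w - z)` whenever `nr ((z+w)/2) ≤ R₀` and
`nr (w - z) ≤ 2R₀`: contradicts `Slope`. -/
theorem exists_long (hn : 1 ≤ n) {F : SUGroup n → SUGroup n → ℝ} (hF : Mir F) {r₁ : ℝ} (hr₁ : 0 < r₁)
    (h0 : ∀ z : Fin n → ℂ, nr z ≤ r₁ → F (pt z) (pt z) = 0) {c : Fin n → ℂ} {L : ℝ} (hL : 0 < L) (hs : Slope c F L) {η : ℝ} (hη : 0 < η) :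
    ∃ R₁ : ℝ, 0 < R₁ ∧ ∀ R₀ : ℝ, 0 < R₀ → R₀ ≤ R₁ → ∃ z w : Fin n → ℂ, nr (w - z) = 2 * R₀ ∧
      nr ((1 / 2 : ℂ) • (z + w)) ≤ (Real.sqrt (2 * n + 1) + 1) * R₀ ∧
      (L - η) * (2 * R₀) ≤ F (pt z) (pt w) - ip c (w - z) := by
  obtain ⟨C₀, hC₀, hmir⟩ := mirror_neg hn
  -- without loss of generality `η ≤ L`
  obtain ⟨e, he⟩ : ∃ e, e = min η L := ⟨_, rfl⟩
  have he0 : 0 < e := by rw [he]; exact lt_min hη hL
  have heη : e ≤ η := by rw [he]; exact min_le_left _ _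
  have heL : e ≤ L := by rw [he]; exact min_le_right _ _
  obtain ⟨N, hN⟩ : ∃ N : ℝ, N = n := ⟨_, rfl⟩
  have hN1 : 1 ≤ N := by rw [hN]; exact_mod_cast hn
  have hN0 : 0 < N := by linarith
  obtain ⟨K, hK⟩ : ∃ K, K = Real.sqrt (2 * n + 1) := ⟨_, rfl⟩
  have hK0 : 0 ≤ K := by rw [hK]; exact Real.sqrt_nonneg _
  have hK2 : K ^ 2 = 2 * N + 1 := by
    rw [hK, hN]
    exact Real.sq_sqrt (by positivity)
  rw [← hK]
  obtain ⟨M', hM'⟩ : ∃ M', M' = 2 * e / (2 * N + 1) := ⟨_, rfl⟩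
  have hM'e : M' * (2 * N + 1) = 2 * e := by
    rw [hM']
    field_simp
  have hM'0 : 0 < M' := by rw [hM']; positivity
  have hM'3 : M' * 3 ≤ 2 * e := by nlinarith
  -- the local bound
  obtain ⟨r, hr, hsb⟩ := hs.1 (M' / 4) (by positivity)
  obtain ⟨D, hD⟩ : ∃ D, D = 2 * L * C₀ + (N / 2 + 1) * M' * C₀ * (K + 3) := ⟨_, rfl⟩
  have hD0 : 0 < D := by
    rw [hD]
    have h1 : 0 < 2 * L * C₀ := by positivity
    have h2 : 0 ≤ (N / 2 + 1) * M' * C₀ * (K + 3) := by positivity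
    linarith
  obtain ⟨R₁, hR₁⟩ : ∃ R₁, R₁ = min (min (r / (K + 3)) (r₁ / (K + 3)))
      (min (1 / 8 / (K + 3)) (M' / (4 * N * D))) := ⟨_, rfl⟩
  have hK3 : 0 < K + 3 := by linarith
  have hR₁0 : 0 < R₁ := by rw [hR₁]; positivity
  refine ⟨R₁, hR₁0, fun R₀ hR₀ hR => ?_⟩
  have g1 : (K + 3) * R₀ ≤ r := by
    have h : R₀ ≤ r / (K + 3) := hR.trans (by
      rw [hR₁]; exact (min_le_left _ _).trans (min_le_left _ _))
    rw [le_div_iff₀ hK3] at h
    linarith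
  have g2 : (K + 3) * R₀ ≤ r₁ := by
    have h : R₀ ≤ r₁ / (K + 3) := hR.trans (by
      rw [hR₁]; exact (min_le_left _ _).trans (min_le_right _ _))
    rw [le_div_iff₀ hK3] at h
    linarith
  have g3 : (K + 3) * R₀ ≤ 1 / 8 := by
    have h : R₀ ≤ 1 / 8 / (K + 3) := hR.trans (by
      rw [hR₁]; exact (min_le_right _ _).trans (min_le_left _ _))
    rw [le_div_iff₀ hK3] at h
    linarith
  have g4 : 4 * N * D * R₀ ≤ M' := by
    have h : R₀ ≤ M' / (4 * N * D) := hR.trans (by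
      rw [hR₁]; exact (min_le_right _ _).trans (min_le_right _ _))
    rw [le_div_iff₀ (by positivity)] at h
    linarith
  have g5 : R₀ ≤ 1 := by nlinarith
  by_contra hcon
  push Not at hcon
  -- no long pair
  have hno : ∀ z w : Fin n → ℂ, nr (w - z) = 2 * R₀ →
      nr ((1 / 2 : ℂ) • (z + w)) ≤ (K + 1) * R₀ →
      F (pt z) (pt w) - ip c (w - z) ≤ (L - e) * (2 * R₀) := by
    intro z w h1 h2
    have h3 := hcon z w h1 h2
    nlinarith
  -- the parameters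
  obtain ⟨B, hB⟩ : ∃ B, B = N * M' / 2 / R₀ := ⟨_, rfl⟩
  obtain ⟨M, hM⟩ : ∃ M, M = M' / R₀ := ⟨_, rfl⟩
  have hBR : B * R₀ = N * M' / 2 := by rw [hB]; field_simp
  have hMR : M * R₀ = M' := by rw [hM]; field_simp
  have hB0 : 0 ≤ B := by rw [hB]; positivity
  have hM0 : 0 < M := by rw [hM]; positivity
  obtain ⟨A, hA⟩ : ∃ A, A = L - M' / 4 := ⟨_, rfl⟩
  have hA0 : 0 ≤ A := by rw [hA]; linarith
  have hAL : A ≤ L := by rw [hA]; linarith
  have hpar : A * C₀ * (2 * R₀) + (B + M) * C₀ * ((K + 3) * R₀) + M * ((2 * n - 1) / (2 * n)) +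
      M / (8 * N) ≤ B * (2 / n) := by
    rw [← hN]
    have h1 : B * (2 / N) = M := by
      rw [hB, hM]
      field_simp
    have h2 : M * ((2 * N - 1) / (2 * N)) = M - M / (2 * N) := by
      field_simp
    have h3 : A * C₀ * (2 * R₀) ≤ 2 * L * C₀ := by
      have : A * C₀ * (2 * R₀) ≤ L * C₀ * (2 * 1) := by
        refine mul_le_mul (mul_le_mul_of_nonneg_right hAL hC₀.le) (by linarith) (by positivity)
          (by positivity)
      linarith
    have h4 : (B + M) * C₀ * ((K + 3) * R₀) = (N / 2 + 1) * M' * C₀ * (K + 3) := by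
      calc (B + M) * C₀ * ((K + 3) * R₀) = (B * R₀ + M * R₀) * C₀ * (K + 3) := by ring
        _ = _ := by rw [hBR, hMR]; ring
    have h5 : D ≤ M / (4 * N) := by
      rw [hM, div_div, le_div_iff₀ (by positivity)]
      linarith
    have h6 : M / (4 * N) + M / (8 * N) ≤ M / (2 * N) := by
      have : M / (2 * N) - (M / (4 * N) + M / (8 * N)) = M / (8 * N) := by
        field_simp
        ring
      have h7 : 0 < M / (8 * N) := by positivity
      linarith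
    rw [h1, h2, h4]
    rw [hD] at h5
    linarith
  have half : ‖(1 / 2 : ℂ)‖ = 1 / 2 := by norm_num
  have hend : ∀ z w : Fin n → ℂ, nr z ≤ nr ((1 / 2 : ℂ) • (z + w)) + nr (w - z) / 2 ∧
      nr w ≤ nr ((1 / 2 : ℂ) • (z + w)) + nr (w - z) / 2 := by
    intro z w
    have e1 : z = (1 / 2 : ℂ) • (z + w) - (1 / 2 : ℂ) • (w - z) := by
      funext j
      simp only [Pi.sub_apply, Pi.smul_apply, Pi.add_apply, smul_eq_mul]
      ring
    have e2 : w = (1 / 2 : ℂ) • (z + w) + (1 / 2 : ℂ) • (w - z) := by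
      funext j
      simp only [Pi.sub_apply, Pi.smul_apply, Pi.add_apply, smul_eq_mul]
      ring
    have h1 := nr_sub_le ((1 / 2 : ℂ) • (z + w)) ((1 / 2 : ℂ) • (w - z))
    have h2 := nr_add_le ((1 / 2 : ℂ) • (z + w)) ((1 / 2 : ℂ) • (w - z))
    rw [← e1] at h1
    rw [← e2] at h2
    rw [nr_smul _ (w - z), half] at h1 h2
    constructor <;> linarith
  -- the conclusion of the comparison principle
  have key : ∀ m₀ : Fin n → ℂ, nr m₀ ≤ R₀ → ∀ z w : Fin n → ℂ, nr (w - z) ≤ 2 * R₀ →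
      nr ((1 / 2 : ℂ) • (z + w) - m₀) ≤ K * R₀ →
      F (pt z) (pt w) ≤ bar A B M c m₀ z w := by
    intro m₀ hm₀
    have hKR : 0 < K * R₀ := by
      have : 0 < K := by
        rcases hK0.eq_or_lt with h | h
        · rw [← h] at hK2
          nlinarith
        · exact h
      positivity
    refine comparison hn hC₀ hmir hF hA0 hB0 hM0.le (κ := (K + 3) * R₀) (ε := M / (8 * N))
      (by linarith) hKR g3 (by linarith) (by positivity) hpar ?_
    intro z w hρ hT hcase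
    have hmid : nr ((1 / 2 : ℂ) • (z + w)) ≤ (K + 1) * R₀ := by
      have h1 := nr_add_le ((1 / 2 : ℂ) • (z + w) - m₀) m₀
      rw [sub_add_cancel] at h1
      linarith
    obtain ⟨hz, hw⟩ := hend z w
    have hzb : nr z ≤ (K + 3) * R₀ := by linarith
    have hwb : nr w ≤ (K + 3) * R₀ := by linarith
    have hρ0 := nr_nonneg (w - z)
    have hloc := hsb z w (hzb.trans g1) (hwb.trans g1)
    rcases hcase with h | h | h
    · have hwz : w = z := sub_eq_zero.1 (nr_eq_zero.1 h)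
      rw [hwz, h0 z (hzb.trans g2), bar]
      have h1 : ip c (z - z) = 0 := by
        have h2 := abs_ip_le c (z - z)
        rw [sub_self, nr_zero, mul_zero] at h2
        rw [sub_self]
        exact abs_nonpos_iff.1 h2
      rw [h1, sub_self, nr_zero]
      have h3 : 0 ≤ M * nr ((1 / 2 : ℂ) • (z + z) - m₀) ^ 2 := by positivity
      linarith
    · have h1 := hno z w h hmid
      rw [bar, h]
      have h3 : 0 ≤ M * nr ((1 / 2 : ℂ) • (z + w) - m₀) ^ 2 := by positivity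
      have h4 : B * (2 * R₀) ^ 2 = 2 * N * M' * R₀ := by
        calc B * (2 * R₀) ^ 2 = 4 * (B * R₀) * R₀ := by ring
          _ = _ := by rw [hBR]; ring
      rw [h4, hA]
      have h5 : M' / 4 + N * M' ≤ e := by nlinarith
      have h6 := mul_le_mul_of_nonneg_right h5 (show 0 ≤ 2 * R₀ by linarith)
      linarith
    · rw [bar, h]
      have h4 : M * (K * R₀) ^ 2 = (2 * N + 1) * M' * R₀ := by
        calc M * (K * R₀) ^ 2 = K ^ 2 * (M * R₀) * R₀ := by ring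
          _ = _ := by rw [hMR, hK2]
      have h5 : B * nr (w - z) ^ 2 ≤ 2 * N * M' * R₀ := by
        have h6 : nr (w - z) ^ 2 ≤ (2 * R₀) ^ 2 := pow_le_pow_left₀ hρ0 hρ 2
        calc B * nr (w - z) ^ 2 ≤ B * (2 * R₀) ^ 2 := mul_le_mul_of_nonneg_left h6 hB0
          _ = 4 * (B * R₀) * R₀ := by ring
          _ = _ := by rw [hBR]; ring
      have h7 : M' / 2 * nr (w - z) ≤ M' * R₀ := by
        have := mul_le_mul_of_nonneg_left hρ (show 0 ≤ M' / 2 by linarith)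
        linarith
      rw [h4, hA]
      linarith
  -- contradiction with the slope
  refine hs.2 A (by rw [hA]; linarith) fun ε hε => ⟨R₀, hR₀, fun z w hz hw => ?_⟩
  have h1 : nr (w - z) ≤ 2 * R₀ := by
    have := nr_sub_le w z
    linarith
  have h2 : nr ((1 / 2 : ℂ) • (z + w)) ≤ R₀ := by
    have := nr_add_le z w
    rw [nr_smul, half]
    linarith
  have h3 := key _ h2 z w h1 (by rw [sub_self, nr_zero]; positivity)
  rw [bar, sub_self, nr_zero] at h3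
  have hρ0 := nr_nonneg (w - z)
  have h4 : 0 ≤ B * nr (w - z) ^ 2 := by positivity
  have h5 : 0 ≤ ε * nr (w - z) := by positivity
  linarith

end Pool.Agent.Lib.MP_5d4057_al.IN
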