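import Pool.Agent.Lib.MP_5d4057_al.IN.LimC

/-! The normalised volume functions `uF`, `uD` (part C, step C4). -/

namespace Pool.Agent.Lib.MP_5d4057_al.IN

open Matrix MeasureTheory Filter Topology Module Pool.Agent.Lib.MP_5d4057_al
  Pool.Agent.Lib.MP_5d4057_al.Hyb Pool.Agent.Lib.MP_5d4057_al.HM

variable {n : ℕ} {k : Type} [NontriviallyNormedField k] [IsUltrametricDist k] [ProperSpace k]
  {V : Type} [AddCommGroup V] [Module k V] [FiniteDimensional k V]

/-- `u = log N^m (b_s)`, normalised. -/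
noncomputable def uF (f : SUGroup n → Nm k V) (p : V →ₗ[k] V) {m : ℕ}
    (ω : ⋀[k]^m (LinearMap.range p)) (c : Fin n → ℂ) (g : SUGroup n) : ℝ :=
  Real.log ((f g).ext m (exteriorPower.map m (LinearMap.range p).subtype ω)) - ip c (zc g)

/-- `u' = log` of the dual norm of `ξ`, normalised. -/
noncomputable def uD (f : SUGroup n → Nm k V) (p : V →ₗ[k] V) {m : ℕ}
    (ξ : (⋀[k]^m (LinearMap.range p)) →ₗ[k] k) (c : Fin n → ℂ) (g : SUGroup n) : ℝ :=
  lop (ξ ∘ₗ exteriorPower.map m p.rangeRestrict) ((f g).ext m) (Nm.abs k) + ip c (zc g)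

variable {f : SUGroup n → Nm k V} {p : V →ₗ[k] V}

private theorem continuous_ip_zc (c : Fin n → ℂ) : Continuous fun g : SUGroup n => ip c (zc g) := by
  unfold ip hp
  exact Complex.continuous_re.comp (continuous_finsetSum _ fun j _ =>
    continuous_const.mul (continuous_zc j))

private theorem AA_ip_zc (hn : 1 ≤ n) {r : ℝ} (hr : 0 < r) (hr1 : r < 1) (c : Fin n → ℂ)
    (g : SUGroup n) : AA r (fun x => ip c (zc x)) g = ip c (zc g) :=
  AA_zc hn hr hr1 (fun j => star (c j)) g

private theorem continuous_log_ext (m : ℕ) (x : ⋀[k]^m V) :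
    Continuous fun N : Nm k V => Real.log (N.ext m x) := by
  refine (LipschitzWith.of_dist_le_mul (K := (m : NNReal)) fun N M => ?_).continuous
  rw [Real.dist_eq]
  exact ((N.ext m).log_le_dist (M.ext m) x).trans (N.dist_ext M m)

private theorem continuous_lop_ext {m : ℕ} {T : (⋀[k]^m V) →ₗ[k] k} (hT : T ≠ 0) :
    Continuous fun N : Nm k V => lop T (N.ext m) (Nm.abs k) := by
  refine (LipschitzWith.of_dist_le_mul (K := (m : NNReal)) fun N M => ?_).continuous
  rw [Real.dist_eq]
  have h1 := lop_lip hT (N.ext m) (M.ext m) (Nm.abs k) (Nm.abs k)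
  rw [dist_self, add_zero] at h1
  exact h1.trans (N.dist_ext M m)

omit [IsUltrametricDist k] [ProperSpace k] [FiniteDimensional k V] in
private theorem dual_apply (hp : IsBlk p) {m : ℕ} {ω : ⋀[k]^m (LinearMap.range p)}
    {ξ : (⋀[k]^m (LinearMap.range p)) →ₗ[k] k} (hξ : ξ ω = 1) :
    (ξ ∘ₗ exteriorPower.map m p.rangeRestrict)
      (exteriorPower.map m (LinearMap.range p).subtype ω) = 1 := by
  have h0 : p.rangeRestrict ∘ₗ (LinearMap.range p).subtype = LinearMap.id := by
    refine LinearMap.ext fun w => Subtype.ext ?_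
    obtain ⟨_, v, rfl⟩ := w
    exact LinearMap.congr_fun hp.idem v
  have h2 := LinearMap.congr_fun
    (exteriorPower.map_comp (n := m) (LinearMap.range p).subtype p.rangeRestrict) ω
  rw [h0, exteriorPower.map_id, LinearMap.id_apply, LinearMap.comp_apply] at h2
  rw [LinearMap.comp_apply, ← h2, hξ]

/-- Continuity, `RK`, sub mean value property and `u + u' ≥ 0`. -/
theorem LimC.uF_uD (hn : 1 ≤ n) (h : LimC f) (hp : IsBlk p) {m : ℕ}
    {ω : ⋀[k]^m (LinearMap.range p)} {ξ : (⋀[k]^m (LinearMap.range p)) →ₗ[k] k} (hξ : ξ ω = 1)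
    (c : Fin n → ℂ) : Continuous (uF f p ω c) ∧ Continuous (uD f p ξ c) ∧
      (∀ r g, 0 < r → r < 1 → uF f p ω c g ≤ AA r (uF f p ω c) g) ∧
      (∀ r g, 0 < r → r < 1 → uD f p ξ c g ≤ AA r (uD f p ξ c) g) ∧
      ∀ g, 0 ≤ uF f p ω c g + uD f p ξ c g := by
  have h1 := dual_apply hp hξ
  have hT : ξ ∘ₗ exteriorPower.map m p.rangeRestrict ≠ 0 := by
    intro h0
    rw [h0, LinearMap.zero_apply] at h1
    exact zero_ne_one h1
  have hω : exteriorPower.map m (LinearMap.range p).subtype ω ≠ 0 := by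
    intro h0
    rw [h0, map_zero] at h1
    exact zero_ne_one h1
  have c1 : Continuous fun g => Real.log ((f g).ext m
      (exteriorPower.map m (LinearMap.range p).subtype ω)) :=
    (continuous_log_ext m _).comp h.cont
  have c2 : Continuous fun g => lop (ξ ∘ₗ exteriorPower.map m p.rangeRestrict) ((f g).ext m)
      (Nm.abs k) := (continuous_lop_ext hT).comp h.cont
  have c3 := continuous_ip_zc c
  refine ⟨c1.sub c3, c2.add c3, fun r g hr hr1 => ?_, fun r g hr hr1 => ?_, fun g => ?_⟩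
  · have h2 := h.sub_ext m _ hω r g hr hr1
    have h3 := AA_sub hr hr1 c1 c3 g
    rw [AA_ip_zc hn hr hr1] at h3
    show Real.log ((f g).ext m (exteriorPower.map m (LinearMap.range p).subtype ω)) -
      ip c (zc g) ≤ AA r (fun x => Real.log ((f x).ext m
        (exteriorPower.map m (LinearMap.range p).subtype ω)) - ip c (zc x)) g
    rw [h3]
    linarith
  · have h2 := h.sub_dual m _ hT r g hr hr1
    have h3 := AA_add hr hr1 c2 c3 g
    rw [AA_ip_zc hn hr hr1] at h3
    show lop (ξ ∘ₗ exteriorPower.map m p.rangeRestrict) ((f g).ext m) (Nm.abs k) +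
      ip c (zc g) ≤ AA r (fun x => lop (ξ ∘ₗ exteriorPower.map m p.rangeRestrict) ((f x).ext m)
        (Nm.abs k) + ip c (zc x)) g
    rw [h3]
    linarith
  · have hv : (ξ ∘ₗ exteriorPower.map m p.rangeRestrict)
        (exteriorPower.map m (LinearMap.range p).subtype ω) ≠ 0 := by
      rw [h1]
      exact one_ne_zero
    have h2 := log_le_lop hv ((f g).ext m) (Nm.abs k)
    rw [h1] at h2
    have h3 : (Nm.abs k) (1 : k) = 1 := norm_one
    rw [h3, Real.log_one] at h2
    unfold uF uD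
    linarith

end Pool.Agent.Lib.MP_5d4057_al.IN
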