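import Pool.Agent.Lib.MP_5d4057_al.IN.LimC
import Pool.Agent.Lib.MP_5d4057_al.IN.Long
import Pool.Agent.Lib.MP_5d4057_al.IN.StrA

/-! The pieces of C4 (`exists_data`). -/

namespace Pool.Agent.Lib.MP_5d4057_al.IN

open Matrix MeasureTheory Filter Topology Module Pool.Agent.Lib.MP_5d4057_al
  Pool.Agent.Lib.MP_5d4057_al.Hyb Pool.Agent.Lib.MP_5d4057_al.HM

variable {n : ℕ} {k : Type} [NontriviallyNormedField k] [IsUltrametricDist k] [ProperSpace k]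
  {V : Type} [AddCommGroup V] [Module k V] [FiniteDimensional k V]

variable {f : SUGroup n → Nm k V} {p : V →ₗ[k] V}

/-- **E1.** Nearly extremal pairs around `0` at all small scales: `exists_near` for
`F g h := Dj p m (f g) (f h)`, with `SB` from `Slope`, `hsub` from `LimC.sub_pair`, `hlong` from `exists_long`
(`Mir` from `LimC.mir`; `F (pt z) (pt z) = 0` near `0` by `Dj_eq_DD`, `DD_self`). -/
theorem LimC.exists_pair (hn : 1 ≤ n) (h : LimC f) (hp : IsBlk p) {r₀ : ℝ} (hr₀ : 0 < r₀)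
    (horth : ∀ g, nr (zc g) < r₀ → OrthP (f g) p) {c : Fin n → ℂ} {L : ℕ → ℝ} (hS : Slopes f p c L)
    {m : ℕ} (hm : m ≤ rk p) (hL : 0 < L m) {η δ : ℝ} (hη : 0 < η) (hδ : 0 < δ) :
    ∃ R₁ : ℝ, 0 < R₁ ∧ ∀ R₀ : ℝ, 0 < R₀ → R₀ ≤ R₁ → ∃ z w : Fin n → ℂ,
      nr ((1 / 2 : ℂ) • (z + w)) ≤ δ * R₀ ∧ |nr (w - z) - 2 * R₀| ≤ δ * R₀ ∧
      (L m - η) * nr (w - z) ≤ Dj p m (f (pt z)) (f (pt w)) -
        ip (fun i => (((m : ℝ) / rk p : ℝ) : ℂ) * c i) (w - z) := by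
  have hne := map_ne_zero hp hm
  have hc1 : Continuous fun q : Nm k V × Nm k V => Dj p m q.1 q.2 := by
    have h1 : LipschitzWith (2 * m : NNReal) fun q : Nm k V × Nm k V => Dj p m q.1 q.2 :=
      LipschitzWith.of_dist_le_mul fun q q' => by
        have h2 := Dj_lip hne q.1 q'.1 q.2 q'.2
        have h3 : dist q.1 q'.1 ≤ dist q q' := by
          rw [Prod.dist_eq]
          exact le_max_left _ _
        have h4 : dist q.2 q'.2 ≤ dist q q' := by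
          rw [Prod.dist_eq]
          exact le_max_right _ _
        rw [Real.dist_eq]
        refine h2.trans ?_
        have h5 := mul_le_mul_of_nonneg_left (add_le_add h3 h4) (Nat.cast_nonneg (α := ℝ) m)
        refine h5.trans (le_of_eq ?_)
        push_cast
        ring
    exact h1.continuous
  have hc : Continuous fun q : SUGroup n × SUGroup n =>
      (fun g h : SUGroup n => Dj p m (f g) (f h)) q.1 q.2 :=
    hc1.comp ((h.cont.comp continuous_fst).prodMk (h.cont.comp continuous_snd))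
  refine exists_near hn (F := fun g h => Dj p m (f g) (f h)) hc (fun g a b hb => ⟨?_, ?_⟩)
    (fun a r g hr hr1 => h.sub_pair p m hne a r g hr hr1) hL (hS.sl m hm).1
    (fun η' hη' => ?_) hη hδ
  · show Dj p m (f (g * b)) (f a) = Dj p m (f g) (f a)
    rw [h.kinv g b hb]
  · show Dj p m (f g) (f (a * b)) = Dj p m (f g) (f a)
    rw [h.kinv a b hb]
  · refine exists_long hn (h.mir p m hne) (r₁ := min (1 / 2) (r₀ / 2))
      (lt_min (by norm_num) (by linarith)) (fun z hz => ?_) hL (hS.sl m hm) hη'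
    have hz1 : nr z ≤ 1 / 2 := hz.trans (min_le_left _ _)
    have hz2 : nr z ≤ r₀ / 2 := hz.trans (min_le_right _ _)
    have ho : OrthP (f (pt z)) p := horth _ (by rw [zc_pt (by linarith)]; linarith)
    show Dj p m (f (pt z)) (f (pt z)) = 0
    rw [Dj_eq_DD hp ho hm, DD_self]

private theorem extr_coord {P : Nm k V} {b : Basis (Fin (finrank k V)) k V} (hb : IsOrth P b)
    {m : ℕ} (s : Set.powersetCard (Fin (finrank k V)) m) :
    Real.log (P.ext m (b.exteriorPower m s)) +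
      lop ((b.exteriorPower m).coord s) (P.ext m) (Nm.abs k) = 0 := by
  classical
  rw [lop_dual_eq hb, hb.ext_apply]
  have h0 : 0 < ∏ i ∈ s.1, P (b i) := Finset.prod_pos fun i _ => P.pos (b.ne_zero i)
  have h1 : (⨆ t : Set.powersetCard (Fin (finrank k V)) m,
      ‖(b.exteriorPower m).coord s (b.exteriorPower m t)‖ / ∏ i ∈ t.1, P (b i)) =
      (∏ i ∈ s.1, P (b i))⁻¹ := by
    have hne : Nonempty (Set.powersetCard (Fin (finrank k V)) m) := ⟨s⟩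
    refine le_antisymm (ciSup_le fun t => ?_) ?_
    · rw [Basis.coord_apply, Basis.repr_self]
      rcases eq_or_ne t s with h | h
      · rw [h, Finsupp.single_eq_same, norm_one, one_div]
      · rw [Finsupp.single_eq_of_ne (by exact fun h2 => h h2.symm), norm_zero, zero_div]
        exact (inv_pos.2 h0).le
    · have h2 := le_ciSup (f := fun t : Set.powersetCard (Fin (finrank k V)) m =>
        ‖(b.exteriorPower m).coord s (b.exteriorPower m t)‖ / ∏ i ∈ t.1, P (b i))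
        (Set.finite_range _).bddAbove s
      refine le_trans (le_of_eq ?_) h2
      show _ = ‖(b.exteriorPower m).coord s (b.exteriorPower m s)‖ / ∏ i ∈ s.1, P (b i)
      rw [Basis.coord_apply, Basis.repr_self, Finsupp.single_eq_same, norm_one, one_div]
  rw [h1, Real.log_inv, add_neg_cancel]

/-- **E2.** The extremal vector and covector of a pair of norms: common orthogonal basis sorted by decreasing
ratio (`exists_orth2`), `s` the first `m` indices (`ini`, `card_ini`), `DD_sorted`; the coordinate has dual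
norm `1 / N^m (b_s)` for both norms (`lop_dual_eq`). -/
theorem exists_extremal (N N' : Nm k V) {m : ℕ} (hm : m ≤ finrank k V) :
    ∃ (b : Basis (Fin (finrank k V)) k V) (s : Set.powersetCard (Fin (finrank k V)) m),
      Real.log (N.ext m (b.exteriorPower m s)) +
        lop ((b.exteriorPower m).coord s) (N.ext m) (Nm.abs k) = 0 ∧
      Real.log (N'.ext m (b.exteriorPower m s)) +
        lop ((b.exteriorPower m).coord s) (N'.ext m) (Nm.abs k) = 0 ∧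
      Real.log (N'.ext m (b.exteriorPower m s)) - Real.log (N.ext m (b.exteriorPower m s)) =
        DD m N N' := by
  obtain ⟨b, hb, hb', hs⟩ := exists_orth2 N N'
  refine ⟨b, ⟨ini (finrank k V) m, card_ini hm⟩, extr_coord hb _, extr_coord hb' _, ?_⟩
  rw [DD_sorted hb hb' hs hm, hb.ext_apply, hb'.ext_apply,
    Real.log_prod fun i _ => (N'.pos (b.ne_zero i)).ne',
    Real.log_prod fun i _ => (N.pos (b.ne_zero i)).ne', ← Finset.sum_sub_distrib]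
  refine Finset.sum_congr rfl fun i _ => ?_
  rw [Real.log_div (N'.pos (b.ne_zero i)).ne' (N.pos (b.ne_zero i)).ne']

private theorem ts_ip_neg (e a : Fin n → ℂ) : ip e (-a) = -ip e a := by
  have h := ip_sub e (0 : Fin n → ℂ) a
  have h0 : ip e (0 : Fin n → ℂ) = 0 := by
    have := ip_sub e a a
    rwa [sub_self, sub_self] at this
  rw [zero_sub, h0, zero_sub] at h
  exact h

private theorem ts_add_sq (a b : Fin n → ℂ) :
    nr (a + b) ^ 2 = nr a ^ 2 + 2 * ip a b + nr b ^ 2 := by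
  have h := nr_sub_sq a (-b)
  rw [sub_neg_eq_add, nr_neg, ts_ip_neg] at h
  rw [h]
  ring

/-- the elementary inequality -/
private theorem ts_ends {ρ : ℝ} (hρ : 0 < ρ) {e a : Fin n → ℂ} (he : nr e = 1) :
    nr (a + ((ρ / 2 : ℝ) : ℂ) • e) ≤ ρ / 2 + ip e a + nr a ^ 2 / ρ := by
  have h1 := abs_le.1 (abs_ip_le e a)
  rw [he, one_mul] at h1
  have h2 := ts_add_sq a (((ρ / 2 : ℝ) : ℂ) • e)
  rw [ip_smul, nr_smul, he, mul_one, Complex.norm_real, Real.norm_eq_abs, sq_abs,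
    ip_comm a e] at h2
  obtain ⟨A, hA⟩ : ∃ A, nr a ^ 2 / ρ = A := ⟨_, rfl⟩
  have hA2 : A * ρ = nr a ^ 2 := by
    rw [← hA]
    field_simp
  have hA0 : 0 ≤ A := by
    rw [← hA]
    exact div_nonneg (sq_nonneg _) hρ.le
  rw [hA]
  obtain ⟨s, hs⟩ : ∃ s, ip e a = s := ⟨_, rfl⟩
  rw [hs] at h1 h2 ⊢
  have hR : 0 ≤ ρ / 2 + s + A := by
    have h3 : 0 ≤ (ρ / 2 - nr a + A) * ρ := by
      have : (ρ / 2 - nr a + A) * ρ = (nr a - ρ / 2) ^ 2 + ρ ^ 2 / 4 := by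
        rw [add_mul, hA2]
        ring
      rw [this]
      positivity
    have h4 : 0 ≤ ρ / 2 - nr a + A := nonneg_of_mul_nonneg_left h3 hρ
    linarith [h1.1]
  refine (sq_le_sq₀ (nr_nonneg _) hR).1 ?_
  rw [h2]
  nlinarith [sq_nonneg (s + A)]

/-- **E3.** Distances to the end points of a segment with midpoint `o` and half length `R'`:
`|y - z|² = |y - o + R' v|²`, `(R'² + x)^(1/2) ≤ R' + x/(2R')`. -/
theorem nr_sub_ends {z w : Fin n → ℂ} (hzw : 0 < nr (w - z)) (y : Fin n → ℂ) :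
    nr (y - z) ≤ nr (w - z) / 2 +
      ip (((nr (w - z))⁻¹ : ℂ) • (w - z)) (y - (1 / 2 : ℂ) • (z + w)) +
      nr (y - (1 / 2 : ℂ) • (z + w)) ^ 2 / nr (w - z) ∧
    nr (y - w) ≤ nr (w - z) / 2 -
      ip (((nr (w - z))⁻¹ : ℂ) • (w - z)) (y - (1 / 2 : ℂ) • (z + w)) +
      nr (y - (1 / 2 : ℂ) • (z + w)) ^ 2 / nr (w - z) := by
  obtain ⟨ρ, hρe⟩ : ∃ ρ, nr (w - z) = ρ := ⟨_, rfl⟩
  rw [hρe] at hzw ⊢
  have hc : ((ρ : ℂ))⁻¹ = ((ρ⁻¹ : ℝ) : ℂ) := by rw [Complex.ofReal_inv]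
  obtain ⟨e, hee⟩ : ∃ e, ((ρ : ℂ))⁻¹ • (w - z) = e := ⟨_, rfl⟩
  have he : nr e = 1 := by
    rw [← hee, hc, nr_smul, hρe, Complex.norm_real, Real.norm_eq_abs, abs_of_pos (inv_pos.2 hzw),
      inv_mul_cancel₀ hzw.ne']
  have hwz : w - z = (ρ : ℂ) • e := by
    rw [← hee, smul_smul, mul_inv_cancel₀ (by exact_mod_cast hzw.ne'), one_smul]
  rw [hee]
  obtain ⟨a, ha⟩ : ∃ a, y - (1 / 2 : ℂ) • (z + w) = a := ⟨_, rfl⟩
  rw [ha]
  have e1 : y - z = a + ((ρ / 2 : ℝ) : ℂ) • e := by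
    have h1 : ((ρ / 2 : ℝ) : ℂ) • e = (1 / 2 : ℂ) • (w - z) := by
      rw [hwz, smul_smul]
      congr 1
      push_cast
      ring
    rw [h1, ← ha]
    funext j
    simp only [Pi.add_apply, Pi.sub_apply, Pi.smul_apply, smul_eq_mul]
    ring
  have e2 : y - w = -(-a + ((ρ / 2 : ℝ) : ℂ) • e) := by
    have h1 : ((ρ / 2 : ℝ) : ℂ) • e = (1 / 2 : ℂ) • (w - z) := by
      rw [hwz, smul_smul]
      congr 1
      push_cast
      ring
    rw [h1, ← ha]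
    funext j
    simp only [Pi.add_apply, Pi.sub_apply, Pi.smul_apply, Pi.neg_apply, smul_eq_mul]
    ring
  have h1 := ts_ends hzw he (a := a)
  have h2 := ts_ends hzw he (a := -a)
  rw [ts_ip_neg, nr_neg] at h2
  rw [e1, e2, nr_neg]
  exact ⟨h1, by linarith⟩

/-- **E4.** Both functions are affine up to `16 (1 + L) d² R₀` in the ball of radius `d R₀`. Proof:
`R' = nr (w - z)/2 ∈ [R₀/2, 2R₀]`, `a = nr (y - o) ≤ 2 d R₀`, `s = ip v (y - o)`; `nr_sub_ends`.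
`uy + uy' ≤ (L+d²)(2R' + a²/R') - (L-d²) 2R'`; `uy - uz ≤ (L+d²)(R' + s + a²/(2R'))`;
`uy ≥ -uy' ≥ -uw' - (L+d²)(R' - s + a²/(2R'))`, `-uw' = uw ≥ uz + (L-d²) 2R'`. -/
theorem two_sided {L d R₀ : ℝ} (hL : 0 ≤ L) (hd : 0 < d) (hd1 : d ≤ 1 / 8) (hR₀ : 0 < R₀)
    {z w y : Fin n → ℂ} (hm : nr ((1 / 2 : ℂ) • (z + w)) ≤ d * R₀)
    (hl : |nr (w - z) - 2 * R₀| ≤ d * R₀) (hy : nr y ≤ d * R₀) {uz uw uy uz' uw' uy' : ℝ}
    (h1 : uz + uz' = 0) (h2 : uw + uw' = 0) (h3 : (L - d ^ 2) * nr (w - z) ≤ uw - uz)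
    (h4 : 0 ≤ uy + uy') (h5 : uy - uz ≤ (L + d ^ 2) * nr (y - z))
    (h6 : uy' - uw' ≤ (L + d ^ 2) * nr (y - w)) :
    uy + uy' ≤ 16 * (1 + L) * d ^ 2 * R₀ ∧
    |uy - (uz + L * (nr (w - z) / 2) -
        L * ip (((nr (w - z))⁻¹ : ℂ) • (w - z)) ((1 / 2 : ℂ) • (z + w))) -
      L * ip (((nr (w - z))⁻¹ : ℂ) • (w - z)) y| ≤ 16 * (1 + L) * d ^ 2 * R₀ := by
  have hl1 := abs_le.1 hl
  have hdR : d * R₀ ≤ 1 / 8 * R₀ := mul_le_mul_of_nonneg_right hd1 hR₀.le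
  have hρ : 0 < nr (w - z) := by linarith [hl1.1]
  obtain ⟨e3, e4⟩ := nr_sub_ends hρ y
  have hsub : nr (y - (1 / 2 : ℂ) • (z + w)) ≤ 2 * (d * R₀) :=
    (nr_sub_le _ _).trans (by linarith)
  have hnn : 0 ≤ nr (y - (1 / 2 : ℂ) • (z + w)) := nr_nonneg _
  have he : nr (((nr (w - z) : ℂ))⁻¹ • (w - z)) = 1 := by
    rw [nr_smul, norm_inv, Complex.norm_real, Real.norm_eq_abs, abs_of_pos hρ,
      inv_mul_cancel₀ hρ.ne']
  have hs := abs_le.1 (abs_ip_le (((nr (w - z) : ℂ))⁻¹ • (w - z)) (y - (1 / 2 : ℂ) • (z + w)))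
  rw [he, one_mul] at hs
  rw [ip_sub] at e3 e4 hs
  obtain ⟨ρ, hρe⟩ : ∃ ρ, nr (w - z) = ρ := ⟨_, rfl⟩
  obtain ⟨A, hA⟩ : ∃ A, nr (y - (1 / 2 : ℂ) • (z + w)) ^ 2 / nr (w - z) = A := ⟨_, rfl⟩
  obtain ⟨o, ho⟩ : ∃ o, ip (((nr (w - z) : ℂ))⁻¹ • (w - z)) ((1 / 2 : ℂ) • (z + w)) = o := ⟨_, rfl⟩
  obtain ⟨v, hv⟩ : ∃ v, ip (((nr (w - z) : ℂ))⁻¹ • (w - z)) y = v := ⟨_, rfl⟩
  have hA1 : A ≤ 32 / 15 * (d ^ 2 * R₀) := by
    rw [← hA, div_le_iff₀ hρ]
    have h7 : nr (y - (1 / 2 : ℂ) • (z + w)) ^ 2 ≤ (2 * (d * R₀)) ^ 2 :=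
      pow_le_pow_left₀ hnn hsub 2
    have h8 : 15 / 8 * R₀ ≤ nr (w - z) := by linarith [hl1.1]
    have h9 := mul_le_mul_of_nonneg_left h8 (show 0 ≤ 32 / 15 * (d ^ 2 * R₀) by positivity)
    nlinarith
  have hA0 : 0 ≤ A := by
    rw [← hA]
    exact div_nonneg (sq_nonneg _) hρ.le
  rw [hA, ho, hv, hρe] at e3 e4
  rw [ho, hv] at hs
  rw [hρe] at h3 hρ hl1
  rw [ho, hv, hρe]
  have hP : 0 ≤ L + d ^ 2 := by positivity
  have f5 := h5.trans (mul_le_mul_of_nonneg_left e3 hP)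
  have f6 := h6.trans (mul_le_mul_of_nonneg_left e4 hP)
  have hd2 : d ^ 2 ≤ 1 / 64 := by nlinarith
  have hD : 0 ≤ d ^ 2 := sq_nonneg d
  have hLA : L * A ≤ L * (32 / 15 * (d ^ 2 * R₀)) := mul_le_mul_of_nonneg_left hA1 hL
  have hDA : d ^ 2 * A ≤ 1 / 64 * (32 / 15 * (d ^ 2 * R₀)) := mul_le_mul hd2 hA1 hA0 (by norm_num)
  have hDρ : d ^ 2 * ρ ≤ d ^ 2 * (17 / 8 * R₀) :=
    mul_le_mul_of_nonneg_left (by linarith [hl1.2]) hD
  have hDR : 0 ≤ d ^ 2 * R₀ := by positivity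
  have hLR : 0 ≤ L * (d ^ 2 * R₀) := by positivity
  have hDv : d ^ 2 * (v - o) ≤ d ^ 2 * (1 / 4 * R₀) :=
    mul_le_mul_of_nonneg_left (by linarith [hs.2]) hD
  have hDv' : d ^ 2 * (-(v - o)) ≤ d ^ 2 * (1 / 4 * R₀) :=
    mul_le_mul_of_nonneg_left (by linarith [hs.1]) hD
  refine ⟨by nlinarith, ?_⟩
  rw [abs_le]
  constructor <;> nlinarith

private theorem e5_ip (s : ℝ) (c v : Fin n → ℂ) :
    ip (fun i => ((s : ℝ) : ℂ) * c i) v = s * ip c v := by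
  rw [ip_comm, ip_comm c v]
  exact ip_smul v s c

/-- the value depends only on the ball coordinate -/
private theorem e5_pt (h : LimC f) (g : SUGroup n) : f (pt (zc g)) = f g := by
  obtain ⟨b, hb, h1⟩ := exists_K (zc_pt (nr_zc_lt g) : zc (pt (zc g)) = zc g)
  conv_rhs => rw [h1]
  rw [h.kinv _ _ hb]

/-- the differences of `uF` -/
private theorem e5_uF (p : V →ₗ[k] V) {m : ℕ} (ω : ⋀[k]^m (LinearMap.range p)) (c : Fin n → ℂ)
    (g a : SUGroup n) : uF f p ω c a - uF f p ω c g =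
      Real.log ((rs p (f a)).ext m ω) - Real.log ((rs p (f g)).ext m ω) - ip c (zc a - zc g) := by
  unfold uF
  rw [rs_ext, rs_ext, ip_sub]
  ring

/-- the differences of `uD` -/
private theorem e5_uD (hp : IsBlk p) {m : ℕ} (ξ : (⋀[k]^m (LinearMap.range p)) →ₗ[k] k)
    (c : Fin n → ℂ) {g a : SUGroup n} (hg : OrthP (f g) p) (ha : OrthP (f a) p) :
    uD f p ξ c g - uD f p ξ c a =
      lop ξ ((rs p (f g)).ext m) (Nm.abs k) - lop ξ ((rs p (f a)).ext m) (Nm.abs k) -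
        ip c (zc a - zc g) := by
  unfold uD
  rw [rs_dual hp hg, rs_dual hp ha, ip_sub]
  ring

/-- the distances near the base point -/
private theorem e5_DD (h : LimC f) (hp : IsBlk p) {r₀ : ℝ}
    (horth : ∀ g, nr (zc g) < r₀ → OrthP (f g) p) {c : Fin n → ℂ} {L : ℕ → ℝ} (hS : Slopes f p c L)
    {m : ℕ} (hm : m ≤ rk p) {η : ℝ} (hη : 0 < η) : ∃ r : ℝ, 0 < r ∧
      ∀ g a : SUGroup n, nr (zc g) ≤ r → nr (zc a) ≤ r → nr (zc g) < r₀ →
        DD m (rs p (f g)) (rs p (f a)) - ((m : ℝ) / rk p) * ip c (zc a - zc g) ≤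
          (L m + η) * nr (zc a - zc g) := by
  obtain ⟨r, hr, h1⟩ := (hS.sl m hm).1 η hη
  refine ⟨r, hr, fun g a hg ha hg0 => ?_⟩
  have h2 := h1 (zc g) (zc a) hg ha
  beta_reduce at h2
  rw [e5_ip, e5_pt h, e5_pt h, Dj_eq_DD hp (horth g hg0) hm] at h2
  exact h2

/-- **E5a.** Increments: `log_ext_sub_le`, `lop_dual_sub_le`, `Dj_eq_DD`, `rs_ext`, `rs_dual`, `SB` of the slope
`L m` at `z = zc g`, `w = zc h` (`f (pt (zc g)) = f g` by `kinv`, `exists_K`). -/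
theorem LimC.incr (hn : 1 ≤ n) (h : LimC f) (hp : IsBlk p) {r₀ : ℝ} (hr₀ : 0 < r₀)
    (horth : ∀ g, nr (zc g) < r₀ → OrthP (f g) p) {c : Fin n → ℂ} {L : ℕ → ℝ} (hS : Slopes f p c L)
    {m : ℕ} (hm : m ≤ rk p) {η : ℝ} (hη : 0 < η) : ∃ r : ℝ, 0 < r ∧ r < r₀ ∧
      ∀ (ω : ⋀[k]^m (LinearMap.range p)) (ξ : (⋀[k]^m (LinearMap.range p)) →ₗ[k] k), ξ ω = 1 →
      ∀ g a : SUGroup n, nr (zc g) ≤ r → nr (zc a) ≤ r →
        uF f p ω (fun i => (((m : ℝ) / rk p : ℝ) : ℂ) * c i) a -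
          uF f p ω (fun i => (((m : ℝ) / rk p : ℝ) : ℂ) * c i) g ≤ (L m + η) * nr (zc a - zc g) ∧
        uD f p ξ (fun i => (((m : ℝ) / rk p : ℝ) : ℂ) * c i) g -
          uD f p ξ (fun i => (((m : ℝ) / rk p : ℝ) : ℂ) * c i) a ≤
            (L m + η) * nr (zc a - zc g) := by
  obtain ⟨r₁, hr₁, h1⟩ := e5_DD h hp horth hS hm hη
  refine ⟨min r₁ (r₀ / 2), lt_min hr₁ (by linarith), (min_le_right _ _).trans_lt (by linarith), ?_⟩
  intro ω ξ hωξ g a hg ha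
  have hg1 : nr (zc g) < r₀ := (hg.trans (min_le_right _ _)).trans_lt (by linarith)
  have ha1 : nr (zc a) < r₀ := (ha.trans (min_le_right _ _)).trans_lt (by linarith)
  have hω0 : ω ≠ 0 := by
    rintro rfl
    rw [map_zero] at hωξ
    exact zero_ne_one hωξ
  have hξ0 : ξ ≠ 0 := by
    rintro rfl
    rw [LinearMap.zero_apply] at hωξ
    exact zero_ne_one hωξ
  have h2 := h1 g a (hg.trans (min_le_left _ _)) (ha.trans (min_le_left _ _)) hg1
  constructor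
  · rw [e5_uF, e5_ip]
    have h3 := log_ext_sub_le (N := rs p (f g)) (N' := rs p (f a)) hω0
    linarith
  · rw [e5_uD hp ξ _ (horth g hg1) (horth a ha1), e5_ip]
    have h3 := lop_dual_sub_le (N := rs p (f g)) (N' := rs p (f a)) hξ0
    linarith

/-- **E5b.** The one step lemma for the pair `f g`, `f a` at distance `≤ (1 + 16 r) t`:
`am = (L j + η)(1 + 16 r) t + (j/rk p) ip c (zc a - zc g)`, `a` and `ap` the same with `j + 1`, `j + 2`
(the linear parts cancel in `am + ap - 2a`), the `c` of `one_step` is `gap/8 * t`,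
`gap = 2 L (j+1) - L j - L (j+2)`; `η` and `r` with `η + 16 r (L (j+1) + η) ≤ gap/16`. -/
theorem LimC.step (hn : 1 ≤ n) (h : LimC f) (hp : IsBlk p) {r₀ : ℝ} (hr₀ : 0 < r₀)
    (horth : ∀ g, nr (zc g) < r₀ → OrthP (f g) p) {c : Fin n → ℂ} {L : ℕ → ℝ} (hS : Slopes f p c L)
    {j : ℕ} (hj : j + 2 ≤ rk p) (hgap : L j + L (j + 2) < 2 * L (j + 1)) : ∃ r : ℝ, 0 < r ∧ r < r₀ ∧
      ∀ (ω : ⋀[k]^(j + 1) (LinearMap.range p)) (ξ : (⋀[k]^(j + 1) (LinearMap.range p)) →ₗ[k] k),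
      ξ ω = 1 → ∀ (g a : SUGroup n) (t : ℝ), nr (zc g) ≤ r → nr (zc a) ≤ r → 0 < t →
        nr (zc a - zc g) ≤ (1 + 16 * r) * t →
        (L (j + 1) - (2 * L (j + 1) - L j - L (j + 2)) / 16) * t ≤
          uF f p ω (fun i => ((((j + 1 : ℕ) : ℝ) / rk p : ℝ) : ℂ) * c i) a -
            uF f p ω (fun i => ((((j + 1 : ℕ) : ℝ) / rk p : ℝ) : ℂ) * c i) g →
        (L (j + 1) - (2 * L (j + 1) - L j - L (j + 2)) / 16) * t ≤
          uD f p ξ (fun i => ((((j + 1 : ℕ) : ℝ) / rk p : ℝ) : ℂ) * c i) g -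
            uD f p ξ (fun i => ((((j + 1 : ℕ) : ℝ) / rk p : ℝ) : ℂ) * c i) a →
        uF f p ω (fun i => ((((j + 1 : ℕ) : ℝ) / rk p : ℝ) : ℂ) * c i) g +
          uD f p ξ (fun i => ((((j + 1 : ℕ) : ℝ) / rk p : ℝ) : ℂ) * c i) g ≤
            (2 * L (j + 1) - L j - L (j + 2)) / 8 * t := by
  obtain ⟨G, hG⟩ : ∃ G, G = 2 * L (j + 1) - L j - L (j + 2) := ⟨_, rfl⟩
  have hG0 : 0 < G := by rw [hG]; linarith
  have hL1 : 0 ≤ L (j + 1) := hS.nonneg _ (by omega)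
  obtain ⟨η, hη⟩ : ∃ η, η = G / 32 := ⟨_, rfl⟩
  have hη0 : 0 < η := by rw [hη]; positivity
  obtain ⟨r₁, hr₁, h1⟩ := e5_DD h hp horth hS (by omega : j ≤ rk p) hη0
  obtain ⟨r₂, hr₂, h2⟩ := e5_DD h hp horth hS (by omega : j + 1 ≤ rk p) hη0
  obtain ⟨r₃, hr₃, h3⟩ := e5_DD h hp horth hS hj hη0
  obtain ⟨r₄, hr₄⟩ : ∃ r₄, r₄ = G / 32 / (16 * (L (j + 1) + η) + 1) := ⟨_, rfl⟩
  have hden : 0 < 16 * (L (j + 1) + η) + 1 := by positivity
  have hr₄0 : 0 < r₄ := by rw [hr₄]; positivity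
  obtain ⟨r, hr⟩ : ∃ r, r = min (min r₁ r₂) (min (min r₃ r₄) (r₀ / 2)) := ⟨_, rfl⟩
  have hr0 : 0 < r := by
    rw [hr]
    exact lt_min (lt_min hr₁ hr₂) (lt_min (lt_min hr₃ hr₄0) (by linarith))
  have hra : r ≤ r₁ := by rw [hr]; exact (min_le_left _ _).trans (min_le_left _ _)
  have hrb : r ≤ r₂ := by rw [hr]; exact (min_le_left _ _).trans (min_le_right _ _)
  have hrc : r ≤ r₃ := by
    rw [hr]; exact (min_le_right _ _).trans ((min_le_left _ _).trans (min_le_left _ _))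
  have hrd : r ≤ r₄ := by
    rw [hr]; exact (min_le_right _ _).trans ((min_le_left _ _).trans (min_le_right _ _))
  have hre : r ≤ r₀ / 2 := by rw [hr]; exact (min_le_right _ _).trans (min_le_right _ _)
  have hrL : 16 * r * (L (j + 1) + η) ≤ G / 32 := by
    have h4 : r₄ * (16 * (L (j + 1) + η) + 1) = G / 32 := by
      rw [hr₄]
      field_simp
    have h5 : r * (16 * (L (j + 1) + η) + 1) ≤ G / 32 := by
      rw [← h4]
      exact mul_le_mul_of_nonneg_right hrd hden.le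
    linarith
  refine ⟨r, hr0, by linarith, ?_⟩
  intro ω ξ hωξ g a t hg ha ht hd hu hu'
  have hg1 : nr (zc g) < r₀ := by linarith
  have ha1 : nr (zc a) < r₀ := by linarith
  rw [← hG] at hu hu' ⊢
  rw [e5_uF, e5_ip] at hu
  rw [e5_uD hp ξ _ (horth g hg1) (horth a ha1), e5_ip] at hu'
  have hsum : uF f p ω (fun i => ((((j + 1 : ℕ) : ℝ) / rk p : ℝ) : ℂ) * c i) g +
      uD f p ξ (fun i => ((((j + 1 : ℕ) : ℝ) / rk p : ℝ) : ℂ) * c i) g =
      Real.log ((rs p (f g)).ext (j + 1) ω) + lop ξ ((rs p (f g)).ext (j + 1)) (Nm.abs k) := by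
    unfold uF uD
    rw [rs_ext, rs_dual hp (horth g hg1)]
    ring
  rw [hsum]
  obtain ⟨P, hP⟩ : ∃ P, P = ip c (zc a - zc g) := ⟨_, rfl⟩
  obtain ⟨D, hD⟩ : ∃ D, D = nr (zc a - zc g) := ⟨_, rfl⟩
  have q1 := h1 g a (hg.trans hra) (ha.trans hra) hg1
  have q2 := h2 g a (hg.trans hrb) (ha.trans hrb) hg1
  have q3 := h3 g a (hg.trans hrc) (ha.trans hrc) hg1
  rw [← hP, ← hD] at q1 q2 q3
  rw [← hP] at hu hu'
  rw [← hD] at hd
  have hrk : (0 : ℝ) < rk p := by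
    have := hp.rk_pos
    exact_mod_cast this
  have w1 : (L j + η) * D ≤ (L j + η) * ((1 + 16 * r) * t) :=
    mul_le_mul_of_nonneg_left hd (by linarith [hS.nonneg j (by omega)])
  have w2 : (L (j + 1) + η) * D ≤ (L (j + 1) + η) * ((1 + 16 * r) * t) :=
    mul_le_mul_of_nonneg_left hd (by linarith)
  have w3 : (L (j + 2) + η) * D ≤ (L (j + 2) + η) * ((1 + 16 * r) * t) :=
    mul_le_mul_of_nonneg_left hd (by linarith [hS.nonneg (j + 2) hj])
  have hs : ((j : ℕ) : ℝ) / rk p * P + ((j + 2 : ℕ) : ℝ) / rk p * P =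
      2 * (((j + 1 : ℕ) : ℝ) / rk p * P) := by
    push_cast
    ring
  have hsmall : (L (j + 1) + η) * ((1 + 16 * r) * t) ≤ (L (j + 1) + G / 16) * t := by
    have h6 : (L (j + 1) + η) * (1 + 16 * r) ≤ L (j + 1) + G / 16 := by
      rw [hη] at hrL ⊢
      linarith
    calc (L (j + 1) + η) * ((1 + 16 * r) * t) = ((L (j + 1) + η) * (1 + 16 * r)) * t := by ring
      _ ≤ _ := mul_le_mul_of_nonneg_right h6 ht.le
  have hbig : G * t ≤ G * ((1 + 16 * r) * t) := by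
    have h7 : t ≤ (1 + 16 * r) * t := by nlinarith
    exact mul_le_mul_of_nonneg_left h7 hG0.le
  refine one_step (N := rs p (f g)) (N' := rs p (f a)) (j := j) hj
    (am := (L j + η) * ((1 + 16 * r) * t) + ((j : ℕ) : ℝ) / rk p * P)
    (a := (L (j + 1) + η) * ((1 + 16 * r) * t) + ((j + 1 : ℕ) : ℝ) / rk p * P)
    (ap := (L (j + 2) + η) * ((1 + 16 * r) * t) + ((j + 2 : ℕ) : ℝ) / rk p * P)
    (c := G / 8 * t) (by positivity) (by linarith) (by linarith) (by linarith) ?_ hωξ ?_ ?_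
  · have h8 : (L j + η) * ((1 + 16 * r) * t) + (L (j + 2) + η) * ((1 + 16 * r) * t) =
        2 * ((L (j + 1) + η) * ((1 + 16 * r) * t)) - G * ((1 + 16 * r) * t) := by
      rw [hG]
      ring
    have h9 : 0 < G * t := by positivity
    linarith
  · linarith
  · linarith

end Pool.Agent.Lib.MP_5d4057_al.IN
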