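import Pool.Agent.Lib.MP_5d4057_al.IN.LimC
import Pool.Agent.Lib.MP_5d4057_al.IN.StrD
import Pool.Agent.Lib.MP_5d4057_al.IN.Ball

/-! Assembly of the data at a small scale (C4). -/

namespace Pool.Agent.Lib.MP_5d4057_al.IN

open Matrix MeasureTheory Filter Topology Module Pool.Agent.Lib.MP_5d4057_al
  Pool.Agent.Lib.MP_5d4057_al.Hyb Pool.Agent.Lib.MP_5d4057_al.HM

variable {n : ℕ} {k : Type} [NontriviallyNormedField k] [IsUltrametricDist k] [ProperSpace k]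
  {V : Type} [AddCommGroup V] [Module k V] [FiniteDimensional k V]

variable {f : SUGroup n → Nm k V} {p : V →ₗ[k] V}

/-- **C4: the data at a small scale.** `L = L (j+1)`, `c₀ = (2 L (j+1) - L j - L (j+2))/8`,
`c' = ((j+1)/rk p) c`. Proof. `d` small (depending on `d₁`, `L`), `η := d²`, `δ := d/4`; `R₀` small, from
`exists_near` (with `Mir` from `LimC.mir`, `exists_long`, `LimC.sub_pair`) a pair `x₋ = z, x₊ = w` with
`|(z+w)/2| ≤ δ R₀`, `||w - z| - 2R₀| ≤ δ R₀`, `D(z,w) ≥ (L - η)|w - z|`, `D` = normalised `Dj p (j+1)`;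
`R₀` so small that `D_i(y,y') ≤ (L i + η)|y - y'|` for `|y|,|y'| ≤ 4R₀`, `i = j, j+1, j+2`. `rr := d R₀`,
`v := (w - z)/|w - z|`. `b` = common orthogonal basis of `rs p (f (pt z))`, `rs p (f (pt w))`, sorted by
decreasing ratio (`exists_orth2`), `s` = the first `j+1` indices, `ω = b_s`, `ξ` = coordinate. `u + u'`
vanishes at both points and `u (w) - u (z) = D(z,w)`, `u'(z) - u'(w) = D(z,w)`. For `|y| ≤ rr`, `o` the
midpoint, `R' = |w - z|/2`: `|y - z| ≤ R' + <y-o,v> + |y-o|²/R'`, `|y - w| ≤ R' - <y-o,v> + |y-o|²/R'`;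
`u(y) ≤ u(z) + (L+η)|y - z|`, `u'(y) ≤ u'(w) + (L+η)|y - w|` (`log_ext_sub_le`, `lop_dual_sub_le`), so
`(u+u')(y) ≤ (L+η)(2R' + 2|y-o|²/R') - (L-η) 2R' ≤ C_L d rr`, and `u(y) ≥ -u'(y)` gives
`|u(y) - u₀ - L <y, v>| ≤ C_L d rr`, `u₀ := u(z) + L R' - L <o,v>`. The last two properties: `zc_flow_mul`
(`|zc (b(t) g) - zc g| ≤ (1 + 16 rr) t`), `log_ext_sub_le`, `lop_dual_sub_le`, `one_step` with
`c = 2 c₀ t`-like constants (`am = (L j + η)(1+16rr) t + (j/rk p) ip c (..)`, and so on; the linear parts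
cancel in `am + ap - 2a`), `Dj_eq_DD`, `rs_ext`, `rs_dual`. -/
theorem LimC.exists_data (hn : 1 ≤ n) (h : LimC f) (hp : IsBlk p) {r₀ : ℝ} (hr₀ : 0 < r₀)
    (horth : ∀ g, nr (zc g) < r₀ → OrthP (f g) p) {c : Fin n → ℂ} {L : ℕ → ℝ} (hS : Slopes f p c L)
    {j : ℕ} (hj : j + 2 ≤ rk p) (hgap : L j + L (j + 2) < 2 * L (j + 1)) (hpos : 0 < L (j + 1))
    {d₁ : ℝ} (hd₁ : 0 < d₁) :
    ∃ (rr : ℝ) (v : Fin n → ℂ) (hv : Kak.nq v = 1) (b : Basis (Fin (rk p)) k (LinearMap.range p))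
      (s : Set.powersetCard (Fin (rk p)) (j + 1)) (Λ u₀ : ℝ), 0 < rr ∧ rr ≤ d₁ ∧ rr ≤ r₀ / 2 ∧ 0 ≤ Λ ∧
      ∃ u u' : SUGroup n → ℝ,
        u = uF f p (b.exteriorPower (j + 1) s) (fun i => ((((j : ℝ) + 1) / rk p : ℝ) : ℂ) * c i) ∧
        u' = uD f p ((b.exteriorPower (j + 1)).coord s)
          (fun i => ((((j : ℝ) + 1) / rk p : ℝ) : ℂ) * c i) ∧
        (∀ g, nr (zc g) ≤ rr → u g + u' g ≤ d₁ * rr ∧
          |u g - u₀ - L (j + 1) * ip v (zc g)| ≤ d₁ * rr) ∧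
        (∀ g t, 0 ≤ t → t ≤ rr → nr (zc g) ≤ rr → nr (zc (Kak.flow v hv t * g)) ≤ rr →
          u (Kak.flow v hv t * g) - u g ≤ (L (j + 1) + d₁) * t ∧
            u' g - u' (Kak.flow v hv t * g) ≤ (L (j + 1) + d₁) * t) ∧
        (∀ g t, 0 < t → t ≤ rr → nr (zc g) ≤ rr → nr (zc (Kak.flow v hv t * g)) ≤ rr →
          (L (j + 1) - (2 * L (j + 1) - L j - L (j + 2)) / 16) * t ≤ u (Kak.flow v hv t * g) - u g →
          (L (j + 1) - (2 * L (j + 1) - L j - L (j + 2)) / 16) * t ≤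
            u' g - u' (Kak.flow v hv t * g) → u g + u' g ≤ Λ * t) := by
  obtain ⟨M, hM⟩ : ∃ M : ℝ, M = L (j + 1) := ⟨_, rfl⟩
  have hcast : (fun i => ((((j : ℝ) + 1) / rk p : ℝ) : ℂ) * c i) =
      fun i => ((((j + 1 : ℕ) : ℝ) / rk p : ℝ) : ℂ) * c i := by
    push_cast
    rfl
  rw [hcast]
  obtain ⟨c', hc'⟩ : ∃ c' : Fin n → ℂ, c' = fun i => ((((j + 1 : ℕ) : ℝ) / rk p : ℝ) : ℂ) * c i :=
    ⟨_, rfl⟩
  have hM0 : 0 < M := by rw [hM]; exact hpos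
  -- the small number
  obtain ⟨d, hd⟩ : ∃ d : ℝ, d = min (1 / 8) (d₁ / (16 * (1 + M))) := ⟨_, rfl⟩
  have hd0 : 0 < d := by
    rw [hd]
    exact lt_min (by norm_num) (by positivity)
  have hd8 : d ≤ 1 / 8 := by rw [hd]; exact min_le_left _ _
  have hdd : 16 * (1 + M) * d ≤ d₁ := by
    have h1 : d ≤ d₁ / (16 * (1 + M)) := by rw [hd]; exact min_le_right _ _
    rw [le_div_iff₀ (by positivity)] at h1
    linarith
  have hd16 : d ≤ d₁ / 16 := by nlinarith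
  have hdsq : d ^ 2 ≤ d₁ / 128 := by nlinarith
  have hdsq0 : 0 < d ^ 2 := by positivity
  obtain ⟨R₁, hR₁, hpair⟩ := h.exists_pair hn hp hr₀ horth hS (m := j + 1) (by omega) hpos hdsq0 hd0
  obtain ⟨r₂, hr₂, hr₂0, hinc⟩ := h.incr hn hp hr₀ horth hS (m := j + 1) (by omega) hdsq0
  obtain ⟨r₃, hr₃, hr₃0, hstep⟩ := h.step hn hp hr₀ horth hS hj hgap
  obtain ⟨R₀, hR₀⟩ : ∃ R₀ : ℝ, R₀ = min (min R₁ (r₂ / 2)) (min r₃ (min (1 / 8) (r₀ / 4))) := ⟨_, rfl⟩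
  have hR0 : 0 < R₀ := by
    rw [hR₀]
    exact lt_min (lt_min hR₁ (by linarith)) (lt_min hr₃ (lt_min (by norm_num) (by linarith)))
  have q1 : R₀ ≤ R₁ := by rw [hR₀]; exact (min_le_left _ _).trans (min_le_left _ _)
  have q2 : R₀ ≤ r₂ / 2 := by rw [hR₀]; exact (min_le_left _ _).trans (min_le_right _ _)
  have q3 : R₀ ≤ r₃ := by rw [hR₀]; exact (min_le_right _ _).trans (min_le_left _ _)
  have q4 : R₀ ≤ 1 / 8 := by
    rw [hR₀]
    exact (min_le_right _ _).trans ((min_le_right _ _).trans (min_le_left _ _))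
  have q5 : R₀ ≤ r₀ / 4 := by
    rw [hR₀]
    exact (min_le_right _ _).trans ((min_le_right _ _).trans (min_le_right _ _))
  obtain ⟨z, w, hmid, hlen, hext⟩ := hpair R₀ hR0 q1
  rw [← hc', ← hM] at hext
  obtain ⟨ℓ, hℓ⟩ : ∃ ℓ : ℝ, ℓ = nr (w - z) := ⟨_, rfl⟩
  have hdR : d * R₀ ≤ 1 / 8 * R₀ := mul_le_mul_of_nonneg_right hd8 hR0.le
  have hdR0 : 0 < d * R₀ := mul_pos hd0 hR0
  have hlen' := abs_le.1 hlen
  rw [← hℓ] at hlen'
  have hℓ0 : 0 < ℓ := by linarith [hlen'.1]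
  have hnz : nr z ≤ 2 * R₀ := by
    have e1 : z = (1 / 2 : ℂ) • (z + w) - (1 / 2 : ℂ) • (w - z) := by
      funext i
      simp only [Pi.sub_apply, Pi.smul_apply, Pi.add_apply, smul_eq_mul]
      ring
    have e2 := nr_sub_le ((1 / 2 : ℂ) • (z + w)) ((1 / 2 : ℂ) • (w - z))
    rw [← e1, nr_smul (1 / 2 : ℂ) (w - z), ← hℓ] at e2
    have e3 : ‖(1 / 2 : ℂ)‖ = 1 / 2 := by norm_num
    rw [e3] at e2
    linarith [hlen'.2]
  have hnw : nr w ≤ 2 * R₀ := by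
    have e1 : w = (1 / 2 : ℂ) • (z + w) + (1 / 2 : ℂ) • (w - z) := by
      funext i
      simp only [Pi.sub_apply, Pi.smul_apply, Pi.add_apply, smul_eq_mul]
      ring
    have e2 := nr_add_le ((1 / 2 : ℂ) • (z + w)) ((1 / 2 : ℂ) • (w - z))
    rw [← e1, nr_smul (1 / 2 : ℂ) (w - z), ← hℓ] at e2
    have e3 : ‖(1 / 2 : ℂ)‖ = 1 / 2 := by norm_num
    rw [e3] at e2
    linarith [hlen'.2]
  have hzz : zc (pt z) = z := zc_pt (by linarith)
  have hzw : zc (pt w) = w := zc_pt (by linarith)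
  have oz : OrthP (f (pt z)) p := horth _ (by rw [hzz]; linarith)
  have ow : OrthP (f (pt w)) p := horth _ (by rw [hzw]; linarith)
  -- the direction
  obtain ⟨v, hv⟩ : ∃ v : Fin n → ℂ, v = ((nr (w - z))⁻¹ : ℂ) • (w - z) := ⟨_, rfl⟩
  have hnv : nr v = 1 := by
    rw [hv, nr_smul, ← hℓ, norm_inv, Complex.norm_real, Real.norm_of_nonneg hℓ0.le,
      inv_mul_cancel₀ hℓ0.ne']
  have hqv : Kak.nq v = 1 := by rw [nq_eq_nr_sq, hnv, one_pow]
  -- the vector and the covector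
  obtain ⟨b, s, x1, x2, x3⟩ := exists_extremal (rs p (f (pt z))) (rs p (f (pt w))) (m := j + 1)
    (show j + 1 ≤ rk p by omega)
  obtain ⟨ω, hω⟩ : ∃ ω, ω = b.exteriorPower (j + 1) s := ⟨_, rfl⟩
  obtain ⟨ξ, hξ⟩ : ∃ ξ, ξ = (b.exteriorPower (j + 1)).coord s := ⟨_, rfl⟩
  rw [← hω, ← hξ] at x1 x2
  rw [← hω] at x3
  have hξω : ξ ω = 1 := by
    rw [hω, hξ, Basis.coord_apply, Basis.repr_self, Finsupp.single_eq_same]
  rw [rs_ext, ← rs_dual hp oz] at x1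
  rw [rs_ext, ← rs_dual hp ow] at x2
  rw [rs_ext, rs_ext, ← Dj_eq_DD hp oz (by omega)] at x3
  obtain ⟨-, -, -, -, hpn⟩ := h.uF_uD hn hp hξω c'
  obtain ⟨u, hu⟩ : ∃ u : SUGroup n → ℝ, u = uF f p ω c' := ⟨_, rfl⟩
  obtain ⟨u', hu'⟩ : ∃ u' : SUGroup n → ℝ, u' = uD f p ξ c' := ⟨_, rfl⟩
  have g1 : u (pt z) + u' (pt z) = 0 := by
    rw [hu, hu', uF, uD]
    linarith
  have g2 : u (pt w) + u' (pt w) = 0 := by
    rw [hu, hu', uF, uD]
    linarith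
  have g3 : (M - d ^ 2) * nr (w - z) ≤ u (pt w) - u (pt z) := by
    rw [hu, uF, uF, hzz, hzw]
    rw [ip_sub] at hext
    linarith
  have g4 : ∀ g, 0 ≤ u g + u' g := by
    intro g
    rw [hu, hu']
    exact hpn g
  have hinc' := hinc ω ξ hξω
  rw [← hc', ← hM, ← hu, ← hu'] at hinc'
  have hstep' := hstep ω ξ hξω
  rw [← hc', ← hM, ← hu, ← hu'] at hstep'
  have hrr2 : d * R₀ ≤ r₂ := by linarith
  have hrr3 : d * R₀ ≤ r₃ := by linarith
  -- the increments of the coordinate along the flow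
  have hfl : ∀ (g : SUGroup n) (t : ℝ), 0 ≤ t → t ≤ d * R₀ → nr (zc g) ≤ d * R₀ →
      nr (zc (Kak.flow v hqv t * g) - zc g) ≤ (1 + 16 * (d * R₀)) * t := by
    intro g t ht ht1 hg
    have e1 := zc_flow_mul hqv ht (by linarith) (g := g) (by linarith)
    have e2 : zc (Kak.flow v hqv t * g) - zc g =
        (zc (Kak.flow v hqv t * g) - zc g - (t : ℂ) • v) + (t : ℂ) • v := by
      rw [sub_add_cancel]
    have e3 : nr ((t : ℂ) • v) = t := by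
      rw [nr_smul, hnv, mul_one, Complex.norm_real, Real.norm_eq_abs, abs_of_nonneg ht]
    rw [e2]
    refine (nr_add_le _ _).trans ?_
    rw [e3]
    have e4 : t * (nr (zc g) + t) ≤ t * (2 * (d * R₀)) :=
      mul_le_mul_of_nonneg_left (by linarith) ht
    linarith
  have hMd : 0 ≤ M + d ^ 2 := by positivity
  have hcoef : (M + d ^ 2) * (1 + 16 * (d * R₀)) ≤ M + d₁ := by
    have e1 : 16 * (1 + M) * d * R₀ ≤ d₁ * R₀ := mul_le_mul_of_nonneg_right hdd hR0.le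
    have e2 : d₁ * R₀ ≤ d₁ * (1 / 8) := mul_le_mul_of_nonneg_left q4 hd₁.le
    have e3 : d ^ 2 * (d * R₀) ≤ 1 * (d * R₀) :=
      mul_le_mul_of_nonneg_right (by nlinarith) hdR0.le
    have e4 : (M + d ^ 2) * (1 + 16 * (d * R₀)) =
      M + d ^ 2 + 16 * (M * (d * R₀)) + 16 * (d ^ 2 * (d * R₀)) := by ring
    have e5 : 16 * (1 + M) * d * R₀ = 16 * (M * (d * R₀)) + 16 * (1 * (d * R₀)) := by ring
    rw [e4]
    linarith
  refine ⟨d * R₀, v, hqv, b, s, (2 * L (j + 1) - L j - L (j + 2)) / 8,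
    u (pt z) + M * (nr (w - z) / 2) - M * ip v ((1 / 2 : ℂ) • (z + w)), hdR0, by nlinarith,
    by linarith, by linarith, u, u', by rw [hu, hω, hc']; rfl, by rw [hu', hξ, hc']; rfl,
    fun g hg => ?_, fun g t ht ht1 hg hg1 => ?_, fun g t ht ht1 hg hg1 h1 h2 => ?_⟩
  · have k5 := (hinc' (pt z) g (by rw [hzz]; linarith) (by linarith)).1
    have k6 := (hinc' g (pt w) (by linarith) (by rw [hzw]; linarith)).2
    rw [hzz] at k5
    rw [hzw, ← nr_neg, neg_sub] at k6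
    obtain ⟨t1, t2⟩ := two_sided hM0.le hd0 hd8 hR0 hmid hlen hg g1 g2 g3 (g4 g) k5 k6
    rw [← hv] at t2
    have t3 : 16 * (1 + M) * d ^ 2 * R₀ ≤ d₁ * (d * R₀) := by
      have t4 := mul_le_mul_of_nonneg_right hdd hdR0.le
      linarith
    rw [← hM]
    exact ⟨t1.trans t3, t2.trans t3⟩
  · have k1 := hfl g t ht ht1 hg
    obtain ⟨k2, k3⟩ := hinc' g (Kak.flow v hqv t * g) (by linarith) (by linarith)
    have k4 : (M + d ^ 2) * nr (zc (Kak.flow v hqv t * g) - zc g) ≤ (M + d₁) * t := by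
      refine (mul_le_mul_of_nonneg_left k1 hMd).trans ?_
      rw [← mul_assoc]
      exact mul_le_mul_of_nonneg_right hcoef ht
    rw [← hM]
    exact ⟨k2.trans k4, k3.trans k4⟩
  · have k1 := hfl g t ht.le ht1 hg
    rw [hM] at hstep'
    refine hstep' g (Kak.flow v hqv t * g) t (by linarith) (by linarith) ht (k1.trans ?_) h1 h2
    exact mul_le_mul_of_nonneg_right (by linarith) ht.le

end Pool.Agent.Lib.MP_5d4057_al.IN
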