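import Pool.Agent.Lib.MP_5d4057_al.IN.LimC
import Pool.Agent.Lib.MP_5d4057_al.IN.StrD
import Pool.Agent.Lib.MP_5d4057_al.IN.StrE
import Pool.Agent.Lib.MP_5d4057_al.IN.PersC
import Pool.Agent.Lib.MP_5d4057_al.IN.OrthD

/-! The structure theorem (Theorem S). -/

namespace Pool.Agent.Lib.MP_5d4057_al.IN

open Matrix MeasureTheory Filter Topology Module Pool.Agent.Lib.MP_5d4057_al
  Pool.Agent.Lib.MP_5d4057_al.Hyb Pool.Agent.Lib.MP_5d4057_al.HM

variable {n : ℕ} {k : Type} [NontriviallyNormedField k] [IsUltrametricDist k] [ProperSpace k]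
  {V : Type} [AddCommGroup V] [Module k V] [FiniteDimensional k V]

variable {f : SUGroup n → Nm k V} {p : V →ₗ[k] V}

/-- Theorem S at the base point. Proof: `exists_slopes`; if some `L j > 0`: `exists_gap`, `exists_data` with
the `d₁` of `persist` (`L = L (j+1)`, `c = (2 L (j+1) - L j - L (j+2))/16`), `persist` with `u`, `u'`: the
defect vanishes for `nr (zc g) ≤ rr/8`, so `prj b s` is orthogonal for `rs p (f g)` (`orth_of_defect`,
`rs_ext`, `rs_dual`), `p₁ = sbp p (prj b s)`, `p₂ = sbp p (1 - prj b s)` (`OrthP.sbp`, `isBlk_sbp`);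
`av p₁ (f g) = log (..) + C` (`av_sbp_prj`), `u = av p₁ ∘ f - ip c' (zc) + const`, and
`av p (f g) = ip c (zc g) + o(nr (zc g))` (`lin`), so the increments of
`av p₁ ∘ f - (rk p₁/rk p) av p ∘ f` along the flow are `≥ (L/2) t - o(t) ≥ (L/4) t`. -/
theorem strS_one (hn : 1 ≤ n) (h : LimC f) (hp : IsBlk p) {r₀ : ℝ} (hr₀ : 0 < r₀)
    (horth : ∀ g, nr (zc g) < r₀ → OrthP (f g) p) :
    ZeroSlope f p 1 ∨ ∃ p₁ p₂ : V →ₗ[k] V, IsBlk p₁ ∧ IsBlk p₂ ∧ p₁ + p₂ = p ∧ p₁ ∘ₗ p₂ = 0 ∧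
      p₂ ∘ₗ p₁ = 0 ∧ (∃ r : ℝ, 0 < r ∧ ∀ g, nr (zc g) < r → OrthP (f g) p₁ ∧ OrthP (f g) p₂) ∧
      ∃ (v : Fin n → ℂ) (hv : Kak.nq v = 1) (c t₀ : ℝ), 0 < c ∧ 0 < t₀ ∧ ∀ t, 0 ≤ t → t ≤ t₀ →
        c * t ≤ av p₁ (f (Kak.flow v hv t)) - (rk p₁ : ℝ) / rk p * av p (f (Kak.flow v hv t)) -
          (av p₁ (f 1) - (rk p₁ : ℝ) / rk p * av p (f 1)) := by
  classical
  obtain ⟨c, L, hS⟩ := h.exists_slopes hn hp hr₀ horth
  by_cases hz : ∀ j : ℕ, j ≤ rk p → L j ≤ 0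
  · exact Or.inl (hS.zeroSlope hn h hp hr₀ horth hz)
  right
  push Not at hz
  obtain ⟨i, hi, hLi⟩ := hz
  obtain ⟨j, hj, hgap, hpos⟩ := exists_gap hS.zero hS.top hS.nonneg hi hLi
  have hrk := hp.rk_pos
  have hrk' : (0 : ℝ) < rk p := by exact_mod_cast hrk
  have hcc : 0 < (2 * L (j + 1) - L j - L (j + 2)) / 16 := by linarith
  obtain ⟨d₁, hd₁, hpers⟩ := persist hn hpos hcc
  obtain ⟨rr, v, hv, b, s, Λ, u₀, hrr, hrrd, hrr2, hΛ, u, u', hu, hu', hA, hB, hC⟩ :=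
    h.exists_data hn hp hr₀ horth hS hj hgap hpos hd₁
  have hξω : ((b.exteriorPower (j + 1)).coord s) (b.exteriorPower (j + 1) s) = 1 := by
    rw [Basis.coord_apply, Basis.repr_self, Finsupp.single_eq_same]
  obtain ⟨cu, cu', su, su', nn⟩ := h.uF_uD hn hp hξω
    (fun i => ((((j : ℝ) + 1) / rk p : ℝ) : ℂ) * c i)
  rw [← hu] at cu su
  rw [← hu'] at cu' su'
  have nn' : ∀ g, 0 ≤ u g + u' g := fun g => by
    rw [hu, hu']
    exact nn g
  obtain ⟨hdef, t₀, ht₀, hinc⟩ := hpers rr hrr hrrd v hv u u' Λ u₀ hΛ cu cu' su su' nn' hA hB hC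
  obtain ⟨q, hq⟩ : ∃ q, q = prj b s.1 := ⟨_, rfl⟩
  have hqq : q ∘ₗ q = q := by rw [hq]; exact prj_idem b s.1
  have hcard : s.1.card = j + 1 := s.2
  have hfr : finrank k (LinearMap.range q) = j + 1 := by
    rw [hq, finrank_range_prj, hcard]
  have hq0 : q ≠ 0 := by
    intro h0
    rw [h0, LinearMap.range_zero, finrank_bot] at hfr
    omega
  have hq1 : LinearMap.id - q ≠ 0 := by
    intro h0
    have h1 : q = LinearMap.id := (sub_eq_zero.1 h0).symm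
    rw [h1, LinearMap.range_id, finrank_top] at hfr
    have h2 : finrank k (LinearMap.range p) = rk p := rfl
    omega
  have hqq1 : (LinearMap.id - q) ∘ₗ (LinearMap.id - q) = LinearMap.id - q := by
    ext x
    have h1 : q (q x) = q x := LinearMap.congr_fun hqq x
    simp [h1]
  have hub : ∀ g, u g = Real.log ((rs p (f g)).ext (j + 1) (b.exteriorPower (j + 1) s)) -
      ((j : ℝ) + 1) / rk p * ip c (zc g) := fun g => by
    rw [hu, uF, rs_ext]
    congr 1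
    rw [ip_comm, show (fun i => ((((j : ℝ) + 1) / rk p : ℝ) : ℂ) * c i) =
      ((((j : ℝ) + 1) / rk p : ℝ) : ℂ) • c from rfl, ip_smul, ip_comm]
  have hud : ∀ g, OrthP (f g) p → u' g =
      lop ((b.exteriorPower (j + 1)).coord s) ((rs p (f g)).ext (j + 1)) (Nm.abs k) +
      ((j : ℝ) + 1) / rk p * ip c (zc g) := fun g hg => by
    rw [hu', uD, rs_dual hp hg]
    congr 1
    rw [ip_comm, show (fun i => ((((j : ℝ) + 1) / rk p : ℝ) : ℂ) * c i) =
      ((((j : ℝ) + 1) / rk p : ℝ) : ℂ) • c from rfl, ip_smul, ip_comm]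
  have horq : ∀ g, nr (zc g) < rr / 8 → OrthP (rs p (f g)) q := by
    intro g hg
    have hg1 : OrthP (f g) p := horth g (by linarith)
    have h1 := hdef g hg.le
    rw [hub g, hud g hg1] at h1
    intro x
    rw [hq]
    exact orth_of_defect s (by linarith) x
  refine ⟨sbp p q, sbp p (LinearMap.id - q), isBlk_sbp hp hqq hq0, isBlk_sbp hp hqq1 hq1,
    sbp_add hp q, (sbp_comp hp hqq).1, (sbp_comp hp hqq).2, ⟨rr / 8, by positivity, fun g hg => ?_⟩, ?_⟩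
  · exact OrthP.sbp hp (horth g (by linarith)) (horq g hg)
  obtain ⟨C, hCav⟩ := av_sbp_prj hp b s
  have hrk1 : (rk (sbp p q) : ℝ) = (j : ℝ) + 1 := by
    rw [rk_sbp hp q, hfr]
    push_cast
    rfl
  obtain ⟨r, hr, hlin⟩ := hS.lin (L (j + 1) / 4) (by positivity)
  refine ⟨v, hv, L (j + 1) / 4, min t₀ r, by positivity, lt_min ht₀ hr, fun t ht htm => ?_⟩
  have ht1 : t ≤ t₀ := htm.trans (min_le_left _ _)
  have ht2 : t ≤ r := htm.trans (min_le_right _ _)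
  obtain ⟨F, hF⟩ : ∃ F, F = Kak.flow v hv t := ⟨_, rfl⟩
  have hzF : nr (zc F) ≤ t := by
    have h1 := sqrt_hq_le_log F
    have h2 : Real.log (wt F) = t := by rw [hF, Kak.wt_flow hv ht, Real.log_exp]
    rw [h2, ← nr_zc_sq, Real.sqrt_sq (nr_nonneg _)] at h1
    exact h1
  have hz1 : zc (1 : SUGroup n) = 0 := by
    rw [← pt_zero, zc_pt]
    rw [nr_zero]
    exact one_pos
  have hfF : f (pt (zc F)) = f F := by
    obtain ⟨x, hx, e⟩ := exists_K (g := pt (zc F)) (h := F) (zc_pt (nr_zc_lt F))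
    rw [e, h.kinv _ _ hx, ← e]
  have h1 := hlin 0 (zc F) (by rw [nr_zero]; exact hr.le) (hzF.trans ht2)
  rw [pt_zero, hfF, sub_zero] at h1
  have h2 := hinc t ht ht1
  rw [← hF, hub F, hub 1, hz1] at h2
  have h3 : ip c (0 : Fin n → ℂ) = 0 := by
    have h4 := ip_smul c 0 (0 : Fin n → ℂ)
    rw [zero_mul, Complex.ofReal_zero, zero_smul] at h4
    exact h4
  rw [h3, mul_zero, sub_zero] at h2
  have h4 := hCav (f F)
  have h5 := hCav (f 1)
  rw [← hq] at h4 h5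
  rw [← hF, hrk1, h4, h5]
  have h6 : ((j : ℝ) + 1) / rk p ≤ 1 := by
    rw [div_le_one hrk']
    have : j + 1 ≤ rk p := by omega
    exact_mod_cast this
  have h7 : 0 ≤ ((j : ℝ) + 1) / rk p := by positivity
  have h8 : ((j : ℝ) + 1) / rk p * (av p (f F) - av p (f 1) - ip c (zc F)) ≤
      L (j + 1) / 4 * t := by
    have h9 := (abs_le.1 h1).2
    have h10 : L (j + 1) / 4 * nr (zc F) ≤ L (j + 1) / 4 * t :=
      mul_le_mul_of_nonneg_left hzF (by positivity)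
    have h11 : 0 ≤ L (j + 1) / 4 * t := by positivity
    calc ((j : ℝ) + 1) / rk p * (av p (f F) - av p (f 1) - ip c (zc F))
        ≤ ((j : ℝ) + 1) / rk p * (L (j + 1) / 4 * t) :=
          mul_le_mul_of_nonneg_left (h9.trans h10) h7
      _ ≤ 1 * (L (j + 1) / 4 * t) := mul_le_mul_of_nonneg_right h6 h11
      _ = _ := one_mul _
  nlinarith

end Pool.Agent.Lib.MP_5d4057_al.IN
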