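import Pool.Agent.Lib.MP_5d4057_al.IN.GdA
import Pool.Agent.Lib.MP_5d4057_al.IN.StrS
import Pool.Agent.Lib.MP_5d4057_al.IN.Fun
import Pool.Agent.Lib.MP_5d4057_al.IN.DDef
import Pool.Agent.Lib.MP_5d4057_al.HM.GreenA
import Pool.Agent.Lib.MP_5d4057_al.NU.VanK

/-!
# INT, from C to D: functions on the cone, zero slope, homogeneous functions
-/

namespace Pool.Agent.Lib.MP_5d4057_al.IN

open Matrix MeasureTheory Filter Topology Module Pool.Agent.Lib.MP_5d4057_al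
  Pool.Agent.Lib.MP_5d4057_al.Hyb Pool.Agent.Lib.MP_5d4057_al.HM

variable {n : ℕ}

/-! ### Homogeneous functions -/

section homog

variable {E : Type} [NormedAddCommGroup E] [NormedSpace ℝ E]

theorem contDiffAt_smul_loc {f : Vec n → E} (hf : Homog f) {c : ℂ} (hc : c ≠ 0) {v : Vec n}
    (hv : v ∈ Cone n) {m : WithTop ℕ∞} (hd : ContDiffAt ℝ m f v) : ContDiffAt ℝ m f (c • v) := by
  have hcv : c • v ∈ Cone n := smul_mem_cone hc hv
  have h1 : ContDiffAt ℝ m (fun u => f (smulL n c⁻¹ u)) (c • v) := by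
    refine ContDiffAt.comp (g := f) (f := fun u => smulL n c⁻¹ u) (c • v) ?_
      (smulL n c⁻¹).contDiff.contDiffAt
    rw [smulL_apply, smul_smul, inv_mul_cancel₀ hc, one_smul]
    exact hd
  refine h1.congr_of_eventuallyEq ?_
  filter_upwards [(isOpen_cone n).mem_nhds hcv] with u hu
  exact (hf _ (inv_ne_zero hc) u hu).symm

theorem fderiv_smul_loc {f : Vec n → E} (hf : Homog f) {c : ℂ} (hc : c ≠ 0) {v : Vec n}
    (hv : v ∈ Cone n) (hd : DifferentiableAt ℝ f v) (ξ : Vec n) :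
    fderiv ℝ f v ξ = fderiv ℝ f (c • v) (c • ξ) := by
  have hcv : c • v ∈ Cone n := smul_mem_cone hc hv
  have h1 : HasFDerivAt (fun u => f (smulL n c⁻¹ u)) ((fderiv ℝ f v).comp (smulL n c⁻¹)) (c • v) := by
    have h2 : HasFDerivAt f (fderiv ℝ f v) (smulL n c⁻¹ (c • v)) := by
      rw [smulL_apply, smul_smul, inv_mul_cancel₀ hc, one_smul]
      exact hd.hasFDerivAt
    exact h2.comp (c • v) (smulL n c⁻¹).hasFDerivAt
  have h3 : HasFDerivAt f ((fderiv ℝ f v).comp (smulL n c⁻¹)) (c • v) := by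
    refine h1.congr_of_eventuallyEq ?_
    filter_upwards [(isOpen_cone n).mem_nhds hcv] with u hu
    exact (hf _ (inv_ne_zero hc) u hu).symm
  rw [h3.fderiv, ContinuousLinearMap.comp_apply, smulL_apply, smul_smul, inv_mul_cancel₀ hc,
    one_smul]

theorem gr_smul_two_loc {f : Vec n → E} (hf : Homog f) {c : ℂ} (hcn : c ≠ 0) {v : Vec n}
    (hv : v ∈ Cone n) (hd : ContDiffAt ℝ 2 f v) (ξ η : Vec n) :
    fderiv ℝ (fderiv ℝ f) (c • v) ξ η = fderiv ℝ (fderiv ℝ f) v (c⁻¹ • ξ) (c⁻¹ • η) := by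
  have hcv : c • v ∈ Cone n := smul_mem_cone hcn hv
  have h1 : fderiv ℝ (fderiv ℝ fun u => f (smulL n c⁻¹ u)) (c • v) ξ η =
      fderiv ℝ (fderiv ℝ f) (smulL n c⁻¹ (c • v)) (smulL n c⁻¹ ξ) (smulL n c⁻¹ η) := by
    refine fderiv_two_comp (smulL n c⁻¹) ?_ ξ η
    rw [smulL_apply, smul_smul, inv_mul_cancel₀ hcn, one_smul]
    exact hd
  rw [smulL_apply, smulL_apply, smulL_apply, smul_smul, inv_mul_cancel₀ hcn, one_smul] at h1
  rw [← h1]
  have h2 : (fun u => f (smulL n c⁻¹ u)) =ᶠ[𝓝 (c • v)] f := by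
    filter_upwards [(isOpen_cone n).mem_nhds hcv] with u hu
    exact hf _ (inv_ne_zero hcn) u hu
  rw [(h2.fderiv (𝕜 := ℝ)).fderiv_eq]

theorem lap_smul_loc {f : Vec n → E} (hf : Homog f) {c : ℂ} (hcn : c ≠ 0) {v : Vec n}
    (hv : v ∈ Cone n) (hdd : ContDiffAt ℝ 2 f v) : Lap f (c • v) = Lap f v := by
  have hsing : ∀ (k : Fin (n + 1)) (d : ℂ), (Pi.single k d : Vec n) =
      d.re • (Pi.single k 1 : Vec n) + d.im • (Pi.single k Complex.I : Vec n) := by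
    intro k d
    rw [← Pi.single_smul, ← Pi.single_smul, ← Pi.single_add]
    congr 1
    rw [Complex.real_smul, Complex.real_smul, mul_one]
    exact (Complex.re_add_im d).symm
  obtain ⟨d, hd⟩ : ∃ d : ℂ, d = c⁻¹ := ⟨_, rfl⟩
  have key : ∀ i : Fin (n + 1), fderiv ℝ (fderiv ℝ f) (c • v) (Pi.single i 1) (Pi.single i 1) +
      fderiv ℝ (fderiv ℝ f) (c • v) (Pi.single i Complex.I) (Pi.single i Complex.I) =
      (d.re ^ 2 + d.im ^ 2) • (fderiv ℝ (fderiv ℝ f) v (Pi.single i 1) (Pi.single i 1) +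
      fderiv ℝ (fderiv ℝ f) v (Pi.single i Complex.I) (Pi.single i Complex.I)) := by
    intro i
    rw [gr_smul_two_loc hf hcn hv hdd, gr_smul_two_loc hf hcn hv hdd, ← hd, ← Pi.single_smul,
      ← Pi.single_smul, smul_eq_mul, smul_eq_mul, mul_one, hsing i d, hsing i (d * Complex.I)]
    have e1 : (d * Complex.I).re = - d.im := by simp
    have e2 : (d * Complex.I).im = d.re := by simp
    rw [e1, e2]
    simp only [map_add, map_smul, _root_.add_apply, _root_.smul_apply]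
    module
  have hN : ‖c‖ ^ 2 * (d.re ^ 2 + d.im ^ 2) = 1 := by
    have h1 : d.re ^ 2 + d.im ^ 2 = ‖d‖ ^ 2 := by
      rw [← Complex.normSq_eq_norm_sq, Complex.normSq_apply]
      ring
    rw [h1, ← mul_pow, hd, norm_inv, mul_inv_cancel₀ (norm_ne_zero_iff.2 hcn), one_pow]
  unfold Lap
  rw [q_smul]
  simp only [key]
  rw [Finset.smul_sum, Finset.smul_sum]
  refine Finset.sum_congr rfl fun i _ => ?_
  rw [smul_smul, smul_smul, smul_smul]
  congr 1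
  calc -(‖c‖ ^ 2 * q v) / 4 * (J n i i).re * (d.re ^ 2 + d.im ^ 2)
      = (‖c‖ ^ 2 * (d.re ^ 2 + d.im ^ 2)) * (-q v / 4 * (J n i i).re) := by ring
    _ = -q v / 4 * (J n i i).re := by rw [hN, one_mul]

end homog

/-! ### The distance and the Euclidean norm -/

theorem q_add (v w : Vec n) : q (v + w) = q v + 2 * (herm v w).re + q w := by
  have h : (q (v + w) : ℂ) = q v + herm v w + herm w v + q w := by
    rw [← herm_self, ← herm_self, ← herm_self, herm_add_right, herm_add_left, herm_add_left]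
    ring
  have h1 := congrArg Complex.re h
  rw [herm_comm v w] at h1
  simp only [Complex.add_re, Complex.ofReal_re, Complex.star_def, Complex.conj_re] at h1
  linarith

theorem gram_eq (v w : Vec n) :
    ‖herm v w‖ ^ 2 - q v * q w = ‖herm v (w - v)‖ ^ 2 - q v * q (w - v) := by
  obtain ⟨d, hd⟩ : ∃ d, d = w - v := ⟨_, rfl⟩
  have hw : w = v + d := by rw [hd]; abel
  rw [← hd, hw, herm_add_right, herm_self, q_add]
  have e : ∀ (a : ℝ) (z : ℂ), ‖(a : ℂ) + z‖ ^ 2 = a ^ 2 + 2 * a * z.re + ‖z‖ ^ 2 := by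
    intro a z
    rw [← Complex.normSq_eq_norm_sq, ← Complex.normSq_eq_norm_sq, Complex.normSq_apply,
      Complex.normSq_apply]
    simp only [Complex.add_re, Complex.ofReal_re, Complex.add_im, Complex.ofReal_im]
    ring
  rw [e]
  ring

theorem hq_sec {v w : Vec n} (hv : v ∈ Cone n) (hw : w ∈ Cone n) :
    hq ((sec n v)⁻¹ * sec n w) = (‖herm v (w - v)‖ ^ 2 - q v * q (w - v)) / ‖herm v w‖ ^ 2 ∧
      q v * q w ≤ ‖herm v w‖ ^ 2 := by
  obtain ⟨c, hc, h1⟩ := sec_spec hv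
  obtain ⟨d, hd, h2⟩ := sec_spec hw
  have hc0 : 0 < ‖c‖ ^ 2 := pow_pos (norm_pos_iff.2 hc) 2
  have hd0 : 0 < ‖d‖ ^ 2 := pow_pos (norm_pos_iff.2 hd) 2
  obtain ⟨s, hs⟩ : ∃ s, s = sec n v := ⟨_, rfl⟩
  obtain ⟨t, ht⟩ : ∃ t, t = sec n w := ⟨_, rfl⟩
  rw [← hs] at h1 ⊢
  rw [← ht] at h2 ⊢
  have hch := one_le_ch (s⁻¹ * t)
  have e1 : ‖herm v w‖ ^ 2 = ‖c‖ ^ 2 * ‖d‖ ^ 2 * ch (s⁻¹ * t) ^ 2 := by
    rw [h1, h2, herm_smul_right, herm_smul_left, norm_mul, norm_mul, norm_star, norm_herm_orbit]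
    ring
  have e2 : q v = -‖c‖ ^ 2 := by rw [h1, q_smul, q_orbit]; ring
  have e3 : q w = -‖d‖ ^ 2 := by rw [h2, q_smul, q_orbit]; ring
  rw [← gram_eq, hq, e1, e2, e3]
  have hcp : 0 < ch (s⁻¹ * t) ^ 2 := by positivity
  constructor
  · field_simp
  · have h3 : (1 : ℝ) ≤ ch (s⁻¹ * t) ^ 2 := one_le_pow₀ hch
    have h4 : 0 < ‖c‖ ^ 2 * ‖d‖ ^ 2 := by positivity
    nlinarith

/-- Comparison of `dd` with the Euclidean distance. -/
theorem hq_sec_le {v₀ : Vec n} (hv₀ : v₀ ∈ Cone n) : ∃ C : ℝ, 0 < C ∧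
    ∀ᶠ p : Vec n × Vec n in 𝓝 (v₀, v₀), p.1 ∈ Cone n ∧ p.2 ∈ Cone n ∧
      hq ((sec n p.1)⁻¹ * sec n p.2) ≤ C * ‖p.1 - p.2‖ ^ 2 := by
  have hq0 : q v₀ < 0 := hv₀
  obtain ⟨m, hm⟩ : ∃ m : ℝ, m = -q v₀ / 2 := ⟨_, rfl⟩
  have hm0 : 0 < m := by rw [hm]; linarith
  obtain ⟨R, hR⟩ : ∃ R : ℝ, R = ‖v₀‖ + 1 := ⟨_, rfl⟩
  have hR0 : 0 < R := by rw [hR]; have := norm_nonneg v₀; linarith
  refine ⟨((((n : ℝ) + 1) * R) ^ 2 + ((n : ℝ) + 1) * R ^ 2 * ((n : ℝ) + 1)) / m ^ 2, by positivity, ?_⟩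
  have e1 : ∀ᶠ v : Vec n in 𝓝 v₀, q v < -m := by
    refine (gr_q.continuousAt.eventually_lt continuousAt_const ?_)
    rw [hm]
    linarith
  have e2 : ∀ᶠ v : Vec n in 𝓝 v₀, ‖v‖ < R := by
    refine (continuous_norm.continuousAt.eventually_lt continuousAt_const ?_)
    rw [hR]
    linarith
  have e3 := (e1.and e2).prod_nhds (e1.and e2)
  filter_upwards [e3] with p hp
  obtain ⟨⟨h1, h2⟩, h3, h4⟩ := hp
  obtain ⟨v, w⟩ := p
  simp only at h1 h2 h3 h4 ⊢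
  have hv : v ∈ Cone n := by show q v < 0; linarith
  have hw : w ∈ Cone n := by show q w < 0; linarith
  refine ⟨hv, hw, ?_⟩
  obtain ⟨f1, f2⟩ := hq_sec hv hw
  have hA : m ^ 2 ≤ ‖herm v w‖ ^ 2 := by nlinarith
  have b1 : ‖herm v (w - v)‖ ≤ ((n : ℝ) + 1) * R * ‖v - w‖ := by
    refine (NU.norm_herm_le _ _).trans ?_
    rw [norm_sub_rev]
    gcongr
  have b2 : |q v| ≤ ((n : ℝ) + 1) * R ^ 2 := by
    have h5 := NU.norm_herm_le v v
    rw [herm_self, Complex.norm_real, Real.norm_eq_abs] at h5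
    refine h5.trans ?_
    rw [mul_assoc, ← sq]
    gcongr
  have b3 : |q (w - v)| ≤ ((n : ℝ) + 1) * ‖v - w‖ ^ 2 := by
    have h5 := NU.norm_herm_le (w - v) (w - v)
    rw [herm_self, Complex.norm_real, Real.norm_eq_abs, norm_sub_rev] at h5
    refine h5.trans (le_of_eq ?_)
    ring
  have b4 : -(q v * q (w - v)) ≤ ((n : ℝ) + 1) * R ^ 2 * (((n : ℝ) + 1) * ‖v - w‖ ^ 2) := by
    refine (neg_le_abs _).trans ?_
    rw [abs_mul]
    exact mul_le_mul b2 b3 (abs_nonneg _) (by positivity)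
  have b5 : ‖herm v (w - v)‖ ^ 2 ≤ (((n : ℝ) + 1) * R * ‖v - w‖) ^ 2 :=
    pow_le_pow_left₀ (norm_nonneg _) b1 2
  rw [f1, div_le_iff₀ (lt_of_lt_of_le (by positivity) hA)]
  have hnum : ‖herm v (w - v)‖ ^ 2 - q v * q (w - v) ≤
      ((((n : ℝ) + 1) * R) ^ 2 + ((n : ℝ) + 1) * R ^ 2 * ((n : ℝ) + 1)) * ‖v - w‖ ^ 2 := by
    nlinarith
  calc ‖herm v (w - v)‖ ^ 2 - q v * q (w - v) ≤
        ((((n : ℝ) + 1) * R) ^ 2 + ((n : ℝ) + 1) * R ^ 2 * ((n : ℝ) + 1)) * ‖v - w‖ ^ 2 := hnum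
    _ = ((((n : ℝ) + 1) * R) ^ 2 + ((n : ℝ) + 1) * R ^ 2 * ((n : ℝ) + 1)) / m ^ 2 * ‖v - w‖ ^ 2 *
          m ^ 2 := by field_simp
    _ ≤ _ := mul_le_mul_of_nonneg_left hA (by positivity)

/-! ### Functions of the limit map -/

variable {k : Type} [NontriviallyNormedField k] [IsUltrametricDist k] [ProperSpace k]
  {V : Type} [AddCommGroup V] [Module k V] [FiniteDimensional k V]
  {f : SUGroup n → Nm k V} {p : V →ₗ[k] V}

/-- Lipschitz functions of the limit map are admissible functions on the cone. -/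
theorem fn_of_lip (hc : Continuous f) (hk : ∀ g h : SUGroup n, ch h = 1 → f (g * h) = f g)
    {N₀ : Nm k V} {C : ℝ} (hg : Lg C N₀ f) {φ : Nm k V → ℝ} {K : ℝ} (hK : 0 ≤ K)
    (hφ : ∀ N N', |φ N - φ N'| ≤ K * dist N N') : D.Fn fun v => φ (f (sec n v)) := by
  have hφc : Continuous φ := by
    refine (LipschitzWith.of_dist_le_mul (K := ⟨K, hK⟩) fun a b => ?_).continuous
    rw [Real.dist_eq]
    exact hφ a b
  obtain ⟨h1, h2⟩ := exists_cone (u := fun g => φ (f g)) fun g k hk' => by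
    show φ (f (g * k)) = φ (f g)
    rw [hk g k hk']
  refine ⟨h1, continuousOn_sec (hφc.comp hc), 1, |φ N₀| + K * (C * 3), ⟨?_, fun g => ?_⟩⟩
  · have e : (fun y : SUGroup n => φ (f (sec n (act y (base n))))) = fun g => φ (f g) := funext h2
    rw [e]
    exact (hφc.comp hc).aestronglyMeasurable
  · have e : φ (f (sec n (act g (base n)))) = φ (f g) := h2 g
    rw [e, Real.norm_eq_abs]
    have hC : 0 ≤ C := by
      have h3 := (dist_nonneg).trans (hg 1)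
      rwa [wt_one, Real.log_one, add_zero, mul_one] at h3
    have h3 : |φ (f g)| ≤ |φ N₀| + K * dist N₀ (f g) := by
      have h4 := hφ (f g) N₀
      rw [dist_comm] at h4
      calc |φ (f g)| = |φ N₀ + (φ (f g) - φ N₀)| := by rw [add_sub_cancel]
        _ ≤ |φ N₀| + |φ (f g) - φ N₀| := abs_add_le _ _
        _ ≤ _ := by linarith
    have h4 := hg g
    have h5 : 1 + Real.log (wt g) ≤ 3 * ch g ^ (2 * 1) := by
      have h6 := Real.log_le_sub_one_of_pos (lt_of_lt_of_le one_pos (one_le_wt g))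
      have h7 := wt_le g
      have h8 := one_le_ch g
      have h9 : ch g ^ (2 * 1) = ch g * ch g := by ring
      rw [h9]
      nlinarith
    have h6 : (1 : ℝ) ≤ ch g ^ (2 * 1) := one_le_pow₀ (one_le_ch g)
    have h7 : K * dist N₀ (f g) ≤ K * (C * (3 * ch g ^ (2 * 1))) :=
      mul_le_mul_of_nonneg_left (h4.trans (mul_le_mul_of_nonneg_left h5 hC)) hK
    have h8 : |φ N₀| ≤ |φ N₀| * ch g ^ (2 * 1) := le_mul_of_one_le_right (abs_nonneg _) h6
    calc |φ (f g)| ≤ |φ N₀| * ch g ^ (2 * 1) + K * (C * (3 * ch g ^ (2 * 1))) := by linarith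
      _ = _ := by ring

/-- Zero slope in the sense of part D from zero slope on the group. -/
theorem zeroSlope_cone (hp : IsBlk p) {v₀ : Vec n} (hv₀ : v₀ ∈ Cone n)
    (h : ZeroSlope f p (sec n v₀)) :
    D.ZeroSlope (fun v w => phn p (f (sec n v)) (f (sec n w))) v₀ := by
  intro ε hε
  obtain ⟨C, hC, he⟩ := hq_sec_le hv₀
  have hr : (0 : ℝ) < rk p := by exact_mod_cast hp.rk_pos
  obtain ⟨δ, hδ, hδ2⟩ : ∃ δ : ℝ, 0 < δ ∧ (rk p : ℝ) * (δ ^ 2 * C) ≤ ε := by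
    refine ⟨Real.sqrt (ε / (rk p * C)), Real.sqrt_pos.2 (by positivity), ?_⟩
    rw [Real.sq_sqrt (by positivity)]
    exact le_of_eq (by field_simp)
  obtain ⟨r, hr0, hs⟩ := h δ hδ
  have hcont : ContinuousAt (fun v => hq ((sec n v₀)⁻¹ * sec n v)) v₀ := by
    have h1 := (continuousOn_sec (n := n) (u := fun g => hq ((sec n v₀)⁻¹ * g))
      (continuous_hq.comp (continuous_const.mul continuous_id)))
    exact h1.continuousAt ((isOpen_cone n).mem_nhds hv₀)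
  have hz : hq ((sec n v₀)⁻¹ * sec n v₀) = 0 := by
    rw [inv_mul_cancel, hq, ch_one]
    norm_num
  have e1 : ∀ᶠ v : Vec n in 𝓝 v₀, hq ((sec n v₀)⁻¹ * sec n v) < r ^ 2 := by
    refine hcont.eventually_lt continuousAt_const ?_
    rw [hz]
    positivity
  filter_upwards [he, e1.prod_nhds e1] with q hq1 hq2
  obtain ⟨v, w⟩ := q
  obtain ⟨hv, hw, hle⟩ := hq1
  obtain ⟨hv1, hw1⟩ := hq2
  simp only at hv hw hle hv1 hw1 ⊢
  have h1 := hs ((sec n v₀)⁻¹ * sec n v) ((sec n v₀)⁻¹ * sec n w) hv1.le hw1.le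
  rw [mul_inv_cancel_left, mul_inv_cancel_left] at h1
  have h2 : dd ((sec n v₀)⁻¹ * sec n v) ((sec n v₀)⁻¹ * sec n w) ≤ Real.sqrt C * ‖v - w‖ := by
    have e : ((sec n v₀)⁻¹ * sec n v)⁻¹ * ((sec n v₀)⁻¹ * sec n w) = (sec n v)⁻¹ * sec n w := by
      group
    rw [dd, e]
    refine Real.sqrt_le_iff.2 ⟨by positivity, ?_⟩
    rw [mul_pow, Real.sq_sqrt hC.le]
    exact hle
  refine (phn_le hp (e := δ * (Real.sqrt C * ‖v - w‖)) fun j hj => ?_).trans ?_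
  · exact (h1 j hj).trans (mul_le_mul_of_nonneg_left h2 hδ.le)
  · have e : (rk p : ℝ) * (δ * (Real.sqrt C * ‖v - w‖)) ^ 2 =
        (rk p * (δ ^ 2 * C)) * ‖v - w‖ ^ 2 := by
      rw [mul_pow, mul_pow, Real.sq_sqrt hC.le]
      ring
    rw [e]
    exact mul_le_mul_of_nonneg_right hδ2 (by positivity)

end Pool.Agent.Lib.MP_5d4057_al.IN
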