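import Pool.Agent.Lib.MP_5d4057_al.IN.FlD

/-! The global argument (D6) for lattices, abstract form: an invariant nonnegative second order form of
finite mass vanishes. -/

namespace Pool.Agent.Lib.MP_5d4057_al.IN

open Matrix MeasureTheory Filter Topology Pool.Agent.Lib.MP_5d4057_al
  Pool.Agent.Lib.MP_5d4057_al.Hyb Pool.Agent.Lib.MP_5d4057_al.HM
  Pool.Agent.Lib.MP_5d4057_al.NU

open scoped ComplexOrder MatrixOrder Matrix.Norms.L2Operator ENNReal

variable {n : ℕ} {ι : Type} [Fintype ι] {b : ι → ℝ → SUGroup n} {Γ : Subgroup (SUGroup n)}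
  {χ : SUGroup n → ℝ}

/-- The second order expression. -/
noncomputable def sx (b : ι → ℝ → SUGroup n) (s : ι → ι → SUGroup n → ℝ) (φ : SUGroup n → ℝ)
    (g : SUGroup n) : ℝ := ∑ c, ∑ d, s c d g * XD (b d) (XD (b c) φ) g

/-- The second order form. -/
noncomputable def siu (b : ι → ℝ → SUGroup n) (s : ι → ι → SUGroup n → ℝ) (φ : SUGroup n → ℝ) : ℝ :=
  ∫ g, sx b s φ g ∂(mu n)

/-- A class of smooth functions on the group. -/
structure Cl (b : ι → ℝ → SUGroup n) (Γ : Subgroup (SUGroup n)) (Sm : (SUGroup n → ℝ) → Prop) :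
    Prop where
  c2 : ∀ φ, Sm φ → C2 b φ
  const : ∀ a : ℝ, Sm fun _ => a
  add : ∀ φ ψ, Sm φ → Sm ψ → Sm fun g => φ g + ψ g
  mul : ∀ φ ψ, Sm φ → Sm ψ → Sm fun g => φ g * ψ g
  inv : ∀ φ, Sm φ → (∀ g, φ g ≠ 0) → Sm fun g => (φ g)⁻¹
  gs : ∀ φ, Sm φ → HasCompactSupport φ → Sm (gs Γ φ)

/-- The largest class. -/
theorem cl_C2 (hb : Fl b) (hd : DiscreteTopology Γ) : Cl b Γ (C2 b) :=
  ⟨fun _ h => h, fun a => C2.const hb a, fun _ _ h h' => (h.add h').1, fun _ _ h h' => h.mul hb h',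
    fun _ h h0 => h.inv hb h0, fun _ h hs => (h.gs hb hd hs).1⟩

/-- Test functions. -/
structure Tf (Sm : (SUGroup n → ℝ) → Prop) (φ : SUGroup n → ℝ) : Prop where
  sm : Sm φ
  supp : HasCompactSupport φ
  nonneg : ∀ g, 0 ≤ φ g

/-- Existence of cut-off functions with small second derivatives which are `1` on a given compact
set. -/
def Ct (b : ι → ℝ → SUGroup n) (Γ : Subgroup (SUGroup n)) (Sm : (SUGroup n → ℝ) → Prop) : Prop :=
  ∀ F : Set (SUGroup n), IsCompact F → ∀ ε : ℝ, 0 < ε → ∃ (Φ : SUGroup n → ℝ) (Q : Set (SUGroup n)),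
    IsCompact Q ∧ Sm Φ ∧ (∀ g, 0 ≤ Φ g) ∧ (∀ g, Φ g ≤ 1) ∧ (∀ γ ∈ Γ, ∀ g, Φ (γ * g) = Φ g) ∧
    Off Γ Q Φ ∧ (∀ g ∈ F, Φ g = 1) ∧ ∀ c d g, |XD (b d) (XD (b c) Φ) g| ≤ ε

/-- Existence of bumps. -/
def Bu (Sm : (SUGroup n → ℝ) → Prop) : Prop :=
  ∀ F : Set (SUGroup n), IsCompact F → ∃ θ, Tf Sm θ ∧ ∀ g ∈ F, 0 < θ g

/-- Unfolding of a continuous function with compact support. -/
theorem unfold_cc (h : Lat Γ χ) {f : SUGroup n → ℝ} (hc : Continuous f)
    (hs : HasCompactSupport f) : ∫ g, f g ∂(mu n) = ∫ g, χ g * gs Γ f g ∂(mu n) := by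
  have := h.countable
  have hint : Integrable f (mu n) := hc.integrable_of_hasCompactSupport hs
  set A : Γ → SUGroup n → ℝ := fun γ g => χ ((γ : SUGroup n) * g) * f g with hA
  have hχγ : ∀ γ : Γ, Continuous fun g => χ ((γ : SUGroup n) * g) := fun γ =>
    h.cont.comp (continuous_const_mul (γ : SUGroup n))
  have hAi : ∀ γ, Integrable (A γ) (mu n) := by
    intro γ
    refine hint.norm.mono' ((hχγ γ).mul hc).aestronglyMeasurable ?_
    refine Filter.Eventually.of_forall fun g => ?_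
    rw [hA, norm_mul, Real.norm_of_nonneg (h.pos _).le]
    exact mul_le_of_le_one_left (norm_nonneg _) (h.le_one _)
  have hAs : Summable fun γ => ∫ g, ‖A γ g‖ ∂(mu n) := by
    refine summable_of_sum_le (c := ∫ g, ‖f g‖ ∂(mu n))
      (fun γ => integral_nonneg fun g => norm_nonneg _) fun T => ?_
    rw [← integral_finsetSum T fun γ _ => (hAi γ).norm]
    refine integral_mono (integrable_finsetSum T fun γ _ => (hAi γ).norm) hint.norm fun g => ?_
    show ∑ γ ∈ T, ‖A γ g‖ ≤ ‖f g‖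
    have h1 : ∀ γ ∈ T, ‖A γ g‖ = χ ((γ : SUGroup n) * g) * ‖f g‖ := by
      intro γ _
      rw [hA, norm_mul, Real.norm_of_nonneg (h.pos _).le]
    rw [Finset.sum_congr rfl h1, ← Finset.sum_mul]
    exact mul_le_of_le_one_left (norm_nonneg _) (h.sum_le g T)
  have h1 := (hasSum_integral_of_summable_integral_norm hAi hAs).tsum_eq
  have e1 : ∀ g, ∑' γ, A γ g = f g := by
    intro g
    have h2 := (h.summable g).hasSum.mul_right (f g)
    rw [h.sum g, one_mul] at h2
    exact h2.tsum_eq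
  set B : Γ → SUGroup n → ℝ := fun γ g => A γ (((γ⁻¹ : Γ) : SUGroup n) * g) with hB
  have hBi : ∀ γ, Integrable (B γ) (mu n) := fun γ => (hAi γ).comp_mul_left _
  have hBA : ∀ γ, ∫ g, B γ g ∂(mu n) = ∫ g, A γ g ∂(mu n) := fun γ =>
    integral_mul_left_eq_self (A γ) _
  have hBAn : ∀ γ, ∫ g, ‖B γ g‖ ∂(mu n) = ∫ g, ‖A γ g‖ ∂(mu n) := fun γ =>
    integral_mul_left_eq_self (fun g => ‖A γ g‖) _
  have hBs : Summable fun γ => ∫ g, ‖B γ g‖ ∂(mu n) := hAs.congr fun γ => (hBAn γ).symm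
  have h2 := (hasSum_integral_of_summable_integral_norm hBi hBs).tsum_eq
  have e2 : ∀ g, ∑' γ, B γ g = χ g * gs Γ f g := by
    intro g
    have h3 : ∀ γ : Γ, B γ g = χ g * f (((γ⁻¹ : Γ) : SUGroup n) * g) := by
      intro γ
      show χ ((γ : SUGroup n) * (((γ⁻¹ : Γ) : SUGroup n) * g)) *
        f (((γ⁻¹ : Γ) : SUGroup n) * g) = _
      rw [← mul_assoc, ← Subgroup.coe_mul, mul_inv_cancel, Subgroup.coe_one, one_mul]
    rw [tsum_congr h3]
    have h5 := gs_hasSum h.disc hs g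
    have h4 : HasSum (fun γ : Γ => f (((γ⁻¹ : Γ) : SUGroup n) * g)) (gs Γ f g) :=
      (Equiv.inv Γ).hasSum_iff.2 h5
    exact (h4.mul_left (χ g)).tsum_eq
  calc ∫ g, f g ∂(mu n) = ∫ g, ∑' γ, A γ g ∂(mu n) := by simp only [e1]
    _ = ∑' γ, ∫ g, A γ g ∂(mu n) := h1.symm
    _ = ∑' γ, ∫ g, B γ g ∂(mu n) := by simp only [hBA]
    _ = ∫ g, ∑' γ, B γ g ∂(mu n) := h2
    _ = ∫ g, χ g * gs Γ f g ∂(mu n) := by simp only [e2]

section
variable {s : ι → ι → SUGroup n → ℝ} {φ ψ : SUGroup n → ℝ}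

theorem sx_continuous (hs : ∀ c d, Continuous (s c d)) (hφ : C2 b φ) : Continuous (sx b s φ) :=
  continuous_finsetSum _ fun c _ => continuous_finsetSum _ fun d _ => (hs c d).mul (hφ.c2 c d)

theorem sx_compact (hb : Fl b) (hc : HasCompactSupport φ) : HasCompactSupport (sx b s φ) := by
  refine HasCompactSupport.of_support_subset_isCompact (K := tsupport φ) hc fun x hx => ?_
  by_contra h
  refine hx ?_
  refine Finset.sum_eq_zero fun c _ => Finset.sum_eq_zero fun d _ => ?_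
  have h1 := XD_zero_of (hb.zero d) (hb.cont d) (XD_zero_of (hb.zero c) (hb.cont c) h)
  rw [image_eq_zero_of_notMem_tsupport h1, mul_zero]

theorem sx_add (hφ : C2 b φ) (hψ : C2 b ψ) (g : SUGroup n) :
    sx b s (fun g => φ g + ψ g) g = sx b s φ g + sx b s ψ g := by
  unfold sx
  rw [← Finset.sum_add_distrib]
  refine Finset.sum_congr rfl fun c _ => ?_
  rw [← Finset.sum_add_distrib]
  exact Finset.sum_congr rfl fun d _ => by rw [(hφ.add hψ).2]; ring

theorem sx_const_mul (hφ : C2 b φ) (a : ℝ) (g : SUGroup n) :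
    sx b s (fun g => a * φ g) g = a * sx b s φ g := by
  unfold sx
  rw [Finset.mul_sum]
  refine Finset.sum_congr rfl fun c _ => ?_
  rw [Finset.mul_sum]
  exact Finset.sum_congr rfl fun d _ => by rw [(hφ.const_mul a).2]; ring

theorem sx_gs (hb : Fl b) (hd : DiscreteTopology Γ) (hsi : ∀ c d, ∀ γ ∈ Γ, ∀ g, s c d (γ * g) = s c d g)
    (hφ : C2 b φ) (hc : HasCompactSupport φ) (g : SUGroup n) :
    sx b s (gs Γ φ) g = gs Γ (sx b s φ) g := by
  have h1 : ∀ c d, XD (b d) (XD (b c) (gs Γ φ)) g = gs Γ (XD (b d) (XD (b c) φ)) g := fun c d =>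
    (hφ.gs hb hd hc).2 c d g
  have h2 : ∀ c d, HasSum (fun γ : Γ => s c d ((γ : SUGroup n) * g) *
      XD (b d) (XD (b c) φ) ((γ : SUGroup n) * g)) (s c d g * gs Γ (XD (b d) (XD (b c) φ)) g) := by
    intro c d
    have h3 := (gs_hasSum hd (XD_compact (hb.zero d) (hb.cont d)
      (XD_compact (hb.zero c) (hb.cont c) hc)) g).mul_left (s c d g)
    refine h3.congr_fun ?_
    intro γ
    rw [hsi c d _ γ.2]
  have h4 : HasSum (fun γ : Γ => sx b s φ ((γ : SUGroup n) * g))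
      (∑ c, ∑ d, s c d g * gs Γ (XD (b d) (XD (b c) φ)) g) :=
    hasSum_sum fun c _ => hasSum_sum fun d _ => h2 c d
  have h5 : gs Γ (sx b s φ) g = ∑ c, ∑ d, s c d g * gs Γ (XD (b d) (XD (b c) φ)) g := h4.tsum_eq
  rw [h5]
  unfold sx
  exact Finset.sum_congr rfl fun c _ => Finset.sum_congr rfl fun d _ => by rw [h1]

/-- The form of a test function whose `Γ`-sum is the cut-off `Φ`. -/
theorem siu_le (h : Lat Γ χ) (hb : Fl b) (hsc : ∀ c d, Continuous (s c d))
    (hsi : ∀ c d, ∀ γ ∈ Γ, ∀ g, s c d (γ * g) = s c d g)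
    (hm : ∀ c d, Integrable (fun g => χ g * |s c d g|) (mu n))
    {Φ : SUGroup n → ℝ} {ε : ℝ} (hΦ : ∀ c d g, |XD (b d) (XD (b c) Φ) g| ≤ ε)
    (hφ : C2 b φ) (hc : HasCompactSupport φ) (he : gs Γ φ = Φ) :
    siu b s φ ≤ ε * ∑ c, ∑ d, ∫ g, χ g * |s c d g| ∂(mu n) := by
  unfold siu
  rw [unfold_cc h (sx_continuous hsc hφ) (sx_compact hb hc)]
  have h1 : ∀ g, gs Γ (sx b s φ) g = sx b s Φ g := by
    intro g
    rw [← sx_gs hb h.disc hsi hφ hc, he]
  simp only [h1]
  have h2 : ∀ g, χ g * sx b s Φ g ≤ ∑ c, ∑ d, ε * (χ g * |s c d g|) := by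
    intro g
    unfold sx
    rw [Finset.mul_sum]
    refine Finset.sum_le_sum fun c _ => ?_
    rw [Finset.mul_sum]
    refine Finset.sum_le_sum fun d _ => ?_
    have h3 : s c d g * XD (b d) (XD (b c) Φ) g ≤ |s c d g| * ε := by
      refine (le_abs_self _).trans ?_
      rw [abs_mul]
      exact mul_le_mul_of_nonneg_left (hΦ c d g) (abs_nonneg _)
    calc χ g * (s c d g * XD (b d) (XD (b c) Φ) g) ≤ χ g * (|s c d g| * ε) :=
          mul_le_mul_of_nonneg_left h3 (h.pos g).le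
      _ = ε * (χ g * |s c d g|) := by ring
  have hi : Integrable (fun g => ∑ c, ∑ d, ε * (χ g * |s c d g|)) (mu n) :=
    integrable_finsetSum _ fun c _ => integrable_finsetSum _ fun d _ => (hm c d).const_mul ε
  have e2 : ∫ g, ∑ c, ∑ d, ε * (χ g * |s c d g|) ∂(mu n) =
      ε * ∑ c, ∑ d, ∫ g, χ g * |s c d g| ∂(mu n) := by
    rw [integral_finsetSum _ fun c _ => integrable_finsetSum _ fun d _ => (hm c d).const_mul ε,
      Finset.mul_sum]
    refine Finset.sum_congr rfl fun c _ => ?_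
    rw [integral_finsetSum _ fun d _ => (hm c d).const_mul ε, Finset.mul_sum]
    exact Finset.sum_congr rfl fun d _ => integral_const_mul _ _
  rw [← e2]
  by_cases hint : Integrable (fun g => χ g * sx b s Φ g) (mu n)
  · exact integral_mono hint hi h2
  · rw [integral_undef hint]
    refine integral_nonneg fun g => ?_
    refine Finset.sum_nonneg fun c _ => Finset.sum_nonneg fun d _ => ?_
    exact mul_nonneg ((abs_nonneg _).trans (hΦ c d g)) (mul_nonneg (h.pos g).le (abs_nonneg _))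

/-- D6: a nonnegative invariant form of finite mass vanishes. -/
theorem siu_eq_zero (h : Lat Γ χ) (hb : Fl b) {Sm : (SUGroup n → ℝ) → Prop} (hcl : Cl b Γ Sm)
    (hct : Ct b Γ Sm) (hbu : Bu Sm)
    (hsc : ∀ c d, Continuous (s c d)) (hsi : ∀ c d, ∀ γ ∈ Γ, ∀ g, s c d (γ * g) = s c d g)
    (hm : ∀ c d, Integrable (fun g => χ g * |s c d g|) (mu n))
    (hpos : ∀ φ, Tf Sm φ → 0 ≤ siu b s φ) (φ : SUGroup n → ℝ) (hφ : Tf Sm φ) : siu b s φ = 0 := by
  refine le_antisymm ?_ (hpos φ hφ)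
  have hφ2 := hcl.c2 φ hφ.sm
  have hgφ := hφ2.gs hb h.disc hφ.supp
  have hgφs := hcl.gs φ hφ.sm hφ.supp
  have hg0 : ∀ g, 0 ≤ gs Γ φ g := gs_nonneg hφ.nonneg
  have hoff : ∀ g, gs Γ φ g ≠ 0 → ∃ γ ∈ Γ, γ * g ∈ tsupport φ := by
    intro g hg
    by_contra hcon
    push Not at hcon
    refine hg ?_
    unfold gs
    have : ∀ γ : Γ, φ ((γ : SUGroup n) * g) = 0 := fun γ =>
      image_eq_zero_of_notMem_tsupport (hcon _ γ.2)
    simp [this]
  obtain ⟨M, hM⟩ := Off.bdd (Q := tsupport φ) hφ.supp (f := gs Γ φ) hoff hgφ.1.c0 (gs_inv φ)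
  have hM0 : 0 ≤ M := (norm_nonneg _).trans (hM 1)
  set a : ℝ := (2 * (M + 1))⁻¹ with ha
  have ha0 : 0 < a := by positivity
  have haM : ∀ g, a * gs Γ φ g ≤ 1 := by
    intro g
    have h1 : gs Γ φ g ≤ M := (le_abs_self _).trans (hM g)
    rw [ha, inv_mul_le_iff₀ (by positivity)]
    linarith
  set S : ℝ := ∑ c, ∑ d, ∫ g, χ g * |s c d g| ∂(mu n) with hS
  -- the main estimate
  have key : ∀ ε : ℝ, 0 < ε → a * siu b s φ ≤ ε * S := by
    intro ε hε
    obtain ⟨Φ, Q, hQ, hΦ2, hΦ0, hΦ1, hΦi, hΦo, hΦF, hΦε⟩ := hct (tsupport φ) hφ.supp ε hε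
    obtain ⟨Φ', Q', hQ', hΨ2, hΨ0, hΨ1, hΨi, hΨo, hΨF, -⟩ := hct Q hQ 1 one_pos
    obtain ⟨θ, hθ, hθ0⟩ := hbu Q' hQ'
    have hgθ := hcl.gs θ hθ.sm hθ.supp
    have hgθ0 : ∀ g, 0 ≤ gs Γ θ g := gs_nonneg hθ.nonneg
    -- the denominator
    set D : SUGroup n → ℝ := fun g => gs Γ θ g + (1 + (-1) * Φ' g) with hD
    have hDpos : ∀ g, 0 < D g := by
      intro g
      have h1 := hΨ1 g
      have h2 := hgθ0 g
      by_cases h3 : Φ' g = 0
      · rw [hD]
        simp only [h3]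
        linarith
      · obtain ⟨γ, hγ, hγQ⟩ := hΨo g h3
        have h4 := le_gs h.disc hθ.supp hθ.nonneg (⟨γ, hγ⟩ : Γ) g
        have h5 : 0 < θ (γ * g) := hθ0 _ hγQ
        have h6 : 0 < gs Γ θ g := lt_of_lt_of_le h5 h4
        rw [hD]
        simp only
        linarith
    have hD2 : Sm D := hcl.add _ _ hgθ (hcl.add _ _ (hcl.const 1) (hcl.mul _ _ (hcl.const (-1)) hΨ2))
    have hDi : ∀ γ ∈ Γ, ∀ g, D (γ * g) = D g := by
      intro γ hγ g
      rw [hD]
      simp only [gs_inv θ γ hγ g, hΨi γ hγ g]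
    -- the numerator
    set N : SUGroup n → ℝ := fun g => Φ g + (-a) * gs Γ φ g with hN
    have hN2 : Sm N := hcl.add _ _ hΦ2 (hcl.mul _ _ (hcl.const (-a)) hgφs)
    have hNi : ∀ γ ∈ Γ, ∀ g, N (γ * g) = N g := by
      intro γ hγ g
      rw [hN]
      simp only [gs_inv φ γ hγ g, hΦi γ hγ g]
    have hone : ∀ g, gs Γ φ g ≠ 0 → Φ g = 1 := by
      intro g hg
      obtain ⟨γ, hγ, hγF⟩ := hoff g hg
      rw [← hΦi γ hγ g]
      exact hΦF _ hγF
    have hN0 : ∀ g, 0 ≤ N g := by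
      intro g
      by_cases h1 : gs Γ φ g = 0
      · rw [hN]
        simp only [h1, mul_zero, add_zero]
        exact hΦ0 g
      · rw [hN]
        simp only [hone g h1]
        linarith [haM g]
    have hND : ∀ g, N g ≠ 0 → D g = gs Γ θ g := by
      intro g hg
      have h1 : Φ g ≠ 0 := by
        intro h0
        refine hg ?_
        have h2 : gs Γ φ g = 0 := by
          by_contra h3
          rw [hone g h3] at h0
          exact one_ne_zero h0
        rw [hN]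
        simp only [h0, h2, mul_zero, add_zero]
      obtain ⟨γ, hγ, hγQ⟩ := hΦo g h1
      have h2 : Φ' g = 1 := by
        rw [← hΨi γ hγ g]
        exact hΨF _ hγQ
      rw [hD]
      simp only [h2]
      ring
    -- the test function
    set F : SUGroup n → ℝ := fun g => N g * (D g)⁻¹ with hF
    have hF2 : Sm F := hcl.mul _ _ hN2 (hcl.inv _ hD2 fun g => (hDpos g).ne')
    have hFi : ∀ γ ∈ Γ, ∀ g, F (γ * g) = F g := by
      intro γ hγ g
      rw [hF]
      simp only [hNi γ hγ g, hDi γ hγ g]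
    have hu : Tf Sm (fun g => F g * θ g) := by
      refine ⟨hcl.mul _ _ hF2 hθ.sm, hθ.supp.mul_left, fun g => ?_⟩
      exact mul_nonneg (mul_nonneg (hN0 g) (inv_nonneg.2 (hDpos g).le)) (hθ.nonneg g)
    have hu2 : C2 b (fun g => F g * θ g) := hcl.c2 _ hu.sm
    have hgu : ∀ g, gs Γ (fun g => F g * θ g) g = N g := by
      intro g
      rw [gs_mul_inv hFi]
      by_cases h1 : N g = 0
      · rw [hF]
        simp only [h1, zero_mul]
      · rw [hF]
        simp only [← hND g h1]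
        rw [mul_assoc, inv_mul_cancel₀ (hDpos g).ne', mul_one]
    have hv2 : C2 b (fun g => F g * θ g + a * φ g) := (hu2.add (hφ2.const_mul a).1).1
    have hvc : HasCompactSupport (fun g => F g * θ g + a * φ g) :=
      hu.supp.add hφ.supp.mul_left
    have hgv : gs Γ (fun g => F g * θ g + a * φ g) = Φ := by
      funext g
      have h1 := (gs_hasSum h.disc hu.supp g).add ((gs_hasSum h.disc hφ.supp g).mul_left a)
      have h2 : gs Γ (fun g => F g * θ g + a * φ g) g =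
          gs Γ (fun g => F g * θ g) g + a * gs Γ φ g := h1.tsum_eq
      rw [h2, hgu, hN]
      ring
    have h3 := siu_le h hb hsc hsi hm hΦε hv2 hvc hgv
    have h4 : siu b s (fun g => F g * θ g + a * φ g) =
        siu b s (fun g => F g * θ g) + a * siu b s φ := by
      unfold siu
      rw [← integral_const_mul, ← integral_add]
      · refine integral_congr_ae (Filter.Eventually.of_forall fun g => ?_)
        show sx b s (fun g => F g * θ g + a * φ g) g = _
        rw [sx_add hu2 (hφ2.const_mul a).1, sx_const_mul hφ2]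
      · exact (sx_continuous hsc hu2).integrable_of_hasCompactSupport (sx_compact hb hu.supp)
      · exact ((sx_continuous hsc hφ2).integrable_of_hasCompactSupport
          (sx_compact hb hφ.supp)).const_mul a
    have h5 := hpos _ hu
    linarith
  have h1 : a * siu b s φ ≤ 0 := by
    refine le_of_forall_pos_le_add fun δ hδ => ?_
    have hS0 : 0 ≤ S := Finset.sum_nonneg fun c _ => Finset.sum_nonneg fun d _ =>
      integral_nonneg fun g => mul_nonneg (h.pos g).le (abs_nonneg _)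
    have h2 := key (δ / (S + 1)) (by positivity)
    have h3 : δ / (S + 1) * S ≤ δ := by
      rw [div_mul_eq_mul_div, div_le_iff₀ (by positivity)]
      nlinarith
    linarith
  exact nonpos_of_mul_nonpos_right h1 ha0

end

end Pool.Agent.Lib.MP_5d4057_al.IN
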