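import Pool.Agent.Lib.MP_5d4057_al.IN.StrS

/-! The structure theorem (Theorem S) at an arbitrary point. -/

set_option autoImplicit false

namespace Pool.Agent.Lib.MP_5d4057_al.IN

open Matrix MeasureTheory Filter Topology Module Pool.Agent.Lib.MP_5d4057_al
  Pool.Agent.Lib.MP_5d4057_al.Hyb Pool.Agent.Lib.MP_5d4057_al.HM

variable {n : ℕ} {k : Type} [NontriviallyNormedField k] [IsUltrametricDist k] [ProperSpace k]
  {V : Type} [AddCommGroup V] [Module k V] [FiniteDimensional k V]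

variable {f : SUGroup n → Nm k V} {p : V →ₗ[k] V}

private theorem st_norm_le (z : Fin n → ℂ) : ‖z‖ ≤ nr z := by
  rw [pi_norm_le_iff_of_nonneg (nr_nonneg z)]
  intro i
  have h1 : ‖z i‖ ^ 2 ≤ nr z ^ 2 := by
    rw [nr_sq]
    exact Finset.single_le_sum (f := fun j => ‖z j‖ ^ 2) (fun j _ => sq_nonneg _)
      (Finset.mem_univ i)
  exact le_of_sq_le_sq h1 (nr_nonneg z)

/-- neighbourhoods of the identity contain the points with small ball coordinate, up to the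
stabiliser -/
private theorem st_nhds {U : Set (SUGroup n)} (hU : IsOpen U) (h1 : (1 : SUGroup n) ∈ U) :
    ∃ r : ℝ, 0 < r ∧ ∀ g : SUGroup n, nr (zc g) < r → ∃ x h : SUGroup n, x ∈ U ∧ ch h = 1 ∧
      g = x * h := by
  have ho : IsOpen {z : Fin n → ℂ | nr z < 1} := isOpen_lt continuous_nr continuous_const
  have h0 : (0 : Fin n → ℂ) ∈ {z : Fin n → ℂ | nr z < 1} := by
    show nr (0 : Fin n → ℂ) < 1
    rw [nr_zero]
    exact zero_lt_one
  have hc : ContinuousAt (pt (n := n)) 0 := continuousOn_pt.continuousAt (ho.mem_nhds h0)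
  have hn : pt (n := n) ⁻¹' U ∈ 𝓝 (0 : Fin n → ℂ) := by
    refine hc.preimage_mem_nhds (hU.mem_nhds ?_)
    rw [pt_zero]
    exact h1
  obtain ⟨e, he, hb⟩ := Metric.mem_nhds_iff.1 hn
  refine ⟨e, he, fun g hg => ?_⟩
  have h2 : zc g ∈ Metric.ball (0 : Fin n → ℂ) e := by
    rw [Metric.mem_ball, dist_zero_right]
    exact (st_norm_le _).trans_lt hg
  have h3 : pt (zc g) ∈ U := hb h2
  obtain ⟨h, hh, hgh⟩ := exists_K (g := pt (zc g)) (h := g) (zc_pt (nr_zc_lt g))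
  exact ⟨_, h, h3, hh, hgh⟩

/-- **Theorem S.** From `strS_one` by left translation (`LimC.left`); the set
`{g | hq (g₀⁻¹ * g) < r ^ 2}` is open and right invariant under the stabiliser. -/
theorem strS (hn : 1 ≤ n) (h : LimC f) (hp : IsBlk p) {U : Set (SUGroup n)} (hU : IsOpen U)
    (horth : ∀ g ∈ U, OrthP (f g) p) {g₀ : SUGroup n} (hg₀ : g₀ ∈ U) :
    ZeroSlope f p g₀ ∨ ∃ p₁ p₂ : V →ₗ[k] V, IsBlk p₁ ∧ IsBlk p₂ ∧ p₁ + p₂ = p ∧ p₁ ∘ₗ p₂ = 0 ∧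
      p₂ ∘ₗ p₁ = 0 ∧ (∃ r : ℝ, 0 < r ∧ ∀ g, hq (g₀⁻¹ * g) < r ^ 2 → OrthP (f g) p₁ ∧ OrthP (f g) p₂) ∧
      ∃ (v : Fin n → ℂ) (hv : Kak.nq v = 1) (c t₀ : ℝ), 0 < c ∧ 0 < t₀ ∧ ∀ t, 0 ≤ t → t ≤ t₀ →
        c * t ≤ av p₁ (f (g₀ * Kak.flow v hv t)) -
            (rk p₁ : ℝ) / rk p * av p (f (g₀ * Kak.flow v hv t)) -
          (av p₁ (f g₀) - (rk p₁ : ℝ) / rk p * av p (f g₀)) := by
  have hU' : IsOpen ((fun x => g₀ * x) ⁻¹' U) := hU.preimage (continuous_const_mul g₀)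
  have h1U : (1 : SUGroup n) ∈ (fun x => g₀ * x) ⁻¹' U := by
    show g₀ * 1 ∈ U
    rwa [mul_one]
  obtain ⟨r₀, hr₀, hnb⟩ := st_nhds hU' h1U
  have h' := h.left g₀
  have horth' : ∀ g, nr (zc g) < r₀ → OrthP ((fun g => f (g₀ * g)) g) p := by
    intro g hg
    obtain ⟨x, y, hx, hy, rfl⟩ := hnb g hg
    show OrthP (f (g₀ * (x * y))) p
    rw [← mul_assoc, h.kinv _ _ hy]
    exact horth _ hx
  rcases strS_one hn h' hp hr₀ horth' with h0 | ⟨p₁, p₂, hp₁, hp₂, hs, h12, h21, ⟨r, hr, hro⟩, v, hv,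
    c, t₀, hc, ht₀, hfl⟩
  · left
    intro ε hε
    obtain ⟨r, hr, hxy⟩ := h0 ε hε
    refine ⟨r, hr, fun x y hx hy j hj => ?_⟩
    have h2 := hxy x y hx hy j hj
    simp only [one_mul] at h2
    exact h2
  · right
    refine ⟨p₁, p₂, hp₁, hp₂, hs, h12, h21, ⟨r, hr, fun g hg => ?_⟩, v, hv, c, t₀, hc, ht₀,
      fun t ht ht' => ?_⟩
    · have h2 : nr (zc (g₀⁻¹ * g)) < r := by
        rw [← nr_zc_sq] at hg
        exact lt_of_pow_lt_pow_left₀ 2 hr.le hg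
      have h3 := hro _ h2
      simp only [mul_inv_cancel_left] at h3
      exact h3
    · have h2 := hfl t ht ht'
      simp only [mul_one] at h2
      exact h2

end Pool.Agent.Lib.MP_5d4057_al.IN
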