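import Pool.Agent.Lib.MP_5d4057_al.IN.GdB
import Pool.Agent.Lib.MP_5d4057_al.IN.StrT
import Pool.Agent.Lib.MP_5d4057_al.RC.Max

/-!
# INT, from C to D: the system of blocks of the limit map is `Good`
-/

namespace Pool.Agent.Lib.MP_5d4057_al.IN

open Matrix MeasureTheory Filter Topology Module Pool.Agent.Lib.MP_5d4057_al
  Pool.Agent.Lib.MP_5d4057_al.Hyb Pool.Agent.Lib.MP_5d4057_al.HM

variable {n : ℕ} {k : Type} [NontriviallyNormedField k] [IsUltrametricDist k] [ProperSpace k]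
  {V : Type} [AddCommGroup V] [Module k V] [FiniteDimensional k V]
  {f : SUGroup n → Nm k V} {p p₁ p₂ : V →ₗ[k] V}

/-- The square function of a block. -/
noncomputable def phf (f : SUGroup n → Nm k V) (p : V →ₗ[k] V) (v w : Vec n) : ℝ :=
  phn p (f (sec n v)) (f (sec n w))

/-- The function `log f(v)(x) - av/rk + C`. -/
noncomputable def yf (f : SUGroup n → Nm k V) (p : V →ₗ[k] V) (x : V) (C : ℝ) (v : Vec n) : ℝ :=
  Real.log (f (sec n v) x) - av p (f (sec n v)) / rk p + C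

/-- The functions of a block. -/
def Sf (f : SUGroup n → Nm k V) (p : V →ₗ[k] V) : Set (Vec n → ℝ) :=
  {y | ∃ x ∈ LinearMap.range p, x ≠ 0 ∧ ∃ C : ℝ, y = yf f p x C}

/-- The harmonic function of a splitting. -/
noncomputable def bf (f : SUGroup n → Nm k V) (p₁ p₂ : V →ₗ[k] V) (v : Vec n) : ℝ :=
  av p₁ (f (sec n v)) / rk p₁ - av p₂ (f (sec n v)) / rk p₂

theorem basic_of (hf : LimC f) {N₀ : Nm k V} {C : ℝ} (hg : Lg C N₀ f) (hp : IsBlk p)
    {U : Set (Vec n)} (hU : IsOpen U) (hsub : U ⊆ Cone n) : D.Basic U (phf f p) (Sf f p) where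
  isOpen := hU
  sub := hsub
  nonneg v _ w _ := phn_nonneg hp _ _
  fn := by
    rintro y ⟨x, -, hx, C', rfl⟩
    have hr : (0 : ℝ) < rk p := by exact_mod_cast hp.rk_pos
    refine fn_of_lip hf.cont hf.kinv hg (φ := fun N => Real.log (N x) - av p N / rk p + C')
      (K := 2) zero_le_two fun N N' => ?_
    have h1 := Nm.log_le_dist N N' x
    have h2 := abs_av_sub_le p N N'
    have e : (Real.log (N x) - av p N / rk p + C') - (Real.log (N' x) - av p N' / rk p + C') =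
        (Real.log (N x) - Real.log (N' x)) - (av p N - av p N') / rk p := by ring
    rw [e]
    refine (abs_sub _ _).trans ?_
    have h3 : |(av p N - av p N') / rk p| ≤ dist N N' := by
      rw [abs_div, abs_of_pos hr, div_le_iff₀ hr, mul_comm]
      exact h2
    linarith
  lip := by
    rintro y ⟨x, hxr, hx, C', rfl⟩ v _ w _
    have h := phn_lip hp (f (sec n v)) (f (sec n w)) hxr hx
    refine le_trans (le_of_eq ?_) h
    rw [yf, yf]
    ring

theorem fn_bf (hf : LimC f) {N₀ : Nm k V} {C : ℝ} (hg : Lg C N₀ f) (hp₁ : IsBlk p₁)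
    (hp₂ : IsBlk p₂) : D.Fn (bf f p₁ p₂) := by
  have hr₁ : (0 : ℝ) < rk p₁ := by exact_mod_cast hp₁.rk_pos
  have hr₂ : (0 : ℝ) < rk p₂ := by exact_mod_cast hp₂.rk_pos
  refine fn_of_lip hf.cont hf.kinv hg (φ := fun N => av p₁ N / rk p₁ - av p₂ N / rk p₂)
    (K := 2) zero_le_two fun N N' => ?_
  have e : (av p₁ N / rk p₁ - av p₂ N / rk p₂) - (av p₁ N' / rk p₁ - av p₂ N' / rk p₂) =
      (av p₁ N - av p₁ N') / rk p₁ - (av p₂ N - av p₂ N') / rk p₂ := by ring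
  rw [e]
  refine (abs_sub _ _).trans ?_
  have h1 : |(av p₁ N - av p₁ N') / rk p₁| ≤ dist N N' := by
    rw [abs_div, abs_of_pos hr₁, div_le_iff₀ hr₁, mul_comm]
    exact abs_av_sub_le p₁ N N'
  have h2 : |(av p₂ N - av p₂ N') / rk p₂| ≤ dist N N' := by
    rw [abs_div, abs_of_pos hr₂, div_le_iff₀ hr₂, mul_comm]
    exact abs_av_sub_le p₂ N N'
  linarith

/-- The set of the group over an open set of the cone. -/
def ovr (U : Set (Vec n)) : Set (SUGroup n) := {g | ∃ c : ℂ, c ≠ 0 ∧ c • act g (base n) ∈ U}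

theorem isOpen_ovr {U : Set (Vec n)} (hU : IsOpen U) : IsOpen (ovr U) := by
  have e : ovr U = ⋃ c : {c : ℂ // c ≠ 0}, (fun g : SUGroup n => (c : ℂ) • act g (base n)) ⁻¹' U := by
    ext g
    simp only [ovr, Set.mem_ofPred_eq, Set.mem_iUnion, Set.mem_preimage, Subtype.exists, exists_prop]
  rw [e]
  refine isOpen_iUnion fun c => hU.preimage ?_
  exact continuous_orbit.const_smul (c : ℂ)

theorem sec_mem_ovr {U : Set (Vec n)} (hsub : U ⊆ Cone n) {v : Vec n} (hv : v ∈ U) :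
    sec n v ∈ ovr U := by
  obtain ⟨c, hc, h⟩ := sec_spec (hsub hv)
  exact ⟨c, hc, by rw [← h]; exact hv⟩

omit [IsUltrametricDist k] [ProperSpace k] [FiniteDimensional k V] in
/-- the value of the limit map at a point over `U` -/
theorem exists_of_ovr (hk : ∀ g h : SUGroup n, ch h = 1 → f (g * h) = f g) {U : Set (Vec n)}
    {g : SUGroup n} (hg : g ∈ ovr U) : ∃ v ∈ U, f (sec n v) = f g := by
  obtain ⟨c, hc, h⟩ := hg
  refine ⟨_, h, ?_⟩
  rw [sec_smul (orbit_mem g) hc]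
  exact (exists_cone (u := f) hk).2 g

/-- Volumes of orthogonal blocks on an open set of the cone. -/
theorem av_cone (hn : 1 ≤ n) (hf : LimC f) (hp : IsBlk p) {U : Set (Vec n)} (hU : IsOpen U)
    (hsub : U ⊆ Cone n) (horth : ∀ v ∈ U, OrthP (f (sec n v)) p) {v : Vec n} (hv : v ∈ U) :
    ContDiffAt ℝ (⊤ : ℕ∞) (fun v => av p (f (sec n v))) v ∧
      Lap (fun v => av p (f (sec n v))) v = 0 := by
  have horth' : ∀ g ∈ ovr U, OrthP (f g) p := by
    intro g hg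
    obtain ⟨w, hw, e⟩ := exists_of_ovr hf.kinv hg
    rw [← e]
    exact horth w hw
  obtain ⟨h1, h2⟩ := hf.av_harm hn hp (isOpen_ovr hU) horth' (sec n v) (sec_mem_ovr hsub hv)
  have hh : Homog fun v => av p (f (sec n v)) := by
    intro c hc w hw
    show av p (f (sec n (c • w))) = av p (f (sec n w))
    rw [sec_smul hw hc]
  obtain ⟨c, hc, h⟩ := sec_spec (hsub hv)
  have h3 := contDiffAt_smul_loc hh hc (orbit_mem _) h1
  have h4 := lap_smul_loc hh hc (orbit_mem _) (h1.of_le (WithTop.coe_le_coe.2 le_top))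
  rw [← h] at h3 h4
  exact ⟨h3, h4.trans h2⟩

theorem split_of (hn : 1 ≤ n) (hf : LimC f) {N₀ : Nm k V} {C : ℝ} (hg : Lg C N₀ f)
    (hp : IsBlk p) (hp₁ : IsBlk p₁) (hp₂ : IsBlk p₂) (hadd : p₁ + p₂ = p) (h12 : p₁ ∘ₗ p₂ = 0)
    (h21 : p₂ ∘ₗ p₁ = 0) {U : Set (Vec n)} (hU : IsOpen U) (hsub : U ⊆ Cone n)
    (o₁ : ∀ v ∈ U, OrthP (f (sec n v)) p₁) (o₂ : ∀ v ∈ U, OrthP (f (sec n v)) p₂) :
    D.Split U (phf f p) (phf f p₁) (phf f p₂) (Sf f p) (Sf f p₁) (Sf f p₂) (bf f p₁ p₂)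
      ((rk p₁ : ℝ) * rk p₂ / rk p) ((rk p₂ : ℝ) / rk p) := by
  have hr : (0 : ℝ) < rk p := by exact_mod_cast hp.rk_pos
  have hr₁ : (0 : ℝ) < rk p₁ := by exact_mod_cast hp₁.rk_pos
  have hr₂ : (0 : ℝ) < rk p₂ := by exact_mod_cast hp₂.rk_pos
  have hra : (rk p : ℝ) = rk p₁ + rk p₂ := by
    rw [rk_add hp₁ hp₂ hadd h12 h21]
    push_cast
    rfl
  have c₁ := fun v (hv : v ∈ U) => av_cone hn hf hp₁ hU hsub o₁ hv
  have c₂ := fun v (hv : v ∈ U) => av_cone hn hf hp₂ hU hsub o₂ hv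
  have hb : bf f p₁ p₂ = fun v => (rk p₁ : ℝ)⁻¹ * av p₁ (f (sec n v)) +
      (-(rk p₂ : ℝ)⁻¹) * av p₂ (f (sec n v)) := by
    funext v
    rw [bf]
    ring
  have hbs : ∀ v ∈ U, ContDiffAt ℝ (⊤ : ℕ∞) (bf f p₁ p₂) v := by
    intro v hv
    rw [hb]
    exact (contDiffAt_const.mul (c₁ v hv).1).add (contDiffAt_const.mul (c₂ v hv).1)
  obtain ⟨C', hC'⟩ := av_add hp₁ hp₂ hadd h12 h21
  refine ⟨fn_bf hf hg hp₁ hp₂, fun v hv => (hbs v hv).contDiffWithinAt, fun v hv => ?_,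
    by positivity, fun v hv w hw => ?_, ?_⟩
  · have d1 := (c₁ v hv).1.of_le (m := 2) (WithTop.coe_le_coe.2 le_top)
    have d2 := (c₂ v hv).1.of_le (m := 2) (WithTop.coe_le_coe.2 le_top)
    have d1' : ContDiffAt ℝ 2 (fun v => (rk p₁ : ℝ)⁻¹ * av p₁ (f (sec n v))) v :=
      contDiffAt_const.mul d1
    have e1 := RC.lap_add_mul d1' d2 (-(rk p₂ : ℝ)⁻¹)
    have e2 := RC.lap_add_mul (f := fun _ => (0 : ℝ)) (contDiffAt_const (c := (0 : ℝ))) d1
      (rk p₁ : ℝ)⁻¹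
    have e3 : Lap (fun _ : Vec n => (0 : ℝ)) v = 0 := by
      simp [Lap]
    simp only [zero_add] at e2
    rw [hb, e1, e2, (c₁ v hv).2, (c₂ v hv).2, e3]
    ring
  · exact phn_split hp₁ hp₂ hadd h12 h21 (o₁ v hv) (o₂ v hv) (o₁ w hw) (o₂ w hw)
  · rintro y ⟨x, hx, hx0, D, rfl⟩
    have a1 : p₁ x + p₂ x = x := by
      obtain ⟨z, rfl⟩ := hx
      have b1 : p₁ (p₁ z) = p₁ z := LinearMap.congr_fun hp₁.idem z
      have b2 : p₂ (p₂ z) = p₂ z := LinearMap.congr_fun hp₂.idem z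
      have b3 : p₁ (p₂ z) = 0 := LinearMap.congr_fun h12 z
      have b4 : p₂ (p₁ z) = 0 := LinearMap.congr_fun h21 z
      rw [← hadd, LinearMap.add_apply, map_add, map_add, b1, b2, b3, b4]
      simp
    have a2 : ∀ v ∈ U, f (sec n v) x = max (f (sec n v) (p₁ x)) (f (sec n v) (p₂ x)) := by
      intro v hv
      have h1 := (o₁ v hv).eq_max x
      have h2 : x - p₁ x = p₂ x := by
        rw [sub_eq_iff_eq_add, add_comm]
        exact a1.symm
      rwa [h2] at h1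
    have a3 : ∀ v ∈ U, av p₁ (f (sec n v)) + av p₂ (f (sec n v)) = av p (f (sec n v)) + C' :=
      fun v hv => hC' _ (o₁ v hv) (o₂ v hv)
    -- the two identities
    have i1 : ∀ v ∈ U, ∀ z : ℝ, z - av p (f (sec n v)) / rk p + D =
        (z - av p₁ (f (sec n v)) / rk p₁ + (D + C' / rk p)) + rk p₂ / rk p * bf f p₁ p₂ v := by
      intro v hv z
      have h1 := a3 v hv
      have h2 : av p (f (sec n v)) = av p₁ (f (sec n v)) + av p₂ (f (sec n v)) - C' := by linarith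
      rw [h2, bf, hra]
      have h3 : (rk p₁ : ℝ) + rk p₂ ≠ 0 := by positivity
      field_simp
      ring
    have i2 : ∀ v ∈ U, ∀ z : ℝ, z - av p (f (sec n v)) / rk p + D =
        (z - av p₂ (f (sec n v)) / rk p₂ + (D + C' / rk p)) -
          (1 - rk p₂ / rk p) * bf f p₁ p₂ v := by
      intro v hv z
      have h1 := a3 v hv
      have h2 : av p (f (sec n v)) = av p₁ (f (sec n v)) + av p₂ (f (sec n v)) - C' := by linarith
      rw [h2, bf, hra]
      have h3 : (rk p₁ : ℝ) + rk p₂ ≠ 0 := by positivity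
      field_simp
      ring
    by_cases z1 : p₁ x = 0
    · refine Or.inr (Or.inr ⟨yf f p₂ x (D + C' / rk p), ⟨x, ?_, hx0, _, rfl⟩, fun v hv => ?_⟩)
      · rw [z1, zero_add] at a1
        exact ⟨x, a1⟩
      · exact i2 v hv _
    by_cases z2 : p₂ x = 0
    · refine Or.inr (Or.inl ⟨yf f p₁ x (D + C' / rk p), ⟨x, ?_, hx0, _, rfl⟩, fun v hv => ?_⟩)
      · rw [z2, add_zero] at a1
        exact ⟨x, a1⟩
      · exact i1 v hv _
    refine Or.inl ⟨yf f p₁ (p₁ x) (D + C' / rk p), ⟨p₁ x, LinearMap.mem_range_self _ _, z1, _, rfl⟩,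
      yf f p₂ (p₂ x) (D + C' / rk p), ⟨p₂ x, LinearMap.mem_range_self _ _, z2, _, rfl⟩,
      fun v hv => ?_⟩
    rw [yf, yf, yf, ← i1 v hv, ← i2 v hv, a2 v hv, max_add_add_right, max_sub_sub_right]
    congr 2
    exact Real.strictMonoOn_log.monotoneOn.map_max (Nm.pos _ z1) (Nm.pos _ z2)

theorem fderiv_bf_ne (hn : 1 ≤ n) (hf : LimC f) (hp : IsBlk p) (hp₁ : IsBlk p₁) (hp₂ : IsBlk p₂)
    (hadd : p₁ + p₂ = p) (h12 : p₁ ∘ₗ p₂ = 0) (h21 : p₂ ∘ₗ p₁ = 0) {U : Set (Vec n)}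
    (hU : IsOpen U) (hsub : U ⊆ Cone n) (o₁ : ∀ v ∈ U, OrthP (f (sec n v)) p₁)
    (o₂ : ∀ v ∈ U, OrthP (f (sec n v)) p₂) {v₀ : Vec n} (hv₀ : v₀ ∈ U)
    {v : Fin n → ℂ} (hv : Kak.nq v = 1) {c t₀ : ℝ} (hc : 0 < c) (ht₀ : 0 < t₀)
    (hs : ∀ t, 0 ≤ t → t ≤ t₀ →
        c * t ≤ av p₁ (f (sec n v₀ * Kak.flow v hv t)) -
            (rk p₁ : ℝ) / rk p * av p (f (sec n v₀ * Kak.flow v hv t)) -
          (av p₁ (f (sec n v₀)) - (rk p₁ : ℝ) / rk p * av p (f (sec n v₀)))) :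
    fderiv ℝ (bf f p₁ p₂) v₀ ≠ 0 := by
  intro h0
  have hr : (0 : ℝ) < rk p := by exact_mod_cast hp.rk_pos
  have hr₁ : (0 : ℝ) < rk p₁ := by exact_mod_cast hp₁.rk_pos
  have hr₂ : (0 : ℝ) < rk p₂ := by exact_mod_cast hp₂.rk_pos
  have hra : (rk p : ℝ) = rk p₁ + rk p₂ := by
    rw [rk_add hp₁ hp₂ hadd h12 h21]
    push_cast
    rfl
  obtain ⟨C', hC'⟩ := av_add hp₁ hp₂ hadd h12 h21
  obtain ⟨c₀, hc₀, hcv⟩ := sec_spec (hsub hv₀)
  have hh : Homog (bf f p₁ p₂) := by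
    intro d hd w hw
    rw [bf, bf, sec_smul hw hd]
  have hb : bf f p₁ p₂ = fun v => (rk p₁ : ℝ)⁻¹ * av p₁ (f (sec n v)) +
      (-(rk p₂ : ℝ)⁻¹) * av p₂ (f (sec n v)) := by
    funext v
    rw [bf]
    ring
  obtain ⟨g₀, hg₀⟩ : ∃ g₀, g₀ = sec n v₀ := ⟨_, rfl⟩
  rw [← hg₀] at hcv hs
  have hd : ContDiffAt ℝ (⊤ : ℕ∞) (bf f p₁ p₂) v₀ := by
    rw [hb]
    exact (contDiffAt_const.mul (av_cone hn hf hp₁ hU hsub o₁ hv₀).1).add
      (contDiffAt_const.mul (av_cone hn hf hp₂ hU hsub o₂ hv₀).1)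
  have hd' : DifferentiableAt ℝ (bf f p₁ p₂) (act g₀ (base n)) := by
    have h1 := contDiffAt_smul_loc hh (inv_ne_zero hc₀) (hsub hv₀) hd
    have h2 : c₀⁻¹ • v₀ = act g₀ (base n) := by
      rw [hcv, smul_smul, inv_mul_cancel₀ hc₀, one_smul]
    rw [h2] at h1
    exact h1.differentiableAt (by simp)
  have hz : fderiv ℝ (bf f p₁ p₂) (act g₀ (base n)) = 0 := by
    ext ξ
    rw [fderiv_smul_loc hh hc₀ (orbit_mem g₀) hd', ← hcv, h0]
    rfl
  -- the derivative along the flow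
  have hder : HasDerivAt (fun t => bf f p₁ p₂ (act (g₀ * Kak.flow v hv t) (base n))) 0 0 := by
    have h1 := hasDerivAt_flow (f := bf f p₁ p₂) (ξ := v) (b := Kak.flow v hv)
      (fun t => Kak.hasDerivAt_flow hv t) g₀ 0 (by rw [Kak.flow_zero, mul_one]; exact hd')
    rw [Kak.flow_zero, mul_one, hz] at h1
    exact h1
  -- the growth
  have hcont : Continuous fun t : ℝ => c₀ • act (g₀ * Kak.flow v hv t) (base n) := by
    have h1 : Continuous (Kak.flow v hv) := Kak.continuous_flow hv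
    exact (continuous_orbit.comp (continuous_const.mul h1)).const_smul c₀
  have hnear : ∀ᶠ t : ℝ in 𝓝 0, c₀ • act (g₀ * Kak.flow v hv t) (base n) ∈ U := by
    refine hcont.continuousAt.eventually_mem ?_
    rw [Kak.flow_zero, mul_one, ← hcv]
    exact hU.mem_nhds hv₀
  obtain ⟨κ, hκ⟩ : ∃ κ : ℝ, κ = (rk p₁ : ℝ) * rk p₂ / rk p := ⟨_, rfl⟩
  have hκ0 : 0 < κ := by rw [hκ]; positivity
  have hval : ∀ t : ℝ, c₀ • act (g₀ * Kak.flow v hv t) (base n) ∈ U →
      av p₁ (f (g₀ * Kak.flow v hv t)) - (rk p₁ : ℝ) / rk p * av p (f (g₀ * Kak.flow v hv t)) =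
        κ * bf f p₁ p₂ (act (g₀ * Kak.flow v hv t) (base n)) + (rk p₁ : ℝ) / rk p * C' := by
    intro t ht
    have e : f (sec n (act (g₀ * Kak.flow v hv t) (base n))) = f (g₀ * Kak.flow v hv t) :=
      (exists_cone (u := f) hf.kinv).2 _
    have e' : f (sec n (c₀ • act (g₀ * Kak.flow v hv t) (base n))) = f (g₀ * Kak.flow v hv t) := by
      rw [sec_smul (orbit_mem _) hc₀, e]
    have h1 := hC' (f (g₀ * Kak.flow v hv t)) (by rw [← e']; exact o₁ _ ht)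
      (by rw [← e']; exact o₂ _ ht)
    have h2 : av p (f (g₀ * Kak.flow v hv t)) = av p₁ (f (g₀ * Kak.flow v hv t)) +
        av p₂ (f (g₀ * Kak.flow v hv t)) - C' := by linarith
    rw [h2, bf, e, hκ, hra]
    have h3 : (rk p₁ : ℝ) + rk p₂ ≠ 0 := by positivity
    field_simp
    ring
  have h00 := hval 0 (by rw [Kak.flow_zero, mul_one, ← hcv]; exact hv₀)
  rw [Kak.flow_zero, mul_one] at h00
  have hlow : ∀ᶠ t : ℝ in 𝓝[>] 0, c / κ ≤
      (bf f p₁ p₂ (act (g₀ * Kak.flow v hv t) (base n)) - bf f p₁ p₂ (act g₀ (base n))) / t := by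
    filter_upwards [nhdsWithin_le_nhds hnear, Ioc_mem_nhdsGT ht₀] with t ht1 ht2
    have h1 := hs t ht2.1.le ht2.2
    rw [hval t ht1, h00] at h1
    rw [le_div_iff₀ ht2.1, div_mul_eq_mul_div, div_le_iff₀ hκ0]
    linarith
  have hlim : Tendsto (fun t : ℝ => (bf f p₁ p₂ (act (g₀ * Kak.flow v hv t) (base n)) -
      bf f p₁ p₂ (act g₀ (base n))) / t) (𝓝[>] 0) (𝓝 0) := by
    have h1 := hder.tendsto_slope_zero
    have h2 := h1.mono_left (nhdsWithin_mono 0 (fun t (ht : 0 < t) => ht.ne'))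
    refine h2.congr fun t => ?_
    rw [zero_add, Kak.flow_zero, mul_one, smul_eq_mul]
    ring
  have h3 := ge_of_tendsto hlim hlow
  have h4 : 0 < c / κ := by positivity
  linarith

/-- **The blocks of the limit map are good.** -/
theorem good_of (hn : 1 ≤ n) (hf : LimC f) {N₀ : Nm k V} {C : ℝ} (hg : Lg C N₀ f) :
    ∀ (r : ℕ) (p : V →ₗ[k] V), IsBlk p → rk p ≤ r + 1 → ∀ U : Set (Vec n), IsOpen U →
      U ⊆ Cone n → (∀ v ∈ U, OrthP (f (sec n v)) p) → D.Good r U (phf f p) (Sf f p) := by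
  intro r
  induction r with
  | zero =>
    intro p hp hr U hU hsub ho
    refine ⟨basic_of hf hg hp hU hsub, fun v₀ _ ε hε => Eventually.of_forall fun q => ?_⟩
    have h1 : rk p = 1 := by
      have := hp.rk_pos
      omega
    rw [phf, phn_rk_one h1]
    positivity
  | succ r ih =>
    intro p hp hr U hU hsub ho
    refine ⟨basic_of hf hg hp hU hsub, fun v₀ hv₀ => ?_⟩
    have hv₀' := hsub hv₀
    have horth' : ∀ g ∈ ovr U, OrthP (f g) p := by
      intro g hg'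
      obtain ⟨w, hw, e⟩ := exists_of_ovr hf.kinv hg'
      rw [← e]
      exact ho w hw
    rcases strS hn hf hp (isOpen_ovr hU) horth' (sec_mem_ovr hsub hv₀) with h | h
    · exact Or.inl (zeroSlope_cone hp hv₀' h)
    · right
      obtain ⟨p₁, p₂, hp₁, hp₂, hadd, h12, h21, ⟨ρ, hρ, hor⟩, v, hv, c, t₀, hc, ht₀, hs⟩ := h
      obtain ⟨U', hU'⟩ : ∃ U' : Set (Vec n), U' = U ∩ (Cone n ∩
        (fun v => hq ((sec n v₀)⁻¹ * sec n v)) ⁻¹' Set.Iio (ρ ^ 2)) := ⟨_, rfl⟩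
      have hU'o : IsOpen U' := by
        rw [hU']
        refine hU.inter (ContinuousOn.isOpen_inter_preimage ?_ (isOpen_cone n) isOpen_Iio)
        exact continuousOn_sec (n := n) (u := fun g => hq ((sec n v₀)⁻¹ * g))
          (continuous_hq.comp (continuous_const.mul continuous_id))
      have hU's : U' ⊆ U := by
        rw [hU']
        exact Set.inter_subset_left
      have hv₀U : v₀ ∈ U' := by
        rw [hU']
        refine ⟨hv₀, hv₀', ?_⟩
        show hq ((sec n v₀)⁻¹ * sec n v₀) < ρ ^ 2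
        rw [inv_mul_cancel, hq, ch_one]
        norm_num
        positivity
      have ho' : ∀ v ∈ U', OrthP (f (sec n v)) p₁ ∧ OrthP (f (sec n v)) p₂ := by
        intro w hw
        rw [hU'] at hw
        exact hor _ hw.2.2
      have hra := rk_add hp₁ hp₂ hadd h12 h21
      have q1 := hp₁.rk_pos
      have q2 := hp₂.rk_pos
      exact ⟨U', phf f p₁, phf f p₂, Sf f p₁, Sf f p₂, bf f p₁ p₂, _, _, hv₀U, hU's,
        ih p₁ hp₁ (by omega) U' hU'o (hU's.trans hsub) fun v hv => (ho' v hv).1,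
        ih p₂ hp₂ (by omega) U' hU'o (hU's.trans hsub) fun v hv => (ho' v hv).2,
        split_of hn hf hg hp hp₁ hp₂ hadd h12 h21 hU'o (hU's.trans hsub)
          (fun v hv => (ho' v hv).1) fun v hv => (ho' v hv).2,
        fderiv_bf_ne hn hf hp hp₁ hp₂ hadd h12 h21 hU'o (hU's.trans hsub)
          (fun v hv => (ho' v hv).1) (fun v hv => (ho' v hv).2) hv₀U hv hc ht₀ hs⟩

end Pool.Agent.Lib.MP_5d4057_al.IN
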