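import Pool.Agent.Lib.MP_5d4057_al.IN.CuspR
import Pool.Agent.Lib.MP_5d4057_al.IN.FDef

/-!
# Nonuniform lattices at a finite place: polynomial growth
-/

namespace Pool.Agent.Lib.MP_5d4057_al.IN

open Matrix MeasureTheory Filter Topology Module Pool.Agent.Lib.MP_5d4057_al
  Pool.Agent.Lib.MP_5d4057_al.Hyb Pool.Agent.Lib.MP_5d4057_al.HM
  Pool.Agent.Lib.MP_5d4057_al.HM.Kak Pool.Agent.Lib.MP_5d4057_al.NU

variable {n m : ℕ} {Γ : Subgroup (SUGroup n)}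

/-- A submultiplicative size function which grows polynomially on the cusp groups. -/
structure Siz (Γ : Subgroup (SUGroup n)) (ν : SUGroup n → ℝ) : Prop where
  nonneg : ∀ x, 0 ≤ ν x
  mul : ∀ x y, ν (x * y) ≤ ν x * ν y
  cusp : ∀ (ξ : Fin n → ℂ) (R : ℝ), Par Γ ξ →
    (∀ g ∈ PS ξ, ∃ γ ∈ Γ, γ ∈ St ξ ∧ ch (γ * g) ≤ R) →
    ∃ C : ℝ, 0 < C ∧ ∀ γ ∈ Γ, γ ∈ St ξ → ν γ ≤ C * ch γ ^ 2

private theorem gg_fin (ν : SUGroup n → ℝ) (hd : DiscreteTopology Γ) (R : ℝ) :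
    ∃ C : ℝ, 1 ≤ C ∧ ∀ γ ∈ Γ, ch γ ≤ R → ν γ ≤ C := by
  obtain ⟨C, hC⟩ := ((finite_ch hd R).image (fun γ => ν γ)).bddAbove
  exact ⟨max C 1, le_max_right _ _, fun γ hγ h => (hC ⟨γ, ⟨hγ, h⟩, rfl⟩).trans (le_max_left _ _)⟩

private theorem gg_unif {α : Type} {X : Set α} (hX : X.Finite) {P : α → ℝ → Prop}
    (hm : ∀ a C C', C ≤ C' → P a C → P a C') (h : ∀ a ∈ X, ∃ C, P a C) :
    ∃ C, ∀ a ∈ X, P a C := by
  choose! f hf using h
  obtain ⟨C, hC⟩ := (hX.image f).bddAbove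
  exact ⟨C, fun a ha => hm a _ _ (hC ⟨a, ha, rfl⟩) (hf a ha)⟩

/-- growth on the elements mapping the line of `ξ'` to the line of a transvection -/
private theorem gg_line {ν : SUGroup n → ℝ} (hν : Siz Γ ν) {χ : SUGroup n → ℝ}
    (hL : Lat Γ χ) (hT : TF Γ) (hTor : Tor Γ) {γ : SUGroup n} {ξ : Fin n → ℂ} {κ : ℝ} (hγ : γ ∈ Γ) (h : IsTv γ ξ κ)
    {ξ' : Fin n → ℂ} (hξ' : nq ξ' = 1) :
    ∃ C : ℝ, ∀ η ∈ Γ, mv η ξ' = ξ → ν η ≤ C * ch η ^ 2 := by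
  have hd := hL.disc
  have hξ : nq ξ = 1 := h.1
  obtain ⟨R, X, hR⟩ := exists_rays hL hT
  have hP := h.par hd hγ
  obtain ⟨R', hc⟩ := horo hT hTor hd hR hP ⟨γ, hγ, h.ne_one, h.mem_St⟩
  obtain ⟨C, hC0, hC⟩ := hν.cusp ξ R' hP hc
  by_cases hδ : ∃ δ ∈ Γ, mv δ ξ' = ξ
  · obtain ⟨δ, hδΓ, hδ⟩ := hδ
    refine ⟨C * (2 * ch δ) ^ 2 * ν δ, fun η hη hm => ?_⟩
    have h1 : mv δ⁻¹ ξ = ξ' := by rw [← hδ, mv_inv_mv hξ']
    have h2 : η * δ⁻¹ ∈ St ξ := by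
      rw [mem_St hξ, mv_mul hξ, h1, hm]
    have h3 := hC (η * δ⁻¹) (Γ.mul_mem hη (Γ.inv_mem hδΓ)) h2
    have h4 := ch_mul_le' η δ⁻¹
    rw [ch_inv] at h4
    have h5 := hν.mul (η * δ⁻¹) δ
    rw [inv_mul_cancel_right] at h5
    have h6 := one_le_ch (η * δ⁻¹)
    have h7 := hν.nonneg δ
    calc ν η ≤ ν (η * δ⁻¹) * ν δ := h5
      _ ≤ (C * ch (η * δ⁻¹) ^ 2) * ν δ := by gcongr
      _ ≤ (C * (2 * ch η * ch δ) ^ 2) * ν δ := by gcongr
      _ = _ := by ring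
  · exact ⟨0, fun η hη hm => absurd ⟨η, hη, hm⟩ hδ⟩

/-- finitely many lines of transvections with small displacement on a ball -/
private theorem gg_lines (hd : DiscreteTopology Γ) (hT : TF Γ) (R : ℝ) :
    {ξ : Fin n → ℂ | ∃ γ ∈ Γ, ∃ κ : ℝ, IsTv γ ξ κ ∧ ∃ f : SUGroup n, ch f ≤ R ∧
      ds f γ ≤ 1 / 32}.Finite := by
  have h1 := finite_ds hd R (1 / 32)
  refine (h1.biUnion (t := fun γ => {ξ : Fin n → ℂ | γ ∈ Γ ∧ ∃ κ : ℝ, IsTv γ ξ κ}) ?_).subset ?_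
  · intro γ _
    refine Set.Subsingleton.finite ?_
    rintro ξ ⟨hγ, κ, h⟩ ξ' ⟨_, κ', h'⟩
    exact ((h.par hd hγ).unique hT hγ h.ne_one h.mem_St h'.1 h'.mem_St).symm
  · rintro ξ ⟨γ, hγ, κ, h, f, hf, hds⟩
    exact Set.mem_biUnion (⟨hγ, f, hf, hds⟩ : γ ∈ {γ : SUGroup n | γ ∈ Γ ∧
      ∃ g : SUGroup n, ch g ≤ R ∧ ds g γ ≤ 1 / 32}) ⟨hγ, κ, h⟩

/-- Polynomial growth of a size function. Geodesic `m(τ) = fl ξ τ` from `1` to `γ` (`exists_fl`), `R₁ = max 64 (hty Γ e)`, `F = {ch ≤ R'}` of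
`hty_cpt` for `R₁`. CLAIM: if `γ'⁻¹ m(τ) ∈ F` then `‖t(γ')‖ ≤ C e^(A τ)`, by induction on `⌊τ⌋`. -/
theorem grow_gen (hn : 2 ≤ n) {χ : SUGroup n → ℝ} (hL : Lat Γ χ) (hT : TF Γ) (hTor : Tor Γ)
    {ν : SUGroup n → ℝ} (hν : Siz Γ ν) :
    ∃ (N : ℕ) (C : ℝ), 0 < C ∧ ∀ γ ∈ Γ, ν γ ≤ C * ch γ ^ N := by
  have hd := hL.disc
  have hHt := ht_hty hn hL hT hTor
  set Y : SUGroup n → ℝ := fun g => hty Γ (act g (base n)) with hY
  set R₁ : ℝ := max 64 (Y 1) with hR₁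
  have hR64 : 64 ≤ R₁ := le_max_left _ _
  obtain ⟨R', hcpt⟩ := hty_cpt hn hL hT hTor R₁
  set R : ℝ := max R' 1 with hR
  have hR1 : 1 ≤ R := le_max_right _ _
  have hcpt' : ∀ g : SUGroup n, Y g ≤ R₁ → ∃ γ ∈ Γ, ch (γ * g) ≤ R := fun g hg => by
    obtain ⟨γ, hγ, h⟩ := hcpt g hg
    exact ⟨γ, hγ, h.trans (le_max_left _ _)⟩
  -- the constants
  obtain ⟨C₁, hC₁1, hC₁⟩ := gg_fin ν hd (4 * R ^ 2 * Real.exp 1)
  set X : Set (Fin n → ℂ) := {ξ : Fin n → ℂ | ∃ γ ∈ Γ, ∃ κ : ℝ, IsTv γ ξ κ ∧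
    ∃ f : SUGroup n, ch f ≤ R ∧ ds f γ ≤ 1 / 32} with hX
  have hXf : X.Finite := gg_lines hd hT R
  obtain ⟨C₂, hC₂1, hC₂⟩ : ∃ C₂ : ℝ, 1 ≤ C₂ ∧ ∀ ξ ∈ X, ∀ ξ' ∈ X, ∀ η ∈ Γ, mv η ξ' = ξ →
      ν η ≤ C₂ * ch η ^ 2 := by
    have h1 : ∃ C : ℝ, ∀ a ∈ X ×ˢ X, ∀ η ∈ Γ, mv η a.2 = a.1 →
        ν η ≤ C * ch η ^ 2 := by
      refine gg_unif (hXf.prod hXf) (P := fun a C => ∀ η ∈ Γ, mv η a.2 = a.1 →
        ν η ≤ C * ch η ^ 2) ?_ ?_
      · intro a C C' hCC h η hη hm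
        exact (h η hη hm).trans (mul_le_mul_of_nonneg_right hCC (sq_nonneg _))
      · rintro ⟨ξ, ξ'⟩ ⟨⟨γ, hγ, κ, h, -⟩, ⟨γ', hγ', κ', h', -⟩⟩
        exact gg_line hν hL hT hTor hγ h h'.1
    obtain ⟨C, hC⟩ := h1
    refine ⟨max C 1, le_max_right _ _, fun ξ hξ ξ' hξ' η hη hm => ?_⟩
    exact (hC (ξ, ξ') ⟨hξ, hξ'⟩ η hη hm).trans
      (mul_le_mul_of_nonneg_right (le_max_left _ _) (sq_nonneg _))
  set C₃ : ℝ := C₁ * C₂ * (4 * R ^ 2) ^ 2 with hC₃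
  have hC₁3 : C₁ ≤ C₃ := by
    have h1 : 1 ≤ C₂ * (4 * R ^ 2) ^ 2 := by
      have h2 : 1 ≤ 4 * R ^ 2 := by nlinarith
      have h3 : 1 ≤ (4 * R ^ 2) ^ 2 := one_le_pow₀ h2
      nlinarith
    rw [hC₃, mul_assoc]
    exact le_mul_of_one_le_right (by linarith) h1
  obtain ⟨A, hA⟩ := exists_nat_ge (C₃ + 2)
  have hexp : ∀ u : ℝ, 1 ≤ u → C₃ * Real.exp (2 * u) ≤ Real.exp (A * u) := by
    intro u hu
    have h1 : (A : ℝ) * u = (A - 2) * u + 2 * u := by ring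
    rw [h1, Real.exp_add]
    refine mul_le_mul_of_nonneg_right ?_ (Real.exp_pos _).le
    have h2 := Real.add_one_le_exp (((A : ℝ) - 2) * u)
    have h3 : (A : ℝ) - 2 ≤ ((A : ℝ) - 2) * u := le_mul_of_one_le_right (by linarith) hu
    linarith
  -- the composition bound
  have hcomp : ∀ (ζ : Fin n → ℂ) (x y : SUGroup n) (s s' : ℝ), ch (x⁻¹ * fl ζ s) ≤ R →
      ch (y⁻¹ * fl ζ s') ≤ R → s ≤ s' → ch (x⁻¹ * y) ≤ 4 * R ^ 2 * Real.exp (s' - s) := by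
    intro ζ x y s s' h1 h2 h3
    have e : x⁻¹ * y = (x⁻¹ * fl ζ s) * fl ζ (s' - s) * (y⁻¹ * fl ζ s')⁻¹ := by
      have e1 : fl ζ s' = fl ζ s * fl ζ (s' - s) := by
        rw [← fl_add]
        congr 1
        ring
      rw [e1]
      group
    have h4 := ch_le_wt (x⁻¹ * y)
    have h5 := wt_mul_le ((x⁻¹ * fl ζ s) * fl ζ (s' - s)) (y⁻¹ * fl ζ s')⁻¹
    have h6 := wt_mul_le (x⁻¹ * fl ζ s) (fl ζ (s' - s))
    rw [← e, wt_inv] at h5
    have h7 := wt_fl_le ζ (s' - s)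
    rw [abs_of_nonneg (by linarith)] at h7
    have h8 := wt_le (x⁻¹ * fl ζ s)
    have h9 := wt_le (y⁻¹ * fl ζ s')
    have p1 := one_le_wt (x⁻¹ * fl ζ s)
    have p2 := one_le_wt (y⁻¹ * fl ζ s')
    have p3 := one_le_wt (fl ζ (s' - s))
    calc ch (x⁻¹ * y) ≤ wt (x⁻¹ * fl ζ s * fl ζ (s' - s)) * wt (y⁻¹ * fl ζ s') := h4.trans h5
      _ ≤ (wt (x⁻¹ * fl ζ s) * wt (fl ζ (s' - s))) * wt (y⁻¹ * fl ζ s') := by gcongr
      _ ≤ (2 * R * Real.exp (s' - s)) * (2 * R) := by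
          gcongr
          · linarith
          · linarith
      _ = _ := by ring
  have hbd1 : ∀ (ζ : Fin n → ℂ) (x y : SUGroup n) (s s' : ℝ), x ∈ Γ → y ∈ Γ →
      ch (x⁻¹ * fl ζ s) ≤ R → ch (y⁻¹ * fl ζ s') ≤ R → s ≤ s' → s' ≤ s + 1 →
      ν (x⁻¹ * y) ≤ C₁ := by
    intro ζ x y s s' hx hy h1 h2 h3 h4
    refine hC₁ _ (Γ.mul_mem (Γ.inv_mem hx) hy) ((hcomp ζ x y s s' h1 h2 h3).trans ?_)
    have : Real.exp (s' - s) ≤ Real.exp 1 := Real.exp_le_exp.2 (by linarith)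
    gcongr
  have hone : ∀ ζ : Fin n → ℂ, ch ((1 : SUGroup n)⁻¹ * fl ζ 0) ≤ R := by
    intro ζ
    rw [fl_zero, inv_one, one_mul, ch_one]
    exact hR1
  have hY1 : Y 1 ≤ R₁ := le_max_right _ _
  have hYinv : ∀ γ ∈ Γ, ∀ g, Y (γ * g) = Y g := by
    intro γ hγ g
    simp only [hY]
    rw [act_mul, hHt.inv γ hγ _ (orbit_mem g)]
  -- the claim
  have claim : ∀ (ζ : Fin n → ℂ), nq ζ = 1 → ∀ (N : ℕ) (τ : ℝ) (γ' : SUGroup n), 0 ≤ τ →
      τ < N + 1 → γ' ∈ Γ → ch (γ'⁻¹ * fl ζ τ) ≤ R → Y (fl ζ τ) ≤ R₁ →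
      ν γ' ≤ C₁ * Real.exp (A * τ) := by
    intro ζ hζ N
    have hbase : ∀ (τ : ℝ) (γ' : SUGroup n), 0 ≤ τ → τ < 1 → γ' ∈ Γ →
        ch (γ'⁻¹ * fl ζ τ) ≤ R → ν γ' ≤ C₁ * Real.exp (A * τ) := by
      intro τ γ' h0 h1 hγ' hch
      have h2 := hbd1 ζ 1 γ' 0 τ Γ.one_mem hγ' (hone ζ) hch h0 (by linarith)
      rw [inv_one, one_mul] at h2
      refine h2.trans (le_mul_of_one_le_right (by linarith) ?_)
      exact Real.one_le_exp (by positivity)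
    induction N with
    | zero =>
      intro τ γ' h0 h1 hγ' hch _
      exact hbase τ γ' h0 (by simpa using h1) hγ' hch
    | succ N ih =>
      intro τ γ' h0 h1 hγ' hch hYτ
      rcases lt_or_ge τ 1 with hτ | hτ
      · exact hbase τ γ' h0 hτ hγ' hch
      push_cast at h1
      rcases le_or_gt (Y (fl ζ (τ - 1))) R₁ with hy | hy
      · -- the point at distance one is in the thick part
        obtain ⟨γa, hγa, hcha⟩ := hcpt' _ hy
        have hcha' : ch (γa⁻¹⁻¹ * fl ζ (τ - 1)) ≤ R := by rwa [inv_inv]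
        have h2 := ih (τ - 1) γa⁻¹ (by linarith) (by linarith) (Γ.inv_mem hγa) hcha' hy
        have h3 := hbd1 ζ γa⁻¹ γ' (τ - 1) τ (Γ.inv_mem hγa) hγ' hcha' hch (by linarith)
          (by linarith)
        have h4 := hν.mul γa⁻¹ (γa⁻¹⁻¹ * γ')
        rw [mul_inv_cancel_left] at h4
        have h5 : C₁ ≤ Real.exp A := by
          have h6 := hexp 1 le_rfl
          rw [mul_one, mul_one] at h6
          have h7 : 1 ≤ Real.exp 2 := Real.one_le_exp (by norm_num)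
          nlinarith
        have h8 : Real.exp (A * τ) = Real.exp (A * (τ - 1)) * Real.exp A := by
          rw [← Real.exp_add]
          congr 1
          ring
        have h9 := hν.nonneg (γa⁻¹⁻¹ * γ')
        calc ν γ' ≤ _ := h4
          _ ≤ (C₁ * Real.exp (A * (τ - 1))) * C₁ := by gcongr
          _ ≤ (C₁ * Real.exp (A * (τ - 1))) * Real.exp A := by gcongr
          _ = _ := by rw [h8]; ring
      · -- the point at distance one is in a cusp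
        obtain ⟨γT, hγT, ξ, κ, hTv, hYeq⟩ := exists_hty hd (fl ζ (τ - 1))
          (lt_of_lt_of_le (by norm_num) (hR64.trans hy.le))
        have hξ : nq ξ = 1 := hTv.1
        set φ : ℝ → ℝ := fun s => yp (pe ξ) (act (fl ζ s) (base n)) / |κ| with hφ
        have hκ : κ ≠ 0 := hTv.2.1
        have hp0 : pe ξ ≠ 0 := pe_ne_zero ξ
        have hq0 : q (pe ξ) = 0 := by rw [q_pe, hξ, sub_self]
        have hφc : Continuous φ := by
          have h2 : Continuous fun s : ℝ => act (fl ζ s) (base n) :=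
            continuous_orbit.comp (continuous_fl ζ)
          have h3 : Continuous fun s : ℝ => yp (pe ξ) (act (fl ζ s) (base n)) :=
            (continuousOn_yp hp0 hq0).comp_continuous h2 fun s => orbit_mem _
          exact h3.div_const _
        have hφY : ∀ s, φ s ≤ Y (fl ζ s) := fun s => le_hty hd hγT hTv (fl ζ s)
        have hφ0 : φ 0 ≤ R₁ := by
          refine (hφY 0).trans ?_
          rw [fl_zero]
          exact hY1
        have hφτ : φ τ ≤ R₁ := (hφY τ).trans hYτ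
        have hφ1 : R₁ ≤ φ (τ - 1) := by
          have : Y (fl ζ (τ - 1)) = φ (τ - 1) := hYeq
          rw [← this]
          exact hy.le
        have hφu : ∀ s, φ s = R₁ → Y (fl ζ s) = R₁ := by
          intro s hs
          have h2 : Y (fl ζ s) = φ s := hty_unique hd hT hγT hTv hYeq (g' := fl ζ s) (by
            change 16 ≤ φ s
            rw [hs]
            linarith)
          rw [h2, hs]
        obtain ⟨s₁, ⟨hs₁0, hs₁1⟩, hs₁⟩ := intermediate_value_Icc (by linarith : (0 : ℝ) ≤ τ - 1)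
          hφc.continuousOn ⟨hφ0, hφ1⟩
        obtain ⟨s₂, ⟨hs₂0, hs₂1⟩, hs₂⟩ := intermediate_value_Icc' (by linarith : τ - 1 ≤ τ)
          hφc.continuousOn ⟨hφτ, hφ1⟩
        have hY₁ := hφu s₁ hs₁
        have hY₂ := hφu s₂ hs₂
        obtain ⟨γa, hγa, hcha⟩ := hcpt' _ hY₁.le
        obtain ⟨γb, hγb, hchb⟩ := hcpt' _ hY₂.le
        have hcha' : ch (γa⁻¹⁻¹ * fl ζ s₁) ≤ R := by rwa [inv_inv]
        have hchb' : ch (γb⁻¹⁻¹ * fl ζ s₂) ≤ R := by rwa [inv_inv]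
        -- the two lines
        have hline : ∀ (s : ℝ) (γc : SUGroup n), γc ∈ Γ → ch (γc * fl ζ s) ≤ R → φ s = R₁ →
            mv γc ξ ∈ X := by
          intro s γc hγc hc hs
          refine ⟨γc * γT * γc⁻¹, Γ.mul_mem (Γ.mul_mem hγc hγT) (Γ.inv_mem hγc),
            κ * ‖ml γc ξ‖ ^ 2, hTv.conj, γc * fl ζ s, hc, ?_⟩
          rw [ds_conj]
          have e : γc⁻¹ * (γc * γT * γc⁻¹) * γc = γT := by group
          rw [e]
          have h2 : ds (fl ζ s) γT * φ s = 2 := hTv.ds (fl ζ s)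
          rw [hs] at h2
          have h3 := ds_nonneg (fl ζ s) γT
          nlinarith
        have hX₁ := hline s₁ γa hγa hcha hs₁
        have hX₂ := hline s₂ γb hγb hchb hs₂
        have hmv : mv (γa * γb⁻¹) (mv γb ξ) = mv γa ξ := by
          rw [mv_mul (nq_mv hξ γb), mv_inv_mv hξ]
        have h2 := hC₂ _ hX₁ _ hX₂ (γa * γb⁻¹) (Γ.mul_mem hγa (Γ.inv_mem hγb)) hmv
        have h3 := hcomp ζ γa⁻¹ γb⁻¹ s₁ s₂ hcha' hchb' (by linarith)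
        rw [inv_inv] at h3
        have h4 := ih s₁ γa⁻¹ hs₁0 (by linarith) (Γ.inv_mem hγa) hcha' hY₁.le
        have h5 := hbd1 ζ γb⁻¹ γ' s₂ τ (Γ.inv_mem hγb) hγ' hchb' hch hs₂1 (by linarith)
        rw [inv_inv] at h5
        have h6 := hν.mul γa⁻¹ ((γa * γb⁻¹) * (γb * γ'))
        have h7 := hν.mul (γa * γb⁻¹) (γb * γ')
        have e : γa⁻¹ * ((γa * γb⁻¹) * (γb * γ')) = γ' := by group
        rw [e] at h6
        have h8 := one_le_ch (γa * γb⁻¹)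
        have h9 : (Real.exp (s₂ - s₁)) ^ 2 ≤ Real.exp (2 * (τ - s₁)) := by
          rw [← Real.exp_nat_mul]
          refine Real.exp_le_exp.2 ?_
          push_cast
          linarith
        have h10 := hexp (τ - s₁) (by linarith)
        have h11 : Real.exp (A * τ) = Real.exp (A * s₁) * Real.exp (A * (τ - s₁)) := by
          rw [← Real.exp_add]
          congr 1
          ring
        have p1 := hν.nonneg (γa * γb⁻¹)
        have p2 := hν.nonneg (γb * γ')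
        calc ν γ' ≤ ν (γa⁻¹) *
              (ν (γa * γb⁻¹) * ν (γb * γ')) :=
              h6.trans (mul_le_mul_of_nonneg_left h7 (hν.nonneg _))
          _ ≤ (C₁ * Real.exp (A * s₁)) * ((C₂ * ch (γa * γb⁻¹) ^ 2) * C₁) := by gcongr
          _ ≤ (C₁ * Real.exp (A * s₁)) *
              ((C₂ * (4 * R ^ 2 * Real.exp (s₂ - s₁)) ^ 2) * C₁) := by gcongr
          _ = (C₁ * Real.exp (A * s₁)) * (C₃ * (Real.exp (s₂ - s₁)) ^ 2) := by
              rw [hC₃]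
              ring
          _ ≤ (C₁ * Real.exp (A * s₁)) * (C₃ * Real.exp (2 * (τ - s₁))) := by
              have : 0 ≤ C₃ := by linarith
              gcongr
          _ ≤ (C₁ * Real.exp (A * s₁)) * Real.exp (A * (τ - s₁)) := by gcongr
          _ = _ := by rw [h11]; ring
  refine ⟨A, C₁ * 2 ^ A, by positivity, fun γ hγ => ?_⟩
  obtain ⟨ζ, d, k, hζ, hd0, hk, hγe, hwt⟩ := exists_fl (by omega) (γ : SUGroup n)
  obtain ⟨N, hN⟩ := exists_nat_gt d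
  have hfl : fl ζ d = (γ : SUGroup n) * k⁻¹ := by rw [hγe, mul_inv_cancel_right]
  have hwtk : wt k⁻¹ = 1 := by
    rw [wt_inv, wt, hk]
    norm_num
  have h1 : ch ((γ : SUGroup n)⁻¹ * fl ζ d) ≤ R := by
    rw [hfl, inv_mul_cancel_left, ch_inv, hk]
    exact hR1
  have h2 : Y (fl ζ d) ≤ R₁ := by
    rw [hfl, hYinv _ hγ]
    have h3 := hHt.harn 1 k⁻¹
    rw [hwtk, one_pow, one_mul, one_mul] at h3
    exact h3.trans hY1
  have h4 := claim ζ hζ N d γ hd0 (by linarith) hγ h1 h2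
  refine h4.trans ?_
  have h5 : Real.exp (A * d) = wt (γ : SUGroup n) ^ A := by
    rw [hwt, ← Real.exp_nat_mul]
  rw [h5, mul_assoc, ← mul_pow]
  have h6 := wt_le (γ : SUGroup n)
  have h7 := one_le_wt (γ : SUGroup n)
  gcongr

/-- The largest norm of an entry is a size function. -/
theorem siz_ent {E : Type} [NormedField E] [IsUltrametricDist E] (σ : ℂ →+* E)
    (hd : DiscreteTopology Γ) : Siz Γ fun γ => ent σ γ.toMatrix where
  nonneg := fun x => ent_nonneg σ _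
  mul := fun x y => by
    show ent σ (x * y).toMatrix ≤ _
    rw [toMatrix_mul]
    exact ent_mul σ _ _
  cusp := by
    intro ξ R hP hc
    obtain ⟨C, hC, h⟩ := bdd_St σ hd hP hc
    refine ⟨C, hC, fun γ hγ hs => (h γ hγ hs).trans (le_mul_of_one_le_right hC.le ?_)⟩
    exact one_le_pow₀ (one_le_ch γ)

/-- Finitely many cosets. -/
theorem exists_cosets {Γ' : Subgroup (SUGroup n)} (hfi : Γ'.relIndex Γ ≠ 0) :
    ∃ S : Finset (SUGroup n), (∀ c ∈ S, c ∈ Γ) ∧ ∀ γ ∈ Γ, ∃ c ∈ S, c⁻¹ * γ ∈ Γ' := by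
  classical
  have hfin : (Γ'.subgroupOf Γ).FiniteIndex := ⟨hfi⟩
  have : Fintype (Γ ⧸ Γ'.subgroupOf Γ) := Subgroup.fintypeQuotientOfFiniteIndex
  refine ⟨Finset.univ.image (fun q : Γ ⧸ Γ'.subgroupOf Γ => (q.out : SUGroup n)), ?_, ?_⟩
  · intro c hc
    obtain ⟨q, -, rfl⟩ := Finset.mem_image.1 hc
    exact q.out.2
  · intro γ hγ
    refine ⟨_, Finset.mem_image.2 ⟨((⟨γ, hγ⟩ : Γ) : Γ ⧸ Γ'.subgroupOf Γ), Finset.mem_univ _, rfl⟩, ?_⟩
    have h1 := QuotientGroup.eq.1 (QuotientGroup.out_eq' ((⟨γ, hγ⟩ : Γ) : Γ ⧸ Γ'.subgroupOf Γ))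
    rwa [Subgroup.mem_subgroupOf] at h1

/-- Polynomial growth at a finite place passes to a larger group in which the index is finite. -/
theorem grow_ent_of_relIndex {E : Type} [NormedField E] [IsUltrametricDist E] (σ : ℂ →+* E)
    {Γ' : Subgroup (SUGroup n)} (hfi : Γ'.relIndex Γ ≠ 0) {N : ℕ} {C : ℝ} (hC : 0 < C)
    (h : ∀ γ ∈ Γ', ent σ γ.toMatrix ≤ C * ch γ ^ N) :
    ∃ C' : ℝ, 0 < C' ∧ ∀ γ ∈ Γ, ent σ γ.toMatrix ≤ C' * ch γ ^ N := by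
  obtain ⟨S, -, hS⟩ := exists_cosets (Γ := Γ) hfi
  have hp : ∀ c : SUGroup n, 0 ≤ ent σ c.toMatrix * (2 * ch c) ^ N := fun c =>
    mul_nonneg (ent_nonneg σ _) (pow_nonneg (by linarith [one_le_ch c]) _)
  refine ⟨C * (∑ c ∈ S, ent σ c.toMatrix * (2 * ch c) ^ N + 1), ?_, fun γ hγ => ?_⟩
  · have := Finset.sum_nonneg fun c (_ : c ∈ S) => hp c
    positivity
  obtain ⟨c, hc, hcγ⟩ := hS γ hγ
  have h1 := h _ hcγ
  have e1 : γ.toMatrix = c.toMatrix * (c⁻¹ * γ).toMatrix := by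
    rw [← toMatrix_mul, mul_inv_cancel_left]
  have h2 := ch_mul_le' c⁻¹ γ
  rw [ch_inv] at h2
  have h3 : ch (c⁻¹ * γ) ^ N ≤ (2 * ch c) ^ N * ch γ ^ N := by
    rw [← mul_pow]
    exact pow_le_pow_left₀ (ch_pos _).le h2 _
  have h4 : 0 ≤ ch γ ^ N := pow_nonneg (ch_pos _).le _
  have h5 : ent σ c.toMatrix * (2 * ch c) ^ N ≤ ∑ c ∈ S, ent σ c.toMatrix * (2 * ch c) ^ N :=
    Finset.single_le_sum (fun c _ => hp c) hc
  calc ent σ γ.toMatrix ≤ ent σ c.toMatrix * ent σ (c⁻¹ * γ).toMatrix := by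
        rw [e1]
        exact ent_mul σ _ _
    _ ≤ ent σ c.toMatrix * (C * ((2 * ch c) ^ N * ch γ ^ N)) := by
        refine mul_le_mul_of_nonneg_left (h1.trans ?_) (ent_nonneg σ _)
        exact mul_le_mul_of_nonneg_left h3 hC.le
    _ = C * (ent σ c.toMatrix * (2 * ch c) ^ N) * ch γ ^ N := by ring
    _ ≤ C * (∑ c ∈ S, ent σ c.toMatrix * (2 * ch c) ^ N + 1) * ch γ ^ N := by
        refine mul_le_mul_of_nonneg_right (mul_le_mul_of_nonneg_left ?_ hC.le) h4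
        linarith

/-- GroN: the entries of a lattice grow polynomially at a finite place. -/
theorem grow_place (hn : 2 ≤ n) (hL : IsLattice Γ) (hf : FGG Γ) {E : Type} [NormedField E]
    [IsUltrametricDist E] (σ : ℂ →+* E) :
    ∃ (N : ℕ) (C : ℝ), 0 < C ∧ ∀ γ ∈ Γ, ent σ γ.toMatrix ≤ C * ch γ ^ N := by
  obtain ⟨χ, hχ⟩ := exists_lat hL
  obtain ⟨Γ', hle, hfi, -, hTor⟩ := exists_tor hf
  obtain ⟨χ', hχ'⟩ := hχ.finite_index hle hfi
  obtain ⟨N, C, hC, h⟩ := grow_gen hn hχ' (tf_of_tor hχ'.disc hTor) hTor (siz_ent σ hχ'.disc)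
  obtain ⟨C', hC', h'⟩ := grow_ent_of_relIndex σ hfi hC h
  exact ⟨N, C', hC', h'⟩

variable {k : Type} [NontriviallyNormedField k] [IsUltrametricDist k] [ProperSpace k]
  {E : Type} [NormedField E]

/-- The operator norm of `ρ γ` is controlled by the entries. -/
theorem exists_op_ent (N₀ : Nm k (Fin (n + 1) → k)) (σ : ℂ →+* E) {i : k →+* E}
    (hi : ∀ x, ‖i x‖ = ‖x‖) {ρ : Γ →* ((Fin (n + 1) → k) ≃ₗ[k] (Fin (n + 1) → k))}
    (hρ : ∀ γ : Γ, (LinearMap.toMatrix' (ρ γ : (Fin (n + 1) → k) →ₗ[k] (Fin (n + 1) → k))).map i =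
      (γ : SUGroup n).toMatrix.map σ) :
    ∃ C : ℝ, 0 < C ∧ ∀ (γ : Γ) (w : Fin (n + 1) → k),
      N₀ (ρ γ w) ≤ C * ent σ (γ : SUGroup n).toMatrix * N₀ w := by
  obtain ⟨N₁, hN₁⟩ : ∃ N₁ : Nm k (Fin (n + 1) → k),
    N₁ = Nm.ofBasis (Pi.basisFun k (Fin (n + 1))) (fun _ => 1) (fun _ => one_pos) := ⟨_, rfl⟩
  have hN : ∀ w, N₁ w = ⨆ a, ‖w a‖ := by
    intro w
    rw [hN₁, Nm.ofBasis_apply]
    simp
  obtain ⟨C₁, hC₁, h1⟩ := N₀.exists_le N₁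
  obtain ⟨C₂, hC₂, h2⟩ := N₁.exists_le N₀
  refine ⟨C₂ * C₁, mul_pos hC₂ hC₁, fun γ w => ?_⟩
  have hle : ∀ a, ‖w a‖ ≤ N₁ w := by
    intro a
    rw [hN]
    exact le_ciSup (f := fun a => ‖w a‖) (Set.finite_range _).bddAbove a
  have h3 : N₁ (ρ γ w) ≤ ent σ (γ : SUGroup n).toMatrix * N₁ w := by
    rw [hN (ρ γ w)]
    refine ciSup_le fun a => ?_
    have e1 : ρ γ w a = ∑ b, LinearMap.toMatrix'
        (ρ γ : (Fin (n + 1) → k) →ₗ[k] (Fin (n + 1) → k)) a b * w b := by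
      have e2 := congrFun (LinearMap.toMatrix'_mulVec
        (ρ γ : (Fin (n + 1) → k) →ₗ[k] (Fin (n + 1) → k)) w) a
      exact e2.symm
    rw [e1]
    refine ultra_sum _ _ (mul_nonneg (ent_nonneg σ _) (N₁.nonneg w)) fun b _ => ?_
    rw [norm_mul]
    refine mul_le_mul ?_ (hle b) (norm_nonneg _) (ent_nonneg σ _)
    have e3 : i (LinearMap.toMatrix'
        (ρ γ : (Fin (n + 1) → k) →ₗ[k] (Fin (n + 1) → k)) a b) =
        σ ((γ : SUGroup n).toMatrix a b) := congrFun (congrFun (hρ γ) a) b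
    rw [← hi, e3]
    exact le_ent σ _ a b
  calc N₀ (ρ γ w) ≤ C₂ * N₁ (ρ γ w) := h2 _
    _ ≤ C₂ * (ent σ (γ : SUGroup n).toMatrix * N₁ w) := mul_le_mul_of_nonneg_left h3 hC₂.le
    _ ≤ C₂ * (ent σ (γ : SUGroup n).toMatrix * (C₁ * N₀ w)) :=
        mul_le_mul_of_nonneg_left (mul_le_mul_of_nonneg_left (h1 w) (ent_nonneg σ _)) hC₂.le
    _ = _ := by ring

/-- GroN, for the representation. -/
theorem grow_rho (hn : 2 ≤ n) (hL : IsLattice Γ) (hf : FGG Γ) [IsUltrametricDist E]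
    (N₀ : Nm k (Fin (n + 1) → k)) (σ : ℂ →+* E) {i : k →+* E}
    (hi : ∀ x, ‖i x‖ = ‖x‖) {ρ : Γ →* ((Fin (n + 1) → k) ≃ₗ[k] (Fin (n + 1) → k))}
    (hρ : ∀ γ : Γ, (LinearMap.toMatrix' (ρ γ : (Fin (n + 1) → k) →ₗ[k] (Fin (n + 1) → k))).map i =
      (γ : SUGroup n).toMatrix.map σ) :
    ∃ (N : ℕ) (C : ℝ), 0 < C ∧ ∀ (γ : Γ) (w : Fin (n + 1) → k),
      N₀ (ρ γ w) ≤ C * wt (γ : SUGroup n) ^ N * N₀ w := by
  obtain ⟨N, C, hC, h⟩ := grow_place hn hL hf σ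
  obtain ⟨C', hC', h'⟩ := exists_op_ent N₀ σ hi hρ
  refine ⟨N, C' * C, mul_pos hC' hC, fun γ w => (h' γ w).trans ?_⟩
  refine mul_le_mul_of_nonneg_right ?_ (N₀.nonneg w)
  rw [mul_assoc C' C]
  refine mul_le_mul_of_nonneg_left ((h γ γ.2).trans (mul_le_mul_of_nonneg_left ?_ hC.le)) hC'.le
  exact pow_le_pow_left₀ (ch_pos _).le (ch_le_wt _) _

/-- The displacement of a norm grows logarithmically. -/
theorem dist_act_le (hn : 2 ≤ n) (hL : IsLattice Γ) (hf : FGG Γ) [IsUltrametricDist E]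
    (N₀ : Nm k (Fin (n + 1) → k)) (σ : ℂ →+* E) {i : k →+* E}
    (hi : ∀ x, ‖i x‖ = ‖x‖) {ρ : Γ →* ((Fin (n + 1) → k) ≃ₗ[k] (Fin (n + 1) → k))}
    (hρ : ∀ γ : Γ, (LinearMap.toMatrix' (ρ γ : (Fin (n + 1) → k) →ₗ[k] (Fin (n + 1) → k))).map i =
      (γ : SUGroup n).toMatrix.map σ) :
    ∃ C : ℝ, 0 < C ∧ ∀ γ : Γ,
      dist N₀ (N₀.act (ρ γ)) ≤ C * (1 + Real.log (wt (γ : SUGroup n))) := by
  obtain ⟨N, C, hC, h⟩ := grow_rho hn hL hf N₀ σ hi hρ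
  refine ⟨|Real.log C| + N + 1, by positivity, fun γ => ?_⟩
  have hw := one_le_wt (γ : SUGroup n)
  have hlw := Real.log_nonneg hw
  refine Nm.dist_le (fun v hv => ?_) (by positivity)
  have hv0 := N₀.pos hv
  have h1 : N₀ ((ρ γ).symm v) ≤ C * wt (γ : SUGroup n) ^ N * N₀ v := by
    have h2 := h γ⁻¹ v
    have e1 : (ρ γ⁻¹) v = (ρ γ).symm v := by
      rw [map_inv]
      rfl
    rwa [e1, Subgroup.coe_inv, wt_inv] at h2
  have h2 : N₀ v ≤ C * wt (γ : SUGroup n) ^ N * N₀ ((ρ γ).symm v) := by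
    have h3 := h γ ((ρ γ).symm v)
    rwa [LinearEquiv.apply_symm_apply] at h3
  have hs : (ρ γ).symm v ≠ 0 := by
    intro h0
    rw [h0, N₀.zero, mul_zero] at h2
    linarith
  have hs0 := N₀.pos hs
  rw [Nm.act_apply]
  have hwN : 0 < wt (γ : SUGroup n) ^ N := by positivity
  have e : ∀ {x y : ℝ}, 0 < x → 0 < y → x ≤ C * wt (γ : SUGroup n) ^ N * y →
      Real.log x - Real.log y ≤ Real.log C + N * Real.log (wt (γ : SUGroup n)) := by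
    intro x y hx hy hxy
    have h4 := Real.log_le_log hx hxy
    rw [Real.log_mul (by positivity) hy.ne', Real.log_mul hC.ne' hwN.ne', Real.log_pow] at h4
    linarith
  have h5 := e hv0 hs0 h2
  have h6 := e hs0 hv0 h1
  have h7 := le_abs_self (Real.log C)
  have h8 := abs_nonneg (Real.log C)
  have hN0 : (0 : ℝ) ≤ N := Nat.cast_nonneg N
  have h9 : 0 ≤ |Real.log C| * Real.log (wt (γ : SUGroup n)) := mul_nonneg h8 hlw
  rw [abs_le]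
  constructor <;> nlinarith

end Pool.Agent.Lib.MP_5d4057_al.IN
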