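import Mathlib

/-!
# Barycentres in proper spaces with midpoints and the CN inequality; Jensen

`ph` is the squared distance. Only midpoints are used. Text: A11, A12 of h50_int.md.
-/

namespace Pool.Agent.Lib.MP_5d4057_al.IN

open MeasureTheory Filter Topology

/-- A metric space together with a squared CAT(0) distance `ph`, comparable with `dist ^ 2`, given by
midpoints and the CN inequality. -/
structure CN (Y : Type) [MetricSpace Y] where
  ph : Y → Y → ℝ
  mid : Y → Y → Y
  C : ℝ
  one_le : 1 ≤ C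
  symm : ∀ x y, ph x y = ph y x
  lower : ∀ x y, dist x y ^ 2 ≤ ph x y
  upper : ∀ x y, ph x y ≤ C * dist x y ^ 2
  lip : ∀ x y z, |ph x z - ph y z| ≤ C * dist x y * (dist x z + dist y z)
  mid_left : ∀ x y, ph x (mid x y) = ph x y / 4
  cn : ∀ p x y, ph p (mid x y) ≤ ph p x / 2 + ph p y / 2 - ph x y / 4

variable {Y : Type} [MetricSpace Y] {Y' : Type} [MetricSpace Y']

/-- Midpoint convex functions. -/
def CN.Cvx (H : CN Y) (φ : Y → ℝ) : Prop := ∀ x y, φ (H.mid x y) ≤ (φ x + φ y) / 2

theorem CN.self (H : CN Y) (x : Y) : H.ph x x = 0 := by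
  have := H.lower x x
  have := H.upper x x
  simp at *
  linarith

theorem CN.nonneg (H : CN Y) (x y : Y) : 0 ≤ H.ph x y := le_trans (sq_nonneg _) (H.lower x y)

theorem CN.continuous (H : CN Y) (x : Y) : Continuous (H.ph x) := by
  rw [continuous_iff_continuousAt]
  intro a
  rw [ContinuousAt, tendsto_iff_dist_tendsto_zero]
  have h1 : Tendsto (fun b => H.C * dist b a * (dist b x + dist a x)) (𝓝 a) (𝓝 0) := by
    have hc : Continuous fun b => H.C * dist b a * (dist b x + dist a x) := by fun_prop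
    have := hc.tendsto a
    simpa using this
  refine squeeze_zero (fun b => dist_nonneg) (fun b => ?_) h1
  rw [Real.dist_eq, H.symm x b, H.symm x a]
  exact H.lip b a x

/-- Minimisers of strongly convex functions. PROOF: `F x + F y ≥ 2 B + c / 2 * ph x y` gives
coercivity; a continuous coercive function on a proper space attains its minimum `z`. Then with
`m 0 = y`, `m (i + 1) = mid z (m i)`, `ph z (m i) = 4^(-i) ph z y` one proves by induction
`F (m i) ≤ (1 - t) F z + t F y - c t (1 - t) ph z y`, `t = 2^(-i)`; `F z ≤ F (m i)`, divide by `t`,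
`i → ∞`. -/
theorem CN.exists_min [ProperSpace Y] [Nonempty Y] (H : CN Y) {F : Y → ℝ} (hF : Continuous F)
    {B : ℝ} (hB : ∀ y, B ≤ F y) {c : ℝ} (hc : 0 < c)
    (hm : ∀ x y, F (H.mid x y) ≤ (F x + F y) / 2 - c / 4 * H.ph x y) :
    ∃ z, ∀ y, F z + c * H.ph z y ≤ F y := by
  obtain ⟨x₀⟩ := ‹Nonempty Y›
  -- the sublevel set is bounded
  have hb : ∀ y, F y ≤ F x₀ → dist y x₀ ≤ Real.sqrt (4 / c * (F x₀ - B)) := by
    intro y hy
    have h1 := hm x₀ y
    have h2 := hB (H.mid x₀ y)
    have h3 := H.lower x₀ y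
    rw [dist_comm]
    apply Real.le_sqrt_of_sq_le
    rw [div_mul_eq_mul_div, le_div_iff₀ hc]
    nlinarith
  obtain ⟨z, hz, hmin⟩ := (isCompact_closedBall x₀ (Real.sqrt (4 / c * (F x₀ - B)))).exists_isMinOn
    ⟨x₀, Metric.mem_closedBall_self (Real.sqrt_nonneg _)⟩ hF.continuousOn
  have hzx : F z ≤ F x₀ := hmin (Metric.mem_closedBall_self (Real.sqrt_nonneg _))
  have hzy : ∀ y, F z ≤ F y := by
    intro y
    rcases le_total (F y) (F x₀) with h | h
    · exact hmin (Metric.mem_closedBall.2 (hb y h))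
    · exact hzx.trans h
  refine ⟨z, fun y => ?_⟩
  -- repeated midpoints
  let m : ℕ → Y := fun i => Nat.rec y (fun _ p => H.mid z p) i
  have hm0 : m 0 = y := rfl
  have hm1 : ∀ i, m (i + 1) = H.mid z (m i) := fun i => rfl
  have hph : ∀ i, H.ph z (m i) = ((1 / 2 : ℝ) ^ i) ^ 2 * H.ph z y := by
    intro i
    induction i with
    | zero => rw [hm0]; ring
    | succ i ih => rw [hm1, H.mid_left, ih]; ring
  have hFm : ∀ i, F (m i) ≤ (1 - (1 / 2 : ℝ) ^ i) * F z + (1 / 2 : ℝ) ^ i * F y -
      c * (1 / 2 : ℝ) ^ i * (1 - (1 / 2 : ℝ) ^ i) * H.ph z y := by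
    intro i
    induction i with
    | zero => rw [hm0]; simp
    | succ i ih =>
      rw [hm1]
      have h1 := hm z (m i)
      rw [hph] at h1
      rw [pow_succ]
      nlinarith
  have hkey : ∀ i : ℕ, c * (1 - (1 / 2 : ℝ) ^ i) * H.ph z y ≤ F y - F z := by
    intro i
    have h1 := (hzy (m i)).trans (hFm i)
    have ht : 0 < (1 / 2 : ℝ) ^ i := by positivity
    by_contra hlt
    push Not at hlt
    nlinarith [mul_lt_mul_of_pos_left hlt ht]
  have hlim : Tendsto (fun i : ℕ => c * (1 - (1 / 2 : ℝ) ^ i) * H.ph z y) atTop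
      (𝓝 (c * (1 - 0) * H.ph z y)) := by
    refine Tendsto.mul_const _ (Tendsto.const_mul _ (Tendsto.const_sub _ ?_))
    exact tendsto_pow_atTop_nhds_zero_of_lt_one (by norm_num) (by norm_num)
  have := le_of_tendsto' hlim hkey
  linarith

/-- The product. -/
def CN.prod (H : CN Y) (H' : CN Y') : CN (Y × Y') where
  ph x y := H.ph x.1 y.1 + H'.ph x.2 y.2
  mid x y := (H.mid x.1 y.1, H'.mid x.2 y.2)
  C := 2 * (H.C + H'.C)
  one_le := by have := H.one_le; have := H'.one_le; linarith
  symm x y := by rw [H.symm, H'.symm]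
  lower x y := by
    have h1 := H.lower x.1 y.1
    have h2 := H'.lower x.2 y.2
    have h3 := H.nonneg x.1 y.1
    have h4 := H'.nonneg x.2 y.2
    rw [Prod.dist_eq]
    rcases le_total (dist x.1 y.1) (dist x.2 y.2) with h | h
    · rw [max_eq_right h]; linarith
    · rw [max_eq_left h]; linarith
  upper x y := by
    have h1 := H.upper x.1 y.1
    have h2 := H'.upper x.2 y.2
    have h3 := H.one_le
    have h4 := H'.one_le
    have h5 : dist x.1 y.1 ^ 2 ≤ dist x y ^ 2 :=
      pow_le_pow_left₀ dist_nonneg (by rw [Prod.dist_eq]; exact le_max_left _ _) 2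
    have h6 : dist x.2 y.2 ^ 2 ≤ dist x y ^ 2 :=
      pow_le_pow_left₀ dist_nonneg (by rw [Prod.dist_eq]; exact le_max_right _ _) 2
    have h7 : 0 ≤ dist x y ^ 2 := sq_nonneg _
    have h8 : H.C * dist x.1 y.1 ^ 2 ≤ H.C * dist x y ^ 2 :=
      mul_le_mul_of_nonneg_left h5 (by linarith)
    have h9 : H'.C * dist x.2 y.2 ^ 2 ≤ H'.C * dist x y ^ 2 :=
      mul_le_mul_of_nonneg_left h6 (by linarith)
    have h10 : 0 ≤ (H.C + H'.C) * dist x y ^ 2 := mul_nonneg (by linarith) h7
    linarith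
  lip x y z := by
    have h1 := H.lip x.1 y.1 z.1
    have h2 := H'.lip x.2 y.2 z.2
    have h3 := H.one_le
    have h4 := H'.one_le
    have a1 : ∀ u v : Y × Y', dist u.1 v.1 ≤ dist u v := fun u v => by
      rw [Prod.dist_eq]; exact le_max_left _ _
    have a2 : ∀ u v : Y × Y', dist u.2 v.2 ≤ dist u v := fun u v => by
      rw [Prod.dist_eq]; exact le_max_right _ _
    have b1 : H.C * dist x.1 y.1 * (dist x.1 z.1 + dist y.1 z.1) ≤
        H.C * dist x y * (dist x z + dist y z) :=
      mul_le_mul (mul_le_mul_of_nonneg_left (a1 x y) (by linarith)) (add_le_add (a1 x z) (a1 y z))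
        (by positivity) (mul_nonneg (by linarith) dist_nonneg)
    have b2 : H'.C * dist x.2 y.2 * (dist x.2 z.2 + dist y.2 z.2) ≤
        H'.C * dist x y * (dist x z + dist y z) :=
      mul_le_mul (mul_le_mul_of_nonneg_left (a2 x y) (by linarith)) (add_le_add (a2 x z) (a2 y z))
        (by positivity) (mul_nonneg (by linarith) dist_nonneg)
    have b3 : 0 ≤ (H.C + H'.C) * (dist x y * (dist x z + dist y z)) :=
      mul_nonneg (by linarith) (by positivity)
    have e : H.ph x.1 z.1 + H'.ph x.2 z.2 - (H.ph y.1 z.1 + H'.ph y.2 z.2) =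
        (H.ph x.1 z.1 - H.ph y.1 z.1) + (H'.ph x.2 z.2 - H'.ph y.2 z.2) := by ring
    rw [e]
    refine (abs_add_le _ _).trans ?_
    nlinarith
  mid_left x y := by rw [H.mid_left, H'.mid_left]; ring
  cn p x y := by
    have := H.cn p.1 x.1 y.1
    have := H'.cn p.2 x.2 y.2
    linarith

end Pool.Agent.Lib.MP_5d4057_al.IN
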