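import Pool.Agent.Lib.MP_5d4057_al.IN.Ball
import Pool.Agent.Lib.MP_5d4057_al.IN.AvgC

/-! Nearly extremal pairs centred at `0` (text, new C3, second half: weak Harnack inequality). -/

set_option autoImplicit false

namespace Pool.Agent.Lib.MP_5d4057_al.IN

open Matrix MeasureTheory Filter Topology Pool.Agent.Lib.MP_5d4057_al Pool.Agent.Lib.MP_5d4057_al.Hyb
  Pool.Agent.Lib.MP_5d4057_al.HM

variable {n : ℕ}

private theorem ne_hq_inv (x : SUGroup n) : hq x⁻¹ = hq x := by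
  rw [hq, hq, ch_inv]

private theorem ne_nr_sub_comm (z w : Fin n → ℂ) : nr (z - w) = nr (w - z) := by
  rw [← nr_neg (z - w), neg_sub]

private theorem ne_sqrt_hq_pt {z : Fin n → ℂ} (hz : nr z < 1) : Real.sqrt (hq (pt z)) = nr z := by
  rw [hq_pt hz, Real.sqrt_sq (nr_nonneg z)]

private theorem ne_sqrt_hq (x : SUGroup n) : Real.sqrt (hq x) = nr (zc x) := by
  rw [← nr_zc_sq, Real.sqrt_sq (nr_nonneg _)]

/-- The translation `a = [w] [z]⁻¹` moves the points near `0` almost by `w - z`: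
`y = φ_z ζ`, `a y = φ_w ζ`, `|ζ| ≤ 2 |y - z|`, and `zc_pt_mul_sub`, `sg_lip`. -/
theorem trans_near {z w y : Fin n → ℂ} {κ : ℝ} (hκ : κ ≤ 1 / 8) (hz : nr z ≤ κ) (hw : nr w ≤ κ)
    (hy : nr y ≤ κ) : nr (zc (pt w * (pt z)⁻¹ * pt y) - y - (w - z)) ≤ 64 * κ ^ 2 := by
  have hκ0 : 0 ≤ κ := (nr_nonneg z).trans hz
  obtain ⟨x, hx⟩ : ∃ x : SUGroup n, x = (pt z)⁻¹ * pt y := ⟨_, rfl⟩
  have hzx : pt z * x = pt y := by rw [hx, mul_inv_cancel_left]
  have hwx : pt w * (pt z)⁻¹ * pt y = pt w * x := by rw [hx, mul_assoc]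
  have hyz : zc (pt z * x) = y := by rw [hzx, zc_pt (by linarith)]
  have hzy : nr (z - y) ≤ 2 * κ := (nr_sub_le z y).trans (by linarith)
  have hζ : nr (zc x) ≤ 4 * κ := by
    rw [← ne_sqrt_hq, hx]
    have h1 := sqrt_hq_le (g := pt z) (h := pt y) (by rw [zc_pt (by linarith)]; linarith)
      (by rw [zc_pt (by linarith)]; linarith)
    rw [zc_pt (by linarith), zc_pt (by linarith)] at h1
    linarith
  have hζ0 := nr_nonneg (zc x)
  have hζ2 : nr (zc x) ^ 2 ≤ (4 * κ) ^ 2 := pow_le_pow_left₀ hζ0 hζ 2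
  have h1 := zc_pt_mul_sub (z := z) (by linarith) x (by linarith)
  have h2 := zc_pt_mul_sub (z := w) (by linarith) x (by linarith)
  have h3 := sg_lip (z := w) (w := z) (ζ := zc x) (by linarith) (by linarith)
  have hwz : nr (w - z) ≤ 2 * κ := (nr_sub_le w z).trans (by linarith)
  have h1' : nr (zc (pt z * x) - z - sg z (zc x)) ≤ 8 * κ ^ 2 := by
    refine h1.trans ?_
    have : 4 * nr z * nr (zc x) ^ 2 ≤ 4 * κ * (4 * κ) ^ 2 :=
      mul_le_mul (by linarith) hζ2 (by positivity) (by positivity)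
    nlinarith [sq_nonneg κ]
  have h2' : nr (zc (pt w * x) - w - sg w (zc x)) ≤ 8 * κ ^ 2 := by
    refine h2.trans ?_
    have : 4 * nr w * nr (zc x) ^ 2 ≤ 4 * κ * (4 * κ) ^ 2 :=
      mul_le_mul (by linarith) hζ2 (by positivity) (by positivity)
    nlinarith [sq_nonneg κ]
  have h3' : nr (sg w (zc x) - sg z (zc x)) ≤ 32 * κ ^ 2 := by
    refine h3.trans ?_
    have : 4 * nr (w - z) * nr (zc x) ≤ 4 * (2 * κ) * (4 * κ) :=
      mul_le_mul (by linarith) hζ hζ0 (by positivity)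
    linarith
  rw [hwx]
  have h4 : zc (pt w * x) - y - (w - z) = (zc (pt w * x) - w - sg w (zc x)) -
      (zc (pt z * x) - z - sg z (zc x)) + (sg w (zc x) - sg z (zc x)) := by
    rw [hyz]
    abel
  rw [h4]
  refine (nr_add_le _ _).trans ?_
  have h5 := nr_sub_le (zc (pt w * x) - w - sg w (zc x)) (zc (pt z * x) - z - sg z (zc x))
  nlinarith [sq_nonneg κ]

/-- The volume of `{x | dist ([z] x, t₀) ≤ r}` does not depend on `z`, `t₀` (invariance of `mu`). -/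
theorem vol_target (hn : 1 ≤ n) : ∃ c : ℝ, 0 < c ∧ ∀ r : ℝ, 0 < r → r < 1 → ∀ g h : SUGroup n,
    c * r ^ (2 * n) ≤ (mu n).real {x : SUGroup n | hq ((g * x)⁻¹ * h) ≤ r ^ 2} := by
  obtain ⟨c, hc, hb⟩ := vol_ge (n := n) hn
  refine ⟨c, hc, fun r hr hr1 g h => ?_⟩
  refine (hb r hr hr1).trans (le_of_eq ?_)
  have h1 : {x : SUGroup n | hq ((g * x)⁻¹ * h) ≤ r ^ 2} =
      (fun x => (h⁻¹ * g) * x) ⁻¹' {x : SUGroup n | hq x ≤ r ^ 2} := by
    ext x
    simp only [Set.mem_ofPred_eq, Set.mem_preimage]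
    rw [← ne_hq_inv ((g * x)⁻¹ * h), _root_.mul_inv_rev, inv_inv, mul_assoc]
  rw [h1, measureReal_def, measureReal_def, measure_preimage_mul]

private theorem ne_Fpt {F : SUGroup n → SUGroup n → ℝ}
    (hK : ∀ g h k : SUGroup n, ch k = 1 → F (g * k) h = F g h ∧ F g (h * k) = F g h)
    (g h : SUGroup n) : F (pt (zc g)) (pt (zc h)) = F g h := by
  obtain ⟨k, hk, h1⟩ := exists_K (zc_pt (nr_zc_lt g)).symm
  obtain ⟨l, hl, h2⟩ := exists_K (zc_pt (nr_zc_lt h)).symm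
  rw [h1, h2, (hK g (h * l) k hk).1, (hK g h l hl).2]

private theorem ne_ip (c : Fin n → ℂ) (z : Fin n → ℂ) :
    ip c z = (∑ j, star (c j) * z j).re := rfl

private theorem ne_cont_zc : Continuous (zc (n := n)) := continuous_pi fun j => continuous_zc j

private theorem ne_cont_ip (c : Fin n → ℂ) : Continuous fun z : Fin n → ℂ => ip c z := by
  unfold ip hp
  fun_prop

/-- **Pairs near `0`.** Proof. `K := √(2n+1)`. Given `η, δ`, choose `ε, η₁` small (depending on `δ`), take the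
pair `z, w` of `hlong η₁`, `a := pt w * (pt z)⁻¹`, and
`h g := (L + ε)(2 R₀ + C R₀²) - (F g (a g) - ip c (zc (a g) - zc g))`, which is `≥ 0` for `nr (zc g) ≤ C₁ R₀`
(`trans_near`, `hSB`), satisfies `AA r h g ≤ h g` (`hsub`, `AA_zc`, `AA_left`) and
`h (pt z) ≤ 3 (ε + η₁) R₀` for small `R₀`. With `r := 8 (K + 2) R₀` and
`S := {x | hq ((pt z * x)⁻¹ * pt (-(w-z)/2)) ≤ (δ' R₀)²}` (contained in `{hq x ≤ r²/4}`) `int_le_AA` and
`vol_target` give a point `g = pt z * x`, `x ∈ S`, with `h g ≤ C_δ (ε + η₁) R₀`. The pair is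
`y = zc g`, `y' = zc (a g)`. -/
theorem exists_near (hn : 1 ≤ n) {F : SUGroup n → SUGroup n → ℝ}
    (hc : Continuous fun p : SUGroup n × SUGroup n => F p.1 p.2)
    (hK : ∀ g h k : SUGroup n, ch k = 1 → F (g * k) h = F g h ∧ F g (h * k) = F g h)
    (hsub : ∀ (a : SUGroup n) (r : ℝ) (g : SUGroup n), 0 < r → r < 1 →
      F g (a * g) ≤ AA r (fun x => F x (a * x)) g)
    {c : Fin n → ℂ} {L : ℝ} (hL : 0 < L) (hSB : SB c F L)
    (hlong : ∀ η : ℝ, 0 < η → ∃ R₁ : ℝ, 0 < R₁ ∧ ∀ R₀ : ℝ, 0 < R₀ → R₀ ≤ R₁ → ∃ z w : Fin n → ℂ,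
      nr (w - z) = 2 * R₀ ∧ nr ((1 / 2 : ℂ) • (z + w)) ≤ (Real.sqrt (2 * n + 1) + 1) * R₀ ∧
      (L - η) * (2 * R₀) ≤ F (pt z) (pt w) - ip c (w - z))
    {η δ : ℝ} (hη : 0 < η) (hδ : 0 < δ) :
    ∃ R₁ : ℝ, 0 < R₁ ∧ ∀ R₀ : ℝ, 0 < R₀ → R₀ ≤ R₁ → ∃ z w : Fin n → ℂ,
      nr ((1 / 2 : ℂ) • (z + w)) ≤ δ * R₀ ∧ |nr (w - z) - 2 * R₀| ≤ δ * R₀ ∧
      (L - η) * nr (w - z) ≤ F (pt z) (pt w) - ip c (w - z) := by
  -- constants
  obtain ⟨K, hKd⟩ : ∃ K : ℝ, K = Real.sqrt (2 * n + 1) := ⟨_, rfl⟩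
  have hK0 : 0 ≤ K := by rw [hKd]; exact Real.sqrt_nonneg _
  rw [← hKd] at hlong
  obtain ⟨c₁, hc₁, hint⟩ := int_le_AA n
  obtain ⟨c₂, hc₂, hvol⟩ := vol_target (n := n) hn
  obtain ⟨d, hd⟩ : ∃ d : ℝ, d = min (δ / 3) 1 := ⟨_, rfl⟩
  have hd0 : 0 < d := by rw [hd]; exact lt_min (by linarith) one_pos
  have hd1 : d ≤ 1 := by rw [hd]; exact min_le_right _ _
  have hdδ : 3 * d ≤ δ := by
    have : d ≤ δ / 3 := by rw [hd]; exact min_le_left _ _
    linarith
  obtain ⟨ρ, hρ⟩ : ∃ ρ : ℝ, ρ = 2 * (K + 4) := ⟨_, rfl⟩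
  have hρ0 : 0 < ρ := by rw [hρ]; linarith
  obtain ⟨C, hC⟩ : ∃ C : ℝ, C = K + 2 + ρ := ⟨_, rfl⟩
  have hC0 : 0 < C := by rw [hC]; linarith
  obtain ⟨D, hD⟩ : ∃ D : ℝ, D = 5 * ρ ^ (2 * n) / (c₁ * c₂ * d ^ (2 * n)) := ⟨_, rfl⟩
  have hD0 : 0 < D := by rw [hD]; positivity
  obtain ⟨m, hm⟩ : ∃ m : ℝ, m = min η L := ⟨_, rfl⟩
  have hm0 : 0 < m := by rw [hm]; exact lt_min hη hL
  have hmη : m ≤ η := by rw [hm]; exact min_le_left _ _
  have hmL : m ≤ L := by rw [hm]; exact min_le_right _ _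
  obtain ⟨ε, hε⟩ : ∃ ε : ℝ, ε = m / D := ⟨_, rfl⟩
  have hε0 : 0 < ε := by rw [hε]; positivity
  have hDε : D * ε = m := by rw [hε]; field_simp
  obtain ⟨R₂, hR₂, hl⟩ := hlong ε hε0
  obtain ⟨r₁, hr₁, hsb⟩ := hSB ε hε0
  obtain ⟨R₁, hR₁⟩ : ∃ R₁ : ℝ, R₁ = min (min R₂ (1 / (8 * (C + 3)))) (min (r₁ / (C + 3))
    (min (d / (64 * C ^ 2)) (ε / ((L + ε) * (64 * C ^ 2))))) := ⟨_, rfl⟩
  refine ⟨R₁, ?_, fun R₀ h0 h1 => ?_⟩
  · rw [hR₁]
    refine lt_min (lt_min hR₂ (by positivity)) (lt_min (by positivity) (lt_min (by positivity)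
      (by positivity)))
  have e1 : R₀ ≤ R₂ := h1.trans (by rw [hR₁]; exact (min_le_left _ _).trans (min_le_left _ _))
  have e2 : (C + 3) * R₀ ≤ 1 / 8 := by
    have h2 : R₀ ≤ 1 / (8 * (C + 3)) := h1.trans (by
      rw [hR₁]; exact (min_le_left _ _).trans (min_le_right _ _))
    rw [le_div_iff₀ (by positivity)] at h2
    linarith
  have e3 : (C + 3) * R₀ ≤ r₁ := by
    have h2 : R₀ ≤ r₁ / (C + 3) := h1.trans (by
      rw [hR₁]; exact (min_le_right _ _).trans (min_le_left _ _))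
    rw [le_div_iff₀ (by positivity)] at h2
    linarith
  have e4 : 64 * C ^ 2 * R₀ ≤ d := by
    have h2 : R₀ ≤ d / (64 * C ^ 2) := h1.trans (by
      rw [hR₁]; exact (min_le_right _ _).trans ((min_le_right _ _).trans (min_le_left _ _)))
    rw [le_div_iff₀ (by positivity)] at h2
    linarith
  have e5 : (L + ε) * (64 * C ^ 2 * R₀) ≤ ε := by
    have h2 : R₀ ≤ ε / ((L + ε) * (64 * C ^ 2)) := h1.trans (by
      rw [hR₁]; exact (min_le_right _ _).trans ((min_le_right _ _).trans (min_le_right _ _)))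
    rw [le_div_iff₀ (by positivity)] at h2
    linarith
  have hR01 : R₀ ≤ 1 := by nlinarith
  obtain ⟨z, w, hzw, hmid, hlo⟩ := hl R₀ h0 e1
  -- sizes of `z`, `w`
  obtain ⟨κ, hκ⟩ : ∃ κ : ℝ, κ = C * R₀ := ⟨_, rfl⟩
  have hκ0 : 0 < κ := by rw [hκ]; positivity
  have hκ8 : κ ≤ 1 / 8 := by rw [hκ]; linarith
  have hz : nr z ≤ (K + 2) * R₀ := by
    have h2 : z = (1 / 2 : ℂ) • (z + w) - (1 / 2 : ℂ) • (w - z) := by
      rw [← smul_sub]
      have : z + w - (w - z) = (2 : ℂ) • z := by rw [two_smul]; abel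
      rw [this, smul_smul]
      norm_num
    rw [h2]
    refine (nr_sub_le _ _).trans ?_
    rw [nr_smul (1 / 2 : ℂ) (w - z), hzw]
    have h3 : ‖(1 / 2 : ℂ)‖ = 1 / 2 := by norm_num
    rw [h3]
    linarith
  have hw : nr w ≤ (K + 2) * R₀ := by
    have h2 : w = (1 / 2 : ℂ) • (z + w) + (1 / 2 : ℂ) • (w - z) := by
      rw [← smul_add]
      have : z + w + (w - z) = (2 : ℂ) • w := by rw [two_smul]; abel
      rw [this, smul_smul]
      norm_num
    rw [h2]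
    refine (nr_add_le _ _).trans ?_
    rw [nr_smul (1 / 2 : ℂ) (w - z), hzw]
    have h3 : ‖(1 / 2 : ℂ)‖ = 1 / 2 := by norm_num
    rw [h3]
    linarith
  have hKC : (K + 2) * R₀ ≤ κ := by
    rw [hκ, hC]
    nlinarith
  have hz' : nr z ≤ κ := hz.trans hKC
  have hw' : nr w ≤ κ := hw.trans hKC
  have hz1 : nr z < 1 := by linarith
  have hw1 : nr w < 1 := by linarith
  obtain ⟨a, ha⟩ : ∃ a : SUGroup n, a = pt w * (pt z)⁻¹ := ⟨_, rfl⟩
  have haz : a * pt z = pt w := by rw [ha, inv_mul_cancel_right]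
  obtain ⟨M, hM⟩ : ∃ M : ℝ, M = (L + ε) * (2 * R₀ + 64 * κ ^ 2) := ⟨_, rfl⟩
  have hκR : 64 * κ ^ 2 = 64 * C ^ 2 * R₀ * R₀ := by rw [hκ]; ring
  have hκd : 64 * κ ^ 2 ≤ d * R₀ := by
    rw [hκR]
    exact mul_le_mul_of_nonneg_right e4 h0.le
  -- the function `u`
  obtain ⟨u, hu⟩ : ∃ u : SUGroup n → ℝ, u = fun g => F g (a * g) - (ip c (zc (a * g)) - ip c (zc g)) :=
    ⟨_, rfl⟩
  have huF : Continuous fun g : SUGroup n => F g (a * g) :=
    hc.comp (continuous_id.prodMk (continuous_const_mul a))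
  have hip : Continuous fun g : SUGroup n => ip c (zc g) := (ne_cont_ip c).comp ne_cont_zc
  have hip2 : Continuous fun g : SUGroup n => ip c (zc (a * g)) := hip.comp (continuous_const_mul a)
  have hipd : Continuous fun g : SUGroup n => ip c (zc (a * g)) - ip c (zc g) := hip2.sub hip
  have huc : Continuous u := by rw [hu]; exact huF.sub hipd
  have husub : ∀ r : ℝ, 0 < r → r < 1 → ∀ g, u g ≤ AA r u g := by
    intro r hr hr1 g
    have h2 : AA r u g = AA r (fun g => F g (a * g)) g -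
        AA r (fun g => ip c (zc (a * g)) - ip c (zc g)) g := by
      rw [hu]
      exact AA_sub hr hr1 huF hipd g
    have h3 : AA r (fun g => ip c (zc (a * g)) - ip c (zc g)) g =
        AA r (fun g => ip c (zc (a * g))) g - AA r (fun g => ip c (zc g)) g :=
      AA_sub hr hr1 hip2 hip g
    have h4 : ∀ g, AA r (fun g => ip c (zc g)) g = ip c (zc g) := fun g =>
      AA_zc hn hr hr1 (fun j => star (c j)) g
    have h5 : AA r (fun g => ip c (zc (a * g))) g = ip c (zc (a * g)) := by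
      rw [AA_left r (fun g => ip c (zc g)) a g, h4]
    rw [h2, h3, h4, h5, hu]
    exact sub_le_sub_right (hsub a r g hr hr1) _
  have hueq : ∀ g, u g = F (pt (zc g)) (pt (zc (a * g))) - ip c (zc (a * g) - zc g) := by
    intro g
    rw [hu, ne_Fpt hK, ip_sub]
  -- displacement of `a`
  have hdisp : ∀ g : SUGroup n, nr (zc g) ≤ κ → nr (zc (a * g) - zc g - (w - z)) ≤ 64 * κ ^ 2 := by
    intro g hg
    have h2 := trans_near hκ8 hz' hw' hg
    rw [← ha, zc_mul_eq a (zc_pt (nr_zc_lt g))] at h2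
    exact h2
  have hdis2 : ∀ g : SUGroup n, nr (zc g) ≤ κ → nr (zc (a * g) - zc g) ≤ 2 * R₀ + 64 * κ ^ 2 := by
    intro g hg
    have h2 : zc (a * g) - zc g = (w - z) + (zc (a * g) - zc g - (w - z)) := by abel
    rw [h2]
    refine (nr_add_le _ _).trans ?_
    rw [hzw]
    linarith [hdisp g hg]
  have hule : ∀ g : SUGroup n, nr (zc g) ≤ κ → u g ≤ M := by
    intro g hg
    have h2 := hdis2 g hg
    have h3 : nr (zc (a * g)) ≤ r₁ := by
      have h4 : zc (a * g) = zc g + (zc (a * g) - zc g) := by abel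
      rw [h4]
      refine (nr_add_le _ _).trans ?_
      have : d * R₀ ≤ R₀ := by nlinarith
      rw [hκ] at hg
      linarith
    have h4 : nr (zc g) ≤ r₁ := by
      rw [hκ] at hg
      linarith
    rw [hueq g, hM]
    refine (hsb _ _ h4 h3).trans ?_
    exact mul_le_mul_of_nonneg_left h2 (by linarith)
  -- the radius
  obtain ⟨r, hr⟩ : ∃ r : ℝ, r = ρ * R₀ := ⟨_, rfl⟩
  have hr0 : 0 < r := by rw [hr]; positivity
  have hr1 : r < 1 := by
    have : ρ * R₀ ≤ (C + 3) * R₀ := by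
      rw [hC]
      nlinarith
    rw [hr]
    linarith
  obtain ⟨h, hh⟩ : ∃ h : SUGroup n → ℝ, h = fun g => M - u g := ⟨_, rfl⟩
  have hhc : Continuous h := by rw [hh]; exact continuous_const.sub huc
  have hh0 : ∀ x : SUGroup n, hq x ≤ r ^ 2 → 0 ≤ h (pt z * x) := by
    intro x hx
    have h2 : nr (zc (pt z * x)) ≤ κ := by
      rw [← ne_sqrt_hq]
      refine (sqrt_hq_mul_le _ _).trans ?_
      rw [ne_sqrt_hq_pt hz1]
      have h3 : Real.sqrt (hq x) ≤ r := by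
        rw [← Real.sqrt_sq hr0.le]
        exact Real.sqrt_le_sqrt hx
      have h4 : κ = (K + 2) * R₀ + r := by rw [hκ, hC, hr]; ring
      rw [h4]
      linarith
    rw [hh]
    have := hule _ h2
    simp only
    linarith
  have hhz : h (pt z) ≤ 5 * ε * R₀ := by
    have h2 : (L - ε) * (2 * R₀) ≤ u (pt z) := by
      rw [hu]
      simp only
      rw [haz, zc_pt hz1, zc_pt hw1, ← ip_sub]
      exact hlo
    rw [hh]
    simp only
    rw [hM, hκR]
    have h3 : (L + ε) * (64 * C ^ 2 * R₀ * R₀) ≤ ε * R₀ := by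
      rw [← mul_assoc (L + ε)]
      exact mul_le_mul_of_nonneg_right e5 h0.le
    linarith
  -- the target
  obtain ⟨t, ht⟩ : ∃ t : Fin n → ℂ, t = (-(1 / 2) : ℂ) • (w - z) := ⟨_, rfl⟩
  have htn : nr t = R₀ := by
    rw [ht, nr_smul, hzw]
    have h3 : ‖(-(1 / 2) : ℂ)‖ = 1 / 2 := by norm_num
    rw [h3]
    ring
  have ht1 : nr t < 1 := by
    rw [htn]
    nlinarith
  have hdR : 0 < d * R₀ := by positivity
  have hdR2 : d * R₀ ≤ R₀ := by nlinarith
  have hRs : R₀ ≤ 1 / 8 := by nlinarith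
  obtain ⟨S, hS⟩ : ∃ S : Set (SUGroup n), S = {x | hq ((pt z * x)⁻¹ * pt t) ≤ (d * R₀) ^ 2} :=
    ⟨_, rfl⟩
  have hSm : MeasurableSet S := by
    rw [hS]
    refine (isClosed_le (continuous_hq.comp ?_) continuous_const).measurableSet
    exact ((continuous_const_mul (pt z)).inv).mul continuous_const
  have hSd : ∀ x ∈ S, Real.sqrt (hq ((pt z * x)⁻¹ * pt t)) ≤ d * R₀ := by
    intro x hx
    rw [hS] at hx
    rw [← Real.sqrt_sq hdR.le]
    exact Real.sqrt_le_sqrt hx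
  have hSg : ∀ x ∈ S, Real.sqrt (hq (pt z * x)) ≤ d * R₀ + R₀ := by
    intro x hx
    have h2 := sqrt_hq_mul_le ((pt z * x)⁻¹ * pt t) (pt t)⁻¹
    rw [mul_inv_cancel_right, ne_hq_inv, ne_hq_inv, ne_sqrt_hq_pt ht1, htn] at h2
    linarith [hSd x hx]
  have hS4 : ∀ x ∈ S, hq x ≤ r ^ 2 / 4 := by
    intro x hx
    have h2 := sqrt_hq_mul_le (pt z)⁻¹ (pt z * x)
    rw [inv_mul_cancel_left, ne_hq_inv, ne_sqrt_hq_pt hz1] at h2
    have h3 : Real.sqrt (hq x) ≤ r / 2 := by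
      have h4 := hSg x hx
      have h5 : r / 2 = (K + 4) * R₀ := by rw [hr, hρ]; ring
      rw [h5]
      linarith
    have h4 : 0 ≤ hq x := by
      rw [← nr_zc_sq]
      positivity
    have h5 := pow_le_pow_left₀ (Real.sqrt_nonneg _) h3 2
    rw [Real.sq_sqrt h4] at h5
    linarith [h5, show (r / 2) ^ 2 = r ^ 2 / 4 by ring]
  have hSc : S ⊆ {x : SUGroup n | hq x ≤ r ^ 2} := fun x hx => by
    show hq x ≤ r ^ 2
    have := hS4 x hx
    nlinarith [sq_nonneg r]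
  have hSfin : (mu n) S ≠ ⊤ :=
    ((measure_mono hSc).trans_lt (isCompact_hq hr1 hr0.le).measure_lt_top).ne
  have hSv : c₂ * (d * R₀) ^ (2 * n) ≤ (mu n).real S := by
    rw [hS]
    exact hvol (d * R₀) hdR (by linarith) (pt z) (pt t)
  have hAA : AA r h (pt z) ≤ h (pt z) := by
    have h2 : AA r h (pt z) = AA r (fun _ => M) (pt z) - AA r u (pt z) := by
      rw [hh]
      exact AA_sub hr0 hr1 continuous_const huc (pt z)
    rw [h2, AA_const hn hr0 hr1, hh]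
    simp only
    linarith [husub r hr0 hr1 (pt z)]
  have hI := (hint r hr0 hr1 h hhc (pt z) hh0 S hSm hS4).trans (hAA.trans hhz)
  -- the point
  obtain ⟨x, hxS, hx⟩ : ∃ x ∈ S, h (pt z * x) ≤ D * ε * R₀ := by
    by_contra hcon
    push Not at hcon
    have hi : IntegrableOn (fun x => h (pt z * x)) S (mu n) :=
      ((hhc.comp (continuous_const_mul (pt z))).continuousOn.integrableOn_compact
        (isCompact_hq hr1 hr0.le)).mono_set hSc
    have hpos : 0 < (mu n).real S := lt_of_lt_of_le (by positivity) hSv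
    have h2 : D * ε * R₀ * (mu n).real S < ∫ x in S, h (pt z * x) ∂(mu n) := by
      have h3 : 0 < ∫ x in S, (h (pt z * x) - D * ε * R₀) ∂(mu n) := by
        rw [setIntegral_pos_iff_support_of_nonneg_ae]
        · have h4 : Function.support (fun x => h (pt z * x) - D * ε * R₀) ∩ S = S := by
            refine Set.inter_eq_right.2 fun x hx => ?_
            exact (sub_pos.2 (hcon x hx)).ne'
          rw [h4]
          rw [measureReal_def, ENNReal.toReal_pos_iff] at hpos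
          exact hpos.1
        · refine (ae_restrict_iff' hSm).2 (Eventually.of_forall fun x hx => ?_)
          exact (sub_pos.2 (hcon x hx)).le
        · exact hi.sub (integrableOn_const hSfin)
      rw [integral_sub hi (integrableOn_const hSfin), setIntegral_const, smul_eq_mul] at h3
      linarith
    have h3 : D * ε * R₀ * (c₂ * (d * R₀) ^ (2 * n)) < ∫ x in S, h (pt z * x) ∂(mu n) :=
      lt_of_le_of_lt (mul_le_mul_of_nonneg_left hSv (by positivity)) h2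
    have h4 : 0 < c₁ * (r ^ (2 * n))⁻¹ := by positivity
    have h5 := mul_lt_mul_of_pos_left h3 h4
    have h6 : c₁ * (r ^ (2 * n))⁻¹ * (D * ε * R₀ * (c₂ * (d * R₀) ^ (2 * n))) = 5 * ε * R₀ := by
      rw [hD, hr, mul_pow, mul_pow]
      field_simp
    rw [h6] at h5
    linarith
  obtain ⟨g, hg⟩ : ∃ g : SUGroup n, g = pt z * x := ⟨_, rfl⟩
  have hgn : nr (zc g) ≤ d * R₀ + R₀ := by
    rw [← ne_sqrt_hq, hg]
    exact hSg x hxS
  have hgκ : nr (zc g) ≤ κ := by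
    refine hgn.trans ?_
    rw [hκ, hC]
    nlinarith
  have hgt : nr (zc g - t) ≤ 2 * (d * R₀) := by
    have h2 := nr_zc_sub_le (g := g) (h := pt t) (by linarith) (by rw [zc_pt ht1, htn]; linarith)
    rw [zc_pt ht1, hg] at h2
    rw [hg]
    linarith [hSd x hxS]
  have hga := hdisp g hgκ
  refine ⟨zc g, zc (a * g), ?_, ?_, ?_⟩
  · have h2 : (1 / 2 : ℂ) • (zc g + zc (a * g)) =
        (zc g - t) + (1 / 2 : ℂ) • (zc (a * g) - zc g - (w - z)) := by
      rw [ht]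
      ext j
      simp only [Pi.smul_apply, Pi.add_apply, Pi.sub_apply, smul_eq_mul]
      ring
    rw [h2]
    refine (nr_add_le _ _).trans ?_
    rw [nr_smul (1 / 2 : ℂ) (zc (a * g) - zc g - (w - z))]
    have h3 : ‖(1 / 2 : ℂ)‖ = 1 / 2 := by norm_num
    rw [h3]
    nlinarith
  · have h2 : nr (zc (a * g) - zc g) ≤ 2 * R₀ + 64 * κ ^ 2 := hdis2 g hgκ
    have h3 : 2 * R₀ ≤ nr (zc (a * g) - zc g) + 64 * κ ^ 2 := by
      rw [← hzw]
      have h4 : w - z = (zc (a * g) - zc g) - (zc (a * g) - zc g - (w - z)) := by abel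
      calc nr (w - z) = nr ((zc (a * g) - zc g) - (zc (a * g) - zc g - (w - z))) := by rw [← h4]
        _ ≤ _ := nr_sub_le _ _
        _ ≤ _ := by linarith
    have h4 : d * R₀ ≤ δ * R₀ := mul_le_mul_of_nonneg_right (by linarith) h0.le
    rw [abs_le]
    constructor <;> linarith
  · have h2 : nr (zc (a * g) - zc g) ≤ 2 * R₀ + 64 * κ ^ 2 := hdis2 g hgκ
    have h3 := nr_nonneg (zc (a * g) - zc g)
    rw [← hueq g]
    have h4 : M - u g ≤ m * R₀ := by
      have h5 : h g ≤ D * ε * R₀ := by rw [hg]; exact hx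
      rw [hh, hDε] at h5
      exact h5
    have h5 : L * (2 * R₀ + 64 * κ ^ 2) ≤ M := by
      rw [hM]
      exact mul_le_mul_of_nonneg_right (by linarith) (by positivity)
    rcases le_total 0 (L - η) with h6 | h6
    · have h7 : (L - η) * nr (zc (a * g) - zc g) ≤ (L - η) * (2 * R₀ + 64 * κ ^ 2) :=
        mul_le_mul_of_nonneg_left h2 h6
      have h8 : m * R₀ ≤ η * R₀ := mul_le_mul_of_nonneg_right hmη h0.le
      nlinarith [sq_nonneg κ, mul_pos hη h0, mul_nonneg hη.le (sq_nonneg κ)]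
    · have h7 : (L - η) * nr (zc (a * g) - zc g) ≤ 0 := mul_nonpos_of_nonpos_of_nonneg h6 h3
      have h8 : m * R₀ ≤ L * R₀ := mul_le_mul_of_nonneg_right hmL h0.le
      nlinarith [sq_nonneg κ, mul_pos hL h0, mul_nonneg hL.le (sq_nonneg κ)]

end Pool.Agent.Lib.MP_5d4057_al.IN
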