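import Pool.Agent.Lib.MP_5d4057_al.IN.Ball
import Pool.Agent.Lib.MP_5d4057_al.IN.AvgC

/-! Thinness on a line and averages over flow lines (for `Pers.lean`). -/

set_option autoImplicit false

namespace Pool.Agent.Lib.MP_5d4057_al.IN

open Matrix MeasureTheory Filter Topology Pool.Agent.Lib.MP_5d4057_al Pool.Agent.Lib.MP_5d4057_al.Hyb
  Pool.Agent.Lib.MP_5d4057_al.HM

variable {n : ℕ}

/-- The left invariant (bounded) distance `tanh d`. Triangle inequality: `sqrt_hq_mul_le`. -/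
noncomputable def dd (g h : SUGroup n) : ℝ := Real.sqrt (hq (g⁻¹ * h))

theorem dd_triangle (g h k : SUGroup n) : dd g k ≤ dd g h + dd h k := by
  unfold dd
  have h1 : g⁻¹ * k = (g⁻¹ * h) * (h⁻¹ * k) := by group
  rw [h1]
  exact sqrt_hq_mul_le _ _

theorem dd_nonneg (g h : SUGroup n) : 0 ≤ dd g h := Real.sqrt_nonneg _

theorem dd_comm (g h : SUGroup n) : dd g h = dd h g := by
  unfold dd
  have h1 : h⁻¹ * g = (g⁻¹ * h)⁻¹ := by group
  rw [h1, hq, hq, ch_inv]

theorem dd_mul_left (a g h : SUGroup n) : dd (a * g) (a * h) = dd g h := by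
  unfold dd
  congr 2
  group

/-- the integral of the difference quotients -/
private theorem tl_int {φ : ℝ → ℝ} (hφ : Continuous φ) {T τ : ℝ} :
    ∫ t in (0 : ℝ)..(T - τ), (φ (t + τ) - φ t) =
      (∫ t in (T - τ)..T, φ t) - ∫ t in (0 : ℝ)..τ, φ t := by
  have hi : ∀ a b : ℝ, IntervalIntegrable φ volume a b := fun a b => hφ.intervalIntegrable a b
  have hi' : ∀ a b : ℝ, IntervalIntegrable (fun t => φ (t + τ)) volume a b := fun a b =>
    (hφ.comp (continuous_id.add continuous_const)).intervalIntegrable a b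
  rw [intervalIntegral.integral_sub (hi' _ _) (hi _ _),
    intervalIntegral.integral_comp_add_right (fun t => φ t), zero_add, sub_add_cancel]
  have h1 := intervalIntegral.integral_add_adjacent_intervals (hi 0 τ) (hi τ T)
  have h2 := intervalIntegral.integral_add_adjacent_intervals (hi 0 (T - τ)) (hi (T - τ) T)
  linarith

/-- the total increment against the integral of the difference quotients -/
private theorem tl_near {φ : ℝ → ℝ} (hφ : Continuous φ) {T ε : ℝ} (hε : 0 < ε) :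
    ∃ δ : ℝ, 0 < δ ∧ ∀ τ : ℝ, 0 < τ → τ < δ →
      |(∫ t in (0 : ℝ)..(T - τ), (φ (t + τ) - φ t)) - (φ T - φ 0) * τ| ≤ 2 * ε * τ := by
  obtain ⟨δ₁, hδ₁, h1⟩ := Metric.continuous_iff.1 hφ 0 ε hε
  obtain ⟨δ₂, hδ₂, h2⟩ := Metric.continuous_iff.1 hφ T ε hε
  refine ⟨min δ₁ δ₂, lt_min hδ₁ hδ₂, fun τ hτ hτδ => ?_⟩
  have hi : ∀ a b : ℝ, IntervalIntegrable φ volume a b := fun a b => hφ.intervalIntegrable a b
  have hc : ∀ c a b : ℝ, IntervalIntegrable (fun _ : ℝ => c) volume a b := fun c a b =>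
    intervalIntegrable_const
  have h3 : ∀ t, 0 ≤ t → t ≤ τ → |φ t - φ 0| ≤ ε := by
    intro t ht ht'
    have h4 := h1 t (by
      rw [Real.dist_eq, sub_zero, abs_of_nonneg ht]
      exact lt_of_le_of_lt ht' (lt_of_lt_of_le hτδ (min_le_left _ _)))
    rw [Real.dist_eq] at h4
    exact h4.le
  have h4 : ∀ t, T - τ ≤ t → t ≤ T → |φ t - φ T| ≤ ε := by
    intro t ht ht'
    have h5 := h2 t (by
      rw [Real.dist_eq, abs_lt]
      have := lt_of_lt_of_le hτδ (min_le_right δ₁ δ₂)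
      constructor <;> linarith)
    rw [Real.dist_eq] at h5
    exact h5.le
  have h5 : |(∫ t in (0 : ℝ)..τ, φ t) - φ 0 * τ| ≤ ε * τ := by
    have a1 : ∫ t in (0 : ℝ)..τ, φ t ≤ ∫ _t in (0 : ℝ)..τ, (φ 0 + ε) :=
      intervalIntegral.integral_mono_on hτ.le (hi _ _) (hc _ _ _) fun t ht => by
        linarith [(abs_le.1 (h3 t ht.1 ht.2)).2]
    have a2 : ∫ _t in (0 : ℝ)..τ, (φ 0 - ε) ≤ ∫ t in (0 : ℝ)..τ, φ t :=
      intervalIntegral.integral_mono_on hτ.le (hc _ _ _) (hi _ _) fun t ht => by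
        linarith [(abs_le.1 (h3 t ht.1 ht.2)).1]
    rw [intervalIntegral.integral_const, smul_eq_mul, sub_zero] at a1 a2
    rw [abs_le]
    constructor <;> nlinarith
  have h6 : |(∫ t in (T - τ)..T, φ t) - φ T * τ| ≤ ε * τ := by
    have a1 : ∫ t in (T - τ)..T, φ t ≤ ∫ _t in (T - τ)..T, (φ T + ε) :=
      intervalIntegral.integral_mono_on (by linarith) (hi _ _) (hc _ _ _) fun t ht => by
        linarith [(abs_le.1 (h4 t ht.1 ht.2)).2]
    have a2 : ∫ _t in (T - τ)..T, (φ T - ε) ≤ ∫ t in (T - τ)..T, φ t :=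
      intervalIntegral.integral_mono_on (by linarith) (hc _ _ _) (hi _ _) fun t ht => by
        linarith [(abs_le.1 (h4 t ht.1 ht.2)).1]
    rw [intervalIntegral.integral_const, smul_eq_mul, sub_sub_cancel] at a1 a2
    rw [abs_le]
    constructor <;> nlinarith
  rw [tl_int hφ]
  rw [abs_le] at h5 h6 ⊢
  constructor <;> nlinarith [h5.1, h5.2, h6.1, h6.2]

/-- **Thinness on a line.** Proof. Fix a small step `τ`. `s t := (φ (t+τ) - φ t)/τ ≤ L + e` on `[0, T-τ]`,
`∫_0^(T-τ) s = (∫_(T-τ)^T φ - ∫_0^τ φ)/τ → φ T - φ 0 ≥ (L-e) T - G` (`τ → 0`), so by Chebyshev the set where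
`s < L - c` has measure `≤ (2 e T + G + o(1))/(c + e)`; the same for `ψ` with `2G`. Outside the two sets
`φ + ψ ≤ Λ τ`; inside and on `[T-τ, T]` it is `≤ G`. Let `τ → 0`. -/
theorem thin_line {L e c G T Λ : ℝ} (he : 0 ≤ e) (hc : 0 < c) (hG : 0 ≤ G) (hT : 0 < T) (hΛ : 0 ≤ Λ)
    {φ ψ : ℝ → ℝ} (hφ : Continuous φ) (hψ : Continuous ψ)
    (hpos : ∀ t ∈ Set.Icc 0 T, 0 ≤ φ t + ψ t) (hle : ∀ t ∈ Set.Icc 0 T, φ t + ψ t ≤ G)
    (hup : ∀ t τ, 0 ≤ t → 0 < τ → t + τ ≤ T → φ (t + τ) - φ t ≤ (L + e) * τ)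
    (hup' : ∀ t τ, 0 ≤ t → 0 < τ → t + τ ≤ T → ψ t - ψ (t + τ) ≤ (L + e) * τ)
    (htot : (L - e) * T - G ≤ φ T - φ 0) (htot' : (L - e) * T - 2 * G ≤ ψ 0 - ψ T)
    (hone : ∀ t τ, 0 ≤ t → 0 < τ → t + τ ≤ T → (L - c) * τ ≤ φ (t + τ) - φ t →
      (L - c) * τ ≤ ψ t - ψ (t + τ) → φ t + ψ t ≤ Λ * τ) :
    ∫ t in (0 : ℝ)..T, (φ t + ψ t) ≤ G * (4 * e * T + 3 * G) / c := by
  have _ := hpos
  have hce : 0 < c + e := by linarith
  obtain ⟨K, hK⟩ : ∃ K, K = Λ * T + G / (c + e) * (4 + 2 * |L + e|) + G := ⟨_, rfl⟩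
  have hK0 : 0 ≤ K := by
    rw [hK]
    positivity
  have hcont : Continuous fun t => φ t + ψ t := hφ.add hψ
  have key : ∀ ε : ℝ, 0 < ε → ∫ t in (0 : ℝ)..T, (φ t + ψ t) ≤
      G * (4 * e * T + 3 * G) / (c + e) + K * ε := by
    intro ε hε
    obtain ⟨δ₁, hδ₁, h1⟩ := tl_near hφ (T := T) hε
    obtain ⟨δ₂, hδ₂, h2⟩ := tl_near hψ (T := T) hε
    obtain ⟨τ, hτ0, hτ⟩ := exists_between (lt_min (lt_min hδ₁ hδ₂) (lt_min hT hε))
    have hτ1 : τ < δ₁ := lt_of_lt_of_le hτ ((min_le_left _ _).trans (min_le_left _ _))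
    have hτ2 : τ < δ₂ := lt_of_lt_of_le hτ ((min_le_left _ _).trans (min_le_right _ _))
    have hτT : τ < T := lt_of_lt_of_le hτ ((min_le_right _ _).trans (min_le_left _ _))
    have hτε : τ < ε := lt_of_lt_of_le hτ ((min_le_right _ _).trans (min_le_right _ _))
    have a1 := abs_le.1 (h1 τ hτ0 hτ1)
    have a2 := abs_le.1 (h2 τ hτ0 hτ2)
    -- the last part of the interval
    have b1 : ∫ t in (T - τ)..T, (φ t + ψ t) ≤ G * τ := by
      have b2 : ∫ t in (T - τ)..T, (φ t + ψ t) ≤ ∫ _t in (T - τ)..T, G :=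
        intervalIntegral.integral_mono_on (by linarith) (hcont.intervalIntegrable _ _)
          intervalIntegrable_const fun t ht => hle t ⟨by linarith [ht.1], ht.2⟩
      rw [intervalIntegral.integral_const, smul_eq_mul, sub_sub_cancel] at b2
      linarith
    -- the pointwise inequality
    have hpt : ∀ t ∈ Set.Icc 0 (T - τ), φ t + ψ t ≤ Λ * τ + G / ((c + e) * τ) *
        (2 * (L + e) * τ - (φ (t + τ) - φ t) + (ψ (t + τ) - ψ t)) := by
      intro t ht
      have c1 := hup t τ ht.1 hτ0 (by linarith [ht.2])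
      have c2 := hup' t τ ht.1 hτ0 (by linarith [ht.2])
      have c3 := hle t ⟨ht.1, by linarith [ht.2]⟩
      have c4 : 0 < (c + e) * τ := mul_pos hce hτ0
      by_cases c5 : (L - c) * τ ≤ φ (t + τ) - φ t ∧ (L - c) * τ ≤ ψ t - ψ (t + τ)
      · have c6 := hone t τ ht.1 hτ0 (by linarith [ht.2]) c5.1 c5.2
        have c7 : 0 ≤ G / ((c + e) * τ) *
            (2 * (L + e) * τ - (φ (t + τ) - φ t) + (ψ (t + τ) - ψ t)) :=
          mul_nonneg (by positivity) (by linarith)
        linarith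
      · have c6 : (c + e) * τ ≤ 2 * (L + e) * τ - (φ (t + τ) - φ t) + (ψ (t + τ) - ψ t) := by
          rw [not_and_or, not_le, not_le] at c5
          rcases c5 with c5 | c5 <;> nlinarith
        have c7 : G ≤ G / ((c + e) * τ) *
            (2 * (L + e) * τ - (φ (t + τ) - φ t) + (ψ (t + τ) - ψ t)) := by
          rw [div_mul_eq_mul_div, le_div_iff₀ c4]
          exact mul_le_mul_of_nonneg_left c6 hG
        have c8 : 0 ≤ Λ * τ := by positivity
        linarith
    have hcφ : Continuous fun t => φ (t + τ) - φ t := (hφ.comp (continuous_id.add continuous_const)).sub hφ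
    have hcψ : Continuous fun t => ψ (t + τ) - ψ t := (hψ.comp (continuous_id.add continuous_const)).sub hψ
    have b3 : ∫ t in (0 : ℝ)..(T - τ), (φ t + ψ t) ≤ ∫ t in (0 : ℝ)..(T - τ), (Λ * τ + G / ((c + e) * τ) *
        (2 * (L + e) * τ - (φ (t + τ) - φ t) + (ψ (t + τ) - ψ t))) := by
      refine intervalIntegral.integral_mono_on (by linarith) (hcont.intervalIntegrable _ _) ?_ hpt
      exact (continuous_const.add (continuous_const.mul
        ((continuous_const.sub hcφ).add hcψ))).intervalIntegrable _ _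
    have b4 : ∫ t in (0 : ℝ)..(T - τ), (Λ * τ + G / ((c + e) * τ) *
        (2 * (L + e) * τ - (φ (t + τ) - φ t) + (ψ (t + τ) - ψ t))) =
        (T - τ) * (Λ * τ) + G / ((c + e) * τ) * ((T - τ) * (2 * (L + e) * τ) -
          (∫ t in (0 : ℝ)..(T - τ), (φ (t + τ) - φ t)) + ∫ t in (0 : ℝ)..(T - τ), (ψ (t + τ) - ψ t)) := by
      have e1 : IntervalIntegrable (fun t => φ (t + τ) - φ t) volume 0 (T - τ) :=
        hcφ.intervalIntegrable _ _
      have e2 : IntervalIntegrable (fun t => ψ (t + τ) - ψ t) volume 0 (T - τ) :=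
        hcψ.intervalIntegrable _ _
      have e3 : IntervalIntegrable (fun t => 2 * (L + e) * τ - (φ (t + τ) - φ t)) volume 0 (T - τ) :=
        intervalIntegrable_const.sub e1
      have e4 : IntervalIntegrable (fun t => 2 * (L + e) * τ - (φ (t + τ) - φ t) +
          (ψ (t + τ) - ψ t)) volume 0 (T - τ) := e3.add e2
      have e5 : IntervalIntegrable (fun t => G / ((c + e) * τ) * (2 * (L + e) * τ -
          (φ (t + τ) - φ t) + (ψ (t + τ) - ψ t))) volume 0 (T - τ) := e4.const_mul _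
      rw [intervalIntegral.integral_add intervalIntegrable_const e5, intervalIntegral.integral_const,
        intervalIntegral.integral_const_mul, intervalIntegral.integral_add e3 e2,
        intervalIntegral.integral_sub intervalIntegrable_const e1, intervalIntegral.integral_const,
        smul_eq_mul, smul_eq_mul, sub_zero]
    have b5 : ∫ t in (0 : ℝ)..T, (φ t + ψ t) =
        (∫ t in (0 : ℝ)..(T - τ), (φ t + ψ t)) + ∫ t in (T - τ)..T, (φ t + ψ t) :=
      (intervalIntegral.integral_add_adjacent_intervals (hcont.intervalIntegrable _ _)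
        (hcont.intervalIntegrable _ _)).symm
    rw [b4] at b3
    -- the bracket
    have b6 : (T - τ) * (2 * (L + e) * τ) -
        (∫ t in (0 : ℝ)..(T - τ), (φ (t + τ) - φ t)) + (∫ t in (0 : ℝ)..(T - τ), (ψ (t + τ) - ψ t)) ≤
        (4 * e * T + 3 * G + (4 + 2 * |L + e|) * ε) * τ := by
      have d1 : (φ T - φ 0) * τ ≥ ((L - e) * T - G) * τ := mul_le_mul_of_nonneg_right htot hτ0.le
      have d2 : (ψ 0 - ψ T) * τ ≥ ((L - e) * T - 2 * G) * τ := mul_le_mul_of_nonneg_right htot' hτ0.le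
      have d3 : -(2 * (L + e) * τ) * τ ≤ (2 * |L + e| * ε) * τ := by
        refine mul_le_mul_of_nonneg_right ?_ hτ0.le
        have d4 : -(L + e) ≤ |L + e| := neg_le_abs _
        have d5 : -(L + e) * τ ≤ |L + e| * ε := by
          calc -(L + e) * τ ≤ |L + e| * τ := mul_le_mul_of_nonneg_right d4 hτ0.le
            _ ≤ |L + e| * ε := mul_le_mul_of_nonneg_left hτε.le (abs_nonneg _)
        linarith
      nlinarith [a1.1, a1.2, a2.1, a2.2]
    have b7 : G / ((c + e) * τ) * ((T - τ) * (2 * (L + e) * τ) -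
        (∫ t in (0 : ℝ)..(T - τ), (φ (t + τ) - φ t)) + ∫ t in (0 : ℝ)..(T - τ), (ψ (t + τ) - ψ t)) ≤
        G / (c + e) * (4 * e * T + 3 * G + (4 + 2 * |L + e|) * ε) := by
      refine (mul_le_mul_of_nonneg_left b6 (by positivity)).trans (le_of_eq ?_)
      field_simp
    have b8 : (T - τ) * (Λ * τ) ≤ Λ * T * ε := by
      calc (T - τ) * (Λ * τ) ≤ T * (Λ * τ) := mul_le_mul_of_nonneg_right (by linarith) (by positivity)
        _ = Λ * T * τ := by ring
        _ ≤ Λ * T * ε := mul_le_mul_of_nonneg_left hτε.le (by positivity)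
    have b9 : G * τ ≤ G * ε := mul_le_mul_of_nonneg_left hτε.le hG
    have b10 : G * (4 * e * T + 3 * G) / (c + e) + K * ε =
        Λ * T * ε + G / (c + e) * (4 * e * T + 3 * G + (4 + 2 * |L + e|) * ε) + G * ε := by
      rw [hK]
      ring
    rw [b5, b10]
    linarith
  have key2 : ∫ t in (0 : ℝ)..T, (φ t + ψ t) ≤ G * (4 * e * T + 3 * G) / (c + e) := by
    refine le_of_forall_pos_le_add fun ε hε => ?_
    refine (key (ε / (K + 1)) (by positivity)).trans ?_
    have h1 : K * (ε / (K + 1)) ≤ ε := by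
      rw [mul_div_assoc', div_le_iff₀ (by positivity)]
      nlinarith
    linarith
  refine key2.trans ?_
  exact div_le_div_of_nonneg_left (by positivity) hc (by linarith)

/-- **Averages over flow lines.** Proof: `h z ≤ AA ra h z ≤ C ra^(-2n) ∫_W h`, `W = {g | dd z g ≤ ra}`
(`AA_le_int`); for `0 ≤ t ≤ T`: `∫_W h dmu = ∫_(b(-t) W) h (b(t) g) dmu(g) ≤ ∫_W'' h (b(t) g) dmu(g)`,
`W'' = {g | dd z g ≤ ra + 2 T}` (left invariance of `mu`; the displacement of `b(t)` at these points is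
`≤ 2 t`, `log_wt_flow_le`); average over `t` (Fubini): `∫_W h ≤ vol W'' * M / T`, `vol W'' ≤ C (3 ra)^(2n)`
(`vol_le`). -/
theorem le_flow_average (hn : 1 ≤ n) : ∃ C : ℝ, 0 < C ∧ ∀ (v : Fin n → ℂ) (hv : Kak.nq v = 1)
    (ra T : ℝ), 0 < ra → ra ≤ 1 / 100 → 0 < T → T ≤ ra → ∀ h : SUGroup n → ℝ, Continuous h →
    ∀ z : SUGroup n, nr (zc z) ≤ 1 / 16 → (∀ g, dd z g ≤ ra + 4 * T → 0 ≤ h g) → h z ≤ AA ra h z →
    ∀ M : ℝ, (∀ g, dd z g ≤ ra + 2 * T → ∫ t in (0 : ℝ)..T, h (Kak.flow v hv t * g) ≤ M) →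
      h z ≤ C * (M / T) := by
  obtain ⟨C₁, hC₁, hA⟩ := AA_le_int n
  obtain ⟨C₂, hC₂, hV⟩ := vol_le hn
  refine ⟨C₁ * C₂ * 3 ^ (2 * n), by positivity, ?_⟩
  intro v hv ra T hra hra1 hT hTra h hh z hz hpos hsub M hM
  -- distances from the origin
  have hnr : ∀ g, dd z g ≤ 1 / 16 → nr (zc g) ≤ 1 / 8 := by
    intro g hg
    have e1 : nr (zc g) = Real.sqrt (hq g) := by
      rw [← nr_zc_sq, Real.sqrt_sq (nr_nonneg _)]
    have e2 : nr (zc z) = Real.sqrt (hq z) := by
      rw [← nr_zc_sq, Real.sqrt_sq (nr_nonneg _)]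
    have e3 := sqrt_hq_mul_le z (z⁻¹ * g)
    rw [mul_inv_cancel_left, ← e1, ← e2] at e3
    unfold dd at hg
    linarith
  -- the displacement of the flow
  have hdis : ∀ g t, 0 ≤ t → t ≤ T → dd z g ≤ 1 / 16 →
      dd g (Kak.flow v hv t * g) ≤ 2 * t := by
    intro g t ht htT hg
    have e1 := hnr g hg
    have e2 := log_wt_flow_le hv ht (by linarith) (g := g) (by linarith)
    have e3 := sqrt_hq_le_log (g⁻¹ * Kak.flow v hv t * g)
    unfold dd
    rw [← mul_assoc]
    have e4 : t * (1 + 8 * nr (zc g)) ≤ 2 * t := by nlinarith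
    linarith
  have hdis' : ∀ g t, 0 ≤ t → t ≤ T → dd z (Kak.flow v hv t * g) ≤ 1 / 16 →
      dd g (Kak.flow v hv t * g) ≤ 2 * t := by
    intro g t ht htT hg
    obtain ⟨g', hg'⟩ : ∃ g', g' = Kak.flow v hv t * g := ⟨_, rfl⟩
    rw [← hg'] at hg ⊢
    have e1 := hnr g' hg
    have e2 := log_wt_flow_le hv ht (by linarith) (g := g') (by linarith)
    have e3 := sqrt_hq_le_log (g'⁻¹ * Kak.flow v hv t * g')
    have e5 : dd g g' = Real.sqrt (hq (g'⁻¹ * Kak.flow v hv t * g')) := by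
      unfold dd
      have e6 : g⁻¹ * g' = g'⁻¹ * Kak.flow v hv t * g' := by
        rw [hg']
        group
      rw [e6]
    rw [e5]
    have e4 : t * (1 + 8 * nr (zc g')) ≤ 2 * t := by nlinarith
    linarith
  -- the sets
  obtain ⟨R, hR⟩ : ∃ R, R = ra + 2 * T := ⟨_, rfl⟩
  have hR0 : 0 < R := by rw [hR]; linarith
  have hR1 : R ≤ 1 / 2 := by rw [hR]; linarith
  have hhq0 : ∀ x : SUGroup n, 0 ≤ hq x := fun x => by
    rw [← nr_zc_sq]
    positivity
  have hmem : ∀ (r : ℝ), 0 ≤ r → ∀ x : SUGroup n, hq x ≤ r ^ 2 ↔ dd z (z * x) ≤ r := by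
    intro r hr x
    unfold dd
    rw [inv_mul_cancel_left, Real.sqrt_le_left hr]
  have hWm : ∀ r : ℝ, MeasurableSet {x : SUGroup n | hq x ≤ r ^ 2} := fun r =>
    measurableSet_le continuous_hq.measurable measurable_const
  have hWc : ∀ r : ℝ, r ≤ 1 / 2 → 0 ≤ r → IsCompact {x : SUGroup n | hq x ≤ r ^ 2} := fun r hr hr0 =>
    isCompact_hq (by linarith) hr0
  -- the mean over the ball
  obtain ⟨I, hI⟩ : ∃ I, I = ∫ x in {x : SUGroup n | hq x ≤ ra ^ 2}, h (z * x) ∂(mu n) := ⟨_, rfl⟩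
  have h1 : h z ≤ C₁ * (ra ^ (2 * n))⁻¹ * I := by
    rw [hI]
    refine hsub.trans (hA ra hra (by linarith) h hh z fun x hx => hpos _ ?_)
    exact ((hmem ra hra.le x).1 hx).trans (by linarith)
  have hcont : Continuous fun p : ℝ × SUGroup n => h (Kak.flow v hv p.1 * (z * p.2)) :=
    hh.comp (((Kak.continuous_flow hv).comp continuous_fst).mul (continuous_const.mul continuous_snd))
  -- translation along the flow
  have h2 : ∀ t ∈ Set.Icc 0 T, I ≤
      ∫ x in {x : SUGroup n | hq x ≤ R ^ 2}, h (Kak.flow v hv t * (z * x)) ∂(mu n) := by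
    intro t ht
    have hcz : ∀ x, z * (z⁻¹ * Kak.flow v hv t * z * x) = Kak.flow v hv t * (z * x) := fun x => by
      group
    have hcx : ∀ x, hq (z⁻¹ * Kak.flow v hv t * z * x) ≤ ra ^ 2 ↔
        dd z (Kak.flow v hv t * (z * x)) ≤ ra := fun x => by
      rw [hmem ra hra.le, hcz]
    have e1 : I = ∫ x, ({x : SUGroup n | hq x ≤ ra ^ 2}.indicator (fun x => h (z * x)))
        (z⁻¹ * Kak.flow v hv t * z * x) ∂(mu n) := by
      rw [integral_mul_left_eq_self ({x : SUGroup n | hq x ≤ ra ^ 2}.indicator fun x => h (z * x)),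
        integral_indicator (hWm ra), hI]
    rw [e1, ← integral_indicator (hWm R)]
    refine integral_mono_of_nonneg (Eventually.of_forall fun x => ?_) ?_
      (Eventually.of_forall fun x => ?_)
    · refine Set.indicator_nonneg (fun y hy => hpos _ ?_) _
      exact ((hmem ra hra.le y).1 hy).trans (by linarith)
    · rw [integrable_indicator_iff (hWm R)]
      exact (hcont.comp (Continuous.prodMk_right t)).continuousOn.integrableOn_compact
        (hWc R hR1 hR0.le)
    · beta_reduce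
      by_cases hx : hq x ≤ R ^ 2
      · rw [Set.indicator_of_mem (show x ∈ {x : SUGroup n | hq x ≤ R ^ 2} from hx)]
        by_cases hx2 : hq (z⁻¹ * Kak.flow v hv t * z * x) ≤ ra ^ 2
        · rw [Set.indicator_of_mem (show _ ∈ {x : SUGroup n | hq x ≤ ra ^ 2} from hx2), hcz]
        · rw [Set.indicator_of_notMem (show _ ∉ {x : SUGroup n | hq x ≤ ra ^ 2} from hx2)]
          refine hpos _ ?_
          have e2 : dd z (z * x) ≤ R := (hmem R hR0.le x).1 hx
          have e3 := hdis (z * x) t ht.1 ht.2 (by rw [hR] at e2; linarith)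
          have e4 := dd_triangle z (z * x) (Kak.flow v hv t * (z * x))
          rw [hR] at e2
          linarith [ht.2]
      · rw [Set.indicator_of_notMem (show x ∉ {x : SUGroup n | hq x ≤ R ^ 2} from hx)]
        have hx2 : ¬ hq (z⁻¹ * Kak.flow v hv t * z * x) ≤ ra ^ 2 := by
          intro hx3
          apply hx
          rw [hcx] at hx3
          rw [hmem R hR0.le]
          have e3 := hdis' (z * x) t ht.1 ht.2 (by linarith)
          have e4 := dd_triangle z (Kak.flow v hv t * (z * x)) (z * x)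
          rw [dd_comm (Kak.flow v hv t * (z * x))] at e4
          rw [hR]
          linarith [ht.2]
        rw [Set.indicator_of_notMem (show _ ∉ {x : SUGroup n | hq x ≤ ra ^ 2} from hx2)]
  -- Fubini
  have hfin : (mu n) {x : SUGroup n | hq x ≤ R ^ 2} < ⊤ := (hWc R hR1 hR0.le).measure_lt_top
  have hprod : Integrable (fun p : ℝ × SUGroup n => h (Kak.flow v hv p.1 * (z * p.2)))
      ((volume.restrict (Set.Ioc 0 T)).prod ((mu n).restrict {x : SUGroup n | hq x ≤ R ^ 2})) := by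
    rw [Measure.prod_restrict]
    refine IntegrableOn.mono_set (t := Set.Icc 0 T ×ˢ {x : SUGroup n | hq x ≤ R ^ 2}) ?_
      (Set.prod_mono Set.Ioc_subset_Icc_self le_rfl)
    exact hcont.continuousOn.integrableOn_compact (isCompact_Icc.prod (hWc R hR1 hR0.le))
  have h3 : T * I ≤ ∫ t in (0 : ℝ)..T,
      (∫ x in {x : SUGroup n | hq x ≤ R ^ 2}, h (Kak.flow v hv t * (z * x)) ∂(mu n)) := by
    have e1 : ∫ _t in (0 : ℝ)..T, I = T * I := by
      rw [intervalIntegral.integral_const, smul_eq_mul, sub_zero]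
    rw [← e1]
    refine intervalIntegral.integral_mono_on hT.le intervalIntegrable_const ?_ h2
    rw [intervalIntegrable_iff_integrableOn_Ioc_of_le hT.le]
    exact hprod.integral_prod_left
  have h4 : ∫ t in (0 : ℝ)..T,
      (∫ x in {x : SUGroup n | hq x ≤ R ^ 2}, h (Kak.flow v hv t * (z * x)) ∂(mu n)) =
      ∫ x in {x : SUGroup n | hq x ≤ R ^ 2},
        (∫ t in (0 : ℝ)..T, h (Kak.flow v hv t * (z * x))) ∂(mu n) := by
    simp only [intervalIntegral.integral_of_le hT.le]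
    exact integral_integral_swap hprod
  have h5 : ∫ x in {x : SUGroup n | hq x ≤ R ^ 2},
      (∫ t in (0 : ℝ)..T, h (Kak.flow v hv t * (z * x))) ∂(mu n) ≤
      (mu n).real {x : SUGroup n | hq x ≤ R ^ 2} * M := by
    have e1 : ∫ _x in {x : SUGroup n | hq x ≤ R ^ 2}, M ∂(mu n) =
        (mu n).real {x : SUGroup n | hq x ≤ R ^ 2} * M := by
      rw [setIntegral_const, smul_eq_mul]
    rw [← e1]
    refine setIntegral_mono_on ?_ (integrableOn_const hfin.ne) (hWm R) fun x hx => ?_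
    · have e2 := hprod.integral_prod_right
      simp only [intervalIntegral.integral_of_le hT.le]
      exact e2
    · refine hM (z * x) ?_
      rw [← hR]
      exact (hmem R hR0.le x).1 hx
  have hM0 : 0 ≤ M := by
    have e0 : dd z z = 0 := by
      unfold dd
      rw [inv_mul_cancel, hq, ch_one]
      norm_num
    refine le_trans ?_ (hM z (by rw [e0]; linarith))
    refine intervalIntegral.integral_nonneg hT.le fun t ht => hpos _ ?_
    have e1 := hdis z t ht.1 ht.2 (by rw [e0]; norm_num)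
    linarith [ht.2]
  have h6 := hV R hR0 hR1
  have h7 : T * I ≤ C₂ * (3 * ra) ^ (2 * n) * M := by
    rw [h4] at h3
    refine h3.trans (h5.trans ?_)
    refine mul_le_mul_of_nonneg_right (h6.trans ?_) hM0
    refine mul_le_mul_of_nonneg_left (pow_le_pow_left₀ hR0.le ?_ _) hC₂.le
    rw [hR]
    linarith
  have h8 : I ≤ C₂ * (3 * ra) ^ (2 * n) * M / T := by
    rw [le_div_iff₀ hT]
    linarith
  refine h1.trans ((mul_le_mul_of_nonneg_left h8 (by positivity)).trans (le_of_eq ?_))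
  rw [mul_pow]
  have h9 : ra ^ (2 * n) ≠ 0 := (pow_pos hra _).ne'
  field_simp

end Pool.Agent.Lib.MP_5d4057_al.IN
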