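import Pool.Agent.Lib.MP_5d4057_al.IN.Ball
import Pool.Agent.Lib.MP_5d4057_al.IN.AvgC
import Pool.Agent.Lib.MP_5d4057_al.IN.PersA

/-! Persistence (text C5, C6, new form): a purely scalar theorem on two functions `u`, `u'` with
`u + u' ≥ 0` near `0`. -/

set_option autoImplicit false

namespace Pool.Agent.Lib.MP_5d4057_al.IN

open Matrix MeasureTheory Filter Topology Pool.Agent.Lib.MP_5d4057_al Pool.Agent.Lib.MP_5d4057_al.Hyb
  Pool.Agent.Lib.MP_5d4057_al.HM

variable {n : ℕ}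

private theorem ps_dd_step (p g x : SUGroup n) : dd p (g * x) ≤ dd p g + Real.sqrt (hq x) := by
  unfold dd
  rw [← mul_assoc]
  exact sqrt_hq_mul_le _ _

private theorem ps_dd_tri (p g h : SUGroup n) : dd p h ≤ dd p g + dd g h := by
  have h1 := ps_dd_step p g (g⁻¹ * h)
  rwa [mul_inv_cancel_left] at h1

private theorem ps_nr_le (p g : SUGroup n) : nr (zc g) ≤ nr (zc p) + dd p g := by
  have h1 : ∀ x : SUGroup n, nr (zc x) = Real.sqrt (hq x) := fun x => by
    rw [← nr_zc_sq, Real.sqrt_sq (nr_nonneg _)]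
  rw [h1 g, h1 p]
  have h2 := sqrt_hq_mul_le p (p⁻¹ * g)
  rwa [mul_inv_cancel_left] at h2

private theorem ps_sqrt_hq {x : SUGroup n} {r : ℝ} (hr : 0 ≤ r) (h : hq x ≤ r ^ 2) :
    Real.sqrt (hq x) ≤ r := by
  rw [← Real.sqrt_sq hr]
  exact Real.sqrt_le_sqrt h

private theorem ps_flow {v : Fin n → ℂ} (hv : Kak.nq v = 1) {t : ℝ} (ht : 0 ≤ t)
    (ht1 : t ≤ 1 / 4) {g : SUGroup n} (hg : nr (zc g) ≤ 1 / 10) :
    Real.log (wt (g⁻¹ * Kak.flow v hv t * g)) ≤ 2 * t := by
  refine (log_wt_flow_le hv ht ht1 (by linarith)).trans ?_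
  nlinarith

private theorem ps_dd_flow {v : Fin n → ℂ} (hv : Kak.nq v = 1) {t : ℝ} (ht : 0 ≤ t)
    (ht1 : t ≤ 1 / 4) {g : SUGroup n} (hg : nr (zc g) ≤ 1 / 10) :
    dd g (Kak.flow v hv t * g) ≤ 2 * t := by
  unfold dd
  rw [← mul_assoc]
  exact (sqrt_hq_le_log _).trans (ps_flow hv ht ht1 hg)

/-- One step of the induction at a centre `p` and a scale `ρ`: if the averages `AA (ρ/32) u` have
increments `≥ (L - e) t` along the flow and `u + u' ≤ G`, `G ≤ e ρ`, on the `ρ`-ball about `p`, then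
`u + u' ≤ C (e / c) G` on the `ρ/4`-ball. Proof (text C5, C6): `ra = T = ρ/32`. On `{dd p g ≤ ρ/2}`,
`0 ≤ AA ra u - u ≤ AA ra (u+u') - (u+u') ≤ G`, so `u (b(t) g) - u g ≥ (L - e) t - G` and
`u' g - u' (b(t) g) ≥ (L - e) t - 2G` for `t ≤ T`; `thin_line` on the flow lines of length `T` starting in
`{dd p g ≤ 3ρ/8}`; `le_flow_average`. -/
theorem pers_step (hn : 1 ≤ n) : ∃ C : ℝ, 0 < C ∧ ∀ (L e c Λ ρ G : ℝ), 0 < L → 0 < e → 0 < c →
    0 ≤ Λ → 0 < ρ → ρ ≤ 1 / 8 → 0 ≤ G → G ≤ e * ρ → ∀ (v : Fin n → ℂ) (hv : Kak.nq v = 1)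
    (u u' : SUGroup n → ℝ), Continuous u → Continuous u' →
    (∀ r g, 0 < r → r < 1 → u g ≤ AA r u g) → (∀ r g, 0 < r → r < 1 → u' g ≤ AA r u' g) →
    (∀ g, 0 ≤ u g + u' g) → ∀ p : SUGroup n, nr (zc p) ≤ 1 / 32 →
    (∀ g, dd p g ≤ ρ → u g + u' g ≤ G) →
    (∀ g t, 0 ≤ t → t ≤ ρ → dd p g ≤ ρ → dd p (Kak.flow v hv t * g) ≤ ρ →
      u (Kak.flow v hv t * g) - u g ≤ (L + e) * t ∧ u' g - u' (Kak.flow v hv t * g) ≤ (L + e) * t) →
    (∀ g t, 0 < t → t ≤ ρ → dd p g ≤ ρ → dd p (Kak.flow v hv t * g) ≤ ρ →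
      (L - c) * t ≤ u (Kak.flow v hv t * g) - u g →
      (L - c) * t ≤ u' g - u' (Kak.flow v hv t * g) → u g + u' g ≤ Λ * t) →
    (∀ g t, 0 ≤ t → t ≤ ρ / 32 → dd p g ≤ ρ / 2 → dd p (Kak.flow v hv t * g) ≤ ρ / 2 →
      (L - e) * t ≤ AA (ρ / 32) u (Kak.flow v hv t * g) - AA (ρ / 32) u g) →
    ∀ g, dd p g ≤ ρ / 4 → u g + u' g ≤ C * (e / c) * G := by
  obtain ⟨C, hC, hflow⟩ := le_flow_average (n := n) hn
  refine ⟨C * 100, by positivity, ?_⟩
  intro L e c Λ ρ G hL he hc hΛ hρ hρ1 hG hGe v hv u u' hu hu' hsu hsu' hpos p hp hle hup hone hinc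
    z hz
  obtain ⟨T, hT⟩ : ∃ T : ℝ, T = ρ / 32 := ⟨_, rfl⟩
  have hT0 : 0 < T := by rw [hT]; positivity
  have hρT : ρ = 32 * T := by rw [hT]; ring
  rw [← hT] at hinc
  have hT1 : T < 1 := by linarith
  have hw : Continuous fun x => u x + u' x := hu.add hu'
  -- the averages are close to the function
  have hA : ∀ g, dd p g ≤ ρ / 2 → AA T u g ≤ u g + G := by
    intro g hg
    have h1 := hsu' T g hT0 hT1
    have h2 : AA T (fun x => u x + u' x) g ≤ G := by
      have h3 := AA_mono hT0 hT1 hw (v := fun _ => G) continuous_const (g := g) fun x hx => by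
        refine hle _ ?_
        have h4 := ps_dd_step p g x
        have h5 := ps_sqrt_hq hT0.le hx
        linarith
      rwa [AA_const hn hT0 hT1] at h3
    rw [AA_add hT0 hT1 hu hu'] at h2
    have h3 := hpos g
    linarith
  have hI : ∀ g t, 0 ≤ t → t ≤ T → dd p g ≤ ρ / 2 → dd p (Kak.flow v hv t * g) ≤ ρ / 2 →
      (L - e) * t - G ≤ u (Kak.flow v hv t * g) - u g := by
    intro g t ht htT hg hg'
    have h1 := hinc g t ht htT hg hg'
    have h2 := hA _ hg'
    have h3 := hsu T g hT0 hT1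
    linarith
  -- the integral over a flow line
  obtain ⟨M, hM⟩ : ∃ M : ℝ, M = G * (100 * e * T) / c := ⟨_, rfl⟩
  have hline : ∀ g, dd p g ≤ 3 * ρ / 8 →
      ∫ t in (0 : ℝ)..T, (u (Kak.flow v hv t * g) + u' (Kak.flow v hv t * g)) ≤ M := by
    intro g hg
    have hgn : nr (zc g) ≤ 1 / 10 := by
      have := ps_nr_le p g
      linarith
    have hst : ∀ t ∈ Set.Icc 0 T, dd p (Kak.flow v hv t * g) ≤ ρ / 2 := by
      intro t ht
      have h1 := ps_dd_tri p g (Kak.flow v hv t * g)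
      have h2 := ps_dd_flow hv ht.1 (by linarith [ht.2]) hgn
      linarith [ht.2]
    have hadd : ∀ t τ : ℝ, Kak.flow v hv (t + τ) * g = Kak.flow v hv τ * (Kak.flow v hv t * g) := by
      intro t τ
      rw [add_comm, Kak.flow_add, mul_assoc]
    have hcf : Continuous fun t : ℝ => Kak.flow v hv t * g :=
      (Kak.continuous_flow hv).mul continuous_const
    have h0 : dd p (Kak.flow v hv 0 * g) ≤ ρ / 2 := hst 0 ⟨le_rfl, hT0.le⟩
    have hTT := hst T ⟨hT0.le, le_rfl⟩
    have e0 : Kak.flow v hv 0 * g = g := by rw [Kak.flow_zero, one_mul]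
    rw [e0] at h0
    have hinc0 := hI g T hT0.le le_rfl h0 hTT
    have key := thin_line (L := L) (e := e) (c := c) (G := G) (T := T) (Λ := Λ) he.le hc hG hT0 hΛ
      (φ := fun t => u (Kak.flow v hv t * g)) (ψ := fun t => u' (Kak.flow v hv t * g))
      (hu.comp hcf) (hu'.comp hcf)
      (fun t _ => hpos _)
      (fun t ht => hle _ ((hst t ht).trans (by linarith)))
      (fun t τ ht hτ htτ => by
        have h1 := hst t ⟨ht, by linarith⟩
        have h2 := hst (t + τ) ⟨by linarith, htτ⟩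
        rw [hadd] at h2
        have h3 := (hup _ τ hτ.le (by linarith) (h1.trans (by linarith)) (h2.trans (by linarith))).1
        simp only [hadd]
        exact h3)
      (fun t τ ht hτ htτ => by
        have h1 := hst t ⟨ht, by linarith⟩
        have h2 := hst (t + τ) ⟨by linarith, htτ⟩
        rw [hadd] at h2
        have h3 := (hup _ τ hτ.le (by linarith) (h1.trans (by linarith)) (h2.trans (by linarith))).2
        simp only [hadd]
        exact h3)
      (by
        simp only [e0]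
        exact hinc0)
      (by
        simp only [e0]
        have h1 := hpos g
        have h2 := hle (Kak.flow v hv T * g) (hTT.trans (by linarith))
        linarith)
      (fun t τ ht hτ htτ h3 h4 => by
        have h1 := hst t ⟨ht, by linarith⟩
        have h2 := hst (t + τ) ⟨by linarith, htτ⟩
        rw [hadd] at h2
        simp only [hadd] at h3 h4
        exact hone _ τ hτ (by linarith) (h1.trans (by linarith)) (h2.trans (by linarith)) h3 h4)
    refine key.trans ?_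
    rw [hM]
    apply div_le_div_of_nonneg_right _ hc.le
    apply mul_le_mul_of_nonneg_left _ hG
    rw [hρT] at hGe
    linarith
  have hfin := hflow v hv T T hT0 (by linarith) hT0 le_rfl (fun x => u x + u' x) hw z
    (by
      have := ps_nr_le p z
      linarith)
    (fun g _ => hpos g)
    (by
      rw [AA_add hT0 hT1 hu hu']
      have h1 := hsu T z hT0 hT1
      have h2 := hsu' T z hT0 hT1
      linarith)
    M
    (fun g hg => hline g (by
      have := ps_dd_tri p z g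
      linarith))
  refine hfin.trans (le_of_eq ?_)
  rw [hM]
  field_simp

/-- Increments at the next scale: `AA r' u = AA r' (AA r u) + AA r' (u - AA r u)`, `r' = r/4 = ρ/128`. -/
theorem pers_incr (hn : 1 ≤ n) : ∃ C : ℝ, 0 < C ∧ ∀ (κ ρ G : ℝ), 0 < ρ → ρ ≤ 1 / 8 → 0 ≤ G →
    ∀ (v : Fin n → ℂ) (hv : Kak.nq v = 1) (u : SUGroup n → ℝ), Continuous u →
    ∀ p : SUGroup n, nr (zc p) ≤ 1 / 32 → (∀ g, dd p g ≤ ρ / 2 → |u g - AA (ρ / 32) u g| ≤ G) →
    (∀ g t, 0 ≤ t → t ≤ ρ / 32 → dd p g ≤ ρ / 2 → dd p (Kak.flow v hv t * g) ≤ ρ / 2 →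
      κ * t ≤ AA (ρ / 32) u (Kak.flow v hv t * g) - AA (ρ / 32) u g) →
    ∀ g t, 0 ≤ t → t ≤ ρ / 4 / 32 → dd p g ≤ ρ / 4 / 2 → dd p (Kak.flow v hv t * g) ≤ ρ / 4 / 2 →
      (κ - C * (G / ρ)) * t ≤ AA (ρ / 4 / 32) u (Kak.flow v hv t * g) - AA (ρ / 4 / 32) u g := by
  obtain ⟨C, hC, hAA⟩ := AA_incr (n := n) hn
  refine ⟨512 * C, by positivity, ?_⟩
  intro κ ρ G hρ hρ1 hG v hv u hu p hp hw hinc g t ht ht1 hg hg'
  obtain ⟨r', hr'⟩ : ∃ r' : ℝ, r' = ρ / 128 := ⟨_, rfl⟩
  have hr0 : 0 < r' := by rw [hr']; positivity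
  have e1 : ρ / 4 / 32 = r' := by rw [hr']; ring
  have e2 : ρ / 32 = 4 * r' := by rw [hr']; ring
  have e3 : ρ = 128 * r' := by rw [hr']; ring
  rw [e1] at ht1 ⊢
  rw [e2] at hw hinc
  have hr1 : r' < 1 := by linarith
  have h4r0 : 0 < 4 * r' := by positivity
  have h4r1 : 4 * r' < 1 := by linarith
  have hcA : Continuous (AA (4 * r') u) := continuous_AA h4r0 h4r1 hu
  obtain ⟨w, hwd⟩ : ∃ w : SUGroup n → ℝ, w = fun x => u x - AA (4 * r') u x := ⟨_, rfl⟩
  have hcw : Continuous w := by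
    rw [hwd]
    exact hu.sub hcA
  have hsplit : ∀ x, AA r' u x = AA r' (AA (4 * r') u) x + AA r' w x := by
    intro x
    rw [hwd, AA_sub hr0 hr1 hu hcA]
    ring
  -- the second part
  have hnr : ∀ x, dd p x ≤ ρ / 4 → nr (zc x) ≤ 1 / 10 := by
    intro x hx
    have := ps_nr_le p x
    linarith
  have hhalf : ∀ x s, 0 ≤ s → 2 * s ≤ r' → dd p x ≤ ρ / 4 →
      |AA r' w (Kak.flow v hv s * x) - AA r' w x| ≤ C * (2 * s / r') * G := by
    intro x s hs hs1 hx
    have h1 := ps_flow hv hs (by linarith) (hnr x hx)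
    refine (hAA r' hr0 (by linarith) w hcw x (Kak.flow v hv s) (h1.trans hs1) G ?_).trans ?_
    · intro y hy
      rw [hwd]
      refine hw _ ?_
      have h2 := ps_dd_step p x y
      have h3 := ps_sqrt_hq (by positivity) hy
      linarith
    · apply mul_le_mul_of_nonneg_right _ hG
      apply mul_le_mul_of_nonneg_left _ hC.le
      exact div_le_div_of_nonneg_right h1 hr0.le
  have hadd : Kak.flow v hv t * g = Kak.flow v hv (t / 2) * (Kak.flow v hv (t / 2) * g) := by
    rw [← mul_assoc, ← Kak.flow_add]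
    congr 2
    ring
  have hg1 : dd p g ≤ ρ / 4 := by linarith
  have hg2 : dd p (Kak.flow v hv (t / 2) * g) ≤ ρ / 4 := by
    have h1 := ps_dd_tri p g (Kak.flow v hv (t / 2) * g)
    have h2 := ps_dd_flow hv (t := t / 2) (by linarith) (by linarith) (hnr g hg1)
    linarith
  have b1 := hhalf g (t / 2) (by linarith) (by linarith) hg1
  have b2 := hhalf _ (t / 2) (by linarith) (by linarith) hg2
  rw [← hadd] at b2
  have b3 : |AA r' w (Kak.flow v hv t * g) - AA r' w g| ≤ 2 * (C * (2 * (t / 2) / r') * G) := by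
    have : AA r' w (Kak.flow v hv t * g) - AA r' w g =
        (AA r' w (Kak.flow v hv t * g) - AA r' w (Kak.flow v hv (t / 2) * g)) +
        (AA r' w (Kak.flow v hv (t / 2) * g) - AA r' w g) := by ring
    rw [this]
    refine (abs_add_le _ _).trans ?_
    linarith
  -- the first part
  have c1 : κ * t ≤ AA r' (AA (4 * r') u) (Kak.flow v hv t * g) - AA r' (AA (4 * r') u) g := by
    have h1 : AA r' (fun _ => κ * t) g ≤
        AA r' (fun x => AA (4 * r') u (Kak.flow v hv t * x) - AA (4 * r') u x) g := by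
      refine AA_mono hr0 hr1 continuous_const
        ((hcA.comp (continuous_const_mul _)).sub hcA) fun x hx => ?_
      have h3 := ps_sqrt_hq hr0.le hx
      have h4 := ps_dd_step p g x
      have h5 := ps_dd_step p (Kak.flow v hv t * g) x
      rw [mul_assoc] at h5
      exact hinc (g * x) t ht (by linarith) (by linarith) (by linarith)
    have hcl : Continuous fun x => AA (4 * r') u (Kak.flow v hv t * x) :=
      hcA.comp (continuous_const_mul _)
    rw [AA_const hn hr0 hr1, AA_sub hr0 hr1 hcl hcA] at h1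
    have h2 := AA_left r' (AA (4 * r') u) (Kak.flow v hv t) g
    rw [h2] at h1
    exact h1
  rw [hsplit, hsplit g]
  have d1 := (abs_le.1 b3).1
  have d2 : (κ - 512 * C * (G / ρ)) * t ≤ κ * t - 2 * (C * (2 * (t / 2) / r') * G) := by
    have h1 : 512 * C * (G / ρ) = 4 * (C * G / r') := by
      rw [e3]
      field_simp
      ring
    have h2 : 2 * (C * (2 * (t / 2) / r') * G) = 2 * (C * G / r') * t := by
      field_simp
    have h3 : 0 ≤ C * G / r' := by positivity
    have h4 : 0 ≤ C * G / r' * t := by positivity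
    rw [h1, h2]
    nlinarith
  linarith

end Pool.Agent.Lib.MP_5d4057_al.IN
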