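import Pool.Agent.Lib.MP_5d4057_al.IN.MirF
import Pool.Agent.Lib.MP_5d4057_al.IN.Pers
import Pool.Agent.Lib.MP_5d4057_al.IN.Near
import Pool.Agent.Lib.MP_5d4057_al.IN.Blk

/-! What parts C and D use of the limit map: structure `LimC`; volumes of orthogonal blocks are smooth and
harmonic; slopes. -/

namespace Pool.Agent.Lib.MP_5d4057_al.IN

open Matrix MeasureTheory Filter Topology Module Pool.Agent.Lib.MP_5d4057_al
  Pool.Agent.Lib.MP_5d4057_al.Hyb Pool.Agent.Lib.MP_5d4057_al.HM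

variable {n : ℕ} {k : Type} [NontriviallyNormedField k] [IsUltrametricDist k] [ProperSpace k]
  {V : Type} [AddCommGroup V] [Module k V] [FiniteDimensional k V]

/-- The limit map of part B, for parts C and D (invariant under left translations). -/
structure LimC (f : SUGroup n → Nm k V) : Prop where
  cont : Continuous f
  kinv : ∀ g h : SUGroup n, ch h = 1 → f (g * h) = f g
  lv : ∀ g, (f g).lv = 0
  lip : ∀ g : SUGroup n, ∃ Λ r : ℝ, 0 ≤ Λ ∧ 0 < r ∧ ∀ x y : SUGroup n, hq x ≤ r ^ 2 → hq y ≤ r ^ 2 →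
    dist (f (g * x)) (f (g * y)) ≤ Λ * dd x y
  sub_ext : ∀ (j : ℕ) (ω : ⋀[k]^j V), ω ≠ 0 → ∀ (r : ℝ) (g : SUGroup n), 0 < r → r < 1 →
    Real.log ((f g).ext j ω) ≤ AA r (fun x => Real.log ((f x).ext j ω)) g
  sub_dual : ∀ (j : ℕ) (ξ : (⋀[k]^j V) →ₗ[k] k), ξ ≠ 0 → ∀ (r : ℝ) (g : SUGroup n), 0 < r → r < 1 →
    lop ξ ((f g).ext j) (Nm.abs k) ≤ AA r (fun x => lop ξ ((f x).ext j) (Nm.abs k)) g
  sub_pair : ∀ (p : V →ₗ[k] V) (j : ℕ), exteriorPower.map j p ≠ 0 →
    ∀ (a : SUGroup n) (r : ℝ) (g : SUGroup n), 0 < r → r < 1 →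
      Dj p j (f g) (f (a * g)) ≤ AA r (fun x => Dj p j (f x) (f (a * x))) g
  mir : ∀ (p : V →ₗ[k] V) (j : ℕ), exteriorPower.map j p ≠ 0 → Mir fun g h => Dj p j (f g) (f h)

variable {f : SUGroup n → Nm k V} {p : V →ₗ[k] V}

theorem LimC.left (h : LimC f) (a : SUGroup n) : LimC fun g => f (a * g) where
  cont := h.cont.comp (continuous_const_mul a)
  kinv g b hb := by
    show f (a * (g * b)) = f (a * g)
    rw [← mul_assoc, h.kinv _ _ hb]
  lv g := h.lv _
  lip g := by
    obtain ⟨Λ, r, h1, h2, h3⟩ := h.lip (a * g)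
    refine ⟨Λ, r, h1, h2, fun x y hx hy => ?_⟩
    have h4 := h3 x y hx hy
    rwa [mul_assoc, mul_assoc] at h4
  sub_ext j ω hω r g hr hr1 := by
    have h1 := h.sub_ext j ω hω r (a * g) hr hr1
    rw [← AA_left] at h1
    exact h1
  sub_dual j ξ hξ r g hr hr1 := by
    have h1 := h.sub_dual j ξ hξ r (a * g) hr hr1
    rw [← AA_left] at h1
    exact h1
  sub_pair p j hp b r g hr hr1 := by
    have h1 := h.sub_pair p j hp (a * b * a⁻¹) r (a * g) hr hr1
    rw [← AA_left] at h1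
    have h2 : ∀ x : SUGroup n, a * b * a⁻¹ * (a * x) = a * (b * x) := fun x => by group
    simp only [h2] at h1
    exact h1
  mir p j hp := Mir.left (h.mir p j hp) a

/-- The volume of a block, of its range: `av p N = log (N^r (ω₀))` for a nonzero `ω₀ ∈ ⋀^r V` (`rs_ext`). -/
theorem av_eq (p : V →ₗ[k] V) : ∃ ω : ⋀[k]^(rk p) V, ω ≠ 0 ∧
    ∀ N : Nm k V, av p N = Real.log (N.ext (rk p) ω) := by
  refine ⟨exteriorPower.ιMulti k (rk p)
    (fun i => ((finBasis k (LinearMap.range p) i : LinearMap.range p) : V)), fun h0 => ?_,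
    fun N => ?_⟩
  · have N : Nm k V := Nm.ofBasis (finBasis k V) (fun _ => 1) fun _ => one_pos
    have hli : LinearIndependent k
        (fun i => ((finBasis k (LinearMap.range p) i : LinearMap.range p) : V)) :=
      (finBasis k (LinearMap.range p)).linearIndependent.map' (LinearMap.range p).subtype
        (Submodule.ker_subtype _)
    have h1 := N.vol_pos hli
    rw [Nm.vol] at h1
    exact h1.ne' (((N.ext (rk p)).eq_zero).2 h0)
  · unfold av Nm.lv Nm.vol
    rw [rs_ext, exteriorPower.map_apply_ιMulti]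
    rfl

theorem LimC.continuous_av (h : LimC f) (p : V →ₗ[k] V) : Continuous fun g => av p (f g) := by
  have h1 : LipschitzWith (rk p : NNReal) (av p : Nm k V → ℝ) :=
    LipschitzWith.of_dist_le_mul fun N N' => by
      rw [Real.dist_eq, NNReal.coe_natCast]
      exact abs_av_sub_le p N N'
  exact h1.continuous.comp h.cont

/-- the volume of the whole space -/
private theorem l1_av_id (V : Type) [AddCommGroup V] [Module k V] [FiniteDimensional k V] :
    ∃ C : ℝ, ∀ N : Nm k V, av LinearMap.id N = N.lv + C := by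
  obtain ⟨b, hb⟩ : ∃ b : Basis (Fin (finrank k V)) k V, ∃ C : ℝ, ∀ N : Nm k V,
      av LinearMap.id N = Real.log (N.vol b) + C := by
    have hW : LinearMap.range (LinearMap.id : V →ₗ[k] V) = ⊤ := LinearMap.range_id
    have hr : finrank k (LinearMap.range (LinearMap.id : V →ₗ[k] V)) = finrank k V := by
      rw [hW, finrank_top]
    obtain ⟨b', hb'⟩ : ∃ b' : Basis (Fin (finrank k (LinearMap.range (LinearMap.id : V →ₗ[k] V)))) k V,
        ∀ N : Nm k V, av LinearMap.id N = Real.log (N.vol b') := by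
      refine ⟨(finBasis k (LinearMap.range (LinearMap.id : V →ₗ[k] V))).map
        (LinearEquiv.ofTop _ hW), fun N => ?_⟩
      unfold av Nm.lv
      rw [Nm.vol, rs_ext, exteriorPower.map_apply_ιMulti]
      rfl
    revert b'
    rw [hr]
    intro b' hb'
    exact ⟨b', 0, fun N => by rw [hb', add_zero]⟩
  obtain ⟨C, hC⟩ := hb
  refine ⟨C - Real.log ‖(Matrix.of fun i l => b.repr (finBasis k V i) l).det‖, fun N => ?_⟩
  have h1 := N.vol_matrix b (Matrix.of fun i l => b.repr (finBasis k V i) l)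
  have h2 : (fun i => ∑ l, (Matrix.of fun i l => b.repr (finBasis k V i) l) i l • b l) =
      finBasis k V := by
    funext i
    exact b.sum_repr _
  rw [h2] at h1
  have h4 : 0 < N.vol (finBasis k V) := N.vol_pos (finBasis k V).linearIndependent
  have h5 : 0 < N.vol b := N.vol_pos b.linearIndependent
  have h6 : ‖(Matrix.of fun i l => b.repr (finBasis k V i) l).det‖ ≠ 0 := by
    intro h0
    rw [h0, zero_mul] at h1
    exact h4.ne' h1
  rw [hC, Nm.lv, h1, Real.log_mul h6 h5.ne']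
  ring

/-- **Volumes of orthogonal blocks are harmonic.** `a := av p ∘ f` and `a' := av (1 - p) ∘ f` are continuous and
`≤` their averages (`sub_ext`, `av_eq`); on an open set where `p` is orthogonal `a + a'` is constant (`av_add`,
`lv`), so both are equal to their averages over balls inside this set; `harm_of_AA`. (`p = id`: `a` is
constant.) -/
theorem LimC.av_harm (hn : 1 ≤ n) (h : LimC f) (hp : IsBlk p) {U : Set (SUGroup n)} (hU : IsOpen U)
    (horth : ∀ g ∈ U, OrthP (f g) p) : ∀ g ∈ U,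
      ContDiffAt ℝ (⊤ : ℕ∞) (fun v => av p (f (sec n v))) (act g (base n)) ∧
        Lap (fun v => av p (f (sec n v))) (act g (base n)) = 0 := by
  obtain ⟨S, hS⟩ : ∃ S : Set (SUGroup n), S = {g | ∃ b : SUGroup n, ch b = 1 ∧ g * b ∈ U} := ⟨_, rfl⟩
  have hSo : IsOpen S := by
    have h1 : S = ⋃ (b : SUGroup n) (_ : ch b = 1), (fun g => g * b) ⁻¹' U := by
      rw [hS]
      ext g
      simp
    rw [h1]
    exact isOpen_iUnion fun b => isOpen_iUnion fun _ => hU.preimage (continuous_mul_const b)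
  have hUS : ∀ g ∈ U, g ∈ S := by
    intro g hg
    rw [hS]
    exact ⟨1, ch_one, by rwa [mul_one]⟩
  have hSK : ∀ g ∈ S, ∀ b : SUGroup n, ch b = 1 → g * b ∈ S := by
    intro g hg b hb
    rw [hS] at hg ⊢
    obtain ⟨c, hc, hgc⟩ := hg
    refine ⟨b⁻¹ * c, ?_, ?_⟩
    · rw [(ch_mul_of_ch_eq_one (by rw [ch_inv, hb]) c).1, hc]
    · rwa [mul_assoc, mul_inv_cancel_left]
  have hSo' : ∀ g ∈ S, OrthP (f g) p := by
    intro g hg
    rw [hS] at hg
    obtain ⟨c, hc, hgc⟩ := hg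
    have h1 := horth _ hgc
    rwa [h.kinv g c hc] at h1
  have hRK : RK fun g => av p (f g) := by
    intro g b hb
    show av p (f (g * b)) = av p (f g)
    rw [h.kinv g b hb]
  have hsub : ∀ (p : V →ₗ[k] V) (r : ℝ) (g : SUGroup n), 0 < r → r < 1 →
      av p (f g) ≤ AA r (fun x => av p (f x)) g := by
    intro p r g hr hr1
    obtain ⟨ω, hω, hav⟩ := av_eq p
    have h1 := h.sub_ext _ ω hω r g hr hr1
    simp only [← hav] at h1
    exact h1
  obtain ⟨C₁, hC₁⟩ := l1_av_id (k := k) V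
  have hAA : ∀ g ∈ S, ∀ r : ℝ, 0 < r → r < 1 → (∀ x, hq x ≤ r ^ 2 → g * x ∈ S) →
      AA r (fun g => av p (f g)) g = av p (f g) := by
    intro g hg r hr hr1 hball
    by_cases hp0 : (LinearMap.id : V →ₗ[k] V) - p = 0
    · have hp1 : p = LinearMap.id := (sub_eq_zero.1 hp0).symm
      have h1 : ∀ x, av p (f x) = C₁ := by
        intro x
        rw [hp1, hC₁, h.lv, zero_add]
      simp only [h1]
      exact AA_const hn hr hr1 _ g
    · have hpp : ∀ v, p (p v) = p v := fun v => LinearMap.congr_fun hp.idem v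
      have hp' : IsBlk (LinearMap.id - p) := by
        refine ⟨LinearMap.ext fun v => ?_, hp0⟩
        simp only [LinearMap.comp_apply, LinearMap.sub_apply, LinearMap.id_apply, map_sub, hpp,
          sub_self, sub_zero]
      obtain ⟨C, hC⟩ := av_add hp hp' (p := LinearMap.id) (by abel)
        (by
          refine LinearMap.ext fun v => ?_
          simp only [LinearMap.comp_apply, LinearMap.sub_apply, LinearMap.id_apply, map_sub, hpp,
            sub_self, LinearMap.zero_apply])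
        (by
          refine LinearMap.ext fun v => ?_
          simp only [LinearMap.comp_apply, LinearMap.sub_apply, LinearMap.id_apply, hpp,
            sub_self, LinearMap.zero_apply])
      have hsum : ∀ x ∈ S, av p (f x) + av (LinearMap.id - p) (f x) = C₁ + C := by
        intro x hx
        have h1 := hC (f x) (hSo' x hx) fun v => (hSo' x hx).compl v
        rw [h1, hC₁, h.lv, zero_add]
      have c1 := h.continuous_av p
      have c2 := h.continuous_av (LinearMap.id - p)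
      have e1 := AA_add hr hr1 c1 c2 g
      have e2 : AA r (fun x => av p (f x) + av (LinearMap.id - p) (f x)) g ≤ C₁ + C := by
        have e3 := AA_mono hr hr1 (c1.add c2) (continuous_const (y := C₁ + C)) (g := g)
          fun x hx => (hsum _ (hball x hx)).le
        rwa [AA_const hn hr hr1] at e3
      have e4 := hsub p r g hr hr1
      have e5 := hsub (LinearMap.id - p) r g hr hr1
      have e6 := hsum g hg
      linarith
  intro g hg
  exact harm_of_AA hn (h.continuous_av p) hRK hSo hSK hAA g (hUS g hg)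

private theorem l1_norm_le (z : Fin n → ℂ) : ‖z‖ ≤ nr z := by
  rw [pi_norm_le_iff_of_nonneg (nr_nonneg z)]
  intro j
  refine Real.le_sqrt_of_sq_le ?_
  exact Finset.single_le_sum (f := fun j => ‖z j‖ ^ 2) (fun i _ => by positivity)
    (Finset.mem_univ j)

/-- the ball coordinates as an affine map into the space of vectors -/
private theorem l1_contDiff : ContDiff ℝ (⊤ : ℕ∞) fun z : Fin n → ℂ => (vec z + base n : Vec n) := by
  rw [contDiff_pi]
  intro i
  refine Fin.lastCases ?_ (fun j => ?_) i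
  · simp only [Pi.add_apply, Kak.vec_last]
    exact contDiff_const
  · simp only [Pi.add_apply, Kak.vec_castSucc]
    exact (contDiff_apply ℝ ℂ j).add contDiff_const

private theorem l1_ip (c z : Fin n → ℂ) :
    ip c z = ∑ j, ((c j).re * (z j).re + (c j).im * (z j).im) := by
  rw [ip, hp, Complex.re_sum]
  refine Finset.sum_congr rfl fun j _ => ?_
  simp [Complex.mul_re]

/-- every real linear form is an inner product -/
private theorem l1_exists_ip (L : (Fin n → ℂ) →L[ℝ] ℝ) : ∃ c : Fin n → ℂ, ∀ z, L z = ip c z := by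
  refine ⟨fun j => ⟨L (Pi.single j 1), L (Pi.single j Complex.I)⟩, fun z => ?_⟩
  rw [l1_ip]
  have h1 : z = ∑ j, ((z j).re • (Pi.single j (1 : ℂ) : Fin n → ℂ) +
      (z j).im • (Pi.single j Complex.I : Fin n → ℂ)) := by
    funext i
    rw [Finset.sum_apply]
    have h2 : ∀ j, ((z j).re • (Pi.single j (1 : ℂ) : Fin n → ℂ) +
        (z j).im • (Pi.single j Complex.I : Fin n → ℂ)) i = if i = j then z j else 0 := by
      intro j
      by_cases hij : i = j
      · subst hij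
        rw [if_pos rfl, Pi.add_apply, Pi.smul_apply, Pi.smul_apply, Pi.single_eq_same,
          Pi.single_eq_same, Complex.real_smul, Complex.real_smul, mul_one, Complex.re_add_im]
      · rw [if_neg hij, Pi.add_apply, Pi.smul_apply, Pi.smul_apply, Pi.single_eq_of_ne hij,
          Pi.single_eq_of_ne hij, smul_zero, smul_zero, add_zero]
    simp only [h2, Finset.sum_ite_eq, Finset.mem_univ, if_true]
  conv_lhs => rw [h1]
  rw [map_sum]
  refine Finset.sum_congr rfl fun j _ => ?_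
  rw [map_add, map_smul, map_smul, smul_eq_mul, smul_eq_mul]
  ring

/-- The linear part of `av p` at the base point, in the ball coordinate: `z ↦ av p (f (pt z))` is
`z ↦ A (vec z + base)` with `A v = av p (f (sec n v))` of class `C¹` near `base`, so it is strictly
differentiable at `0`; every real linear form on `ℂ^n` is `ip c`. -/
theorem LimC.exists_lin (hn : 1 ≤ n) (h : LimC f) (hp : IsBlk p) {r₀ : ℝ} (hr₀ : 0 < r₀)
    (horth : ∀ g, nr (zc g) < r₀ → OrthP (f g) p) : ∃ c : Fin n → ℂ, ∀ ε : ℝ, 0 < ε →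
      ∃ r : ℝ, 0 < r ∧ ∀ z w : Fin n → ℂ, nr z ≤ r → nr w ≤ r →
        |av p (f (pt w)) - av p (f (pt z)) - ip c (w - z)| ≤ ε * nr (w - z) := by
  have hU : IsOpen {g : SUGroup n | nr (zc g) < r₀} :=
    isOpen_lt (continuous_nr.comp (continuous_pi fun j => continuous_zc j)) continuous_const
  have hz1 : zc (1 : SUGroup n) = 0 := by
    rw [← pt_zero, zc_pt (by rw [nr_zero]; exact one_pos)]
  have h1U : (1 : SUGroup n) ∈ {g : SUGroup n | nr (zc g) < r₀} := by
    show nr (zc (1 : SUGroup n)) < r₀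
    rw [hz1, nr_zero]
    exact hr₀
  have hA := (h.av_harm hn hp hU horth 1 h1U).1
  rw [act_one] at hA
  have hv0 : vec (0 : Fin n → ℂ) + base n = base n := by
    funext i
    refine Fin.lastCases ?_ (fun j => ?_) i
    · rw [Pi.add_apply, Kak.vec_last, zero_add]
    · rw [Pi.add_apply, Kak.vec_castSucc, Pi.zero_apply, zero_add]
  have hB : ContDiffAt ℝ (⊤ : ℕ∞) (fun z : Fin n → ℂ => av p (f (sec n (vec z + base n)))) 0 := by
    have h1 : ContDiffAt ℝ (⊤ : ℕ∞) (fun v => av p (f (sec n v)))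
        ((fun z : Fin n → ℂ => (vec z + base n : Vec n)) 0) := by
      show ContDiffAt ℝ (⊤ : ℕ∞) (fun v => av p (f (sec n v))) (vec (0 : Fin n → ℂ) + base n)
      rw [hv0]
      exact hA
    exact ContDiffAt.comp (g := fun v : Vec n => av p (f (sec n v)))
      (f := fun z : Fin n → ℂ => (vec z + base n : Vec n)) 0 h1 l1_contDiff.contDiffAt
  have hst := hB.hasStrictFDerivAt (by simp)
  obtain ⟨c, hc⟩ := l1_exists_ip (fderiv ℝ (fun z : Fin n → ℂ => av p (f (sec n (vec z + base n)))) 0)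
  have hval : ∀ z : Fin n → ℂ, nr z < 1 → f (sec n (vec z + base n)) = f (pt z) := by
    intro z hz
    obtain ⟨d, hd, hv⟩ := sec_spec (vec_add_mem hz)
    have h1 : act (sec n (vec z + base n)) (base n) = d⁻¹ • vec z + d⁻¹ • base n := by
      rw [← smul_add]
      conv_rhs => rw [hv]
      rw [smul_smul, inv_mul_cancel₀ hd, one_smul]
    have h2 := zc_of_act (inv_ne_zero hd) h1
    rw [div_self (inv_ne_zero hd), one_smul] at h2
    obtain ⟨b, hb, h3⟩ := exists_K (g := sec n (vec z + base n)) (h := pt z) (by rw [h2, zc_pt hz])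
    rw [h3, h.kinv _ _ hb]
  refine ⟨c, fun ε hε => ?_⟩
  have h1 := hst.isLittleO.def hε
  obtain ⟨δ, hδ, h2⟩ := Metric.eventually_nhds_iff.1 h1
  refine ⟨min (δ / 2) (1 / 2), lt_min (by linarith) (by norm_num), fun z w hz hw => ?_⟩
  have hz1 : nr z ≤ δ / 2 := hz.trans (min_le_left _ _)
  have hz2 : nr z ≤ 1 / 2 := hz.trans (min_le_right _ _)
  have hw1 : nr w ≤ δ / 2 := hw.trans (min_le_left _ _)
  have hw2 : nr w ≤ 1 / 2 := hw.trans (min_le_right _ _)
  have h3 := h2 (y := (w, z)) (by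
    rw [Prod.dist_eq, max_lt_iff]
    constructor
    · rw [dist_zero_right]
      exact lt_of_le_of_lt ((l1_norm_le w).trans hw1) (by linarith)
    · rw [dist_zero_right]
      exact lt_of_le_of_lt ((l1_norm_le z).trans hz1) (by linarith))
  simp only [hc] at h3
  rw [hval z (by linarith), hval w (by linarith), Real.norm_eq_abs] at h3
  exact h3.trans (mul_le_mul_of_nonneg_left (l1_norm_le _) hε.le)

/-- Zero slope of a block at `g₀`. -/
def ZeroSlope (f : SUGroup n → Nm k V) (p : V →ₗ[k] V) (g₀ : SUGroup n) : Prop :=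
  ∀ ε : ℝ, 0 < ε → ∃ r : ℝ, 0 < r ∧ ∀ x y : SUGroup n, hq x ≤ r ^ 2 → hq y ≤ r ^ 2 →
    ∀ j : ℕ, j ≤ rk p → DD j (rs p (f (g₀ * x))) (rs p (f (g₀ * y))) -
      (j : ℝ) / rk p * (av p (f (g₀ * y)) - av p (f (g₀ * x))) ≤ ε * dd x y

/-- The slopes of a block at the base point. -/
structure Slopes (f : SUGroup n → Nm k V) (p : V →ₗ[k] V) (c : Fin n → ℂ) (L : ℕ → ℝ) : Prop where
  lin : ∀ ε : ℝ, 0 < ε → ∃ r : ℝ, 0 < r ∧ ∀ z w : Fin n → ℂ, nr z ≤ r → nr w ≤ r →
    |av p (f (pt w)) - av p (f (pt z)) - ip c (w - z)| ≤ ε * nr (w - z)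
  sl : ∀ j : ℕ, j ≤ rk p →
    Slope (fun i => (((j : ℝ) / rk p : ℝ) : ℂ) * c i) (fun g h => Dj p j (f g) (f h)) (L j)
  zero : L 0 = 0
  top : L (rk p) = 0
  nonneg : ∀ j : ℕ, j ≤ rk p → 0 ≤ L j

private theorem lx_ip (s : ℝ) (c v : Fin n → ℂ) : ip (fun i => ((s : ℝ) : ℂ) * c i) v = s * ip c v := by
  rw [ip_comm, ip_comm c v]
  exact ip_smul v s c

private theorem lx_min {m : ℕ} {Q : ℕ → ℝ → Prop}
    (h : ∀ j ≤ m, ∃ r : ℝ, 0 < r ∧ ∀ r', 0 < r' → r' ≤ r → Q j r') :
    ∃ r : ℝ, 0 < r ∧ ∀ r', 0 < r' → r' ≤ r → ∀ j ≤ m, Q j r' := by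
  induction m with
  | zero =>
    obtain ⟨r, hr, h1⟩ := h 0 le_rfl
    refine ⟨r, hr, fun r' h2 h3 j hj => ?_⟩
    rw [Nat.le_zero.1 hj]
    exact h1 r' h2 h3
  | succ m ih =>
    obtain ⟨r, hr, h1⟩ := ih fun j hj => h j (by omega)
    obtain ⟨r2, hr2, h2⟩ := h (m + 1) le_rfl
    refine ⟨min r r2, lt_min hr hr2, fun r' h3 h4 j hj => ?_⟩
    rcases Nat.lt_or_ge j (m + 1) with h5 | h5
    · exact h1 r' h3 (h4.trans (min_le_left _ _)) j (by omega)
    · have h6 : j = m + 1 := by omega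
      rw [h6]
      exact h2 r' h3 (h4.trans (min_le_right _ _))

private theorem lx_orth {r₀ : ℝ} (horth : ∀ g, nr (zc g) < r₀ → OrthP (f g) p) {z : Fin n → ℂ}
    (h1 : nr z < 1) (h2 : nr z < r₀) : OrthP (f (pt z)) p :=
  horth _ (by rwa [zc_pt h1])

/-- every slope is nonnegative -/
private theorem lx_nonneg (hn : 1 ≤ n) (hp : IsBlk p) {r₀ : ℝ} (hr₀ : 0 < r₀)
    (horth : ∀ g, nr (zc g) < r₀ → OrthP (f g) p) {c : Fin n → ℂ} {j : ℕ} (hj : j ≤ rk p) {L : ℝ}
    (hL : SB c (fun g h => Dj p j (f g) (f h)) L) : 0 ≤ L := by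
  by_contra hneg
  push Not at hneg
  obtain ⟨r, hr, h1⟩ := hL (-L / 2) (by linarith)
  obtain ⟨t, ht⟩ : ∃ t : ℝ, t = min r (min (1 / 2) (r₀ / 2)) := ⟨_, rfl⟩
  have ht0 : 0 < t := by
    rw [ht]
    exact lt_min hr (lt_min (by norm_num) (by linarith))
  have ht1 : t ≤ r := by rw [ht]; exact min_le_left _ _
  have ht2 : t ≤ 1 / 2 := by rw [ht]; exact (min_le_right _ _).trans (min_le_left _ _)
  have ht3 : t ≤ r₀ / 2 := by rw [ht]; exact (min_le_right _ _).trans (min_le_right _ _)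
  obtain ⟨w, hw⟩ : ∃ w : Fin n → ℂ, nr w = t := by
    refine ⟨(t : ℂ) • (Pi.single (⟨0, hn⟩ : Fin n) (1 : ℂ)), ?_⟩
    rw [nr_smul, Complex.norm_real, Real.norm_of_nonneg ht0.le]
    have h2 : nr (Pi.single (⟨0, hn⟩ : Fin n) (1 : ℂ)) ^ 2 = 1 := by
      rw [nr_sq, Finset.sum_eq_single (⟨0, hn⟩ : Fin n)]
      · simp
      · intro b _ hb
        rw [Pi.single_eq_of_ne hb]
        simp
      · intro hb
        exact absurd (Finset.mem_univ _) hb
    have h3 : nr (Pi.single (⟨0, hn⟩ : Fin n) (1 : ℂ)) = 1 := by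
      have h4 := nr_nonneg (Pi.single (⟨0, hn⟩ : Fin n) (1 : ℂ))
      nlinarith
    rw [h3, mul_one]
  have hz : nr (0 : Fin n → ℂ) = 0 := nr_zero
  have a1 := h1 0 w (by rw [hz]; exact hr.le) (by rw [hw]; exact ht1)
  have a2 := h1 w 0 (by rw [hw]; exact ht1) (by rw [hz]; exact hr.le)
  have o0 : OrthP (f (pt 0)) p := lx_orth horth (by rw [hz]; norm_num) (by rw [hz]; exact hr₀)
  have ow : OrthP (f (pt w)) p := lx_orth horth (by rw [hw]; linarith) (by rw [hw]; linarith)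
  simp only at a1 a2
  rw [Dj_eq_DD hp o0 hj, sub_zero] at a1
  rw [Dj_eq_DD hp ow hj, zero_sub, nr_neg] at a2
  have e1 : ip c (-w) = -ip c w := by
    have h2 := ip_sub c 0 w
    have h3 : ip c 0 = 0 := by
      have := ip_sub c w w
      rwa [sub_self, sub_self] at this
    rw [zero_sub, h3, zero_sub] at h2
    exact h2
  rw [e1, hw] at a2
  rw [hw] at a1
  have h2 := DD_triangle j (rs p (f (pt 0))) (rs p (f (pt w))) (rs p (f (pt 0)))
  rw [DD_self] at h2
  have h3 : (L + -L / 2) * t < 0 := mul_neg_of_neg_of_pos (by linarith) ht0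
  linarith

/-- Existence: `|Dj p j (f g) (f h)| ≤ j Λ' |z - w|` near `0` (`LimC.lip`, `Dj_eq_DD`), `L j` is the infimum of
all `L'` with `SB`; `DD 0 = 0`, `DD (rk p) = ` difference of `av p` (`DD_top`);
`D_j(z,w) + D_j(w,z) ≥ 0` (`DD_triangle`, `DD_self`) gives `L j ≥ 0` (if `L j < 0` then both are negative for
`z ≠ w`; `1 ≤ n` is used for the existence of `z ≠ w`). -/
theorem LimC.exists_slopes (hn : 1 ≤ n) (h : LimC f) (hp : IsBlk p) {r₀ : ℝ} (hr₀ : 0 < r₀)
    (horth : ∀ g, nr (zc g) < r₀ → OrthP (f g) p) : ∃ (c : Fin n → ℂ) (L : ℕ → ℝ), Slopes f p c L := by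
  obtain ⟨c, hlin⟩ := h.exists_lin hn hp hr₀ horth
  obtain ⟨cj, hcj⟩ : ∃ cj : ℕ → Fin n → ℂ, cj = fun (j : ℕ) i => (((j : ℝ) / rk p : ℝ) : ℂ) * c i :=
    ⟨_, rfl⟩
  obtain ⟨St, hSt⟩ : ∃ St : ℕ → Set ℝ, St = fun j =>
    {L' : ℝ | SB (cj j) (fun g h => Dj p j (f g) (f h)) L'} := ⟨_, rfl⟩
  have hmem : ∀ j L', L' ∈ St j ↔ SB (cj j) (fun g h => Dj p j (f g) (f h)) L' := by
    intro j L'
    rw [hSt]
    rfl
  have hbd : ∀ j, j ≤ rk p → ∀ L' ∈ St j, 0 ≤ L' := by
    intro j hj L' hL'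
    exact lx_nonneg hn hp hr₀ horth hj ((hmem j L').1 hL')
  have hrk : (0 : ℝ) < rk p := by exact_mod_cast hp.rk_pos
  have hne : ∀ j, j ≤ rk p → (St j).Nonempty := by
    intro j hj
    obtain ⟨Λ, r, hΛ, hr, hlip⟩ := h.lip 1
    refine ⟨j * (Λ * 2) + nr (cj j), (hmem _ _).2 fun ε hε => ?_⟩
    refine ⟨min r (min (1 / 4) (r₀ / 2)), lt_min hr (lt_min (by norm_num) (by linarith)),
      fun z w hz hw => ?_⟩
    have hz1 : nr z ≤ r := hz.trans (min_le_left _ _)
    have hz2 : nr z ≤ 1 / 4 := hz.trans ((min_le_right _ _).trans (min_le_left _ _))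
    have hz3 : nr z ≤ r₀ / 2 := hz.trans ((min_le_right _ _).trans (min_le_right _ _))
    have hw1 : nr w ≤ r := hw.trans (min_le_left _ _)
    have hw2 : nr w ≤ 1 / 4 := hw.trans ((min_le_right _ _).trans (min_le_left _ _))
    have oz : OrthP (f (pt z)) p := lx_orth horth (by linarith) (by linarith)
    have h1 := Dj_lip (map_ne_zero hp hj) (f (pt z)) (f (pt z)) (f (pt w)) (f (pt z))
    rw [Dj_eq_DD hp oz (N' := f (pt z)) hj, DD_self, sub_zero, dist_self, zero_add] at h1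
    have h2 := hlip (pt w) (pt z)
      (by rw [hq_pt (by linarith)]; exact pow_le_pow_left₀ (nr_nonneg _) hw1 2)
      (by rw [hq_pt (by linarith)]; exact pow_le_pow_left₀ (nr_nonneg _) hz1 2)
    rw [one_mul, one_mul] at h2
    have h3 : dd (pt w) (pt z) ≤ 2 * nr (w - z) := by
      have h4 := sqrt_hq_le (g := pt w) (h := pt z) (by rw [zc_pt (by linarith)]; exact hw2)
        (by rw [zc_pt (by linarith)]; exact hz2)
      rwa [zc_pt (by linarith), zc_pt (by linarith)] at h4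
    have h4 := (abs_le.1 (abs_ip_le (cj j) (w - z))).1
    have h5 := (abs_le.1 h1).2
    have h6 : (j : ℝ) * dist (f (pt w)) (f (pt z)) ≤ j * (Λ * (2 * nr (w - z))) := by
      refine mul_le_mul_of_nonneg_left (h2.trans ?_) (Nat.cast_nonneg j)
      exact mul_le_mul_of_nonneg_left h3 hΛ
    have h7 : 0 ≤ ε * nr (w - z) := mul_nonneg hε.le (nr_nonneg _)
    have e1 : ((j : ℝ) * (Λ * 2) + nr (cj j) + ε) * nr (w - z) =
        j * (Λ * (2 * nr (w - z))) + nr (cj j) * nr (w - z) + ε * nr (w - z) := by ring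
    rw [e1]
    linarith
  have hbb : ∀ j, j ≤ rk p → BddBelow (St j) := fun j hj => ⟨0, fun L' hL' => hbd j hj L' hL'⟩
  have hnn : ∀ j, j ≤ rk p → 0 ≤ sInf (St j) := fun j hj => le_csInf (hne j hj) (hbd j hj)
  have hle0 : ∀ j, j ≤ rk p → SB (cj j) (fun g h => Dj p j (f g) (f h)) 0 → sInf (St j) = 0 :=
    fun j hj hs => le_antisymm (csInf_le (hbb j hj) ((hmem j 0).2 hs)) (hnn j hj)
  refine ⟨c, fun j => sInf (St j), hlin, fun j hj => ⟨fun ε hε => ?_, fun L' hL' hs => ?_⟩, ?_, ?_,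
    hnn⟩
  · obtain ⟨L', hL', hlt⟩ := exists_lt_of_csInf_lt (hne j hj)
      (show sInf (St j) < sInf (St j) + ε / 2 by linarith)
    obtain ⟨r, hr, h1⟩ := (hmem j L').1 hL' (ε / 2) (by linarith)
    refine ⟨r, hr, fun z w hz hw => ?_⟩
    have h2 := h1 z w hz hw
    rw [hcj] at h2
    refine h2.trans (mul_le_mul_of_nonneg_right ?_ (nr_nonneg _))
    linarith
  · have h1 : L' ∈ St j := by
      rw [hmem, hcj]
      exact hs
    have h2 := csInf_le (hbb j hj) h1
    linarith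
  · refine hle0 0 (Nat.zero_le _) fun ε hε => ?_
    refine ⟨min (1 / 4) (r₀ / 2), lt_min (by norm_num) (by linarith), fun z w hz hw => ?_⟩
    have hz2 : nr z ≤ 1 / 4 := hz.trans (min_le_left _ _)
    have hz3 : nr z ≤ r₀ / 2 := hz.trans (min_le_right _ _)
    have oz : OrthP (f (pt z)) p := lx_orth horth (by linarith) (by linarith)
    simp only
    rw [Dj_eq_DD hp oz (Nat.zero_le _), DD_zero, hcj]
    simp only
    rw [lx_ip]
    simp only [Nat.cast_zero, zero_div, zero_mul, sub_zero, zero_add]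
    exact mul_nonneg hε.le (nr_nonneg _)
  · refine hle0 (rk p) le_rfl fun ε hε => ?_
    obtain ⟨r, hr, h1⟩ := hlin ε hε
    refine ⟨min r (min (1 / 4) (r₀ / 2)), lt_min hr (lt_min (by norm_num) (by linarith)),
      fun z w hz hw => ?_⟩
    have hz1 : nr z ≤ r := hz.trans (min_le_left _ _)
    have hz2 : nr z ≤ 1 / 4 := hz.trans ((min_le_right _ _).trans (min_le_left _ _))
    have hz3 : nr z ≤ r₀ / 2 := hz.trans ((min_le_right _ _).trans (min_le_right _ _))
    have hw1 : nr w ≤ r := hw.trans (min_le_left _ _)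
    have oz : OrthP (f (pt z)) p := lx_orth horth (by linarith) (by linarith)
    have h2 := (abs_le.1 (h1 z w hz1 hw1)).2
    have h3 : DD (rk p) (rs p (f (pt z))) (rs p (f (pt w))) =
        av p (f (pt w)) - av p (f (pt z)) := DD_top _ _
    simp only
    rw [Dj_eq_DD hp oz le_rfl, h3, hcj]
    simp only
    rw [lx_ip, div_self hrk.ne', one_mul, zero_add]
    exact h2

/-- If all slopes vanish then the block has zero slope at the base point (`lin` compares `ip c` with the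
increments of `av p`; `nr_zc_sub_le`). -/
theorem Slopes.zeroSlope (hn : 1 ≤ n) (h : LimC f) (hp : IsBlk p) {r₀ : ℝ} (hr₀ : 0 < r₀)
    (horth : ∀ g, nr (zc g) < r₀ → OrthP (f g) p) {c : Fin n → ℂ} {L : ℕ → ℝ} (hS : Slopes f p c L)
    (h0 : ∀ j : ℕ, j ≤ rk p → L j ≤ 0) : ZeroSlope f p 1 := by
  have _ := hn
  intro ε hε
  obtain ⟨r1, hr1, hl⟩ := hS.lin (ε / 4) (by linarith)
  obtain ⟨r2, hr2, hs⟩ := lx_min (m := rk p) (Q := fun j r' => ∀ z w : Fin n → ℂ, nr z ≤ r' →
    nr w ≤ r' → Dj p j (f (pt z)) (f (pt w)) - ip (fun i => (((j : ℝ) / rk p : ℝ) : ℂ) * c i) (w - z) ≤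
      (L j + ε / 4) * nr (w - z)) (by
    intro j hj
    obtain ⟨r, hr, h1⟩ := (hS.sl j hj).1 (ε / 4) (by linarith)
    exact ⟨r, hr, fun r' _ h3 z w hz hw => h1 z w (hz.trans h3) (hw.trans h3)⟩)
  obtain ⟨r, hr⟩ : ∃ r : ℝ, r = min (min r1 r2) (min (1 / 4) (r₀ / 2)) := ⟨_, rfl⟩
  have hr0 : 0 < r := by
    rw [hr]
    exact lt_min (lt_min hr1 hr2) (lt_min (by norm_num) (by linarith))
  have b1 : r ≤ r1 := by rw [hr]; exact (min_le_left _ _).trans (min_le_left _ _)
  have b2 : r ≤ r2 := by rw [hr]; exact (min_le_left _ _).trans (min_le_right _ _)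
  have b3 : r ≤ 1 / 4 := by rw [hr]; exact (min_le_right _ _).trans (min_le_left _ _)
  have b4 : r ≤ r₀ / 2 := by rw [hr]; exact (min_le_right _ _).trans (min_le_right _ _)
  refine ⟨r, hr0, fun x y hx hy j hj => ?_⟩
  rw [one_mul, one_mul]
  have key : ∀ x : SUGroup n, hq x ≤ r ^ 2 → nr (zc x) ≤ r ∧ f x = f (pt (zc x)) := by
    intro x hx
    constructor
    · rw [← nr_zc_sq] at hx
      exact (pow_le_pow_iff_left₀ (nr_nonneg _) hr0.le two_ne_zero).1 hx
    · obtain ⟨k, hk, hk2⟩ := exists_K (zc_pt (nr_zc_lt x))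
      rw [← h.kinv (pt (zc x)) k hk, ← hk2]
  obtain ⟨hx1, hx2⟩ := key x hx
  obtain ⟨hy1, hy2⟩ := key y hy
  have ox : OrthP (f (pt (zc x))) p := lx_orth horth (by linarith) (by linarith)
  have h1 := hs r hr0 b2 j hj (zc x) (zc y) hx1 hy1
  rw [Dj_eq_DD hp ox hj, lx_ip] at h1
  have h2 := (abs_le.1 (hl (zc x) (zc y) (hx1.trans b1) (hy1.trans b1))).1
  have h3 := nr_zc_sub_le (g := y) (h := x) (hy1.trans b3) (hx1.trans b3)
  have h4 : Real.sqrt (hq (y⁻¹ * x)) = dd x y := by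
    rw [dd_comm]
    rfl
  rw [h4] at h3
  rw [hx2, hy2]
  have hrk : (0 : ℝ) < rk p := by exact_mod_cast hp.rk_pos
  have h5 : (0 : ℝ) ≤ (j : ℝ) / rk p := by positivity
  have h6 : (j : ℝ) / rk p ≤ 1 := by
    rw [div_le_one hrk]
    exact_mod_cast hj
  have h7 := h0 j hj
  have hN := nr_nonneg (zc y - zc x)
  have h8 : (L j + ε / 4) * nr (zc y - zc x) ≤ ε / 4 * nr (zc y - zc x) :=
    mul_le_mul_of_nonneg_right (by linarith) hN
  have h9 : (j : ℝ) / rk p * (ip c (zc y - zc x) - ε / 4 * nr (zc y - zc x)) ≤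
      (j : ℝ) / rk p * (av p (f (pt (zc y))) - av p (f (pt (zc x)))) :=
    mul_le_mul_of_nonneg_left (by linarith) h5
  have h10 : (j : ℝ) / rk p * (ε / 4 * nr (zc y - zc x)) ≤ 1 * (ε / 4 * nr (zc y - zc x)) :=
    mul_le_mul_of_nonneg_right h6 (by positivity)
  have h11 : ε / 4 * nr (zc y - zc x) ≤ ε / 4 * (2 * dd x y) :=
    mul_le_mul_of_nonneg_left h3 (by linarith)
  rw [mul_sub] at h9
  linarith

/-- Choice of the index: otherwise `L` is convex with `L 0 = L r = 0`. -/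
theorem exists_gap {L : ℕ → ℝ} {r : ℕ} (h0 : L 0 = 0) (hr : L r = 0) (hnn : ∀ j, j ≤ r → 0 ≤ L j)
    {i : ℕ} (hi : i ≤ r) (hLi : 0 < L i) :
    ∃ j : ℕ, j + 2 ≤ r ∧ L j + L (j + 2) < 2 * L (j + 1) ∧ 0 < L (j + 1) := by
  classical
  obtain ⟨m, hm, hmax⟩ := Finset.exists_max_image (Finset.range (r + 1)) L ⟨0, by simp⟩
  have hm' : m ≤ r := by
    have := Finset.mem_range.1 hm
    omega
  have hmax' : ∀ j, j ≤ r → L j ≤ L m := fun j hj => hmax j (Finset.mem_range.2 (by omega))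
  have hpos : 0 < L m := lt_of_lt_of_le hLi (hmax' i hi)
  have hex : ∃ j, j ≤ r ∧ L j = L m := ⟨m, hm', rfl⟩
  obtain ⟨hj1, hj2⟩ := Nat.find_spec hex
  have hmin := fun j (hj : j < Nat.find hex) => Nat.find_min hex hj
  generalize Nat.find hex = j₀ at hj1 hj2 hmin
  obtain ⟨j, rfl⟩ : ∃ j, j₀ = j + 1 := by
    refine ⟨j₀ - 1, ?_⟩
    have : j₀ ≠ 0 := by
      rintro rfl
      rw [h0] at hj2
      linarith
    omega
  have hne : j + 1 ≠ r := by
    intro h1
    rw [h1, hr] at hj2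
    linarith
  have h2 := hmax' (j + 2) (by omega)
  have h3 : L j < L m := lt_of_le_of_ne (hmax' j (by omega)) fun h4 =>
    hmin j (by omega) ⟨by omega, h4⟩
  have _ := hnn
  refine ⟨j, by omega, ?_, ?_⟩
  · rw [hj2]
    linarith
  · rw [hj2]
    exact hpos

end Pool.Agent.Lib.MP_5d4057_al.IN
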