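import Pool.Agent.Lib.MP_5d4057_al.IN.LipF
import Pool.Agent.Lib.MP_5d4057_al.IN.AppY

/-! Part B of INT for all lattices (base map `F`, structure `Cor`): existence of the limit map (B11). -/

namespace Pool.Agent.Lib.MP_5d4057_al.IN

open MeasureTheory Filter Topology Pool.Agent.Lib.MP_5d4057_al
open Pool.Agent.Lib.MP_5d4057_al.Hyb Pool.Agent.Lib.MP_5d4057_al.HM
open Pool.Agent.Lib.MP_5d4057_al.NU

open scoped ENNReal Matrix.Norms.L2Operator

variable {n : ℕ} {Γ : Subgroup (SUGroup n)} {χ : SUGroup n → ℝ} {Y : Type} [MetricSpace Y]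
variable {Φ : Y → Y → ℝ} {κ : ℝ} {lv : Y → ℝ} {y₀ : Y} {ρ : Γ →* Equiv.Perm Y}
variable {F : SUGroup n → Y} {L : ℝ} {S : Set (SUGroup n)} {s₀ : ℕ} {B : ℝ}

/-- The limit map. -/
structure LimF (ρ : Γ →* Equiv.Perm Y) (Φ : Y → Y → ℝ) (lv : Y → ℝ) (y₀ : Y)
    (χ : SUGroup n → ℝ) (F : SUGroup n → Y) (f : SUGroup n → Y) : Prop where
  eqv : Eqv ρ f
  lv : ∀ g, lv (f g) = 0
  /-- bounded distance to the base map -/
  near : ∃ C : ℝ, ∀ g, dist (f g) (F g) ≤ C
  /-- left Lipschitz estimate (implies that `f` is locally Lipschitz) -/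
  loc : ∃ (N : ℕ) (C : ℝ), 0 < C ∧ ∀ a g : SUGroup n, ‖a.toMatrix - 1‖ ≤ 1 →
    dist (f g) (f (a * g)) ≤ C * ‖a.toMatrix - 1‖ * ch g ^ (2 * N)
  /-- displacement -/
  dsp : ∃ C : ℝ, 0 < C ∧ ∀ x : SUGroup n,
    LI χ (fun g => ENNReal.ofReal (dist (f g) (f (g * x)) ^ 2)) ≤
      ENNReal.ofReal (C * Real.log (wt x) ^ 2)
  app : ∃ (C : ℝ) (s : ℕ → ℕ) (a b : ℕ → SUGroup n → Y), App Φ y₀ f C s a b

private theorem lf_norm_cont : Continuous fun a : SUGroup n => ‖a.toMatrix - 1‖ :=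
  ((continuous_toMatrix n).sub continuous_const).norm

/-- **Existence of the limit map** (B11). PROOF: pairs `(f s, f' s)`, `s → ∞` (`exists_pairF`);
pointwise bounded (`PairF.growth`), asymptotically equicontinuous (`PairF.lip`: `h = a g`,
`a = h g⁻¹`); `exists_seq`; `PairF.close` gives the same limit for `f'`; `dsp` from `PairF.disp`,
`LI_sq` and Fatou. -/
theorem exists_limF [ProperSpace Y] (hn : 1 ≤ n) (D : Dat ρ Φ κ lv y₀)
    (hF : BaseF ρ lv χ F L S s₀ B) : ∃ f : SUGroup n → Y, LimF ρ Φ lv y₀ χ F f := by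
  have hχ := hF.lat
  obtain ⟨s₁', c, hc, hP⟩ := exists_pairF hn D hF
  obtain ⟨s₁, C₁, -, hB⟩ := PairF.growth hn D hF hc
  obtain ⟨s₂, N, C₂, hC₂, hLip⟩ := PairF.lip hn D hF hc
  obtain ⟨s₃, C₃, hC₃, hcl⟩ := PairF.close hn D hF hc
  obtain ⟨s₄, C₄, -, hbd⟩ := PairF.bound hn D hF hc
  obtain ⟨C₅, hC₅, hdp⟩ := PairF.disp hn D hF hc
  set S : ℕ := s₁' + s₁ + s₂ + s₃ + s₄ + 2 * n + 3 with hS
  choose a b hab using fun j : ℕ => hP (S + j) (by omega)
  have hg : ∀ j, Lg C₁ y₀ (a j) ∧ Lg C₁ y₀ (b j) := fun j => hB (S + j) (by omega) _ _ (hab j)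
  have hlip : ∀ j (x g : SUGroup n), ‖x.toMatrix - 1‖ ≤ 1 → dist (a j g) (a j (x * g)) ≤
      C₂ * (‖x.toMatrix - 1‖ + 1 / Real.sqrt ((S + j : ℕ) : ℝ)) * ch g ^ (2 * N) := by
    intro j x g hx
    have h1 := hLip (S + j) (by omega) _ _ (hab j) x g hx
    have h2 : 0 ≤ dist (b j g) (b j (x * g)) := dist_nonneg
    linarith
  have hclose : ∀ j g, dist (a j g) (b j g) ≤ C₃ / Real.sqrt ((S + j : ℕ) : ℝ) := fun j g =>
    hcl (S + j) (by omega) _ _ (hab j) g
  have htop : Tendsto (fun j : ℕ => Real.sqrt ((S + j : ℕ) : ℝ)) atTop atTop := by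
    refine Real.tendsto_sqrt_atTop.comp (tendsto_natCast_atTop_atTop.comp ?_)
    exact tendsto_add_atTop_iff_nat (f := fun j : ℕ => j) S |>.2 tendsto_id |>.congr
      fun j => by omega
  have hinv : Tendsto (fun j : ℕ => 1 / Real.sqrt ((S + j : ℕ) : ℝ)) atTop (𝓝 0) := by
    simp only [one_div]
    exact htop.inv_tendsto_atTop
  obtain ⟨φ, f, hφ, hFc, hloc⟩ := exists_seq a y₀
    (fun x => ⟨C₁ * (1 + Real.log (wt x)), fun k => (hg k).1 x⟩)
    (fun x ε hε => by
      have hch : 0 < ch x ^ (2 * N) := pow_pos (zero_lt_one.trans_le (one_le_ch x)) _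
      set δ : ℝ := min 1 (ε / (2 * (C₂ * ch x ^ (2 * N)))) with hδ
      have hδ0 : 0 < δ := lt_min one_pos (by positivity)
      have hcont : Continuous fun y : SUGroup n => ‖(y * x⁻¹).toMatrix - 1‖ :=
        lf_norm_cont.comp (continuous_id.mul continuous_const)
      refine ⟨{y | ‖(y * x⁻¹).toMatrix - 1‖ < δ}, ?_, ?_⟩
      · refine (isOpen_lt hcont continuous_const).mem_nhds ?_
        change ‖(x * x⁻¹).toMatrix - 1‖ < δ
        rw [mul_inv_cancel, toMatrix_one, sub_self, norm_zero]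
        exact hδ0
      · have h1 : ∀ᶠ k : ℕ in atTop, 1 / Real.sqrt ((S + k : ℕ) : ℝ) <
            ε / (2 * (C₂ * ch x ^ (2 * N))) := hinv.eventually_lt_const (by positivity)
        obtain ⟨k₀, hk₀⟩ := eventually_atTop.1 h1
        refine ⟨k₀, fun k hk y hy => ?_⟩
        have h2 := hlip k (y * x⁻¹) x (hy.le.trans (min_le_left _ _))
        rw [inv_mul_cancel_right] at h2
        refine h2.trans ?_
        have h3 : ‖(y * x⁻¹).toMatrix - 1‖ ≤ ε / (2 * (C₂ * ch x ^ (2 * N))) :=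
          hy.le.trans (min_le_right _ _)
        have h4 := hk₀ k hk
        have h5 : C₂ * (‖(y * x⁻¹).toMatrix - 1‖ + 1 / Real.sqrt ((S + k : ℕ) : ℝ)) *
            ch x ^ (2 * N) ≤ C₂ * (ε / (2 * (C₂ * ch x ^ (2 * N))) +
              ε / (2 * (C₂ * ch x ^ (2 * N)))) * ch x ^ (2 * N) := by
          gcongr
        refine h5.trans (le_of_eq ?_)
        field_simp
        ring)
  have hpt : ∀ g, Tendsto (fun j => a (φ j) g) atTop (𝓝 (f g)) := fun g =>
    (tendstoLocallyUniformlyOn_univ.2 hloc).tendsto_at (Set.mem_univ g)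
  have hφt : Tendsto φ atTop atTop := hφ.tendsto_atTop
  have hlocb : TendstoLocallyUniformly (fun j => b (φ j)) f atTop := by
    rw [Metric.tendstoLocallyUniformly_iff] at hloc ⊢
    intro ε hε x
    obtain ⟨U, hU, h1⟩ := hloc (ε / 2) (half_pos hε) x
    refine ⟨U, hU, ?_⟩
    have h2 : ∀ᶠ j in atTop, 1 / Real.sqrt ((S + φ j : ℕ) : ℝ) < ε / (2 * C₃) :=
      (hinv.comp hφt).eventually_lt_const (by positivity)
    filter_upwards [h1, h2] with j h3 h4 y hy
    have h5 := h3 y hy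
    have h6 := hclose (φ j) y
    have h7 : C₃ / Real.sqrt ((S + φ j : ℕ) : ℝ) < ε / 2 := by
      have h8 := mul_lt_mul_of_pos_left h4 hC₃
      have h9 : C₃ * (ε / (2 * C₃)) = ε / 2 := by
        field_simp
      rw [h9, mul_one_div] at h8
      exact h8
    have h8 := dist_triangle (f y) (a (φ j) y) (b (φ j) y)
    linarith
  have hFe : Eqv ρ f := by
    refine ⟨hFc, fun g k hk => ?_, fun γ g => ?_⟩
    · refine tendsto_nhds_unique (hpt (g * k)) ((hpt g).congr fun j => ?_)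
      exact ((hab (φ j)).e1.kinv g k hk).symm
    · have hiso : Continuous (ρ γ) := (Isometry.of_dist_eq (D.act.iso γ)).continuous
      refine tendsto_nhds_unique (hpt ((γ : SUGroup n) * g))
        (((hiso.tendsto _).comp (hpt g)).congr fun j => ?_)
      exact ((hab (φ j)).e1.equi γ g).symm
  have hFl : ∀ g, lv (f g) = 0 := by
    intro g
    obtain ⟨K, hK, h1⟩ := D.up.lip
    have hcl : Continuous lv := by
      refine (LipschitzWith.of_dist_le_mul (K := ⟨K, hK⟩) fun x y => ?_).continuous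
      rw [Real.dist_eq]
      exact h1 x y
    refine tendsto_nhds_unique ((hcl.tendsto _).comp (hpt g))
      (tendsto_const_nhds.congr fun j => ?_)
    exact ((hab (φ j)).l1 g).symm
  refine ⟨f, hFe, hFl, ?_, ?_, ?_, C₁, fun j => S + φ j, fun j => a (φ j), fun j => b (φ j), ?_⟩
  · exact ⟨C₄, fun g => le_of_tendsto ((hpt g).dist tendsto_const_nhds)
      (Eventually.of_forall fun j => (hbd (S + φ j) (by omega) _ _ (hab (φ j)) g).1)⟩
  · refine ⟨N, C₂, hC₂, fun x g hx => ?_⟩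
    have h1 : Tendsto (fun j => dist (a (φ j) g) (a (φ j) (x * g))) atTop
        (𝓝 (dist (f g) (f (x * g)))) := (hpt g).dist (hpt (x * g))
    have h2 : Tendsto (fun j => C₂ * (‖x.toMatrix - 1‖ + 1 / Real.sqrt ((S + φ j : ℕ) : ℝ)) *
        ch g ^ (2 * N)) atTop (𝓝 (C₂ * (‖x.toMatrix - 1‖ + 0) * ch g ^ (2 * N))) :=
      (((hinv.comp hφt).const_add _).const_mul _).mul_const _
    rw [add_zero] at h2
    exact le_of_tendsto_of_tendsto' h1 h2 fun j => hlip (φ j) x g hx
  · refine ⟨C₅ ^ 2, by positivity, fun x => ?_⟩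
    have hcd : ∀ j, Continuous fun g : SUGroup n => dist (a (φ j) g) (a (φ j) (g * x)) := fun j =>
      (hab (φ j)).e1.cont.dist ((hab (φ j)).e1.cont.comp (continuous_mul_const x))
    have hm : ∀ j, Measurable fun g : SUGroup n => ENNReal.ofReal (χ g) *
        ENNReal.ofReal (dist (a (φ j) g) (a (φ j) (g * x)) ^ 2) := fun j =>
      hχ.measurable.mul ((hcd j).pow 2).measurable.ennreal_ofReal
    have hlim : ∀ g : SUGroup n, Tendsto (fun j => ENNReal.ofReal (χ g) *
        ENNReal.ofReal (dist (a (φ j) g) (a (φ j) (g * x)) ^ 2)) atTop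
        (𝓝 (ENNReal.ofReal (χ g) * ENNReal.ofReal (dist (f g) (f (g * x)) ^ 2))) := fun g =>
      ENNReal.Tendsto.const_mul (ENNReal.tendsto_ofReal (((hpt g).dist (hpt (g * x))).pow 2))
        (Or.inr ENNReal.ofReal_ne_top)
    have hup : Tendsto (fun j => ENNReal.ofReal ((C₅ * (Real.log (wt x) +
        1 / Real.sqrt ((S + φ j : ℕ) : ℝ))) ^ 2)) atTop
        (𝓝 (ENNReal.ofReal ((C₅ * (Real.log (wt x) + 0)) ^ 2))) :=
      ENNReal.tendsto_ofReal ((((hinv.comp hφt).const_add _).const_mul _).pow 2)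
    rw [add_zero, mul_pow] at hup
    rw [← hup.liminf_eq]
    calc LI χ (fun g => ENNReal.ofReal (dist (f g) (f (g * x)) ^ 2))
        = ∫⁻ g, liminf (fun j => ENNReal.ofReal (χ g) *
          ENNReal.ofReal (dist (a (φ j) g) (a (φ j) (g * x)) ^ 2)) atTop ∂(mu n) := by
          unfold LI
          exact lintegral_congr fun g => (hlim g).liminf_eq.symm
      _ ≤ liminf (fun j => ∫⁻ g, ENNReal.ofReal (χ g) *
          ENNReal.ofReal (dist (a (φ j) g) (a (φ j) (g * x)) ^ 2) ∂(mu n)) atTop :=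
          lintegral_liminf_le hm
      _ ≤ _ := by
          refine liminf_le_liminf (Eventually.of_forall fun j => ?_)
          have e1 := LI_sq hχ ((hab (φ j)).psm D) ((hab (φ j)).fd hF) false false x
          refine (le_of_eq e1).trans (ENNReal.ofReal_le_ofReal ?_)
          refine pow_le_pow_left₀ (HM.DD.nm_nonneg _ _) ?_ 2
          exact hdp (S + φ j) (by omega) _ _ (hab (φ j)) false false x
  · exact
      { tends := tendsto_atTop_mono (fun j => (by omega : φ j ≤ S + φ j)) hφt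
        ca := fun j => (hab (φ j)).e1.cont
        cb := fun j => (hab (φ j)).e2.cont
        ka := fun j => (hab (φ j)).e1.kinv
        kb := fun j => (hab (φ j)).e2.kinv
        ga := fun j => (hg (φ j)).1
        gb := fun j => (hg (φ j)).2
        ab := fun j => (hab (φ j)).b1
        ba := fun j => (hab (φ j)).b2
        la := hloc
        lb := hlocb }

end Pool.Agent.Lib.MP_5d4057_al.IN
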