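import Pool.Agent.Lib.MP_5d4057_al.IN.LipY
import Pool.Agent.Lib.MP_5d4057_al.IN.AppY

/-! Part B of INT: existence of the limit map (B11). -/

namespace Pool.Agent.Lib.MP_5d4057_al.IN

open MeasureTheory Filter Topology Pool.Agent.Lib.MP_5d4057_al
open Pool.Agent.Lib.MP_5d4057_al.Hyb Pool.Agent.Lib.MP_5d4057_al.HM
open Pool.Agent.Lib.MP_5d4057_al.NU

open scoped ENNReal

variable {n : ℕ} {Γ : Subgroup (SUGroup n)} {χ : SUGroup n → ℝ} {Y : Type} [MetricSpace Y]
variable {Φ : Y → Y → ℝ} {κ : ℝ} {lv : Y → ℝ} {y₀ : Y} {ρ : Γ →* Equiv.Perm Y}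

section aux

open scoped Matrix.Norms.L2Operator

private theorem lim_norm_cont : Continuous fun a : SUGroup n => ‖a.toMatrix - 1‖ :=
  ((continuous_toMatrix n).sub continuous_const).norm

private theorem norm_base_le (i : Fin (n + 1)) : ‖base n i‖ ≤ 1 := by
  refine Fin.lastCases ?_ (fun i => ?_) i
  · rw [Kak.base_last, norm_one]
  · rw [Kak.base_castSucc, norm_zero]
    exact zero_le_one

private theorem norm_vec_le {ξ : Fin n → ℂ} (hξ : Kak.nq ξ = 1) (i : Fin (n + 1)) :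
    ‖vec ξ i‖ ≤ 1 := by
  refine Fin.lastCases ?_ (fun i => ?_) i
  · rw [Kak.vec_last, norm_zero]
    exact zero_le_one
  · rw [Kak.vec_castSucc]
    have h1 : ‖ξ i‖ ^ 2 ≤ Kak.nq ξ :=
      Finset.single_le_sum (f := fun i => ‖ξ i‖ ^ 2) (fun _ _ => sq_nonneg _) (Finset.mem_univ i)
    rw [hξ] at h1
    have h2 := norm_nonneg (ξ i)
    nlinarith

private theorem norm_prod_le {a b c : ℂ} {r : ℝ} (ha : ‖a‖ ≤ r) (hb : ‖b‖ ≤ 1) (hc : ‖c‖ ≤ 1) :
    ‖a * (b * c)‖ ≤ r := by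
  rw [norm_mul, norm_mul]
  have h1 : ‖b‖ * ‖c‖ ≤ 1 := mul_le_one₀ hb (norm_nonneg _) hc
  calc ‖a‖ * (‖b‖ * ‖c‖) ≤ ‖a‖ * 1 := mul_le_mul_of_nonneg_left h1 (norm_nonneg _)
    _ ≤ r := by rwa [mul_one]

/-- small elements of the one-parameter groups -/
private theorem norm_flow_sub {ξ : Fin n → ℂ} (hξ : Kak.nq ξ = 1) {t : ℝ} (h0 : 0 ≤ t)
    (h1 : t ≤ 1) : ‖(Kak.flow ξ hξ t).toMatrix - 1‖ ≤ 4 * (n + 1) * t := by
  have hexp : Real.exp t - 1 ≤ 2 * t := by
    have h2 := Real.abs_exp_sub_one_le (x := t) (by rwa [abs_of_nonneg h0])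
    rw [abs_of_nonneg h0] at h2
    exact (le_abs_self _).trans h2
  have hs : 0 ≤ Real.sinh t := Real.sinh_nonneg_iff.2 h0
  have hc : 0 ≤ Real.cosh t - 1 := by linarith [Real.one_le_cosh t]
  have hsum : Real.cosh t - 1 + Real.sinh t ≤ 2 * t := by
    have := Real.cosh_add_sinh t
    linarith
  have hcn : ‖((Real.cosh t - 1 : ℝ) : ℂ)‖ ≤ Real.cosh t - 1 := by
    rw [Complex.norm_real, Real.norm_eq_abs, abs_of_nonneg hc]
  have hsn : ‖((Real.sinh t : ℝ) : ℂ)‖ ≤ Real.sinh t := by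
    rw [Complex.norm_real, Real.norm_eq_abs, abs_of_nonneg hs]
  have hst : ∀ i, ‖star (vec ξ) i‖ ≤ 1 := fun i => by
    rw [Pi.star_apply, norm_star]
    exact norm_vec_le hξ i
  have hent : ∀ i j, ‖((Kak.flow ξ hξ t).toMatrix - 1) i j‖ ≤ 4 * t := by
    intro i j
    have e : ((Kak.flow ξ hξ t).toMatrix - 1) i j =
        ((Real.cosh t - 1 : ℝ) : ℂ) * (vec ξ i * star (vec ξ) j) +
        ((Real.sinh t : ℝ) : ℂ) * (vec ξ i * base n j) +
        ((Real.sinh t : ℝ) : ℂ) * (base n i * star (vec ξ) j) +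
        ((Real.cosh t - 1 : ℝ) : ℂ) * (base n i * base n j) := by
      rw [Kak.toMatrix_flow, Kak.MM]
      simp only [Matrix.sub_apply, Matrix.add_apply, Matrix.smul_apply, Matrix.vecMulVec_apply,
        smul_eq_mul]
      ring
    rw [e]
    have b1 := norm_prod_le hcn (norm_vec_le hξ i) (hst j)
    have b2 := norm_prod_le hsn (norm_vec_le hξ i) (norm_base_le j)
    have b3 := norm_prod_le hsn (norm_base_le (n := n) i) (hst j)
    have b4 := norm_prod_le hcn (norm_base_le (n := n) i) (norm_base_le (n := n) j)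
    refine (norm_add_le _ _).trans ?_
    have c1 := norm_add_le (((Real.cosh t - 1 : ℝ) : ℂ) * (vec ξ i * star (vec ξ) j) +
        ((Real.sinh t : ℝ) : ℂ) * (vec ξ i * base n j))
        (((Real.sinh t : ℝ) : ℂ) * (base n i * star (vec ξ) j))
    have c2 := norm_add_le (((Real.cosh t - 1 : ℝ) : ℂ) * (vec ξ i * star (vec ξ) j))
        (((Real.sinh t : ℝ) : ℂ) * (vec ξ i * base n j))
    linarith
  have h2 := Ax.norm_sq_le_frob ((Kak.flow ξ hξ t).toMatrix - 1)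
  have h3 : ∑ j, ∑ i, ‖((Kak.flow ξ hξ t).toMatrix - 1) i j‖ ^ 2 ≤
      ∑ _j : Fin (n + 1), ∑ _i : Fin (n + 1), (4 * t) ^ 2 :=
    Finset.sum_le_sum fun j _ => Finset.sum_le_sum fun i _ =>
      pow_le_pow_left₀ (norm_nonneg _) (hent i j) 2
  have h4 : ‖(Kak.flow ξ hξ t).toMatrix - 1‖ ^ 2 ≤ (4 * (n + 1) * t) ^ 2 := by
    refine (h2.trans h3).trans (le_of_eq ?_)
    simp only [Finset.sum_const, Finset.card_univ, Fintype.card_fin, nsmul_eq_mul]
    push_cast
    ring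
  exact le_of_sq_le_sq h4 (by positivity)

/-- From left translations to right translations. -/
private theorem lip_of_left (hn : 1 ≤ n) (hΓ : Coc Γ) (hA : Acts ρ Φ lv) {F : SUGroup n → Y}
    (hF : Eqv ρ F) {N : ℕ} {C : ℝ} (hC : 0 ≤ C)
    (h : ∀ a g : SUGroup n, ‖a.toMatrix - 1‖ ≤ 1 →
      dist (F g) (F (a * g)) ≤ C * ‖a.toMatrix - 1‖ * ch g ^ (2 * N)) :
    ∃ L : ℝ, LipD L F := by
  obtain ⟨F₀, hcF, hcov⟩ := hΓ.cpt
  obtain ⟨M₀, hM₀⟩ : ∃ M₀ : ℝ, ∀ g ∈ F₀, ch g ≤ M₀ := by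
    obtain ⟨M₀, h1⟩ := (hcF.image continuous_ch).bddAbove
    exact ⟨M₀, fun g hg => h1 ⟨g, hg, rfl⟩⟩
  set M : ℝ := max M₀ 1 with hMd
  have hM1 : 1 ≤ M := le_max_right _ _
  have hM : ∀ g ∈ F₀, ch g ≤ M := fun g hg => (hM₀ g hg).trans (le_max_left _ _)
  set A : ℝ := (2 * (n + 1)) ^ 2 * M ^ 2 * (4 * (n + 1)) with hA'
  have hA0 : 0 ≤ A := by positivity
  -- one parameter groups
  have key : ∀ (g : SUGroup n) {ξ : Fin n → ℂ} (hξ : Kak.nq ξ = 1) {t : ℝ}, 0 ≤ t → t ≤ 1 →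
      A * t ≤ 1 → dist (F g) (F (g * Kak.flow ξ hξ t)) ≤ C * A * M ^ (2 * N) * t := by
    intro g ξ hξ t h0 h1 h2
    obtain ⟨γ, hγ, hg⟩ := hcov g
    have e1 : F (γ * g) = ρ ⟨γ, hγ⟩ (F g) := hF.equi ⟨γ, hγ⟩ g
    have e2 : F (γ * (g * Kak.flow ξ hξ t)) = ρ ⟨γ, hγ⟩ (F (g * Kak.flow ξ hξ t)) :=
      hF.equi ⟨γ, hγ⟩ _
    rw [← hA.iso ⟨γ, hγ⟩, ← e1, ← e2]
    set g' := γ * g with hg'
    set b := Kak.flow ξ hξ t with hb
    have e3 : γ * (g * b) = (g' * b * g'⁻¹) * g' := by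
      rw [hg']
      group
    have h3 := Ax.norm_conj_sub_one g' b
    have h4 := norm_flow_sub hξ h0 h1
    rw [← hb] at h4
    have hch := hM g' hg
    have hch0 : 0 ≤ ch g' := zero_le_one.trans (one_le_ch g')
    have h5 : ‖(g' * b * g'⁻¹).toMatrix - 1‖ ≤ A * t := by
      refine h3.trans ?_
      calc (2 * (n + 1)) ^ 2 * ch g' ^ 2 * ‖b.toMatrix - 1‖
          ≤ (2 * (n + 1)) ^ 2 * M ^ 2 * (4 * (n + 1) * t) := by gcongr
        _ = A * t := by rw [hA']; ring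
    rw [e3]
    refine (h _ g' (h5.trans h2)).trans ?_
    calc C * ‖(g' * b * g'⁻¹).toMatrix - 1‖ * ch g' ^ (2 * N)
        ≤ C * (A * t) * M ^ (2 * N) := by gcongr
      _ = C * A * M ^ (2 * N) * t := by ring
  set L : ℝ := C * A * M ^ (2 * N) with hL
  have hL0 : 0 ≤ L := by positivity
  -- small elements
  have small : ∀ g y : SUGroup n, Real.log (wt y) ≤ 1 → A * Real.log (wt y) ≤ 1 →
      dist (F g) (F (g * y)) ≤ L * Real.log (wt y) := by
    intro g y h1 h2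
    obtain ⟨ξ, hξ, t, k, ht, hk, hy⟩ := Kak.exists_polar hn y
    have hw : wt y = Real.exp t := by
      rw [hy, Kak.wt_eq_of_ch (ch_mul_of_ch_eq_one hk (Kak.flow ξ hξ t)).2, Kak.wt_flow hξ ht]
    rw [hw, Real.log_exp] at h1 h2 ⊢
    rw [hy, ← mul_assoc, hF.kinv _ _ hk]
    exact key g hξ ht h1 h2
  refine ⟨L, fun g x => ?_⟩
  obtain ⟨m, hm⟩ := exists_nat_ge ((A + 1) * Real.log (wt x))
  obtain ⟨l, hl, hx, hly⟩ := exists_factor hn x (m + 1) (by omega)
  have hlog0 : 0 ≤ Real.log (wt x) := Real.log_nonneg (one_le_wt x)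
  have hm1 : (0 : ℝ) < (m + 1 : ℕ) := by positivity
  have hlog : ∀ y ∈ l, Real.log (wt y) = Real.log (wt x) / (m + 1 : ℕ) := by
    intro y hy
    rw [← hly y hy, Real.log_pow, mul_div_assoc, mul_comm, div_mul_cancel₀ _ hm1.ne']
  have hq : (A + 1) * (Real.log (wt x) / (m + 1 : ℕ)) ≤ 1 := by
    rw [← mul_div_assoc, div_le_one hm1]
    push_cast
    linarith
  have hq0 : 0 ≤ Real.log (wt x) / (m + 1 : ℕ) := by positivity
  have hstep : ∀ l' : List (SUGroup n), (∀ y ∈ l', y ∈ l) → ∀ g : SUGroup n,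
      dist (F g) (F (g * l'.prod)) ≤ l'.length * (L * (Real.log (wt x) / (m + 1 : ℕ))) := by
    intro l'
    induction l' with
    | nil =>
      intro _ g
      simp
    | cons y l' ih =>
      intro hsub g
      have h1 : dist (F g) (F (g * y)) ≤ L * (Real.log (wt x) / (m + 1 : ℕ)) := by
        rw [← hlog y (hsub y List.mem_cons_self)]
        refine small g y ?_ ?_
        · rw [hlog y (hsub y List.mem_cons_self)]
          nlinarith
        · rw [hlog y (hsub y List.mem_cons_self)]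
          nlinarith
      have h2 := ih (fun z hz => hsub z (List.mem_cons_of_mem _ hz)) (g * y)
      rw [List.prod_cons, ← mul_assoc, List.length_cons]
      refine (dist_triangle _ (F (g * y)) _).trans ?_
      rw [Nat.cast_succ, add_mul, one_mul]
      linarith
  have h1 := hstep l (fun _ h => h) g
  rw [hx, hl] at h1
  refine h1.trans (le_of_eq ?_)
  field_simp

end aux

open scoped Matrix.Norms.L2Operator in
/-- **Existence of the limit map** (B11). PROOF: pairs `(f s, f' s)`, `s → ∞` (`exists_pairY`);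
pointwise bounded (`PairY.bound`), asymptotically equicontinuous (`PairY.lip`: `h = a g`, `a = h g⁻¹`);
`exists_seq`; `PairY.close` gives the same limit for `f'`. Lipschitz: for `γ g ∈ F` compact and
`log wt x` small write `x = k₁ b k₂` (`exists_kak`), `γ g x = a γ g k` with `‖a - 1‖ ≤ C log wt x`, so
`dist (f g) (f (g x)) ≤ C log wt x`; `exists_factor` for large `x`. -/
theorem exists_limY [ProperSpace Y] (hn : 1 ≤ n) (hΓ : Coc Γ) (D : Dat ρ Φ κ lv y₀)
    {f₀ : SUGroup n → Y} (h0 : Eqv ρ f₀) (hl : ∀ g, lv (f₀ g) = 0) {L : ℝ} (hL : LipD L f₀) :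
    ∃ f : SUGroup n → Y, LimY ρ Φ lv y₀ f := by
  obtain ⟨χ, hχ⟩ := exists_lat_of_coc hΓ
  obtain ⟨s₀, c, hc, hP⟩ := exists_pairY hn hΓ hχ D h0 hl hL
  obtain ⟨s₁, C₁, hB⟩ := PairY.bound hn hΓ hχ D hc
  obtain ⟨s₂, N, C₂, hC₂, hLip⟩ := PairY.lip hn hΓ hχ D hc
  obtain ⟨s₃, C₃, hC₃, hcl⟩ := PairY.close hn hΓ hχ D hc
  set S : ℕ := s₀ + s₁ + s₂ + s₃ + 1 with hS
  choose a b hab using fun j : ℕ => hP (S + j) (by omega)
  have hg : ∀ j, Lg C₁ y₀ (a j) ∧ Lg C₁ y₀ (b j) := fun j => hB (S + j) (by omega) _ _ (hab j)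
  have hlip : ∀ j (x g : SUGroup n), ‖x.toMatrix - 1‖ ≤ 1 → dist (a j g) (a j (x * g)) ≤
      C₂ * (‖x.toMatrix - 1‖ + 1 / Real.sqrt ((S + j : ℕ) : ℝ)) * ch g ^ (2 * N) := by
    intro j x g hx
    have h1 := hLip (S + j) (by omega) _ _ (hab j) x g hx
    have h2 : 0 ≤ dist (b j g) (b j (x * g)) := dist_nonneg
    linarith
  have hclose : ∀ j g, dist (a j g) (b j g) ≤ C₃ / Real.sqrt ((S + j : ℕ) : ℝ) := fun j g =>
    hcl (S + j) (by omega) _ _ (hab j) g
  have htop : Tendsto (fun j : ℕ => Real.sqrt ((S + j : ℕ) : ℝ)) atTop atTop := by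
    refine Real.tendsto_sqrt_atTop.comp (tendsto_natCast_atTop_atTop.comp ?_)
    exact tendsto_add_atTop_iff_nat (f := fun j : ℕ => j) S |>.2 tendsto_id |>.congr
      fun j => by omega
  have hinv : Tendsto (fun j : ℕ => 1 / Real.sqrt ((S + j : ℕ) : ℝ)) atTop (𝓝 0) := by
    simp only [one_div]
    exact htop.inv_tendsto_atTop
  obtain ⟨φ, F, hφ, hFc, hloc⟩ := exists_seq a y₀
    (fun x => ⟨C₁ * (1 + Real.log (wt x)), fun k => (hg k).1 x⟩)
    (fun x ε hε => by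
      have hch : 0 < ch x ^ (2 * N) := pow_pos (zero_lt_one.trans_le (one_le_ch x)) _
      set δ : ℝ := min 1 (ε / (2 * (C₂ * ch x ^ (2 * N)))) with hδ
      have hδ0 : 0 < δ := lt_min one_pos (by positivity)
      have hcont : Continuous fun y : SUGroup n => ‖(y * x⁻¹).toMatrix - 1‖ :=
        lim_norm_cont.comp (continuous_id.mul continuous_const)
      refine ⟨{y | ‖(y * x⁻¹).toMatrix - 1‖ < δ}, ?_, ?_⟩
      · refine (isOpen_lt hcont continuous_const).mem_nhds ?_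
        change ‖(x * x⁻¹).toMatrix - 1‖ < δ
        rw [mul_inv_cancel, toMatrix_one, sub_self, norm_zero]
        exact hδ0
      · have h1 : ∀ᶠ k : ℕ in atTop, 1 / Real.sqrt ((S + k : ℕ) : ℝ) <
            ε / (2 * (C₂ * ch x ^ (2 * N))) := hinv.eventually_lt_const (by positivity)
        obtain ⟨k₀, hk₀⟩ := eventually_atTop.1 h1
        refine ⟨k₀, fun k hk y hy => ?_⟩
        have h2 := hlip k (y * x⁻¹) x (hy.le.trans (min_le_left _ _))
        rw [inv_mul_cancel_right] at h2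
        refine h2.trans ?_
        have h3 : ‖(y * x⁻¹).toMatrix - 1‖ ≤ ε / (2 * (C₂ * ch x ^ (2 * N))) :=
          hy.le.trans (min_le_right _ _)
        have h4 := hk₀ k hk
        have h5 : C₂ * (‖(y * x⁻¹).toMatrix - 1‖ + 1 / Real.sqrt ((S + k : ℕ) : ℝ)) *
            ch x ^ (2 * N) ≤ C₂ * (ε / (2 * (C₂ * ch x ^ (2 * N))) +
              ε / (2 * (C₂ * ch x ^ (2 * N)))) * ch x ^ (2 * N) := by
          gcongr
        refine h5.trans (le_of_eq ?_)
        field_simp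
        ring)
  have hpt : ∀ g, Tendsto (fun j => a (φ j) g) atTop (𝓝 (F g)) := fun g =>
    (tendstoLocallyUniformlyOn_univ.2 hloc).tendsto_at (Set.mem_univ g)
  have hφt : Tendsto φ atTop atTop := hφ.tendsto_atTop
  have hlocb : TendstoLocallyUniformly (fun j => b (φ j)) F atTop := by
    rw [Metric.tendstoLocallyUniformly_iff] at hloc ⊢
    intro ε hε x
    obtain ⟨U, hU, h1⟩ := hloc (ε / 2) (half_pos hε) x
    refine ⟨U, hU, ?_⟩
    have h2 : ∀ᶠ j in atTop, 1 / Real.sqrt ((S + φ j : ℕ) : ℝ) < ε / (2 * C₃) :=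
      (hinv.comp hφt).eventually_lt_const (by positivity)
    filter_upwards [h1, h2] with j h3 h4 y hy
    have h5 := h3 y hy
    have h6 := hclose (φ j) y
    have h7 : C₃ / Real.sqrt ((S + φ j : ℕ) : ℝ) < ε / 2 := by
      have h8 := mul_lt_mul_of_pos_left h4 hC₃
      have h9 : C₃ * (ε / (2 * C₃)) = ε / 2 := by
        field_simp
      rw [h9, mul_one_div] at h8
      exact h8
    have h8 := dist_triangle (F y) (a (φ j) y) (b (φ j) y)
    linarith
  have hFe : Eqv ρ F := by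
    refine ⟨hFc, fun g k hk => ?_, fun γ g => ?_⟩
    · refine tendsto_nhds_unique (hpt (g * k)) ((hpt g).congr fun j => ?_)
      exact ((hab (φ j)).e1.kinv g k hk).symm
    · have hiso : Continuous (ρ γ) := (Isometry.of_dist_eq (D.act.iso γ)).continuous
      refine tendsto_nhds_unique (hpt ((γ : SUGroup n) * g))
        (((hiso.tendsto _).comp (hpt g)).congr fun j => ?_)
      exact ((hab (φ j)).e1.equi γ g).symm
  have hFl : ∀ g, lv (F g) = 0 := by
    intro g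
    obtain ⟨K, hK, h1⟩ := D.up.lip
    have hcl : Continuous lv := by
      refine (LipschitzWith.of_dist_le_mul (K := ⟨K, hK⟩) fun x y => ?_).continuous
      rw [Real.dist_eq]
      exact h1 x y
    refine tendsto_nhds_unique ((hcl.tendsto _).comp (hpt g))
      (tendsto_const_nhds.congr fun j => ?_)
    exact ((hab (φ j)).l1 g).symm
  refine ⟨F, hFe, hFl, ?_, C₁, fun j => S + φ j, fun j => a (φ j), fun j => b (φ j), ?_⟩
  · refine lip_of_left hn hΓ D.act hFe hC₂.le (N := N) fun x g hx => ?_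
    have h1 : Tendsto (fun j => dist (a (φ j) g) (a (φ j) (x * g))) atTop
        (𝓝 (dist (F g) (F (x * g)))) := (hpt g).dist (hpt (x * g))
    have h2 : Tendsto (fun j => C₂ * (‖x.toMatrix - 1‖ + 1 / Real.sqrt ((S + φ j : ℕ) : ℝ)) *
        ch g ^ (2 * N)) atTop (𝓝 (C₂ * (‖x.toMatrix - 1‖ + 0) * ch g ^ (2 * N))) :=
      (((hinv.comp hφt).const_add _).const_mul _).mul_const _
    rw [add_zero] at h2
    exact le_of_tendsto_of_tendsto' h1 h2 fun j => hlip (φ j) x g hx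
  · exact
      { tends := tendsto_atTop_mono (fun j => (by omega : φ j ≤ S + φ j)) hφt
        ca := fun j => (hab (φ j)).e1.cont
        cb := fun j => (hab (φ j)).e2.cont
        ka := fun j => (hab (φ j)).e1.kinv
        kb := fun j => (hab (φ j)).e2.kinv
        ga := fun j => (hg (φ j)).1
        gb := fun j => (hg (φ j)).2
        ab := fun j => (hab (φ j)).b1
        ba := fun j => (hab (φ j)).b2
        la := hloc
        lb := hlocb }

end Pool.Agent.Lib.MP_5d4057_al.IN
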