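import Pool.Agent.Lib.MP_5d4057_al.IN.Psm
import Pool.Agent.Lib.MP_5d4057_al.NU.LipN1

/-! Part B of INT: the local and the weighted estimate for invariant pseudo metrics (B9). -/

namespace Pool.Agent.Lib.MP_5d4057_al.IN

open MeasureTheory Filter Topology Pool.Agent.Lib.MP_5d4057_al
open Pool.Agent.Lib.MP_5d4057_al.Hyb Pool.Agent.Lib.MP_5d4057_al.HM
open Pool.Agent.Lib.MP_5d4057_al.HM.DD Pool.Agent.Lib.MP_5d4057_al.NU

open scoped ENNReal Matrix.Norms.L2Operator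

variable {n : ℕ} {Γ : Subgroup (SUGroup n)} {χ : SUGroup n → ℝ}

private noncomputable def Dd (δ : Bool → Bool → SUGroup n → SUGroup n → ℝ) (b : Bool)
    (g h : SUGroup n) : ℝ≥0∞ := ENNReal.ofReal (δ b b g h)

private theorem meas_Dd {δ : Bool → Bool → SUGroup n → SUGroup n → ℝ} (hδ : Psm Γ δ) (b : Bool)
    {X : Type} [MeasurableSpace X] {u v : X → SUGroup n} (hu : Measurable u) (hv : Measurable v) :
    Measurable fun x => Dd δ b (u x) (v x) :=
  ((hδ.cont b b).measurable.comp (hu.prodMk hv)).ennreal_ofReal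

private theorem right_of (hχ : Lat Γ χ) : ∃ (M : ℝ) (k : ℕ), 0 < M ∧
    ∀ (δ : Bool → Bool → SUGroup n → SUGroup n → ℝ), Psm Γ δ → Fd χ δ → ∀ (b : Bool) (T : ℝ),
      1 ≤ T → ∀ x : SUGroup n, ∫⁻ g, ib T g * Dd δ b g (g * x) ∂(mu n) ≤
        ENNReal.ofReal (M * T ^ k * dsp χ δ b b x) := by
  obtain ⟨M, k, hM0, hM⟩ := hχ.ball_poly
  have hG := LG.CutG.of_lat hχ
  have hA0 : 0 ≤ nm χ (fun _ : SUGroup n => (1 : ℝ)) := nm_nonneg _ _
  refine ⟨M * (nm χ (fun _ : SUGroup n => (1 : ℝ)) + 1), k, by positivity,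
    fun δ hδ hF b T hT x => ?_⟩
  have hT0 : 0 ≤ T := by linarith
  have hm : Measurable fun g : SUGroup n => Dd δ b g (g * x) :=
    meas_Dd hδ b measurable_id (measurable_mul_const x)
  refine (hM T hT (fun g => Dd δ b g (g * x)) hm.aemeasurable fun γ hγ g => ?_).trans ?_
  · unfold Dd
    rw [mul_assoc, hδ.inv b b γ hγ]
  have h2 : LG.L2 χ fun g => δ b b g (g * x) := hF b b x
  have h1 : LG.L1 χ fun g => δ b b g (g * x) := by
    have := h2.mul hG (LG.L2.const hG 1)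
    simpa using this
  have h3 : II χ (fun g => δ b b g (g * x)) ≤
      dsp χ δ b b x * nm χ (fun _ : SUGroup n => (1 : ℝ)) := by
    have := LG.II_mul_le hG h2 (LG.L2.const hG 1)
    simpa [dsp] using this
  have hd0 : 0 ≤ dsp χ δ b b x := nm_nonneg _ _
  calc ENNReal.ofReal (M * T ^ k) * LI χ (fun g => Dd δ b g (g * x))
      = ENNReal.ofReal (M * T ^ k) * ENNReal.ofReal (II χ fun g => δ b b g (g * x)) := by
        congr 1
        exact LG.lint_eq_II hG h1 fun g => hδ.nonneg _ _ _ _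
    _ ≤ ENNReal.ofReal (M * T ^ k) *
          ENNReal.ofReal (dsp χ δ b b x * nm χ (fun _ : SUGroup n => (1 : ℝ))) := by
        gcongr
    _ = ENNReal.ofReal (M * T ^ k * (dsp χ δ b b x * nm χ (fun _ : SUGroup n => (1 : ℝ)))) := by
        rw [← ENNReal.ofReal_mul (by positivity)]
    _ ≤ _ := by
        refine ENNReal.ofReal_le_ofReal ?_
        have h4 : M * T ^ k * (dsp χ δ b b x * nm χ (fun _ : SUGroup n => (1 : ℝ))) ≤
            M * T ^ k * (dsp χ δ b b x * (nm χ (fun _ : SUGroup n => (1 : ℝ)) + 1)) := by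
          gcongr
          linarith
        refine h4.trans (le_of_eq (by ring))

private theorem kap_of (hχ : Lat Γ χ) (C₀ : ℝ) : ∃ (M : ℝ) (k : ℕ), 0 < M ∧
    ∀ (s : ℕ) (δ : Bool → Bool → SUGroup n → SUGroup n → ℝ), 1 ≤ s → Psm Γ δ → Fd χ δ →
      (∀ (b : Bool) x, dsp χ δ b b x ≤ C₀ * (Real.log (wt x) + 1 / Real.sqrt s)) →
      ∀ (b : Bool) (T : ℝ), 1 ≤ T → ∀ s' : ℕ, 2 * n + 2 ≤ s' →
        ∫⁻ p : SUGroup n × SUGroup n, ib T p.1 * ENNReal.ofReal (kap s' p.2) *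
          Dd δ b p.1 (p.1 * p.2) ∂((mu n).prod (mu n)) ≤
          ENNReal.ofReal (M * T ^ k * (1 / Real.sqrt s' + 1 / Real.sqrt s)) := by
  obtain ⟨M, k, hM0, hMR⟩ := right_of (n := n) hχ
  refine ⟨M * (|C₀| + 1) * (n + 1), k, by positivity, fun s δ hs1 hδ hF hd b T hT s' hs' => ?_⟩
  have hT0 : 0 ≤ T := by linarith
  have hs0 : (0 : ℝ) < s := by exact_mod_cast hs1
  have hs'0 : (0 : ℝ) < s' := by
    have : 0 < s' := by omega
    exact_mod_cast this
  have hq0 : 0 < Real.sqrt s' := Real.sqrt_pos.2 hs'0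
  have hq1 : 0 < Real.sqrt s := Real.sqrt_pos.2 hs0
  have hqq : Real.sqrt s' * Real.sqrt s' = s' := Real.mul_self_sqrt hs'0.le
  have hkm : Measurable (fun x : SUGroup n => ENNReal.ofReal (kap s' x)) :=
    (continuous_kap s').measurable.ennreal_ofReal
  have hmeas : Measurable (fun p : SUGroup n × SUGroup n => ib T p.1 *
      ENNReal.ofReal (kap s' p.2) * Dd δ b p.1 (p.1 * p.2)) := by
    refine Measurable.mul ?_ (meas_Dd hδ b measurable_fst (measurable_fst.mul measurable_snd))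
    exact ((measurable_ib T).comp measurable_fst).mul (hkm.comp measurable_snd)
  rw [lintegral_prod_symm _ hmeas.aemeasurable]
  have hA : 0 ≤ M * T ^ k * (|C₀| + 1) := by positivity
  have h1 : ∀ x : SUGroup n, ∫⁻ g, ib T g * ENNReal.ofReal (kap s' x) * Dd δ b g (g * x) ∂(mu n) ≤
      ENNReal.ofReal (M * T ^ k * (|C₀| + 1) * (Real.sqrt s' / 2 * (kap s' x * (ch x ^ 2 - 1)) +
        (1 / (2 * Real.sqrt s') + 1 / Real.sqrt s) * kap s' x)) := by
    intro x
    have e1 : ∫⁻ g, ib T g * ENNReal.ofReal (kap s' x) * Dd δ b g (g * x) ∂(mu n) =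
        ENNReal.ofReal (kap s' x) * ∫⁻ g, ib T g * Dd δ b g (g * x) ∂(mu n) := by
      rw [← lintegral_const_mul' _ _ ENNReal.ofReal_ne_top]
      refine lintegral_congr fun g => ?_
      ring
    rw [e1]
    have hk := kap_nonneg s' x
    have h4 : 0 ≤ Real.log (wt x) := Real.log_nonneg (one_le_wt x)
    have h5 := one_le_ch x
    have h6 : 0 ≤ ch x ^ 2 - 1 := by nlinarith
    have h3 : Real.log (wt x) ≤ Real.sqrt s' / 2 * (ch x ^ 2 - 1) + 1 / (2 * Real.sqrt s') := by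
      refine (log_wt_le x).trans ?_
      obtain ⟨y, hy⟩ : ∃ y : ℝ, y = Real.sqrt (ch x ^ 2 - 1) := ⟨_, rfl⟩
      have hy2 : y * y = ch x ^ 2 - 1 := by rw [hy]; exact Real.mul_self_sqrt h6
      rw [← hy, ← hy2]
      have h7 : Real.sqrt s' / 2 * (y * y) + 1 / (2 * Real.sqrt s') - y =
          (Real.sqrt s' * y - 1) ^ 2 / (2 * Real.sqrt s') := by
        field_simp
        ring
      have h8 : 0 ≤ (Real.sqrt s' * y - 1) ^ 2 / (2 * Real.sqrt s') := by positivity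
      linarith
    have h9 : dsp χ δ b b x ≤ (|C₀| + 1) * (Real.sqrt s' / 2 * (ch x ^ 2 - 1) +
        (1 / (2 * Real.sqrt s') + 1 / Real.sqrt s)) := by
      have h10 : 0 ≤ Real.log (wt x) + 1 / Real.sqrt s := by positivity
      calc dsp χ δ b b x ≤ C₀ * (Real.log (wt x) + 1 / Real.sqrt s) := hd b x
        _ ≤ (|C₀| + 1) * (Real.log (wt x) + 1 / Real.sqrt s) := by
            refine mul_le_mul_of_nonneg_right ?_ h10
            linarith [le_abs_self C₀]
        _ ≤ (|C₀| + 1) * (Real.sqrt s' / 2 * (ch x ^ 2 - 1) + 1 / (2 * Real.sqrt s') +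
            1 / Real.sqrt s) := by
            have : 0 ≤ |C₀| + 1 := by positivity
            gcongr
        _ = _ := by ring
    calc ENNReal.ofReal (kap s' x) * ∫⁻ g, ib T g * Dd δ b g (g * x) ∂(mu n)
        ≤ ENNReal.ofReal (kap s' x) * ENNReal.ofReal (M * T ^ k * dsp χ δ b b x) := by
          gcongr; exact hMR δ hδ hF b T hT x
      _ = ENNReal.ofReal (kap s' x * (M * T ^ k * dsp χ δ b b x)) := by
          rw [← ENNReal.ofReal_mul hk]
      _ ≤ _ := by
          refine ENNReal.ofReal_le_ofReal ?_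
          calc kap s' x * (M * T ^ k * dsp χ δ b b x)
              ≤ kap s' x * (M * T ^ k * ((|C₀| + 1) * (Real.sqrt s' / 2 * (ch x ^ 2 - 1) +
                (1 / (2 * Real.sqrt s') + 1 / Real.sqrt s)))) := by
                refine mul_le_mul_of_nonneg_left (mul_le_mul_of_nonneg_left h9 (by positivity)) hk
            _ = _ := by ring
  refine (lintegral_mono h1).trans ?_
  have hmom := mom_one (n := n) (s := s') (by omega)
  have hint1 : Integrable (fun x : SUGroup n => kap s' x * (ch x ^ 2 - 1)) (mu n) := by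
    have := integrable_mom (n := n) (s := s') (N := 0) (k := 1) (by omega)
    refine this.congr (Eventually.of_forall fun x => ?_)
    simp
  have hint2 : Integrable (fun x : SUGroup n => kap s' x) (mu n) := integrable_kap (by omega)
  have hint3 : Integrable (fun x : SUGroup n => Real.sqrt s' / 2 * (kap s' x * (ch x ^ 2 - 1)) +
        (1 / (2 * Real.sqrt s') + 1 / Real.sqrt s) * kap s' x) (mu n) :=
    (hint1.const_mul _).add (hint2.const_mul _)
  have hint : Integrable (fun x : SUGroup n => M * T ^ k * (|C₀| + 1) *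
      (Real.sqrt s' / 2 * (kap s' x * (ch x ^ 2 - 1)) +
        (1 / (2 * Real.sqrt s') + 1 / Real.sqrt s) * kap s' x)) (mu n) := hint3.const_mul _
  rw [← ofReal_integral_eq_lintegral_ofReal hint (Eventually.of_forall fun x => by
    have h5 := one_le_ch x
    have h6 := kap_nonneg s' x
    have h7 : 0 ≤ ch x ^ 2 - 1 := by nlinarith
    positivity)]
  refine ENNReal.ofReal_le_ofReal ?_
  rw [integral_const_mul, integral_add (hint1.const_mul _) (hint2.const_mul _), integral_const_mul,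
    integral_const_mul, hmom, integral_kap (by omega)]
  have hs1 : (2 * n + 2 : ℝ) ≤ s' := by exact_mod_cast hs'
  have hn0 : (0 : ℝ) ≤ n := Nat.cast_nonneg _
  have h8 : (n : ℝ) / (s' - 1 - n) ≤ (2 * n + 1) / s' := by
    rw [div_le_div_iff₀ (by linarith) (by linarith)]
    nlinarith
  have h9 : Real.sqrt s' / 2 * ((n : ℝ) / (s' - 1 - n)) ≤ (2 * n + 1) / (2 * Real.sqrt s') := by
    calc Real.sqrt s' / 2 * ((n : ℝ) / (s' - 1 - n)) ≤ Real.sqrt s' / 2 * ((2 * n + 1) / s') := by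
          gcongr
      _ = (2 * n + 1) / (2 * Real.sqrt s') := by
          rw [div_mul_div_comm, div_eq_div_iff (by positivity) (by positivity)]
          linear_combination (2 * (2 * (n : ℝ) + 1)) * hqq
  have h10 : Real.sqrt s' / 2 * ((n : ℝ) / (s' - 1 - n)) +
      (1 / (2 * Real.sqrt s') + 1 / Real.sqrt s) * 1 ≤
      (n + 1) * (1 / Real.sqrt s' + 1 / Real.sqrt s) := by
    have e1 : (2 * (n : ℝ) + 1) / (2 * Real.sqrt s') + 1 / (2 * Real.sqrt s') =
        (n + 1) * (1 / Real.sqrt s') := by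
      field_simp
      ring
    have h11 : 1 / Real.sqrt s ≤ (n + 1) * (1 / Real.sqrt s) := by
      have : 0 ≤ 1 / Real.sqrt s := by positivity
      nlinarith
    linarith
  calc M * T ^ k * (|C₀| + 1) * (Real.sqrt s' / 2 * ((n : ℝ) / (s' - 1 - n)) +
      (1 / (2 * Real.sqrt s') + 1 / Real.sqrt s) * 1)
      ≤ M * T ^ k * (|C₀| + 1) * ((n + 1) * (1 / Real.sqrt s' + 1 / Real.sqrt s)) :=
        mul_le_mul_of_nonneg_left h10 hA
    _ = _ := by ring

/-- the change of variables -/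
private theorem shift_of {δ : Bool → Bool → SUGroup n → SUGroup n → ℝ} (hδ : Psm Γ δ) (b : Bool)
    {T : ℝ} (hT : 1 ≤ T) {s : ℕ} (hs : 2 * n + 2 ≤ s)
    (a : SUGroup n) {β : ℝ} (hβ0 : 0 ≤ β) (hβ1 : β ≤ 1 / 2)
    (ha : (2 * (n + 1)) ^ 2 * (4 * T) ^ 2 * ‖a.toMatrix - 1‖ ≤ β) :
    ∫⁻ p : SUGroup n × SUGroup n, ib T p.1 * ENNReal.ofReal (kap (2 * s) p.2) * ib 2 p.2 *
      Dd δ b (p.1 * p.2) (a * p.1) ∂((mu n).prod (mu n)) ≤
    ENNReal.ofReal (Real.exp (2 * n + 16 * s * β ^ 2)) *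
      ∫⁻ p : SUGroup n × SUGroup n, ib (4 * T) p.1 * ENNReal.ofReal (kap s p.2) *
      Dd δ b p.1 (p.1 * p.2) ∂((mu n).prod (mu n)) := by
  have hkm : ∀ s, Measurable (fun x : SUGroup n => ENNReal.ofReal (kap s x)) := fun s =>
    (continuous_kap s).measurable.ennreal_ofReal
  have hmeas1 : AEMeasurable (fun p : SUGroup n × SUGroup n => ib T p.1 *
      ENNReal.ofReal (kap (2 * s) p.2) * ib 2 p.2 * Dd δ b (p.1 * p.2) (a * p.1))
      ((mu n).prod (mu n)) := by
    refine AEMeasurable.mul ?_ (meas_Dd hδ b (measurable_fst.mul measurable_snd)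
      (measurable_fst.const_mul a)).aemeasurable
    exact ((((measurable_ib T).comp measurable_fst).mul ((hkm _).comp measurable_snd)).mul
      ((measurable_ib 2).comp measurable_snd)).aemeasurable
  have hmeas3 : AEMeasurable (fun p : SUGroup n × SUGroup n => ib (4 * T) p.1 *
      ENNReal.ofReal (kap s p.2) * Dd δ b p.1 (p.1 * p.2)) ((mu n).prod (mu n)) := by
    refine AEMeasurable.mul ?_ (meas_Dd hδ b measurable_fst
      (measurable_fst.mul measurable_snd)).aemeasurable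
    exact (((measurable_ib _).comp measurable_fst).mul ((hkm _).comp measurable_snd)).aemeasurable
  have hdiv : Measurable fun p : SUGroup n × SUGroup n => p.1⁻¹ * p.2 := by fun_prop
  have hmeas2 : AEMeasurable (fun p : SUGroup n × SUGroup n => ib T p.1 *
      ENNReal.ofReal (kap (2 * s) (p.1⁻¹ * p.2)) * ib 2 (p.1⁻¹ * p.2) * Dd δ b p.2 (a * p.1))
      ((mu n).prod (mu n)) := by
    refine AEMeasurable.mul ?_ (meas_Dd hδ b measurable_snd
      (measurable_fst.const_mul a)).aemeasurable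
    exact ((((measurable_ib T).comp measurable_fst).mul ((hkm _).comp hdiv)).mul
      ((measurable_ib 2).comp hdiv)).aemeasurable
  calc ∫⁻ p : SUGroup n × SUGroup n, ib T p.1 * ENNReal.ofReal (kap (2 * s) p.2) * ib 2 p.2 *
        Dd δ b (p.1 * p.2) (a * p.1) ∂((mu n).prod (mu n))
      = ∫⁻ g, ∫⁻ x, ib T g * ENNReal.ofReal (kap (2 * s) x) * ib 2 x *
        Dd δ b (g * x) (a * g) ∂(mu n) ∂(mu n) := lintegral_prod _ hmeas1
    _ = ∫⁻ g, ∫⁻ h, ib T g * ENNReal.ofReal (kap (2 * s) (g⁻¹ * h)) * ib 2 (g⁻¹ * h) *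
        Dd δ b h (a * g) ∂(mu n) ∂(mu n) := by
        refine lintegral_congr fun g => ?_
        rw [← lintegral_mul_left_eq_self (μ := mu n) (fun h => ib T g *
          ENNReal.ofReal (kap (2 * s) (g⁻¹ * h)) * ib 2 (g⁻¹ * h) * Dd δ b h (a * g)) g]
        refine lintegral_congr fun x => ?_
        rw [inv_mul_cancel_left]
    _ = ∫⁻ h, ∫⁻ g, ib T g * ENNReal.ofReal (kap (2 * s) (g⁻¹ * h)) * ib 2 (g⁻¹ * h) *
        Dd δ b h (a * g) ∂(mu n) ∂(mu n) := lintegral_lintegral_swap hmeas2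
    _ = ∫⁻ h, ∫⁻ y, ib T (a⁻¹ * h * y) * ENNReal.ofReal (kap (2 * s) (y⁻¹ * (h⁻¹ * a * h))) *
        ib 2 (y⁻¹ * (h⁻¹ * a * h)) * Dd δ b h (h * y) ∂(mu n) ∂(mu n) := by
        refine lintegral_congr fun h => ?_
        rw [← lintegral_mul_left_eq_self (μ := mu n) (fun g => ib T g *
          ENNReal.ofReal (kap (2 * s) (g⁻¹ * h)) * ib 2 (g⁻¹ * h) * Dd δ b h (a * g)) (a⁻¹ * h)]
        refine lintegral_congr fun y => ?_
        have e1 : (a⁻¹ * h * y)⁻¹ * h = y⁻¹ * (h⁻¹ * a * h) := by group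
        have e2 : a * (a⁻¹ * h * y) = h * y := by group
        rw [e1, e2]
    _ ≤ ∫⁻ h, ∫⁻ y, ENNReal.ofReal (Real.exp (2 * n + 16 * s * β ^ 2)) * (ib (4 * T) h *
        ENNReal.ofReal (kap s y) * Dd δ b h (h * y)) ∂(mu n) ∂(mu n) := by
        refine lintegral_mono fun h => lintegral_mono fun y => ?_
        simp only
        by_cases h1 : ch (a⁻¹ * h * y) ≤ T
        · by_cases h2 : ch (y⁻¹ * (h⁻¹ * a * h)) ≤ 2
          · have h3 : ch h ≤ 4 * T := by
              have e1 : h = (a⁻¹ * h * y) * (y⁻¹ * (h⁻¹ * a * h)) := by group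
              have h4 := ch_mul_le' (a⁻¹ * h * y) (y⁻¹ * (h⁻¹ * a * h))
              rw [← e1] at h4
              have h5 := ch_pos (a⁻¹ * h * y)
              have h6 := ch_pos (y⁻¹ * (h⁻¹ * a * h))
              refine h4.trans ?_
              calc 2 * ch (a⁻¹ * h * y) * ch (y⁻¹ * (h⁻¹ * a * h)) ≤ 2 * T * 2 := by gcongr
                _ = 4 * T := by ring
            have hb : ch (h⁻¹ * a * h) ^ 2 - 1 ≤ β ^ 2 := by
              refine (lp_ch_sq _).trans (pow_le_pow_left₀ (norm_nonneg _) ?_ 2)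
              refine (lp_conj h a).trans (le_trans ?_ ha)
              have h7 := ch_pos h
              gcongr
            have hk := lp_kap (n := n) (s := s) (by omega) hβ0 hβ1 hb y
            have e3 : ib (4 * T) h = 1 := by unfold ib; rw [if_pos h3]
            rw [e3, one_mul]
            calc ib T (a⁻¹ * h * y) * ENNReal.ofReal (kap (2 * s) (y⁻¹ * (h⁻¹ * a * h))) *
                  ib 2 (y⁻¹ * (h⁻¹ * a * h)) * Dd δ b h (h * y)
                ≤ 1 * ENNReal.ofReal (Real.exp (2 * n + 16 * s * β ^ 2) * kap s y) * 1 *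
                  Dd δ b h (h * y) := by
                  gcongr
                  · exact ib_le_one _ _
                  · exact ib_le_one _ _
              _ = _ := by
                  rw [ENNReal.ofReal_mul (Real.exp_pos _).le]; ring
          · have e4 : ib 2 (y⁻¹ * (h⁻¹ * a * h)) = 0 := by unfold ib; rw [if_neg h2]
            rw [e4]; simp
        · have e5 : ib T (a⁻¹ * h * y) = 0 := by unfold ib; rw [if_neg h1]
          rw [e5]; simp
    _ = ENNReal.ofReal (Real.exp (2 * n + 16 * s * β ^ 2)) * ∫⁻ h, ∫⁻ y, (ib (4 * T) h *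
        ENNReal.ofReal (kap s y) * Dd δ b h (h * y)) ∂(mu n) ∂(mu n) := by
        rw [← lintegral_const_mul' _ _ ENNReal.ofReal_ne_top]
        refine lintegral_congr fun h => ?_
        rw [lintegral_const_mul' _ _ ENNReal.ofReal_ne_top]
    _ = _ := by rw [lintegral_prod _ hmeas3]

/-- One step, with explicit constants. -/
private theorem small_dd {δ : Bool → Bool → SUGroup n → SUGroup n → ℝ} (hδ : Psm Γ δ) (b : Bool)
    {T : ℝ} (hT : 1 ≤ T) {M₁ M₂ ε : ℝ} (hM₁0 : 0 ≤ M₁) (hM₂0 : 0 ≤ M₂) (hε : 0 ≤ ε)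
    (hM₁ : ∀ s : ℕ, 2 * n + 2 ≤ s → ∫⁻ p : SUGroup n × SUGroup n,
      ib T p.1 * ENNReal.ofReal (kap s p.2) * Dd δ b p.1 (p.1 * p.2)
        ∂((mu n).prod (mu n)) ≤ ENNReal.ofReal (M₁ * (1 / Real.sqrt s + ε)))
    (hM₂ : ∀ s : ℕ, 2 * n + 2 ≤ s → ∫⁻ p : SUGroup n × SUGroup n,
      ib (4 * T) p.1 * ENNReal.ofReal (kap s p.2) * Dd δ b p.1 (p.1 * p.2)
        ∂((mu n).prod (mu n)) ≤ ENNReal.ofReal (M₂ * (1 / Real.sqrt s + ε)))
    {c : ℝ} (hc : c = (2 * (n + 1)) ^ 2 * (4 * T) ^ 2) {B : ℝ}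
    (hB : B = Real.exp (2 * n + 16 * (2 * n + 4))) (a : SUGroup n) {r : ℝ} (hr0 : 0 < r)
    (har : ‖a.toMatrix - 1‖ ≤ r) (hcr : c * r ≤ 1 / 2) :
    ∫⁻ g, ib T g * Dd δ b g (a * g) ∂(mu n) ≤
      ENNReal.ofReal (2 * (M₁ + B * M₂) * (c * r + ε)) := by
  have hc0 : 0 < c := by rw [hc]; positivity
  have hB0 : 0 ≤ B := by rw [hB]; exact (Real.exp_pos _).le
  obtain ⟨q, hq⟩ : ∃ q : ℝ, q = c * r := ⟨_, rfl⟩
  have hq0 : 0 < q := by rw [hq]; positivity
  rw [← hq] at hcr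
  rw [← hq]
  have hq1 : q ≤ 1 := by linarith
  obtain ⟨s, hs⟩ : ∃ s : ℕ, s = ⌈1 / q ^ 2⌉₊ + (2 * n + 2) := ⟨_, rfl⟩
  have hs1 : 2 * n + 2 ≤ s := by omega
  have hr2 : 0 < q ^ 2 := by positivity
  have hs2 : 1 / q ^ 2 ≤ s := by
    rw [hs]; push_cast
    have := Nat.le_ceil (1 / q ^ 2)
    have h0 : (0 : ℝ) ≤ 2 * n + 2 := by positivity
    linarith
  have hs3 : (s : ℝ) ≤ 1 / q ^ 2 + (2 * n + 3) := by
    rw [hs]; push_cast
    have := Nat.ceil_lt_add_one (show 0 ≤ 1 / q ^ 2 by positivity)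
    linarith
  have hs0 : (0 : ℝ) < s := by
    have : 0 < s := by omega
    exact_mod_cast this
  have hsr : (s : ℝ) * q ^ 2 ≤ 2 * n + 4 := by
    have h1 := mul_le_mul_of_nonneg_right hs3 hr2.le
    rw [add_mul, one_div, inv_mul_cancel₀ hr2.ne'] at h1
    have h2 : (2 * n + 3 : ℝ) * q ^ 2 ≤ (2 * n + 3) * 1 := by
      refine mul_le_mul_of_nonneg_left ?_ (by positivity)
      nlinarith
    linarith
  have hsi : 1 / Real.sqrt s ≤ q := by
    rw [div_le_iff₀ (Real.sqrt_pos.2 hs0)]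
    rw [div_le_iff₀ hr2] at hs2
    have h1 : (1 : ℝ) ≤ (q * Real.sqrt s) ^ 2 := by
      rw [mul_pow, Real.sq_sqrt hs0.le]
      linarith
    have h2 : 0 ≤ q * Real.sqrt s := by positivity
    nlinarith
  have hsi2 : 1 / Real.sqrt ((2 * s : ℕ) : ℝ) ≤ q := by
    refine le_trans ?_ hsi
    refine one_div_le_one_div_of_le (Real.sqrt_pos.2 hs0) (Real.sqrt_le_sqrt ?_)
    push_cast
    linarith
  -- the shift
  have hsh := shift_of hδ b hT hs1 a (β := q) hq0.le hcr (by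
    rw [← hc, hq]; exact mul_le_mul_of_nonneg_left har hc0.le)
  have hexp : Real.exp (2 * n + 16 * s * q ^ 2) ≤ B := by
    rw [hB]
    refine Real.exp_le_exp.2 ?_
    have e1 : 16 * (s : ℝ) * q ^ 2 = 16 * (s * q ^ 2) := by ring
    rw [e1]
    linarith
  have hkm : ∀ s, Measurable (fun x : SUGroup n => ENNReal.ofReal (kap s x)) := fun s =>
    (continuous_kap s).measurable.ennreal_ofReal
  obtain ⟨I, hI⟩ : ∃ I : ℝ≥0∞, I = ∫⁻ g, ib T g * Dd δ b g (a * g) ∂(mu n) := ⟨_, rfl⟩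
  have hmI : AEMeasurable (fun g => ib T g * Dd δ b g (a * g)) (mu n) :=
    ((measurable_ib T).mul (meas_Dd hδ b measurable_id (measurable_const_mul a))).aemeasurable
  have hm1 : AEMeasurable (fun p : SUGroup n × SUGroup n => ib T p.1 *
      ENNReal.ofReal (kap (2 * s) p.2) * Dd δ b p.1 (p.1 * p.2)) ((mu n).prod (mu n)) := by
    refine AEMeasurable.mul ?_ (meas_Dd hδ b measurable_fst
      (measurable_fst.mul measurable_snd)).aemeasurable
    exact (((measurable_ib _).comp measurable_fst).mul ((hkm _).comp measurable_snd)).aemeasurable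
  have h1 : I * ∫⁻ x : SUGroup n, ENNReal.ofReal (kap (2 * s) x) * ib 2 x ∂(mu n) =
      ∫⁻ p : SUGroup n × SUGroup n, (ib T p.1 * Dd δ b p.1 (a * p.1)) *
        (ENNReal.ofReal (kap (2 * s) p.2) * ib 2 p.2) ∂((mu n).prod (mu n)) := by
    rw [hI]
    exact (lintegral_prod_mul (g := fun x : SUGroup n => ENNReal.ofReal (kap (2 * s) x) * ib 2 x)
      hmI ((hkm _).mul (measurable_ib 2)).aemeasurable).symm
  have h2 : ∫⁻ p : SUGroup n × SUGroup n, (ib T p.1 * Dd δ b p.1 (a * p.1)) *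
        (ENNReal.ofReal (kap (2 * s) p.2) * ib 2 p.2) ∂((mu n).prod (mu n)) ≤
      (∫⁻ p : SUGroup n × SUGroup n, ib T p.1 * ENNReal.ofReal (kap (2 * s) p.2) *
        Dd δ b p.1 (p.1 * p.2) ∂((mu n).prod (mu n))) +
      (∫⁻ p : SUGroup n × SUGroup n, ib T p.1 * ENNReal.ofReal (kap (2 * s) p.2) * ib 2 p.2 *
        Dd δ b (p.1 * p.2) (a * p.1) ∂((mu n).prod (mu n))) := by
    rw [← lintegral_add_left' hm1]
    refine lintegral_mono fun p => ?_
    simp only
    have h3 : Dd δ b p.1 (a * p.1) ≤ Dd δ b p.1 (p.1 * p.2) + Dd δ b (p.1 * p.2) (a * p.1) := by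
      unfold Dd
      rw [← ENNReal.ofReal_add (hδ.nonneg _ _ _ _) (hδ.nonneg _ _ _ _)]
      exact ENNReal.ofReal_le_ofReal (hδ.tri b b b _ _ _)
    calc (ib T p.1 * Dd δ b p.1 (a * p.1)) * (ENNReal.ofReal (kap (2 * s) p.2) * ib 2 p.2)
        ≤ (ib T p.1 * (Dd δ b p.1 (p.1 * p.2) + Dd δ b (p.1 * p.2) (a * p.1))) *
          (ENNReal.ofReal (kap (2 * s) p.2) * ib 2 p.2) := by gcongr
      _ = (ib T p.1 * ENNReal.ofReal (kap (2 * s) p.2) * Dd δ b p.1 (p.1 * p.2) * ib 2 p.2) +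
          (ib T p.1 * ENNReal.ofReal (kap (2 * s) p.2) * ib 2 p.2 *
            Dd δ b (p.1 * p.2) (a * p.1)) := by ring
      _ ≤ (ib T p.1 * ENNReal.ofReal (kap (2 * s) p.2) * Dd δ b p.1 (p.1 * p.2) * 1) +
          (ib T p.1 * ENNReal.ofReal (kap (2 * s) p.2) * ib 2 p.2 *
            Dd δ b (p.1 * p.2) (a * p.1)) := by
          gcongr
          exact ib_le_one _ _
      _ = _ := by rw [mul_one]
  have h3 : I * ENNReal.ofReal (1 / 2) ≤ ENNReal.ofReal (M₁ * (q + ε)) +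
      ENNReal.ofReal (B * (M₂ * (q + ε))) := by
    calc I * ENNReal.ofReal (1 / 2)
        ≤ I * ∫⁻ x : SUGroup n, ENNReal.ofReal (kap (2 * s) x) * ib 2 x ∂(mu n) := by
          gcongr; exact half_mass (by omega)
      _ ≤ _ := h1.le.trans h2
      _ ≤ ENNReal.ofReal (M₁ * (q + ε)) + ENNReal.ofReal (B * (M₂ * (q + ε))) := by
          gcongr
          · refine (hM₁ (2 * s) (by omega)).trans (ENNReal.ofReal_le_ofReal ?_)
            exact mul_le_mul_of_nonneg_left (by linarith) hM₁0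
          · refine hsh.trans ?_
            rw [ENNReal.ofReal_mul hB0]
            gcongr
            refine (hM₂ s hs1).trans (ENNReal.ofReal_le_ofReal ?_)
            exact mul_le_mul_of_nonneg_left (by linarith) hM₂0
  have h4 : I = I * ENNReal.ofReal (1 / 2) * ENNReal.ofReal 2 := by
    rw [mul_assoc, ← ENNReal.ofReal_mul (by norm_num)]
    norm_num
  rw [← hI, h4]
  calc I * ENNReal.ofReal (1 / 2) * ENNReal.ofReal 2
      ≤ (ENNReal.ofReal (M₁ * (q + ε)) + ENNReal.ofReal (B * (M₂ * (q + ε)))) *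
          ENNReal.ofReal 2 := by
        gcongr
    _ = ENNReal.ofReal (2 * (M₁ + B * M₂) * (q + ε)) := by
        rw [← ENNReal.ofReal_add (by positivity) (by positivity),
          ← ENNReal.ofReal_mul (by positivity)]
        congr 1
        ring

/-- The local estimate, for small `a` (B9 at `g = 1`): `δ` is an invariant pseudo metric with
displacement `≤ C₀ (log wt x + 1 / √s)`. PROOF: as `NU.small_of` (LipN1) with the first power of
`δ` instead of the square: `δ (g, a g) ≤ ∫ kap (2 s') x 1_{ch x ≤ 2} (δ (g, g x) + δ (g x, a g)) / mass`,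
`s'` the integer part of `(c r)^-2` or so; `Lat.ball_poly` and `LI (δ (·, · x)) ≤ √(LI 1) dsp x`; second
term: `a g = g w`, `w = g⁻¹ a g`, substitute `x = w z⁻¹`, `lp_kap`, and integrate in `h = a g`. -/
theorem lip_small (hn : 1 ≤ n) (hχ : Lat Γ χ) (C₀ : ℝ) : ∃ (M : ℝ) (k : ℕ), 0 < M ∧
    ∀ (s : ℕ) (δ : Bool → Bool → SUGroup n → SUGroup n → ℝ), 1 ≤ s → Psm Γ δ → Fd χ δ →
      (∀ (b : Bool) x, dsp χ δ b b x ≤ C₀ * (Real.log (wt x) + 1 / Real.sqrt s)) →
      ∀ (b : Bool) (T : ℝ), 1 ≤ T → ∀ (a : SUGroup n) (r : ℝ), 0 < r → ‖a.toMatrix - 1‖ ≤ r →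
        (2 * (n + 1)) ^ 2 * (4 * T) ^ 2 * r ≤ 1 / 2 →
          ∫⁻ g, ib T g * ENNReal.ofReal (δ b b g (a * g)) ∂(mu n) ≤
            ENNReal.ofReal (M * T ^ k * (r + 1 / Real.sqrt s)) := by
  obtain ⟨M, k, hM0, hM⟩ := kap_of (n := n) hχ C₀
  obtain ⟨B, hB⟩ : ∃ B : ℝ, B = Real.exp (2 * n + 16 * (2 * n + 4)) := ⟨_, rfl⟩
  have hB0 : 0 < B := by rw [hB]; exact Real.exp_pos _
  have hn0 : (0 : ℝ) ≤ n := Nat.cast_nonneg _
  refine ⟨2 * (M + B * (M * 4 ^ k)) * ((2 * (n + 1)) ^ 2 * 4 ^ 2), k + 2, by positivity,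
    fun s δ hs hδ hF hd b T hT a r hr0 har hcr => ?_⟩
  have hT0 : 0 < T := by linarith
  have hε : 0 ≤ 1 / Real.sqrt s := by positivity
  refine (small_dd hδ b hT (M₁ := M * T ^ k) (M₂ := M * (4 * T) ^ k) (ε := 1 / Real.sqrt s)
    (by positivity) (by positivity) hε (fun s' hs' => hM s δ hs hδ hF hd b T hT s' hs')
    (fun s' hs' => hM s δ hs hδ hF hd b (4 * T) (by linarith) s' hs') rfl hB a hr0 har hcr).trans
    (ENNReal.ofReal_le_ofReal ?_)
  rw [mul_pow 4 T k, pow_add T k 2, mul_pow 4 T 2]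
  obtain ⟨ε, hεd⟩ : ∃ ε : ℝ, ε = 1 / Real.sqrt s := ⟨_, rfl⟩
  rw [← hεd] at hε ⊢
  have h1 : ε ≤ (2 * (n + 1)) ^ 2 * (4 ^ 2 * T ^ 2) * ε := by
    have h2 : (1 : ℝ) ≤ (2 * (n + 1)) ^ 2 * (4 ^ 2 * T ^ 2) := by
      have h3 : (1 : ℝ) ≤ (2 * (n + 1)) ^ 2 := one_le_pow₀ (by linarith)
      have h4 : (1 : ℝ) ≤ T ^ 2 := one_le_pow₀ hT
      nlinarith
    exact le_mul_of_one_le_left hε h2
  have h5 : 0 ≤ 2 * (M * T ^ k + B * (M * (4 ^ k * T ^ k))) := by positivity
  calc 2 * (M * T ^ k + B * (M * (4 ^ k * T ^ k))) * ((2 * (n + 1)) ^ 2 * (4 ^ 2 * T ^ 2) * r + ε)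
      ≤ 2 * (M * T ^ k + B * (M * (4 ^ k * T ^ k))) *
        ((2 * (n + 1)) ^ 2 * (4 ^ 2 * T ^ 2) * r + (2 * (n + 1)) ^ 2 * (4 ^ 2 * T ^ 2) * ε) := by
        gcongr
    _ = _ := by ring

/-- The local estimate for all small translations and all radii. -/
private theorem lip_poly (hn : 1 ≤ n) (hχ : Lat Γ χ) (C₀ C₁ : ℝ) : ∃ (M : ℝ) (k : ℕ), 0 < M ∧
    ∀ (s : ℕ) (δ : Bool → Bool → SUGroup n → SUGroup n → ℝ), 1 ≤ s → Psm Γ δ → Fd χ δ →
      (∀ (b : Bool) x, dsp χ δ b b x ≤ C₀ * (Real.log (wt x) + 1 / Real.sqrt s)) →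
      (∀ (b : Bool) g h, δ b b g h ≤ C₁ * (1 + Real.log (wt g) + Real.log (wt h))) →
      ∀ (b : Bool) (T : ℝ), 1 ≤ T → ∀ (a : SUGroup n), ‖a.toMatrix - 1‖ ≤ 1 →
        ∫⁻ g, ib T g * Dd δ b g (a * g) ∂(mu n) ≤
          ENNReal.ofReal (M * T ^ k * (‖a.toMatrix - 1‖ + 1 / Real.sqrt s)) := by
  obtain ⟨M, k, hM0, hM⟩ := lip_small (n := n) hn hχ C₀
  obtain ⟨V, hV0, hV⟩ := lint_ib_poly n
  obtain ⟨c₀, hc₀⟩ : ∃ c₀ : ℝ, c₀ = 2 * ((2 * (n + 1)) ^ 2 * 4 ^ 2) := ⟨_, rfl⟩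
  have hc₀0 : 0 < c₀ := by rw [hc₀]; positivity
  obtain ⟨A, hA⟩ : ∃ A : ℝ, A = V * (11 * (|C₁| + 1)) * c₀ := ⟨_, rfl⟩
  have hA0 : 0 < A := by rw [hA]; positivity
  obtain ⟨K, hK⟩ : ∃ K : ℕ, K = 2 * (n + 1) + 3 := ⟨_, rfl⟩
  refine ⟨M + A, k + K, by positivity, fun s δ hs hδ hF hd hg b T hT a ha => ?_⟩
  have hT0 : 0 < T := by linarith
  obtain ⟨r, hrd⟩ : ∃ r : ℝ, r = ‖a.toMatrix - 1‖ := ⟨_, rfl⟩
  have hr0 : 0 ≤ r := by rw [hrd]; exact norm_nonneg _
  have har : ‖a.toMatrix - 1‖ ≤ r := hrd.ge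
  rw [← hrd] at ha ⊢
  have hε : 0 ≤ 1 / Real.sqrt s := by positivity
  have hk1 : T ^ k ≤ T ^ (k + K) := pow_le_pow_right₀ hT (by omega)
  have hk2 : T ^ K ≤ T ^ (k + K) := pow_le_pow_right₀ hT (by omega)
  rcases hr0.eq_or_lt with hr | hr
  · have h1 : a.toMatrix - 1 = 0 := by
      rw [← norm_le_zero_iff, hr]; exact har
    have h2 : a = 1 := toMatrix_injective ((sub_eq_zero.1 h1).trans toMatrix_one.symm)
    have h3 : ∫⁻ g, ib T g * Dd δ b g (a * g) ∂(mu n) = 0 := by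
      rw [h2]
      unfold Dd
      simp only [one_mul, hδ.self, ENNReal.ofReal_zero, mul_zero, lintegral_zero]
    rw [h3]; exact zero_le
  by_cases hcr : (2 * (n + 1)) ^ 2 * (4 * T) ^ 2 * r ≤ 1 / 2
  · refine (hM s δ hs hδ hF hd b T hT a r hr har hcr).trans (ENNReal.ofReal_le_ofReal ?_)
    have h0 : 0 ≤ r + 1 / Real.sqrt s := by positivity
    gcongr
    linarith
  · push Not at hcr
    have h1 : ∀ g, ib T g * Dd δ b g (a * g) ≤
        ib T g * ENNReal.ofReal ((|C₁| + 1) * (11 * T)) := by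
      intro g
      by_cases hgT : ch g ≤ T
      · refine mul_le_mul_right ?_ _
        unfold Dd
        refine ENNReal.ofReal_le_ofReal ?_
        have h2 := lp_ch_four (har.trans ha) g
        have h3 := wt_le g
        have h4 := wt_le (a * g)
        have h5 := Real.log_le_self (show 0 ≤ wt g by linarith [one_le_wt g])
        have h6 := Real.log_le_self (show 0 ≤ wt (a * g) by linarith [one_le_wt (a * g)])
        have h7 := Real.log_nonneg (one_le_wt g)
        have h8 := Real.log_nonneg (one_le_wt (a * g))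
        have h9 : 1 + Real.log (wt g) + Real.log (wt (a * g)) ≤ 11 * T := by linarith
        calc δ b b g (a * g) ≤ C₁ * (1 + Real.log (wt g) + Real.log (wt (a * g))) := hg b g _
          _ ≤ (|C₁| + 1) * (1 + Real.log (wt g) + Real.log (wt (a * g))) := by
              refine mul_le_mul_of_nonneg_right ?_ (by linarith)
              linarith [le_abs_self C₁]
          _ ≤ (|C₁| + 1) * (11 * T) := mul_le_mul_of_nonneg_left h9 (by positivity)
      · have : ib T g = 0 := by unfold ib; rw [if_neg hgT]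
        rw [this]; simp
    calc ∫⁻ g, ib T g * Dd δ b g (a * g) ∂(mu n)
        ≤ ∫⁻ g, ib T g * ENNReal.ofReal ((|C₁| + 1) * (11 * T)) ∂(mu n) := lintegral_mono h1
      _ = (∫⁻ g, ib T g ∂(mu n)) * ENNReal.ofReal ((|C₁| + 1) * (11 * T)) :=
          lintegral_mul_const' _ _ ENNReal.ofReal_ne_top
      _ ≤ ENNReal.ofReal (V * T ^ (2 * (n + 1))) * ENNReal.ofReal ((|C₁| + 1) * (11 * T)) := by
          gcongr
          exact hV T hT
      _ = ENNReal.ofReal (V * T ^ (2 * (n + 1)) * ((|C₁| + 1) * (11 * T))) := by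
          rw [← ENNReal.ofReal_mul (by positivity)]
      _ ≤ _ := by
          refine ENNReal.ofReal_le_ofReal ?_
          have h5 : 1 ≤ c₀ * T ^ 2 * r := by
            rw [hc₀]
            rw [mul_pow] at hcr
            linarith
          have h6 : 0 ≤ V * T ^ (2 * (n + 1)) * ((|C₁| + 1) * (11 * T)) := by positivity
          calc V * T ^ (2 * (n + 1)) * ((|C₁| + 1) * (11 * T))
              ≤ V * T ^ (2 * (n + 1)) * ((|C₁| + 1) * (11 * T)) * (c₀ * T ^ 2 * r) :=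
                le_mul_of_one_le_right h6 h5
            _ = A * T ^ K * r := by
                rw [hA, hK, pow_add]
                ring
            _ ≤ (M + A) * T ^ (k + K) * (r + 1 / Real.sqrt s) := by
                gcongr
                · linarith
                · linarith

/-- The weighted estimate. PROOF: as `NU.LimN.weighted`: shells `2^j < ch g ≤ 2^(j+1) = T`
(`NU.inv_pow_le_tsum`); if `(2 (n+1))² (4T)² ‖a - 1‖ ≤ 1/2` use `lip_small`, else
`δ ≤ C (1 + log T) ≤ C' T ^ 3 ‖a - 1‖` and the volume of the ball. -/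
theorem lip_weighted (hn : 1 ≤ n) (hχ : Lat Γ χ) (C₀ C₁ : ℝ) : ∃ t₁ : ℕ, ∀ t, t₁ ≤ t →
    ∃ M : ℝ, 0 < M ∧ ∀ (s : ℕ) (δ : Bool → Bool → SUGroup n → SUGroup n → ℝ), 1 ≤ s → Psm Γ δ →
      Fd χ δ → (∀ (b : Bool) x, dsp χ δ b b x ≤ C₀ * (Real.log (wt x) + 1 / Real.sqrt s)) →
      (∀ (b : Bool) g h, δ b b g h ≤ C₁ * (1 + Real.log (wt g) + Real.log (wt h))) →
      ∀ (b : Bool) (a : SUGroup n), ‖a.toMatrix - 1‖ ≤ 1 →
        ∫⁻ g, ENNReal.ofReal ((ch g ^ (2 * t))⁻¹) * ENNReal.ofReal (δ b b g (a * g)) ∂(mu n) ≤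
          ENNReal.ofReal (M * (‖a.toMatrix - 1‖ + 1 / Real.sqrt s)) := by
  obtain ⟨M, k, hM0, hM⟩ := lip_poly (n := n) hn hχ C₀ C₁
  refine ⟨k + 1, fun t ht => ⟨M * 2 ^ k * 2, by positivity, fun s δ hs hδ hF hd hg b a ha => ?_⟩⟩
  obtain ⟨ε, hεd⟩ : ∃ ε : ℝ, ε = ‖a.toMatrix - 1‖ + 1 / Real.sqrt s := ⟨_, rfl⟩
  have hε0 : 0 ≤ ε := by rw [hεd]; positivity
  calc ∫⁻ y, ENNReal.ofReal ((ch y ^ (2 * t))⁻¹) * ENNReal.ofReal (δ b b y (a * y)) ∂(mu n)
      ≤ ∫⁻ y, ∑' j : ℕ, ENNReal.ofReal (((2 : ℝ) ^ j) ^ (2 * t))⁻¹ *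
          (ib (2 ^ (j + 1)) y * Dd δ b y (a * y)) ∂(mu n) := by
        refine lintegral_mono fun y => ?_
        refine (mul_le_mul_left (inv_pow_le_tsum t y) _).trans (le_of_eq ?_)
        rw [← ENNReal.tsum_mul_right]
        refine tsum_congr fun j => ?_
        unfold Dd
        ring
    _ = ∑' j : ℕ, ∫⁻ y, ENNReal.ofReal (((2 : ℝ) ^ j) ^ (2 * t))⁻¹ *
          (ib (2 ^ (j + 1)) y * Dd δ b y (a * y)) ∂(mu n) := by
        refine lintegral_tsum fun j => ?_
        exact (((measurable_ib _).mul (meas_Dd hδ b measurable_id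
          (measurable_const_mul a))).const_mul _).aemeasurable
    _ ≤ ∑' j : ℕ, ENNReal.ofReal (M * 2 ^ k * ε) * ENNReal.ofReal (1 / 2) ^ j := by
        refine ENNReal.tsum_le_tsum fun j => ?_
        rw [lintegral_const_mul' _ _ ENNReal.ofReal_ne_top]
        have h1 := hM s δ hs hδ hF hd hg b (2 ^ (j + 1)) (one_le_pow₀ (by norm_num)) a ha
        calc ENNReal.ofReal (((2 : ℝ) ^ j) ^ (2 * t))⁻¹ *
              ∫⁻ y, ib (2 ^ (j + 1)) y * Dd δ b y (a * y) ∂(mu n)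
            ≤ ENNReal.ofReal (((2 : ℝ) ^ j) ^ (2 * t))⁻¹ *
              ENNReal.ofReal (M * (2 ^ (j + 1)) ^ k * (‖a.toMatrix - 1‖ + 1 / Real.sqrt s)) := by
              gcongr
          _ = ENNReal.ofReal ((((2 : ℝ) ^ j) ^ (2 * t))⁻¹ *
              (M * (2 ^ (j + 1)) ^ k * ε)) := by
              rw [← ENNReal.ofReal_mul (by positivity), hεd]
          _ ≤ ENNReal.ofReal (M * 2 ^ k * ε * (1 / 2) ^ j) := by
              refine ENNReal.ofReal_le_ofReal ?_
              have e1 : (((2 : ℝ) ^ j) ^ (2 * t))⁻¹ * (M * (2 ^ (j + 1)) ^ k * ε) =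
                  M * 2 ^ k * ε * ((((2 : ℝ) ^ j) ^ (2 * t))⁻¹ * (2 ^ j) ^ k) := by
                rw [pow_succ, mul_pow]
                ring
              rw [e1]
              refine mul_le_mul_of_nonneg_left ?_ (by positivity)
              have h2 : (1 : ℝ) ≤ 2 ^ j := one_le_pow₀ (by norm_num)
              rw [one_div, inv_pow, ← div_eq_inv_mul, div_le_iff₀ (by positivity),
                ← div_eq_inv_mul, le_div_iff₀ (by positivity), ← pow_succ]
              exact pow_le_pow_right₀ h2 (by omega)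
          _ = _ := by
              rw [ENNReal.ofReal_mul (by positivity), ENNReal.ofReal_pow (by norm_num)]
    _ = ENNReal.ofReal (M * 2 ^ k * ε) * ENNReal.ofReal 2 := by
        rw [ENNReal.tsum_mul_left, ENNReal.tsum_geometric]
        congr 1
        rw [← ENNReal.ofReal_one, ← ENNReal.ofReal_sub _ (by norm_num),
          ← ENNReal.ofReal_inv_of_pos (by norm_num)]
        norm_num
    _ = _ := by
        rw [← ENNReal.ofReal_mul (by positivity), hεd]
        congr 1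
        ring

end Pool.Agent.Lib.MP_5d4057_al.IN
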