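import Pool.Agent.Lib.MP_5d4057_al.IN.CenBF
import Pool.Agent.Lib.MP_5d4057_al.IN.LipS

/-! Part B of INT for all lattices (base map `F`, structure `Cor`): the left Lipschitz estimate (B9, B10). -/

namespace Pool.Agent.Lib.MP_5d4057_al.IN

open MeasureTheory Filter Topology Pool.Agent.Lib.MP_5d4057_al
open Pool.Agent.Lib.MP_5d4057_al.Hyb Pool.Agent.Lib.MP_5d4057_al.HM
open Pool.Agent.Lib.MP_5d4057_al.NU

open scoped ENNReal Matrix.Norms.L2Operator

variable {n : ℕ} {Γ : Subgroup (SUGroup n)} {χ : SUGroup n → ℝ} {Y : Type} [MetricSpace Y]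
variable {Φ : Y → Y → ℝ} {κ : ℝ} {lv : Y → ℝ} {y₀ : Y} {ρ : Γ →* Equiv.Perm Y}
variable {F : SUGroup n → Y} {L : ℝ} {S : Set (SUGroup n)} {s₀ : ℕ} {B : ℝ}


/-- **The left Lipschitz estimate** (B10). PROOF: `u g = dist (f g) (f (a g)) + dist (f' g) (f' (a g))`
is continuous, `K`-invariant, `≤ C ch ^ 2` (`PairF.growth`) and `u ≤ Q s u` (`Bs.jen2`). `lip_weighted`
bounds `Q t u 1`, `NU.Q_harn` gives `Q t u g ≤ wt g ^ (2 t) Q t u 1`, `NU.boot_fiveN` with `N' = t`
(and `Q_comm`, `Q_lap`) the result. -/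
theorem PairF.lip (hn : 1 ≤ n) (D : Dat ρ Φ κ lv y₀) (hF : BaseF ρ lv χ F L S s₀ B) {c : ℝ}
    (hc : 0 < c) : ∃ (s₁ N : ℕ) (C : ℝ), 0 < C ∧ ∀ s : ℕ, s₁ ≤ s → ∀ f f' : SUGroup n → Y,
      PairF ρ Φ lv F χ c s f f' → ∀ a g : SUGroup n, ‖a.toMatrix - 1‖ ≤ 1 →
        dist (f g) (f (a * g)) + dist (f' g) (f' (a * g)) ≤
          C * (‖a.toMatrix - 1‖ + 1 / Real.sqrt s) * ch g ^ (2 * N) := by
  obtain ⟨C₀, hC₀, hdisp⟩ := PairF.disp hn D hF hc
  obtain ⟨sb, C₁', -, hbd⟩ := PairF.growth hn D hF hc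
  obtain ⟨C₁, hC₁0, hC₁⟩ : ∃ C₁ : ℝ, 0 ≤ C₁ ∧ C₁' ≤ C₁ := ⟨|C₁'|, abs_nonneg _, le_abs_self _⟩
  obtain ⟨t₁, ht₁⟩ := lip_weighted hn hF.lat C₀ (2 * C₁)
  obtain ⟨A₁, hA₁⟩ := Q_comm n 1
  obtain ⟨A₂, hA₂⟩ := Q_lap n 1
  obtain ⟨A, hA⟩ : ∃ A, A = 2 * (2 * n + 2) + 4 * 1 + 2 + A₁ + A₂ := ⟨_, rfl⟩
  obtain ⟨t, ht⟩ : ∃ t, t = A + t₁ := ⟨_, rfl⟩
  obtain ⟨M, hM, hMw⟩ := ht₁ t (by omega)
  have hcs : 0 < cs n t := (Boot.csOK n).pos t (by omega)
  have hcf : 0 < Boot.cfive n t := Boot.cfive_pos n t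
  refine ⟨sb + A + 2 * (2 * n + 2) + 4 * t + 2 + n + 3, t,
    Boot.cfive n t * (4 ^ t * (2 * M / cs n t)), by positivity, ?_⟩
  intro s hs f f' hp a g ha
  obtain ⟨hf, hf'⟩ := hbd s (by omega) f f' hp
  replace hf := hf.mono hC₁
  replace hf' := hf'.mono hC₁
  obtain ⟨X, hX⟩ : ∃ X : ℝ, X = ‖a.toMatrix - 1‖ + 1 / Real.sqrt s := ⟨_, rfl⟩
  have hX0 : 0 ≤ X := by
    rw [hX]
    positivity
  rw [← hX]
  -- growth of the pseudo metric
  have hgrow : ∀ F : SUGroup n → Y, Lg C₁ y₀ F → ∀ g h : SUGroup n,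
      dist (F g) (F h) ≤ 2 * C₁ * (1 + Real.log (wt g) + Real.log (wt h)) := by
    intro F hF g h
    have h1 := dist_triangle_left (F g) (F h) y₀
    have h2 := hF g
    have h3 := hF h
    have h4 := Real.log_nonneg (one_le_wt g)
    have h5 := Real.log_nonneg (one_le_wt h)
    nlinarith [mul_nonneg hC₁0 h4, mul_nonneg hC₁0 h5]
  have hlogw : ∀ g : SUGroup n, Real.log (wt g) ≤ 2 * ch g - 1 := by
    intro g
    have h1 := one_le_wt g
    have h2 := Real.log_le_sub_one_of_pos (show 0 < wt g by linarith)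
    have h3 := wt_le g
    linarith
  have hGr : ∀ F : SUGroup n → Y, Continuous F → Lg C₁ y₀ F →
      Boot.Gr 1 (20 * C₁) fun g => dist (F g) (F (a * g)) := by
    intro F hFc hF
    refine ⟨hFc.dist (hFc.comp (continuous_const_mul a)), fun g => dist_nonneg, fun g => ?_⟩
    have h1 := hgrow F hF g (a * g)
    have h2 := hlogw g
    have h3 : Real.log (wt (a * g)) ≤ Real.log (wt a) + Real.log (wt g) := by
      have e1 := one_le_wt a
      have e2 := one_le_wt g
      have e3 := one_le_wt (a * g)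
      rw [← Real.log_mul (by linarith) (by linarith)]
      exact Real.log_le_log (by linarith) (wt_mul_le a g)
    have h4 := hlogw a
    have h5 := lp_ch_two ha
    have h6 := one_le_ch g
    have h7 : ch g ≤ ch g ^ (2 * 1) := by
      rw [mul_one]
      nlinarith
    have h8 : 1 + Real.log (wt g) + Real.log (wt (a * g)) ≤ 10 * ch g := by linarith
    calc dist (F g) (F (a * g)) ≤ 2 * C₁ * (10 * ch g) :=
          h1.trans (mul_le_mul_of_nonneg_left h8 (by positivity))
      _ = 20 * C₁ * ch g := by ring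
      _ ≤ 20 * C₁ * ch g ^ (2 * 1) := mul_le_mul_of_nonneg_left h7 (by positivity)
  obtain ⟨u₁, hu₁⟩ : ∃ u₁ : SUGroup n → ℝ, u₁ = fun g => dist (f g) (f (a * g)) := ⟨_, rfl⟩
  obtain ⟨u₂, hu₂⟩ : ∃ u₂ : SUGroup n → ℝ, u₂ = fun g => dist (f' g) (f' (a * g)) := ⟨_, rfl⟩
  have hG₁ : Boot.Gr 1 (20 * C₁) u₁ := by rw [hu₁]; exact hGr f hp.e1.cont hf
  have hG₂ : Boot.Gr 1 (20 * C₁) u₂ := by rw [hu₂]; exact hGr f' hp.e2.cont hf'
  obtain ⟨u, hu⟩ : ∃ u : SUGroup n → ℝ, u = fun g => u₁ g + u₂ g := ⟨_, rfl⟩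
  have hG : Boot.Gr 1 (40 * C₁) u := by
    rw [hu]
    refine ⟨hG₁.cont.add hG₂.cont, fun g => add_nonneg (hG₁.nonneg g) (hG₂.nonneg g), fun g => ?_⟩
    have h1 := hG₁.le g
    have h2 := hG₂.le g
    linarith
  have h40 : 0 ≤ 40 * C₁ := by positivity
  have h20 : 0 ≤ 20 * C₁ := by positivity
  have hAg : Ag 1 (40 * C₁) u := by
    refine ⟨hG.cont, fun g k hk => ?_, fun g => ?_⟩
    · rw [hu, hu₁, hu₂]
      simp only
      rw [← mul_assoc, hp.e1.kinv g k hk, hp.e1.kinv (a * g) k hk, hp.e2.kinv g k hk,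
        hp.e2.kinv (a * g) k hk]
    · rw [abs_of_nonneg (hG.nonneg g)]
      exact hG.le g
  -- the mean value inequality
  have hsub : ∀ g, u g ≤ Boot.Q s u g := by
    intro g
    have i1 := hG₁.integrable (Boot.csOK n) h20 (s := s) (by omega) g
    have i2 := hG₂.integrable (Boot.csOK n) h20 (s := s) (by omega) g
    have j1 := Bs.jen2 hp.e2.cont hf' hp.e2.cont hf' (s := s) (by omega) hp.b2 hp.b2 D.dj g (a * g)
    have j2 := Bs.jen2 hp.e1.cont hf hp.e1.cont hf (s := s) (by omega) hp.b1 hp.b1 D.dj g (a * g)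
    have e : Boot.Q s u g = (∫ x : SUGroup n, kap s x * u₂ (g * x) ∂(mu n)) +
        ∫ x : SUGroup n, kap s x * u₁ (g * x) ∂(mu n) := by
      unfold Boot.Q
      rw [← integral_add i2 i1]
      refine integral_congr_ae (Eventually.of_forall fun x => ?_)
      simp only [hu]
      ring
    have e1 : ∀ x, u₁ (g * x) = dist (f (g * x)) (f (a * g * x)) := fun x => by
      rw [hu₁, mul_assoc]
    have e2 : ∀ x, u₂ (g * x) = dist (f' (g * x)) (f' (a * g * x)) := fun x => by
      rw [hu₂, mul_assoc]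
    rw [e]
    simp only [e1, e2]
    have e3 : u g = dist (f g) (f (a * g)) + dist (f' g) (f' (a * g)) := by
      rw [hu, hu₁, hu₂]
    rw [e3]
    exact add_le_add j1 j2
  -- the bound at the base point
  have hbase : Boot.Q t u 1 ≤ 2 * M / cs n t * X := by
    have hw : ∀ b : Bool, ∫⁻ g, ENNReal.ofReal ((ch g ^ (2 * t))⁻¹) *
        ENNReal.ofReal (dl f f' b b g (a * g)) ∂(mu n) ≤ ENNReal.ofReal (M * X) := by
      intro b
      rw [hX]
      refine hMw s (dl f f') (by omega) (hp.psm D) (hp.fd hF)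
        (fun b x => hdisp s (by omega) f f' hp b b x) (fun b g h => ?_) b a ha
      cases b
      · exact hgrow f hf g h
      · exact hgrow f' hf' g h
    have h1 := hw false
    have h2 := hw true
    have e0 : Boot.Q t u 1 = (∫ x : SUGroup n, (ch x ^ (2 * t))⁻¹ * u x ∂(mu n)) / cs n t := by
      unfold Boot.Q
      rw [← integral_div]
      refine integral_congr_ae (Eventually.of_forall fun x => ?_)
      simp only [one_mul]
      unfold kap
      ring
    have hwm : Measurable fun x : SUGroup n => ENNReal.ofReal ((ch x ^ (2 * t))⁻¹) :=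
      ((continuous_ch.measurable.pow_const _).inv).ennreal_ofReal
    have h3 : ∫ x : SUGroup n, (ch x ^ (2 * t))⁻¹ * u x ∂(mu n) ≤ 2 * M * X := by
      have hpos : ∀ x : SUGroup n, 0 ≤ (ch x ^ (2 * t))⁻¹ := fun x =>
        inv_nonneg.2 (pow_nonneg (ch_pos x).le _)
      have hm : AEStronglyMeasurable (fun x : SUGroup n => (ch x ^ (2 * t))⁻¹ * u x) (mu n) :=
        (((continuous_ch.measurable.pow_const _).inv).mul
          hG.cont.measurable).aestronglyMeasurable
      rw [integral_eq_lintegral_of_nonneg_ae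
        (Eventually.of_forall fun x => mul_nonneg (hpos x) (hG.nonneg x)) hm]
      refine ENNReal.toReal_le_of_le_ofReal (by positivity) ?_
      calc ∫⁻ x, ENNReal.ofReal ((ch x ^ (2 * t))⁻¹ * u x) ∂(mu n)
          = ∫⁻ x, (ENNReal.ofReal ((ch x ^ (2 * t))⁻¹) * ENNReal.ofReal (dl f f' false false x (a * x)) +
              ENNReal.ofReal ((ch x ^ (2 * t))⁻¹) * ENNReal.ofReal (dl f f' true true x (a * x)))
              ∂(mu n) := by
            refine lintegral_congr fun x => ?_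
            have e4 : u x = dl f f' false false x (a * x) + dl f f' true true x (a * x) := by
              rw [hu, hu₁, hu₂]
              rfl
            rw [ENNReal.ofReal_mul (hpos x), ← mul_add, e4, ENNReal.ofReal_add]
            · exact dist_nonneg
            · exact dist_nonneg
        _ = (∫⁻ x, ENNReal.ofReal ((ch x ^ (2 * t))⁻¹) *
              ENNReal.ofReal (dl f f' false false x (a * x)) ∂(mu n)) +
            ∫⁻ x, ENNReal.ofReal ((ch x ^ (2 * t))⁻¹) *
              ENNReal.ofReal (dl f f' true true x (a * x)) ∂(mu n) := by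
            refine lintegral_add_left ?_ _
            refine hwm.mul ?_
            have : Continuous fun x : SUGroup n => dl f f' false false x (a * x) :=
              hp.e1.cont.dist (hp.e1.cont.comp (continuous_const_mul a))
            exact this.measurable.ennreal_ofReal
        _ ≤ ENNReal.ofReal (M * X) + ENNReal.ofReal (M * X) := add_le_add h1 h2
        _ = ENNReal.ofReal (2 * M * X) := by
            rw [← ENNReal.ofReal_add (by positivity) (by positivity)]
            congr 1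
            ring
    rw [e0, div_mul_eq_mul_div]
    exact div_le_div_of_nonneg_right h3 hcs.le
  have hPt : ∀ g, Boot.Q t u g ≤ 4 ^ t * (2 * M / cs n t) * X * ch g ^ (2 * t) := by
    intro g
    have h1 := Q_harn (Boot.csOK n) hG h40 (s := t) (by omega) g
    have h2 : wt g ^ (2 * t) ≤ (2 * ch g) ^ (2 * t) :=
      pow_le_pow_left₀ (by linarith [one_le_wt g]) (wt_le g) _
    have h3 : (2 * ch g) ^ (2 * t) = 4 ^ t * ch g ^ (2 * t) := by
      rw [mul_pow, pow_mul (2 : ℝ) 2 t]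
      norm_num
    have hch := ch_pos g
    have hQ0 : 0 ≤ Boot.Q t u 1 := hG.Q_nonneg (Boot.csOK n) (by omega) 1
    calc Boot.Q t u g ≤ wt g ^ (2 * t) * Boot.Q t u 1 := h1
      _ ≤ (4 ^ t * ch g ^ (2 * t)) * Boot.Q t u 1 := by
          rw [← h3]
          exact mul_le_mul_of_nonneg_right h2 hQ0
      _ ≤ (4 ^ t * ch g ^ (2 * t)) * (2 * M / cs n t * X) :=
          mul_le_mul_of_nonneg_left hbase (by positivity)
      _ = _ := by ring
  have h5 := boot_fiveN (Boot.csOK n) hG h40 (A := A) (by omega)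
    (fun a b ha hb => hA₁ a b (by omega) (by omega) _ u hAg)
    (fun a b ha hb => hA₂ a b (by omega) (by omega) _ u hAg) (s := s) (t := t) (by omega) (by omega)
    (by omega) hsub (B := 4 ^ t * (2 * M / cs n t) * X) (by positivity) hPt g
  have e3 : u g = dist (f g) (f (a * g)) + dist (f' g) (f' (a * g)) := by
    rw [hu, hu₁, hu₂]
  rw [e3] at h5
  refine h5.trans (le_of_eq ?_)
  ring

end Pool.Agent.Lib.MP_5d4057_al.IN
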