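import Pool.Agent.Lib.MP_5d4057_al.IN.RotA
import Pool.Agent.Lib.MP_5d4057_al.IN.AvgC1

/-! Rotation invariance of the law of the ball coordinate (text B13) and moments on small balls. -/

set_option autoImplicit false

namespace Pool.Agent.Lib.MP_5d4057_al.IN

open Matrix MeasureTheory Filter Topology Pool.Agent.Lib.MP_5d4057_al Pool.Agent.Lib.MP_5d4057_al.Hyb
  Pool.Agent.Lib.MP_5d4057_al.HM

variable {n : ℕ}

/-- The second moment on a small ball. -/
noncomputable def mt (n s : ℕ) (d : ℝ) : ℝ := ∫ x in bl n d, kap s x * hq x ∂(mu n)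

private theorem hq_nonneg' (x : SUGroup n) : 0 ≤ hq x := by
  rw [← nr_zc_sq]
  positivity

private theorem hq_le_one' (x : SUGroup n) : hq x ≤ 1 := by
  have h : 0 < (ch x ^ 2)⁻¹ := inv_pos.2 (pow_pos (ch_pos x) 2)
  unfold hq
  linarith

private theorem hq_le_ch (x : SUGroup n) : hq x ≤ ch x ^ 2 - 1 := by
  have h1 : 1 ≤ ch x ^ 2 := one_le_pow₀ (one_le_ch x)
  have h2 : 0 < ch x ^ 2 := by linarith
  have h3 : ch x ^ 2 * (ch x ^ 2)⁻¹ = 1 := mul_inv_cancel₀ h2.ne'
  have h4 : (ch x ^ 2)⁻¹ ≤ 1 := inv_le_one_of_one_le₀ h1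
  unfold hq
  nlinarith

private theorem continuous_zcv' : Continuous (zc (n := n)) :=
  continuous_pi fun j => continuous_zc j

private theorem integrable_kap_mul {s : ℕ} (hs : n < s) {f : SUGroup n → ℝ} (hf : Continuous f)
    {C : ℝ} (hC : ∀ x, |f x| ≤ C) : Integrable (fun x : SUGroup n => kap s x * f x) (mu n) :=
  (integrable_kap hs).mul_bdd (c := C) hf.aestronglyMeasurable
    (Filter.Eventually.of_forall fun x => by rw [Real.norm_eq_abs]; exact hC x)

private theorem integral_kap_hq {s : ℕ} (hs : n < s) :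
    ∫ x : SUGroup n, kap s x * hq x ∂(mu n) = n / s := by
  have h1 : ∀ j : Fin n, ∫ x : SUGroup n, kap s x * ‖zc x j‖ ^ 2 ∂(mu n) = 1 / s := by
    intro j
    have h2 := integral_zc_conj hs j j
    rw [if_pos rfl] at h2
    have h3 : ∀ x : SUGroup n, (kap s x : ℂ) * (zc x j * star (zc x j)) =
        ((kap s x * ‖zc x j‖ ^ 2 : ℝ) : ℂ) := by
      intro x
      rw [RCLike.star_def, Complex.mul_conj']
      push_cast
      rfl
    rw [integral_congr_ae (Filter.Eventually.of_forall h3), integral_complex_ofReal] at h2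
    have h4 : ((∫ x : SUGroup n, kap s x * ‖zc x j‖ ^ 2 ∂(mu n) : ℝ) : ℂ) = ((1 / s : ℝ) : ℂ) := by
      rw [h2]
      push_cast
      rfl
    exact_mod_cast h4
  have h5 : ∀ x : SUGroup n, kap s x * hq x = ∑ j : Fin n, kap s x * ‖zc x j‖ ^ 2 := by
    intro x
    rw [← Finset.mul_sum, sum_norm_zc]
    rfl
  rw [integral_congr_ae (Filter.Eventually.of_forall h5), integral_finsetSum]
  · rw [Finset.sum_congr rfl fun j _ => h1 j, Finset.sum_const, Finset.card_univ,
      Fintype.card_fin, nsmul_eq_mul]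
    ring
  · intro j _
    refine integrable_kap_mul hs ((continuous_zc j).norm.pow 2) (C := 1) fun x => ?_
    rw [abs_of_nonneg (by positivity)]
    exact pow_le_one₀ (norm_nonneg _) (norm_zc_le x j)

private theorem kap_hq_int {s : ℕ} (hs : n < s) :
    Integrable (fun x : SUGroup n => kap s x * hq x) (mu n) :=
  integrable_kap_mul hs continuous_hq (C := 1) fun x => by
    rw [abs_of_nonneg (hq_nonneg' x)]
    exact hq_le_one' x

/-- `n/(2s) ≤ mt ≤ n/s` for large `s` (`integral_zc_conj`, `sum_norm_zc`, `mom_tail`). -/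
theorem mt_bounds (hn : 1 ≤ n) {d : ℝ} (hd : 0 < d) : ∃ s₀ : ℕ, ∀ s, s₀ ≤ s →
    (n : ℝ) / (2 * s) ≤ mt n s d ∧ mt n s d ≤ (n : ℝ) / s := by
  obtain ⟨C, hC, ht⟩ := mom_tail n 0 2 (e := d ^ 2) (by positivity)
  obtain ⟨N, hN⟩ := exists_nat_gt (2 * C)
  refine ⟨n + 3 + N, fun s hs => ?_⟩
  have hns : n < s := by omega
  have hs0 : (0 : ℝ) < s := by
    have : 0 < s := by omega
    exact_mod_cast this
  have hm : MeasurableSet (bl n d) := measurableSet_bl d
  have hint := kap_hq_int (n := n) hns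
  have hsplit := integral_add_compl hm hint
  rw [integral_kap_hq hns] at hsplit
  have hc0 : 0 ≤ ∫ x in (bl n d)ᶜ, kap s x * hq x ∂(mu n) :=
    integral_nonneg fun x => mul_nonneg (kap_nonneg s x) (hq_nonneg' x)
  have hc1 : ∫ x in (bl n d)ᶜ, kap s x * hq x ∂(mu n) ≤ C / s ^ 2 := by
    have hsub : (bl n d)ᶜ ⊆ {x : SUGroup n | d ^ 2 ≤ ch x ^ 2 - 1} := by
      intro x hx
      have h1 : d ^ 2 < hq x := not_le.1 hx
      have h2 := hq_le_ch x
      show d ^ 2 ≤ ch x ^ 2 - 1
      linarith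
    have hi : Integrable (fun x : SUGroup n => kap s x * ch x ^ (2 * 0)) (mu n) := by
      simpa using integrable_kap (n := n) hns
    calc ∫ x in (bl n d)ᶜ, kap s x * hq x ∂(mu n)
        ≤ ∫ x in (bl n d)ᶜ, kap s x * ch x ^ (2 * 0) ∂(mu n) := by
          refine integral_mono hint.integrableOn hi.integrableOn fun x => ?_
          have h1 := hq_le_one' x
          have h2 := kap_nonneg s x
          simp only [mul_zero, pow_zero, mul_one]
          nlinarith
      _ ≤ ∫ x in {x : SUGroup n | d ^ 2 ≤ ch x ^ 2 - 1}, kap s x * ch x ^ (2 * 0) ∂(mu n) := by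
          refine setIntegral_mono_set hi.integrableOn
            (Filter.Eventually.of_forall fun x => ?_) hsub.eventuallyLE
          have h2 := kap_nonneg s x
          simp only [mul_zero, pow_zero, mul_one]
          exact h2
      _ ≤ C / s ^ 2 := ht s (by omega)
  have hmt : mt n s d = ∫ x in bl n d, kap s x * hq x ∂(mu n) := rfl
  have hn' : (1 : ℝ) ≤ n := by exact_mod_cast hn
  have hNs : (N : ℝ) ≤ s := by
    have : N ≤ s := by omega
    exact_mod_cast this
  have hC2 : C / s ^ 2 ≤ n / (2 * s) := by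
    rw [div_le_div_iff₀ (by positivity) (by positivity)]
    nlinarith
  have e : (n : ℝ) / s = n / (2 * s) + n / (2 * s) := by
    field_simp
    ring
  rw [hmt]
  constructor
  · linarith
  · linarith

/-- `∫ (ip v zc)² = mt / (2 n)`. Proof: `ip v (zc x)² = (1/2) |<v,zc>|² + (1/2) Re (<v,zc>²)`; the second
term has integral `0` (multiply by `I`, `mom_scal`) and the first is invariant in the unit vector `v`
(`exists_K_zc`), sum over a basis. -/
theorem integral_ip_sq (hn : 1 ≤ n) {s : ℕ} (hs : n < s) {v : Fin n → ℂ} (hv : nr v = 1) {d : ℝ}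
    (hd : 0 < d) (hd1 : d < 1) :
    ∫ x in bl n d, kap s x * ip v (zc x) ^ 2 ∂(mu n) = mt n s d / (2 * n) := by
  have hn0 : (0 : ℝ) < n := by exact_mod_cast hn
  have _ := hd
  have _ := hd1
  have hip : ∀ u z : Fin n → ℂ, ip u z = ∑ j, ((u j).re * (z j).re + (u j).im * (z j).im) := by
    intro u z
    unfold ip hp
    rw [Complex.re_sum]
    refine Finset.sum_congr rfl fun j _ => ?_
    rw [RCLike.star_def, Complex.mul_re, Complex.conj_re, Complex.conj_im]
    ring
  have hcont : ∀ u : Fin n → ℂ, Continuous (ip u) := by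
    intro u
    have e : ip u = fun z => ∑ j, ((u j).re * (z j).re + (u j).im * (z j).im) := funext (hip u)
    rw [e]
    fun_prop
  -- invariance
  have hinv : ∀ u w : Fin n → ℂ, nr u = 1 → nr w = 1 →
      ∫ x in bl n d, kap s x * ip u (zc x) ^ 2 ∂(mu n) =
        ∫ x in bl n d, kap s x * ip w (zc x) ^ 2 ∂(mu n) := by
    intro u w hu hw
    by_cases huw : u = w
    · rw [huw]
    have hne : nr (u - w) ≠ 0 := by
      rw [Ne, nr_eq_zero, sub_eq_zero]
      exact huw
    have hpos : 0 < nr (u - w) := lt_of_le_of_ne (nr_nonneg _) hne.symm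
    set r : ℝ := nr (u - w) with hr
    have he : nr ((((r⁻¹ : ℝ)) : ℂ) • (u - w)) = 1 := by
      rw [nr_smul, Complex.norm_real, Real.norm_eq_abs, abs_of_pos (inv_pos.2 hpos), ← hr,
        inv_mul_cancel₀ hne]
    have hrot := rot_law_bl hn hs he d (φ := fun z => ip u z ^ 2)
      ((hcont u).pow 2).measurable
    rw [← hrot]
    refine integral_congr_ae (Filter.Eventually.of_forall fun x => ?_)
    have hsq : r ^ 2 = 2 - 2 * ip u w := by
      rw [hr, nr_sub_sq, hu, hw]
      ring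
    have key : ip u (rf ((((r⁻¹ : ℝ)) : ℂ) • (u - w)) (zc x)) = ip w (zc x) := by
      have e1 : ip ((((r⁻¹ : ℝ)) : ℂ) • (u - w)) (zc x) = r⁻¹ * (ip u (zc x) - ip w (zc x)) := by
        rw [ip_comm, ip_smul, ip_sub, ip_comm (zc x) u, ip_comm (zc x) w]
      have e2 : rf ((((r⁻¹ : ℝ)) : ℂ) • (u - w)) (zc x) = zc x -
          (((2 * (r⁻¹ * (ip u (zc x) - ip w (zc x))) * r⁻¹ : ℝ)) : ℂ) • (u - w) := by
        funext j
        rw [rf, e1]
        simp only [Pi.sub_apply, Pi.smul_apply, smul_eq_mul]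
        push_cast
        ring
      rw [e2, ip_sub, ip_smul, ip_sub, ip_self, hu, one_pow]
      have e3 : 2 * (r⁻¹ * (ip u (zc x) - ip w (zc x))) * r⁻¹ * (1 - ip u w) =
          (ip u (zc x) - ip w (zc x)) * (r⁻¹ ^ 2 * r ^ 2) := by
        rw [hsq]
        ring
      rw [e3, ← mul_pow, inv_mul_cancel₀ hne, one_pow, mul_one]
      ring
    simp only [key]
  -- the basis
  have hb1 : ∀ j : Fin n, nr (Pi.single j (1 : ℂ)) = 1 := by
    intro j
    have h2 : nr (Pi.single j (1 : ℂ)) ^ 2 = 1 := by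
      rw [nr_sq, Finset.sum_eq_single j]
      · rw [Pi.single_eq_same, norm_one, one_pow]
      · intro i _ hij
        rw [Pi.single_eq_of_ne hij, norm_zero]
        ring
      · intro h
        exact absurd (Finset.mem_univ j) h
    exact (pow_eq_one_iff_of_nonneg (nr_nonneg _) two_ne_zero).1 h2
  have hb2 : ∀ j : Fin n, nr (Pi.single j Complex.I) = 1 := by
    intro j
    have h2 : nr (Pi.single j Complex.I) ^ 2 = 1 := by
      rw [nr_sq, Finset.sum_eq_single j]
      · rw [Pi.single_eq_same, Complex.norm_I, one_pow]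
      · intro i _ hij
        rw [Pi.single_eq_of_ne hij, norm_zero]
        ring
      · intro h
        exact absurd (Finset.mem_univ j) h
    exact (pow_eq_one_iff_of_nonneg (nr_nonneg _) two_ne_zero).1 h2
  have hi1 : ∀ (j : Fin n) (z : Fin n → ℂ), ip (Pi.single j (1 : ℂ)) z = (z j).re := by
    intro j z
    rw [hip, Finset.sum_eq_single j]
    · rw [Pi.single_eq_same, Complex.one_re, Complex.one_im]
      ring
    · intro i _ hij
      rw [Pi.single_eq_of_ne hij, Complex.zero_re, Complex.zero_im]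
      ring
    · intro h
      exact absurd (Finset.mem_univ j) h
  have hi2 : ∀ (j : Fin n) (z : Fin n → ℂ), ip (Pi.single j Complex.I) z = (z j).im := by
    intro j z
    rw [hip, Finset.sum_eq_single j]
    · rw [Pi.single_eq_same, Complex.I_re, Complex.I_im]
      ring
    · intro i _ hij
      rw [Pi.single_eq_of_ne hij, Complex.zero_re, Complex.zero_im]
      ring
    · intro h
      exact absurd (Finset.mem_univ j) h
  have hint : ∀ u : Fin n → ℂ, nr u = 1 → IntegrableOn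
      (fun x : SUGroup n => kap s x * ip u (zc x) ^ 2) (bl n d) (mu n) := by
    intro u hu
    refine (integrable_kap_mul hs (((hcont u).comp continuous_zcv').pow 2) (C := 1)
      fun x => ?_).integrableOn
    have h1 := abs_ip_le u (zc x)
    rw [hu, one_mul] at h1
    have h2 := nr_zc_lt x
    show |ip u (zc x) ^ 2| ≤ 1
    rw [abs_of_nonneg (sq_nonneg _), ← sq_abs]
    exact pow_le_one₀ (abs_nonneg _) (by linarith)
  have hsum : mt n s d = ∑ j : Fin n, (∫ x in bl n d, kap s x * ip v (zc x) ^ 2 ∂(mu n) +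
      ∫ x in bl n d, kap s x * ip v (zc x) ^ 2 ∂(mu n)) := by
    have e1 : ∀ j : Fin n, (∫ x in bl n d, kap s x * ip v (zc x) ^ 2 ∂(mu n) +
        ∫ x in bl n d, kap s x * ip v (zc x) ^ 2 ∂(mu n)) =
        ∫ x in bl n d, (kap s x * ip (Pi.single j (1 : ℂ)) (zc x) ^ 2 +
          kap s x * ip (Pi.single j Complex.I) (zc x) ^ 2) ∂(mu n) := by
      intro j
      rw [integral_add (hint _ (hb1 j)) (hint _ (hb2 j)), hinv v _ hv (hb1 j)]
      congr 1
      exact hinv _ _ (hb1 j) (hb2 j)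
    have hI : ∀ j ∈ (Finset.univ : Finset (Fin n)), Integrable
        (fun x : SUGroup n => kap s x * ip (Pi.single j (1 : ℂ)) (zc x) ^ 2 +
          kap s x * ip (Pi.single j Complex.I) (zc x) ^ 2) ((mu n).restrict (bl n d)) :=
      fun j _ => (hint _ (hb1 j)).add (hint _ (hb2 j))
    rw [Finset.sum_congr rfl fun j _ => e1 j, ← integral_finsetSum _ hI]
    unfold mt
    refine integral_congr_ae (Filter.Eventually.of_forall fun x => ?_)
    simp only
    rw [← nr_zc_sq, nr_sq, Finset.mul_sum]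
    refine Finset.sum_congr rfl fun j _ => ?_
    rw [hi1, hi2, ← Complex.normSq_eq_norm_sq, Complex.normSq_apply]
    ring
  rw [Finset.sum_const, Finset.card_univ, Fintype.card_fin, nsmul_eq_mul] at hsum
  rw [hsum]
  field_simp
  ring

/-- Third and fourth moments. -/
theorem mom_three_four (hn : 1 ≤ n) : ∃ (s₀ : ℕ) (C : ℝ), 0 < C ∧ ∀ s, s₀ ≤ s → ∀ d : ℝ, 0 < d →
    d < 1 → ∫ x in bl n d, kap s x * nr (zc x) ^ 3 ∂(mu n) ≤ C * (s : ℝ) ^ (-(3 / 2) : ℝ) ∧
      ∫ x in bl n d, kap s x * nr (zc x) ^ 4 ∂(mu n) ≤ C * (s : ℝ) ^ (-(2 : ℝ)) := by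
  have _ := hn
  obtain ⟨s₁, C₁, hC₁, h₁⟩ := mom_rpow n 0 (θ := 3 / 2) (by norm_num)
  obtain ⟨s₂, C₂, hC₂, h₂⟩ := mom_rpow n 0 (θ := 2) (by norm_num)
  refine ⟨max s₁ s₂, C₁ + C₂, by positivity, fun s hs d hd hd1 => ?_⟩
  have hs1 : s₁ ≤ s := (le_max_left _ _).trans hs
  have hs2 : s₂ ≤ s := (le_max_right _ _).trans hs
  have _ := hd
  have _ := hd1
  have hpw : ∀ (x : SUGroup n) (k : ℕ), nr (zc x) ^ k ≤ (ch x ^ 2 - 1) ^ ((k : ℝ) / 2) := by
    intro x k
    have h0 := nr_nonneg (zc x)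
    have e : nr (zc x) ^ k = hq x ^ ((k : ℝ) / 2) := by
      rw [← nr_zc_sq, ← Real.rpow_natCast (nr (zc x)) 2, ← Real.rpow_mul h0, Nat.cast_ofNat,
        mul_div_cancel₀ _ (two_ne_zero), Real.rpow_natCast]
    rw [e]
    exact Real.rpow_le_rpow (hq_nonneg' x) (hq_le_ch x) (by positivity)
  have hgen : ∀ (k : ℕ) (θ : ℝ), (k : ℝ) / 2 = θ → ∀ C : ℝ,
      (Integrable (fun x : SUGroup n => kap s x * (ch x ^ (2 * 0) * (ch x ^ 2 - 1) ^ θ)) (mu n) ∧
        ∫ x : SUGroup n, kap s x * (ch x ^ (2 * 0) * (ch x ^ 2 - 1) ^ θ) ∂(mu n) ≤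
          C * (s : ℝ) ^ (-θ)) →
      ∫ x in bl n d, kap s x * nr (zc x) ^ k ∂(mu n) ≤ C * (s : ℝ) ^ (-θ) := by
    intro k θ hk C hC
    have hnn : ∀ x : SUGroup n, 0 ≤ kap s x * nr (zc x) ^ k := fun x =>
      mul_nonneg (kap_nonneg s x) (pow_nonneg (nr_nonneg _) k)
    have hle : ∀ x : SUGroup n, kap s x * nr (zc x) ^ k ≤
        kap s x * (ch x ^ (2 * 0) * (ch x ^ 2 - 1) ^ θ) := by
      intro x
      rw [mul_zero, pow_zero, one_mul, ← hk]
      exact mul_le_mul_of_nonneg_left (hpw x k) (kap_nonneg s x)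
    have hi : Integrable (fun x : SUGroup n => kap s x * nr (zc x) ^ k) (mu n) := by
      refine Integrable.mono' hC.1 ?_ (Filter.Eventually.of_forall fun x => ?_)
      · exact ((continuous_kap s).mul ((continuous_nr.comp continuous_zcv').pow k)).aestronglyMeasurable
      · rw [Real.norm_eq_abs, abs_of_nonneg (hnn x)]
        exact hle x
    calc ∫ x in bl n d, kap s x * nr (zc x) ^ k ∂(mu n)
        ≤ ∫ x : SUGroup n, kap s x * nr (zc x) ^ k ∂(mu n) :=
          setIntegral_le_integral hi (Filter.Eventually.of_forall hnn)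
      _ ≤ ∫ x : SUGroup n, kap s x * (ch x ^ (2 * 0) * (ch x ^ 2 - 1) ^ θ) ∂(mu n) :=
          integral_mono hi hC.1 hle
      _ ≤ _ := hC.2
  have hp : ∀ θ : ℝ, 0 ≤ (s : ℝ) ^ θ := fun θ => Real.rpow_nonneg (Nat.cast_nonneg _) _
  constructor
  · have h := hgen 3 (3 / 2) (by norm_num) C₁ (h₁ s hs1)
    have := hp (-(3 / 2))
    nlinarith
  · have h := hgen 4 2 (by norm_num) C₂ (h₂ s hs2)
    have := hp (-2)
    nlinarith

/-- Means: `∫_(bl d) kap s x * ip c (zc (g x)) = ip c (zc g) * ∫_(bl d) kap s` (from `kap_zc`, `AvgC`; here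
again so that this file does not depend on it; circle mean value of a holomorphic function). -/
theorem mean_zc (hn : 1 ≤ n) {s : ℕ} (hs : n < s) {d : ℝ} (hd : 0 < d) (hd1 : d < 1)
    (c : Fin n → ℂ) (g : SUGroup n) :
    ∫ x in bl n d, kap s x * ip c (zc (g * x)) ∂(mu n) =
      ip c (zc g) * ∫ x in bl n d, kap s x ∂(mu n) := by
  exact kap_zc hn hs hd hd1 (fun j => star (c j)) g

/-- The same after a reflection (`rot_law_bl`; `zc (g * pt (zc x)) = zc (g * x)`). -/
theorem mean_zc_rf (hn : 1 ≤ n) {s : ℕ} (hs : n < s) {d : ℝ} (hd : 0 < d) (hd1 : d < 1)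
    (c : Fin n → ℂ) {v : Fin n → ℂ} (hv : nr v = 1) (g : SUGroup n) :
    ∫ x in bl n d, kap s x * ip c (zc (g * pt (rf v (zc x)))) ∂(mu n) =
      ip c (zc g) * ∫ x in bl n d, kap s x ∂(mu n) := by
  classical
  have hopen : IsOpen {z : Fin n → ℂ | nr z < 1} := isOpen_lt continuous_nr continuous_const
  have hcip : Continuous (ip c) := by
    unfold ip hp
    fun_prop
  have hcont : ContinuousOn (fun z : Fin n → ℂ => ip c (zc (g * pt z))) {z | nr z < 1} :=
    (hcip.comp (continuous_zcv'.comp (continuous_const_mul g))).comp_continuousOn continuousOn_pt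
  obtain ⟨φ, hφm, hφ⟩ : ∃ φ : (Fin n → ℂ) → ℝ, Measurable φ ∧
      ∀ z, nr z < 1 → φ z = ip c (zc (g * pt z)) := by
    refine ⟨Set.piecewise {z : Fin n → ℂ | nr z < 1} (fun z => ip c (zc (g * pt z))) (fun _ => 0),
      hcont.measurable_piecewise continuousOn_const hopen.measurableSet, fun z hz => ?_⟩
    exact Set.piecewise_eq_of_mem _ _ _ hz
  have h1 := rot_law_bl hn hs hv d hφm
  have e1 : ∫ x in bl n d, kap s x * φ (rf v (zc x)) ∂(mu n) =
      ∫ x in bl n d, kap s x * ip c (zc (g * pt (rf v (zc x)))) ∂(mu n) := by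
    refine integral_congr_ae (Filter.Eventually.of_forall fun x => ?_)
    have h2 : nr (rf v (zc x)) < 1 := by
      rw [nr_rf hv]
      exact nr_zc_lt x
    simp only [hφ _ h2]
  have e2 : ∫ x in bl n d, kap s x * φ (zc x) ∂(mu n) =
      ∫ x in bl n d, kap s x * ip c (zc (g * x)) ∂(mu n) := by
    refine integral_congr_ae (Filter.Eventually.of_forall fun x => ?_)
    have h2 := nr_zc_lt x
    simp only [hφ _ h2]
    rw [zc_mul_eq g (zc_pt h2)]
  rw [← e1, h1, e2]
  exact mean_zc hn hs hd hd1 c g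

end Pool.Agent.Lib.MP_5d4057_al.IN
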