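import Pool.Agent.Lib.MP_5d4057_al.IN.Tgt
import Pool.Agent.Lib.MP_5d4057_al.IN.Rot

/-! The mirror property of the limit map (text B14). -/

namespace Pool.Agent.Lib.MP_5d4057_al.IN

open Matrix MeasureTheory Filter Topology Pool.Agent.Lib.MP_5d4057_al Pool.Agent.Lib.MP_5d4057_al.Hyb
  Pool.Agent.Lib.MP_5d4057_al.HM

variable {n : ℕ}

private theorem mf_zc : Continuous fun x : SUGroup n => zc x :=
  continuous_pi fun j => continuous_zc j

private theorem mf_ip (c : Fin n → ℂ) : Continuous fun z : Fin n → ℂ => ip c z := by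
  unfold ip hp
  exact Complex.continuous_re.comp (continuous_finsetSum _ fun j _ =>
    continuous_const.mul (continuous_apply j))

private theorem mf_rf (v : Fin n → ℂ) : Continuous fun z : Fin n → ℂ => rf v z := by
  unfold rf
  refine continuous_pi fun j => ?_
  exact (continuous_apply j).sub ((Complex.continuous_ofReal.comp
    (continuous_const.mul (mf_ip v))).mul continuous_const)

private theorem mf_ptrf {v : Fin n → ℂ} (hv : nr v = 1) :
    Continuous fun x : SUGroup n => pt (rf v (zc x)) := by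
  have h1 : Continuous fun x : SUGroup n => rf v (zc x) := (mf_rf v).comp mf_zc
  refine continuousOn_pt.comp_continuous h1 fun x => ?_
  show nr (rf v (zc x)) < 1
  rw [nr_rf hv]
  exact nr_zc_lt x

private theorem mf_ch {v : Fin n → ℂ} (hv : nr v = 1) (x : SUGroup n) :
    ch (pt (rf v (zc x))) = ch x := by
  have h1 : nr (rf v (zc x)) < 1 := by
    rw [nr_rf hv]
    exact nr_zc_lt x
  rw [ch_pt h1, nr_rf hv, nr_zc_sq]
  have h2 : 1 - hq x = (ch x ^ 2)⁻¹ := by
    unfold hq
    ring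
  have h3 : 0 < ch x := lt_of_lt_of_le one_pos (one_le_ch x)
  rw [h2, Real.sqrt_inv, Real.sqrt_sq h3.le, inv_inv]

private theorem mf_sqI {Y : Type} [MetricSpace Y] {y₀ : Y} {u : SUGroup n → Y}
    {r : SUGroup n → SUGroup n} (hr : Continuous r) (hch : ∀ x, ch (r x) = ch x)
    (hu : Continuous u) {C : ℝ} {N : ℕ} (hg : ∀ g, dist y₀ (u g) ≤ C * ch g ^ (2 * N)) {s : ℕ}
    (hs : n + 2 * N < s) (g : SUGroup n) : SqI (kapM n s) fun x => u (g * r x) := by
  have := isProb_kapM (n := n) (s := s) (by omega)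
  have hfc : Continuous fun x : SUGroup n => u (g * r x) := hu.comp (continuous_const.mul hr)
  refine ⟨hfc.aestronglyMeasurable, fun y => ?_⟩
  have hint : Integrable (fun x : SUGroup n => ch x ^ (4 * N)) (kapM n s) := by
    have h1 : Integrable (fun x : SUGroup n => kap s x * ch x ^ (2 * (2 * N))) (mu n) :=
      integrable_kap_pow (by omega)
    have h2 := integrable_withDensity_iff_integrable_smul' (μ := mu n)
      (f := fun x : SUGroup n => ENNReal.ofReal (kap s x))
      (g := fun x : SUGroup n => ch x ^ (4 * N))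
      (ENNReal.measurable_ofReal.comp (continuous_kap s).measurable)
      (Filter.Eventually.of_forall fun _ => ENNReal.ofReal_lt_top)
    refine h2.2 (h1.congr (Filter.Eventually.of_forall fun x => ?_))
    simp only [smul_eq_mul, ENNReal.toReal_ofReal (kap_nonneg s x)]
    congr 2
    ring
  refine ((integrable_const (2 * dist y y₀ ^ 2)).add
    (hint.const_mul (2 * (C * (2 * ch g) ^ (2 * N)) ^ 2))).mono'
    ((continuous_const.dist hfc).pow 2).aestronglyMeasurable
    (Filter.Eventually.of_forall fun x => ?_)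
  rw [Real.norm_eq_abs, abs_of_nonneg (sq_nonneg _)]
  simp only [Pi.add_apply]
  have hC : 0 ≤ C := by
    have h1 := dist_nonneg.trans (hg 1)
    have h2 : 0 < ch (1 : SUGroup n) ^ (2 * N) :=
      pow_pos (lt_of_lt_of_le one_pos (one_le_ch _)) _
    nlinarith
  have hx1 : 1 ≤ ch x := one_le_ch x
  have hg1 : 1 ≤ ch g := one_le_ch g
  have h0 : ch (g * r x) ≤ 2 * ch g * ch x := by
    have h1 := ch_mul_le' g (r x)
    rwa [hch] at h1
  have h1 : dist y (u (g * r x)) ≤ dist y y₀ + C * ((2 * ch g) ^ (2 * N) * ch x ^ (2 * N)) := by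
    refine (dist_triangle _ y₀ _).trans (add_le_add le_rfl ((hg _).trans ?_))
    refine mul_le_mul_of_nonneg_left ?_ hC
    rw [← mul_pow]
    exact pow_le_pow_left₀ (zero_le_one.trans (one_le_ch _)) h0 _
  have h5 : dist y (u (g * r x)) ^ 2 ≤
      (dist y y₀ + C * ((2 * ch g) ^ (2 * N) * ch x ^ (2 * N))) ^ 2 :=
    pow_le_pow_left₀ dist_nonneg h1 2
  have h6 : ch x ^ (4 * N) = (ch x ^ (2 * N)) ^ 2 := by
    rw [← pow_mul]
    congr 1
    ring
  rw [h6]
  nlinarith [sq_nonneg (dist y y₀ - C * ((2 * ch g) ^ (2 * N) * ch x ^ (2 * N)))]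

/-- the barycentre after a reflection -/
private theorem mf_bar (hn : 1 ≤ n) {Y : Type} [MetricSpace Y] {Φ : Y → Y → ℝ} {κ : ℝ}
    (T : Tgt Φ κ) {u : SUGroup n → Y} {b : Y} (hu : Continuous u)
    (ku : ∀ g k : SUGroup n, ch k = 1 → u (g * k) = u g) {s : ℕ} (hs : n < s) (g : SUGroup n)
    (hb : IsBar Φ (kapM n s) (fun x => u (g * x)) b) {v : Fin n → ℂ} (hv : nr v = 1) :
    IsBar Φ (kapM n s) (fun x => u (g * pt (rf v (zc x)))) b := by
  classical
  have hopen : IsOpen {z : Fin n → ℂ | nr z < 1} := isOpen_lt continuous_nr continuous_const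
  have key : ∀ y : Y, ∫ x, Φ y (u (g * pt (rf v (zc x)))) ∂(kapM n s) =
      ∫ x, Φ y (u (g * x)) ∂(kapM n s) := by
    intro y
    have hc : Continuous fun z : Y => Φ y z :=
      T.continuous.comp (continuous_const.prodMk continuous_id)
    have hcont : ContinuousOn (fun z : Fin n → ℂ => Φ y (u (g * pt z))) {z | nr z < 1} :=
      (hc.comp (hu.comp (continuous_const_mul g))).comp_continuousOn continuousOn_pt
    obtain ⟨φ, hφm, hφ⟩ : ∃ φ : (Fin n → ℂ) → ℝ, Measurable φ ∧
        ∀ z, nr z < 1 → φ z = Φ y (u (g * pt z)) := by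
      refine ⟨Set.piecewise {z : Fin n → ℂ | nr z < 1} (fun z => Φ y (u (g * pt z)))
        (fun _ => 0), hcont.measurable_piecewise continuousOn_const hopen.measurableSet,
        fun z hz => ?_⟩
      exact Set.piecewise_eq_of_mem _ _ _ hz
    have h1 := rot_law hn hs hv hφm
    rw [integral_kapM, integral_kapM]
    have e1 : ∫ x, kap s x * φ (rf v (zc x)) ∂(mu n) =
        ∫ x, kap s x * Φ y (u (g * pt (rf v (zc x)))) ∂(mu n) := by
      refine integral_congr_ae (Filter.Eventually.of_forall fun x => ?_)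
      have h2 : nr (rf v (zc x)) < 1 := by
        rw [nr_rf hv]
        exact nr_zc_lt x
      simp only [hφ _ h2]
    have e2 : ∫ x, kap s x * φ (zc x) ∂(mu n) = ∫ x, kap s x * Φ y (u (g * x)) ∂(mu n) := by
      refine integral_congr_ae (Filter.Eventually.of_forall fun x => ?_)
      have h2 := nr_zc_lt x
      simp only [hφ _ h2]
      obtain ⟨k, hk, hxk⟩ := exists_K (g := pt (zc x)) (h := x) (zc_pt h2)
      have h3 : u (g * x) = u (g * pt (zc x)) := by
        conv_lhs => rw [hxk, ← mul_assoc]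
        exact ku _ _ hk
      rw [h3]
    rw [← e1, h1, e2]
  intro y
  rw [key, key]
  exact hb y

private theorem mf_cont {Y : Type} [MetricSpace Y] {D : Y → Y → ℝ} {K : ℝ}
    (hlip : ∀ a a' b b', |D a b - D a' b'| ≤ K * (dist a a' + dist b b')) :
    Continuous fun p : Y × Y => D p.1 p.2 := by
  rw [continuous_iff_continuousAt]
  rintro ⟨a₀, b₀⟩
  rw [ContinuousAt, tendsto_iff_dist_tendsto_zero]
  refine squeeze_zero (g := fun p : Y × Y => K * (dist p.1 a₀ + dist p.2 b₀))
    (fun _ => dist_nonneg) (fun p => ?_) ?_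
  · rw [Real.dist_eq]
    exact hlip _ _ _ _
  · have hc : Continuous fun p : Y × Y => K * (dist p.1 a₀ + dist p.2 b₀) := by
      fun_prop
    have h := hc.tendsto (a₀, b₀)
    simpa using h

private theorem mf_lim {Y : Type} [MetricSpace Y] {D : Y → Y → ℝ} {K : ℝ} (hK : 0 ≤ K)
    (hlip : ∀ a a' b b', |D a b - D a' b'| ≤ K * (dist a a' + dist b b'))
    {a : ℕ → SUGroup n → Y} {f : SUGroup n → Y} (la : TendstoLocallyUniformly a f atTop) :
    TendstoLocallyUniformly (fun i (p : SUGroup n × SUGroup n) => D (a i p.1) (a i p.2))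
      (fun p => D (f p.1) (f p.2)) atTop := by
  rw [Metric.tendstoLocallyUniformly_iff] at la ⊢
  rintro ε hε ⟨g, h⟩
  have hε' : 0 < ε / (2 * (K + 1)) := by positivity
  obtain ⟨t1, ht1, h1⟩ := la _ hε' g
  obtain ⟨t2, ht2, h2⟩ := la _ hε' h
  refine ⟨t1 ×ˢ t2, prod_mem_nhds ht1 ht2, ?_⟩
  filter_upwards [h1, h2] with i hi1 hi2 p hp
  have e1 := hi1 p.1 hp.1
  have e2 := hi2 p.2 hp.2
  rw [Real.dist_eq]
  refine lt_of_le_of_lt (hlip _ _ _ _) ?_
  have e3 : K * (dist (f p.1) (a i p.1) + dist (f p.2) (a i p.2)) ≤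
      (K + 1) * (dist (f p.1) (a i p.1) + dist (f p.2) (a i p.2)) :=
    mul_le_mul_of_nonneg_right (by linarith) (add_nonneg dist_nonneg dist_nonneg)
  refine lt_of_le_of_lt e3 ?_
  have e4 : dist (f p.1) (a i p.1) + dist (f p.2) (a i p.2) <
      ε / (2 * (K + 1)) + ε / (2 * (K + 1)) := add_lt_add e1 e2
  have e5 : (K + 1) * (ε / (2 * (K + 1)) + ε / (2 * (K + 1))) = ε := by
    field_simp
    ring
  calc (K + 1) * (dist (f p.1) (a i p.1) + dist (f p.2) (a i p.2)) <
        (K + 1) * (ε / (2 * (K + 1)) + ε / (2 * (K + 1))) :=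
        mul_lt_mul_of_pos_left e4 (by linarith)
    _ = ε := e5

/-- **B14.** Proof. `Fi i g h := max (D (a i g) (a i h)) (D (b i g) (b i h))` for `i ≥ i₀`
(`s i > n + 4 N + 4` from `i₀` on; shift the index). `b i h` is the barycentre of `x ↦ a i (h x)` for
`kapM n (s i)`, and, by `rot_law` and `a i (h * pt (zc x)) = a i (h * x)`, also of
`x ↦ a i (h * pt (rf v (zc x)))`; so `Jen2.le` gives
`D (b i g) (b i h) ≤ ∫ kap D (a i (g x)) (a i (h * pt (rf v (zc x))))`, and the same with `a`, `b`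
exchanged. Growth: `Jen2.lip` and `ga`, `gb`. Local uniform convergence: `Jen2.lip`. -/
theorem mir_of_pairs (hn : 1 ≤ n) {Y : Type} [MetricSpace Y] {Φ : Y → Y → ℝ} {κ : ℝ} (T : Tgt Φ κ)
    {y₀ : Y} {f : SUGroup n → Y} {C : ℝ} {N : ℕ} {s : ℕ → ℕ} {a b : ℕ → SUGroup n → Y}
    (hs : Tendsto s atTop atTop) (ca : ∀ j, Continuous (a j)) (cb : ∀ j, Continuous (b j))
    (ka : ∀ (j : ℕ) (g k : SUGroup n), ch k = 1 → a j (g * k) = a j g)
    (kb : ∀ (j : ℕ) (g k : SUGroup n), ch k = 1 → b j (g * k) = b j g)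
    (ga : ∀ j g, dist y₀ (a j g) ≤ C * ch g ^ (2 * N))
    (gb : ∀ j g, dist y₀ (b j g) ≤ C * ch g ^ (2 * N))
    (ab : ∀ j, Bs Φ (s j) (a j) (b j)) (ba : ∀ j, Bs Φ (s j) (b j) (a j))
    (la : TendstoLocallyUniformly a f atTop) (lb : TendstoLocallyUniformly b f atTop)
    {D : Y → Y → ℝ} (hD : Jen2 Φ D) : Mir fun g h => D (f g) (f h) := by
  obtain ⟨K, hK, hlip⟩ := hD.lip
  have hDc := mf_cont hlip
  obtain ⟨i₀, hi₀⟩ := (tendsto_atTop.1 hs (n + 4 * N + 5)).exists_forall_of_atTop
  have hC : 0 ≤ C := by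
    have h1 := dist_nonneg.trans (ga 0 1)
    have h2 : 0 < ch (1 : SUGroup n) ^ (2 * N) :=
      pow_pos (lt_of_lt_of_le one_pos (one_le_ch _)) _
    nlinarith
  have hshift : Tendsto (fun i : ℕ => i + i₀) atTop atTop := tendsto_add_atTop_nat i₀
  have gro : ∀ u : SUGroup n → Y, (∀ g, dist y₀ (u g) ≤ C * ch g ^ (2 * N)) → ∀ g h,
      |D (u g) (u h)| ≤ (|D y₀ y₀| + 2 * K * C) * (ch g ^ (2 * N) * ch h ^ (2 * N)) := by
    intro u hu g h
    have e1 := hlip (u g) y₀ (u h) y₀
    have e2 : |D (u g) (u h)| ≤ |D y₀ y₀| + K * (dist (u g) y₀ + dist (u h) y₀) := by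
      calc |D (u g) (u h)| = |(D (u g) (u h) - D y₀ y₀) + D y₀ y₀| := by ring_nf
        _ ≤ |D (u g) (u h) - D y₀ y₀| + |D y₀ y₀| := abs_add_le _ _
        _ ≤ _ := by linarith
    have e3 : 1 ≤ ch g ^ (2 * N) := one_le_pow₀ (one_le_ch g)
    have e4 : 1 ≤ ch h ^ (2 * N) := one_le_pow₀ (one_le_ch h)
    have e5 := hu g
    have e6 := hu h
    rw [dist_comm] at e5 e6
    have e7 : ch g ^ (2 * N) ≤ ch g ^ (2 * N) * ch h ^ (2 * N) :=
      le_mul_of_one_le_right (by linarith) e4
    have e8 : ch h ^ (2 * N) ≤ ch g ^ (2 * N) * ch h ^ (2 * N) :=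
      le_mul_of_one_le_left (by linarith) e3
    have e9 : 1 ≤ ch g ^ (2 * N) * ch h ^ (2 * N) := e3.trans e7
    have e10 : dist (u g) y₀ + dist (u h) y₀ ≤
        2 * C * (ch g ^ (2 * N) * ch h ^ (2 * N)) := by
      have f1 := mul_le_mul_of_nonneg_left e7 hC
      have f2 := mul_le_mul_of_nonneg_left e8 hC
      linarith
    have e11 := mul_le_mul_of_nonneg_left e10 hK
    have e12 := mul_le_mul_of_nonneg_left e9 (abs_nonneg (D y₀ y₀))
    linarith
  refine ⟨fun i => s (i + i₀), fun i g h => max (D (a (i + i₀) g) (a (i + i₀) h))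
    (D (b (i + i₀) g) (b (i + i₀) h)), N, |D y₀ y₀| + 2 * K * C, hs.comp hshift, ?_, ?_, ?_, ?_,
    ?_⟩
  · intro i
    refine Continuous.max ?_ ?_
    · exact hDc.comp (((ca _).comp continuous_fst).prodMk ((ca _).comp continuous_snd))
    · exact hDc.comp (((cb _).comp continuous_fst).prodMk ((cb _).comp continuous_snd))
  · intro i g h
    have e1 := gro _ (ga (i + i₀)) g h
    have e2 := gro _ (gb (i + i₀)) g h
    rw [abs_le] at e1 e2 ⊢
    exact ⟨e1.1.trans (le_max_left _ _), max_le e1.2 e2.2⟩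
  · intro i g h k hk
    simp only [ka _ _ _ hk, kb _ _ _ hk, and_self]
  · have h1 := mf_lim hK hlip la
    have h2 := mf_lim hK hlip lb
    rw [Metric.tendstoLocallyUniformly_iff] at h1 h2 ⊢
    intro ε hε p
    obtain ⟨t1, ht1, h1⟩ := h1 ε hε p
    obtain ⟨t2, ht2, h2⟩ := h2 ε hε p
    refine ⟨t1 ∩ t2, inter_mem ht1 ht2, ?_⟩
    have h1' := hshift.eventually h1
    have h2' := hshift.eventually h2
    filter_upwards [h1', h2'] with i hi1 hi2 q hq
    have e1 := hi1 q hq.1
    have e2 := hi2 q hq.2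
    rw [Real.dist_eq] at e1 e2 ⊢
    have e3 := abs_max_sub_max_le_max (D (f q.1) (f q.2)) (D (f q.1) (f q.2))
      (D (a (i + i₀) q.1) (a (i + i₀) q.2)) (D (b (i + i₀) q.1) (b (i + i₀) q.2))
    rw [max_self] at e3
    exact lt_of_le_of_lt e3 (max_lt e1 e2)
  · intro i v hv g h
    set j := i + i₀ with hj
    have hsj : n + 4 * N + 5 ≤ s j := hi₀ j (by omega)
    have hprob := isProb_kapM (n := n) (s := s j) (by omega)
    have hrc := mf_ptrf hv
    have hch := mf_ch hv
    -- one direction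
    have main : ∀ u u' : SUGroup n → Y, Continuous u → (∀ g k : SUGroup n, ch k = 1 →
        u (g * k) = u g) → (∀ g, dist y₀ (u g) ≤ C * ch g ^ (2 * N)) → Bs Φ (s j) u u' →
        D (u' g) (u' h) ≤ ∫ x, kap (s j) x * D (u (g * x)) (u (h * pt (rf v (zc x)))) ∂(mu n) := by
      intro u u' hu ku gu hb
      have h3 := hD.le (kapM n (s j)) (fun x => u (g * x)) (fun x => u (h * pt (rf v (zc x))))
        (u' g) (u' h) (mf_sqI (r := fun x => x) continuous_id (fun _ => rfl) hu gu (by omega) g)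
        (mf_sqI hrc hch hu gu (by omega) h) (hb g)
        (mf_bar hn T hu ku (by omega) h (hb h) hv)
      rw [integral_kapM] at h3
      exact h3
    have hgrow : ∀ u : SUGroup n → Y, Continuous u → (∀ g, dist y₀ (u g) ≤ C * ch g ^ (2 * N)) →
        Integrable (fun x => kap (s j) x * D (u (g * x)) (u (h * pt (rf v (zc x))))) (mu n) := by
      intro u hu gu
      have hcont : Continuous fun x : SUGroup n => D (u (g * x)) (u (h * pt (rf v (zc x)))) :=
        hDc.comp ((hu.comp (continuous_const.mul continuous_id)).prodMk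
          (hu.comp (continuous_const.mul hrc)))
      refine ((integrable_kap_pow (n := n) (s := s j) (N := 2 * N) (by omega)).const_mul
        ((|D y₀ y₀| + 2 * K * C) * ((2 * ch g) ^ (2 * N) * (2 * ch h) ^ (2 * N)))).mono'
        ((continuous_kap (s j)).mul hcont).aestronglyMeasurable
        (Filter.Eventually.of_forall fun x => ?_)
      rw [norm_mul, Real.norm_eq_abs, Real.norm_eq_abs, abs_of_nonneg (kap_nonneg (s j) x)]
      have e0 : 0 ≤ |D y₀ y₀| + 2 * K * C := by positivity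
      have e1 : |D (u (g * x)) (u (h * pt (rf v (zc x))))| ≤ (|D y₀ y₀| + 2 * K * C) *
          (ch (g * x) ^ (2 * N) * ch (h * pt (rf v (zc x))) ^ (2 * N)) := by
        have f1 := hlip (u (g * x)) y₀ (u (h * pt (rf v (zc x)))) y₀
        have f2 : |D (u (g * x)) (u (h * pt (rf v (zc x))))| ≤ |D y₀ y₀| +
            K * (dist (u (g * x)) y₀ + dist (u (h * pt (rf v (zc x)))) y₀) := by
          calc |D (u (g * x)) (u (h * pt (rf v (zc x))))| =
              |(D (u (g * x)) (u (h * pt (rf v (zc x)))) - D y₀ y₀) + D y₀ y₀| := by ring_nf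
            _ ≤ |D (u (g * x)) (u (h * pt (rf v (zc x)))) - D y₀ y₀| + |D y₀ y₀| := abs_add_le _ _
            _ ≤ _ := by linarith
        have e3 : 1 ≤ ch (g * x) ^ (2 * N) := one_le_pow₀ (one_le_ch _)
        have e4 : 1 ≤ ch (h * pt (rf v (zc x))) ^ (2 * N) := one_le_pow₀ (one_le_ch _)
        have e5 := gu (g * x)
        have e6 := gu (h * pt (rf v (zc x)))
        rw [dist_comm] at e5 e6
        have e7 : ch (g * x) ^ (2 * N) ≤
            ch (g * x) ^ (2 * N) * ch (h * pt (rf v (zc x))) ^ (2 * N) :=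
          le_mul_of_one_le_right (by linarith) e4
        have e8 : ch (h * pt (rf v (zc x))) ^ (2 * N) ≤
            ch (g * x) ^ (2 * N) * ch (h * pt (rf v (zc x))) ^ (2 * N) :=
          le_mul_of_one_le_left (by linarith) e3
        have e9 := e3.trans e7
        have f3 := mul_le_mul_of_nonneg_left e7 hC
        have f4 := mul_le_mul_of_nonneg_left e8 hC
        have e10 : dist (u (g * x)) y₀ + dist (u (h * pt (rf v (zc x)))) y₀ ≤
            2 * C * (ch (g * x) ^ (2 * N) * ch (h * pt (rf v (zc x))) ^ (2 * N)) := by linarith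
        have e11 := mul_le_mul_of_nonneg_left e10 hK
        have e12 := mul_le_mul_of_nonneg_left e9 (abs_nonneg (D y₀ y₀))
        linarith
      have e2 : ch (g * x) ^ (2 * N) * ch (h * pt (rf v (zc x))) ^ (2 * N) ≤
          ((2 * ch g) ^ (2 * N) * (2 * ch h) ^ (2 * N)) * ch x ^ (2 * (2 * N)) := by
        have f1 : ch (g * x) ^ (2 * N) ≤ (2 * ch g) ^ (2 * N) * ch x ^ (2 * N) := by
          rw [← mul_pow]
          exact pow_le_pow_left₀ (zero_le_one.trans (one_le_ch _)) (ch_mul_le' g x) _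
        have f2 : ch (h * pt (rf v (zc x))) ^ (2 * N) ≤ (2 * ch h) ^ (2 * N) * ch x ^ (2 * N) := by
          rw [← mul_pow]
          refine pow_le_pow_left₀ (zero_le_one.trans (one_le_ch _)) ?_ _
          have f3 := ch_mul_le' h (pt (rf v (zc x)))
          rwa [hch] at f3
        have f4 : ch x ^ (2 * (2 * N)) = ch x ^ (2 * N) * ch x ^ (2 * N) := by
          rw [← pow_add]
          congr 1
          ring
        rw [f4]
        have f5 := mul_le_mul f1 f2 (pow_nonneg (zero_le_one.trans (one_le_ch _)) _)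
          (mul_nonneg (pow_nonneg (by linarith [one_le_ch g]) _)
            (pow_nonneg (zero_le_one.trans (one_le_ch x)) _))
        refine f5.trans (le_of_eq ?_)
        ring
      calc kap (s j) x * |D (u (g * x)) (u (h * pt (rf v (zc x))))| ≤
          kap (s j) x * ((|D y₀ y₀| + 2 * K * C) *
            (((2 * ch g) ^ (2 * N) * (2 * ch h) ^ (2 * N)) * ch x ^ (2 * (2 * N)))) :=
            mul_le_mul_of_nonneg_left (e1.trans (mul_le_mul_of_nonneg_left e2 e0))
              (kap_nonneg (s j) x)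
        _ = _ := by ring
    have i1 := hgrow _ (ca j) (ga j)
    have i2 := hgrow _ (cb j) (gb j)
    have i3 : Integrable (fun x => kap (s j) x * max (D (a j (g * x)) (a j (h * pt (rf v (zc x)))))
        (D (b j (g * x)) (b j (h * pt (rf v (zc x)))))) (mu n) := by
      refine (i1.sup i2).congr (Filter.Eventually.of_forall fun x => ?_)
      simp only [Pi.sup_apply]
      exact (mul_max_of_nonneg _ _ (kap_nonneg (s j) x)).symm
    refine max_le ?_ ?_
    · refine (main _ _ (cb j) (kb j) (gb j) (ba j)).trans (integral_mono i2 i3 fun x => ?_)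
      exact mul_le_mul_of_nonneg_left (le_max_right _ _) (kap_nonneg (s j) x)
    · refine (main _ _ (ca j) (ka j) (ga j) (ab j)).trans (integral_mono i1 i3 fun x => ?_)
      exact mul_le_mul_of_nonneg_left (le_max_left _ _) (kap_nonneg (s j) x)

theorem Mir.left {F : SUGroup n → SUGroup n → ℝ} (h : Mir F) (a : SUGroup n) :
    Mir fun g h => F (a * g) (a * h) := by
  obtain ⟨s, Fi, N, C, hs, hc, hg, hk, hl, hm⟩ := h.ex
  have hcont : Continuous fun p : SUGroup n × SUGroup n => (a * p.1, a * p.2) :=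
    (continuous_const.mul continuous_fst).prodMk (continuous_const.mul continuous_snd)
  have hC : 0 ≤ C := by
    have h1 := (abs_nonneg _).trans (hg 0 1 1)
    have h2 : 0 < ch (1 : SUGroup n) ^ (2 * N) * ch (1 : SUGroup n) ^ (2 * N) :=
      mul_pos (pow_pos (lt_of_lt_of_le one_pos (one_le_ch _)) _)
        (pow_pos (lt_of_lt_of_le one_pos (one_le_ch _)) _)
    nlinarith
  refine ⟨s, fun i g h => Fi i (a * g) (a * h), N, C * ((2 * ch a) ^ (2 * N) *
    (2 * ch a) ^ (2 * N)), hs, fun i => (hc i).comp hcont, fun i g h => ?_, fun i g h k hk1 => ?_,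
    ?_, fun i v hv g h => ?_⟩
  · refine (hg i (a * g) (a * h)).trans ?_
    have f1 : ch (a * g) ^ (2 * N) ≤ (2 * ch a) ^ (2 * N) * ch g ^ (2 * N) := by
      rw [← mul_pow]
      exact pow_le_pow_left₀ (zero_le_one.trans (one_le_ch _)) (ch_mul_le' a g) _
    have f2 : ch (a * h) ^ (2 * N) ≤ (2 * ch a) ^ (2 * N) * ch h ^ (2 * N) := by
      rw [← mul_pow]
      exact pow_le_pow_left₀ (zero_le_one.trans (one_le_ch _)) (ch_mul_le' a h) _
    have f5 := mul_le_mul f1 f2 (pow_nonneg (zero_le_one.trans (one_le_ch _)) _)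
      (mul_nonneg (pow_nonneg (by linarith [one_le_ch a]) _)
        (pow_nonneg (zero_le_one.trans (one_le_ch g)) _))
    refine (mul_le_mul_of_nonneg_left f5 hC).trans (le_of_eq ?_)
    ring
  · have h1 := hk i (a * g) (a * h) k hk1
    rw [mul_assoc, mul_assoc] at h1
    exact h1
  · exact hl.comp _ hcont
  · refine (hm i v hv (a * g) (a * h)).trans (le_of_eq ?_)
    refine integral_congr_ae (Filter.Eventually.of_forall fun x => ?_)
    simp only [mul_assoc]

end Pool.Agent.Lib.MP_5d4057_al.IN
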