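import Pool.Agent.Lib.MP_5d4057_al.IN.Rot

/-! The mirror estimate (text, new C3): the barrier decreases in the mean under the mirror coupling. -/

set_option autoImplicit false

namespace Pool.Agent.Lib.MP_5d4057_al.IN

open Matrix MeasureTheory Filter Topology Pool.Agent.Lib.MP_5d4057_al Pool.Agent.Lib.MP_5d4057_al.Hyb
  Pool.Agent.Lib.MP_5d4057_al.HM

variable {n : ℕ}

/-- The barrier `A |w - z| - B |w - z|² + M |(z + w)/2 - m₀|² + <c, w - z>`. -/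
noncomputable def bar (A B M : ℝ) (c m₀ z w : Fin n → ℂ) : ℝ :=
  A * nr (w - z) - B * nr (w - z) ^ 2 + M * nr ((1 / 2 : ℂ) • (z + w) - m₀) ^ 2 + ip c (w - z)

/-- The displacement of the two points. -/
noncomputable def qm (z w v : Fin n → ℂ) (x : SUGroup n) : Fin n → ℂ :=
  zc (pt w * pt (rf v (zc x))) - zc (pt z * x)

/-! ### Algebra -/

private theorem mi_hp_add (z a b : Fin n → ℂ) : hp z (a + b) = hp z a + hp z b := by
  simp only [hp, Pi.add_apply, mul_add, Finset.sum_add_distrib]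

private theorem mi_hp_smul (z : Fin n → ℂ) (t : ℂ) (a : Fin n → ℂ) :
    hp z (t • a) = t * hp z a := by
  simp only [hp, Pi.smul_apply, smul_eq_mul, Finset.mul_sum]
  exact Finset.sum_congr rfl fun j _ => by ring

private theorem mi_sg_add (z a b : Fin n → ℂ) : sg z (a + b) = sg z a + sg z b := by
  funext j
  simp only [sg, Pi.add_apply, mi_hp_add]
  ring

private theorem mi_sg_smul (z : Fin n → ℂ) (t : ℂ) (a : Fin n → ℂ) :
    sg z (t • a) = t • sg z a := by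
  funext j
  simp only [sg, Pi.smul_apply, smul_eq_mul, mi_hp_smul]
  ring

private theorem mi_rf (v z : Fin n → ℂ) : rf v z = z + (((-(2 * ip v z) : ℝ) : ℂ)) • v := by
  funext j
  simp only [rf, Pi.add_apply, Pi.smul_apply, smul_eq_mul]
  push_cast
  ring

private theorem mi_ip_smulC (c : Fin n → ℂ) (t : ℝ) (z : Fin n → ℂ) :
    ip ((t : ℂ) • c) z = t * ip c z := by
  rw [ip_comm, ip_smul, ip_comm]

/-- `|a + b|² = |a|² + 2 <a,b> + |b|²` -/
private theorem mi_add_sq (a b : Fin n → ℂ) :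
    nr (a + b) ^ 2 = nr a ^ 2 + 2 * ip a b + nr b ^ 2 := by
  have h := nr_sub_sq a (-b)
  rw [sub_neg_eq_add, nr_neg] at h
  have h2 : ip a (-b) = - ip a b := by
    have := ip_smul a (-1) b
    rw [Complex.ofReal_neg, Complex.ofReal_one, neg_one_smul] at this
    rw [this]
    ring
  rw [h, h2]
  ring

/-- `|a|² = |b|² + 2 <b, a - b> + |a - b|²` -/
private theorem mi_split_sq (a b : Fin n → ℂ) :
    nr a ^ 2 = nr b ^ 2 + 2 * ip b (a - b) + nr (a - b) ^ 2 := by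
  have h := mi_add_sq b (a - b)
  rwa [add_sub_cancel] at h

/-- Pythagoras. -/
private theorem mi_pyth {e : Fin n → ℂ} (he : nr e = 1) (a : Fin n → ℂ) :
    nr (a - ((ip e a : ℝ) : ℂ) • e) ^ 2 = nr a ^ 2 - ip e a ^ 2 := by
  rw [nr_sub_sq, ip_smul, ip_comm a e, nr_smul, he, mul_one, Complex.norm_real, Real.norm_eq_abs,
    sq_abs]
  ring

/-! ### Continuity and integrability -/

private theorem mi_cont_zc : Continuous fun x : SUGroup n => zc x :=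
  continuous_pi fun j => continuous_zc j

private theorem mi_cont_phi (g : SUGroup n) : Continuous fun x : SUGroup n => zc (g * x) :=
  mi_cont_zc.comp (continuous_const.mul continuous_id)

private theorem mi_cont_ip (c : Fin n → ℂ) : Continuous fun z : Fin n → ℂ => ip c z := by
  unfold ip hp
  exact Complex.continuous_re.comp (continuous_finsetSum _ fun j _ =>
    continuous_const.mul (continuous_apply j))

private theorem mi_cont_rf (v : Fin n → ℂ) : Continuous fun z : Fin n → ℂ => rf v z := by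
  have h : (fun z : Fin n → ℂ => rf v z) = fun z => z + (((-(2 * ip v z) : ℝ) : ℂ)) • v :=
    funext fun z => mi_rf v z
  rw [h]
  exact continuous_id.add ((Complex.continuous_ofReal.comp
    (continuous_const.mul (mi_cont_ip v)).neg).smul continuous_const)

private theorem mi_cont_ptrf {v : Fin n → ℂ} (hv : nr v = 1) :
    Continuous fun x : SUGroup n => pt (rf v (zc x)) := by
  have h1 : Continuous fun x : SUGroup n => rf v (zc x) := (mi_cont_rf v).comp mi_cont_zc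
  refine continuousOn_pt.comp_continuous h1 fun x => ?_
  show nr (rf v (zc x)) < 1
  rw [nr_rf hv]
  exact nr_zc_lt x

private theorem mi_cont_psi (g : SUGroup n) {v : Fin n → ℂ} (hv : nr v = 1) :
    Continuous fun x : SUGroup n => zc (g * pt (rf v (zc x))) :=
  mi_cont_zc.comp (continuous_const.mul (mi_cont_ptrf hv))

private theorem mi_cont_qm (z w : Fin n → ℂ) {v : Fin n → ℂ} (hv : nr v = 1) :
    Continuous fun x : SUGroup n => qm z w v x :=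
  (mi_cont_psi (pt w) hv).sub (mi_cont_phi (pt z))

private theorem mi_int {s : ℕ} (hs : n < s) {f : SUGroup n → ℝ} (hf : Continuous f) (K : ℝ)
    (hK : ∀ x, |f x| ≤ K) (d : ℝ) : IntegrableOn (fun x => kap s x * f x) (bl n d) (mu n) := by
  refine Integrable.integrableOn ?_
  refine Integrable.mono' ((integrable_kap (n := n) hs).mul_const K)
    ((continuous_kap s).mul hf).aestronglyMeasurable (Filter.Eventually.of_forall fun x => ?_)
  rw [norm_mul, Real.norm_eq_abs, Real.norm_eq_abs, abs_of_nonneg (kap_nonneg s x)]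
  exact mul_le_mul_of_nonneg_left (hK x) (kap_nonneg s x)

private theorem mi_bl {d : ℝ} (hd : 0 < d) {x : SUGroup n} (hx : x ∈ bl n d) : nr (zc x) ≤ d := by
  have h1 : nr (zc x) ^ 2 ≤ d ^ 2 := by
    rw [nr_zc_sq]
    exact hx
  exact (sq_le_sq₀ (nr_nonneg _) hd.le).1 h1

private theorem mi_mono {s : ℕ} (hs : n < s) {d : ℝ} {f g : SUGroup n → ℝ} (hf : Continuous f)
    (K : ℝ) (hK : ∀ x, |f x| ≤ K) (hg : Continuous g) (K' : ℝ) (hK' : ∀ x, |g x| ≤ K')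
    (h : ∀ x ∈ bl n d, f x ≤ g x) :
    ∫ x in bl n d, kap s x * f x ∂(mu n) ≤ ∫ x in bl n d, kap s x * g x ∂(mu n) :=
  setIntegral_mono_on (mi_int hs hf K hK d) (mi_int hs hg K' hK' d) (measurableSet_bl d)
    fun x hx => mul_le_mul_of_nonneg_left (h x hx) (kap_nonneg s x)

private theorem mi_nr_qm (z w v : Fin n → ℂ) (x : SUGroup n) : nr (qm z w v x) ≤ 2 := by
  have h := nr_sub_le (zc (pt w * pt (rf v (zc x)))) (zc (pt z * x))
  have h1 := nr_zc_lt (pt w * pt (rf v (zc x)))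
  have h2 := nr_zc_lt (pt z * x)
  rw [qm]
  linarith

private theorem mi_nr_sub {a b : Fin n → ℂ} : nr a ≤ nr b + nr (a - b) := by
  have h := nr_add_le b (a - b)
  rwa [add_sub_cancel] at h

/-! ### Means -/

private theorem mi_mean_q (hn : 1 ≤ n) {s : ℕ} (hs : n < s) {z w : Fin n → ℂ} (hz : nr z ≤ 1 / 4)
    (hw : nr w ≤ 1 / 4) {v : Fin n → ℂ} (hv : nr v = 1) {d : ℝ} (hd : 0 < d) (hd1 : d < 1)
    (u : Fin n → ℂ) : ∫ x in bl n d, kap s x * ip u (qm z w v x - (w - z)) ∂(mu n) = 0 := by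
  have h1 := mean_zc hn hs hd hd1 u (pt z)
  have h2 := mean_zc_rf hn hs hd hd1 u hv (pt w)
  rw [zc_pt (by linarith)] at h1 h2
  have hb : ∀ y : SUGroup n, |ip u (zc y)| ≤ nr u := fun y =>
    (abs_ip_le u (zc y)).trans (mul_le_of_le_one_right (nr_nonneg u) (nr_zc_lt y).le)
  have i1 : IntegrableOn (fun x => kap s x * ip u (zc (pt z * x))) (bl n d) (mu n) :=
    mi_int hs ((mi_cont_ip u).comp (mi_cont_phi (pt z))) (nr u) (fun x => hb (pt z * x)) d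
  have i2 : IntegrableOn (fun x => kap s x * ip u (zc (pt w * pt (rf v (zc x))))) (bl n d)
      (mu n) :=
    mi_int hs ((mi_cont_ip u).comp (mi_cont_psi (pt w) hv)) (nr u)
      (fun x => hb (pt w * pt (rf v (zc x)))) d
  have i3 := mi_int hs (continuous_const : Continuous fun _ : SUGroup n => ip u (w - z))
    |ip u (w - z)| (fun x => le_rfl) d
  have e : ∀ x : SUGroup n, kap s x * ip u (qm z w v x - (w - z)) =
      kap s x * ip u (zc (pt w * pt (rf v (zc x)))) - kap s x * ip u (zc (pt z * x)) -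
        kap s x * ip u (w - z) := by
    intro x
    rw [qm, ip_sub, ip_sub]
    ring
  have i4 : IntegrableOn (fun x => kap s x * ip u (zc (pt w * pt (rf v (zc x)))) -
      kap s x * ip u (zc (pt z * x))) (bl n d) (mu n) := i2.sub i1
  simp only [e]
  rw [integral_sub i4 i3, integral_sub i2 i1, h1, h2, integral_mul_const, ip_sub]
  ring

private theorem mi_mean_m (hn : 1 ≤ n) {s : ℕ} (hs : n < s) {z w : Fin n → ℂ} (hz : nr z ≤ 1 / 4)
    (hw : nr w ≤ 1 / 4) {v : Fin n → ℂ} (hv : nr v = 1) {d : ℝ} (hd : 0 < d) (hd1 : d < 1)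
    (u : Fin n → ℂ) : ∫ x in bl n d, kap s x * ip u ((1 / 2 : ℂ) • (zc (pt z * x) +
      zc (pt w * pt (rf v (zc x)))) - (1 / 2 : ℂ) • (z + w)) ∂(mu n) = 0 := by
  have h1 := mean_zc hn hs hd hd1 u (pt z)
  have h2 := mean_zc_rf hn hs hd hd1 u hv (pt w)
  rw [zc_pt (by linarith)] at h1 h2
  have hb : ∀ y : SUGroup n, |ip u (zc y)| ≤ nr u := fun y =>
    (abs_ip_le u (zc y)).trans (mul_le_of_le_one_right (nr_nonneg u) (nr_zc_lt y).le)
  have i1 : IntegrableOn (fun x => kap s x * ip u (zc (pt z * x))) (bl n d) (mu n) :=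
    mi_int hs ((mi_cont_ip u).comp (mi_cont_phi (pt z))) (nr u) (fun x => hb (pt z * x)) d
  have i2 : IntegrableOn (fun x => kap s x * ip u (zc (pt w * pt (rf v (zc x))))) (bl n d)
      (mu n) :=
    mi_int hs ((mi_cont_ip u).comp (mi_cont_psi (pt w) hv)) (nr u)
      (fun x => hb (pt w * pt (rf v (zc x)))) d
  have i3 := mi_int hs (continuous_const : Continuous fun _ : SUGroup n => (ip u z + ip u w))
    |ip u z + ip u w| (fun x => le_rfl) d
  have hh : ((1 / 2 : ℝ) : ℂ) = (1 / 2 : ℂ) := by push_cast; ring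
  have e : ∀ x : SUGroup n, kap s x * ip u ((1 / 2 : ℂ) • (zc (pt z * x) +
      zc (pt w * pt (rf v (zc x)))) - (1 / 2 : ℂ) • (z + w)) =
      (1 / 2) * (kap s x * ip u (zc (pt z * x)) + kap s x * ip u (zc (pt w * pt (rf v (zc x)))) -
        kap s x * (ip u z + ip u w)) := by
    intro x
    rw [← hh, ip_sub, ip_smul, ip_smul, ip_add, ip_add]
    ring
  have i4 : IntegrableOn (fun x => kap s x * ip u (zc (pt z * x)) +
      kap s x * ip u (zc (pt w * pt (rf v (zc x))))) (bl n d) (mu n) := i1.add i2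
  simp only [e]
  rw [integral_const_mul, integral_sub i4 i3, integral_add i1 i2, h1, h2, integral_mul_const]
  ring

/-! ### The first and second terms -/

/-- Pointwise expansion of the difference. For `nr z, nr w ≤ κ ≤ 1/4`, `z ≠ w`, `e := (w - z)/|w - z|`,
`(m, c)` from `exists_mirror z e`, `ρ = |w - z|`, `ζ = zc x`, `|ζ| ≤ 1/2`:
`qm = (w - z) - 2 ip m ζ c e + E` with `nr E ≤ 8 ρ |ζ| + 8 |ζ|²`. (`qm = w - z + σ_w R ζ - σ_z ζ + errors`,
`σ_w R ζ - σ_z ζ = (σ_w - σ_z) R ζ + σ_z (R ζ - ζ)`, `σ_z (R ζ - ζ) = -2 ip m ζ σ_z m`.) -/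
theorem qm_expand {z w : Fin n → ℂ} (hz : nr z ≤ 1 / 4) (hw : nr w ≤ 1 / 4) {m e : Fin n → ℂ} {c : ℝ}
    (hm : nr m = 1) (he : nr e = 1) (hc : sg z m = (c : ℂ) • e) {x : SUGroup n}
    (hx : nr (zc x) ≤ 1 / 2) :
    nr (qm z w m x - (w - z) + ((2 * c * ip m (zc x) : ℝ) : ℂ) • e) ≤
      8 * nr (w - z) * nr (zc x) + 8 * nr (zc x) ^ 2 := by
  have hR : nr (rf m (zc x)) = nr (zc x) := nr_rf hm _
  have hpt : zc (pt (rf m (zc x))) = rf m (zc x) := zc_pt (by rw [hR]; linarith)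
  have h1 := zc_pt_mul_sub (z := z) (by linarith) x hx
  have h2 := zc_pt_mul_sub (z := w) (by linarith) (pt (rf m (zc x))) (by rw [hpt, hR]; exact hx)
  rw [hpt, hR] at h2
  have h3 := sg_lip (z := w) (w := z) (ζ := rf m (zc x)) (by linarith) (by linarith)
  rw [hR] at h3
  have h4 : sg z (rf m (zc x)) = sg z (zc x) - ((2 * c * ip m (zc x) : ℝ) : ℂ) • e := by
    rw [mi_rf, mi_sg_add, mi_sg_smul, hc, smul_smul, sub_eq_add_neg, ← neg_smul]
    congr 2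
    push_cast
    ring
  have e1 : qm z w m x - (w - z) + ((2 * c * ip m (zc x) : ℝ) : ℂ) • e =
      ((zc (pt w * pt (rf m (zc x))) - w - sg w (rf m (zc x))) +
        (sg w (rf m (zc x)) - sg z (rf m (zc x)))) - (zc (pt z * x) - z - sg z (zc x)) := by
    rw [h4, qm]
    abel
  rw [e1]
  have h5 := nr_sub_le ((zc (pt w * pt (rf m (zc x))) - w - sg w (rf m (zc x))) +
        (sg w (rf m (zc x)) - sg z (rf m (zc x)))) (zc (pt z * x) - z - sg z (zc x))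
  have h6 := nr_add_le (zc (pt w * pt (rf m (zc x))) - w - sg w (rf m (zc x)))
    (sg w (rf m (zc x)) - sg z (rf m (zc x)))
  have hzc := nr_nonneg (zc x)
  have hwz := nr_nonneg (w - z)
  have h7 : nr z * nr (zc x) ^ 2 ≤ 1 / 4 * nr (zc x) ^ 2 :=
    mul_le_mul_of_nonneg_right hz (sq_nonneg _)
  have h8 : nr w * nr (zc x) ^ 2 ≤ 1 / 4 * nr (zc x) ^ 2 :=
    mul_le_mul_of_nonneg_right hw (sq_nonneg _)
  have h9 : 0 ≤ nr (w - z) * nr (zc x) := mul_nonneg hwz hzc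
  nlinarith [sq_nonneg (nr (zc x))]

private theorem mi_unit {a : Fin n → ℂ} (ha : 0 < nr a) :
    nr ((((nr a)⁻¹ : ℝ) : ℂ) • a) = 1 := by
  rw [nr_smul, Complex.norm_real, Real.norm_eq_abs, abs_of_pos (inv_pos.2 ha),
    inv_mul_cancel₀ ha.ne']

private theorem mi_pos {z w : Fin n → ℂ} (h : z ≠ w) : 0 < nr (w - z) := by
  refine lt_of_le_of_ne (nr_nonneg _) fun h1 => h ?_
  have h2 := nr_eq_zero.1 h1.symm
  exact (sub_eq_zero.1 h2).symm

private theorem mi_hq_nonneg (x : SUGroup n) : 0 ≤ hq x := by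
  rw [← nr_zc_sq]
  exact sq_nonneg _

private theorem mi_i2 {s : ℕ} (hs : n < s) (d : ℝ) :
    IntegrableOn (fun x => kap s x * hq x) (bl n d) (mu n) := by
  refine mi_int hs continuous_hq 1 (fun x => ?_) d
  rw [abs_of_nonneg (mi_hq_nonneg x), ← nr_zc_sq]
  exact pow_le_one₀ (nr_nonneg _) (nr_zc_lt x).le

private theorem mi_ipw {s : ℕ} (hs : n < s) (k : ℕ) (d : ℝ) :
    IntegrableOn (fun x => kap s x * nr (zc x) ^ k) (bl n d) (mu n) := by
  refine mi_int hs ((continuous_nr.comp mi_cont_zc).pow k) 1 (fun x => ?_) d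
  show |nr (zc x) ^ k| ≤ 1
  rw [abs_of_nonneg (pow_nonneg (nr_nonneg _) _)]
  exact pow_le_one₀ (nr_nonneg _) (nr_zc_lt x).le

private theorem mi_mt_nonneg (s : ℕ) (d : ℝ) : 0 ≤ mt n s d :=
  setIntegral_nonneg (measurableSet_bl d) fun x _ =>
    mul_nonneg (kap_nonneg s x) (mi_hq_nonneg x)

private theorem mi_mom_nonneg (s k : ℕ) (d : ℝ) :
    0 ≤ ∫ x in bl n d, kap s x * nr (zc x) ^ k ∂(mu n) :=
  setIntegral_nonneg (measurableSet_bl d) fun x _ =>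
    mul_nonneg (kap_nonneg s x) (pow_nonneg (nr_nonneg _) _)

private theorem mi_iq {s : ℕ} (hs : n < s) (z w : Fin n → ℂ) {v : Fin n → ℂ} (hv : nr v = 1)
    (u : Fin n → ℂ) (d : ℝ) :
    IntegrableOn (fun x => kap s x * ip u (qm z w v x - (w - z))) (bl n d) (mu n) := by
  refine mi_int hs ((mi_cont_ip u).comp ((mi_cont_qm z w hv).sub continuous_const))
    (nr u * (2 + nr (w - z))) (fun x => ?_) d
  refine (abs_ip_le u _).trans (mul_le_mul_of_nonneg_left ?_ (nr_nonneg u))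
  show nr (qm z w v x - (w - z)) ≤ 2 + nr (w - z)
  have h1 := nr_sub_le (qm z w v x) (w - z)
  have h2 := mi_nr_qm z w v x
  linarith

/-- the pointwise bound for `mirr_one` -/
private theorem mi_one_pt {z w : Fin n → ℂ} (hz : nr z ≤ 1 / 4) (hw : nr w ≤ 1 / 4)
    {m e : Fin n → ℂ} {c : ℝ} (hm : nr m = 1) (he : nr e = 1) (hc1 : |c - 1| ≤ nr z)
    (hc : sg z m = (c : ℂ) • e) (hρ : 0 < nr (w - z)) (hwz : w - z = ((nr (w - z) : ℝ) : ℂ) • e)
    {x : SUGroup n} (hx : nr (zc x) ≤ nr (w - z) / 32) :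
    nr (qm z w m x) - nr (w - z) ≤ ip e (qm z w m x - (w - z)) +
      128 * (nr (w - z) * nr (zc x) ^ 2 + (nr (w - z))⁻¹ * nr (zc x) ^ 4) := by
  have hρ2 : nr (w - z) ≤ 1 / 2 := (nr_sub_le w z).trans (by linarith)
  have hex := qm_expand hz hw hm he hc (x := x) (by linarith)
  obtain ⟨ρ, hρe⟩ : ∃ ρ, nr (w - z) = ρ := ⟨_, rfl⟩
  obtain ⟨t, hte⟩ : ∃ t, nr (zc x) = t := ⟨_, rfl⟩
  obtain ⟨a, hae⟩ : ∃ a, ip m (zc x) = a := ⟨_, rfl⟩
  obtain ⟨E, hE⟩ : ∃ E, qm z w m x - (w - z) + ((2 * c * ip m (zc x) : ℝ) : ℂ) • e = E :=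
    ⟨_, rfl⟩
  have hat : |a| ≤ t := by
    have h := abs_ip_le m (zc x)
    rw [hm, one_mul, hte, hae] at h
    exact h
  have ht0 : 0 ≤ t := by rw [← hte]; exact nr_nonneg _
  rw [hE, hρe, hte] at hex
  rw [hρe, hte] at hx
  rw [hρe] at hρ hρ2 hwz
  have hE0 : 0 ≤ nr E := nr_nonneg _
  have hipE : |ip e E| ≤ nr E := by
    have h := abs_ip_le e E
    rwa [he, one_mul] at h
  have hee : ip e e = 1 := by rw [ip_self, he, one_pow]
  have h1 : qm z w m x - (w - z) = E - ((2 * c * a : ℝ) : ℂ) • e := by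
    rw [← hE, hae]
    abel
  have h2 : ip e (qm z w m x - (w - z)) = ip e E - 2 * c * a := by
    rw [h1, ip_sub, ip_smul, hee, mul_one]
  have h3 : ip e (w - z) = ρ := by rw [hwz, ip_smul, hee, mul_one]
  have h4 : ip e (qm z w m x) = ρ + (ip e E - 2 * c * a) := by
    rw [← h2, ip_sub, h3]
    ring
  have h5 : qm z w m x - ((ip e (qm z w m x) : ℝ) : ℂ) • e = E - ((ip e E : ℝ) : ℂ) • e := by
    have h6 : qm z w m x = (w - z) + (E - ((2 * c * a : ℝ) : ℂ) • e) := by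
      rw [← h1]
      abel
    rw [h4]
    conv_lhs => rw [h6, hwz]
    rw [← sub_eq_zero]
    funext j
    simp only [Pi.add_apply, Pi.sub_apply, Pi.smul_apply, smul_eq_mul, Pi.zero_apply]
    push_cast
    ring
  have h7 := mi_pyth he (qm z w m x)
  have h8 := mi_pyth he E
  rw [h5, h8, h4] at h7
  have hc2 : |c| ≤ 5 / 4 := by
    have := abs_le.1 (hc1.trans hz)
    rw [abs_le]
    constructor <;> linarith [this.1, this.2]
  have hca : |c * a| ≤ 5 / 4 * t := by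
    rw [abs_mul]
    exact mul_le_mul hc2 hat (abs_nonneg _) (by norm_num)
  have hca1 := abs_le.1 hca
  have hiE := abs_le.1 hipE
  -- bound on `E`
  have ht2 : t * t ≤ ρ / 32 * (1 / 64) := mul_le_mul hx (by linarith) ht0 (by linarith)
  have ht3 : ρ * t ≤ 1 / 2 * (ρ / 32) := mul_le_mul hρ2 hx ht0 (by norm_num)
  have hEb : nr E ≤ ρ * (33 / 256) := by nlinarith
  rw [h2, hρe, hte]
  have hQ : ρ / 2 ≤ ρ + (ip e E - 2 * c * a) := by nlinarith [hca1.2, hiE.1]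
  have hN : nr E ^ 2 ≤ 128 * (ρ ^ 2 * t ^ 2 + t ^ 4) := by
    have h9 : nr E ^ 2 ≤ (8 * ρ * t + 8 * t ^ 2) ^ 2 := pow_le_pow_left₀ hE0 hex 2
    nlinarith [sq_nonneg (8 * ρ * t - 8 * t ^ 2)]
  have hsq : nr (qm z w m x) ^ 2 ≤ ((ρ + (ip e E - 2 * c * a)) +
      128 * (ρ * t ^ 2 + ρ⁻¹ * t ^ 4)) ^ 2 := by
    obtain ⟨Q, hQe⟩ : ∃ Q, ρ + (ip e E - 2 * c * a) = Q := ⟨_, rfl⟩
    rw [hQe] at hQ h7 ⊢
    have h10 : nr (qm z w m x) ^ 2 ≤ Q ^ 2 + nr E ^ 2 := by nlinarith [sq_nonneg (ip e E)]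
    have h11 : ρ * (128 * (ρ * t ^ 2 + ρ⁻¹ * t ^ 4)) = 128 * (ρ ^ 2 * t ^ 2 + t ^ 4) := by
      field_simp
    have h12 : 0 ≤ 128 * (ρ * t ^ 2 + ρ⁻¹ * t ^ 4) := by positivity
    obtain ⟨Y, hY⟩ : ∃ Y, 128 * (ρ * t ^ 2 + ρ⁻¹ * t ^ 4) = Y := ⟨_, rfl⟩
    rw [hY] at h11 h12 ⊢
    nlinarith [mul_le_mul_of_nonneg_right hQ h12, sq_nonneg Y]
  have h13 := abs_le_of_sq_le_sq hsq (by
    have : 0 ≤ 128 * (ρ * t ^ 2 + ρ⁻¹ * t ^ 4) := by positivity
    linarith)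
  linarith [le_abs_self (nr (qm z w m x))]

/-- First term: `∫_(bl d) kap (|qm| - ρ) ≤ C (ρ mt + M4/ρ)`, for `d ≤ ρ/32`. Proof: `q_v := ip e qm` is
`≥ ρ/2`, `|q| ≤ q_v + |q - q_v e|²/ρ`, `|q - q_v e| ≤ 2 nr E ≤ 16 ρ |ζ| + 16 |ζ|²`, and
`∫ kap (q_v - ρ) = 0` exactly (`mean_zc`, `mean_zc_rf`). -/
theorem mirr_one (hn : 1 ≤ n) : ∃ C : ℝ, 0 < C ∧ ∀ s, n < s → ∀ z w : Fin n → ℂ, nr z ≤ 1 / 4 →
    nr w ≤ 1 / 4 → z ≠ w → ∀ (m : Fin n → ℂ) (c : ℝ), nr m = 1 → |c - 1| ≤ nr z →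
    sg z m = (c : ℂ) • (((nr (w - z))⁻¹ : ℝ) : ℂ) • (w - z) → ∀ d : ℝ, 0 < d → d ≤ nr (w - z) / 32 →
      ∫ x in bl n d, kap s x * (nr (qm z w m x) - nr (w - z)) ∂(mu n) ≤
        C * (nr (w - z) * mt n s d +
          (nr (w - z))⁻¹ * ∫ x in bl n d, kap s x * nr (zc x) ^ 4 ∂(mu n)) := by
  refine ⟨128, by norm_num, fun s hs z w hz hw hzw m c hm hc1 hc d hd hd1 => ?_⟩
  have hρ := mi_pos hzw
  have hρ2 : nr (w - z) ≤ 1 / 2 := (nr_sub_le w z).trans (by linarith)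
  obtain ⟨e, hee⟩ : ∃ e, (((nr (w - z))⁻¹ : ℝ) : ℂ) • (w - z) = e := ⟨_, rfl⟩
  have he : nr e = 1 := by rw [← hee]; exact mi_unit hρ
  have hwz : w - z = ((nr (w - z) : ℝ) : ℂ) • e := by
    rw [← hee, smul_smul, ← Complex.ofReal_mul, mul_inv_cancel₀ hρ.ne', Complex.ofReal_one,
      one_smul]
  rw [hee] at hc
  have hm0 := mi_mean_q hn hs hz hw hm hd (by linarith) e
  have i1 := mi_iq hs z w hm e d
  have i2 := (mi_i2 (n := n) hs d).const_mul (128 * nr (w - z))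
  have i3 := (mi_ipw (n := n) hs 4 d).const_mul (128 * (nr (w - z))⁻¹)
  have i4 : IntegrableOn (fun x => kap s x * (nr (qm z w m x) - nr (w - z))) (bl n d) (mu n) := by
    refine mi_int hs ((continuous_nr.comp (mi_cont_qm z w hm)).sub continuous_const)
      (2 + nr (w - z)) (fun x => ?_) d
    show |nr (qm z w m x) - nr (w - z)| ≤ 2 + nr (w - z)
    have h1 := mi_nr_qm z w m x
    have h2 := nr_nonneg (qm z w m x)
    rw [abs_le]
    constructor <;> linarith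
  have i12 : IntegrableOn (fun x => kap s x * ip e (qm z w m x - (w - z)) +
      128 * nr (w - z) * (kap s x * hq x)) (bl n d) (mu n) := i1.add i2
  have i123 : IntegrableOn (fun x => kap s x * ip e (qm z w m x - (w - z)) +
      128 * nr (w - z) * (kap s x * hq x) +
        128 * (nr (w - z))⁻¹ * (kap s x * nr (zc x) ^ 4)) (bl n d) (mu n) := i12.add i3
  calc ∫ x in bl n d, kap s x * (nr (qm z w m x) - nr (w - z)) ∂(mu n)
      ≤ ∫ x in bl n d, (kap s x * ip e (qm z w m x - (w - z)) +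
        128 * nr (w - z) * (kap s x * hq x) +
        128 * (nr (w - z))⁻¹ * (kap s x * nr (zc x) ^ 4)) ∂(mu n) := by
        refine setIntegral_mono_on i4 i123 (measurableSet_bl d) fun x hx => ?_
        have h1 := mi_one_pt hz hw hm he hc1 hc hρ hwz (x := x) ((mi_bl hd hx).trans hd1)
        have h2 := mul_le_mul_of_nonneg_left h1 (kap_nonneg s x)
        rw [← nr_zc_sq]
        refine h2.trans (le_of_eq ?_)
        ring
    _ = _ := by
        rw [integral_add i12 i3, integral_add i1 i2, hm0, integral_const_mul, integral_const_mul,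
          mt]
        ring

private theorem mi_iip {s : ℕ} (hs : n < s) (m : Fin n → ℂ) (d : ℝ) :
    IntegrableOn (fun x => kap s x * ip m (zc x) ^ 2) (bl n d) (mu n) := by
  refine mi_int hs (((mi_cont_ip m).comp mi_cont_zc).pow 2) (nr m ^ 2) (fun x => ?_) d
  show |ip m (zc x) ^ 2| ≤ nr m ^ 2
  rw [abs_of_nonneg (sq_nonneg _), ← sq_abs]
  exact pow_le_pow_left₀ (abs_nonneg _) ((abs_ip_le m (zc x)).trans
    (mul_le_of_le_one_right (nr_nonneg m) (nr_zc_lt x).le)) 2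

/-- the pointwise bound for `mirr_two` -/
private theorem mi_two_pt {z w : Fin n → ℂ} {κ : ℝ} (hκ : κ ≤ 1 / 4) (hz : nr z ≤ κ)
    (hw : nr w ≤ κ) {m e : Fin n → ℂ} {c : ℝ} (hm : nr m = 1) (he : nr e = 1)
    (hc1 : |c - 1| ≤ nr z) (hc : sg z m = (c : ℂ) • e) {x : SUGroup n} (hx : nr (zc x) ≤ 1 / 2) :
    2 * ip (w - z) (qm z w m x - (w - z)) + 4 * (1 - 2 * κ) * ip m (zc x) ^ 2 -
      80 * κ * nr (zc x) ^ 2 - 40 * nr (zc x) ^ 3 ≤ nr (qm z w m x) ^ 2 - nr (w - z) ^ 2 := by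
  have hκ0 : 0 ≤ κ := (nr_nonneg z).trans hz
  have hρ2 : nr (w - z) ≤ 2 * κ := (nr_sub_le w z).trans (by linarith)
  have hex := qm_expand (hz.trans hκ) (hw.trans hκ) hm he hc (x := x) hx
  have hsp := mi_split_sq (qm z w m x) (w - z)
  obtain ⟨ρ, hρe⟩ : ∃ ρ, nr (w - z) = ρ := ⟨_, rfl⟩
  obtain ⟨t, hte⟩ : ∃ t, nr (zc x) = t := ⟨_, rfl⟩
  obtain ⟨a, hae⟩ : ∃ a, ip m (zc x) = a := ⟨_, rfl⟩
  obtain ⟨E, hE⟩ : ∃ E, qm z w m x - (w - z) + ((2 * c * ip m (zc x) : ℝ) : ℂ) • e = E :=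
    ⟨_, rfl⟩
  have hat : |a| ≤ t := by
    have h := abs_ip_le m (zc x)
    rw [hm, one_mul, hte, hae] at h
    exact h
  have ht0 : 0 ≤ t := by rw [← hte]; exact nr_nonneg _
  have hρ0 : 0 ≤ ρ := by rw [← hρe]; exact nr_nonneg _
  rw [hE, hρe, hte] at hex
  rw [hρe] at hρ2 hsp
  have hipE : |ip e E| ≤ nr E := by
    have h := abs_ip_le e E
    rwa [he, one_mul] at h
  have hee : ip e e = 1 := by rw [ip_self, he, one_pow]
  have h1 : qm z w m x - (w - z) = E - ((2 * c * a : ℝ) : ℂ) • e := by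
    rw [← hE, hae]
    abel
  have h2 : ip e (qm z w m x - (w - z)) = ip e E - 2 * c * a := by
    rw [h1, ip_sub, ip_smul, hee, mul_one]
  have h3 : (ip e E - 2 * c * a) ^ 2 ≤ nr (qm z w m x - (w - z)) ^ 2 := by
    rw [← h2, ← sq_abs]
    refine pow_le_pow_left₀ (abs_nonneg _) ?_ 2
    have h := abs_ip_le e (qm z w m x - (w - z))
    rwa [he, one_mul] at h
  have hc3 := abs_le.1 (hc1.trans hz)
  have hc2 : |c| ≤ 5 / 4 := by
    rw [abs_le]
    constructor <;> linarith [hc3.1, hc3.2]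
  have hc4 : 1 - 2 * κ ≤ c ^ 2 := by nlinarith [hc3.1]
  have hca : |c * a| ≤ 5 / 4 * t := by
    rw [abs_mul]
    exact mul_le_mul hc2 hat (abs_nonneg _) (by norm_num)
  have hX : |c * a * ip e E| ≤ 5 / 4 * t * (8 * ρ * t + 8 * t ^ 2) := by
    rw [abs_mul]
    exact mul_le_mul hca (hipE.trans hex) (abs_nonneg _) (by positivity)
  have hX1 := (abs_le.1 hX).2
  have h4 : (1 - 2 * κ) * a ^ 2 ≤ c ^ 2 * a ^ 2 := mul_le_mul_of_nonneg_right hc4 (sq_nonneg _)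
  have h5 : ρ * t ^ 2 ≤ 2 * κ * t ^ 2 := mul_le_mul_of_nonneg_right hρ2 (sq_nonneg _)
  rw [hte, hae, hρe, hsp]
  nlinarith [sq_nonneg (ip e E)]

/-- Second term: `∫_(bl d) kap (|qm|² - ρ²) = ∫ kap |qm - (w - z)|² ≥ ∫ kap (ip e (qm - (w-z)))²
≥ (2/n) mt (1 - C κ) - C M3`, `κ ≥ |z|, |w|`. -/
theorem mirr_two (hn : 1 ≤ n) : ∃ C : ℝ, 0 < C ∧ ∀ s, n < s → ∀ z w : Fin n → ℂ, ∀ κ : ℝ, κ ≤ 1 / 4 →
    nr z ≤ κ → nr w ≤ κ → z ≠ w → ∀ (m : Fin n → ℂ) (c : ℝ), nr m = 1 → |c - 1| ≤ nr z →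
    sg z m = (c : ℂ) • (((nr (w - z))⁻¹ : ℝ) : ℂ) • (w - z) → ∀ d : ℝ, 0 < d → d ≤ 1 / 2 →
      2 / n * mt n s d - C * (κ * mt n s d + ∫ x in bl n d, kap s x * nr (zc x) ^ 3 ∂(mu n)) ≤
        ∫ x in bl n d, kap s x * (nr (qm z w m x) ^ 2 - nr (w - z) ^ 2) ∂(mu n) := by
  refine ⟨84, by norm_num, fun s hs z w κ hκ hz hw hzw m c hm hc1 hc d hd hd1 => ?_⟩
  have hκ0 : 0 ≤ κ := (nr_nonneg z).trans hz
  have hρ := mi_pos hzw
  obtain ⟨e, hee⟩ : ∃ e, (((nr (w - z))⁻¹ : ℝ) : ℂ) • (w - z) = e := ⟨_, rfl⟩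
  have he : nr e = 1 := by rw [← hee]; exact mi_unit hρ
  rw [hee] at hc
  have hm0 := mi_mean_q hn hs (hz.trans hκ) (hw.trans hκ) hm hd (by linarith) (w - z)
  have hsq := integral_ip_sq hn hs hm hd (by linarith)
  have i1 := (mi_iq hs z w hm (w - z) d).const_mul 2
  have i2 := (mi_iip hs m d).const_mul (4 * (1 - 2 * κ))
  have i3 := (mi_i2 (n := n) hs d).const_mul (80 * κ)
  have i4 := (mi_ipw (n := n) hs 3 d).const_mul 40
  have i5 : IntegrableOn (fun x => kap s x * (nr (qm z w m x) ^ 2 - nr (w - z) ^ 2)) (bl n d)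
      (mu n) := by
    refine mi_int hs (((continuous_nr.comp (mi_cont_qm z w hm)).pow 2).sub continuous_const)
      (4 + nr (w - z) ^ 2) (fun x => ?_) d
    show |nr (qm z w m x) ^ 2 - nr (w - z) ^ 2| ≤ 4 + nr (w - z) ^ 2
    have h1 := mi_nr_qm z w m x
    have h2 := nr_nonneg (qm z w m x)
    have h3 : nr (qm z w m x) ^ 2 ≤ 4 := by nlinarith
    rw [abs_le]
    constructor <;> nlinarith [sq_nonneg (nr (w - z)), sq_nonneg (nr (qm z w m x))]
  have i12 : IntegrableOn (fun x => 2 * (kap s x * ip (w - z) (qm z w m x - (w - z))) +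
      4 * (1 - 2 * κ) * (kap s x * ip m (zc x) ^ 2)) (bl n d) (mu n) := i1.add i2
  have i123 : IntegrableOn (fun x => 2 * (kap s x * ip (w - z) (qm z w m x - (w - z))) +
      4 * (1 - 2 * κ) * (kap s x * ip m (zc x) ^ 2) - 80 * κ * (kap s x * hq x)) (bl n d)
      (mu n) := i12.sub i3
  have i1234 : IntegrableOn (fun x => 2 * (kap s x * ip (w - z) (qm z w m x - (w - z))) +
      4 * (1 - 2 * κ) * (kap s x * ip m (zc x) ^ 2) - 80 * κ * (kap s x * hq x) -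
        40 * (kap s x * nr (zc x) ^ 3)) (bl n d) (mu n) := i123.sub i4
  have hn1 : (1 : ℝ) ≤ n := by exact_mod_cast hn
  have hmt := mi_mt_nonneg (n := n) s d
  have hM3 := mi_mom_nonneg (n := n) s 3 d
  calc 2 / n * mt n s d - 84 * (κ * mt n s d + ∫ x in bl n d, kap s x * nr (zc x) ^ 3 ∂(mu n))
      ≤ ∫ x in bl n d, (2 * (kap s x * ip (w - z) (qm z w m x - (w - z))) +
      4 * (1 - 2 * κ) * (kap s x * ip m (zc x) ^ 2) - 80 * κ * (kap s x * hq x) -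
        40 * (kap s x * nr (zc x) ^ 3)) ∂(mu n) := by
        rw [integral_sub i123 i4, integral_sub i12 i3, integral_add i1 i2, integral_const_mul,
          integral_const_mul, integral_const_mul, integral_const_mul, hm0, hsq]
        have h1 : ∫ x in bl n d, kap s x * hq x ∂(mu n) = mt n s d := rfl
        rw [h1]
        have h2 : 4 * (1 - 2 * κ) * (mt n s d / (2 * n)) =
            2 / n * mt n s d - 4 * κ * (mt n s d / n) := by
          field_simp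
          ring
        have h3 : mt n s d / n ≤ mt n s d := div_le_self hmt hn1
        have h4 : κ * (mt n s d / n) ≤ κ * mt n s d := mul_le_mul_of_nonneg_left h3 hκ0
        rw [h2]
        nlinarith
    _ ≤ _ := by
        refine setIntegral_mono_on i1234 i5 (measurableSet_bl d) fun x hx => ?_
        have h1 := mi_two_pt hκ hz hw hm he hc1 hc (x := x) ((mi_bl hd hx).trans hd1)
        have h2 := mul_le_mul_of_nonneg_left h1 (kap_nonneg s x)
        rw [← nr_zc_sq]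
        refine le_trans (le_of_eq ?_) h2
        ring

/-! ### The third term -/

/-- the pointwise bound for `mirr_three` -/
private theorem mi_three_pt {z w m₀ : Fin n → ℂ} {κ : ℝ} (hκ : κ ≤ 1 / 4) (hz : nr z ≤ κ)
    (hw : nr w ≤ κ) {m : Fin n → ℂ} (hm : nr m = 1) {x : SUGroup n} (hx : nr (zc x) ≤ 1 / 2) :
    nr ((1 / 2 : ℂ) • (zc (pt z * x) + zc (pt w * pt (rf m (zc x)))) - m₀) ^ 2 -
      nr ((1 / 2 : ℂ) • (z + w) - m₀) ^ 2 ≤
    2 * ip ((1 / 2 : ℂ) • (z + w) - m₀) ((1 / 2 : ℂ) • (zc (pt z * x) +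
      zc (pt w * pt (rf m (zc x)))) - (1 / 2 : ℂ) • (z + w)) +
      nr (zc x) ^ 2 - ip m (zc x) ^ 2 + 9 * κ * nr (zc x) ^ 2 := by
  have hκ0 : 0 ≤ κ := (nr_nonneg z).trans hz
  have hR : nr (rf m (zc x)) = nr (zc x) := nr_rf hm _
  have hpt : zc (pt (rf m (zc x))) = rf m (zc x) := zc_pt (by rw [hR]; linarith)
  have h1 := zc_pt_mul_sub (z := z) (by linarith) x hx
  have h2 := zc_pt_mul_sub (z := w) (by linarith) (pt (rf m (zc x))) (by rw [hpt, hR]; exact hx)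
  have h3 := sg_sub (z := z) (ζ := zc x) (by linarith)
  have h4 := sg_sub (z := w) (ζ := rf m (zc x)) (by linarith)
  rw [hpt, hR] at h2
  rw [hR] at h4
  obtain ⟨Z, hZ⟩ : ∃ Z, zc (pt z * x) = Z := ⟨_, rfl⟩
  obtain ⟨W, hW⟩ : ∃ W, zc (pt w * pt (rf m (zc x))) = W := ⟨_, rfl⟩
  obtain ⟨ζ, hζ⟩ : ∃ ζ, zc x = ζ := ⟨_, rfl⟩
  rw [hW] at h2
  rw [hZ] at h1
  rw [hζ] at h1 h2 h3 h4 hx
  rw [hZ, hW, hζ]
  obtain ⟨E, hE⟩ : ∃ E, (1 / 2 : ℂ) • (((Z - z - sg z ζ) + (W - w - sg w (rf m ζ))) +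
    ((sg z ζ - ζ) + (sg w (rf m ζ) - rf m ζ))) = E := ⟨_, rfl⟩
  have ht0 := nr_nonneg ζ
  have hEb : nr E ≤ 3 * κ * nr ζ := by
    rw [← hE, nr_smul]
    have h5 := nr_add_le ((Z - z - sg z ζ) + (W - w - sg w (rf m ζ)))
      ((sg z ζ - ζ) + (sg w (rf m ζ) - rf m ζ))
    have h6 := nr_add_le (Z - z - sg z ζ) (W - w - sg w (rf m ζ))
    have h7 := nr_add_le (sg z ζ - ζ) (sg w (rf m ζ) - rf m ζ)
    have h8 : nr z * nr ζ ≤ κ * nr ζ := mul_le_mul_of_nonneg_right hz ht0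
    have h9 : nr w * nr ζ ≤ κ * nr ζ := mul_le_mul_of_nonneg_right hw ht0
    have h10 : nr z * nr ζ ^ 2 ≤ κ * nr ζ * (1 / 2) := by
      rw [sq, ← mul_assoc]
      exact mul_le_mul h8 hx ht0 (mul_nonneg hκ0 ht0)
    have h11 : nr w * nr ζ ^ 2 ≤ κ * nr ζ * (1 / 2) := by
      rw [sq, ← mul_assoc]
      exact mul_le_mul h9 hx ht0 (mul_nonneg hκ0 ht0)
    have h12 : ‖(1 / 2 : ℂ)‖ = 1 / 2 := by norm_num
    rw [h12]
    nlinarith
  have hdec : (1 / 2 : ℂ) • (Z + W) - (1 / 2 : ℂ) • (z + w) =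
      (ζ - ((ip m ζ : ℝ) : ℂ) • m) + E := by
    rw [← hE]
    funext j
    simp only [Pi.add_apply, Pi.sub_apply, Pi.smul_apply, smul_eq_mul, rf]
    push_cast
    ring
  have hsp := mi_split_sq ((1 / 2 : ℂ) • (Z + W) - m₀) ((1 / 2 : ℂ) • (z + w) - m₀)
  rw [sub_sub_sub_cancel_right] at hsp
  have hpy := mi_pyth hm ζ
  obtain ⟨P, hP⟩ : ∃ P, ζ - ((ip m ζ : ℝ) : ℂ) • m = P := ⟨_, rfl⟩
  rw [hP] at hpy hdec
  have hPn : nr P ≤ nr ζ := by
    refine (sq_le_sq₀ (nr_nonneg _) ht0).1 ?_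
    rw [hpy]
    nlinarith [sq_nonneg (ip m ζ)]
  have hsq := mi_add_sq P E
  rw [← hdec] at hsq
  have hPE : ip P E ≤ nr ζ * (3 * κ * nr ζ) := by
    have h := (le_abs_self _).trans (abs_ip_le P E)
    exact h.trans (mul_le_mul hPn hEb (nr_nonneg _) ht0)
  have hE2 : nr E ^ 2 ≤ (3 * κ * nr ζ) ^ 2 := pow_le_pow_left₀ (nr_nonneg _) hEb 2
  have hE3 : (3 * κ * nr ζ) ^ 2 ≤ 9 / 4 * κ * nr ζ ^ 2 := by
    have h : κ * (κ * nr ζ ^ 2) ≤ 1 / 4 * (κ * nr ζ ^ 2) :=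
      mul_le_mul_of_nonneg_right hκ (mul_nonneg hκ0 (sq_nonneg _))
    nlinarith
  have hκt : 0 ≤ κ * nr ζ ^ 2 := mul_nonneg hκ0 (sq_nonneg _)
  rw [hsp, hsq, hpy]
  nlinarith

/-- Third term: the midpoint. `∫_(bl d) kap (|m(ζ) - m₀|² - |m - m₀|²) = ∫ kap |m(ζ) - m|²
≤ ((2n-1)/(2n)) mt + C κ mt + C M3`, `m(ζ) = (φ_z ζ + φ_w R ζ)/2`, `(ζ + R ζ)/2 = ζ - ip m ζ m`. -/
theorem mirr_three (hn : 1 ≤ n) : ∃ C : ℝ, 0 < C ∧ ∀ s, n < s → ∀ z w m₀ : Fin n → ℂ, ∀ κ : ℝ,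
    κ ≤ 1 / 4 → nr z ≤ κ → nr w ≤ κ → ∀ m : Fin n → ℂ, nr m = 1 → ∀ d : ℝ, 0 < d → d ≤ 1 / 2 →
      ∫ x in bl n d, kap s x * (nr ((1 / 2 : ℂ) • (zc (pt z * x) +
          zc (pt w * pt (rf m (zc x)))) - m₀) ^ 2 - nr ((1 / 2 : ℂ) • (z + w) - m₀) ^ 2) ∂(mu n) ≤
        (2 * n - 1) / (2 * n) * mt n s d +
          C * (κ * mt n s d + ∫ x in bl n d, kap s x * nr (zc x) ^ 3 ∂(mu n)) := by
  refine ⟨9, by norm_num, fun s hs z w m₀ κ hκ hz hw m hm d hd hd1 => ?_⟩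
  have hκ0 : 0 ≤ κ := (nr_nonneg z).trans hz
  have hm0 := mi_mean_m hn hs (hz.trans hκ) (hw.trans hκ) hm hd (by linarith)
    ((1 / 2 : ℂ) • (z + w) - m₀)
  have hsq := integral_ip_sq hn hs hm hd (by linarith)
  obtain ⟨u, hu⟩ : ∃ u, (1 / 2 : ℂ) • (z + w) - m₀ = u := ⟨_, rfl⟩
  rw [hu] at hm0
  have hcm : Continuous fun x : SUGroup n => (1 / 2 : ℂ) • (zc (pt z * x) +
      zc (pt w * pt (rf m (zc x)))) :=
    ((mi_cont_phi (pt z)).add (mi_cont_psi (pt w) hm)).const_smul (1 / 2 : ℂ)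
  have hmb : ∀ x : SUGroup n, nr ((1 / 2 : ℂ) • (zc (pt z * x) +
      zc (pt w * pt (rf m (zc x))))) ≤ 1 := by
    intro x
    have h1 := nr_zc_lt (pt z * x)
    have h2 := nr_zc_lt (pt w * pt (rf m (zc x)))
    have h3 := nr_add_le (zc (pt z * x)) (zc (pt w * pt (rf m (zc x))))
    have h12 : ‖(1 / 2 : ℂ)‖ = 1 / 2 := by norm_num
    rw [nr_smul, h12]
    linarith
  have i1 : IntegrableOn (fun x => 2 * (kap s x * ip u ((1 / 2 : ℂ) • (zc (pt z * x) +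
      zc (pt w * pt (rf m (zc x)))) - (1 / 2 : ℂ) • (z + w)))) (bl n d) (mu n) := by
    refine Integrable.const_mul (mi_int hs ((mi_cont_ip u).comp (hcm.sub continuous_const))
      (nr u * (1 + nr ((1 / 2 : ℂ) • (z + w)))) (fun x => ?_) d) 2
    refine (abs_ip_le u _).trans (mul_le_mul_of_nonneg_left ?_ (nr_nonneg u))
    exact (nr_sub_le _ _).trans (add_le_add_left (hmb x) _)
  have i2 := mi_i2 (n := n) hs d
  have i3 := mi_iip hs m d
  have i4 := (mi_i2 (n := n) hs d).const_mul (9 * κ)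
  have i5 : IntegrableOn (fun x => kap s x * (nr ((1 / 2 : ℂ) • (zc (pt z * x) +
          zc (pt w * pt (rf m (zc x)))) - m₀) ^ 2 - nr ((1 / 2 : ℂ) • (z + w) - m₀) ^ 2))
      (bl n d) (mu n) := by
    refine mi_int hs (((continuous_nr.comp (hcm.sub continuous_const)).pow 2).sub
      continuous_const) ((1 + nr m₀) ^ 2 + nr ((1 / 2 : ℂ) • (z + w) - m₀) ^ 2) (fun x => ?_) d
    show |nr ((1 / 2 : ℂ) • (zc (pt z * x) + zc (pt w * pt (rf m (zc x)))) - m₀) ^ 2 -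
      nr ((1 / 2 : ℂ) • (z + w) - m₀) ^ 2| ≤ _
    have h1 : nr ((1 / 2 : ℂ) • (zc (pt z * x) + zc (pt w * pt (rf m (zc x)))) - m₀) ≤
        1 + nr m₀ := (nr_sub_le _ _).trans (add_le_add_left (hmb x) _)
    have h2 := pow_le_pow_left₀ (nr_nonneg _) h1 2
    have h3 := sq_nonneg (nr ((1 / 2 : ℂ) • (zc (pt z * x) +
      zc (pt w * pt (rf m (zc x)))) - m₀))
    have h4 := sq_nonneg (nr ((1 / 2 : ℂ) • (z + w) - m₀))
    have h5 := sq_nonneg (1 + nr m₀)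
    rw [abs_le]
    constructor <;> linarith
  have i12 : IntegrableOn (fun x => 2 * (kap s x * ip u ((1 / 2 : ℂ) • (zc (pt z * x) +
      zc (pt w * pt (rf m (zc x)))) - (1 / 2 : ℂ) • (z + w))) + kap s x * hq x) (bl n d)
      (mu n) := i1.add i2
  have i123 : IntegrableOn (fun x => 2 * (kap s x * ip u ((1 / 2 : ℂ) • (zc (pt z * x) +
      zc (pt w * pt (rf m (zc x)))) - (1 / 2 : ℂ) • (z + w))) + kap s x * hq x -
        kap s x * ip m (zc x) ^ 2) (bl n d) (mu n) := i12.sub i3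
  have i1234 : IntegrableOn (fun x => 2 * (kap s x * ip u ((1 / 2 : ℂ) • (zc (pt z * x) +
      zc (pt w * pt (rf m (zc x)))) - (1 / 2 : ℂ) • (z + w))) + kap s x * hq x -
        kap s x * ip m (zc x) ^ 2 + 9 * κ * (kap s x * hq x)) (bl n d) (mu n) := i123.add i4
  have hn1 : (1 : ℝ) ≤ n := by exact_mod_cast hn
  have hmt := mi_mt_nonneg (n := n) s d
  have hM3 := mi_mom_nonneg (n := n) s 3 d
  calc ∫ x in bl n d, kap s x * (nr ((1 / 2 : ℂ) • (zc (pt z * x) +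
          zc (pt w * pt (rf m (zc x)))) - m₀) ^ 2 - nr ((1 / 2 : ℂ) • (z + w) - m₀) ^ 2) ∂(mu n)
      ≤ ∫ x in bl n d, (2 * (kap s x * ip u ((1 / 2 : ℂ) • (zc (pt z * x) +
      zc (pt w * pt (rf m (zc x)))) - (1 / 2 : ℂ) • (z + w))) + kap s x * hq x -
        kap s x * ip m (zc x) ^ 2 + 9 * κ * (kap s x * hq x)) ∂(mu n) := by
        refine setIntegral_mono_on i5 i1234 (measurableSet_bl d) fun x hx => ?_
        have h1 := mi_three_pt (m₀ := m₀) hκ hz hw hm (x := x) ((mi_bl hd hx).trans hd1)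
        have h2 := mul_le_mul_of_nonneg_left h1 (kap_nonneg s x)
        rw [← nr_zc_sq]
        refine h2.trans (le_of_eq ?_)
        rw [hu]
        ring
    _ ≤ _ := by
        rw [integral_add i123 i4, integral_sub i12 i3, integral_add i1 i2, integral_const_mul,
          integral_const_mul, hm0, hsq]
        have h1 : ∫ x in bl n d, kap s x * hq x ∂(mu n) = mt n s d := rfl
        rw [h1]
        have h2 : (2 * (n : ℝ) - 1) / (2 * n) * mt n s d = mt n s d - mt n s d / (2 * n) := by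
          field_simp
        rw [h2]
        nlinarith

/-! ### The combination -/

private theorem mi_final {ε N X S : ℝ} (hN : 0 < ε * N)
    (hS : (4 * X / (ε * N)) ^ 2 ≤ S) (hS0 : 0 < S) :
    -(ε * (N / (2 * S))) + X * S ^ (-(3 / 2) : ℝ) ≤ -(ε * N / 4 / S) := by
  have h1 : S ^ (-(3 / 2) : ℝ) = (Real.sqrt S)⁻¹ * S⁻¹ := by
    rw [show (-(3 / 2) : ℝ) = -(1 / 2) + -1 by norm_num, Real.rpow_add hS0, Real.rpow_neg hS0.le,
      Real.rpow_neg_one, Real.sqrt_eq_rpow]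
  have hs : 0 < Real.sqrt S := Real.sqrt_pos.2 hS0
  have h2 : 4 * X / (ε * N) ≤ Real.sqrt S := Real.le_sqrt_of_sq_le hS
  have h3 : X * (Real.sqrt S)⁻¹ ≤ ε * N / 4 := by
    rw [div_le_iff₀ hN] at h2
    rw [← div_eq_mul_inv, div_le_iff₀ hs]
    linarith
  rw [h1, ← mul_assoc]
  have h4 : X * (Real.sqrt S)⁻¹ * S⁻¹ ≤ ε * N / 4 * S⁻¹ :=
    mul_le_mul_of_nonneg_right h3 (inv_pos.2 hS0).le
  have h5 : ε * (N / (2 * S)) = ε * N / 2 * S⁻¹ := by
    field_simp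
  rw [h5, div_eq_mul_inv (ε * N / 4) S]
  linarith

/-- **The mirror estimate.** -/
theorem mirror_neg (hn : 1 ≤ n) : ∃ C₀ : ℝ, 0 < C₀ ∧ ∀ (A B M : ℝ) (c m₀ : Fin n → ℂ) (r₀ κ ε d : ℝ),
    0 ≤ A → 0 ≤ B → 0 ≤ M → 0 < r₀ → κ ≤ 1 / 4 → 0 < ε → 0 < d → d ≤ r₀ / 32 →
    ∃ (s₀ : ℕ) (c₁ : ℝ), 0 < c₁ ∧ ∀ s, s₀ ≤ s → ∀ z w : Fin n → ℂ, nr z ≤ κ → nr w ≤ κ →
      r₀ ≤ nr (w - z) →
      A * C₀ * nr (w - z) + (B + M) * C₀ * κ + M * ((2 * n - 1) / (2 * n)) + ε ≤ B * (2 / n) →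
      ∃ m : Fin n → ℂ, nr m = 1 ∧
        ∫ x in bl n d, kap s x * (bar A B M c m₀ (zc (pt z * x)) (zc (pt w * pt (rf m (zc x)))) -
          bar A B M c m₀ z w) ∂(mu n) ≤ - (c₁ / s) := by
  obtain ⟨C1, hC1, h1⟩ := mirr_one hn
  obtain ⟨C2, hC2, h2⟩ := mirr_two hn
  obtain ⟨C3, hC3, h3⟩ := mirr_three hn
  refine ⟨C1 + C2 + C3, by positivity, fun A B M c m₀ r₀ κ ε d hA hB hM hr₀ hκ hε hd hdr => ?_⟩
  obtain ⟨s₁, hs₁⟩ := mt_bounds hn hd
  obtain ⟨s₂, C4, hC4, hs₂⟩ := mom_three_four hn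
  have hn1 : (1 : ℝ) ≤ n := by exact_mod_cast hn
  have hn0 : (0 : ℝ) < n := by linarith
  obtain ⟨X, hXe⟩ : ∃ X, A * C1 / r₀ * C4 + (B * C2 + M * C3) * C4 = X := ⟨_, rfl⟩
  obtain ⟨s₃, hs₃⟩ := exists_nat_ge ((4 * X / (ε * n)) ^ 2)
  refine ⟨max (max s₁ s₂) (max s₃ (n + 1)), ε * n / 4, by positivity,
    fun s hs z w hz hw hr hpar => ?_⟩
  have g1 : s₁ ≤ s := (le_max_left _ _).trans ((le_max_left _ _).trans hs)
  have g2 : s₂ ≤ s := (le_max_right _ _).trans ((le_max_left _ _).trans hs)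
  have g3 : s₃ ≤ s := (le_max_left _ _).trans ((le_max_right _ _).trans hs)
  have g4 : n < s := (le_max_right _ _).trans ((le_max_right _ _).trans hs)
  have hS1 : (1 : ℝ) ≤ s := by exact_mod_cast (by omega : 1 ≤ s)
  have hS0 : (0 : ℝ) < s := by linarith
  have hρ : 0 < nr (w - z) := lt_of_lt_of_le hr₀ hr
  have hzw : z ≠ w := by
    rintro rfl
    rw [sub_self, nr_zero] at hρ
    exact lt_irrefl _ hρ
  have hρ2 : nr (w - z) ≤ 1 / 2 := (nr_sub_le w z).trans (by linarith)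
  have hd2 : d ≤ nr (w - z) / 32 := hdr.trans (by linarith)
  obtain ⟨m, c', hm, hc1, hc⟩ := exists_mirror (z := z)
    (v := (((nr (w - z))⁻¹ : ℝ) : ℂ) • (w - z)) (by linarith) (mi_unit hρ)
  refine ⟨m, hm, ?_⟩
  have k1 := h1 s g4 z w (hz.trans hκ) (hw.trans hκ) hzw m c' hm hc1 hc d hd hd2
  have k2 := h2 s g4 z w κ hκ hz hw hzw m c' hm hc1 hc d hd (by linarith)
  have k3 := h3 s g4 z w m₀ κ hκ hz hw m hm d hd (by linarith)
  have k4 := mi_mean_q hn g4 (hz.trans hκ) (hw.trans hκ) hm hd (by linarith) c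
  obtain ⟨b1, b2⟩ := hs₁ s g1
  obtain ⟨b3, b4⟩ := hs₂ s g2 d hd (by linarith)
  have hmt := mi_mt_nonneg (n := n) s d
  have hM3 := mi_mom_nonneg (n := n) s 3 d
  have hM4 := mi_mom_nonneg (n := n) s 4 d
  -- integrability
  have j1 : IntegrableOn (fun x => kap s x * (nr (qm z w m x) - nr (w - z))) (bl n d) (mu n) := by
    refine mi_int g4 ((continuous_nr.comp (mi_cont_qm z w hm)).sub continuous_const)
      (2 + nr (w - z)) (fun x => ?_) d
    show |nr (qm z w m x) - nr (w - z)| ≤ 2 + nr (w - z)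
    have h1 := mi_nr_qm z w m x
    have h2 := nr_nonneg (qm z w m x)
    rw [abs_le]
    constructor <;> linarith
  have j2 : IntegrableOn (fun x => kap s x * (nr (qm z w m x) ^ 2 - nr (w - z) ^ 2)) (bl n d)
      (mu n) := by
    refine mi_int g4 (((continuous_nr.comp (mi_cont_qm z w hm)).pow 2).sub continuous_const)
      (4 + nr (w - z) ^ 2) (fun x => ?_) d
    show |nr (qm z w m x) ^ 2 - nr (w - z) ^ 2| ≤ 4 + nr (w - z) ^ 2
    have h1 := mi_nr_qm z w m x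
    have h2 := nr_nonneg (qm z w m x)
    have h3 : nr (qm z w m x) ^ 2 ≤ 4 := by nlinarith
    rw [abs_le]
    constructor <;> nlinarith [sq_nonneg (nr (w - z)), sq_nonneg (nr (qm z w m x))]
  have hcm : Continuous fun x : SUGroup n => (1 / 2 : ℂ) • (zc (pt z * x) +
      zc (pt w * pt (rf m (zc x)))) :=
    ((mi_cont_phi (pt z)).add (mi_cont_psi (pt w) hm)).const_smul (1 / 2 : ℂ)
  have hmb : ∀ x : SUGroup n, nr ((1 / 2 : ℂ) • (zc (pt z * x) +
      zc (pt w * pt (rf m (zc x))))) ≤ 1 := by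
    intro x
    have h1 := nr_zc_lt (pt z * x)
    have h2 := nr_zc_lt (pt w * pt (rf m (zc x)))
    have h3 := nr_add_le (zc (pt z * x)) (zc (pt w * pt (rf m (zc x))))
    have h12 : ‖(1 / 2 : ℂ)‖ = 1 / 2 := by norm_num
    rw [nr_smul, h12]
    linarith
  have j3 : IntegrableOn (fun x => kap s x * (nr ((1 / 2 : ℂ) • (zc (pt z * x) +
          zc (pt w * pt (rf m (zc x)))) - m₀) ^ 2 - nr ((1 / 2 : ℂ) • (z + w) - m₀) ^ 2))
      (bl n d) (mu n) := by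
    refine mi_int g4 (((continuous_nr.comp (hcm.sub continuous_const)).pow 2).sub
      continuous_const) ((1 + nr m₀) ^ 2 + nr ((1 / 2 : ℂ) • (z + w) - m₀) ^ 2) (fun x => ?_) d
    show |nr ((1 / 2 : ℂ) • (zc (pt z * x) + zc (pt w * pt (rf m (zc x)))) - m₀) ^ 2 -
      nr ((1 / 2 : ℂ) • (z + w) - m₀) ^ 2| ≤ _
    have h1 : nr ((1 / 2 : ℂ) • (zc (pt z * x) + zc (pt w * pt (rf m (zc x)))) - m₀) ≤
        1 + nr m₀ := (nr_sub_le _ _).trans (add_le_add_left (hmb x) _)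
    have h2 := pow_le_pow_left₀ (nr_nonneg _) h1 2
    have h3 := sq_nonneg (nr ((1 / 2 : ℂ) • (zc (pt z * x) +
      zc (pt w * pt (rf m (zc x)))) - m₀))
    have h4 := sq_nonneg (nr ((1 / 2 : ℂ) • (z + w) - m₀))
    have h5 := sq_nonneg (1 + nr m₀)
    rw [abs_le]
    constructor <;> linarith
  have j4 := mi_iq g4 z w hm c d
  have j12 : IntegrableOn (fun x => A * (kap s x * (nr (qm z w m x) - nr (w - z))) -
      B * (kap s x * (nr (qm z w m x) ^ 2 - nr (w - z) ^ 2))) (bl n d) (mu n) :=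
    (j1.const_mul A).sub (j2.const_mul B)
  have j123 : IntegrableOn (fun x => A * (kap s x * (nr (qm z w m x) - nr (w - z))) -
      B * (kap s x * (nr (qm z w m x) ^ 2 - nr (w - z) ^ 2)) +
      M * (kap s x * (nr ((1 / 2 : ℂ) • (zc (pt z * x) +
          zc (pt w * pt (rf m (zc x)))) - m₀) ^ 2 - nr ((1 / 2 : ℂ) • (z + w) - m₀) ^ 2)))
      (bl n d) (mu n) := j12.add (j3.const_mul M)
  have e : ∀ x : SUGroup n, kap s x * (bar A B M c m₀ (zc (pt z * x))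
      (zc (pt w * pt (rf m (zc x)))) - bar A B M c m₀ z w) =
      A * (kap s x * (nr (qm z w m x) - nr (w - z))) -
      B * (kap s x * (nr (qm z w m x) ^ 2 - nr (w - z) ^ 2)) +
      M * (kap s x * (nr ((1 / 2 : ℂ) • (zc (pt z * x) +
          zc (pt w * pt (rf m (zc x)))) - m₀) ^ 2 - nr ((1 / 2 : ℂ) • (z + w) - m₀) ^ 2)) +
      kap s x * ip c (qm z w m x - (w - z)) := by
    intro x
    rw [ip_sub c (qm z w m x) (w - z)]
    simp only [bar, qm]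
    ring
  simp only [e]
  rw [integral_add j123 j4, integral_add j12 (j3.const_mul M), integral_sub (j1.const_mul A)
    (j2.const_mul B), integral_const_mul, integral_const_mul, integral_const_mul, k4, add_zero]
  obtain ⟨T, hT⟩ : ∃ T, mt n s d = T := ⟨_, rfl⟩
  obtain ⟨ρ, hρe⟩ : ∃ ρ, nr (w - z) = ρ := ⟨_, rfl⟩
  obtain ⟨Q3, hQ3⟩ : ∃ Q3, ∫ x in bl n d, kap s x * nr (zc x) ^ 3 ∂(mu n) = Q3 := ⟨_, rfl⟩
  obtain ⟨Q4, hQ4⟩ : ∃ Q4, ∫ x in bl n d, kap s x * nr (zc x) ^ 4 ∂(mu n) = Q4 := ⟨_, rfl⟩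
  rw [hT, hρe, hQ4] at k1
  rw [hT, hρe, hQ3] at k2
  rw [hT, hQ3] at k3
  rw [hT] at b1 b2 hmt
  rw [hQ3] at b3 hM3
  rw [hQ4] at b4 hM4
  rw [hρe] at hpar hρ hr
  rw [hρe]
  have a1 := mul_le_mul_of_nonneg_left k1 hA
  have a2 := mul_le_mul_of_nonneg_left k2 hB
  have a3 := mul_le_mul_of_nonneg_left k3 hM
  have hρT : 0 ≤ ρ * T := mul_nonneg hρ.le hmt
  have hκ0 : 0 ≤ κ := (nr_nonneg z).trans hz
  have hκT : 0 ≤ κ * T := mul_nonneg hκ0 hmt
  have a4 : ρ⁻¹ * Q4 ≤ r₀⁻¹ * Q4 := mul_le_mul_of_nonneg_right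
    (inv_anti₀ hr₀ hr) hM4
  have hpT := mul_le_mul_of_nonneg_right hpar hmt
  have hpow : (s : ℝ) ^ (-(2 : ℝ)) ≤ (s : ℝ) ^ (-(3 / 2) : ℝ) :=
    Real.rpow_le_rpow_of_exponent_le hS1 (by norm_num)
  obtain ⟨P, hP⟩ : ∃ P, (s : ℝ) ^ (-(3 / 2) : ℝ) = P := ⟨_, rfl⟩
  rw [hP] at b3 hpow
  have b5 : Q4 ≤ C4 * P := b4.trans (mul_le_mul_of_nonneg_left hpow hC4.le)
  have hfin := mi_final (X := X) (mul_pos hε hn0) (hs₃.trans (by exact_mod_cast g3)) hS0
  rw [hP] at hfin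
  refine le_trans ?_ hfin
  have hb1 := mul_le_mul_of_nonneg_left b1 hε.le
  have c1 : A * C1 * (ρ⁻¹ * Q4) ≤ A * C1 / r₀ * C4 * P := by
    have : A * C1 * (ρ⁻¹ * Q4) ≤ A * C1 * (r₀⁻¹ * (C4 * P)) :=
      mul_le_mul_of_nonneg_left (a4.trans (mul_le_mul_of_nonneg_left b5 (inv_pos.2 hr₀).le))
        (by positivity)
    refine this.trans (le_of_eq ?_)
    rw [div_eq_mul_inv]
    ring
  have c2 : (B * C2 + M * C3) * Q3 ≤ (B * C2 + M * C3) * C4 * P := by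
    rw [mul_assoc]
    exact mul_le_mul_of_nonneg_left b3 (by positivity)
  have d1 : 0 ≤ A * (C2 + C3) * (ρ * T) := by positivity
  have d2 : 0 ≤ B * (C1 + C3) * (κ * T) := by positivity
  have d3 : 0 ≤ M * (C1 + C2) * (κ * T) := by positivity
  rw [← hXe]
  nlinarith [a1, a2, a3, hpT, c1, c2, d1, d2, d3, hb1]

end Pool.Agent.Lib.MP_5d4057_al.IN
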