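import Mathlib

/-!
# Ultrametric norms on finite dimensional spaces over a local field: definitions

`k` is a nonarchimedean local field: `[NontriviallyNormedField k] [IsUltrametricDist k] [ProperSpace k]`.
Everything in this file is free of `sorry`. Text: h50_int.md, part A.
-/

namespace Pool.Agent.Lib.MP_5d4057_al.IN

open Module

/-- An ultrametric norm. -/
structure Nm (k V : Type) [NormedField k] [AddCommGroup V] [Module k V] where
  toFun : V → ℝ
  smul' : ∀ (c : k) (v : V), toFun (c • v) = ‖c‖ * toFun v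
  add_le' : ∀ v w : V, toFun (v + w) ≤ max (toFun v) (toFun w)
  pos' : ∀ v : V, v ≠ 0 → 0 < toFun v

section Basics

variable {k : Type} [NormedField k] {V V' V'' : Type} [AddCommGroup V] [Module k V]
  [AddCommGroup V'] [Module k V'] [AddCommGroup V''] [Module k V'']

instance : CoeFun (Nm k V) fun _ => V → ℝ := ⟨Nm.toFun⟩

theorem Nm.smul (N : Nm k V) (c : k) (v : V) : N (c • v) = ‖c‖ * N v := N.smul' c v

theorem Nm.add_le (N : Nm k V) (v w : V) : N (v + w) ≤ max (N v) (N w) := N.add_le' v w

theorem Nm.pos (N : Nm k V) {v : V} (hv : v ≠ 0) : 0 < N v := N.pos' v hv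

@[ext] theorem Nm.ext' {N N' : Nm k V} (h : ∀ v, N v = N' v) : N = N' := by
  cases N; cases N'; congr; exact funext h

@[simp] theorem Nm.zero (N : Nm k V) : N 0 = 0 := by
  have := N.smul 0 0
  simpa using this

theorem Nm.nonneg (N : Nm k V) (v : V) : 0 ≤ N v := by
  by_cases hv : v = 0
  · simp [hv]
  · exact (N.pos hv).le

@[simp] theorem Nm.neg (N : Nm k V) (v : V) : N (-v) = N v := by
  have := N.smul (-1) v
  simpa using this

theorem Nm.sub_le (N : Nm k V) (v w : V) : N (v - w) ≤ max (N v) (N w) := by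
  have := N.add_le v (-w)
  simpa [sub_eq_add_neg] using this

theorem Nm.eq_zero (N : Nm k V) {v : V} : N v = 0 ↔ v = 0 :=
  ⟨fun h => by_contra fun hv => (N.pos hv).ne' h, fun h => by simp [h]⟩

/-- If `N w < N v` then `N (v + w) = N v`. -/
theorem Nm.add_eq (N : Nm k V) {v w : V} (h : N w < N v) : N (v + w) = N v := by
  apply le_antisymm
  · exact (N.add_le v w).trans (max_le le_rfl h.le)
  · by_contra hlt
    push Not at hlt
    have h1 := N.sub_le (v + w) w
    rw [add_sub_cancel_right] at h1
    exact absurd h1 (not_le.2 (max_lt hlt h))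

theorem Nm.sum_le (N : Nm k V) {ι : Type} (s : Finset ι) (f : ι → V) {r : ℝ} (hr : 0 ≤ r)
    (h : ∀ i ∈ s, N (f i) ≤ r) : N (∑ i ∈ s, f i) ≤ r := by
  classical
  induction s using Finset.induction_on with
  | empty => simpa using hr
  | insert a s ha ih =>
    rw [Finset.sum_insert ha]
    exact (N.add_le _ _).trans (max_le (h a (Finset.mem_insert_self a s))
      (ih fun i hi => h i (Finset.mem_insert_of_mem hi)))

/-- Pull back of a norm by an injective map. -/
def Nm.comap (N : Nm k V') (T : V →ₗ[k] V') (hT : Function.Injective T) : Nm k V where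
  toFun v := N (T v)
  smul' c v := by rw [map_smul, N.smul]
  add_le' v w := by rw [map_add]; exact N.add_le _ _
  pos' v hv := N.pos fun h => hv (hT (by rw [h, map_zero]))

/-- Restriction to a subspace. -/
def Nm.res (N : Nm k V) (W : Submodule k V) : Nm k W := N.comap W.subtype W.subtype_injective

@[simp] theorem Nm.res_apply (N : Nm k V) (W : Submodule k V) (w : W) : N.res W w = N (w : V) := rfl

/-- The action of linear automorphisms: `(e N) v = N (e⁻¹ v)`. -/
def Nm.act (e : V ≃ₗ[k] V) (N : Nm k V) : Nm k V := N.comap e.symm e.symm.injective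

@[simp] theorem Nm.act_apply (e : V ≃ₗ[k] V) (N : Nm k V) (v : V) : N.act e v = N (e.symm v) := rfl

theorem Nm.act_one (N : Nm k V) : N.act 1 = N := by ext v; rfl

theorem Nm.act_mul (a b : V ≃ₗ[k] V) (N : Nm k V) : N.act (a * b) = (N.act b).act a := by ext v; rfl

/-- Multiplication of a norm by a positive number. -/
def Nm.scale (N : Nm k V) (c : ℝ) (hc : 0 < c) : Nm k V where
  toFun v := c * N v
  smul' a v := by rw [N.smul]; ring
  add_le' v w := by
    rw [← mul_max_of_nonneg _ _ hc.le]
    exact mul_le_mul_of_nonneg_left (N.add_le v w) hc.le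
  pos' v hv := mul_pos hc (N.pos hv)

/-- The diagonal norm with respect to a basis. -/
noncomputable def Nm.ofBasis [IsUltrametricDist k] {ι : Type} [Finite ι] (b : Basis ι k V)
    (a : ι → ℝ) (ha : ∀ i, 0 < a i) : Nm k V where
  toFun v := ⨆ i, ‖b.repr v i‖ * a i
  smul' c v := by
    rw [Real.mul_iSup_of_nonneg (norm_nonneg c)]
    simp [mul_assoc]
  add_le' v w := by
    rcases isEmpty_or_nonempty ι with h | h
    · simp
    · apply ciSup_le
      intro i
      have h1 : ‖b.repr (v + w) i‖ ≤ max ‖b.repr v i‖ ‖b.repr w i‖ := by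
        rw [map_add, Finsupp.add_apply]
        exact IsUltrametricDist.norm_add_le_max _ _
      calc ‖b.repr (v + w) i‖ * a i ≤ max ‖b.repr v i‖ ‖b.repr w i‖ * a i :=
            mul_le_mul_of_nonneg_right h1 (ha i).le
        _ = max (‖b.repr v i‖ * a i) (‖b.repr w i‖ * a i) := max_mul_of_nonneg _ _ (ha i).le
        _ ≤ _ := max_le_max (le_ciSup (f := fun i => ‖b.repr v i‖ * a i)
              (Finite.bddAbove_range _) i) (le_ciSup (f := fun i => ‖b.repr w i‖ * a i)
              (Finite.bddAbove_range _) i)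
  pos' v hv := by
    have h : b.repr v ≠ 0 := fun h => hv (b.repr.map_eq_zero_iff.1 h)
    obtain ⟨i, hi⟩ := Finsupp.ne_iff.1 h
    have hi' : b.repr v i ≠ 0 := by simpa using hi
    exact lt_of_lt_of_le (mul_pos (norm_pos_iff.2 hi') (ha i))
      (le_ciSup (f := fun i => ‖b.repr v i‖ * a i) (Finite.bddAbove_range _) i)

/-- The norm of the field. -/
def Nm.abs (k : Type) [NormedField k] [IsUltrametricDist k] : Nm k k where
  toFun x := ‖x‖
  smul' c v := by rw [smul_eq_mul, norm_mul]
  add_le' v w := IsUltrametricDist.norm_add_le_max _ _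
  pos' v hv := norm_pos_iff.2 hv

/-- `b` is orthogonal for `N`: `N v = max ‖v_i‖ N (b i)`. -/
def IsOrth (N : Nm k V) {ι : Type} (b : Basis ι k V) : Prop :=
  ∀ (v : V) (i : ι), ‖b.repr v i‖ * N (b i) ≤ N v

/-- `N` is the midpoint of `N₀` and `N₁`: for a common orthogonal basis the values of `N` are the
geometric means. -/
def IsMid (N₀ N₁ N : Nm k V) : Prop :=
  ∃ b : Basis (Fin (finrank k V)) k V, IsOrth N₀ b ∧ IsOrth N₁ b ∧ IsOrth N b ∧
    ∀ i, N (b i) ^ 2 = N₀ (b i) * N₁ (b i)

/-- The operator norm. -/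
noncomputable def opn (T : V →ₗ[k] V') (N : Nm k V) (N' : Nm k V') : ℝ := ⨆ v, N' (T v) / N v

/-- Its logarithm. -/
noncomputable def lop (T : V →ₗ[k] V') (N : Nm k V) (N' : Nm k V') : ℝ := Real.log (opn T N N')

end Basics

section Ext

variable {k : Type} [NormedField k] [IsUltrametricDist k] {V : Type} [AddCommGroup V] [Module k V]
  [FiniteDimensional k V]

instance (m j : ℕ) : Finite (Set.powersetCard (Fin m) j) := inferInstance

open Classical in
/-- The norm on the exterior power: for every orthogonal basis `b` of `N` the basis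
`b.exteriorPower j` is orthogonal and the value at `b_I` is the product of the `N (b i)`. -/
noncomputable def Nm.ext (N : Nm k V) (j : ℕ) : Nm k (⋀[k]^j V) :=
  if h : ∃ b : Basis (Fin (finrank k V)) k V, IsOrth N b then
    Nm.ofBasis (h.choose.exteriorPower j) (fun s => ∏ i ∈ s.1, N (h.choose i))
      (fun _ => Finset.prod_pos fun i _ => N.pos (h.choose.ne_zero i))
  else Nm.ofBasis ((finBasis k V).exteriorPower j) (fun _ => 1) (fun _ => one_pos)

/-- The value of `N.ext j` at a tuple (`volume`). -/
noncomputable def Nm.vol (N : Nm k V) {j : ℕ} (w : Fin j → V) : ℝ :=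
  N.ext j (exteriorPower.ιMulti k j w)

/-- `log |Λ^j p|` from `N` to `N'` (`p = id` : the sum of the `j` largest positions). -/
noncomputable def Dj (p : V →ₗ[k] V) (j : ℕ) (N N' : Nm k V) : ℝ :=
  lop (exteriorPower.map j p) (N.ext j) (N'.ext j)

/-- The sum of the `j` largest positions. -/
noncomputable abbrev DD (j : ℕ) (N N' : Nm k V) : ℝ := Dj LinearMap.id j N N'

/-- The squared distance: the sum of the squares of the positions. -/
noncomputable def Phi (N N' : Nm k V) : ℝ :=
  ∑ j ∈ Finset.range (finrank k V), (DD (j + 1) N N' - DD j N N') ^ 2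

/-- The logarithm of the volume of the reference basis. -/
noncomputable def Nm.lv (N : Nm k V) : ℝ := Real.log (N.vol (finBasis k V))

end Ext

end Pool.Agent.Lib.MP_5d4057_al.IN
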