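import Pool.Agent.Lib.MP_5d4057_al.IN.Nm
import Pool.Agent.Lib.MP_5d4057_al.IN.FldA

/-!
# A0, A1: the value group, orthogonal bases, comparison
-/

namespace Pool.Agent.Lib.MP_5d4057_al.IN

open Module

section General

variable {k : Type} [NormedField k] [IsUltrametricDist k] {V : Type} [AddCommGroup V] [Module k V]
  {ι ι' : Type}

/-- PROOF: `v = ∑ repr v i • b i` and `Nm.sum_le`. -/
theorem Nm.le_of_basis [Finite ι] (N : Nm k V) (b : Basis ι k V) {v : V} {r : ℝ} (hr : 0 ≤ r)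
    (h : ∀ i, ‖b.repr v i‖ * N (b i) ≤ r) : N v ≤ r := by
  have := Fintype.ofFinite ι
  have h1 := N.sum_le Finset.univ (fun i => b.repr v i • b i) hr fun i _ => by
    rw [N.smul]
    exact h i
  rwa [b.sum_repr] at h1

theorem IsOrth.le_iff [Finite ι] {N : Nm k V} {b : Basis ι k V} (hb : IsOrth N b) {v : V} {r : ℝ}
    (hr : 0 ≤ r) : N v ≤ r ↔ ∀ i, ‖b.repr v i‖ * N (b i) ≤ r :=
  ⟨fun h i => (hb v i).trans h, fun h => N.le_of_basis b hr h⟩

/-- For `v ≠ 0` the maximum is attained. -/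
theorem IsOrth.exists_eq [Finite ι] {N : Nm k V} {b : Basis ι k V} (hb : IsOrth N b) {v : V}
    (hv : v ≠ 0) : ∃ i, ‖b.repr v i‖ * N (b i) = N v ∧ b.repr v i ≠ 0 := by
  have := Fintype.ofFinite ι
  have hne : Nonempty ι := by
    by_contra hι
    rw [not_nonempty_iff] at hι
    have h1 := b.sum_repr v
    rw [Finset.univ_eq_empty, Finset.sum_empty] at h1
    exact hv h1.symm
  obtain ⟨i, -, hi⟩ := Finset.exists_max_image Finset.univ
    (fun i => ‖b.repr v i‖ * N (b i)) Finset.univ_nonempty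
  have h1 : ‖b.repr v i‖ * N (b i) = N v := le_antisymm (hb v i)
    (N.le_of_basis b (mul_nonneg (norm_nonneg _) (N.nonneg _)) fun j => hi j (Finset.mem_univ j))
  refine ⟨i, h1, fun h0 => ?_⟩
  rw [h0, norm_zero, zero_mul] at h1
  exact hv (N.eq_zero.1 h1.symm)

theorem IsOrth.eq_iSup [Finite ι] {N : Nm k V} {b : Basis ι k V} (hb : IsOrth N b) (v : V) :
    N v = ⨆ i, ‖b.repr v i‖ * N (b i) := by
  have hbd : BddAbove (Set.range fun i => ‖b.repr v i‖ * N (b i)) :=
    (Set.finite_range _).bddAbove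
  by_cases hv : v = 0
  · subst hv
    rcases isEmpty_or_nonempty ι with hι | hι
    · rw [Real.iSup_of_isEmpty, N.zero]
    · simp
  · obtain ⟨i, hi, -⟩ := hb.exists_eq hv
    have hne : Nonempty ι := ⟨i⟩
    exact le_antisymm (hi ▸ le_ciSup hbd i) (ciSup_le fun j => hb v j)


theorem Nm.ofBasis_apply [Finite ι] (b : Basis ι k V) (a : ι → ℝ) (ha : ∀ i, 0 < a i) (v : V) :
    Nm.ofBasis b a ha v = ⨆ i, ‖b.repr v i‖ * a i := rfl

theorem Nm.ofBasis_self [Finite ι] (b : Basis ι k V) (a : ι → ℝ) (ha : ∀ i, 0 < a i) (i : ι) :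
    Nm.ofBasis b a ha (b i) = a i := by
  have hne : Nonempty ι := ⟨i⟩
  have hb : BddAbove (Set.range fun j => ‖b.repr (b i) j‖ * a j) :=
    (Set.finite_range _).bddAbove
  rw [Nm.ofBasis_apply]
  refine le_antisymm (ciSup_le fun j => ?_) ?_
  · by_cases h : j = i
    · subst h
      rw [Basis.repr_self, Finsupp.single_eq_same, norm_one, one_mul]
    · rw [Basis.repr_self, Finsupp.single_eq_of_ne h, norm_zero, zero_mul]
      exact (ha i).le
  · refine le_trans ?_ (le_ciSup hb i)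
    rw [Basis.repr_self, Finsupp.single_eq_same, norm_one, one_mul]

theorem isOrth_ofBasis [Finite ι] (b : Basis ι k V) (a : ι → ℝ) (ha : ∀ i, 0 < a i) :
    IsOrth (Nm.ofBasis b a ha) b := by
  intro v i
  rw [Nm.ofBasis_self, Nm.ofBasis_apply]
  exact le_ciSup (f := fun j => ‖b.repr v j‖ * a j) (Set.finite_range _).bddAbove i

/-- Comparison on an orthogonal basis. -/
theorem IsOrth.le_of_le [Finite ι] {N N' : Nm k V} {b : Basis ι k V} (h : IsOrth N b)
    {C : ℝ} (hC : 0 ≤ C) (hle : ∀ i, N' (b i) ≤ C * N (b i)) (v : V) : N' v ≤ C * N v := by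
  refine N'.le_of_basis b (mul_nonneg hC (N.nonneg v)) fun i => ?_
  calc ‖b.repr v i‖ * N' (b i) ≤ ‖b.repr v i‖ * (C * N (b i)) :=
        mul_le_mul_of_nonneg_left (hle i) (norm_nonneg _)
    _ = C * (‖b.repr v i‖ * N (b i)) := by ring
    _ ≤ C * N v := mul_le_mul_of_nonneg_left (h v i) hC

/-- Orthogonality in terms of linear combinations. -/
theorem isOrth_iff [Fintype ι] {N : Nm k V} {b : Basis ι k V} :
    IsOrth N b ↔ ∀ (x : ι → k) (i : ι), ‖x i‖ * N (b i) ≤ N (∑ j, x j • b j) := by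
  constructor
  · intro h x i
    have h1 := h (∑ j, x j • b j) i
    rwa [b.repr_sum_self] at h1
  · intro h v i
    have h1 := h (fun j => b.repr v j) i
    rwa [b.sum_repr] at h1

/-- Two norms with a common orthogonal basis and the same values on it are equal. -/
theorem Nm.eq_of_orth [Finite ι] {N N' : Nm k V} {b : Basis ι k V} (hb : IsOrth N b)
    (hb' : IsOrth N' b) (h : ∀ i, N (b i) = N' (b i)) : N = N' := by
  ext v
  have h1 := hb.le_of_le (N' := N') zero_le_one (fun i => by rw [one_mul, h]) v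
  have h2 := hb'.le_of_le (N' := N) zero_le_one (fun i => by rw [one_mul, h]) v
  rw [one_mul] at h1 h2
  exact le_antisymm h2 h1

theorem IsOrth.unitsSMul {N : Nm k V} {b : Basis ι k V} (hb : IsOrth N b) (c : ι → kˣ) :
    IsOrth N (b.unitsSMul c) := by
  intro v i
  rw [Basis.unitsSMul_apply, Basis.repr_unitsSMul, Units.smul_def, Units.smul_def, N.smul,
    smul_eq_mul, norm_mul]
  have h1 : ‖((c i)⁻¹ : kˣ).val‖ * ‖(c i).val‖ = 1 := by
    rw [← norm_mul, Units.inv_mul, norm_one]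
  calc ‖((c i)⁻¹ : kˣ).val‖ * ‖b.repr v i‖ * (‖(c i).val‖ * N (b i))
      = (‖((c i)⁻¹ : kˣ).val‖ * ‖(c i).val‖) * (‖b.repr v i‖ * N (b i)) := by ring
    _ = ‖b.repr v i‖ * N (b i) := by rw [h1, one_mul]
    _ ≤ N v := hb v i

theorem IsOrth.reindex {N : Nm k V} {b : Basis ι k V} (hb : IsOrth N b) (e : ι ≃ ι') :
    IsOrth N (b.reindex e) := by
  intro v i
  rw [Basis.reindex_apply, Basis.repr_reindex_apply]
  exact hb v _

/-- The image of an orthogonal basis under `e` is orthogonal for `N.act e`. -/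
theorem IsOrth.act {N : Nm k V} {b : Basis ι k V} (hb : IsOrth N b) (e : V ≃ₗ[k] V) :
    IsOrth (N.act e) (b.map e) := by
  intro v i
  rw [Basis.map_repr, Basis.map_apply, Nm.act_apply, Nm.act_apply, LinearEquiv.symm_apply_apply]
  exact hb (e.symm v) i

end General

section Local

variable {k : Type} [NontriviallyNormedField k] [IsUltrametricDist k] [ProperSpace k]

/-- The value group is discrete. PROOF: `{x | ‖x‖ < 1}` is a closed subset (`ultrametric`: balls are
clopen) of the compact unit ball and contains an element `≠ 0`; take `ϖ` with `‖ϖ‖` maximal in it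
(`IsCompact.exists_isMaxOn`). For `x ≠ 0` let `n` be the largest integer with `‖x‖ ≤ ‖ϖ‖ ^ n`
(`exists_mem_Ico_zpow` or similar); if `‖x‖ < ‖ϖ‖ ^ n` then `‖x / ϖ ^ n‖ < 1`, so
`≤ ‖ϖ‖` and `‖x‖ ≤ ‖ϖ‖ ^ (n + 1)`: contradiction. -/
theorem exists_unif (k : Type) [NontriviallyNormedField k] [IsUltrametricDist k] [ProperSpace k] :
    ∃ ϖ : k, ϖ ≠ 0 ∧ ‖ϖ‖ < 1 ∧ ∀ x : k, x ≠ 0 → ∃ n : ℤ, ‖x‖ = ‖ϖ‖ ^ n := by
  obtain ⟨p, h0, h1, hp⟩ := exists_unif_max k
  exact ⟨p, norm_pos_iff.1 h0, h1, fun x hx => norm_eq_zpow h0 h1 hp hx⟩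

variable {V : Type} [AddCommGroup V] [Module k V] [FiniteDimensional k V]

omit [IsUltrametricDist k] [ProperSpace k] [FiniteDimensional k V] in
theorem Nm.abs_sub_le (N : Nm k V) (v w : V) : |N v - N w| ≤ N (v - w) := by
  rw [abs_sub_le_iff]
  constructor
  · have h1 := N.add_le (v - w) w
    rw [sub_add_cancel] at h1
    have h2 : max (N (v - w)) (N w) ≤ N (v - w) + N w :=
      max_le (le_add_of_nonneg_right (N.nonneg _)) (le_add_of_nonneg_left (N.nonneg _))
    linarith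
  · have h1 := N.sub_le v (v - w)
    rw [sub_sub_cancel] at h1
    have h2 : max (N v) (N (v - w)) ≤ N v + N (v - w) :=
      max_le (le_add_of_nonneg_right (N.nonneg _)) (le_add_of_nonneg_left (N.nonneg _))
    linarith

omit [IsUltrametricDist k] [ProperSpace k] [FiniteDimensional k V] in
/-- Continuity in coordinates. -/
theorem Nm.continuous_coord (N : Nm k V) {m : ℕ} (b : Basis (Fin m) k V) :
    Continuous fun x : Fin m → k => N (b.equivFun.symm x) := by
  obtain ⟨C, hC⟩ : ∃ C : ℝ, C = ∑ i, N (b i) := ⟨_, rfl⟩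
  have hC0 : 0 ≤ C := by
    rw [hC]
    exact Finset.sum_nonneg fun i _ => N.nonneg _
  have hle : ∀ z : Fin m → k, N (b.equivFun.symm z) ≤ C * ‖z‖ := by
    intro z
    rw [Basis.equivFun_symm_apply]
    refine N.sum_le Finset.univ (fun i => z i • b i) (mul_nonneg hC0 (norm_nonneg z)) fun i _ => ?_
    rw [N.smul, mul_comm]
    refine mul_le_mul ?_ (norm_le_pi_norm z i) (norm_nonneg _) hC0
    rw [hC]
    exact Finset.single_le_sum (f := fun i => N (b i)) (fun i _ => N.nonneg _) (Finset.mem_univ i)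
  have hL : LipschitzWith C.toNNReal fun x : Fin m → k => N (b.equivFun.symm x) := by
    refine LipschitzWith.of_dist_le_mul fun x y => ?_
    rw [Real.dist_eq, Real.coe_toNNReal C hC0, dist_eq_norm]
    refine (N.abs_sub_le _ _).trans ?_
    rw [← map_sub]
    exact hle _
  exact hL.continuous

omit [IsUltrametricDist k] in
/-- The ratio of two norms attains its maximum. PROOF: by compactness of the
unit sphere for the sup norm of a basis and continuity of both norms. -/
theorem Nm.exists_max_ratio [Nontrivial V] (N N' : Nm k V) :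
    ∃ e : V, e ≠ 0 ∧ ∀ v, N' v * N e ≤ N' e * N v := by
  obtain ⟨m, hm⟩ : ∃ m, m = finrank k V := ⟨_, rfl⟩
  have hm0 : 0 < m := by
    rw [hm]
    exact finrank_pos
  obtain ⟨b⟩ : Nonempty (Basis (Fin m) k V) := by
    rw [hm]
    exact ⟨finBasis k V⟩
  have c1 := N.continuous_coord b
  have c2 := N'.continuous_coord b
  have hS : IsCompact (Metric.sphere (0 : Fin m → k) 1) := isCompact_sphere 0 1
  have hpos : ∀ x ∈ Metric.sphere (0 : Fin m → k) 1, 0 < N (b.equivFun.symm x) := by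
    intro x hx
    refine N.pos fun h0 => ?_
    rw [LinearEquiv.map_eq_zero_iff] at h0
    rw [h0, mem_sphere_zero_iff_norm, norm_zero] at hx
    exact zero_ne_one hx
  obtain ⟨x, hx, hmax⟩ := hS.exists_isMaxOn
    (f := fun x => N' (b.equivFun.symm x) / N (b.equivFun.symm x))
    ⟨Pi.single ⟨0, hm0⟩ 1, by rw [mem_sphere_zero_iff_norm, Pi.norm_single, norm_one]⟩
    (c2.continuousOn.div c1.continuousOn fun x hx => (hpos x hx).ne')
  have hx0 := hpos x hx
  refine ⟨b.equivFun.symm x, fun h0 => hx0.ne' (by rw [h0, N.zero]), fun v => ?_⟩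
  by_cases hv : v = 0
  · subst hv
    simp
  -- scale `v`
  obtain ⟨z, hz⟩ : ∃ z, z = b.equivFun v := ⟨_, rfl⟩
  have hz0 : z ≠ 0 := by
    rw [hz]
    exact fun h => hv ((LinearEquiv.map_eq_zero_iff _).1 h)
  have hne : Nonempty (Fin m) := ⟨⟨0, hm0⟩⟩
  obtain ⟨i, hi⟩ : ∃ i, ‖z‖ = ‖z i‖ := by
    obtain ⟨i, -, hi⟩ := Finset.exists_max_image Finset.univ (fun i => ‖z i‖)
      Finset.univ_nonempty
    exact ⟨i, le_antisymm ((pi_norm_le_iff_of_nonneg (norm_nonneg _)).2
      fun j => hi j (Finset.mem_univ j)) (norm_le_pi_norm z i)⟩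
  have hzi : z i ≠ 0 := by
    intro h
    rw [h, norm_zero, norm_eq_zero] at hi
    exact hz0 hi
  have hu : (z i)⁻¹ • z ∈ Metric.sphere (0 : Fin m → k) 1 := by
    rw [mem_sphere_zero_iff_norm, norm_smul, norm_inv, hi, inv_mul_cancel₀]
    exact (norm_pos_iff.2 hzi).ne'
  have h1 := hmax hu
  have h2 : b.equivFun.symm ((z i)⁻¹ • z) = (z i)⁻¹ • v := by
    rw [map_smul, hz, LinearEquiv.symm_apply_apply]
  simp only [Set.mem_ofPred_eq, h2, N.smul, N'.smul] at h1
  have h3 : 0 < ‖(z i)⁻¹‖ := norm_pos_iff.2 (inv_ne_zero hzi)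
  rw [mul_div_mul_left _ _ h3.ne', div_le_div_iff₀ (N.pos hv) hx0] at h1
  exact h1

omit [IsUltrametricDist k] in
/-- Any two norms are comparable. PROOF: the ratio attains its maximum. -/
theorem Nm.exists_le (N N' : Nm k V) : ∃ C : ℝ, 0 < C ∧ ∀ v, N' v ≤ C * N v := by
  rcases subsingleton_or_nontrivial V with hV | hV
  · refine ⟨1, one_pos, fun v => ?_⟩
    rw [Subsingleton.elim v 0]
    simp
  · obtain ⟨e, he, hmax⟩ := Nm.exists_max_ratio N N'
    refine ⟨N' e / N e, div_pos (N'.pos he) (N.pos he), fun v => ?_⟩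
    rw [div_mul_eq_mul_div, le_div_iff₀ (N.pos he)]
    exact hmax v

end Local

end Pool.Agent.Lib.MP_5d4057_al.IN
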