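import Pool.Agent.Lib.MP_5d4057_al.IN.NmA

/-!
# A2: orthogonal bases
-/

namespace Pool.Agent.Lib.MP_5d4057_al.IN

open Module

variable {k : Type} [NontriviallyNormedField k] [IsUltrametricDist k] [ProperSpace k]
  {V : Type} [AddCommGroup V] [Module k V] [FiniteDimensional k V]

/-- `l` is a norming functional for `N` at `e`. -/
def Norming (N : Nm k V) (e : V) (l : V →ₗ[k] k) : Prop :=
  l e = 1 ∧ ∀ v, ‖l v‖ * N e ≤ N v

omit [ProperSpace k] [FiniteDimensional k V] in
/-- If `N' / N` is maximal at `e` and `l` is norming for `N'` at `e`, then `l` is norming for `N`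
at `e`. PROOF: `‖l v‖ * N' e ≤ N' v ≤ (N' e / N e) * N v`. -/
theorem Norming.of_max {N N' : Nm k V} {e : V} {l : V →ₗ[k] k} (h : Norming N' e l) (he : e ≠ 0)
    (hmax : ∀ v, N' v * N e ≤ N' e * N v) : Norming N e l := by
  refine ⟨h.1, fun v => ?_⟩
  have h1 : N' e * (‖l v‖ * N e) ≤ N' e * N v := by
    calc N' e * (‖l v‖ * N e) = ‖l v‖ * N' e * N e := by ring
      _ ≤ N' v * N e := mul_le_mul_of_nonneg_right (h.2 v) (N.nonneg e)
      _ ≤ N' e * N v := hmax v
  exact le_of_mul_le_mul_left h1 (N'.pos he)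

omit [ProperSpace k] [FiniteDimensional k V] in
/-- `e` is orthogonal to the kernel of a norming functional. -/
theorem Norming.orth {N : Nm k V} {e : V} {l : V →ₗ[k] k} (h : Norming N e l) (x : k) {w : V}
    (hw : l w = 0) : ‖x‖ * N e ≤ N (x • e + w) ∧ N w ≤ N (x • e + w) := by
  have h1 : ‖x‖ * N e ≤ N (x • e + w) := by
    have h2 := h.2 (x • e + w)
    rwa [map_add, map_smul, h.1, hw, smul_eq_mul, mul_one, add_zero] at h2
  refine ⟨h1, ?_⟩
  have h3 := N.sub_le (x • e + w) (x • e)
  rw [add_sub_cancel_left, N.smul] at h3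
  exact h3.trans (max_le le_rfl h1)

omit [ProperSpace k] [FiniteDimensional k V] in
/-- Every vector `≠ 0` has a norming functional when there is an orthogonal basis.
PROOF: `l = b.coord i / b.coord i e` with `i` of `IsOrth.exists_eq`. -/
theorem exists_norming_of_orth {ι : Type} [Finite ι] {N : Nm k V} {b : Basis ι k V}
    (hb : IsOrth N b) {e : V} (he : e ≠ 0) : ∃ l : V →ₗ[k] k, Norming N e l := by
  obtain ⟨i, hi, hi0⟩ := hb.exists_eq he
  refine ⟨(b.repr e i)⁻¹ • b.coord i, ?_, fun v => ?_⟩
  · rw [LinearMap.smul_apply, Basis.coord_apply, smul_eq_mul, inv_mul_cancel₀ hi0]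
  · rw [LinearMap.smul_apply, Basis.coord_apply, smul_eq_mul, norm_mul, norm_inv, ← hi]
    have h0 : ‖b.repr e i‖ ≠ 0 := norm_ne_zero_iff.2 hi0
    calc ‖b.repr e i‖⁻¹ * ‖b.repr v i‖ * (‖b.repr e i‖ * N (b i))
        = (‖b.repr e i‖⁻¹ * ‖b.repr e i‖) * (‖b.repr v i‖ * N (b i)) := by ring
      _ = ‖b.repr v i‖ * N (b i) := by rw [inv_mul_cancel₀ h0, one_mul]
      _ ≤ N v := hb v i

omit [ProperSpace k] in
/-- Induction step: an orthogonal basis of the kernel together with `e` (put first) is an orthogonal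
basis. The same basis for several norms. PROOF: `Basis.mkFinCons` (or `Basis.mkFinConsOfLE`) with
`e` and the kernel; reindex by `finrank (ker l) + 1 = finrank V`. The statement is for a family of
norms (`α = Unit` or `Bool`), so that common bases are possible. -/
theorem exists_cons {α : Type} [Nonempty α] (N : α → Nm k V) {e : V} {l : V →ₗ[k] k}
    (h : ∀ a, Norming (N a) e l)
    (b : Basis (Fin (finrank k (LinearMap.ker l))) k (LinearMap.ker l))
    (hb : ∀ a, IsOrth ((N a).res (LinearMap.ker l)) b) :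
    ∃ c : Basis (Fin (finrank k V)) k V, (∀ a, IsOrth (N a) c) ∧
      (∀ i : Fin (finrank k V), i.val = 0 → c i = e) ∧
      ∀ (i : Fin (finrank k V)) (j : Fin (finrank k (LinearMap.ker l))), i.val = j.val + 1 →
        c i = (b j : V) := by
  have he : l e = 1 := (h (Classical.arbitrary α)).1
  have hsurj : LinearMap.range l = ⊤ := LinearMap.range_eq_top.2 fun x => ⟨x • e, by
    rw [map_smul, he, smul_eq_mul, mul_one]⟩
  have hd : finrank k (LinearMap.ker l) + 1 = finrank k V := by
    have h1 := LinearMap.finrank_range_add_finrank_ker l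
    rw [hsurj, finrank_top, finrank_self] at h1
    omega
  obtain ⟨c0, hc0⟩ : ∃ c0 : Basis (Fin (finrank k (LinearMap.ker l) + 1)) k V,
      (c0 : Fin (finrank k (LinearMap.ker l) + 1) → V) = Fin.cons e ((↑) ∘ b) := by
    refine ⟨Basis.mkFinCons e b (fun c x hx hcx => ?_) (fun z => ⟨-l z, ?_⟩), Basis.coe_mkFinCons _ _ _ _⟩
    · have h1 := congrArg l hcx
      rw [map_add, map_smul, he, LinearMap.mem_ker.1 hx, smul_eq_mul, mul_one, add_zero,
        map_zero] at h1
      exact h1
    · rw [LinearMap.mem_ker, map_add, map_smul, he, smul_eq_mul, mul_one, add_neg_cancel]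
  have h0 : c0 0 = e := by rw [hc0, Fin.cons_zero]
  have hs : ∀ j, c0 j.succ = (b j : V) := fun j => by rw [hc0, Fin.cons_succ]; rfl
  have horth : ∀ a, IsOrth (N a) c0 := by
    intro a v i
    obtain ⟨w, hw⟩ : ∃ w : LinearMap.ker l, w = ∑ j, c0.repr v j.succ • b j := ⟨_, rfl⟩
    have hv : c0.repr v 0 • e + (w : V) = v := by
      rw [hw]
      conv_rhs => rw [← c0.sum_repr v, Fin.sum_univ_succ, h0]
      rw [Submodule.coe_sum]
      refine congrArg _ (Finset.sum_congr rfl fun j _ => ?_)
      rw [hs]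
      rfl
    have hwr : ∀ j, b.repr w j = c0.repr v j.succ := fun j => by rw [hw, Basis.repr_sum_self]
    obtain ⟨h1, h2⟩ := (h a).orth (c0.repr v 0) (LinearMap.mem_ker.1 w.2)
    rw [hv] at h1 h2
    refine Fin.cases ?_ (fun j => ?_) i
    · rw [h0]
      exact h1
    · rw [hs, ← hwr]
      exact (hb a w j).trans h2
  refine ⟨c0.reindex (finCongr hd), fun a => (horth a).reindex _, fun i hi => ?_, fun i j hij => ?_⟩
  · rw [Basis.reindex_apply, ← h0]
    congr 1
    exact Fin.ext hi
  · rw [Basis.reindex_apply, ← hs]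
    congr 1
    exact Fin.ext hij

/-- Every norm has an orthogonal basis. PROOF: induction on the dimension (over all `V`); apply
`Nm.exists_max_ratio N N₀` with `N₀ = Nm.ofBasis`, `Norming.of_max`, `exists_cons`. -/
theorem exists_orth (N : Nm k V) : ∃ b : Basis (Fin (finrank k V)) k V, IsOrth N b := by
  obtain ⟨n, hn⟩ : ∃ n, finrank k V = n := ⟨_, rfl⟩
  induction n generalizing V with
  | zero => exact ⟨finBasis k V, fun v i => absurd i.2 (by omega)⟩
  | succ n ih =>
    have : Nontrivial V := nontrivial_of_finrank_pos (R := k) (by omega)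
    obtain ⟨e, he, hmax⟩ := Nm.exists_max_ratio N
      (Nm.ofBasis (finBasis k V) (fun _ => 1) fun _ => one_pos)
    obtain ⟨l, hl⟩ := exists_norming_of_orth (isOrth_ofBasis (finBasis k V) (fun _ => 1)
      fun _ => one_pos) he
    have hl' : Norming N e l := hl.of_max he hmax
    have hker : finrank k (LinearMap.ker l) = n := by
      have h1 := LinearMap.finrank_range_add_finrank_ker l
      have hsurj : LinearMap.range l = ⊤ := LinearMap.range_eq_top.2 fun x => ⟨x • e, by
        rw [map_smul, hl.1, smul_eq_mul, mul_one]⟩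
      rw [hsurj, finrank_top, finrank_self] at h1
      omega
    obtain ⟨b, hb⟩ := ih (N.res (LinearMap.ker l)) hker
    obtain ⟨c, hc, -⟩ := exists_cons (fun _ : Unit => N) (fun _ => hl') b fun _ => hb
    exact ⟨c, hc ()⟩

/-- Two norms have a common orthogonal basis, sorted by decreasing ratio. PROOF: induction on the
dimension; `e` = maximum point of `N' / N`, `l` norming for `N'` at `e` (`exists_orth N'`), norming
for `N` by `Norming.of_max`; the ratios on the kernel are at most the maximum. -/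
theorem exists_orth2 (N N' : Nm k V) : ∃ b : Basis (Fin (finrank k V)) k V,
    IsOrth N b ∧ IsOrth N' b ∧ Antitone fun i => N' (b i) / N (b i) := by
  obtain ⟨n, hn⟩ : ∃ n, finrank k V = n := ⟨_, rfl⟩
  induction n generalizing V with
  | zero => exact ⟨finBasis k V, fun v i => absurd i.2 (by omega), fun v i => absurd i.2 (by omega),
      fun i => absurd i.2 (by omega)⟩
  | succ n ih =>
    have : Nontrivial V := nontrivial_of_finrank_pos (R := k) (by omega)
    obtain ⟨e, he, hmax⟩ := Nm.exists_max_ratio N N'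
    obtain ⟨b', hb'⟩ := exists_orth N'
    obtain ⟨l, hl⟩ := exists_norming_of_orth hb' he
    have hl' : Norming N e l := hl.of_max he hmax
    have hker : finrank k (LinearMap.ker l) = n := by
      have h1 := LinearMap.finrank_range_add_finrank_ker l
      have hsurj : LinearMap.range l = ⊤ := LinearMap.range_eq_top.2 fun x => ⟨x • e, by
        rw [map_smul, hl.1, smul_eq_mul, mul_one]⟩
      rw [hsurj, finrank_top, finrank_self] at h1
      omega
    obtain ⟨b, hb1, hb2, hb3⟩ := ih (N.res (LinearMap.ker l)) (N'.res (LinearMap.ker l)) hker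
    obtain ⟨c, hc, hc0, hcs⟩ := exists_cons (fun x : Bool => if x = true then N' else N)
      (fun x => by cases x; exacts [hl', hl]) b fun x => by cases x; exacts [hb1, hb2]
    refine ⟨c, hc false, hc true, fun i j hij => ?_⟩
    change N' (c j) / N (c j) ≤ N' (c i) / N (c i)
    have hij' : i.val ≤ j.val := hij
    by_cases hi : i.val = 0
    · rw [hc0 i hi, div_le_div_iff₀ (N.pos (c.ne_zero j)) (N.pos he)]
      exact hmax (c j)
    · have hib := i.2
      have hjb := j.2
      have hi' : i.val - 1 < finrank k (LinearMap.ker l) := by omega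
      have hj' : j.val - 1 < finrank k (LinearMap.ker l) := by omega
      rw [hcs i ⟨i.val - 1, hi'⟩ (by simp only; omega), hcs j ⟨j.val - 1, hj'⟩ (by simp only; omega)]
      exact hb3 (Fin.mk_le_mk.2 (by omega))

/-- Every subspace has an orthogonal complement. PROOF: induction on the dimension of `W`
(for all `V`): `0 ≠ e ∈ W`, `l` norming at `e`; apply the induction hypothesis to
`W ⊓ ker l` inside `ker l`; `W = k e + (W ⊓ ker l)`. -/
theorem exists_orth_compl (N : Nm k V) (W : Submodule k V) : ∃ W' : Submodule k V, IsCompl W W' ∧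
    ∀ w ∈ W, ∀ w' ∈ W', N w ≤ N (w + w') ∧ N w' ≤ N (w + w') := by
  obtain ⟨n, hn⟩ : ∃ n, finrank k W ≤ n := ⟨_, le_rfl⟩
  induction n generalizing V with
  | zero =>
    have hW : W = ⊥ := Submodule.finrank_eq_zero.1 (by omega)
    refine ⟨⊤, by rw [hW]; exact isCompl_bot_top, fun w hw w' _ => ?_⟩
    rw [hW, Submodule.mem_bot] at hw
    rw [hw, zero_add, Nm.zero]
    exact ⟨N.nonneg _, le_rfl⟩
  | succ n ih =>
    by_cases hW : W = ⊥
    · refine ⟨⊤, by rw [hW]; exact isCompl_bot_top, fun w hw w' _ => ?_⟩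
      rw [hW, Submodule.mem_bot] at hw
      rw [hw, zero_add, Nm.zero]
      exact ⟨N.nonneg _, le_rfl⟩
    obtain ⟨e, heW, he⟩ := (Submodule.ne_bot_iff W).1 hW
    obtain ⟨b, hb⟩ := exists_orth N
    obtain ⟨l, hl⟩ := exists_norming_of_orth hb he
    obtain ⟨K, hK⟩ : ∃ K, K = LinearMap.ker l := ⟨_, rfl⟩
    have hmem : ∀ v, v ∈ K ↔ l v = 0 := fun v => by rw [hK, LinearMap.mem_ker]
    have hdim : finrank k (W.comap K.subtype) ≤ n := by
      rw [← Submodule.finrank_map_subtype_eq, Submodule.map_comap_subtype]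
      have h1 : K ⊓ W < W := by
        refine lt_of_le_of_ne inf_le_right fun h => ?_
        have h2 : e ∈ K ⊓ W := by rw [h]; exact heW
        have h3 := (hmem e).1 h2.1
        rw [hl.1] at h3
        exact one_ne_zero h3
      have h4 := Submodule.finrank_lt_finrank_of_lt h1
      omega
    obtain ⟨W1, hW1, horth⟩ := ih (N.res K) (W.comap K.subtype) hdim
    refine ⟨W1.map K.subtype, ⟨?_, ?_⟩, ?_⟩
    · rw [Submodule.disjoint_def]
      rintro v hv ⟨v1, hv1, rfl⟩
      have h1 := Submodule.disjoint_def.1 hW1.disjoint v1 hv hv1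
      rw [h1, map_zero]
    · rw [codisjoint_iff, eq_top_iff]
      intro v _
      have h1 : v - l v • e ∈ K := by
        rw [hmem, map_sub, map_smul, hl.1, smul_eq_mul, mul_one, sub_self]
      have h2 : (⟨v - l v • e, h1⟩ : K) ∈ W.comap K.subtype ⊔ W1 := by
        rw [codisjoint_iff.1 hW1.codisjoint]
        exact Submodule.mem_top
      obtain ⟨w1, hw1, w2, hw2, h3⟩ := Submodule.mem_sup.1 h2
      rw [Submodule.mem_sup]
      refine ⟨l v • e + (w1 : V), W.add_mem (W.smul_mem _ heW) hw1, (w2 : V),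
        ⟨w2, hw2, rfl⟩, ?_⟩
      have h4 : (w1 : V) + (w2 : V) = v - l v • e := congrArg Subtype.val h3
      rw [add_assoc, h4, add_sub_cancel]
    · rintro w hw _ ⟨w2, hw2, rfl⟩
      have h1 : w - l w • e ∈ K := by
        rw [hmem, map_sub, map_smul, hl.1, smul_eq_mul, mul_one, sub_self]
      have h2 : (⟨w - l w • e, h1⟩ : K) ∈ W.comap K.subtype :=
        W.sub_mem hw (W.smul_mem _ heW)
      have h3 := horth _ h2 w2 hw2
      have h4 : l ((w - l w • e) + (w2 : V)) = 0 := (hmem _).1 (K.add_mem h1 w2.2)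
      obtain ⟨h5, h6⟩ := hl.orth (l w) h4
      have h7 : l w • e + ((w - l w • e) + (w2 : V)) = w + (w2 : V) := by
        rw [← add_assoc, add_sub_cancel]
      rw [h7] at h5 h6
      change N w ≤ N (w + (w2 : V)) ∧ N (w2 : V) ≤ N (w + (w2 : V))
      have h8 : N (w - l w • e) ≤ N (w + (w2 : V)) := h3.1.trans h6
      have h9 : N (w2 : V) ≤ N (w + (w2 : V)) := h3.2.trans h6
      refine ⟨?_, h9⟩
      have h10 := N.add_le (l w • e) (w - l w • e)
      rw [add_sub_cancel, N.smul] at h10
      exact h10.trans (max_le h5 h8)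

end Pool.Agent.Lib.MP_5d4057_al.IN
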