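import Pool.Agent.Lib.MP_5d4057_al.IN.NmB

/-!
# A3: exterior powers
-/

namespace Pool.Agent.Lib.MP_5d4057_al.IN

open Module

variable {k : Type} [NontriviallyNormedField k] [IsUltrametricDist k] [ProperSpace k]
  {V : Type} [AddCommGroup V] [Module k V] [FiniteDimensional k V]
  {ι : Type} [Fintype ι] [LinearOrder ι]

omit [Fintype ι] in
private theorem prod_pcard (j : ℕ) (s : Set.powersetCard ι j) (F : ι → ℝ) :
    ∏ i ∈ s.1, F i = ∏ i : Fin j, F (Set.powersetCard.ofFinEmbEquiv.symm s i) := by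
  have h : s.1 = Finset.univ.map (Set.powersetCard.ofFinEmbEquiv.symm s).toEmbedding := by
    ext i
    simp only [Finset.mem_map, Finset.mem_univ, true_and]
    have := Set.powersetCard.mem_range_ofFinEmbEquiv_symm_iff_mem s i
    rw [Set.mem_range] at this
    exact this.symm
  conv_lhs => rw [h]
  rw [Finset.prod_map]
  rfl

omit [ProperSpace k] [FiniteDimensional k V] in
/-- Determinant bound: if `b` is orthogonal for `N` and `w` is a tuple, then every coordinate of
`ιMulti w` in the basis `b.exteriorPower j` satisfies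
`‖coord_s‖ * ∏ i ∈ s, N (b i) ≤ ∏ i, N (w i)`. PROOF: `exteriorPower.basis_repr_apply`,
`ιMultiDual_apply_ιMulti`: the coordinate is the determinant of the matrix
`b.coord (s_j) (w i)`; expand (`Matrix.det_apply`), ultrametric inequality, each factor
`‖b.coord (s_j) (w i)‖ * N (b s_j) ≤ N (w i)`. -/
theorem IsOrth.coord_ext_le {N : Nm k V} {b : Basis ι k V} (hb : IsOrth N b) {j : ℕ}
    (w : Fin j → V) (s : Set.powersetCard ι j) :
    ‖(b.exteriorPower j).repr (exteriorPower.ιMulti k j w) s‖ * ∏ i ∈ s.1, N (b i) ≤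
      ∏ i, N (w i) := by
  rw [exteriorPower.basis_repr_apply, exteriorPower.ιMultiDual_apply_ιMulti,
    prod_pcard j s (fun i => N (b i))]
  set e := Set.powersetCard.ofFinEmbEquiv.symm s with he
  have hP : 0 < ∏ i : Fin j, N (b (e i)) := Finset.prod_pos fun i _ => N.pos (b.ne_zero _)
  rw [← le_div_iff₀ hP, ← Matrix.det_transpose, Matrix.det_apply]
  refine IsUltrametricDist.norm_sum_le_of_forall_le_of_nonneg
    (div_nonneg (Finset.prod_nonneg fun i _ => N.nonneg _) hP.le) fun σ _ => ?_
  rw [le_div_iff₀ hP]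
  have h1 : ‖Equiv.Perm.sign σ • ∏ i, (Matrix.of fun i l => b.coord (e l) (w i)).transpose (σ i) i‖ =
      ∏ i, ‖b.coord (e (σ i)) (w i)‖ := by
    rcases Int.units_eq_one_or (Equiv.Perm.sign σ) with h | h <;> rw [h] <;>
      simp [norm_prod]
  rw [h1]
  have h2 : ∏ i : Fin j, N (b (e i)) = ∏ i : Fin j, N (b (e (σ i))) :=
    (Equiv.prod_comp σ fun i => N (b (e i))).symm
  rw [h2, ← Finset.prod_mul_distrib]
  refine Finset.prod_le_prod (fun i _ => mul_nonneg (norm_nonneg _) (N.nonneg _)) fun i _ => ?_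
  exact hb (w i) (e (σ i))

omit [ProperSpace k] in
private theorem ext_le_aux {ι' : Type} [Fintype ι'] [LinearOrder ι'] {N : Nm k V}
    {b : Basis ι k V} (hb : IsOrth N b) {b' : Basis ι' k V} (hb' : IsOrth N b') (j : ℕ)
    (v : ⋀[k]^j V) :
    Nm.ofBasis (b'.exteriorPower j) (fun s => ∏ i ∈ s.1, N (b' i))
        (fun _ => Finset.prod_pos fun i _ => N.pos (b'.ne_zero i)) v ≤
      Nm.ofBasis (b.exteriorPower j) (fun s => ∏ i ∈ s.1, N (b i))
        (fun _ => Finset.prod_pos fun i _ => N.pos (b.ne_zero i)) v := by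
  have ha : ∀ s : Set.powersetCard ι j, 0 < ∏ i ∈ s.1, N (b i) :=
    fun _ => Finset.prod_pos fun i _ => N.pos (b.ne_zero i)
  have ha' : ∀ s : Set.powersetCard ι' j, 0 < ∏ i ∈ s.1, N (b' i) :=
    fun _ => Finset.prod_pos fun i _ => N.pos (b'.ne_zero i)
  set M := Nm.ofBasis (b'.exteriorPower j) (fun s => ∏ i ∈ s.1, N (b' i)) ha' with hM
  set M' := Nm.ofBasis (b.exteriorPower j) (fun s => ∏ i ∈ s.1, N (b i)) ha with hM'
  have hM'o : IsOrth M' (b.exteriorPower j) := isOrth_ofBasis _ _ ha
  have hMo : IsOrth M (b'.exteriorPower j) := isOrth_ofBasis _ _ ha'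
  have hkey : ∀ s : Set.powersetCard ι j, M (b.exteriorPower j s) ≤ ∏ i ∈ s.1, N (b i) := by
    intro s
    rw [hMo.le_iff (ha s).le]
    intro t
    have h1 : M (b'.exteriorPower j t) = ∏ i ∈ t.1, N (b' i) := Nm.ofBasis_self _ _ ha' t
    rw [h1, exteriorPower.basis_apply, exteriorPower.ιMulti_family,
      prod_pcard j s (fun i => N (b i))]
    exact hb'.coord_ext_le _ t
  refine Nm.le_of_basis M (b.exteriorPower j) (M'.nonneg v) fun s => ?_
  refine le_trans (mul_le_mul_of_nonneg_left ?_ (norm_nonneg _)) (hM'o v s)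
  rw [show M' (b.exteriorPower j s) = ∏ i ∈ s.1, N (b i) from Nm.ofBasis_self _ _ ha s]
  exact hkey s

private theorem ext_eq {N : Nm k V} {b : Basis ι k V} (hb : IsOrth N b) (j : ℕ) :
    N.ext j = Nm.ofBasis (b.exteriorPower j) (fun s => ∏ i ∈ s.1, N (b i))
      (fun _ => Finset.prod_pos fun i _ => N.pos (b.ne_zero i)) := by
  have h := exists_orth N
  rw [Nm.ext, dif_pos h]
  apply Nm.ext'
  intro v
  exact le_antisymm (ext_le_aux hb h.choose_spec j v) (ext_le_aux h.choose_spec hb j v)

/-- The basis `b.exteriorPower j` is orthogonal for `N.ext j`, for every orthogonal basis `b`.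
PROOF: let `M` be the norm of the definition (basis `b'`) and `M' = Nm.ofBasis (b.exteriorPower j)
(∏ N (b i))`. By `coord_ext_le` `M (b_s) ≤ ∏ N (b i) = M' (b_s)` for all `s`, so `M ≤ M'`
(`M'` is orthogonal), and in the same way `M' ≤ M`. So `M = M'`. -/
theorem IsOrth.ext {N : Nm k V} {b : Basis ι k V} (hb : IsOrth N b) (j : ℕ) :
    IsOrth (N.ext j) (b.exteriorPower j) := by
  rw [ext_eq hb j]
  exact isOrth_ofBasis _ _ _

theorem IsOrth.ext_apply {N : Nm k V} {b : Basis ι k V} (hb : IsOrth N b) {j : ℕ}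
    (s : Set.powersetCard ι j) : N.ext j (b.exteriorPower j s) = ∏ i ∈ s.1, N (b i) := by
  rw [ext_eq hb j]
  exact Nm.ofBasis_self _ _ _ s

/-- Hadamard. -/
theorem Nm.vol_le (N : Nm k V) {j : ℕ} (w : Fin j → V) : N.vol w ≤ ∏ i, N (w i) := by
  obtain ⟨b, hb⟩ := exists_orth N
  rw [Nm.vol, (hb.ext j).le_iff (Finset.prod_nonneg fun i _ => N.nonneg _)]
  intro s
  rw [hb.ext_apply s]
  exact hb.coord_ext_le w s

theorem Nm.vol_pos (N : Nm k V) {j : ℕ} {w : Fin j → V} (hw : LinearIndependent k w) :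
    0 < N.vol w := by
  apply Nm.pos
  intro h0
  have h := (exteriorPower.ιMulti_family_linearIndependent_field (n := j) hw).ne_zero
    (Set.powersetCard.ofFinEmbEquiv (RelEmbedding.refl _ : Fin j ↪o Fin j))
  apply h
  rw [exteriorPower.ιMulti_family, Equiv.symm_apply_apply]
  exact h0

/-- A finite tuple is orthogonal for `N`. -/
def OrthF (N : Nm k V) {j : ℕ} (w : Fin j → V) : Prop :=
  (∀ i, w i ≠ 0) ∧ ∀ (c : Fin j → k) (i : Fin j), ‖c i‖ * N (w i) ≤ N (∑ l, c l • w l)

omit [IsUltrametricDist k] [ProperSpace k] [FiniteDimensional k V] in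
theorem OrthF.linearIndependent {N : Nm k V} {j : ℕ} {w : Fin j → V} (hw : OrthF N w) :
    LinearIndependent k w := by
  rw [Fintype.linearIndependent_iff]
  intro c hc i
  have h1 := hw.2 c i
  rw [hc, Nm.zero] at h1
  have h2 : 0 < N (w i) := N.pos (hw.1 i)
  have h3 : ‖c i‖ ≤ 0 := by
    by_contra h
    push Not at h
    exact absurd h1 (not_le.2 (mul_pos h h2))
  exact norm_le_zero_iff.1 h3

omit [ProperSpace k] [FiniteDimensional k V] [Fintype ι] [LinearOrder ι] in
theorem IsOrth.orthF {N : Nm k V} {b : Basis ι k V} (hb : IsOrth N b) {j : ℕ} {s : Fin j → ι}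
    (hs : Function.Injective s) : OrthF N (fun i => b (s i)) := by
  classical
  refine ⟨fun i => b.ne_zero _, fun c i => ?_⟩
  have h := hb (∑ l, c l • b (s l)) (s i)
  have e : b.repr (∑ l, c l • b (s l)) (s i) = c i := by
    rw [map_sum, Finsupp.finsetSum_apply, Finset.sum_eq_single i]
    · simp
    · intro l _ hl
      simp [hs.ne hl]
    · simp
  rwa [e] at h

/-- An orthogonal tuple extends to an orthogonal basis. PROOF: orthogonal complement of the span
(`exists_orth_compl`), orthogonal basis of the complement (`exists_orth`). -/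
theorem OrthF.exists_basis {N : Nm k V} {j : ℕ} {w : Fin j → V} (hw : OrthF N w) :
    ∃ b : Basis (Fin (finrank k V)) k V, IsOrth N b ∧
      ∀ (i : Fin j) (i' : Fin (finrank k V)), i.val = i'.val → b i' = w i := by
  set W := Submodule.span k (Set.range w) with hW
  obtain ⟨W', hc, ho⟩ := exists_orth_compl N W
  obtain ⟨c, hcO⟩ := exists_orth (N.res W')
  set a : Basis (Fin j) k W := Basis.span hw.linearIndependent with ha
  have haw : ∀ i, ((a i : W) : V) = w i := fun i => by rw [ha, Basis.span_apply]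
  set E := Submodule.prodEquivOfIsCompl W W' hc with hE
  set B : Basis (Fin j ⊕ Fin (finrank k W')) k V := (a.prod c).map E with hB
  have hcard : j + finrank k W' = finrank k V := by
    have h1 := Submodule.finrank_add_eq_of_isCompl hc
    have h2 : finrank k W = j := by rw [finrank_eq_card_basis a, Fintype.card_fin]
    omega
  have hBinl : ∀ i, B (Sum.inl i) = w i := by
    intro i
    rw [hB, Basis.map_apply, Basis.prod_apply]
    simp [hE, haw]
  have hBinr : ∀ i, B (Sum.inr i) = (c i : V) := by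
    intro i
    rw [hB, Basis.map_apply, Basis.prod_apply]
    simp [hE]
  have hBO : IsOrth N B := by
    intro v
    obtain ⟨⟨x, y⟩, rfl⟩ := E.surjective v
    have hv : E (x, y) = (x : V) + y := rfl
    have hr : B.repr (E (x, y)) = (a.prod c).repr (x, y) := by
      rw [hB, Basis.map_repr]
      simp
    obtain ⟨h1, h2⟩ := ho x x.2 y y.2
    rw [hr]
    rintro (i | i)
    · rw [hBinl, Basis.prod_repr_inl]
      refine le_trans ?_ (le_of_le_of_eq h1 (by rw [hv]))
      have h3 := hw.2 (fun l => a.repr x l) i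
      have h4 : ∑ l, a.repr x l • w l = (x : V) := by
        have h5 := congrArg W.subtype (a.sum_repr x)
        rw [map_sum] at h5
        rw [← show W.subtype x = (x : V) from rfl, ← h5]
        exact Finset.sum_congr rfl fun l _ => by rw [map_smul, Submodule.subtype_apply, haw]
      rw [h4] at h3
      exact h3
    · rw [hBinr, Basis.prod_repr_inr]
      refine le_trans ?_ (le_of_le_of_eq h2 (by rw [hv]))
      exact hcO y i
  refine ⟨B.reindex (finSumFinEquiv.trans (finCongr hcard)), hBO.reindex _, ?_⟩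
  intro i i' hi
  rw [Basis.reindex_apply]
  have h5 : (finSumFinEquiv.trans (finCongr hcard)).symm i' = Sum.inl i := by
    rw [Equiv.symm_apply_eq]
    ext
    simp [← hi]
  rw [h5, hBinl]

/-- The volume of an orthogonal tuple. -/
theorem OrthF.vol_eq {N : Nm k V} {j : ℕ} {w : Fin j → V} (hw : OrthF N w) :
    N.vol w = ∏ i, N (w i) := by
  obtain ⟨b, hb, hbw⟩ := hw.exists_basis
  have hj : j ≤ finrank k V := by
    have := hw.linearIndependent.fintype_card_le_finrank
    simpa using this
  set s : Set.powersetCard (Fin (finrank k V)) j :=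
    Set.powersetCard.ofFinEmbEquiv (Fin.castLEOrderEmb hj) with hs
  have h1 : b.exteriorPower j s = exteriorPower.ιMulti k j w := by
    rw [exteriorPower.basis_apply, exteriorPower.ιMulti_family, hs, Equiv.symm_apply_apply]
    congr 1
    funext i
    exact hbw i _ rfl
  rw [Nm.vol, ← h1, hb.ext_apply s, prod_pcard j s (fun i => N (b i)), hs, Equiv.symm_apply_apply]
  refine Finset.prod_congr rfl fun i _ => ?_
  rw [hbw i _ rfl]

end Pool.Agent.Lib.MP_5d4057_al.IN
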