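import Pool.Agent.Lib.MP_5d4057_al.IN.NmC

/-!
# A3, second part: volumes of tuples, functoriality, orthogonality defect
-/

namespace Pool.Agent.Lib.MP_5d4057_al.IN

open Module

section Alg

variable {k : Type} [Field k] {V V' : Type} [AddCommGroup V] [Module k V] [AddCommGroup V']
  [Module k V']

/-- the wedge product of linear combinations -/
private theorem wedge_matrix {j : ℕ} (w : Fin j → V) (A : Matrix (Fin j) (Fin j) k) :
    exteriorPower.ιMulti k j (fun i => ∑ l, A i l • w l) = A.det • exteriorPower.ιMulti k j w := by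
  classical
  let T : (Fin j → k) →ₗ[k] V := Fintype.linearCombination k w
  have hT : ∀ x, T x = ∑ l, x l • w l := fun x => Fintype.linearCombination_apply k w x
  let f : (Fin j → k) [⋀^Fin j]→ₗ[k] (⋀[k]^j V) := (exteriorPower.ιMulti k j).compLinearMap T
  let g : (Fin j → k) [⋀^Fin j]→ₗ[k] (⋀[k]^j V) :=
    (LinearMap.toSpanSingleton k (⋀[k]^j V) (exteriorPower.ιMulti k j w)).compAlternatingMap
      Matrix.detRowAlternating
  have he : f (Pi.basisFun k (Fin j)) = g (Pi.basisFun k (Fin j)) := by
    have h1 : f (Pi.basisFun k (Fin j)) = exteriorPower.ιMulti k j w := by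
      show exteriorPower.ιMulti k j (fun i => T (Pi.basisFun k (Fin j) i)) = _
      congr 1
      funext i
      rw [hT, Finset.sum_eq_single i]
      · simp
      · intro b _ hb
        simp [hb]
      · intro h
        exact absurd (Finset.mem_univ _) h
    have h2 : g (Pi.basisFun k (Fin j)) = exteriorPower.ιMulti k j w := by
      have h3 : g (Pi.basisFun k (Fin j)) =
          (Matrix.of fun i => Pi.basisFun k (Fin j) i).det • exteriorPower.ιMulti k j w := rfl
      have h4 : (Matrix.of fun i => Pi.basisFun k (Fin j) i) = (1 : Matrix (Fin j) (Fin j) k) := by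
        ext a b
        simp [Matrix.one_apply, Pi.single_apply, eq_comm]
      rw [h3, h4, Matrix.det_one, one_smul]
    rw [h1, h2]
  have hfg : f = g := by
    refine Basis.ext_alternating (Pi.basisFun k (Fin j)) fun v hv => ?_
    let σ : Equiv.Perm (Fin j) := Equiv.ofBijective v (Finite.injective_iff_bijective.1 hv)
    have h1 := f.map_perm (Pi.basisFun k (Fin j)) σ
    have h2 := g.map_perm (Pi.basisFun k (Fin j)) σ
    rw [he] at h1
    exact h1.trans h2.symm
  have h := congrArg (fun F : (Fin j → k) [⋀^Fin j]→ₗ[k] (⋀[k]^j V) => F A) hfg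
  have h1 : f A = exteriorPower.ιMulti k j (fun i => ∑ l, A i l • w l) := by
    show exteriorPower.ιMulti k j (fun i => T (A i)) = _
    simp only [hT]
  rw [← h1]
  exact h

/-- the block form -/
private theorem wedge_append {a b : ℕ} (u : Fin a → V) (u' : Fin b → V)
    (A : Matrix (Fin a) (Fin a) k) (B : Matrix (Fin a) (Fin b) k) (D : Matrix (Fin b) (Fin b) k) :
    exteriorPower.ιMulti k (a + b) (Fin.append (fun i => ∑ l, A i l • u l + ∑ l, B i l • u' l)
      fun i => ∑ l, D i l • u' l) =
      (A.det * D.det) • exteriorPower.ιMulti k (a + b) (Fin.append u u') := by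
  let M : Matrix (Fin (a + b)) (Fin (a + b)) k :=
    (Matrix.fromBlocks A B 0 D).submatrix finSumFinEquiv.symm finSumFinEquiv.symm
  have hM : M.det = A.det * D.det := by
    rw [Matrix.det_submatrix_equiv_self, Matrix.det_fromBlocks_zero₂₁]
  rw [← hM, ← wedge_matrix]
  congr 1
  funext i
  refine Fin.addCases (fun i => ?_) (fun i => ?_) i
  · rw [Fin.append_left, Fin.sum_univ_add]
    simp [M]
  · rw [Fin.append_right, Fin.sum_univ_add]
    simp [M]

/-- coordinates of the image -/
private theorem coord_map {m m' : ℕ} (b : Basis (Fin m) k V) (c : Basis (Fin m') k V')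
    (T : V →ₗ[k] V') (f : Fin m ↪o Fin m') (h : ∀ i, T (b i) = c (f i)) (j : ℕ)
    (s : Set.powersetCard (Fin m) j) (x : ⋀[k]^j V) :
    (c.exteriorPower j).repr (exteriorPower.map j T x)
      (Set.powersetCard.ofFinEmbEquiv ((Set.powersetCard.ofFinEmbEquiv.symm s).trans f)) =
      (b.exteriorPower j).repr x s := by
  have hc : ∀ (i : Fin m) (v : V), c.coord (f i) (T v) = b.coord i v := by
    intro i v
    have : (c.coord (f i)).comp T = b.coord i := by
      refine b.ext fun l => ?_
      rw [LinearMap.comp_apply, h, Basis.coord_apply, Basis.coord_apply, Basis.repr_self,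
        Basis.repr_self, Finsupp.single_apply, Finsupp.single_apply]
      simp only [f.injective.eq_iff]
    exact LinearMap.congr_fun this v
  rw [exteriorPower.basis_repr_apply, exteriorPower.basis_repr_apply]
  refine LinearMap.congr_fun (f := (exteriorPower.ιMultiDual k j c _).comp
    (exteriorPower.map j T)) (g := exteriorPower.ιMultiDual k j b s) ?_ x
  refine exteriorPower.linearMap_ext ?_
  ext v
  simp only [LinearMap.compAlternatingMap_apply, LinearMap.comp_apply,
    exteriorPower.map_apply_ιMulti, exteriorPower.ιMultiDual_apply_ιMulti]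
  congr 1
  ext i l
  simp only [Matrix.of_apply, Equiv.symm_apply_apply, Function.comp_apply]
  exact hc _ _

/-- image of the basis elements -/
private theorem map_basis_ext {m m' : ℕ} (b : Basis (Fin m) k V) (c : Basis (Fin m') k V')
    (T : V →ₗ[k] V') (f : Fin m ↪o Fin m') (h : ∀ i, T (b i) = c (f i)) (j : ℕ)
    (s : Set.powersetCard (Fin m) j) :
    exteriorPower.map j T (b.exteriorPower j s) =
      c.exteriorPower j
        (Set.powersetCard.ofFinEmbEquiv ((Set.powersetCard.ofFinEmbEquiv.symm s).trans f)) := by
  rw [exteriorPower.basis_apply, exteriorPower.basis_apply]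
  unfold exteriorPower.ιMulti_family
  rw [exteriorPower.map_apply_ιMulti]
  congr 1
  funext i
  simp only [Equiv.symm_apply_apply, Function.comp_apply]
  exact h _

end Alg

variable {k : Type} [NontriviallyNormedField k] [IsUltrametricDist k] [ProperSpace k]
  {V : Type} [AddCommGroup V] [Module k V] [FiniteDimensional k V]

/-- Change of a tuple by a matrix. PROOF: alternating maps: `AlternatingMap.map_basis`-like; or
`exteriorPower.ιMulti` of linear combinations is the determinant times. -/
theorem Nm.vol_matrix (N : Nm k V) {j : ℕ} (w : Fin j → V) (A : Matrix (Fin j) (Fin j) k) :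
    N.vol (fun i => ∑ l, A i l • w l) = ‖A.det‖ * N.vol w := by
  rw [Nm.vol, wedge_matrix, Nm.smul]
  rfl

private theorem vol_block (N : Nm k V) {a b : ℕ} (u : Fin a → V) (u' : Fin b → V)
    (A : Matrix (Fin a) (Fin a) k) (B : Matrix (Fin a) (Fin b) k) (D : Matrix (Fin b) (Fin b) k) :
    N.vol (Fin.append (fun i => ∑ l, A i l • u l + ∑ l, B i l • u' l)
      fun i => ∑ l, D i l • u' l) = ‖A.det‖ * ‖D.det‖ * N.vol (Fin.append u u') := by
  rw [Nm.vol, wedge_append, Nm.smul, norm_mul]
  rfl

/-- the coordinates of an independent tuple in an orthogonal basis of its span -/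
private theorem exists_mat (N : Nm k V) {j : ℕ} {w : Fin j → V}
    (b : Basis (Fin (finrank k (Submodule.span k (Set.range w)))) k
      (Submodule.span k (Set.range w)))
    (hb : IsOrth (N.res _) b) (hw : LinearIndependent k w) :
    ∃ (e : Fin j ≃ Fin (finrank k (Submodule.span k (Set.range w)))),
      (∀ i, (e i).val = i.val) ∧ OrthF N (fun i => (b (e i) : V)) ∧
      ∃ A : Matrix (Fin j) (Fin j) k, ∀ i, w i = ∑ l, A i l • (b (e l) : V) := by
  have hj : j = finrank k (Submodule.span k (Set.range w)) := by
    rw [finrank_span_eq_card hw, Fintype.card_fin]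
  let e : Fin j ≃ Fin (finrank k (Submodule.span k (Set.range w))) := finCongr hj
  refine ⟨e, fun i => rfl, ⟨fun i h => b.ne_zero (e i) (Subtype.ext h), fun c i => ?_⟩, ?_⟩
  · have h1 := hb (∑ l, c l • b (e l)) (e i)
    have h2 : b.repr (∑ l, c l • b (e l)) (e i) = c i := by
      rw [map_sum, Finsupp.finsetSum_apply, Finset.sum_eq_single i]
      · simp
      · intro l _ hl
        rw [map_smul, Basis.repr_self, Finsupp.smul_apply,
          Finsupp.single_eq_of_ne (fun h => hl (e.injective h).symm), smul_zero]
      · intro h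
        exact absurd (Finset.mem_univ _) h
    rw [h2] at h1
    have h3 : ((∑ l, c l • b (e l) : Submodule.span k (Set.range w)) : V) =
        ∑ l, c l • (b (e l) : V) := by
      rw [AddSubmonoidClass.coe_finsetSum]
      rfl
    rw [Nm.res_apply, Nm.res_apply, h3] at h1
    exact h1
  · refine ⟨fun i l => b.repr ⟨w i, Submodule.subset_span ⟨i, rfl⟩⟩ (e l), fun i => ?_⟩
    have h1 := b.sum_repr ⟨w i, Submodule.subset_span ⟨i, rfl⟩⟩
    have h2 := congrArg (fun x : Submodule.span k (Set.range w) => (x : V)) h1
    simp only [AddSubmonoidClass.coe_finsetSum] at h2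
    rw [← e.sum_comp] at h2
    exact h2.symm

/-- an orthogonal basis of the span of a tuple -/
private theorem exists_tuple (N : Nm k V) {j : ℕ} {w : Fin j → V} (hw : LinearIndependent k w) :
    ∃ u : Fin j → V, OrthF N u ∧ ∃ A : Matrix (Fin j) (Fin j) k, ∀ i, w i = ∑ l, A i l • u l := by
  obtain ⟨b, hb⟩ := exists_orth (N.res (Submodule.span k (Set.range w)))
  obtain ⟨e, -, h1, A, hA⟩ := exists_mat N b hb hw
  exact ⟨_, h1, A, hA⟩

/-- the same with a given first vector -/
private theorem exists_tuple' (N : Nm k V) {j : ℕ} {w : Fin j → V} (hw : LinearIndependent k w)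
    {v : V} (hv : v ∈ Submodule.span k (Set.range w)) (h0 : v ≠ 0) :
    ∃ u : Fin j → V, OrthF N u ∧ (∀ i : Fin j, i.val = 0 → u i = v) ∧
      ∃ A : Matrix (Fin j) (Fin j) k, ∀ i, w i = ∑ l, A i l • u l := by
  let W := Submodule.span k (Set.range w)
  obtain ⟨b₀, hb₀⟩ := exists_orth (N.res W)
  have hv0 : (⟨v, hv⟩ : W) ≠ 0 := fun h => h0 (congrArg Subtype.val h)
  obtain ⟨l, hl⟩ := exists_norming_of_orth hb₀ hv0
  obtain ⟨b₁, hb₁⟩ := exists_orth ((N.res W).res (LinearMap.ker l))
  obtain ⟨b, hb, h1, -⟩ := exists_cons (fun _ : Unit => N.res W) (fun _ => hl) b₁ (fun _ => hb₁)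
  obtain ⟨e, he, h2, A, hA⟩ := exists_mat N b (hb ()) hw
  refine ⟨_, h2, fun i hi => ?_, A, hA⟩
  rw [h1 (e i) (by rw [he, hi])]

/-- `N^(a+b)(w, w') ≤ N^a(w) N^b(w')`. PROOF: choose (if `w` is linearly independent, otherwise both
sides vanish... the left side is `0`) an orthogonal basis of the span of `w`, write `w` in it
(`vol_matrix`), the same for `w'`; then Hadamard for the orthogonal tuples. -/
theorem Nm.vol_append_le (N : Nm k V) {a b : ℕ} (w : Fin a → V) (w' : Fin b → V) :
    N.vol (Fin.append w w') ≤ N.vol w * N.vol w' := by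
  by_cases h : LinearIndependent k (Fin.append w w')
  · have hw : LinearIndependent k w := by
      have := h.comp (Fin.castAdd b) (Fin.castAdd_injective a b)
      convert this using 1
      funext i
      simp
    have hw' : LinearIndependent k w' := by
      have := h.comp (Fin.natAdd a) (Fin.natAdd_injective b a)
      convert this using 1
      funext i
      simp
    obtain ⟨u, hu, A, hA⟩ := exists_tuple N hw
    obtain ⟨u', hu', D, hD⟩ := exists_tuple N hw'
    have e1 : w = fun i => ∑ l, A i l • u l := funext hA
    have e2 : w' = fun i => ∑ l, D i l • u' l := funext hD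
    have h1 := vol_block N u u' A 0 D
    simp only [Matrix.zero_apply, zero_smul, Finset.sum_const_zero, add_zero] at h1
    rw [← e1, ← e2] at h1
    rw [h1, e1, e2, N.vol_matrix, N.vol_matrix, hu.vol_eq, hu'.vol_eq, mul_mul_mul_comm]
    refine mul_le_mul_of_nonneg_left ?_ (mul_nonneg (norm_nonneg _) (norm_nonneg _))
    refine (N.vol_le _).trans_eq ?_
    rw [Fin.prod_univ_add]
    simp
  · rw [Nm.vol, AlternatingMap.map_linearDependent _ _ h, Nm.zero]
    exact mul_nonneg (Nm.nonneg _ _) (Nm.nonneg _ _)

/-- Functoriality for injective maps: the exterior power of the restriction. PROOF: an orthogonal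
basis of the restriction is an orthogonal tuple; extend it (`OrthF.exists_basis`): its wedge products
are part of an orthogonal basis of `⋀^j V'`. -/
theorem Nm.ext_comap {V' : Type} [AddCommGroup V'] [Module k V'] [FiniteDimensional k V']
    (N : Nm k V') (T : V →ₗ[k] V') (hT : Function.Injective T) (j : ℕ) (x : ⋀[k]^j V) :
    (N.comap T hT).ext j x = N.ext j (exteriorPower.map j T x) := by
  obtain ⟨b, hb⟩ := exists_orth (N.comap T hT)
  have hu : OrthF N (fun i => T (b i)) := by
    refine ⟨fun i h => b.ne_zero i (hT (Eq.trans h (map_zero T).symm)), fun c i => ?_⟩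
    have h1 := hb (∑ l, c l • b l) i
    rw [b.repr_sum_self] at h1
    have h2 : T (∑ l, c l • b l) = ∑ l, c l • T (b l) := by
      rw [map_sum]
      simp only [map_smul]
    rw [← h2]
    exact h1
  obtain ⟨c, hc, hcb⟩ := hu.exists_basis
  have hle : finrank k V ≤ finrank k V' := LinearMap.finrank_le_finrank_of_injective hT
  let f : Fin (finrank k V) ↪o Fin (finrank k V') := Fin.castLEOrderEmb hle
  have hf : ∀ i, T (b i) = c (f i) := fun i => (hcb i (f i) rfl).symm
  have hinj : Function.Injective (exteriorPower.map j T) :=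
    exteriorPower.map_injective_field hT
  have key : (N.comap T hT).ext j = (N.ext j).comap (exteriorPower.map j T) hinj := by
    refine Nm.eq_of_orth (hb.ext j) ?_ fun s => ?_
    · intro y s
      have h1 := hc.ext j (exteriorPower.map j T y)
        (Set.powersetCard.ofFinEmbEquiv ((Set.powersetCard.ofFinEmbEquiv.symm s).trans f))
      rw [coord_map b c T f hf, ← map_basis_ext b c T f hf] at h1
      exact h1
    · have h1 : (N.comap T hT).ext j (b.exteriorPower j s) =
          ∏ i, N (T (b (Set.powersetCard.ofFinEmbEquiv.symm s i))) := by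
        rw [exteriorPower.basis_apply]
        exact (hb.orthF (Set.powersetCard.ofFinEmbEquiv.symm s).injective).vol_eq
      have h2 : (N.ext j).comap (exteriorPower.map j T) hinj (b.exteriorPower j s) =
          ∏ i, N (T (b (Set.powersetCard.ofFinEmbEquiv.symm s i))) := by
        show N.ext j (exteriorPower.map j T (b.exteriorPower j s)) = _
        rw [exteriorPower.basis_apply]
        unfold exteriorPower.ιMulti_family
        rw [exteriorPower.map_apply_ιMulti]
        have h3 : T ∘ (b ∘ (Set.powersetCard.ofFinEmbEquiv.symm s)) =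
            fun i => c (f (Set.powersetCard.ofFinEmbEquiv.symm s i)) := by
          funext i
          exact hf _
        rw [h3]
        refine (hc.orthF (s := fun i => f (Set.powersetCard.ofFinEmbEquiv.symm s i))
          (f.injective.comp (Set.powersetCard.ofFinEmbEquiv.symm s).injective)).vol_eq.trans ?_
        simp only [hf]
      rw [h1, h2]
  rw [key]
  rfl

theorem Nm.ext_act (N : Nm k V) (e : V ≃ₗ[k] V) (j : ℕ) (x : ⋀[k]^j V) :
    (N.act e).ext j x = N.ext j (exteriorPower.map j (e.symm : V →ₗ[k] V) x) :=
  N.ext_comap (e.symm : V →ₗ[k] V) e.symm.injective j x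

theorem Nm.vol_act (N : Nm k V) (e : V ≃ₗ[k] V) {j : ℕ} (w : Fin j → V) :
    (N.act e).vol w = N.vol (fun i => e.symm (w i)) := by
  rw [Nm.vol, Nm.ext_act, exteriorPower.map_apply_ιMulti]
  rfl

/-- `lv` under automorphisms of determinant of norm one. -/
theorem Nm.lv_act (N : Nm k V) (e : V ≃ₗ[k] V) (he : ‖LinearMap.det (e : V →ₗ[k] V)‖ = 1) :
    (N.act e).lv = N.lv := by
  let b := finBasis k V
  let A : Matrix (Fin (finrank k V)) (Fin (finrank k V)) k :=
    (LinearMap.toMatrix b b (e.symm : V →ₗ[k] V)).transpose
  have h1 : (fun i => e.symm (b i)) = fun i => ∑ l, A i l • b l := by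
    funext i
    rw [← b.sum_repr (e.symm (b i))]
    refine Finset.sum_congr rfl fun l _ => ?_
    show _ = LinearMap.toMatrix b b (e.symm : V →ₗ[k] V) l i • b l
    rw [LinearMap.toMatrix_apply]
    rfl
  have h2 : ‖A.det‖ = 1 := by
    have h3 : LinearMap.det (e : V →ₗ[k] V) * LinearMap.det (e.symm : V →ₗ[k] V) = 1 :=
      LinearEquiv.det_mul_det_symm e
    have h4 := congrArg norm h3
    rw [norm_mul, he, one_mul, norm_one] at h4
    rw [Matrix.det_transpose, LinearMap.det_toMatrix]
    exact h4
  have h5 : (N.act e).vol b = N.vol b := by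
    rw [Nm.vol_act, h1, Nm.vol_matrix, h2, one_mul]
  exact congrArg Real.log h5

/-- Orthogonality defect of a direct sum (A3 (4)). `w` and `w'` together a basis. PROOF in the text:
let `N (v₁ + v₂) = e^(-h) N v₁`, `h > 0`, `v₁ ∈ span w`; `N v₁ = N v₂`; take an orthogonal basis
`(v₁, u₂, ..)` of `span w`; up to the determinant `vol (w, w')` is `vol (v₁ + v₂, u₂, .., w')` (adding
`v₂ ∈ span w'` does not change the wedge product with `w'`) `≤ e^(-h) N v₁ ∏ N u_i * vol w'
= e^(-h) vol w * vol w'`. -/
theorem Nm.sum_ge_of_vol (N : Nm k V) {a b : ℕ} (hab : a + b = finrank k V) {w : Fin a → V}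
    {w' : Fin b → V} (hw : LinearIndependent k (Fin.append w w')) {v v' : V}
    (hv : v ∈ Submodule.span k (Set.range w)) (hv' : v' ∈ Submodule.span k (Set.range w')) :
    N.vol (Fin.append w w') * max (N v) (N v') ≤ N.vol w * N.vol w' * N (v + v') := by
  have hle := N.vol_append_le w w'
  rcases lt_trichotomy (N v) (N v') with h | h | h
  · rw [max_eq_right h.le, add_comm v v', N.add_eq h]
    exact mul_le_mul_of_nonneg_right hle (N.nonneg _)
  · by_cases h0 : v = 0
    · have h1 : v' = 0 := N.eq_zero.1 (by rw [← h, h0, N.zero])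
      rw [h0, h1, add_zero, N.zero, max_self, mul_zero, mul_zero]
    · rw [← h, max_self]
      have hwa : LinearIndependent k w := by
        have := hw.comp (Fin.castAdd b) (Fin.castAdd_injective a b)
        convert this using 1
        funext i
        simp
      have hwb : LinearIndependent k w' := by
        have := hw.comp (Fin.natAdd a) (Fin.natAdd_injective b a)
        convert this using 1
        funext i
        simp
      obtain ⟨u, hu, huv, A, hA⟩ := exists_tuple' N hwa hv h0
      obtain ⟨u', hu', D, hD⟩ := exists_tuple N hwb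
      have hv2 : v' ∈ Submodule.span k (Set.range u') := by
        refine Submodule.span_le.2 ?_ hv'
        rintro _ ⟨i, rfl⟩
        rw [hD i]
        exact Submodule.sum_mem _ fun l _ => Submodule.smul_mem _ _ (Submodule.subset_span ⟨l, rfl⟩)
      obtain ⟨c, hc⟩ := (Submodule.mem_span_range_iff_exists_fun k).1 hv2
      have ha : a ≠ 0 := by
        rintro rfl
        have : (Set.range w) = ∅ := Set.range_eq_empty w
        rw [this, Submodule.span_empty, Submodule.mem_bot] at hv
        exact h0 hv
      obtain ⟨a, rfl⟩ := Nat.exists_eq_succ_of_ne_zero ha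
      have e1 : w = fun i => ∑ l, A i l • u l := funext hA
      have e2 : w' = fun i => ∑ l, D i l • u' l := funext hD
      have h1 := vol_block N u u' A 0 D
      simp only [Matrix.zero_apply, zero_smul, Finset.sum_const_zero, add_zero] at h1
      rw [← e1, ← e2] at h1
      let B : Matrix (Fin (a + 1)) (Fin b) k := fun i l => if i = 0 then c l else 0
      have h2 := vol_block N u u' 1 B 1
      rw [Matrix.det_one, Matrix.det_one, norm_one, one_mul, one_mul] at h2
      have h3 : N.vol (Fin.append u u') ≤
          (N (v + v') * ∏ i : Fin a, N (u i.succ)) * ∏ i, N (u' i) := by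
        rw [← h2]
        refine (N.vol_le _).trans_eq ?_
        rw [Fin.prod_univ_add]
        simp only [Fin.append_left, Fin.append_right]
        rw [Fin.prod_univ_succ]
        have h4 : ∀ i : Fin (a + 1), ∑ l, (1 : Matrix (Fin (a + 1)) (Fin (a + 1)) k) i l • u l =
            u i := by
          intro i
          simp [Matrix.one_apply]
        have h5 : ∀ i : Fin b, ∑ l, (1 : Matrix (Fin b) (Fin b) k) i l • u' l = u' i := by
          intro i
          simp [Matrix.one_apply]
        simp only [h4, h5, B, if_true, hc, huv 0 rfl, Fin.succ_ne_zero, if_false, zero_smul,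
          Finset.sum_const_zero, add_zero]
      rw [h1, e1, e2, N.vol_matrix, N.vol_matrix, hu.vol_eq, hu'.vol_eq, Fin.prod_univ_succ,
        huv 0 rfl]
      have h6 := mul_le_mul_of_nonneg_left h3 (mul_nonneg (mul_nonneg (norm_nonneg A.det)
        (norm_nonneg D.det)) (N.nonneg v))
      calc ‖A.det‖ * ‖D.det‖ * N.vol (Fin.append u u') * N v
          = ‖A.det‖ * ‖D.det‖ * N v * N.vol (Fin.append u u') := by ring
        _ ≤ _ := h6
        _ = _ := by ring
  · rw [max_eq_left h.le, N.add_eq h]
    exact mul_le_mul_of_nonneg_right hle (N.nonneg _)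

end Pool.Agent.Lib.MP_5d4057_al.IN
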