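import Pool.Agent.Lib.MP_5d4057_al.IN.NmC2

/-!
# A4: operator norms and positions
-/

set_option linter.unusedSectionVars false

namespace Pool.Agent.Lib.MP_5d4057_al.IN

open Module

variable {k : Type} [NontriviallyNormedField k] [IsUltrametricDist k] [ProperSpace k]
  {V V' V'' : Type} [AddCommGroup V] [Module k V] [FiniteDimensional k V]
  [AddCommGroup V'] [Module k V'] [FiniteDimensional k V']
  [AddCommGroup V''] [Module k V''] [FiniteDimensional k V'']

omit [IsUltrametricDist k] [ProperSpace k] [FiniteDimensional k V] [FiniteDimensional k V'] in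
/-- A bound on an orthogonal basis is a bound. -/
theorem IsOrth.map_le {ι : Type} [Finite ι] {N : Nm k V} {b : Basis ι k V} (h : IsOrth N b)
    (T : V →ₗ[k] V') (N' : Nm k V') {C : ℝ} (hC : 0 ≤ C)
    (hle : ∀ i, N' (T (b i)) ≤ C * N (b i)) (v : V) : N' (T v) ≤ C * N v := by
  have := Fintype.ofFinite ι
  have h1 : T v = ∑ i, b.repr v i • T (b i) := by
    conv_lhs => rw [← b.sum_repr v]
    rw [map_sum]
    exact Finset.sum_congr rfl fun i _ => map_smul T _ _
  rw [h1]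
  refine N'.sum_le Finset.univ _ (mul_nonneg hC (N.nonneg v)) fun i _ => ?_
  rw [N'.smul]
  calc ‖b.repr v i‖ * N' (T (b i)) ≤ ‖b.repr v i‖ * (C * N (b i)) :=
        mul_le_mul_of_nonneg_left (hle i) (norm_nonneg _)
    _ = C * (‖b.repr v i‖ * N (b i)) := by ring
    _ ≤ C * N v := mul_le_mul_of_nonneg_left (h v i) hC

omit [FiniteDimensional k V'] in
theorem exists_bound (T : V →ₗ[k] V') (N : Nm k V) (N' : Nm k V') :
    ∃ C : ℝ, 0 ≤ C ∧ ∀ v, N' (T v) ≤ C * N v := by
  obtain ⟨b, hb⟩ := exists_orth N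
  have hC0 : 0 ≤ ∑ i, N' (T (b i)) / N (b i) :=
    Finset.sum_nonneg fun i _ => div_nonneg (N'.nonneg _) (N.nonneg _)
  refine ⟨∑ i, N' (T (b i)) / N (b i), hC0, hb.map_le T N' hC0 fun i => ?_⟩
  rw [← div_le_iff₀ (N.pos (b.ne_zero i))]
  exact Finset.single_le_sum (f := fun i => N' (T (b i)) / N (b i))
    (fun i _ => div_nonneg (N'.nonneg _) (N.nonneg _)) (Finset.mem_univ i)

omit [FiniteDimensional k V'] in
theorem opn_bdd (T : V →ₗ[k] V') (N : Nm k V) (N' : Nm k V') :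
    BddAbove (Set.range fun v => N' (T v) / N v) := by
  obtain ⟨C, hC0, hC⟩ := exists_bound T N N'
  refine ⟨C, ?_⟩
  rintro _ ⟨v, rfl⟩
  by_cases hv : v = 0
  · subst hv
    simpa using hC0
  · exact (div_le_iff₀ (N.pos hv)).2 (hC v)

omit [IsUltrametricDist k] [ProperSpace k] [FiniteDimensional k V] [FiniteDimensional k V'] in
theorem opn_nonneg (T : V →ₗ[k] V') (N : Nm k V) (N' : Nm k V') : 0 ≤ opn T N N' :=
  Real.iSup_nonneg fun _ => div_nonneg (N'.nonneg _) (N.nonneg _)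

omit [FiniteDimensional k V'] in
theorem le_opn (T : V →ₗ[k] V') (N : Nm k V) (N' : Nm k V') (v : V) :
    N' (T v) ≤ opn T N N' * N v := by
  by_cases hv : v = 0
  · subst hv
    simp
  · rw [← div_le_iff₀ (N.pos hv)]
    exact le_ciSup (opn_bdd T N N') v

omit [ProperSpace k] [FiniteDimensional k V] [FiniteDimensional k V'] in
theorem opn_le {T : V →ₗ[k] V'} {N : Nm k V} {N' : Nm k V'} {r : ℝ} (hr : 0 ≤ r)
    (h : ∀ v, N' (T v) ≤ r * N v) : opn T N N' ≤ r := by
  refine ciSup_le fun v => ?_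
  by_cases hv : v = 0
  · subst hv
    simpa using hr
  · exact (div_le_iff₀ (N.pos hv)).2 (h v)

omit [FiniteDimensional k V'] in
theorem opn_pos {T : V →ₗ[k] V'} (hT : T ≠ 0) (N : Nm k V) (N' : Nm k V') : 0 < opn T N N' := by
  obtain ⟨v, hv⟩ : ∃ v, T v ≠ 0 := by
    by_contra h
    push Not at h
    exact hT (LinearMap.ext h)
  have hv0 : v ≠ 0 := fun h => hv (by rw [h, map_zero])
  exact lt_of_lt_of_le (div_pos (N'.pos hv) (N.pos hv0)) (le_ciSup (opn_bdd T N N') v)

/-- It is enough to test on an orthogonal basis. -/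
theorem opn_le_of_orth {ι : Type} [Finite ι] {T : V →ₗ[k] V'} {N : Nm k V} {N' : Nm k V'}
    {b : Basis ι k V} (hb : IsOrth N b) {r : ℝ} (hr : 0 ≤ r)
    (h : ∀ i, N' (T (b i)) ≤ r * N (b i)) : opn T N N' ≤ r :=
  opn_le hr (hb.map_le T N' hr h)

/-- The operator norm is attained on an orthogonal basis. -/
theorem opn_eq_of_orth {ι : Type} [Finite ι] (T : V →ₗ[k] V') {N : Nm k V} (N' : Nm k V')
    {b : Basis ι k V} (hb : IsOrth N b) : opn T N N' = ⨆ i, N' (T (b i)) / N (b i) := by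
  have hbd : BddAbove (Set.range fun i => N' (T (b i)) / N (b i)) := (Set.finite_range _).bddAbove
  have h0 : 0 ≤ ⨆ i, N' (T (b i)) / N (b i) :=
    Real.iSup_nonneg fun i => div_nonneg (N'.nonneg _) (N.nonneg _)
  refine le_antisymm (opn_le_of_orth hb h0 fun i => ?_) ?_
  · rw [← div_le_iff₀ (N.pos (b.ne_zero i))]
    exact le_ciSup hbd i
  · rcases isEmpty_or_nonempty ι with hι | hι
    · rw [Real.iSup_of_isEmpty]
      exact opn_nonneg _ _ _
    · refine ciSup_le fun i => ?_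
      exact le_ciSup (opn_bdd T N N') (b i)

theorem exists_opn_eq {ι : Type} [Finite ι] {T : V →ₗ[k] V'} (hT : T ≠ 0) {N : Nm k V}
    (N' : Nm k V') {b : Basis ι k V} (hb : IsOrth N b) :
    ∃ i, N' (T (b i)) = opn T N N' * N (b i) := by
  rcases isEmpty_or_nonempty ι with hι | hι
  · have h1 := opn_pos hT N N'
    rw [opn_eq_of_orth T N' hb, Real.iSup_of_isEmpty] at h1
    exact absurd h1 (lt_irrefl _)
  · obtain ⟨i, hi⟩ := exists_eq_ciSup_of_finite (f := fun i => N' (T (b i)) / N (b i))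
    refine ⟨i, ?_⟩
    rw [opn_eq_of_orth T N' hb, ← hi, div_mul_cancel₀]
    exact (N.pos (b.ne_zero i)).ne'

theorem opn_comp_le (S : V' →ₗ[k] V'') (T : V →ₗ[k] V') (N : Nm k V) (N' : Nm k V')
    (N'' : Nm k V'') : opn (S ∘ₗ T) N N'' ≤ opn S N' N'' * opn T N N' := by
  refine opn_le (mul_nonneg (opn_nonneg _ _ _) (opn_nonneg _ _ _)) fun v => ?_
  calc N'' (S (T v)) ≤ opn S N' N'' * N' (T v) := le_opn S N' N'' (T v)
    _ ≤ opn S N' N'' * (opn T N N' * N v) :=
        mul_le_mul_of_nonneg_left (le_opn T N N' v) (opn_nonneg _ _ _)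
    _ = _ := by ring

theorem lop_comp_le {S : V' →ₗ[k] V''} {T : V →ₗ[k] V'} (h : S ∘ₗ T ≠ 0) (N : Nm k V)
    (N' : Nm k V') (N'' : Nm k V'') : lop (S ∘ₗ T) N N'' ≤ lop S N' N'' + lop T N N' := by
  have hS : S ≠ 0 := fun h0 => h (by rw [h0, LinearMap.zero_comp])
  have hT : T ≠ 0 := fun h0 => h (by rw [h0, LinearMap.comp_zero])
  unfold lop
  rw [← Real.log_mul (opn_pos hS _ _).ne' (opn_pos hT _ _).ne']
  exact Real.log_le_log (opn_pos h _ _) (opn_comp_le S T N N' N'')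

/-- `log N' (T v) ≤ lop T N N' + log N v`. -/
theorem log_le_lop {T : V →ₗ[k] V'} {v : V} (hv : T v ≠ 0) (N : Nm k V) (N' : Nm k V') :
    Real.log (N' (T v)) ≤ lop T N N' + Real.log (N v) := by
  have hT : T ≠ 0 := fun h0 => hv (by rw [h0, LinearMap.zero_apply])
  have hv0 : v ≠ 0 := fun h => hv (by rw [h, map_zero])
  unfold lop
  rw [← Real.log_mul (opn_pos hT _ _).ne' (N.pos hv0).ne']
  exact Real.log_le_log (N'.pos hv) (le_opn T N N' v)

theorem lop_le {T : V →ₗ[k] V'} (hT : T ≠ 0) {N : Nm k V} {N' : Nm k V'} {r : ℝ}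
    (h : ∀ v, T v ≠ 0 → Real.log (N' (T v)) ≤ r + Real.log (N v)) : lop T N N' ≤ r := by
  unfold lop
  rw [Real.log_le_iff_le_exp (opn_pos hT _ _)]
  refine opn_le (Real.exp_pos r).le fun v => ?_
  by_cases hv : T v = 0
  · rw [hv, N'.zero]
    exact mul_nonneg (Real.exp_pos r).le (N.nonneg v)
  · have hv0 : v ≠ 0 := fun h => hv (by rw [h, map_zero])
    have h1 := h v hv
    rw [Real.log_le_iff_le_exp (N'.pos hv), Real.exp_add, Real.exp_log (N.pos hv0)] at h1
    exact h1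

omit [ProperSpace k] [FiniteDimensional k V] in
theorem lop_id_self (N : Nm k V) : lop LinearMap.id N N = 0 := by
  unfold lop
  rcases subsingleton_or_nontrivial V with hV | hV
  · have h1 : opn LinearMap.id N N = 0 := by
      unfold opn
      rw [← Real.iSup_const_zero (ι := V)]
      congr 1
      funext v
      rw [Subsingleton.elim v 0, N.zero, div_zero]
    rw [h1, Real.log_zero]
  · obtain ⟨v, hv⟩ := exists_ne (0 : V)
    have hle : ∀ v : V, N ((LinearMap.id : V →ₗ[k] V) v) / N v ≤ 1 := fun v => div_self_le_one _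
    have h1 : opn LinearMap.id N N = 1 := by
      refine le_antisymm (ciSup_le hle) ?_
      have h2 : BddAbove (Set.range fun v : V => N ((LinearMap.id : V →ₗ[k] V) v) / N v) :=
        ⟨1, by rintro _ ⟨v, rfl⟩; exact hle v⟩
      have h3 := le_ciSup h2 v
      rw [LinearMap.id_apply, div_self (N.pos hv).ne'] at h3
      exact h3
    rw [h1, Real.log_one]

/-- Automorphisms. -/
theorem opn_act (T : V →ₗ[k] V') (N : Nm k V) (N' : Nm k V') (a : V ≃ₗ[k] V) (b : V' ≃ₗ[k] V') :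
    opn T (N.act a) (N'.act b) = opn ((b.symm : V' →ₗ[k] V') ∘ₗ T ∘ₗ (a : V →ₗ[k] V)) N N' := by
  unfold opn
  refine (Equiv.iSup_congr a.toEquiv fun v => ?_).symm
  simp

end Pool.Agent.Lib.MP_5d4057_al.IN
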