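import Pool.Agent.Lib.MP_5d4057_al.IN.NmD
import Pool.Agent.Lib.MP_5d4057_al.IN.CnA

/-!
# A4, second part: positions
-/

set_option linter.unusedSectionVars false

namespace Pool.Agent.Lib.MP_5d4057_al.IN

open Module Set.powersetCard

/-! ### Combinatorics of the largest products -/

theorem prod_ofFin {I : Type} [LinearOrder I] {j : ℕ} (s : Set.powersetCard I j) (f : I → ℝ) :
    ∏ l, f (ofFinEmbEquiv.symm s l) = ∏ i ∈ s.1, f i := by
  conv_rhs => rw [← Finset.map_orderEmbOfFin_univ s.1 s.2]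
  rw [Finset.prod_map]
  rfl

theorem le_strictMono {j m : ℕ} {f : Fin j → Fin m} (hf : StrictMono f) :
    ∀ (a : ℕ) (ha : a < j), a ≤ (f ⟨a, ha⟩).val := by
  intro a
  induction a with
  | zero => intro _; exact Nat.zero_le _
  | succ a ih =>
    intro ha
    have h1 := ih (by omega)
    have h2 : f ⟨a, by omega⟩ < f ⟨a + 1, ha⟩ := hf (Fin.mk_lt_mk.2 (by omega))
    have h3 := Fin.lt_def.1 h2
    omega

theorem prod_ini {m j : ℕ} (hj : j ≤ m) (r : Fin m → ℝ) :
    ∏ i ∈ ini m j, r i = ∏ l : Fin j, r (Fin.castLE hj l) := by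
  have h1 : ini m j = Finset.univ.map ⟨Fin.castLE hj, Fin.castLE_injective hj⟩ := by
    ext i
    rw [mem_ini, Finset.mem_map]
    constructor
    · intro h
      exact ⟨⟨i.val, h⟩, Finset.mem_univ _, Fin.ext rfl⟩
    · rintro ⟨l, -, rfl⟩
      exact l.2
  rw [h1, Finset.prod_map]
  rfl

theorem prod_le_ini {m j : ℕ} (hj : j ≤ m) {r : Fin m → ℝ} (hr : Antitone r) (h0 : ∀ i, 0 < r i)
    (s : Set.powersetCard (Fin m) j) : ∏ i ∈ s.1, r i ≤ ∏ i ∈ ini m j, r i := by
  rw [← prod_ofFin, prod_ini hj]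
  refine Finset.prod_le_prod (fun l _ => (h0 _).le) fun l _ => hr ?_
  rw [Fin.le_def]
  exact le_strictMono (ofFinEmbEquiv.symm s).strictMono l.val l.2

theorem ini_succ {m j : ℕ} (hj : j < m) : ini m (j + 1) = insert ⟨j, hj⟩ (ini m j) := by
  ext i
  rw [Finset.mem_insert, mem_ini, mem_ini, Fin.ext_iff]
  show i.val < j + 1 ↔ i.val = j ∨ i.val < j
  omega

theorem sum_ini_succ {m j : ℕ} (hj : j < m) (f : Fin m → ℝ) :
    ∑ i ∈ ini m (j + 1), f i = f ⟨j, hj⟩ + ∑ i ∈ ini m j, f i := by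
  rw [ini_succ hj, Finset.sum_insert]
  rw [mem_ini]
  exact lt_irrefl _

variable {k : Type} [NontriviallyNormedField k] [IsUltrametricDist k] [ProperSpace k]
  {V : Type} [AddCommGroup V] [Module k V] [FiniteDimensional k V]

/-- the operator norm of the identity on the exterior power, for a common orthogonal basis -/
theorem opn_map_id {m : ℕ} {N N' : Nm k V} {b : Basis (Fin m) k V}
    (h : IsOrth N b) (h' : IsOrth N' b) (j : ℕ) :
    opn (exteriorPower.map j LinearMap.id) (N.ext j) (N'.ext j) =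
      ⨆ s : Set.powersetCard (Fin m) j, ∏ i ∈ s.1, N' (b i) / N (b i) := by
  rw [opn_eq_of_orth _ _ (h.ext j)]
  congr 1
  funext s
  rw [exteriorPower.map_id, LinearMap.id_apply, h.ext_apply, h'.ext_apply,
    Finset.prod_div_distrib]

theorem opn_map_id_sorted {N N' : Nm k V} {m : ℕ} {b : Basis (Fin m) k V} (h : IsOrth N b)
    (h' : IsOrth N' b) (hanti : Antitone fun i => N' (b i) / N (b i)) {j : ℕ} (hj : j ≤ m) :
    opn (exteriorPower.map j LinearMap.id) (N.ext j) (N'.ext j) =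
      ∏ i ∈ ini m j, N' (b i) / N (b i) := by
  rw [opn_map_id h h']
  have h0 : ∀ i, 0 < N' (b i) / N (b i) := fun i =>
    div_pos (N'.pos (b.ne_zero i)) (N.pos (b.ne_zero i))
  have hne : Nonempty (Set.powersetCard (Fin m) j) := ⟨⟨ini m j, card_ini hj⟩⟩
  refine le_antisymm (ciSup_le fun s => prod_le_ini hj hanti h0 s) ?_
  exact le_ciSup (f := fun s : Set.powersetCard (Fin m) j => ∏ i ∈ s.1, N' (b i) / N (b i))
    (Set.finite_range _).bddAbove ⟨ini m j, card_ini hj⟩

theorem DD_sorted {N N' : Nm k V} {m : ℕ} {b : Basis (Fin m) k V} (h : IsOrth N b)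
    (h' : IsOrth N' b) (hanti : Antitone fun i => N' (b i) / N (b i)) {j : ℕ} (hj : j ≤ m) :
    DD j N N' = ∑ i ∈ ini m j, Real.log (N' (b i) / N (b i)) := by
  unfold DD Dj lop
  rw [opn_map_id_sorted h h' hanti hj, Real.log_prod]
  exact fun i _ => (div_pos (N'.pos (b.ne_zero i)) (N.pos (b.ne_zero i))).ne'

/-- `D_j` in a common orthogonal basis, sorted by decreasing ratio.
PROOF: `N.ext j`, `N'.ext j` have the common orthogonal basis `b.exteriorPower j`, the ratios are
`∏ i ∈ s, N' (b i) / N (b i)`, the largest is for `s = {0, .., j - 1}`. -/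
theorem DD_eq {N N' : Nm k V} {b : Basis (Fin (finrank k V)) k V} (hb : IsOrth N b)
    (hb' : IsOrth N' b) (hs : Antitone fun i => N' (b i) / N (b i)) {j : ℕ}
    (hj : j ≤ finrank k V) :
    DD j N N' = ∑ i : Fin (finrank k V), if i.val < j then Real.log (N' (b i) / N (b i)) else 0 := by
  rw [DD_sorted hb hb' hs hj]
  unfold ini
  rw [Finset.sum_filter]

/-- Lower bound by any subset of any common orthogonal basis (not sorted). -/
theorem le_DD {N N' : Nm k V} {b : Basis (Fin (finrank k V)) k V} (hb : IsOrth N b) {j : ℕ}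
    (s : Set.powersetCard (Fin (finrank k V)) j) :
    Real.log (N'.ext j (b.exteriorPower j s)) - ∑ i ∈ s.1, Real.log (N (b i)) ≤ DD j N N' := by
  have h0 : exteriorPower.map j (LinearMap.id : V →ₗ[k] V) (b.exteriorPower j s) ≠ 0 := by
    rw [exteriorPower.map_id]
    exact (b.exteriorPower j).ne_zero s
  have h1 := log_le_lop h0 (N.ext j) (N'.ext j)
  rw [exteriorPower.map_id, LinearMap.id_apply, hb.ext_apply, Real.log_prod
    fun i _ => (N.pos (b.ne_zero i)).ne'] at h1
  unfold DD Dj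
  rw [exteriorPower.map_id]
  linarith

theorem DD_zero (N N' : Nm k V) : DD 0 N N' = 0 := by
  obtain ⟨b, h, h', hs⟩ := exists_orth2 N N'
  rw [DD_sorted h h' hs (Nat.zero_le _)]
  refine Finset.sum_eq_zero fun i hi => ?_
  exact absurd (mem_ini.1 hi) (Nat.not_lt_zero _)

theorem DD_self (j : ℕ) (N : Nm k V) : DD j N N = 0 := by
  unfold DD Dj
  rw [exteriorPower.map_id]
  exact lop_id_self _

theorem lop_of_subsingleton {W W' : Type} [AddCommGroup W] [Module k W] [AddCommGroup W']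
    [Module k W'] [Subsingleton W] (T : W →ₗ[k] W') (N : Nm k W) (N' : Nm k W') :
    lop T N N' = 0 := by
  unfold lop opn
  have h1 : (⨆ v, N' (T v) / N v) = 0 := by
    rw [← Real.iSup_const_zero (ι := W)]
    congr 1
    funext v
    rw [Subsingleton.elim v 0, N.zero, div_zero]
  rw [h1, Real.log_zero]

theorem DD_triangle (j : ℕ) (N N' N'' : Nm k V) : DD j N N'' ≤ DD j N N' + DD j N' N'' := by
  unfold DD Dj
  rw [exteriorPower.map_id]
  rcases subsingleton_or_nontrivial (⋀[k]^j V) with hs | hs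
  · rw [lop_of_subsingleton, lop_of_subsingleton, lop_of_subsingleton, add_zero]
  · have hid : (LinearMap.id : ⋀[k]^j V →ₗ[k] ⋀[k]^j V) ∘ₗ LinearMap.id ≠ 0 := by
      rw [LinearMap.id_comp]
      intro h0
      obtain ⟨x, hx⟩ := exists_ne (0 : ⋀[k]^j V)
      exact hx (LinearMap.congr_fun h0 x)
    have h1 := lop_comp_le hid (N.ext j) (N'.ext j) (N''.ext j)
    rw [LinearMap.id_comp] at h1
    linarith

theorem DD_top (N N' : Nm k V) : DD (finrank k V) N N' = N'.lv - N.lv := by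
  obtain ⟨b, h, h', hs⟩ := exists_orth2 N N'
  obtain ⟨A, hA⟩ : ∃ A : Matrix (Fin (finrank k V)) (Fin (finrank k V)) k,
    A = fun i l => b.repr (finBasis k V i) l := ⟨_, rfl⟩
  have e1 : (finBasis k V : Fin (finrank k V) → V) = fun i => ∑ l, A i l • b l := by
    funext i
    rw [hA]
    exact (b.sum_repr _).symm
  have key : ∀ {M : Nm k V}, IsOrth M b → M.vol (finBasis k V) = ‖A.det‖ * ∏ i, M (b i) := by
    intro M hM
    rw [e1, Nm.vol_matrix]
    have h1 := (hM.orthF (s := id) Function.injective_id).vol_eq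
    simp only [id_eq] at h1
    rw [h1]
  have hpos : 0 < ‖A.det‖ := by
    have h1 := N.vol_pos (finBasis k V).linearIndependent
    rw [key h] at h1
    exact (pos_iff_pos_of_mul_pos h1).2 (Finset.prod_pos fun i _ => N.pos (b.ne_zero i))
  rw [DD_sorted h h' hs le_rfl, ini_self]
  unfold Nm.lv
  rw [key h, key h', Real.log_mul hpos.ne' (Finset.prod_pos fun i _ => N'.pos (b.ne_zero i)).ne',
    Real.log_mul hpos.ne' (Finset.prod_pos fun i _ => N.pos (b.ne_zero i)).ne',
    Real.log_prod fun i _ => (N.pos (b.ne_zero i)).ne',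
    Real.log_prod fun i _ => (N'.pos (b.ne_zero i)).ne', add_sub_add_left_eq_sub,
    ← Finset.sum_sub_distrib]
  exact Finset.sum_congr rfl fun i _ =>
    Real.log_div (N'.pos (b.ne_zero i)).ne' (N.pos (b.ne_zero i)).ne'

theorem DD_one_eq (N N' : Nm k V) : DD 1 N N' = lop LinearMap.id N N' := by
  rcases Nat.eq_zero_or_pos (finrank k V) with hm | hm
  · have hV : Subsingleton V := finrank_zero_iff.1 hm
    have hE : Subsingleton (⋀[k]^1 V) := by
      refine (finrank_zero_iff (R := k)).1 ?_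
      rw [exteriorPower.finrank_eq, hm]
      rfl
    unfold DD Dj
    rw [lop_of_subsingleton, lop_of_subsingleton]
  · obtain ⟨b, h, h', hs⟩ := exists_orth2 N N'
    have e1 := opn_map_id_sorted h h' hs (j := 1) hm
    rw [ini_succ (j := 0) hm, Finset.prod_insert (by rw [mem_ini]; exact lt_irrefl _)] at e1
    have e2 : ∏ i ∈ ini (finrank k V) 0, N' (b i) / N (b i) = 1 :=
      Finset.prod_eq_one fun i hi => absurd (mem_ini.1 hi) (Nat.not_lt_zero _)
    rw [e2, mul_one] at e1
    have hne : Nonempty (Fin (finrank k V)) := ⟨⟨0, hm⟩⟩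
    have e3 : opn LinearMap.id N N' = N' (b ⟨0, hm⟩) / N (b ⟨0, hm⟩) := by
      rw [opn_eq_of_orth _ _ h]
      refine le_antisymm (ciSup_le fun i => hs (Fin.mk_le_of_le_val (Nat.zero_le _))) ?_
      exact le_ciSup (f := fun i => N' (b i) / N (b i)) (Set.finite_range _).bddAbove ⟨0, hm⟩
    unfold DD Dj lop
    rw [e1, e3]

/-- The positions are decreasing. -/
theorem DD_concave (N N' : Nm k V) {j : ℕ} (hj : j + 2 ≤ finrank k V) :
    DD j N N' + DD (j + 2) N N' ≤ 2 * DD (j + 1) N N' := by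
  obtain ⟨b, h, h', hs⟩ := exists_orth2 N N'
  rw [DD_sorted h h' hs (by omega : j ≤ finrank k V),
    DD_sorted h h' hs (by omega : j + 1 ≤ finrank k V), DD_sorted h h' hs hj,
    sum_ini_succ (by omega : j + 1 < finrank k V), sum_ini_succ (by omega : j < finrank k V)]
  have h1 : Real.log (N' (b ⟨j + 1, by omega⟩) / N (b ⟨j + 1, by omega⟩)) ≤
      Real.log (N' (b ⟨j, by omega⟩) / N (b ⟨j, by omega⟩)) :=
    Real.log_le_log (div_pos (N'.pos (b.ne_zero _)) (N.pos (b.ne_zero _)))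
      (hs (Fin.mk_le_mk.2 (by omega)))
  linarith

theorem DD_swap (N N' : Nm k V) {j : ℕ} (hj : j ≤ finrank k V) :
    DD (finrank k V - j) N' N = DD j N N' - DD (finrank k V) N N' := by
  obtain ⟨b, h, h', hs⟩ := exists_orth2 N N'
  have hr := h.reindex Fin.revPerm
  have hr' := h'.reindex Fin.revPerm
  have hanti : Antitone fun i => N (b.reindex Fin.revPerm i) / N' (b.reindex Fin.revPerm i) := by
    intro i i' hii
    simp only [Basis.reindex_apply, Fin.revPerm_symm, Fin.revPerm_apply]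
    have h1 := hs (Fin.rev_le_rev.2 hii)
    beta_reduce at h1
    rw [← inv_div, ← inv_div (N' (b i.rev))]
    exact inv_anti₀ (div_pos (N'.pos (b.ne_zero _)) (N.pos (b.ne_zero _))) h1
  rw [DD_eq hr' hr hanti (Nat.sub_le _ _), DD_eq h h' hs hj, DD_eq h h' hs le_rfl,
    ← Finset.sum_sub_distrib, ← Equiv.sum_comp Fin.revPerm]
  refine Finset.sum_congr rfl fun i _ => ?_
  simp only [Basis.reindex_apply, Fin.revPerm_symm, Fin.revPerm_apply, Fin.rev_rev, Fin.val_rev,
    i.2, if_true]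
  by_cases hij : i.val < j
  · rw [if_neg (by omega), if_pos hij, sub_self]
  · rw [if_pos (by omega), if_neg hij, zero_sub, ← Real.log_inv, inv_div]

/-- `Phi` in any common orthogonal basis. PROOF: sort the basis by a permutation (`Tuple.sort`),
`DD_eq`, telescope. -/
theorem Phi_eq {N N' : Nm k V} {b : Basis (Fin (finrank k V)) k V} (hb : IsOrth N b)
    (hb' : IsOrth N' b) : Phi N N' = ∑ i, Real.log (N' (b i) / N (b i)) ^ 2 := by
  obtain ⟨r, hr⟩ : ∃ r : Fin (finrank k V) → ℝ, r = fun i => N' (b i) / N (b i) := ⟨_, rfl⟩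
  obtain ⟨σ, hσ⟩ : ∃ σ : Equiv.Perm (Fin (finrank k V)), σ = Tuple.sort fun i => - r i := ⟨_, rfl⟩
  have h1 := hb.reindex σ.symm
  have h2 := hb'.reindex σ.symm
  have h3 : Antitone fun i => N' (b.reindex σ.symm i) / N (b.reindex σ.symm i) := by
    intro i j hij
    have h4 := Tuple.monotone_sort (fun i => - r i) hij
    rw [← hσ] at h4
    simp only [Function.comp_apply] at h4
    have h5 : r (σ j) ≤ r (σ i) := by linarith
    rw [hr] at h5
    simp only [Basis.reindex_apply, Equiv.symm_symm]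
    exact h5
  have h4 : Phi N N' = ∑ i, Real.log (N' (b.reindex σ.symm i) / N (b.reindex σ.symm i)) ^ 2 := by
    unfold Phi
    rw [← Fin.sum_univ_eq_sum_range (fun j => (DD (j + 1) N N' - DD j N N') ^ 2)]
    refine Finset.sum_congr rfl fun i _ => ?_
    rw [DD_sorted h1 h2 h3 i.2, DD_sorted h1 h2 h3 i.2.le, sum_ini_succ i.2,
      add_sub_cancel_right]
  rw [h4]
  simp only [Basis.reindex_apply, Equiv.symm_symm]
  exact Equiv.sum_comp σ fun i => Real.log (N' (b i) / N (b i)) ^ 2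

theorem Phi_symm (N N' : Nm k V) : Phi N N' = Phi N' N := by
  obtain ⟨b, h, h', -⟩ := exists_orth2 N N'
  rw [Phi_eq h h', Phi_eq h' h]
  refine Finset.sum_congr rfl fun i _ => ?_
  rw [← inv_div, Real.log_inv, neg_sq]

omit [ProperSpace k] in
theorem Phi_nonneg (N N' : Nm k V) : 0 ≤ Phi N N' :=
  Finset.sum_nonneg fun _ _ => sq_nonneg _

/-- Schur for squares: if the partial sums of the decreasing sequence `x` are at most those of the
decreasing sequence `y`, with equality for the total sum, then `∑ x² ≤ ∑ y²`. PROOF: Abel summation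
`∑ x_i (y_i - x_i) = ∑_j (x_j - x_(j+1)) (Y_j - X_j) ≥ 0`, so `∑ x² ≤ ∑ x y ≤ (∑ x² + ∑ y²) / 2`. -/
theorem schur_sq {m : ℕ} (x y : ℕ → ℝ) (hx : ∀ i, i + 1 < m → x (i + 1) ≤ x i)
    (h : ∀ j ≤ m, ∑ i ∈ Finset.range j, x i ≤ ∑ i ∈ Finset.range j, y i)
    (he : ∑ i ∈ Finset.range m, x i = ∑ i ∈ Finset.range m, y i) :
    ∑ i ∈ Finset.range m, x i ^ 2 ≤ ∑ i ∈ Finset.range m, y i ^ 2 := by
  rcases Nat.eq_zero_or_pos m with hm | hm
  · subst hm
    simp
  obtain ⟨M, rfl⟩ : ∃ M, m = M + 1 := ⟨m - 1, by omega⟩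
  have h1 := abel_nat x (fun i => y i - x i) M (fun i hi => hx i (by omega)) (fun j hj => by
    rw [Finset.sum_sub_distrib, sub_nonneg]
    exact h j (by omega))
  rw [Finset.sum_sub_distrib, he, sub_self, mul_zero] at h1
  have h2 : 0 ≤ ∑ i ∈ Finset.range (M + 1), (y i - x i) ^ 2 :=
    Finset.sum_nonneg fun i _ => sq_nonneg _
  have h3 : ∑ i ∈ Finset.range (M + 1), y i ^ 2 = ∑ i ∈ Finset.range (M + 1), x i ^ 2 +
      2 * ∑ i ∈ Finset.range (M + 1), x i * (y i - x i) +
      ∑ i ∈ Finset.range (M + 1), (y i - x i) ^ 2 := by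
    rw [Finset.mul_sum, ← Finset.sum_add_distrib, ← Finset.sum_add_distrib]
    exact Finset.sum_congr rfl fun i _ => by ring
  linarith

end Pool.Agent.Lib.MP_5d4057_al.IN
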