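import Pool.Agent.Lib.MP_5d4057_al.IN.NmD2

/-!
# A5: midpoints, interpolation
-/

namespace Pool.Agent.Lib.MP_5d4057_al.IN

open Module

variable {k : Type} [NontriviallyNormedField k] [IsUltrametricDist k] [ProperSpace k]
  {V V' : Type} [AddCommGroup V] [Module k V] [FiniteDimensional k V]
  [AddCommGroup V'] [Module k V'] [FiniteDimensional k V']

theorem exists_isMid (N₀ N₁ : Nm k V) : ∃ N, IsMid N₀ N₁ N := by
  obtain ⟨b, h0, h1, -⟩ := exists_orth2 N₀ N₁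
  have hp : ∀ i, 0 < N₀ (b i) * N₁ (b i) := fun i =>
    mul_pos (N₀.pos (b.ne_zero i)) (N₁.pos (b.ne_zero i))
  refine ⟨Nm.ofBasis b (fun i => √(N₀ (b i) * N₁ (b i))) fun i => Real.sqrt_pos.2 (hp i), b, h0, h1,
    isOrth_ofBasis _ _ _, fun i => ?_⟩
  rw [Nm.ofBasis_self, Real.sq_sqrt (hp i).le]

theorem IsMid.symm {N₀ N₁ N : Nm k V} (h : IsMid N₀ N₁ N) : IsMid N₁ N₀ N := by
  obtain ⟨b, h0, h1, h2, h3⟩ := h
  exact ⟨b, h1, h0, h2, fun i => by rw [h3, mul_comm]⟩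

/-- `N v² ≤ N₀ v * N₁ v`. -/
theorem IsMid.le {N₀ N₁ N : Nm k V} (h : IsMid N₀ N₁ N) (v : V) : N v ^ 2 ≤ N₀ v * N₁ v := by
  obtain ⟨b, h0, h1, h2, h3⟩ := h
  by_cases hv : v = 0
  · subst hv
    simp
  · obtain ⟨i, hi, -⟩ := h2.exists_eq hv
    rw [← hi]
    calc (‖b.repr v i‖ * N (b i)) ^ 2 =
        (‖b.repr v i‖ * N₀ (b i)) * (‖b.repr v i‖ * N₁ (b i)) := by
          rw [mul_pow, h3]
          ring
      _ ≤ N₀ v * N₁ v := mul_le_mul (h0 v i) (h1 v i)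
          (mul_nonneg (norm_nonneg _) (N₁.nonneg _)) (N₀.nonneg _)

theorem IsMid.log_le {N₀ N₁ N : Nm k V} (h : IsMid N₀ N₁ N) {v : V} (hv : v ≠ 0) :
    Real.log (N v) ≤ (Real.log (N₀ v) + Real.log (N₁ v)) / 2 := by
  have h1 := Real.log_le_log (pow_pos (N.pos hv) 2) (h.le v)
  rw [Real.log_pow, Real.log_mul (N₀.pos hv).ne' (N₁.pos hv).ne'] at h1
  push_cast at h1
  linarith

theorem IsMid.ext {N₀ N₁ N : Nm k V} (h : IsMid N₀ N₁ N) (j : ℕ) :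
    IsMid (N₀.ext j) (N₁.ext j) (N.ext j) := by
  classical
  obtain ⟨b, h0, h1, h2, h3⟩ := h
  have hc : Nat.card (Set.powersetCard (Fin (finrank k V)) j) = finrank k (⋀[k]^j V) :=
    (Module.finrank_eq_nat_card_basis (b.exteriorPower j)).symm
  obtain ⟨e⟩ : Nonempty (Set.powersetCard (Fin (finrank k V)) j ≃ Fin (finrank k (⋀[k]^j V))) :=
    ⟨(Finite.equivFin _).trans (finCongr hc)⟩
  refine ⟨(b.exteriorPower j).reindex e, (h0.ext j).reindex e, (h1.ext j).reindex e,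
    (h2.ext j).reindex e, fun i => ?_⟩
  rw [Basis.reindex_apply, h0.ext_apply, h1.ext_apply, h2.ext_apply, ← Finset.prod_pow,
    ← Finset.prod_mul_distrib]
  exact Finset.prod_congr rfl fun i _ => h3 i

/-- INTERPOLATION. PROOF: `b` the basis of `h`: `N' (T v) ≤ max ‖x_i‖ N' (T b_i)
≤ max ‖x_i‖ √(N₀' (T b_i) N₁' (T b_i)) ≤ √(opn opn) max ‖x_i‖ N (b_i)`. -/
theorem IsMid.lop_le {N₀ N₁ N : Nm k V} {N₀' N₁' N' : Nm k V'} (h : IsMid N₀ N₁ N)
    (h' : IsMid N₀' N₁' N') {T : V →ₗ[k] V'} (hT : T ≠ 0) :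
    lop T N N' ≤ (lop T N₀ N₀' + lop T N₁ N₁') / 2 := by
  obtain ⟨b, h0, h1, h2, h3⟩ := h
  have p0 := opn_pos hT N₀ N₀'
  have p1 := opn_pos hT N₁ N₁'
  have key : opn T N N' ≤ √(opn T N₀ N₀' * opn T N₁ N₁') := by
    refine opn_le_of_orth h2 (Real.sqrt_nonneg _) fun i => ?_
    have e1 := h'.le (T (b i))
    have e2 : N₀' (T (b i)) * N₁' (T (b i)) ≤
        (opn T N₀ N₀' * N₀ (b i)) * (opn T N₁ N₁' * N₁ (b i)) :=
      mul_le_mul (le_opn T N₀ N₀' (b i)) (le_opn T N₁ N₁' (b i)) (N₁'.nonneg _)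
        (mul_nonneg p0.le (N₀.nonneg _))
    refine le_of_sq_le_sq ?_ (mul_nonneg (Real.sqrt_nonneg _) (N.nonneg _))
    rw [mul_pow, Real.sq_sqrt (mul_pos p0 p1).le, h3]
    refine e1.trans (e2.trans (le_of_eq ?_))
    ring
  have h4 := Real.log_le_log (opn_pos hT N N') key
  rw [Real.log_sqrt (mul_pos p0 p1).le, Real.log_mul p0.ne' p1.ne'] at h4
  exact h4

/-- The functions `Dj p j` are jointly midpoint convex. -/
theorem IsMid.Dj_le {N₀ N₁ N N₀' N₁' N' : Nm k V} (h : IsMid N₀ N₁ N) (h' : IsMid N₀' N₁' N')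
    {p : V →ₗ[k] V} {j : ℕ} (hp : exteriorPower.map j p ≠ 0) :
    Dj p j N N' ≤ (Dj p j N₀ N₀' + Dj p j N₁ N₁') / 2 :=
  (h.ext j).lop_le (h'.ext j) hp

theorem IsMid.lv {N₀ N₁ N : Nm k V} (h : IsMid N₀ N₁ N) : N.lv = (N₀.lv + N₁.lv) / 2 := by
  obtain ⟨b, h0, h1, h2, h3⟩ := h
  obtain ⟨A, hA⟩ : ∃ A : Matrix (Fin (finrank k V)) (Fin (finrank k V)) k,
      ∀ i, finBasis k V i = ∑ l, A i l • b l :=
    ⟨fun i l => b.repr (finBasis k V i) l, fun i => (b.sum_repr _).symm⟩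
  have hfun : (fun i => finBasis k V i) = fun i => ∑ l, A i l • b l := funext hA
  have hvol : ∀ M : Nm k V, IsOrth M b →
      M.vol (finBasis k V) = ‖A.det‖ * ∏ i, M (b i) := by
    intro M hM
    have e1 : M.vol (finBasis k V) = M.vol (fun i => ∑ l, A i l • b l) := by
      rw [← hfun]
    rw [e1, Nm.vol_matrix]
    congr 1
    exact (hM.orthF Function.injective_id).vol_eq
  have hp : ∀ M : Nm k V, 0 < M.vol (finBasis k V) := fun M =>
    M.vol_pos (finBasis k V).linearIndependent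
  have e2 : N.vol (finBasis k V) ^ 2 = N₀.vol (finBasis k V) * N₁.vol (finBasis k V) := by
    rw [hvol N h2, hvol N₀ h0, hvol N₁ h1, mul_pow, ← Finset.prod_pow,
      Finset.prod_congr rfl fun i _ => h3 i, Finset.prod_mul_distrib]
    ring
  have e3 := congrArg Real.log e2
  rw [Real.log_pow, Real.log_mul (hp N₀).ne' (hp N₁).ne'] at e3
  push_cast at e3
  unfold Nm.lv
  linarith

theorem IsMid.Phi {N₀ N₁ N : Nm k V} (h : IsMid N₀ N₁ N) : Phi N₀ N = Phi N₀ N₁ / 4 := by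
  obtain ⟨b, h0, h1, h2, h3⟩ := h
  rw [Phi_eq h0 h2, Phi_eq h0 h1, Finset.sum_div]
  refine Finset.sum_congr rfl fun i _ => ?_
  have p0 := N₀.pos (b.ne_zero i)
  have p1 := N₁.pos (b.ne_zero i)
  have p2 := N.pos (b.ne_zero i)
  have e1 := congrArg Real.log (h3 i)
  rw [Real.log_pow, Real.log_mul p0.ne' p1.ne'] at e1
  push_cast at e1
  rw [Real.log_div p2.ne' p0.ne', Real.log_div p1.ne' p0.ne']
  have e2 : Real.log (N (b i)) = (Real.log (N₀ (b i)) + Real.log (N₁ (b i))) / 2 := by linarith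
  rw [e2]
  ring

end Pool.Agent.Lib.MP_5d4057_al.IN
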