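import Pool.Agent.Lib.MP_5d4057_al.IN.NmE

/-!
# A6, A7: the CN inequality (retraction to an apartment at a generic midpoint)
-/

set_option linter.unusedSectionVars false

namespace Pool.Agent.Lib.MP_5d4057_al.IN

open Module Set.powersetCard Filter Topology

variable {k : Type} [NontriviallyNormedField k] [IsUltrametricDist k] [ProperSpace k]
  {V : Type} [AddCommGroup V] [Module k V] [FiniteDimensional k V]

/-- The diagonal norm with logarithms `a`. -/
noncomputable def dg {ι : Type} [Finite ι] (b : Basis ι k V) (a : ι → ℝ) : Nm k V :=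
  Nm.ofBasis b (fun i => Real.exp (a i)) (fun _ => Real.exp_pos _)

theorem dg_self {ι : Type} [Finite ι] (b : Basis ι k V) (a : ι → ℝ) (i : ι) :
    dg b a (b i) = Real.exp (a i) := Nm.ofBasis_self _ _ _ _

theorem isOrth_dg {ι : Type} [Finite ι] (b : Basis ι k V) (a : ι → ℝ) : IsOrth (dg b a) b :=
  isOrth_ofBasis _ _ _

/-- A norm with orthogonal basis `b` is diagonal. -/
theorem IsOrth.eq_dg {ι : Type} [Finite ι] {N : Nm k V} {b : Basis ι k V} (h : IsOrth N b) :
    N = dg b fun i => Real.log (N (b i)) :=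
  Nm.eq_of_orth h (isOrth_dg _ _) fun i => by
    rw [dg_self, Real.exp_log (N.pos (b.ne_zero i))]

/-- Generic diagonal norms: the values `a i` are distinct modulo the logarithms of the value group. -/
def Generic (k : Type) [NormedField k] {ι : Type} (a : ι → ℝ) : Prop :=
  ∀ i j : ι, i ≠ j → ∀ x : k, x ≠ 0 → a i - a j ≠ Real.log ‖x‖

/-- PROOF: for `i ≠ j` the set of `ε` with `a i - a j + ε (c i - c j) ∈ log ‖k^*‖` is countable
(`exists_unif`), so there are `ε` in `(0, δ)` outside of all of them. -/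
theorem exists_generic (k : Type) [NontriviallyNormedField k] [IsUltrametricDist k] [ProperSpace k]
    {m : ℕ} (a : Fin m → ℝ) {δ : ℝ} (hδ : 0 < δ) :
    ∃ c : Fin m → ℝ, (∀ i, 0 ≤ c i ∧ c i ≤ δ) ∧ Generic k (fun i => a i + c i) := by
  obtain ⟨p, hp0, hp1, hp⟩ := exists_unif k
  obtain ⟨S, hS⟩ : ∃ S : Set ℝ, S = ⋃ (i : Fin m) (j : Fin m) (z : ℤ),
    {(z * Real.log ‖p‖ - (a i - a j)) / ((i.val : ℝ) - (j.val : ℝ))} := ⟨_, rfl⟩
  have hSc : S.Countable := by
    rw [hS]
    exact Set.countable_iUnion fun i => Set.countable_iUnion fun j =>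
      Set.countable_iUnion fun z => Set.countable_singleton _
  have hd := hSc.dense_compl ℝ
  have hm : (0 : ℝ) < m + 1 := by positivity
  obtain ⟨e, he, heS⟩ := hd.exists_mem_open isOpen_Ioo (Set.nonempty_Ioo.2 (div_pos hδ hm))
  refine ⟨fun i => e * i.val, fun i => ⟨mul_nonneg heS.1.le (Nat.cast_nonneg _), ?_⟩,
    fun i j hij x hx hz => he ?_⟩
  · have h1 : (i.val : ℝ) ≤ m + 1 := by
      have := i.2.le
      have h2 : (i.val : ℝ) ≤ m := by exact_mod_cast this
      linarith
    have h2 := (lt_div_iff₀ hm).1 heS.2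
    calc e * i.val ≤ e * (m + 1) := mul_le_mul_of_nonneg_left h1 heS.1.le
      _ ≤ δ := h2.le
  · obtain ⟨z, hz'⟩ := hp x hx
    rw [hS]
    simp only [Set.mem_iUnion, Set.mem_singleton_iff]
    refine ⟨i, j, z, ?_⟩
    have hne : (i.val : ℝ) - (j.val : ℝ) ≠ 0 := by
      rw [sub_ne_zero]
      intro h
      exact hij (Fin.ext (Nat.cast_injective h))
    rw [eq_div_iff hne]
    rw [hz', Real.log_zpow] at hz
    linarith

/-- A basis which is orthogonal for a generic diagonal norm has, after a permutation and scaling, the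
form `f i = e i + ∑_{l ≠ i} c i l • e l` with `‖c i l‖ exp (a l) < exp (a i)`. PROOF: for every `i` the
values `‖e.repr (f i) l‖ exp (a l)` (those which are not `0`) are distinct, so there is exactly one
dominant coordinate `σ i`; if `σ i = σ i'` for `i ≠ i'`, a combination of `f i`, `f i'` has a smaller
norm: contradiction to orthogonality. -/
theorem exists_dominant {m : ℕ} (e : Basis (Fin m) k V) (a : Fin m → ℝ) (ha : Generic k a)
    {f : Basis (Fin m) k V} (hf : IsOrth (dg e a) f) :
    ∃ (σ : Equiv.Perm (Fin m)) (u : Fin m → kˣ), ∀ i,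
      e.repr ((u i : k) • f (σ i)) i = 1 ∧
      ∀ l, l ≠ i → ‖e.repr ((u i : k) • f (σ i)) l‖ * Real.exp (a l) < Real.exp (a i) := by
  have hM := isOrth_dg e a
  have hex : ∀ l, ∃ i, ‖e.repr (f l) i‖ * Real.exp (a i) = dg e a (f l) ∧ e.repr (f l) i ≠ 0 := by
    intro l
    obtain ⟨i, h1, h2⟩ := hM.exists_eq (f.ne_zero l)
    rw [dg_self] at h1
    exact ⟨i, h1, h2⟩
  choose τ hτ hτ0 using hex
  have hle : ∀ (v : V) (i : Fin m), ‖e.repr v i‖ * Real.exp (a i) ≤ dg e a v := by
    intro v i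
    have h1 := hM v i
    rwa [dg_self] at h1
  have hlt : ∀ l i, i ≠ τ l → ‖e.repr (f l) i‖ * Real.exp (a i) < dg e a (f l) := by
    intro l i hi
    refine lt_of_le_of_ne (hle _ _) fun heq => ?_
    by_cases h0 : e.repr (f l) i = 0
    · rw [h0, norm_zero, zero_mul] at heq
      exact ((dg e a).pos (f.ne_zero l)).ne heq
    · rw [← hτ l] at heq
      have p1 := norm_pos_iff.2 h0
      have p2 := norm_pos_iff.2 (hτ0 l)
      have h1 := congrArg Real.log heq
      rw [Real.log_mul p1.ne' (Real.exp_pos _).ne', Real.log_mul p2.ne' (Real.exp_pos _).ne',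
        Real.log_exp, Real.log_exp] at h1
      refine ha i (τ l) hi (e.repr (f l) (τ l) / e.repr (f l) i) (div_ne_zero (hτ0 l) h0) ?_
      rw [norm_div, Real.log_div p2.ne' p1.ne']
      linarith
  have hinj : Function.Injective τ := by
    intro l l' hll
    by_contra hne
    obtain ⟨x, hx⟩ : ∃ x, x = e.repr (f l) (τ l) := ⟨_, rfl⟩
    obtain ⟨x', hx'⟩ : ∃ x', x' = e.repr (f l') (τ l') := ⟨_, rfl⟩
    have hx0 : x ≠ 0 := by rw [hx]; exact hτ0 l
    have hx0' : x' ≠ 0 := by rw [hx']; exact hτ0 l'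
    have p1 := norm_pos_iff.2 hx0
    have p2 := norm_pos_iff.2 hx0'
    obtain ⟨v, hv⟩ : ∃ v, v = x' • f l - x • f l' := ⟨_, rfl⟩
    have hrl : f.repr v l = x' := by
      rw [hv, map_sub, map_smul, map_smul, Finsupp.sub_apply, Finsupp.smul_apply,
        Finsupp.smul_apply, Basis.repr_self, Basis.repr_self, Finsupp.single_eq_same,
        Finsupp.single_eq_of_ne hne, smul_eq_mul, smul_eq_mul, mul_one, mul_zero, sub_zero]
    have hv0 : v ≠ 0 := by
      intro h0
      rw [h0, map_zero, Finsupp.zero_apply] at hrl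
      exact hx0' hrl.symm
    have h1 := hf v l
    rw [hrl] at h1
    obtain ⟨i, hi, hi0⟩ := hM.exists_eq hv0
    rw [dg_self] at hi
    have hri : ∀ i, e.repr v i = x' * e.repr (f l) i - x * e.repr (f l') i := by
      intro i
      rw [hv, map_sub, map_smul, map_smul, Finsupp.sub_apply, Finsupp.smul_apply,
        Finsupp.smul_apply, smul_eq_mul, smul_eq_mul]
    have hiτ : i ≠ τ l := by
      intro h
      refine hi0 ?_
      rw [hri, h, ← hx]
      rw [hll, ← hx', mul_comm x', sub_self]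
    have hiτ' : i ≠ τ l' := by rwa [← hll]
    have h2 := hlt l i hiτ
    have h3 := hlt l' i hiτ'
    have e1 : dg e a (f l) = ‖x‖ * Real.exp (a (τ l)) := by rw [hx, hτ l]
    have e2 : dg e a (f l') = ‖x'‖ * Real.exp (a (τ l)) := by rw [hx', hll, hτ l']
    have hE := Real.exp_pos (a i)
    have h4 : ‖e.repr v i‖ * Real.exp (a i) < ‖x'‖ * dg e a (f l) := by
      have h5 : ‖e.repr v i‖ ≤ max (‖x'‖ * ‖e.repr (f l) i‖) (‖x‖ * ‖e.repr (f l') i‖) := by
        rw [hri, ← norm_mul, ← norm_mul, sub_eq_add_neg, ← norm_neg (x * e.repr (f l') i)]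
        exact IsUltrametricDist.norm_add_le_max _ _
      refine lt_of_le_of_lt (mul_le_mul_of_nonneg_right h5 hE.le) ?_
      rw [max_mul_of_nonneg _ _ hE.le]
      refine max_lt ?_ ?_
      · rw [mul_assoc]
        exact mul_lt_mul_of_pos_left h2 p2
      · rw [mul_assoc, e1]
        rw [e2] at h3
        calc ‖x‖ * (‖e.repr (f l') i‖ * Real.exp (a i)) < ‖x‖ * (‖x'‖ * Real.exp (a (τ l))) :=
              mul_lt_mul_of_pos_left h3 p1
          _ = _ := by ring
    rw [hi] at h4
    exact absurd h1 (not_le.2 h4)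
  have hbij : Function.Bijective τ := Finite.injective_iff_bijective.1 hinj
  obtain ⟨σ, hσ⟩ : ∃ σ : Equiv.Perm (Fin m), σ = (Equiv.ofBijective τ hbij).symm := ⟨_, rfl⟩
  have hτσ : ∀ i, τ (σ i) = i := fun i => by
    rw [hσ]
    exact (Equiv.ofBijective τ hbij).apply_symm_apply i
  have hr0 : ∀ i, e.repr (f (σ i)) i ≠ 0 := fun i => by
    have h1 := hτ0 (σ i)
    rwa [hτσ i] at h1
  refine ⟨σ, fun i => (Units.mk0 _ (hr0 i))⁻¹, fun i => ⟨?_, fun l hl => ?_⟩⟩
  · rw [map_smul, Finsupp.smul_apply, smul_eq_mul, Units.val_inv_eq_inv_val, Units.val_mk0,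
      inv_mul_cancel₀ (hr0 i)]
  · rw [map_smul, Finsupp.smul_apply, smul_eq_mul, Units.val_inv_eq_inv_val, Units.val_mk0,
      norm_mul, norm_inv, mul_assoc, inv_mul_lt_iff₀ (norm_pos_iff.2 (hr0 i))]
    have h1 := hlt (σ i) l (by rw [hτσ i]; exact hl)
    rw [← hτ (σ i), hτσ i] at h1
    exact h1

/-- Principal minors are units: if `f i = e i + (smaller)` as in `exists_dominant` then for every
norm `η` with orthogonal basis `e` and every `s`, `∏ i ∈ s, η (e i) ≤ η.ext j (f_s)`.
PROOF: the `s`-coordinate of `f_s` in the basis `e.exteriorPower j` is the determinant of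
`1 + (small)` after conjugation with `diag (exp a)`: of norm one. -/
theorem prod_le_ext {m : ℕ} (e : Basis (Fin m) k V) (a : Fin m → ℝ) {f : Basis (Fin m) k V}
    (h1 : ∀ i, e.repr (f i) i = 1)
    (h2 : ∀ i l, l ≠ i → ‖e.repr (f i) l‖ * Real.exp (a l) < Real.exp (a i)) {η : Nm k V}
    (hη : IsOrth η e) {j : ℕ} (s : Set.powersetCard (Fin m) j) :
    ∏ i ∈ s.1, η (e i) ≤ η.ext j (f.exteriorPower j s) := by
  have h3 := hη.ext j (f.exteriorPower j s) s
  rw [hη.ext_apply] at h3
  have h4 : ‖(e.exteriorPower j).repr (f.exteriorPower j s) s‖ = 1 := by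
    rw [exteriorPower.basis_apply, exteriorPower.basis_repr_apply, exteriorPower.ιMulti_family,
      exteriorPower.ιMultiDual_apply_ιMulti]
    refine norm_det_unit _ (μ := fun l => Real.exp (a (ofFinEmbEquiv.symm s l)))
      (fun l => Real.exp_pos _) (fun l => ?_) fun i l hil => ?_
    · rw [Matrix.of_apply, Basis.coord_apply, Function.comp_apply, h1, norm_one]
    · rw [Matrix.of_apply, Basis.coord_apply, Function.comp_apply]
      exact h2 _ _ fun h => hil ((ofFinEmbEquiv.symm s).injective h).symm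
  rwa [h4, one_mul] at h3

/-- The logarithm of the volume in a common orthogonal basis. -/
theorem lv_sub {N N' : Nm k V} {b : Basis (Fin (finrank k V)) k V} (h : IsOrth N b)
    (h' : IsOrth N' b) : N'.lv - N.lv = ∑ i, Real.log (N' (b i) / N (b i)) := by
  obtain ⟨A, hA⟩ : ∃ A : Matrix (Fin (finrank k V)) (Fin (finrank k V)) k,
    A = fun i l => b.repr (finBasis k V i) l := ⟨_, rfl⟩
  have e1 : (finBasis k V : Fin (finrank k V) → V) = fun i => ∑ l, A i l • b l := by
    funext i
    rw [hA]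
    exact (b.sum_repr _).symm
  have key : ∀ {M : Nm k V}, IsOrth M b → M.vol (finBasis k V) = ‖A.det‖ * ∏ i, M (b i) := by
    intro M hM
    rw [e1, Nm.vol_matrix]
    have h1 := (hM.orthF (s := id) Function.injective_id).vol_eq
    simp only [id_eq] at h1
    rw [h1]
  have hpos : 0 < ‖A.det‖ := by
    have h1 := N.vol_pos (finBasis k V).linearIndependent
    rw [key h] at h1
    exact (pos_iff_pos_of_mul_pos h1).2 (Finset.prod_pos fun i _ => N.pos (b.ne_zero i))
  unfold Nm.lv
  rw [key h, key h', Real.log_mul hpos.ne' (Finset.prod_pos fun i _ => N'.pos (b.ne_zero i)).ne',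
    Real.log_mul hpos.ne' (Finset.prod_pos fun i _ => N.pos (b.ne_zero i)).ne',
    Real.log_prod fun i _ => (N.pos (b.ne_zero i)).ne',
    Real.log_prod fun i _ => (N'.pos (b.ne_zero i)).ne', add_sub_add_left_eq_sub,
    ← Finset.sum_sub_distrib]
  exact Finset.sum_congr rfl fun i _ =>
    (Real.log_div (N'.pos (b.ne_zero i)).ne' (N.pos (b.ne_zero i)).ne').symm

/-- CN for a generic midpoint. PROOF: common orthogonal basis `f` of `P` and `dg e ((a + b) / 2)`,
normalised by `exists_dominant`; `r(P) := diagonal in e with r(P)(e i) = P (f i)`;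
`Phi P mid = Phi (r P) mid` (same positions), `Phi (r P) η ≤ Phi P η` for `η` diagonal in `e`
(`prod_le_ext`, `le_DD`, `schur_sq`, equality of the total volume), parallelogram identity. -/
theorem cn_generic (e : Basis (Fin (finrank k V)) k V) (a b : Fin (finrank k V) → ℝ)
    (h : Generic k fun i => (a i + b i) / 2) (P : Nm k V) :
    Phi P (dg e fun i => (a i + b i) / 2) ≤ Phi P (dg e a) / 2 + Phi P (dg e b) / 2 -
      Phi (dg e a) (dg e b) / 4 := by
  obtain ⟨c, hc⟩ : ∃ c : Fin (finrank k V) → ℝ, c = fun i => (a i + b i) / 2 := ⟨_, rfl⟩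
  rw [← hc] at h ⊢
  obtain ⟨f₀, hP₀, hM₀, -⟩ := exists_orth2 P (dg e c)
  obtain ⟨σ, u, hu⟩ := exists_dominant e c h hM₀
  obtain ⟨f, hf⟩ : ∃ f : Basis (Fin (finrank k V)) k V, f = (f₀.reindex σ.symm).unitsSMul u :=
    ⟨_, rfl⟩
  have hfi : ∀ i, f i = (u i : k) • f₀ (σ i) := fun i => by
    rw [hf, Basis.unitsSMul_apply, Basis.reindex_apply, Equiv.symm_symm, Units.smul_def]
  have hP : IsOrth P f := by
    rw [hf]
    exact (hP₀.reindex _).unitsSMul u
  have hM : IsOrth (dg e c) f := by
    rw [hf]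
    exact (hM₀.reindex _).unitsSMul u
  have h1 : ∀ i, e.repr (f i) i = 1 := fun i => by
    rw [hfi]
    exact (hu i).1
  have h2 : ∀ i l, l ≠ i → ‖e.repr (f i) l‖ * Real.exp (c l) < Real.exp (c i) := fun i l hl => by
    rw [hfi]
    exact (hu i).2 l hl
  have hMf : ∀ i, dg e c (f i) = Real.exp (c i) := by
    intro i
    refine le_antisymm ((dg e c).le_of_basis e (Real.exp_pos _).le fun l => ?_) ?_
    · rw [dg_self]
      by_cases hl : l = i
      · subst hl
        rw [h1, norm_one, one_mul]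
      · exact (h2 i l hl).le
    · have h3 := isOrth_dg e c (f i) i
      rwa [h1, norm_one, one_mul, dg_self] at h3
  -- the retraction does not increase the distance to diagonal norms
  have key : ∀ d : Fin (finrank k V) → ℝ,
      ∑ i, (d i - Real.log (P (f i))) ^ 2 ≤ Phi P (dg e d) := by
    intro d
    obtain ⟨g, hg, hg', hs⟩ := exists_orth2 P (dg e d)
    rw [Phi_eq hg hg']
    refine schur_sq_fin _ (fun i => Real.log (dg e d (g i) / P (g i))) (fun J => ?_) ?_
    · have hJ : J.card ≤ finrank k V := by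
        have h3 := J.card_le_univ
        rwa [Fintype.card_fin] at h3
      rw [← DD_sorted hg hg' hs hJ]
      have h3 := le_DD (N' := dg e d) hP (j := J.card) ⟨J, rfl⟩
      have h4 := prod_le_ext e c h1 h2 (isOrth_dg e d) (j := J.card) ⟨J, rfl⟩
      have h5 : ∏ i ∈ J, dg e d (e i) = Real.exp (∑ i ∈ J, d i) := by
        rw [Real.exp_sum]
        exact Finset.prod_congr rfl fun i _ => dg_self e d i
      have h6 : ∑ i ∈ J, d i ≤
          Real.log ((dg e d).ext J.card (f.exteriorPower J.card ⟨J, rfl⟩)) := by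
        rw [Real.le_log_iff_exp_le (((dg e d).ext J.card).pos ((f.exteriorPower _).ne_zero _)),
          ← h5]
        exact h4
      rw [Finset.sum_sub_distrib]
      linarith
    · have e1 := lv_sub hg hg'
      have e2 := lv_sub hP hM
      have e3 := lv_sub (isOrth_dg e c) (isOrth_dg e d)
      have e4 : ∑ i, Real.log (dg e d (e i) / dg e c (e i)) = ∑ i, (d i - c i) :=
        Finset.sum_congr rfl fun i _ => by
          rw [dg_self, dg_self, Real.log_div (Real.exp_pos _).ne' (Real.exp_pos _).ne',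
            Real.log_exp, Real.log_exp]
      have e5 : ∑ i, Real.log (dg e c (f i) / P (f i)) = ∑ i, (c i - Real.log (P (f i))) :=
        Finset.sum_congr rfl fun i _ => by
          rw [hMf, Real.log_div (Real.exp_pos _).ne' (P.pos (f.ne_zero i)).ne', Real.log_exp]
      rw [← e1]
      rw [e4, Finset.sum_sub_distrib] at e3
      rw [e5, Finset.sum_sub_distrib] at e2
      rw [Finset.sum_sub_distrib]
      linarith
  have k1 := key a
  have k2 := key b
  have e1 : Phi P (dg e c) = ∑ i, (c i - Real.log (P (f i))) ^ 2 := by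
    rw [Phi_eq hP hM]
    refine Finset.sum_congr rfl fun i _ => ?_
    rw [hMf, Real.log_div (Real.exp_pos _).ne' (P.pos (f.ne_zero i)).ne', Real.log_exp]
  have e2 : Phi (dg e a) (dg e b) = ∑ i, (b i - a i) ^ 2 := by
    rw [Phi_eq (isOrth_dg e a) (isOrth_dg e b)]
    refine Finset.sum_congr rfl fun i _ => ?_
    rw [dg_self, dg_self, Real.log_div (Real.exp_pos _).ne' (Real.exp_pos _).ne', Real.log_exp,
      Real.log_exp]
  have e3 : ∑ i, (c i - Real.log (P (f i))) ^ 2 = (∑ i, (a i - Real.log (P (f i))) ^ 2) / 2 +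
      (∑ i, (b i - Real.log (P (f i))) ^ 2) / 2 - (∑ i, (b i - a i) ^ 2) / 4 := by
    rw [Finset.sum_div, Finset.sum_div, Finset.sum_div, ← Finset.sum_add_distrib,
      ← Finset.sum_sub_distrib]
    refine Finset.sum_congr rfl fun i _ => ?_
    rw [hc]
    ring
  rw [e1, e2, e3]
  linarith

/-- `N ≤ C N'` implies the same for the exterior powers. -/
theorem Nm.ext_le_pow {N N' : Nm k V} {C : ℝ} (hC : 0 ≤ C) (h : ∀ v, N v ≤ C * N' v) (j : ℕ)
    (x : ⋀[k]^j V) : N.ext j x ≤ C ^ j * N'.ext j x := by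
  obtain ⟨b, hb⟩ := exists_orth N'
  refine (hb.ext j).le_of_le (pow_nonneg hC j) (fun s => ?_) x
  rw [hb.ext_apply, exteriorPower.basis_apply]
  refine (N.vol_le _).trans ?_
  rw [← prod_ofFin, ← Fin.prod_const, ← Finset.prod_mul_distrib]
  exact Finset.prod_le_prod (fun i _ => N.nonneg _) fun i _ => h _

theorem DD_le_of_le {P N N' : Nm k V} {e : ℝ} (h : ∀ v, N v ≤ Real.exp e * N' v) {j : ℕ}
    (hj : j ≤ finrank k V) : DD j P N ≤ j * e + DD j P N' := by
  have hnt : Nontrivial (⋀[k]^j V) := by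
    refine nontrivial_of_finrank_pos (R := k) ?_
    rw [exteriorPower.finrank_eq]
    exact Nat.choose_pos hj
  have h1 := Nm.ext_le_pow (Real.exp_pos e).le h j
  have hid : (LinearMap.id : ⋀[k]^j V →ₗ[k] ⋀[k]^j V) ≠ 0 := by
    intro h0
    obtain ⟨x, hx⟩ := exists_ne (0 : ⋀[k]^j V)
    exact hx (LinearMap.congr_fun h0 x)
  unfold DD Dj lop
  rw [exteriorPower.map_id]
  have p1 := opn_pos hid (P.ext j) (N.ext j)
  have p2 := opn_pos hid (P.ext j) (N'.ext j)
  have h2 : opn LinearMap.id (P.ext j) (N.ext j) ≤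
      Real.exp e ^ j * opn LinearMap.id (P.ext j) (N'.ext j) := by
    refine opn_le (mul_nonneg (pow_nonneg (Real.exp_pos e).le j) p2.le) fun x => ?_
    refine (h1 _).trans ?_
    rw [mul_assoc]
    exact mul_le_mul_of_nonneg_left (le_opn _ _ _ x) (pow_nonneg (Real.exp_pos e).le j)
  have h3 := Real.log_le_log p1 h2
  rwa [Real.log_mul (pow_ne_zero _ (Real.exp_pos e).ne') p2.ne', Real.log_pow, Real.log_exp] at h3

theorem dg_le {ι : Type} [Finite ι] (b : Basis ι k V) {a a' : ι → ℝ} {δ : ℝ}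
    (h : ∀ i, a i ≤ δ + a' i) (v : V) : dg b a v ≤ Real.exp δ * dg b a' v := by
  refine (isOrth_dg b a').le_of_le (Real.exp_pos δ).le (fun i => ?_) v
  rw [dg_self, dg_self, ← Real.exp_add]
  exact Real.exp_le_exp.2 (h i)

/-- `|Phi P (dg e a) - Phi P (dg e b)|` is small if `a`, `b` are near (continuity in `a`). -/
theorem continuous_Phi_dg (e : Basis (Fin (finrank k V)) k V) (P : Nm k V) :
    Continuous fun a : Fin (finrank k V) → ℝ => Phi P (dg e a) := by
  have key : ∀ j, j ≤ finrank k V →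
      Continuous fun a : Fin (finrank k V) → ℝ => DD j P (dg e a) := by
    intro j hj
    have hL : LipschitzWith j fun a : Fin (finrank k V) → ℝ => DD j P (dg e a) := by
      refine LipschitzWith.of_dist_le_mul fun a a' => ?_
      have h1 : ∀ x y : Fin (finrank k V) → ℝ, ∀ i, x i ≤ dist x y + y i := by
        intro x y i
        have h2 := dist_le_pi_dist x y i
        rw [Real.dist_eq] at h2
        have h3 := le_abs_self (x i - y i)
        linarith
      have h2 := DD_le_of_le (P := P) (dg_le e (h1 a a')) hj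
      have h3 := DD_le_of_le (P := P) (dg_le e (h1 a' a)) hj
      rw [dist_comm a' a] at h3
      rw [Real.dist_eq, abs_sub_le_iff, NNReal.coe_natCast]
      constructor <;> linarith
    exact hL.continuous
  unfold Phi
  exact continuous_finsetSum _ fun j hj => by
    have h1 := Finset.mem_range.1 hj
    exact ((key (j + 1) h1).sub (key j h1.le)).pow 2

/-- The CN inequality. -/
theorem IsMid.cn {N₀ N₁ N : Nm k V} (h : IsMid N₀ N₁ N) (P : Nm k V) :
    IN.Phi P N ≤ IN.Phi P N₀ / 2 + IN.Phi P N₁ / 2 - IN.Phi N₀ N₁ / 4 := by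
  obtain ⟨e, h0, h1, hN, he⟩ := h
  obtain ⟨a, ha⟩ : ∃ a : Fin (finrank k V) → ℝ, a = fun i => Real.log (N₀ (e i)) := ⟨_, rfl⟩
  obtain ⟨b, hb⟩ : ∃ b : Fin (finrank k V) → ℝ, b = fun i => Real.log (N₁ (e i)) := ⟨_, rfl⟩
  have e0 : N₀ = dg e a := by rw [ha]; exact h0.eq_dg
  have e1 : N₁ = dg e b := by rw [hb]; exact h1.eq_dg
  have e2 : N = dg e fun i => (a i + b i) / 2 := by
    have h2 : (fun i => (a i + b i) / 2) = fun i => Real.log (N (e i)) := by
      funext i
      have h3 := congrArg Real.log (he i)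
      rw [Real.log_pow, Real.log_mul (N₀.pos (e.ne_zero i)).ne' (N₁.pos (e.ne_zero i)).ne'] at h3
      rw [ha, hb]
      push_cast at h3
      linarith
    rw [h2]
    exact hN.eq_dg
  rw [e0, e1, e2]
  -- a generic sequence
  have hex : ∀ n : ℕ, ∃ c : Fin (finrank k V) → ℝ, (∀ i, 0 ≤ c i ∧ c i ≤ 1 / ((n : ℝ) + 1)) ∧
      Generic k (fun i => (a i + b i) / 2 + c i) := fun n =>
    exists_generic k (fun i => (a i + b i) / 2) (by positivity)
  choose c hc hgen using hex
  have hc0 : Tendsto c atTop (𝓝 0) := by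
    rw [tendsto_pi_nhds]
    intro i
    exact squeeze_zero (fun n => (hc n i).1) (fun n => (hc n i).2)
      tendsto_one_div_add_atTop_nhds_zero_nat
  have hlim : ∀ d : Fin (finrank k V) → ℝ,
      Tendsto (fun n => IN.Phi P (dg e (d + c n))) atTop (𝓝 (IN.Phi P (dg e d))) := by
    intro d
    have h2 : Tendsto (fun n => d + c n) atTop (𝓝 d) := by
      have h3 := hc0.const_add d
      rwa [add_zero] at h3
    exact ((continuous_Phi_dg e P).tendsto d).comp h2
  have hcn : ∀ n, IN.Phi P (dg e ((fun i => (a i + b i) / 2) + c n)) ≤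
      IN.Phi P (dg e (a + c n)) / 2 + IN.Phi P (dg e (b + c n)) / 2 -
        IN.Phi (dg e a) (dg e b) / 4 := by
    intro n
    have e3 : (fun i => (a i + b i) / 2) + c n = fun i => ((a + c n) i + (b + c n) i) / 2 := by
      funext i
      simp only [Pi.add_apply]
      ring
    have h2 := cn_generic e (a + c n) (b + c n) (by
      rw [← e3]
      exact hgen n) P
    rw [← e3] at h2
    have e4 : IN.Phi (dg e (a + c n)) (dg e (b + c n)) = IN.Phi (dg e a) (dg e b) := by
      rw [Phi_eq (isOrth_dg _ _) (isOrth_dg _ _), Phi_eq (isOrth_dg _ _) (isOrth_dg _ _)]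
      refine Finset.sum_congr rfl fun i _ => ?_
      rw [dg_self, dg_self, dg_self, dg_self, ← Real.exp_sub, ← Real.exp_sub, Pi.add_apply,
        Pi.add_apply, add_sub_add_right_eq_sub]
    rwa [e4] at h2
  have h2 := le_of_tendsto_of_tendsto' (hlim _) ((((hlim a).div_const 2).add
    ((hlim b).div_const 2)).sub_const (IN.Phi (dg e a) (dg e b) / 4)) hcn
  exact h2

end Pool.Agent.Lib.MP_5d4057_al.IN
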