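import Pool.Agent.Lib.MP_5d4057_al.IN.NmP

/-!
# A9: irreducibility
-/

namespace Pool.Agent.Lib.MP_5d4057_al.IN

open Module

variable {k : Type} [NontriviallyNormedField k] [IsUltrametricDist k] [ProperSpace k]
  {V : Type} [AddCommGroup V] [Module k V] [FiniteDimensional k V]

theorem opn_le_exp_dist (e : V ≃ₗ[k] V) (N : Nm k V) :
    opn (e : V →ₗ[k] V) N N ≤ Real.exp (dist (N.act e) N) := by
  refine opn_le (Real.exp_pos _).le fun v => ?_
  have h := N.le_exp_dist (N.act e) (e v)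
  rw [Nm.act_apply, LinearEquiv.symm_apply_apply, dist_comm] at h
  exact h

/-- the coefficients of the bounded endomorphisms in a spanning family are bounded -/
theorem irr_coeff {r : ℕ} (T : Fin r → V →ₗ[k] V)
    (hT : Submodule.span k (Set.range T) = ⊤) (N₀ : Nm k V) :
    ∃ K : ℝ, 1 ≤ K ∧ ∀ S : V →ₗ[k] V, opn S N₀ N₀ ≤ 1 →
      ∃ c : Fin r → k, (∀ l, ‖c l‖ ≤ K) ∧ ∑ l, c l • T l = S := by
  obtain ⟨b, hb⟩ := exists_orth N₀
  have h0 : ∀ i j, ∃ c : Fin r → k, ∑ l, c l • T l = (b.coord j).smulRight (b i) := fun i j =>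
    Submodule.mem_span_range_iff_exists_fun k |>.1 (by rw [hT]; trivial)
  choose c₀ hc₀ using h0
  have hnn : ∀ i j l, 0 ≤ N₀ (b j) / N₀ (b i) * ‖c₀ i j l‖ := fun i j l =>
    mul_nonneg (div_nonneg (N₀.nonneg _) (N₀.nonneg _)) (norm_nonneg _)
  refine ⟨1 + ∑ l, ∑ i, ∑ j, N₀ (b j) / N₀ (b i) * ‖c₀ i j l‖, ?_, fun S hS => ?_⟩
  · have : 0 ≤ ∑ l, ∑ i, ∑ j, N₀ (b j) / N₀ (b i) * ‖c₀ i j l‖ :=
      Finset.sum_nonneg fun l _ => Finset.sum_nonneg fun i _ => Finset.sum_nonneg fun j _ =>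
        hnn i j l
    linarith
  · refine ⟨fun l => ∑ i, ∑ j, b.repr (S (b j)) i * c₀ i j l, fun l => ?_, ?_⟩
    · have h1 : ∀ i j, ‖b.repr (S (b j)) i‖ ≤ N₀ (b j) / N₀ (b i) := by
        intro i j
        rw [le_div_iff₀ (N₀.pos (b.ne_zero i))]
        refine (hb (S (b j)) i).trans ?_
        refine (le_opn S N₀ N₀ (b j)).trans ?_
        calc _ ≤ 1 * N₀ (b j) := mul_le_mul_of_nonneg_right hS (N₀.nonneg _)
          _ = _ := one_mul _
      have h2 : ‖∑ i, ∑ j, b.repr (S (b j)) i * c₀ i j l‖ ≤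
          ∑ i, ∑ j, N₀ (b j) / N₀ (b i) * ‖c₀ i j l‖ := by
        refine (norm_sum_le _ _).trans (Finset.sum_le_sum fun i _ => ?_)
        refine (norm_sum_le _ _).trans (Finset.sum_le_sum fun j _ => ?_)
        rw [norm_mul]
        exact mul_le_mul_of_nonneg_right (h1 i j) (norm_nonneg _)
      have h3 : ∑ i, ∑ j, N₀ (b j) / N₀ (b i) * ‖c₀ i j l‖ ≤
          ∑ l, ∑ i, ∑ j, N₀ (b j) / N₀ (b i) * ‖c₀ i j l‖ :=
        Finset.single_le_sum (f := fun l => ∑ i, ∑ j, N₀ (b j) / N₀ (b i) * ‖c₀ i j l‖)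
          (fun l _ => Finset.sum_nonneg fun i _ => Finset.sum_nonneg fun j _ => hnn i j l)
          (Finset.mem_univ l)
      linarith
    · have e1 : ∑ l, (∑ i, ∑ j, b.repr (S (b j)) i * c₀ i j l) • T l =
          ∑ i, ∑ j, b.repr (S (b j)) i • ∑ l, c₀ i j l • T l := by
        simp only [Finset.sum_smul, Finset.smul_sum, mul_smul]
        rw [Finset.sum_comm]
        refine Finset.sum_congr rfl fun i _ => ?_
        rw [Finset.sum_comm]
      rw [e1]
      simp only [hc₀]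
      refine b.ext fun j' => ?_
      rw [LinearMap.sum_apply]
      have e2 : ∀ i, (∑ j, b.repr (S (b j)) i • (b.coord j).smulRight (b i)) (b j') =
          b.repr (S (b j')) i • b i := by
        intro i
        rw [LinearMap.sum_apply, Finset.sum_eq_single j']
        · simp
        · intro j _ hj
          simp [Finsupp.single_eq_of_ne hj]
        · intro h
          exact absurd (Finset.mem_univ _) h
      simp only [e2]
      exact b.sum_repr _

/-- Norms of given volume which are moved a bounded distance by a spanning family stay in a compact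
set. PROOF: every `T` with `opn T N₀ N₀ ≤ 1` is `∑ c_i T_i` with `‖c_i‖ ≤ C₁` (`Nm.exists_le` on
`V →ₗ V` for the two norms `T ↦ opn T N₀ N₀` and a quotient norm; or: choose a basis among the `T_i`
and take the coordinates), so `opn T N N ≤ exp C₂` for these `T`. Let `b` be a common orthogonal basis of
`N₀`, `N`, `a_i = log (N (b i) / N₀ (b i))`. For `i, i'` let `T` map `b i` to `c • b i'` and the others
to `0`, with `‖ϖ‖ < ‖c‖ N₀ (b i') / N₀ (b i) ≤ 1`: `opn T N₀ N₀ ≤ 1` and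
`opn T N N ≥ ‖ϖ‖ exp (a_i' - a_i)`. So `|a_i - a_i'| ≤ C₂ - log ‖ϖ‖`, and `∑ a_i = 0`. -/
theorem irr_bound {r : ℕ} (T : Fin r → V →ₗ[k] V)
    (hT : Submodule.span k (Set.range T) = ⊤) (N₀ : Nm k V) (C : ℝ) :
    ∃ C' : ℝ, ∀ N : Nm k V, N.lv = N₀.lv → (∀ i, opn (T i) N N ≤ Real.exp C) →
      dist N N₀ ≤ C' := by
  obtain ⟨K, hK1, hK⟩ := irr_coeff T hT N₀
  obtain ⟨ϖ, hϖ0, hϖ1, -⟩ := exists_unif k
  have hϖ : 0 < ‖ϖ‖ := norm_pos_iff.2 hϖ0
  set B : ℝ := K * Real.exp C with hB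
  have hB0 : 0 < B := by positivity
  -- the bound of the quotients
  obtain ⟨C₂, hC₂⟩ : ∃ C₂ : ℝ, C₂ = |Real.log (B / ‖ϖ‖)| := ⟨_, rfl⟩
  have hC₂0 : 0 ≤ C₂ := by rw [hC₂]; exact abs_nonneg _
  refine ⟨C₂, fun N hlv hN => ?_⟩
  have key : ∀ S : V →ₗ[k] V, opn S N₀ N₀ ≤ 1 → ∀ v, N (S v) ≤ B * N v := by
    intro S hS v
    obtain ⟨c, hc, rfl⟩ := hK S hS
    rw [LinearMap.sum_apply]
    refine N.sum_le _ _ (mul_nonneg hB0.le (N.nonneg v)) fun l _ => ?_
    rw [LinearMap.smul_apply, N.smul]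
    calc ‖c l‖ * N (T l v) ≤ K * (opn (T l) N N * N v) :=
          mul_le_mul (hc l) (le_opn _ _ _ _) (N.nonneg _) (by linarith)
      _ ≤ K * (Real.exp C * N v) := mul_le_mul_of_nonneg_left
          (mul_le_mul_of_nonneg_right (hN l) (N.nonneg v)) (by linarith)
      _ = _ := by rw [hB]; ring
  obtain ⟨b, hb₀, hb, hanti⟩ := exists_orth2 N₀ N
  have p0 : ∀ i, 0 < N₀ (b i) := fun i => N₀.pos (b.ne_zero i)
  have p1 : ∀ i, 0 < N (b i) := fun i => N.pos (b.ne_zero i)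
  obtain ⟨a, ha⟩ : ∃ a : Fin (finrank k V) → ℝ, ∀ i, a i = Real.log (N (b i) / N₀ (b i)) :=
    ⟨_, fun i => rfl⟩
  have hexp : ∀ i, N (b i) = Real.exp (a i) * N₀ (b i) := by
    intro i
    rw [ha, Real.exp_log (div_pos (p1 i) (p0 i)), div_mul_cancel₀ _ (p0 i).ne']
  have hab : ∀ i i', a i' - a i ≤ C₂ := by
    intro i i'
    -- the scalar
    have hq : 0 < N₀ (b i) / N₀ (b i') := div_pos (p0 i) (p0 i')
    obtain ⟨n, hn1, hn2⟩ := exists_mem_Ioc_zpow hq (one_lt_inv_iff₀.2 ⟨hϖ, hϖ1⟩)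
    -- `‖ϖ‖⁻¹ ^ n < q ≤ ‖ϖ‖⁻¹ ^ (n + 1)`
    set c : k := (ϖ⁻¹) ^ n with hc
    have hcn : ‖c‖ = ‖ϖ‖⁻¹ ^ n := by rw [hc, norm_zpow, norm_inv]
    have hc1 : ‖c‖ * N₀ (b i') ≤ N₀ (b i) := by
      rw [hcn]
      exact ((lt_div_iff₀ (p0 i')).1 hn1).le
    have hc2 : ‖ϖ‖ * N₀ (b i) ≤ ‖c‖ * N₀ (b i') := by
      have h1 := (div_le_iff₀ (p0 i')).1 hn2
      rw [zpow_add_one₀ (inv_ne_zero hϖ.ne'), ← hcn] at h1
      calc ‖ϖ‖ * N₀ (b i) ≤ ‖ϖ‖ * (‖c‖ * ‖ϖ‖⁻¹ * N₀ (b i')) :=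
            mul_le_mul_of_nonneg_left h1 hϖ.le
        _ = ‖c‖ * N₀ (b i') := by field_simp
    set S : V →ₗ[k] V := (b.coord i).smulRight (c • b i') with hS
    have hSi : S (b i) = c • b i' := by simp [hS]
    have hS0 : opn S N₀ N₀ ≤ 1 := by
      refine opn_le_of_orth hb₀ zero_le_one fun l => ?_
      by_cases hl : l = i
      · subst hl
        rw [hSi, N₀.smul, one_mul]
        exact hc1
      · have : S (b l) = 0 := by simp [hS, Finsupp.single_eq_of_ne (Ne.symm hl)]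
        rw [this, Nm.zero]
        exact mul_nonneg zero_le_one (N₀.nonneg _)
    have h2 := key S hS0 (b i)
    rw [hSi, N.smul, hexp i, hexp i'] at h2
    have h3 : Real.exp (a i') * ‖ϖ‖ ≤ B * Real.exp (a i) := by
      have h4 : Real.exp (a i') * (‖ϖ‖ * N₀ (b i)) ≤ B * (Real.exp (a i) * N₀ (b i)) := by
        calc _ ≤ Real.exp (a i') * (‖c‖ * N₀ (b i')) :=
              mul_le_mul_of_nonneg_left hc2 (Real.exp_pos _).le
          _ = ‖c‖ * (Real.exp (a i') * N₀ (b i')) := by ring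
          _ ≤ _ := h2
      have h5 : Real.exp (a i') * ‖ϖ‖ * N₀ (b i) ≤ B * Real.exp (a i) * N₀ (b i) := by linarith
      exact le_of_mul_le_mul_right h5 (p0 i)
    have h6 : Real.exp (a i' - a i) ≤ B / ‖ϖ‖ := by
      rw [Real.exp_sub, div_le_div_iff₀ (Real.exp_pos _) hϖ]
      exact h3
    have h7 := (Real.le_log_iff_exp_le (div_pos hB0 hϖ)).2 h6
    rw [hC₂]
    exact h7.trans (le_abs_self _)
  -- the sum of the `a i` is zero
  have hsum : ∑ i, a i = 0 := by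
    have h1 := DD_eq hb₀ hb hanti (le_refl (finrank k V))
    rw [DD_top, hlv, sub_self] at h1
    rw [h1]
    exact Finset.sum_congr rfl fun i _ => by rw [if_pos i.isLt, ha]
  have habs : ∀ i, |a i| ≤ C₂ := by
    intro i
    have hup : ∃ j, a j ≤ 0 := by
      by_contra h
      push Not at h
      have := Finset.sum_pos (fun j (_ : j ∈ Finset.univ) => h j) ⟨i, Finset.mem_univ i⟩
      linarith
    have hdn : ∃ j, 0 ≤ a j := by
      by_contra h
      push Not at h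
      have := Finset.sum_neg (fun j (_ : j ∈ Finset.univ) => h j) ⟨i, Finset.mem_univ i⟩
      linarith
    obtain ⟨j, hj⟩ := hup
    obtain ⟨l, hl⟩ := hdn
    rw [abs_le]
    constructor
    · have := hab i l
      linarith
    · have := hab j i
      linarith
  refine Nm.dist_le (fun v hv => ?_) hC₂0
  have hv1 := N.pos hv
  have hv0 := N₀.pos hv
  have l1 : N v ≤ Real.exp C₂ * N₀ v := by
    refine N.le_of_basis b (mul_nonneg (Real.exp_pos _).le (N₀.nonneg v)) fun i => ?_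
    calc ‖b.repr v i‖ * N (b i) = Real.exp (a i) * (‖b.repr v i‖ * N₀ (b i)) := by
          rw [hexp]; ring
      _ ≤ Real.exp C₂ * N₀ v := mul_le_mul (Real.exp_le_exp.2 ((le_abs_self _).trans (habs i)))
          (hb₀ v i) (mul_nonneg (norm_nonneg _) (N₀.nonneg _)) (Real.exp_pos _).le
  have l2 : N₀ v ≤ Real.exp C₂ * N v := by
    refine N₀.le_of_basis b (mul_nonneg (Real.exp_pos _).le (N.nonneg v)) fun i => ?_
    have h1 : N₀ (b i) = Real.exp (-(a i)) * N (b i) := by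
      rw [hexp, ← mul_assoc, ← Real.exp_add, neg_add_cancel, Real.exp_zero, one_mul]
    calc ‖b.repr v i‖ * N₀ (b i) = Real.exp (-(a i)) * (‖b.repr v i‖ * N (b i)) := by
          rw [h1]; ring
      _ ≤ Real.exp C₂ * N v := mul_le_mul (Real.exp_le_exp.2 ((neg_le_abs _).trans (habs i)))
          (hb v i) (mul_nonneg (norm_nonneg _) (N.nonneg _)) (Real.exp_pos _).le
  rw [abs_le]
  constructor
  · have h1 := Real.log_le_log hv0 l2
    rw [Real.log_mul (Real.exp_pos _).ne' hv1.ne', Real.log_exp] at h1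
    linarith
  · have h1 := Real.log_le_log hv1 l1
    rw [Real.log_mul (Real.exp_pos _).ne' hv0.ne', Real.log_exp] at h1
    linarith

end Pool.Agent.Lib.MP_5d4057_al.IN
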