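import Pool.Agent.Lib.MP_5d4057_al.IN.NmG

/-!
# A8: properness, the CN structure
-/

namespace Pool.Agent.Lib.MP_5d4057_al.IN

open Module

variable {k : Type} [NontriviallyNormedField k] [IsUltrametricDist k] [ProperSpace k]
  {V : Type} [AddCommGroup V] [Module k V] [FiniteDimensional k V]

/-- PROPERNESS. PROOF: `closedBall N₀ C` is sequentially compact (or: every ultrafilter on it
converges): for an ultrafilter `U` containing it `N v := lim U (N' ↦ N' v)` exists (the values are in
`[exp (-C) N₀ v, exp C N₀ v]`) and is a norm; convergence in `dist`: finitely many vectors test the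
distance of two norms in the ball (the compact set `{exp (-1) ≤ ..}` of representatives is covered by
finitely many small balls on which all norms of `closedBall N₀ C` are constant, by `Nm.add_eq`). -/
instance : ProperSpace (Nm k V) := by
  refine ProperSpace.of_isCompact_closedBall_of_le 0 fun N₀ C _ => ?_
  rw [isCompact_iff_ultrafilter_le_nhds]
  intro U hU
  have hmem : Metric.closedBall N₀ C ∈ U := Filter.le_principal_iff.1 hU
  have hb : ∀ N' ∈ Metric.closedBall N₀ C, ∀ v, Real.exp (-C) * N₀ v ≤ N' v ∧
      N' v ≤ Real.exp C * N₀ v := by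
    intro N' hN' v
    have h1 : dist N' N₀ ≤ C := hN'
    constructor
    · have h2 := Nm.le_exp_dist N₀ N' v
      rw [dist_comm] at h2
      have h3 : N₀ v ≤ Real.exp C * N' v :=
        h2.trans (mul_le_mul_of_nonneg_right (Real.exp_le_exp.2 h1) (N'.nonneg v))
      calc Real.exp (-C) * N₀ v ≤ Real.exp (-C) * (Real.exp C * N' v) :=
            mul_le_mul_of_nonneg_left h3 (Real.exp_pos _).le
        _ = N' v := by rw [← mul_assoc, ← Real.exp_add, neg_add_cancel, Real.exp_zero, one_mul]
    · exact (Nm.le_exp_dist N' N₀ v).trans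
        (mul_le_mul_of_nonneg_right (Real.exp_le_exp.2 h1) (N₀.nonneg v))
  -- the limit
  have hlim : ∀ v : V, ∃ x ∈ Set.Icc (Real.exp (-C) * N₀ v) (Real.exp C * N₀ v),
      Filter.Tendsto (fun N' : Nm k V => N' v) U (nhds x) := by
    intro v
    obtain ⟨x, hx, hx'⟩ := (isCompact_Icc (a := Real.exp (-C) * N₀ v)
      (b := Real.exp C * N₀ v)).ultrafilter_le_nhds (U.map fun N' : Nm k V => N' v) (by
        rw [Filter.le_principal_iff]
        change (fun N' : Nm k V => N' v) ⁻¹' _ ∈ U
        exact Filter.mem_of_superset hmem fun N' hN' => hb N' hN' v)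
    exact ⟨x, hx, hx'⟩
  choose F hF hFt using hlim
  let Nl : Nm k V :=
    { toFun := F
      smul' := fun c v => by
        refine tendsto_nhds_unique (hFt (c • v)) ?_
        simp only [Nm.smul]
        exact (hFt v).const_mul ‖c‖
      add_le' := fun v w => le_of_tendsto_of_tendsto (hFt (v + w)) ((hFt v).max (hFt w))
        (Filter.Eventually.of_forall fun N' => N'.add_le v w)
      pos' := fun v hv => lt_of_lt_of_le (mul_pos (Real.exp_pos _) (N₀.pos hv)) (hF v).1 }
  have hNl : ∀ v, Nl v = F v := fun v => rfl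
  have hlog : ∀ v, v ≠ 0 → Filter.Tendsto (fun N' : Nm k V => Real.log (N' v)) U
      (nhds (Real.log (Nl v))) := by
    intro v hv
    exact ((Real.continuousAt_log (Nl.pos hv).ne').tendsto).comp (hFt v)
  have hNlb : dist Nl N₀ ≤ C := by
    have h0 : 0 ≤ C := by
      obtain ⟨N', hN'⟩ := U.nonempty_of_mem hmem
      exact dist_nonneg.trans hN'
    refine Nm.dist_le (fun v hv => ?_) h0
    refine le_of_tendsto (((hlog v hv).sub_const (Real.log (N₀ v))).abs) ?_
    filter_upwards [hmem] with N' hN'
    exact (Nm.log_le_dist N' N₀ v).trans hN'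
  refine ⟨Nl, hNlb, ?_⟩
  -- a finite set of test vectors
  obtain ⟨T, hT⟩ : ∃ T : Finset V, (∀ t ∈ T, t ≠ 0) ∧ ∀ v : V, v ≠ 0 → ∃ t ∈ T, ∃ c : k, c ≠ 0 ∧
      ∀ N' ∈ Metric.closedBall N₀ C, N' v = ‖c‖ * N' t := by
    classical
    set b := finBasis k V
    set N₁ : Nm k V := Nm.ofBasis b (fun _ => 1) (fun _ => one_pos) with hN₁
    have hN₁n : ∀ v, N₁ v = ‖b.equivFun v‖ := by
      intro v
      rw [hN₁, Nm.ofBasis_apply]
      simp only [mul_one]
      rcases isEmpty_or_nonempty (Fin (finrank k V)) with h | h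
      · rw [Real.iSup_of_isEmpty, Pi.norm_def]
        simp
      · apply le_antisymm
        · exact ciSup_le fun i => by
            have := norm_le_pi_norm (b.equivFun v) i
            rwa [b.equivFun_apply] at this
        · refine (pi_norm_le_iff_of_nonneg (Real.iSup_nonneg fun i => norm_nonneg _)).2 fun i => ?_
          rw [b.equivFun_apply]
          exact le_ciSup (f := fun i => ‖b.repr v i‖) (Finite.bddAbove_range _) i
    obtain ⟨A, hA, hA'⟩ := N₁.exists_le N₀
    obtain ⟨B, hB, hB'⟩ := N₀.exists_le N₁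
    have hK : IsCompact (Metric.sphere (0 : Fin (finrank k V) → k) 1) := isCompact_sphere 0 1
    obtain ⟨t, ht, htf, htc⟩ := hK.finite_cover_balls
      (show (0 : ℝ) < Real.exp (-(2 * C)) / (A * B) by positivity)
    refine ⟨htf.toFinset.image b.equivFun.symm, ?_, ?_⟩
    · intro w hw
      obtain ⟨y, hy, rfl⟩ := Finset.mem_image.1 hw
      have hy1 : ‖y‖ = 1 := by simpa using ht ((Set.Finite.mem_toFinset _).1 hy)
      intro h0
      rw [LinearEquiv.map_eq_zero_iff] at h0
      rw [h0, norm_zero] at hy1
      exact zero_ne_one hy1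
    · intro v hv
      have hv1 : 0 < ‖b.equivFun v‖ := by rw [← hN₁n]; exact N₁.pos hv
      -- a coordinate of maximal norm
      obtain ⟨i, hi⟩ : ∃ i, ‖b.equivFun v i‖ = ‖b.equivFun v‖ := by
        by_contra hcon
        push Not at hcon
        have : ∀ i, ‖b.equivFun v i‖ < ‖b.equivFun v‖ := fun i =>
          lt_of_le_of_ne (norm_le_pi_norm _ i) (hcon i)
        have := (pi_norm_lt_iff hv1).2 this
        exact lt_irrefl _ this
      set c : k := b.equivFun v i with hc
      have hc0 : c ≠ 0 := by
        intro h0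
        rw [h0, norm_zero] at hi
        exact hv1.ne hi
      set x : Fin (finrank k V) → k := c⁻¹ • b.equivFun v with hx
      have hx1 : ‖x‖ = 1 := by
        rw [hx, norm_smul, norm_inv, hi, inv_mul_cancel₀ hv1.ne']
      obtain ⟨y, hy, hxy⟩ := Set.mem_iUnion₂.1 (htc (show x ∈ Metric.sphere _ 1 by simpa using hx1))
      have hy1 : ‖y‖ = 1 := by simpa using ht hy
      refine ⟨b.equivFun.symm y, Finset.mem_image_of_mem _ ((Set.Finite.mem_toFinset _).2 hy), c,
        hc0, fun N' hN' => ?_⟩
      have hv2 : v = c • b.equivFun.symm x := by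
        rw [hx, map_smul, LinearEquiv.symm_apply_apply, smul_smul, mul_inv_cancel₀ hc0, one_smul]
      have h1 : N' (b.equivFun.symm x - b.equivFun.symm y) < N' (b.equivFun.symm y) := by
        have e1 := (hb N' hN' (b.equivFun.symm x - b.equivFun.symm y)).2
        have e2 := hA' (b.equivFun.symm x - b.equivFun.symm y)
        have e3 := (hb N' hN' (b.equivFun.symm y)).1
        have e4 := hB' (b.equivFun.symm y)
        rw [hN₁n, LinearEquiv.apply_symm_apply, hy1] at e4
        rw [hN₁n, map_sub, LinearEquiv.apply_symm_apply, LinearEquiv.apply_symm_apply,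
          ← dist_eq_norm] at e2
        have e5 : dist x y < Real.exp (-(2 * C)) / (A * B) := hxy
        calc N' (b.equivFun.symm x - b.equivFun.symm y)
            ≤ Real.exp C * (A * dist x y) := e1.trans (mul_le_mul_of_nonneg_left e2 (Real.exp_pos _).le)
          _ < Real.exp C * (A * (Real.exp (-(2 * C)) / (A * B))) := by
              apply mul_lt_mul_of_pos_left _ (Real.exp_pos _)
              exact mul_lt_mul_of_pos_left e5 hA
          _ = Real.exp (-C) * (1 / B) := by
              have e6 : Real.exp (-C) = Real.exp C * Real.exp (-(2 * C)) := by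
                rw [← Real.exp_add]; congr 1; ring
              rw [e6]
              field_simp
          _ ≤ Real.exp (-C) * N₀ (b.equivFun.symm y) := by
              apply mul_le_mul_of_nonneg_left _ (Real.exp_pos _).le
              rw [div_le_iff₀ hB, mul_comm]
              exact e4
          _ ≤ N' (b.equivFun.symm y) := e3
      have h2 := N'.add_eq h1
      rw [add_sub_cancel] at h2
      conv_lhs => rw [hv2]
      rw [N'.smul, h2]
  rw [Filter.le_def]
  intro W hW
  obtain ⟨ε, hε, hεW⟩ := Metric.mem_nhds_iff.1 hW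
  have hev : ∀ᶠ N' in (U : Filter (Nm k V)), ∀ t ∈ T, |Real.log (N' t) - Real.log (Nl t)| < ε / 2 := by
    rw [Finset.eventually_all]
    intro t ht
    have h1 := hlog t (hT.1 t ht)
    have h2 := Metric.tendsto_nhds.1 h1 (ε / 2) (half_pos hε)
    filter_upwards [h2] with N' hN'
    rwa [Real.dist_eq] at hN'
  refine Filter.mem_of_superset (Filter.inter_mem hmem hev) ?_
  rintro N' ⟨hN'1, hN'2⟩
  refine hεW ?_
  rw [Metric.mem_ball]
  refine lt_of_le_of_lt (Nm.dist_le (fun v hv => ?_) (half_pos hε).le) (half_lt_self hε)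
  obtain ⟨t, ht, c, hc, hct⟩ := hT.2 v hv
  have hc' : ‖c‖ ≠ 0 := norm_ne_zero_iff.2 hc
  have htne := hT.1 t ht
  rw [hct N' hN'1, hct Nl hNlb, Real.log_mul hc' (N'.pos htne).ne',
    Real.log_mul hc' (Nl.pos htne).ne', add_sub_add_left_eq_sub]
  exact (hN'2 t ht).le

instance : Nonempty (Nm k V) :=
  ⟨Nm.ofBasis (finBasis k V) (fun _ => 1) (fun _ => one_pos)⟩

/-- The CAT(0) structure of the space of norms. -/
noncomputable def nmCN (k V : Type) [NontriviallyNormedField k] [IsUltrametricDist k]
    [ProperSpace k] [AddCommGroup V] [Module k V] [FiniteDimensional k V] : CN (Nm k V) where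
  ph := Phi
  mid N N' := (exists_isMid N N').choose
  C := max (Phi_lip (k := k) (V := V)).choose (finrank k V)
  one_le := le_max_of_le_left (Phi_lip (k := k) (V := V)).choose_spec.1
  symm := Phi_symm
  lower := dist_sq_le_Phi
  upper N N' := (Phi_le_dist_sq N N').trans
    (mul_le_mul_of_nonneg_right (le_max_right _ _) (sq_nonneg _))
  lip N N' M := ((Phi_lip (k := k) (V := V)).choose_spec.2 N N' M).trans (by
    refine mul_le_mul_of_nonneg_right ?_ (add_nonneg dist_nonneg dist_nonneg)
    exact mul_le_mul_of_nonneg_right (le_max_left _ _) dist_nonneg)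
  mid_left N N' := (exists_isMid N N').choose_spec.Phi
  cn P N N' := (exists_isMid N N').choose_spec.cn P

theorem nmCN_mid (N N' : Nm k V) : IsMid N N' ((nmCN k V).mid N N') :=
  (exists_isMid N N').choose_spec

theorem cvx_log {v : V} (hv : v ≠ 0) : (nmCN k V).Cvx fun N => Real.log (N v) :=
  fun N N' => (nmCN_mid N N').log_le hv

theorem cvx_log_ext {j : ℕ} {x : ⋀[k]^j V} (hx : x ≠ 0) :
    (nmCN k V).Cvx fun N => Real.log (N.ext j x) :=
  fun N N' => ((nmCN_mid N N').ext j).log_le hx

end Pool.Agent.Lib.MP_5d4057_al.IN
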