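import Pool.Agent.Lib.MP_5d4057_al.IN.NmD2
import Pool.Agent.Lib.MP_5d4057_al.IN.NmC2

/-! The one step lemma and orthogonality from defect zero (part C, algebra). -/

namespace Pool.Agent.Lib.MP_5d4057_al.IN

open Module

variable {k : Type} [NontriviallyNormedField k] [IsUltrametricDist k] [ProperSpace k]
  {V : Type} [AddCommGroup V] [Module k V] [FiniteDimensional k V]

/-- The dual norm of a functional on `⋀^j V`, in an orthogonal basis: `max_s ‖ξ (b_s)‖ / N^j (b_s)`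
(`opn_eq_of_orth`). -/
theorem lop_dual_eq {N : Nm k V} {b : Basis (Fin (finrank k V)) k V} (hb : IsOrth N b) {j : ℕ}
    (ξ : (⋀[k]^j V) →ₗ[k] k) :
    lop ξ (N.ext j) (Nm.abs k) =
      Real.log (⨆ s : Set.powersetCard (Fin (finrank k V)) j,
        ‖ξ (b.exteriorPower j s)‖ / ∏ i ∈ s.1, N (b i)) := by
  unfold lop
  rw [opn_eq_of_orth ξ (Nm.abs k) (hb.ext j)]
  congr 2
  funext s
  rw [hb.ext_apply]
  rfl

/-- `0 ≤ log N^j (ω) + log N^j* (ξ)` if `ξ ω = 1`. -/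
theorem defect_nonneg (N : Nm k V) {j : ℕ} {ω : ⋀[k]^j V} {ξ : (⋀[k]^j V) →ₗ[k] k} (h : ξ ω = 1) :
    0 ≤ Real.log (N.ext j ω) + lop ξ (N.ext j) (Nm.abs k) := by
  have h0 : ξ ω ≠ 0 := by rw [h]; exact one_ne_zero
  have h1 := log_le_lop h0 (N.ext j) (Nm.abs k)
  have h2 : Nm.abs k (ξ ω) = 1 := by
    rw [h]
    exact norm_one
  rw [h2, Real.log_one] at h1
  linarith

/-- The increments of the dual norms: `log N*(ξ) - log N'*(ξ) ≤ D_j(N, N')`. -/
theorem lop_dual_sub_le {N N' : Nm k V} {j : ℕ} {ξ : (⋀[k]^j V) →ₗ[k] k} (h : ξ ≠ 0) :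
    lop ξ (N.ext j) (Nm.abs k) - lop ξ (N'.ext j) (Nm.abs k) ≤ DD j N N' := by
  have h0 : ξ ∘ₗ LinearMap.id ≠ 0 := by
    rw [LinearMap.comp_id]
    exact h
  have h1 := lop_comp_le h0 (N.ext j) (N'.ext j) (Nm.abs k)
  rw [LinearMap.comp_id] at h1
  unfold DD Dj
  rw [exteriorPower.map_id]
  linarith

/-- `log N'^j (ω) - log N^j (ω) ≤ D_j(N, N')`. -/
theorem log_ext_sub_le {N N' : Nm k V} {j : ℕ} {ω : ⋀[k]^j V} (h : ω ≠ 0) :
    Real.log (N'.ext j ω) - Real.log (N.ext j ω) ≤ DD j N N' := by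
  have h0 : exteriorPower.map j (LinearMap.id : V →ₗ[k] V) ω ≠ 0 := by
    rw [exteriorPower.map_id]
    exact h
  have h1 := log_le_lop h0 (N.ext j) (N'.ext j)
  rw [exteriorPower.map_id, LinearMap.id_apply] at h1
  unfold DD Dj
  rw [exteriorPower.map_id]
  linarith

/-- the second largest product -/
private theorem os_prod_le {n j : ℕ} (hj : j + 2 ≤ n) {r : Fin n → ℝ} (hr : Antitone r)
    (h0 : ∀ i, 0 < r i) (s : Set.powersetCard (Fin n) (j + 1)) (hs : s.1 ≠ ini n (j + 1)) :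
    ∏ i ∈ s.1, r i ≤ (∏ i ∈ ini n j, r i) * r ⟨j + 1, by omega⟩ := by
  rw [← prod_ofFin, prod_ini (by omega : j ≤ n), Fin.prod_univ_castSucc]
  have hm := (Set.powersetCard.ofFinEmbEquiv.symm s).strictMono
  refine mul_le_mul ?_ ?_ (h0 _).le (Finset.prod_nonneg fun l _ => (h0 _).le)
  · refine Finset.prod_le_prod (fun l _ => (h0 _).le) fun l _ => hr ?_
    rw [Fin.le_def]
    exact le_strictMono hm l.val (by omega)
  · refine hr ?_
    rw [Fin.le_def]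
    by_contra hlt
    push Not at hlt
    apply hs
    refine Finset.eq_of_subset_of_card_le ?_ ?_
    · intro i hi
      have hi' : i ∈ Finset.univ.map (Set.powersetCard.ofFinEmbEquiv.symm s).toEmbedding := by
        have h1 := Finset.map_orderEmbOfFin_univ s.1 s.2
        rw [← h1] at hi
        exact hi
      obtain ⟨l, -, rfl⟩ := Finset.mem_map.1 hi'
      rw [mem_ini]
      have h2 : (Set.powersetCard.ofFinEmbEquiv.symm s) l ≤
          (Set.powersetCard.ofFinEmbEquiv.symm s) (Fin.last j) := hm.monotone (Fin.le_last l)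
      have h3 := Fin.le_def.1 h2
      exact lt_of_le_of_lt h3 hlt
    · rw [card_ini (by omega : j + 1 ≤ n)]
      exact s.2.symm.le

/-- **The one step lemma.** Proof. `m = j + 1`; `b` a common orthogonal basis of `N, N'` with
`i ↦ N'(b_i)/N(b_i)` decreasing (`exists_orth2`), `s₀ = {0, .., j}` (`ini`), `D_m := DD m N N'` = the sum of the
first `m` logarithms (`DD_sorted`). For `s ≠ s₀` the ratio `N'^m(b_s)/N^m(b_s)` is at most
`exp(D_(m-1) + D_(m+1) - D_m)`. `a - c ≤ D_m ≤ a` (`log_ext_sub_le`, `hu`), so this exponent is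
`≤ am + ap - a + c < a - 5c`. Expand `ω = ∑ ω_s b_s`: `‖ω_s‖ N'^m(b_s) ≤ e^(a-5c) N^m(ω) < N'^m(ω)` for `s ≠ s₀`,
so `N'^m(ω) = ‖ω_(s₀)‖ N'^m(b_(s₀)) = ‖ω_(s₀)‖ e^(D_m) N^m(b_(s₀))` and
`‖ω_(s₀)‖ N^m(b_(s₀)) ≥ e^(-c) N^m(ω)`. Dually with `ξ_s = ξ (b_s)`: for `s ≠ s₀`,
`‖ξ_s‖/N^m(b_s) ≤ e^(a-5c) N'*(ξ) < N*(ξ)`, so `N*(ξ) = ‖ξ_(s₀)‖ / N^m(b_(s₀))`. For `s ≠ s₀`:
`‖ξ_s ω_s‖ = (‖ω_s‖ N'^m(b_s)) (‖ξ_s‖/N'^m(b_s)) ≤ e^(a-5c) N^m(ω) N'*(ξ) ≤ e^(-4c) N^m(ω) N*(ξ)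
≤ e^(-3c) ‖ω_(s₀) ξ_(s₀)‖`; if `c > 0` this is smaller than `‖ω_(s₀) ξ_(s₀)‖` and `1 = ∑ ξ_s ω_s` has norm
`‖ξ_(s₀) ω_(s₀)‖`; if `c = 0` use the strict inequality of `hgap` instead. So
`N^m(ω) N*(ξ) ≤ e^c ‖ω_(s₀)‖ ‖ξ_(s₀)‖ = e^c`. -/
theorem one_step {N N' : Nm k V} {j : ℕ} (hj : j + 2 ≤ finrank k V) {am a ap c : ℝ} (hc : 0 ≤ c)
    (h1 : DD j N N' ≤ am) (h2 : DD (j + 1) N N' ≤ a) (h3 : DD (j + 2) N N' ≤ ap)
    (hgap : am + ap + 6 * c < 2 * a) {ω : ⋀[k]^(j + 1) V} {ξ : (⋀[k]^(j + 1) V) →ₗ[k] k}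
    (hωξ : ξ ω = 1)
    (hu : a - c ≤ Real.log (N'.ext (j + 1) ω) - Real.log (N.ext (j + 1) ω))
    (hu' : a - c ≤ lop ξ (N.ext (j + 1)) (Nm.abs k) - lop ξ (N'.ext (j + 1)) (Nm.abs k)) :
    Real.log (N.ext (j + 1) ω) + lop ξ (N.ext (j + 1)) (Nm.abs k) ≤ c := by
  classical
  obtain ⟨b, hb, hb', hs⟩ := exists_orth2 N N'
  have hω0 : ω ≠ 0 := by
    intro h0
    rw [h0, map_zero] at hωξ
    exact zero_ne_one hωξ
  have hξ0 : ξ ≠ 0 := by
    intro h0
    rw [h0, LinearMap.zero_apply] at hωξ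
    exact zero_ne_one hωξ
  obtain ⟨K, hK⟩ : ∃ K, K = Real.exp (DD j N N' + DD (j + 2) N N' - DD (j + 1) N N') := ⟨_, rfl⟩
  have hK0 : 0 < K := by rw [hK]; exact Real.exp_pos _
  have hac : a - c ≤ DD (j + 1) N N' := hu.trans (log_ext_sub_le hω0)
  have hKa : K < Real.exp (a - 5 * c) := by
    rw [hK]
    exact Real.exp_lt_exp.2 (by linarith)
  -- the norms
  obtain ⟨W, hW⟩ : ∃ W, W = N.ext (j + 1) ω := ⟨_, rfl⟩
  obtain ⟨W', hW'⟩ : ∃ W', W' = N'.ext (j + 1) ω := ⟨_, rfl⟩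
  obtain ⟨Y, hY⟩ : ∃ Y, Y = opn ξ (N.ext (j + 1)) (Nm.abs k) := ⟨_, rfl⟩
  obtain ⟨Y', hY'⟩ : ∃ Y', Y' = opn ξ (N'.ext (j + 1)) (Nm.abs k) := ⟨_, rfl⟩
  have hW0 : 0 < W := by rw [hW]; exact (N.ext (j + 1)).pos hω0
  have hW'0 : 0 < W' := by rw [hW']; exact (N'.ext (j + 1)).pos hω0
  have hY0 : 0 < Y := by rw [hY]; exact opn_pos hξ0 _ _
  have hY'0 : 0 < Y' := by rw [hY']; exact opn_pos hξ0 _ _
  have hu1 : Real.exp (a - c) * W ≤ W' := by
    rw [← hW, ← hW'] at hu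
    rw [← Real.exp_log hW'0, ← Real.exp_log hW0, ← Real.exp_add]
    exact Real.exp_le_exp.2 (by linarith)
  have hu2 : Real.exp (a - c) * Y' ≤ Y := by
    unfold lop at hu'
    rw [← hY, ← hY'] at hu'
    rw [← Real.exp_log hY'0, ← Real.exp_log hY0, ← Real.exp_add]
    exact Real.exp_le_exp.2 (by linarith)
  -- the basis
  obtain ⟨B, hB⟩ : ∃ B, B = b.exteriorPower (j + 1) := ⟨_, rfl⟩
  obtain ⟨s₀, hs₀⟩ : ∃ s₀ : Set.powersetCard (Fin (finrank k V)) (j + 1),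
    s₀.1 = ini (finrank k V) (j + 1) := ⟨⟨ini (finrank k V) (j + 1), card_ini (by omega)⟩, rfl⟩
  have hBo : IsOrth (N.ext (j + 1)) B := by rw [hB]; exact hb.ext _
  have hBo' : IsOrth (N'.ext (j + 1)) B := by rw [hB]; exact hb'.ext _
  have hpos : ∀ i, 0 < N' (b i) / N (b i) := fun i =>
    div_pos (N'.pos (b.ne_zero i)) (N.pos (b.ne_zero i))
  have hrat : ∀ s, N'.ext (j + 1) (B s) =
      N.ext (j + 1) (B s) * ∏ i ∈ s.1, N' (b i) / N (b i) := by
    intro s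
    rw [hB, hb.ext_apply, hb'.ext_apply, Finset.prod_div_distrib, mul_div_cancel₀]
    exact (Finset.prod_pos fun i _ => N.pos (b.ne_zero i)).ne'
  have hNB : ∀ s, 0 < N.ext (j + 1) (B s) := fun s => (N.ext (j + 1)).pos (B.ne_zero s)
  have hNB' : ∀ s, 0 < N'.ext (j + 1) (B s) := fun s => (N'.ext (j + 1)).pos (B.ne_zero s)
  have hexp : ∀ {l : ℕ}, l ≤ finrank k V →
      ∏ i ∈ ini (finrank k V) l, N' (b i) / N (b i) = Real.exp (DD l N N') := by
    intro l hl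
    rw [DD_sorted hb hb' hs hl, Real.exp_sum]
    exact Finset.prod_congr rfl fun i _ => (Real.exp_log (hpos i)).symm
  have hρ0 : ∏ i ∈ s₀.1, N' (b i) / N (b i) ≤ Real.exp a := by
    rw [hs₀, hexp (by omega)]
    exact Real.exp_le_exp.2 h2
  have hρ : ∀ s, s ≠ s₀ → ∏ i ∈ s.1, N' (b i) / N (b i) ≤ K := by
    intro s hss
    have h4 : s.1 ≠ ini (finrank k V) (j + 1) := fun h5 => hss (Subtype.ext (by rw [h5, hs₀]))
    refine (os_prod_le hj hs hpos s h4).trans (le_of_eq ?_)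
    have h5 := hexp (by omega : j + 2 ≤ finrank k V)
    rw [ini_succ (by omega : j + 1 < finrank k V), Finset.prod_insert (by
      rw [mem_ini]
      exact lt_irrefl _), hexp (by omega : j + 1 ≤ finrank k V)] at h5
    rw [hexp (by omega : j ≤ finrank k V), hK, Real.exp_sub, Real.exp_add, ← h5]
    have h6 := (Real.exp_pos (DD (j + 1) N N')).ne'
    field_simp
  -- the coordinates of `ω`
  have hωs : ∀ s, s ≠ s₀ → ‖B.repr ω s‖ * N'.ext (j + 1) (B s) ≤ K * W := by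
    intro s hss
    have h4 := hBo ω s
    rw [← hW] at h4
    calc ‖B.repr ω s‖ * N'.ext (j + 1) (B s) =
        (∏ i ∈ s.1, N' (b i) / N (b i)) * (‖B.repr ω s‖ * N.ext (j + 1) (B s)) := by
          rw [hrat]; ring
      _ ≤ K * W := mul_le_mul (hρ s hss) h4
          (mul_nonneg (norm_nonneg _) (hNB s).le) hK0.le
  have hKW : K * W < W' := by
    refine lt_of_lt_of_le (mul_lt_mul_of_pos_right hKa hW0) (le_trans ?_ hu1)
    exact mul_le_mul_of_nonneg_right (Real.exp_le_exp.2 (by linarith)) hW0.le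
  have hωs₀ : W' ≤ ‖B.repr ω s₀‖ * N'.ext (j + 1) (B s₀) := by
    by_contra hlt
    push Not at hlt
    obtain ⟨t, ht⟩ : ∃ t, t = max (K * W) (‖B.repr ω s₀‖ * N'.ext (j + 1) (B s₀)) := ⟨_, rfl⟩
    have ht0 : 0 ≤ t := by
      rw [ht]
      exact le_max_of_le_left (mul_nonneg hK0.le hW0.le)
    have h4 : W' ≤ t := by
      rw [hW', ← B.sum_repr ω]
      refine (N'.ext (j + 1)).sum_le _ _ ht0 fun s _ => ?_
      rw [(N'.ext (j + 1)).smul, ht]
      by_cases hss : s = s₀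
      · rw [hss]
        exact le_max_right _ _
      · exact le_max_of_le_left (hωs s hss)
    rw [ht] at h4
    exact absurd h4 (not_le.2 (max_lt hKW hlt))
  have hω1 : W ≤ Real.exp c * (‖B.repr ω s₀‖ * N.ext (j + 1) (B s₀)) := by
    have h4 : Real.exp (a - c) * W ≤
        Real.exp a * (‖B.repr ω s₀‖ * N.ext (j + 1) (B s₀)) := by
      refine hu1.trans (hωs₀.trans ?_)
      rw [hrat, ← mul_assoc, mul_comm (‖B.repr ω s₀‖ * N.ext (j + 1) (B s₀))]
      exact mul_le_mul_of_nonneg_right hρ0 (mul_nonneg (norm_nonneg _) (hNB s₀).le)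
    have h5 : Real.exp a = Real.exp (a - c) * Real.exp c := by
      rw [← Real.exp_add]
      congr 1
      ring
    rw [h5, mul_assoc] at h4
    exact le_of_mul_le_mul_left h4 (Real.exp_pos _)
  -- the coordinates of `ξ`
  have hξs' : ∀ s, ‖ξ (B s)‖ ≤ Y' * N'.ext (j + 1) (B s) := fun s => by
    rw [hY']
    exact le_opn ξ (N'.ext (j + 1)) (Nm.abs k) (B s)
  have hξs : ∀ s, s ≠ s₀ → ‖ξ (B s)‖ ≤ K * Y' * N.ext (j + 1) (B s) := by
    intro s hss
    refine (hξs' s).trans ?_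
    rw [hrat, mul_comm K, mul_assoc Y', mul_comm K]
    refine mul_le_mul_of_nonneg_left ?_ hY'0.le
    exact mul_le_mul_of_nonneg_left (hρ s hss) (hNB s).le
  have hKY : K * Y' < Y := by
    refine lt_of_lt_of_le (mul_lt_mul_of_pos_right hKa hY'0) (le_trans ?_ hu2)
    exact mul_le_mul_of_nonneg_right (Real.exp_le_exp.2 (by linarith)) hY'0.le
  have hξs₀ : Y * N.ext (j + 1) (B s₀) ≤ ‖ξ (B s₀)‖ := by
    by_contra hlt
    push Not at hlt
    rw [← div_lt_iff₀ (hNB s₀)] at hlt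
    obtain ⟨t, ht⟩ : ∃ t, t = max (K * Y') (‖ξ (B s₀)‖ / N.ext (j + 1) (B s₀)) := ⟨_, rfl⟩
    have ht0 : 0 ≤ t := by
      rw [ht]
      exact le_max_of_le_left (mul_nonneg hK0.le hY'0.le)
    have h4 : Y ≤ t := by
      rw [hY]
      refine opn_le_of_orth hBo ht0 fun s => ?_
      show ‖ξ (B s)‖ ≤ _
      rw [ht]
      by_cases hss : s = s₀
      · rw [hss, ← div_le_iff₀ (hNB s₀)]
        exact le_max_right _ _
      · exact (hξs s hss).trans (mul_le_mul_of_nonneg_right (le_max_left _ _) (hNB s).le)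
    rw [ht] at h4
    exact absurd h4 (not_le.2 (max_lt hKY hlt))
  -- the value of `ξ` at `ω`
  obtain ⟨t, ht⟩ : ∃ t, t = ‖B.repr ω s₀‖ * ‖ξ (B s₀)‖ := ⟨_, rfl⟩
  have ht1 : W * Y ≤ Real.exp c * t := by
    rw [ht]
    calc W * Y ≤ Real.exp c * (‖B.repr ω s₀‖ * N.ext (j + 1) (B s₀)) * Y :=
          mul_le_mul_of_nonneg_right hω1 hY0.le
      _ = Real.exp c * (‖B.repr ω s₀‖ * (Y * N.ext (j + 1) (B s₀))) := by ring
      _ ≤ Real.exp c * (‖B.repr ω s₀‖ * ‖ξ (B s₀)‖) :=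
          mul_le_mul_of_nonneg_left (mul_le_mul_of_nonneg_left hξs₀ (norm_nonneg _))
            (Real.exp_pos c).le
  obtain ⟨r, hr⟩ : ∃ r, r = K * Y' * W := ⟨_, rfl⟩
  have hr0 : 0 ≤ r := by rw [hr]; exact mul_nonneg (mul_nonneg hK0.le hY'0.le) hW0.le
  have hrt : r < t := by
    have h4 : K * Y' < Real.exp (-(4 * c)) * Y := by
      have h5 : Real.exp (-(4 * c)) * Y ≥ Real.exp (-(4 * c)) * (Real.exp (a - c) * Y') :=
        mul_le_mul_of_nonneg_left hu2 (Real.exp_pos _).le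
      have h6 : Real.exp (-(4 * c)) * (Real.exp (a - c) * Y') = Real.exp (a - 5 * c) * Y' := by
        rw [← mul_assoc, ← Real.exp_add]
        congr 2
        ring
      rw [h6] at h5
      exact lt_of_lt_of_le (mul_lt_mul_of_pos_right hKa hY'0) h5
    have h7 : r < Real.exp (-(4 * c)) * (W * Y) := by
      rw [hr]
      calc K * Y' * W < Real.exp (-(4 * c)) * Y * W := mul_lt_mul_of_pos_right h4 hW0
        _ = _ := by ring
    have ht0 : 0 ≤ t := by rw [ht]; positivity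
    have h8 : Real.exp (-(4 * c)) * (W * Y) ≤ t := by
      calc Real.exp (-(4 * c)) * (W * Y) ≤ Real.exp (-(4 * c)) * (Real.exp c * t) :=
            mul_le_mul_of_nonneg_left ht1 (Real.exp_pos _).le
        _ = Real.exp (-(3 * c)) * t := by
            rw [← mul_assoc, ← Real.exp_add]
            congr 2
            ring
        _ ≤ 1 * t := mul_le_mul_of_nonneg_right (Real.exp_le_one_iff.2 (by linarith)) ht0
        _ = t := one_mul t
    exact lt_of_lt_of_le h7 h8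
  have hterm : ∀ s, s ≠ s₀ → ‖B.repr ω s * ξ (B s)‖ ≤ r := by
    intro s hss
    rw [norm_mul, hr]
    calc ‖B.repr ω s‖ * ‖ξ (B s)‖ ≤ ‖B.repr ω s‖ * (Y' * N'.ext (j + 1) (B s)) :=
          mul_le_mul_of_nonneg_left (hξs' s) (norm_nonneg _)
      _ = Y' * (‖B.repr ω s‖ * N'.ext (j + 1) (B s)) := by ring
      _ ≤ Y' * (K * W) := mul_le_mul_of_nonneg_left (hωs s hss) hY'0.le
      _ = K * Y' * W := by ring
  have hsum : 1 = B.repr ω s₀ * ξ (B s₀) + ∑ s ∈ Finset.univ.erase s₀, B.repr ω s * ξ (B s) := by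
    rw [Finset.add_sum_erase _ (fun s => B.repr ω s * ξ (B s)) (Finset.mem_univ s₀), ← hωξ]
    conv_lhs => rw [← B.sum_repr ω]
    rw [map_sum]
    exact Finset.sum_congr rfl fun s _ => by rw [map_smul, smul_eq_mul]
  have ht2 : t ≤ 1 := by
    have h4 : Nm.abs k (∑ s ∈ Finset.univ.erase s₀, B.repr ω s * ξ (B s)) ≤ r :=
      (Nm.abs k).sum_le _ _ hr0 fun s hs' => hterm s (Finset.ne_of_mem_erase hs')
    have h5 := (Nm.abs k).sub_le 1 (∑ s ∈ Finset.univ.erase s₀, B.repr ω s * ξ (B s))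
    have h6 : (1 : k) - ∑ s ∈ Finset.univ.erase s₀, B.repr ω s * ξ (B s) =
        B.repr ω s₀ * ξ (B s₀) := sub_eq_of_eq_add hsum
    have h7 : Nm.abs k (B.repr ω s₀ * ξ (B s₀)) = t := by
      rw [ht]
      exact norm_mul _ _
    have h8 : Nm.abs k (1 : k) = 1 := norm_one
    rw [h6, h7, h8] at h5
    rcases le_max_iff.1 h5 with h9 | h9
    · exact h9
    · exact absurd (h9.trans h4) (not_le.2 hrt)
  have hfin : W * Y ≤ Real.exp c := by
    refine ht1.trans ?_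
    calc Real.exp c * t ≤ Real.exp c * 1 := mul_le_mul_of_nonneg_left ht2 (Real.exp_pos c).le
      _ = Real.exp c := mul_one _
  unfold lop
  rw [← hW, ← hY, ← Real.log_mul hW0.ne' hY0.ne', ← Real.log_exp c]
  exact Real.log_le_log (mul_pos hW0 hY0) hfin

/-- The projection to the span of the `b i`, `i ∈ s`, along the span of the others. -/
noncomputable def prj {m : ℕ} (b : Basis (Fin m) k V) (s : Finset (Fin m)) : V →ₗ[k] V :=
  b.constr k fun i => if i ∈ s then b i else 0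

end Pool.Agent.Lib.MP_5d4057_al.IN
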