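import Mathlib

/-! Part B of INT: the compactness lemma (SEQ). -/

namespace Pool.Agent.Lib.MP_5d4057_al.IN

open Filter Topology

/-- Pointwise bounded, asymptotically equicontinuous sequences of maps into a proper metric space
have locally uniformly convergent subsequences. -/
theorem exists_seq {X Y : Type} [TopologicalSpace X] [SecondCountableTopology X] [MetricSpace Y]
    [ProperSpace Y] (f : ℕ → X → Y) (y₀ : Y) (hb : ∀ x, ∃ C : ℝ, ∀ k, dist y₀ (f k x) ≤ C)
    (he : ∀ x, ∀ ε > 0, ∃ U ∈ 𝓝 x, ∃ k₀, ∀ k, k₀ ≤ k → ∀ y ∈ U, dist (f k x) (f k y) ≤ ε) :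
    ∃ (φ : ℕ → ℕ) (F : X → Y), StrictMono φ ∧ Continuous F ∧
      TendstoLocallyUniformly (fun j => f (φ j)) F atTop := by
  obtain ⟨D, hDc, hDd⟩ := TopologicalSpace.exists_countable_dense X
  have hD : Countable D := hDc.to_subtype
  choose C hC using hb
  have hK : IsCompact (Set.pi Set.univ fun d : D => Metric.closedBall y₀ (C d)) :=
    isCompact_univ_pi fun d => isCompact_closedBall _ _
  obtain ⟨a, -, φ, hφ, ha⟩ := hK.tendsto_subseq (x := fun k (d : D) => f k d) (fun k => by
    rw [Set.mem_univ_pi]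
    intro d
    rw [Metric.mem_closedBall, dist_comm]
    exact hC d k)
  have ha' : ∀ d : D, Tendsto (fun j => f (φ j) d) atTop (𝓝 (a d)) := fun d =>
    (tendsto_pi_nhds.1 ha) d
  have hcau : ∀ x, ∃ y, Tendsto (fun j => f (φ j) x) atTop (𝓝 y) := by
    intro x
    apply cauchySeq_tendsto_of_complete
    rw [Metric.cauchySeq_iff']
    intro ε hε
    obtain ⟨U, hU, k₀, hk⟩ := he x (ε / 4) (by positivity)
    obtain ⟨d, hdU, hdD⟩ := hDd.inter_nhds_nonempty hU
    obtain ⟨N, hN⟩ := Metric.cauchySeq_iff.1 (ha' ⟨d, hdU⟩).cauchySeq (ε / 4) (by positivity)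
    refine ⟨max N k₀, fun n hn => ?_⟩
    have h1 := hk (φ n) ((le_max_right _ _).trans (hn.trans (hφ.id_le n))) d hdD
    have h2 := hk (φ (max N k₀)) ((le_max_right _ _).trans (hφ.id_le _)) d hdD
    have h3 := hN n ((le_max_left _ _).trans hn) (max N k₀) (le_max_left _ _)
    have h4 : dist (f (φ n) x) (f (φ (max N k₀)) x) ≤ dist (f (φ n) x) (f (φ n) d) +
        (dist (f (φ n) d) (f (φ (max N k₀)) d) +
          dist (f (φ (max N k₀)) d) (f (φ (max N k₀)) x)) :=
      (dist_triangle _ _ _).trans (add_le_add_right (dist_triangle _ _ _) _)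
    rw [dist_comm (f (φ (max N k₀)) d)] at h4
    simp only at h3
    linarith
  choose F hF using hcau
  have hlim : ∀ x y : X, ∀ ε : ℝ, ∀ k₀ : ℕ, (∀ k, k₀ ≤ k → dist (f k x) (f k y) ≤ ε) →
      dist (F x) (F y) ≤ ε := by
    intro x y ε k₀ h
    refine le_of_tendsto ((hF x).dist (hF y)) ?_
    filter_upwards [eventually_ge_atTop k₀] with j hj
    exact h _ (hj.trans (hφ.id_le j))
  refine ⟨φ, F, hφ, ?_, ?_⟩
  · rw [continuous_iff_continuousAt]
    intro x
    rw [ContinuousAt, Metric.tendsto_nhds]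
    intro ε hε
    obtain ⟨U, hU, k₀, hk⟩ := he x (ε / 2) (by positivity)
    filter_upwards [hU] with y hy
    have := hlim x y (ε / 2) k₀ fun k hk' => hk k hk' y hy
    rw [dist_comm]
    linarith
  · rw [Metric.tendstoLocallyUniformly_iff]
    intro ε hε x
    obtain ⟨U, hU, k₀, hk⟩ := he x (ε / 4) (by positivity)
    refine ⟨U, hU, ?_⟩
    have h1 := (Metric.tendsto_nhds.1 (hF x)) (ε / 4) (by positivity)
    filter_upwards [h1, eventually_ge_atTop k₀] with j hj hj' y hy
    have h2 := hlim x y (ε / 4) k₀ fun k hk' => hk k hk' y hy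
    have h3 := hk (φ j) (hj'.trans (hφ.id_le j)) y hy
    have h4 : dist (F y) (f (φ j) y) ≤ dist (F y) (F x) + (dist (F x) (f (φ j) x) +
        dist (f (φ j) x) (f (φ j) y)) :=
      (dist_triangle _ _ _).trans (add_le_add_right (dist_triangle _ _ _) _)
    rw [dist_comm (F y) (F x), dist_comm (F x) (f (φ j) x)] at h4
    linarith

end Pool.Agent.Lib.MP_5d4057_al.IN
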