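import Pool.Agent.Lib.MP_5d4057_al.IN.CorF
import Pool.Agent.Lib.MP_5d4057_al.IN.SeqL

/-! Part B of INT for all lattices (base map `F`, structure `Cor`): pairs at level `s` (B5). `F` is the base map (`BaseF`). -/

namespace Pool.Agent.Lib.MP_5d4057_al.IN

open MeasureTheory Filter Topology Pool.Agent.Lib.MP_5d4057_al
open Pool.Agent.Lib.MP_5d4057_al.Hyb Pool.Agent.Lib.MP_5d4057_al.HM
open Pool.Agent.Lib.MP_5d4057_al.NU

open scoped ENNReal

variable {n : ℕ} {Γ : Subgroup (SUGroup n)} {χ : SUGroup n → ℝ} {Y : Type} [MetricSpace Y]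
variable {Φ : Y → Y → ℝ} {κ : ℝ} {lv : Y → ℝ} {y₀ : Y} {ρ : Γ →* Equiv.Perm Y}
variable {F : SUGroup n → Y} {L : ℝ} {S : Set (SUGroup n)} {s₀ : ℕ} {B : ℝ}

/-- A pair at level `s`: `f' = bar_s f`, `f = bar_s f'`, at bounded distance of `F`. -/
structure PairF (ρ : Γ →* Equiv.Perm Y) (Φ : Y → Y → ℝ) (lv : Y → ℝ) (F : SUGroup n → Y)
    (χ : SUGroup n → ℝ) (c : ℝ) (s : ℕ) (f f' : SUGroup n → Y) : Prop where
  e1 : Eqv ρ f
  e2 : Eqv ρ f'
  l1 : ∀ g, lv (f g) = 0
  l2 : ∀ g, lv (f' g) = 0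
  w1 : ∃ C : ℝ, ∀ g, dist (f g) (F g) ≤ C
  w2 : ∃ C : ℝ, ∀ g, dist (f' g) (F g) ≤ C
  b1 : Bs Φ s f f'
  b2 : Bs Φ s f' f
  en : LJ χ Φ s f' f ≤ ENNReal.ofReal (c / s)

theorem PairF.symm (hχ : Lat Γ χ) (D : Dat ρ Φ κ lv y₀) {c : ℝ} {s : ℕ} {f f' : SUGroup n → Y}
    (h : PairF ρ Φ lv F χ c s f f') : PairF ρ Φ lv F χ c s f' f where
  e1 := h.e2
  e2 := h.e1
  l1 := h.l2
  l2 := h.l1
  w1 := h.w2
  w2 := h.w1
  b1 := h.b2
  b2 := h.b1
  en := by rw [LJ_symm hχ D.tgt D.act h.e1 h.e2]; exact h.en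

/-! ### Auxiliary lemmas -/

private theorem pf_wtp (x : SUGroup n) : 0 < wt x := lt_of_lt_of_le one_pos (one_le_wt x)

private theorem pf_log (x : SUGroup n) : 0 ≤ Real.log (wt x) := Real.log_nonneg (one_le_wt x)

private theorem pf_log_mul (x y : SUGroup n) :
    Real.log (wt (x * y)) ≤ Real.log (wt x) + Real.log (wt y) := by
  rw [← Real.log_mul (pf_wtp x).ne' (pf_wtp y).ne']
  exact Real.log_le_log (pf_wtp _) (wt_mul_le x y)

private theorem pf_tlu_at {X Z : Type} [TopologicalSpace X] [MetricSpace Z] {F : ℕ → X → Z}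
    {G : X → Z} (h : TendstoLocallyUniformly F G atTop) (x : X) :
    Tendsto (fun j => F j x) atTop (𝓝 (G x)) := by
  rw [Metric.tendsto_nhds]
  intro ε hε
  obtain ⟨t, ht, h1⟩ := Metric.tendstoLocallyUniformly_iff.1 h ε hε x
  filter_upwards [h1] with j hj
  rw [dist_comm]
  exact hj x (mem_of_mem_nhds ht)

private theorem pf_lip_to {L : ℝ} {f : SUGroup n → Y} (h : LipD L f) (x y : SUGroup n) :
    dist (f x) (f y) ≤ L * Real.log (wt (x⁻¹ * y)) := by
  have := h x (x⁻¹ * y)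
  rwa [mul_inv_cancel_left] at this

private theorem pf_lip_mono {L L' : ℝ} {f : SUGroup n → Y} (h : LipD L f) (hL : L ≤ L') :
    LipD L' f := fun g x => (h g x).trans (mul_le_mul_of_nonneg_right hL (pf_log x))

private theorem pf_lip_equi (L : ℝ) (x : SUGroup n) (ε : ℝ) (hε : 0 < ε) :
    ∃ U ∈ 𝓝 x, ∀ y ∈ U, L * Real.log (wt (x⁻¹ * y)) ≤ ε := by
  have hc : Continuous fun y : SUGroup n => L * Real.log (wt (x⁻¹ * y)) :=
    continuous_const.mul ((continuous_wt.comp (continuous_const.mul continuous_id)).log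
      fun y => (pf_wtp _).ne')
  have h0 : L * Real.log (wt (x⁻¹ * x)) < ε := by
    rw [inv_mul_cancel, wt_one, Real.log_one, mul_zero]
    exact hε
  have h1 := hc.continuousAt.eventually (gt_mem_nhds h0)
  exact ⟨_, h1, fun y hy => le_of_lt hy⟩

/-- a limit of solutions of the equation of the barycentres -/
private theorem pf_bs_lim (T : Tgt Φ κ) {s : ℕ} (hs : n + 2 < s) {L : ℝ}
    {u v : ℕ → SUGroup n → Y} {u' v' : SUGroup n → Y} (hu : ∀ j, Continuous (u j))
    (hL : ∀ j, LipD L (u j)) (tu : ∀ g, Tendsto (fun j => u j g) atTop (𝓝 (u' g)))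
    (tv : ∀ g, Tendsto (fun j => v j g) atTop (𝓝 (v' g))) (hb : ∀ j, Bs Φ s (u j) (v j)) :
    Bs Φ s u' v' := by
  intro g y
  have hcont : Continuous fun p : Y × Y => Φ p.1 p.2 := T.continuous
  have hk0 : 0 ≤ κ := zero_le_one.trans T.one_le
  have key : ∀ (a : ℕ → Y) (a' : Y), Tendsto a atTop (𝓝 a') →
      Tendsto (fun j => ∫ x, Φ (a j) (u j (g * x)) ∂(kapM n s)) atTop
        (𝓝 (∫ x, Φ a' (u' (g * x)) ∂(kapM n s))) := by
    intro a a' ha
    obtain ⟨R, hR⟩ : ∃ R : ℝ, ∀ j, dist (a j) (u j g) ≤ R := by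
      obtain ⟨R, hR⟩ := (ha.dist (tu g)).bddAbove_range
      exact ⟨R, fun j => hR ⟨j, rfl⟩⟩
    have hR0 : 0 ≤ R := dist_nonneg.trans (hR 0)
    set b : SUGroup n → ℝ := fun x => R + L * Real.log (wt x) with hbdef
    have hbc : Continuous b :=
      continuous_const.add (continuous_const.mul (continuous_wt.log fun y => (pf_wtp _).ne'))
    have hbL : Lg (R + |L|) (0 : ℝ) b := by
      intro x
      have hl := Real.log_nonneg (one_le_wt x)
      rw [Real.dist_eq, zero_sub, abs_neg, hbdef]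
      have h1 : |R + L * Real.log (wt x)| ≤ R + |L| * Real.log (wt x) := by
        refine (abs_add_le _ _).trans ?_
        rw [abs_mul, abs_of_nonneg hR0, abs_of_nonneg hl]
      refine h1.trans ?_
      have h2 : 0 ≤ R * Real.log (wt x) := mul_nonneg hR0 hl
      have h3 : 0 ≤ |L| := abs_nonneg _
      nlinarith
    have hbi : Integrable (fun x => κ * (b x) ^ 2) (kapM n s) := by
      have h1 := (hbL.sqI hbc hs 1).int 0
      simp only [one_mul, Real.dist_eq, zero_sub, abs_neg, sq_abs] at h1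
      exact h1.const_mul κ
    refine tendsto_integral_of_dominated_convergence (fun x => κ * (b x) ^ 2) ?_ hbi ?_ ?_
    · intro j
      have h1 : Continuous fun x : SUGroup n => Φ (a j) (u j (g * x)) :=
        hcont.comp (continuous_const.prodMk ((hu j).comp (continuous_const.mul continuous_id)))
      exact h1.aestronglyMeasurable
    · intro j
      refine Filter.Eventually.of_forall fun x => ?_
      rw [Real.norm_of_nonneg (T.nonneg _ _)]
      refine (T.le _ _).trans (mul_le_mul_of_nonneg_left ?_ hk0)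
      refine pow_le_pow_left₀ dist_nonneg ?_ 2
      refine (dist_triangle _ (u j g) _).trans ?_
      exact add_le_add (hR j) (hL j g x)
    · refine Filter.Eventually.of_forall fun x => ?_
      exact (hcont.tendsto (a', u' (g * x))).comp (ha.prodMk_nhds (tu (g * x)))
  have t1 := key (fun j => v j g) (v' g) (tv g)
  have t2 := key (fun _ => y) y tendsto_const_nhds
  have t3 : Tendsto (fun j => Φ y (v j g)) atTop (𝓝 (Φ y (v' g))) :=
    (hcont.tendsto (y, v' g)).comp (tendsto_const_nhds.prodMk_nhds (tv g))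
  exact le_of_tendsto_of_tendsto' (t1.add t3) t2 fun j => hb j g y

private theorem pf_Sp_nonneg (T : Tgt Φ κ) {s : ℕ} {f f' : SUGroup n → Y} (g : SUGroup n) :
    0 ≤ Sp Φ s f f' g := integral_nonneg fun _ => T.nonneg _ _

private theorem pf_integrable {s : ℕ} {u : SUGroup n → ℝ} (h : Integrable u (kapM n s)) :
    Integrable (fun x => kap s x * u x) (mu n) := by
  have hm : Measurable fun x : SUGroup n => ENNReal.ofReal (kap s x) :=
    (continuous_kap s).measurable.ennreal_ofReal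
  have h1 := (integrable_withDensity_iff hm (Eventually.of_forall fun x => ENNReal.ofReal_lt_top)).1 h
  refine h1.congr (Eventually.of_forall fun x => ?_)
  show u x * (ENNReal.ofReal (kap s x)).toReal = kap s x * u x
  rw [ENNReal.toReal_ofReal (kap_nonneg s x), mul_comm]

private theorem pf_int_dist {s : ℕ} (hs : n + 2 < s) {C : ℝ} {f : SUGroup n → Y}
    (hf : Continuous f) (hg : Lg C y₀ f) (g : SUGroup n) (y : Y) :
    Integrable (fun x => kap s x * dist y (f (g * x))) (mu n) := by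
  have := isProb_kapM (n := n) (s := s) (by omega)
  exact pf_integrable ((Lg.sqI hf hg hs g).dist y)

/-- bounded continuous functions are integrable -/
private theorem pf_int_bdd {s : ℕ} (hs : n < s) {u : SUGroup n → ℝ} (hu : Continuous u) {C : ℝ}
    (h0 : ∀ g, 0 ≤ u g) (hC : ∀ g, u g ≤ C) (g : SUGroup n) :
    Integrable (fun x => kap s x * u (g * x)) (mu n) := by
  refine ((integrable_kap hs).mul_const C).mono'
    ((continuous_kap s).mul (hu.comp (continuous_const.mul continuous_id))).aestronglyMeasurable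
    (Eventually.of_forall fun x => ?_)
  rw [Real.norm_of_nonneg (mul_nonneg (kap_nonneg s x) (h0 _))]
  exact mul_le_mul_of_nonneg_left (hC _) (kap_nonneg s x)

/-- The distance to the base map along `bar_s`. PROOF: `Bs.jen` for `dist (F g)` (`Jen2.left`, `D.dj`)
and `dist (F g) (f (g x)) ≤ dist (f (g x)) (F (g x)) + dist (F g) (F (g x))`. -/
theorem BaseF.step (hF : BaseF ρ lv χ F L S s₀ B) (D : Dat ρ Φ κ lv y₀) {s : ℕ} (hs : n + 2 < s)
    {f f' : SUGroup n → Y} (hf : Continuous f) {C : ℝ} (hC : ∀ g, dist (f g) (F g) ≤ C)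
    (hb : Bs Φ s f f') (g : SUGroup n) : dist (f' g) (F g) ≤
      Boot.Q s (fun x => dist (f x) (F x)) g + ∫ x, kap s x * dist (F g) (F (g * x)) ∂(mu n) := by
  have hFc := hF.eqv.cont
  have hlgF := hF.lip.lg hF.L0 y₀
  have hlg := hF.lg y₀ hC
  have h1 := Bs.jen hf hlg hs hb (D.dj.left D.tgt (F g)) g
  rw [dist_comm]
  refine h1.trans ?_
  have i1 : Integrable (fun x => kap s x * dist (f (g * x)) (F (g * x))) (mu n) :=
    pf_int_bdd (by omega) (hf.dist hFc) (fun _ => dist_nonneg) hC g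
  have i2 := pf_int_dist hs hFc hlgF g (F g)
  unfold Boot.Q
  rw [← integral_add i1 i2]
  refine integral_mono_of_nonneg (Eventually.of_forall fun x =>
    mul_nonneg (kap_nonneg s x) dist_nonneg) (i1.add i2) (Eventually.of_forall fun x => ?_)
  show kap s x * dist (F g) (f (g * x)) ≤
    kap s x * dist (f (g * x)) (F (g * x)) + kap s x * dist (F g) (F (g * x))
  rw [← mul_add]
  refine mul_le_mul_of_nonneg_left ?_ (kap_nonneg s x)
  have h2 := dist_triangle (F g) (F (g * x)) (f (g * x))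
  rw [dist_comm (F (g * x)) (f (g * x))] at h2
  linarith

/-- The spread is bounded on compact sets by the energy. PROOF: `Sp_harn` on the unit ball around
`g ∈ K`, `χ` is bounded below by a positive constant on the compact set `K {ch ≤ 2}`. -/
theorem Sp_local (T : Tgt Φ κ) (hχ : Lat Γ χ) {K : Set (SUGroup n)} (hK : IsCompact K)
    {s : ℕ} (hs : n + 2 < s) : ∃ M : ℝ, 0 < M ∧ ∀ (y₀ : Y) (C J : ℝ) (f f' : SUGroup n → Y),
      Continuous f → Continuous f' → Lg C y₀ f → Bs Φ s f f' → 0 ≤ J →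
        LJ χ Φ s f' f ≤ ENNReal.ofReal J → ∀ g ∈ K, Sp Φ s f f' g ≤ M * J := by
  set B : Set (SUGroup n) := {x : SUGroup n | ch x ≤ 2} with hB
  have hBc : IsCompact B := isCompact_ball 2
  have hBm : MeasurableSet B := hBc.isClosed.measurableSet
  have hB0 : (mu n) B ≠ 0 := by
    have h1 : {x : SUGroup n | ch x < 2} ⊆ B := fun x hx => show ch x ≤ 2 from le_of_lt hx
    have h2 : IsOpen {x : SUGroup n | ch x < 2} := isOpen_lt continuous_ch continuous_const
    have h3 : 0 < (mu n) {x : SUGroup n | ch x < 2} :=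
      h2.measure_pos (mu n) ⟨1, by
        show ch 1 < 2
        rw [ch_one]; norm_num⟩
    exact (h3.trans_le (measure_mono h1)).ne'
  have hB1 : (mu n) B ≠ ⊤ := hBc.measure_lt_top.ne
  -- lower bound for `χ`
  obtain ⟨c, hc, hcl⟩ : ∃ c : ℝ, 0 < c ∧ ∀ g ∈ K, ∀ x ∈ B, c ≤ χ (g * x) := by
    have hK' : IsCompact ((fun p : SUGroup n × SUGroup n => p.1 * p.2) '' (K ×ˢ B)) :=
      (hK.prod hBc).image (by fun_prop)
    rcases Set.eq_empty_or_nonempty ((fun p : SUGroup n × SUGroup n => p.1 * p.2) '' (K ×ˢ B))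
      with h0 | h0
    · refine ⟨1, one_pos, fun g hg x hx => ?_⟩
      have : g * x ∈ (fun p : SUGroup n × SUGroup n => p.1 * p.2) '' (K ×ˢ B) :=
        ⟨(g, x), ⟨hg, hx⟩, rfl⟩
      rw [h0] at this
      exact absurd this (Set.notMem_empty _)
    · obtain ⟨z, -, hz⟩ := hK'.exists_isMinOn h0 hχ.cont.continuousOn
      exact ⟨χ z, hχ.pos z, fun g hg x hx => hz ⟨(g, x), ⟨hg, hx⟩, rfl⟩⟩
  obtain ⟨b, hb0, hbe⟩ : ∃ b : ℝ, 0 < b ∧ (mu n) B = ENNReal.ofReal b :=
    ⟨((mu n) B).toReal, ENNReal.toReal_pos hB0 hB1, (ENNReal.ofReal_toReal hB1).symm⟩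
  refine ⟨4 ^ (2 * s) / (c * b), by positivity, ?_⟩
  intro y₀ C J f f' hf hf' hg hb hJ0 hJ a ha
  have hcb : 0 < c * b := mul_pos hc hb0
  rw [div_mul_eq_mul_div, le_div_iff₀ hcb]
  have hM0 : (0 : ℝ) ≤ 4 ^ (2 * s) := by positivity
  have hharn : ∀ x ∈ B, Sp Φ s f f' a ≤ 4 ^ (2 * s) * Sp Φ s f f' (a * x) := by
    intro x hx
    have h1 := Sp_harn T hs hf hg hb (a * x) x⁻¹
    rw [mul_inv_cancel_right, wt_inv] at h1
    refine h1.trans (mul_le_mul_of_nonneg_right ?_ (pf_Sp_nonneg T _))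
    refine pow_le_pow_left₀ (pf_wtp x).le ?_ _
    have h2 := wt_le x
    have h3 : ch x ≤ 2 := hx
    linarith
  have h1 : ENNReal.ofReal (Sp Φ s f f' a * (c * b)) ≤ ENNReal.ofReal (4 ^ (2 * s) * J) := by
    calc ENNReal.ofReal (Sp Φ s f f' a * (c * b))
        = ∫⁻ _x in B, ENNReal.ofReal (Sp Φ s f f' a) * ENNReal.ofReal c ∂(mu n) := by
          rw [setLIntegral_const, ENNReal.ofReal_mul (pf_Sp_nonneg T a),
            ENNReal.ofReal_mul hc.le, hbe, mul_assoc]
      _ ≤ ∫⁻ x in B, ENNReal.ofReal (4 ^ (2 * s)) * (ENNReal.ofReal (χ (a * x)) *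
            ENNReal.ofReal (Sp Φ s f f' (a * x))) ∂(mu n) := by
          refine setLIntegral_mono' hBm fun x hx => ?_
          rw [← ENNReal.ofReal_mul (pf_Sp_nonneg T _), ← ENNReal.ofReal_mul (hχ.pos _).le,
            ← ENNReal.ofReal_mul hM0]
          refine ENNReal.ofReal_le_ofReal ?_
          have h1 := hharn x hx
          have h2 := hcl a ha x hx
          have h3 : 0 ≤ Sp Φ s f f' (a * x) := pf_Sp_nonneg T _
          calc Sp Φ s f f' a * c ≤ (4 ^ (2 * s) * Sp Φ s f f' (a * x)) * χ (a * x) :=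
                mul_le_mul h1 h2 hc.le (mul_nonneg hM0 h3)
            _ = 4 ^ (2 * s) * (χ (a * x) * Sp Φ s f f' (a * x)) := by ring
      _ ≤ ∫⁻ x, ENNReal.ofReal (4 ^ (2 * s)) * (ENNReal.ofReal (χ (a * x)) *
            ENNReal.ofReal (Sp Φ s f f' (a * x))) ∂(mu n) := setLIntegral_le_lintegral _ _
      _ = ∫⁻ x, ENNReal.ofReal (4 ^ (2 * s)) * (ENNReal.ofReal (χ x) *
            ENNReal.ofReal (Sp Φ s f f' x)) ∂(mu n) :=
          lintegral_mul_left_eq_self (μ := mu n) (fun x => ENNReal.ofReal (4 ^ (2 * s)) *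
            (ENNReal.ofReal (χ x) * ENNReal.ofReal (Sp Φ s f f' x))) a
      _ = ENNReal.ofReal (4 ^ (2 * s)) * LI χ (fun x => ENNReal.ofReal (Sp Φ s f f' x)) := by
          rw [lintegral_const_mul' _ _ ENNReal.ofReal_ne_top]
          rfl
      _ = ENNReal.ofReal (4 ^ (2 * s)) * LJ χ Φ s f' f := by rw [LJ_spread hχ T hs hf hg hb]
      _ ≤ ENNReal.ofReal (4 ^ (2 * s)) * ENNReal.ofReal J := by gcongr
      _ = ENNReal.ofReal (4 ^ (2 * s) * J) := (ENNReal.ofReal_mul hM0).symm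
  exact (ENNReal.ofReal_le_ofReal_iff (mul_nonneg hM0 hJ0)).1 h1

/-- The maps are Lipschitz on compact sets, uniformly. PROOF: `exists_factor` and `Bs.near` along the
partial products, which stay in the compact set `K {ch ≤ R'}`; `Sp_local`. -/
theorem Bs.near_local (hn : 1 ≤ n) (T : Tgt Φ κ) (hχ : Lat Γ χ) {K : Set (SUGroup n)}
    (hK : IsCompact K) (R : ℝ) {s : ℕ} (hs : n + 2 < s) : ∃ M : ℝ, 0 < M ∧
      ∀ (y₀ : Y) (C J : ℝ) (f f' : SUGroup n → Y), Continuous f → Continuous f' → Lg C y₀ f →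
        Bs Φ s f f' → 0 ≤ J → LJ χ Φ s f' f ≤ ENNReal.ofReal J → ∀ g ∈ K, ∀ x, ch x ≤ R →
          dist (f' g) (f' (g * x)) ≤ M * Real.sqrt J * Real.log (wt x) := by
  have hκ := T.one_le
  have hs1 : (1 : ℝ) ≤ s := by exact_mod_cast (by omega : 1 ≤ s)
  obtain ⟨K', hK'def⟩ : ∃ K' : Set (SUGroup n), K' = (fun p : SUGroup n × SUGroup n => p.1 * p.2) ''
      (K ×ˢ {x : SUGroup n | ch x ≤ 2 * R}) := ⟨_, rfl⟩
  have hK' : IsCompact K' := by
    rw [hK'def]
    exact (hK.prod (isCompact_ball (2 * R))).image (by fun_prop)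
  obtain ⟨M₀, hM₀, hM⟩ := Sp_local T hχ hK' hs
  refine ⟨8 * κ * s * Real.sqrt M₀, by have := Real.sqrt_pos.2 hM₀; positivity, ?_⟩
  intro y₀ C J f f' hf hf' hg h hJ0 hJ g hgK x hx
  have hSp := hM y₀ C J f f' hf hf' hg h hJ0 hJ
  have hmem : ∀ z : SUGroup n, Real.log (wt z) ≤ Real.log (wt x) → g * z ∈ K' := by
    intro z hz
    rw [hK'def]
    refine ⟨(g, z), ⟨hgK, ?_⟩, rfl⟩
    have h1 := (Real.log_le_log_iff (pf_wtp z) (pf_wtp x)).1 hz
    have h2 := ch_le_wt z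
    have h3 := wt_le x
    show ch z ≤ 2 * R
    linarith
  -- small elements
  have small : ∀ y : SUGroup n, κ * (4 * s * Real.log (wt y)) ≤ 1 → ∀ g' ∈ K',
      dist (f' g') (f' (g' * y)) ≤ 8 * κ * s * Real.sqrt (M₀ * J) * Real.log (wt y) := by
    intro y hy g' hg'
    have hl := pf_log y
    have hsl : 0 ≤ 4 * s * Real.log (wt y) := by positivity
    have h1 : 4 * s * Real.log (wt y) ≤ 1 := by nlinarith
    have e1 : wt y ^ (2 * s) = Real.exp (2 * s * Real.log (wt y)) := by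
      rw [← Real.exp_log (pf_wtp y), ← Real.exp_nat_mul, Real.log_exp]
      push_cast
      rfl
    have h2 : wt y ^ (2 * s) - 1 ≤ 4 * s * Real.log (wt y) := by
      rw [e1]
      have hu0 : 0 ≤ 2 * s * Real.log (wt y) := by positivity
      have hu1 : 2 * s * Real.log (wt y) ≤ 1 := by linarith
      have h3 := Real.abs_exp_sub_one_sub_id_le (x := 2 * s * Real.log (wt y))
        (by rw [abs_of_nonneg hu0]; exact hu1)
      have h4 := (abs_le.1 h3).2
      nlinarith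
    have hW : 1 ≤ wt y ^ (2 * s) := one_le_pow₀ (one_le_wt y)
    have h5 : κ * (wt y ^ (2 * s) - 1) ≤ 1 :=
      (mul_le_mul_of_nonneg_left h2 (by linarith)).trans hy
    have h6 := Bs.near T hs hf hg h g' y h5
    have h7 : Real.sqrt (Sp Φ s f f' g') ≤ Real.sqrt (M₀ * J) := Real.sqrt_le_sqrt (hSp g' hg')
    calc dist (f' g') (f' (g' * y)) ≤
          2 * κ * (wt y ^ (2 * s) - 1) * Real.sqrt (Sp Φ s f f' g') := h6
      _ ≤ 2 * κ * (4 * s * Real.log (wt y)) * Real.sqrt (M₀ * J) := by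
          refine mul_le_mul (mul_le_mul_of_nonneg_left h2 (by linarith)) h7 (Real.sqrt_nonneg _) ?_
          positivity
      _ = _ := by ring
  -- chains
  have chain : ∀ (ℓ δ : ℝ) (l : List (SUGroup n)), 0 ≤ ℓ → (∀ y ∈ l, Real.log (wt y) = ℓ) →
      (∀ y ∈ l, ∀ g' ∈ K', dist (f' g') (f' (g' * y)) ≤ δ) → ∀ z : SUGroup n,
        Real.log (wt z) + l.length * ℓ ≤ Real.log (wt x) →
        dist (f' (g * z)) (f' (g * z * l.prod)) ≤ l.length * δ := by
    intro ℓ δ l hℓ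
    induction l with
    | nil =>
      intro _ _ z _
      simp
    | cons a l ih =>
      intro hw hl z hz
      rw [List.length_cons] at hz
      push_cast at hz
      have hll : 0 ≤ (l.length : ℝ) * ℓ := by positivity
      have h1 := hl a (List.mem_cons_self ..) (g * z) (hmem z (by nlinarith))
      have h2 := ih (fun y hy => hw y (List.mem_cons_of_mem _ hy))
        (fun y hy => hl y (List.mem_cons_of_mem _ hy)) (z * a) (by
          have h3 := pf_log_mul z a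
          rw [hw a (List.mem_cons_self ..)] at h3
          linarith)
      rw [← mul_assoc] at h2
      rw [List.prod_cons, ← mul_assoc, List.length_cons]
      have h3 := dist_triangle (f' (g * z)) (f' (g * z * a)) (f' (g * z * a * l.prod))
      push_cast
      linarith
  have hlx := pf_log x
  obtain ⟨N, hN⟩ := exists_nat_ge (κ * (4 * s * Real.log (wt x)))
  obtain ⟨l, hlen, hprod, hw⟩ := exists_factor hn x (N + 1) (by omega)
  have hN0 : (0 : ℝ) < (N : ℝ) + 1 := by positivity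
  have hlog : ∀ y ∈ l, Real.log (wt y) = Real.log (wt x) / (N + 1) := by
    intro y hy
    rw [← hw y hy, Real.log_pow]
    push_cast
    field_simp
  have hy : ∀ y ∈ l, ∀ g' ∈ K', dist (f' g') (f' (g' * y)) ≤
      8 * κ * s * Real.sqrt (M₀ * J) * (Real.log (wt x) / (N + 1)) := by
    intro y hy g' hg'
    rw [← hlog y hy]
    refine small y ?_ g' hg'
    rw [hlog y hy]
    have e : κ * (4 * s * (Real.log (wt x) / (N + 1))) = κ * (4 * s * Real.log (wt x)) / (N + 1) := by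
      ring
    rw [e, div_le_one hN0]
    linarith
  have h1 := chain (Real.log (wt x) / (N + 1)) _ l (by positivity) hlog hy 1 (by
    rw [wt_one, Real.log_one, zero_add, hlen]
    push_cast
    rw [mul_div_cancel₀ _ hN0.ne'])
  rw [hprod, hlen, mul_one] at h1
  refine h1.trans (le_of_eq ?_)
  rw [Real.sqrt_mul hM₀.le]
  push_cast
  field_simp

/-- **The iteration** `f (k+1) = bar_s f k`, `f 0 = F`. PROOF: `exists_bs` (growth by `BaseF.lg`; each
`dist (f k) F` is bounded: `BaseF.step` and `kap_log`); the energies decrease (`LJ_bar`, `LJ_symm`) and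
start from `LJ F F < ⊤` (`LJ_lip`, `Lat.LI_one`). `Bs.near_local` and `D.irr`
(`dist (f 1) (ρ γ (f 1)) = dist (f 1) (f γ)`) bound `dist (f k g) (F g)` for `g ∈ S`, uniformly in
`k`. `V k = max_{j ≤ k} dist (f j) F` satisfies the hypotheses of `Cor.max`, so
`dist (f k g) (F g) ≤ M'` for all `k`, `g`. Then `Sp ≤ κ ∫ kap (2 M' + L log wt x)²` everywhere and
`Bs.lip`. -/
theorem exists_iterF (hn : 1 ≤ n) (D : Dat ρ Φ κ lv y₀) (hF : BaseF ρ lv χ F L S s₀ B) :
    ∃ s₁ : ℕ, ∀ s, s₁ ≤ s → ∃ (f : ℕ → SUGroup n → Y) (C : ℝ), 0 ≤ C ∧ f 0 = F ∧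
      (∀ k, Eqv ρ (f k)) ∧ (∀ k g, lv (f k g) = 0) ∧ (∀ k, Bs Φ s (f k) (f (k + 1))) ∧
      (∀ k, LipD C (f k)) ∧ (∀ k g, dist (f k g) (F g) ≤ C) := by
  obtain ⟨s₂, K₁, hK₁, hkl⟩ := kap_log n
  obtain ⟨s₃, K₂, hK₂, hlip⟩ := LJ_lip n
  have hk0 : 0 ≤ κ := zero_le_one.trans D.tgt.one_le
  have hχ := hF.lat
  have hFc := hF.eqv.cont
  refine ⟨max (max s₀ s₂) (max s₃ (n + 3)), fun s hs => ?_⟩
  have hsa : s₀ ≤ s := (le_max_left _ _).trans ((le_max_left _ _).trans hs)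
  have hsb : s₂ ≤ s := (le_max_right _ _).trans ((le_max_left _ _).trans hs)
  have hsc : s₃ ≤ s := (le_max_left _ _).trans ((le_max_right _ _).trans hs)
  have hsd : n + 3 ≤ s := (le_max_right _ _).trans ((le_max_right _ _).trans hs)
  have hs2 : n + 2 < s := by omega
  have hs0 : (0 : ℝ) < s := by exact_mod_cast (by omega : 0 < s)
  obtain ⟨il1, il2, hl1, hl2⟩ := hkl s hsb
  have i0 : Integrable (fun x : SUGroup n => kap s x) (mu n) := integrable_kap (by omega)
  have hint1 : ∫ x : SUGroup n, kap s x ∂(mu n) = 1 := integral_kap (by omega)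
  -- the error term
  have hE : ∀ g : SUGroup n, ∫ x, kap s x * dist (F g) (F (g * x)) ∂(mu n) ≤
      L * (K₁ / Real.sqrt s) := by
    intro g
    have h1 : ∫ x, kap s x * dist (F g) (F (g * x)) ∂(mu n) ≤
        ∫ x : SUGroup n, L * (kap s x * Real.log (wt x)) ∂(mu n) := by
      refine integral_mono_of_nonneg (Eventually.of_forall fun x =>
        mul_nonneg (kap_nonneg s x) dist_nonneg) (il1.const_mul L) (Eventually.of_forall fun x => ?_)
      show kap s x * dist (F g) (F (g * x)) ≤ L * (kap s x * Real.log (wt x))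
      have := mul_le_mul_of_nonneg_left (hF.lip g x) (kap_nonneg s x)
      linarith
    rw [integral_const_mul] at h1
    exact h1.trans (mul_le_mul_of_nonneg_left hl1 hF.L0)
  have hE0 : ∀ g : SUGroup n, 0 ≤ ∫ x, kap s x * dist (F g) (F (g * x)) ∂(mu n) := fun g =>
    integral_nonneg fun x => mul_nonneg (kap_nonneg s x) dist_nonneg
  -- one step
  have hstep : ∀ f : {f : SUGroup n → Y // Eqv ρ f ∧ (∀ g, lv (f g) = 0) ∧
      ∃ C, ∀ g, dist (f g) (F g) ≤ C}, ∃ f' : {f : SUGroup n → Y // Eqv ρ f ∧ (∀ g, lv (f g) = 0) ∧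
      ∃ C, ∀ g, dist (f g) (F g) ≤ C}, Bs Φ s f.1 f'.1 := by
    rintro ⟨f, hf, hf0, C, hC⟩
    obtain ⟨f', h1, h2, h3⟩ := exists_bs D hs2 hf (hF.lg y₀ hC) hf0
    refine ⟨⟨f', h1, h3, C + L * (K₁ / Real.sqrt s), fun g => ?_⟩, h2⟩
    refine (hF.step D hs2 hf.cont hC h2 g).trans (add_le_add ?_ (hE g))
    have h4 : Boot.Q s (fun x => dist (f x) (F x)) g ≤ ∫ x : SUGroup n, kap s x * C ∂(mu n) := by
      unfold Boot.Q
      refine integral_mono_of_nonneg (Eventually.of_forall fun x =>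
        mul_nonneg (kap_nonneg s x) dist_nonneg) (i0.mul_const C) (Eventually.of_forall fun x => ?_)
      exact mul_le_mul_of_nonneg_left (hC _) (kap_nonneg s x)
    rwa [integral_mul_const, hint1, one_mul] at h4
  choose nx hnx using hstep
  obtain ⟨G, hG⟩ : ∃ G : ℕ → {f : SUGroup n → Y // Eqv ρ f ∧ (∀ g, lv (f g) = 0) ∧
      ∃ C, ∀ g, dist (f g) (F g) ≤ C},
      G = fun k => nx^[k] ⟨F, hF.eqv, hF.lv, 0, fun g => by rw [dist_self]⟩ := ⟨_, rfl⟩
  have hG0 : (G 0).1 = F := by rw [hG]; rfl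
  have hb : ∀ k, Bs Φ s (G k).1 (G (k + 1)).1 := by
    intro k
    have h1 : G (k + 1) = nx (G k) := by
      rw [hG]
      exact Function.iterate_succ_apply' nx k _
    rw [h1]
    exact hnx _
  have he : ∀ k, Eqv ρ (G k).1 := fun k => (G k).2.1
  have hlv : ∀ k g, lv ((G k).1 g) = 0 := fun k => (G k).2.2.1
  have hbd : ∀ k, ∃ C, ∀ g, dist ((G k).1 g) (F g) ≤ C := fun k => (G k).2.2.2
  have hlg : ∀ k, ∃ C, Lg C y₀ (G k).1 := by
    intro k
    obtain ⟨C, hC⟩ := hbd k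
    exact ⟨_, hF.lg y₀ hC⟩
  obtain ⟨f, hfdef⟩ : ∃ f : ℕ → SUGroup n → Y, f = fun k => (G k).1 := ⟨_, rfl⟩
  have hf0 : f 0 = F := by rw [hfdef]; exact hG0
  replace hb : ∀ k, Bs Φ s (f k) (f (k + 1)) := by rw [hfdef]; exact hb
  replace he : ∀ k, Eqv ρ (f k) := by rw [hfdef]; exact he
  replace hlv : ∀ k g, lv (f k g) = 0 := by rw [hfdef]; exact hlv
  replace hbd : ∀ k, ∃ C, ∀ g, dist (f k g) (F g) ≤ C := by rw [hfdef]; exact hbd
  replace hlg : ∀ k, ∃ C, Lg C y₀ (f k) := by rw [hfdef]; exact hlg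
  clear hfdef hG hG0
  -- energies
  have hdec : ∀ (h : SUGroup n → Y) (_ : Continuous h) (k : ℕ),
      LJ χ Φ s (f (k + 1)) (f k) ≤ LJ χ Φ s h (f k) := by
    intro h hh k
    obtain ⟨C, hC⟩ := hlg k
    exact le_self_add.trans (LJ_bar hχ D.tgt hs2 hh (he k).cont (he (k + 1)).cont hC (hb k))
  have hE2 : ∀ k, LJ χ Φ s (f (k + 2)) (f (k + 1)) ≤ LJ χ Φ s (f (k + 1)) (f k) := by
    intro k
    refine (hdec (f k) (he k).cont (k + 1)).trans ?_
    rw [LJ_symm hχ D.tgt D.act (he k) (he (k + 1))]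
  have hE3 : ∀ k, LJ χ Φ s (f (k + 1)) (f k) ≤ LJ χ Φ s F F := by
    intro k
    induction k with
    | zero =>
      have h1 := hdec F hFc 0
      rw [hf0] at h1 ⊢
      exact h1
    | succ k ih => exact (hE2 k).trans ih
  have hfin : LJ χ Φ s F F ≠ ⊤ := by
    refine ((hlip D.tgt hχ s hsc L F hFc hF.lip).trans_lt ?_).ne
    exact ENNReal.mul_lt_top ENNReal.ofReal_lt_top hχ.LI_one
  obtain ⟨J, hJdef⟩ : ∃ J : ℝ, J = (LJ χ Φ s F F).toReal := ⟨_, rfl⟩
  have hJ0 : 0 ≤ J := by rw [hJdef]; exact ENNReal.toReal_nonneg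
  have hJ : ∀ k, LJ χ Φ s (f (k + 1)) (f k) ≤ ENNReal.ofReal J := by
    intro k
    rw [hJdef, ENNReal.ofReal_toReal hfin]
    exact hE3 k
  -- the bound on the core
  obtain ⟨T, hT⟩ := D.irr
  obtain ⟨R₁, hR₁⟩ : ∃ R₁ : ℝ, ∀ g ∈ S, ch g ≤ R₁ := by
    obtain ⟨R₁, h⟩ := (hF.cor.cpt.image continuous_ch).bddAbove
    exact ⟨R₁, fun g hg => h ⟨g, hg, rfl⟩⟩
  obtain ⟨R₂, hR₂⟩ : ∃ R₂ : ℝ, ∀ γ ∈ T, ch (γ : SUGroup n) ≤ R₂ := by
    refine ⟨∑ γ ∈ T, ch (γ : SUGroup n), fun γ hγ => ?_⟩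
    exact Finset.single_le_sum (f := fun γ : Γ => ch (γ : SUGroup n))
      (fun γ _ => (ch_pos _).le) hγ
  obtain ⟨M, hM0, hM⟩ := Bs.near_local (Y := Y) (Φ := Φ) (κ := κ) hn D.tgt hχ
    (isCompact_singleton (x := (1 : SUGroup n))) (max R₁ R₂) hs2
  have hnear : ∀ k x, ch x ≤ max R₁ R₂ →
      dist (f (k + 1) 1) (f (k + 1) x) ≤ M * Real.sqrt J * Real.log (wt x) := by
    intro k x hx
    obtain ⟨C, hC⟩ := hlg k
    have h1 := hM y₀ C J (f k) (f (k + 1)) (he k).cont (he (k + 1)).cont hC (hb k) hJ0 (hJ k) 1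
      (Set.mem_singleton _) x hx
    rwa [one_mul] at h1
  have hlogR : ∀ (R : ℝ) (x : SUGroup n), ch x ≤ R → Real.log (wt x) ≤ Real.log (2 * R) := by
    intro R x hx
    refine Real.log_le_log (pf_wtp x) ?_
    have := wt_le x
    linarith
  obtain ⟨C', hC'⟩ := hT (M * Real.sqrt J * Real.log (2 * max R₁ R₂))
  have hbase : ∀ k, dist y₀ (f (k + 1) 1) ≤ C' := by
    intro k
    refine hC' _ (hlv (k + 1) 1) fun γ hγ => ?_
    rw [← (he (k + 1)).equi, mul_one]
    have h1 : ch (γ : SUGroup n) ≤ max R₁ R₂ := (hR₂ γ hγ).trans (le_max_right _ _)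
    refine (hnear k (γ : SUGroup n) h1).trans ?_
    exact mul_le_mul_of_nonneg_left (hlogR _ _ h1) (mul_nonneg hM0.le (Real.sqrt_nonneg _))
  obtain ⟨A, hA⟩ : ∃ A : ℝ, A = |M * Real.sqrt J * Real.log (2 * max R₁ R₂)| + |C'| +
      (dist y₀ (F 1) + L) * (1 + |Real.log (2 * max R₁ R₂)|) := ⟨_, rfl⟩
  have hlgF := hF.lip.lg hF.L0 y₀
  have hyL : 0 ≤ dist y₀ (F 1) + L := add_nonneg dist_nonneg hF.L0
  have hA0 : 0 ≤ A := by rw [hA]; positivity
  have hcore : ∀ k, ∀ g ∈ S, dist (f k g) (F g) ≤ A := by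
    intro k g hg
    cases k with
    | zero => rw [hf0, dist_self]; exact hA0
    | succ k =>
      have hg' : ch g ≤ max R₁ R₂ := (hR₁ g hg).trans (le_max_left _ _)
      have h1 := hnear k g hg'
      have h2 := hbase k
      have h3 := hlgF g
      have h4 := hlogR _ _ hg'
      have h5 := dist_triangle4 (f (k + 1) g) (f (k + 1) 1) y₀ (F g)
      rw [dist_comm (f (k + 1) g) (f (k + 1) 1), dist_comm (f (k + 1) 1) y₀] at h5
      have h6 : M * Real.sqrt J * Real.log (wt g) ≤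
          M * Real.sqrt J * Real.log (2 * max R₁ R₂) :=
        mul_le_mul_of_nonneg_left h4 (mul_nonneg hM0.le (Real.sqrt_nonneg _))
      have h7 : (dist y₀ (F 1) + L) * (1 + Real.log (wt g)) ≤
          (dist y₀ (F 1) + L) * (1 + |Real.log (2 * max R₁ R₂)|) :=
        mul_le_mul_of_nonneg_left (by linarith [le_abs_self (Real.log (2 * max R₁ R₂))]) hyL
      have h8 := le_abs_self (M * Real.sqrt J * Real.log (2 * max R₁ R₂))
      have h9 := le_abs_self C'
      rw [hA]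
      linarith
  -- the maximum principle
  have hdc : ∀ k, Continuous fun g => dist (f k g) (F g) := fun k => (he k).cont.dist hFc
  have hglob : ∀ k g, dist (f k g) (F g) ≤ A + B := by
    intro k
    have hne : (Finset.range (k + 1)).Nonempty := ⟨0, Finset.mem_range.2 (Nat.succ_pos k)⟩
    obtain ⟨V, hV⟩ : ∃ V : SUGroup n → ℝ, V = fun g =>
      (Finset.range (k + 1)).sup' hne fun j => dist (f j g) (F g) := ⟨_, rfl⟩
    have hVle : ∀ j ∈ Finset.range (k + 1), ∀ g, dist (f j g) (F g) ≤ V g := by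
      intro j hj g
      rw [hV]
      exact Finset.le_sup' (fun j => dist (f j g) (F g)) hj
    have hVc : Continuous V := by
      rw [hV]
      exact Continuous.finset_sup'_apply hne fun j _ => hdc j
    have hV0 : ∀ g, 0 ≤ V g := fun g => dist_nonneg.trans
      (hVle 0 (Finset.mem_range.2 (Nat.succ_pos k)) g)
    obtain ⟨Cb, hCb⟩ : ∃ Cb, ∀ g, V g ≤ Cb := by
      choose c hc using hbd
      refine ⟨(Finset.range (k + 1)).sup' hne c, fun g => ?_⟩
      rw [hV]
      refine Finset.sup'_le hne _ fun j hj => ?_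
      exact (hc j g).trans (Finset.le_sup' c hj)
    have hmax := hF.cor.max s hsa A V hA0 hVc ?_ ?_ hV0 ⟨Cb, hCb⟩ ?_ ?_
    · intro g
      exact (hVle k (Finset.mem_range.2 (Nat.lt_succ_self k)) g).trans (hmax g)
    · intro g x hx
      rw [hV]
      simp only [(he _).kinv g x hx, hF.eqv.kinv g x hx]
    · intro γ hγ g
      rw [hV]
      have h1 : ∀ j, f j (γ * g) = ρ ⟨γ, hγ⟩ (f j g) := fun j => (he j).equi ⟨γ, hγ⟩ g
      have h2 : F (γ * g) = ρ ⟨γ, hγ⟩ (F g) := hF.eqv.equi ⟨γ, hγ⟩ g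
      simp only [h1, h2, D.act.iso]
    · intro g
      have hQ0 : 0 ≤ Boot.Q s V g := integral_nonneg fun x =>
        mul_nonneg (kap_nonneg s x) (hV0 _)
      conv_lhs => rw [hV]
      refine Finset.sup'_le hne _ fun j hj => ?_
      cases j with
      | zero =>
        rw [hf0, dist_self]
        exact add_nonneg hQ0 (hE0 g)
      | succ j =>
        obtain ⟨C, hC⟩ := hbd j
        refine (hF.step D hs2 (he j).cont hC (hb j) g).trans (add_le_add ?_ le_rfl)
        have hj' : j ∈ Finset.range (k + 1) := by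
          rw [Finset.mem_range] at hj ⊢
          omega
        unfold Boot.Q
        refine integral_mono_of_nonneg (Eventually.of_forall fun x =>
          mul_nonneg (kap_nonneg s x) dist_nonneg) (pf_int_bdd (by omega) hVc hV0 hCb g)
          (Eventually.of_forall fun x => ?_)
        exact mul_le_mul_of_nonneg_left (hVle j hj' _) (kap_nonneg s x)
    · intro g hg
      rw [hV]
      exact Finset.sup'_le hne _ fun j _ => hcore j g hg
  have hAB : 0 ≤ A + B := add_nonneg hA0 hF.cor.nonneg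
  -- the spread
  obtain ⟨S', hS'⟩ : ∃ S' : ℝ, S' = Real.sqrt (κ * (8 * (A + B) ^ 2 + 2 * L ^ 2 * (K₁ / s))) :=
    ⟨_, rfl⟩
  have hS'0 : 0 ≤ S' := by rw [hS']; exact Real.sqrt_nonneg _
  have hSp : ∀ k g, Sp Φ s (f k) (f (k + 1)) g ≤ S' ^ 2 := by
    intro k g
    rw [hS', Real.sq_sqrt (by positivity)]
    unfold Sp
    rw [integral_kapM]
    have h1 : ∀ x : SUGroup n, kap s x * Φ (f (k + 1) g) (f k (g * x)) ≤
        κ * (8 * (A + B) ^ 2 * kap s x + 2 * L ^ 2 * (kap s x * Real.log (wt x) ^ 2)) := by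
      intro x
      have h2 := hglob (k + 1) g
      have h3 := hglob k (g * x)
      have h4 := hF.lip g x
      have h5 := dist_triangle4 (f (k + 1) g) (F g) (F (g * x)) (f k (g * x))
      rw [dist_comm (F (g * x)) (f k (g * x))] at h5
      have h6 : dist (f (k + 1) g) (f k (g * x)) ^ 2 ≤
          (2 * (A + B) + L * Real.log (wt x)) ^ 2 :=
        pow_le_pow_left₀ dist_nonneg (by linarith) 2
      have h7 : (2 * (A + B) + L * Real.log (wt x)) ^ 2 ≤
          8 * (A + B) ^ 2 + 2 * L ^ 2 * Real.log (wt x) ^ 2 := by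
        nlinarith [sq_nonneg (2 * (A + B) - L * Real.log (wt x))]
      have h8 : Φ (f (k + 1) g) (f k (g * x)) ≤
          κ * (8 * (A + B) ^ 2 + 2 * L ^ 2 * Real.log (wt x) ^ 2) :=
        (D.tgt.le _ _).trans (mul_le_mul_of_nonneg_left (h6.trans h7) hk0)
      calc kap s x * Φ (f (k + 1) g) (f k (g * x)) ≤
            kap s x * (κ * (8 * (A + B) ^ 2 + 2 * L ^ 2 * Real.log (wt x) ^ 2)) :=
            mul_le_mul_of_nonneg_left h8 (kap_nonneg s x)
        _ = _ := by ring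
    have i3 : Integrable (fun x : SUGroup n => κ * (8 * (A + B) ^ 2 * kap s x +
        2 * L ^ 2 * (kap s x * Real.log (wt x) ^ 2))) (mu n) :=
      ((i0.const_mul _).add (il2.const_mul _)).const_mul κ
    refine (integral_mono_of_nonneg (Eventually.of_forall fun x =>
      mul_nonneg (kap_nonneg s x) (D.tgt.nonneg _ _)) i3 (Eventually.of_forall h1)).trans ?_
    rw [integral_const_mul, integral_add (i0.const_mul _) (il2.const_mul _), integral_const_mul,
      integral_const_mul, hint1, mul_one]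
    refine mul_le_mul_of_nonneg_left ?_ hk0
    have := mul_le_mul_of_nonneg_left hl2 (by positivity : (0 : ℝ) ≤ 2 * L ^ 2)
    linarith
  refine ⟨f, max (max (A + B) L) (8 * κ * s * S'),
    (hAB.trans (le_max_left _ _)).trans (le_max_left _ _), hf0, he, hlv, hb, ?_, fun k g =>
    (hglob k g).trans ((le_max_left _ _).trans (le_max_left _ _))⟩
  intro k
  cases k with
  | zero =>
    rw [hf0]
    exact pf_lip_mono hF.lip ((le_max_right _ _).trans (le_max_left _ _))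
  | succ k =>
    obtain ⟨C, hC⟩ := hlg k
    exact pf_lip_mono (Bs.lip hn D.tgt hs2 (he k).cont hC (hb k) hS'0 (hSp k)) (le_max_right _ _)

/-- **Existence of pairs** (B5), with an energy bound `c / s`, `c` independent of `s`. PROOF:
`exists_iterF`, `LJ_lip`. `exists_seq` gives `φ` with `f (φ j) → a`, and along a further subsequence
`f (φ j + 1) → a'`, `f (φ j + 2) → a''`; the inequality `IsBar` passes to the limit (dominated
convergence, `κ (2 C + C log wt x)²`), so `a' = bar_s a`, `a'' = bar_s a'`. `LJ_bar` with `h = f k`,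
`f = f (k+1)`, `f' = f (k+2)` and `LJ_symm`: `∑ k, LI χ (Φ (f k) (f (k+2))) ≤ LJ (f 1) (f 0) < ⊤`, so
`LI_fatou` gives `a = a''`. Energy: `LJ_fatou`. -/
theorem exists_pairF [ProperSpace Y] (hn : 1 ≤ n) (D : Dat ρ Φ κ lv y₀)
    (hF : BaseF ρ lv χ F L S s₀ B) : ∃ (s₁ : ℕ) (c : ℝ), 0 < c ∧ ∀ s, s₁ ≤ s →
      ∃ f f' : SUGroup n → Y, PairF ρ Φ lv F χ c s f f' := by
  obtain ⟨s₂, K, hK, hlip⟩ := LJ_lip n
  obtain ⟨s₃, hiter⟩ := exists_iterF hn D hF
  have hk0 : 0 ≤ κ := zero_le_one.trans D.tgt.one_le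
  have hχ := hF.lat
  have hFc := hF.eqv.cont
  have hV : LI χ 1 < ⊤ := hχ.LI_one
  obtain ⟨V, hVdef⟩ : ∃ V : ℝ, V = (LI χ 1).toReal := ⟨_, rfl⟩
  have hV0 : 0 ≤ V := by rw [hVdef]; exact ENNReal.toReal_nonneg
  have hVe : LI χ 1 = ENNReal.ofReal V := by rw [hVdef]; exact (ENNReal.ofReal_toReal hV.ne).symm
  refine ⟨max (max s₂ s₃) (n + 3), K * κ * L ^ 2 * V + 1, by positivity, fun s hs => ?_⟩
  have hs1 : s₂ ≤ s := (le_max_left _ _).trans ((le_max_left _ _).trans hs)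
  have hs3 : s₃ ≤ s := (le_max_right _ _).trans ((le_max_left _ _).trans hs)
  have hs2 : n + 2 < s := lt_of_lt_of_le (by omega) ((le_max_right _ _).trans hs)
  have hs0 : (0 : ℝ) < s := by exact_mod_cast (by omega : 0 < s)
  have hen0 : LJ χ Φ s F F ≤ ENNReal.ofReal ((K * κ * L ^ 2 * V + 1) / s) := by
    refine (hlip D.tgt hχ s hs1 L F hFc hF.lip).trans ?_
    rw [hVe, ← ENNReal.ofReal_mul (by positivity)]
    refine ENNReal.ofReal_le_ofReal ?_
    rw [div_mul_eq_mul_div]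
    exact div_le_div_of_nonneg_right (by linarith) hs0.le
  have hfin : LJ χ Φ s F F ≠ ⊤ := (hen0.trans_lt ENNReal.ofReal_lt_top).ne
  obtain ⟨f, C, hC0, hf0, hE, hlv, hbs, hLip, hC⟩ := hiter s hs3
  -- energies
  have hsum : ∀ k, LJ χ Φ s (f (k + 2)) (f (k + 1)) +
      LI χ (fun g => ENNReal.ofReal (Φ (f k g) (f (k + 2) g))) ≤ LJ χ Φ s (f (k + 1)) (f k) := by
    intro k
    have h1 := LJ_bar hχ D.tgt hs2 (hE k).cont (hE (k + 1)).cont (hE (k + 2)).cont
      (hF.lg y₀ (hC (k + 1))) (hbs (k + 1))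
    rwa [LJ_symm hχ D.tgt D.act (hE k) (hE (k + 1))] at h1
  obtain ⟨e, hedef⟩ : ∃ e : ℕ → ℝ≥0∞, e = fun k => LJ χ Φ s (f (k + 1)) (f k) := ⟨_, rfl⟩
  have hanti : Antitone e := by
    refine antitone_nat_of_succ_le fun k => ?_
    rw [hedef]
    exact le_self_add.trans (hsum k)
  have he0 : e 0 ≤ LJ χ Φ s F F := by
    rw [hedef]
    show LJ χ Φ s (f 1) (f 0) ≤ _
    have h1 := LJ_bar hχ D.tgt hs2 hFc (hE 0).cont (hE 1).cont (hF.lg y₀ (hC 0)) (hbs 0)
    rw [hf0] at h1 ⊢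
    exact le_self_add.trans h1
  have hebound : ∀ k, e k ≤ LJ χ Φ s F F := fun k => (hanti (Nat.zero_le k)).trans he0
  have helim : Tendsto e atTop (𝓝 (⨅ k, e k)) := tendsto_atTop_iInf hanti
  have hinf : (⨅ k, e k) ≠ ⊤ := ((iInf_le e 0).trans_lt (he0.trans_lt (lt_top_iff_ne_top.2 hfin))).ne
  have hzero : Tendsto (fun k => LI χ (fun g => ENNReal.ofReal (Φ (f k g) (f (k + 2) g)))) atTop
      (𝓝 0) := by
    have h1 : Tendsto (fun k => e k - e (k + 1)) atTop (𝓝 0) := by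
      have h2 := ENNReal.Tendsto.sub helim (helim.comp (tendsto_add_atTop_nat 1)) (Or.inl hinf)
      rwa [tsub_self] at h2
    refine tendsto_of_tendsto_of_tendsto_of_le_of_le tendsto_const_nhds h1 (fun _ => zero_le) ?_
    intro k
    have h3 : e (k + 1) ≠ ⊤ := ((hebound (k + 1)).trans_lt (lt_top_iff_ne_top.2 hfin)).ne
    have h4 := hsum k
    refine ENNReal.le_sub_of_add_le_left h3 ?_
    rw [hedef]
    exact h4
  -- growth
  have hpt : ∀ k x, dist y₀ (f k x) ≤ dist y₀ (F x) + C := by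
    intro k x
    have h1 := dist_triangle y₀ (F x) (f k x)
    rw [dist_comm (F x) (f k x)] at h1
    linarith [hC k x]
  have hcpt : ∀ θ : ℕ → ℕ, ∃ (φ : ℕ → ℕ) (p : SUGroup n → Y), StrictMono φ ∧ Continuous p ∧
      TendstoLocallyUniformly (fun j => f (θ (φ j))) p atTop := by
    intro θ
    refine exists_seq (fun k => f (θ k)) y₀ (fun x => ⟨dist y₀ (F x) + C, fun k => hpt _ x⟩) ?_
    intro x ε hε
    obtain ⟨U, hU, h1⟩ := pf_lip_equi C x ε hε
    exact ⟨U, hU, 0, fun k _ y hy => (pf_lip_to (hLip (θ k)) x y).trans (h1 y hy)⟩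
  obtain ⟨φ₁, p₀, hφ₁, hp₀, t₀⟩ := hcpt fun j => j
  obtain ⟨φ₂, p₁, hφ₂, hp₁, t₁⟩ := hcpt fun j => φ₁ j + 1
  obtain ⟨φ₃, p₂, hφ₃, hp₂, t₂⟩ := hcpt fun j => φ₁ (φ₂ j) + 2
  obtain ⟨θ, hθdef⟩ : ∃ θ : ℕ → ℕ, θ = fun j => φ₁ (φ₂ (φ₃ j)) := ⟨_, rfl⟩
  have hθ : StrictMono θ := by rw [hθdef]; exact hφ₁.comp (hφ₂.comp hφ₃)
  have q₀ : ∀ g, Tendsto (fun j => f (θ j) g) atTop (𝓝 (p₀ g)) := by
    intro g
    rw [hθdef]
    exact (pf_tlu_at t₀ g).comp (hφ₂.comp hφ₃).tendsto_atTop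
  have q₁ : ∀ g, Tendsto (fun j => f (θ j + 1) g) atTop (𝓝 (p₁ g)) := by
    intro g
    rw [hθdef]
    exact (pf_tlu_at t₁ g).comp hφ₃.tendsto_atTop
  have q₂ : ∀ g, Tendsto (fun j => f (θ j + 2) g) atTop (𝓝 (p₂ g)) := by
    intro g
    rw [hθdef]
    exact pf_tlu_at t₂ g
  -- the limits are equivariant
  have heq : ∀ (m : ℕ) (p : SUGroup n → Y), Continuous p →
      (∀ g, Tendsto (fun j => f (θ j + m) g) atTop (𝓝 (p g))) →
      Eqv ρ p ∧ (∀ g, lv (p g) = 0) ∧ ∀ g, dist (p g) (F g) ≤ C := by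
    intro m p hp hq
    refine ⟨⟨hp, fun g k hk => ?_, fun γ g => ?_⟩, fun g => ?_, fun g => ?_⟩
    · refine tendsto_nhds_unique (hq (g * k)) ?_
      exact (hq g).congr fun j => ((hE _).kinv g k hk).symm
    · refine tendsto_nhds_unique (hq ((γ : SUGroup n) * g)) ?_
      have hc : Continuous (ρ γ) :=
        (Isometry.of_dist_eq fun a b => D.act.iso γ a b).continuous
      exact ((hc.tendsto (p g)).comp (hq g)).congr fun j => ((hE _).equi γ g).symm
    · obtain ⟨K', hK', hlvl⟩ := D.up.lip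
      have hc : Continuous lv := by
        refine LipschitzWith.continuous (K := K'.toNNReal) (LipschitzWith.of_dist_le_mul ?_)
        intro a b
        rw [Real.dist_eq, Real.coe_toNNReal _ hK']
        exact hlvl a b
      refine tendsto_nhds_unique ((hc.tendsto (p g)).comp (hq g)) ?_
      have : (lv ∘ fun j => f (θ j + m) g) = fun _ => (0 : ℝ) := by
        funext j
        exact hlv _ g
      rw [this]
      exact tendsto_const_nhds
    · exact le_of_tendsto' ((hq g).dist tendsto_const_nhds) fun j => hC _ g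
  obtain ⟨e₀, l₀, w₀⟩ := heq 0 p₀ hp₀ q₀
  obtain ⟨e₁, l₁, w₁⟩ := heq 1 p₁ hp₁ q₁
  obtain ⟨e₂, l₂, w₂⟩ := heq 2 p₂ hp₂ q₂
  have b₀ : Bs Φ s p₀ p₁ := pf_bs_lim D.tgt hs2 (fun j => (hE (θ j)).cont)
    (fun j => hLip (θ j)) q₀ q₁ fun j => hbs (θ j)
  have b₁ : Bs Φ s p₁ p₂ := pf_bs_lim D.tgt hs2 (fun j => (hE (θ j + 1)).cont)
    (fun j => hLip (θ j + 1)) q₁ q₂ fun j => hbs (θ j + 1)
  have hpp : ∀ g, p₀ g = p₂ g := LI_fatou hχ D.tgt (fun j => (hE (θ j)).cont)
    (fun j => (hE (θ j + 2)).cont) hp₀ hp₂ q₀ q₂ (hzero.comp hθ.tendsto_atTop)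
  have hen : LJ χ Φ s p₁ p₀ ≤ ENNReal.ofReal ((K * κ * L ^ 2 * V + 1) / s) := by
    refine LJ_fatou hχ D.tgt (fun j => (hE (θ j + 1)).cont) (fun j => (hE (θ j)).cont) q₁ q₀
      fun j => ?_
    have h1 := hebound (θ j)
    rw [hedef] at h1
    exact h1.trans hen0
  have hpp' : p₂ = p₀ := funext fun g => (hpp g).symm
  rw [hpp'] at b₁
  exact ⟨p₀, p₁, e₀, e₁, l₀, l₁, ⟨C, w₀⟩, ⟨C, w₁⟩, b₀, b₁, hen⟩

end Pool.Agent.Lib.MP_5d4057_al.IN
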