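import Pool.Agent.Lib.MP_5d4057_al.IN.EnJ
import Pool.Agent.Lib.MP_5d4057_al.IN.SeqL

/-! Part B of INT: pairs at level `s` (B5). -/

namespace Pool.Agent.Lib.MP_5d4057_al.IN

open MeasureTheory Filter Topology Pool.Agent.Lib.MP_5d4057_al
open Pool.Agent.Lib.MP_5d4057_al.Hyb Pool.Agent.Lib.MP_5d4057_al.HM
open Pool.Agent.Lib.MP_5d4057_al.NU

open scoped ENNReal

variable {n : ℕ} {Γ : Subgroup (SUGroup n)} {χ : SUGroup n → ℝ} {Y : Type} [MetricSpace Y]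
variable {Φ : Y → Y → ℝ} {κ : ℝ} {lv : Y → ℝ} {y₀ : Y} {ρ : Γ →* Equiv.Perm Y}

/-- A pair at level `s`: `f' = bar_s f`, `f = bar_s f'`. -/
structure PairY (ρ : Γ →* Equiv.Perm Y) (Φ : Y → Y → ℝ) (lv : Y → ℝ) (y₀ : Y)
    (χ : SUGroup n → ℝ) (c : ℝ) (s : ℕ) (f f' : SUGroup n → Y) : Prop where
  e1 : Eqv ρ f
  e2 : Eqv ρ f'
  l1 : ∀ g, lv (f g) = 0
  l2 : ∀ g, lv (f' g) = 0
  g1 : ∃ C : ℝ, Lg C y₀ f
  g2 : ∃ C : ℝ, Lg C y₀ f'
  b1 : Bs Φ s f f'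
  b2 : Bs Φ s f' f
  en : LJ χ Φ s f' f ≤ ENNReal.ofReal (c / s)

theorem PairY.symm (hχ : Lat Γ χ) (D : Dat ρ Φ κ lv y₀) {c : ℝ} {s : ℕ} {f f' : SUGroup n → Y}
    (h : PairY ρ Φ lv y₀ χ c s f f') : PairY ρ Φ lv y₀ χ c s f' f where
  e1 := h.e2
  e2 := h.e1
  l1 := h.l2
  l2 := h.l1
  g1 := h.g2
  g2 := h.g1
  b1 := h.b2
  b2 := h.b1
  en := by rw [LJ_symm hχ D.tgt D.act h.e1 h.e2]; exact h.en

/-! ### Auxiliary lemmas -/

private theorem wtp (x : SUGroup n) : 0 < wt x := lt_of_lt_of_le one_pos (one_le_wt x)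

private theorem tlu_at {X Z : Type} [TopologicalSpace X] [MetricSpace Z] {F : ℕ → X → Z}
    {G : X → Z} (h : TendstoLocallyUniformly F G atTop) (x : X) :
    Tendsto (fun j => F j x) atTop (𝓝 (G x)) := by
  rw [Metric.tendsto_nhds]
  intro ε hε
  obtain ⟨t, ht, h1⟩ := Metric.tendstoLocallyUniformly_iff.1 h ε hε x
  filter_upwards [h1] with j hj
  rw [dist_comm]
  exact hj x (mem_of_mem_nhds ht)

private theorem tlu_comp {X Z : Type} [TopologicalSpace X] [MetricSpace Z] {F : ℕ → X → Z}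
    {G : X → Z} (h : TendstoLocallyUniformly F G atTop) {ψ : ℕ → ℕ} (hψ : StrictMono ψ) :
    TendstoLocallyUniformly (fun j => F (ψ j)) G atTop := by
  intro u hu x
  obtain ⟨t, ht, h1⟩ := h u hu x
  exact ⟨t, ht, hψ.tendsto_atTop.eventually h1⟩

private theorem LipD.zero_le_mul {L : ℝ} {f : SUGroup n → Y} (h : LipD L f) (x : SUGroup n) :
    0 ≤ L * Real.log (wt x) := dist_nonneg.trans (h 1 x)

private theorem LipD.to {L : ℝ} {f : SUGroup n → Y} (h : LipD L f) (x y : SUGroup n) :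
    dist (f x) (f y) ≤ L * Real.log (wt (x⁻¹ * y)) := by
  have := h x (x⁻¹ * y)
  rwa [mul_inv_cancel_left] at this

private theorem lip_equi (L : ℝ) (x : SUGroup n) (ε : ℝ) (hε : 0 < ε) :
    ∃ U ∈ 𝓝 x, ∀ y ∈ U, L * Real.log (wt (x⁻¹ * y)) ≤ ε := by
  have hc : Continuous fun y : SUGroup n => L * Real.log (wt (x⁻¹ * y)) :=
    continuous_const.mul ((continuous_wt.comp (continuous_const.mul continuous_id)).log
      fun y => (wtp _).ne')
  have h0 : L * Real.log (wt (x⁻¹ * x)) < ε := by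
    rw [inv_mul_cancel, wt_one, Real.log_one, mul_zero]
    exact hε
  have h1 := hc.continuousAt.eventually (gt_mem_nhds h0)
  exact ⟨_, h1, fun y hy => le_of_lt hy⟩

/-- a limit of solutions of the equation of the barycentres -/
private theorem bs_lim (T : Tgt Φ κ) {s : ℕ} (hs : n + 2 < s) {L : ℝ}
    {u v : ℕ → SUGroup n → Y} {u' v' : SUGroup n → Y} (hu : ∀ j, Continuous (u j))
    (hL : ∀ j, LipD L (u j)) (tu : ∀ g, Tendsto (fun j => u j g) atTop (𝓝 (u' g)))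
    (tv : ∀ g, Tendsto (fun j => v j g) atTop (𝓝 (v' g))) (hb : ∀ j, Bs Φ s (u j) (v j)) :
    Bs Φ s u' v' := by
  intro g y
  have hcont : Continuous fun p : Y × Y => Φ p.1 p.2 := T.continuous
  have hk0 : 0 ≤ κ := zero_le_one.trans T.one_le
  -- a bound for the distance from `u j g`
  have key : ∀ (a : ℕ → Y) (a' : Y), Tendsto a atTop (𝓝 a') →
      Tendsto (fun j => ∫ x, Φ (a j) (u j (g * x)) ∂(kapM n s)) atTop
        (𝓝 (∫ x, Φ a' (u' (g * x)) ∂(kapM n s))) := by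
    intro a a' ha
    obtain ⟨R, hR⟩ : ∃ R : ℝ, ∀ j, dist (a j) (u j g) ≤ R := by
      obtain ⟨R, hR⟩ := (ha.dist (tu g)).bddAbove_range
      exact ⟨R, fun j => hR ⟨j, rfl⟩⟩
    have hR0 : 0 ≤ R := dist_nonneg.trans (hR 0)
    set b : SUGroup n → ℝ := fun x => R + L * Real.log (wt x) with hbdef
    have hbc : Continuous b :=
      continuous_const.add (continuous_const.mul (continuous_wt.log fun y => (wtp _).ne'))
    have hbL : Lg (R + |L|) (0 : ℝ) b := by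
      intro x
      have hl := Real.log_nonneg (one_le_wt x)
      rw [Real.dist_eq, zero_sub, abs_neg, hbdef]
      have h1 : |R + L * Real.log (wt x)| ≤ R + |L| * Real.log (wt x) := by
        refine (abs_add_le _ _).trans ?_
        rw [abs_mul, abs_of_nonneg hR0, abs_of_nonneg hl]
      refine h1.trans ?_
      have h2 : 0 ≤ R * Real.log (wt x) := mul_nonneg hR0 hl
      have h3 : 0 ≤ |L| := abs_nonneg _
      nlinarith
    have hbi : Integrable (fun x => κ * (b x) ^ 2) (kapM n s) := by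
      have h1 := (hbL.sqI hbc hs 1).int 0
      simp only [one_mul, Real.dist_eq, zero_sub, abs_neg, sq_abs] at h1
      exact h1.const_mul κ
    refine tendsto_integral_of_dominated_convergence (fun x => κ * (b x) ^ 2) ?_ hbi ?_ ?_
    · intro j
      have h1 : Continuous fun x : SUGroup n => Φ (a j) (u j (g * x)) :=
        hcont.comp (continuous_const.prodMk ((hu j).comp (continuous_const.mul continuous_id)))
      exact h1.aestronglyMeasurable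
    · intro j
      refine Filter.Eventually.of_forall fun x => ?_
      rw [Real.norm_of_nonneg (T.nonneg _ _)]
      refine (T.le _ _).trans (mul_le_mul_of_nonneg_left ?_ hk0)
      refine pow_le_pow_left₀ dist_nonneg ?_ 2
      refine (dist_triangle _ (u j g) _).trans ?_
      exact add_le_add (hR j) (hL j g x)
    · refine Filter.Eventually.of_forall fun x => ?_
      exact (hcont.tendsto (a', u' (g * x))).comp (ha.prodMk_nhds (tu (g * x)))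
  have t1 := key (fun j => v j g) (v' g) (tv g)
  have t2 := key (fun _ => y) y tendsto_const_nhds
  have t3 : Tendsto (fun j => Φ y (v j g)) atTop (𝓝 (Φ y (v' g))) :=
    (hcont.tendsto (y, v' g)).comp (tendsto_const_nhds.prodMk_nhds (tv g))
  exact le_of_tendsto_of_tendsto' (t1.add t3) t2 fun j => hb j g y

private theorem Sp_gam (D : Dat ρ Φ κ lv y₀) {s : ℕ} {f f' : SUGroup n → Y} (hf : Eqv ρ f)
    (hf' : Eqv ρ f') (γ : Γ) (g : SUGroup n) : Sp Φ s f f' ((γ : SUGroup n) * g) =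
      Sp Φ s f f' g := by
  unfold Sp
  refine integral_congr_ae (Filter.Eventually.of_forall fun x => ?_)
  simp only
  rw [hf'.equi, mul_assoc, hf.equi, D.act.phi]

private theorem Sp_nonneg (T : Tgt Φ κ) {s : ℕ} {f f' : SUGroup n → Y} (g : SUGroup n) :
    0 ≤ Sp Φ s f f' g := integral_nonneg fun _ => T.nonneg _ _

/-- a uniform bound for the spread -/
private theorem sp_bound (hΓ : Coc Γ) (hχ : Lat Γ χ) (D : Dat ρ Φ κ lv y₀) {s : ℕ}
    (hs : n + 2 < s) {E : ℝ≥0∞} (hE : E ≠ ⊤) : ∃ S : ℝ, 0 ≤ S ∧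
      ∀ (C : ℝ) (f f' : SUGroup n → Y), Eqv ρ f → Eqv ρ f' → Lg C y₀ f → Bs Φ s f f' →
        LJ χ Φ s f' f ≤ E → ∀ g, Sp Φ s f f' g ≤ S ^ 2 := by
  obtain ⟨F, hF, hcov⟩ := hΓ.cpt
  set B : Set (SUGroup n) := {x : SUGroup n | ch x ≤ 2} with hB
  have hBc : IsCompact B := isCompact_ball 2
  have hBm : MeasurableSet B := hBc.isClosed.measurableSet
  have hB0 : (mu n) B ≠ 0 := by
    have h1 : {x : SUGroup n | ch x < 2} ⊆ B := fun x hx => show ch x ≤ 2 from le_of_lt hx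
    have h2 : IsOpen {x : SUGroup n | ch x < 2} := isOpen_lt continuous_ch continuous_const
    have h3 : 0 < (mu n) {x : SUGroup n | ch x < 2} :=
      h2.measure_pos (mu n) ⟨1, by rw [Set.mem_setOf_eq, ch_one]; norm_num⟩
    exact (h3.trans_le (measure_mono h1)).ne'
  have hB1 : (mu n) B ≠ ⊤ := hBc.measure_lt_top.ne
  -- lower bound for `χ`
  obtain ⟨c, hc, hcl⟩ : ∃ c : ℝ, 0 < c ∧ ∀ g ∈ F, ∀ x ∈ B, c ≤ χ (g * x) := by
    have hK : IsCompact ((fun p : SUGroup n × SUGroup n => p.1 * p.2) '' (F ×ˢ B)) :=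
      (hF.prod hBc).image (by fun_prop)
    rcases Set.eq_empty_or_nonempty ((fun p : SUGroup n × SUGroup n => p.1 * p.2) '' (F ×ˢ B))
      with h0 | h0
    · refine ⟨1, one_pos, fun g hg x hx => ?_⟩
      have : g * x ∈ (fun p : SUGroup n × SUGroup n => p.1 * p.2) '' (F ×ˢ B) :=
        ⟨(g, x), ⟨hg, hx⟩, rfl⟩
      rw [h0] at this
      exact absurd this (Set.notMem_empty _)
    · obtain ⟨z, -, hz⟩ := hK.exists_isMinOn h0 hχ.cont.continuousOn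
      exact ⟨χ z, hχ.pos z, fun g hg x hx => hz ⟨(g, x), ⟨hg, hx⟩, rfl⟩⟩
  set M : ℝ := 4 ^ (2 * s) with hM
  have hM0 : 0 ≤ M := by positivity
  set A : ℝ≥0∞ := ENNReal.ofReal M * E / (ENNReal.ofReal c * (mu n) B) with hA
  have hcB : ENNReal.ofReal c * (mu n) B ≠ 0 :=
    mul_ne_zero (ENNReal.ofReal_pos.2 hc).ne' hB0
  have hcB' : ENNReal.ofReal c * (mu n) B ≠ ⊤ := ENNReal.mul_ne_top ENNReal.ofReal_ne_top hB1
  have hA1 : A ≠ ⊤ := ENNReal.div_ne_top (ENNReal.mul_ne_top ENNReal.ofReal_ne_top hE) hcB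
  refine ⟨Real.sqrt A.toReal, Real.sqrt_nonneg _, ?_⟩
  intro C f f' hf hf' hg hb hJ g
  rw [Real.sq_sqrt ENNReal.toReal_nonneg]
  obtain ⟨γ, hγ, hγF⟩ := hcov g
  rw [← Sp_gam D hf hf' ⟨γ, hγ⟩ g]
  set a : SUGroup n := γ * g with ha
  change Sp Φ s f f' a ≤ A.toReal
  rw [← ENNReal.ofReal_le_iff_le_toReal hA1, hA, ENNReal.le_div_iff_mul_le (Or.inl hcB)
    (Or.inl hcB')]
  have hharn : ∀ x ∈ B, Sp Φ s f f' a ≤ M * Sp Φ s f f' (a * x) := by
    intro x hx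
    have h1 := Sp_harn D.tgt hs hf.cont hg hb (a * x) x⁻¹
    rw [mul_inv_cancel_right, wt_inv] at h1
    refine h1.trans (mul_le_mul_of_nonneg_right ?_ (Sp_nonneg D.tgt _))
    refine pow_le_pow_left₀ (wtp x).le ?_ _
    have h2 := wt_le x
    have h3 : ch x ≤ 2 := hx
    linarith
  calc ENNReal.ofReal (Sp Φ s f f' a) * (ENNReal.ofReal c * (mu n) B)
      = ∫⁻ _x in B, ENNReal.ofReal (Sp Φ s f f' a) * ENNReal.ofReal c ∂(mu n) := by
        rw [setLIntegral_const, mul_assoc]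
    _ ≤ ∫⁻ x in B, ENNReal.ofReal M * (ENNReal.ofReal (χ (a * x)) *
          ENNReal.ofReal (Sp Φ s f f' (a * x))) ∂(mu n) := by
        refine setLIntegral_mono' hBm fun x hx => ?_
        rw [← ENNReal.ofReal_mul (Sp_nonneg D.tgt _), ← ENNReal.ofReal_mul (hχ.pos _).le,
          ← ENNReal.ofReal_mul hM0]
        refine ENNReal.ofReal_le_ofReal ?_
        have h1 := hharn x hx
        have h2 := hcl a hγF x hx
        have h3 : 0 ≤ Sp Φ s f f' (a * x) := Sp_nonneg D.tgt _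
        calc Sp Φ s f f' a * c ≤ (M * Sp Φ s f f' (a * x)) * χ (a * x) :=
              mul_le_mul h1 h2 hc.le (mul_nonneg hM0 h3)
          _ = M * (χ (a * x) * Sp Φ s f f' (a * x)) := by ring
    _ ≤ ∫⁻ x, ENNReal.ofReal M * (ENNReal.ofReal (χ (a * x)) *
          ENNReal.ofReal (Sp Φ s f f' (a * x))) ∂(mu n) := setLIntegral_le_lintegral _ _
    _ = ∫⁻ x, ENNReal.ofReal M * (ENNReal.ofReal (χ x) *
          ENNReal.ofReal (Sp Φ s f f' x)) ∂(mu n) :=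
        lintegral_mul_left_eq_self (μ := mu n) (fun x => ENNReal.ofReal M *
          (ENNReal.ofReal (χ x) * ENNReal.ofReal (Sp Φ s f f' x))) a
    _ = ENNReal.ofReal M * LI χ (fun x => ENNReal.ofReal (Sp Φ s f f' x)) := by
        rw [lintegral_const_mul' _ _ ENNReal.ofReal_ne_top]
        rfl
    _ = ENNReal.ofReal M * LJ χ Φ s f' f := by rw [LJ_spread hχ D.tgt hs hf.cont hg hb]
    _ ≤ ENNReal.ofReal M * E := by gcongr

/-- The iteration: the maps `bar_s^k f₀` are uniformly Lipschitz and bounded at `1`. PROOF: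
`exists_bs` (with `Eqv.growth`); `LJ (f (k+2)) (f (k+1)) ≤ LJ (f k) (f (k+1)) = LJ (f (k+1)) (f k)`
(`LJ_bar`, `LJ_symm`); `LI (Sp) = LJ ≤ LJ f₀ f₀ < ⊤` (`LJ_spread`), so at some point of each
`{ch ≤ 2} g` the spread is `≤ E'`, and `Sp_harn` with cocompactness bounds the spread everywhere;
`Bs.lip`; `D.irr` with `dist (f 1) (ρ γ (f 1)) = dist (f 1) (f γ) ≤ L log wt γ`. -/
theorem exists_iter [ProperSpace Y] (hn : 1 ≤ n) (hΓ : Coc Γ) (hχ : Lat Γ χ)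
    (D : Dat ρ Φ κ lv y₀) {f₀ : SUGroup n → Y} (h0 : Eqv ρ f₀) (hl : ∀ g, lv (f₀ g) = 0)
    {s : ℕ} (hs : n + 2 < s) (hfin : LJ χ Φ s f₀ f₀ ≠ ⊤) :
    ∃ (f : ℕ → SUGroup n → Y) (L C : ℝ), f 0 = f₀ ∧ (∀ k, Eqv ρ (f k)) ∧
      (∀ k g, lv (f k g) = 0) ∧ (∀ k, Bs Φ s (f k) (f (k + 1))) ∧ (∀ k, LipD L (f (k + 1))) ∧
      (∀ k, dist y₀ (f (k + 1) 1) ≤ C) ∧
      (∀ k, LJ χ Φ s (f (k + 2)) (f (k + 1)) ≤ LJ χ Φ s (f (k + 1)) (f k)) ∧
      LJ χ Φ s (f 1) (f 0) ≤ LJ χ Φ s f₀ f₀ := by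
  have hstep : ∀ f : {f : SUGroup n → Y // Eqv ρ f ∧ ∀ g, lv (f g) = 0},
      ∃ f' : {f : SUGroup n → Y // Eqv ρ f ∧ ∀ g, lv (f g) = 0}, Bs Φ s f.1 f'.1 := by
    rintro ⟨f, hf, hf0⟩
    obtain ⟨C, hC⟩ := hf.growth hn hΓ D.act y₀
    obtain ⟨f', h1, h2, h3⟩ := exists_bs D hs hf hC hf0
    exact ⟨⟨f', h1, h3⟩, h2⟩
  choose nx hnx using hstep
  set F : ℕ → {f : SUGroup n → Y // Eqv ρ f ∧ ∀ g, lv (f g) = 0} :=
    fun k => nx^[k] ⟨f₀, h0, hl⟩ with hF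
  have hF0 : (F 0).1 = f₀ := rfl
  have hFb : ∀ k, Bs Φ s (F k).1 (F (k + 1)).1 := by
    intro k
    have h1 : F (k + 1) = nx (F k) := Function.iterate_succ_apply' nx k _
    rw [h1]
    exact hnx _
  have hgr : ∀ k, ∃ C : ℝ, Lg C y₀ (F k).1 := fun k => (F k).2.1.growth hn hΓ D.act y₀
  have hdec : ∀ (h : SUGroup n → Y) (_ : Continuous h) (k : ℕ),
      LJ χ Φ s (F (k + 1)).1 (F k).1 ≤ LJ χ Φ s h (F k).1 := by
    intro h hh k
    obtain ⟨C, hC⟩ := hgr k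
    exact le_self_add.trans
      (LJ_bar hχ D.tgt hs hh (F k).2.1.cont (F (k + 1)).2.1.cont hC (hFb k))
  have hE1 : LJ χ Φ s (F 1).1 (F 0).1 ≤ LJ χ Φ s f₀ f₀ := hdec f₀ h0.cont 0
  have hE2 : ∀ k, LJ χ Φ s (F (k + 2)).1 (F (k + 1)).1 ≤ LJ χ Φ s (F (k + 1)).1 (F k).1 := by
    intro k
    refine (hdec (F k).1 (F k).2.1.cont (k + 1)).trans ?_
    rw [LJ_symm hχ D.tgt D.act (F k).2.1 (F (k + 1)).2.1]
  have hE3 : ∀ k, LJ χ Φ s (F (k + 1)).1 (F k).1 ≤ LJ χ Φ s f₀ f₀ := by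
    intro k
    induction k with
    | zero => exact hE1
    | succ k ih => exact (hE2 k).trans ih
  obtain ⟨S, hS0, hS⟩ := sp_bound hΓ hχ D hs hfin
  have hLip : ∀ k, LipD (8 * κ * s * S) (F (k + 1)).1 := by
    intro k
    obtain ⟨C, hC⟩ := hgr k
    exact Bs.lip hn D.tgt hs (F k).2.1.cont hC (hFb k) hS0
      (hS C _ _ (F k).2.1 (F (k + 1)).2.1 hC (hFb k) (hE3 k))
  obtain ⟨T, hT⟩ := D.irr
  obtain ⟨C', hC'⟩ := hT (∑ γ ∈ T, |8 * κ * s * S * Real.log (wt (γ : SUGroup n))|)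
  refine ⟨fun k => (F k).1, 8 * κ * s * S, C', hF0, fun k => (F k).2.1, fun k => (F k).2.2,
    hFb, hLip, fun k => ?_, hE2, hE1⟩
  refine hC' _ ((F (k + 1)).2.2 1) fun γ hγ => ?_
  rw [← (F (k + 1)).2.1.equi, mul_one]
  have h1 := hLip k 1 (γ : SUGroup n)
  rw [one_mul] at h1
  refine (h1.trans (le_abs_self _)).trans ?_
  exact Finset.single_le_sum
    (f := fun γ : Γ => |8 * κ * s * S * Real.log (wt (γ : SUGroup n))|)
    (fun _ _ => abs_nonneg _) hγ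

/-- **Existence of pairs** (B5), with an energy bound `c / s`, `c` independent of `s`. PROOF:
`exists_iter`, `LJ_lip`; `exists_seq` gives `φ` with `f (φ j + 1) → f` locally uniformly; the
inequality `IsBar` passes to the limit (`f (φ j + 2) → f'`: they are uniformly Lipschitz, every
subsequence has a convergent subsequence and the limit is `bar_s f` by uniqueness), so
`f' = bar_s f`, `f (φ j + 3) → f'' = bar_s f'`. `LJ f' f = lim = LJ f'' f'` (`LJ_tendsto`, decreasing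
sequence), `LJ f f' = LJ f' f` and `LJ_bar` with `h = f`: `LI (Φ (f, f'')) = 0`, `f = f''` (continuous
functions, `χ > 0`). -/
theorem exists_pairY [ProperSpace Y] (hn : 1 ≤ n) (hΓ : Coc Γ) (hχ : Lat Γ χ)
    (D : Dat ρ Φ κ lv y₀) {f₀ : SUGroup n → Y} (h0 : Eqv ρ f₀) (hl : ∀ g, lv (f₀ g) = 0)
    {L : ℝ} (hL : LipD L f₀) : ∃ (s₀ : ℕ) (c : ℝ), 0 < c ∧ ∀ s, s₀ ≤ s →
      ∃ f f' : SUGroup n → Y, PairY ρ Φ lv y₀ χ c s f f' := by
  obtain ⟨s₁, K, hK, hlip⟩ := LJ_lip n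
  have hk0 : 0 ≤ κ := zero_le_one.trans D.tgt.one_le
  have hV : LI χ 1 < ⊤ := hχ.LI_one
  set V : ℝ := (LI χ 1).toReal with hVdef
  have hV0 : 0 ≤ V := ENNReal.toReal_nonneg
  have hVe : LI χ 1 = ENNReal.ofReal V := (ENNReal.ofReal_toReal hV.ne).symm
  refine ⟨max s₁ (n + 3), K * κ * L ^ 2 * V + 1, by positivity, fun s hs => ?_⟩
  have hs1 : s₁ ≤ s := (le_max_left _ _).trans hs
  have hs2 : n + 2 < s := lt_of_lt_of_le (by omega) ((le_max_right _ _).trans hs)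
  have hs0 : (0 : ℝ) < s := by exact_mod_cast (by omega : 0 < s)
  have hen0 : LJ χ Φ s f₀ f₀ ≤ ENNReal.ofReal ((K * κ * L ^ 2 * V + 1) / s) := by
    refine (hlip D.tgt hχ s hs1 L f₀ h0.cont hL).trans ?_
    rw [hVe, ← ENNReal.ofReal_mul (by positivity)]
    refine ENNReal.ofReal_le_ofReal ?_
    rw [div_mul_eq_mul_div]
    exact div_le_div_of_nonneg_right (by linarith) hs0.le
  have hfin : LJ χ Φ s f₀ f₀ ≠ ⊤ := (hen0.trans_lt ENNReal.ofReal_lt_top).ne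
  obtain ⟨f, L', C, -, hE, hlv, hbs, hLip, hC, hdec, hst⟩ :=
    exists_iter hn hΓ hχ D h0 hl hs2 hfin
  have hpt : ∀ k x, dist y₀ (f (k + 1) x) ≤ C + L' * Real.log (wt x) := by
    intro k x
    have h1 := hLip k 1 x
    rw [one_mul] at h1
    exact (dist_triangle _ (f (k + 1) 1) _).trans (add_le_add (hC k) h1)
  -- compactness for any choice of indices
  have hcpt : ∀ θ : ℕ → ℕ, ∃ (φ : ℕ → ℕ) (p : SUGroup n → Y), StrictMono φ ∧ Continuous p ∧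
      TendstoLocallyUniformly (fun j => f (θ (φ j) + 1)) p atTop := by
    intro θ
    refine exists_seq (fun k => f (θ k + 1)) y₀ (fun x => ⟨C + L' * Real.log (wt x),
      fun k => hpt _ x⟩) ?_
    intro x ε hε
    obtain ⟨U, hU, h1⟩ := lip_equi L' x ε hε
    exact ⟨U, hU, 0, fun k _ y hy => ((hLip (θ k)).to x y).trans (h1 y hy)⟩
  obtain ⟨φ₁, p₀, hφ₁, hp₀, t₀⟩ := hcpt fun j => j
  obtain ⟨φ₂, p₁, hφ₂, hp₁, t₁⟩ := hcpt fun j => φ₁ j + 1
  obtain ⟨φ₃, p₂, hφ₃, hp₂, t₂⟩ := hcpt fun j => φ₁ (φ₂ j) + 2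
  have hθ : StrictMono fun j => φ₁ (φ₂ (φ₃ j)) := hφ₁.comp (hφ₂.comp hφ₃)
  set θ : ℕ → ℕ := fun j => φ₁ (φ₂ (φ₃ j)) with hθdef
  have u₀ : TendstoLocallyUniformly (fun j => f (θ j + 1)) p₀ atTop :=
    tlu_comp t₀ (hφ₂.comp hφ₃)
  have u₁ : TendstoLocallyUniformly (fun j => f (θ j + 2)) p₁ atTop := tlu_comp t₁ hφ₃
  have u₂ : TendstoLocallyUniformly (fun j => f (θ j + 3)) p₂ atTop := t₂
  have q₀ : ∀ g, Tendsto (fun j => f (θ j + 1) g) atTop (𝓝 (p₀ g)) := fun g => tlu_at u₀ g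
  have q₁ : ∀ g, Tendsto (fun j => f (θ j + 2) g) atTop (𝓝 (p₁ g)) := fun g => tlu_at u₁ g
  have q₂ : ∀ g, Tendsto (fun j => f (θ j + 3) g) atTop (𝓝 (p₂ g)) := fun g => tlu_at u₂ g
  -- the limits are equivariant
  have heq : ∀ (m : ℕ) (p : SUGroup n → Y), Continuous p →
      (∀ g, Tendsto (fun j => f (θ j + m) g) atTop (𝓝 (p g))) →
      Eqv ρ p ∧ ∀ g, lv (p g) = 0 := by
    intro m p hp hq
    refine ⟨⟨hp, fun g k hk => ?_, fun γ g => ?_⟩, fun g => ?_⟩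
    · refine tendsto_nhds_unique (hq (g * k)) ?_
      exact (hq g).congr fun j => ((hE _).kinv g k hk).symm
    · refine tendsto_nhds_unique (hq ((γ : SUGroup n) * g)) ?_
      have hc : Continuous (ρ γ) :=
        (Isometry.of_dist_eq fun a b => D.act.iso γ a b).continuous
      exact ((hc.tendsto (p g)).comp (hq g)).congr fun j => ((hE _).equi γ g).symm
    · obtain ⟨K', hK', hlvl⟩ := D.up.lip
      have hc : Continuous lv := by
        refine LipschitzWith.continuous (K := K'.toNNReal) (LipschitzWith.of_dist_le_mul ?_)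
        intro a b
        rw [Real.dist_eq, Real.coe_toNNReal _ hK']
        exact hlvl a b
      refine tendsto_nhds_unique ((hc.tendsto (p g)).comp (hq g)) ?_
      have : (lv ∘ fun j => f (θ j + m) g) = fun _ => (0 : ℝ) := by
        funext j
        exact hlv _ g
      rw [this]
      exact tendsto_const_nhds
  obtain ⟨e₀, l₀⟩ := heq 1 p₀ hp₀ q₀
  obtain ⟨e₁, l₁⟩ := heq 2 p₁ hp₁ q₁
  obtain ⟨e₂, l₂⟩ := heq 3 p₂ hp₂ q₂
  obtain ⟨C₀, g₀⟩ := e₀.growth hn hΓ D.act y₀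
  obtain ⟨C₁, g₁⟩ := e₁.growth hn hΓ D.act y₀
  have b₀ : Bs Φ s p₀ p₁ := bs_lim D.tgt hs2 (fun j => (hE (θ j + 1)).cont)
    (fun j => hLip (θ j)) q₀ q₁ fun j => hbs (θ j + 1)
  have b₁ : Bs Φ s p₁ p₂ := bs_lim D.tgt hs2 (fun j => (hE (θ j + 2)).cont)
    (fun j => hLip (θ j + 1)) q₁ q₂ fun j => hbs (θ j + 2)
  -- the energies
  set e : ℕ → ℝ≥0∞ := fun k => LJ χ Φ s (f (k + 1)) (f k) with hedef
  have hanti : Antitone e := antitone_nat_of_succ_le hdec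
  have hbound : ∀ k, e k ≤ LJ χ Φ s f₀ f₀ := fun k => (hanti (Nat.zero_le k)).trans hst
  have hlim : Tendsto e atTop (𝓝 (⨅ k, e k)) := tendsto_atTop_iInf hanti
  have hθ1 : Tendsto (fun j => θ j + 1) atTop atTop :=
    (tendsto_add_atTop_nat 1).comp hθ.tendsto_atTop
  have hθ2 : Tendsto (fun j => θ j + 2) atTop atTop :=
    (tendsto_add_atTop_nat 2).comp hθ.tendsto_atTop
  have r₀ : Tendsto (fun j => LJ χ Φ s (f (θ j + 2)) (f (θ j + 1))) atTop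
      (𝓝 (LJ χ Φ s p₁ p₀)) := LJ_tendsto hn hΓ hχ D.tgt D.act hs2 (fun j => hE (θ j + 2))
    (fun j => hE (θ j + 1)) (fun j => hLip (θ j + 1)) (fun j => hLip (θ j)) u₁ u₀
  have r₁ : Tendsto (fun j => LJ χ Φ s (f (θ j + 3)) (f (θ j + 2))) atTop
      (𝓝 (LJ χ Φ s p₂ p₁)) := LJ_tendsto hn hΓ hχ D.tgt D.act hs2 (fun j => hE (θ j + 3))
    (fun j => hE (θ j + 2)) (fun j => hLip (θ j + 2)) (fun j => hLip (θ j + 1)) u₂ u₁
  have i₀ : LJ χ Φ s p₁ p₀ = ⨅ k, e k := tendsto_nhds_unique r₀ (hlim.comp hθ1)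
  have i₁ : LJ χ Φ s p₂ p₁ = ⨅ k, e k := tendsto_nhds_unique r₁ (hlim.comp hθ2)
  have hEn : LJ χ Φ s p₁ p₀ ≤ LJ χ Φ s f₀ f₀ := i₀.le.trans ((iInf_le e 0).trans (hbound 0))
  have hfin' : LJ χ Φ s p₂ p₁ ≠ ⊤ := by
    rw [i₁, ← i₀]
    exact (hEn.trans_lt (lt_top_iff_ne_top.2 hfin)).ne
  have hbar := LJ_bar hχ D.tgt hs2 hp₀ hp₁ hp₂ g₁ b₁
  rw [LJ_symm hχ D.tgt D.act e₀ e₁, i₀, ← i₁] at hbar
  have hz : LI χ (fun g => ENNReal.ofReal (Φ (p₀ g) (p₂ g))) = 0 := by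
    have h1 : LJ χ Φ s p₂ p₁ + LI χ (fun g => ENNReal.ofReal (Φ (p₀ g) (p₂ g))) ≤
        LJ χ Φ s p₂ p₁ + 0 := by rw [add_zero]; exact hbar
    exact le_antisymm ((ENNReal.add_le_add_iff_left hfin').1 h1) zero_le
  have hcr : Continuous fun g : SUGroup n => Φ (p₀ g) (p₂ g) :=
    D.tgt.continuous.comp (hp₀.prodMk hp₂)
  have hae : (fun g : SUGroup n => Φ (p₀ g) (p₂ g)) =ᵐ[mu n] fun _ => (0 : ℝ) := by
    have hm : Measurable fun g => ENNReal.ofReal (χ g) * ENNReal.ofReal (Φ (p₀ g) (p₂ g)) :=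
      hχ.measurable.mul hcr.measurable.ennreal_ofReal
    have hz' : ∫⁻ g, ENNReal.ofReal (χ g) * ENNReal.ofReal (Φ (p₀ g) (p₂ g)) ∂(mu n) = 0 := hz
    filter_upwards [(lintegral_eq_zero_iff hm).1 hz'] with g hg
    have h1 : ENNReal.ofReal (χ g) * ENNReal.ofReal (Φ (p₀ g) (p₂ g)) = 0 := hg
    rcases mul_eq_zero.1 h1 with h2 | h2
    · exact absurd h2 (ENNReal.ofReal_pos.2 (hχ.pos g)).ne'
    · exact le_antisymm (ENNReal.ofReal_eq_zero.1 h2) (D.tgt.nonneg _ _)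
  have hev := (Continuous.ae_eq_iff_eq (mu n) hcr continuous_const).1 hae
  have hpp : p₂ = p₀ := funext fun g => (D.tgt.eq (congrFun hev g).le).symm
  rw [hpp] at b₁
  exact ⟨p₀, p₁, e₀, e₁, l₀, l₁, ⟨C₀, g₀⟩, ⟨C₁, g₁⟩, b₀, b₁, hEn.trans hen0⟩

end Pool.Agent.Lib.MP_5d4057_al.IN
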