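import Mathlib

/-!
# Places of a number field at which a given element is not integral

Part F of INT: an element `x` of a number field `K` which is not an algebraic integer has absolute
value greater than one for some embedding of `K` into a nonarchimedean local field of characteristic
zero.
-/

set_option autoImplicit false

namespace Pool.Agent.Lib.MP_5d4057_al.IN

open Polynomial

/-- A monic split polynomial with roots of norm at most one has coefficients of norm at most one. -/
theorem norm_coeff_prod_le {L : Type} [NormedField L] [IsUltrametricDist L] (s : Multiset L)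
    (hs : ∀ a ∈ s, ‖a‖ ≤ 1) (i : ℕ) : ‖((s.map fun a => X - C a).prod).coeff i‖ ≤ 1 := by
  induction s using Multiset.induction generalizing i with
  | empty =>
    rw [Multiset.map_zero, Multiset.prod_zero, coeff_one]
    split_ifs <;> simp
  | cons a s ih =>
    have h1 := hs a (Multiset.mem_cons_self a s)
    have h2 := ih fun b hb => hs b (Multiset.mem_cons_of_mem hb)
    rw [Multiset.map_cons, Multiset.prod_cons, sub_mul, coeff_sub, coeff_C_mul,
      sub_eq_add_neg]
    refine (IsUltrametricDist.norm_add_le_max _ _).trans (max_le ?_ ?_)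
    · cases i with
      | zero => rw [coeff_zero_eq_eval_zero]; simp
      | succ i => rw [coeff_X_mul]; exact h2 i
    · rw [norm_neg, norm_mul]
      exact mul_le_one₀ h1 (norm_nonneg _) (h2 i)

/-- A rational number which is integral at all primes is an integer. -/
theorem exists_int_of_norm_le {c : ℚ} (h : ∀ (p : ℕ) [Fact p.Prime], ‖(c : ℚ_[p])‖ ≤ 1) :
    ∃ z : ℤ, (z : ℚ) = c := by
  refine ⟨c.num, ?_⟩
  have hd : c.den = 1 := by
    by_contra hne
    obtain ⟨p, hp, hpd⟩ := Nat.exists_prime_and_dvd hne
    have : Fact p.Prime := ⟨hp⟩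
    have h1 := PadicInt.isUnit_den c (h p)
    have h2 := PadicInt.isUnit_iff.1 h1
    have h3 : ‖((c.den : ℤ_[p]))‖ < 1 := by
      have h4 : ‖(((c.den : ℤ) : ℚ_[p]))‖ < 1 := by
        rw [Padic.norm_intCast_lt_one_iff]
        exact_mod_cast hpd
      have h5 : ‖((c.den : ℤ_[p]))‖ = ‖(((c.den : ℤ) : ℚ_[p]))‖ := by
        rw [PadicInt.norm_def]
        push_cast
        rfl
      rw [h5]
      exact h4
    exact absurd h2 h3.ne
  conv_rhs => rw [← Rat.num_div_den c]
  rw [hd]
  simp

/-- An element of a number field which is not an algebraic integer is not integral at some place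
over a prime `p`. -/
theorem exists_padic {K : Type} [Field K] [CharZero K] [FiniteDimensional ℚ K] {x : K}
    (hx : ¬ IsIntegral ℤ x) : ∃ (p : ℕ) (_ : Fact p.Prime) (σ : K →+* PadicAlgCl p),
      1 < ‖σ x‖ := by
  by_contra hcon
  push Not at hcon
  refine hx ?_
  have hint : IsIntegral ℚ x := Algebra.IsIntegral.isIntegral x
  set f := minpoly ℚ x with hf
  have hmon : f.Monic := minpoly.monic hint
  -- all coefficients are integers
  have hc : ∀ i, ∃ z : ℤ, (z : ℚ) = f.coeff i := by
    intro i
    refine exists_int_of_norm_le fun p hp => ?_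
    have hsp : (f.map (algebraMap ℚ (PadicAlgCl p))).Splits := IsAlgClosed.splits _
    have hroot : ∀ a ∈ (f.map (algebraMap ℚ (PadicAlgCl p))).roots, ‖a‖ ≤ 1 := by
      intro a ha
      have ha' : aeval a f = 0 := by
        have := (mem_roots'.1 ha).2
        rwa [IsRoot.def, eval_map_algebraMap] at this
      obtain ⟨φ, hφ⟩ := IntermediateField.exists_algHom_of_splits_of_aeval (F := ℚ) (E := K)
        (K := PadicAlgCl p) (x := x) (y := a)
        (fun s => ⟨Algebra.IsIntegral.isIntegral s, IsAlgClosed.splits _⟩) ha'
      have := hcon p hp φ.toRingHom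
      rw [← hφ]
      exact this
    have h1 := hsp.eq_prod_roots
    rw [(hmon.map _).leadingCoeff, C_1, one_mul] at h1
    have h2 := norm_coeff_prod_le _ hroot i
    rw [← h1, coeff_map] at h2
    have h3 : algebraMap ℚ (PadicAlgCl p) (f.coeff i) =
        ((((f.coeff i : ℚ) : ℚ_[p]) : ℚ_[p]) : PadicAlgCl p) := by
      simp
    rw [h3, PadicAlgCl.norm_extends] at h2
    exact h2
  choose z hz using hc
  -- a monic integral polynomial
  have hlift : f ∈ Polynomial.lifts (algebraMap ℤ ℚ) := by
    rw [Polynomial.lifts_iff_coeff_lifts]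
    intro i
    exact ⟨z i, by rw [← hz i]; rfl⟩
  obtain ⟨g, hg, -, hgm⟩ := Polynomial.lifts_and_degree_eq_and_monic hlift hmon
  refine ⟨g, hgm, ?_⟩
  have h1 : aeval x f = 0 := minpoly.aeval ℚ x
  rw [← hg, aeval_map_algebraMap] at h1
  exact h1

/-- The local field generated by the image of a number field. -/
theorem exists_place {K : Type} [Field K] [CharZero K] [FiniteDimensional ℚ K] {x : K}
    (hx : ¬ IsIntegral ℤ x) : ∃ (k : Type) (_ : NontriviallyNormedField k)
      (_ : IsUltrametricDist k) (_ : ProperSpace k) (_ : CharZero k) (σ : K →+* k),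
        1 < ‖σ x‖ := by
  obtain ⟨p, hp, σ, hσ⟩ := exists_padic hx
  set b := Module.finBasis ℚ K
  set S : Set (PadicAlgCl p) := Set.range fun i => σ (b i) with hS
  have hSf : Finite S := Set.finite_range _
  set k := IntermediateField.adjoin ℚ_[p] S with hk
  have hfd : FiniteDimensional ℚ_[p] k :=
    IntermediateField.finiteDimensional_adjoin fun x _ => Algebra.IsIntegral.isIntegral x
  have hmem : ∀ y : K, σ y ∈ k := by
    intro y
    rw [← b.sum_repr y, map_sum]
    refine sum_mem fun i _ => ?_
    have h1 : σ (b.repr y i • b i) = algebraMap ℚ (PadicAlgCl p) (b.repr y i) * σ (b i) := by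
      rw [Algebra.smul_def, map_mul]
      congr 1
      exact (RingHom.congr_fun (Subsingleton.elim (σ.comp (algebraMap ℚ K))
        (algebraMap ℚ (PadicAlgCl p))) _)
    rw [h1]
    refine mul_mem ?_ (IntermediateField.subset_adjoin _ _ ⟨i, rfl⟩)
    have h2 : algebraMap ℚ (PadicAlgCl p) (b.repr y i) =
        algebraMap ℚ_[p] (PadicAlgCl p) ((b.repr y i : ℚ) : ℚ_[p]) := by simp
    rw [h2]
    exact k.algebraMap_mem _
  have hpr : ProperSpace k := FiniteDimensional.proper ℚ_[p] k
  exact ⟨k, inferInstance, inferInstance, hpr, inferInstance, σ.codRestrict k hmem, hσ⟩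

end Pool.Agent.Lib.MP_5d4057_al.IN
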