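import Pool.Agent.Lib.MP_5d4057_al.IN.Ball

/-! Rotation invariance of the law of the ball coordinate (text B13). The proof uses characteristic functions:
the law of `zc x` is invariant under the unitary group, so its characteristic function is radial. -/

set_option autoImplicit false

namespace Pool.Agent.Lib.MP_5d4057_al.IN

open Matrix MeasureTheory Filter Topology Pool.Agent.Lib.MP_5d4057_al Pool.Agent.Lib.MP_5d4057_al.Hyb
  Pool.Agent.Lib.MP_5d4057_al.HM

variable {n : ℕ}

/-! ### Unitary matrices -/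

private theorem ra_hp_star (z w : Fin n → ℂ) : star (hp z w) = hp w z := by
  simp only [hp, star_sum, star_mul', star_star]
  exact Finset.sum_congr rfl fun j _ => by ring

private theorem ra_hp_self (z : Fin n → ℂ) : hp z z = ((nr z ^ 2 : ℝ) : ℂ) := by
  rw [nr_sq, hp, Complex.ofReal_sum]
  refine Finset.sum_congr rfl fun j _ => ?_
  rw [RCLike.star_def, Complex.conj_mul']
  push_cast
  rfl

private theorem ra_hp_sub_left (z w u : Fin n → ℂ) : hp (z - w) u = hp z u - hp w u := by
  simp only [hp, Pi.sub_apply, star_sub, sub_mul, Finset.sum_sub_distrib]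

private theorem ra_hp_sub_right (z w u : Fin n → ℂ) : hp z (w - u) = hp z w - hp z u := by
  simp only [hp, Pi.sub_apply, mul_sub, Finset.sum_sub_distrib]

private theorem ra_hp_smul_right (z w : Fin n → ℂ) (c : ℂ) : hp z (c • w) = c * hp z w := by
  simp only [hp, Pi.smul_apply, smul_eq_mul, Finset.mul_sum]
  exact Finset.sum_congr rfl fun j _ => by ring

private theorem ra_hp_smul_left (z w : Fin n → ℂ) (c : ℂ) : hp (c • z) w = star c * hp z w := by
  simp only [hp, Pi.smul_apply, smul_eq_mul, Finset.mul_sum, star_mul']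
  exact Finset.sum_congr rfl fun j _ => by ring

private theorem ra_outer (u : Fin n → ℂ) : vecMulVec u (star u) * vecMulVec u (star u) =
    ((nr u ^ 2 : ℝ) : ℂ) • vecMulVec u (star u) := by
  rw [vecMulVec_mul_vecMulVec, ← ra_hp_self, vecMulVec_smul]
  rfl

/-- Householder -/
private theorem ra_house {z w : Fin n → ℂ} (h : nr z = nr w) {t : ℝ} (ht : hp z w = (t : ℂ)) :
    ∃ A : Matrix (Fin n) (Fin n) ℂ, Aᴴ * A = 1 ∧ A *ᵥ z = w := by
  by_cases hzw : z = w
  · exact ⟨1, by simp, by rw [one_mulVec, hzw]⟩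
  set u : Fin n → ℂ := z - w with hu
  have hne : nr u ≠ 0 := by
    rw [Ne, nr_eq_zero, hu, sub_eq_zero]
    exact hzw
  have h2 : ((nr u ^ 2 : ℝ) : ℂ) ≠ 0 := by exact_mod_cast pow_ne_zero 2 hne
  have hwz : hp w z = (t : ℂ) := by
    rw [← ra_hp_star, ht, RCLike.star_def, Complex.conj_ofReal]
  have h3 : ((nr u ^ 2 : ℝ) : ℂ) = 2 * (((nr z ^ 2 : ℝ) : ℂ) - t) := by
    rw [← ra_hp_self, hu, ra_hp_sub_left, ra_hp_sub_right, ra_hp_sub_right, ra_hp_self, ra_hp_self,
      ht, hwz, h]
    ring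
  have h4 : hp u z = ((nr z ^ 2 : ℝ) : ℂ) - t := by
    rw [hu, ra_hp_sub_left, ra_hp_self, hwz]
  set a : ℂ := (((2 / nr u ^ 2 : ℝ)) : ℂ) with ha
  have ha1 : star a = a := by rw [ha, RCLike.star_def, Complex.conj_ofReal]
  have ha2 : a * ((nr u ^ 2 : ℝ) : ℂ) = 2 := by
    rw [ha, ← Complex.ofReal_mul, div_mul_cancel₀ _ (pow_ne_zero 2 hne)]
    norm_num
  have hherm : (vecMulVec u (star u))ᴴ = vecMulVec u (star u) := by
    rw [conjTranspose_vecMulVec, star_star]
  refine ⟨1 - a • vecMulVec u (star u), ?_, ?_⟩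
  · rw [conjTranspose_sub, conjTranspose_one, conjTranspose_smul, ha1, hherm, sub_mul, one_mul,
      mul_sub, mul_one, smul_mul_smul_comm, ra_outer, smul_smul, mul_assoc, ha2]
    module
  · rw [sub_mulVec, one_mulVec, smul_mulVec, vecMulVec_mulVec]
    have h5 : star u ⬝ᵥ z = hp u z := rfl
    rw [h5, h4]
    have h6 : a * (((nr z ^ 2 : ℝ) : ℂ) - t) = 1 := by
      have := ha2
      rw [h3] at this
      linear_combination this / 2
    funext j
    simp only [Pi.sub_apply, Pi.smul_apply, smul_eq_mul, MulOpposite.smul_eq_mul_unop,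
      MulOpposite.unop_op, hu]
    linear_combination (-(z j - w j)) * h6

private theorem ra_unitary {z w : Fin n → ℂ} (h : nr z = nr w) :
    ∃ A : Matrix (Fin n) (Fin n) ℂ, Aᴴ * A = 1 ∧ A *ᵥ z = w := by
  obtain ⟨c, hc, t, ht⟩ : ∃ c : ℂ, ‖c‖ = 1 ∧ ∃ t : ℝ, c * hp z w = (t : ℂ) := by
    by_cases h0 : hp z w = 0
    · exact ⟨1, norm_one, 0, by rw [h0, mul_zero, Complex.ofReal_zero]⟩
    · have h1 : ‖hp z w‖ ≠ 0 := norm_ne_zero_iff.2 h0
      refine ⟨star (hp z w) / ‖hp z w‖, ?_, ‖hp z w‖, ?_⟩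
      · rw [norm_div, norm_star, Complex.norm_real, norm_norm, div_self h1]
      · have h2 : ((‖hp z w‖ : ℝ) : ℂ) ≠ 0 := by exact_mod_cast h1
        rw [div_mul_eq_mul_div, RCLike.star_def, Complex.conj_mul', sq, mul_div_assoc,
          div_self h2, mul_one]
  have h1 : nr z = nr (c • w) := by rw [nr_smul, hc, one_mul, h]
  obtain ⟨A, hA, hAz⟩ := ra_house h1 (t := t) (by rw [ra_hp_smul_right, ht])
  have hcc : star c * c = 1 := by
    rw [RCLike.star_def, Complex.conj_mul', hc]
    simp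
  refine ⟨star c • A, ?_, ?_⟩
  · rw [conjTranspose_smul, star_star, smul_mul_smul_comm, hA, mul_comm, hcc, one_smul]
  · rw [smul_mulVec, hAz, smul_smul, hcc, one_smul]

/-! ### Block matrices -/

private theorem ra_root (z : ℂ) (hz : ‖z‖ = 1) : ∃ c : ℂ, c ^ (n + 1) = z ∧ ‖c‖ = 1 := by
  obtain ⟨c, hc⟩ : ∃ c : ℂ, c ^ (n + 1) = z := IsAlgClosed.exists_pow_nat_eq _ (Nat.succ_pos n)
  refine ⟨c, hc, ?_⟩
  have h1 := congrArg norm hc
  rw [norm_pow, hz] at h1
  exact (pow_eq_one_iff_of_nonneg (norm_nonneg c) (Nat.succ_ne_zero n)).1 h1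

private noncomputable def ra_blk (A : Matrix (Fin n) (Fin n) ℂ) (d : ℂ) :
    Matrix (Fin (n + 1)) (Fin (n + 1)) ℂ :=
  Matrix.reindex finSumFinEquiv finSumFinEquiv (fromBlocks A 0 0 (d • (1 : Matrix (Fin 1) (Fin 1) ℂ)))

private theorem ra_blk_det (A : Matrix (Fin n) (Fin n) ℂ) (d : ℂ) :
    (ra_blk A d).det = A.det * d := by
  rw [ra_blk, det_reindex_self, det_fromBlocks_zero₂₁, det_smul, det_one, Fintype.card_fin, pow_one,
    mul_one]

private theorem ra_J : J n = ra_blk (1 : Matrix (Fin n) (Fin n) ℂ) (-1) := by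
  rw [ra_blk, J]
  ext i j
  rw [reindex_apply, submatrix_apply]
  refine Fin.lastCases ?_ (fun i => ?_) i <;> refine Fin.lastCases ?_ (fun j => ?_) j
  · have e : finSumFinEquiv.symm (Fin.last n) = (Sum.inr 0 : Fin n ⊕ Fin 1) :=
      (Equiv.symm_apply_eq _).2 rfl
    rw [e]
    simp
  · have e : finSumFinEquiv.symm (Fin.last n) = (Sum.inr 0 : Fin n ⊕ Fin 1) :=
      (Equiv.symm_apply_eq _).2 rfl
    have e2 : finSumFinEquiv.symm j.castSucc = (Sum.inl j : Fin n ⊕ Fin 1) :=
      (Equiv.symm_apply_eq _).2 rfl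
    rw [e, e2, diagonal_apply_ne _ (Fin.castSucc_lt_last j).ne']
    simp
  · have e : finSumFinEquiv.symm (Fin.last n) = (Sum.inr 0 : Fin n ⊕ Fin 1) :=
      (Equiv.symm_apply_eq _).2 rfl
    have e2 : finSumFinEquiv.symm i.castSucc = (Sum.inl i : Fin n ⊕ Fin 1) :=
      (Equiv.symm_apply_eq _).2 rfl
    rw [e, e2, diagonal_apply_ne _ (Fin.castSucc_lt_last i).ne]
    simp
  · have e1 : finSumFinEquiv.symm j.castSucc = (Sum.inl j : Fin n ⊕ Fin 1) :=
      (Equiv.symm_apply_eq _).2 rfl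
    have e2 : finSumFinEquiv.symm i.castSucc = (Sum.inl i : Fin n ⊕ Fin 1) :=
      (Equiv.symm_apply_eq _).2 rfl
    rw [e1, e2, fromBlocks_apply₁₁]
    by_cases hij : i = j
    · subst hij
      rw [diagonal_apply_eq, if_neg (Fin.castSucc_lt_last i).ne, one_apply_eq]
    · rw [diagonal_apply_ne _ (fun h => hij (Fin.castSucc_injective n h)), one_apply_ne hij]

private theorem ra_blk_mul (A B : Matrix (Fin n) (Fin n) ℂ) (d e : ℂ) :
    ra_blk A d * ra_blk B e = ra_blk (A * B) (d * e) := by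
  rw [ra_blk, ra_blk, ra_blk, reindex_apply, reindex_apply, reindex_apply, submatrix_mul_equiv,
    fromBlocks_multiply]
  simp [smul_smul, mul_comm]

private theorem ra_blk_conj (A : Matrix (Fin n) (Fin n) ℂ) (d : ℂ) :
    (ra_blk A d)ᴴ = ra_blk Aᴴ (star d) := by
  rw [ra_blk, ra_blk, conjTranspose_reindex, fromBlocks_conjTranspose]
  simp

private theorem ra_blk_castSucc (A : Matrix (Fin n) (Fin n) ℂ) (d : ℂ) (v : Fin (n + 1) → ℂ)
    (i : Fin n) : (ra_blk A d *ᵥ v) i.castSucc = (A *ᵥ fun j => v j.castSucc) i := by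
  have e : ∀ i : Fin n, finSumFinEquiv.symm i.castSucc = (Sum.inl i : Fin n ⊕ Fin 1) := fun i =>
    (Equiv.symm_apply_eq _).2 rfl
  have e2 : finSumFinEquiv.symm (Fin.last n) = (Sum.inr 0 : Fin n ⊕ Fin 1) :=
    (Equiv.symm_apply_eq _).2 rfl
  rw [mulVec, mulVec, dotProduct, dotProduct, Fin.sum_univ_castSucc]
  simp only [ra_blk, reindex_apply, submatrix_apply, e, e2, fromBlocks_apply₁₁, fromBlocks_apply₁₂,
    Matrix.zero_apply, zero_mul, add_zero]

private theorem ra_blk_last (A : Matrix (Fin n) (Fin n) ℂ) (d : ℂ) (v : Fin (n + 1) → ℂ) :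
    (ra_blk A d *ᵥ v) (Fin.last n) = d * v (Fin.last n) := by
  have e : ∀ i : Fin n, finSumFinEquiv.symm i.castSucc = (Sum.inl i : Fin n ⊕ Fin 1) := fun i =>
    (Equiv.symm_apply_eq _).2 rfl
  have e2 : finSumFinEquiv.symm (Fin.last n) = (Sum.inr 0 : Fin n ⊕ Fin 1) :=
    (Equiv.symm_apply_eq _).2 rfl
  rw [mulVec, dotProduct, Fin.sum_univ_castSucc]
  simp only [ra_blk, reindex_apply, submatrix_apply, e, e2, fromBlocks_apply₂₁, fromBlocks_apply₂₂,
    Matrix.zero_apply, zero_mul, Finset.sum_const_zero, zero_add, Matrix.smul_apply, one_apply_eq,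
    smul_eq_mul, mul_one]

/-- every unitary matrix is realised by an element of the stabiliser -/
private theorem ra_real (B : Matrix (Fin n) (Fin n) ℂ) (hB : Bᴴ * B = 1) :
    ∃ k : SUGroup n, ch k = 1 ∧ ∀ x : SUGroup n, zc (k * x) = B *ᵥ zc x := by
  have hdet : ‖B.det‖ = 1 := by
    have h1 := congrArg det hB
    rw [det_mul, det_conjTranspose, det_one, RCLike.star_def, Complex.conj_mul'] at h1
    have h2 : ‖B.det‖ ^ 2 = 1 := by exact_mod_cast h1
    exact (pow_eq_one_iff_of_nonneg (norm_nonneg _) two_ne_zero).1 h2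
  obtain ⟨c, hc, hc1⟩ := ra_root (n := n) (star B.det) (by rw [norm_star, hdet])
  have hcc : star c * c = 1 := by
    rw [RCLike.star_def, Complex.conj_mul', hc1]
    simp
  have hdd : star B.det * B.det = 1 := by
    rw [RCLike.star_def, Complex.conj_mul', hdet]
    simp
  -- the last entry is `c`
  have hd1 : (ra_blk (c • B) c).det = 1 := by
    rw [ra_blk_det, det_smul, Fintype.card_fin, mul_right_comm, ← pow_succ, hc, hdd]
  have hd2 : (ra_blk (c • B) c)ᴴ * J n * ra_blk (c • B) c = J n := by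
    rw [ra_J, ra_blk_conj, ra_blk_mul, ra_blk_mul, mul_one, conjTranspose_smul,
      smul_mul_smul_comm, hcc, hB, one_smul]
    congr 1
    linear_combination (-1 : ℂ) * hcc
  refine ⟨ofMatrix _ hd1 hd2, ?_, fun x => ?_⟩
  · rw [ch, toMatrix_ofMatrix]
    have h1 := ra_blk_last (c • B) c (Pi.single (Fin.last n) 1)
    rw [mulVec_single_one, Pi.single_eq_same, mul_one] at h1
    have h2 : ra_blk (c • B) c (Fin.last n) (Fin.last n) = c := h1
    rw [h2, hc1]
  · have hc0 : c ≠ 0 := by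
      intro h
      rw [h, norm_zero] at hc1
      exact zero_ne_one hc1
    have h3 : ∀ i, (ofMatrix _ hd1 hd2 * x).toMatrix i (Fin.last n) =
        (ra_blk (c • B) c *ᵥ fun j => x.toMatrix j (Fin.last n)) i := by
      intro i
      rw [toMatrix_mul, toMatrix_ofMatrix, mul_apply]
      rfl
    funext j
    rw [zc, h3, h3, ra_blk_castSucc, ra_blk_last, smul_mulVec, Pi.smul_apply, smul_eq_mul,
      mul_div_mul_left _ _ hc0, mulVec, mulVec, dotProduct, dotProduct, Finset.sum_div]
    exact Finset.sum_congr rfl fun i _ => by rw [zc, mul_div_assoc]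

/-- The stabiliser acts transitively on the spheres of the ball coordinate, by unitary maps. -/
theorem exists_K_zc (hn : 1 ≤ n) {z w : Fin n → ℂ} (h : nr z = nr w) : ∃ k : SUGroup n, ch k = 1 ∧
    ∃ A : Matrix (Fin n) (Fin n) ℂ, Aᴴ * A = 1 ∧ A *ᵥ z = w ∧ ∀ x : SUGroup n, zc (k * x) = A *ᵥ zc x := by
  have _ := hn
  obtain ⟨A, hA, hAz⟩ := ra_unitary h
  obtain ⟨k, hk, hkx⟩ := ra_real A hA
  exact ⟨k, hk, A, hA, hAz, hkx⟩

/-! ### The law -/

private theorem ra_ip (c z : Fin n → ℂ) :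
    ip c z = ∑ j, ((c j).re * (z j).re + (c j).im * (z j).im) := by
  unfold ip hp
  rw [Complex.re_sum]
  refine Finset.sum_congr rfl fun j _ => ?_
  rw [RCLike.star_def, Complex.mul_re, Complex.conj_re, Complex.conj_im]
  ring

private theorem ra_dual (L : StrongDual ℝ (Fin n → ℂ)) : ∃ c : Fin n → ℂ, ∀ z, L z = ip c z := by
  refine ⟨fun j => ⟨L (Pi.single j 1), L (Pi.single j Complex.I)⟩, fun z => ?_⟩
  rw [ra_ip]
  have h1 : z = ∑ j, ((z j).re • (Pi.single j 1 : Fin n → ℂ) +
      (z j).im • (Pi.single j Complex.I : Fin n → ℂ)) := by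
    funext i
    rw [Finset.sum_apply, Finset.sum_eq_single i]
    · simp only [Pi.add_apply, Pi.smul_apply, Pi.single_eq_same, Complex.real_smul, mul_one]
      exact (Complex.re_add_im (z i)).symm
    · intro j _ hj
      simp only [Pi.add_apply, Pi.smul_apply, Pi.single_eq_of_ne hj.symm, smul_zero, add_zero]
    · intro h
      exact absurd (Finset.mem_univ i) h
  conv_lhs => rw [h1]
  rw [map_sum]
  refine Finset.sum_congr rfl fun j _ => ?_
  rw [map_add, map_smul, map_smul, smul_eq_mul, smul_eq_mul]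
  ring

private theorem ra_ip_rf (v c z : Fin n → ℂ) : ip c (rf v z) = ip (rf v c) z := by
  have h1 : ∀ w : Fin n → ℂ, rf v w = w - ((2 * ip v w : ℝ) : ℂ) • v := fun w => rfl
  rw [h1, ip_sub, ip_smul, ip_comm (rf v c) z, h1, ip_sub, ip_smul, ip_comm z c, ip_comm z v,
    ip_comm c v]
  ring

private theorem ra_ip_unitary {A : Matrix (Fin n) (Fin n) ℂ} (hA : Aᴴ * A = 1) (c z : Fin n → ℂ) :
    ip (A *ᵥ c) (A *ᵥ z) = ip c z := by
  have h1 : ∀ a b : Fin n → ℂ, hp a b = star a ⬝ᵥ b := fun a b => rfl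
  unfold ip
  rw [h1, h1, star_mulVec, dotProduct_mulVec, vecMul_vecMul, hA, vecMul_one]

private theorem ra_continuous_rf (v : Fin n → ℂ) : Continuous (rf v) := by
  have h1 : rf v = fun z : Fin n → ℂ => fun j => z j -
      ((2 * ∑ j, ((v j).re * (z j).re + (v j).im * (z j).im) : ℝ) : ℂ) * v j := by
    funext z j
    rw [rf, ra_ip]
  rw [h1]
  fun_prop

private theorem ra_continuous_zc : Continuous (zc (n := n)) :=
  continuous_pi fun j => continuous_zc j

/-- The law on a set which is invariant under the stabiliser. -/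
theorem rot_law_set (hn : 1 ≤ n) {s : ℕ} (hs : n < s) {v : Fin n → ℂ} (hv : nr v = 1)
    {S : Set (SUGroup n)} (hS : MeasurableSet S)
    (hSK : ∀ k x : SUGroup n, ch k = 1 → (k * x ∈ S ↔ x ∈ S))
    {φ : (Fin n → ℂ) → ℝ} (hφ : Measurable φ) :
    ∫ x in S, kap s x * φ (rf v (zc x)) ∂(mu n) = ∫ x in S, kap s x * φ (zc x) ∂(mu n) := by
  set κ : SUGroup n → NNReal := fun x => ⟨kap s x, kap_nonneg s x⟩ with hκ
  have hκm : Measurable κ := (continuous_kap s).measurable.subtype_mk
  set m : Measure (SUGroup n) := ((mu n).restrict S).withDensity fun x => (κ x : ENNReal) with hm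
  have hfin : IsFiniteMeasure m := by
    rw [hm]
    refine isFiniteMeasure_withDensity ?_
    have h1 : Integrable (kap s : SUGroup n → ℝ) ((mu n).restrict S) :=
      (integrable_kap hs).integrableOn
    have h2 := h1.lintegral_lt_top
    have h3 : ∀ x : SUGroup n, (κ x : ENNReal) = ENNReal.ofReal (kap s x) := fun x =>
      (ENNReal.ofReal_eq_coe_nnreal (kap_nonneg s x)).symm
    exact ne_of_lt (lt_of_le_of_lt (lintegral_mono fun x => le_of_eq (h3 x)) h2)
  have hint : ∀ {F : Type} [NormedAddCommGroup F] [NormedSpace ℝ F] (f : SUGroup n → F),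
      ∫ x, f x ∂m = ∫ x in S, kap s x • f x ∂(mu n) := by
    intro F _ _ f
    rw [hm, integral_withDensity_eq_integral_smul hκm]
    rfl
  have hzm : Measurable (zc (n := n)) := ra_continuous_zc.measurable
  have hrm : Measurable fun x : SUGroup n => rf v (zc x) :=
    (ra_continuous_rf v).measurable.comp hzm
  have hf1 : IsFiniteMeasure (m.map (zc (n := n))) := Measure.isFiniteMeasure_map _ _
  have hf2 : IsFiniteMeasure (m.map fun x : SUGroup n => rf v (zc x)) :=
    Measure.isFiniteMeasure_map _ _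
  have key : m.map (fun x : SUGroup n => rf v (zc x)) = m.map (zc (n := n)) := by
    refine Measure.ext_of_charFunDual (funext fun L => ?_)
    obtain ⟨c, hc⟩ := ra_dual L
    have hcm : AEStronglyMeasurable (fun z : Fin n → ℂ => Complex.exp (L z * Complex.I))
        (m.map (zc (n := n))) := by
      exact (by fun_prop : Continuous fun z : Fin n → ℂ =>
        Complex.exp (L z * Complex.I)).aestronglyMeasurable
    have hcm2 : AEStronglyMeasurable (fun z : Fin n → ℂ => Complex.exp (L z * Complex.I))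
        (m.map fun x : SUGroup n => rf v (zc x)) := by
      exact (by fun_prop : Continuous fun z : Fin n → ℂ =>
        Complex.exp (L z * Complex.I)).aestronglyMeasurable
    rw [charFunDual_apply, charFunDual_apply, integral_map hrm.aemeasurable hcm2,
      integral_map hzm.aemeasurable hcm, hint, hint]
    obtain ⟨k, hk, A, hA, hAz, hkx⟩ := exists_K_zc hn (z := rf v c) (w := c) (nr_rf hv c)
    have h1 : ∀ x : SUGroup n, L (rf v (zc x)) = L (zc (k * x)) := by
      intro x
      rw [hc, hc, hkx, ra_ip_rf, ← ra_ip_unitary hA, hAz]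
    have h2 : ∀ x : SUGroup n, S.indicator (fun x => kap s x •
        Complex.exp ((L (rf v (zc x)) : ℂ) * Complex.I)) x =
        S.indicator (fun x => kap s x • Complex.exp ((L (zc x) : ℂ) * Complex.I)) (k * x) := by
      intro x
      have h3 : kap s (k * x) = kap s x := by
        rw [kap, kap, (ch_mul_of_ch_eq_one hk x).1]
      by_cases hx : x ∈ S
      · rw [Set.indicator_of_mem hx, Set.indicator_of_mem ((hSK k x hk).2 hx), h1, h3]
      · rw [Set.indicator_of_notMem hx, Set.indicator_of_notMem fun h => hx ((hSK k x hk).1 h)]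
    rw [← integral_indicator hS, ← integral_indicator hS, integral_congr_ae (ae_of_all _ h2)]
    exact integral_mul_left_eq_self _ k
  have h1 : ∫ x, φ (rf v (zc x)) ∂m = ∫ x, φ (zc x) ∂m := by
    rw [← integral_map hrm.aemeasurable (f := φ) hφ.aestronglyMeasurable, key,
      integral_map hzm.aemeasurable hφ.aestronglyMeasurable]
  rw [hint, hint] at h1
  exact h1

/-- **Rotation invariance.** For every reflection (more generally for every real orthogonal map of
`ℂ^n = ℝ^2n`) the law of `zc x` under `kap s x dmu` is invariant. -/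
theorem rot_law (hn : 1 ≤ n) {s : ℕ} (hs : n < s) {v : Fin n → ℂ} (hv : nr v = 1)
    {φ : (Fin n → ℂ) → ℝ} (hφ : Measurable φ) :
    ∫ x : SUGroup n, kap s x * φ (rf v (zc x)) ∂(mu n) = ∫ x : SUGroup n, kap s x * φ (zc x) ∂(mu n) := by
  have h := rot_law_set hn hs hv (S := Set.univ) MeasurableSet.univ
    (fun k x _ => by simp) hφ
  rwa [Measure.restrict_univ] at h

/-- The set `{hq x ≤ d²}`. -/
def bl (n : ℕ) (d : ℝ) : Set (SUGroup n) := {x | hq x ≤ d ^ 2}

theorem measurableSet_bl (d : ℝ) : MeasurableSet (bl n d) :=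
  (isClosed_le continuous_hq continuous_const).measurableSet

theorem rot_law_bl (hn : 1 ≤ n) {s : ℕ} (hs : n < s) {v : Fin n → ℂ} (hv : nr v = 1) (d : ℝ)
    {φ : (Fin n → ℂ) → ℝ} (hφ : Measurable φ) :
    ∫ x in bl n d, kap s x * φ (rf v (zc x)) ∂(mu n) = ∫ x in bl n d, kap s x * φ (zc x) ∂(mu n) :=
  rot_law_set hn hs hv (measurableSet_bl d) (fun k x hk => by
    show hq (k * x) ≤ d ^ 2 ↔ hq x ≤ d ^ 2
    rw [hq_K hk]) hφ

end Pool.Agent.Lib.MP_5d4057_al.IN
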