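import Pool.Agent.Lib.MP_5d4057_al.IN.Fun

/-! Part B of INT: limits of discretely subharmonic functions (B12). -/

namespace Pool.Agent.Lib.MP_5d4057_al.IN

open MeasureTheory Filter Topology Pool.Agent.Lib.MP_5d4057_al
open Pool.Agent.Lib.MP_5d4057_al.Hyb Pool.Agent.Lib.MP_5d4057_al.HM

open scoped ENNReal

variable {n : ℕ}

private theorem bd_mul {N : ℕ} {C : ℝ} {u : SUGroup n → ℝ}
    (hb : ∀ g : SUGroup n, |u g| ≤ C * ch g ^ (2 * N)) (hC : 0 ≤ C) (g x : SUGroup n) :
    |u (g * x)| ≤ C * 4 ^ N * ch g ^ (2 * N) * ch x ^ (2 * N) := by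
  refine (hb _).trans ?_
  have h1 : ch (g * x) ^ (2 * N) ≤ (2 * ch g * ch x) ^ (2 * N) :=
    pow_le_pow_left₀ (ch_pos _).le (ch_mul_le' g x) _
  calc C * ch (g * x) ^ (2 * N) ≤ C * (2 * ch g * ch x) ^ (2 * N) :=
        mul_le_mul_of_nonneg_left h1 hC
    _ = _ := by
        rw [mul_pow, mul_pow, pow_mul (2 : ℝ) 2 N]
        norm_num
        ring

private theorem bd_int {s₀ : ℕ} (h : Boot.CsOK n s₀) {N : ℕ} {C : ℝ} {u : SUGroup n → ℝ}
    (hc : Continuous u) (hb : ∀ g : SUGroup n, |u g| ≤ C * ch g ^ (2 * N)) (hC : 0 ≤ C) {s : ℕ}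
    (hs : s₀ + N ≤ s + 1) (g : SUGroup n) :
    Integrable (fun x => kap s x * u (g * x)) (mu n) := by
  refine Integrable.mono' ((Boot.integrable_kap_ch h hs).const_mul (C * 4 ^ N * ch g ^ (2 * N)))
    ((continuous_kap s).mul (hc.comp (continuous_const_mul g))).aestronglyMeasurable ?_
  refine Eventually.of_forall fun x => ?_
  have h1 := Boot.kap_nonneg' h (s := s) (by omega) x
  rw [norm_mul, Real.norm_eq_abs, Real.norm_eq_abs, abs_of_nonneg h1]
  have h2 := bd_mul hb hC g x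
  calc kap s x * |u (g * x)| ≤ kap s x * (C * 4 ^ N * ch g ^ (2 * N) * ch x ^ (2 * N)) :=
        mul_le_mul_of_nonneg_left h2 h1
    _ = _ := by ring

/-- the average of a function which is close to `c` near the identity -/
private theorem Q_sub_le {s₀ : ℕ} (h : Boot.CsOK n s₀) {s N : ℕ} (hs : s₀ + 2 * N + 2 ≤ s) {C : ℝ}
    (hC : 0 ≤ C) {u : SUGroup n → ℝ} (hc : Continuous u)
    (hb : ∀ g : SUGroup n, |u g| ≤ C * ch g ^ (2 * N)) (g : SUGroup n) (c : ℝ) {ε δ : ℝ}
    (hε : 0 ≤ ε) (hδ : 0 < δ) (hnear : ∀ x, ch x ^ 2 ≤ 1 + δ → |u (g * x) - c| ≤ ε) :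
    |Boot.Q s u g - c| ≤ ε + (C * 4 ^ N * ch g ^ (2 * N) + |c|) / δ *
      (Real.exp (2 * n) * (n / ((s : ℝ) - N - 1 - n))) := by
  have hgt := h.gt
  obtain ⟨D, hD⟩ : ∃ D : ℝ, D = (C * 4 ^ N * ch g ^ (2 * N) + |c|) / δ := ⟨_, rfl⟩
  have hg0 : 0 ≤ ch g ^ (2 * N) := pow_nonneg (ch_pos g).le _
  have hD0 : 0 ≤ D := by
    rw [hD]
    positivity
  rw [← hD]
  have hk := Boot.integrable_kap' h (s := s) (by omega)
  have hi := bd_int h hc hb hC (s := s) (by omega) g
  have h2 : Boot.Q s u g - c = ∫ x, kap s x * (u (g * x) - c) ∂(mu n) := by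
    simp only [mul_sub]
    rw [integral_sub hi (hk.mul_const _), integral_mul_const, Boot.integral_kap' h (by omega),
      one_mul]
    rfl
  rw [h2, ← Real.norm_eq_abs]
  have h3 : ∀ x : SUGroup n, ‖kap s x * (u (g * x) - c)‖ ≤
      ε * kap s x + D * (kap s x * ((ch x ^ 2 - 1) * ch x ^ (2 * N))) := by
    intro x
    have hk0 := Boot.kap_nonneg' h (s := s) (by omega) x
    have hx1 := one_le_ch x
    have hx2 : 0 ≤ ch x ^ 2 - 1 := by nlinarith
    have hx3 : 1 ≤ ch x ^ (2 * N) := one_le_pow₀ hx1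
    rw [norm_mul, Real.norm_eq_abs, Real.norm_eq_abs, abs_of_nonneg hk0]
    rcases le_or_gt (ch x ^ 2) (1 + δ) with hx | hx
    · have h4 := hnear x hx
      have h5 : 0 ≤ D * (kap s x * ((ch x ^ 2 - 1) * ch x ^ (2 * N))) := by positivity
      nlinarith
    · have h4 : |u (g * x) - c| ≤ (C * 4 ^ N * ch g ^ (2 * N) + |c|) * ch x ^ (2 * N) := by
        have h5 := bd_mul hb hC g x
        have h6 := abs_sub (u (g * x)) c
        have h7 := abs_nonneg c
        nlinarith
      have h5 : (C * 4 ^ N * ch g ^ (2 * N) + |c|) * ch x ^ (2 * N) ≤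
          D * ((ch x ^ 2 - 1) * ch x ^ (2 * N)) := by
        have h6 : C * 4 ^ N * ch g ^ (2 * N) + |c| ≤ D * (ch x ^ 2 - 1) := by
          rw [hD, div_mul_eq_mul_div, le_div_iff₀ hδ]
          refine mul_le_mul_of_nonneg_left (by linarith) (by positivity)
        rw [← mul_assoc]
        exact mul_le_mul_of_nonneg_right h6 (by positivity)
      have h6 : 0 ≤ ε * kap s x := by positivity
      calc kap s x * |u (g * x) - c| ≤ kap s x * (D * ((ch x ^ 2 - 1) * ch x ^ (2 * N))) :=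
            mul_le_mul_of_nonneg_left (h4.trans h5) hk0
        _ ≤ _ := by
            rw [mul_left_comm]
            linarith
  have hi2 : Integrable (fun x : SUGroup n => kap s x * ((ch x ^ 2 - 1) * ch x ^ (2 * N)))
      (mu n) := by
    have g1 := Boot.integrable_kap_ch h (s := s) (N := N) (by omega)
    have g2 := Boot.integrable_kap_ch h (s := s) (N := N + 1) (by omega)
    refine (g2.sub g1).congr (Eventually.of_forall fun x => ?_)
    show kap s x * ch x ^ (2 * (N + 1)) - kap s x * ch x ^ (2 * N) = _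
    ring
  have h4 := norm_integral_le_of_norm_le ((hk.const_mul ε).add (hi2.const_mul D))
    (Eventually.of_forall h3)
  refine h4.trans ?_
  simp only [Pi.add_apply]
  rw [integral_add (hk.const_mul ε) (hi2.const_mul D), integral_const_mul, integral_const_mul,
    Boot.integral_kap' h (by omega), mul_one]
  have h5 := mul_le_mul_of_nonneg_left (Boot.kap_tail h (s := s) (N := N) (by omega)) hD0
  linarith

private theorem tail_lim (n N : ℕ) (D : ℝ) {a : ℕ → ℕ} (ha : Tendsto a atTop atTop) :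
    Tendsto (fun j => D * (Real.exp (2 * n) * (n / (((a j : ℕ) : ℝ) - N - 1 - n)))) atTop
      (𝓝 0) := by
  have l1 : Tendsto (fun j => ((a j : ℕ) : ℝ) - N - 1 - n) atTop atTop :=
    (((tendsto_natCast_atTop_atTop.comp ha).atTop_add tendsto_const_nhds).atTop_add
      tendsto_const_nhds).atTop_add tendsto_const_nhds
  have l3 : Tendsto (fun j => (n : ℝ) / (((a j : ℕ) : ℝ) - N - 1 - n)) atTop (𝓝 0) :=
    tendsto_const_nhds.div_atTop l1
  simpa using (l3.const_mul (Real.exp (2 * n))).const_mul D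

private theorem lim_at {u : ℕ → SUGroup n → ℝ} {v : SUGroup n → ℝ}
    (hl : TendstoLocallyUniformly u v atTop) (g : SUGroup n) :
    Tendsto (fun j => u j g) atTop (𝓝 (v g)) :=
  (tendstoLocallyUniformlyOn_univ.2 hl).tendsto_at (Set.mem_univ g)

private theorem ag_lim {N : ℕ} {C : ℝ} {u : ℕ → SUGroup n → ℝ} {v : SUGroup n → ℝ}
    (hu : ∀ j, Ag N C (u j)) (hl : TendstoLocallyUniformly u v atTop) : Ag N C v where
  cont := hl.continuous (Frequently.of_forall fun j => (hu j).cont)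
  kinv g k hk := by
    have h1 := lim_at hl (g * k)
    have h2 := lim_at hl g
    simp only [(hu _).kinv g k hk] at h1
    exact tendsto_nhds_unique h1 h2
  bound g := le_of_tendsto (lim_at hl g).abs (Eventually.of_forall fun j => (hu j).bound g)

/-- averages at levels which tend to infinity -/
private theorem conv_one {s₀ : ℕ} (h : Boot.CsOK n s₀) {N : ℕ} {C : ℝ} (hC : 0 ≤ C)
    {u : ℕ → SUGroup n → ℝ} {v : SUGroup n → ℝ} (hu : ∀ j, Ag N C (u j))
    (hl : TendstoLocallyUniformly u v atTop) {a : ℕ → ℕ} (ha : Tendsto a atTop atTop)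
    (g : SUGroup n) : Tendsto (fun j => Boot.Q (a j) (u j) g) atTop (𝓝 (v g)) := by
  have hv := ag_lim hu hl
  rw [Metric.tendsto_atTop']
  intro ε hε
  obtain ⟨δ, hδ, hnear⟩ := Boot.near_K hv.cont hv.kinv g (ε := ε / 4) (by linarith)
  have hK : IsCompact ((fun x => g * x) '' {x : SUGroup n | ch x ≤ 1 + δ}) :=
    (isCompact_ball (1 + δ)).image (continuous_const_mul g)
  have hun := (tendstoLocallyUniformly_iff_forall_isCompact.1 hl) _ hK
  rw [Metric.tendstoUniformlyOn_iff] at hun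
  have h1 := hun (ε / 4) (by linarith)
  have h2 := (Metric.tendsto_nhds.1 (tail_lim n N ((C * 4 ^ N * ch g ^ (2 * N) + |v g|) / δ) ha))
    (ε / 4) (by linarith)
  have h3 := ha.eventually_ge_atTop (s₀ + 2 * N + 2)
  have h4 : ∀ᶠ j in atTop, dist (Boot.Q (a j) (u j) g) (v g) < ε := by
    filter_upwards [h1, h2, h3] with j j1 j2 j3
    have h5 := Q_sub_le h j3 hC (hu j).cont (hu j).bound g (v g) (ε := ε / 2) (by linarith) hδ
      (fun x hx => by
        have e1 := hnear x hx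
        have hx1 : ch x ≤ 1 + δ := by
          have := one_le_ch x
          nlinarith
        have e2 := j1 (g * x) ⟨x, hx1, rfl⟩
        rw [Real.dist_eq] at e2
        have e3 : u j (g * x) - v g = (v (g * x) - v g) - (v (g * x) - u j (g * x)) := by ring
        rw [e3]
        have e4 := abs_sub (v (g * x) - v g) (v (g * x) - u j (g * x))
        linarith)
    rw [dist_zero_right, Real.norm_eq_abs] at j2
    rw [Real.dist_eq]
    have h6 := le_abs_self ((C * 4 ^ N * ch g ^ (2 * N) + |v g|) / δ *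
      (Real.exp (2 * n) * (n / (((a j : ℕ) : ℝ) - N - 1 - n))))
    linarith
  obtain ⟨J, hJ⟩ := eventually_atTop.1 h4
  exact ⟨J, fun j hj => hJ j hj.le⟩

private theorem unif_of_seq {F : ℕ → ℕ → ℝ} {L : ℝ}
    (h : ∀ φ : ℕ → ℕ, StrictMono φ → ∀ i : ℕ → ℕ, Tendsto (fun l => F (φ l) (i l)) atTop (𝓝 L))
    {ε : ℝ} (hε : 0 < ε) : ∀ᶠ j in atTop, ∀ i, |F j i - L| ≤ ε := by
  by_contra hcon
  rw [not_eventually] at hcon
  obtain ⟨φ, hφ, h1⟩ := extraction_of_frequently_atTop hcon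
  simp only [not_forall, not_le] at h1
  choose i hi using h1
  have h2 := (Metric.tendsto_nhds.1 (h φ hφ i)) ε hε
  obtain ⟨l, hl⟩ := h2.exists
  rw [Real.dist_eq] at hl
  exact absurd hl (not_lt.2 (hi l).le)

/-- **The limit of discretely subharmonic functions is subharmonic** (B12). PROOF: fix `j`, `s = s j`,
`u = u j`, `g`. `Boot.tele_lim` with `Φ a b = Q a (Q b u) g`, `Ψ b = Q b u g`, `Θ a = Q a u g` (as in
the proof of `Boot.boot_five`; `Q_comm`, `Q_lap`; `Θ a ≤ Φ a s` because `u ≤ Q s u`) gives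
`∑ lam(s+i)⁻¹ Q (s+i) u g ≤ ∑ lam(s+i)⁻¹ Q t (Q (s+i) u) g`. Multiply by `s`: `s ∑ lam(s+i)⁻¹ → 1`
(`lam n s = s (s - n)`), and `Q (s j + i) (u j) → v` locally uniformly, uniformly in `i ≥ 0`
(`|Q a u g - u g| ≤ ∫ kap a x |u (g x) - u g|`: near `ch x = 1` by the asymptotic equicontinuity of `u j`
(locally uniform limit of continuous functions is continuous) and `K`-invariance (`Boot.near_K`), far
away by `mom_tail`), with the growth bound `K C ch ^ (2N)` (`Ag.Q`), so `Q t (..) → Q t v` by dominated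
convergence. -/
theorem sub_lim (n N : ℕ) : ∃ t₀ : ℕ, ∀ t, t₀ ≤ t → ∀ (C : ℝ) (s : ℕ → ℕ)
    (u : ℕ → SUGroup n → ℝ) (v : SUGroup n → ℝ), Tendsto s atTop atTop → (∀ j, Ag N C (u j)) →
      (∀ j g, u j g ≤ Boot.Q (s j) (u j) g) → TendstoLocallyUniformly u v atTop →
        ∀ g, v g ≤ Boot.Q t v g := by
  have h := Boot.csOK n
  obtain ⟨s₀, hs₀⟩ : ∃ s₀, s₀ = 2 * n + 2 := ⟨_, rfl⟩
  rw [← hs₀] at h
  have hgt := h.gt
  obtain ⟨A1, hcomm⟩ := Q_comm n N
  obtain ⟨A2, hlap⟩ := Q_lap n N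
  obtain ⟨A3, K, hK, hQ⟩ := Ag.Q n N
  obtain ⟨A, hA⟩ : ∃ A, A = A1 + A2 + A3 + 2 * s₀ + 4 * N + 2 := ⟨_, rfl⟩
  refine ⟨A, fun t ht C s u v hs hu hsub hl g => ?_⟩
  have hC : 0 ≤ C := by
    have h1 := (hu 0).bound 1
    have h2 : 0 < ch (1 : SUGroup n) ^ (2 * N) := pow_pos (ch_pos _) _
    by_contra hneg
    have h3 : C * ch (1 : SUGroup n) ^ (2 * N) < 0 := mul_neg_of_neg_of_pos (not_le.1 hneg) h2
    have h4 := abs_nonneg (u 0 1)
    linarith
  have hKC : 0 ≤ K * C := mul_nonneg hK.le hC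
  have hv := ag_lim hu hl
  -- approximate identity
  have hid : ∀ (D : ℝ) (w : SUGroup n → ℝ), 0 ≤ D → Ag N D w → ∀ (r : ℕ) (g : SUGroup n),
      Tendsto (fun I => Boot.Q (r + I) w g) atTop (𝓝 (w g)) := by
    intro D w hD hw r g
    have hcl : TendstoLocallyUniformly (fun _ : ℕ => w) w atTop := by
      rw [Metric.tendstoLocallyUniformly_iff]
      intro ε hε x
      exact ⟨Set.univ, univ_mem, Eventually.of_forall fun _ y _ => by rwa [dist_self]⟩
    exact conv_one h hD (fun _ => hw) hcl (tendsto_atTop_mono (fun I => Nat.le_add_left I r)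
      tendsto_id) g
  -- the two limits, uniformly in `i`
  have hsh : ∀ φ : ℕ → ℕ, StrictMono φ → ∀ i : ℕ → ℕ,
      Tendsto (fun l => s (φ l) + i l) atTop atTop := fun φ hφ i =>
    tendsto_atTop_mono (fun l => Nat.le_add_right _ _) (hs.comp hφ.tendsto_atTop)
  have hlφ : ∀ φ : ℕ → ℕ, StrictMono φ →
      TendstoLocallyUniformly (fun l => u (φ l)) v atTop := by
    intro φ hφ
    rw [Metric.tendstoLocallyUniformly_iff] at hl ⊢
    intro ε hε x
    obtain ⟨U, hU, hU2⟩ := hl ε hε x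
    exact ⟨U, hU, hφ.tendsto_atTop.eventually hU2⟩
  have hU1 : ∀ ε : ℝ, 0 < ε → ∀ᶠ j in atTop, ∀ i, |Boot.Q (s j + i) (u j) g - v g| ≤ ε := by
    intro ε hε
    refine unif_of_seq (F := fun j i => Boot.Q (s j + i) (u j) g) (fun φ hφ i => ?_) hε
    exact conv_one h hC (fun l => hu (φ l)) (hlφ φ hφ) (hsh φ hφ i) g
  have hU2 : ∀ ε : ℝ, 0 < ε → ∀ᶠ j in atTop, ∀ i,
      |Boot.Q t (Boot.Q (s j + i) (u j)) g - Boot.Q t v g| ≤ ε := by
    intro ε hε
    refine unif_of_seq (F := fun j i => Boot.Q t (Boot.Q (s j + i) (u j)) g)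
      (fun φ hφ i => ?_) hε
    unfold Boot.Q
    refine tendsto_integral_filter_of_dominated_convergence
      (fun x => K * C * 4 ^ N * ch g ^ (2 * N) * (kap t x * ch x ^ (2 * N))) ?_ ?_
      ((Boot.integrable_kap_ch h (by omega)).const_mul _) ?_
    · filter_upwards [(hsh φ hφ i).eventually_ge_atTop A3] with l hl3
      exact ((continuous_kap t).mul ((hQ _ hl3 C _ hC (hu (φ l))).cont.comp
        (continuous_const_mul g))).aestronglyMeasurable
    · filter_upwards [(hsh φ hφ i).eventually_ge_atTop A3] with l hl3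
      refine Eventually.of_forall fun x => ?_
      have h1 := Boot.kap_nonneg' h (s := t) (by omega) x
      have h2 := bd_mul (hQ _ hl3 C _ hC (hu (φ l))).bound hKC g x
      rw [norm_mul, Real.norm_eq_abs, Real.norm_eq_abs, abs_of_nonneg h1]
      calc kap t x * |Boot.Q (s (φ l) + i l) (u (φ l)) (g * x)|
          ≤ kap t x * (K * C * 4 ^ N * ch g ^ (2 * N) * ch x ^ (2 * N)) :=
            mul_le_mul_of_nonneg_left h2 h1
        _ = _ := by ring
    · refine Eventually.of_forall fun x => ?_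
      exact (conv_one h hC (fun l => hu (φ l)) (hlφ φ hφ) (hsh φ hφ i) (g * x)).const_mul _
  -- the telescoped inequality
  refine le_of_forall_pos_le_add fun ε hε => ?_
  obtain ⟨j, j1, j2, j3⟩ := ((hU1 (ε / 2) (by linarith)).and ((hU2 (ε / 2) (by linarith)).and
    (hs.eventually_ge_atTop A))).exists
  obtain ⟨r, hr⟩ : ∃ r, r = s j := ⟨_, rfl⟩
  obtain ⟨w, hw⟩ : ∃ w, w = u j := ⟨_, rfl⟩
  have huj := hu j
  have hsubj := hsub j
  rw [← hr, ← hw] at j1 j2 hsubj
  rw [← hr] at j3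
  rw [← hw] at huj
  obtain ⟨hsum, -⟩ := Boot.lam_sum h (s := r) (by omega)
  have hQw : ∀ b, A ≤ b → Ag N (K * C) (Boot.Q b w) := fun b hb => hQ b (by omega) C w hC huj
  have hbd : ∀ a, A ≤ a → ∀ b, A ≤ b →
      |Boot.Q a (Boot.Q b w) g| ≤ K * (K * C) * ch g ^ (2 * N) := fun a ha b hb =>
    (hQ a (by omega) (K * C) _ hKC (hQw b hb)).bound g
  have key := Boot.tele_lim (lam n) (fun a b => Boot.Q a (Boot.Q b w) g)
    (fun b => Boot.Q b w g) (fun a => Boot.Q a w g) r t (K * (K * C) * ch g ^ (2 * N))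
    (fun b hb => Boot.lam_pos h (by omega)) (fun a ha => Boot.lam_pos h (by omega))
    (fun a ha b hb => hlap a b (by omega) (by omega) C w huj g)
    hsum (Boot.lam_sum h (s := t) (by omega)).1
    (fun a ha b hb => hbd a (by omega) b (by omega))
    (fun b hb => hid (K * C) _ hKC (hQw b (by omega)) t g)
    (fun a ha => by
      refine (hid (K * C) _ hKC (hQw a (by omega)) r g).congr fun I => ?_
      exact (hcomm a (r + I) (by omega) (by omega) C w huj g).symm)
    (fun a ha => by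
      have g1 := bd_int h huj.cont huj.bound hC (s := a) (by omega) g
      have g2 := bd_int h (hQw r j3).cont (hQw r j3).bound hKC (s := a) (by omega) g
      exact integral_mono g1 g2 fun x =>
        mul_le_mul_of_nonneg_left (hsubj (g * x)) (Boot.kap_nonneg' h (by omega) x))
  have hpos : ∀ i, 0 < (lam n (r + i))⁻¹ := fun i => inv_pos.2 (Boot.lam_pos h (by omega))
  have hL : 0 < ∑' i, (lam n (r + i))⁻¹ := hsum.tsum_pos (fun i => (hpos i).le) 0 (hpos 0)
  have hS1 : Summable fun i => (lam n (r + i))⁻¹ * Boot.Q (r + i) w g := by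
    refine Summable.of_norm_bounded (hsum.mul_right (K * C * ch g ^ (2 * N))) fun i => ?_
    rw [norm_mul, Real.norm_eq_abs, Real.norm_eq_abs, abs_of_pos (hpos i)]
    exact mul_le_mul_of_nonneg_left ((hQw (r + i) (by omega)).bound g) (hpos i).le
  have hS2 : Summable fun i => (lam n (r + i))⁻¹ * Boot.Q t (Boot.Q (r + i) w) g := by
    refine Summable.of_norm_bounded (hsum.mul_right (K * (K * C) * ch g ^ (2 * N))) fun i => ?_
    rw [norm_mul, Real.norm_eq_abs, Real.norm_eq_abs, abs_of_pos (hpos i)]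
    exact mul_le_mul_of_nonneg_left (hbd t (by omega) (r + i) (by omega)) (hpos i).le
  have e1 : (∑' i, (lam n (r + i))⁻¹) * (v g - ε / 2) ≤
      ∑' i, (lam n (r + i))⁻¹ * Boot.Q (r + i) w g := by
    rw [← tsum_mul_right]
    refine (hsum.mul_right _).tsum_le_tsum (fun i => ?_) hS1
    refine mul_le_mul_of_nonneg_left ?_ (hpos i).le
    have := (abs_le.1 (j1 i)).1
    linarith
  have e2 : ∑' i, (lam n (r + i))⁻¹ * Boot.Q t (Boot.Q (r + i) w) g ≤
      (∑' i, (lam n (r + i))⁻¹) * (Boot.Q t v g + ε / 2) := by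
    rw [← tsum_mul_right]
    refine hS2.tsum_le_tsum (fun i => ?_) (hsum.mul_right _)
    refine mul_le_mul_of_nonneg_left ?_ (hpos i).le
    have := (abs_le.1 (j2 i)).2
    linarith
  have e3 := le_of_mul_le_mul_left (e1.trans (key.trans e2)) hL
  linarith

end Pool.Agent.Lib.MP_5d4057_al.IN
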