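import Pool.Agent.Lib.MP_5d4057_al.IN.DDef
import Pool.Agent.Lib.MP_5d4057_al.IN.FDef

/-!
# The seam between part D and part F: viscosity plurisubharmonic functions satisfy the circle inequality
-/

set_option autoImplicit false

namespace Pool.Agent.Lib.MP_5d4057_al.IN

open Matrix MeasureTheory Filter Topology Pool.Agent.Lib.MP_5d4057_al
  Pool.Agent.Lib.MP_5d4057_al.Hyb Pool.Agent.Lib.MP_5d4057_al.HM Pool.Agent.Lib.MP_5d4057_al.HM.Kak

/-- trigonometric polynomials as sums of a polynomial and a conjugate polynomial -/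
private theorem vc_span {r : ℝ} (hr : 0 < r) (g : C(AddCircle (1 : ℝ), ℂ))
    (hg : g ∈ Submodule.span ℂ (Set.range (fourier (T := (1 : ℝ))))) :
    ∃ P Q : Polynomial ℂ, ∀ x : AddCircle (1 : ℝ),
      g x = P.eval ((r : ℂ) * (AddCircle.toCircle x : ℂ)) +
        (starRingEnd ℂ) (Q.eval ((r : ℂ) * (AddCircle.toCircle x : ℂ))) := by
  have hr' : (r : ℂ) ≠ 0 := by exact_mod_cast hr.ne'
  induction hg using Submodule.span_induction with
  | mem g hg =>
    obtain ⟨m, rfl⟩ := hg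
    rcases Int.eq_nat_or_neg m with ⟨j, rfl | rfl⟩
    · refine ⟨Polynomial.C ((r : ℂ)⁻¹ ^ j) * Polynomial.X ^ j, 0, fun x => ?_⟩
      rw [fourier_apply, AddCircle.toCircle_zsmul, zpow_natCast, Circle.coe_pow]
      simp only [Polynomial.eval_mul, Polynomial.eval_C, Polynomial.eval_pow, Polynomial.eval_X,
        Polynomial.eval_zero, map_zero, add_zero]
      rw [mul_pow, ← mul_assoc, ← mul_pow, inv_mul_cancel₀ hr', one_pow, one_mul]
    · refine ⟨0, Polynomial.C ((r : ℂ)⁻¹ ^ j) * Polynomial.X ^ j, fun x => ?_⟩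
      rw [fourier_apply, AddCircle.toCircle_zsmul, _root_.zpow_neg, zpow_natCast, Circle.coe_inv,
        Circle.coe_pow]
      simp only [Polynomial.eval_mul, Polynomial.eval_C, Polynomial.eval_pow, Polynomial.eval_X,
        Polynomial.eval_zero, zero_add]
      rw [mul_pow, ← mul_assoc, ← mul_pow, inv_mul_cancel₀ hr', one_pow, one_mul, ← Circle.coe_pow,
        ← Circle.coe_inv, Circle.coe_inv_eq_conj]
  | zero => exact ⟨0, 0, fun x => by simp⟩
  | add g g' _ _ h h' =>
    obtain ⟨P, Q, h⟩ := h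
    obtain ⟨P', Q', h'⟩ := h'
    refine ⟨P + P', Q + Q', fun x => ?_⟩
    rw [ContinuousMap.add_apply, h, h']
    simp only [Polynomial.eval_add, map_add]
    ring
  | smul c g _ h =>
    obtain ⟨P, Q, h⟩ := h
    refine ⟨Polynomial.C c * P, Polynomial.C ((starRingEnd ℂ) c) * Q, fun x => ?_⟩
    rw [ContinuousMap.smul_apply, h]
    simp only [Polynomial.eval_mul, Polynomial.eval_C, map_mul, Complex.conj_conj, smul_eq_mul]
    ring

/-- Continuous functions on a circle are uniform limits of real parts of polynomials. -/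
theorem exists_re_poly {u : ℂ → ℝ} {r : ℝ} (hr : 0 < r)
    (hu : ContinuousOn u (Metric.sphere (0 : ℂ) r)) {ε : ℝ} (hε : 0 < ε) :
    ∃ P : Polynomial ℂ, ∀ z ∈ Metric.sphere (0 : ℂ) r, |(P.eval z).re - u z| ≤ ε := by
  have hmem : ∀ x : AddCircle (1 : ℝ),
      (r : ℂ) * (AddCircle.toCircle x : ℂ) ∈ Metric.sphere (0 : ℂ) r := by
    intro x
    rw [mem_sphere_zero_iff_norm, norm_mul, Circle.norm_coe, mul_one, Complex.norm_real,
      Real.norm_eq_abs, abs_of_pos hr]
  have hc : Continuous fun x : AddCircle (1 : ℝ) =>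
      ((u ((r : ℂ) * (AddCircle.toCircle x : ℂ)) : ℝ) : ℂ) := by
    refine Complex.continuous_ofReal.comp (hu.comp_continuous ?_ hmem)
    exact continuous_const.mul (continuous_subtype_val.comp AddCircle.continuous_toCircle)
  obtain ⟨f, hf⟩ : ∃ f : C(AddCircle (1 : ℝ), ℂ), f = ⟨_, hc⟩ := ⟨_, rfl⟩
  have h1 : f ∈ (Submodule.span ℂ (Set.range (fourier (T := (1 : ℝ))))).topologicalClosure := by
    rw [span_fourier_closure_eq_top]
    trivial
  have h2 : f ∈ closure ((Submodule.span ℂ (Set.range (fourier (T := (1 : ℝ)))) :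
      Submodule ℂ C(AddCircle (1 : ℝ), ℂ)) : Set C(AddCircle (1 : ℝ), ℂ)) := h1
  obtain ⟨g, hg, hd⟩ := Metric.mem_closure_iff.1 h2 ε hε
  obtain ⟨P, Q, hPQ⟩ := vc_span hr g hg
  refine ⟨P + Q, fun z hz => ?_⟩
  obtain ⟨x, hx⟩ : ∃ x : AddCircle (1 : ℝ), z = (r : ℂ) * (AddCircle.toCircle x : ℂ) := by
    refine ⟨((z.arg / (2 * Real.pi) : ℝ) : AddCircle (1 : ℝ)), ?_⟩
    rw [AddCircle.toCircle_apply_mk, div_one, mul_div_cancel₀ _ (by positivity), Circle.coe_exp]
    rw [mem_sphere_zero_iff_norm] at hz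
    rw [← hz]
    exact (Complex.norm_mul_exp_arg_mul_I z).symm
  have h3 : ‖f x - g x‖ ≤ ε := by
    rw [← dist_eq_norm]
    exact (ContinuousMap.dist_apply_le_dist x).trans hd.le
  have h4 : f x = ((u z : ℝ) : ℂ) := by
    rw [hf, hx]
    rfl
  have h5 : (g x).re = ((P + Q).eval z).re := by
    rw [hPQ x, ← hx, Complex.add_re, Complex.conj_re, Polynomial.eval_add, Complex.add_re]
  have h6 := (Complex.abs_re_le_norm (f x - g x)).trans h3
  rw [Complex.sub_re, h4, Complex.ofReal_re, h5, abs_sub_comm] at h6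
  exact h6

/-- the second derivatives of the comparison function -/
theorem vc_lap (P : Polynomial ℂ) (ε : ℝ) (z : ℂ) :
    ContDiffAt ℝ 2 (fun z : ℂ => ε * ‖z‖ ^ 2 - (P.eval z).re) z ∧
    fderiv ℝ (fderiv ℝ (fun z : ℂ => ε * ‖z‖ ^ 2 - (P.eval z).re)) z 1 1 +
      fderiv ℝ (fderiv ℝ (fun z : ℂ => ε * ‖z‖ ^ 2 - (P.eval z).re)) z Complex.I Complex.I =
        4 * ε := by
  have hP : InnerProductSpace.HarmonicAt (fun z : ℂ => (P.eval z).re) z := by
    have h1 : AnalyticAt ℂ (fun z : ℂ => P.eval z) z := by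
      have h2 : Differentiable ℂ fun z : ℂ => P.eval z := P.differentiable
      exact h2.analyticAt z
    exact h1.harmonicAt_re
  have hn : ContDiff ℝ 2 fun z : ℂ => ‖z‖ ^ 2 := contDiff_norm_sq ℝ
  have hεn : ContDiffAt ℝ 2 (fun z : ℂ => ε * ‖z‖ ^ 2) z := (contDiff_const.mul hn).contDiffAt
  refine ⟨hεn.sub hP.1, ?_⟩
  have e1 : ∀ F : ℂ → ℝ, fderiv ℝ (fderiv ℝ F) z 1 1 + fderiv ℝ (fderiv ℝ F) z Complex.I Complex.I =
      Laplacian.laplacian F z := by
    intro F
    rw [InnerProductSpace.laplacian_eq_iteratedFDeriv_complexPlane]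
    simp only [iteratedFDeriv_two_apply]
    rfl
  rw [e1]
  have e2 : (fun z : ℂ => ε * ‖z‖ ^ 2 - (P.eval z).re) =
      (fun z : ℂ => ε * ‖z‖ ^ 2) - fun z : ℂ => (P.eval z).re := rfl
  rw [e2, ContDiffAt.laplacian_sub hεn hP.1]
  have e3 : Laplacian.laplacian (fun z : ℂ => (P.eval z).re) z = (0 : ℝ) := hP.2.eq_of_nhds
  rw [e3, sub_zero]
  have e4 : (fun z : ℂ => ε * ‖z‖ ^ 2) = ε • fun z : ℂ => ‖z‖ ^ 2 := rfl
  rw [e4, InnerProductSpace.laplacian_smul ε hn.contDiffAt, ← e1]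
  have d1 : ∀ w : ℂ, HasFDerivAt (fun z : ℂ => ‖z‖ ^ 2)
      ((2 * w.re) • Complex.reCLM + (2 * w.im) • Complex.imCLM) w := by
    intro w
    have h1 : (fun z : ℂ => ‖z‖ ^ 2) = fun z : ℂ => z.re ^ 2 + z.im ^ 2 := by
      funext z
      rw [Complex.sq_norm, Complex.normSq_apply]
      ring
    rw [h1]
    have h2 := ((Complex.reCLM.hasFDerivAt (x := w)).pow 2).add
      ((Complex.imCLM.hasFDerivAt (x := w)).pow 2)
    refine h2.congr_fderiv ?_
    ext x
    simp
  have e5 : fderiv ℝ (fun z : ℂ => ‖z‖ ^ 2) = fun w : ℂ =>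
      (2 * w.re) • Complex.reCLM + (2 * w.im) • Complex.imCLM := funext fun w => (d1 w).fderiv
  have d2 : HasFDerivAt (fun w : ℂ => (2 * w.re) • Complex.reCLM + (2 * w.im) • Complex.imCLM)
      (((2 : ℝ) • Complex.reCLM).smulRight Complex.reCLM +
        ((2 : ℝ) • Complex.imCLM).smulRight Complex.imCLM) z :=
    (((Complex.reCLM.hasFDerivAt (x := z)).const_mul 2).smul_const Complex.reCLM).add
      (((Complex.imCLM.hasFDerivAt (x := z)).const_mul 2).smul_const Complex.imCLM)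
  rw [e5, d2.fderiv]
  simp
  ring

/-- **The circle inequality** for functions on a disc which are subharmonic in the viscosity sense. -/
theorem circle_of_visc {u : ℂ → ℝ} {r : ℝ} (hr : 0 < r)
    (hu : ContinuousOn u (Metric.closedBall (0 : ℂ) r))
    (h : ∀ z₀ ∈ Metric.ball (0 : ℂ) r, ∀ ψ : ℂ → ℝ, ContDiffAt ℝ 2 ψ 0 →
      0 < fderiv ℝ (fderiv ℝ ψ) 0 1 1 + fderiv ℝ (fderiv ℝ ψ) 0 Complex.I Complex.I →
        ¬ IsLocalMax (fun z : ℂ => u (z₀ + z) + ψ z) 0) :
    u 0 ≤ (2 * Real.pi)⁻¹ * ∫ θ in (0 : ℝ)..(2 * Real.pi), u (circleMap 0 r θ) := by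
  have hpi : (0 : ℝ) < 2 * Real.pi := by positivity
  refine le_of_forall_pos_le_add fun δ hδ => ?_
  obtain ⟨ε, hε, hεδ⟩ : ∃ ε : ℝ, 0 < ε ∧ ε * (2 + r ^ 2) ≤ δ := by
    refine ⟨δ / (2 + r ^ 2), by positivity, ?_⟩
    rw [div_mul_cancel₀ _ (by positivity)]
  have hsub : Metric.sphere (0 : ℂ) r ⊆ Metric.closedBall 0 r := Metric.sphere_subset_closedBall
  obtain ⟨P, hP⟩ := exists_re_poly hr (hu.mono hsub) hε
  -- the maximum of the comparison function
  obtain ⟨F, hF⟩ : ∃ F : ℂ → ℝ, F = fun z => u z + (ε * ‖z‖ ^ 2 - (P.eval z).re) := ⟨_, rfl⟩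
  have hFc : ContinuousOn F (Metric.closedBall (0 : ℂ) r) := by
    rw [hF]
    refine hu.add (Continuous.continuousOn ?_)
    have hPc : Continuous fun z : ℂ => P.eval z := P.continuous
    fun_prop
  obtain ⟨z₀, hz₀, hmax⟩ := (isCompact_closedBall (0 : ℂ) r).exists_isMaxOn
    ⟨0, Metric.mem_closedBall_self hr.le⟩ hFc
  have hz₀r : z₀ ∈ Metric.sphere (0 : ℂ) r := by
    by_contra hne
    have hb : z₀ ∈ Metric.ball (0 : ℂ) r := by
      rw [Metric.mem_ball]
      refine lt_of_le_of_ne (Metric.mem_closedBall.1 hz₀) fun h0 => hne (Metric.mem_sphere.2 h0)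
    have hloc : IsLocalMax F z₀ :=
      hmax.isLocalMax (Filter.mem_of_superset (Metric.isOpen_ball.mem_nhds hb)
        Metric.ball_subset_closedBall)
    obtain ⟨Q, hQ⟩ : ∃ Q : Polynomial ℂ, Q = P.comp (Polynomial.X + Polynomial.C z₀) -
        Polynomial.C (2 * ε * (starRingEnd ℂ) z₀) * Polynomial.X -
        Polynomial.C ((ε * ‖z₀‖ ^ 2 : ℝ) : ℂ) := ⟨_, rfl⟩
    have hψ : ∀ z : ℂ, ε * ‖z₀ + z‖ ^ 2 - (P.eval (z₀ + z)).re = ε * ‖z‖ ^ 2 - (Q.eval z).re := by
      intro z
      rw [hQ]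
      simp only [Polynomial.eval_sub, Polynomial.eval_comp, Polynomial.eval_add, Polynomial.eval_X,
        Polynomial.eval_C, Polynomial.eval_mul, Complex.sub_re, Complex.ofReal_re]
      rw [Complex.sq_norm, Complex.sq_norm, Complex.sq_norm, Complex.normSq_apply,
        Complex.normSq_apply, Complex.normSq_apply, add_comm z z₀]
      have h1 : (2 * (ε : ℂ) * (starRingEnd ℂ) z₀ * z).re =
          2 * ε * (z₀.re * z.re + z₀.im * z.im) := by
        have : 2 * (ε : ℂ) * (starRingEnd ℂ) z₀ * z = ((2 * ε : ℝ) : ℂ) * ((starRingEnd ℂ) z₀ * z) := by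
          push_cast
          ring
        rw [this, Complex.re_ofReal_mul, Complex.mul_re, Complex.conj_re, Complex.conj_im]
        ring
      rw [h1, Complex.add_re, Complex.add_im]
      ring
    obtain ⟨hQ1, hQ2⟩ := vc_lap Q ε 0
    refine h z₀ hb (fun z => ε * ‖z‖ ^ 2 - (Q.eval z).re) hQ1 (by rw [hQ2]; positivity) ?_
    have ht : Tendsto (fun z : ℂ => z₀ + z) (𝓝 0) (𝓝 z₀) := by
      have h1 : Continuous fun z : ℂ => z₀ + z := by fun_prop
      have h2 := h1.tendsto 0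
      rwa [add_zero] at h2
    filter_upwards [ht.eventually hloc] with z hz
    show u (z₀ + z) + (ε * ‖z‖ ^ 2 - (Q.eval z).re) ≤
      u (z₀ + 0) + (ε * ‖(0 : ℂ)‖ ^ 2 - (Q.eval 0).re)
    rw [← hψ, ← hψ, add_zero]
    rw [hF] at hz
    exact hz
  have h0 : F 0 ≤ F z₀ := hmax (Metric.mem_closedBall_self hr.le)
  rw [hF] at h0
  simp only [norm_zero] at h0
  have h1 := hP z₀ hz₀r
  rw [mem_sphere_zero_iff_norm] at hz₀r
  rw [hz₀r] at h0
  have h2 : u 0 ≤ (P.eval 0).re + ε + ε * r ^ 2 := by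
    have := (abs_le.1 h1).1
    nlinarith
  -- the mean value property of the polynomial
  have hmean : (2 * Real.pi)⁻¹ * ∫ θ in (0 : ℝ)..(2 * Real.pi), (P.eval (circleMap 0 r θ)).re =
      (P.eval 0).re := by
    have h3 : InnerProductSpace.HarmonicOnNhd (fun z : ℂ => (P.eval z).re)
        (Metric.closedBall (0 : ℂ) |r|) := by
      intro z _
      have h2 : Differentiable ℂ fun z : ℂ => P.eval z := P.differentiable
      exact (h2.analyticAt z).harmonicAt_re
    have h4 := InnerProductSpace.HarmonicOnNhd.circleAverage_eq h3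
    rw [Real.circleAverage_def, smul_eq_mul] at h4
    exact h4
  have hmem : ∀ θ : ℝ, circleMap 0 r θ ∈ Metric.sphere (0 : ℂ) r := fun θ =>
    circleMap_mem_sphere 0 hr.le θ
  have hcu : Continuous fun θ : ℝ => u (circleMap 0 r θ) :=
    (hu.mono hsub).comp_continuous (continuous_circleMap 0 r) hmem
  have hcP : Continuous fun θ : ℝ => (P.eval (circleMap 0 r θ)).re :=
    Complex.continuous_re.comp (P.continuous.comp (continuous_circleMap 0 r))
  have h5 : ∫ θ in (0 : ℝ)..(2 * Real.pi), (P.eval (circleMap 0 r θ)).re ≤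
      ∫ θ in (0 : ℝ)..(2 * Real.pi), (u (circleMap 0 r θ) + ε) := by
    refine intervalIntegral.integral_mono_on hpi.le (hcP.intervalIntegrable _ _)
      ((hcu.add continuous_const).intervalIntegrable _ _) fun θ _ => ?_
    have := (abs_le.1 (hP _ (hmem θ))).2
    linarith
  rw [intervalIntegral.integral_add (hcu.intervalIntegrable _ _)
    (continuous_const.intervalIntegrable _ _), intervalIntegral.integral_const, sub_zero,
    smul_eq_mul] at h5
  have h6 := mul_le_mul_of_nonneg_left h5 (inv_nonneg.2 hpi.le)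
  rw [hmean, mul_add, inv_mul_cancel_left₀ hpi.ne'] at h6
  nlinarith

/-- **The circle inequality** on complex geodesics for plurisubharmonic functions on the cone. -/
theorem vsub_circle {n : ℕ} {y : Vec n → ℝ} (hc : ContinuousOn y (Cone n)) (h : D.VSub y)
    (g : SUGroup n) {ξ : Fin n → ℂ} (hξ : nq ξ = 1) {r : ℝ} (h0 : 0 ≤ r) (h1 : r < 1) :
    y (act g (base n)) ≤ (2 * Real.pi)⁻¹ * ∫ θ in (0 : ℝ)..(2 * Real.pi),
      y (act g (vec ((((r : ℝ) : ℂ) * Complex.exp (θ * Complex.I)) • ξ) + base n)) := by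
  have hline : ∀ z : ℂ, act g (vec (z • ξ) + base n) = act g (base n) + z • act g (vec ξ) := by
    intro z
    have e1 : vec (z • ξ) = z • (vec ξ : Vec n) := by
      ext i
      refine Fin.lastCases ?_ (fun i => ?_) i
      · simp only [vec_last, Pi.smul_apply, smul_zero]
      · simp only [vec_castSucc, Pi.smul_apply]
    rw [e1, act_add, act_smul, add_comm]
  have hmem : ∀ z : ℂ, ‖z‖ < 1 → act g (base n) + z • act g (vec ξ) ∈ Cone n := by
    intro z hz
    rw [← hline]
    refine act_mem g ?_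
    show q _ < 0
    rw [q_eq]
    simp only [Pi.add_apply, vec_castSucc, base_castSucc, vec_last, base_last, add_zero, zero_add,
      norm_one, Pi.smul_apply, smul_eq_mul, norm_mul, mul_pow, ← Finset.mul_sum]
    rw [← nq, hξ]
    have := norm_nonneg z
    nlinarith
  rcases h0.eq_or_lt with rfl | hr
  · simp only [Complex.ofReal_zero, zero_mul, zero_smul]
    have e1 : (vec (0 : Fin n → ℂ) : Vec n) = 0 := Kak.vec_zero
    rw [e1, zero_add, intervalIntegral.integral_const, smul_eq_mul, sub_zero,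
      inv_mul_cancel_left₀ (by positivity)]
  · have hcl : ∀ z ∈ Metric.closedBall (0 : ℂ) r, ‖z‖ < 1 := by
      intro z hz
      rw [mem_closedBall_zero_iff] at hz
      linarith
    have h2 := circle_of_visc (u := fun z => y (act g (base n) + z • act g (vec ξ))) hr ?_ ?_
    · simp only [zero_smul, add_zero] at h2
      simp only [hline]
      refine h2.trans (le_of_eq ?_)
      congr 1
      refine intervalIntegral.integral_congr fun θ _ => ?_
      simp only [circleMap, zero_add]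
    · refine hc.comp (Continuous.continuousOn (by fun_prop)) fun z hz => hmem z (hcl z hz)
    · intro z₀ hz₀ ψ hψ1 hψ2 hmax
      refine h (act g (base n) + z₀ • act g (vec ξ))
        (hmem z₀ (hcl z₀ (Metric.ball_subset_closedBall hz₀))) (act g (vec ξ)) ψ hψ1 hψ2 ?_
      simp only [add_smul, ← add_assoc] at hmax
      exact hmax

/-- The same statement under the name of helper86. -/
theorem circ_of_vsub {n : ℕ} {y : Vec n → ℝ} (hc : ContinuousOn y (Cone n)) (hy : D.VSub y)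
    (g : SUGroup n) {ξ : Fin n → ℂ} (hξ : nq ξ = 1) {r : ℝ} (h0 : 0 ≤ r) (h1 : r < 1) :
    y (act g (base n)) ≤ (2 * Real.pi)⁻¹ * ∫ θ in (0 : ℝ)..(2 * Real.pi),
      y (act g (vec ((((r : ℝ) : ℂ) * Complex.exp (θ * Complex.I)) • ξ) + base n)) :=
  vsub_circle hc hy g hξ h0 h1

end Pool.Agent.Lib.MP_5d4057_al.IN
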