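import Pool.Agent.Lib.MP_5d4057_al.IN.CorF
import Pool.Agent.Lib.MP_5d4057_al.NU.Barr
import Pool.Agent.Lib.MP_5d4057_al.RC.Liou

/-! Part B of INT for all lattices: the maximum principle off the core (`Cor`) for lattices with a
height function. -/

namespace Pool.Agent.Lib.MP_5d4057_al.IN

open MeasureTheory Filter Topology Pool.Agent.Lib.MP_5d4057_al
open Pool.Agent.Lib.MP_5d4057_al.Hyb Pool.Agent.Lib.MP_5d4057_al.HM
open Pool.Agent.Lib.MP_5d4057_al.NU

open scoped ENNReal

variable {n : ℕ} {Γ : Subgroup (SUGroup n)} {χ : SUGroup n → ℝ} {Y : Type} [MetricSpace Y]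

/-- `p` is (a normalised isotropic vector of) a cusp: deep in the horoballs of `p` the height is the
horofunction of `p`. -/
structure CuspV (T : ℝ) (y : Vec n → ℝ) (p : Vec n) : Prop where
  ne : p ≠ 0
  isot : q p = 0
  le : ∀ h : SUGroup n, yp p (act h (base n)) ≤ y (act h (base n))
  eq : ∀ h : SUGroup n, T ≤ 4 * yp p (act h (base n)) →
    y (act h (base n)) = yp p (act h (base n))

theorem exists_cuspV {T : ℝ} {y : Vec n → ℝ} (hy : Ht Γ T y) {g : SUGroup n}
    (hg : T ≤ y (act g (base n))) :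
    ∃ p, CuspV T y p ∧ y (act g (base n)) = yp p (act g (base n)) := by
  obtain ⟨p, h1, h2, h3, h4, h5⟩ := hy.nul g hg
  exact ⟨p, ⟨h1, h2, h4, h5⟩, h3⟩

/-- `F` does not depend on the point of a horoball. -/
def Flat (T T' : ℝ) (y : Vec n → ℝ) (F : SUGroup n → Y) : Prop :=
  ∀ p : Vec n, CuspV T y p → ∀ g h : SUGroup n, T' ≤ yp p (act g (base n)) →
    T' ≤ yp p (act h (base n)) → F g = F h

/-- Tails of the kernel. PROOF: `wt x ≥ 2` gives `ch x ≥ 5 / 4`, so the indicator is at most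
`(16 / 9)² (ch x ^ 2 - 1)²`; `wt x ≤ 2 ch x`; `mom_rpow` with `θ = 2`. -/
theorem kap_tail_wt (n N : ℕ) : ∃ (s₀ : ℕ) (C : ℝ), 0 < C ∧ ∀ s : ℕ, s₀ ≤ s →
    Integrable (fun x : SUGroup n => kap s x * {x | 2 ≤ wt x}.indicator (fun x => wt x ^ N) x)
      (mu n) ∧
    ∫ x : SUGroup n, kap s x * {x | 2 ≤ wt x}.indicator (fun x => wt x ^ N) x ∂(mu n) ≤
      C / (s : ℝ) ^ 2 := by
  obtain ⟨s₀, C, hC, hmom⟩ := mom_rpow n N (show (0 : ℝ) ≤ 2 by norm_num)
  obtain ⟨K, hK⟩ : ∃ K : ℝ, K = 2 ^ N * (16 / 9) ^ 2 := ⟨_, rfl⟩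
  have hK0 : 0 < K := by
    rw [hK]
    positivity
  refine ⟨s₀, K * C, by positivity, fun s hs => ?_⟩
  obtain ⟨i1, h1⟩ := hmom s hs
  have hm : MeasurableSet {x : SUGroup n | 2 ≤ wt x} :=
    (isClosed_le continuous_const continuous_wt).measurableSet
  have hnn : ∀ x : SUGroup n, 0 ≤ {x : SUGroup n | 2 ≤ wt x}.indicator (fun x => wt x ^ N) x :=
    fun x => Set.indicator_nonneg (fun x _ => pow_nonneg (by linarith [one_le_wt x]) N) x
  have hle : ∀ x : SUGroup n, kap s x * {x : SUGroup n | 2 ≤ wt x}.indicator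
      (fun x => wt x ^ N) x ≤ K * (kap s x * (ch x ^ (2 * N) * (ch x ^ 2 - 1) ^ (2 : ℝ))) := by
    intro x
    have hc := one_le_ch x
    have hd : 0 ≤ ch x ^ 2 - 1 := by nlinarith
    have e1 : (ch x ^ 2 - 1) ^ (2 : ℝ) = (ch x ^ 2 - 1) ^ 2 := by
      have e2 := Real.rpow_natCast (ch x ^ 2 - 1) 2
      rw [Nat.cast_ofNat] at e2
      exact e2
    rw [e1]
    by_cases hx : 2 ≤ wt x
    · rw [Set.indicator_of_mem (show x ∈ {x : SUGroup n | 2 ≤ wt x} from hx)]
      have h2 : wt x ^ N ≤ 2 ^ N * ch x ^ (2 * N) := by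
        have h3 : wt x ^ N ≤ (2 * ch x) ^ N :=
          pow_le_pow_left₀ (by linarith) (wt_le x) _
        have h4 : ch x ^ N ≤ ch x ^ (2 * N) := pow_le_pow_right₀ hc (by omega)
        rw [mul_pow] at h3
        exact h3.trans (mul_le_mul_of_nonneg_left h4 (by positivity))
      have h5 : 5 / 4 ≤ ch x := by
        by_contra hlt
        rw [not_le] at hlt
        have h6 : Real.sqrt (ch x ^ 2 - 1) < 3 / 4 := by
          rw [Real.sqrt_lt' (by norm_num)]
          nlinarith
        have h7 : wt x = ch x + Real.sqrt (ch x ^ 2 - 1) := rfl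
        rw [h7] at hx
        linarith
      have h8 : 1 ≤ (16 / 9) ^ 2 * (ch x ^ 2 - 1) ^ 2 := by
        have h9 : 9 / 16 ≤ ch x ^ 2 - 1 := by nlinarith
        rw [← mul_pow]
        exact one_le_pow₀ (by linarith)
      have h10 : wt x ^ N ≤ K * (ch x ^ (2 * N) * (ch x ^ 2 - 1) ^ 2) := by
        calc wt x ^ N ≤ 2 ^ N * ch x ^ (2 * N) := h2
          _ = 2 ^ N * ch x ^ (2 * N) * 1 := (mul_one _).symm
          _ ≤ 2 ^ N * ch x ^ (2 * N) * ((16 / 9) ^ 2 * (ch x ^ 2 - 1) ^ 2) :=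
              mul_le_mul_of_nonneg_left h8 (by positivity)
          _ = _ := by rw [hK]; ring
      calc kap s x * wt x ^ N ≤ kap s x * (K * (ch x ^ (2 * N) * (ch x ^ 2 - 1) ^ 2)) :=
            mul_le_mul_of_nonneg_left h10 (kap_nonneg s x)
        _ = _ := by ring
    · rw [Set.indicator_of_notMem (show x ∉ {x : SUGroup n | 2 ≤ wt x} from hx), mul_zero]
      have := kap_nonneg s x
      have := ch_pos x
      positivity
  have i2 := i1.const_mul K
  have i3 : Integrable (fun x : SUGroup n => kap s x * {x : SUGroup n | 2 ≤ wt x}.indicator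
      (fun x => wt x ^ N) x) (mu n) := by
    refine i2.mono' ?_ (Eventually.of_forall fun x => ?_)
    · exact (continuous_kap s).aestronglyMeasurable.mul
        ((continuous_wt.pow N).aestronglyMeasurable.indicator hm)
    · rw [Real.norm_eq_abs, abs_of_nonneg (mul_nonneg (kap_nonneg s x) (hnn x))]
      exact hle x
  refine ⟨i3, ?_⟩
  have h2 := integral_mono i3 i2 hle
  rw [integral_const_mul] at h2
  have e3 : (s : ℝ) ^ (-2 : ℝ) = ((s : ℝ) ^ 2)⁻¹ := by
    rw [Real.rpow_neg (Nat.cast_nonneg s)]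
    congr 1
    have e2 := Real.rpow_natCast (s : ℝ) 2
    rw [Nat.cast_ofNat] at e2
    exact e2
  rw [e3] at h1
  refine h2.trans ((mul_le_mul_of_nonneg_left h1 hK0.le).trans (le_of_eq ?_))
  rw [div_eq_mul_inv, mul_assoc]

/-- the tail function -/
private noncomputable def wnI (x : SUGroup n) : ℝ :=
  {x : SUGroup n | 2 ≤ wt x}.indicator (fun x => wt x ^ 3) x

private theorem wnI_nonneg (x : SUGroup n) : 0 ≤ wnI x :=
  Set.indicator_nonneg (fun x _ => pow_nonneg (by linarith [one_le_wt x]) 3) x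

private theorem wnI_of {x : SUGroup n} (h : 2 ≤ wt x) : wnI x = wt x ^ 3 :=
  Set.indicator_of_mem (show x ∈ {x : SUGroup n | 2 ≤ wt x} from h) _

/-- integrability of functions of quadratic growth -/
private theorem wn_integrable {s : ℕ} (hs : n + 1 < s) {f : SUGroup n → ℝ} (hf : Continuous f)
    {A D : ℝ} (h : ∀ x, |f x| ≤ A + D * ch x ^ 2) :
    Integrable (fun x => kap s x * f x) (mu n) := by
  have i1 := (integrable_kap (n := n) (s := s) (by omega)).const_mul A
  have i2 := (integrable_kap_pow (n := n) (s := s) (N := 1) hs).const_mul D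
  refine (i1.add i2).mono' ((continuous_kap s).mul hf).aestronglyMeasurable
    (Eventually.of_forall fun x => ?_)
  rw [norm_mul, Real.norm_eq_abs, Real.norm_eq_abs, abs_of_nonneg (kap_nonneg s x)]
  refine (mul_le_mul_of_nonneg_left (h x) (kap_nonneg s x)).trans (le_of_eq ?_)
  simp only [Pi.add_apply]
  ring

private theorem wn_log_le (x : SUGroup n) :
    0 ≤ Real.log (wt x) ∧ Real.log (wt x) ≤ wt x ∧ Real.log (wt x) ≤ 2 * ch x ^ 2 := by
  have h1 := one_le_wt x
  have h2 := Real.log_le_sub_one_of_pos (show 0 < wt x by linarith)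
  have h3 := wt_le x
  have h4 := one_le_ch x
  refine ⟨Real.log_nonneg h1, by linarith, ?_⟩
  nlinarith

/-- the pointwise estimates in a cusp -/
private theorem wn_point {T T' L T₃ : ℝ} {y : Vec n → ℝ} (hy : Ht Γ T y) (h1 : 1 ≤ T₃)
    (hT : T ≤ T₃) (hT' : T' ≤ T₃) {F : SUGroup n → Y} (hL : 0 ≤ L) (hLip : LipD L F)
    (hfl : Flat T T' y F) {g : SUGroup n} {p : Vec n} (hp : CuspV T y p)
    (hg : y (act g (base n)) = yp p (act g (base n)))
    (hR : 16 * T₃ ≤ y (act g (base n))) (x : SUGroup n) {τ u : ℝ}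
    (hτ : τ = T₃ / y (act g (base n)))
    (hu : u = Real.log (yp p (act (g * x) (base n)) / yp p (act g (base n)))) :
    max 0 (1 - T₃ / y (act (g * x) (base n))) ≤ 1 - τ + τ * u + 3 * τ * wnI x ∧
    Real.log (y (act (g * x) (base n))) ≤
      Real.log (y (act g (base n))) + u + 4 * wnI x ∧
    dist (F g) (F (g * x)) ≤ L * τ * wnI x := by
  obtain ⟨Z, hZ⟩ : ∃ Z, Z = y (act g (base n)) := ⟨_, rfl⟩
  obtain ⟨Zx, hZx⟩ : ∃ Zx, Zx = y (act (g * x) (base n)) := ⟨_, rfl⟩
  obtain ⟨Px, hPx⟩ : ∃ Px, Px = yp p (act (g * x) (base n)) := ⟨_, rfl⟩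
  have hZ0 : 0 < Z := hZ ▸ lt_of_lt_of_le one_pos (hy.one_le _ (orbit_mem g))
  have hZx0 : 0 < Zx := hZx ▸ lt_of_lt_of_le one_pos (hy.one_le _ (orbit_mem (g * x)))
  obtain ⟨-, k1⟩ := yp_harn_b hp.ne hp.isot g x
  obtain ⟨k2, k3⟩ := yp_harn_b hp.ne hp.isot (g * x) x⁻¹
  rw [mul_inv_cancel_right, wt_inv] at k3
  have k4 := hy.harn g x
  rw [← hPx, ← hg, ← hZ] at k1
  rw [← hPx, ← hg, ← hZ] at k3
  rw [← hPx] at k2
  rw [← hZ, ← hZx] at k4
  rw [← hPx, ← hg, ← hZ] at hu
  rw [← hZ] at hτ hR ⊢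
  rw [← hZx]
  have hτ0 : 0 < τ := by
    rw [hτ]
    exact div_pos (by linarith) hZ0
  have hw1 := one_le_wt x
  have hu' : u = Real.log Px - Real.log Z := by
    rw [hu, Real.log_div k2.ne' hZ0.ne']
  by_cases hc : T₃ ≤ Px
  · have e1 : Zx = Px := by
      rw [hZx, hPx]
      refine hp.eq (g * x) ?_
      rw [← hPx]
      linarith
    have hI := wnI_nonneg x
    refine ⟨?_, ?_, ?_⟩
    · have h2 : T₃ / Zx ≤ 1 := by
        rw [div_le_one hZx0, e1]
        exact hc
      rw [max_eq_right (by linarith)]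
      have h3 := Real.add_one_le_exp (-u)
      have h4 : τ * Real.exp (-u) = T₃ / Zx := by
        rw [hu, Real.exp_neg, Real.exp_log (div_pos k2 hZ0), hτ, e1, inv_div]
        field_simp
      have h5 := mul_le_mul_of_nonneg_left h3 hτ0.le
      have h6 : 0 ≤ 3 * τ * wnI x := by positivity
      rw [h4] at h5
      linarith
    · rw [e1, hu']
      linarith
    · have h2 : F g = F (g * x) := by
        refine hfl p hp g (g * x) ?_ ?_
        · rw [← hg, ← hZ]
          linarith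
        · rw [← hPx]
          linarith
      rw [h2, dist_self]
      positivity
  · rw [not_le] at hc
    have hw16 : 16 < wt x ^ 2 := by
      have h2 : wt x ^ 2 * Px < wt x ^ 2 * T₃ :=
        mul_lt_mul_of_pos_left hc (by positivity)
      have h3 : 16 * T₃ < wt x ^ 2 * T₃ := by linarith
      exact lt_of_mul_lt_mul_right h3 (by linarith)
    have hw2 : 2 ≤ wt x := by
      by_contra hlt
      rw [not_le] at hlt
      nlinarith
    obtain ⟨l0, l1, -⟩ := wn_log_le x
    obtain ⟨w, hw⟩ : ∃ w, w = Real.log (wt x) := ⟨_, rfl⟩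
    rw [← hw] at l0 l1
    have hlog2 : Real.log (wt x ^ 2) = 2 * w := by
      rw [Real.log_pow, hw]
      norm_num
    have hu2 : -(2 * w) ≤ u := by
      have h2 := Real.log_le_log hZ0 k3
      rw [Real.log_mul (by positivity) k2.ne', hlog2] at h2
      rw [hu']
      linarith
    have hτw : 1 ≤ τ * wt x ^ 2 := by
      rw [hτ, div_mul_eq_mul_div, le_div_iff₀ hZ0, one_mul, mul_comm]
      exact k3.trans (mul_le_mul_of_nonneg_left hc.le (by positivity))
    rw [wnI_of hw2]
    have hw3 : wt x ≤ wt x ^ 3 := le_self_pow₀ hw1 (by norm_num)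
    refine ⟨?_, ?_, ?_⟩
    · have h2 : max 0 (1 - T₃ / Zx) ≤ 1 := by
        refine max_le zero_le_one ?_
        have : 0 < T₃ / Zx := div_pos (by linarith) hZx0
        linarith
      have h3 : 0 ≤ τ * (u - 1 + 3 * wt x ^ 3) := mul_nonneg hτ0.le (by linarith)
      linarith
    · have h2 := Real.log_le_log hZx0 k4
      rw [Real.log_mul (by positivity) hZ0.ne', hlog2] at h2
      linarith
    · have h2 := hLip g x
      rw [← hw] at h2
      refine h2.trans ?_
      have h3 : w ≤ τ * wt x ^ 3 := by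
        calc w ≤ 1 * wt x := by linarith
          _ ≤ (τ * wt x ^ 2) * wt x := mul_le_mul_of_nonneg_right hτw (by linarith)
          _ = _ := by ring
      calc L * w ≤ L * (τ * wt x ^ 3) := mul_le_mul_of_nonneg_left h3 hL
        _ = _ := by ring

/-- the barrier -/
private noncomputable def wnh (T₃ : ℝ) (y : Vec n → ℝ) (g : SUGroup n) : ℝ :=
  max 0 (1 - T₃ / y (act g (base n)))

private noncomputable def wnl (y : Vec n → ℝ) (g : SUGroup n) : ℝ :=
  Real.log (y (act g (base n)))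

private theorem wn_zpos {T : ℝ} {y : Vec n → ℝ} (hy : Ht Γ T y) (g : SUGroup n) :
    1 ≤ y (act g (base n)) := hy.one_le _ (orbit_mem g)

private theorem wnh_cont {T : ℝ} {y : Vec n → ℝ} (hy : Ht Γ T y) (T₃ : ℝ) :
    Continuous (wnh T₃ y : SUGroup n → ℝ) := by
  have h1 := RC.ht_cont hy
  unfold wnh
  exact continuous_const.max (continuous_const.sub (continuous_const.div h1 fun g =>
    (lt_of_lt_of_le one_pos (wn_zpos hy g)).ne'))

private theorem wnh_bd {T : ℝ} {y : Vec n → ℝ} (hy : Ht Γ T y) {T₃ : ℝ} (h : 0 ≤ T₃)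
    (g : SUGroup n) : 0 ≤ wnh T₃ y g ∧ wnh T₃ y g ≤ 1 := by
  have h1 := wn_zpos hy g
  have h2 : 0 ≤ T₃ / y (act g (base n)) := div_nonneg h (by linarith)
  exact ⟨le_max_left _ _, max_le zero_le_one (by linarith)⟩

private theorem wnl_cont {T : ℝ} {y : Vec n → ℝ} (hy : Ht Γ T y) :
    Continuous (wnl y : SUGroup n → ℝ) :=
  (RC.ht_cont hy).log fun g => (lt_of_lt_of_le one_pos (wn_zpos hy g)).ne'

private theorem wnl_nonneg {T : ℝ} {y : Vec n → ℝ} (hy : Ht Γ T y) (g : SUGroup n) :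
    0 ≤ wnl y g := Real.log_nonneg (wn_zpos hy g)

private theorem wnl_mul {T : ℝ} {y : Vec n → ℝ} (hy : Ht Γ T y) (g x : SUGroup n) :
    wnl y (g * x) ≤ wnl y g + 4 * ch x ^ 2 := by
  have h1 := wn_zpos hy g
  have h2 := wn_zpos hy (g * x)
  have h3 := one_le_wt x
  have h4 := Real.log_le_log (by linarith) (hy.harn g x)
  rw [Real.log_mul (by positivity) (by positivity), Real.log_pow] at h4
  obtain ⟨-, -, h5⟩ := wn_log_le x
  unfold wnl
  push_cast at h4
  linarith

private theorem wn_inv {T : ℝ} {y : Vec n → ℝ} (hy : Ht Γ T y) {γ : SUGroup n} (hγ : γ ∈ Γ)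
    (g : SUGroup n) : y (act (γ * g) (base n)) = y (act g (base n)) := by
  rw [act_mul, hy.inv γ hγ _ (orbit_mem g)]

private theorem wn_ih {T : ℝ} {y : Vec n → ℝ} (hy : Ht Γ T y) {T₃ : ℝ} (h : 0 ≤ T₃) {s : ℕ}
    (hs : n + 1 < s) (g : SUGroup n) :
    Integrable (fun x => kap s x * wnh T₃ y (g * x)) (mu n) := by
  refine wn_integrable hs ((wnh_cont hy T₃).comp (continuous_const_mul g)) (A := 1) (D := 0)
    fun x => ?_
  obtain ⟨h1, h2⟩ := wnh_bd hy h (g * x)
  show |wnh T₃ y (g * x)| ≤ _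
  rw [abs_of_nonneg h1]
  linarith

private theorem wn_il {T : ℝ} {y : Vec n → ℝ} (hy : Ht Γ T y) {s : ℕ}
    (hs : n + 1 < s) (g : SUGroup n) :
    Integrable (fun x => kap s x * wnl y (g * x)) (mu n) := by
  refine wn_integrable hs ((wnl_cont hy).comp (continuous_const_mul g)) (A := wnl y g) (D := 4)
    fun x => ?_
  show |wnl y (g * x)| ≤ _
  rw [abs_of_nonneg (wnl_nonneg hy _)]
  exact wnl_mul hy g x

private theorem wn_id {F : SUGroup n → Y} (hF : Continuous F) {L : ℝ} (hL : 0 ≤ L)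
    (hLip : LipD L F) {s : ℕ} (hs : n + 1 < s) (g : SUGroup n) :
    Integrable (fun x => kap s x * dist (F g) (F (g * x))) (mu n) := by
  refine wn_integrable hs (continuous_const.dist (hF.comp (continuous_const_mul g))) (A := 0)
    (D := 2 * L) fun x => ?_
  rw [abs_of_nonneg dist_nonneg]
  obtain ⟨-, -, h5⟩ := wn_log_le x
  refine (hLip g x).trans ?_
  have h6 := mul_le_mul_of_nonneg_left h5 hL
  linarith

/-- the averages in a cusp -/
private theorem wn_avg {T T' L T₃ : ℝ} {y : Vec n → ℝ} (hy : Ht Γ T y) (h1 : 1 ≤ T₃)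
    (hT : T ≤ T₃) (hT' : T' ≤ T₃) {F : SUGroup n → Y} (hF : Continuous F) (hL : 0 ≤ L)
    (hLip : LipD L F) (hfl : Flat T T' y F) {g : SUGroup n}
    (hR : 16 * T₃ ≤ y (act g (base n))) {s : ℕ} (hs : n + 1 < s) {C : ℝ}
    (i3 : Integrable (fun x : SUGroup n => kap s x * wnI x) (mu n))
    (f3 : ∫ x : SUGroup n, kap s x * wnI x ∂(mu n) ≤ C / (s : ℝ) ^ 2) {τ : ℝ}
    (hτ : τ = T₃ / y (act g (base n))) :
    Boot.Q s (wnh T₃ y) g ≤ wnh T₃ y g - τ * (n / s) + 3 * τ * (C / (s : ℝ) ^ 2) ∧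
    Boot.Q s (wnl y) g ≤ wnl y g - n / s + 4 * (C / (s : ℝ) ^ 2) ∧
    ∫ x, kap s x * dist (F g) (F (g * x)) ∂(mu n) ≤ L * τ * (C / (s : ℝ) ^ 2) := by
  have hZ1 := wn_zpos hy g
  have hτ0 : 0 < τ := by
    rw [hτ]
    exact div_pos (by linarith) (by linarith)
  have hτ1 : τ ≤ 1 := by
    rw [hτ, div_le_one (by linarith)]
    linarith
  obtain ⟨p, hp, hg⟩ := exists_cuspV hy (show T ≤ y (act g (base n)) by linarith)
  obtain ⟨u, hu⟩ : ∃ u : SUGroup n → ℝ, u = fun x =>
    Real.log (yp p (act (g * x) (base n)) / yp p (act g (base n))) := ⟨_, rfl⟩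
  obtain ⟨i4, f4⟩ := int_log_yp_of hs hp.ne hp.isot g
  have i4' : Integrable (fun x => kap s x * u x) (mu n) := by
    rw [hu]
    exact i4
  have f4' : ∫ x, kap s x * u x ∂(mu n) ≤ -(n / s : ℝ) := by
    rw [hu]
    exact f4
  have pt := fun x => wn_point hy h1 hT hT' hL hLip hfl hp hg hR x hτ
    (show u x = _ by rw [hu])
  have i1 := integrable_kap (n := n) (s := s) (by omega)
  have f1 := integral_kap (n := n) (s := s) (by omega)
  have hh : wnh T₃ y g = 1 - τ := by
    rw [wnh, ← hτ, max_eq_right (by linarith)]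
  refine ⟨?_, ?_, ?_⟩
  · have i5 : Integrable (fun x => (1 - τ) * kap s x + τ * (kap s x * u x) +
        3 * τ * (kap s x * wnI x)) (mu n) :=
      ((i1.const_mul _).add (i4'.const_mul _)).add (i3.const_mul _)
    have h2 : Boot.Q s (wnh T₃ y) g ≤ ∫ x, ((1 - τ) * kap s x + τ * (kap s x * u x) +
        3 * τ * (kap s x * wnI x)) ∂(mu n) := by
      refine integral_mono (wn_ih hy (by linarith) hs g) i5 fun x => ?_
      refine (mul_le_mul_of_nonneg_left (pt x).1 (kap_nonneg s x)).trans (le_of_eq ?_)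
      ring
    rw [integral_add (f := fun x => (1 - τ) * kap s x + τ * (kap s x * u x))
      ((i1.const_mul _).add (i4'.const_mul _)) (i3.const_mul _),
      integral_add (i1.const_mul _) (i4'.const_mul _), integral_const_mul, integral_const_mul,
      integral_const_mul, f1] at h2
    have h3 := mul_le_mul_of_nonneg_left f4' hτ0.le
    have h4 := mul_le_mul_of_nonneg_left f3 (by positivity : 0 ≤ 3 * τ)
    rw [hh]
    linarith
  · have i5 : Integrable (fun x => wnl y g * kap s x + kap s x * u x +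
        4 * (kap s x * wnI x)) (mu n) :=
      ((i1.const_mul _).add i4').add (i3.const_mul _)
    have h2 : Boot.Q s (wnl y) g ≤ ∫ x, (wnl y g * kap s x + kap s x * u x +
        4 * (kap s x * wnI x)) ∂(mu n) := by
      refine integral_mono (wn_il hy hs g) i5 fun x => ?_
      refine (mul_le_mul_of_nonneg_left (pt x).2.1 (kap_nonneg s x)).trans (le_of_eq ?_)
      show kap s x * (wnl y g + u x + 4 * wnI x) = _
      ring
    rw [integral_add (f := fun x => wnl y g * kap s x + kap s x * u x)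
      ((i1.const_mul _).add i4') (i3.const_mul _),
      integral_add (i1.const_mul _) i4', integral_const_mul, integral_const_mul, f1] at h2
    linarith
  · have i5 := i3.const_mul (L * τ)
    have h2 : ∫ x, kap s x * dist (F g) (F (g * x)) ∂(mu n) ≤
        ∫ x, L * τ * (kap s x * wnI x) ∂(mu n) := by
      refine integral_mono (wn_id hF hL hLip hs g) i5 fun x => ?_
      refine (mul_le_mul_of_nonneg_left (pt x).2.2 (kap_nonneg s x)).trans (le_of_eq ?_)
      ring
    rw [integral_const_mul] at h2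
    exact h2.trans (mul_le_mul_of_nonneg_left f3 (mul_nonneg hL hτ0.le))

/-- **The maximum principle off the core** for lattices and flat Lipschitz maps. PROOF: let
`T₃ = max (max T T') 1`, `R = 16 * T₃`, `Z g = y (act g (base n))`, `B = L + 1`,
`h g = B * max 0 (1 - T₃ / Z g)`, `ℓ g = log (Z g)`. For `Z g ≥ R` take `p` from `exists_cuspV`, `Y = Z g`,
`u = log (yp p (g x) / Y)`. If `T₃ ≤ yp p (g x)` then `Z (g x) = yp p (g x)`,
`h (g x) ≤ B (1 - (T₃ / Y) (1 - u))` (`1 - u ≤ exp (-u)`), `ℓ (g x) = ℓ g + u`, `F (g x) = F g`.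
Otherwise `wt x ^ 2 ≥ Y / T₃ ≥ 16` (`yp_harn_b` for `x⁻¹`), `|u| ≤ 2 log wt x`,
`h (g x) ≤ B ≤ B (1 - (T₃ / Y) (1 - u)) + B (T₃ / Y) (1 + 2 log wt x)`,
`ℓ (g x) ≤ ℓ g + 2 log wt x ≤ ℓ g + u + 4 log wt x`, and
`dist (F g) (F (g x)) ≤ L log wt x ≤ L (T₃ / Y) wt x ^ 2 log wt x`. Integrate
(`int_log_yp_of`, `kap_tail_wt`, `integral_kap`): `Q s h g ≤ h g - B (T₃ / Y) (n / s - C / s ^ 2)`,
`Q s ℓ g ≤ ℓ g - n / s + C / s ^ 2`, `E g ≤ L (T₃ / Y) C / s ^ 2`; so for `s ≥ s₀`
(`s > (2 B + 1) C` or so) `Q s h g + E g < h g` and `Q s ℓ g ≤ ℓ g` at all `g` with `Z g ≥ R`.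
`S` = the compact set of `Ht.cpt R`. Given `W`, `M`, `ε > 0`: `V = W - M - h - ε ℓ` is `≤ 0` where
`Z ≤ R` and `V g < Q s V g` where `R ≤ Z g`. If `V g₁ > 0`, then `V` attains its maximum `V g* > 0`
(where `V > 0`: `ε ℓ ≤ C_W`, so `Z` is bounded there and `Ht.cpt` applies; `V` is invariant and
continuous by `ht_cont`), `R ≤ Z g*`, and `Q s V g* ≤ V g*`: contradiction. So `W ≤ M + h + ε ℓ` for all
`ε > 0`. -/
theorem cor_of_flat (hn : 1 ≤ n) {T T' L : ℝ} {y : Vec n → ℝ} (hy : Ht Γ T y)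
    {F : SUGroup n → Y} (hF : Continuous F) (hL : 0 ≤ L) (hLip : LipD L F)
    (hfl : Flat T T' y F) :
    ∃ (S : Set (SUGroup n)) (s₀ : ℕ) (B : ℝ), Cor Γ F S s₀ B := by
  obtain ⟨s₁, C, hC, htail⟩ := kap_tail_wt n 3
  obtain ⟨T₃, hT₃⟩ : ∃ T₃, T₃ = max (max T T') 1 := ⟨_, rfl⟩
  have t1 : 1 ≤ T₃ := hT₃ ▸ le_max_right _ _
  have t2 : T ≤ T₃ := hT₃ ▸ (le_max_left _ _).trans (le_max_left _ _)
  have t3 : T' ≤ T₃ := hT₃ ▸ (le_max_right _ _).trans (le_max_left _ _)
  obtain ⟨S, hS, hcov⟩ := hy.cpt (16 * T₃)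
  obtain ⟨B, hB⟩ : ∃ B, B = L + 1 := ⟨_, rfl⟩
  have hB1 : 1 ≤ B := by linarith
  have hn' : (1 : ℝ) ≤ n := by exact_mod_cast hn
  refine ⟨S, s₁ + n + 2 + (⌈(3 * B + L + 4) * C⌉₊ + 1), B, hS, by linarith, ?_⟩
  intro s hs M W hM hWc _ hWΓ hW0 hWb hsub hWS
  obtain ⟨CW, hCW⟩ := hWb
  have hs1 : n + 1 < s := by omega
  have hs0 : (0 : ℝ) < s := by
    have : 0 < s := by omega
    exact_mod_cast this
  have hsC : (3 * B + L + 4) * C < s := by
    have h2 := Nat.le_ceil ((3 * B + L + 4) * C)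
    have h3 : ((⌈(3 * B + L + 4) * C⌉₊ + 1 : ℕ) : ℝ) ≤ s := by
      exact_mod_cast (show ⌈(3 * B + L + 4) * C⌉₊ + 1 ≤ s by omega)
    push_cast at h3
    linarith
  obtain ⟨i3, f3⟩ := htail s (by omega)
  -- the drop of the barriers
  have key : ∀ g : SUGroup n, 16 * T₃ ≤ y (act g (base n)) →
      B * Boot.Q s (wnh T₃ y) g + ∫ x, kap s x * dist (F g) (F (g * x)) ∂(mu n) <
        B * wnh T₃ y g ∧ Boot.Q s (wnl y) g ≤ wnl y g := by
    intro g hg
    obtain ⟨k1, k2, k3⟩ := wn_avg hy t1 t2 t3 hF hL hLip hfl hg hs1 i3 f3 rfl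
    obtain ⟨τ, hτ⟩ : ∃ τ, τ = T₃ / y (act g (base n)) := ⟨_, rfl⟩
    rw [← hτ] at k1 k3
    have hτ0 : 0 < τ := by
      rw [hτ]
      exact div_pos (by linarith) (by linarith [wn_zpos hy g])
    have hCs : C / (s : ℝ) ^ 2 = C / s / s := by rw [sq, div_div]
    rw [hCs] at k1 k2 k3
    obtain ⟨c, hc⟩ : ∃ c, c = C / s := ⟨_, rfl⟩
    have hc0 : 0 < c := by
      rw [hc]
      positivity
    have hc1 : (3 * B + L + 4) * c < 1 := by
      rw [hc, ← mul_div_assoc, div_lt_one hs0]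
      exact hsC
    rw [← hc] at k1 k2 k3
    have hcs0 : 0 < c / s := div_pos hc0 hs0
    have e1 : (n : ℝ) / s = n * (1 / s) := by ring
    have e2 : c / s = c * (1 / s) := by ring
    obtain ⟨r, hr⟩ : ∃ r : ℝ, r = 1 / s := ⟨_, rfl⟩
    have hr0 : 0 < r := by
      rw [hr]
      positivity
    rw [e1, e2, ← hr] at k1
    rw [e1, e2, ← hr] at k2
    rw [e2, ← hr] at k3
    constructor
    · have h2 := mul_le_mul_of_nonneg_left k1 (by linarith : 0 ≤ B)
      have h3 : τ * r * ((3 * B + L) * c) < τ * r * (B * n) := by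
        refine mul_lt_mul_of_pos_left ?_ (mul_pos hτ0 hr0)
        have h4 : (1 : ℝ) ≤ B * n := by nlinarith
        have h5 : (3 * B + L) * c ≤ (3 * B + L + 4) * c := by nlinarith
        linarith
      linarith
    · have h3 : r * (4 * c) ≤ r * n := by
        refine mul_le_mul_of_nonneg_left ?_ hr0.le
        have h5 : 4 * c ≤ (3 * B + L + 4) * c := by nlinarith
        linarith
      linarith
  -- the maximum principle
  have main : ∀ ε : ℝ, 0 < ε → ∀ g, W g ≤ M + B * wnh T₃ y g + ε * wnl y g := by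
    intro ε hε
    obtain ⟨V, hV⟩ : ∃ V : SUGroup n → ℝ, V = fun g =>
      W g - M - B * wnh T₃ y g - ε * wnl y g := ⟨_, rfl⟩
    by_contra hcon
    push Not at hcon
    obtain ⟨g₁, hg₁⟩ := hcon
    have hV₁ : 0 < V g₁ := by
      rw [hV]
      show 0 < W g₁ - M - B * wnh T₃ y g₁ - ε * wnl y g₁
      linarith
    have hVc : Continuous V := by
      rw [hV]
      exact ((hWc.sub continuous_const).sub (continuous_const.mul (wnh_cont hy T₃))).sub
        (continuous_const.mul (wnl_cont hy))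
    have hVΓ : ∀ γ ∈ Γ, ∀ g, V (γ * g) = V g := by
      intro γ hγ g
      rw [hV]
      show W (γ * g) - M - B * wnh T₃ y (γ * g) - ε * wnl y (γ * g) = _
      rw [hWΓ γ hγ, wnh, wnl, wn_inv hy hγ]
      rfl
    obtain ⟨F₁, hF₁, hcov₁⟩ := hy.cpt (Real.exp (CW / ε))
    have hpos : ∀ g, 0 < V g → ∃ γ ∈ Γ, γ * g ∈ F₁ := by
      intro g hg
      apply hcov₁
      have hZ1 := wn_zpos hy g
      rw [← Real.exp_log (show 0 < y (act g (base n)) by linarith)]
      refine Real.exp_le_exp.2 ?_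
      rw [le_div_iff₀ hε]
      rw [hV] at hg
      have h2 : 0 < W g - M - B * wnh T₃ y g - ε * wnl y g := hg
      have h3 := (wnh_bd hy (T₃ := T₃) (by linarith) g).1
      have h4 := hCW g
      have h5 : 0 ≤ B * wnh T₃ y g := mul_nonneg (by linarith) h3
      have h6 : wnl y g = Real.log (y (act g (base n))) := rfl
      rw [← h6]
      linarith
    obtain ⟨γ₁, hγ₁, hm₁⟩ := hpos g₁ hV₁
    obtain ⟨a, -, ha⟩ := hF₁.exists_isMaxOn ⟨_, hm₁⟩ hVc.continuousOn
    have hVa : 0 < V a := by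
      have h2 : V (γ₁ * g₁) ≤ V a := ha hm₁
      rw [hVΓ γ₁ hγ₁] at h2
      linarith
    have hglob : ∀ g, V g ≤ V a := by
      intro g
      by_cases hg : 0 < V g
      · obtain ⟨γ, hγ, hm⟩ := hpos g hg
        have h2 : V (γ * g) ≤ V a := ha hm
        rwa [hVΓ γ hγ] at h2
      · linarith
    have hVa' : V a = W a - M - B * wnh T₃ y a - ε * wnl y a := by rw [hV]
    have ha1 := (wnh_bd hy (T₃ := T₃) (by linarith) a).1
    have ha2 := wnl_nonneg hy a
    have haR : 16 * T₃ ≤ y (act a (base n)) := by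
      by_contra hlt
      rw [not_le] at hlt
      obtain ⟨γ, hγ, hm⟩ := hcov a hlt.le
      have h2 := hWS _ hm
      rw [hWΓ γ hγ] at h2
      have h3 : 0 ≤ B * wnh T₃ y a := mul_nonneg (by linarith) ha1
      have h4 : 0 ≤ ε * wnl y a := mul_nonneg hε.le ha2
      linarith
    obtain ⟨k1, k2⟩ := key a haR
    have k3 := hsub a
    -- the average of `V`
    have iW : Integrable (fun x => kap s x * W (a * x)) (mu n) := by
      refine wn_integrable hs1 (hWc.comp (continuous_const_mul a)) (A := CW) (D := 0)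
        fun x => ?_
      show |W (a * x)| ≤ _
      rw [abs_of_nonneg (hW0 _)]
      linarith [hCW (a * x)]
    have i1 := integrable_kap (n := n) (s := s) (by omega)
    have f1 := integral_kap (n := n) (s := s) (by omega)
    have ih := wn_ih hy (T₃ := T₃) (by linarith) hs1 a
    have il := wn_il hy hs1 a
    have hQV : Boot.Q s V a = Boot.Q s W a - M - B * Boot.Q s (wnh T₃ y) a -
        ε * Boot.Q s (wnl y) a := by
      have e1 : Boot.Q s V a = ∫ x, (kap s x * W (a * x) - M * kap s x -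
          B * (kap s x * wnh T₃ y (a * x)) - ε * (kap s x * wnl y (a * x))) ∂(mu n) := by
        rw [hV]
        refine integral_congr_ae (Eventually.of_forall fun x => ?_)
        show kap s x * (W (a * x) - M - B * wnh T₃ y (a * x) - ε * wnl y (a * x)) = _
        ring
      rw [e1, integral_sub (f := fun x => kap s x * W (a * x) - M * kap s x -
          B * (kap s x * wnh T₃ y (a * x))) ((iW.sub (i1.const_mul _)).sub (ih.const_mul _))
          (il.const_mul _),
        integral_sub (f := fun x => kap s x * W (a * x) - M * kap s x)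
          (iW.sub (i1.const_mul _)) (ih.const_mul _),
        integral_sub iW (i1.const_mul _), integral_const_mul, integral_const_mul,
        integral_const_mul, f1, mul_one]
      rfl
    have hQle : Boot.Q s V a ≤ V a := by
      have iV : Integrable (fun x => kap s x * V (a * x)) (mu n) := by
        have h2 : Integrable (fun x => kap s x * W (a * x) - M * kap s x -
          B * (kap s x * wnh T₃ y (a * x)) - ε * (kap s x * wnl y (a * x))) (mu n) :=
          ((iW.sub (i1.const_mul _)).sub (ih.const_mul _)).sub (il.const_mul _)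
        refine h2.congr (Eventually.of_forall fun x => ?_)
        rw [hV]
        show _ = kap s x * (W (a * x) - M - B * wnh T₃ y (a * x) - ε * wnl y (a * x))
        ring
      have h2 : Boot.Q s V a ≤ ∫ x, V a * kap s x ∂(mu n) := by
        refine integral_mono iV (i1.const_mul _) fun x => ?_
        show kap s x * V (a * x) ≤ V a * kap s x
        rw [mul_comm (V a)]
        exact mul_le_mul_of_nonneg_left (hglob _) (kap_nonneg s x)
      rw [integral_const_mul, f1, mul_one] at h2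
      exact h2
    have h3 := mul_le_mul_of_nonneg_left k2 hε.le
    linarith
  intro g
  have h2 := (wnh_bd hy (T₃ := T₃) (by linarith) g).2
  have h3 : B * wnh T₃ y g ≤ B * 1 := mul_le_mul_of_nonneg_left h2 (by linarith)
  have h4 := wnl_nonneg hy g
  refine le_of_forall_pos_le_add fun δ hδ => ?_
  have h5 := main (δ / (wnl y g + 1)) (by positivity) g
  have h6 : δ / (wnl y g + 1) * wnl y g ≤ δ := by
    rw [div_mul_eq_mul_div, div_le_iff₀ (by positivity)]
    nlinarith
  linarith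

end Pool.Agent.Lib.MP_5d4057_al.IN
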